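import Mathlib

section

/-! Definitions for the Gram / Cauchy-Schwarz bound of the error term (helper11).
Paper proof: team-store `s6g_paper.md`. -/

namespace SG
open Complex MeasureTheory Filter Topology Set
open scoped Real ComplexConjugate

noncomputable section

/-- row vectors -/
abbrev V2 := ℝ × ℝ
/-- `2 × 2` real matrices `g = (u, v)` given by their rows -/
abbrev X4 := V2 × V2
abbrev SLZ := Matrix.SpecialLinearGroup (Fin 2) ℤ

/-- left multiplication, `γ g = (a u + b v, c u + d v)` -/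
def act (γ : SLZ) (g : X4) : X4 :=
  (((γ.1 0 0 : ℤ) : ℝ) • g.1 + ((γ.1 0 1 : ℤ) : ℝ) • g.2,
    ((γ.1 1 0 : ℤ) : ℝ) • g.1 + ((γ.1 1 1 : ℤ) : ℝ) • g.2)

/-- `u ∧ v` -/
def wd (u v : V2) : ℝ := u.1 * v.2 - u.2 * v.1

/-- determinant -/
def Dt (g : X4) : ℝ := wd g.1 g.2

/-- coordinate of a vector: `false` is the first, `true` the second -/
def co (i : Bool) (v : V2) : ℝ := if i then v.2 else v.1

/-- `e(x) = exp (2π i x)` -/
def ex (x : ℝ) : ℂ := cexp (2 * π * I * x)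

/-- bounded measurable functions supported in a compact part of `{Dt > 0}` -/
structure Adm (φ : X4 → ℂ) : Prop where
  meas : Measurable φ
  bdd : ∃ C : ℝ, ∀ g, ‖φ g‖ ≤ C
  supp : ∃ R r : ℝ, 0 < r ∧ ∀ g, φ g ≠ 0 → ‖g‖ ≤ R ∧ r ≤ Dt g

/-- `∑_{γ : P γ} ∫ φ(g) conj ψ(γ g) dg` -/
def pair (P : SLZ → Prop) (φ ψ : X4 → ℂ) : ℂ :=
  ∑' γ : {γ : SLZ // P γ}, ∫ g : X4, φ g * conj (ψ (act γ g))

/-- `Γ₀(N)` -/
def PG (N : ℕ) (γ : SLZ) : Prop := (N : ℤ) ∣ γ.1 1 0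
/-- `{h ∣ b, s ∣ c}` -/
def PA (h s : ℕ) (γ : SLZ) : Prop := (h : ℤ) ∣ γ.1 0 1 ∧ (s : ℤ) ∣ γ.1 1 0
/-- `{s ∣ c, h ∣ d}` -/
def PW (h s : ℕ) (γ : SLZ) : Prop := (s : ℤ) ∣ γ.1 1 0 ∧ (h : ℤ) ∣ γ.1 1 1

/-- `1_{[0,1)}(x_i/h) f(x_i/h, v, D)`, `x_i = u_i/v_i` -/
def poin (h : ℝ) (i : Bool) (f : ℝ → V2 → ℝ → ℂ) (g : X4) : ℂ :=
  if 0 ≤ co i g.1 / co i g.2 / h ∧ co i g.1 / co i g.2 / h < 1 then
    f (co i g.1 / co i g.2 / h) g.2 (Dt g) else 0

/-- admissible profiles, `1`-periodic in the first variable -/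
structure Per (i : Bool) (f : ℝ → V2 → ℝ → ℂ) : Prop where
  per : ∀ x v D, f (x + 1) v D = f x v D
  meas : Measurable fun p : ℝ × V2 × ℝ => f p.1 p.2.1 p.2.2
  bdd : ∃ C : ℝ, ∀ x v D, ‖f x v D‖ ≤ C
  supp : ∃ R r : ℝ, 0 < r ∧ ∀ x v D, f x v D ≠ 0 → ‖v‖ ≤ R ∧ r ≤ |co i v| ∧ r ≤ D ∧ D ≤ R

/-- thin sector along the axis `i`, sign `σ = ±1`:
`lam ≤ σ v_i ≤ 2 lam`, `|v_{other}| ≤ δ |v_i|` -/
def Sec (i : Bool) (σ lam δ : ℝ) : Set V2 :=
  {v | lam ≤ σ * co i v ∧ σ * co i v ≤ 2 * lam ∧ |co (!i) v| ≤ δ * |co i v|}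

/-- inverse of `h d` modulo `c`, as a natural number -/
def iv (c : ℕ) (h d : ℤ) : ℕ := (((h * d : ℤ) : ZMod c)⁻¹).val

/-- Kloosterman sum `S(1, k h⁻¹; c) = ∑_{d mod c, (d,c)=1} e((d + k (h d)⁻¹)/c)` -/
def Kl (c : ℕ) (h k : ℤ) : ℂ :=
  ∑ d ∈ (Finset.range c).filter (fun d => Nat.Coprime d c), ex ((d + k * iv c h d) / c)

/-- `∑_{c ≤ R, N ∣ c} |S(1,1;c)|/c` -/
def WW (N : ℕ) (R : ℝ) : ℝ :=
  ∑ c ∈ (Finset.Icc 1 ⌊R⌋₊).filter (fun c => N ∣ c), ‖Kl c 1 1‖ / c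

/-- volume of `{(v,v'') ∈ Sec1 × Sec2 : 1 ≤ (v'' ∧ v)/c ≤ 2}` -/
def Vol (lam1 lam2 δ c : ℝ) : ℝ :=
  (volume {p : V2 × V2 | p.1 ∈ Sec false 1 lam1 δ ∧ p.2 ∈ Sec true (-1) lam2 δ ∧
    1 ≤ wd p.2 p.1 / c ∧ wd p.2 p.1 / c ≤ 2}).toReal

/-- normalised window in the modulus -/
def Wf (δ x : ℝ) : ℝ := (δ ^ 2)⁻¹ * (x ^ 2)⁻¹ * Vol 1 1 δ x

/-- number of `(d,e,u,v,w)` with `d e = δ`, `u v w = k δ²`, `d ∣ v`, `d ∣ w`, `e ∣ u`, `e ∣ v w/d²` -/
def rr (dl k : ℕ) : ℕ :=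
  ∑ d ∈ dl.divisors, (((k * dl ^ 2).divisors ×ˢ (k * dl ^ 2).divisors ×ˢ (k * dl ^ 2).divisors).filter
    (fun t => t.1 * t.2.1 * t.2.2 = k * dl ^ 2 ∧ d ∣ t.2.1 ∧ d ∣ t.2.2 ∧ dl / d ∣ t.1 ∧
      dl / d ∣ (t.2.1 / d) * (t.2.2 / d))).card

/-- Mellin data of the kernel: `F x = ∫ k₊(t) x^{-1/2-it} dt + κ₀ = ∫ k₋(t) x^{1/2-it} dt` -/
structure KD (T ε : ℝ) (F : ℝ → ℂ) (kp km : ℝ → ℂ) (κ0 : ℂ) : Prop where
  ip : Integrable kp
  im : Integrable km
  rp : ∀ x : ℝ, 0 < x → F x = (∫ t : ℝ, kp t * (x : ℂ) ^ (-(1 / 2 + t * I : ℂ))) + κ0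
  rm : ∀ x : ℝ, 0 < x → F x = ∫ t : ℝ, km t * (x : ℂ) ^ (-(-1 / 2 + t * I : ℂ))
  bp : ∫ t : ℝ, ‖kp t‖ ≤ T ^ (1 / 2 + ε)
  bm : ∫ t : ℝ, ‖km t‖ ≤ T ^ (-1 / 2 + ε)
  tp : ∫ t in {t : ℝ | T ^ ε < |t|}, ‖kp t‖ ≤ T ^ (-40 : ℝ)
  tm : ∫ t in {t : ℝ | T ^ ε < |t|}, ‖km t‖ ≤ T ^ (-40 : ℝ)
  k0 : ‖κ0‖ ≤ T ^ (-40 : ℝ)

/-- transported integrand of one matrix `[[a,b],[c,h d]]` in the Gram identity -/
def cell (h : ℕ) (c : ℤ) (i j : Bool) (f f' : ℝ → V2 → ℝ → ℂ) (a d : ℤ) (p : V2 × V2) : ℂ :=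
  (if 0 ≤ co i p.2 / (co i p.1 * h * c) - d / c ∧ co i p.2 / (co i p.1 * h * c) - d / c < 1 then
    f (co i p.2 / (co i p.1 * h * c) - d / c) p.1 (wd p.2 p.1 / c) else 0) *
  conj (if 0 ≤ a / c - co j p.1 / (c * co j p.2) ∧ a / c - co j p.1 / (c * co j p.2) < 1 then
    f' (a / c - co j p.1 / (c * co j p.2)) p.2 (wd p.2 p.1 / c) else 0)

open scoped Classical in
/-- first profile of the separable expansion, `v = (v₁, ρ v₁)` -/
def PhiT (h : ℕ) (lam1 δ : ℝ) (z : ℂ) (t : ℕ × ℕ × ℕ) (v : V2) (D : ℝ) : ℂ :=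
  if v ∈ Sec false 1 lam1 δ ∧ 1 ≤ D ∧ D ≤ 2 then
    (v.1 : ℂ) ^ (-z) * (D : ℂ) ^ (z + t.2.1 + t.2.2) *
      (((((h : ℝ) * v.1 ^ 2) ^ t.2.1 : ℝ) : ℂ))⁻¹ * (((v.2 / v.1) ^ (t.1 + t.2.2) : ℝ) : ℂ)
  else 0

open scoped Classical in
/-- second profile of the separable expansion, `v = (ρ' w, -w)` -/
def PsiT (lam2 δ : ℝ) (z : ℂ) (t : ℕ × ℕ × ℕ) (v : V2) (D : ℝ) : ℂ :=
  if v ∈ Sec true (-1) lam2 δ ∧ 1 ≤ D ∧ D ≤ 2 then
    conj ((((-v.2 : ℝ) : ℂ)) ^ (-z)) * ((((v.2 ^ 2) ^ t.2.2 : ℝ) : ℂ))⁻¹ *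
      (((v.1 / (-v.2)) ^ (t.1 + t.2.1) : ℝ) : ℂ)
  else 0

/-- coefficients of the separable expansion -/
def cijl (z : ℂ) (t : ℕ × ℕ × ℕ) : ℂ :=
  (∏ m ∈ Finset.range t.1, (-z - t.2.1 - t.2.2 - m)) / (t.1.factorial : ℂ) *
    ((-2 * π * I) ^ t.2.1 / (t.2.1.factorial : ℂ)) * ((2 * π * I) ^ t.2.2 / (t.2.2.factorial : ℂ))

/-- the summand `r(k)/k · Kl c h (± k) F(h c²/k)` with `k ≥ 1` -/
def tm (F : ℝ → ℂ) (dl h : ℕ) (sg : ℤ) (c k : ℕ) : ℂ :=
  (rr dl k : ℂ) / k * Kl c h (sg * k) * F (h * (c : ℝ) ^ 2 / k)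

/-- the sum over `c` for a set `S` of `k` -/
def cs (F : ℝ → ℂ) (g : ℝ → ℝ) (T A : ℝ) (dl h s : ℕ) (sg : ℤ) (S : Finset ℕ) : ℂ :=
  ∑' c : ℕ, if 0 < c ∧ s ∣ c ∧ Nat.Coprime c h then
    (g (Real.log (A * c) / Real.log T) : ℂ) * ∑ k ∈ S, tm F dl h sg c k else 0

end

end SG

end

section

namespace SG
open Complex MeasureTheory Filter Topology Set
open scoped Real ComplexConjugate

private theorem B1_meas_co (i : Bool) : Measurable (co i) := by
  cases i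
  · exact measurable_fst
  · exact measurable_snd

private theorem B1_meas_Dt : Measurable Dt := by
  unfold Dt wd
  fun_prop

/-- **B1.** On the support `|v_i| ≥ r`, `|v| ≤ R`, `0 ≤ u_i/v_i < h`, `r ≤ D ≤ R`: `u_i = x v_i`, and the other
coordinate of `u` is determined by `D = u₁v₂ - u₂v₁` and bounded. Measurability: composition. -/
theorem poin_adm {h : ℝ} (hh : 0 < h) {i : Bool} {f : ℝ → V2 → ℝ → ℂ} (hf : Per i f) :
    Adm (poin h i f) := by
  refine ⟨?_, ?_, ?_⟩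
  · have hx : Measurable fun g : X4 => co i g.1 / co i g.2 / h :=
      (((B1_meas_co i).comp measurable_fst).div ((B1_meas_co i).comp measurable_snd)).div_const h
    have hs : MeasurableSet {g : X4 | 0 ≤ co i g.1 / co i g.2 / h ∧ co i g.1 / co i g.2 / h < 1} :=
      (measurableSet_le measurable_const hx).inter (measurableSet_lt hx measurable_const)
    have hg : Measurable fun g : X4 => f (co i g.1 / co i g.2 / h) g.2 (Dt g) :=
      hf.meas.comp (hx.prodMk (measurable_snd.prodMk B1_meas_Dt))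
    exact Measurable.ite hs hg measurable_const
  · obtain ⟨C, hC⟩ := hf.bdd
    refine ⟨|C|, fun g => ?_⟩
    unfold poin
    split_ifs
    · exact (hC _ _ _).trans (le_abs_self C)
    · simp
  · obtain ⟨R, r, hr, hs⟩ := hf.supp
    refine ⟨R + h * R + (h * R * R + R) / r, r, hr, fun g hg => ?_⟩
    unfold poin at hg
    split_ifs at hg with hc
    · obtain ⟨h1, h2, h3, h4⟩ := hs _ _ _ hg
      have hR : 0 < R := hr.trans_le (h3.trans h4)
      have hD0 : 0 < Dt g := hr.trans_le h3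
      have hDR : |Dt g| ≤ R := by rw [abs_of_pos hD0]; exact h4
      have hv1 : |g.2.1| ≤ R := by
        have := (norm_fst_le g.2).trans h1; rwa [Real.norm_eq_abs] at this
      have hv2 : |g.2.2| ≤ R := by
        have := (norm_snd_le g.2).trans h1; rwa [Real.norm_eq_abs] at this
      have hvi : |co i g.2| ≤ R := by cases i <;> assumption
      have hvi0 : co i g.2 ≠ 0 := by
        intro h0; rw [h0, abs_zero] at h2; linarith
      have hui : |co i g.1| ≤ h * R := by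
        have e : co i g.1 = co i g.1 / co i g.2 / h * h * co i g.2 := by
          field_simp
        rw [e, abs_mul, abs_mul, abs_of_nonneg hc.1, abs_of_pos hh]
        have : co i g.1 / co i g.2 / h * h ≤ 1 * h := mul_le_mul_of_nonneg_right hc.2.le hh.le
        rw [one_mul] at this
        exact mul_le_mul this hvi (abs_nonneg _) hh.le
      have hother : |co (!i) g.1| ≤ (h * R * R + R) / r := by
        rw [le_div_iff₀ hr]
        cases i
        · -- `u₂ v₁ = u₁ v₂ - D`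
          have e : g.1.2 * g.2.1 = g.1.1 * g.2.2 - Dt g := by
            unfold Dt wd; ring
          have e1 : |g.1.2 * g.2.1| ≤ h * R * R + R := by
            rw [e]
            refine (abs_sub _ _).trans ?_
            rw [abs_mul]
            exact add_le_add (mul_le_mul hui hv2 (abs_nonneg _) (by positivity)) hDR
          have e2 : |g.1.2| * r ≤ |g.1.2| * |g.2.1| := mul_le_mul_of_nonneg_left h2 (abs_nonneg _)
          rw [abs_mul] at e1
          exact e2.trans e1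
        · have e : g.1.1 * g.2.2 = g.1.2 * g.2.1 + Dt g := by
            unfold Dt wd; ring
          have e1 : |g.1.1 * g.2.2| ≤ h * R * R + R := by
            rw [e]
            refine (abs_add_le _ _).trans ?_
            rw [abs_mul]
            exact add_le_add (mul_le_mul hui hv1 (abs_nonneg _) (by positivity)) hDR
          have e2 : |g.1.1| * r ≤ |g.1.1| * |g.2.2| := mul_le_mul_of_nonneg_left h2 (abs_nonneg _)
          rw [abs_mul] at e1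
          exact e2.trans e1
      have hQ : 0 ≤ (h * R * R + R) / r := by positivity
      have hhR : 0 ≤ h * R := by positivity
      have hu1 : |g.1.1| ≤ R + h * R + (h * R * R + R) / r := by
        cases i
        · have : |g.1.1| ≤ h * R := hui
          linarith
        · have : |g.1.1| ≤ (h * R * R + R) / r := hother
          linarith
      have hu2 : |g.1.2| ≤ R + h * R + (h * R * R + R) / r := by
        cases i
        · have : |g.1.2| ≤ (h * R * R + R) / r := hother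
          linarith
        · have : |g.1.2| ≤ h * R := hui
          linarith
      refine ⟨?_, h3⟩
      rw [Prod.norm_def, Prod.norm_def, Prod.norm_def]
      simp only [Real.norm_eq_abs]
      refine max_le (max_le hu1 hu2) (max_le ?_ ?_) <;> linarith
    · exact absurd rfl hg

end SG

end

section

namespace SG
open Complex MeasureTheory Filter Topology Set
open scoped Real ComplexConjugate

/-- the divisor bound -/
private theorem F0_card_divisors_le_rpow (σ : ℝ) (hσ : 0 < σ) : ∃ C : ℝ, 1 ≤ C ∧ ∀ n : ℕ, n ≠ 0 →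
    ((n.divisors.card : ℕ) : ℝ) ≤ C * (n : ℝ) ^ σ := by
  have hl2 : 0 < Real.log 2 := Real.log_pos (by norm_num)
  set A : ℝ := max 1 (1 / (σ * Real.log 2)) with hA
  have hA1 : 1 ≤ A := le_max_left _ _
  have hA2 : 1 ≤ A * (σ * Real.log 2) := by
    have h : 1 / (σ * Real.log 2) ≤ A := le_max_right _ _
    rwa [div_le_iff₀ (by positivity)] at h
  set P0 : ℕ := ⌈(2 : ℝ) ^ (1 / σ)⌉₊ with hP0
  -- small primes
  have hsmall : ∀ p : ℕ, p.Prime → ∀ k : ℕ, ((k + 1 : ℕ) : ℝ) ≤ A * ((p : ℝ) ^ k) ^ σ := by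
    intro p hp k
    have hp2 : (2 : ℝ) ≤ p := by exact_mod_cast hp.two_le
    have h1 : ((2 : ℝ) ^ k) ^ σ ≤ ((p : ℝ) ^ k) ^ σ :=
      Real.rpow_le_rpow (by positivity) (pow_le_pow_left₀ (by norm_num) hp2 k) hσ.le
    have h2 : 1 + k * (σ * Real.log 2) ≤ ((2 : ℝ) ^ k) ^ σ := by
      rw [Real.rpow_def_of_pos (by positivity), Real.log_pow]
      have := Real.add_one_le_exp (k * Real.log 2 * σ)
      linarith
    have h3 : ((k + 1 : ℕ) : ℝ) ≤ A * (1 + k * (σ * Real.log 2)) := by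
      push_cast
      have hk : (0 : ℝ) ≤ k := Nat.cast_nonneg _
      nlinarith
    exact h3.trans (mul_le_mul_of_nonneg_left (h2.trans h1) (by positivity))
  -- large primes
  have hlarge : ∀ p : ℕ, P0 ≤ p → ∀ k : ℕ, ((k + 1 : ℕ) : ℝ) ≤ ((p : ℝ) ^ k) ^ σ := by
    intro p hp k
    have h1 : (2 : ℝ) ^ (1 / σ) ≤ p := (Nat.le_ceil _).trans (by exact_mod_cast hp)
    have h2 : (2 : ℝ) ≤ (p : ℝ) ^ σ := by
      calc (2 : ℝ) = ((2 : ℝ) ^ (1 / σ)) ^ σ := by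
            rw [← Real.rpow_mul (by norm_num), one_div_mul_cancel hσ.ne', Real.rpow_one]
        _ ≤ (p : ℝ) ^ σ := Real.rpow_le_rpow (by positivity) h1 hσ.le
    have h3 : ((p : ℝ) ^ k) ^ σ = ((p : ℝ) ^ σ) ^ k := by
      rw [← Real.rpow_natCast, ← Real.rpow_mul (by positivity), mul_comm,
        Real.rpow_mul (by positivity), Real.rpow_natCast]
    have h4 : k + 1 ≤ 2 ^ k := Nat.lt_two_pow_self
    calc ((k + 1 : ℕ) : ℝ) ≤ (2 : ℝ) ^ k := by exact_mod_cast h4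
      _ ≤ ((p : ℝ) ^ σ) ^ k := pow_le_pow_left₀ (by norm_num) h2 k
      _ = _ := h3.symm
  refine ⟨A ^ P0, one_le_pow₀ hA1, fun n hn => ?_⟩
  rw [Nat.card_divisors hn]
  have hn' : (n : ℝ) = ∏ p ∈ n.primeFactors, (p : ℝ) ^ (n.factorization p) := by
    conv_lhs => rw [← Nat.prod_factorization_pow_eq_self hn]
    rw [Finsupp.prod, Nat.support_factorization]
    push_cast
    rfl
  have hpw : (n : ℝ) ^ σ = ∏ p ∈ n.primeFactors, ((p : ℝ) ^ (n.factorization p)) ^ σ := by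
    conv_lhs => rw [hn']
    rw [Real.finsetProd_rpow _ _ (fun i _ => by positivity)]
  rw [hpw, Nat.cast_prod]
  have hterm : ∀ p ∈ n.primeFactors, ((n.factorization p + 1 : ℕ) : ℝ) ≤
      (if p < P0 then A else 1) * ((p : ℝ) ^ (n.factorization p)) ^ σ := by
    intro p hp
    split_ifs with h
    · exact hsmall p (Nat.prime_of_mem_primeFactors hp) _
    · rw [one_mul]
      exact hlarge p (not_lt.1 h) _
  refine (Finset.prod_le_prod (fun _ _ => Nat.cast_nonneg _) hterm).trans ?_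
  rw [Finset.prod_mul_distrib]
  apply mul_le_mul_of_nonneg_right _ (Finset.prod_nonneg fun _ _ => by positivity)
  rw [Finset.prod_ite, Finset.prod_const, Finset.prod_const_one, mul_one]
  apply pow_le_pow_right₀ hA1
  calc (n.primeFactors.filter (fun p => p < P0)).card ≤ (Finset.range P0).card := by
        apply Finset.card_le_card
        intro p hp
        rw [Finset.mem_filter] at hp
        exact Finset.mem_range.2 hp.2
    _ = P0 := Finset.card_range _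


theorem tau_bound {ε : ℝ} (hε : 0 < ε) : ∃ C : ℝ, 0 < C ∧ ∀ n : ℕ, 0 < n →
    (n.divisors.card : ℝ) ≤ C * (n : ℝ) ^ ε := by
  obtain ⟨C, hC, h⟩ := F0_card_divisors_le_rpow ε hε
  exact ⟨C, by linarith, fun n hn => h n hn.ne'⟩

/-- **F0.** divisor bound: `rr dl k ≤ τ(dl) τ(k dl²)³`. -/
theorem rr_bound {ε : ℝ} (hε : 0 < ε) : ∃ C : ℝ, 0 < C ∧ ∀ dl k : ℕ, 0 < dl → 0 < k →
    (rr dl k : ℝ) ≤ C * ((dl : ℝ) * k) ^ ε := by
  obtain ⟨C, hC, h⟩ := tau_bound (ε := ε / 7) (by positivity)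
  refine ⟨C * C ^ 3, by positivity, fun dl k hdl hk => ?_⟩
  have h1 : rr dl k ≤ dl.divisors.card * (k * dl ^ 2).divisors.card ^ 3 := by
    unfold rr
    calc _ ≤ ∑ d ∈ dl.divisors, (k * dl ^ 2).divisors.card ^ 3 := by
          apply Finset.sum_le_sum
          intro d hd
          refine (Finset.card_filter_le _ _).trans ?_
          rw [Finset.card_product, Finset.card_product]
          apply le_of_eq
          ring
      _ = _ := by rw [Finset.sum_const, smul_eq_mul]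
  have h2 := h dl hdl
  have h3 := h (k * dl ^ 2) (by positivity)
  have hdl1 : (1 : ℝ) ≤ dl := by exact_mod_cast hdl
  have hk1 : (1 : ℝ) ≤ k := by exact_mod_cast hk
  calc (rr dl k : ℝ) ≤ ((dl.divisors.card * (k * dl ^ 2).divisors.card ^ 3 : ℕ) : ℝ) := by
        exact_mod_cast h1
    _ = (dl.divisors.card : ℝ) * ((k * dl ^ 2).divisors.card : ℝ) ^ 3 := by push_cast; ring
    _ ≤ (C * (dl : ℝ) ^ (ε / 7)) * (C * (((k * dl ^ 2 : ℕ) : ℝ)) ^ (ε / 7)) ^ 3 := by gcongr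
    _ = C * C ^ 3 * ((dl : ℝ) ^ (ε / 7) * ((((k * dl ^ 2 : ℕ) : ℝ)) ^ (ε / 7)) ^ 3) := by ring
    _ = C * C ^ 3 * ((dl : ℝ) ^ ε * (k : ℝ) ^ (3 * ε / 7)) := by
        congr 1
        push_cast
        rw [Real.mul_rpow (by positivity) (by positivity), mul_pow,
          ← Real.rpow_natCast ((k : ℝ) ^ (ε / 7)) 3, ← Real.rpow_natCast (((dl : ℝ) ^ 2) ^ (ε / 7)) 3,
          ← Real.rpow_natCast (dl : ℝ) 2, ← Real.rpow_mul (by positivity),
          ← Real.rpow_mul (by positivity), ← Real.rpow_mul (by positivity)]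
        rw [mul_comm ((k : ℝ) ^ _) _, ← mul_assoc, ← Real.rpow_add (by positivity)]
        congr 2
        · push_cast; ring
        · push_cast; ring
    _ ≤ C * C ^ 3 * ((dl : ℝ) ^ ε * (k : ℝ) ^ ε) := by
        gcongr
        linarith
    _ = C * C ^ 3 * ((dl : ℝ) * k) ^ ε := by rw [Real.mul_rpow (by positivity) (by positivity)]

/-- trivial bounds -/
theorem Kl_le (c : ℕ) (h k : ℤ) : ‖Kl c h k‖ ≤ c := by
  unfold Kl
  refine (norm_sum_le _ _).trans ?_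
  have h1 : ∀ x : ℝ, ‖ex x‖ = 1 := by
    intro x
    unfold ex
    rw [show (2 * π * I * x : ℂ) = ((2 * π * x : ℝ) : ℂ) * I by push_cast; ring]
    exact Complex.norm_exp_ofReal_mul_I _
  simp_rw [h1]
  rw [Finset.sum_const, nsmul_eq_mul, mul_one]
  exact_mod_cast (Finset.card_filter_le _ _).trans (by simp)

theorem WW_nonneg (N : ℕ) (R : ℝ) : 0 ≤ WW N R :=
  Finset.sum_nonneg fun _ _ => by positivity

theorem WW_mono (N : ℕ) {R R' : ℝ} (h : R ≤ R') : WW N R ≤ WW N R' := by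
  unfold WW
  apply Finset.sum_le_sum_of_subset_of_nonneg
  · intro c hc
    simp only [Finset.mem_filter, Finset.mem_Icc] at hc ⊢
    exact ⟨⟨hc.1.1, hc.1.2.trans (Nat.floor_mono h)⟩, hc.2⟩
  · intro _ _ _
    positivity

end SG

end
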