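import Pool.Agent.Lib.MP_39df77_nt.S6Defs
import Pool.Agent.Lib.MP_39df77_nt.Part03
import Pool.Agent.Lib.MP_39df77_nt.Part08

section

namespace S6
open Complex MeasureTheory Filter Topology Set
open scoped Real ComplexConjugate

/-! ### The main term: `∫ ker / zz` -/

lemma K0_HH_pos {T : ℝ} (hT : 1 < T) : 0 < HH T := div_pos (by linarith) (Real.log_pos hT)

lemma K0_one_le_HH {T : ℝ} (hT : 1 < T) : 1 ≤ HH T := by
  unfold HH
  rw [le_div_iff₀ (Real.log_pos hT), one_mul]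
  exact Real.log_le_self (by linarith)

lemma K0_near {w : ℂ} (hw : w ≠ 0) (him : |w.im| ≤ 1 / 4) :
    1 - cexp (-w) ≠ 0 ∧ ‖I / (1 - cexp (-w)) - I / w‖ ≤ 8 := by
  have hw0 : 0 < ‖w‖ := norm_pos_iff.2 hw
  rcases le_or_gt ‖w‖ (1 / 2) with h | h
  · set e : ℂ := cexp (-w) - 1 - (-w) with he
    have h1 : ‖e‖ ≤ ‖w‖ ^ 2 := by
      have := norm_exp_sub_one_sub_id_le (x := -w) (by rw [norm_neg]; linarith)
      rwa [norm_neg] at this
    have h2 : 1 - cexp (-w) = w - e := by rw [he]; ring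
    have h3 : ‖w‖ / 2 ≤ ‖w - e‖ := by
      have := norm_sub_norm_le w e
      nlinarith
    have h4 : w - e ≠ 0 := norm_pos_iff.1 (by linarith)
    refine ⟨by rw [h2]; exact h4, ?_⟩
    rw [h2]
    have h5 : I / (w - e) - I / w = I * e / ((w - e) * w) := by
      field_simp
      ring
    rw [h5, norm_div, norm_mul, norm_mul, norm_I, one_mul]
    rw [div_le_iff₀ (by positivity)]
    nlinarith [mul_le_mul_of_nonneg_right h3 hw0.le]
  · have hre : 2 / 5 < |w.re| := by
      have h1 : ‖w‖ ^ 2 = w.re ^ 2 + w.im ^ 2 := by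
        rw [← normSq_eq_norm_sq, normSq_apply]
        ring
      have h2 : w.im ^ 2 ≤ 1 / 16 := by
        rw [← sq_abs]
        nlinarith [abs_nonneg w.im]
      have h3 : (1 / 2 : ℝ) ^ 2 < ‖w‖ ^ 2 := by nlinarith
      have h4 : (2 / 5 : ℝ) ^ 2 < |w.re| ^ 2 := by
        rw [sq_abs]
        nlinarith
      exact lt_of_pow_lt_pow_left₀ 2 (abs_nonneg _) h4
    have hn : ‖cexp (-w)‖ = Real.exp (-w.re) := by rw [norm_exp, neg_re]
    have h6 : 2 / 7 ≤ ‖1 - cexp (-w)‖ := by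
      have h7 := abs_norm_sub_norm_le (1 : ℂ) (cexp (-w))
      rw [norm_one, hn] at h7
      refine le_trans ?_ h7
      rcases le_total 0 w.re with h8 | h8
      · rw [abs_of_nonneg h8] at hre
        have h9 : Real.exp (-w.re) ≤ 5 / 7 := by
          rw [Real.exp_neg]
          have h10 : 7 / 5 ≤ Real.exp w.re := by
            have := Real.add_one_le_exp w.re
            linarith
          calc (Real.exp w.re)⁻¹ ≤ (7 / 5 : ℝ)⁻¹ := inv_anti₀ (by norm_num) h10
            _ = 5 / 7 := by norm_num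
        refine le_trans ?_ (le_abs_self _)
        linarith
      · rw [abs_of_nonpos h8] at hre
        have h9 := Real.add_one_le_exp (-w.re)
        rw [abs_sub_comm]
        refine le_trans ?_ (le_abs_self _)
        linarith
    have h7 : 1 - cexp (-w) ≠ 0 := norm_pos_iff.1 (by linarith)
    refine ⟨h7, ?_⟩
    refine (norm_sub_le _ _).trans ?_
    rw [norm_div, norm_div, norm_I]
    have h8 : 1 / ‖1 - cexp (-w)‖ ≤ 7 / 2 := by
      rw [div_le_iff₀ (by linarith)]
      linarith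
    have h9 : 1 / ‖w‖ ≤ 2 := by
      rw [div_le_iff₀ hw0]
      linarith
    linarith

lemma K0_om_ne {T : ℝ} (hT : 0 < T) (ξ : ℝ) : om T ξ ≠ 0 := by
  intro h
  have := congrArg Complex.im h
  simp only [om, add_im, ofReal_im, mul_im, ofReal_re, I_im, mul_one, I_re, mul_zero, add_zero,
    zero_add, zero_im] at this
  exact (inv_pos.2 hT).ne' this

lemma K0_om_im (T ξ : ℝ) : (om T ξ).im = T⁻¹ := by
  simp [om]

lemma K0_om_re (T ξ : ℝ) : (om T ξ).re = ξ := by
  simp [om]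

lemma K0_inv_zz (T ξ : ℝ) : (zz T ξ)⁻¹ = (1 / (2 * π) : ℂ) * (I / (1 - cexp (-(om T ξ)))) := by
  unfold zz
  have h1 : (2 * π * I * (cexp (-(om T ξ)) - 1) : ℂ) = -(2 * π * I) * (1 - cexp (-(om T ξ))) := by
    ring
  rw [h1, mul_inv]
  have h2 : (-(2 * (π : ℂ) * I))⁻¹ = 1 / (2 * π) * I := by
    have hπ : (π : ℂ) ≠ 0 := ofReal_ne_zero.2 Real.pi_ne_zero
    rw [inv_eq_iff_eq_inv, one_div, mul_inv, inv_inv, inv_I]
    ring
  rw [h2, div_eq_mul_inv I]
  ring

lemma K0_ker_norm {T : ℝ} (hT : Real.exp 1 ≤ T) {τ : ℝ} (h1 : τ ≤ T) (ξ : ℝ) :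
    ‖ker T τ ξ‖ ≤ HH T * Real.exp 2 * Real.exp (-(HH T ^ 2 / 8) * ξ ^ 2) := by
  have hT1 : 1 < T := lt_of_lt_of_le (by have := Real.add_one_lt_exp (one_ne_zero); linarith) hT
  have hT0 : 0 < T := by linarith
  have hH := K0_HH_pos hT1
  have hH1 := K0_one_le_HH hT1
  have hlog : 1 ≤ Real.log T := by
    rw [Real.le_log_iff_exp_le hT0]
    exact hT
  have hpi : (1 : ℝ) ≤ 2 * √π := by
    have : (1 : ℝ) ≤ √π := by
      rw [Real.one_le_sqrt]
      linarith [Real.pi_gt_three]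
    linarith
  have e1 : ‖ker T τ ξ‖ = HH T / (2 * √π) *
      Real.exp (-(HH T ^ 2 * (ξ ^ 2 - (T⁻¹) ^ 2) / 4)) * Real.exp (-(ξ / 2 - τ * T⁻¹)) := by
    unfold ker gg
    rw [norm_mul, norm_mul, norm_real, norm_exp, norm_exp, Real.norm_of_nonneg (by positivity)]
    congr 2
    · congr 1
      have : (-((HH T : ℂ) ^ 2 * om T ξ ^ 2 / 4)) =
          ((-(HH T ^ 2 * (ξ ^ 2 - (T⁻¹) ^ 2) / 4) : ℝ) : ℂ) +
            ((-(HH T ^ 2 * (2 * ξ * T⁻¹) / 4) : ℝ) : ℂ) * I := by
        unfold om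
        push_cast
        ring_nf
        rw [I_sq]
        ring
      rw [this]
      simp only [add_re, mul_re, ofReal_re, ofReal_im, I_re, I_im, mul_zero, zero_mul, sub_zero,
        add_zero]
    · have : (-(om T ξ * (1 / 2 + τ * I))) =
          ((-(ξ / 2 - τ * T⁻¹) : ℝ) : ℂ) + ((-(ξ * τ + T⁻¹ / 2) : ℝ) : ℂ) * I := by
        unfold om
        push_cast
        ring_nf
        rw [I_sq]
        ring
      rw [this]
      simp only [add_re, mul_re, ofReal_re, ofReal_im, I_re, I_im, mul_zero, zero_mul, sub_zero,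
        add_zero]
  rw [e1, mul_assoc, ← Real.exp_add, mul_assoc (HH T), ← Real.exp_add]
  have e2 : HH T / (2 * √π) ≤ HH T := div_le_self hH.le hpi
  refine mul_le_mul e2 (Real.exp_le_exp.2 ?_) (Real.exp_pos _).le hH.le
  have e3 : HH T * T⁻¹ ≤ 1 := by
    unfold HH
    rw [div_mul_eq_mul_div, mul_inv_cancel₀ hT0.ne', div_le_one (by linarith)]
    exact hlog
  have e4 : (HH T * T⁻¹) ^ 2 ≤ 1 := pow_le_one₀ (by positivity) e3
  have e5 : τ * T⁻¹ ≤ 1 := by
    rw [mul_inv_le_iff₀ hT0]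
    linarith
  have e6 : -(ξ / 2) ≤ HH T ^ 2 * ξ ^ 2 / 8 + 1 / 2 := by
    nlinarith [sq_nonneg (HH T * ξ / 2 + 1), sq_nonneg (ξ + 2), sq_nonneg ξ,
      mul_nonneg (sub_nonneg.2 hH1) (sq_nonneg ξ), mul_nonneg (mul_nonneg (sub_nonneg.2 hH1) hH.le) (sq_nonneg ξ)]
  nlinarith

lemma K0_ker_cont (T τ : ℝ) : Continuous (fun ξ : ℝ => ker T τ ξ) := by
  unfold ker gg om
  fun_prop

lemma K0_zz_cont (T : ℝ) : Continuous (fun ξ : ℝ => zz T ξ) := by
  unfold zz om
  fun_prop

lemma K0_gauss_int {T : ℝ} (hT : 1 < T) : Integrable (fun ξ : ℝ =>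
    HH T * Real.exp 2 * Real.exp (-(HH T ^ 2 / 8) * ξ ^ 2)) ∧
    ∫ ξ : ℝ, HH T * Real.exp 2 * Real.exp (-(HH T ^ 2 / 8) * ξ ^ 2) = Real.exp 2 * √(8 * π) := by
  have hH := K0_HH_pos hT
  refine ⟨(integrable_exp_neg_mul_sq (by positivity)).const_mul _, ?_⟩
  rw [integral_const_mul, integral_gaussian]
  have : π / (HH T ^ 2 / 8) = (8 * π) / HH T ^ 2 := by
    field_simp
  rw [this, Real.sqrt_div' _ (by positivity), Real.sqrt_sq hH.le]
  field_simp

lemma K0_ker_int {T : ℝ} (hT : Real.exp 1 ≤ T) {τ : ℝ} (h1 : τ ≤ T) :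
    Integrable (fun ξ : ℝ => ker T τ ξ) ∧ ∫ ξ : ℝ, ‖ker T τ ξ‖ ≤ Real.exp 2 * √(8 * π) := by
  have hT1 : 1 < T := lt_of_lt_of_le (by have := Real.add_one_lt_exp (one_ne_zero); linarith) hT
  obtain ⟨g1, g2⟩ := K0_gauss_int hT1
  have hint : Integrable (fun ξ : ℝ => ker T τ ξ) :=
    g1.mono' (K0_ker_cont T τ).aestronglyMeasurable
      (Eventually.of_forall fun ξ => K0_ker_norm hT h1 ξ)
  refine ⟨hint, ?_⟩
  rw [← g2]
  exact integral_mono hint.norm g1 (fun ξ => K0_ker_norm hT h1 ξ)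

lemma K0_gauss {T : ℝ} (hT : 1 < T) (τ : ℝ) (s : ℂ) :
    ∫ ξ : ℝ, ker T τ ξ * cexp (om T ξ * s) = VV T τ s := by
  have hH := K0_HH_pos hT
  have hHc : (HH T : ℂ) ≠ 0 := ofReal_ne_zero.2 hH.ne'
  set b : ℂ := -((HH T : ℂ) ^ 2 / 4) with hb
  set c : ℂ := -((HH T : ℂ) ^ 2 / 4) * (2 * ((T⁻¹ : ℝ) : ℂ) * I) + (s - (1 / 2 + τ * I)) with hc
  set d : ℂ := -((HH T : ℂ) ^ 2 / 4) * (((T⁻¹ : ℝ) : ℂ) * I) ^ 2 +
    ((T⁻¹ : ℝ) : ℂ) * I * (s - (1 / 2 + τ * I)) with hd
  have h1 : ∀ ξ : ℝ, ker T τ ξ * cexp (om T ξ * s) =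
      ((HH T / (2 * √π) : ℝ) : ℂ) * cexp (b * ξ ^ 2 + c * ξ + d) := by
    intro ξ
    unfold ker gg
    rw [mul_assoc, mul_assoc, ← Complex.exp_add, ← Complex.exp_add]
    congr 2
    rw [hb, hc, hd]
    unfold om
    ring
  have hbre : b.re < 0 := by
    have : b = ((-(HH T ^ 2 / 4) : ℝ) : ℂ) := by rw [hb]; push_cast; ring
    rw [this, ofReal_re]
    have : 0 < HH T ^ 2 / 4 := by positivity
    linarith
  simp_rw [h1]
  rw [integral_const_mul, integral_cexp_quadratic hbre]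
  have h2 : ((π : ℂ) / -b) ^ (1 / 2 : ℂ) = ((2 * √π / HH T : ℝ) : ℂ) := by
    have e1 : (π : ℂ) / -b = ((4 * π / HH T ^ 2 : ℝ) : ℂ) := by
      rw [hb]
      push_cast
      field_simp
    have e2 : (1 / 2 : ℂ) = ((1 / 2 : ℝ) : ℂ) := by push_cast; ring
    rw [e1, e2, ← ofReal_cpow (by positivity), ← Real.sqrt_eq_rpow]
    congr 1
    rw [Real.sqrt_div' _ (by positivity), Real.sqrt_sq hH.le, Real.sqrt_mul (by norm_num),
      show (4 : ℝ) = 2 ^ 2 by norm_num, Real.sqrt_sq (by norm_num)]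
  have h3 : d - c ^ 2 / (4 * b) = (s - (1 / 2 + τ * I)) ^ 2 / (HH T : ℂ) ^ 2 := by
    rw [hb, hc, hd]
    field_simp
    ring
  rw [h2, h3, ← mul_assoc, ← ofReal_mul]
  have h4 : HH T / (2 * √π) * (2 * √π / HH T) = 1 := by
    have : √π ≠ 0 := by positivity
    field_simp
  rw [h4, ofReal_one, one_mul]
  rfl

lemma K0_norm_exp (T ξ x : ℝ) : ‖cexp (om T ξ * (I * x))‖ = Real.exp (-T⁻¹ * x) := by
  rw [norm_exp]
  congr 1
  unfold om
  have : ((ξ : ℂ) + ((T⁻¹ : ℝ) : ℂ) * I) * (I * x) = ((-T⁻¹ * x : ℝ) : ℂ) + ((ξ * x : ℝ) : ℂ) * I := by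
    push_cast
    ring_nf
    rw [I_sq]
    ring
  rw [this]
  simp only [add_re, mul_re, ofReal_re, ofReal_im, I_re, I_im, mul_zero, zero_mul, sub_zero,
    add_zero]

lemma K0_fubini {T : ℝ} (hT : Real.exp 1 ≤ T) {τ : ℝ} (h1 : τ ≤ T) :
    ∫ ξ : ℝ, ker T τ ξ * (I / om T ξ) = ∫ x in Ioi (0 : ℝ), VV T τ (I * x) := by
  have hT1 : 1 < T := lt_of_lt_of_le (by have := Real.add_one_lt_exp (one_ne_zero); linarith) hT
  have hT0 : 0 < T := by linarith
  obtain ⟨k1, -⟩ := K0_ker_int hT h1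
  have hF : Integrable (fun z : ℝ × ℝ => ker T τ z.1 * cexp (om T z.1 * (I * z.2)))
      (volume.prod (volume.restrict (Ioi 0))) := by
    have h2 : Integrable (fun x : ℝ => Real.exp (-T⁻¹ * x)) (volume.restrict (Ioi 0)) :=
      exp_neg_integrableOn_Ioi 0 (inv_pos.2 hT0)
    refine (k1.norm.mul_prod h2).mono' ?_ (Eventually.of_forall fun z => ?_)
    · refine Continuous.aestronglyMeasurable ?_
      refine ((K0_ker_cont T τ).comp continuous_fst).mul ?_
      unfold om
      fun_prop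
    · rw [norm_mul, K0_norm_exp]
  have hin : ∀ ξ : ℝ, ∫ x in Ioi (0 : ℝ), ker T τ ξ * cexp (om T ξ * (I * x)) =
      ker T τ ξ * (I / om T ξ) := by
    intro ξ
    rw [integral_const_mul]
    congr 1
    have h2 : ∀ x : ℝ, om T ξ * (I * x) = (om T ξ * I) * x := fun x => by ring
    simp_rw [h2]
    have h3 : (om T ξ * I).re < 0 := by
      rw [mul_re, I_re, I_im, mul_zero, mul_one, zero_sub, K0_om_im]
      exact neg_lt_zero.2 (inv_pos.2 hT0)
    rw [integral_exp_mul_complex_Ioi h3]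
    have h4 := K0_om_ne hT0 ξ
    rw [ofReal_zero, mul_zero, Complex.exp_zero, div_eq_div_iff (mul_ne_zero h4 I_ne_zero) h4]
    have := I_mul_I
    linear_combination (-om T ξ) * this
  calc ∫ ξ : ℝ, ker T τ ξ * (I / om T ξ)
      = ∫ ξ : ℝ, ∫ x in Ioi (0 : ℝ), ker T τ ξ * cexp (om T ξ * (I * x)) := by
        refine integral_congr_ae (Eventually.of_forall fun ξ => ?_)
        exact (hin ξ).symm
    _ = ∫ x in Ioi (0 : ℝ), ∫ ξ : ℝ, ker T τ ξ * cexp (om T ξ * (I * x)) :=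
        integral_integral_swap hF
    _ = ∫ x in Ioi (0 : ℝ), VV T τ (I * x) := by
        refine integral_congr_ae (Eventually.of_forall fun x => ?_)
        exact K0_gauss hT1 τ (I * x)

/-- the window on the imaginary axis -/
noncomputable def K0_h (H y : ℝ) : ℂ := cexp ((1 / 2 + I * y) ^ 2 / (H : ℂ) ^ 2)

lemma K0_h_norm {H : ℝ} (y : ℝ) : ‖K0_h H y‖ = Real.exp ((1 / 4 - y ^ 2) / H ^ 2) := by
  unfold K0_h
  rw [norm_exp]
  congr 1
  have : ((1 : ℂ) / 2 + I * y) ^ 2 / (H : ℂ) ^ 2 =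
      (((1 / 4 - y ^ 2) / H ^ 2 : ℝ) : ℂ) + ((y / H ^ 2 : ℝ) : ℂ) * I := by
    push_cast
    have h1 : ((1 : ℂ) / 2 + I * y) ^ 2 = (1 / 4 - y ^ 2) + y * I := by
      ring_nf
      rw [I_sq]
      ring
    rw [h1]
    ring
  rw [this]
  simp only [add_re, mul_re, ofReal_re, ofReal_im, I_re, I_im, mul_zero, zero_mul, sub_zero,
    add_zero]

lemma K0_h_int {H : ℝ} (hH : 0 < H) : Integrable (K0_h H) ∧
    ∫ y : ℝ, K0_h H y = ((H * √π : ℝ) : ℂ) := by
  have hHc : (H : ℂ) ≠ 0 := ofReal_ne_zero.2 hH.ne'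
  set b : ℂ := -(1 / (H : ℂ) ^ 2) with hb
  set c : ℂ := I / (H : ℂ) ^ 2 with hc
  set d : ℂ := 1 / (4 * (H : ℂ) ^ 2) with hd
  have h1 : K0_h H = fun y : ℝ => cexp (b * y ^ 2 + c * y + d) := by
    funext y
    unfold K0_h
    congr 1
    rw [hb, hc, hd]
    have e1 : ((1 : ℂ) / 2 + I * y) ^ 2 = (1 / 4 - y ^ 2) + y * I := by
      ring_nf
      rw [I_sq]
      ring
    rw [e1]
    field_simp
    ring
  have hbre : b.re < 0 := by
    have : b = ((-(1 / H ^ 2) : ℝ) : ℂ) := by rw [hb]; push_cast; ring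
    rw [this, ofReal_re]
    have : 0 < 1 / H ^ 2 := by positivity
    linarith
  refine ⟨?_, ?_⟩
  · rw [h1]
    exact integrable_cexp_quadratic' hbre c d
  · rw [h1, integral_cexp_quadratic hbre]
    have h2 : ((π : ℂ) / -b) ^ (1 / 2 : ℂ) = ((H * √π : ℝ) : ℂ) := by
      have e1 : (π : ℂ) / -b = ((π * H ^ 2 : ℝ) : ℂ) := by
        rw [hb]
        push_cast
        field_simp
      have e2 : (1 / 2 : ℂ) = ((1 / 2 : ℝ) : ℂ) := by push_cast; ring
      rw [e1, e2, ← ofReal_cpow (by positivity), ← Real.sqrt_eq_rpow]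
      congr 1
      rw [Real.sqrt_mul (by positivity), Real.sqrt_sq hH.le, mul_comm]
    have h3 : d - c ^ 2 / (4 * b) = 0 := by
      rw [hb, hc, hd, div_pow, I_sq]
      field_simp
      ring
    rw [h2, h3, Complex.exp_zero, mul_one]

lemma K0_tail {H τ : ℝ} (hH : 1 ≤ H) (hτ : 0 ≤ τ) :
    ‖(∫ x in Ioi (0 : ℝ), K0_h H (τ - x)) - ((H * √π : ℝ) : ℂ)‖ ≤
      Real.exp 1 * Real.exp (-(τ ^ 2 / H ^ 2)) * (H * √π) := by
  have hH0 : 0 < H := by linarith
  obtain ⟨i1, i2⟩ := K0_h_int hH0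
  have i3 : Integrable (fun x : ℝ => K0_h H (τ - x)) := i1.comp_sub_left τ
  have e1 : ∫ x : ℝ, K0_h H (τ - x) = ((H * √π : ℝ) : ℂ) := by
    rw [← i2]
    exact integral_sub_left_eq_self (K0_h H) volume τ
  have e2 := integral_add_compl (measurableSet_Ioi (a := (0 : ℝ))) i3
  have e3 : (∫ x in Ioi (0 : ℝ), K0_h H (τ - x)) - ((H * √π : ℝ) : ℂ) =
      -∫ x in (Ioi (0 : ℝ))ᶜ, K0_h H (τ - x) := by
    rw [← e1, ← e2]
    ring
  rw [e3, norm_neg, compl_Ioi]
  set B : ℝ → ℝ := fun x => Real.exp 1 * Real.exp (-(τ ^ 2 / H ^ 2)) *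
    Real.exp (-(1 / H ^ 2) * x ^ 2) with hB
  have hBint : Integrable B := (integrable_exp_neg_mul_sq (by positivity)).const_mul _
  have hBval : ∫ x : ℝ, B x = Real.exp 1 * Real.exp (-(τ ^ 2 / H ^ 2)) * (H * √π) := by
    rw [hB, integral_const_mul, integral_gaussian]
    congr 1
    have : π / (1 / H ^ 2) = π * H ^ 2 := by field_simp
    rw [this, Real.sqrt_mul (by positivity), Real.sqrt_sq hH0.le, mul_comm]
  calc ‖∫ x in Iic (0 : ℝ), K0_h H (τ - x)‖
      ≤ ∫ x in Iic (0 : ℝ), ‖K0_h H (τ - x)‖ := norm_integral_le_integral_norm _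
    _ ≤ ∫ x in Iic (0 : ℝ), B x := by
        refine setIntegral_mono_on i3.norm.integrableOn hBint.integrableOn measurableSet_Iic ?_
        intro x hx
        rw [K0_h_norm, hB]
        simp only
        rw [← Real.exp_add, ← Real.exp_add]
        refine Real.exp_le_exp.2 ?_
        have hx' : x ≤ 0 := hx
        have h1 : 0 ≤ -(τ * x) := by nlinarith
        have h2 : (1 / 4 - (τ - x) ^ 2) / H ^ 2 =
            1 / 4 / H ^ 2 - τ ^ 2 / H ^ 2 - 1 / H ^ 2 * x ^ 2 - 2 * (-(τ * x)) / H ^ 2 := by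
          field_simp
          ring
        rw [h2]
        have h3 : 0 ≤ 2 * (-(τ * x)) / H ^ 2 := by positivity
        have h4 : 1 / 4 / H ^ 2 ≤ 1 := by
          rw [div_le_one (by positivity)]
          nlinarith
        linarith
    _ ≤ ∫ x : ℝ, B x := setIntegral_le_integral hBint
        (Eventually.of_forall fun x => by rw [hB]; positivity)
    _ = _ := hBval

/-- **M3.** `|2π/zz - i/ω| ≤ C` for all `ξ` (`2π/zz = 1/(i(e^{-ω}-1))`, removable singularity at
`ω = 0`), `∫|ker| ≤ C`; `i/ω = ∫_0^∞ e^{iωx} dx`, Fubini, A3: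
`∫ ker · (i/ω) dξ = ∫_0^∞ exp((1/2 + i(τ-x))²/H²) dx = H√π - ∫_τ^∞ exp((1/2+iy)²/H²) dy`
(up to `y ↦ -y`), full line: Gaussian integral, tail `≤ C H e^{-δ²log²T/2}`. -/
theorem K0_bound {δ : ℝ} (hδ : 0 < δ) : ∃ C T₀ : ℝ, ∀ T ≥ T₀, ∀ τ, δ * T ≤ τ → τ ≤ T →
    Integrable (fun ξ : ℝ => ker T τ ξ * (zz T ξ)⁻¹) ∧
    ‖2 * π * (∫ ξ : ℝ, ker T τ ξ * (zz T ξ)⁻¹) - (HH T * √π : ℝ)‖ ≤ C := by
  refine ⟨8 * (Real.exp 2 * √(8 * π)) + Real.exp 1 * √π, max 4 (Real.exp (1 / δ ^ 2)), ?_⟩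
  intro T hT τ hτ1 hτ2
  have hT4 : 4 ≤ T := le_trans (le_max_left _ _) hT
  have hTδ : Real.exp (1 / δ ^ 2) ≤ T := le_trans (le_max_right _ _) hT
  have hTe : Real.exp 1 ≤ T := by
    have := Real.exp_one_lt_d9
    linarith
  have hT0 : 0 < T := by linarith
  have hT1 : 1 < T := by linarith
  have hH := K0_HH_pos hT1
  have hH1 := K0_one_le_HH hT1
  have hτ0 : 0 ≤ τ := le_trans (by positivity) hτ1
  obtain ⟨k1, k2⟩ := K0_ker_int hTe hτ2
  have hnear : ∀ ξ : ℝ, ‖I / (1 - cexp (-(om T ξ))) - I / om T ξ‖ ≤ 8 := by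
    intro ξ
    refine (K0_near (K0_om_ne hT0 ξ) ?_).2
    rw [K0_om_im, abs_of_pos (inv_pos.2 hT0)]
    calc T⁻¹ ≤ (4 : ℝ)⁻¹ := inv_anti₀ (by norm_num) hT4
      _ = 1 / 4 := by norm_num
  have hom : ∀ ξ : ℝ, ‖I / om T ξ‖ ≤ T := by
    intro ξ
    rw [norm_div, norm_I, div_le_iff₀ (norm_pos_iff.2 (K0_om_ne hT0 ξ))]
    have h1 := abs_im_le_norm (om T ξ)
    rw [K0_om_im, abs_of_pos (inv_pos.2 hT0)] at h1
    calc (1 : ℝ) = T * T⁻¹ := (mul_inv_cancel₀ hT0.ne').symm
      _ ≤ T * ‖om T ξ‖ := mul_le_mul_of_nonneg_left h1 hT0.le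
  have homc : Continuous (fun ξ : ℝ => om T ξ) := by
    unfold om
    fun_prop
  have hm1 : Measurable (fun ξ : ℝ => I / (1 - cexp (-(om T ξ)))) := by
    refine Measurable.const_div ?_ _
    refine Continuous.measurable ?_
    fun_prop
  have hm2 : Measurable (fun ξ : ℝ => I / om T ξ) := homc.measurable.const_div _
  have j2 : Integrable (fun ξ : ℝ => ker T τ ξ * (I / om T ξ)) :=
    k1.mul_bdd (c := T) hm2.aestronglyMeasurable (Eventually.of_forall hom)
  have j1 : Integrable (fun ξ : ℝ => ker T τ ξ * (I / (1 - cexp (-(om T ξ))))) := by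
    refine k1.mul_bdd (c := 8 + T) hm1.aestronglyMeasurable (Eventually.of_forall fun ξ => ?_)
    have h1 := hnear ξ
    have h2 := hom ξ
    calc ‖I / (1 - cexp (-(om T ξ)))‖
        = ‖(I / (1 - cexp (-(om T ξ))) - I / om T ξ) + I / om T ξ‖ := by rw [sub_add_cancel]
      _ ≤ 8 + T := (norm_add_le _ _).trans (add_le_add h1 h2)
  have hzz : ∀ ξ : ℝ, ker T τ ξ * (zz T ξ)⁻¹ =
      (1 / (2 * π) : ℂ) * (ker T τ ξ * (I / (1 - cexp (-(om T ξ))))) := by
    intro ξ
    rw [K0_inv_zz]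
    ring
  have hπ : (2 * π : ℂ) ≠ 0 := mul_ne_zero two_ne_zero (ofReal_ne_zero.2 Real.pi_ne_zero)
  refine ⟨?_, ?_⟩
  · simp_rw [hzz]
    exact j1.const_mul _
  · simp_rw [hzz]
    rw [integral_const_mul, ← mul_assoc, mul_one_div_cancel hπ, one_mul]
    have hsplit : (∫ ξ : ℝ, ker T τ ξ * (I / (1 - cexp (-(om T ξ))))) - (HH T * √π : ℝ) =
        (∫ ξ : ℝ, ker T τ ξ * (I / (1 - cexp (-(om T ξ))) - I / om T ξ)) +
          ((∫ ξ : ℝ, ker T τ ξ * (I / om T ξ)) - (HH T * √π : ℝ)) := by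
      have : ∫ ξ : ℝ, ker T τ ξ * (I / (1 - cexp (-(om T ξ))) - I / om T ξ) =
          (∫ ξ : ℝ, ker T τ ξ * (I / (1 - cexp (-(om T ξ))))) -
            ∫ ξ : ℝ, ker T τ ξ * (I / om T ξ) := by
        rw [← integral_sub j1 j2]
        refine integral_congr_ae (Eventually.of_forall fun ξ => ?_)
        simp only
        ring
      rw [this]
      ring
    rw [hsplit]
    refine (norm_add_le _ _).trans (add_le_add ?_ ?_)
    · calc ‖∫ ξ : ℝ, ker T τ ξ * (I / (1 - cexp (-(om T ξ))) - I / om T ξ)‖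
          ≤ ∫ ξ : ℝ, 8 * ‖ker T τ ξ‖ := by
            refine norm_integral_le_of_norm_le (k1.norm.const_mul 8)
              (Eventually.of_forall fun ξ => ?_)
            rw [norm_mul, mul_comm]
            exact mul_le_mul_of_nonneg_right (hnear ξ) (norm_nonneg _)
        _ = 8 * ∫ ξ : ℝ, ‖ker T τ ξ‖ := integral_const_mul _ _
        _ ≤ 8 * (Real.exp 2 * √(8 * π)) := by linarith
    · rw [K0_fubini hTe hτ2]
      have h1 : ∀ x : ℝ, VV T τ (I * x) = K0_h (HH T) (τ - x) := by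
        intro x
        unfold VV K0_h
        congr 2
        push_cast
        ring
      simp_rw [h1]
      refine (K0_tail hH1 hτ0).trans ?_
      have hlog : 1 / δ ^ 2 ≤ Real.log T := by
        rw [Real.le_log_iff_exp_le hT0]
        exact hTδ
      have hlog0 : 0 < Real.log T := lt_of_lt_of_le (by positivity) hlog
      have h2 : δ * Real.log T ≤ τ / HH T := by
        rw [le_div_iff₀ hH]
        unfold HH
        calc δ * Real.log T * (T / Real.log T) = δ * T := by field_simp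
          _ ≤ τ := hτ1
      have h3 : Real.log T ≤ τ ^ 2 / HH T ^ 2 := by
        rw [← div_pow]
        have h4 : (δ * Real.log T) ^ 2 ≤ (τ / HH T) ^ 2 := pow_le_pow_left₀ (by positivity) h2 2
        have h5 : 1 ≤ δ ^ 2 * Real.log T := by
          have := mul_le_mul_of_nonneg_left hlog (sq_nonneg δ)
          rwa [mul_one_div_cancel (by positivity)] at this
        nlinarith
      have h4 : Real.exp (-(τ ^ 2 / HH T ^ 2)) * HH T ≤ 1 := by
        have h5 : Real.exp (-(τ ^ 2 / HH T ^ 2)) ≤ T⁻¹ := by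
          rw [← Real.exp_log (inv_pos.2 hT0), Real.log_inv]
          exact Real.exp_le_exp.2 (by linarith)
        have h6 : HH T ≤ T := by
          unfold HH
          refine div_le_self hT0.le ?_
          rw [Real.le_log_iff_exp_le hT0]
          exact hTe
        calc Real.exp (-(τ ^ 2 / HH T ^ 2)) * HH T ≤ T⁻¹ * T :=
              mul_le_mul h5 h6 hH.le (inv_pos.2 hT0).le
          _ = 1 := inv_mul_cancel₀ hT0.ne'
      have h5 : 0 ≤ Real.exp 1 * √π := by positivity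
      calc Real.exp 1 * Real.exp (-(τ ^ 2 / HH T ^ 2)) * (HH T * √π)
          = (Real.exp 1 * √π) * (Real.exp (-(τ ^ 2 / HH T ^ 2)) * HH T) := by ring
        _ ≤ (Real.exp 1 * √π) * 1 := mul_le_mul_of_nonneg_left h4 h5
        _ = Real.exp 1 * √π := mul_one _

end S6

end

section

set_option autoImplicit false

namespace S6
open MeasureTheory Filter Topology

/-- `E6` as `ℝ^6` -/
def toF (p : E6) : Fin 6 → ℝ := ![p.1.1, p.1.2.1, p.1.2.2, p.2.1, p.2.2.1, p.2.2.2]

def ofF (y : Fin 6 → ℝ) : E6 := ((y 0, y 1, y 2), (y 3, y 4, y 5))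

lemma ofF_toF (p : E6) : ofF (toF p) = p := rfl

lemma toF_cont : Continuous toF := by
  unfold toF
  refine continuous_pi fun i => ?_
  fin_cases i <;> simp <;> fun_prop

lemma ofF_cont : Continuous ofF := by unfold ofF; fun_prop

/-- logs of the entries -/
noncomputable def lgF (x : N6) : Fin 6 → ℝ :=
  ![Real.log x.1.1, Real.log x.1.2.1, Real.log x.1.2.2, Real.log x.2.1, Real.log x.2.2.1,
    Real.log x.2.2.2]

lemma toF_lg6 (L : ℝ) (x : N6) : toF (lg6 L x) = fun j => lgF x j / L := by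
  funext j
  fin_cases j <;> simp [toF, lg6, lgF]

lemma ofF_lgF (L : ℝ) (x : N6) : ofF (fun j => lgF x j / L) = lg6 L x := by
  rw [← toF_lg6, ofF_toF]

lemma dot_eq (k : Fin 6 → ℝ) (p : E6) : dot6 (ofF k) p = ∑ j, k j * toF p j := by
  simp [dot6, ofF, toF, Fin.sum_univ_six]
  ring

lemma pos_ofF {k : Fin 6 → ℝ} (hk : ∀ j, 0 < k j) : Pos6 (ofF k) :=
  ⟨hk 0, hk 1, hk 2, hk 3, hk 4, hk 5⟩

lemma cauchyProd_pos {s : E6} (hs : Pos6 s) : 0 < cauchyProd s := by
  obtain ⟨s1, s2, s3, s4, s5, s6⟩ := hs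
  unfold cauchyProd
  positivity

/-- **K2.** -/
theorem kara_of_exp {ν : Measure E6} (hν : Lap ν) {w : N6 → ℝ} (hw : ∀ x, 0 ≤ w x) {c : ℝ}
    (hexp : ∀ s : E6, Pos6 s →
      (∀ L : ℝ, 0 < L → Summable fun x : N6 => w x * Real.exp (-dot6 s (lg6 L x))) ∧
      Tendsto (fun L : ℝ => (L ^ 9)⁻¹ * ∑' x : N6, w x * Real.exp (-dot6 s (lg6 L x))) atTop
        (𝓝 (c * (cauchyProd s)⁻¹))) {f : E6 → ℝ} (hf : Continuous f) (hfc : HasCompactSupport f) :
    Integrable f ν ∧
    (∀ L : ℝ, 0 < L → Summable fun x : N6 => w x * f (lg6 L x)) ∧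
    Tendsto (fun L : ℝ => (L ^ 9)⁻¹ * ∑' x : N6, w x * f (lg6 L x)) atTop (𝓝 (c * ∫ p, f p ∂ν)) := by
  have hone : Pos6 (ofF fun _ => 1) := pos_ofF fun _ => one_pos
  -- integrability of `f`
  have hint : Integrable f ν := by
    have h1 : Continuous fun p : E6 => f p * Real.exp (dot6 (ofF fun _ => 1) p) := by
      refine hf.mul (Real.continuous_exp.comp ?_)
      unfold dot6; fun_prop
    have h2 : HasCompactSupport fun p : E6 => f p * Real.exp (dot6 (ofF fun _ => 1) p) :=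
      hfc.mul_right
    obtain ⟨M, hM⟩ := h2.exists_bound_of_continuous h1
    refine ((hν.int _ hone).const_mul M).mono' hf.aestronglyMeasurable ?_
    refine Eventually.of_forall fun p => ?_
    have h3 := hM p
    rw [norm_mul, Real.norm_of_nonneg (Real.exp_pos _).le] at h3
    calc ‖f p‖ = ‖f p‖ * Real.exp (dot6 (ofF fun _ => 1) p) *
          Real.exp (-dot6 (ofF fun _ => 1) p) := by
          rw [mul_assoc, ← Real.exp_add, add_neg_cancel, Real.exp_zero, mul_one]
      _ ≤ M * Real.exp (-dot6 (ofF fun _ => 1) p) :=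
          mul_le_mul_of_nonneg_right h3 (Real.exp_pos _).le
  have hc : 0 ≤ c := by
    have h1 := (hexp _ hone).2
    have h2 : 0 ≤ c * (cauchyProd (ofF fun _ => 1))⁻¹ := by
      refine ge_of_tendsto h1 ?_
      filter_upwards [eventually_gt_atTop 0] with L hL
      exact mul_nonneg (by positivity) (tsum_nonneg fun x => mul_nonneg (hw x) (Real.exp_pos _).le)
    have h3 := cauchyProd_pos hone
    by_contra hneg
    push Not at hneg
    have : c * (cauchyProd (ofF fun _ => 1))⁻¹ < 0 := mul_neg_of_neg_of_pos hneg (inv_pos.2 h3)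
    linarith
  set μ : Measure (Fin 6 → ℝ) := ENNReal.ofReal c • Measure.map toF ν with hμ
  have hexpj : ∀ (k : Fin 6 → ℝ) (L : ℝ) (x : N6),
      Real.exp (-dot6 (ofF k) (lg6 L x)) = Real.exp (-(∑ j, k j * lgF x j) / L) := by
    intro k L x
    rw [dot_eq, toF_lg6, neg_div, Finset.sum_div]
    congr 2
    exact Finset.sum_congr rfl fun j _ => by ring
  have hIμ : ∀ g : (Fin 6 → ℝ) → ℝ, Continuous g → ∫ y, g y ∂μ = c * ∫ p, g (toF p) ∂ν := by
    intro g hg
    rw [hμ, integral_smul_measure, integral_map toF_cont.aemeasurable hg.aestronglyMeasurable,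
      ENNReal.toReal_ofReal hc, smul_eq_mul]
  have hint2 : ∀ g : (Fin 6 → ℝ) → ℝ, Continuous g → Integrable (fun p => g (toF p)) ν →
      Integrable g μ := by
    intro g hg hgi
    refine Integrable.smul_measure ?_ ENNReal.ofReal_ne_top
    exact (integrable_map_measure hg.aestronglyMeasurable toF_cont.aemeasurable).2 hgi
  have hD : MP39df77.MData w lgF 9 μ := by
    refine ⟨hw, ?_, ?_, ?_, ?_, ?_⟩
    · intro x j
      fin_cases j <;> simp [lgF] <;> exact Real.log_natCast_nonneg _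
    · intro L hL
      refine ((hexp _ hone).1 L hL).congr fun x => ?_
      rw [hexpj]
      simp
    · have h1 : ∀ᵐ y ∂(Measure.map toF ν), ∀ j, 0 ≤ y j := by
        rw [ae_map_iff toF_cont.aemeasurable]
        · filter_upwards [hν.nn] with p hp
          obtain ⟨p1, p2, p3, p4, p5, p6⟩ := hp
          intro j
          fin_cases j <;> simpa [toF]
        · have : IsClosed {y : Fin 6 → ℝ | ∀ j, 0 ≤ y j} := by
            simp only [Set.ofPred_forall]
            exact isClosed_iInter fun j => isClosed_le continuous_const (continuous_apply j)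
          exact this.measurableSet
      exact Measure.ae_smul_measure h1 _
    · refine hint2 _ (by fun_prop) ?_
      refine (hν.int _ hone).congr (Eventually.of_forall fun p => ?_)
      simp only
      rw [dot_eq]
      simp
    · intro k
      have hk : Pos6 (ofF fun j => (k j : ℝ) + 1) := pos_ofF fun j => by positivity
      have h1 := (hexp _ hk).2
      simp only [hexpj] at h1
      rw [hIμ _ (by fun_prop)]
      have h2 : ∫ p, Real.exp (-∑ j, ((k j : ℝ) + 1) * toF p j) ∂ν =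
          (cauchyProd (ofF fun j => (k j : ℝ) + 1))⁻¹ := by
        rw [← hν.lap _ hk]
        refine integral_congr_ae (Eventually.of_forall fun p => ?_)
        simp only
        rw [dot_eq]
      rw [h2]
      exact h1
  -- the test function
  obtain ⟨R, hR⟩ : ∃ R : ℝ, ∀ p : E6, f p ≠ 0 → ‖p‖ ≤ R := by
    obtain ⟨R, hR⟩ := hfc.isCompact.isBounded.exists_norm_le
    exact ⟨R, fun p hp => hR p (subset_tsupport f hp)⟩
  have hR' : ∀ y : Fin 6 → ℝ, (∀ j, 0 ≤ y j) → (∃ j, R < y j) → f (ofF y) = 0 := by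
    intro y hy ⟨j, hj⟩
    by_contra hne
    have h1 := hR _ hne
    have h2 : y j ≤ ‖ofF y‖ := by
      have h3 : ∀ j, |y j| ≤ ‖ofF y‖ := by
        intro j
        unfold ofF
        simp only [Prod.norm_def, Real.norm_eq_abs]
        fin_cases j <;> simp
      exact (le_abs_self _).trans (h3 j)
    linarith
  obtain ⟨h1, h2, h3⟩ := hD.test_lim (fun y => f (ofF y)) (hf.comp ofF_cont) hR'
  refine ⟨hint, fun L hL => ?_, ?_⟩
  · refine (h2 L hL).congr fun x => ?_
    rw [ofF_lgF]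
  · rw [hIμ (fun y => f (ofF y)) (hf.comp ofF_cont)] at h3
    simp only [ofF_toF] at h3
    refine h3.congr fun L => ?_
    unfold MP39df77.MData.Sm
    simp only [ofF_lgF]

end S6

end

section

namespace SG
open Complex MeasureTheory Filter Topology Set
open scoped Real ComplexConjugate

lemma C1_closed (i : Bool) (σ lam δ : ℝ) : IsClosed (Sec i σ lam δ) := by
  have h1 : ∀ j : Bool, Continuous (co j) := by
    intro j
    unfold co
    cases j
    · simpa using continuous_fst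
    · simpa using continuous_snd
  have e : Sec i σ lam δ = {v | lam ≤ σ * co i v} ∩ ({v | σ * co i v ≤ 2 * lam} ∩
      {v | |co (!i) v| ≤ δ * |co i v|}) := rfl
  rw [e]
  refine IsClosed.inter (isClosed_le continuous_const (continuous_const.mul (h1 i))) ?_
  exact IsClosed.inter (isClosed_le (continuous_const.mul (h1 i)) continuous_const)
    (isClosed_le ((h1 _).abs) (continuous_const.mul ((h1 i).abs)))

lemma C1_co_neg (j : Bool) (v : V2) : co j (-v) = -co j v := by
  unfold co; cases j <;> simp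

lemma C1_co_swap (j : Bool) (v : V2) : co j v.swap = co (!j) v := by
  unfold co; cases j <;> simp

lemma C1_abs_le {σ lam a : ℝ} (hσ : σ = 1 ∨ σ = -1) (hl : 0 < lam) (h1 : lam ≤ σ * a)
    (h2 : σ * a ≤ 2 * lam) : lam ≤ |a| ∧ |a| ≤ 2 * lam := by
  rcases hσ with rfl | rfl
  · rw [one_mul] at h1 h2
    rw [abs_of_pos (by linarith)]
    exact ⟨h1, h2⟩
  · have : a < 0 := by linarith
    rw [abs_of_neg this]
    exact ⟨by linarith, by linarith⟩

/-- the sector `i = false`, `σ = 1` -/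
lemma C1_sec1 {lam δ : ℝ} (hl : 0 < lam) (hδ : 0 < δ) :
    volume (Sec false 1 lam δ) ≤ ENNReal.ofReal (3 * δ * lam ^ 2) := by
  rw [Measure.volume_eq_prod, Measure.prod_apply (C1_closed _ _ _ _).measurableSet]
  have h1 : ∀ a : ℝ, volume (Prod.mk a ⁻¹' (Sec false 1 lam δ)) ≤
      (Icc lam (2 * lam)).indicator (fun a => ENNReal.ofReal (2 * δ * a)) a := by
    intro a
    by_cases ha : a ∈ Icc lam (2 * lam)
    · rw [indicator_of_mem ha]
      have hsub : Prod.mk a ⁻¹' (Sec false 1 lam δ) ⊆ Icc (-(δ * a)) (δ * a) := by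
        intro w hw
        have h := hw.2.2
        simp only [co, Bool.not_false, if_true, Bool.false_eq_true, if_false] at h
        rw [abs_of_pos (lt_of_lt_of_le hl ha.1)] at h
        exact abs_le.1 h
      refine (measure_mono hsub).trans ?_
      rw [Real.volume_Icc]
      apply le_of_eq
      congr 1
      ring
    · rw [indicator_of_notMem ha]
      have : Prod.mk a ⁻¹' (Sec false 1 lam δ) = ∅ := by
        ext w
        simp only [mem_preimage, mem_empty_iff_false, iff_false]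
        intro h
        apply ha
        have h1 := h.1
        have h2 := h.2.1
        simp only [co, Bool.false_eq_true, if_false, one_mul] at h1 h2
        exact ⟨h1, h2⟩
      rw [this]
      simp
  refine (lintegral_mono h1).trans ?_
  rw [lintegral_indicator measurableSet_Icc, ← ofReal_integral_eq_lintegral_ofReal]
  · apply ENNReal.ofReal_le_ofReal
    rw [integral_Icc_eq_integral_Ioc, ← intervalIntegral.integral_of_le (by linarith),
      intervalIntegral.integral_const_mul, integral_id]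
    apply le_of_eq
    ring
  · exact (Continuous.integrableOn_Icc (by fun_prop))
  · refine (ae_restrict_iff' measurableSet_Icc).2 (Eventually.of_forall fun a ha => ?_)
    have : 0 < a := lt_of_lt_of_le hl ha.1
    simp only [Pi.zero_apply]
    positivity

lemma C1_secf {σ lam δ : ℝ} (hσ : σ = 1 ∨ σ = -1) (hl : 0 < lam) (hδ : 0 < δ) :
    volume (Sec false σ lam δ) ≤ ENNReal.ofReal (3 * δ * lam ^ 2) := by
  rcases hσ with rfl | rfl
  · exact C1_sec1 hl hδ
  · have e : Sec false (-1) lam δ = Neg.neg ⁻¹' (Sec false 1 lam δ) := by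
      ext v
      simp only [Sec, mem_preimage, mem_ofPred_eq, C1_co_neg, abs_neg, one_mul, neg_mul]
    rw [e, Measure.measure_preimage_neg]
    exact C1_sec1 hl hδ

lemma C1_sec {i : Bool} {σ lam δ : ℝ} (hσ : σ = 1 ∨ σ = -1) (hl : 0 < lam) (hδ : 0 < δ) :
    volume (Sec i σ lam δ) ≤ ENNReal.ofReal (3 * δ * lam ^ 2) := by
  cases i
  · exact C1_secf hσ hl hδ
  · have e : Sec true σ lam δ = Prod.swap ⁻¹' (Sec false σ lam δ) := by
      ext v
      simp only [Sec, mem_preimage, mem_ofPred_eq, C1_co_swap, Bool.not_false, Bool.not_true]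
    have hmp : MeasurePreserving (Prod.swap : ℝ × ℝ → ℝ × ℝ) volume volume :=
      Measure.measurePreserving_swap
    rw [e, hmp.measure_preimage (C1_closed _ _ _ _).measurableSet.nullMeasurableSet]
    exact C1_secf hσ hl hδ

lemma C1_wd_cont : Continuous fun p : V2 × V2 => wd p.2 p.1 := by
  unfold wd
  fun_prop

/-- the set of pairs -/
def C1_T (i : Bool) (σ lam δ D0 c : ℝ) : Set (V2 × V2) :=
  {p : V2 × V2 | p.1 ∈ Sec i σ lam δ ∧ p.2 ∈ Sec i σ lam δ ∧ D0 ≤ wd p.2 p.1 / c ∧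
      wd p.2 p.1 / c ≤ 2 * D0}

lemma C1_T_closed (i : Bool) (σ lam δ D0 c : ℝ) : IsClosed (C1_T i σ lam δ D0 c) := by
  have e : C1_T i σ lam δ D0 c = (Prod.fst ⁻¹' Sec i σ lam δ) ∩ ((Prod.snd ⁻¹' Sec i σ lam δ) ∩
      ({p : V2 × V2 | D0 ≤ wd p.2 p.1 / c} ∩ {p : V2 × V2 | wd p.2 p.1 / c ≤ 2 * D0})) := rfl
  rw [e]
  refine IsClosed.inter ((C1_closed _ _ _ _).preimage continuous_fst) ?_
  refine IsClosed.inter ((C1_closed _ _ _ _).preimage continuous_snd) ?_
  exact IsClosed.inter (isClosed_le continuous_const (C1_wd_cont.div_const c))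
    (isClosed_le (C1_wd_cont.div_const c) continuous_const)

lemma C1_slice {σ lam δ D0 c : ℝ} (hσ : σ = 1 ∨ σ = -1) (hl : 0 < lam)
    (hD : 0 < D0) (hc : c ≠ 0) (v : V2) (hv : v ∈ Sec false σ lam δ) :
    volume (Prod.mk v ⁻¹' (C1_T false σ lam δ D0 c)) ≤ ENNReal.ofReal (D0 * |c|) := by
  have hva : lam ≤ |v.1| := by
    have h1 := hv.1
    have h2 := hv.2.1
    simp only [co, Bool.false_eq_true, if_false] at h1 h2
    exact (C1_abs_le hσ hl h1 h2).1
  have hv0 : v.1 ≠ 0 := by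
    intro h0
    rw [h0, abs_zero] at hva
    linarith
  have hmeas : MeasurableSet (Prod.mk v ⁻¹' (C1_T false σ lam δ D0 c)) :=
    ((C1_T_closed _ _ _ _ _ _).preimage (Continuous.prodMk_right v)).measurableSet
  -- the interval of `a'`
  obtain ⟨A, hAm, hAv, hA⟩ : ∃ A : Set ℝ, MeasurableSet A ∧ volume A = ENNReal.ofReal lam ∧
      ∀ a, lam ≤ σ * a → σ * a ≤ 2 * lam → a ∈ A := by
    rcases hσ with rfl | rfl
    · refine ⟨Icc lam (2 * lam), measurableSet_Icc, ?_, fun a h1 h2 => ⟨by linarith, by linarith⟩⟩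
      rw [Real.volume_Icc]; congr 1; ring
    · refine ⟨Icc (-(2 * lam)) (-lam), measurableSet_Icc, ?_,
        fun a h1 h2 => ⟨by linarith, by linarith⟩⟩
      rw [Real.volume_Icc]; congr 1; ring
  rw [Measure.volume_eq_prod, Measure.prod_apply hmeas]
  have h1 : ∀ a : ℝ, volume (Prod.mk a ⁻¹' (Prod.mk v ⁻¹' (C1_T false σ lam δ D0 c))) ≤
      A.indicator (fun _ => ENNReal.ofReal (D0 * |c| / lam)) a := by
    intro a
    by_cases ha : a ∈ A
    · rw [indicator_of_mem ha]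
      set κ : ℝ := c / v.1 with hκ
      set m : ℝ := a * v.2 / v.1 with hm
      have hsub : Prod.mk a ⁻¹' (Prod.mk v ⁻¹' (C1_T false σ lam δ D0 c)) ⊆
          Icc (m - 3 / 2 * D0 * κ - |κ| * (D0 / 2)) (m - 3 / 2 * D0 * κ + |κ| * (D0 / 2)) := by
        intro w hw
        have g1 := hw.2.2.1
        have g2 := hw.2.2.2
        simp only [wd] at g1 g2
        set t : ℝ := (a * v.2 - w * v.1) / c with ht
        have hw' : w - (m - 3 / 2 * D0 * κ) = κ * (3 / 2 * D0 - t) := by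
          rw [hκ, hm, ht]
          field_simp
          ring
        have habs : |w - (m - 3 / 2 * D0 * κ)| ≤ |κ| * (D0 / 2) := by
          rw [hw', abs_mul]
          refine mul_le_mul_of_nonneg_left ?_ (abs_nonneg _)
          rw [abs_le]
          constructor <;> linarith
        have := abs_le.1 habs
        exact ⟨by linarith [this.1], by linarith [this.2]⟩
      refine (measure_mono hsub).trans ?_
      rw [Real.volume_Icc]
      apply ENNReal.ofReal_le_ofReal
      have e1 : m - 3 / 2 * D0 * κ + |κ| * (D0 / 2) - (m - 3 / 2 * D0 * κ - |κ| * (D0 / 2)) =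
          D0 * |c| / |v.1| := by
        rw [hκ, abs_div]; ring
      rw [e1]
      exact div_le_div_of_nonneg_left (by positivity) hl hva
    · rw [indicator_of_notMem ha]
      have : Prod.mk a ⁻¹' (Prod.mk v ⁻¹' (C1_T false σ lam δ D0 c)) = ∅ := by
        ext w
        simp only [mem_preimage, mem_empty_iff_false, iff_false]
        intro h
        apply ha
        have h1 := h.2.1.1
        have h2 := h.2.1.2.1
        simp only [co, Bool.false_eq_true, if_false] at h1 h2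
        exact hA a h1 h2
      rw [this]
      simp
  refine (lintegral_mono h1).trans ?_
  rw [lintegral_indicator hAm, setLIntegral_const, hAv, ← ENNReal.ofReal_mul (by positivity)]
  apply ENNReal.ofReal_le_ofReal
  apply le_of_eq
  field_simp

lemma C1_pairf {σ lam δ D0 c : ℝ} (hσ : σ = 1 ∨ σ = -1) (hl : 0 < lam) (hδ : 0 < δ)
    (hD : 0 < D0) (hc : c ≠ 0) :
    volume (C1_T false σ lam δ D0 c) ≤ ENNReal.ofReal (3 * δ * lam ^ 2 * D0 * |c|) := by
  rw [Measure.volume_eq_prod, Measure.prod_apply (C1_T_closed _ _ _ _ _ _).measurableSet]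
  have h1 : ∀ v : V2, volume (Prod.mk v ⁻¹' (C1_T false σ lam δ D0 c)) ≤
      (Sec false σ lam δ).indicator (fun _ => ENNReal.ofReal (D0 * |c|)) v := by
    intro v
    by_cases hv : v ∈ Sec false σ lam δ
    · rw [indicator_of_mem hv]
      exact C1_slice hσ hl hD hc v hv
    · rw [indicator_of_notMem hv]
      have : Prod.mk v ⁻¹' (C1_T false σ lam δ D0 c) = ∅ := by
        ext w
        simp only [mem_preimage, mem_empty_iff_false, iff_false]
        exact fun h => hv h.1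
      rw [this]
      simp
  refine (lintegral_mono h1).trans ?_
  rw [lintegral_indicator (C1_closed _ _ _ _).measurableSet, setLIntegral_const]
  calc ENNReal.ofReal (D0 * |c|) * volume (Sec false σ lam δ)
      ≤ ENNReal.ofReal (D0 * |c|) * ENNReal.ofReal (3 * δ * lam ^ 2) := by
        gcongr
        exact C1_secf hσ hl hδ
    _ = ENNReal.ofReal (3 * δ * lam ^ 2 * D0 * |c|) := by
        rw [← ENNReal.ofReal_mul (by positivity)]
        congr 1
        ring

/-- **C1. Volumes.** `v_i = σ a`, `a ∈ [lam, 2 lam]`, other coordinate `w`, `|w| ≤ δ a`; for `i = false`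
`wd p.2 p.1 = σ (a' w - a w')` (for `i = true` the negative), so `|wd| ≤ 8 δ lam²` (even `4δ·2lam²`),
and for fixed `(a,w,a')` the condition `D₀ ≤ wd/c ≤ 2D₀` puts `w'` in an interval of length
`D₀|c|/a ≤ D₀|c|/lam`. Hence volume `≤ (3 δ lam²) · lam · D₀|c|/lam`. -/
theorem vol_bound {i : Bool} {σ lam δ D0 c : ℝ} (hσ : σ = 1 ∨ σ = -1) (hl : 0 < lam) (hδ : 0 < δ)
    (hD : 0 < D0) (hc : c ≠ 0) :
    volume {p : V2 × V2 | p.1 ∈ Sec i σ lam δ ∧ p.2 ∈ Sec i σ lam δ ∧ D0 ≤ wd p.2 p.1 / c ∧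
      wd p.2 p.1 / c ≤ 2 * D0} ≤ ENNReal.ofReal (3 * δ * lam ^ 2 * D0 * |c|) ∧
    (∀ p : V2 × V2, p.1 ∈ Sec i σ lam δ → p.2 ∈ Sec i σ lam δ → D0 ≤ wd p.2 p.1 / c →
      |c| ≤ 8 * δ * lam ^ 2 / D0) ∧
    volume (Sec i σ lam δ) ≤ ENNReal.ofReal (3 * δ * lam ^ 2) ∧ MeasurableSet (Sec i σ lam δ) := by
  refine ⟨?_, ?_, C1_sec hσ hl hδ, (C1_closed _ _ _ _).measurableSet⟩
  · change volume (C1_T i σ lam δ D0 c) ≤ _
    cases i
    · exact C1_pairf hσ hl hδ hD hc
    · have e : C1_T true σ lam δ D0 c = (Prod.map Prod.swap Prod.swap) ⁻¹'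
          (C1_T false σ lam δ D0 (-c)) := by
        ext p
        have hw : wd p.2.swap p.1.swap / (-c) = wd p.2 p.1 / c := by
          unfold wd
          simp only [Prod.fst_swap, Prod.snd_swap]
          rw [div_neg, ← neg_div]
          congr 1
          ring
        simp only [C1_T, Sec, mem_preimage, mem_ofPred_eq, Prod.map_fst, Prod.map_snd,
          C1_co_swap, Bool.not_false, Bool.not_true, hw]
      have hmp0 : MeasurePreserving (Prod.swap : ℝ × ℝ → ℝ × ℝ) volume volume :=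
        Measure.measurePreserving_swap
      have hmp : MeasurePreserving (Prod.map Prod.swap Prod.swap : V2 × V2 → V2 × V2)
          volume volume := hmp0.prod hmp0
      rw [e, hmp.measure_preimage (C1_T_closed _ _ _ _ _ _).measurableSet.nullMeasurableSet]
      have := C1_pairf (σ := σ) (lam := lam) (δ := δ) (D0 := D0) (c := -c) hσ hl hδ hD
        (neg_ne_zero.2 hc)
      rwa [abs_neg] at this
  · intro p h1 h2 h3
    obtain ⟨ha1, ha2⟩ := C1_abs_le hσ hl h1.1 h1.2.1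
    obtain ⟨hb1, hb2⟩ := C1_abs_le hσ hl h2.1 h2.2.1
    have hw1 : |co (!i) p.1| ≤ δ * (2 * lam) :=
      h1.2.2.trans (mul_le_mul_of_nonneg_left ha2 hδ.le)
    have hw2 : |co (!i) p.2| ≤ δ * (2 * lam) :=
      h2.2.2.trans (mul_le_mul_of_nonneg_left hb2 hδ.le)
    have hwd : |wd p.2 p.1| ≤ 8 * δ * lam ^ 2 := by
      have e : |wd p.2 p.1| ≤ |co i p.2| * |co (!i) p.1| + |co (!i) p.2| * |co i p.1| := by
        unfold wd co
        cases i
        · simp only [Bool.false_eq_true, if_false, Bool.not_false, if_true]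
          rw [← abs_mul, ← abs_mul]
          exact abs_sub _ _
        · simp only [Bool.false_eq_true, if_false, Bool.not_true, if_true]
          rw [← abs_mul, ← abs_mul, add_comm]
          exact abs_sub _ _
      have m1 : |co i p.2| * |co (!i) p.1| ≤ (2 * lam) * (δ * (2 * lam)) :=
        mul_le_mul hb2 hw1 (abs_nonneg _) (by positivity)
      have m2 : |co (!i) p.2| * |co i p.1| ≤ (δ * (2 * lam)) * (2 * lam) :=
        mul_le_mul hw2 ha2 (abs_nonneg _) (by positivity)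
      nlinarith
    have hc' : 0 < |c| := abs_pos.2 hc
    have h4 : D0 ≤ |wd p.2 p.1| / |c| := by
      rw [← abs_div]
      exact h3.trans (le_abs_self _)
    rw [le_div_iff₀ hc'] at h4
    rw [le_div_iff₀ hD]
    linarith [mul_comm D0 |c|]

end SG

end

section

namespace SG
open Complex MeasureTheory Filter Topology Set
open scoped Real ComplexConjugate

private theorem E1_closed (lam1 lam2 δ c : ℝ) :
    IsClosed {p : V2 × V2 | p.1 ∈ Sec false 1 lam1 δ ∧ p.2 ∈ Sec true (-1) lam2 δ ∧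
      1 ≤ wd p.2 p.1 / c ∧ wd p.2 p.1 / c ≤ 2} := by
  simp only [Sec, co, wd, Set.mem_ofPred_eq, Bool.false_eq_true, if_false, if_true, Bool.not_false,
    Bool.not_true]
  have h (f g : V2 × V2 → ℝ) (hf : Continuous f) (hg : Continuous g) :
    IsClosed {p | f p ≤ g p} := isClosed_le hf hg
  refine IsClosed.inter (IsClosed.inter (h _ _ ?_ ?_) (IsClosed.inter (h _ _ ?_ ?_) (h _ _ ?_ ?_)))
    (IsClosed.inter (IsClosed.inter (h _ _ ?_ ?_) (IsClosed.inter (h _ _ ?_ ?_) (h _ _ ?_ ?_)))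
    (IsClosed.inter (h _ _ ?_ ?_) (h _ _ ?_ ?_))) <;> fun_prop

private theorem E1_mem_iff (lam1 lam2 δ c : ℝ) (h1 : 0 < lam1) (h2 : 0 < lam2) (p : V2 × V2) :
    ((lam1 • p.1 ∈ Sec false 1 lam1 δ ∧ lam2 • p.2 ∈ Sec true (-1) lam2 δ ∧
      1 ≤ wd (lam2 • p.2) (lam1 • p.1) / c ∧ wd (lam2 • p.2) (lam1 • p.1) / c ≤ 2)) ↔
    (p.1 ∈ Sec false 1 1 δ ∧ p.2 ∈ Sec true (-1) 1 δ ∧
      1 ≤ wd p.2 p.1 / (c / (lam1 * lam2)) ∧ wd p.2 p.1 / (c / (lam1 * lam2)) ≤ 2) := by
  have e : wd (lam2 • p.2) (lam1 • p.1) / c = wd p.2 p.1 / (c / (lam1 * lam2)) := by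
    simp only [wd, Prod.smul_fst, Prod.smul_snd, smul_eq_mul]
    rcases eq_or_ne c 0 with rfl | hc
    · simp
    · field_simp
  rw [e]
  have a1 : lam1 • p.1 ∈ Sec false 1 lam1 δ ↔ p.1 ∈ Sec false 1 1 δ := by
    simp only [Sec, co, Set.mem_ofPred_eq, Bool.false_eq_true, if_false, if_true, Bool.not_false,
      Prod.smul_fst, Prod.smul_snd, smul_eq_mul, abs_mul, abs_of_pos h1]
    refine and_congr ?_ (and_congr ?_ ?_)
    · constructor <;> intro h <;> nlinarith
    · constructor <;> intro h <;> nlinarith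
    · rw [mul_left_comm, mul_le_mul_iff_right₀ h1]
  have a2 : lam2 • p.2 ∈ Sec true (-1) lam2 δ ↔ p.2 ∈ Sec true (-1) 1 δ := by
    simp only [Sec, co, Set.mem_ofPred_eq, Bool.false_eq_true, if_false, if_true, Bool.not_true,
      Prod.smul_fst, Prod.smul_snd, smul_eq_mul, abs_mul, abs_of_pos h2]
    refine and_congr ?_ (and_congr ?_ ?_)
    · constructor <;> intro h <;> nlinarith
    · constructor <;> intro h <;> nlinarith
    · rw [mul_left_comm, mul_le_mul_iff_right₀ h2]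
  rw [a1, a2]

/-- **E1.** scaling `v = lam1 ṽ`, `v'' = lam2 ṽ''`. -/
theorem Vol_scale {lam1 lam2 δ c : ℝ} (h1 : 0 < lam1) (h2 : 0 < lam2) (hδ : 0 < δ) (hc : 0 < c) :
    Vol lam1 lam2 δ c = (lam1 * lam2) ^ 2 * Vol 1 1 δ (c / (lam1 * lam2)) := by
  have hS := (E1_closed lam1 lam2 δ c).measurableSet
  have hmap : Measure.map (Prod.map (fun v : V2 => lam1 • v) (fun v : V2 => lam2 • v))
      (volume : Measure (V2 × V2)) =
      (ENNReal.ofReal (lam1 ^ 2)⁻¹ * ENNReal.ofReal (lam2 ^ 2)⁻¹) • (volume : Measure (V2 × V2)) := by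
    have e1 : Measure.map (fun v : V2 => lam1 • v) volume =
        ENNReal.ofReal (lam1 ^ 2)⁻¹ • (volume : Measure V2) := by
      rw [Measure.map_addHaar_smul _ h1.ne']
      simp [abs_of_pos, h1]
    have e2 : Measure.map (fun v : V2 => lam2 • v) volume =
        ENNReal.ofReal (lam2 ^ 2)⁻¹ • (volume : Measure V2) := by
      rw [Measure.map_addHaar_smul _ h2.ne']
      simp [abs_of_pos, h2]
    rw [Measure.volume_eq_prod V2 V2, ← Measure.map_prod_map volume volume
      (measurable_const_smul lam1) (measurable_const_smul lam2), e1, e2]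
    rw [Measure.prod_smul_left, Measure.prod_smul_right, smul_smul]
  have key := congrArg (fun μ : Measure (V2 × V2) => (μ {p : V2 × V2 | p.1 ∈ Sec false 1 lam1 δ ∧
    p.2 ∈ Sec true (-1) lam2 δ ∧ 1 ≤ wd p.2 p.1 / c ∧ wd p.2 p.1 / c ≤ 2}).toReal) hmap
  rw [Measure.map_apply (by fun_prop) hS] at key
  have e3 : (Prod.map (fun v : V2 => lam1 • v) (fun v : V2 => lam2 • v)) ⁻¹' {p : V2 × V2 |
      p.1 ∈ Sec false 1 lam1 δ ∧
    p.2 ∈ Sec true (-1) lam2 δ ∧ 1 ≤ wd p.2 p.1 / c ∧ wd p.2 p.1 / c ≤ 2} =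
    {p : V2 × V2 | p.1 ∈ Sec false 1 1 δ ∧ p.2 ∈ Sec true (-1) 1 δ ∧
      1 ≤ wd p.2 p.1 / (c / (lam1 * lam2)) ∧ wd p.2 p.1 / (c / (lam1 * lam2)) ≤ 2} := by
    ext p
    exact E1_mem_iff lam1 lam2 δ c h1 h2 p
  rw [e3, Measure.smul_apply, smul_eq_mul, ENNReal.toReal_mul, ENNReal.toReal_mul,
    ENNReal.toReal_ofReal (by positivity), ENNReal.toReal_ofReal (by positivity)] at key
  unfold Vol
  rw [key]
  field_simp

private theorem E1_vol1 {δ : ℝ} (hδ : 0 < δ) :
    volume (Sec false 1 1 δ) = ENNReal.ofReal (3 * δ) := by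
  have hm : MeasurableSet (Sec false 1 1 δ) := by
    have h (f g : V2 → ℝ) (hf : Continuous f) (hg : Continuous g) :
      IsClosed {p | f p ≤ g p} := isClosed_le hf hg
    simp only [Sec, co, Bool.false_eq_true, if_false, if_true, Bool.not_false]
    exact (IsClosed.inter (h _ _ (by fun_prop) (by fun_prop)) (IsClosed.inter
      (h _ _ (by fun_prop) (by fun_prop)) (h _ _ (by fun_prop) (by fun_prop)))).measurableSet
  rw [Measure.volume_eq_prod, Measure.prod_apply hm]
  have e : ∀ a : ℝ, volume (Prod.mk a ⁻¹' Sec false 1 1 δ) =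
      (Icc (1 : ℝ) 2).indicator (fun a => ENNReal.ofReal (2 * δ * a)) a := by
    intro a
    by_cases ha : a ∈ Icc (1 : ℝ) 2
    · rw [indicator_of_mem ha]
      have : Prod.mk a ⁻¹' Sec false 1 1 δ = Icc (-(δ * a)) (δ * a) := by
        ext b
        have ha0 : (0 : ℝ) ≤ a := by linarith [ha.1]
        simp only [Sec, co, Set.mem_preimage, Set.mem_ofPred_eq, Bool.false_eq_true, if_false,
          if_true, Bool.not_false, mem_Icc, abs_of_nonneg ha0, abs_le]
        constructor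
        · rintro ⟨_, _, h⟩; exact h
        · intro h; exact ⟨by linarith [ha.1], by linarith [ha.2], h⟩
      rw [this, Real.volume_Icc]
      congr 1; ring
    · rw [indicator_of_notMem ha]
      have : Prod.mk a ⁻¹' Sec false 1 1 δ = ∅ := by
        ext b
        simp only [Sec, co, Set.mem_preimage, Set.mem_ofPred_eq, Bool.false_eq_true, if_false,
          if_true, Bool.not_false, mem_empty_iff_false, iff_false]
        rintro ⟨h1, h2, _⟩
        exact ha ⟨by linarith, by linarith⟩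
      rw [this, measure_empty]
  simp only [e]
  rw [lintegral_indicator measurableSet_Icc, ← ofReal_integral_eq_lintegral_ofReal]
  · congr 1
    rw [integral_Icc_eq_integral_Ioc, ← intervalIntegral.integral_of_le (by norm_num),
      intervalIntegral.integral_const_mul, integral_id]
    ring
  · exact (continuous_const.mul continuous_id).integrableOn_Icc
  · filter_upwards [ae_restrict_mem measurableSet_Icc] with a ha
    have : (0 : ℝ) ≤ a := by linarith [ha.1]
    positivity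

private theorem E1_vol2 {δ : ℝ} (hδ : 0 < δ) :
    volume (Sec true (-1) 1 δ) = ENNReal.ofReal (3 * δ) := by
  have hm : MeasurableSet (Sec true (-1) 1 δ) := by
    have h (f g : V2 → ℝ) (hf : Continuous f) (hg : Continuous g) :
      IsClosed {p | f p ≤ g p} := isClosed_le hf hg
    simp only [Sec, co, Bool.false_eq_true, if_false, if_true, Bool.not_true]
    exact (IsClosed.inter (h _ _ (by fun_prop) (by fun_prop)) (IsClosed.inter
      (h _ _ (by fun_prop) (by fun_prop)) (h _ _ (by fun_prop) (by fun_prop)))).measurableSet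
  rw [Measure.volume_eq_prod, Measure.prod_apply_symm hm]
  have e : ∀ b : ℝ, volume ((fun x : ℝ => (x, b)) ⁻¹' Sec true (-1) 1 δ) =
      (Icc (-2 : ℝ) (-1)).indicator (fun b => ENNReal.ofReal (-(2 * δ) * b)) b := by
    intro b
    by_cases hb : b ∈ Icc (-2 : ℝ) (-1)
    · rw [indicator_of_mem hb]
      have : (fun x : ℝ => (x, b)) ⁻¹' Sec true (-1) 1 δ = Icc (δ * b) (-(δ * b)) := by
        ext a
        have hb0 : b ≤ 0 := by linarith [hb.2]
        simp only [Sec, co, Set.mem_preimage, Set.mem_ofPred_eq, Bool.false_eq_true, if_false,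
          if_true, Bool.not_true, mem_Icc, abs_of_nonpos hb0, abs_le]
        constructor
        · rintro ⟨_, _, h⟩; exact ⟨by linarith [h.1], by linarith [h.2]⟩
        · intro h; exact ⟨by linarith [hb.2], by linarith [hb.1], by linarith [h.1],
            by linarith [h.2]⟩
      rw [this, Real.volume_Icc]
      congr 1; ring
    · rw [indicator_of_notMem hb]
      have : (fun x : ℝ => (x, b)) ⁻¹' Sec true (-1) 1 δ = ∅ := by
        ext a
        simp only [Sec, co, Set.mem_preimage, Set.mem_ofPred_eq, Bool.false_eq_true, if_false,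
          if_true, Bool.not_true, mem_empty_iff_false, iff_false]
        rintro ⟨h1, h2, _⟩
        exact hb ⟨by linarith, by linarith⟩
      rw [this, measure_empty]
  simp only [e]
  rw [lintegral_indicator measurableSet_Icc, ← ofReal_integral_eq_lintegral_ofReal]
  · congr 1
    rw [integral_Icc_eq_integral_Ioc, ← intervalIntegral.integral_of_le (by norm_num),
      intervalIntegral.integral_const_mul, integral_id]
    ring
  · exact (continuous_const.mul continuous_id).integrableOn_Icc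
  · filter_upwards [ae_restrict_mem measurableSet_Icc] with b hb
    have : b ≤ 0 := by linarith [hb.2]
    show 0 ≤ -(2 * δ) * b
    nlinarith


/-- the product of the two sectors -/
private def E1S (δ : ℝ) : Set (V2 × V2) := (Sec false 1 1 δ) ×ˢ (Sec true (-1) 1 δ)

private theorem E1S_vol {δ : ℝ} (hδ : 0 < δ) : volume (E1S δ) = ENNReal.ofReal (9 * δ ^ 2) := by
  unfold E1S
  rw [Measure.volume_eq_prod V2 V2, Measure.prod_prod, E1_vol1 hδ, E1_vol2 hδ,
    ← ENNReal.ofReal_mul (by positivity)]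
  congr 1; ring

private theorem E1S_meas (δ : ℝ) : MeasurableSet (E1S δ) := by
  have h (f g : V2 → ℝ) (hf : Continuous f) (hg : Continuous g) :
    IsClosed {p | f p ≤ g p} := isClosed_le hf hg
  have hm : MeasurableSet (Sec true (-1) 1 δ) := by
    simp only [Sec, co, Bool.false_eq_true, if_false, if_true, Bool.not_true]
    exact (IsClosed.inter (h _ _ (by fun_prop) (by fun_prop)) (IsClosed.inter
      (h _ _ (by fun_prop) (by fun_prop)) (h _ _ (by fun_prop) (by fun_prop)))).measurableSet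
  have hm' : MeasurableSet (Sec false 1 1 δ) := by
    simp only [Sec, co, Bool.false_eq_true, if_false, if_true, Bool.not_false]
    exact (IsClosed.inter (h _ _ (by fun_prop) (by fun_prop)) (IsClosed.inter
      (h _ _ (by fun_prop) (by fun_prop)) (h _ _ (by fun_prop) (by fun_prop)))).measurableSet
  exact hm'.prod hm

private theorem E1_wd {δ : ℝ} (hδ : 0 < δ) (hδ1 : δ ≤ 1 / 4) (p : V2 × V2) (hp : p ∈ E1S δ) :
    15 / 16 ≤ wd p.2 p.1 ∧ wd p.2 p.1 ≤ 17 / 4 := by
  obtain ⟨⟨a1, a2, a3⟩, ⟨b1, b2, b3⟩⟩ := hp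
  simp only [co, Bool.false_eq_true, if_false, if_true, Bool.not_true, Bool.not_false] at a1 a2 a3 b1 b2 b3
  set x := p.1.1
  set y := p.1.2
  set z := p.2.1
  set w := p.2.2
  have hx : 0 < x := by linarith
  have hw : w < 0 := by linarith
  rw [abs_of_pos hx] at a3
  rw [abs_of_neg hw] at b3
  have h1 : |z * y| ≤ (1 / 16) * (x * -w) := by
    rw [abs_mul]
    calc |z| * |y| ≤ (δ * -w) * (δ * x) := by
          apply mul_le_mul b3 a3 (abs_nonneg _)
          nlinarith
      _ = δ ^ 2 * (x * -w) := by ring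
      _ ≤ (1 / 16) * (x * -w) := by
          apply mul_le_mul_of_nonneg_right
          · nlinarith
          · nlinarith
  have h2 := abs_le.mp h1
  have h3 : 1 ≤ x * -w := by nlinarith
  have h4 : x * -w ≤ 4 := by nlinarith
  have e : wd p.2 p.1 = z * y + x * -w := by simp only [wd, x, y, z, w]; ring
  rw [e]
  constructor <;> linarith [h2.1, h2.2]

private theorem E1_Vol_eq (δ x : ℝ) : Vol 1 1 δ x =
    (volume {p : V2 × V2 | p ∈ E1S δ ∧ 1 ≤ wd p.2 p.1 / x ∧ wd p.2 p.1 / x ≤ 2}).toReal := by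
  unfold Vol E1S
  congr 2
  ext p
  simp only [Set.mem_ofPred_eq, Set.mem_prod]
  tauto

private theorem E1_Vol_le {δ : ℝ} (hδ : 0 < δ) (x : ℝ) :
    volume {p : V2 × V2 | p ∈ E1S δ ∧ 1 ≤ wd p.2 p.1 / x ∧ wd p.2 p.1 / x ≤ 2} ≤
      ENNReal.ofReal (9 * δ ^ 2) := by
  rw [← E1S_vol hδ]
  exact measure_mono (fun p hp => hp.1)

private theorem E1_supp {δ : ℝ} (hδ : 0 < δ) (hδ1 : δ ≤ 1 / 4) (x : ℝ) (hx : 0 < x)
    (h : Vol 1 1 δ x ≠ 0) : 1 / 4 ≤ x ∧ x ≤ 5 := by
  rw [E1_Vol_eq] at h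
  have hne : ({p : V2 × V2 | p ∈ E1S δ ∧ 1 ≤ wd p.2 p.1 / x ∧ wd p.2 p.1 / x ≤ 2}).Nonempty := by
    by_contra hne
    rw [not_nonempty_iff_eq_empty] at hne
    rw [hne] at h
    simp at h
  obtain ⟨p, hp, h1, h2⟩ := hne
  have h3 := E1_wd hδ hδ1 p hp
  rw [le_div_iff₀ hx] at h1
  rw [div_le_iff₀ hx] at h2
  constructor <;> linarith [h3.1, h3.2]

private theorem E1_bound {δ : ℝ} (hδ : 0 < δ) (x : ℝ) : Vol 1 1 δ x ≤ 9 * δ ^ 2 := by
  rw [E1_Vol_eq]
  exact ENNReal.toReal_le_of_le_ofReal (by positivity) (E1_Vol_le hδ x)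

private theorem E1_measA (δ : ℝ) : MeasurableSet {q : ℝ × (V2 × V2) | q.2 ∈ E1S δ ∧
    1 ≤ wd q.2.2 q.2.1 / q.1 ∧ wd q.2.2 q.2.1 / q.1 ≤ 2} := by
  have hw : Measurable (fun q : ℝ × (V2 × V2) => wd q.2.2 q.2.1 / q.1) := by
    unfold wd
    fun_prop
  exact ((E1S_meas δ).preimage measurable_snd).inter
    ((measurableSet_le measurable_const hw).inter (measurableSet_le hw measurable_const))

private theorem E1_Vol_meas (δ : ℝ) : Measurable (fun x => Vol 1 1 δ x) := by
  simp only [E1_Vol_eq]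
  exact (measurable_measure_prodMk_left (E1_measA δ)).ennreal_toReal

private theorem E1_inner {W : ℝ} (hW : 0 < W) (k : ℝ) (hk : 0 ≤ k) :
    ∫⁻ x in Ioi (0 : ℝ), (if 1 ≤ W / x ∧ W / x ≤ 2 then ENNReal.ofReal (k * x ^ (-3 : ℤ)) else 0) =
      ENNReal.ofReal (k * (3 / 2) / W ^ 2) := by
  have e : ∀ x ∈ Ioi (0 : ℝ), (if 1 ≤ W / x ∧ W / x ≤ 2 then ENNReal.ofReal (k * x ^ (-3 : ℤ)) else 0) =
      (Icc (W / 2) W).indicator (fun x => ENNReal.ofReal (k * x ^ (-3 : ℤ))) x := by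
    intro x hx
    have hx' : 0 < x := hx
    rw [indicator_apply]
    congr 1
    rw [le_div_iff₀ hx', div_le_iff₀ hx', mem_Icc]
    apply propext
    constructor
    · rintro ⟨h1, h2⟩; constructor <;> linarith
    · rintro ⟨h1, h2⟩; constructor <;> linarith
  rw [setLIntegral_congr_fun measurableSet_Ioi e, setLIntegral_indicator measurableSet_Icc]
  have e2 : Icc (W / 2) W ∩ Ioi 0 = Icc (W / 2) W := by
    apply inter_eq_left.mpr
    intro x hx
    have := hx.1
    show 0 < x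
    linarith [half_pos hW]
  rw [e2]
  have hc : ContinuousOn (fun x : ℝ => k * x ^ (-3 : ℤ)) (Icc (W / 2) W) := by
    apply ContinuousOn.mul continuousOn_const
    apply ContinuousOn.zpow₀ continuousOn_id
    intro x hx
    left
    have := hx.1
    have : 0 < x := by linarith [half_pos hW]
    exact this.ne'
  rw [← ofReal_integral_eq_lintegral_ofReal hc.integrableOn_Icc]
  · congr 1
    rw [integral_Icc_eq_integral_Ioc, ← intervalIntegral.integral_of_le (by linarith),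
      intervalIntegral.integral_const_mul, integral_zpow]
    · norm_num
      have hW' := hW.ne'
      field_simp
      ring
    · right
      refine ⟨by norm_num, ?_⟩
      rw [uIcc_of_le (by linarith)]
      intro h0
      have := h0.1
      linarith [half_pos hW]
  · filter_upwards [ae_restrict_mem measurableSet_Icc] with x hx
    have : 0 < x := by have := hx.1; linarith [half_pos hW]
    show 0 ≤ k * x ^ (-3 : ℤ)
    positivity


private noncomputable def E1f (k : ℝ) (x : ℝ) (p : V2 × V2) : ENNReal :=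
  if 1 ≤ wd p.2 p.1 / x ∧ wd p.2 p.1 / x ≤ 2 then ENNReal.ofReal (k * x ^ (-3 : ℤ)) else 0

private theorem E1f_meas (k : ℝ) : Measurable (Function.uncurry (E1f k)) := by
  have hw : Measurable (fun q : ℝ × (V2 × V2) => wd q.2.2 q.2.1 / q.1) := by
    unfold wd
    fun_prop
  unfold Function.uncurry E1f
  apply Measurable.ite
  · exact (measurableSet_le measurable_const hw).inter (measurableSet_le hw measurable_const)
  · apply ENNReal.measurable_ofReal.comp
    apply Measurable.const_mul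
    have : (fun a : ℝ × (V2 × V2) => a.1 ^ (-3 : ℤ)) = fun a => (a.1 ^ 3)⁻¹ := by
      funext a
      rw [show (-3 : ℤ) = -((3 : ℕ) : ℤ) by norm_num, zpow_neg, zpow_natCast]
    rw [this]
    exact (measurable_fst.pow_const 3).inv
  · exact measurable_const

private theorem E1_kernel {δ : ℝ} (hδ : 0 < δ) (x : ℝ) (hx : 0 < x) :
    ENNReal.ofReal (Wf δ x / x) = ∫⁻ p in E1S δ, E1f (δ ^ 2)⁻¹ x p := by
  have hw : Measurable (fun p : V2 × V2 => wd p.2 p.1 / x) := by
    unfold wd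
    fun_prop
  have hm : MeasurableSet {p : V2 × V2 | 1 ≤ wd p.2 p.1 / x ∧ wd p.2 p.1 / x ≤ 2} :=
    (measurableSet_le measurable_const hw).inter (measurableSet_le hw measurable_const)
  have e : ∀ p, E1f (δ ^ 2)⁻¹ x p = {p : V2 × V2 | 1 ≤ wd p.2 p.1 / x ∧ wd p.2 p.1 / x ≤ 2}.indicator
      (fun _ => ENNReal.ofReal ((δ ^ 2)⁻¹ * x ^ (-3 : ℤ))) p := by
    intro p
    rw [indicator_apply]
    rfl
  simp only [e]
  rw [lintegral_indicator hm, lintegral_const, Measure.restrict_restrict hm,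
    Measure.restrict_apply_univ]
  unfold Wf
  rw [E1_Vol_eq]
  have hfin : volume {p : V2 × V2 | p ∈ E1S δ ∧ 1 ≤ wd p.2 p.1 / x ∧ wd p.2 p.1 / x ≤ 2} ≠ ⊤ :=
    ne_top_of_le_ne_top ENNReal.ofReal_ne_top (E1_Vol_le hδ x)
  have e1 : {p : V2 × V2 | p ∈ E1S δ ∧ 1 ≤ wd p.2 p.1 / x ∧ wd p.2 p.1 / x ≤ 2} =
      {p : V2 × V2 | 1 ≤ wd p.2 p.1 / x ∧ wd p.2 p.1 / x ≤ 2} ∩ E1S δ := by
    ext p
    simp only [Set.mem_ofPred_eq, mem_inter_iff]
    tauto
  rw [← e1]
  rw [show (δ ^ 2)⁻¹ * (x ^ 2)⁻¹ *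
      (volume {p : V2 × V2 | p ∈ E1S δ ∧ 1 ≤ wd p.2 p.1 / x ∧ wd p.2 p.1 / x ≤ 2}).toReal / x =
      ((δ ^ 2)⁻¹ * x ^ (-3 : ℤ)) *
      (volume {p : V2 × V2 | p ∈ E1S δ ∧ 1 ≤ wd p.2 p.1 / x ∧ wd p.2 p.1 / x ≤ 2}).toReal by
    rw [show (-3 : ℤ) = -((3 : ℕ) : ℤ) by norm_num, zpow_neg, zpow_natCast]
    field_simp]
  rw [ENNReal.ofReal_mul (by positivity), ENNReal.ofReal_toReal hfin]

private theorem E1_total {δ : ℝ} (hδ : 0 < δ) (hδ1 : δ ≤ 1 / 4) :
    ENNReal.ofReal (216 / 289) ≤ ∫⁻ x in Ioi (0 : ℝ), ENNReal.ofReal (Wf δ x / x) ∧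
    ∫⁻ x in Ioi (0 : ℝ), ENNReal.ofReal (Wf δ x / x) ≤ ENNReal.ofReal 16 := by
  have e : ∫⁻ x in Ioi (0 : ℝ), ENNReal.ofReal (Wf δ x / x) =
      ∫⁻ x in Ioi (0 : ℝ), ∫⁻ p in E1S δ, E1f (δ ^ 2)⁻¹ x p :=
    setLIntegral_congr_fun measurableSet_Ioi (fun x hx => E1_kernel hδ x hx)
  rw [e, lintegral_lintegral_swap (E1f_meas _).aemeasurable]
  have e2 : ∫⁻ p in E1S δ, ∫⁻ x in Ioi (0 : ℝ), E1f (δ ^ 2)⁻¹ x p =
      ∫⁻ p in E1S δ, ENNReal.ofReal ((δ ^ 2)⁻¹ * (3 / 2) / (wd p.2 p.1) ^ 2) := by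
    apply setLIntegral_congr_fun (E1S_meas δ)
    intro p hp
    have hw := E1_wd hδ hδ1 p hp
    exact E1_inner (by linarith [hw.1]) _ (by positivity)
  rw [e2]
  constructor
  · calc ENNReal.ofReal (216 / 289) = ENNReal.ofReal ((δ ^ 2)⁻¹ * (24 / 289)) * volume (E1S δ) := by
          rw [E1S_vol hδ, ← ENNReal.ofReal_mul (by positivity)]
          congr 1
          field_simp
          norm_num
      _ = ∫⁻ _ in E1S δ, ENNReal.ofReal ((δ ^ 2)⁻¹ * (24 / 289)) := by
          rw [setLIntegral_const]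
      _ ≤ _ := by
          apply setLIntegral_mono' (E1S_meas δ)
          intro p hp
          have hw := E1_wd hδ hδ1 p hp
          have hw0 : 0 < wd p.2 p.1 := by linarith [hw.1]
          apply ENNReal.ofReal_le_ofReal
          rw [mul_div_assoc]
          apply mul_le_mul_of_nonneg_left _ (by positivity)
          rw [div_le_div_iff₀ (by norm_num) (by positivity)]
          nlinarith [hw.1, hw.2]
  · calc _ ≤ ∫⁻ _ in E1S δ, ENNReal.ofReal ((δ ^ 2)⁻¹ * (16 / 9)) := by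
          apply setLIntegral_mono' (E1S_meas δ)
          intro p hp
          have hw := E1_wd hδ hδ1 p hp
          have hw0 : 0 < wd p.2 p.1 := by linarith [hw.1]
          apply ENNReal.ofReal_le_ofReal
          rw [mul_div_assoc]
          apply mul_le_mul_of_nonneg_left _ (by positivity)
          rw [div_le_div_iff₀ (by positivity) (by norm_num)]
          nlinarith [hw.1, hw.2]
      _ = ENNReal.ofReal ((δ ^ 2)⁻¹ * (16 / 9)) * volume (E1S δ) := by
          rw [setLIntegral_const]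
      _ = ENNReal.ofReal 16 := by
          rw [E1S_vol hδ, ← ENNReal.ofReal_mul (by positivity)]
          congr 1
          field_simp

/-- **E1'.** On `Sec1 × Sec2` with `lam = 1`, `15/16 ≤ wd ≤ 4.25`, so `D = wd/x ∈ [1,2]` forces
`x ∈ [wd/2, wd] ⊂ [1/4, 5]`; `Vol 1 1 δ x ≤ (3δ)²`; `∫ Wf(c/r) dr/r = ∫₀^∞ Wf(x) dx/x =
δ⁻² ∫∫ (∫_{wd/2}^{wd} x⁻³ dx) = δ⁻² ∫∫ (3/2) wd⁻²`, and `∫∫ 1 = 9δ²` (so `κ ∈ [0.74, 15.4]`). -/
theorem Wf_props {δ : ℝ} (hδ : 0 < δ) (hδ1 : δ ≤ 1 / 4) :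
    (∀ x, 0 ≤ Wf δ x) ∧ (∀ x, 0 < x → Wf δ x ≠ 0 → 1 / 4 ≤ x ∧ x ≤ 5) ∧ (∀ x, 0 < x → Wf δ x ≤ 200) ∧
    Measurable (Wf δ) ∧ ∃ κ : ℝ, 1 / 2 ≤ κ ∧ κ ≤ 100 ∧ ∀ c : ℝ, 0 < c →
      IntegrableOn (fun r => Wf δ (c / r) / r) (Ioi 0) ∧ ∫ r in Ioi (0 : ℝ), Wf δ (c / r) / r = κ := by
  have hnn : ∀ x, 0 ≤ Wf δ x := by
    intro x
    unfold Wf
    have : 0 ≤ Vol 1 1 δ x := by
      unfold Vol
      exact ENNReal.toReal_nonneg
    positivity
  have hsupp : ∀ x, 0 < x → Wf δ x ≠ 0 → 1 / 4 ≤ x ∧ x ≤ 5 := by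
    intro x hx h
    apply E1_supp hδ hδ1 x hx
    intro h0
    apply h
    unfold Wf
    rw [h0, mul_zero]
  have hle : ∀ x, 0 < x → Wf δ x ≤ 200 := by
    intro x hx
    by_cases h : Wf δ x = 0
    · rw [h]; norm_num
    · obtain ⟨h1, _⟩ := hsupp x hx h
      unfold Wf
      have hb := E1_bound hδ x
      have hV : 0 ≤ Vol 1 1 δ x := by
        unfold Vol
        exact ENNReal.toReal_nonneg
      have hx2 : (x ^ 2)⁻¹ ≤ 16 := by
        rw [inv_le_comm₀ (by positivity) (by norm_num)]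
        nlinarith
      calc (δ ^ 2)⁻¹ * (x ^ 2)⁻¹ * Vol 1 1 δ x ≤ (δ ^ 2)⁻¹ * 16 * (9 * δ ^ 2) := by
            gcongr
        _ = 144 := by field_simp; norm_num
        _ ≤ 200 := by norm_num
  have hmeas : Measurable (Wf δ) := by
    unfold Wf
    exact (((measurable_id.pow_const 2).inv.const_mul _).mul (E1_Vol_meas δ))
  have hint : ∀ c : ℝ, 0 < c → IntegrableOn (fun r => Wf δ (c / r) / r) (Ioi 0) := by
    intro c hc
    have h1 : IntegrableOn (fun r => Wf δ (c / r) / r) (Icc (c / 5) (4 * c)) := by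
      apply Measure.integrableOn_of_bounded (M := 200 / (c / 5))
      · rw [Real.volume_Icc]; exact ENNReal.ofReal_ne_top
      · exact ((hmeas.comp (measurable_const.div measurable_id)).div measurable_id).aestronglyMeasurable
      · filter_upwards [ae_restrict_mem measurableSet_Icc] with r hr
        have hr0 : 0 < r := lt_of_lt_of_le (by positivity) hr.1
        rw [Real.norm_eq_abs, abs_of_nonneg (div_nonneg (hnn _) hr0.le)]
        exact div_le_div₀ (by norm_num) (hle _ (by positivity)) (by positivity) hr.1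
    apply h1.of_forall_diff_eq_zero measurableSet_Ioi
    intro r hr
    have hr0 : 0 < r := hr.1
    by_contra hne
    have hW : Wf δ (c / r) ≠ 0 := by
      intro h0
      apply hne
      rw [h0, zero_div]
    obtain ⟨h2, h3⟩ := hsupp _ (by positivity) hW
    apply hr.2
    rw [le_div_iff₀ hr0] at h2
    rw [div_le_iff₀ hr0] at h3
    constructor <;> linarith
  have hval : ∀ c : ℝ, 0 < c → ∫ r in Ioi (0 : ℝ), Wf δ (c / r) / r =
      ∫ y in Ioi (0 : ℝ), Wf δ y / y := by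
    intro c hc
    have h1 := integral_comp_rpow_Ioi (fun y : ℝ => Wf δ (c * y) / y) (p := -1) (by norm_num)
    have h2 := integral_comp_mul_left_Ioi (fun y : ℝ => Wf δ y / y) 0 hc
    rw [mul_zero] at h2
    have e1 : ∫ r in Ioi (0 : ℝ), Wf δ (c / r) / r = ∫ y in Ioi (0 : ℝ), Wf δ (c * y) / y := by
      rw [← h1]
      apply setIntegral_congr_fun measurableSet_Ioi
      intro x hx
      have hx0 : (0 : ℝ) < x := hx
      simp only [smul_eq_mul]
      rw [show (-1 : ℝ) - 1 = -2 by norm_num, Real.rpow_neg hx0.le, Real.rpow_neg hx0.le,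
        Real.rpow_one, Real.rpow_two, div_eq_mul_inv c x]
      field_simp
      norm_num
    have e2 : ∫ y in Ioi (0 : ℝ), Wf δ (c * y) / y = c * ∫ y in Ioi (0 : ℝ), Wf δ (c * y) / (c * y) := by
      rw [← integral_const_mul]
      apply setIntegral_congr_fun measurableSet_Ioi
      intro x hx
      have hx0 : (0 : ℝ) < x := hx
      show Wf δ (c * x) / x = c * (Wf δ (c * x) / (c * x))
      field_simp
    rw [e1, e2, h2, smul_eq_mul]
    field_simp
  have hint1 : IntegrableOn (fun y => Wf δ y / y) (Ioi 0) := by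
    have h1 : IntegrableOn (fun y => Wf δ y / y) (Icc (1 / 4) 5) := by
      apply Measure.integrableOn_of_bounded (M := 200 / (1 / 4))
      · rw [Real.volume_Icc]; exact ENNReal.ofReal_ne_top
      · exact (hmeas.div measurable_id).aestronglyMeasurable
      · filter_upwards [ae_restrict_mem measurableSet_Icc] with r hr
        have hr0 : 0 < r := lt_of_lt_of_le (by norm_num) hr.1
        rw [Real.norm_eq_abs, abs_of_nonneg (div_nonneg (hnn _) hr0.le)]
        exact div_le_div₀ (by norm_num) (hle _ hr0) (by norm_num) hr.1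
    apply h1.of_forall_diff_eq_zero measurableSet_Ioi
    intro r hr
    have hr0 : 0 < r := hr.1
    by_contra hne
    have hW : Wf δ r ≠ 0 := by
      intro h0
      apply hne
      show Wf δ r / r = 0
      rw [h0, zero_div]
    exact hr.2 (hsupp _ hr0 hW)
  obtain ⟨t1, t2⟩ := E1_total hδ hδ1
  have hof : ENNReal.ofReal (∫ y in Ioi (0 : ℝ), Wf δ y / y) =
      ∫⁻ x in Ioi (0 : ℝ), ENNReal.ofReal (Wf δ x / x) := by
    apply ofReal_integral_eq_lintegral_ofReal hint1
    filter_upwards [ae_restrict_mem measurableSet_Ioi] with y hy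
    exact div_nonneg (hnn y) (le_of_lt hy)
  rw [← hof] at t1 t2
  refine ⟨hnn, hsupp, hle, hmeas, ∫ y in Ioi (0 : ℝ), Wf δ y / y, ?_, ?_, fun c hc => ⟨hint c hc, hval c hc⟩⟩
  · rw [ENNReal.ofReal_le_ofReal_iff'] at t1
    rcases t1 with t1 | t1
    · linarith
    · norm_num at t1
  · rw [ENNReal.ofReal_le_ofReal_iff (by norm_num)] at t2
    linarith

end SG

end
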