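import Mathlib
import Pool.Agent.Lib.MP_069854_nt.Part03
import Pool.Agent.Lib.MP_069854_nt.Part02

/-! Definitions for the lower bound of the sixth moment (squad of helper8).
`T` is the height, `log T` the natural scale, `τ` the centre of a Gaussian window of width
`HH T = T / log T`. -/

namespace S6
open Complex MeasureTheory Filter Topology Set
open scoped Real ComplexConjugate

noncomputable section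

/-- width of the window -/
def HH (T : ℝ) : ℝ := T / Real.log T

/-- Gaussian window centred at `τ` -/
def win (T τ t : ℝ) : ℝ := Real.exp (-((t - τ) / HH T) ^ 2)

/-- analytic continuation of the window: `VV T τ (1/2 + i t) = win T τ t` -/
def VV (T τ : ℝ) (s : ℂ) : ℂ := cexp ((s - (1 / 2 + τ * I)) ^ 2 / (HH T : ℂ) ^ 2)

/-- Gaussian on the Fourier side, `∫ gg(ω) e^{ω u} dξ = e^{u²/H²}` -/
def gg (T : ℝ) (w : ℂ) : ℂ :=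
  ((HH T / (2 * √π) : ℝ) : ℂ) * cexp (-((HH T : ℂ) ^ 2 * w ^ 2 / 4))

/-- the point `ω = ξ + i/T` -/
def om (T ξ : ℝ) : ℂ := (ξ : ℂ) + ((T⁻¹ : ℝ) : ℂ) * I

/-- `gg(ω) e^{-ω s₀}`, `s₀ = 1/2 + i τ` -/
def ker (T τ ξ : ℝ) : ℂ := gg T (om T ξ) * cexp (-(om T ξ * (1 / 2 + τ * I)))

/-- `z(ξ) = 2π i (e^{-ω} - 1)`; its real part is positive -/
def zz (T ξ : ℝ) : ℂ := 2 * π * I * (cexp (-(om T ξ)) - 1)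

/-- the main half of `chi`: `chi s = Xm s + (2π)^{-s} Γ(s) e^{iπs/2}` -/
def Xm (s : ℂ) : ℂ := (2 * π : ℂ) ^ (-s) * Gamma s * cexp (-(π * I * s / 2))

/-- `∑_{n₁,n₂,n₃ ≥ 1} e^{-n₁n₂n₃ W}` -/
def S3 (W : ℂ) : ℂ :=
  ∑' n : ℕ × ℕ × ℕ, cexp (-((((n.1 + 1) * (n.2.1 + 1) * (n.2.2 + 1) : ℕ) : ℂ) * W))

/-- index set of the test polynomial: triples `(m₁, m₂, n)` -/
def tri (T : ℝ) : Finset (ℕ × ℕ × ℕ) :=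
  (Finset.Icc 1 ⌊T⌋₊) ×ˢ (Finset.Icc 1 ⌊T⌋₊) ×ˢ (Finset.Icc 1 ⌊T⌋₊)

/-- coefficient at `(m₁, m₂, n)` -/
def cf (G : ℝ × ℝ × ℝ → ℝ) (T : ℝ) (x : ℕ × ℕ × ℕ) : ℝ :=
  G (Real.log x.1 / Real.log T, Real.log x.2.1 / Real.log T, Real.log x.2.2 / Real.log T)

/-- the test polynomial `B(t) = ∑ cf (m₁m₂n)^{-1/2} (n/(m₁m₂))^{it}` -/
def BB (G : ℝ × ℝ × ℝ → ℝ) (T t : ℝ) : ℂ :=
  ∑ x ∈ tri T, ((cf G T x * (√((x.1 : ℝ) * x.2.1 * x.2.2))⁻¹ : ℝ) : ℂ) *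
    cexp (((t * (Real.log x.2.2 - Real.log x.1 - Real.log x.2.1) : ℝ) : ℂ) * I)

/-- `∫ |B|² w` -/
def I1 (G : ℝ × ℝ × ℝ → ℝ) (T τ : ℝ) : ℝ := ∫ t : ℝ, ‖BB G T t‖ ^ 2 * win T τ t

/-- `∫ |ζ|² ζ conj(B) w` -/
def I2 (G : ℝ × ℝ × ℝ → ℝ) (T τ : ℝ) : ℂ :=
  ∫ t : ℝ, ((‖riemannZeta (1 / 2 + t * I)‖ ^ 2 : ℝ) : ℂ) * riemannZeta (1 / 2 + t * I) *
    conj (BB G T t) * (win T τ t : ℂ)

/-- `∫ χ B² w` -/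
def I3 (G : ℝ × ℝ × ℝ → ℝ) (T τ : ℝ) : ℂ :=
  ∫ t : ℝ, MP069854.chi (1 / 2 + t * I) * BB G T t ^ 2 * (win T τ t : ℂ)

/-- `∫ |ζ|⁶ w` -/
def J6 (T τ : ℝ) : ℝ := ∫ t : ℝ, ‖riemannZeta (1 / 2 + t * I)‖ ^ 6 * win T τ t

/-- The admissible region for the exponents `(x₁, x₂, y)` of `(m₁, m₂, n)`. -/
def Reg (κ : ℝ) : Set (ℝ × ℝ × ℝ) :=
  {p | 0 < p.2.1 ∧ p.2.1 < p.1 ∧ 0 < p.2.2 ∧ κ * (p.1 + p.2.1) + p.2.2 < 1 ∧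
    p.1 + p.2.1 - p.2.2 < 1 / 2}

/-- test function: continuous with compact support inside `Reg κ` -/
structure TF (κ : ℝ) (G : ℝ × ℝ × ℝ → ℝ) : Prop where
  cont : Continuous G
  hcs : HasCompactSupport G
  supp : tsupport G ⊆ Reg κ

/-! ### The 3×3 Karamata functional -/

/-- `ℝ^6`; `p.1 = (x₁,x₂,x₃)` (rows), `p.2 = (y₁,y₂,y₃)` (columns) -/
abbrev E6 := (ℝ × ℝ × ℝ) × (ℝ × ℝ × ℝ)

abbrev N6 := (ℕ × ℕ × ℕ) × (ℕ × ℕ × ℕ)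

/-- weight `1/(a₁a₂a₃)` on positive solutions of `a₁a₂a₃ = b₁b₂b₃` -/
def wt6 (x : N6) : ℝ :=
  if 0 < x.1.1 * x.1.2.1 * x.1.2.2 ∧ x.1.1 * x.1.2.1 * x.1.2.2 = x.2.1 * x.2.2.1 * x.2.2.2 then
    ((x.1.1 * x.1.2.1 * x.1.2.2 : ℕ) : ℝ)⁻¹ else 0

/-- logarithms, in the scale `L` -/
def lg6 (L : ℝ) (x : N6) : E6 :=
  ((Real.log x.1.1 / L, Real.log x.1.2.1 / L, Real.log x.1.2.2 / L),
    (Real.log x.2.1 / L, Real.log x.2.2.1 / L, Real.log x.2.2.2 / L))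

def Lam (L : ℝ) (f : E6 → ℝ) : ℝ := ∑' x : N6, wt6 x * f (lg6 L x)

/-- pairing -/
def dot6 (s p : E6) : ℝ :=
  s.1.1 * p.1.1 + s.1.2.1 * p.1.2.1 + s.1.2.2 * p.1.2.2 +
    (s.2.1 * p.2.1 + s.2.2.1 * p.2.2.1 + s.2.2.2 * p.2.2.2)

/-- all coordinates positive -/
def Pos6 (s : E6) : Prop :=
  0 < s.1.1 ∧ 0 < s.1.2.1 ∧ 0 < s.1.2.2 ∧ 0 < s.2.1 ∧ 0 < s.2.2.1 ∧ 0 < s.2.2.2

/-- all coordinates nonnegative -/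
def Nn6 (s : E6) : Prop :=
  0 ≤ s.1.1 ∧ 0 ≤ s.1.2.1 ∧ 0 ≤ s.1.2.2 ∧ 0 ≤ s.2.1 ∧ 0 ≤ s.2.2.1 ∧ 0 ≤ s.2.2.2

/-- `∏_{i,j} (s_i + t_j)` -/
def cauchyProd (s : E6) : ℝ :=
  (s.1.1 + s.2.1) * (s.1.1 + s.2.2.1) * (s.1.1 + s.2.2.2) *
  ((s.1.2.1 + s.2.1) * (s.1.2.1 + s.2.2.1) * (s.1.2.1 + s.2.2.2)) *
  ((s.1.2.2 + s.2.1) * (s.1.2.2 + s.2.2.1) * (s.1.2.2 + s.2.2.2))

/-- `ν` is the image of Lebesgue measure on nonnegative 3×3 matrices under (row sums, column sums),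
expressed by its Laplace transform. -/
structure Lap (ν : Measure E6) : Prop where
  nn : ∀ᵐ p ∂ν, Nn6 p
  int : ∀ s : E6, Pos6 s → Integrable (fun p => Real.exp (-dot6 s p)) ν
  lap : ∀ s : E6, Pos6 s → ∫ p, Real.exp (-dot6 s p) ∂ν = (cauchyProd s)⁻¹

/-! ### Elementary evaluation near the real axis -/

/-- for `p = (n₂ - 1, n₃ - 1)`: `n₂ n₃` -/
def pq (p : ℕ × ℕ) : ℕ := (p.1 + 1) * (p.2 + 1)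

/-- `max (n₂, n₃)` -/
def mx (p : ℕ × ℕ) : ℕ := max (p.1 + 1) (p.2 + 1)

/-- the terms with `m ∣ n n₂ n₃`: `∑_{n₁ > max} e^{-n₁ l Z}`, `l = n n₂ n₃ / m` -/
def tl (m n : ℕ) (Z : ℝ) (p : ℕ × ℕ) : ℝ :=
  if m ∣ n * pq p then
    Real.exp (-((mx p + 1 : ℝ) * (n * pq p / m) * Z)) / (1 - Real.exp (-((n * pq p / m) * Z)))
  else 0

/-! ### Exponential sums and the dual side -/

/-- `∑_{a,b,c mod q} e((-habc + xa + yb + zc)/q)` -/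
def SS (q : ℕ) [NeZero q] (h x y z : ZMod q) : ℂ :=
  ∑ a : ZMod q, ∑ b : ZMod q, ∑ c : ZMod q,
    ZMod.stdAddChar (-(h * a * b * c) + x * a + y * b + z * c)

/-- `D(s) = q^{-3s} ∑_{a,b,c mod q} e(-habc/q) ζ(s,a/q) ζ(s,b/q) ζ(s,c/q)`, the continuation of
`∑ d₃(n) e(-nh/q) n^{-s}` -/
def DD (q : ℕ) [NeZero q] (h : ZMod q) (s : ℂ) : ℂ :=
  (q : ℂ) ^ (-(3 * s)) * ∑ a : ZMod q, ∑ b : ZMod q, ∑ c : ZMod q,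
    ZMod.stdAddChar (-(h * a * b * c)) * (HurwitzZeta.hurwitzZeta (ZMod.toAddCircle a) s *
      HurwitzZeta.hurwitzZeta (ZMod.toAddCircle b) s * HurwitzZeta.hurwitzZeta (ZMod.toAddCircle c) s)

/-- Gamma factor of the dual side, `e = ε₁+ε₂+ε₃` -/
def kk (e : ℤ) (s : ℂ) : ℂ :=
  Gamma s * ((2 * π) ^ (s - 1) * Gamma (1 - s)) ^ 3 * cexp (-(π * I * (1 - s) * e / 2))

/-- kernel on the line `Re s = σ` -/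
def JJ (σ : ℝ) (e : ℤ) (y : ℂ) : ℂ :=
  (1 / (2 * π)) * ∫ t : ℝ, kk e (σ + t * I) * y ^ (-(σ + t * I : ℂ))

/-- sign of a Boolean -/
def sg (b : Bool) : ℤ := if b then 1 else -1

/-- index of the dual sum: signs and `(u-1, v-1, w-1)` -/
abbrev Ix := (Bool × Bool × Bool) × (ℕ × ℕ × ℕ)

/-- `uvw` -/
def pr (i : Ix) : ℝ := ((i.2.1 + 1 : ℕ) : ℝ) * ((i.2.2.1 + 1 : ℕ) : ℝ) * ((i.2.2.2 + 1 : ℕ) : ℝ)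

/-- `ε₁+ε₂+ε₃` -/
def es (i : Ix) : ℤ := sg i.1.1 + sg i.1.2.1 + sg i.1.2.2

/-- the exponential sum attached to an index -/
def SI (q : ℕ) [NeZero q] (h : ZMod q) (i : Ix) : ℂ :=
  SS q h ((sg i.1.1 * (i.2.1 + 1 : ℕ) : ℤ) : ZMod q) ((sg i.1.2.1 * (i.2.2.1 + 1 : ℕ) : ℤ) : ZMod q)
    ((sg i.1.2.2 * (i.2.2.2 + 1 : ℕ) : ℤ) : ZMod q)

/-- Hypothesis on exponential sums: `κ = 3/2` is Weil's bound, `κ = 7/4` is Kloosterman's. -/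
def KloosBound (κ : ℝ) : Prop :=
  ∃ B : ℕ → ℝ, (∀ q, 0 ≤ B q) ∧
    (∀ (q : ℕ) [NeZero q] (h x y z : ZMod q), IsUnit h →
      ‖SS q h x y z‖ ≤ q * B q * (√(Nat.gcd x.val q) * √(Nat.gcd z.val q))) ∧
    ∀ ε : ℝ, 0 < ε → ∃ C : ℝ, ∀ Q : ℕ,
      ∑ q ∈ Finset.Icc 1 Q, B q * (q : ℝ) ^ (-κ) ≤ C * (Q : ℝ) ^ ε

/-! ### Concrete measures and the optimisation -/

/-- Lebesgue measure on `[0,∞)` -/
def m0 : Measure ℝ := volume.restrict (Ici 0)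

/-- ordering A: outer `(t₁₁, t₂₂, t₂₃, t₃₂, t₃₃)`, inner `((t₁₂, t₁₃), (t₂₁, t₃₁))` -/
abbrev OA := (ℝ × ℝ × ℝ × ℝ × ℝ) × ((ℝ × ℝ) × (ℝ × ℝ))

/-- (row sums, column sums) in ordering A -/
def mapA (t : OA) : E6 :=
  ((t.1.1 + t.2.1.1 + t.2.1.2, t.2.2.1 + t.1.2.1 + t.1.2.2.1, t.2.2.2 + t.1.2.2.2.1 + t.1.2.2.2.2),
    (t.1.1 + t.2.2.1 + t.2.2.2, t.2.1.1 + t.1.2.1 + t.1.2.2.2.1, t.2.1.2 + t.1.2.2.1 + t.1.2.2.2.2))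

def nuA : Measure E6 :=
  Measure.map mapA ((m0.prod (m0.prod (m0.prod (m0.prod m0)))).prod ((m0.prod m0).prod (m0.prod m0)))

/-- ordering B: outer `((t₁₂, t₁₃), (t₂₂, t₂₃), (t₃₁, t₃₂, t₃₃))`, inner `(t₁₁, t₂₁)` -/
abbrev OB := ((ℝ × ℝ) × (ℝ × ℝ) × (ℝ × ℝ × ℝ)) × (ℝ × ℝ)

/-- (row sums, column sums) in ordering B -/
def mapB (t : OB) : E6 :=
  ((t.2.1 + t.1.1.1 + t.1.1.2, t.2.2 + t.1.2.1.1 + t.1.2.1.2, t.1.2.2.1 + t.1.2.2.2.1 + t.1.2.2.2.2),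
    (t.2.1 + t.2.2 + t.1.2.2.1, t.1.1.1 + t.1.2.1.1 + t.1.2.2.2.1, t.1.1.2 + t.1.2.1.2 + t.1.2.2.2.2))

def nuB : Measure E6 :=
  Measure.map mapB (((m0.prod m0).prod ((m0.prod m0).prod (m0.prod (m0.prod m0)))).prod (m0.prod m0))

/-- directional derivative -/
def Dv (v : ℝ × ℝ × ℝ) (f : ℝ × ℝ × ℝ → ℝ) (x : ℝ × ℝ × ℝ) : ℝ := fderiv ℝ f x v

/-- the test function attached to `Ψ` -/
def GG (Ψ : ℝ × ℝ × ℝ → ℝ) : ℝ × ℝ × ℝ → ℝ := Dv (1, 0, 1) (Dv (0, 1, 1) (Dv (1, -1, 0) Ψ))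

/-- the optimal profile -/
def PP (p : ℝ × ℝ × ℝ) : ℝ := (p.1 - p.2.1) * (1 - p.2.2 - p.1) * (1 - p.2.2 - p.2.1) / 2

/-- the linear form `max(y₂,y₃) + x₃` -/
def ell (p : E6) : ℝ := max p.2.2.1 p.2.2.2 + p.1.2.2

/-- diagonal quadratic form of the test function -/
def QA (ν : Measure E6) (G : ℝ × ℝ × ℝ → ℝ) : ℝ :=
  ∫ p : E6, G (p.2.2.1, p.2.2.2, p.1.1) * G (p.1.2.1, p.1.2.2, p.2.1) ∂ν

/-- cross term at `Z = T^{-λ}` -/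
def QB (ν : Measure E6) (G : ℝ × ℝ × ℝ → ℝ) (l : ℝ) : ℝ :=
  3 * ∫ p : E6, G (p.1.1, p.1.2.1, p.2.1) * (if ell p ≤ l then 1 else 0) ∂ν

end

end S6
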