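import Pool.Agent.Lib.MP_069854_nt.Part02
import Pool.Agent.Lib.MP_39df77_nt.S6Defs
import Pool.Agent.Lib.MP_39df77_nt.Part03

section

namespace MP39df77
open Filter Topology Real Finset
set_option autoImplicit false

/-- `n ↦ n^{-a}` as an arithmetic function. -/
noncomputable def pw (a : ℝ) : ArithmeticFunction ℝ :=
  ⟨fun n => if n = 0 then 0 else (n : ℝ) ^ (-a), by simp⟩

lemma pw_apply (a : ℝ) {n : ℕ} (hn : n ≠ 0) : pw a n = (n : ℝ) ^ (-a) := by
  show (if n = 0 then 0 else (n : ℝ) ^ (-a)) = _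
  rw [if_neg hn]

lemma pw_zero (a : ℝ) : pw a 0 = 0 := by simp

lemma pw_one (a : ℝ) : pw a 1 = 1 := by rw [pw_apply a one_ne_zero]; simp

lemma pw_nonneg (a : ℝ) (n : ℕ) : 0 ≤ pw a n := by
  rcases eq_or_ne n 0 with rfl | hn
  · rw [pw_zero]
  · rw [pw_apply a hn]; positivity

lemma pw_mul (a : ℝ) (m n : ℕ) : pw a (m * n) = pw a m * pw a n := by
  rcases eq_or_ne m 0 with rfl | hm
  · simp
  rcases eq_or_ne n 0 with rfl | hn
  · simp
  rw [pw_apply a hm, pw_apply a hn, pw_apply a (mul_ne_zero hm hn)]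
  push_cast
  exact mul_rpow (Nat.cast_nonneg _) (Nat.cast_nonneg _)

lemma pw_anti {a b : ℝ} (h : a ≤ b) (n : ℕ) : pw b n ≤ pw a n := by
  rcases eq_or_ne n 0 with rfl | hn
  · simp
  rw [pw_apply a hn, pw_apply b hn]
  have : (1:ℝ) ≤ n := by exact_mod_cast Nat.one_le_iff_ne_zero.2 hn
  exact rpow_le_rpow_of_exponent_le this (by linarith)

lemma pw_mult (a : ℝ) : (pw a).IsMultiplicative := ⟨pw_one a, fun {m n} _ => pw_mul a m n⟩

/-- the shifted divisor function `∑_{xyz=n} x^{-α₀}y^{-α₁}z^{-α₂}` -/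
noncomputable def sg (α : Fin 3 → ℝ) : ArithmeticFunction ℝ := pw (α 0) * pw (α 1) * pw (α 2)

lemma sg_mult (α : Fin 3 → ℝ) : (sg α).IsMultiplicative :=
  ((pw_mult _).mul (pw_mult _)).mul (pw_mult _)

lemma mul_nonneg' {f g : ArithmeticFunction ℝ} (hf : ∀ n, 0 ≤ f n) (hg : ∀ n, 0 ≤ g n) (n : ℕ) :
    0 ≤ (f * g) n := by
  rw [ArithmeticFunction.mul_apply]
  exact sum_nonneg fun x _ => mul_nonneg (hf _) (hg _)

lemma mul_mono' {f g f' g' : ArithmeticFunction ℝ} (hf : ∀ n, 0 ≤ f n) (hg : ∀ n, 0 ≤ g n)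
    (hff : ∀ n, f n ≤ f' n) (hgg : ∀ n, g n ≤ g' n) (n : ℕ) :
    (f * g) n ≤ (f' * g') n := by
  rw [ArithmeticFunction.mul_apply, ArithmeticFunction.mul_apply]
  exact sum_le_sum fun x _ => mul_le_mul (hff _) (hgg _) (hg _) ((hf _).trans (hff _))

lemma sg_nonneg (α : Fin 3 → ℝ) (n : ℕ) : 0 ≤ sg α n :=
  mul_nonneg' (fun n => mul_nonneg' (pw_nonneg _) (pw_nonneg _) n) (pw_nonneg _) n

lemma sg_mono {α β : Fin 3 → ℝ} (h : ∀ i, α i ≤ β i) (n : ℕ) : sg β n ≤ sg α n :=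
  mul_mono' (fun n => mul_nonneg' (pw_nonneg _) (pw_nonneg _) n) (pw_nonneg _)
    (fun n => mul_mono' (pw_nonneg _) (pw_nonneg _) (pw_anti (h 0)) (pw_anti (h 1)) n)
    (pw_anti (h 2)) n

lemma pw_zero_eq : pw 0 = ((ArithmeticFunction.zeta : ArithmeticFunction ℕ) : ArithmeticFunction ℝ) := by
  ext n
  rcases eq_or_ne n 0 with rfl | hn
  · simp
  · rw [pw_apply 0 hn, ArithmeticFunction.natCoe_apply, ArithmeticFunction.zeta_apply_ne hn]
    simp

lemma sg_const (a : ℝ) (n : ℕ) : sg (fun _ => a) n = pw a n * (MP069854.dk 3 n : ℝ) := by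
  have h1 : ∀ f g : ArithmeticFunction ℝ, ∀ n, (pw a).pmul f n = pw a n * f n := fun f g n => rfl
  have key : ∀ f g : ArithmeticFunction ℝ,
      (pw a).pmul f * (pw a).pmul g = (pw a).pmul (f * g) := by
    intro f g
    ext n
    rw [ArithmeticFunction.mul_apply, ArithmeticFunction.pmul_apply, ArithmeticFunction.mul_apply,
      mul_sum]
    refine sum_congr rfl fun x hx => ?_
    rw [ArithmeticFunction.pmul_apply, ArithmeticFunction.pmul_apply]
    have : x.1 * x.2 = n := (Nat.mem_divisorsAntidiagonal.1 hx).1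
    rw [← this, pw_mul]; ring
  have h2 : pw a = (pw a).pmul (pw 0) := by
    ext n
    rw [ArithmeticFunction.pmul_apply]
    rcases eq_or_ne n 0 with rfl | hn
    · simp
    · rw [pw_apply 0 hn]; simp
  have h3 : sg (fun _ => a) = (pw a).pmul (pw 0 * pw 0 * pw 0) := by
    unfold sg
    rw [← key, ← key, ← h2]
  rw [h3, ArithmeticFunction.pmul_apply, MP069854.dk_eq_zeta_pow]
  congr 1
  rw [pw_zero_eq, ← ArithmeticFunction.natCoe_mul, ← ArithmeticFunction.natCoe_mul,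
    ArithmeticFunction.natCoe_apply]
  congr 2
  ring

lemma sg_zero_shift (n : ℕ) (hn : n ≠ 0) : sg (fun _ => 0) n = (MP069854.dk 3 n : ℝ) := by
  rw [sg_const, pw_apply 0 hn]; simp

lemma sg_le (α : Fin 3 → ℝ) (hα : ∀ i, 0 ≤ α i) (n : ℕ) : sg α n ≤ (MP069854.dk 3 n : ℝ) := by
  rcases eq_or_ne n 0 with rfl | hn
  · simp
  · rw [← sg_zero_shift n hn]; exact sg_mono hα n

lemma sg_tendsto (α : Fin 3 → ℝ) (n : ℕ) :
    Tendsto (fun L : ℝ => sg (fun i => α i / L) n) atTop (𝓝 (sg (fun _ => 0) n)) := by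
  have hpw : ∀ a : ℝ, ∀ n, Tendsto (fun L : ℝ => pw (a / L) n) atTop (𝓝 (pw 0 n)) := by
    intro a n
    rcases eq_or_ne n 0 with rfl | hn
    · simp
    · have h0 : (0:ℝ) < n := by exact_mod_cast Nat.pos_of_ne_zero hn
      have h1 : ∀ L : ℝ, pw (a / L) n = (n : ℝ) ^ (-(a / L)) := fun L => pw_apply _ hn
      simp only [h1]
      rw [pw_apply 0 hn]
      have h2 : Tendsto (fun L : ℝ => -(a / L)) atTop (𝓝 (-0)) :=
        (tendsto_const_nhds.div_atTop tendsto_id).neg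
      exact (tendsto_const_nhds.rpow h2 (Or.inl h0.ne'))
  have hmul : ∀ f g : ℝ → ArithmeticFunction ℝ, ∀ f' g' : ArithmeticFunction ℝ,
      (∀ n, Tendsto (fun L : ℝ => f L n) atTop (𝓝 (f' n))) →
      (∀ n, Tendsto (fun L : ℝ => g L n) atTop (𝓝 (g' n))) →
      ∀ n, Tendsto (fun L : ℝ => (f L * g L) n) atTop (𝓝 ((f' * g') n)) := by
    intro f g f' g' hf hg n
    simp only [ArithmeticFunction.mul_apply]
    exact tendsto_finsetSum _ fun x _ => (hf x.1).mul (hg x.2)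
  unfold sg
  exact hmul (fun L => pw (α 0 / L) * pw (α 1 / L)) (fun L => pw (α 2 / L)) (pw 0 * pw 0) (pw 0)
    (hmul (fun L => pw (α 0 / L)) (fun L => pw (α 1 / L)) (pw 0) (pw 0) (hpw _) (hpw _)) (hpw _) n

/-- the summand of the Rankin–Selberg series -/
noncomputable def Ff (α β : Fin 3 → ℝ) (n : ℕ) : ℝ := sg α n * sg β n / n

lemma Ff_nonneg (α β : Fin 3 → ℝ) (n : ℕ) : 0 ≤ Ff α β n :=
  div_nonneg (mul_nonneg (sg_nonneg _ _) (sg_nonneg _ _)) (Nat.cast_nonneg _)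

lemma Ff_zero (α β : Fin 3 → ℝ) : Ff α β 0 = 0 := by simp [Ff]

lemma Ff_one (α β : Fin 3 → ℝ) : Ff α β 1 = 1 := by
  unfold Ff
  rw [(sg_mult α).1, (sg_mult β).1]; simp

lemma Ff_mul (α β : Fin 3 → ℝ) {m n : ℕ} (h : m.Coprime n) :
    Ff α β (m * n) = Ff α β m * Ff α β n := by
  unfold Ff
  rw [(sg_mult α).map_mul_of_coprime h, (sg_mult β).map_mul_of_coprime h]
  push_cast
  rw [mul_div_mul_comm]
  ring

lemma Ff_le_fs {α β : Fin 3 → ℝ} {a b : ℝ} (ha : ∀ i, a ≤ α i) (hb : ∀ i, b ≤ β i) (n : ℕ) :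
    Ff α β n ≤ MP069854.fs 3 (1 + (a + b)) n := by
  rcases eq_or_ne n 0 with rfl | hn
  · rw [Ff_zero]; exact MP069854.fs_nonneg _ _ _
  have hn0 : (0:ℝ) < n := by exact_mod_cast Nat.pos_of_ne_zero hn
  have h1 : sg α n ≤ pw a n * (MP069854.dk 3 n : ℝ) := by
    rw [← sg_const]; exact sg_mono ha n
  have h2 : sg β n ≤ pw b n * (MP069854.dk 3 n : ℝ) := by
    rw [← sg_const]; exact sg_mono hb n
  unfold Ff MP069854.fs
  rw [div_eq_mul_inv]
  have h3 : (n:ℝ) ^ (-(1 + (a + b))) = pw a n * pw b n * (n:ℝ)⁻¹ := by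
    rw [pw_apply a hn, pw_apply b hn, ← rpow_neg_one, ← rpow_add hn0, ← rpow_add hn0]
    congr 1; ring
  rw [h3]
  calc sg α n * sg β n * (n:ℝ)⁻¹ ≤ (pw a n * (MP069854.dk 3 n : ℝ)) * (pw b n * (MP069854.dk 3 n : ℝ)) * (n:ℝ)⁻¹ := by
        gcongr
        · exact sg_nonneg _ _
        · exact mul_nonneg (pw_nonneg _ _) (Nat.cast_nonneg _)
    _ = _ := by ring

lemma Ff_summable {α β : Fin 3 → ℝ} (h : ∀ i j, 0 < α i + β j) : Summable (Ff α β) := by
  obtain ⟨i0, hi0⟩ := Finite.exists_min α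
  obtain ⟨j0, hj0⟩ := Finite.exists_min β
  refine Summable.of_nonneg_of_le (Ff_nonneg α β) (Ff_le_fs hi0 hj0) ?_
  exact MP069854.fs_summable 3 (by have := h i0 j0; linarith)

/-- local factor -/
noncomputable def El (α β : Fin 3 → ℝ) (p : ℕ) : ℝ := ∑' k, Ff α β (p ^ k)

lemma Ff_hasProd {α β : Fin 3 → ℝ} (h : ∀ i j, 0 < α i + β j) :
    HasProd (fun p : Nat.Primes => El α β p) (∑' n, Ff α β n) :=
  EulerProduct.eulerProduct_hasProd (Ff_one α β)
    (fun {m n} h => Ff_mul α β (m := m) (n := n) h)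
    ((Ff_summable h).congr fun n => (Real.norm_of_nonneg (Ff_nonneg _ _ _)).symm) (Ff_zero α β)

lemma sg_prime (α : Fin 3 → ℝ) {p : ℕ} (hp : p.Prime) :
    sg α p = ∑ i, (p : ℝ) ^ (-α i) := by
  unfold sg
  have h1 : ∀ f g : ArithmeticFunction ℝ, (f * g) p = f p * g 1 + f 1 * g p := by
    intro f g
    rw [ArithmeticFunction.mul_apply, Nat.sum_divisorsAntidiagonal (fun a b => f a * g b),
      Nat.Prime.sum_divisors hp, Nat.div_self hp.pos, Nat.div_one]
  rw [h1, h1, (((pw_mult (α 0)).mul (pw_mult (α 1)))).1, pw_one, pw_one, pw_one, pw_apply _ hp.ne_zero,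
    pw_apply _ hp.ne_zero, pw_apply _ hp.ne_zero, Fin.sum_univ_three]
  ring

/-- first order terms -/
noncomputable def yv (α β : Fin 3 → ℝ) (p : ℕ) (x : Fin 3 × Fin 3) : ℝ :=
  (p : ℝ) ^ (-(1 + (α x.1 + β x.2)))

lemma yv_nonneg (α β : Fin 3 → ℝ) (p : ℕ) (x : Fin 3 × Fin 3) : 0 ≤ yv α β p x := by
  unfold yv; positivity

lemma yv_le {α β : Fin 3 → ℝ} (hα : ∀ i, 0 ≤ α i) (hβ : ∀ i, 0 ≤ β i) {p : ℕ} (hp : p.Prime)
    (x : Fin 3 × Fin 3) : yv α β p x ≤ (p : ℝ)⁻¹ := by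
  unfold yv
  have : (1:ℝ) ≤ p := by exact_mod_cast hp.one_le
  rw [← rpow_neg_one]
  exact rpow_le_rpow_of_exponent_le this (by linarith [hα x.1, hβ x.2])

lemma Ff_prime (α β : Fin 3 → ℝ) {p : ℕ} (hp : p.Prime) :
    Ff α β p = ∑ x, yv α β p x := by
  unfold Ff yv
  have hp0 : (0:ℝ) < p := by exact_mod_cast hp.pos
  rw [sg_prime α hp, sg_prime β hp, Finset.sum_mul_sum, ← Finset.sum_product', Finset.sum_div]
  refine Finset.sum_congr rfl fun x _ => ?_
  rw [div_eq_mul_inv, ← rpow_neg_one, ← rpow_add hp0, ← rpow_add hp0]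
  congr 1; ring

lemma Ff_pow_le {α β : Fin 3 → ℝ} (hα : ∀ i, 0 ≤ α i) (hβ : ∀ i, 0 ≤ β i) {p : ℕ} (hp : p.Prime)
    (k : ℕ) : Ff α β (p ^ k) ≤ ((3:ℕ).multichoose k : ℝ) ^ 2 * ((p : ℝ)⁻¹) ^ k := by
  unfold Ff
  have h1 := sg_le α hα (p ^ k)
  have h2 := sg_le β hβ (p ^ k)
  rw [MP069854.dk_prime_pow hp] at h1 h2
  push_cast
  rw [div_eq_mul_inv, inv_pow, sq]
  gcongr
  exact sg_nonneg _ _

lemma p_inv_le {p : ℕ} (hp : p.Prime) : (p : ℝ)⁻¹ ≤ 1 / 2 := by
  rw [one_div]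
  apply inv_anti₀ (by norm_num)
  exact_mod_cast hp.two_le

lemma Ff_pow_summable {α β : Fin 3 → ℝ} (hα : ∀ i, 0 ≤ α i) (hβ : ∀ i, 0 ≤ β i) {p : ℕ}
    (hp : p.Prime) : Summable fun k => Ff α β (p ^ k) :=
  Summable.of_nonneg_of_le (fun k => Ff_nonneg _ _ _) (Ff_pow_le hα hβ hp)
    (MP069854.S_summable 3 (by positivity) (p_inv_le hp))

lemma El_eq {α β : Fin 3 → ℝ} (hα : ∀ i, 0 ≤ α i) (hβ : ∀ i, 0 ≤ β i) {p : ℕ} (hp : p.Prime) :
    ∃ r : ℝ, 0 ≤ r ∧ r ≤ ((p : ℝ)⁻¹) ^ 2 * MP069854.R 3 (1/2) ∧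
      El α β p = 1 + ∑ x, yv α β p x + r := by
  have h := (Ff_pow_summable hα hβ hp).sum_add_tsum_nat_add 2
  refine ⟨∑' k, Ff α β (p ^ (k + 2)), tsum_nonneg fun k => Ff_nonneg _ _ _, ?_, ?_⟩
  · have h1 : ∑' k, Ff α β (p ^ (k + 2)) ≤
        ∑' k, ((p : ℝ)⁻¹) ^ 2 * (((3:ℕ).multichoose (k + 2) : ℝ) ^ 2 * ((p : ℝ)⁻¹) ^ k) := by
      refine Summable.tsum_le_tsum (fun k => ?_) ?_ ?_
      · refine (Ff_pow_le hα hβ hp (k + 2)).trans (le_of_eq ?_)
        rw [pow_add]; ring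
      · exact (summable_nat_add_iff 2).2 (Ff_pow_summable hα hβ hp)
      · exact (MP069854.R_summable 3 (by positivity) (p_inv_le hp)).mul_left _
    rw [tsum_mul_left] at h1
    refine h1.trans ?_
    have := MP069854.R_le 3 (x := (p:ℝ)⁻¹) (by positivity) (p_inv_le hp)
    unfold MP069854.R at this ⊢
    gcongr
  · unfold El
    rw [← h, Finset.sum_range_succ, Finset.sum_range_one, pow_zero, Ff_one, pow_one,
      Ff_prime α β hp]

lemma prod_one_sub_bounds {ι : Type*} (s : Finset ι) (y : ι → ℝ) (h0 : ∀ i ∈ s, 0 ≤ y i)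
    (h1 : ∀ i ∈ s, y i ≤ 1) :
    1 - ∑ i ∈ s, y i ≤ ∏ i ∈ s, (1 - y i) ∧
    ∏ i ∈ s, (1 - y i) ≤ 1 - ∑ i ∈ s, y i + (∑ i ∈ s, y i) ^ 2 := by
  classical
  induction s using Finset.induction_on with
  | empty => simp
  | insert a s ha ih =>
    obtain ⟨ih1, ih2⟩ := ih (fun i hi => h0 i (Finset.mem_insert_of_mem hi))
      (fun i hi => h1 i (Finset.mem_insert_of_mem hi))
    have ha0 := h0 a (Finset.mem_insert_self a s)
    have ha1 := h1 a (Finset.mem_insert_self a s)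
    have hs0 : 0 ≤ ∑ i ∈ s, y i := Finset.sum_nonneg fun i hi => h0 i (Finset.mem_insert_of_mem hi)
    rw [Finset.sum_insert ha, Finset.prod_insert ha]
    have h2 : 0 ≤ 1 - y a := by linarith
    constructor
    · nlinarith [mul_le_mul_of_nonneg_left ih1 h2, mul_nonneg ha0 hs0]
    · have h3 := mul_le_mul_of_nonneg_left ih2 h2
      nlinarith [mul_nonneg ha0 hs0, mul_nonneg ha0 (sq_nonneg (∑ i ∈ s, y i)), sq_nonneg (y a)]

/-- the regularised local factor -/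
noncomputable def Qf (α β : Fin 3 → ℝ) (p : ℕ) : ℝ := El α β p * ∏ x, (1 - yv α β p x)

/-- constant in the bound for `Qf - 1` -/
noncomputable def CQ : ℝ := 1000 + 1000 * MP069854.R 3 (1/2)

lemma Qf_bound {α β : Fin 3 → ℝ} (hα : ∀ i, 0 ≤ α i) (hβ : ∀ i, 0 ≤ β i) {p : ℕ} (hp : p.Prime) :
    |Qf α β p - 1| ≤ CQ * ((p : ℝ)⁻¹) ^ 2 := by
  obtain ⟨r, hr0, hr1, hE⟩ := El_eq hα hβ hp
  obtain ⟨h1, h2⟩ := prod_one_sub_bounds Finset.univ (yv α β p) (fun i _ => yv_nonneg α β p i)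
    (fun i _ => (yv_le hα hβ hp i).trans ((p_inv_le hp).trans (by norm_num)))
  unfold Qf CQ
  rw [hE]
  set s := ∑ x, yv α β p x with hs
  set P := ∏ x, (1 - yv α β p x) with hP
  set t := (p : ℝ)⁻¹ with ht
  have ht0 : 0 ≤ t := by positivity
  have ht1 : t ≤ 1/2 := p_inv_le hp
  have hs0 : 0 ≤ s := Finset.sum_nonneg fun i _ => yv_nonneg α β p i
  have hs9 : s ≤ 9 * t := by
    have : s ≤ ∑ _x : Fin 3 × Fin 3, t := Finset.sum_le_sum fun i _ => yv_le hα hβ hp i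
    simpa using this
  have hP0 : 0 ≤ P := Finset.prod_nonneg fun i _ => by
    have := yv_le hα hβ hp i
    linarith
  have hP1 : P ≤ 1 := Finset.prod_le_one (fun i _ => by
    have := yv_le hα hβ hp i
    linarith) fun i _ => by
    have := yv_nonneg α β p i
    linarith
  set R := MP069854.R 3 (1/2) with hR
  have hR0 : 0 ≤ R := MP069854.R_nonneg 3 (by norm_num)
  have hs2 : s ^ 2 ≤ 81 * t ^ 2 := by nlinarith
  have hs3 : s ^ 3 ≤ 81 * 9 * t ^ 2 := by
    have : s ^ 3 = s ^ 2 * s := by ring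
    rw [this]
    have h5 : s ≤ 9 := by linarith
    calc s ^ 2 * s ≤ (81 * t ^ 2) * 9 := by gcongr
      _ = _ := by ring
  have hrt : r ≤ t ^ 2 * R := hr1
  have hrP : r * P ≤ t ^ 2 * R := by nlinarith
  have hrP0 : 0 ≤ r * P := mul_nonneg hr0 hP0
  have hlow : (1 + s) * (1 - s) ≤ (1 + s) * P := mul_le_mul_of_nonneg_left h1 (by linarith)
  have hupp : (1 + s) * P ≤ (1 + s) * (1 - s + s ^ 2) := mul_le_mul_of_nonneg_left h2 (by linarith)
  rw [abs_le]
  constructor <;> nlinarith [mul_nonneg hR0 (sq_nonneg t), sq_nonneg t]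

lemma Qf_factor {α β : Fin 3 → ℝ} (hα : ∀ i, 0 ≤ α i) (hβ : ∀ i, 0 ≤ β i)
    (h : ∀ i j, 0 < α i + β j) :
    ∑' n, Ff α β n = (∏ x : Fin 3 × Fin 3, MP069854.Zs (1 + (α x.1 + β x.2))) *
      ∏' p : Nat.Primes, Qf α β p := by
  have h1 : HasProd (fun p : Nat.Primes => ∏ x : Fin 3 × Fin 3, (1 - yv α β p x)⁻¹)
      (∏ x : Fin 3 × Fin 3, MP069854.Zs (1 + (α x.1 + β x.2))) := by
    refine hasProd_prod fun x _ => ?_
    exact MP069854.Zs_hasProd (by have := h x.1 x.2; linarith)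
  have hne : (∏ x : Fin 3 × Fin 3, MP069854.Zs (1 + (α x.1 + β x.2))) ≠ 0 := by
    refine Finset.prod_ne_zero_iff.2 fun x _ => ?_
    have h2 : 1 < 1 + (α x.1 + β x.2) := by have := h x.1 x.2; linarith
    have : Summable fun n : ℕ => 1 / (n : ℝ) ^ (1 + (α x.1 + β x.2)) :=
      Real.summable_one_div_nat_rpow.2 h2
    have h3 : (1:ℝ) ≤ MP069854.Zs (1 + (α x.1 + β x.2)) := by
      have h4 := this.le_tsum 1 (fun n _ => by positivity)
      simpa [MP069854.Zs] using h4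
    linarith
  have h2 := (Ff_hasProd h).div₀ h1 hne
  have h3 : ∀ p : Nat.Primes, El α β p / ∏ x : Fin 3 × Fin 3, (1 - yv α β p x)⁻¹ = Qf α β p := by
    intro p
    unfold Qf
    rw [Finset.prod_inv_distrib, div_inv_eq_mul]
  simp only [h3] at h2
  rw [h2.tprod_eq, mul_div_cancel₀ _ hne]

lemma Qf_tendsto (α β : Fin 3 → ℝ) (hα : ∀ i, 0 ≤ α i) (hβ : ∀ i, 0 ≤ β i) {p : ℕ} (hp : p.Prime) :
    Tendsto (fun L : ℝ => Qf (fun i => α i / L) (fun i => β i / L) p) atTop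
      (𝓝 (Qf (fun _ => 0) (fun _ => 0) p)) := by
  unfold Qf
  refine Tendsto.mul ?_ ?_
  · unfold El
    refine tendsto_tsum_of_dominated_convergence
      (MP069854.S_summable 3 (x := (p:ℝ)⁻¹) (by positivity) (p_inv_le hp)) ?_ ?_
    · intro k
      unfold Ff
      exact ((sg_tendsto α _).mul (sg_tendsto β _)).div_const _
    · filter_upwards [eventually_gt_atTop 0] with L hL k
      rw [Real.norm_of_nonneg (Ff_nonneg _ _ _)]
      exact Ff_pow_le (fun i => div_nonneg (hα i) hL.le) (fun i => div_nonneg (hβ i) hL.le) hp k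
  · refine tendsto_finsetProd _ fun x _ => ?_
    refine tendsto_const_nhds.sub ?_
    unfold yv
    have hp0 : (0:ℝ) < p := by exact_mod_cast hp.pos
    refine tendsto_const_nhds.rpow ?_ (Or.inl hp0.ne')
    have h1 : Tendsto (fun L : ℝ => α x.1 / L) atTop (𝓝 0) := tendsto_const_nhds.div_atTop tendsto_id
    have h2 : Tendsto (fun L : ℝ => β x.2 / L) atTop (𝓝 0) := tendsto_const_nhds.div_atTop tendsto_id
    simpa using (tendsto_const_nhds.add (h1.add h2)).neg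

lemma summable_pinv_sq : Summable fun p : Nat.Primes => (((p : ℕ) : ℝ)⁻¹) ^ 2 := by
  refine MP069854.logH_summable_bound.congr fun p => ?_
  rw [rpow_neg_one]

lemma arith_three : MP069854.arith 3 = ∏' p : Nat.Primes, Qf (fun _ => 0) (fun _ => 0) p := by
  unfold MP069854.arith
  refine tprod_congr fun p => ?_
  unfold Qf El Ff yv
  have hp0 : (0:ℝ) < (p : ℕ) := by exact_mod_cast p.2.pos
  rw [mul_comm]
  congr 1
  · refine tsum_congr fun m => ?_
    rw [sg_zero_shift _ (pow_ne_zero _ p.2.ne_zero)]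
    push_cast; ring
  · simp only [add_zero, neg_add_rev, neg_zero, zero_add]
    rw [Finset.prod_const, Finset.card_univ, Fintype.card_prod, Fintype.card_fin, rpow_neg_one,
      one_div]
    norm_num

/-- **Limit of the shifted Rankin–Selberg series.** -/
theorem epl {α β : Fin 3 → ℝ} (hα : ∀ i, 0 ≤ α i) (hβ : ∀ i, 0 ≤ β i)
    (h : ∀ i j, 0 < α i + β j) :
    Tendsto (fun L : ℝ => (L ^ 9)⁻¹ * ∑' n, Ff (fun i => α i / L) (fun i => β i / L) n) atTop
      (𝓝 (MP069854.arith 3 * ∏ x : Fin 3 × Fin 3, (α x.1 + β x.2)⁻¹)) := by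
  have h1 : Tendsto (fun L : ℝ => ∏' p : Nat.Primes, Qf (fun i => α i / L) (fun i => β i / L) p) atTop
      (𝓝 (MP069854.arith 3)) := by
    rw [arith_three]
    have h2 := tendsto_tprod_one_add_of_dominated_convergence (𝓕 := atTop)
      (f := fun (L : ℝ) (p : Nat.Primes) => Qf (fun i => α i / L) (fun i => β i / L) p - 1)
      (g := fun p : Nat.Primes => Qf (fun _ => 0) (fun _ => 0) p - 1)
      (bound := fun p : Nat.Primes => CQ * (((p : ℕ) : ℝ)⁻¹) ^ 2)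
      (summable_pinv_sq.mul_left _) (fun p => (Qf_tendsto α β hα hβ p.2).sub_const 1) ?_
    · simpa using h2
    · filter_upwards [eventually_gt_atTop 0] with L hL p
      rw [Real.norm_eq_abs]
      exact Qf_bound (fun i => div_nonneg (hα i) hL.le) (fun i => div_nonneg (hβ i) hL.le) p.2
  have h3 : ∀ c : ℝ, 0 < c → Tendsto (fun L : ℝ => L⁻¹ * MP069854.Zs (1 + c / L)) atTop (𝓝 c⁻¹) := by
    intro c hc
    have h4 : Tendsto (fun L : ℝ => 1 + c / L) atTop (𝓝[>] 1) := by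
      refine tendsto_nhdsWithin_iff.2 ⟨?_, ?_⟩
      · have : Tendsto (fun L : ℝ => c / L) atTop (𝓝 0) := tendsto_const_nhds.div_atTop tendsto_id
        simpa using this.const_add 1
      · filter_upwards [eventually_gt_atTop 0] with L hL
        have : 0 < c / L := by positivity
        show (1:ℝ) < 1 + c / L
        linarith
    have h5 := (tendsto_sub_mul_tsum_nat_rpow.comp h4).const_mul c⁻¹
    rw [mul_one] at h5
    refine h5.congr' ?_
    filter_upwards [eventually_gt_atTop 0] with L hL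
    simp only [Function.comp]
    unfold MP069854.Zs
    rw [add_sub_cancel_left]
    field_simp
  have h6 : Tendsto (fun L : ℝ => ∏ x : Fin 3 × Fin 3, (L⁻¹ * MP069854.Zs (1 + (α x.1 + β x.2) / L)))
      atTop (𝓝 (∏ x : Fin 3 × Fin 3, (α x.1 + β x.2)⁻¹)) :=
    tendsto_finsetProd _ fun x _ => h3 _ (h x.1 x.2)
  refine (h1.mul h6).congr' ?_
  filter_upwards [eventually_gt_atTop 0] with L hL
  rw [Qf_factor (fun i => div_nonneg (hα i) hL.le) (fun i => div_nonneg (hβ i) hL.le)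
    (fun i j => by rw [← add_div]; exact div_pos (h i j) hL), Finset.prod_mul_distrib,
    Finset.prod_const, Finset.card_univ, Fintype.card_prod, Fintype.card_fin, inv_pow]
  simp only [add_div]
  ring

end MP39df77

end

section

set_option autoImplicit false

namespace S6
open MeasureTheory Filter Topology
open MP39df77 (pw Ff)

/-- summation over a product -/
lemma tsum_mul_prod {f g : ArithmeticFunction ℝ} (hf : ∀ n, 0 ≤ f n) (hg : ∀ n, 0 ≤ g n)
    (ψ : ℕ → ENNReal) :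
    ∑' a : ℕ, ∑' b : ℕ, ENNReal.ofReal (f a) * ENNReal.ofReal (g b) * ψ (a * b) =
      ∑' n, ENNReal.ofReal ((f * g) n) * ψ n := by
  have h1 : ∀ a b : ℕ, ENNReal.ofReal (f a) * ENNReal.ofReal (g b) * ψ (a * b) =
      ∑' n : ℕ, if a * b = n then ENNReal.ofReal (f a) * ENNReal.ofReal (g b) * ψ n else 0 := by
    intro a b
    rw [tsum_eq_single (a * b)]
    · rw [if_pos rfl]
    · intro n hn; rw [if_neg (Ne.symm hn)]
  simp only [h1]
  have h2 : ∀ a : ℕ, (∑' b : ℕ, ∑' n : ℕ, if a * b = n then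
      ENNReal.ofReal (f a) * ENNReal.ofReal (g b) * ψ n else 0) =
      ∑' n : ℕ, ∑' b : ℕ, if a * b = n then
      ENNReal.ofReal (f a) * ENNReal.ofReal (g b) * ψ n else 0 := fun a => ENNReal.tsum_comm
  simp only [h2]
  rw [ENNReal.tsum_comm]
  refine tsum_congr fun n => ?_
  have h3 : (∑' a : ℕ, ∑' b : ℕ, if a * b = n then
      ENNReal.ofReal (f a) * ENNReal.ofReal (g b) * ψ n else 0) =
      (∑' x : ℕ × ℕ, if x.1 * x.2 = n then
      ENNReal.ofReal (f x.1 * g x.2) else 0) * ψ n := by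
    rw [← ENNReal.tsum_mul_right, ENNReal.tsum_prod']
    refine tsum_congr fun a => tsum_congr fun b => ?_
    simp only
    split_ifs with h
    · rw [ENNReal.ofReal_mul (hf a)]
    · simp
  rw [h3]
  congr 1
  rcases Nat.eq_zero_or_pos n with hn | hn
  · rw [hn, ArithmeticFunction.map_zero, ENNReal.ofReal_zero]
    refine ENNReal.tsum_eq_zero.2 fun x => ?_
    split_ifs with h
    · rcases Nat.mul_eq_zero.1 h with h | h <;> simp [h]
    · rfl
  · rw [tsum_eq_sum (s := n.divisorsAntidiagonal), ArithmeticFunction.mul_apply,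
      ENNReal.ofReal_sum_of_nonneg fun x _ => mul_nonneg (hf _) (hg _)]
    · refine Finset.sum_congr rfl fun x hx => ?_
      rw [if_pos (Nat.mem_divisorsAntidiagonal.1 hx).1]
    · intro x hx
      rw [if_neg]
      intro h
      exact hx (Nat.mem_divisorsAntidiagonal.2 ⟨h, hn.ne'⟩)

lemma tsum_mul_prod3 {f g h : ArithmeticFunction ℝ} (hf : ∀ n, 0 ≤ f n) (hg : ∀ n, 0 ≤ g n)
    (hh : ∀ n, 0 ≤ h n) (ψ : ℕ → ENNReal) :
    ∑' x : ℕ × ℕ × ℕ, ENNReal.ofReal (f x.1) * ENNReal.ofReal (g x.2.1) *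
      ENNReal.ofReal (h x.2.2) * ψ (x.1 * x.2.1 * x.2.2) =
      ∑' n, ENNReal.ofReal ((f * g * h) n) * ψ n := by
  rw [ENNReal.tsum_prod']
  simp only [ENNReal.tsum_prod']
  have h1 : ∀ a b : ℕ, (∑' c : ℕ, ENNReal.ofReal (f a) * ENNReal.ofReal (g b) *
      ENNReal.ofReal (h c) * ψ (a * b * c)) = ENNReal.ofReal (f a) * ENNReal.ofReal (g b) *
      (fun m => ∑' c : ℕ, ENNReal.ofReal (h c) * ψ (m * c)) (a * b) := by
    intro a b
    simp only
    rw [← ENNReal.tsum_mul_left]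
    exact tsum_congr fun c => by ring
  simp only [h1]
  rw [tsum_mul_prod hf hg (fun m => ∑' c : ℕ, ENNReal.ofReal (h c) * ψ (m * c))]
  rw [← tsum_mul_prod (MP39df77.mul_nonneg' hf hg) hh ψ]
  refine tsum_congr fun m => ?_
  rw [← ENNReal.tsum_mul_left]
  exact tsum_congr fun c => by ring

/-- exponents as functions on `Fin 3` -/
noncomputable def vv (s : ℝ × ℝ × ℝ) : Fin 3 → ℝ := ![s.1, s.2.1, s.2.2]

lemma tuple_hasSum {a b : ℝ × ℝ × ℝ} (h : ∀ i j, 0 < vv a i + vv b j) :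
    HasSum (fun x : N6 => wt6 x * (pw a.1 x.1.1 * pw a.2.1 x.1.2.1 * pw a.2.2 x.1.2.2 *
      (pw b.1 x.2.1 * pw b.2.1 x.2.2.1 * pw b.2.2 x.2.2.2))) (∑' n, Ff (vv a) (vv b) n) := by
  set term : N6 → ℝ := fun x : N6 => wt6 x * (pw a.1 x.1.1 * pw a.2.1 x.1.2.1 * pw a.2.2 x.1.2.2 *
      (pw b.1 x.2.1 * pw b.2.1 x.2.2.1 * pw b.2.2 x.2.2.2)) with hterm
  have hp : ∀ c : ℝ, ∀ n, 0 ≤ pw c n := fun c n => MP39df77.pw_nonneg c n
  have hwt : ∀ x, 0 ≤ wt6 x := by
    intro x; unfold wt6; split_ifs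
    · positivity
    · exact le_rfl
  have hterm0 : ∀ x, 0 ≤ term x := by
    intro x
    refine mul_nonneg (hwt x) (mul_nonneg (mul_nonneg (mul_nonneg ?_ ?_) ?_)
      (mul_nonneg (mul_nonneg ?_ ?_) ?_)) <;> exact hp _ _
  have key : ∑' x : N6, ENNReal.ofReal (term x) = ENNReal.ofReal (∑' n, Ff (vv a) (vv b) n) := by
    rw [ENNReal.ofReal_tsum_of_nonneg (MP39df77.Ff_nonneg _ _) (MP39df77.Ff_summable h)]
    rw [ENNReal.tsum_prod']
    -- inner sum
    have hin : ∀ x : ℕ × ℕ × ℕ, ∑' y : ℕ × ℕ × ℕ, ENNReal.ofReal (term (x, y)) =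
        ENNReal.ofReal (pw a.1 x.1) * ENNReal.ofReal (pw a.2.1 x.2.1) *
          ENNReal.ofReal (pw a.2.2 x.2.2) *
          (fun n : ℕ => ENNReal.ofReal (MP39df77.sg (vv b) n) * ENNReal.ofReal ((n : ℝ)⁻¹))
            (x.1 * x.2.1 * x.2.2) := by
      intro x
      set n := x.1 * x.2.1 * x.2.2 with hn
      have h1 := tsum_mul_prod3 (hp b.1) (hp b.2.1) (hp b.2.2)
        (fun m => if m = n then ENNReal.ofReal ((n : ℝ)⁻¹) else 0)
      have h2 : (∑' m, ENNReal.ofReal ((pw b.1 * pw b.2.1 * pw b.2.2) m) *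
          (if m = n then ENNReal.ofReal ((n : ℝ)⁻¹) else 0)) =
          ENNReal.ofReal (MP39df77.sg (vv b) n) * ENNReal.ofReal ((n : ℝ)⁻¹) := by
        rw [tsum_eq_single n]
        · rw [if_pos rfl]; rfl
        · intro m hm; rw [if_neg hm, mul_zero]
      rw [h2] at h1
      show _ = _ * (ENNReal.ofReal (MP39df77.sg (vv b) n) * ENNReal.ofReal ((n : ℝ)⁻¹))
      rw [← h1, ← ENNReal.tsum_mul_left]
      refine tsum_congr fun y => ?_
      have hterm' : term (x, y) = (if 0 < x.1 * x.2.1 * x.2.2 ∧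
          x.1 * x.2.1 * x.2.2 = y.1 * y.2.1 * y.2.2 then ((x.1 * x.2.1 * x.2.2 : ℕ) : ℝ)⁻¹ else 0) *
          (pw a.1 x.1 * pw a.2.1 x.2.1 * pw a.2.2 x.2.2 *
          (pw b.1 y.1 * pw b.2.1 y.2.1 * pw b.2.2 y.2.2)) := rfl
      rw [hterm', ← hn]
      by_cases hc : y.1 * y.2.1 * y.2.2 = n
      · rw [if_pos hc]
        by_cases hn0 : 0 < n
        · rw [if_pos ⟨hn0, hc.symm⟩, ENNReal.ofReal_mul (by positivity),
            ENNReal.ofReal_mul (mul_nonneg (mul_nonneg (hp _ _) (hp _ _)) (hp _ _)),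
            ENNReal.ofReal_mul (mul_nonneg (hp _ _) (hp _ _)), ENNReal.ofReal_mul (hp _ _),
            ENNReal.ofReal_mul (mul_nonneg (hp _ _) (hp _ _)), ENNReal.ofReal_mul (hp _ _)]
          ring
        · have h0 : n = 0 := by omega
          rw [if_neg (by rintro ⟨h, -⟩; exact hn0 h), zero_mul, ENNReal.ofReal_zero]
          rw [h0]; simp
      · rw [if_neg hc, if_neg (by rintro ⟨-, h⟩; exact hc h.symm), zero_mul, ENNReal.ofReal_zero,
          mul_zero, mul_zero]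
    simp only [hin]
    rw [tsum_mul_prod3 (hp a.1) (hp a.2.1) (hp a.2.2)
      (fun n => ENNReal.ofReal (MP39df77.sg (vv b) n) * ENNReal.ofReal ((n : ℝ)⁻¹))]
    refine tsum_congr fun n => ?_
    unfold Ff
    rw [div_eq_mul_inv, ENNReal.ofReal_mul (mul_nonneg (MP39df77.sg_nonneg _ _)
      (MP39df77.sg_nonneg _ _)), ENNReal.ofReal_mul (MP39df77.sg_nonneg _ _), ← mul_assoc]
    rfl
  have hne : ∑' x : N6, ENNReal.ofReal (term x) ≠ ⊤ := by rw [key]; exact ENNReal.ofReal_ne_top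
  have hs := ENNReal.hasSum_toReal hne
  have h3 : ∀ x, (ENNReal.ofReal (term x)).toReal = term x := fun x =>
    ENNReal.toReal_ofReal (hterm0 x)
  simp only [h3] at hs
  have h4 : ∑' x : N6, term x = ∑' n, Ff (vv a) (vv b) n := by
    have h5 := ENNReal.tsum_toReal_eq (f := fun x : N6 => ENNReal.ofReal (term x))
      (fun x => ENNReal.ofReal_ne_top)
    rw [key, ENNReal.toReal_ofReal (tsum_nonneg (MP39df77.Ff_nonneg _ _))] at h5
    rw [h5]
    exact tsum_congr fun x => (h3 x).symm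
  rwa [h4] at hs

lemma exp_eq_pw {c : ℝ} {L : ℝ} {n : ℕ} (hn : n ≠ 0) :
    Real.exp (-(c * (Real.log n / L))) = pw (c / L) n := by
  have hn0 : (0:ℝ) < n := by exact_mod_cast Nat.pos_of_ne_zero hn
  rw [MP39df77.pw_apply _ hn, Real.rpow_def_of_pos hn0]
  congr 1; ring

/-- **K1.** -/
theorem kara_exp (s : E6) (hs : Pos6 s) :
    (∀ L : ℝ, 0 < L → Summable fun x : N6 => wt6 x * Real.exp (-dot6 s (lg6 L x))) ∧
    Tendsto (fun L : ℝ => (L ^ 9)⁻¹ * ∑' x : N6, wt6 x * Real.exp (-dot6 s (lg6 L x))) atTop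
      (𝓝 (MP069854.arith 3 * (cauchyProd s)⁻¹)) := by
  obtain ⟨s1, s2, s3, s4, s5, s6⟩ := hs
  have hterm : ∀ L : ℝ, 0 < L → ∀ x : N6, wt6 x * Real.exp (-dot6 s (lg6 L x)) =
      wt6 x * (pw (s.1.1 / L) x.1.1 * pw (s.1.2.1 / L) x.1.2.1 * pw (s.1.2.2 / L) x.1.2.2 *
      (pw (s.2.1 / L) x.2.1 * pw (s.2.2.1 / L) x.2.2.1 * pw (s.2.2.2 / L) x.2.2.2)) := by
    intro L hL x
    by_cases hx : 0 < x.1.1 * x.1.2.1 * x.1.2.2 ∧
        x.1.1 * x.1.2.1 * x.1.2.2 = x.2.1 * x.2.2.1 * x.2.2.2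
    · obtain ⟨h1, h2⟩ := hx
      have h3 : 0 < x.2.1 * x.2.2.1 * x.2.2.2 := h2 ▸ h1
      have e1 : x.1.1 ≠ 0 := by rintro h; rw [h] at h1; simp at h1
      have e2 : x.1.2.1 ≠ 0 := by rintro h; rw [h] at h1; simp at h1
      have e3 : x.1.2.2 ≠ 0 := by rintro h; rw [h] at h1; simp at h1
      have e4 : x.2.1 ≠ 0 := by rintro h; rw [h] at h3; simp at h3
      have e5 : x.2.2.1 ≠ 0 := by rintro h; rw [h] at h3; simp at h3
      have e6 : x.2.2.2 ≠ 0 := by rintro h; rw [h] at h3; simp at h3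
      congr 1
      rw [← exp_eq_pw (L := L) e1, ← exp_eq_pw (L := L) e2, ← exp_eq_pw (L := L) e3,
        ← exp_eq_pw (L := L) e4, ← exp_eq_pw (L := L) e5, ← exp_eq_pw (L := L) e6,
        ← Real.exp_add, ← Real.exp_add, ← Real.exp_add, ← Real.exp_add, ← Real.exp_add]
      congr 1
      unfold dot6 lg6
      ring
    · unfold wt6
      rw [if_neg hx, zero_mul, zero_mul]
  have hpos : ∀ L : ℝ, 0 < L → ∀ i j, 0 < vv (s.1.1 / L, s.1.2.1 / L, s.1.2.2 / L) i +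
      vv (s.2.1 / L, s.2.2.1 / L, s.2.2.2 / L) j := by
    intro L hL i j
    have h1 : 0 < vv (s.1.1 / L, s.1.2.1 / L, s.1.2.2 / L) i := by
      fin_cases i <;> simp [vv] <;> positivity
    have h2 : 0 < vv (s.2.1 / L, s.2.2.1 / L, s.2.2.2 / L) j := by
      fin_cases j <;> simp [vv] <;> positivity
    linarith
  have hsum : ∀ L : ℝ, 0 < L → HasSum (fun x : N6 => wt6 x * Real.exp (-dot6 s (lg6 L x)))
      (∑' n, Ff (vv (s.1.1 / L, s.1.2.1 / L, s.1.2.2 / L))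
        (vv (s.2.1 / L, s.2.2.1 / L, s.2.2.2 / L)) n) := by
    intro L hL
    have := tuple_hasSum (hpos L hL)
    refine this.congr_fun fun x => ?_
    exact hterm L hL x
  refine ⟨fun L hL => (hsum L hL).summable, ?_⟩
  have h1 := MP39df77.epl (α := vv s.1) (β := vv s.2)
    (by intro i; fin_cases i <;> simp [vv] <;> positivity)
    (by intro i; fin_cases i <;> simp [vv] <;> positivity)
    (by
      intro i j
      have h1 : 0 < vv s.1 i := by fin_cases i <;> simp [vv] <;> positivity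
      have h2 : 0 < vv s.2 j := by fin_cases j <;> simp [vv] <;> positivity
      linarith)
  have h2 : ∏ x : Fin 3 × Fin 3, (vv s.1 x.1 + vv s.2 x.2)⁻¹ = (cauchyProd s)⁻¹ := by
    rw [Fintype.prod_prod_type, Fin.prod_univ_three]
    simp only [Fin.prod_univ_three]
    unfold cauchyProd vv
    simp only [Matrix.cons_val_zero, Matrix.cons_val_one, Matrix.cons_val]
    rw [mul_inv, mul_inv, mul_inv, mul_inv, mul_inv, mul_inv, mul_inv, mul_inv]
  rw [h2] at h1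
  refine h1.congr' ?_
  filter_upwards [eventually_gt_atTop 0] with L hL
  rw [(hsum L hL).tsum_eq]
  have e1 : (fun i => vv s.1 i / L) = vv (s.1.1 / L, s.1.2.1 / L, s.1.2.2 / L) := by
    funext i; fin_cases i <;> simp [vv]
  have e2 : (fun i => vv s.2 i / L) = vv (s.2.1 / L, s.2.2.1 / L, s.2.2.2 / L) := by
    funext i; fin_cases i <;> simp [vv]
  rw [e1, e2]

end S6

end

section

namespace SG
open Complex MeasureTheory Filter Topology Set
open scoped Real ComplexConjugate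

private theorem J0_aux {H : ℝ × ℝ × ℝ → ℝ} (hH : ContDiff ℝ (⊤ : ℕ∞) H) (hc : HasCompactSupport H) (n : ℕ) :
    ∃ K : ℝ × ℝ × ℝ → ℝ, ContDiff ℝ (⊤ : ℕ∞) K ∧ HasCompactSupport K ∧
      ∀ b c : ℝ, iteratedDeriv n (fun x => H (x, b, c)) = fun x => K (x, b, c) := by
  induction n with
  | zero =>
    refine ⟨H, hH, hc, fun b c => ?_⟩
    rw [iteratedDeriv_zero]
  | succ n ih =>
    obtain ⟨K, hK, hKc, hKe⟩ := ih
    refine ⟨fun p => fderiv ℝ K p (1, 0, 0), ?_, hKc.fderiv_apply ℝ _, fun b c => ?_⟩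
    · exact (hK.fderiv_right (m := (⊤ : ℕ∞)) (by norm_cast)).clm_apply contDiff_const
    · rw [iteratedDeriv_succ, hKe b c]
      funext x
      have h1 : HasFDerivAt K (fderiv ℝ K (x, b, c)) (x, b, c) :=
        ((hK.differentiable (by simp)) _).hasFDerivAt
      have h2 : HasDerivAt (fun x : ℝ => (x, b, c)) ((1 : ℝ), (0 : ℝ), (0 : ℝ)) x :=
        (hasDerivAt_id x).prodMk ((hasDerivAt_const x b).prodMk (hasDerivAt_const x c))
      exact (h1.comp_hasDerivAt x h2).deriv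

/-- **J0. Slices.** iterated derivatives of the slices of a smooth compactly supported function are
bounded uniformly: `iteratedDeriv n (fun x => H (x, b, c)) x` is a continuous function of `(x,b,c)` with compact support
(the iterated directional derivative of `H` in the direction `(1,0,0)`; induction on `n` with
`H₁ p = fderiv ℝ H p (1,0,0)`, which is again smooth with compact support). -/
theorem slice_bound {H : ℝ × ℝ × ℝ → ℝ} (hH : ContDiff ℝ (⊤ : ℕ∞) H) (hc : HasCompactSupport H) :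
    ∃ M : ℕ → ℝ, ∀ b c : ℝ, ContDiff ℝ (⊤ : ℕ∞) (fun x => H (x, b, c)) ∧
      ∀ n x, |iteratedDeriv n (fun x => H (x, b, c)) x| ≤ M n := by
  have h := fun n => J0_aux hH hc n
  choose K hK hKc hKe using h
  have hb := fun n => (hKc n).exists_bound_of_continuous (hK n).continuous
  choose M hM using hb
  refine ⟨M, fun b c => ⟨?_, fun n x => ?_⟩⟩
  · exact hH.comp (contDiff_id.prodMk (contDiff_const.prodMk contDiff_const))
  · rw [hKe n b c, ← Real.norm_eq_abs]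
    exact hM n _

end SG

end
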