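import Pool.Agent.Lib.MP_39df77_nt.Part04
import Pool.Agent.Lib.MP_39df77_nt.Part14
import Pool.Agent.Lib.MP_39df77_nt.Part11

set_option autoImplicit false

namespace S6
open Complex MeasureTheory Filter Topology Set
open scoped Real ComplexConjugate

/-- uniform gap on the support -/
lemma supp_gap {κ : ℝ} (hκ : 1 ≤ κ) {G : ℝ × ℝ × ℝ → ℝ} (hG : TF κ G) :
    ∃ ε : ℝ, 0 < ε ∧ ∀ p, G p ≠ 0 → p.1 + p.2.1 + p.2.2 ≤ 1 - ε := by
  rcases (tsupport G).eq_empty_or_nonempty with h | h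
  · refine ⟨1, one_pos, fun p hp => ?_⟩
    have := subset_tsupport G hp
    rw [h] at this
    exact absurd this (Set.notMem_empty _)
  · have hK : IsCompact (tsupport G) := hG.hcs
    have hc : Continuous fun p : ℝ × ℝ × ℝ => κ * (p.1 + p.2.1) + p.2.2 := by fun_prop
    obtain ⟨p0, hp0, hmax⟩ := hK.exists_isMaxOn h hc.continuousOn
    have h1 := (hG.supp hp0).2.2.2.1
    refine ⟨1 - (κ * (p0.1 + p0.2.1) + p0.2.2), by linarith, fun p hp => ?_⟩
    have hp' := subset_tsupport G hp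
    have h2 : κ * (p.1 + p.2.1) + p.2.2 ≤ κ * (p0.1 + p0.2.1) + p0.2.2 := hmax hp'
    obtain ⟨q1, q2, q3, -, -⟩ := hG.supp hp'
    have h3 : p.1 + p.2.1 ≤ κ * (p.1 + p.2.1) := by nlinarith
    linarith

lemma log_gap {a b : ℕ} (ha : 1 ≤ a) (hb : 1 ≤ b) (hab : a ≠ b) :
    1 / (2 * √((a : ℝ) * b)) ≤ |Real.log a - Real.log b| := by
  wlog h : b < a generalizing a b
  · have h1 := this hb ha hab.symm (by omega)
    rwa [mul_comm (b : ℝ), abs_sub_comm] at h1
  have ha0 : (0:ℝ) < a := by exact_mod_cast ha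
  have hb0 : (0:ℝ) < b := by exact_mod_cast hb
  have hlt : (b:ℝ) + 1 ≤ a := by exact_mod_cast h
  have hb1 : (1:ℝ) ≤ b := by exact_mod_cast hb
  have hlog : 0 < Real.log a - Real.log b := by
    have := Real.log_lt_log hb0 (show (b:ℝ) < a by linarith)
    linarith
  rw [abs_of_pos hlog]
  have hs : 0 < √((a : ℝ) * b) := Real.sqrt_pos.2 (by positivity)
  have hs1 : 1 ≤ √((a : ℝ) * b) := by
    rw [show (1:ℝ) = √1 by simp]
    exact Real.sqrt_le_sqrt (by nlinarith)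
  by_cases h2 : (a : ℝ) ≤ 2 * b
  · have h3 : 1 - b / a ≤ Real.log a - Real.log b := by
      have := Real.one_sub_inv_le_log_of_pos (show (0:ℝ) < a / b by positivity)
      rw [Real.log_div ha0.ne' hb0.ne', inv_div] at this
      exact this
    refine le_trans ?_ h3
    have h4 : (a : ℝ) ≤ 2 * √((a : ℝ) * b) := by
      have h5 : (a : ℝ) ^ 2 ≤ (2 * √((a : ℝ) * b)) ^ 2 := by
        rw [mul_pow, Real.sq_sqrt (by positivity)]
        nlinarith
      exact (pow_le_pow_iff_left₀ ha0.le (by positivity) two_ne_zero).1 h5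
    have h6 : 1 - (b:ℝ) / a = (a - b) / a := by field_simp
    rw [h6, div_le_div_iff₀ (by positivity) ha0]
    nlinarith
  · push Not at h2
    have h3 : Real.log 2 ≤ Real.log a - Real.log b := by
      rw [← Real.log_div ha0.ne' hb0.ne']
      refine Real.log_le_log (by norm_num) ?_
      rw [le_div_iff₀ hb0]; exact h2.le
    refine le_trans ?_ h3
    have h4 : (1:ℝ)/2 ≤ Real.log 2 := by linarith [Real.log_two_gt_d9]
    refine le_trans ?_ h4
    rw [div_le_div_iff₀ (by positivity) (by norm_num)]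
    linarith

lemma mem_tri {T : ℝ} {x : ℕ × ℕ × ℕ} : x ∈ tri T ↔
    (1 ≤ x.1 ∧ x.1 ≤ ⌊T⌋₊) ∧ (1 ≤ x.2.1 ∧ x.2.1 ≤ ⌊T⌋₊) ∧ (1 ≤ x.2.2 ∧ x.2.2 ≤ ⌊T⌋₊) := by
  simp only [tri, Finset.mem_product, Finset.mem_Icc]

lemma card_tri {T : ℝ} (hT : 0 ≤ T) : ((tri T).card : ℝ) ≤ T ^ 3 := by
  have h1 : (tri T).card = ⌊T⌋₊ * (⌊T⌋₊ * ⌊T⌋₊) := by
    simp [tri, Finset.card_product]
  rw [h1]
  push_cast
  have := Nat.floor_le hT
  have h0 : (0:ℝ) ≤ ⌊T⌋₊ := Nat.cast_nonneg _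
  calc (⌊T⌋₊:ℝ) * (⌊T⌋₊ * ⌊T⌋₊) ≤ T * (T * T) := by gcongr
    _ = T ^ 3 := by ring

/-- frequency -/
noncomputable def fr (x : ℕ × ℕ × ℕ) : ℝ := Real.log x.2.2 - Real.log x.1 - Real.log x.2.1

/-- coefficient -/
noncomputable def bc (G : ℝ × ℝ × ℝ → ℝ) (T : ℝ) (x : ℕ × ℕ × ℕ) : ℝ :=
  cf G T x * (√((x.1 : ℝ) * x.2.1 * x.2.2))⁻¹

lemma BB_eq (G : ℝ × ℝ × ℝ → ℝ) (T t : ℝ) :
    BB G T t = ∑ x ∈ tri T, (bc G T x : ℂ) * cexp (((t * fr x : ℝ) : ℂ) * I) := rfl

lemma BB_cont (G : ℝ × ℝ × ℝ → ℝ) (T : ℝ) : Continuous (BB G T) := by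
  unfold BB
  fun_prop

lemma norm_BB_sq (G : ℝ × ℝ × ℝ → ℝ) (T t : ℝ) :
    ((‖BB G T t‖ ^ 2 : ℝ) : ℂ) = ∑ x ∈ tri T, ∑ y ∈ tri T, ((bc G T x * bc G T y : ℝ) : ℂ) *
      cexp (((t * (fr x - fr y) : ℝ) : ℂ) * I) := by
  rw [ofReal_pow, ← Complex.mul_conj', BB_eq, map_sum, Finset.sum_mul_sum]
  refine Finset.sum_congr rfl fun x _ => Finset.sum_congr rfl fun y _ => ?_
  rw [map_mul, conj_ofReal, ← Complex.exp_conj, map_mul, conj_ofReal, conj_I]
  have : cexp (((t * (fr x - fr y) : ℝ) : ℂ) * I) =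
      cexp (((t * fr x : ℝ) : ℂ) * I) * cexp (((t * fr y : ℝ) : ℂ) * -I) := by
    rw [← Complex.exp_add]; congr 1; push_cast; ring
  rw [this]
  push_cast
  ring

lemma win_integrable {T : ℝ} (hT : 1 < T) (τ : ℝ) : Integrable (win T τ) := by
  unfold win
  have hH := HH_pos hT
  have h1 : Integrable fun t : ℝ => Real.exp (-(HH T ^ 2)⁻¹ * t ^ 2) :=
    integrable_exp_neg_mul_sq (by positivity)
  have h2 := h1.comp_sub_right τ
  refine h2.congr (Eventually.of_forall fun t => ?_)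
  simp only
  congr 1
  rw [div_pow]; ring

lemma I1_expand (G : ℝ × ℝ × ℝ → ℝ) {T : ℝ} (hT : 1 < T) (τ : ℝ) :
    I1 G T τ / (HH T * √π) = ∑ x ∈ tri T, ∑ y ∈ tri T, bc G T x * bc G T y *
      (Real.exp (-(HH T * (fr x - fr y) / 2) ^ 2) * Real.cos (τ * (fr x - fr y))) := by
  have hH := HH_pos hT
  have hne : HH T * √π ≠ 0 := (mul_pos hH (Real.sqrt_pos.2 Real.pi_pos)).ne'
  have hwc : Continuous (win T τ) := by unfold win; fun_prop
  have h1 : ((I1 G T τ : ℝ) : ℂ) = ∑ x ∈ tri T, ∑ y ∈ tri T, ((bc G T x * bc G T y : ℝ) : ℂ) *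
      ((HH T * √π * Real.exp (-(HH T * (fr x - fr y) / 2) ^ 2) : ℝ) *
        cexp (((τ * (fr x - fr y) : ℝ) : ℂ) * I)) := by
    unfold I1
    rw [← integral_complex_ofReal]
    have h2 : ∀ t : ℝ, ((‖BB G T t‖ ^ 2 * win T τ t : ℝ) : ℂ) =
        ∑ x ∈ tri T, ∑ y ∈ tri T, ((bc G T x * bc G T y : ℝ) : ℂ) *
          (cexp (((t * (fr x - fr y) : ℝ) : ℂ) * I) * (win T τ t : ℂ)) := by
      intro t
      rw [ofReal_mul, norm_BB_sq, Finset.sum_mul]
      refine Finset.sum_congr rfl fun x _ => ?_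
      rw [Finset.sum_mul]
      refine Finset.sum_congr rfl fun y _ => ?_
      ring
    simp only [h2]
    have hint : ∀ x y : ℕ × ℕ × ℕ, Integrable fun t : ℝ => ((bc G T x * bc G T y : ℝ) : ℂ) *
          (cexp (((t * (fr x - fr y) : ℝ) : ℂ) * I) * (win T τ t : ℂ)) := by
      intro x y
      refine Integrable.const_mul ?_ _
      refine (win_integrable hT τ).mono' (by
        refine Continuous.aestronglyMeasurable ?_
        fun_prop) (Eventually.of_forall fun t => ?_)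
      rw [norm_mul, Complex.norm_exp_ofReal_mul_I, one_mul, Complex.norm_real]
      exact (Real.norm_of_nonneg (Real.exp_pos _).le).le
    rw [integral_finsetSum _ fun x _ => integrable_finsetSum _ fun y _ => hint x y]
    refine Finset.sum_congr rfl fun x _ => ?_
    rw [integral_finsetSum _ fun y _ => hint x y]
    refine Finset.sum_congr rfl fun y _ => ?_
    rw [integral_const_mul, win_fourier hT]
  have h3 : I1 G T τ = ∑ x ∈ tri T, ∑ y ∈ tri T, bc G T x * bc G T y *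
      (HH T * √π * (Real.exp (-(HH T * (fr x - fr y) / 2) ^ 2) * Real.cos (τ * (fr x - fr y)))) := by
    have h4 := congrArg Complex.re h1
    rw [ofReal_re, Complex.re_sum] at h4
    rw [h4]
    refine Finset.sum_congr rfl fun x _ => ?_
    rw [Complex.re_sum]
    refine Finset.sum_congr rfl fun y _ => ?_
    rw [Complex.re_ofReal_mul, Complex.re_ofReal_mul, Complex.exp_ofReal_mul_I_re]
    ring
  rw [h3, Finset.sum_div]
  refine Finset.sum_congr rfl fun x _ => ?_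
  rw [Finset.sum_div]
  refine Finset.sum_congr rfl fun y _ => ?_
  field_simp

/-- diagonal sum -/
noncomputable def Dg (G : ℝ × ℝ × ℝ → ℝ) (T : ℝ) : ℝ :=
  ∑ x ∈ tri T, ∑ y ∈ tri T, if x.2.2 * (y.1 * y.2.1) = y.2.2 * (x.1 * x.2.1) then
    bc G T x * bc G T y else 0

/-- the test function on `E6` -/
def fA (G : ℝ × ℝ × ℝ → ℝ) (p : E6) : ℝ := G (p.2.2.1, p.2.2.2, p.1.1) * G (p.1.2.1, p.1.2.2, p.2.1)

lemma fA_cont {G : ℝ × ℝ × ℝ → ℝ} (hG : Continuous G) : Continuous (fA G) := by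
  unfold fA
  exact (hG.comp (by fun_prop)).mul (hG.comp (by fun_prop))

lemma fA_hcs {G : ℝ × ℝ × ℝ → ℝ} (hG : HasCompactSupport G) : HasCompactSupport (fA G) := by
  obtain ⟨R, hR⟩ : ∃ R : ℝ, ∀ p : ℝ × ℝ × ℝ, G p ≠ 0 → ‖p‖ ≤ R := by
    obtain ⟨R, hR⟩ := hG.isCompact.isBounded.exists_norm_le
    exact ⟨R, fun p hp => hR p (subset_tsupport G hp)⟩
  refine HasCompactSupport.of_support_subset_isCompact (isCompact_closedBall (0 : E6) R) ?_
  intro p hp
  have hp' : fA G p ≠ 0 := hp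
  unfold fA at hp'
  have h1 := hR _ (left_ne_zero_of_mul hp')
  have h2 := hR _ (right_ne_zero_of_mul hp')
  rw [mem_closedBall_zero_iff]
  simp only [Prod.norm_def, max_le_iff] at h1 h2 ⊢
  exact ⟨⟨h1.2.2, h2.1, h2.2.1⟩, h2.2.2, h1.1, h1.2.1⟩

/-- the bijection between pairs of triples and `N6` -/
def eqv : (ℕ × ℕ × ℕ) × (ℕ × ℕ × ℕ) ≃ N6 where
  toFun q := ((q.1.2.2, q.2.1, q.2.2.1), (q.2.2.2, q.1.1, q.1.2.1))
  invFun p := ((p.2.2.1, p.2.2.2, p.1.1), (p.1.2.1, p.1.2.2, p.2.1))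
  left_inv q := rfl
  right_inv p := rfl

lemma floor_mem {T : ℝ} (hT : 1 < T) {m : ℕ} (hm : 1 ≤ m) (h : Real.log m / Real.log T < 1) :
    m ≤ ⌊T⌋₊ := by
  have hL := Real.log_pos hT
  rw [div_lt_one hL] at h
  have hm0 : (0:ℝ) < m := by exact_mod_cast hm
  have := (Real.log_lt_log_iff hm0 (by linarith)).1 h
  exact Nat.le_floor this.le

lemma Dg_eq {κ : ℝ} (hκ : 1 ≤ κ) {G : ℝ × ℝ × ℝ → ℝ} (hG : TF κ G) {T : ℝ} (hT : 1 < T) :
    Dg G T = ∑' x : N6, wt6 x * fA G (lg6 (Real.log T) x) := by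
  have hreg : ∀ p, G p ≠ 0 → p.1 < 1 ∧ p.2.1 < 1 ∧ p.2.2 < 1 := by
    intro p hp
    obtain ⟨q1, q2, q3, q4, -⟩ := hG.supp (subset_tsupport G hp)
    have h3 : p.1 + p.2.1 ≤ κ * (p.1 + p.2.1) := by nlinarith
    refine ⟨by linarith, by linarith, by nlinarith⟩
  rw [← eqv.tsum_eq]
  rw [tsum_eq_sum (s := tri T ×ˢ tri T), Finset.sum_product]
  · refine Finset.sum_congr rfl fun x hx => Finset.sum_congr rfl fun y hy => ?_
    obtain ⟨⟨a1, -⟩, ⟨a2, -⟩, ⟨a3, -⟩⟩ := mem_tri.1 hx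
    obtain ⟨⟨b1, -⟩, ⟨b2, -⟩, ⟨b3, -⟩⟩ := mem_tri.1 hy
    have hfa : fA G (lg6 (Real.log T) (eqv (x, y))) = cf G T x * cf G T y := rfl
    rw [hfa]
    unfold wt6 eqv bc
    simp only [Equiv.coe_fn_mk]
    have hiff : (0 < x.2.2 * y.1 * y.2.1 ∧ x.2.2 * y.1 * y.2.1 = y.2.2 * x.1 * x.2.1) ↔
        x.2.2 * (y.1 * y.2.1) = y.2.2 * (x.1 * x.2.1) := by
      constructor
      · rintro ⟨-, h⟩; rw [← mul_assoc, ← mul_assoc]; exact h
      · intro h
        refine ⟨by positivity, ?_⟩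
        rw [mul_assoc, mul_assoc]; exact h
    by_cases h : x.2.2 * (y.1 * y.2.1) = y.2.2 * (x.1 * x.2.1)
    · rw [if_pos h, if_pos (hiff.2 h)]
      have hr : ((x.2.2 : ℝ) * (y.1 * y.2.1)) = y.2.2 * (x.1 * x.2.1) := by exact_mod_cast h
      have hs : √((x.1 : ℝ) * x.2.1 * x.2.2) * √((y.1 : ℝ) * y.2.1 * y.2.2) =
          (x.2.2 : ℝ) * y.1 * y.2.1 := by
        rw [← Real.sqrt_mul (by positivity)]
        have : ((x.1 : ℝ) * x.2.1 * x.2.2) * ((y.1 : ℝ) * y.2.1 * y.2.2) =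
            ((x.2.2 : ℝ) * y.1 * y.2.1) ^ 2 := by
          calc ((x.1 : ℝ) * x.2.1 * x.2.2) * ((y.1 : ℝ) * y.2.1 * y.2.2)
              = ((x.2.2 : ℝ) * (y.1 * y.2.1)) * (y.2.2 * (x.1 * x.2.1)) := by ring
            _ = ((x.2.2 : ℝ) * (y.1 * y.2.1)) * ((x.2.2 : ℝ) * (y.1 * y.2.1)) := by rw [hr]
            _ = _ := by ring
        rw [this, Real.sqrt_sq (by positivity)]
      push_cast
      rw [← hs, mul_inv]
      ring
    · rw [if_neg h, if_neg (fun hh => h (hiff.1 hh)), zero_mul]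
  · intro q hq
    by_contra hne
    apply hq
    have hw : wt6 (eqv q) ≠ 0 := left_ne_zero_of_mul hne
    have hf : fA G (lg6 (Real.log T) (eqv q)) ≠ 0 := right_ne_zero_of_mul hne
    have hf1 : G (Real.log q.1.1 / Real.log T, Real.log q.1.2.1 / Real.log T,
        Real.log q.1.2.2 / Real.log T) ≠ 0 := left_ne_zero_of_mul hf
    have hf2 : G (Real.log q.2.1 / Real.log T, Real.log q.2.2.1 / Real.log T,
        Real.log q.2.2.2 / Real.log T) ≠ 0 := right_ne_zero_of_mul hf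
    have hw' : 0 < q.1.2.2 * q.2.1 * q.2.2.1 ∧
        q.1.2.2 * q.2.1 * q.2.2.1 = q.2.2.2 * q.1.1 * q.1.2.1 := by
      by_contra hcon
      apply hw
      unfold wt6 eqv
      simp only [Equiv.coe_fn_mk]
      rw [if_neg hcon]
    obtain ⟨w1, w2⟩ := hw'
    have w3 : 0 < q.2.2.2 * q.1.1 * q.1.2.1 := w2 ▸ w1
    have e1 : 1 ≤ q.1.2.2 := by
      rcases Nat.eq_zero_or_pos q.1.2.2 with h | h
      · rw [h] at w1; simp at w1
      · exact h
    have e2 : 1 ≤ q.2.1 := by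
      rcases Nat.eq_zero_or_pos q.2.1 with h | h
      · rw [h] at w1; simp at w1
      · exact h
    have e3 : 1 ≤ q.2.2.1 := by
      rcases Nat.eq_zero_or_pos q.2.2.1 with h | h
      · rw [h] at w1; simp at w1
      · exact h
    have e4 : 1 ≤ q.2.2.2 := by
      rcases Nat.eq_zero_or_pos q.2.2.2 with h | h
      · rw [h] at w3; simp at w3
      · exact h
    have e5 : 1 ≤ q.1.1 := by
      rcases Nat.eq_zero_or_pos q.1.1 with h | h
      · rw [h] at w3; simp at w3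
      · exact h
    have e6 : 1 ≤ q.1.2.1 := by
      rcases Nat.eq_zero_or_pos q.1.2.1 with h | h
      · rw [h] at w3; simp at w3
      · exact h
    obtain ⟨r1, r2, r3⟩ := hreg _ hf1
    obtain ⟨t1, t2, t3⟩ := hreg _ hf2
    rw [Finset.mem_product, mem_tri, mem_tri]
    exact ⟨⟨⟨e5, floor_mem hT e5 r1⟩, ⟨e6, floor_mem hT e6 r2⟩, ⟨e1, floor_mem hT e1 r3⟩⟩,
      ⟨⟨e2, floor_mem hT e2 t1⟩, ⟨e3, floor_mem hT e3 t2⟩, ⟨e4, floor_mem hT e4 t3⟩⟩⟩

lemma eventually_rpow_ge {ε : ℝ} (hε : 0 < ε) :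
    ∀ᶠ T : ℝ in atTop, 4 * Real.log T ^ 2 ≤ T ^ ε := by
  have h1 := (isLittleO_log_rpow_rpow_atTop 2 hε)
  have h2 := h1.bound (show (0:ℝ) < 1/4 by norm_num)
  filter_upwards [h2, eventually_gt_atTop 1] with T hT1 hT
  have hL := Real.log_pos hT
  rw [Real.norm_of_nonneg (by positivity), Real.norm_of_nonneg (by positivity)] at hT1
  have : Real.log T ^ (2:ℝ) = Real.log T ^ 2 := by norm_cast
  rw [this] at hT1
  linarith

/-- off-diagonal bound -/
lemma I1_diag {κ : ℝ} (hκ : 1 ≤ κ) {G : ℝ × ℝ × ℝ → ℝ} (hG : TF κ G) :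
    ∃ M : ℝ, 0 ≤ M ∧ ∀ᶠ T : ℝ in atTop, ∀ τ : ℝ,
      |I1 G T τ / (HH T * √π) - Dg G T| ≤ M * (T ^ 6 * Real.exp (-(Real.log T) ^ 2)) := by
  obtain ⟨M, hM⟩ := hG.hcs.exists_bound_of_continuous hG.cont
  have hM0 : 0 ≤ M := (norm_nonneg _).trans (hM 0)
  obtain ⟨ε, hε, hgap⟩ := supp_gap hκ hG
  refine ⟨M * M, by positivity, ?_⟩
  filter_upwards [eventually_rpow_ge hε, eventually_gt_atTop 1] with T hTε hT τ
  have hL := Real.log_pos hT
  have hH := HH_pos hT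
  have hT0 : 0 < T := by linarith
  rw [I1_expand G hT τ]
  unfold Dg
  rw [← Finset.sum_sub_distrib]
  simp only [← Finset.sum_sub_distrib]
  have hb : ∀ x ∈ tri T, |bc G T x| ≤ M := by
    intro x hx
    obtain ⟨⟨a1, -⟩, ⟨a2, -⟩, ⟨a3, -⟩⟩ := mem_tri.1 hx
    unfold bc
    rw [abs_mul]
    have h1 : |cf G T x| ≤ M := hM _
    have h2 : 1 ≤ √((x.1 : ℝ) * x.2.1 * x.2.2) := by
      rw [show (1:ℝ) = √1 by simp]
      refine Real.sqrt_le_sqrt ?_
      have : 1 ≤ x.1 * x.2.1 * x.2.2 := Nat.one_le_iff_ne_zero.2 (by positivity)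
      exact_mod_cast this
    have h3 : |(√((x.1 : ℝ) * x.2.1 * x.2.2))⁻¹| ≤ 1 := by
      rw [abs_of_nonneg (by positivity)]
      exact inv_le_one_of_one_le₀ h2
    calc |cf G T x| * |(√((x.1 : ℝ) * x.2.1 * x.2.2))⁻¹| ≤ M * 1 := by gcongr
      _ = M := mul_one M
  have hterm : ∀ x ∈ tri T, ∀ y ∈ tri T, |bc G T x * bc G T y *
      (Real.exp (-(HH T * (fr x - fr y) / 2) ^ 2) * Real.cos (τ * (fr x - fr y))) -
      (if x.2.2 * (y.1 * y.2.1) = y.2.2 * (x.1 * x.2.1) then bc G T x * bc G T y else 0)| ≤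
      M * M * Real.exp (-(Real.log T) ^ 2) := by
    intro x hx y hy
    obtain ⟨⟨a1, -⟩, ⟨a2, -⟩, ⟨a3, -⟩⟩ := mem_tri.1 hx
    obtain ⟨⟨b1, -⟩, ⟨b2, -⟩, ⟨b3, -⟩⟩ := mem_tri.1 hy
    have p1 : (0:ℝ) < x.1 := by exact_mod_cast a1
    have p2 : (0:ℝ) < x.2.1 := by exact_mod_cast a2
    have p3 : (0:ℝ) < x.2.2 := by exact_mod_cast a3
    have p4 : (0:ℝ) < y.1 := by exact_mod_cast b1
    have p5 : (0:ℝ) < y.2.1 := by exact_mod_cast b2
    have p6 : (0:ℝ) < y.2.2 := by exact_mod_cast b3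
    have hfr : fr x - fr y = Real.log ((x.2.2 * (y.1 * y.2.1) : ℕ) : ℝ) -
        Real.log ((y.2.2 * (x.1 * x.2.1) : ℕ) : ℝ) := by
      unfold fr
      push_cast
      rw [Real.log_mul p3.ne' (by positivity), Real.log_mul p4.ne' p5.ne',
        Real.log_mul p6.ne' (by positivity), Real.log_mul p1.ne' p2.ne']
      ring
    split_ifs with h
    · rw [hfr, h, sub_self]
      simp only [mul_zero, zero_div, ne_eq, OfNat.ofNat_ne_zero, not_false_eq_true, zero_pow,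
        neg_zero, Real.exp_zero, Real.cos_zero, mul_one, sub_self, abs_zero]
      positivity
    · rw [sub_zero]
      by_cases hz : bc G T x * bc G T y = 0
      · rw [hz, zero_mul, abs_zero]; positivity
      have hcx : cf G T x ≠ 0 := left_ne_zero_of_mul (left_ne_zero_of_mul hz)
      have hcy : cf G T y ≠ 0 := left_ne_zero_of_mul (right_ne_zero_of_mul hz)
      have g1 := hgap _ hcx
      have g2 := hgap _ hcy
      simp only at g1 g2
      rw [← add_div, ← add_div, div_le_iff₀ hL] at g1 g2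
      have hgap2 := log_gap (a := x.2.2 * (y.1 * y.2.1)) (b := y.2.2 * (x.1 * x.2.1))
        (Nat.one_le_iff_ne_zero.2 (by positivity)) (Nat.one_le_iff_ne_zero.2 (by positivity)) h
      rw [← hfr] at hgap2
      have hprod : √(((x.2.2 * (y.1 * y.2.1) : ℕ) : ℝ) * ((y.2.2 * (x.1 * x.2.1) : ℕ) : ℝ)) ≤
          T / T ^ ε := by
        have h1 : ((x.2.2 * (y.1 * y.2.1) : ℕ) : ℝ) * ((y.2.2 * (x.1 * x.2.1) : ℕ) : ℝ) ≤
            (T / T ^ ε) ^ 2 := by
          have h2 : (0:ℝ) < ((x.2.2 * (y.1 * y.2.1) : ℕ) : ℝ) * ((y.2.2 * (x.1 * x.2.1) : ℕ) : ℝ) := by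
            push_cast; positivity
          rw [← Real.log_le_log_iff h2 (by positivity)]
          rw [Real.log_pow, Real.log_div hT0.ne' (by positivity), Real.log_rpow hT0]
          push_cast
          rw [Real.log_mul (by positivity) (by positivity), Real.log_mul p3.ne' (by positivity),
            Real.log_mul p4.ne' p5.ne', Real.log_mul p6.ne' (by positivity),
            Real.log_mul p1.ne' p2.ne']
          linarith
        calc √(((x.2.2 * (y.1 * y.2.1) : ℕ) : ℝ) * ((y.2.2 * (x.1 * x.2.1) : ℕ) : ℝ))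
            ≤ √((T / T ^ ε) ^ 2) := Real.sqrt_le_sqrt h1
          _ = T / T ^ ε := Real.sqrt_sq (by positivity)
      have hspos : 0 < √(((x.2.2 * (y.1 * y.2.1) : ℕ) : ℝ) * ((y.2.2 * (x.1 * x.2.1) : ℕ) : ℝ)) :=
        Real.sqrt_pos.2 (by push_cast; positivity)
      have hbig : Real.log T ≤ |HH T * (fr x - fr y) / 2| := by
        rw [abs_div, abs_mul, abs_of_pos hH, abs_of_pos (show (0:ℝ) < 2 by norm_num)]
        have h1 : 1 / (2 * (T / T ^ ε)) ≤ |fr x - fr y| := by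
          refine le_trans ?_ hgap2
          exact one_div_le_one_div_of_le (by positivity) (by linarith)
        have h2 : HH T * (1 / (2 * (T / T ^ ε))) / 2 ≤ HH T * |fr x - fr y| / 2 := by gcongr
        refine le_trans ?_ h2
        have h3 : HH T * (1 / (2 * (T / T ^ ε))) / 2 = T ^ ε / (4 * Real.log T) := by
          unfold HH
          have : T ^ ε ≠ 0 := (by positivity : (0:ℝ) < T ^ ε).ne'
          field_simp
          norm_num
        rw [h3, le_div_iff₀ (by positivity)]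
        nlinarith
      have hexp : Real.exp (-(HH T * (fr x - fr y) / 2) ^ 2) ≤ Real.exp (-(Real.log T) ^ 2) := by
        refine Real.exp_le_exp.2 (neg_le_neg ?_)
        rw [← sq_abs (HH T * (fr x - fr y) / 2)]
        exact pow_le_pow_left₀ hL.le hbig 2
      rw [abs_mul, abs_mul, abs_mul, abs_of_pos (Real.exp_pos _)]
      have hcos := Real.abs_cos_le_one (τ * (fr x - fr y))
      calc |bc G T x| * |bc G T y| * (Real.exp (-(HH T * (fr x - fr y) / 2) ^ 2) *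
            |Real.cos (τ * (fr x - fr y))|)
          ≤ M * M * (Real.exp (-(Real.log T) ^ 2) * 1) := by
            gcongr
            · exact hb x hx
            · exact hb y hy
        _ = _ := by rw [mul_one]
  calc |∑ x ∈ tri T, ∑ y ∈ tri T, (bc G T x * bc G T y *
      (Real.exp (-(HH T * (fr x - fr y) / 2) ^ 2) * Real.cos (τ * (fr x - fr y))) -
      (if x.2.2 * (y.1 * y.2.1) = y.2.2 * (x.1 * x.2.1) then bc G T x * bc G T y else 0))|
      ≤ ∑ x ∈ tri T, ∑ y ∈ tri T, M * M * Real.exp (-(Real.log T) ^ 2) := by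
        refine (Finset.abs_sum_le_sum_abs _ _).trans (Finset.sum_le_sum fun x hx => ?_)
        exact (Finset.abs_sum_le_sum_abs _ _).trans (Finset.sum_le_sum fun y hy => hterm x hx y hy)
    _ = ((tri T).card : ℝ) * ((tri T).card : ℝ) * (M * M * Real.exp (-(Real.log T) ^ 2)) := by
        simp only [Finset.sum_const, nsmul_eq_mul]; ring
    _ ≤ T ^ 3 * T ^ 3 * (M * M * Real.exp (-(Real.log T) ^ 2)) := by
        have := card_tri hT0.le
        gcongr
    _ = _ := by ring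

lemma exp_small : Tendsto (fun T : ℝ => T ^ 6 * Real.exp (-(Real.log T) ^ 2)) atTop (𝓝 0) := by
  have h1 : Tendsto (fun L : ℝ => Real.exp (6 * L - L ^ 2)) atTop (𝓝 0) := by
    refine Real.tendsto_exp_atBot.comp ?_
    have h2 : Tendsto (fun L : ℝ => L * (L - 6)) atTop atTop :=
      tendsto_id.atTop_mul_atTop₀ (tendsto_atTop_add_const_right _ (-6) tendsto_id)
    refine (tendsto_neg_atTop_atBot.comp h2).congr fun L => ?_
    simp only [Function.comp]; ring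
  refine (h1.comp Real.tendsto_log_atTop).congr' ?_
  filter_upwards [eventually_gt_atTop 0] with T hT
  simp only [Function.comp]
  rw [sub_eq_add_neg, Real.exp_add]
  congr 1
  rw [show 6 * Real.log T = Real.log (T ^ 6) by rw [Real.log_pow]; norm_num, Real.exp_log (by positivity)]

/-- **B2.** -/
theorem I1_lim {κ : ℝ} (hκ : 1 ≤ κ) {G : ℝ × ℝ × ℝ → ℝ} (hG : TF κ G) {ν : Measure E6}
    (hν : Lap ν) {δ : ℝ} (hδ : 0 < δ) {τ : ℝ → ℝ} (hτ : ∀ T : ℝ, 1 ≤ T → δ * T ≤ τ T ∧ τ T ≤ T) :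
    Tendsto (fun T : ℝ => I1 G T (τ T) / (HH T * √π * Real.log T ^ 9)) atTop
      (𝓝 (MP069854.arith 3 * QA ν G)) := by
  have hwt : ∀ x, 0 ≤ wt6 x := by
    intro x; unfold wt6; split_ifs
    · positivity
    · exact le_rfl
  have hk := (kara_of_exp hν hwt (fun s hs => kara_exp s hs) (fA_cont hG.cont) (fA_hcs hG.hcs)).2.2
  have h1 : Tendsto (fun T : ℝ => (Real.log T ^ 9)⁻¹ * Dg G T) atTop
      (𝓝 (MP069854.arith 3 * QA ν G)) := by
    refine (hk.comp Real.tendsto_log_atTop).congr' ?_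
    filter_upwards [eventually_gt_atTop 1] with T hT
    simp only [Function.comp]
    rw [Dg_eq hκ hG hT]
  obtain ⟨M, hM0, hM⟩ := I1_diag hκ hG
  have h2 : Tendsto (fun T : ℝ => (Real.log T ^ 9)⁻¹ * (I1 G T (τ T) / (HH T * √π) - Dg G T)) atTop
      (𝓝 0) := by
    have h3 := exp_small.const_mul M
    rw [mul_zero] at h3
    refine squeeze_zero_norm' ?_ h3
    filter_upwards [hM, eventually_ge_atTop (Real.exp 1)] with T hT1 hT
    have hL : 1 ≤ Real.log T := by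
      rw [← Real.log_exp 1]
      exact Real.log_le_log (Real.exp_pos _) hT
    rw [norm_mul, Real.norm_eq_abs, Real.norm_eq_abs, abs_of_nonneg (by positivity)]
    have h4 : (Real.log T ^ 9)⁻¹ ≤ 1 := inv_le_one_of_one_le₀ (one_le_pow₀ hL)
    calc (Real.log T ^ 9)⁻¹ * |I1 G T (τ T) / (HH T * √π) - Dg G T|
        ≤ 1 * |I1 G T (τ T) / (HH T * √π) - Dg G T| := by gcongr
      _ ≤ _ := by rw [one_mul]; exact hT1 (τ T)
  have h5 := h1.add h2
  rw [add_zero] at h5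
  refine h5.congr' ?_
  filter_upwards [eventually_gt_atTop 1] with T hT
  have := Real.log_pos hT
  rw [← mul_add, add_sub_cancel, div_eq_mul_inv, div_eq_mul_inv, mul_inv (HH T * √π)]
  ring

end S6
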