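import Pool.Agent.Lib.MP_39df77_nt.Part03

section

namespace SG
open Complex MeasureTheory Filter Topology Set
open scoped Real ComplexConjugate

/-! **A1.** `act` is a left action, preserves the determinant and Lebesgue measure.
The measure statement holds for the generators `S`, `T` of `SL₂(ℤ)` (a swap with a sign, and a shear),
and `act` is an action. -/
theorem act_one (g : X4) : act 1 g = g := by
  obtain ⟨u, v⟩ := g
  simp [act]

theorem act_mul (γ γ' : SLZ) (g : X4) : act (γ * γ') g = act γ (act γ' g) := by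
  obtain ⟨u, v⟩ := g
  have h : ∀ i j : Fin 2, (((γ * γ').1 i j : ℤ) : ℝ)
      = (γ.1 i 0 : ℝ) * (γ'.1 0 j : ℝ) + (γ.1 i 1 : ℝ) * (γ'.1 1 j : ℝ) := by
    intro i j
    have : (γ * γ').1 i j = γ.1 i 0 * γ'.1 0 j + γ.1 i 1 * γ'.1 1 j := by
      rw [Matrix.SpecialLinearGroup.coe_mul, Matrix.mul_apply, Fin.sum_univ_two]
    rw [this]
    push_cast
    ring
  simp only [act, h]
  refine Prod.ext ?_ ?_ <;> simp only [smul_add, smul_smul, add_smul] <;> abel

theorem Dt_act (γ : SLZ) (g : X4) : Dt (act γ g) = Dt g := by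
  obtain ⟨⟨u1, u2⟩, ⟨v1, v2⟩⟩ := g
  have hd : γ.1 0 0 * γ.1 1 1 - γ.1 0 1 * γ.1 1 0 = 1 := by
    have := γ.2
    rwa [Matrix.det_fin_two] at this
  have hd' : (γ.1 0 0 : ℝ) * (γ.1 1 1 : ℝ) - (γ.1 0 1 : ℝ) * (γ.1 1 0 : ℝ) = 1 := by
    exact_mod_cast hd
  simp only [Dt, act, wd, Prod.fst_add, Prod.snd_add, Prod.smul_fst, Prod.smul_snd, smul_eq_mul]
  linear_combination (u1 * v2 - u2 * v1) * hd'

theorem act_meas (γ : SLZ) : Measurable (act γ) := by
  unfold act
  fun_prop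

private theorem A1_mp_S : MeasurePreserving (act ModularGroup.S) (volume : Measure X4) volume := by
  have h1 : MeasurePreserving (Prod.swap : V2 × V2 → V2 × V2) (volume.prod volume)
      (volume.prod volume) := Measure.measurePreserving_swap
  have h2 : MeasurePreserving (Prod.map (fun x : V2 => -x) (id : V2 → V2)) (volume.prod volume)
      (volume.prod volume) :=
    (Measure.measurePreserving_neg (volume : Measure V2)).prod (MeasurePreserving.id volume)
  have h3 := h2.comp h1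
  have he : act ModularGroup.S = Prod.map (fun x : V2 => -x) (id : V2 → V2) ∘ Prod.swap := by
    funext g
    obtain ⟨u, v⟩ := g
    simp [act, ModularGroup.S]
  rw [he]
  exact h3

private theorem A1_mp_T : MeasurePreserving (act ModularGroup.T) (volume : Measure X4) volume := by
  have h1 : MeasurePreserving (Prod.swap : V2 × V2 → V2 × V2) (volume.prod volume)
      (volume.prod volume) := Measure.measurePreserving_swap
  have h2 : MeasurePreserving (fun z : V2 × V2 => (z.1, z.1 + z.2)) (volume.prod volume)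
      (volume.prod volume) := measurePreserving_prod_add volume volume
  have h3 := h1.comp (h2.comp h1)
  have he : act ModularGroup.T = Prod.swap ∘ ((fun z : V2 × V2 => (z.1, z.1 + z.2)) ∘ Prod.swap) := by
    funext g
    obtain ⟨u, v⟩ := g
    simp [act, ModularGroup.T, add_comm]
  rw [he]
  exact h3

theorem act_mp (γ : SLZ) : MeasurePreserving (act γ) volume volume := by
  have hγ : γ ∈ Subgroup.closure ({ModularGroup.S, ModularGroup.T} : Set SLZ) := by
    rw [SpecialLinearGroup.SL2Z_generators]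
    exact Subgroup.mem_top γ
  induction hγ using Subgroup.closure_induction with
  | mem x hx =>
    rcases hx with rfl | hx
    · exact A1_mp_S
    · rw [Set.mem_singleton_iff] at hx
      subst hx
      exact A1_mp_T
  | one =>
    have : act 1 = id := funext act_one
    rw [this]
    exact MeasurePreserving.id _
  | mul x y _ _ hx hy =>
    have : act (x * y) = act x ∘ act y := funext (act_mul x y)
    rw [this]
    exact hx.comp hy
  | inv x _ hx =>
    let e : X4 ≃ᵐ X4 :=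
      { toFun := act x
        invFun := act x⁻¹
        left_inv := fun g => by rw [← act_mul, inv_mul_cancel, act_one]
        right_inv := fun g => by rw [← act_mul, mul_inv_cancel, act_one]
        measurable_toFun := act_meas x
        measurable_invFun := act_meas x⁻¹ }
    have he : MeasurePreserving e volume volume := hx
    exact MeasurePreserving.symm e he

end SG

end

section

namespace SG
open Complex MeasureTheory Filter Topology Set
open scoped Real ComplexConjugate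

private theorem A2_wd_le {u v : V2} {A B : ℝ} (hu : ‖u‖ ≤ A) (hv : ‖v‖ ≤ B) :
    |wd u v| ≤ 2 * (A * B) := by
  have h1 : |u.1| ≤ A := by
    have := (norm_fst_le u).trans hu; rwa [Real.norm_eq_abs] at this
  have h2 : |u.2| ≤ A := by
    have := (norm_snd_le u).trans hu; rwa [Real.norm_eq_abs] at this
  have h3 : |v.1| ≤ B := by
    have := (norm_fst_le v).trans hv; rwa [Real.norm_eq_abs] at this
  have h4 : |v.2| ≤ B := by
    have := (norm_snd_le v).trans hv; rwa [Real.norm_eq_abs] at this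
  have hA : 0 ≤ A := (abs_nonneg _).trans h1
  have e1 : |u.1 * v.2| ≤ A * B := by
    rw [abs_mul]; exact mul_le_mul h1 h4 (abs_nonneg _) hA
  have e2 : |u.2 * v.1| ≤ A * B := by
    rw [abs_mul]; exact mul_le_mul h2 h3 (abs_nonneg _) hA
  unfold wd
  rw [abs_le] at e1 e2 ⊢
  constructor <;> linarith [e1.1, e1.2, e2.1, e2.2]

private theorem A2_fin (N : ℤ) : {γ : SLZ | ∀ i j, |γ.1 i j| ≤ N}.Finite := by
  have h : (Set.pi Set.univ fun _ : Fin 2 => Set.pi Set.univ fun _ : Fin 2 =>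
      Set.Icc (-N) N).Finite :=
    Set.Finite.pi fun _ => Set.Finite.pi fun _ => Set.finite_Icc _ _
  refine Set.Finite.of_injOn (f := fun γ : SLZ => (fun i j => γ.1 i j : Fin 2 → Fin 2 → ℤ))
    (t := Set.pi Set.univ fun _ : Fin 2 => Set.pi Set.univ fun _ : Fin 2 => Set.Icc (-N) N)
    ?_ ?_ h
  · intro γ hγ i _ j _
    exact abs_le.1 (hγ i j)
  · intro γ _ γ' _ hh
    apply Matrix.SpecialLinearGroup.ext
    intro i j
    exact congrFun (congrFun hh i) j

private theorem A2_entry {γ : SLZ} {g : X4} {R R' r : ℝ} (hr : 0 < r) (hg : ‖g‖ ≤ R)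
    (hD : r ≤ Dt g) (hg' : ‖act γ g‖ ≤ R') :
    ∀ i j, |((γ.1 i j : ℤ) : ℝ)| ≤ 2 * (R * R') / r := by
  have hu : ‖g.1‖ ≤ R := (norm_fst_le g).trans hg
  have hv : ‖g.2‖ ≤ R := (norm_snd_le g).trans hg
  have hw1 : ‖(act γ g).1‖ ≤ R' := (norm_fst_le _).trans hg'
  have hw2 : ‖(act γ g).2‖ ≤ R' := (norm_snd_le _).trans hg'
  have hDpos : 0 < Dt g := lt_of_lt_of_le hr hD
  have key : ∀ x : ℝ, |x * Dt g| ≤ 2 * (R * R') → |x| ≤ 2 * (R * R') / r := by
    intro x hx
    rw [abs_mul, abs_of_pos hDpos] at hx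
    rw [le_div_iff₀ hr]
    exact (mul_le_mul_of_nonneg_left hD (abs_nonneg x)).trans hx
  have a00 : ((γ.1 0 0 : ℤ) : ℝ) * Dt g = wd (act γ g).1 g.2 := by
    simp only [Dt, wd, act, Prod.fst_add, Prod.snd_add, Prod.smul_fst, Prod.smul_snd, smul_eq_mul]
    ring
  have a01 : ((γ.1 0 1 : ℤ) : ℝ) * Dt g = wd g.1 (act γ g).1 := by
    simp only [Dt, wd, act, Prod.fst_add, Prod.snd_add, Prod.smul_fst, Prod.smul_snd, smul_eq_mul]
    ring
  have a10 : ((γ.1 1 0 : ℤ) : ℝ) * Dt g = wd (act γ g).2 g.2 := by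
    simp only [Dt, wd, act, Prod.fst_add, Prod.snd_add, Prod.smul_fst, Prod.smul_snd, smul_eq_mul]
    ring
  have a11 : ((γ.1 1 1 : ℤ) : ℝ) * Dt g = wd g.1 (act γ g).2 := by
    simp only [Dt, wd, act, Prod.fst_add, Prod.snd_add, Prod.smul_fst, Prod.smul_snd, smul_eq_mul]
    ring
  intro i j
  apply key
  fin_cases i <;> fin_cases j
  · show |((γ.1 0 0 : ℤ) : ℝ) * Dt g| ≤ _
    rw [a00, mul_comm R R']; exact A2_wd_le hw1 hv
  · show |((γ.1 0 1 : ℤ) : ℝ) * Dt g| ≤ _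
    rw [a01]; exact A2_wd_le hu hw1
  · show |((γ.1 1 0 : ℤ) : ℝ) * Dt g| ≤ _
    rw [a10, mul_comm R R']; exact A2_wd_le hw2 hv
  · show |((γ.1 1 1 : ℤ) : ℝ) * Dt g| ≤ _
    rw [a11]; exact A2_wd_le hu hw2

private theorem A2_bounded (B : ℝ) :
    {γ : SLZ | ∀ i j, |((γ.1 i j : ℤ) : ℝ)| ≤ B}.Finite := by
  refine (A2_fin ⌊B⌋).subset ?_
  intro γ hγ i j
  rw [Int.le_floor]
  push_cast
  exact hγ i j

private theorem A2_translate (W : SLZ) {S : Set SLZ} (hS : S.Finite) :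
    {γ : SLZ | W * γ ∈ S}.Finite := by
  refine Set.Finite.of_injOn (f := fun γ : SLZ => W * γ) (t := S) ?_ ?_ hS
  · intro γ hγ; exact hγ
  · intro γ _ γ' _ hh
    exact mul_left_cancel hh

/-- **A2.** If `g` and `γ g` stay in `{‖·‖ ≤ R, Dt ≥ r}` then the entries of `γ = (γ g) g⁻¹` are
`≤ 2 R²/r` in absolute value (`g⁻¹ = D⁻¹ [[v₂,-u₂],[-v₁,u₁]]`), so finitely many `γ`; apply with
`W γ` and left translate by `W⁻¹`. -/
theorem finite_hits {φ ψ : X4 → ℂ} (hφ : Adm φ) (hψ : Adm ψ) (W : SLZ) :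
    {γ : SLZ | ∃ g, φ g ≠ 0 ∧ ψ (act (W * γ) g) ≠ 0}.Finite := by
  obtain ⟨R, r, hr, h1⟩ := hφ.supp
  obtain ⟨R', r', hr', h2⟩ := hψ.supp
  refine (A2_translate W (A2_bounded (2 * (R * R') / r))).subset ?_
  rintro γ ⟨g, hg, hg'⟩
  exact A2_entry hr (h1 g hg).1 (h1 g hg).2 (h2 _ hg').1

/-- for fixed `g` only finitely many `γ` have `φ (γ g) ≠ 0` (same estimate, `g` fixed, `Dt g > 0`; if
`Dt g ≤ 0` there are none, by `Dt_act`). -/
theorem finite_point {φ : X4 → ℂ} (hφ : Adm φ) (W : SLZ) (g : X4) :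
    {γ : SLZ | φ (act (W * γ) g) ≠ 0}.Finite := by
  obtain ⟨R, r, hr, h1⟩ := hφ.supp
  refine (A2_translate W (A2_bounded (2 * (‖g‖ * R) / r))).subset ?_
  intro γ hγ
  have h := h1 _ hγ
  have hD : r ≤ Dt g := by
    have := h.2
    rwa [Dt_act] at this
  exact A2_entry hr le_rfl hD h.1

end SG

end

section

namespace SG
open Complex MeasureTheory Filter Topology Set
open scoped Real ComplexConjugate

private theorem A4a_countable : Countable SLZ := by
  have h : Function.Injective (fun γ : SLZ => (fun i : Fin 2 × Fin 2 => γ.1 i.1 i.2)) := by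
    intro γ γ' h
    apply Subtype.ext
    ext i j
    exact congrFun h (i, j)
  exact h.countable

private theorem A4a_integrable {φ : X4 → ℂ} (hφ : Adm φ) : Integrable φ := by
  obtain ⟨C, hC⟩ := hφ.bdd
  obtain ⟨R, r, -, hR⟩ := hφ.supp
  have h1 : IntegrableOn φ (Metric.closedBall 0 R) := by
    refine Measure.integrableOn_of_bounded (M := C) ?_ hφ.meas.aestronglyMeasurable
      (Eventually.of_forall hC)
    exact (isCompact_closedBall (0 : X4) R).measure_lt_top.ne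
  refine (integrableOn_iff_integrable_of_support_subset ?_).1 h1
  intro g hg
  rw [mem_closedBall_zero_iff]
  exact (hR g hg).1

private theorem A4a_step {E : Type*} [NormedAddCommGroup E] [NormedSpace ℝ E] (H : Subgroup SLZ)
    {Θ : X4 → ℝ} (hm : Measurable Θ) (h0 : ∀ g, 0 ≤ Θ g)
    (hs : ∀ g, 0 < Dt g → HasSum (fun γ : H => Θ (act (γ : SLZ) g)) 1) {s : X4 → E}
    (hsi : Integrable s) (hsm : StronglyMeasurable s) (hs0 : ∀ g, s g ≠ 0 → 0 < Dt g) :
    HasSum (fun γ : H => ∫ g : X4, Θ g • s (act (γ : SLZ) g)) (∫ g, s g) := by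
  have : Countable SLZ := A4a_countable
  have hinv : ∀ g, 0 < Dt g → HasSum (fun γ : H => Θ (act ((γ⁻¹ : H) : SLZ) g)) 1 := by
    intro g hg
    exact ((Equiv.inv H).hasSum_iff (f := fun γ : H => Θ (act (γ : SLZ) g))).2 (hs g hg)
  have hmeas : ∀ γ : H, StronglyMeasurable (fun g => Θ (act ((γ⁻¹ : H) : SLZ) g) • s g) :=
    fun γ => (hm.comp (act_meas _)).stronglyMeasurable.smul hsm
  have hsub : ∀ γ : H, ∫ g : X4, Θ g • s (act (γ : SLZ) g) =
      ∫ g : X4, Θ (act ((γ⁻¹ : H) : SLZ) g) • s g := by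
    intro γ
    have h1 := integral_map (μ := (volume : Measure X4)) (act_meas (γ : SLZ)).aemeasurable
      (hmeas γ).aestronglyMeasurable
    rw [(act_mp (γ : SLZ)).map_eq] at h1
    rw [h1]
    refine integral_congr_ae (Eventually.of_forall fun g => ?_)
    show Θ g • s (act (γ : SLZ) g) = Θ (act ((γ⁻¹ : H) : SLZ) (act (γ : SLZ) g)) • s (act (γ : SLZ) g)
    rw [← act_mul, Subgroup.coe_inv, inv_mul_cancel, act_one]
  simp only [hsub]
  refine hasSum_integral_of_dominated_convergence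
    (fun (γ : H) (g : X4) => Θ (act ((γ⁻¹ : H) : SLZ) g) * ‖s g‖)
    (fun γ => (hmeas γ).aestronglyMeasurable) (fun γ => Eventually.of_forall fun g => ?_)
    (Eventually.of_forall fun g => ?_) ?_ (Eventually.of_forall fun g => ?_)
  · rw [norm_smul, Real.norm_eq_abs, abs_of_nonneg (h0 _)]
  · by_cases hg : s g = 0
    · simp only [hg, norm_zero, mul_zero]
      exact summable_zero
    · exact (hinv g (hs0 g hg)).summable.mul_right _
  · refine hsi.norm.congr (Eventually.of_forall fun g => ?_)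
    show ‖s g‖ = ∑' γ : H, Θ (act ((γ⁻¹ : H) : SLZ) g) * ‖s g‖
    by_cases hg : s g = 0
    · simp only [hg, norm_zero, mul_zero, tsum_zero]
    · rw [tsum_mul_right, (hinv g (hs0 g hg)).tsum_eq, one_mul]
  · by_cases hg : s g = 0
    · simp only [hg, smul_zero]
      exact hasSum_zero
    · have h2 := (hinv g (hs0 g hg)).smul_const (s g)
      rwa [one_smul] at h2

private theorem A4a_conj_tsum {ι : Type*} {f : ι → ℂ} : conj (∑' i, f i) = ∑' i, conj (f i) :=
  Complex.conj_tsum f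

/-- **A4a. Unfolding.** `P(g) = ∑_{γ∈H} φ(W' γ g)`, `Q(g) = ∑_{γ∈H} ψ(W γ g)` are locally finite sums
(`finite_point`), `P(γ g) = P(g)`, `Q(γ g) = Q(g)` for `γ ∈ H`. First with absolute values in `ℝ≥0∞`:
`∫ Θ |P| |Q| ≤ ∑_γ ∫ Θ(g) |φ(W' γ g)| |Q|(g) = ∑_γ ∫ Θ(γ⁻¹ g) |φ(W' g)| |Q|(g) = ∫ |φ(W' g)| |Q|(g)`
(`|Q|` the sum of absolute values, which is `H`-invariant; substitution `g ↦ γ⁻¹ g` is measure preserving; `∑_γ Θ(γ⁻¹ g) = 1`
on `Dt g > 0 ⊇ supp`), and the last integral is `∑_γ ∫ |φ(W' g)| |ψ(W γ g)| < ∞` (finitely many terms, `finite_hits`, each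
bounded with compact support). Then the same computation without absolute values. -/
theorem unfold_pair (H : Subgroup SLZ) (W W' : SLZ) {φ ψ : X4 → ℂ} (hφ : Adm φ) (hψ : Adm ψ)
    {Θ : X4 → ℝ} (hm : Measurable Θ) (h0 : ∀ g, 0 ≤ Θ g) (h1 : ∀ g, Θ g ≤ 1)
    (hs : ∀ g, 0 < Dt g → HasSum (fun γ : H => Θ (act (γ : SLZ) g)) 1) :
    Integrable (fun g : X4 => (Θ g : ℂ) * ((∑' γ : H, φ (act (W' * γ) g)) *
      conj (∑' γ : H, ψ (act (W * γ) g)))) ∧
    ∫ g : X4, (Θ g : ℂ) * ((∑' γ : H, φ (act (W' * γ) g)) * conj (∑' γ : H, ψ (act (W * γ) g))) =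
      ∑' γ : H, ∫ g : X4, φ (act W' g) * conj (ψ (act (W * γ) g)) := by
  have : Countable SLZ := A4a_countable
  set S : H → X4 → ℂ := fun ε g => φ (act W' g) * conj (ψ (act (W * ε) g)) with hS
  obtain ⟨C, hC⟩ := hψ.bdd
  have hSm : ∀ ε, Measurable (S ε) := fun ε =>
    (hφ.meas.comp (act_meas W')).mul
      (Complex.continuous_conj.measurable.comp (hψ.meas.comp (act_meas (W * ε))))
  have hSi : ∀ ε, Integrable (S ε) := by
    intro ε
    have h2 : Integrable (fun g => φ (act W' g)) :=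
      ((act_mp W').integrable_comp hφ.meas.aestronglyMeasurable).2 (A4a_integrable hφ)
    refine h2.mul_bdd (c := C) (Complex.continuous_conj.measurable.comp
      (hψ.meas.comp (act_meas (W * ε)))).aestronglyMeasurable (Eventually.of_forall fun g => ?_)
    rw [RCLike.norm_conj]
    exact hC _
  have hS0 : ∀ ε g, S ε g ≠ 0 → 0 < Dt g := by
    intro ε g hg
    obtain ⟨R, r, hr, hR⟩ := hφ.supp
    have h3 := (hR (act W' g) (left_ne_zero_of_mul hg)).2
    rw [Dt_act] at h3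
    exact hr.trans_le h3
  -- the double family
  set T : H × H → X4 → ℂ := fun p g => (Θ g : ℂ) * S p.1 (act (p.2 : SLZ) g) with hT
  have hTi : ∀ p, Integrable (T p) := by
    intro p
    have h2 : Integrable (fun g => S p.1 (act (p.2 : SLZ) g)) :=
      ((act_mp (p.2 : SLZ)).integrable_comp (hSm p.1).aestronglyMeasurable).2 (hSi p.1)
    refine h2.bdd_mul (c := 1) (Complex.measurable_ofReal.comp hm).aestronglyMeasurable
      (Eventually.of_forall fun g => ?_)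
    rw [Complex.norm_real, Real.norm_eq_abs, abs_of_nonneg (h0 g)]
    exact h1 g
  have hstep : ∀ ε, HasSum (fun γ : H => ∫ g, T (ε, γ) g) (∫ g, S ε g) := by
    intro ε
    have h2 := A4a_step H hm h0 hs (hSi ε) (hSm ε).stronglyMeasurable (hS0 ε)
    have h3 : (fun γ : H => ∫ g, T (ε, γ) g) =
        fun γ : H => ∫ g : X4, Θ g • S ε (act (γ : SLZ) g) := by
      funext γ
      refine integral_congr_ae (Eventually.of_forall fun g => ?_)
      show (Θ g : ℂ) * S ε (act (γ : SLZ) g) = Θ g • S ε (act (γ : SLZ) g)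
      rw [Complex.real_smul]
    rw [h3]
    exact h2
  have hstepn : ∀ ε, HasSum (fun γ : H => ∫ g, ‖T (ε, γ) g‖) (∫ g, ‖S ε g‖) := by
    intro ε
    have h2 := A4a_step H hm h0 hs (s := fun g => ‖S ε g‖) (hSi ε).norm
      (hSm ε).norm.stronglyMeasurable (fun g hg => hS0 ε g (norm_ne_zero_iff.1 hg))
    have h3 : (fun γ : H => ∫ g, ‖T (ε, γ) g‖) =
        fun γ : H => ∫ g : X4, Θ g • ‖S ε (act (γ : SLZ) g)‖ := by
      funext γ
      refine integral_congr_ae (Eventually.of_forall fun g => ?_)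
      show ‖(Θ g : ℂ) * S ε (act (γ : SLZ) g)‖ = Θ g • ‖S ε (act (γ : SLZ) g)‖
      rw [norm_mul, Complex.norm_real, Real.norm_eq_abs, abs_of_nonneg (h0 g), smul_eq_mul]
    rw [h3]
    exact h2
  have hfin : {ε : H | ∃ g, S ε g ≠ 0}.Finite := by
    have h2 := finite_hits hφ hψ W
    have h3 : Function.Injective (fun ε : H => (ε : SLZ) * W'⁻¹) := fun a b hab =>
      Subtype.ext (mul_right_cancel hab)
    refine (h2.preimage h3.injOn).subset ?_
    rintro ε ⟨g, hg⟩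
    refine ⟨act W' g, left_ne_zero_of_mul hg, ?_⟩
    have h4 : act (W * ((ε : SLZ) * W'⁻¹)) (act W' g) = act (W * ε) g := by
      rw [← act_mul]
      congr 1
      group
    rw [h4]
    intro h5
    have h6 : S ε g = 0 := by
      show φ (act W' g) * conj (ψ (act (W * ε) g)) = 0
      rw [h5, map_zero, mul_zero]
    exact hg h6
  have hsumm : Summable fun p : H × H => ∫ g, ‖T p g‖ := by
    rw [summable_prod_of_nonneg (fun p => integral_nonneg fun g => norm_nonneg _)]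
    refine ⟨fun ε => (hstepn ε).summable, ?_⟩
    have h2 : (fun ε => ∑' γ : H, ∫ g, ‖T (ε, γ) g‖) = fun ε => ∫ g, ‖S ε g‖ :=
      funext fun ε => (hstepn ε).tsum_eq
    rw [h2]
    refine summable_of_hasFiniteSupport (hfin.subset ?_)
    intro ε hε
    by_contra hcon
    have h3 : ∀ g, S ε g = 0 := by
      intro g
      by_contra h4
      exact hcon ⟨g, h4⟩
    apply hε
    show ∫ g, ‖S ε g‖ = 0
    simp [h3]
  -- the pointwise sum
  have hpt : ∀ g, ∑' p : H × H, T p g = (Θ g : ℂ) * ((∑' γ : H, φ (act (W' * γ) g)) *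
      conj (∑' γ : H, ψ (act (W * γ) g))) := by
    intro g
    have hfφ : Summable (fun γ : H => ‖φ (act (W' * γ) g)‖) := by
      refine summable_of_hasFiniteSupport
        (((finite_point hφ W' g).preimage Subtype.val_injective.injOn).subset ?_)
      intro γ hγ
      exact norm_ne_zero_iff.1 hγ
    have hfψ : Summable (fun γ : H => ‖conj (ψ (act (W * γ) g))‖) := by
      refine summable_of_hasFiniteSupport
        (((finite_point hψ W g).preimage Subtype.val_injective.injOn).subset ?_)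
      intro γ hγ h5
      apply hγ
      show ‖conj (ψ (act (W * γ) g))‖ = 0
      rw [h5, map_zero, norm_zero]
    rw [A4a_conj_tsum, tsum_mul_tsum_of_summable_norm hfφ hfψ, ← tsum_mul_left]
    set e : H × H ≃ H × H :=
      { toFun := fun p => (p.2, p.1 * p.2)
        invFun := fun p => (p.2 * p.1⁻¹, p.1)
        left_inv := fun p => by simp
        right_inv := fun p => by simp } with he
    rw [← e.tsum_eq (fun z : H × H =>
      (Θ g : ℂ) * (φ (act (W' * z.1) g) * conj (ψ (act (W * z.2) g))))]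
    refine tsum_congr fun p => ?_
    show (Θ g : ℂ) * (φ (act W' (act (p.2 : SLZ) g)) *
        conj (ψ (act (W * (p.1 : SLZ)) (act (p.2 : SLZ) g)))) =
      (Θ g : ℂ) * (φ (act (W' * (p.2 : SLZ)) g) *
        conj (ψ (act (W * ((p.1 : SLZ) * (p.2 : SLZ))) g)))
    rw [← act_mul, ← act_mul, mul_assoc W]
  have hmeasP : Measurable (fun g : X4 => (Θ g : ℂ) * ((∑' γ : H, φ (act (W' * γ) g)) *
      conj (∑' γ : H, ψ (act (W * γ) g)))) := by
    refine (Complex.measurable_ofReal.comp hm).mul ((Measurable.tsum fun γ : H => ?_).mul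
      (Complex.continuous_conj.measurable.comp (Measurable.tsum fun γ : H => ?_)))
    · exact hφ.meas.comp (act_meas _)
    · exact hψ.meas.comp (act_meas _)
  constructor
  · refine ⟨hmeasP.aestronglyMeasurable, ?_⟩
    have h2 : ∫⁻ g : X4, ‖(Θ g : ℂ) * ((∑' γ : H, φ (act (W' * γ) g)) *
        conj (∑' γ : H, ψ (act (W * γ) g)))‖ₑ ≤ ∑' p : H × H, ENNReal.ofReal (∫ g, ‖T p g‖) := by
      calc _ ≤ ∫⁻ g : X4, ∑' p : H × H, ‖T p g‖ₑ := by
            refine lintegral_mono fun g => ?_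
            rw [← hpt g]
            exact enorm_tsum_le_tsum_enorm
        _ = ∑' p : H × H, ∫⁻ g : X4, ‖T p g‖ₑ :=
            lintegral_tsum fun p => (hTi p).1.enorm
        _ = ∑' p : H × H, ENNReal.ofReal (∫ g, ‖T p g‖) :=
            tsum_congr fun p => (ofReal_integral_norm_eq_lintegral_enorm (hTi p)).symm
    refine lt_of_le_of_lt h2 ?_
    exact hsumm.tsum_ofReal_lt_top
  · have h2 := hasSum_integral_of_summable_integral_norm hTi hsumm
    have h3 : (∫ g : X4, (Θ g : ℂ) * ((∑' γ : H, φ (act (W' * γ) g)) *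
        conj (∑' γ : H, ψ (act (W * γ) g)))) = ∫ g, ∑' p : H × H, T p g :=
      integral_congr_ae (Eventually.of_forall fun g => (hpt g).symm)
    rw [h3, ← h2.tsum_eq, h2.summable.tsum_prod' fun ε => (hstep ε).summable]
    exact tsum_congr fun ε => (hstep ε).tsum_eq

end SG

end

section

namespace SG
open Complex MeasureTheory Filter Topology Set
open scoped Real ComplexConjugate

theorem B3_line {F : ℝ → ENNReal} (hF : Measurable F) {a : ℝ} (ha : a ≠ 0) (b : ℝ) :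
    ∫⁻ t : ℝ, F (a * t + b) = ENNReal.ofReal |a⁻¹| * ∫⁻ t : ℝ, F t := by
  have h1 : ∫⁻ t : ℝ, F (a * t + b) = ∫⁻ s, F (s + b) ∂(Measure.map (fun t => a * t) volume) := by
    have hm : Measurable fun s : ℝ => F (s + b) := hF.comp (by fun_prop)
    rw [lintegral_map hm (measurable_const_mul a)]
  rw [h1, Real.map_volume_mul_left ha, lintegral_smul_measure, smul_eq_mul,
    lintegral_add_right_eq_self (fun s => F s) b]

theorem B3_co_meas (i : Bool) : Measurable (co i) := by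
  cases i
  · exact measurable_fst
  · exact measurable_snd

theorem B3_Dt_meas : Measurable Dt := by
  unfold Dt wd
  fun_prop

theorem B3_inner {i : Bool} {v : V2} (hv : co i v ≠ 0) {K : ℝ × ℝ → ENNReal} (hK : Measurable K) :
    ∫⁻ u : V2, K (co i u / co i v, wd u v) = ∫⁻ x : ℝ, ∫⁻ D : ℝ, K (x, D) := by
  have hin : Measurable fun x : ℝ => ∫⁻ D : ℝ, K (x, D) := hK.lintegral_prod_right'
  have hmeas : Measurable fun u : V2 => K (co i u / co i v, wd u v) := by
    apply hK.comp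
    refine Measurable.prodMk ((B3_co_meas i).div_const _) ?_
    unfold wd
    fun_prop
  have hone : ENNReal.ofReal |(co i v)⁻¹| * ENNReal.ofReal |(co i v)⁻¹⁻¹| = 1 := by
    rw [← ENNReal.ofReal_mul (abs_nonneg _), ← abs_mul, mul_inv_cancel₀ (inv_ne_zero hv), abs_one,
      ENNReal.ofReal_one]
  cases i with
  | false =>
    change v.1 ≠ 0 at hv
    change ENNReal.ofReal |(v.1)⁻¹| * ENNReal.ofReal |(v.1)⁻¹⁻¹| = 1 at hone
    have h1 : ∫⁻ u : V2, K (co false u / co false v, wd u v) =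
        ∫⁻ u1 : ℝ, ∫⁻ u2 : ℝ, K (u1 / v.1, u1 * v.2 - u2 * v.1) := by
      rw [Measure.volume_eq_prod, lintegral_prod _ hmeas.aemeasurable]
      rfl
    rw [h1]
    have h2 : ∀ u1 : ℝ, ∫⁻ u2 : ℝ, K (u1 / v.1, u1 * v.2 - u2 * v.1) =
        ENNReal.ofReal |(v.1)⁻¹| * ∫⁻ D : ℝ, K ((v.1)⁻¹ * u1 + 0, D) := by
      intro u1
      have h3 := B3_line (F := fun D => K (u1 / v.1, D)) (hK.comp measurable_prodMk_left)
        (neg_ne_zero.2 hv) (u1 * v.2)
      rw [inv_neg, abs_neg] at h3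
      have h4 : (v.1)⁻¹ * u1 + 0 = u1 / v.1 := by rw [add_zero, div_eq_inv_mul]
      rw [h4, ← h3]
      refine lintegral_congr fun u2 => ?_
      have : u1 * v.2 - u2 * v.1 = -v.1 * u2 + u1 * v.2 := by ring
      rw [this]
    have hin' : Measurable fun x : ℝ => ∫⁻ D : ℝ, K ((v.1)⁻¹ * x + 0, D) :=
      hin.comp (g := fun x => ∫⁻ D : ℝ, K (x, D)) (f := fun x : ℝ => (v.1)⁻¹ * x + 0) (by fun_prop)
    rw [lintegral_congr h2, lintegral_const_mul _ hin',
      B3_line (F := fun x => ∫⁻ D : ℝ, K (x, D)) hin (inv_ne_zero hv) 0, ← mul_assoc, hone, one_mul]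
  | true =>
    change v.2 ≠ 0 at hv
    change ENNReal.ofReal |(v.2)⁻¹| * ENNReal.ofReal |(v.2)⁻¹⁻¹| = 1 at hone
    have h1 : ∫⁻ u : V2, K (co true u / co true v, wd u v) =
        ∫⁻ u2 : ℝ, ∫⁻ u1 : ℝ, K (u2 / v.2, u1 * v.2 - u2 * v.1) := by
      rw [Measure.volume_eq_prod, lintegral_prod_symm _ hmeas.aemeasurable]
      rfl
    rw [h1]
    have h2 : ∀ u2 : ℝ, ∫⁻ u1 : ℝ, K (u2 / v.2, u1 * v.2 - u2 * v.1) =
        ENNReal.ofReal |(v.2)⁻¹| * ∫⁻ D : ℝ, K ((v.2)⁻¹ * u2 + 0, D) := by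
      intro u2
      have h3 := B3_line (F := fun D => K (u2 / v.2, D)) (hK.comp measurable_prodMk_left)
        hv (-(u2 * v.1))
      have h4 : (v.2)⁻¹ * u2 + 0 = u2 / v.2 := by rw [add_zero, div_eq_inv_mul]
      rw [h4, ← h3]
      refine lintegral_congr fun u1 => ?_
      have : u1 * v.2 - u2 * v.1 = v.2 * u1 + -(u2 * v.1) := by ring
      rw [this]
    have hin' : Measurable fun x : ℝ => ∫⁻ D : ℝ, K ((v.2)⁻¹ * x + 0, D) :=
      hin.comp (g := fun x => ∫⁻ D : ℝ, K (x, D)) (f := fun x : ℝ => (v.2)⁻¹ * x + 0) (by fun_prop)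
    rw [lintegral_congr h2, lintegral_const_mul _ hin',
      B3_line (F := fun x => ∫⁻ D : ℝ, K (x, D)) hin (inv_ne_zero hv) 0, ← mul_assoc, hone, one_mul]

theorem B3_change {i : Bool} {G : ℝ × V2 × ℝ → ENNReal} (hG : Measurable G)
    (h0 : ∀ x v D, co i v = 0 → G (x, v, D) = 0) :
    ∫⁻ g : X4, G (co i g.1 / co i g.2, g.2, Dt g) = ∫⁻ p : ℝ × V2 × ℝ, G p := by
  have hm : Measurable fun g : X4 => G (co i g.1 / co i g.2, g.2, Dt g) := by
    apply hG.comp
    exact (((B3_co_meas i).comp measurable_fst).div ((B3_co_meas i).comp measurable_snd)).prodMk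
      (measurable_snd.prodMk B3_Dt_meas)
  have h1 : ∫⁻ g : X4, G (co i g.1 / co i g.2, g.2, Dt g) =
      ∫⁻ v : V2, ∫⁻ u : V2, G (co i u / co i v, v, wd u v) := by
    rw [Measure.volume_eq_prod, lintegral_prod_symm _ hm.aemeasurable]
    rfl
  have h2 : ∫⁻ p : ℝ × V2 × ℝ, G p = ∫⁻ x : ℝ, ∫⁻ v : V2, ∫⁻ D : ℝ, G (x, v, D) := by
    rw [Measure.volume_eq_prod, lintegral_prod _ hG.aemeasurable]
    refine lintegral_congr fun x => ?_
    have hGx : Measurable fun q : V2 × ℝ => G (x, q) := hG.comp measurable_prodMk_left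
    have h3 := lintegral_prod (μ := (volume : Measure V2)) (ν := (volume : Measure ℝ)) _
      hGx.aemeasurable
    exact h3
  rw [h1, h2, lintegral_lintegral_swap (f := fun x v => ∫⁻ D : ℝ, G (x, v, D))]
  · refine lintegral_congr fun v => ?_
    by_cases hv : co i v = 0
    · simp only [h0 _ _ _ hv, lintegral_zero]
    · exact B3_inner hv (K := fun q => G (q.1, v, q.2)) (hG.comp (by fun_prop))
  · have : Measurable fun q : (ℝ × V2) × ℝ => G (q.1.1, q.1.2, q.2) := hG.comp (by fun_prop)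
    exact this.lintegral_prod_right'.aemeasurable

/-- **B3. The part `c = 0`.** `M = ±[[1,b],[0,1]]`; the sign `-` changes `v` to `-v` and is killed by the
sign condition on the support; `[[1,b],[0,1]]` changes `x_i` to `x_i + b`, so only `b = 0` meets
`[0,1) × [0,1)`. The change of variables `u ↔ (x_i, D)` (fixed `v`) has Jacobian `1`: for `i = false`,
`u = (x v₁, x v₂ - D/v₁)`, for `i = true`, `u = (x v₁ + D/v₂, x v₂)`. -/
theorem gram_0 {i : Bool} {σ : ℝ} (hσ : σ = 1 ∨ σ = -1) {f : ℝ → V2 → ℝ → ℂ} (hf : Per i f)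
    (hpos : ∀ x v D, f x v D ≠ 0 → 0 < σ * co i v) :
    pair (fun M => M.1 1 0 = 0) (poin 1 i f) (poin 1 i f) =
      ((∫ p in (Ico (0 : ℝ) 1) ×ˢ (univ : Set (V2 × ℝ)), ‖f p.1 p.2.1 p.2.2‖ ^ 2 : ℝ) : ℂ) := by
  classical
  have hco : ∀ (a b : ℝ) (u v : V2), co i (a • u + b • v) = a * co i u + b * co i v := by
    intro a b u v
    cases i <;> simp [co]
  unfold pair
  rw [tsum_eq_single (⟨1, by simp⟩ : {γ : SLZ // γ.1 1 0 = 0})]
  · -- the identity
    have e1 : ∀ g : X4, poin 1 i f g * conj (poin 1 i f (act (1 : SLZ) g)) =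
        ((‖poin 1 i f g‖ ^ 2 : ℝ) : ℂ) := by
      intro g
      rw [act_one, Complex.mul_conj, Complex.normSq_eq_norm_sq]
    have e2 : ∫ g : X4, poin 1 i f g * conj (poin 1 i f (act (1 : SLZ) g)) =
        ((∫ g : X4, ‖poin 1 i f g‖ ^ 2 : ℝ) : ℂ) := by
      exact (integral_congr_ae (Eventually.of_forall e1)).trans integral_ofReal
    refine e2.trans ?_
    congr 1
    set Z : Set (ℝ × V2 × ℝ) := (Ico (0 : ℝ) 1) ×ˢ (univ : Set (V2 × ℝ)) with hZ
    have hZm : MeasurableSet Z := measurableSet_Ico.prod MeasurableSet.univ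
    set G : ℝ × V2 × ℝ → ENNReal :=
      Z.indicator (fun p => ENNReal.ofReal (‖f p.1 p.2.1 p.2.2‖ ^ 2)) with hG
    have hGm : Measurable G :=
      (ENNReal.measurable_ofReal.comp (hf.meas.norm.pow_const 2)).indicator hZm
    have hpm : Measurable (poin 1 i f) := by
      unfold poin
      have hx : Measurable fun g : X4 => co i g.1 / co i g.2 / 1 :=
        (((B3_co_meas i).comp measurable_fst).div ((B3_co_meas i).comp measurable_snd)).div_const 1
      refine Measurable.ite ?_ (hf.meas.comp (hx.prodMk (measurable_snd.prodMk B3_Dt_meas)))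
        measurable_const
      exact (measurableSet_le measurable_const hx).inter (measurableSet_lt hx measurable_const)
    have e3 : ∀ g : X4, ENNReal.ofReal (‖poin 1 i f g‖ ^ 2) =
        G (co i g.1 / co i g.2, g.2, Dt g) := by
      intro g
      rw [hG]
      unfold poin
      rw [div_one]
      by_cases hc : 0 ≤ co i g.1 / co i g.2 ∧ co i g.1 / co i g.2 < 1
      · rw [if_pos hc, indicator_of_mem]
        rw [hZ]
        exact ⟨hc, mem_univ _⟩
      · rw [if_neg hc, indicator_of_notMem]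
        · simp
        · rw [hZ]
          exact fun h => hc h.1
    rw [integral_eq_lintegral_of_nonneg_ae (Eventually.of_forall fun g => by positivity)
        (hpm.norm.pow_const 2).aestronglyMeasurable,
      integral_eq_lintegral_of_nonneg_ae (Eventually.of_forall fun g => by positivity)
        (hf.meas.norm.pow_const 2).aestronglyMeasurable]
    congr 1
    rw [lintegral_congr e3, B3_change (i := i) hGm, ← lintegral_indicator hZm]
    intro x v D hv
    rw [hG]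
    by_cases hfz : f x v D = 0
    · apply indicator_apply_eq_zero.2
      intro _
      simp [hfz]
    · exfalso
      have := hpos x v D hfz
      rw [hv, mul_zero] at this
      exact lt_irrefl _ this
  · -- the others
    rintro ⟨γ, hγ⟩ hne
    have hdet := γ.det_coe
    rw [Matrix.det_fin_two] at hdet
    change γ.1 1 0 = 0 at hγ
    have hdet' : γ.1 0 0 * γ.1 1 1 = 1 := by
      have h1 : γ.1 0 0 * γ.1 1 1 - γ.1 0 1 * γ.1 1 0 = 1 := hdet
      rw [hγ, mul_zero, sub_zero] at h1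
      exact h1
    have hz : ∀ g : X4, poin 1 i f g * conj (poin 1 i f (act γ g)) = 0 := by
      intro g
      by_contra hne0
      have h1 := left_ne_zero_of_mul hne0
      have h2 : poin 1 i f (act γ g) ≠ 0 := by
        intro h
        exact (right_ne_zero_of_mul hne0) (by rw [h, map_zero])
      unfold poin at h1 h2
      rw [div_one] at h1 h2
      obtain ⟨c1, f1⟩ : (0 ≤ co i g.1 / co i g.2 ∧ co i g.1 / co i g.2 < 1) ∧
          f (co i g.1 / co i g.2) g.2 (Dt g) ≠ 0 := by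
        by_cases hc : 0 ≤ co i g.1 / co i g.2 ∧ co i g.1 / co i g.2 < 1
        · rw [if_pos hc] at h1
          exact ⟨hc, h1⟩
        · rw [if_neg hc] at h1
          exact absurd rfl h1
      obtain ⟨c2, f2⟩ : (0 ≤ co i (act γ g).1 / co i (act γ g).2 ∧
          co i (act γ g).1 / co i (act γ g).2 < 1) ∧
          f (co i (act γ g).1 / co i (act γ g).2) (act γ g).2 (Dt (act γ g)) ≠ 0 := by
        by_cases hc : 0 ≤ co i (act γ g).1 / co i (act γ g).2 ∧
            co i (act γ g).1 / co i (act γ g).2 < 1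
        · rw [if_pos hc] at h2
          exact ⟨hc, h2⟩
        · rw [if_neg hc] at h2
          exact absurd rfl h2
      have p1 := hpos _ _ _ f1
      have p2 := hpos _ _ _ f2
      have hv : co i g.2 ≠ 0 := by
        intro h
        rw [h, mul_zero] at p1
        exact lt_irrefl _ p1
      unfold act at p2 c2
      simp only [hco] at p2 c2
      rw [hγ] at p2 c2
      rcases Int.eq_one_or_neg_one_of_mul_eq_one' hdet' with ⟨ha, hd⟩ | ⟨ha, hd⟩
      · rw [ha, hd] at c2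
        have hx : (((1 : ℤ) : ℝ) * co i g.1 + ((γ.1 0 1 : ℤ) : ℝ) * co i g.2) /
            (((0 : ℤ) : ℝ) * co i g.1 + ((1 : ℤ) : ℝ) * co i g.2) =
            co i g.1 / co i g.2 + ((γ.1 0 1 : ℤ) : ℝ) := by
          rw [Int.cast_one, Int.cast_zero, zero_mul, zero_add, one_mul, one_mul, add_div,
            mul_div_assoc, div_self hv, mul_one]
        rw [hx] at c2
        have hb : γ.1 0 1 = 0 := by
          have b1 : ((γ.1 0 1 : ℤ) : ℝ) < 1 := by linarith [c1.1, c2.2]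
          have b2 : (-1 : ℝ) < ((γ.1 0 1 : ℤ) : ℝ) := by linarith [c1.2, c2.1]
          have b1' : γ.1 0 1 < 1 := by exact_mod_cast b1
          have b2' : -1 < γ.1 0 1 := by exact_mod_cast b2
          omega
        apply hne
        ext r s
        fin_cases r <;> fin_cases s
        · exact ha
        · exact hb
        · exact hγ
        · exact hd
      · rw [hd] at p2
        push_cast at p2
        nlinarith
    simp only
    rw [integral_congr_ae (Eventually.of_forall hz), integral_zero]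

end SG

end

section

namespace SG
open Complex MeasureTheory Filter Topology Set
open scoped Real ComplexConjugate

private theorem F3_F_le {T ε : ℝ} {F : ℝ → ℂ} {kp km : ℝ → ℂ} {κ0 : ℂ} (hF : KD T ε F kp km κ0)
    {x : ℝ} (hx : 0 < x) : ‖F x‖ ≤ (∫ t : ℝ, ‖km t‖) * x ^ (1 / 2 : ℝ) := by
  rw [hF.rm x hx]
  refine (norm_integral_le_integral_norm _).trans (le_of_eq ?_)
  rw [← integral_mul_const]
  congr 1
  funext t
  rw [norm_mul, Complex.norm_cpow_eq_rpow_re_of_pos hx]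
  congr 2
  simp
  norm_num

private theorem F3_tm_le {C0 e : ℝ} (hC0 : 0 ≤ C0)
    (hr : ∀ dl k : ℕ, 0 < dl → 0 < k → (rr dl k : ℝ) ≤ C0 * ((dl : ℝ) * k) ^ e)
    {T ε : ℝ} {F : ℝ → ℂ} {kp km : ℝ → ℂ} {κ0 : ℂ} (hF : KD T ε F kp km κ0)
    {dl h c k : ℕ} (sg : ℤ) (h1 : 0 < dl) (h2 : 0 < h) (h3 : 0 < c) (h4 : 0 < k) :
    ‖tm F dl h sg c k‖ ≤ C0 * (∫ t : ℝ, ‖km t‖) * (dl : ℝ) ^ e * √h * (c : ℝ) ^ 2 *
      (k : ℝ) ^ (-(3 / 2 - e)) := by
  have hk : (0 : ℝ) < k := by exact_mod_cast h4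
  have hh : (0 : ℝ) < h := by exact_mod_cast h2
  have hc : (0 : ℝ) < c := by exact_mod_cast h3
  have hd : (0 : ℝ) < dl := by exact_mod_cast h1
  have hB : 0 ≤ ∫ t : ℝ, ‖km t‖ := integral_nonneg fun _ => norm_nonneg _
  have hx : 0 < (h : ℝ) * (c : ℝ) ^ 2 / k := by positivity
  unfold tm
  rw [norm_mul, norm_mul, norm_div, Complex.norm_natCast, Complex.norm_natCast]
  have e1 : ((h : ℝ) * (c : ℝ) ^ 2 / k) ^ (1 / 2 : ℝ) = √h * c * (k : ℝ) ^ (-(1 / 2) : ℝ) := by
    rw [Real.div_rpow (by positivity) hk.le, Real.mul_rpow hh.le (by positivity),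
      ← Real.sqrt_eq_rpow, ← Real.sqrt_eq_rpow ((c : ℝ) ^ 2), Real.sqrt_sq hc.le,
      Real.rpow_neg hk.le, div_eq_mul_inv]
  have e2 : (k : ℝ) ^ (-(3 / 2 - e)) = (k : ℝ) ^ e * (k : ℝ)⁻¹ * (k : ℝ) ^ (-(1 / 2) : ℝ) := by
    rw [← Real.rpow_neg_one, ← Real.rpow_add hk, ← Real.rpow_add hk]
    congr 1
    ring
  calc (rr dl k : ℝ) / k * ‖Kl c h (sg * k)‖ * ‖F (h * (c : ℝ) ^ 2 / k)‖
      ≤ (C0 * ((dl : ℝ) * k) ^ e) / k * c *
        ((∫ t : ℝ, ‖km t‖) * ((h : ℝ) * (c : ℝ) ^ 2 / k) ^ (1 / 2 : ℝ)) := by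
        have a1 := hr dl k h1 h4
        have a2 := Kl_le c h (sg * k)
        have a3 := F3_F_le hF hx
        have a4 : (0 : ℝ) ≤ C0 * ((dl : ℝ) * k) ^ e := by positivity
        gcongr
    _ = _ := by
        rw [e1, e2, Real.mul_rpow hd.le hk.le]
        ring

/-- `n^{-γ} - (n+1)^{-γ} ≥ (γ/4) n^{-1-γ}` -/
private theorem F3_tele {γ : ℝ} (h0 : 0 < γ) (h1 : γ ≤ 1) {x : ℝ} (hx : 1 ≤ x) :
    x ^ (-(1 + γ)) ≤ 4 / γ * (x ^ (-γ) - (x + 1) ^ (-γ)) := by
  have hx0 : 0 < x := by linarith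
  have e1 : (x + 1) ^ (-γ) = x ^ (-γ) * (1 + x⁻¹) ^ (-γ) := by
    rw [← Real.mul_rpow hx0.le (by positivity)]
    congr 1
    field_simp
  have e2 : x ^ (-(1 + γ)) = x ^ (-γ) * x⁻¹ := by
    rw [← Real.rpow_neg_one x, ← Real.rpow_add hx0]
    congr 1
    ring
  have hxi : 0 < x⁻¹ := by positivity
  have hxi1 : x⁻¹ ≤ 1 := inv_le_one_of_one_le₀ hx
  have k1 : (1 + x⁻¹) ^ (-γ) ≤ 1 - γ * x⁻¹ / 4 := by
    have l1 : x⁻¹ / 2 ≤ Real.log (1 + x⁻¹) := by
      have := Real.one_sub_inv_le_log_of_pos (x := 1 + x⁻¹) (by positivity)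
      have h2 : x⁻¹ / 2 ≤ 1 - (1 + x⁻¹)⁻¹ := by
        have h3 : (1 + x⁻¹)⁻¹ * (1 + x⁻¹) = 1 := inv_mul_cancel₀ (by positivity)
        have h4 : 0 < (1 + x⁻¹)⁻¹ := by positivity
        have h5 : (1 : ℝ) / 2 ≤ (1 + x⁻¹)⁻¹ := by
          rw [one_div]
          apply inv_anti₀ (by positivity)
          linarith
        nlinarith
      linarith
    rw [Real.rpow_def_of_pos (by positivity)]
    have l2 : Real.log (1 + x⁻¹) * -γ ≤ -(γ * x⁻¹ / 2) := by nlinarith
    refine (Real.exp_le_exp.2 l2).trans ?_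
    have l3 : 1 + γ * x⁻¹ / 2 ≤ Real.exp (γ * x⁻¹ / 2) := by
      have := Real.add_one_le_exp (γ * x⁻¹ / 2); linarith
    have hy0 : 0 ≤ γ * x⁻¹ / 2 := by positivity
    have hy1 : γ * x⁻¹ / 2 ≤ 1 / 2 := by nlinarith
    rw [Real.exp_neg]
    calc (Real.exp (γ * x⁻¹ / 2))⁻¹ ≤ (1 + γ * x⁻¹ / 2)⁻¹ := inv_anti₀ (by positivity) l3
      _ ≤ 1 - γ * x⁻¹ / 4 := by
          rw [inv_le_iff_one_le_mul₀ (by positivity)]
          nlinarith
  rw [e1, e2]
  have hp : 0 < x ^ (-γ) := by positivity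
  rw [div_mul_eq_mul_div, le_div_iff₀ h0]
  nlinarith [mul_le_mul_of_nonneg_left k1 hp.le]

private theorem F3_summ {γ : ℝ} (h0 : 0 < γ) (h1 : γ ≤ 1) (N : ℕ) :
    Summable (fun k : ℕ => (((N + k + 1 : ℕ) : ℝ)) ^ (-(1 + γ))) ∧
    ∑' k : ℕ, (((N + k + 1 : ℕ) : ℝ)) ^ (-(1 + γ)) ≤ 4 / γ * ((N : ℝ) + 1) ^ (-γ) := by
  have hb : ∀ n : ℕ, ∑ k ∈ Finset.range n, (((N + k + 1 : ℕ) : ℝ)) ^ (-(1 + γ)) ≤
      4 / γ * (((N : ℝ) + 1) ^ (-γ) - ((N : ℝ) + n + 1) ^ (-γ)) := by
    intro n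
    induction n with
    | zero => simp
    | succ n ih =>
      rw [Finset.sum_range_succ]
      have := F3_tele h0 h1 (x := ((N + n + 1 : ℕ) : ℝ)) (by push_cast; linarith [(Nat.cast_nonneg N : (0:ℝ) ≤ N), (Nat.cast_nonneg n : (0:ℝ) ≤ n)])
      push_cast at this ih ⊢
      have e : ((N : ℝ) + (n + 1) + 1) = (N : ℝ) + n + 1 + 1 := by ring
      rw [e]
      linarith [mul_sub (4 / γ) (((N : ℝ) + 1) ^ (-γ)) (((N : ℝ) + n + 1) ^ (-γ)),
        mul_sub (4 / γ) (((N : ℝ) + n + 1) ^ (-γ)) (((N : ℝ) + n + 1 + 1) ^ (-γ)),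
        mul_sub (4 / γ) (((N : ℝ) + 1) ^ (-γ)) (((N : ℝ) + n + 1 + 1) ^ (-γ))]
  have hb2 : ∀ n : ℕ, ∑ k ∈ Finset.range n, (((N + k + 1 : ℕ) : ℝ)) ^ (-(1 + γ)) ≤
      4 / γ * ((N : ℝ) + 1) ^ (-γ) := by
    intro n
    refine (hb n).trans ?_
    have : 0 ≤ ((N : ℝ) + n + 1) ^ (-γ) := by positivity
    have h4 : 0 < 4 / γ := by positivity
    nlinarith
  have hs : Summable (fun k : ℕ => (((N + k + 1 : ℕ) : ℝ)) ^ (-(1 + γ))) :=
    summable_of_sum_range_le (fun _ => by positivity) hb2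
  exact ⟨hs, Real.tsum_le_of_sum_range_le (fun _ => by positivity) hb2⟩

/-- absolute convergence of the sum over `k` -/
private theorem F3_tm_summable {T ε : ℝ} {F : ℝ → ℂ} {kp km : ℝ → ℂ} {κ0 : ℂ} (hF : KD T ε F kp km κ0)
    {dl h c : ℕ} (sg : ℤ) (h1 : 0 < dl) (h2 : 0 < h) (h3 : 0 < c) (N : ℕ) :
    Summable fun k : ℕ => ‖tm F dl h sg c (N + k + 1)‖ := by
  obtain ⟨C0, hC0, hr⟩ := rr_bound (ε := 1 / 4) (by norm_num)
  have hs := (F3_summ (γ := 1 / 4) (by norm_num) (by norm_num) N).1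
  refine Summable.of_nonneg_of_le (fun _ => norm_nonneg _)
    (fun k => F3_tm_le hC0.le hr hF sg h1 h2 h3 (k := N + k + 1) (by omega)) ?_
  refine Summable.mul_left _ ?_
  have e3 : (-(3 / 2 - 1 / 4) : ℝ) = -(1 + 1 / 4) := by norm_num
  simp only [e3]
  exact hs

/-- **F3. Large `k`**, `k > K`: trivial bounds `|Kl| ≤ c`, `|F x| ≤ T^{-1/2+ε} x^{1/2}` (from `rm`, `bm`),
`rr dl k ≤ C (dl k)^{ε'}` (F0, `ε' = ε/20`), `∑_{k>K} k^{-3/2+ε'} ≤ C (K+1)^{-1/2+ε'}`, `(K+1)^{ε'} ≤ T^{11ε'}`;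
`∑_{c ≤ Cp, s∣c} c² ≤ Cp³/s`, `Cp = T^α2/A`. -/
theorem blk_tail {ε : ℝ} (hε : 0 < ε) (hε1 : ε ≤ 1 / 100) {M0 : ℝ} : ∃ C T₀ : ℝ, 0 < C ∧
    ∀ T ≥ T₀, ∀ (F : ℝ → ℂ) (kp km : ℝ → ℂ) (κ0 : ℂ), KD T ε F kp km κ0 →
    ∀ h s dl : ℕ, 0 < h → 0 < s → 0 < dl → (h : ℝ) ≤ T → (s : ℝ) ≤ T → (dl : ℝ) ≤ T ^ 2 →
    ∀ α1 α2 A : ℝ, 0 ≤ α1 → α1 ≤ α2 → α2 ≤ 1 → T⁻¹ ≤ A → A ≤ T ^ 3 → ∀ g : ℝ → ℝ,
    (∀ x, g x ≠ 0 → α1 ≤ x ∧ x ≤ α2) → (∀ x, |g x| ≤ M0) → ∀ sg : ℤ, ∀ K : ℕ, (K : ℝ) ≤ T ^ 10 →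
    ∑' c : ℕ, (if 0 < c ∧ s ∣ c ∧ Nat.Coprime c h then
      |g (Real.log (A * c) / Real.log T)| * ∑' k : ℕ, ‖tm F dl h sg c (K + k + 1)‖ else 0) ≤
      C * T ^ (5 * ε) * (T ^ (-1 / 2 : ℝ) * √h * (T ^ α2 / A) ^ 3 / s / √(K + 1)) := by
  set e : ℝ := ε / 20 with he
  have he0 : 0 < e := by positivity
  have he1 : e ≤ 1 / 2000 := by rw [he]; linarith
  obtain ⟨C0, hC0, hr⟩ := rr_bound (ε := e) he0
  set γ : ℝ := 1 / 2 - e with hγ
  have hγ0 : 0 < γ := by rw [hγ]; linarith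
  have hγ1 : γ ≤ 1 := by rw [hγ]; linarith
  refine ⟨(|M0| + 1) * (C0 * (4 / γ)), 2, by positivity, ?_⟩
  intro T hT F kp km κ0 hF h s dl hh hs hdl hhT hsT hdT α1 α2 A hα1 hα12 hα2 hA1 hA2 g hg hgM sg K hK
  have hT0 : (0 : ℝ) < T := by linarith
  have hT1 : (1 : ℝ) < T := by linarith
  have hA0 : 0 < A := lt_of_lt_of_le (by positivity) hA1
  have hlog : 0 < Real.log T := Real.log_pos hT1
  set Cp : ℝ := T ^ α2 / A with hCp
  have hCp0 : 0 < Cp := by positivity
  have hs0 : (0 : ℝ) < s := by exact_mod_cast hs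
  have hh0 : (0 : ℝ) < h := by exact_mod_cast hh
  have hd0 : (0 : ℝ) < dl := by exact_mod_cast hdl
  set B : ℝ := ∫ t : ℝ, ‖km t‖ with hB
  have hB0 : 0 ≤ B := integral_nonneg fun _ => norm_nonneg _
  have hM : ∀ x, |g x| ≤ |M0| + 1 := fun x => (hgM x).trans (by linarith [le_abs_self M0])
  -- inner sum
  have hin : ∀ c : ℕ, 0 < c → ∑' k : ℕ, ‖tm F dl h sg c (K + k + 1)‖ ≤
      C0 * B * (dl : ℝ) ^ e * √h * (c : ℝ) ^ 2 * (4 / γ * ((K : ℝ) + 1) ^ (-γ)) := by
    intro c hc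
    have hsum := F3_summ hγ0 hγ1 K
    have e3 : -(3 / 2 - e) = -(1 + γ) := by rw [hγ]; ring
    calc ∑' k : ℕ, ‖tm F dl h sg c (K + k + 1)‖
        ≤ ∑' k : ℕ, C0 * B * (dl : ℝ) ^ e * √h * (c : ℝ) ^ 2 * (((K + k + 1 : ℕ) : ℝ)) ^ (-(1 + γ)) := by
          apply Summable.tsum_le_tsum _ (F3_tm_summable hF sg hdl hh hc K) (hsum.1.mul_left _)
          intro k
          have := F3_tm_le hC0.le hr hF sg hdl hh hc (k := K + k + 1) (by omega)
          rwa [e3] at this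
      _ = C0 * B * (dl : ℝ) ^ e * √h * (c : ℝ) ^ 2 * ∑' k : ℕ, (((K + k + 1 : ℕ) : ℝ)) ^ (-(1 + γ)) :=
          tsum_mul_left
      _ ≤ _ := mul_le_mul_of_nonneg_left hsum.2 (by positivity)
  set Q : ℝ := (|M0| + 1) * (C0 * B * (dl : ℝ) ^ e * √h * Cp ^ 2 * (4 / γ * ((K : ℝ) + 1) ^ (-γ))) with hQ
  have hQ0 : 0 ≤ Q := by positivity
  set S : Finset ℕ := (Finset.Ioc 0 ⌊Cp⌋₊).filter (fun c => s ∣ c) with hS
  have hval : ∀ c : ℕ, 0 < c → g (Real.log (A * c) / Real.log T) ≠ 0 → (c : ℝ) ≤ Cp := by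
    intro c hc h0
    have hc0 : (0 : ℝ) < c := by exact_mod_cast hc
    have h1 := (hg _ h0).2
    rw [div_le_iff₀ hlog] at h1
    have h2 : Real.log (A * c) ≤ Real.log (T ^ α2) := by
      rwa [Real.log_rpow hT0]
    have h3 := (Real.log_le_log_iff (by positivity) (by positivity)).1 h2
    rw [hCp, le_div_iff₀ hA0]
    linarith
  have hts : ∑' c : ℕ, (if 0 < c ∧ s ∣ c ∧ Nat.Coprime c h then
      |g (Real.log (A * c) / Real.log T)| * ∑' k : ℕ, ‖tm F dl h sg c (K + k + 1)‖ else 0) =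
      ∑ c ∈ S, (if 0 < c ∧ s ∣ c ∧ Nat.Coprime c h then
      |g (Real.log (A * c) / Real.log T)| * ∑' k : ℕ, ‖tm F dl h sg c (K + k + 1)‖ else 0) := by
    apply tsum_eq_sum
    intro c hc
    split_ifs with h1
    · by_cases h2 : g (Real.log (A * c) / Real.log T) = 0
      · rw [h2]; simp
      · exfalso
        apply hc
        rw [hS, Finset.mem_filter, Finset.mem_Ioc]
        exact ⟨⟨h1.1, Nat.le_floor (hval c h1.1 h2)⟩, h1.2.1⟩
    · rfl
  rw [hts]
  have hterm : ∀ c ∈ S, (if 0 < c ∧ s ∣ c ∧ Nat.Coprime c h then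
      |g (Real.log (A * c) / Real.log T)| * ∑' k : ℕ, ‖tm F dl h sg c (K + k + 1)‖ else 0) ≤ Q := by
    intro c hc
    split_ifs with h1
    · rw [hS, Finset.mem_filter, Finset.mem_Ioc] at hc
      have hcC : (c : ℝ) ≤ Cp := (Nat.le_floor_iff hCp0.le).1 hc.1.2
      have h5 := hin c h1.1
      have h6 : (0 : ℝ) ≤ ∑' k : ℕ, ‖tm F dl h sg c (K + k + 1)‖ := tsum_nonneg fun _ => norm_nonneg _
      rw [hQ]
      calc |g (Real.log (A * c) / Real.log T)| * ∑' k : ℕ, ‖tm F dl h sg c (K + k + 1)‖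
          ≤ (|M0| + 1) * (C0 * B * (dl : ℝ) ^ e * √h * (c : ℝ) ^ 2 * (4 / γ * ((K : ℝ) + 1) ^ (-γ))) := by
            apply mul_le_mul (hM _) h5 h6 (by positivity)
        _ ≤ _ := by gcongr
    · exact hQ0
  have hcard : (S.card : ℝ) ≤ Cp / s := by
    rw [hS, Nat.Ioc_filter_dvd_card_eq_div]
    calc ((⌊Cp⌋₊ / s : ℕ) : ℝ) ≤ (⌊Cp⌋₊ : ℝ) / s := Nat.cast_div_le
      _ ≤ Cp / s := by
          gcongr
          exact Nat.floor_le hCp0.le
  have hBT : B ≤ T ^ (-1 / 2 + ε) := hF.bm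
  have hdle : (dl : ℝ) ^ e ≤ T ^ (2 * e) := by
    calc (dl : ℝ) ^ e ≤ (T ^ 2) ^ e := Real.rpow_le_rpow hd0.le hdT he0.le
      _ = T ^ (2 * e) := by
          rw [← Real.rpow_natCast T 2, ← Real.rpow_mul hT0.le]
          norm_num
  have hKe : ((K : ℝ) + 1) ^ (-γ) ≤ T ^ (11 * e) / √(K + 1) := by
    have hK1 : (0 : ℝ) < (K : ℝ) + 1 := by positivity
    have e4 : ((K : ℝ) + 1) ^ (-γ) = ((K : ℝ) + 1) ^ e / √(K + 1) := by
      rw [Real.sqrt_eq_rpow, ← Real.rpow_sub hK1]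
      congr 1
      rw [hγ]; ring
    rw [e4]
    gcongr
    calc ((K : ℝ) + 1) ^ e ≤ (T ^ 11) ^ e := by
          apply Real.rpow_le_rpow hK1.le _ he0.le
          have h10 : (1 : ℝ) ≤ T ^ 10 := one_le_pow₀ hT1.le
          calc (K : ℝ) + 1 ≤ T ^ 10 + T ^ 10 := by linarith
            _ = T ^ 10 * 2 := by ring
            _ ≤ T ^ 10 * T := by gcongr
            _ = T ^ 11 := by ring
      _ = T ^ (11 * e) := by
          rw [← Real.rpow_natCast T 11, ← Real.rpow_mul hT0.le]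
          norm_num
  calc ∑ c ∈ S, (if 0 < c ∧ s ∣ c ∧ Nat.Coprime c h then
      |g (Real.log (A * c) / Real.log T)| * ∑' k : ℕ, ‖tm F dl h sg c (K + k + 1)‖ else 0)
      ≤ ∑ c ∈ S, Q := Finset.sum_le_sum hterm
    _ = S.card * Q := by rw [Finset.sum_const, nsmul_eq_mul]
    _ ≤ (Cp / s) * Q := by gcongr
    _ ≤ (Cp / s) * ((|M0| + 1) * (C0 * T ^ (-1 / 2 + ε) * T ^ (2 * e) * √h * Cp ^ 2 *
          (4 / γ * (T ^ (11 * e) / √(K + 1))))) := by
        rw [hQ]
        gcongr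
    _ = (|M0| + 1) * (C0 * (4 / γ)) * (T ^ (-1 / 2 + ε) * T ^ (2 * e) * T ^ (11 * e)) *
          (√h * Cp ^ 3 / s / √(K + 1)) := by ring
    _ ≤ (|M0| + 1) * (C0 * (4 / γ)) * (T ^ (5 * ε) * T ^ (-1 / 2 : ℝ)) *
          (√h * Cp ^ 3 / s / √(K + 1)) := by
        have hexp : T ^ (-1 / 2 + ε) * T ^ (2 * e) * T ^ (11 * e) ≤ T ^ (5 * ε) * T ^ (-1 / 2 : ℝ) := by
          rw [← Real.rpow_add hT0, ← Real.rpow_add hT0, ← Real.rpow_add hT0]
          apply Real.rpow_le_rpow_of_exponent_le hT1.le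
          rw [he]
          linarith
        exact mul_le_mul_of_nonneg_right (mul_le_mul_of_nonneg_left hexp (by positivity))
          (by positivity)
    _ = _ := by ring

/-- absolute convergence of the sum over `k` -/
theorem tm_summable {T ε : ℝ} {F : ℝ → ℂ} {kp km : ℝ → ℂ} {κ0 : ℂ} (hF : KD T ε F kp km κ0)
    {dl h c : ℕ} (sg : ℤ) (h1 : 0 < dl) (h2 : 0 < h) (h3 : 0 < c) :
    Summable fun k : ℕ => ‖tm F dl h sg c (k + 1)‖ := by
  have := F3_tm_summable hF sg h1 h2 h3 0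
  simpa using this

end SG

end
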