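import Pool.Agent.Lib.MP_39df77_nt.S6Defs
import Pool.Agent.Lib.MP_39df77_nt.Part03
import Pool.Agent.Lib.MP_39df77_nt.Part07
import Pool.Agent.Lib.MP_39df77_nt.Part08

section

/-! Row S6-err_sum -/

namespace S6
open Complex MeasureTheory Filter Topology Set
open scoped Real ComplexConjugate

/-- reduced denominator of `n/(m₁m₂)` -/
noncomputable def qq (x : ℕ × ℕ × ℕ) : ℕ := x.1 * x.2.1 / Nat.gcd (x.1 * x.2.1) x.2.2

theorem es_log_pow (ε : ℝ) (hε : 0 < ε) : ∃ C : ℝ, 0 ≤ C ∧ ∀ T : ℝ, 1 ≤ T →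
    (1 + Real.log (T + 1)) ^ 3 ≤ C * T ^ ε := by
  refine ⟨(1 + 1 / (ε / 3)) ^ 3 * 2 ^ ε, by positivity, fun T hT => ?_⟩
  have hlog : Real.log (T + 1) ≤ (T + 1 : ℝ) ^ (ε / 3) / (ε / 3) := Real.log_le_rpow_div (by positivity) (by positivity)
  have h1 : (1 : ℝ) ≤ (T + 1 : ℝ) ^ (ε / 3) := Real.one_le_rpow (by linarith) (by positivity)
  have h2 : 1 + Real.log (T + 1) ≤ (1 + 1 / (ε / 3)) * (T + 1 : ℝ) ^ (ε / 3) := by
    calc 1 + Real.log (T + 1) ≤ (T + 1 : ℝ) ^ (ε / 3) + ((T + 1 : ℝ) ^ (ε / 3) / (ε / 3)) := by linarith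
      _ = _ := by ring
  have h0 : 0 ≤ 1 + Real.log (T + 1) := by
    have : 0 ≤ Real.log (T + 1) := Real.log_nonneg (by linarith)
    linarith
  have h4 : (1 + Real.log (T + 1)) ^ 3 ≤ ((1 + 1 / (ε / 3)) * (T + 1 : ℝ) ^ (ε / 3)) ^ 3 := pow_le_pow_left₀ h0 h2 3
  have h5 : ((T + 1 : ℝ) ^ (ε / 3)) ^ 3 = (T + 1 : ℝ) ^ ε := by
    rw [← Real.rpow_natCast, ← Real.rpow_mul (by positivity)]
    congr 1; push_cast; ring
  have h6 : (T + 1 : ℝ) ^ ε ≤ 2 ^ ε * T ^ ε := by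
    rw [← Real.mul_rpow (by norm_num) (by positivity)]
    exact Real.rpow_le_rpow (by positivity) (by linarith) (by positivity)
  rw [mul_pow, h5] at h4
  calc (1 + Real.log (T + 1)) ^ 3 ≤ (1 + 1 / (ε / 3)) ^ 3 * (T + 1 : ℝ) ^ ε := h4
    _ ≤ (1 + 1 / (ε / 3)) ^ 3 * (2 ^ ε * T ^ ε) := by gcongr
    _ = _ := by ring

theorem es_prod3 (f g h : ℕ → ℝ) (A B C : Finset ℕ) :
    ∑ x ∈ A ×ˢ B ×ˢ C, f x.1 * g x.2.1 * h x.2.2 = (∑ x ∈ A, f x) * (∑ x ∈ B, g x) * (∑ x ∈ C, h x) := by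
  rw [Finset.sum_product, Finset.sum_mul, Finset.sum_mul]
  refine Finset.sum_congr rfl fun a _ => ?_
  rw [Finset.sum_product]
  have h1 : ∀ x ∈ B, ∑ y ∈ C, f (a, x, y).1 * g (a, x, y).2.1 * h (a, x, y).2.2
      = f a * g x * ∑ y ∈ C, h y := fun x _ => by rw [Finset.mul_sum]
  rw [Finset.sum_congr rfl h1, ← Finset.sum_mul, ← Finset.mul_sum]

/-- the multiplicative part of the sum -/
theorem es_triple {B : ℕ → ℝ} (hB0 : ∀ q, 0 ≤ B q) {κ : ℝ} (hκ : 1 ≤ κ) (N : ℕ) (D : ℝ)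
    (hD : ∀ m : ℕ, m ≠ 0 → m ≤ N ^ 2 → (m.divisors.card : ℝ) ≤ D) :
    ∑ x ∈ (Finset.Icc 1 N) ×ˢ (Finset.Icc 1 N) ×ˢ (Finset.Icc 1 N),
      (qq x : ℝ) * B (qq x) / ((x.1 : ℝ) * x.2.1) * (((x.1 : ℝ) * x.2.1) ^ κ * x.2.2)⁻¹
      ≤ D * ((∑ g ∈ Finset.Icc 1 N, (g : ℝ)⁻¹) * (∑ q ∈ Finset.Icc 1 (N ^ 2), B q * (q : ℝ) ^ (-κ)) *
        ∑ h ∈ Finset.Icc 1 N, (h : ℝ)⁻¹) := by
  classical
  set φ : ℕ × ℕ × ℕ → ℕ × ℕ × ℕ := fun x =>
    (Nat.gcd (x.1 * x.2.1) x.2.2, qq x, x.2.2 / Nat.gcd (x.1 * x.2.1) x.2.2) with hφ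
  set box : Finset (ℕ × ℕ × ℕ) := (Finset.Icc 1 N) ×ˢ (Finset.Icc 1 (N ^ 2)) ×ˢ (Finset.Icc 1 N) with hbox
  have hfacts : ∀ x ∈ (Finset.Icc 1 N) ×ˢ (Finset.Icc 1 N) ×ˢ (Finset.Icc 1 N),
      0 < x.1 ∧ 0 < x.2.1 ∧ 0 < x.2.2 ∧ 0 < Nat.gcd (x.1 * x.2.1) x.2.2 ∧
      Nat.gcd (x.1 * x.2.1) x.2.2 * qq x = x.1 * x.2.1 ∧
      Nat.gcd (x.1 * x.2.1) x.2.2 * (x.2.2 / Nat.gcd (x.1 * x.2.1) x.2.2) = x.2.2 ∧
      x.1 ≤ N ∧ x.2.1 ≤ N ∧ x.2.2 ≤ N := by
    intro x hx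
    rw [Finset.mem_product, Finset.mem_product, Finset.mem_Icc, Finset.mem_Icc, Finset.mem_Icc] at hx
    obtain ⟨⟨h1, h1'⟩, ⟨h2, h2'⟩, ⟨h3, h3'⟩⟩ := hx
    refine ⟨h1, h2, h3, Nat.gcd_pos_of_pos_right _ h3, ?_, ?_, h1', h2', h3'⟩
    · unfold qq; exact Nat.mul_div_cancel' (Nat.gcd_dvd_left _ _)
    · exact Nat.mul_div_cancel' (Nat.gcd_dvd_right _ _)
  have hmaps : ∀ x ∈ (Finset.Icc 1 N) ×ˢ (Finset.Icc 1 N) ×ˢ (Finset.Icc 1 N), φ x ∈ box := by
    intro x hx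
    obtain ⟨h1, h2, h3, hg, e1, e2, l1, l2, l3⟩ := hfacts x hx
    rw [hbox, Finset.mem_product, Finset.mem_product, Finset.mem_Icc, Finset.mem_Icc, Finset.mem_Icc]
    simp only [hφ]
    have hq0 : 0 < qq x := by
      rcases Nat.eq_zero_or_pos (qq x) with h | h
      · rw [h, mul_zero] at e1
        have : 0 < x.1 * x.2.1 := Nat.mul_pos h1 h2
        omega
      · exact h
    have hh0 : 0 < x.2.2 / Nat.gcd (x.1 * x.2.1) x.2.2 := by
      rcases Nat.eq_zero_or_pos (x.2.2 / Nat.gcd (x.1 * x.2.1) x.2.2) with h | h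
      · rw [h, mul_zero] at e2; omega
      · exact h
    refine ⟨⟨hg, (Nat.le_of_dvd h3 (Nat.gcd_dvd_right _ _)).trans l3⟩, ⟨hq0, ?_⟩, ⟨hh0, ?_⟩⟩
    · calc qq x ≤ Nat.gcd (x.1 * x.2.1) x.2.2 * qq x := Nat.le_mul_of_pos_left _ hg
        _ = x.1 * x.2.1 := e1
        _ ≤ N * N := Nat.mul_le_mul l1 l2
        _ = N ^ 2 := by ring
    · exact (Nat.div_le_self _ _).trans l3
  set F : ℕ × ℕ × ℕ → ℝ := fun y => (y.2.1 : ℝ) * B y.2.1 / ((y.1 : ℝ) * y.2.1) * (((y.1 : ℝ) * y.2.1) ^ κ * ((y.1 : ℝ) * y.2.2))⁻¹ with hF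
  have hterm : ∀ x ∈ (Finset.Icc 1 N) ×ˢ (Finset.Icc 1 N) ×ˢ (Finset.Icc 1 N),
      (qq x : ℝ) * B (qq x) / ((x.1 : ℝ) * x.2.1) * (((x.1 : ℝ) * x.2.1) ^ κ * x.2.2)⁻¹ = F (φ x) := by
    intro x hx
    obtain ⟨h1, h2, h3, hg, e1, e2, l1, l2, l3⟩ := hfacts x hx
    have c1 : (x.1 : ℝ) * x.2.1 = (Nat.gcd (x.1 * x.2.1) x.2.2 : ℝ) * (qq x : ℝ) := by exact_mod_cast e1.symm
    have c2 : (x.2.2 : ℝ) = (Nat.gcd (x.1 * x.2.1) x.2.2 : ℝ) * ((x.2.2 / Nat.gcd (x.1 * x.2.1) x.2.2 : ℕ) : ℝ) := by exact_mod_cast e2.symm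
    simp only [hF, hφ]
    rw [← c2, ← c1]
  rw [Finset.sum_congr rfl hterm, ← Finset.sum_fiberwise_of_maps_to' hmaps F]
  have hfib : ∀ y ∈ box, ∑ i ∈ ((Finset.Icc 1 N) ×ˢ (Finset.Icc 1 N) ×ˢ (Finset.Icc 1 N)).filter (fun x => φ x = y), F y
      ≤ D * ((y.1 : ℝ)⁻¹ * (B y.2.1 * (y.2.1 : ℝ) ^ (-κ)) * (y.2.2 : ℝ)⁻¹) := by
    intro y hy
    rw [hbox, Finset.mem_product, Finset.mem_product, Finset.mem_Icc, Finset.mem_Icc, Finset.mem_Icc] at hy
    obtain ⟨⟨g1, g2⟩, ⟨q1, q2⟩, ⟨k1, k2⟩⟩ := hy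
    have hD0 : 0 ≤ D := le_trans (Nat.cast_nonneg _) (hD 1 one_ne_zero (by
      have : 1 ≤ N := g1.trans g2
      exact Nat.one_le_pow _ _ this))
    have gR : (1 : ℝ) ≤ y.1 := by exact_mod_cast g1
    have qR : (1 : ℝ) ≤ y.2.1 := by exact_mod_cast q1
    have kR : (1 : ℝ) ≤ y.2.2 := by exact_mod_cast k1
    have hF0 : 0 ≤ F y := by
      simp only [hF]
      have := hB0 y.2.1
      positivity
    have hFle : F y ≤ (y.1 : ℝ)⁻¹ * (B y.2.1 * (y.2.1 : ℝ) ^ (-κ)) * (y.2.2 : ℝ)⁻¹ := by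
      simp only [hF]
      have hgpos : (0 : ℝ) < y.1 := by linarith
      have hqpos : (0 : ℝ) < y.2.1 := by linarith
      have hkpos : (0 : ℝ) < y.2.2 := by linarith
      have e : (y.2.1 : ℝ) * B y.2.1 / ((y.1 : ℝ) * y.2.1) * (((y.1 : ℝ) * y.2.1) ^ κ * ((y.1 : ℝ) * y.2.2))⁻¹
          = (y.1 : ℝ)⁻¹ * (B y.2.1 * (y.2.1 : ℝ) ^ (-κ)) * (y.2.2 : ℝ)⁻¹ * ((y.1 : ℝ) ^ (-κ) * (y.1 : ℝ)⁻¹) := by
        rw [Real.mul_rpow hgpos.le hqpos.le, Real.rpow_neg hgpos.le, Real.rpow_neg hqpos.le]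
        have : 0 < (y.1 : ℝ) ^ κ := Real.rpow_pos_of_pos hgpos _
        have : 0 < (y.2.1 : ℝ) ^ κ := Real.rpow_pos_of_pos hqpos _
        field_simp
      rw [e]
      have hle : (y.1 : ℝ) ^ (-κ) * (y.1 : ℝ)⁻¹ ≤ 1 := by
        have a1 : (y.1 : ℝ) ^ (-κ) ≤ 1 := Real.rpow_le_one_of_one_le_of_nonpos gR (by linarith)
        have a2 : (y.1 : ℝ)⁻¹ ≤ 1 := inv_le_one_of_one_le₀ gR
        have a3 : 0 ≤ (y.1 : ℝ)⁻¹ := by positivity
        nlinarith [Real.rpow_nonneg hgpos.le (-κ)]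
      have hnn : 0 ≤ (y.1 : ℝ)⁻¹ * (B y.2.1 * (y.2.1 : ℝ) ^ (-κ)) * (y.2.2 : ℝ)⁻¹ := by
        have := hB0 y.2.1
        positivity
      calc _ ≤ (y.1 : ℝ)⁻¹ * (B y.2.1 * (y.2.1 : ℝ) ^ (-κ)) * (y.2.2 : ℝ)⁻¹ * 1 := mul_le_mul_of_nonneg_left hle hnn
        _ = _ := mul_one _
    rw [Finset.sum_const, nsmul_eq_mul]
    rcases (((Finset.Icc 1 N) ×ˢ (Finset.Icc 1 N) ×ˢ (Finset.Icc 1 N)).filter (fun x => φ x = y)).eq_empty_or_nonempty with hE | ⟨x0, hx0⟩
    · rw [hE, Finset.card_empty, Nat.cast_zero, zero_mul]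
      have := hB0 y.2.1
      positivity
    · rw [Finset.mem_filter] at hx0
      obtain ⟨h1, h2, h3, hg, e1, e2, l1, l2, l3⟩ := hfacts x0 hx0.1
      have hy1 : Nat.gcd (x0.1 * x0.2.1) x0.2.2 = y.1 := congrArg Prod.fst hx0.2
      have hy2 : qq x0 = y.2.1 := congrArg (fun z => z.2.1) hx0.2
      have hgq : y.1 * y.2.1 ≤ N ^ 2 := by
        rw [← hy1, ← hy2, e1]
        calc x0.1 * x0.2.1 ≤ N * N := Nat.mul_le_mul l1 l2
          _ = N ^ 2 := by ring
      have hcard : (((Finset.Icc 1 N) ×ˢ (Finset.Icc 1 N) ×ˢ (Finset.Icc 1 N)).filter (fun x => φ x = y)).card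
          ≤ (y.1 * y.2.1).divisors.card := by
        apply Finset.card_le_card_of_injOn (fun x => x.1)
        · intro x hx
          rw [Finset.mem_coe, Finset.mem_filter] at hx
          obtain ⟨h1, h2, h3, hg, e1, e2, l1, l2, l3⟩ := hfacts x hx.1
          have hy1 : Nat.gcd (x.1 * x.2.1) x.2.2 = y.1 := congrArg Prod.fst hx.2
          have hy2 : qq x = y.2.1 := congrArg (fun z => z.2.1) hx.2
          rw [Finset.mem_coe, Nat.mem_divisors, ← hy1, ← hy2, e1]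
          exact ⟨Dvd.intro _ rfl, (Nat.mul_pos h1 h2).ne'⟩
        · intro x hx x' hx' hxx
          rw [Finset.mem_coe, Finset.mem_filter] at hx hx'
          obtain ⟨h1, h2, h3, hg, e1, e2, l1, l2, l3⟩ := hfacts x hx.1
          obtain ⟨h1', h2', h3', hg', e1', e2', l1', l2', l3'⟩ := hfacts x' hx'.1
          have a1 : Nat.gcd (x.1 * x.2.1) x.2.2 = y.1 := congrArg Prod.fst hx.2
          have a2 : qq x = y.2.1 := congrArg (fun z => z.2.1) hx.2
          have a3 : x.2.2 / Nat.gcd (x.1 * x.2.1) x.2.2 = y.2.2 := congrArg (fun z => z.2.2) hx.2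
          have b1 : Nat.gcd (x'.1 * x'.2.1) x'.2.2 = y.1 := congrArg Prod.fst hx'.2
          have b2 : qq x' = y.2.1 := congrArg (fun z => z.2.1) hx'.2
          have b3 : x'.2.2 / Nat.gcd (x'.1 * x'.2.1) x'.2.2 = y.2.2 := congrArg (fun z => z.2.2) hx'.2
          rw [a3, a1] at e2
          rw [b3, b1] at e2'
          rw [a1, a2] at e1
          rw [b1, b2] at e1'
          simp only at hxx
          have c1 : x.2.1 = x'.2.1 := by
            rw [e1, hxx] at e1'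
            exact Nat.eq_of_mul_eq_mul_left h1' e1'
          have c2 : x.2.2 = x'.2.2 := e2.symm.trans e2'
          ext
          · exact hxx
          · exact c1
          · exact c2
      have hDc : ((y.1 * y.2.1).divisors.card : ℝ) ≤ D := hD _ (Nat.mul_pos g1 q1).ne' hgq
      calc _ ≤ D * F y := by
            apply mul_le_mul_of_nonneg_right _ hF0
            exact le_trans (by exact_mod_cast hcard) hDc
        _ ≤ _ := mul_le_mul_of_nonneg_left hFle hD0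
  refine (Finset.sum_le_sum hfib).trans (le_of_eq ?_)
  rw [← Finset.mul_sum]
  congr 1
  rw [hbox, Finset.sum_product]
  simp_rw [Finset.sum_product]
  simp_rw [← Finset.mul_sum, ← Finset.sum_mul]
  simp_rw [← Finset.mul_sum]
  rw [← Finset.sum_mul]

/-- **F2.** -/
theorem err_sum {κ : ℝ} (hκ : 1 ≤ κ) {G : ℝ × ℝ × ℝ → ℝ} (hG : TF κ G) {B : ℕ → ℝ}
    (hB0 : ∀ q, 0 ≤ B q)
    (hB : ∀ ε : ℝ, 0 < ε → ∃ C : ℝ, ∀ Q : ℕ, ∑ q ∈ Finset.Icc 1 Q, B q * (q : ℝ) ^ (-κ) ≤ C * (Q : ℝ) ^ ε) :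
    ∃ η : ℝ, 0 < η ∧ ∀ᶠ T : ℝ in atTop,
      ∑ x ∈ tri T, |cf G T x| / ((x.1 : ℝ) * x.2.1) * (1 + qq x * B (qq x)) ≤ T ^ (1 - η) := by
  -- bound of G
  obtain ⟨M, hM⟩ := hG.hcs.exists_bound_of_continuous hG.cont
  have hM0 : 0 ≤ M := (norm_nonneg _).trans (hM (0, 0, 0))
  -- margin
  obtain ⟨ε₀, hε₀, hmar⟩ : ∃ ε₀ : ℝ, 0 < ε₀ ∧ ∀ p : ℝ × ℝ × ℝ, G p ≠ 0 → κ * (p.1 + p.2.1) + p.2.2 ≤ 1 - ε₀ := by
    rcases (tsupport G).eq_empty_or_nonempty with hE | hN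
    · refine ⟨1, one_pos, fun p hp => ?_⟩
      have : p ∈ tsupport G := subset_tsupport G hp
      rw [hE] at this
      exact absurd this (Set.notMem_empty p)
    · obtain ⟨p0, hp0, hmax⟩ := hG.hcs.isCompact.exists_isMaxOn hN
        (f := fun p : ℝ × ℝ × ℝ => κ * (p.1 + p.2.1) + p.2.2) (by fun_prop)
      have h1 : κ * (p0.1 + p0.2.1) + p0.2.2 < 1 := (hG.supp hp0).2.2.2.1
      refine ⟨1 - (κ * (p0.1 + p0.2.1) + p0.2.2), by linarith, fun p hp => ?_⟩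
      have := hmax (subset_tsupport G hp)
      simp only [Set.mem_ofPred_eq] at this
      linarith
  obtain ⟨C1, hC1, hd⟩ := KlWeil.card_divisors_le_rpow (ε₀ / 32) (by positivity)
  obtain ⟨C2, hC2⟩ := hB (ε₀ / 32) (by positivity)
  obtain ⟨C3, hC30, hC3⟩ := es_log_pow (ε₀ / 8) (by positivity)
  have hC20 : 0 ≤ C2 := by
    have := hC2 1
    simp at this
    exact (hB0 1).trans this
  -- final constant
  set C4 := M * (C3 + C1 * C2 * C3) with hC4
  have hev : ∀ᶠ T : ℝ in atTop, C4 ≤ T ^ (ε₀ / 4) := (tendsto_rpow_atTop (by positivity)).eventually_ge_atTop C4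
  refine ⟨ε₀ / 2, by positivity, ?_⟩
  filter_upwards [hev, eventually_gt_atTop (1 : ℝ)] with T hT4 hT1
  have hT0 : 0 < T := by linarith
  have hL : 0 < Real.log T := Real.log_pos hT1
  set N := ⌊T⌋₊ with hN
  have hNT : (N : ℝ) ≤ T := Nat.floor_le hT0.le
  have hN1 : 1 ≤ N := Nat.le_floor (by exact_mod_cast hT1.le)
  have hlogN : ∑ h ∈ Finset.Icc 1 N, (h : ℝ)⁻¹ ≤ 1 + Real.log (T + 1) := by
    refine (KlWeil.harm_le N).trans ?_
    have : Real.log (N + 1) ≤ Real.log (T + 1) := Real.log_le_log (by positivity) (by linarith)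
    linarith
  set Lg := 1 + Real.log (T + 1) with hLg
  have hLg1 : 1 ≤ Lg := by
    have : 0 ≤ Real.log (T + 1) := Real.log_nonneg (by linarith)
    linarith
  have hh0 : 0 ≤ ∑ h ∈ Finset.Icc 1 N, (h : ℝ)⁻¹ := Finset.sum_nonneg fun h _ => by positivity
  -- pointwise bound
  have hpt : ∀ x ∈ tri T, |cf G T x| / ((x.1 : ℝ) * x.2.1) * (1 + qq x * B (qq x))
      ≤ M * T ^ (1 - ε₀) * (((x.1 : ℝ) * x.2.1)⁻¹ * (x.2.2 : ℝ)⁻¹
        + (qq x : ℝ) * B (qq x) / ((x.1 : ℝ) * x.2.1) * (((x.1 : ℝ) * x.2.1) ^ κ * x.2.2)⁻¹) := by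
    intro x hx
    unfold tri at hx
    rw [Finset.mem_product, Finset.mem_product, Finset.mem_Icc, Finset.mem_Icc, Finset.mem_Icc] at hx
    obtain ⟨⟨h1, -⟩, ⟨h2, -⟩, ⟨h3, -⟩⟩ := hx
    have r1 : (1 : ℝ) ≤ x.1 := by exact_mod_cast h1
    have r2 : (1 : ℝ) ≤ x.2.1 := by exact_mod_cast h2
    have r3 : (1 : ℝ) ≤ x.2.2 := by exact_mod_cast h3
    have hBq := hB0 (qq x)
    have p1 : (0 : ℝ) < x.1 := by linarith
    have p2 : (0 : ℝ) < x.2.1 := by linarith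
    have p3 : (0 : ℝ) < x.2.2 := by linarith
    by_cases hcf : cf G T x = 0
    · rw [hcf, abs_zero, zero_div, zero_mul]
      have : 0 ≤ T ^ (1 - ε₀) := Real.rpow_nonneg hT0.le _
      positivity
    · have hm := hmar _ hcf
      simp only at hm
      have hMx : |cf G T x| ≤ M := hM _
      -- (m1 m2)^κ n ≤ T^(1-ε₀)
      have hm2 : κ * (Real.log x.1 + Real.log x.2.1) + Real.log x.2.2 ≤ (1 - ε₀) * Real.log T := by
        have : κ * (Real.log x.1 / Real.log T + Real.log x.2.1 / Real.log T) + Real.log x.2.2 / Real.log T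
            = (κ * (Real.log x.1 + Real.log x.2.1) + Real.log x.2.2) / Real.log T := by ring
        rw [this, div_le_iff₀ hL] at hm
        exact hm
      have hm3 : ((x.1 : ℝ) * x.2.1) ^ κ * x.2.2 ≤ T ^ (1 - ε₀) := by
        rw [← Real.exp_log (show 0 < ((x.1 : ℝ) * x.2.1) ^ κ * x.2.2 by positivity),
          Real.rpow_def_of_pos hT0, Real.exp_le_exp,
          Real.log_mul (by positivity) (by positivity), Real.log_rpow (by positivity),
          Real.log_mul p1.ne' p2.ne']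
        linarith
      have hmk : (1 : ℝ) ≤ ((x.1 : ℝ) * x.2.1) ^ κ := Real.one_le_rpow (by nlinarith) (by linarith)
      have hn : (x.2.2 : ℝ) ≤ T ^ (1 - ε₀) := le_trans (by nlinarith) hm3
      have hTp : 0 < T ^ (1 - ε₀) := Real.rpow_pos_of_pos hT0 _
      have g1 : (1 : ℝ) ≤ T ^ (1 - ε₀) * (x.2.2 : ℝ)⁻¹ := by
        rw [← div_eq_mul_inv, one_le_div₀ p3]; exact hn
      have g2 : (1 : ℝ) ≤ T ^ (1 - ε₀) * (((x.1 : ℝ) * x.2.1) ^ κ * x.2.2)⁻¹ := by
        rw [← div_eq_mul_inv, one_le_div₀ (by positivity)]; exact hm3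
      have hA : 0 ≤ ((x.1 : ℝ) * x.2.1)⁻¹ := by positivity
      have hBb : 0 ≤ (qq x : ℝ) * B (qq x) / ((x.1 : ℝ) * x.2.1) := by positivity
      calc |cf G T x| / ((x.1 : ℝ) * x.2.1) * (1 + qq x * B (qq x))
          ≤ M / ((x.1 : ℝ) * x.2.1) * (1 + qq x * B (qq x)) := by gcongr
        _ = M * (((x.1 : ℝ) * x.2.1)⁻¹ * 1 + (qq x : ℝ) * B (qq x) / ((x.1 : ℝ) * x.2.1) * 1) := by
            field_simp
        _ ≤ M * (((x.1 : ℝ) * x.2.1)⁻¹ * (T ^ (1 - ε₀) * (x.2.2 : ℝ)⁻¹)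
            + (qq x : ℝ) * B (qq x) / ((x.1 : ℝ) * x.2.1) * (T ^ (1 - ε₀) * (((x.1 : ℝ) * x.2.1) ^ κ * x.2.2)⁻¹)) := by
            gcongr
        _ = _ := by ring
  refine (Finset.sum_le_sum hpt).trans ?_
  rw [← Finset.mul_sum, Finset.sum_add_distrib]
  have hsum1 : ∑ x ∈ tri T, ((x.1 : ℝ) * x.2.1)⁻¹ * (x.2.2 : ℝ)⁻¹ ≤ Lg ^ 3 := by
    have : ∑ x ∈ tri T, ((x.1 : ℝ) * x.2.1)⁻¹ * (x.2.2 : ℝ)⁻¹
        = (∑ h ∈ Finset.Icc 1 N, (h : ℝ)⁻¹) * (∑ h ∈ Finset.Icc 1 N, (h : ℝ)⁻¹) * (∑ h ∈ Finset.Icc 1 N, (h : ℝ)⁻¹) := by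
      rw [← es_prod3]
      unfold tri
      refine Finset.sum_congr rfl fun x _ => ?_
      rw [mul_inv]
    rw [this]
    calc _ = (∑ h ∈ Finset.Icc 1 N, (h : ℝ)⁻¹) ^ 3 := by ring
      _ ≤ Lg ^ 3 := pow_le_pow_left₀ hh0 hlogN 3
  have hD : ∀ m : ℕ, m ≠ 0 → m ≤ N ^ 2 → (m.divisors.card : ℝ) ≤ C1 * T ^ (ε₀ / 16) := by
    intro m hm hmN
    refine (hd m hm).trans ?_
    apply mul_le_mul_of_nonneg_left _ (by linarith)
    have h1 : (m : ℝ) ≤ T ^ (2 : ℝ) := by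
      have h2 : (m : ℝ) ≤ (N : ℝ) ^ 2 := by exact_mod_cast hmN
      refine h2.trans ?_
      rw [Real.rpow_two]
      exact pow_le_pow_left₀ (Nat.cast_nonneg _) hNT 2
    calc (m : ℝ) ^ (ε₀ / 32) ≤ (T ^ (2 : ℝ)) ^ (ε₀ / 32) := Real.rpow_le_rpow (Nat.cast_nonneg _) h1 (by positivity)
      _ = T ^ (ε₀ / 16) := by rw [← Real.rpow_mul hT0.le]; congr 1; ring
  have hsum2 := es_triple hB0 hκ N _ hD
  have hBsum : ∑ q ∈ Finset.Icc 1 (N ^ 2), B q * (q : ℝ) ^ (-κ) ≤ C2 * T ^ (ε₀ / 16) := by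
    refine (hC2 (N ^ 2)).trans ?_
    apply mul_le_mul_of_nonneg_left _ hC20
    have h1 : ((N ^ 2 : ℕ) : ℝ) ≤ T ^ (2 : ℝ) := by
      push_cast
      rw [Real.rpow_two]
      exact pow_le_pow_left₀ (Nat.cast_nonneg _) hNT 2
    calc ((N ^ 2 : ℕ) : ℝ) ^ (ε₀ / 32) ≤ (T ^ (2 : ℝ)) ^ (ε₀ / 32) := Real.rpow_le_rpow (Nat.cast_nonneg _) h1 (by positivity)
      _ = T ^ (ε₀ / 16) := by rw [← Real.rpow_mul hT0.le]; congr 1; ring
  have hBnn : 0 ≤ ∑ q ∈ Finset.Icc 1 (N ^ 2), B q * (q : ℝ) ^ (-κ) :=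
    Finset.sum_nonneg fun q _ => mul_nonneg (hB0 q) (Real.rpow_nonneg (Nat.cast_nonneg _) _)
  have hsum2' : ∑ x ∈ tri T, (qq x : ℝ) * B (qq x) / ((x.1 : ℝ) * x.2.1) * (((x.1 : ℝ) * x.2.1) ^ κ * x.2.2)⁻¹
      ≤ C1 * C2 * T ^ (ε₀ / 8) * Lg ^ 3 := by
    refine hsum2.trans ?_
    have hC1' : 0 ≤ C1 := by linarith
    have hTa : 0 ≤ T ^ (ε₀ / 16) := Real.rpow_nonneg hT0.le _
    calc _ ≤ C1 * T ^ (ε₀ / 16) * (Lg * (C2 * T ^ (ε₀ / 16)) * Lg) := by
          apply mul_le_mul_of_nonneg_left _ (by positivity)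
          apply mul_le_mul (mul_le_mul hlogN hBsum hBnn (by linarith)) hlogN hh0
          positivity
      _ = C1 * C2 * (T ^ (ε₀ / 16) * T ^ (ε₀ / 16)) * Lg ^ 2 := by ring
      _ = C1 * C2 * T ^ (ε₀ / 8) * Lg ^ 2 := by
          rw [← Real.rpow_add hT0]
          congr 3
          ring
      _ ≤ C1 * C2 * T ^ (ε₀ / 8) * Lg ^ 3 := by
          apply mul_le_mul_of_nonneg_left _ (by positivity)
          exact pow_le_pow_right₀ hLg1 (by norm_num)
  have hTε : 1 ≤ T ^ (ε₀ / 8) := Real.one_le_rpow hT1.le (by positivity)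
  have hLg3 : Lg ^ 3 ≤ C3 * T ^ (ε₀ / 8) := hC3 T hT1.le
  have hTp : 0 < T ^ (1 - ε₀) := Real.rpow_pos_of_pos hT0 _
  calc M * T ^ (1 - ε₀) * (∑ x ∈ tri T, ((x.1 : ℝ) * x.2.1)⁻¹ * (x.2.2 : ℝ)⁻¹
        + ∑ x ∈ tri T, (qq x : ℝ) * B (qq x) / ((x.1 : ℝ) * x.2.1) * (((x.1 : ℝ) * x.2.1) ^ κ * x.2.2)⁻¹)
      ≤ M * T ^ (1 - ε₀) * (T ^ (ε₀ / 8) * Lg ^ 3 + C1 * C2 * T ^ (ε₀ / 8) * Lg ^ 3) := by
        have : Lg ^ 3 ≤ T ^ (ε₀ / 8) * Lg ^ 3 := by
          have : 0 ≤ Lg ^ 3 := by positivity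
          nlinarith
        apply mul_le_mul_of_nonneg_left _ (by positivity)
        linarith
    _ = M * (1 + C1 * C2) * (T ^ (1 - ε₀) * T ^ (ε₀ / 8)) * Lg ^ 3 := by ring
    _ ≤ M * (1 + C1 * C2) * (T ^ (1 - ε₀) * T ^ (ε₀ / 8)) * (C3 * T ^ (ε₀ / 8)) := by
        have hC1' : 0 ≤ C1 := by linarith
        gcongr
    _ = C4 * (T ^ (1 - ε₀) * T ^ (ε₀ / 8) * T ^ (ε₀ / 8)) := by rw [hC4]; ring
    _ ≤ T ^ (ε₀ / 4) * (T ^ (1 - ε₀) * T ^ (ε₀ / 8) * T ^ (ε₀ / 8)) := by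
        apply mul_le_mul_of_nonneg_right hT4 (by positivity)
    _ = T ^ (1 - ε₀ / 2) := by
        rw [← Real.rpow_add hT0, ← Real.rpow_add hT0, ← Real.rpow_add hT0]
        congr 1
        ring

end S6

end

section

namespace SG
open Complex MeasureTheory Filter Topology Set
open scoped Real ComplexConjugate

private theorem B2a_co_add (i : Bool) (u v : V2) : co i (u + v) = co i u + co i v := by
  unfold co; split_ifs <;> simp

private theorem B2a_co_smul (i : Bool) (r : ℝ) (v : V2) : co i (r • v) = r * co i v := by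
  unfold co; split_ifs <;> simp

/-- a profile vanishes where the coordinate vanishes -/
private theorem B2a_zero {i : Bool} {f : ℝ → V2 → ℝ → ℂ} (hf : Per i f) (x : ℝ) (v : V2) (D : ℝ)
    (hv : co i v = 0) : f x v D = 0 := by
  by_contra hne
  obtain ⟨R, r, hr, h⟩ := hf.supp
  have := (h x v D hne).2.1
  rw [hv, abs_zero] at this
  linarith

/-- the substitution `(u, v) ↦ (v, c u + h d v)` -/
private theorem B2a_eq {h : ℕ} (hh : 0 < h) {M : SLZ} {c d : ℤ} (hc : c ≠ 0) (h1 : M.1 1 0 = c)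
    (h2 : M.1 1 1 = h * d) {i j : Bool} {f f' : ℝ → V2 → ℝ → ℂ} (hf : Per i f) (hf' : Per j f')
    (g : X4) :
    poin h i f g * conj (poin 1 j f' (act M g)) =
      cell h c i j f f' (M.1 0 0) d (g.2, (c : ℝ) • g.1 + ((h : ℝ) * d) • g.2) := by
  obtain ⟨u, v⟩ := g
  have hcR : (c : ℝ) ≠ 0 := by exact_mod_cast hc
  have hhR : (h : ℝ) ≠ 0 := by exact_mod_cast hh.ne'
  have hdet : ((M.1 0 0 : ℤ) : ℝ) * ((h : ℝ) * d) - ((M.1 0 1 : ℤ) : ℝ) * c = 1 := by
    have h3 : M.1.det = 1 := M.2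
    rw [Matrix.det_fin_two, h1, h2] at h3
    exact_mod_cast h3
  have hact : act M (u, v) = (((M.1 0 0 : ℤ) : ℝ) • u + ((M.1 0 1 : ℤ) : ℝ) • v,
      (c : ℝ) • u + ((h : ℝ) * d) • v) := by
    simp only [act, h1, h2]
    push_cast
    rfl
  have hDt : Dt (u, v) = wd ((c : ℝ) • u + ((h : ℝ) * d) • v) v / c := by
    simp only [Dt, wd, Prod.fst_add, Prod.snd_add, Prod.smul_fst, Prod.smul_snd, smul_eq_mul]
    field_simp
    ring
  unfold cell
  congr 1
  · unfold poin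
    by_cases hv : co i v = 0
    · simp only [B2a_zero hf _ _ _ hv, ite_self]
    · have e1 : co i ((c : ℝ) • u + ((h : ℝ) * d) • v) / (co i v * h * c) - d / c =
          co i u / co i v / h := by
        rw [B2a_co_add, B2a_co_smul, B2a_co_smul]
        field_simp
        ring
      simp only [e1, ← hDt]
  · congr 1
    rw [hact]
    unfold poin
    set w : V2 := (c : ℝ) • u + ((h : ℝ) * d) • v with hw
    by_cases hv : co j w = 0
    · simp only [B2a_zero hf' _ _ _ hv, ite_self]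
    · have e1 : co j (((M.1 0 0 : ℤ) : ℝ) • u + ((M.1 0 1 : ℤ) : ℝ) • v) / co j w / 1 =
          ((M.1 0 0 : ℤ) : ℝ) / c - co j v / (c * co j w) := by
        have e2 : co j w = c * co j u + (h * d) * co j v := by
          rw [hw, B2a_co_add, B2a_co_smul, B2a_co_smul]
        rw [B2a_co_add, B2a_co_smul, B2a_co_smul]
        field_simp
        rw [e2]
        linear_combination (-co j v) * hdet
      have e3 : Dt (((M.1 0 0 : ℤ) : ℝ) • u + ((M.1 0 1 : ℤ) : ℝ) • v, w) = wd w v / c := by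
        simp only [hw, Dt, wd, Prod.fst_add, Prod.snd_add, Prod.smul_fst, Prod.smul_snd,
          smul_eq_mul]
        field_simp
        linear_combination (c * (u.1 * v.2 - u.2 * v.1)) * hdet
      simp only [e1, e3]

private theorem B2a_mp {c e : ℝ} (hc : c ≠ 0) :
    MeasurePreserving (fun p : V2 × V2 => (p.1, c • p.2 + e • p.1)) (volume.prod volume)
      ((volume : Measure V2).prod (ENNReal.ofReal (|(c ^ 2)⁻¹|) • (volume : Measure V2))) := by
  have hm : Measurable (Function.uncurry fun v u : V2 => c • u + e • v) := by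
    unfold Function.uncurry
    fun_prop
  refine (MeasurePreserving.id volume).skew_product (g := fun v u : V2 => c • u + e • v) hm ?_
  refine Eventually.of_forall fun v => ?_
  have h1 : (fun u : V2 => c • u + e • v) = (fun w : V2 => w + e • v) ∘ (fun u : V2 => c • u) := rfl
  have h2 := Measure.map_addHaar_smul (volume : Measure V2) hc
  have h3 : Module.finrank ℝ V2 = 2 := by simp
  rw [h3] at h2
  rw [h1, ← Measure.map_map (by fun_prop) (by fun_prop), h2, Measure.map_smul,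
    map_add_right_eq_self]

private theorem B2a_int {c e : ℝ} (hc : c ≠ 0) (G : V2 × V2 → ℂ) :
    ∫ g : X4, G (g.2, c • g.1 + e • g.2) = ((c : ℂ) ^ 2)⁻¹ * ∫ p : V2 × V2, G p := by
  have hemb : MeasurableEmbedding (fun p : V2 × V2 => (p.1, c • p.2 + e • p.1)) := by
    refine Measurable.measurableEmbedding (by fun_prop) ?_
    rintro ⟨a, b⟩ ⟨a', b'⟩ hab
    simp only [Prod.mk.injEq] at hab
    obtain ⟨h1, h2⟩ := hab
    subst h1
    have h3 : c • b = c • b' := by simpa using h2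
    have h4 : b = b' := by
      have := congrArg (fun x => c⁻¹ • x) h3
      simpa [smul_smul, inv_mul_cancel₀ hc] using this
    rw [h4]
  have h1 : ∫ g : X4, G (g.2, c • g.1 + e • g.2) =
      ∫ p : V2 × V2, G (p.1, c • p.2 + e • p.1) ∂((volume : Measure V2).prod volume) := by
    rw [← integral_prod_swap]
    rfl
  rw [h1, (B2a_mp hc).integral_comp hemb G, Measure.prod_smul_right, integral_smul_measure]
  have h4 : (ENNReal.ofReal (|(c ^ 2)⁻¹|)).toReal = (c ^ 2)⁻¹ := by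
    rw [ENNReal.toReal_ofReal (abs_nonneg _), abs_of_nonneg (by positivity)]
  rw [h4, Complex.real_smul]
  push_cast
  rfl

/-- **B2a. One matrix.** For fixed `v` substitute `v'' = c u + h d v`, `du = dv''/c²` (scaling and translation
in `ℝ²`, Fubini over `v`); `Dt (u,v) = (v'' ∧ v)/c`; `u_i/v_i/h = v''_i/(v_i h c) - d/c` (if `v_i = 0` then
`f = 0` on both sides by `supp`), `M g = (u', v'')` with `u'_j/v''_j = a/c - v_j/(c v''_j)` because
`v = -c u' + a v''` (if `v''_j = 0` both sides vanish), and `Dt (M g) = Dt g`. -/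
theorem gram_cell {h : ℕ} (hh : 0 < h) {M : SLZ} {c d : ℤ} (hc : c ≠ 0) (h1 : M.1 1 0 = c)
    (h2 : M.1 1 1 = h * d) {i j : Bool} {f f' : ℝ → V2 → ℝ → ℂ} (hf : Per i f) (hf' : Per j f') :
    ∫ g : X4, poin h i f g * conj (poin 1 j f' (act M g)) =
      ((c : ℂ) ^ 2)⁻¹ * ∫ p : V2 × V2, cell h c i j f f' (M.1 0 0) d p := by
  simp only [B2a_eq hh hc h1 h2 hf hf']
  have hcR : (c : ℝ) ≠ 0 := by exact_mod_cast hc
  have := B2a_int (e := (h : ℝ) * d) hcR (fun p => cell h c i j f f' (M.1 0 0) d p)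
  rw [this]
  push_cast
  rfl

/-- and the integrand of `gram_cell` is the transported one: `cell` vanishes identically if
`poin h i f g * poin 1 j f' (act M g) = 0` for all `g`. -/
theorem cell_zero {h : ℕ} (hh : 0 < h) {M : SLZ} {c d : ℤ} (hc : c ≠ 0) (h1 : M.1 1 0 = c)
    (h2 : M.1 1 1 = h * d) {i j : Bool} {f f' : ℝ → V2 → ℝ → ℂ} (hf : Per i f) (hf' : Per j f')
    (h0 : ∀ g : X4, ¬ (poin h i f g ≠ 0 ∧ poin 1 j f' (act M g) ≠ 0)) (p : V2 × V2) :
    cell h c i j f f' (M.1 0 0) d p = 0 := by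
  obtain ⟨v, w⟩ := p
  have hcR : (c : ℝ) ≠ 0 := by exact_mod_cast hc
  have e1 := B2a_eq hh hc h1 h2 hf hf' ((c : ℝ)⁻¹ • (w - ((h : ℝ) * d) • v), v)
  have e2 : (c : ℝ) • (c : ℝ)⁻¹ • (w - ((h : ℝ) * d) • v) + ((h : ℝ) * d) • v = w := by
    rw [smul_smul, mul_inv_cancel₀ hcR, one_smul, sub_add_cancel]
  simp only [e2] at e1
  rw [← e1]
  by_contra hne
  rw [mul_eq_zero, not_or] at hne
  refine h0 _ ⟨hne.1, fun hz => hne.2 ?_⟩
  rw [hz, map_zero]

end SG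

end

section

namespace SG
open Complex MeasureTheory Filter Topology Set
open scoped Real ComplexConjugate

theorem B2b_per {i : Bool} {f : ℝ → V2 → ℝ → ℂ} (hf : Per i f) (x : ℝ) (n : ℤ) (v : V2) (D : ℝ) :
    f (x + n) v D = f x v D := by
  have hp : Function.Periodic (fun x => f x v D) 1 := fun x => hf.per x v D
  have h1 := hp.int_mul n x
  simpa using h1

theorem B2b_zmod {c : ℤ} {x : ℤ} : ((x : ℤ) : ZMod c.natAbs) = 0 ↔ c ∣ x := by
  rw [ZMod.intCast_zmod_eq_zero_iff_dvd, Int.natAbs_dvd]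

theorem B2b_unit {h : ℕ} {c : ℤ} {d : ℤ} (hco : IsCoprime (h : ℤ) c) (hd : IsCoprime d c) :
    IsUnit (((h * d : ℤ)) : ZMod c.natAbs) := by
  have h1 : IsCoprime ((h : ℤ) * d) c := hco.mul_left hd
  obtain ⟨a, b, hab⟩ := h1
  refine IsUnit.of_mul_eq_one ((a : ℤ) : ZMod c.natAbs) ?_
  have h2 : (((a * (h * d) + b * c : ℤ)) : ZMod c.natAbs) = 1 := by
    rw [hab]; simp
  have h3 : ((c : ℤ) : ZMod c.natAbs) = 0 := B2b_zmod.2 dvd_rfl
  push_cast at h2 ⊢
  rw [h3, mul_zero, add_zero] at h2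
  rw [mul_comm]
  exact h2

/-- **B2b. Tiling.** For fixed `p`, over all `(a,d) ∈ ℤ²` with `a h d ≡ 1 mod c`: write `d = d₀ + l c`,
`d₀ ∈ range |c|` coprime to `c`, `a = a₀ + k c`, `a₀ = iv |c| h d₀`; `1_{[0,1)}(y - l)` is nonzero for exactly
one `l` and `f (y - l) = f y` by periodicity; the same for `a` (with `+ k`). -/
theorem tile {h : ℕ} (hh : 0 < h) {c : ℤ} (hc : c ≠ 0) (hco : IsCoprime (h : ℤ) c) {i j : Bool}
    {f f' : ℝ → V2 → ℝ → ℂ} (hf : Per i f) (hf' : Per j f') (p : V2 × V2) :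
    {q : ℤ × ℤ | c ∣ q.1 * h * q.2 - 1 ∧ cell h c i j f f' q.1 q.2 p ≠ 0}.Finite ∧
    (∑' q : ℤ × ℤ, if c ∣ q.1 * h * q.2 - 1 then cell h c i j f f' q.1 q.2 p else 0) =
      ∑ d ∈ (Finset.range c.natAbs).filter (fun d => Nat.Coprime d c.natAbs),
        f (co i p.2 / (co i p.1 * h * c) - d / c) p.1 (wd p.2 p.1 / c) *
          conj (f' (iv c.natAbs h d / c - co j p.1 / (c * co j p.2)) p.2 (wd p.2 p.1 / c)) := by
  classical
  set y : ℝ := co i p.2 / (co i p.1 * h * c) with hy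
  set z : ℝ := co j p.1 / (c * co j p.2) with hz
  have hcR : (c : ℝ) ≠ 0 := by exact_mod_cast hc
  have hcn : 0 < c.natAbs := Int.natAbs_pos.2 hc
  set S : Finset ℕ := (Finset.range c.natAbs).filter (fun d => Nat.Coprime d c.natAbs) with hS
  set l : ℕ → ℤ := fun d => ⌊y - d / c⌋ with hl
  set k : ℕ → ℤ := fun d => -⌊(iv c.natAbs h d : ℝ) / c - z⌋ with hk
  set Φ : ℕ → ℤ × ℤ := fun d => ((iv c.natAbs h d : ℤ) + c * k d, (d : ℤ) + c * l d) with hΦ
  have hcop : ∀ d ∈ S, IsCoprime ((d : ℕ) : ℤ) c := by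
    intro d hd
    rw [hS, Finset.mem_filter] at hd
    rw [Int.isCoprime_iff_gcd_eq_one, Int.gcd_def, Int.natAbs_natCast]
    exact hd.2
  -- the points with nonzero cell
  have key : ∀ q : ℤ × ℤ, c ∣ q.1 * h * q.2 - 1 → cell h c i j f f' q.1 q.2 p ≠ 0 →
      q ∈ S.image Φ := by
    rintro ⟨a, d⟩ hdiv hne
    simp only at hdiv hne
    unfold cell at hne
    have h1 := left_ne_zero_of_mul hne
    have h2 := right_ne_zero_of_mul hne
    have h1' : 0 ≤ y - d / c ∧ y - d / c < 1 := by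
      by_contra hcon
      exact h1 (if_neg hcon)
    have h2' : 0 ≤ a / c - z ∧ a / c - z < 1 := by
      by_contra hcon
      apply h2
      rw [if_neg hcon, map_zero]
    have hdc : IsCoprime d c := by
      obtain ⟨t, ht⟩ := hdiv
      exact ⟨a * h, -t, by linear_combination ht⟩
    -- residue of d
    obtain ⟨d0, hd0⟩ : ∃ d0 : ℕ, (d0 : ℤ) = d % c.natAbs :=
      ⟨(d % c.natAbs).toNat, Int.toNat_of_nonneg (Int.emod_nonneg _ (by exact_mod_cast hcn.ne'))⟩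
    have hd0lt : d0 < c.natAbs := by
      have := Int.emod_lt_of_pos d (by exact_mod_cast hcn : (0 : ℤ) < c.natAbs)
      rw [← hd0] at this
      exact_mod_cast this
    have hdm : c ∣ d - d0 := by
      rw [hd0]
      have : (c.natAbs : ℤ) ∣ d - d % c.natAbs := Int.dvd_self_sub_emod
      exact Int.natAbs_dvd.1 this
    obtain ⟨m, hm⟩ := hdm
    have hdm' : d = d0 + c * m := by linear_combination hm
    have hd0c : IsCoprime (d0 : ℤ) c := by
      obtain ⟨u, w, huw⟩ := hdc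
      exact ⟨u, w + u * m, by rw [hdm'] at huw; linear_combination huw⟩
    have hd0S : d0 ∈ S := by
      rw [hS, Finset.mem_filter, Finset.mem_range]
      refine ⟨hd0lt, ?_⟩
      have := Int.isCoprime_iff_gcd_eq_one.1 hd0c
      rw [Int.gcd_def, Int.natAbs_natCast] at this
      exact this
    have hml : m = l d0 := by
      have e1 : (d : ℝ) / c = d0 / c + m := by
        rw [hdm']
        push_cast
        field_simp
      rw [e1] at h1'
      rw [hl]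
      symm
      rw [Int.floor_eq_iff]
      constructor <;> linarith [h1'.1, h1'.2]
    -- the inverse
    have hu := B2b_unit hco hd0c
    have hinv : ((a : ℤ) : ZMod c.natAbs) = ((iv c.natAbs h d0 : ℤ) : ZMod c.natAbs) := by
      have e1 : ((a : ℤ) : ZMod c.natAbs) * ((h * d0 : ℤ) : ZMod c.natAbs) = 1 := by
        have e2 : ((a * h * d - 1 : ℤ) : ZMod c.natAbs) = 0 := B2b_zmod.2 hdiv
        have e3 : ((c : ℤ) : ZMod c.natAbs) = 0 := B2b_zmod.2 dvd_rfl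
        rw [hdm'] at e2
        push_cast at e2 ⊢
        rw [e3] at e2
        linear_combination e2
      have e4 : ((iv c.natAbs h d0 : ℤ) : ZMod c.natAbs) = ((h * d0 : ℤ) : ZMod c.natAbs)⁻¹ := by
        have : NeZero c.natAbs := ⟨hcn.ne'⟩
        rw [Int.cast_natCast, iv, ZMod.natCast_zmod_val]
      rw [e4]
      calc ((a : ℤ) : ZMod c.natAbs) = (a : ZMod c.natAbs) *
            (((h * d0 : ℤ) : ZMod c.natAbs) * ((h * d0 : ℤ) : ZMod c.natAbs)⁻¹) := by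
            rw [ZMod.mul_inv_of_unit _ hu, mul_one]
        _ = ((a : ZMod c.natAbs) * ((h * d0 : ℤ) : ZMod c.natAbs)) *
            ((h * d0 : ℤ) : ZMod c.natAbs)⁻¹ := by ring
        _ = _ := by rw [e1, one_mul]
    have hadiv : c ∣ a - (iv c.natAbs h d0 : ℤ) := by
      rw [← B2b_zmod, Int.cast_sub, hinv, sub_self]
    obtain ⟨m', hm'⟩ := hadiv
    have ham' : a = (iv c.natAbs h d0 : ℤ) + c * m' := by linear_combination hm'
    have hmk : m' = k d0 := by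
      have e1 : (a : ℝ) / c = (iv c.natAbs h d0 : ℝ) / c + m' := by
        rw [ham']
        push_cast
        field_simp
      rw [e1] at h2'
      rw [hk]
      have : ⌊(iv c.natAbs h d0 : ℝ) / c - z⌋ = -m' := by
        rw [Int.floor_eq_iff]
        push_cast
        constructor <;> linarith [h2'.1, h2'.2]
      simp only
      rw [this, neg_neg]
    rw [Finset.mem_image]
    refine ⟨d0, hd0S, ?_⟩
    rw [hΦ]
    simp only
    rw [← hml, ← hmk, ← ham', ← hdm']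
  have hinj : Set.InjOn Φ S := by
    intro d1 h1 d2 h2 h12
    rw [Finset.mem_coe, hS, Finset.mem_filter, Finset.mem_range] at h1 h2
    have e1 : (d1 : ℤ) + c * l d1 = d2 + c * l d2 := congrArg Prod.snd h12
    have e2 : c ∣ (d1 : ℤ) - d2 := ⟨l d2 - l d1, by linear_combination e1⟩
    have e3 : (c.natAbs : ℤ) ∣ (d1 : ℤ) - d2 := Int.natAbs_dvd.2 e2
    have e4 : |(d1 : ℤ) - d2| < c.natAbs := by
      rw [abs_lt]
      constructor <;> [have := h2.1; have := h1.1] <;> omega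
    have e5 := Int.eq_zero_of_abs_lt_dvd e3 e4
    omega
  have hval : ∀ d ∈ S, c ∣ (Φ d).1 * h * (Φ d).2 - 1 ∧ cell h c i j f f' (Φ d).1 (Φ d).2 p =
      f (y - d / c) p.1 (wd p.2 p.1 / c) *
          conj (f' (iv c.natAbs h d / c - z) p.2 (wd p.2 p.1 / c)) := by
    intro d hd
    constructor
    · rw [← B2b_zmod]
      have e3 : ((c : ℤ) : ZMod c.natAbs) = 0 := B2b_zmod.2 dvd_rfl
      have hu := B2b_unit hco (hcop d hd)
      have e4 : ((iv c.natAbs h d : ℤ) : ZMod c.natAbs) = ((h * d : ℤ) : ZMod c.natAbs)⁻¹ := by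
        have : NeZero c.natAbs := ⟨hcn.ne'⟩
        rw [Int.cast_natCast, iv, ZMod.natCast_zmod_val]
      have e5 := ZMod.inv_mul_of_unit _ hu
      rw [← e4] at e5
      rw [hΦ]
      push_cast at e5 ⊢
      rw [e3]
      linear_combination e5
    · have e1 : y - (((d : ℤ) + c * l d : ℤ) : ℝ) / c = y - d / c + ((-l d : ℤ) : ℝ) := by
        push_cast
        field_simp
        ring
      have e2 : ((((iv c.natAbs h d : ℤ) + c * k d : ℤ)) : ℝ) / c - z =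
          (iv c.natAbs h d : ℝ) / c - z + ((k d : ℤ) : ℝ) := by
        push_cast
        field_simp
        ring
      have h1 : 0 ≤ y - d / c + ((-l d : ℤ) : ℝ) ∧ y - d / c + ((-l d : ℤ) : ℝ) < 1 := by
        have a1 := Int.floor_le (y - (d : ℝ) / c)
        have a2 := Int.lt_floor_add_one (y - (d : ℝ) / c)
        rw [hl]
        push_cast
        constructor <;> linarith
      have h2 : 0 ≤ (iv c.natAbs h d : ℝ) / c - z + ((k d : ℤ) : ℝ) ∧
          (iv c.natAbs h d : ℝ) / c - z + ((k d : ℤ) : ℝ) < 1 := by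
        have a1 := Int.floor_le ((iv c.natAbs h d : ℝ) / c - z)
        have a2 := Int.lt_floor_add_one ((iv c.natAbs h d : ℝ) / c - z)
        rw [hk]
        push_cast
        constructor <;> linarith
      unfold cell
      rw [hΦ]
      simp only
      rw [← hy, ← hz, e1, e2, if_pos h1, if_pos h2, B2b_per hf, B2b_per hf']
  refine ⟨(S.image Φ).finite_toSet.subset fun q hq => Finset.mem_coe.2 (key q hq.1 hq.2), ?_⟩
  rw [tsum_eq_sum (s := S.image Φ)]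
  · rw [Finset.sum_image hinj]
    refine Finset.sum_congr rfl fun d hd => ?_
    rw [if_pos (hval d hd).1, (hval d hd).2]
  · intro q hq
    by_cases hdiv : c ∣ q.1 * h * q.2 - 1
    · rw [if_pos hdiv]
      by_contra hne
      exact hq (key q hdiv hne)
    · rw [if_neg hdiv]

end SG

end

section

namespace SG
open Complex MeasureTheory Filter Topology Set
open scoped Real ComplexConjugate

private theorem B2c_int {G : V2 × V2 → ℂ} (hm : Measurable G) {C R : ℝ} (hb : ∀ p, ‖G p‖ ≤ C)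
    (hs : ∀ p, G p ≠ 0 → ‖p‖ ≤ R) : Integrable G := by
  have hsub : Function.support G ⊆ Metric.closedBall (0 : V2 × V2) R := by
    intro p hp
    rw [mem_closedBall_zero_iff]
    exact hs p hp
  rw [← integrableOn_iff_integrable_of_support_subset hsub]
  refine Measure.integrableOn_of_bounded (M := C) ?_ hm.aestronglyMeasurable ?_
  · exact (isCompact_closedBall (0 : V2 × V2) R).measure_lt_top.ne
  · exact Eventually.of_forall hb

private theorem B2c_co (i : Bool) : Measurable (co i) := by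
  cases i
  · exact measurable_fst
  · exact measurable_snd

private theorem B2c_wd : Measurable (fun p : V2 × V2 => wd p.2 p.1) := by
  unfold wd
  fun_prop

private theorem B2c_m1 {h : ℕ} {c : ℤ} {i : Bool} {f : ℝ → V2 → ℝ → ℂ} (hf : Per i f) (α : ℝ) :
    Measurable fun p : V2 × V2 => f (co i p.2 / (co i p.1 * h * c) - α) p.1 (wd p.2 p.1 / c) := by
  have c1 : Measurable (fun p : V2 × V2 => co i p.1) := (B2c_co i).comp measurable_fst
  have c2 : Measurable (fun p : V2 × V2 => co i p.2) := (B2c_co i).comp measurable_snd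
  have e1 : Measurable (fun p : V2 × V2 => co i p.2 / (co i p.1 * h * c) - α) :=
    (c2.div ((c1.mul_const _).mul_const _)).sub_const _
  have e2 : Measurable (fun p : V2 × V2 => wd p.2 p.1 / (c : ℝ)) := B2c_wd.div_const _
  exact hf.meas.comp (e1.prodMk (measurable_fst.prodMk e2))

private theorem B2c_m2 {c : ℤ} {j : Bool} {f' : ℝ → V2 → ℝ → ℂ} (hf' : Per j f') (β : ℝ) :
    Measurable fun p : V2 × V2 => f' (β - co j p.1 / (c * co j p.2)) p.2 (wd p.2 p.1 / c) := by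
  have c1 : Measurable (fun p : V2 × V2 => co j p.1) := (B2c_co j).comp measurable_fst
  have c2 : Measurable (fun p : V2 × V2 => co j p.2) := (B2c_co j).comp measurable_snd
  have e1 : Measurable (fun p : V2 × V2 => β - co j p.1 / (c * co j p.2)) :=
    (c1.div (c2.const_mul _)).const_sub _
  have e2 : Measurable (fun p : V2 × V2 => wd p.2 p.1 / (c : ℝ)) := B2c_wd.div_const _
  exact hf'.meas.comp (e1.prodMk (measurable_snd.prodMk e2))

/-- **B2c.** integrability (bounded measurable; the support is bounded: `‖v‖, ‖v''‖ ≤ R`). -/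
theorem gram_int {h : ℕ} {c : ℤ} (hc : c ≠ 0) {i j : Bool} {f f' : ℝ → V2 → ℝ → ℂ} (hf : Per i f)
    (hf' : Per j f') (α β : ℝ) :
    Integrable fun p : V2 × V2 => f (co i p.2 / (co i p.1 * h * c) - α) p.1 (wd p.2 p.1 / c) *
          conj (f' (β - co j p.1 / (c * co j p.2)) p.2 (wd p.2 p.1 / c)) := by
  have _ := hc
  obtain ⟨C1, hC1⟩ := hf.bdd
  obtain ⟨C2, hC2⟩ := hf'.bdd
  obtain ⟨R1, r1, _, hR1⟩ := hf.supp
  obtain ⟨R2, r2, _, hR2⟩ := hf'.supp
  have hC10 : 0 ≤ C1 := (norm_nonneg _).trans (hC1 0 0 0)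
  refine B2c_int (C := C1 * C2) (R := max R1 R2)
    ((B2c_m1 hf α).mul (Complex.continuous_conj.measurable.comp (B2c_m2 hf' β))) ?_ ?_
  · intro p
    rw [norm_mul, RCLike.norm_conj]
    exact mul_le_mul (hC1 _ _ _) (hC2 _ _ _) (norm_nonneg _) hC10
  · intro p hp
    have hp1 := left_ne_zero_of_mul hp
    have hp2 : f' (β - co j p.1 / (c * co j p.2)) p.2 (wd p.2 p.1 / c) ≠ 0 := by
      intro h0
      apply right_ne_zero_of_mul hp
      rw [h0, map_zero]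
    rw [Prod.norm_def]
    exact max_le_max (hR1 _ _ _ hp1).1 (hR2 _ _ _ hp2).1

theorem cell_int {h : ℕ} {c : ℤ} (hc : c ≠ 0) {i j : Bool} {f f' : ℝ → V2 → ℝ → ℂ} (hf : Per i f)
    (hf' : Per j f') (a d : ℤ) : Integrable fun p : V2 × V2 => cell h c i j f f' a d p := by
  have _ := hc
  obtain ⟨C1, hC1⟩ := hf.bdd
  obtain ⟨C2, hC2⟩ := hf'.bdd
  obtain ⟨R1, r1, _, hR1⟩ := hf.supp
  obtain ⟨R2, r2, _, hR2⟩ := hf'.supp
  have hC10 : 0 ≤ C1 := (norm_nonneg _).trans (hC1 0 0 0)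
  have hC20 : 0 ≤ C2 := (norm_nonneg _).trans (hC2 0 0 0)
  have c1 : Measurable (fun p : V2 × V2 => co i p.1) := (B2c_co i).comp measurable_fst
  have c2 : Measurable (fun p : V2 × V2 => co i p.2) := (B2c_co i).comp measurable_snd
  have c3 : Measurable (fun p : V2 × V2 => co j p.1) := (B2c_co j).comp measurable_fst
  have c4 : Measurable (fun p : V2 × V2 => co j p.2) := (B2c_co j).comp measurable_snd
  have e1 : Measurable (fun p : V2 × V2 => co i p.2 / (co i p.1 * h * c) - (d : ℝ) / c) :=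
    (c2.div ((c1.mul_const _).mul_const _)).sub_const _
  have e3 : Measurable (fun p : V2 × V2 => (a : ℝ) / c - co j p.1 / (c * co j p.2)) :=
    (c3.div (c4.const_mul _)).const_sub _
  have hm : Measurable fun p : V2 × V2 => cell h c i j f f' a d p := by
    unfold cell
    refine Measurable.mul ?_ (Complex.continuous_conj.measurable.comp ?_)
    · refine Measurable.ite ?_ (B2c_m1 hf _) measurable_const
      exact (measurableSet_le measurable_const e1).inter (measurableSet_lt e1 measurable_const)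
    · refine Measurable.ite ?_ (B2c_m2 hf' _) measurable_const
      exact (measurableSet_le measurable_const e3).inter (measurableSet_lt e3 measurable_const)
  refine B2c_int (C := C1 * C2) (R := max R1 R2) hm ?_ ?_
  · intro p
    unfold cell
    rw [norm_mul, RCLike.norm_conj]
    refine mul_le_mul ?_ ?_ (norm_nonneg _) hC10
    · split_ifs
      · exact hC1 _ _ _
      · simpa using hC10
    · split_ifs
      · exact hC2 _ _ _
      · simpa using hC20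
  · intro p hp
    unfold cell at hp
    have hp1 := left_ne_zero_of_mul hp
    have hp2 := right_ne_zero_of_mul hp
    have q1 : f (co i p.2 / (co i p.1 * h * c) - d / c) p.1 (wd p.2 p.1 / c) ≠ 0 := by
      intro h0
      apply hp1
      rw [h0]
      simp
    have q2 : f' (a / c - co j p.1 / (c * co j p.2)) p.2 (wd p.2 p.1 / c) ≠ 0 := by
      intro h0
      apply hp2
      rw [h0]
      simp
    rw [Prod.norm_def]
    exact max_le_max (hR1 _ _ _ q1).1 (hR2 _ _ _ q2).1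

end SG

end

section

namespace SG
open Complex MeasureTheory Filter Topology Set
open scoped Real ComplexConjugate

/-- the matrix `[[a, (a h d - 1)/c],[c, h d]]` -/
def B2_mat (h : ℕ) (c a d : ℤ) (hq : c ∣ a * h * d - 1) : SLZ :=
  ⟨!![a, (a * h * d - 1) / c; c, h * d], by
    rw [Matrix.det_fin_two_of, Int.ediv_mul_cancel hq]
    ring⟩

theorem B2_div {h : ℕ} {x : ℤ} (hx : (h : ℤ) ∣ x) : (h : ℤ) * (x / h) = x :=
  Int.mul_ediv_cancel' hx

theorem B2_det (M : SLZ) : M.1 0 0 * M.1 1 1 - M.1 0 1 * M.1 1 0 = 1 := by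
  have := M.2
  rwa [Matrix.det_fin_two] at this

/-- `{M : M₁₀ = c, h ∣ M₁₁} ≃ {(a,d) : c ∣ a h d - 1}` -/
def B2_equiv {h : ℕ} (hh : 0 < h) {c : ℤ} (hc : c ≠ 0) :
    {M : SLZ // M.1 1 0 = c ∧ (h : ℤ) ∣ M.1 1 1} ≃
      ({q : ℤ × ℤ | c ∣ q.1 * h * q.2 - 1} : Set (ℤ × ℤ)) where
  toFun M := ⟨(M.1.1 0 0, M.1.1 1 1 / h), by
    have h1 := B2_det M.1
    have h2 := B2_div M.2.2
    rw [M.2.1] at h1
    refine ⟨M.1.1 0 1, ?_⟩
    show M.1.1 0 0 * h * (M.1.1 1 1 / h) - 1 = _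
    rw [mul_assoc, h2]
    linarith⟩
  invFun q := ⟨B2_mat h c q.1.1 q.1.2 q.2, by
    constructor
    · simp [B2_mat]
    · simp [B2_mat]⟩
  left_inv M := by
    apply Subtype.ext
    apply Subtype.ext
    have h1 := B2_det M.1
    have h2 := B2_div M.2.2
    have h3 := M.2.1
    rw [h3] at h1
    have h4 : M.1.1 0 0 * h * (M.1.1 1 1 / h) - 1 = M.1.1 0 1 * c := by
      rw [mul_assoc, h2]
      linarith
    ext r s
    fin_cases r <;> fin_cases s
    · simp [B2_mat]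
    · simp only [B2_mat, Fin.zero_eta, Fin.mk_one, Matrix.of_apply, Matrix.cons_val', Matrix.cons_val_zero,
        Matrix.cons_val_one]
      rw [h4, Int.mul_ediv_cancel _ hc]
    · simp [B2_mat, h3]
    · simp [B2_mat, h2]
  right_inv q := by
    apply Subtype.ext
    have hh' : (h : ℤ) ≠ 0 := by exact_mod_cast hh.ne'
    simp [B2_mat, Int.mul_ediv_cancel_left _ hh']

/-- **B2. Gram identity for fixed lower-left entry `c ≠ 0`.** `{M : M₁₀ = c, h ∣ M₁₁} ≃ {(a,d) : c ∣ a h d - 1}`,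
`M = [[a, (a h d - 1)/c],[c, h d]]`. By `finite_hits` (with B1) only finitely many `M` contribute to the left
side, and for the others `cell = 0` identically (`cell_zero`); so the sum over `M` and the integral over `p` commute
(`gram_cell`, `cell_int`), and `tile` evaluates the sum pointwise; finally `integral_finsetSum` with `gram_int`. -/
theorem gram_c {h : ℕ} (hh : 0 < h) {c : ℤ} (hc : c ≠ 0) (hco : IsCoprime (h : ℤ) c) {i j : Bool}
    {f f' : ℝ → V2 → ℝ → ℂ} (hf : Per i f) (hf' : Per j f') :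
    pair (fun M => M.1 1 0 = c ∧ (h : ℤ) ∣ M.1 1 1) (poin h i f) (poin 1 j f') =
      ((c : ℂ) ^ 2)⁻¹ * ∑ d ∈ (Finset.range c.natAbs).filter (fun d => Nat.Coprime d c.natAbs),
        ∫ p : V2 × V2, f (co i p.2 / (co i p.1 * h * c) - d / c) p.1 (wd p.2 p.1 / c) *
          conj (f' (iv c.natAbs h d / c - co j p.1 / (c * co j p.2)) p.2 (wd p.2 p.1 / c)) := by
  have hhr : (0 : ℝ) < h := by exact_mod_cast hh
  have hadm : Adm (poin h i f) := poin_adm hhr hf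
  have hadm' : Adm (poin 1 j f') := poin_adm one_pos hf'
  -- the finite set of contributing matrices
  have hfin := finite_hits hadm hadm' 1
  set E := B2_equiv hh hc with hE
  have hS : {q : ({q : ℤ × ℤ | c ∣ q.1 * h * q.2 - 1} : Set (ℤ × ℤ)) |
      ∃ g, poin h i f g ≠ 0 ∧ poin 1 j f' (act (E.symm q).1 g) ≠ 0}.Finite := by
    have h1 : (((fun q : ({q : ℤ × ℤ | c ∣ q.1 * h * q.2 - 1} : Set (ℤ × ℤ)) => (E.symm q).1) ⁻¹'
        {γ : SLZ | ∃ g, poin h i f g ≠ 0 ∧ poin 1 j f' (act (1 * γ) g) ≠ 0})).Finite :=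
      hfin.preimage (fun x _ y _ hxy => E.symm.injective (Subtype.ext hxy))
    refine h1.subset ?_
    rintro q ⟨g, hg1, hg2⟩
    refine ⟨g, hg1, ?_⟩
    rw [one_mul]
    exact hg2
  have h00 : ∀ q : ({q : ℤ × ℤ | c ∣ q.1 * h * q.2 - 1} : Set (ℤ × ℤ)),
      (E.symm q).1.1 0 0 = q.1.1 := fun q => by simp [hE, B2_equiv, B2_mat]
  have h10 : ∀ q : ({q : ℤ × ℤ | c ∣ q.1 * h * q.2 - 1} : Set (ℤ × ℤ)),
      (E.symm q).1.1 1 0 = c := fun q => by simp [hE, B2_equiv, B2_mat]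
  have h11 : ∀ q : ({q : ℤ × ℤ | c ∣ q.1 * h * q.2 - 1} : Set (ℤ × ℤ)),
      (E.symm q).1.1 1 1 = h * q.1.2 := fun q => by simp [hE, B2_equiv, B2_mat]
  have hcell0 : ∀ q ∉ hS.toFinset, ∀ p, cell h c i j f f' q.1.1 q.1.2 p = 0 := by
    intro q hq p
    rw [Set.Finite.mem_toFinset] at hq
    have := cell_zero hh hc (h10 q) (h11 q) hf hf' (fun g hg => hq ⟨g, hg⟩) p
    rwa [h00 q] at this
  -- the left side
  have hL : pair (fun M => M.1 1 0 = c ∧ (h : ℤ) ∣ M.1 1 1) (poin h i f) (poin 1 j f') =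
      ∑' q : ({q : ℤ × ℤ | c ∣ q.1 * h * q.2 - 1} : Set (ℤ × ℤ)),
        ((c : ℂ) ^ 2)⁻¹ * ∫ p : V2 × V2, cell h c i j f f' q.1.1 q.1.2 p := by
    unfold pair
    rw [← E.symm.tsum_eq]
    refine tsum_congr fun q => ?_
    rw [gram_cell hh hc (h10 q) (h11 q) hf hf', h00 q]
  rw [hL, tsum_eq_sum (s := hS.toFinset) (fun q hq => by
    rw [integral_congr_ae (Eventually.of_forall (hcell0 q hq))]
    simp), ← Finset.mul_sum]
  congr 1
  rw [← integral_finsetSum _ (fun q _ => cell_int hc hf hf' q.1.1 q.1.2),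
    ← integral_finsetSum _ (fun (d : ℕ) _ => gram_int hc hf hf' ((d : ℝ) / c) ((iv c.natAbs h (d : ℤ) : ℝ) / c))]
  refine integral_congr_ae (Eventually.of_forall fun p => ?_)
  refine Eq.trans ?_ (tile hh hc hco hf hf' p).2
  show ∑ q ∈ hS.toFinset, cell h c i j f f' q.1.1 q.1.2 p = _
  have h5 : ∑' q : ({q : ℤ × ℤ | c ∣ q.1 * h * q.2 - 1} : Set (ℤ × ℤ)),
      cell h c i j f f' q.1.1 q.1.2 p = ∑ q ∈ hS.toFinset, cell h c i j f f' q.1.1 q.1.2 p :=
    tsum_eq_sum fun q hq => hcell0 q hq p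
  rw [← h5]
  rw [tsum_subtype ({q : ℤ × ℤ | c ∣ q.1 * h * q.2 - 1} : Set (ℤ × ℤ))
    (fun q => cell h c i j f f' q.1 q.2 p)]
  refine tsum_congr fun q => ?_
  rw [Set.indicator_apply]
  rfl

end SG

end
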