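import Pool.Agent.Lib.MP_39df77_nt.S6Defs
import Pool.Agent.Lib.MP_39df77_nt.Part07
import Pool.Agent.Lib.MP_39df77_nt.Part08

section

/-! Row S6-KloosBound_32: the exponential sums `SS`, Weil's bound -/

namespace S6
open Complex Filter Topology Set
open scoped Real ComplexConjugate

/-- summing over `b` first -/
theorem kl_SS_eq (q : ℕ) [NeZero q] (h x y z : ZMod q) (hh : IsUnit h) :
    ∃ w : ZMod q, SS q h x y z = (q : ℂ) * KlWeil.VS (ZMod.stdAddChar (N := q)) x z w := by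
  classical
  obtain ⟨u, rfl⟩ := hh
  refine ⟨((u⁻¹ : (ZMod q)ˣ) : ZMod q) * y, ?_⟩
  unfold SS KlWeil.VS
  rw [Finset.mul_sum]
  refine Finset.sum_congr rfl fun a _ => ?_
  rw [Finset.sum_comm, Finset.mul_sum]
  refine Finset.sum_congr rfl fun c _ => ?_
  have h1 : ∀ b : ZMod q, ZMod.stdAddChar (-((u : ZMod q) * a * b * c) + x * a + y * b + z * c)
      = ZMod.stdAddChar (x * a + z * c) * ZMod.stdAddChar (b * (y - (u : ZMod q) * a * c)) := by
    intro b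
    rw [← AddChar.map_add_eq_mul]
    congr 1
    ring
  rw [Finset.sum_congr rfl fun b _ => h1 b, ← Finset.mul_sum]
  have h2 := AddChar.sum_mulShift (y - (u : ZMod q) * a * c) (ψ := ZMod.stdAddChar (N := q)) (ZMod.isPrimitive_stdAddChar q)
  rw [h2]
  by_cases hc : a * c = ((u⁻¹ : (ZMod q)ˣ) : ZMod q) * y
  · rw [if_pos hc, if_pos]
    · rw [ZMod.card]; ring
    · rw [mul_assoc, hc, ← mul_assoc, Units.mul_inv, one_mul, sub_self]
  · rw [if_neg hc, if_neg]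
    · simp
    · intro h0
      apply hc
      have h3 : y = (u : ZMod q) * (a * c) := by rw [← mul_assoc]; exact sub_eq_zero.mp h0
      rw [h3, ← mul_assoc, Units.inv_mul, one_mul]

/-- **KloosBound_32** (Weil's bound). -/
theorem KloosBound_32 : KloosBound (3 / 2) := by
  refine ⟨fun q => (q.divisors.card : ℝ) * √(KlWeil.sfPart q) * KlWeil.sqPart q, fun q => by positivity, ?_, ?_⟩
  · intro q _ h x y z hh
    obtain ⟨w, hw⟩ := kl_SS_eq q h x y z hh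
    have hq : q ≠ 0 := NeZero.ne q
    rw [hw, norm_mul, Complex.norm_natCast]
    have h1 := KlWeil.VS_bound q (ZMod.stdAddChar (N := q)) (ZMod.isPrimitive_stdAddChar q) (x.val : ℤ) (z.val : ℤ) w
    have ex : ((x.val : ℤ) : ZMod q) = x := by simp
    have ez : ((z.val : ℤ) : ZMod q) = z := by simp
    rw [ex, ez] at h1
    have h2 : Int.gcd ((x.val : ℤ) * (z.val : ℤ)) (KlWeil.sfPart q) ≤ Nat.gcd x.val q * Nat.gcd z.val q := by
      have e1 : Int.gcd ((x.val : ℤ) * (z.val : ℤ)) (KlWeil.sfPart q) = Nat.gcd (x.val * z.val) (KlWeil.sfPart q) := by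
        rw [← Nat.cast_mul, Int.gcd_natCast_natCast]
      rw [e1]
      have hgpos : 0 < Nat.gcd x.val q * Nat.gcd z.val q :=
        Nat.mul_pos (Nat.gcd_pos_of_pos_right _ (Nat.pos_of_ne_zero hq)) (Nat.gcd_pos_of_pos_right _ (Nat.pos_of_ne_zero hq))
      apply Nat.le_of_dvd hgpos
      have e2 : Nat.gcd (x.val * z.val) (KlWeil.sfPart q) ∣ Nat.gcd (x.val * z.val) q :=
        Nat.gcd_dvd_gcd_of_dvd_right _ (Dvd.intro _ (KlWeil.sfPart_mul_sqPart hq))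
      refine e2.trans ?_
      rw [Nat.gcd_comm, Nat.gcd_comm x.val, Nat.gcd_comm z.val]
      exact Nat.gcd_mul_right_dvd_mul_gcd q x.val z.val
    have h3 : √((Int.gcd ((x.val : ℤ) * (z.val : ℤ)) (KlWeil.sfPart q) : ℕ) : ℝ) ≤ √(Nat.gcd x.val q) * √(Nat.gcd z.val q) := by
      rw [← Real.sqrt_mul (by positivity)]
      apply Real.sqrt_le_sqrt
      exact_mod_cast h2
    rw [mul_assoc (q : ℝ)]
    apply mul_le_mul_of_nonneg_left _ (Nat.cast_nonneg q)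
    refine h1.trans ?_
    calc (q.divisors.card : ℝ) * √(KlWeil.sfPart q) * √((Int.gcd ((x.val : ℤ) * (z.val : ℤ)) (KlWeil.sfPart q) : ℕ) : ℝ) * KlWeil.sqPart q
        ≤ (q.divisors.card : ℝ) * √(KlWeil.sfPart q) * (√(Nat.gcd x.val q) * √(Nat.gcd z.val q)) * KlWeil.sqPart q := by
          gcongr
      _ = _ := by ring
  · intro ε hε
    obtain ⟨C1, hC1, hd⟩ := KlWeil.card_divisors_le_rpow (ε / 2) (by positivity)
    -- log bound
    obtain ⟨C2, hC20, hC2⟩ : ∃ C2 : ℝ, 0 ≤ C2 ∧ ∀ Q : ℕ, 1 ≤ Q → 3 * (1 + Real.log (Q + 1)) ^ 3 ≤ C2 * (Q : ℝ) ^ (ε / 2) := by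
      refine ⟨3 * (1 + 2 / (ε / 6)) ^ 3 * 2 ^ (ε / 2), by positivity, fun Q hQ => ?_⟩
      have hQ1 : (1 : ℝ) ≤ Q := by exact_mod_cast hQ
      have hlog : Real.log (Q + 1) ≤ (Q + 1 : ℝ) ^ (ε / 6) / (ε / 6) := Real.log_le_rpow_div (by positivity) (by positivity)
      have h1 : (1 : ℝ) ≤ (Q + 1 : ℝ) ^ (ε / 6) := Real.one_le_rpow (by linarith) (by positivity)
      have h2 : 1 + Real.log (Q + 1) ≤ (1 + 2 / (ε / 6)) * (Q + 1 : ℝ) ^ (ε / 6) := by
        have h3 : 0 ≤ (Q + 1 : ℝ) ^ (ε / 6) / (ε / 6) := by positivity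
        calc 1 + Real.log (Q + 1) ≤ (Q + 1 : ℝ) ^ (ε / 6) + 2 * ((Q + 1 : ℝ) ^ (ε / 6) / (ε / 6)) := by linarith
          _ = _ := by ring
      have h0 : 0 ≤ 1 + Real.log (Q + 1) := by
        have : 0 ≤ Real.log (Q + 1) := Real.log_nonneg (by linarith)
        linarith
      have h4 : (1 + Real.log (Q + 1)) ^ 3 ≤ ((1 + 2 / (ε / 6)) * (Q + 1 : ℝ) ^ (ε / 6)) ^ 3 := pow_le_pow_left₀ h0 h2 3
      have h5 : ((Q + 1 : ℝ) ^ (ε / 6)) ^ 3 = (Q + 1 : ℝ) ^ (ε / 2) := by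
        rw [← Real.rpow_natCast, ← Real.rpow_mul (by positivity)]
        congr 1; push_cast; ring
      have h6 : (Q + 1 : ℝ) ^ (ε / 2) ≤ 2 ^ (ε / 2) * (Q : ℝ) ^ (ε / 2) := by
        rw [← Real.mul_rpow (by norm_num) (by positivity)]
        exact Real.rpow_le_rpow (by positivity) (by linarith) (by positivity)
      rw [mul_pow, h5] at h4
      calc 3 * (1 + Real.log (Q + 1)) ^ 3 ≤ 3 * ((1 + 2 / (ε / 6)) ^ 3 * (Q + 1 : ℝ) ^ (ε / 2)) := by linarith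
        _ ≤ 3 * ((1 + 2 / (ε / 6)) ^ 3 * (2 ^ (ε / 2) * (Q : ℝ) ^ (ε / 2))) := by
            gcongr
        _ = _ := by ring
    refine ⟨C1 * C2, fun Q => ?_⟩
    rcases Nat.eq_zero_or_pos Q with hQ0 | hQ0
    · subst hQ0
      have : (0 : ℝ) ≤ C1 := by linarith
      simp
      positivity
    have hterm : ∀ q ∈ Finset.Icc 1 Q, ((q.divisors.card : ℝ) * √(KlWeil.sfPart q) * KlWeil.sqPart q) * (q : ℝ) ^ (-(3 / 2 : ℝ))
        ≤ (C1 * (Q : ℝ) ^ (ε / 2)) * (√(KlWeil.sqPart q) / q) := by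
      intro q hq
      rw [Finset.mem_Icc] at hq
      have hq0 : q ≠ 0 := by omega
      have hqpos : (0 : ℝ) < q := by exact_mod_cast Nat.pos_of_ne_zero hq0
      have e1 : √(KlWeil.sfPart q) * (KlWeil.sqPart q : ℝ) = √q * √(KlWeil.sqPart q) := by
        have : (q : ℝ) = (KlWeil.sfPart q : ℝ) * KlWeil.sqPart q := by
          exact_mod_cast (KlWeil.sfPart_mul_sqPart hq0).symm
        rw [this, Real.sqrt_mul (by positivity), mul_assoc, Real.mul_self_sqrt (by positivity)]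
      have e2 : √(q : ℝ) * (q : ℝ) ^ (-(3 / 2 : ℝ)) = (q : ℝ)⁻¹ := by
        rw [Real.sqrt_eq_rpow, ← Real.rpow_add hqpos, ← Real.rpow_neg_one]
        norm_num
      have e3 : ((q.divisors.card : ℝ) * √(KlWeil.sfPart q) * KlWeil.sqPart q) * (q : ℝ) ^ (-(3 / 2 : ℝ))
          = (q.divisors.card : ℝ) * (√(KlWeil.sqPart q) / q) := by
        calc _ = (q.divisors.card : ℝ) * (√(KlWeil.sfPart q) * (KlWeil.sqPart q : ℝ)) * (q : ℝ) ^ (-(3 / 2 : ℝ)) := by ring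
          _ = (q.divisors.card : ℝ) * √(KlWeil.sqPart q) * (√(q : ℝ) * (q : ℝ) ^ (-(3 / 2 : ℝ))) := by rw [e1]; ring
          _ = _ := by rw [e2]; ring
      rw [e3]
      apply mul_le_mul_of_nonneg_right _ (by positivity)
      refine (hd q hq0).trans ?_
      apply mul_le_mul_of_nonneg_left _ (by linarith)
      exact Real.rpow_le_rpow hqpos.le (by exact_mod_cast hq.2) (by positivity)
    refine (Finset.sum_le_sum hterm).trans ?_
    rw [← Finset.mul_sum]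
    have h7 := (KlWeil.sum_sqrt_sqPart Q).trans (hC2 Q hQ0)
    have hQr : (0 : ℝ) < Q := by exact_mod_cast hQ0
    calc C1 * (Q : ℝ) ^ (ε / 2) * ∑ q ∈ Finset.Icc 1 Q, √(KlWeil.sqPart q) / q
        ≤ C1 * (Q : ℝ) ^ (ε / 2) * (C2 * (Q : ℝ) ^ (ε / 2)) := by
          apply mul_le_mul_of_nonneg_left h7
          have : (0 : ℝ) ≤ C1 := by linarith
          positivity
      _ = C1 * C2 * ((Q : ℝ) ^ (ε / 2) * (Q : ℝ) ^ (ε / 2)) := by ring
      _ = C1 * C2 * (Q : ℝ) ^ ε := by rw [← Real.rpow_add hQr]; congr 2; ring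

end S6

end

section

namespace S6
open Complex MeasureTheory Filter Topology Set
open scoped Real ComplexConjugate

theorem km_zz_re (T ξ : ℝ) : (zz T ξ).re = 2 * π * (Real.exp (-ξ) * Real.sin T⁻¹) := by
  have h1 : -(om T ξ) = ((-ξ : ℝ) : ℂ) + ((-(T⁻¹) : ℝ) : ℂ) * I := by
    unfold om; push_cast; ring
  unfold zz
  rw [h1, Complex.exp_add, ← Complex.ofReal_exp, Complex.exp_mul_I, ← Complex.ofReal_cos,
    ← Complex.ofReal_sin, Real.cos_neg, Real.sin_neg]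
  have h2 : (2 * (π : ℂ) * I * (((Real.exp (-ξ) : ℝ) : ℂ) *
      (((Real.cos T⁻¹ : ℝ) : ℂ) + ((-Real.sin T⁻¹ : ℝ) : ℂ) * I) - 1)) =
      ((2 * π * (Real.exp (-ξ) * Real.sin T⁻¹) : ℝ) : ℂ) +
      ((2 * π * (Real.exp (-ξ) * Real.cos T⁻¹ - 1) : ℝ) : ℂ) * I := by
    push_cast
    linear_combination (-(2 * (π : ℂ) * cexp (-(ξ : ℂ)) * Complex.sin ((T : ℂ)⁻¹))) *
      Complex.I_sq
  rw [h2, Complex.add_re, Complex.ofReal_re, Complex.mul_I_re, Complex.ofReal_im, neg_zero,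
    add_zero]

theorem zz_re_pos {T : ℝ} (hT : 1 < T) (ξ : ℝ) : 0 < (zz T ξ).re := by
  rw [km_zz_re]
  have h1 : 0 < T⁻¹ := by positivity
  have h2 : T⁻¹ < π := by
    have : T⁻¹ < 1 := inv_lt_one_of_one_lt₀ hT
    linarith [Real.pi_gt_three]
  have h3 := Real.sin_pos_of_pos_of_lt_pi h1 h2
  have h4 := Real.exp_pos (-ξ)
  have h5 := Real.pi_pos
  positivity

theorem km_zz_re_ge {T : ℝ} (hT : 1 ≤ T) (ξ : ℝ) : 4 * Real.exp (-ξ) / T ≤ (zz T ξ).re := by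
  rw [km_zz_re]
  have h1 : 0 ≤ T⁻¹ := by positivity
  have h2 : T⁻¹ ≤ π / 2 := by
    have : T⁻¹ ≤ 1 := inv_le_one_of_one_le₀ hT
    linarith [Real.pi_gt_three]
  have h3 := Real.mul_le_sin h1 h2
  have h4 := Real.exp_pos (-ξ)
  have h5 := Real.pi_pos
  calc 4 * Real.exp (-ξ) / T = 2 * π * (Real.exp (-ξ) * (2 / π * T⁻¹)) := by
        field_simp
        norm_num
    _ ≤ _ := by gcongr

theorem km_norm_om {T : ℝ} (hT : 0 < T) (ξ : ℝ) : ‖om T ξ‖ ≤ |ξ| + T⁻¹ := by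
  unfold om
  refine (norm_add_le _ _).trans ?_
  rw [norm_mul, Complex.norm_I, mul_one, Complex.norm_real, Complex.norm_real, Real.norm_eq_abs,
    Real.norm_eq_abs, abs_of_pos (inv_pos.2 hT)]

theorem km_norm_zz {T : ℝ} (hT : 1 ≤ T) (ξ : ℝ) :
    ‖zz T ξ‖ ≤ 2 * π * ((|ξ| + T⁻¹) * Real.exp (|ξ| + 1)) := by
  have hT0 : 0 < T := by linarith
  have h1 := km_norm_om hT0 ξ
  have h2 : T⁻¹ ≤ 1 := inv_le_one_of_one_le₀ hT
  have h3 := Complex.norm_exp_sub_sum_le_norm_mul_exp (-(om T ξ)) 1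
  rw [Finset.sum_range_one, pow_zero, Nat.factorial_zero, Nat.cast_one, div_one, pow_one,
    norm_neg] at h3
  unfold zz
  rw [norm_mul, norm_mul, norm_mul, Complex.norm_I, Complex.norm_real, Real.norm_eq_abs,
    abs_of_pos Real.pi_pos, Complex.norm_two, mul_one]
  have h4 := Real.pi_pos
  refine mul_le_mul_of_nonneg_left (h3.trans ?_) (by positivity)
  refine mul_le_mul h1 (Real.exp_le_exp.2 (h1.trans (by linarith))) (Real.exp_pos _).le
    (by positivity)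

theorem km_ker {T : ℝ} (hT : Real.exp 1 ≤ T) {τ : ℝ} (_h0 : 0 ≤ τ) (h1 : τ ≤ T) (ξ : ℝ) :
    ‖ker T τ ξ‖ ≤ 2 * HH T * Real.exp (-(HH T ^ 2 * ξ ^ 2 / 4) - ξ / 2) := by
  have hT0 : 0 < T := (Real.exp_pos 1).trans_le hT
  have hlog : 1 ≤ Real.log T := by
    rw [Real.le_log_iff_exp_le hT0]; exact hT
  have hH : 0 < HH T := div_pos hT0 (by linarith)
  have hHT : HH T ≤ T := div_le_self hT0.le hlog
  have hom2 : (om T ξ) ^ 2 = ((ξ ^ 2 - T⁻¹ ^ 2 : ℝ) : ℂ) + ((2 * ξ * T⁻¹ : ℝ) : ℂ) * I := by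
    unfold om
    push_cast
    linear_combination ((T : ℂ)⁻¹) ^ 2 * Complex.I_sq
  have e1 : ‖gg T (om T ξ)‖ = HH T / (2 * √π) *
      Real.exp (-(HH T ^ 2 * (ξ ^ 2 - T⁻¹ ^ 2) / 4)) := by
    unfold gg
    rw [norm_mul, Complex.norm_real, Real.norm_eq_abs, abs_of_nonneg (by positivity),
      Complex.norm_exp, hom2]
    congr 2
    have : -((HH T : ℂ) ^ 2 * (((ξ ^ 2 - T⁻¹ ^ 2 : ℝ) : ℂ) + ((2 * ξ * T⁻¹ : ℝ) : ℂ) * I) / 4) =
        ((-(HH T ^ 2 * (ξ ^ 2 - T⁻¹ ^ 2) / 4) : ℝ) : ℂ) +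
        ((-(HH T ^ 2 * (2 * ξ * T⁻¹) / 4) : ℝ) : ℂ) * I := by
      push_cast; ring
    rw [this, Complex.add_re, Complex.ofReal_re, Complex.mul_I_re, Complex.ofReal_im, neg_zero,
      add_zero]
  have e2 : ‖cexp (-(om T ξ * (1 / 2 + τ * I)))‖ = Real.exp (-(ξ / 2) + τ * T⁻¹) := by
    rw [Complex.norm_exp]
    congr 1
    have : -(om T ξ * (1 / 2 + τ * I)) = ((-(ξ / 2) + τ * T⁻¹ : ℝ) : ℂ) +
        ((-(T⁻¹ / 2) - ξ * τ : ℝ) : ℂ) * I := by
      unfold om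
      push_cast
      linear_combination (-((T : ℂ)⁻¹ * τ)) * Complex.I_sq
    rw [this, Complex.add_re, Complex.ofReal_re, Complex.mul_I_re, Complex.ofReal_im, neg_zero,
      add_zero]
  unfold ker
  rw [norm_mul, e1, e2]
  have hτT : τ * T⁻¹ ≤ 1 := by
    rw [← div_eq_mul_inv, div_le_one hT0]; exact h1
  have hHT2 : HH T ^ 2 * T⁻¹ ^ 2 ≤ 1 := by
    rw [← mul_pow]
    refine pow_le_one₀ (by positivity) ?_
    rw [← div_eq_mul_inv, div_le_one hT0]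
    exact hHT
  rw [mul_assoc, ← Real.exp_add]
  have hexp : Real.exp (-(HH T ^ 2 * (ξ ^ 2 - T⁻¹ ^ 2) / 4) + (-(ξ / 2) + τ * T⁻¹)) ≤
      Real.exp (5 / 4) * Real.exp (-(HH T ^ 2 * ξ ^ 2 / 4) - ξ / 2) := by
    rw [← Real.exp_add]
    apply Real.exp_le_exp.2
    nlinarith
  have hpi : 1 ≤ √π := by
    rw [Real.one_le_sqrt]
    linarith [Real.pi_gt_three]
  have h5 : Real.exp (5 / 4) ≤ 4 := by
    have h6 : Real.exp (5 / 4) ^ 4 ≤ 4 ^ 4 := by
      rw [← Real.exp_nat_mul]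
      have h7 : ((4 : ℕ) : ℝ) * (5 / 4) = ((5 : ℕ) : ℝ) * 1 := by norm_num
      rw [h7, Real.exp_nat_mul]
      have h8 := Real.exp_one_lt_d9
      calc Real.exp 1 ^ 5 ≤ 2.7182818286 ^ 5 :=
            pow_le_pow_left₀ (Real.exp_pos _).le h8.le 5
        _ ≤ 4 ^ 4 := by norm_num
    exact (pow_le_pow_iff_left₀ (Real.exp_pos _).le (by norm_num) (by norm_num)).1 h6
  have h9 : HH T / (2 * √π) ≤ HH T / 2 := by
    apply div_le_div_of_nonneg_left hH.le (by norm_num)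
    linarith
  calc HH T / (2 * √π) * Real.exp (-(HH T ^ 2 * (ξ ^ 2 - T⁻¹ ^ 2) / 4) + (-(ξ / 2) + τ * T⁻¹))
      ≤ HH T / 2 * (4 * Real.exp (-(HH T ^ 2 * ξ ^ 2 / 4) - ξ / 2)) := by
        refine mul_le_mul h9 (hexp.trans ?_) (Real.exp_pos _).le (by positivity)
        exact mul_le_mul_of_nonneg_right h5 (Real.exp_pos _).le
    _ = _ := by ring

theorem km_cont_om (T : ℝ) : Continuous fun ξ : ℝ => om T ξ := by
  unfold om; fun_prop

theorem km_cont_zz (T : ℝ) : Continuous fun ξ : ℝ => zz T ξ := by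
  have := km_cont_om T
  unfold zz; fun_prop

theorem km_cont_ker (T τ : ℝ) : Continuous fun ξ : ℝ => ker T τ ξ := by
  have := km_cont_om T
  unfold ker gg; fun_prop

/-- pointwise bound -/
theorem km_point (β : ℝ) (hβ : 0 ≤ β) (k : ℕ) {T : ℝ} (hT : Real.exp 1 ≤ T) {τ : ℝ} (h0 : 0 ≤ τ)
    (h1 : τ ≤ T) (ξ : ℝ) :
    ‖ker T τ ξ‖ * (‖zz T ξ‖ ^ β / (zz T ξ).re ^ k) ≤
      (2 * (2 * π * Real.exp 1) ^ β * Real.exp (2 * (1 + 2 * β + k) ^ 2)) *
        (T ^ k * (HH T * HH T ^ (-β))) * Real.exp (-(HH T ^ 2 / 8) * ξ ^ 2) := by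
  have hT0 : 0 < T := (Real.exp_pos 1).trans_le hT
  have hT1 : 1 < T := (Real.one_lt_exp_iff.2 one_pos).trans_le hT
  have hlog : 1 ≤ Real.log T := by
    rw [Real.le_log_iff_exp_le hT0]; exact hT
  have hH : 0 < HH T := div_pos hT0 (by linarith)
  have hHT : HH T ≤ T := div_le_self hT0.le hlog
  have hH1 : 1 ≤ HH T := by
    unfold HH
    rw [le_div_iff₀ (by linarith), one_mul]
    exact Real.log_le_self hT0.le
  set H := HH T with hHdef
  set x : ℝ := |H * ξ| with hx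
  have hx0 : 0 ≤ x := abs_nonneg _
  have hxe : x = H * |ξ| := by rw [hx, abs_mul, abs_of_pos hH]
  have hξx : |ξ| ≤ x := by
    rw [hxe]
    exact le_mul_of_one_le_left (abs_nonneg _) hH1
  have hpi := Real.pi_pos
  -- bound of `zz`
  have hz1 : ‖zz T ξ‖ ≤ 2 * π * Real.exp 1 * (H⁻¹ * Real.exp (2 * x)) := by
    refine (km_norm_zz hT1.le ξ).trans ?_
    have h2 : |ξ| + T⁻¹ ≤ H⁻¹ * Real.exp x := by
      have h3 : T⁻¹ ≤ H⁻¹ := inv_anti₀ hH hHT
      have h4 : x + 1 ≤ Real.exp x := Real.add_one_le_exp x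
      have h5 : |ξ| = H⁻¹ * x := by
        rw [hxe]; field_simp
      calc |ξ| + T⁻¹ ≤ H⁻¹ * x + H⁻¹ := by rw [h5]; linarith
        _ = H⁻¹ * (x + 1) := by ring
        _ ≤ _ := mul_le_mul_of_nonneg_left h4 (by positivity)
    have h6 : Real.exp (|ξ| + 1) ≤ Real.exp 1 * Real.exp x := by
      rw [← Real.exp_add]
      exact Real.exp_le_exp.2 (by linarith)
    calc 2 * π * ((|ξ| + T⁻¹) * Real.exp (|ξ| + 1))
        ≤ 2 * π * ((H⁻¹ * Real.exp x) * (Real.exp 1 * Real.exp x)) := by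
          gcongr
      _ = _ := by
          rw [two_mul x, Real.exp_add]; ring
  have hz2 : ‖zz T ξ‖ ^ β ≤ (2 * π * Real.exp 1) ^ β * (H ^ (-β) * Real.exp (2 * β * x)) := by
    refine (Real.rpow_le_rpow (norm_nonneg _) hz1 hβ).trans (le_of_eq ?_)
    have e1 : (0 : ℝ) ≤ 2 * π * Real.exp 1 := by positivity
    have e2 : (0 : ℝ) ≤ H⁻¹ * Real.exp (2 * x) := by positivity
    have e3 : (0 : ℝ) ≤ H⁻¹ := by positivity
    rw [Real.mul_rpow e1 e2, Real.mul_rpow e3 (Real.exp_pos _).le, ← Real.exp_mul (2 * x),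
      Real.inv_rpow hH.le, Real.rpow_neg hH.le]
    congr 3
    ring
  -- bound of the real part
  have hz3 : ((zz T ξ).re ^ k)⁻¹ ≤ T ^ k * Real.exp (k * x) := by
    have h2 : 0 < (zz T ξ).re := zz_re_pos hT1 ξ
    have h3 : (zz T ξ).re⁻¹ ≤ T * Real.exp x := by
      have h4 := km_zz_re_ge hT1.le ξ
      have h5 : 0 < 4 * Real.exp (-ξ) / T := by positivity
      refine (inv_anti₀ h5 h4).trans ?_
      rw [inv_div, Real.exp_neg, div_le_iff₀ (by positivity)]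
      have h6 : Real.exp ξ ≤ Real.exp x := Real.exp_le_exp.2 ((le_abs_self ξ).trans hξx)
      have h7 : T * Real.exp x * (4 * (Real.exp ξ)⁻¹) = 4 * T * (Real.exp x / Real.exp ξ) := by
        field_simp
      rw [h7]
      have h8 : 1 ≤ Real.exp x / Real.exp ξ := by
        rw [le_div_iff₀ (Real.exp_pos _), one_mul]; exact h6
      nlinarith
    rw [← inv_pow]
    refine (pow_le_pow_left₀ (by positivity) h3 k).trans (le_of_eq ?_)
    rw [mul_pow, ← Real.exp_nat_mul]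
  -- bound of `ker`
  have hk := km_ker hT h0 h1 ξ
  rw [← hHdef] at hk
  have hk2 : ‖ker T τ ξ‖ ≤ 2 * H * Real.exp (-(x ^ 2 / 4) + x) := by
    refine hk.trans ?_
    have h2 : x ^ 2 = H ^ 2 * ξ ^ 2 := by rw [hx, sq_abs, mul_pow]
    have h3 : -(H ^ 2 * ξ ^ 2 / 4) - ξ / 2 ≤ -(x ^ 2 / 4) + x := by
      rw [h2]
      have h4 := neg_abs_le ξ
      linarith
    exact mul_le_mul_of_nonneg_left (Real.exp_le_exp.2 h3) (by positivity)
  have hHβ : 0 < H ^ (-β) := Real.rpow_pos_of_pos hH _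
  rw [div_eq_mul_inv]
  set c : ℝ := 1 + 2 * β + k with hc
  calc ‖ker T τ ξ‖ * (‖zz T ξ‖ ^ β * ((zz T ξ).re ^ k)⁻¹)
      ≤ (2 * H * Real.exp (-(x ^ 2 / 4) + x)) *
        (((2 * π * Real.exp 1) ^ β * (H ^ (-β) * Real.exp (2 * β * x))) *
          (T ^ k * Real.exp (k * x))) := by
        have h2 : 0 ≤ ((zz T ξ).re ^ k)⁻¹ := by
          have := zz_re_pos hT1 ξ
          positivity
        refine mul_le_mul hk2 (mul_le_mul hz2 hz3 h2 (by positivity)) ?_ (by positivity)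
        exact mul_nonneg (by positivity) h2
    _ = (2 * (2 * π * Real.exp 1) ^ β * (T ^ k * (H * H ^ (-β)))) *
        Real.exp ((-(x ^ 2 / 4) + x) + (2 * β * x) + (k * x)) := by
        rw [Real.exp_add ((-(x ^ 2 / 4) + x) + (2 * β * x)), Real.exp_add (-(x ^ 2 / 4) + x)]
        ring
    _ ≤ (2 * (2 * π * Real.exp 1) ^ β * (T ^ k * (H * H ^ (-β)))) *
        Real.exp (2 * c ^ 2 + -(H ^ 2 / 8) * ξ ^ 2) := by
        have h2 : x ^ 2 = H ^ 2 * ξ ^ 2 := by rw [hx, sq_abs, mul_pow]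
        have h3 : (-(x ^ 2 / 4) + x) + (2 * β * x) + (k * x) ≤
            2 * c ^ 2 + -(H ^ 2 / 8) * ξ ^ 2 := by
          have h4 : -(H ^ 2 / 8) * ξ ^ 2 = -(x ^ 2 / 8) := by rw [h2]; ring
          rw [h4]
          have h5 : (-(x ^ 2 / 4) + x) + (2 * β * x) + (k * x) = -(x ^ 2 / 4) + c * x := by
            rw [hc]; ring
          rw [h5]
          nlinarith [sq_nonneg (x - 4 * c)]
        exact mul_le_mul_of_nonneg_left (Real.exp_le_exp.2 h3) (by positivity)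
    _ = _ := by rw [Real.exp_add]; ring

/-- **M1.** -/
theorem ker_moment (β : ℝ) (hβ : 0 ≤ β) (k : ℕ) : ∃ C T₀ : ℝ, ∀ T ≥ T₀, ∀ τ, 0 ≤ τ → τ ≤ T →
    Integrable (fun ξ : ℝ => ‖ker T τ ξ‖ * (‖zz T ξ‖ ^ β / (zz T ξ).re ^ k)) ∧
    ∫ ξ : ℝ, ‖ker T τ ξ‖ * (‖zz T ξ‖ ^ β / (zz T ξ).re ^ k) ≤
      C * (T ^ ((k : ℝ) - β) * Real.log T ^ β) := by
  set C0 : ℝ := 2 * (2 * π * Real.exp 1) ^ β * Real.exp (2 * (1 + 2 * β + k) ^ 2) with hC0
  refine ⟨C0 * √(8 * π), Real.exp 1, ?_⟩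
  intro T hT τ h0 h1
  have hT0 : 0 < T := (Real.exp_pos 1).trans_le hT
  have hT1 : 1 < T := (Real.one_lt_exp_iff.2 one_pos).trans_le hT
  have hlog : 1 ≤ Real.log T := by
    rw [Real.le_log_iff_exp_le hT0]; exact hT
  have hlog0 : 0 < Real.log T := by linarith
  have hH : 0 < HH T := div_pos hT0 hlog0
  have hb : 0 < HH T ^ 2 / 8 := by positivity
  have hint : Integrable (fun ξ : ℝ => (C0 * (T ^ k * (HH T * HH T ^ (-β)))) *
      Real.exp (-(HH T ^ 2 / 8) * ξ ^ 2)) := (integrable_exp_neg_mul_sq hb).const_mul _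
  have hcont : Continuous (fun ξ : ℝ => ‖ker T τ ξ‖ * (‖zz T ξ‖ ^ β / (zz T ξ).re ^ k)) := by
    have hc1 := km_cont_ker T τ
    have hc2 := km_cont_zz T
    refine hc1.norm.mul (Continuous.div ?_ ?_ ?_)
    · exact hc2.norm.rpow_const (fun _ => Or.inr hβ)
    · exact (Complex.continuous_re.comp hc2).pow k
    · intro ξ
      exact pow_ne_zero _ (zz_re_pos hT1 ξ).ne'
  have hnn : ∀ ξ : ℝ, 0 ≤ ‖ker T τ ξ‖ * (‖zz T ξ‖ ^ β / (zz T ξ).re ^ k) := by
    intro ξ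
    have := zz_re_pos hT1 ξ
    positivity
  have hI : Integrable (fun ξ : ℝ => ‖ker T τ ξ‖ * (‖zz T ξ‖ ^ β / (zz T ξ).re ^ k)) := by
    refine hint.mono' hcont.aestronglyMeasurable (Eventually.of_forall fun ξ => ?_)
    rw [Real.norm_eq_abs, abs_of_nonneg (hnn ξ)]
    exact km_point β hβ k hT h0 h1 ξ
  refine ⟨hI, ?_⟩
  calc ∫ ξ : ℝ, ‖ker T τ ξ‖ * (‖zz T ξ‖ ^ β / (zz T ξ).re ^ k)
      ≤ ∫ ξ : ℝ, (C0 * (T ^ k * (HH T * HH T ^ (-β)))) * Real.exp (-(HH T ^ 2 / 8) * ξ ^ 2) :=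
        integral_mono hI hint (fun ξ => km_point β hβ k hT h0 h1 ξ)
    _ = (C0 * (T ^ k * (HH T * HH T ^ (-β)))) * √(π / (HH T ^ 2 / 8)) := by
        rw [integral_const_mul, integral_gaussian]
    _ = C0 * √(8 * π) * (T ^ ((k : ℝ) - β) * Real.log T ^ β) := by
        have h2 : π / (HH T ^ 2 / 8) = (8 * π) / HH T ^ 2 := by
          field_simp
        rw [h2, Real.sqrt_div' _ (by positivity), Real.sqrt_sq hH.le]
        have h3 : HH T ^ (-β) = T ^ (-β) * Real.log T ^ β := by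
          unfold HH
          rw [Real.div_rpow hT0.le hlog0.le, Real.rpow_neg hlog0.le, div_inv_eq_mul]
        have h4 : T ^ ((k : ℝ) - β) = T ^ k * T ^ (-β) := by
          rw [sub_eq_add_neg, Real.rpow_add hT0, Real.rpow_natCast]
        rw [h3, h4]
        field_simp

/-- **M2.** -/
theorem VV_zero {δ : ℝ} (hδ : 0 < δ) (A : ℝ) : ∃ T₀ : ℝ, ∀ T ≥ T₀, ∀ τ, δ * T ≤ τ → τ ≤ T →
    ‖VV T τ 0‖ ≤ T ^ (-A) := by
  refine ⟨Real.exp (max 1 ((|A| + 1) / δ ^ 2)), ?_⟩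
  intro T hT τ h0 h1
  have hT0 : 0 < T := (Real.exp_pos _).trans_le hT
  have hlogm : max 1 ((|A| + 1) / δ ^ 2) ≤ Real.log T := by
    rw [Real.le_log_iff_exp_le hT0]; exact hT
  have hlog : 1 ≤ Real.log T := (le_max_left _ _).trans hlogm
  have hlog2 : (|A| + 1) / δ ^ 2 ≤ Real.log T := (le_max_right _ _).trans hlogm
  have hlog0 : 0 < Real.log T := by linarith
  have hH : 0 < HH T := div_pos hT0 hlog0
  have hH1 : 1 ≤ HH T := by
    unfold HH
    rw [le_div_iff₀ hlog0, one_mul]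
    exact Real.log_le_self hT0.le
  have e1 : ‖VV T τ 0‖ = Real.exp ((1 / 4 - τ ^ 2) / HH T ^ 2) := by
    unfold VV
    rw [Complex.norm_exp]
    congr 1
    have : (0 - (1 / 2 + (τ : ℂ) * I)) ^ 2 / (HH T : ℂ) ^ 2 =
        (((1 / 4 - τ ^ 2) / HH T ^ 2 : ℝ) : ℂ) + ((τ / HH T ^ 2 : ℝ) : ℂ) * I := by
      push_cast
      have h2 : (HH T : ℂ) ≠ 0 := by exact_mod_cast hH.ne'
      field_simp
      linear_combination ((τ : ℂ) ^ 2 * 16) * Complex.I_sq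
    rw [this, Complex.add_re, Complex.ofReal_re, Complex.mul_I_re, Complex.ofReal_im, neg_zero,
      add_zero]
  rw [e1, Real.rpow_def_of_pos hT0]
  apply Real.exp_le_exp.2
  have hδT : 0 ≤ δ * T := by positivity
  have h2 : (δ * T) ^ 2 ≤ τ ^ 2 := pow_le_pow_left₀ hδT h0 2
  have h3 : δ ^ 2 * Real.log T ^ 2 * HH T ^ 2 = (δ * T) ^ 2 := by
    unfold HH
    field_simp
  have h4 : (1 / 4 - τ ^ 2) / HH T ^ 2 ≤ 1 / 4 - δ ^ 2 * Real.log T ^ 2 := by
    rw [div_le_iff₀ (by positivity), sub_mul, h3]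
    have h5 : 1 ≤ HH T ^ 2 := one_le_pow₀ hH1
    linarith
  refine h4.trans ?_
  have h5 : |A| + 1 ≤ δ ^ 2 * Real.log T := by
    rw [div_le_iff₀ (by positivity)] at hlog2
    linarith
  have h6 : (|A| + 1) * Real.log T ≤ δ ^ 2 * Real.log T ^ 2 := by
    have := mul_le_mul_of_nonneg_right h5 hlog0.le
    calc (|A| + 1) * Real.log T ≤ δ ^ 2 * Real.log T * Real.log T := this
      _ = _ := by ring
  have h7 : A * Real.log T ≤ |A| * Real.log T :=
    mul_le_mul_of_nonneg_right (le_abs_self A) hlog0.le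
  nlinarith

end S6

end

section

namespace SG
open Complex MeasureTheory Filter Topology Set
open scoped Real ComplexConjugate

private theorem A6_map {t : ℝ} (ht : 0 < t) :
    Measure.map (Prod.map (fun v : V2 => t • v) (fun v : V2 => v)) (volume : Measure X4) =
      ENNReal.ofReal (t ^ 2)⁻¹ • (volume : Measure X4) := by
  have e1 : Measure.map (fun v : V2 => t • v) volume =
      ENNReal.ofReal (t ^ 2)⁻¹ • (volume : Measure V2) := by
    rw [Measure.map_addHaar_smul _ ht.ne']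
    simp [abs_of_pos, ht]
  rw [Measure.volume_eq_prod V2 V2, ← Measure.map_prod_map volume volume
    (measurable_const_smul t) measurable_id', e1, Measure.map_id', Measure.prod_smul_left]

private theorem A6_int {t : ℝ} (ht : 0 < t) (F : X4 → ℂ) :
    ∫ g : X4, F g = (t : ℂ) ^ 2 * ∫ g : X4, F (t • g.1, g.2) := by
  let S : X4 ≃ₜ X4 := (Homeomorph.smulOfNeZero t ht.ne').prodCongr (Homeomorph.refl V2)
  have h1 : ∫ g : X4, F (t • g.1, g.2) = ∫ g, F g ∂(Measure.map S volume) := by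
    rw [S.measurableEmbedding.integral_map]
    rfl
  have h2 : Measure.map S (volume : Measure X4) = ENNReal.ofReal (t ^ 2)⁻¹ • (volume : Measure X4) :=
    A6_map ht
  rw [h1, h2, integral_smul_measure, ENNReal.toReal_ofReal (by positivity)]
  rw [Complex.real_smul]
  have : (t : ℂ) ≠ 0 := by exact_mod_cast ht.ne'
  push_cast
  field_simp

private def A6_to (h s : ℕ) (hh : 0 < h) (γ : {γ : SLZ // PG (h * s) γ}) : {γ : SLZ // PA h s γ} :=
  ⟨⟨!![γ.1.1 0 0, h * γ.1.1 0 1; γ.1.1 1 0 / h, γ.1.1 1 1], by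
    have h1 : (h : ℤ) ∣ γ.1.1 1 0 := (Dvd.intro (s : ℤ) (by push_cast; ring) : (h : ℤ) ∣ ((h * s : ℕ) : ℤ)).trans γ.2
    have h2 := γ.1.2
    rw [Matrix.det_fin_two] at h2
    rw [Matrix.det_fin_two_of]
    obtain ⟨k, hk⟩ := h1
    have hh' : (h : ℤ) ≠ 0 := by exact_mod_cast hh.ne'
    rw [hk] at h2 ⊢
    rw [Int.mul_ediv_cancel_left _ hh']
    linarith⟩, by
    constructor
    · show (h : ℤ) ∣ h * γ.1.1 0 1
      exact Dvd.intro _ rfl
    · show (s : ℤ) ∣ γ.1.1 1 0 / h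
      have hh' : (h : ℤ) ≠ 0 := by exact_mod_cast hh.ne'
      obtain ⟨k, hk⟩ := γ.2
      rw [hk]
      push_cast
      rw [mul_assoc, Int.mul_ediv_cancel_left _ hh']
      exact Dvd.intro _ rfl⟩

private def A6_inv (h s : ℕ) (hh : 0 < h) (γ : {γ : SLZ // PA h s γ}) : {γ : SLZ // PG (h * s) γ} :=
  ⟨⟨!![γ.1.1 0 0, γ.1.1 0 1 / h; h * γ.1.1 1 0, γ.1.1 1 1], by
    have h2 := γ.1.2
    rw [Matrix.det_fin_two] at h2
    rw [Matrix.det_fin_two_of]
    obtain ⟨k, hk⟩ := γ.2.1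
    have hh' : (h : ℤ) ≠ 0 := by exact_mod_cast hh.ne'
    rw [hk] at h2 ⊢
    rw [Int.mul_ediv_cancel_left _ hh']
    linarith⟩, by
    show ((h * s : ℕ) : ℤ) ∣ h * γ.1.1 1 0
    push_cast
    exact mul_dvd_mul_left _ γ.2.2⟩

private def A6_equiv (h s : ℕ) (hh : 0 < h) : {γ : SLZ // PG (h * s) γ} ≃ {γ : SLZ // PA h s γ} where
  toFun := A6_to h s hh
  invFun := A6_inv h s hh
  left_inv := by
    intro γ
    have hh' : (h : ℤ) ≠ 0 := by exact_mod_cast hh.ne'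
    have h1 : (h : ℤ) ∣ γ.1.1 1 0 := (Dvd.intro (s : ℤ) (by push_cast; ring) : (h : ℤ) ∣ ((h * s : ℕ) : ℤ)).trans γ.2
    apply Subtype.ext
    apply Subtype.ext
    ext i j
    fin_cases i <;> fin_cases j
    · rfl
    · show (h * γ.1.1 0 1) / h = γ.1.1 0 1
      exact Int.mul_ediv_cancel_left _ hh'
    · show h * (γ.1.1 1 0 / h) = γ.1.1 1 0
      exact Int.mul_ediv_cancel' h1
    · rfl
  right_inv := by
    intro γ
    have hh' : (h : ℤ) ≠ 0 := by exact_mod_cast hh.ne'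
    apply Subtype.ext
    apply Subtype.ext
    ext i j
    fin_cases i <;> fin_cases j
    · rfl
    · show h * (γ.1.1 0 1 / h) = γ.1.1 0 1
      exact Int.mul_ediv_cancel' γ.2.1
    · show (h * γ.1.1 1 0) / h = γ.1.1 1 0
      exact Int.mul_ediv_cancel_left _ hh'
    · rfl

/-- **A6.** `[[a, h b],[s c, d]] ↔ [[a, b],[h s c, d]]` is a bijection and
`act [[a,hb],[sc,d]] (h u, v) = (h u', v')` with `(u',v') = act [[a,b],[hsc,d]] (u,v)`; the substitution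
`g = (h u, v)` multiplies `dg` by `h²`. -/
theorem pairA_eq {h s : ℕ} (hh : 0 < h) {φ : X4 → ℂ} (hφ : Adm φ) :
    pair (PA h s) φ φ = (h : ℂ) ^ 2 * pair (PG (h * s)) (fun g => φ ((h : ℝ) • g.1, g.2))
      (fun g => φ ((h : ℝ) • g.1, g.2)) := by
  unfold pair
  rw [← (A6_equiv h s hh).tsum_eq, ← tsum_mul_left]
  apply tsum_congr
  intro γ
  have hh0 : (0 : ℝ) < h := by exact_mod_cast hh
  rw [A6_int hh0]
  push_cast
  congr 2
  funext g
  congr 3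
  have h1 : (h : ℤ) ∣ γ.1.1 1 0 := (Dvd.intro (s : ℤ) (by push_cast; ring) : (h : ℤ) ∣ ((h * s : ℕ) : ℤ)).trans γ.2
  obtain ⟨k, hk⟩ := h1
  have hh' : (h : ℤ) ≠ 0 := by exact_mod_cast hh.ne'
  have e00 : ((A6_equiv h s hh) γ).1.1 0 0 = γ.1.1 0 0 := rfl
  have e01 : ((A6_equiv h s hh) γ).1.1 0 1 = h * γ.1.1 0 1 := rfl
  have e10 : ((A6_equiv h s hh) γ).1.1 1 0 = k := by
    show γ.1.1 1 0 / h = k
    rw [hk, Int.mul_ediv_cancel_left _ hh']
  have e11 : ((A6_equiv h s hh) γ).1.1 1 1 = γ.1.1 1 1 := rfl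
  unfold act
  rw [e00, e01, e10, e11, hk]
  ext <;> simp <;> ring

end SG

end
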