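import Pool.Agent.Lib.MP_069854_nt.Part02
import Pool.Agent.Lib.MP_39df77_nt.S6Defs

section

namespace S6
open Complex MeasureTheory Filter Topology Set
open scoped Real ComplexConjugate

/-- one residue class -/
theorem DDh_one (q : ℕ) [NeZero q] (a : ZMod q) {s : ℂ} (hs : 1 < s.re) :
    HasSum (fun n : ℕ => if ((n + 1 : ℕ) : ZMod q) = a then ((n + 1 : ℕ) : ℂ) ^ (-s) else 0)
      ((q : ℂ) ^ (-s) * HurwitzZeta.hurwitzZeta (ZMod.toAddCircle a) s) := by
  classical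
  set Φ : ZMod q → ℂ := fun j => if j = a then 1 else 0 with hΦ
  have h1 : (q : ℂ) ^ (-s) * HurwitzZeta.hurwitzZeta (ZMod.toAddCircle a) s =
      ZMod.LFunction Φ s := by
    unfold ZMod.LFunction
    congr 1
    rw [Finset.sum_eq_single a]
    · simp [hΦ]
    · intro b _ hb
      simp [hΦ, hb]
    · intro h
      exact absurd (Finset.mem_univ a) h
  rw [h1, ZMod.LFunction_eq_LSeries Φ hs]
  have h2 : LSeriesSummable (fun n : ℕ => Φ (n : ZMod q)) s := ZMod.LSeriesSummable_of_one_lt_re Φ hs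
  have h3 : HasSum (LSeries.term (fun n : ℕ => Φ (n : ZMod q)) s)
      (LSeries (fun n : ℕ => Φ (n : ZMod q)) s) := h2.hasSum
  have h4 := (hasSum_nat_add_iff' 1).mpr h3
  rw [Finset.sum_range_one, LSeries.term_zero, sub_zero] at h4
  refine h4.congr_fun ?_
  intro n
  rw [LSeries.term_of_ne_zero (by omega)]
  simp only [hΦ]
  split_ifs with h
  · rw [cpow_neg, one_div]
  · rw [zero_div]

theorem DDh_mul2 {f : ℕ → ℂ} {k : ℕ × ℕ → ℂ} {A B : ℂ} (hf : HasSum f A) (hk : HasSum k B) :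
    HasSum (fun n : ℕ × ℕ × ℕ => f n.1 * k n.2) (A * B) :=
  hf.mul hk (summable_mul_of_summable_norm hf.summable.norm hk.summable.norm)

theorem DDh_mul1 {g k : ℕ → ℂ} {A B : ℂ} (hg : HasSum g A) (hk : HasSum k B) :
    HasSum (fun n : ℕ × ℕ => g n.1 * k n.2) (A * B) :=
  hg.mul hk (summable_mul_of_summable_norm hg.summable.norm hk.summable.norm)

theorem DDh_mul3 {f g k : ℕ → ℂ} {A B C : ℂ} (hf : HasSum f A) (hg : HasSum g B)
    (hk : HasSum k C) :
    HasSum (fun n : ℕ × ℕ × ℕ => f n.1 * (g n.2.1 * k n.2.2)) (A * (B * C)) :=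
  DDh_mul2 (k := fun n : ℕ × ℕ => g n.1 * k n.2) hf (DDh_mul1 hg hk)

/-- the terms of one residue class -/
noncomputable def DDh_t (q : ℕ) (s : ℂ) (a : ZMod q) (n : ℕ) : ℂ :=
  haveI := Classical.dec (((n + 1 : ℕ) : ZMod q) = a)
  if ((n + 1 : ℕ) : ZMod q) = a then ((n + 1 : ℕ) : ℂ) ^ (-s) else 0

theorem DDh_t_self (q : ℕ) (s : ℂ) (n : ℕ) :
    DDh_t q s ((n + 1 : ℕ) : ZMod q) n = ((n + 1 : ℕ) : ℂ) ^ (-s) := by
  unfold DDh_t
  exact if_pos rfl

theorem DDh_t_ne (q : ℕ) (s : ℂ) (a : ZMod q) (n : ℕ) (h : a ≠ ((n + 1 : ℕ) : ZMod q)) :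
    DDh_t q s a n = 0 := by
  unfold DDh_t
  exact if_neg (Ne.symm h)

/-- the value of one residue class -/
noncomputable def DDh_v (q : ℕ) [NeZero q] (s : ℂ) (a : ZMod q) : ℂ :=
  (q : ℂ) ^ (-s) * HurwitzZeta.hurwitzZeta (ZMod.toAddCircle a) s

theorem DDh_hasSum (q : ℕ) [NeZero q] (a : ZMod q) {s : ℂ} (hs : 1 < s.re) :
    HasSum (DDh_t q s a) (DDh_v q s a) := by
  unfold DDh_v
  refine (DDh_one q a hs).congr_fun ?_
  intro n
  unfold DDh_t
  by_cases h : ((n + 1 : ℕ) : ZMod q) = a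
  · rw [if_pos h, if_pos h]
  · rw [if_neg h, if_neg h]

/-- **D1.** Group the sum over `n` by residues mod `q`; `hasSum_hurwitzZeta_of_one_lt_re`
(`hurwitzZeta (a/q) s = ∑_{n≥0} (n+a/q)^{-s}`, with the term `n = 0` equal to `0` when `a = 0`). -/
theorem DD_hasSum (q : ℕ) [NeZero q] (h : ZMod q) {s : ℂ} (hs : 1 < s.re) :
    HasSum (fun n : ℕ × ℕ × ℕ =>
      ZMod.stdAddChar (-(h * (((n.1 + 1) * (n.2.1 + 1) * (n.2.2 + 1) : ℕ) : ZMod q))) *
        ((((n.1 + 1) * (n.2.1 + 1) * (n.2.2 + 1) : ℕ) : ℂ) ^ (-s))) (DD q h s) := by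
  classical
  have key := hasSum_sum (s := (Finset.univ : Finset (ZMod q))) (fun a _ =>
    hasSum_sum (s := (Finset.univ : Finset (ZMod q))) (fun b _ =>
      hasSum_sum (s := (Finset.univ : Finset (ZMod q))) (fun c _ =>
        (DDh_mul3 (DDh_hasSum q a hs) (DDh_hasSum q b hs) (DDh_hasSum q c hs)).mul_left
          (ZMod.stdAddChar (-(h * a * b * c))))))
  have hval : DD q h s = ∑ a : ZMod q, ∑ b : ZMod q, ∑ c : ZMod q,
      ZMod.stdAddChar (-(h * a * b * c)) * (DDh_v q s a * (DDh_v q s b * DDh_v q s c)) := by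
    unfold DD DDh_v
    have hq : (q : ℂ) ^ (-(3 * s)) = ((q : ℂ) ^ (-s)) ^ 3 := by
      rw [← cpow_nat_mul]
      congr 1
      push_cast
      ring
    rw [hq, Finset.mul_sum]
    apply Finset.sum_congr rfl
    intro a _
    rw [Finset.mul_sum]
    apply Finset.sum_congr rfl
    intro b _
    rw [Finset.mul_sum]
    apply Finset.sum_congr rfl
    intro c _
    ring
  rw [hval]
  refine key.congr_fun ?_
  rintro ⟨n1, n2, n3⟩
  show ZMod.stdAddChar (-(h * (((n1 + 1) * (n2 + 1) * (n3 + 1) : ℕ) : ZMod q))) *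
      ((((n1 + 1) * (n2 + 1) * (n3 + 1) : ℕ) : ℂ) ^ (-s)) =
    ∑ a : ZMod q, ∑ b : ZMod q, ∑ c : ZMod q,
      ZMod.stdAddChar (-(h * a * b * c)) * (DDh_t q s a n1 * (DDh_t q s b n2 * DDh_t q s c n3))
  rw [Finset.sum_eq_single ((n1 + 1 : ℕ) : ZMod q)]
  · rw [Finset.sum_eq_single ((n2 + 1 : ℕ) : ZMod q)]
    · rw [Finset.sum_eq_single ((n3 + 1 : ℕ) : ZMod q)]
      · rw [DDh_t_self, DDh_t_self, DDh_t_self]
        have e1 : (((n1 + 1) * (n2 + 1) * (n3 + 1) : ℕ) : ZMod q) =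
            ((n1 + 1 : ℕ) : ZMod q) * ((n2 + 1 : ℕ) : ZMod q) * ((n3 + 1 : ℕ) : ZMod q) := by
          rw [Nat.cast_mul, Nat.cast_mul]
        have e2 : (((n1 + 1) * (n2 + 1) * (n3 + 1) : ℕ) : ℂ) ^ (-s) =
            ((n1 + 1 : ℕ) : ℂ) ^ (-s) * (((n2 + 1 : ℕ) : ℂ) ^ (-s) * ((n3 + 1 : ℕ) : ℂ) ^ (-s)) := by
          rw [Nat.cast_mul, natCast_mul_natCast_cpow, Nat.cast_mul, natCast_mul_natCast_cpow]
          ring
        rw [e1, e2, mul_assoc h, mul_assoc h, mul_assoc]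
      · intro c _ hc
        rw [DDh_t_ne q s c n3 hc, mul_zero, mul_zero, mul_zero]
      · intro hh
        exact absurd (Finset.mem_univ _) hh
    · intro b _ hb
      apply Finset.sum_eq_zero
      intro c _
      rw [DDh_t_ne q s b n2 hb, zero_mul, mul_zero, mul_zero]
    · intro hh
      exact absurd (Finset.mem_univ _) hh
  · intro a _ ha
    apply Finset.sum_eq_zero
    intro b _
    apply Finset.sum_eq_zero
    intro c _
    rw [DDh_t_ne q s a n1 ha, zero_mul, mul_zero]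
  · intro hh
    exact absurd (Finset.mem_univ _) hh

end S6

end

section

namespace S6
open Complex MeasureTheory Filter Topology Set
open scoped Real ComplexConjugate

-- BEGIN vshift

theorem vs_int {f : ℝ → ℂ} (hf : Continuous f) {C : ℝ} (h : ∀ y, ‖f y‖ ≤ C / (1 + |y|) ^ 2) :
    Integrable f := by
  have hC : 0 ≤ C := by
    have := (norm_nonneg _).trans (h 0)
    simpa using this
  refine (integrable_inv_one_add_sq.const_mul C).mono' hf.aestronglyMeasurable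
    (Filter.Eventually.of_forall fun y => (h y).trans ?_)
  rw [div_eq_mul_inv]
  refine mul_le_mul_of_nonneg_left (inv_anti₀ (by positivity) ?_) hC
  nlinarith [abs_nonneg y, sq_abs y]

theorem vs_cont {a b x : ℝ} (hx : a ≤ x) (hx' : x ≤ b) {F : ℂ → ℂ}
    (hF : ∀ s : ℂ, a ≤ s.re → s.re ≤ b → DifferentiableAt ℂ F s) :
    Continuous fun y : ℝ => F (x + y * I) := by
  refine continuous_iff_continuousAt.2 fun y => ?_
  have h1 : ContinuousAt F (x + y * I) := (hF _ (by simpa using hx) (by simpa using hx')).continuousAt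
  have h2 : ContinuousAt (fun y : ℝ => (x + y * I : ℂ)) y := by fun_prop
  exact ContinuousAt.comp (f := fun y : ℝ => (x + y * I : ℂ)) h1 h2

/-- **A6a.** -/
theorem vshift0 {a b : ℝ} (hab : a ≤ b) {F : ℂ → ℂ}
    (hF : ∀ s : ℂ, a ≤ s.re → s.re ≤ b → DifferentiableAt ℂ F s) {C : ℝ}
    (hC : ∀ s : ℂ, a ≤ s.re → s.re ≤ b → ‖F s‖ ≤ C / (1 + |s.im|) ^ 2) :
    ∫ y : ℝ, F (a + y * I) = ∫ y : ℝ, F (b + y * I) := by
  have key : ∀ R : ℝ, (∫ x : ℝ in a..b, F (x + ((-R : ℝ) : ℂ) * I)) -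
      (∫ x : ℝ in a..b, F (x + (R : ℂ) * I)) +
      I • (∫ y : ℝ in (-R)..R, F (b + y * I)) - I • (∫ y : ℝ in (-R)..R, F (a + y * I)) = 0 := by
    intro R
    have h := Complex.integral_boundary_rect_eq_zero_of_differentiableOn F
      (a + ((-R : ℝ) : ℂ) * I) (b + (R : ℂ) * I) ?_
    · have e1 : ((a : ℂ) + ((-R : ℝ) : ℂ) * I).re = a := by simp
      have e2 : ((a : ℂ) + ((-R : ℝ) : ℂ) * I).im = -R := by simp
      have e3 : ((b : ℂ) + (R : ℂ) * I).re = b := by simp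
      have e4 : ((b : ℂ) + (R : ℂ) * I).im = R := by simp
      rw [e1, e2, e3, e4] at h
      exact h
    · intro s hs
      have h1 := hs.1
      have e1 : ((a : ℂ) + ((-R : ℝ) : ℂ) * I).re = a := by simp
      have e3 : ((b : ℂ) + (R : ℂ) * I).re = b := by simp
      rw [e1, e3, Set.uIcc_of_le hab] at h1
      exact (hF s h1.1 h1.2).differentiableWithinAt
  have hCa := vs_int (vs_cont le_rfl hab hF) (C := C) (fun y => by
    have := hC (a + y * I) (by simp) (by simpa using hab)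
    simpa using this)
  have hCb := vs_int (vs_cont hab le_rfl hF) (C := C) (fun y => by
    have := hC (b + y * I) (by simpa using hab) (by simp)
    simpa using this)
  have hC0 : 0 ≤ C := by
    have h1 := (norm_nonneg _).trans (hC (a : ℂ) (by simp) (by simpa using hab))
    simpa using h1
  have hz : Tendsto (fun R : ℝ => C / (1 + |R|) ^ 2 * |b - a|) atTop (𝓝 0) := by
    have h1 : Tendsto (fun R : ℝ => (1 + |R|) ^ 2) atTop atTop := by
      refine (tendsto_pow_atTop (by norm_num)).comp ?_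
      exact tendsto_atTop_add_const_left _ _ tendsto_abs_atTop_atTop
    have h2 := (h1.const_div_atTop C).mul_const (|b - a|)
    simpa using h2
  have hhor : ∀ (u : ℝ → ℝ), (∀ R, |u R| = |R|) → Tendsto (fun R : ℝ =>
      ∫ x : ℝ in a..b, F (x + ((u R : ℝ) : ℂ) * I)) atTop (𝓝 0) := by
    intro u hu
    refine squeeze_zero_norm (fun R => ?_) hz
    refine intervalIntegral.norm_integral_le_of_norm_le_const fun x hx => ?_
    rw [Set.uIoc_of_le hab] at hx
    have h1 := hC (x + ((u R : ℝ) : ℂ) * I) (by simpa using hx.1.le) (by simpa using hx.2)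
    have h2 : ((x : ℂ) + ((u R : ℝ) : ℂ) * I).im = u R := by simp
    rw [h2, hu] at h1
    exact h1
  have hL1 := hhor (fun R => -R) (fun R => abs_neg R)
  have hL2 := hhor (fun R => R) (fun R => rfl)
  have hV1 := intervalIntegral_tendsto_integral hCb (tendsto_neg_atTop_atBot) tendsto_id
  have hV2 := intervalIntegral_tendsto_integral hCa (tendsto_neg_atTop_atBot) tendsto_id
  have hall := ((hL1.sub hL2).add (hV1.const_smul I)).sub (hV2.const_smul I)
  have hzero : Tendsto (fun _ : ℝ => (0 : ℂ)) atTop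
      (𝓝 (0 - 0 + I • (∫ y : ℝ, F (b + y * I)) - I • ∫ y : ℝ, F (a + y * I))) := by
    refine hall.congr fun R => ?_
    exact key R
  have h0 := tendsto_nhds_unique hzero tendsto_const_nhds
  have h1 : I * ((∫ y : ℝ, F (b + y * I)) - ∫ y : ℝ, F (a + y * I)) = 0 := by
    simp only [smul_eq_mul] at h0
    linear_combination h0
  have h2 := (mul_eq_zero.1 h1).resolve_left I_ne_zero
  exact (sub_eq_zero.1 h2).symm

theorem vs_low {x : ℝ} (hx : x ≠ 0) : ∃ c : ℝ, 0 < c ∧ ∀ u : ℝ, c * (1 + |u|) ≤ ‖(x : ℂ) + u * I‖ := by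
  refine ⟨min |x| 1 / 2, by have := abs_pos.2 hx; positivity, fun u => ?_⟩
  have h1 : |x| ≤ ‖(x : ℂ) + u * I‖ := by
    have := Complex.abs_re_le_norm ((x : ℂ) + u * I)
    simpa using this
  have h2 : |u| ≤ ‖(x : ℂ) + u * I‖ := by
    have := Complex.abs_im_le_norm ((x : ℂ) + u * I)
    simpa using this
  have h3 : min |x| 1 ≤ |x| := min_le_left _ _
  have h4 : min |x| 1 ≤ 1 := min_le_right _ _
  have h5 : 0 ≤ |u| := abs_nonneg u
  nlinarith

theorem vs_line_ne {x : ℝ} (hx : x ≠ 0) (u : ℝ) : (x : ℂ) + u * I ≠ 0 := by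
  intro h
  have := congrArg Complex.re h
  simp at this
  exact hx this

/-- integrability of `1/((x₁+iu)(x₂+iu))` -/
theorem vs_int2 {x₁ x₂ : ℝ} (h₁ : x₁ ≠ 0) (h₂ : x₂ ≠ 0) :
    Integrable fun u : ℝ => (((x₁ : ℂ) + u * I) * ((x₂ : ℂ) + u * I))⁻¹ := by
  obtain ⟨c₁, hc₁, H₁⟩ := vs_low h₁
  obtain ⟨c₂, hc₂, H₂⟩ := vs_low h₂
  refine vs_int (C := (c₁ * c₂)⁻¹) ?_ fun u => ?_
  · refine Continuous.inv₀ (by fun_prop) fun u => ?_
    exact mul_ne_zero (vs_line_ne h₁ u) (vs_line_ne h₂ u)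
  · rw [norm_inv, norm_mul, div_eq_mul_inv, ← mul_inv]
    refine inv_anti₀ (by positivity) ?_
    calc c₁ * c₂ * (1 + |u|) ^ 2 = (c₁ * (1 + |u|)) * (c₂ * (1 + |u|)) := by ring
      _ ≤ _ := mul_le_mul (H₁ u) (H₂ u) (by positivity) (norm_nonneg _)

theorem vs_H1 {x₁ x₂ : ℝ} (h₁ : 0 < x₁) (h₂ : 0 < x₂) :
    ∫ u : ℝ, ((x₂ : ℂ) - x₁) * (((x₁ : ℂ) + u * I) * ((x₂ : ℂ) + u * I))⁻¹ = 0 := by
  have hq : ∀ u : ℝ, ((x₁ : ℂ) + u * I) / ((x₂ : ℂ) + u * I) ∈ Complex.slitPlane := by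
    intro u
    left
    rw [Complex.div_re]
    have e1 : ((x₁ : ℂ) + u * I).re = x₁ := by simp
    have e2 : ((x₁ : ℂ) + u * I).im = u := by simp
    have e3 : ((x₂ : ℂ) + u * I).re = x₂ := by simp
    have e4 : ((x₂ : ℂ) + u * I).im = u := by simp
    rw [e1, e2, e3, e4]
    have hn : 0 < Complex.normSq ((x₂ : ℂ) + u * I) :=
      Complex.normSq_pos.2 (vs_line_ne h₂.ne' u)
    have : 0 < x₁ * x₂ / Complex.normSq ((x₂ : ℂ) + u * I) := by positivity
    have : 0 ≤ u * u / Complex.normSq ((x₂ : ℂ) + u * I) :=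
      div_nonneg (mul_self_nonneg u) hn.le
    linarith
  have hlin : ∀ (x : ℝ) (u : ℝ), HasDerivAt (fun u : ℝ => (x : ℂ) + u * I) I u := by
    intro x u
    have h := ((Complex.ofRealCLM.hasDerivAt (x := u)).mul_const I).const_add (x : ℂ)
    simpa using h
  have hder : ∀ u : ℝ, HasDerivAt (fun u : ℝ => -I * Complex.log (((x₁ : ℂ) + u * I) / ((x₂ : ℂ) + u * I)))
      (((x₂ : ℂ) - x₁) * (((x₁ : ℂ) + u * I) * ((x₂ : ℂ) + u * I))⁻¹) u := by
    intro u
    have hn1 := vs_line_ne h₁.ne' u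
    have hn2 := vs_line_ne h₂.ne' u
    have hd : HasDerivAt (fun u : ℝ => ((x₁ : ℂ) + u * I) / ((x₂ : ℂ) + u * I))
        ((I * ((x₂ : ℂ) + u * I) - ((x₁ : ℂ) + u * I) * I) / ((x₂ : ℂ) + u * I) ^ 2) u :=
      (hlin x₁ u).div (hlin x₂ u) hn2
    have hl := (HasDerivAt.clog_real hd (hq u)).const_mul (-I)
    refine hl.congr_deriv ?_
    have key : ∀ A B : ℂ, A ≠ 0 → B ≠ 0 →
        -I * ((I * B - A * I) / B ^ 2 / (A / B)) = (B - A) * (A * B)⁻¹ := by
      intro A B hA hB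
      have e1 : -I * ((I * B - A * I) / B ^ 2 / (A / B)) =
          -(I * I) * ((B - A) / B ^ 2 / (A / B)) := by ring
      rw [e1, Complex.I_mul_I]
      field_simp
    rw [key _ _ hn1 hn2]
    congr 1
    ring
  have hlim : ∀ l : Filter ℝ, Tendsto (fun u : ℝ => |u|) l atTop →
      Tendsto (fun u : ℝ => -I * Complex.log (((x₁ : ℂ) + u * I) / ((x₂ : ℂ) + u * I))) l (𝓝 0) := by
    intro l hl
    have h1 : Tendsto (fun u : ℝ => ((x₁ : ℂ) + u * I) / ((x₂ : ℂ) + u * I)) l (𝓝 1) := by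
      rw [tendsto_iff_norm_sub_tendsto_zero]
      have h2 : Tendsto (fun u : ℝ => |x₁ - x₂| / |u|) l (𝓝 0) := hl.const_div_atTop _
      refine squeeze_zero' (Filter.Eventually.of_forall fun u => norm_nonneg _) ?_ h2
      filter_upwards [hl.eventually (eventually_gt_atTop 0)] with u hu
      have hn2 := vs_line_ne h₂.ne' u
      have e : ((x₁ : ℂ) + u * I) / ((x₂ : ℂ) + u * I) - 1 =
          ((x₁ - x₂ : ℝ) : ℂ) / ((x₂ : ℂ) + u * I) := by
        field_simp
        push_cast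
        ring
      rw [e, norm_div, Complex.norm_real, Real.norm_eq_abs]
      refine div_le_div_of_nonneg_left (abs_nonneg _) hu ?_
      have := Complex.abs_im_le_norm ((x₂ : ℂ) + u * I)
      simpa using this
    have h3 := ((continuousAt_clog (x := (1 : ℂ)) (by simp)).tendsto.comp h1).const_mul (-I)
    simpa using h3
  have h := integral_of_hasDerivAt_of_tendsto hder
    ((vs_int2 h₁.ne' h₂.ne').const_mul _) (hlim _ tendsto_abs_atBot_atTop)
    (hlim _ tendsto_abs_atTop_atTop)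
  rw [h, sub_zero]

theorem vs_H2 {x : ℝ} (hx : 0 < x) :
    ∫ u : ℝ, (2 * x : ℂ) * ((((-x : ℝ) : ℂ) + u * I) * ((x : ℂ) + u * I))⁻¹ = -(2 * π) := by
  have e : ∀ u : ℝ, (2 * x : ℂ) * ((((-x : ℝ) : ℂ) + u * I) * ((x : ℂ) + u * I))⁻¹ =
      ((-(2 * x⁻¹) * (1 + (u / x) ^ 2)⁻¹ : ℝ) : ℂ) := by
    intro u
    have hxC : (x : ℂ) ≠ 0 := by exact_mod_cast hx.ne'
    have hp : (1 + (u / x) ^ 2 : ℝ) ≠ 0 := by positivity
    have hpC : (1 + ((u : ℂ) / x) ^ 2) ≠ 0 := by exact_mod_cast hp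
    have h1 : (((-x : ℝ) : ℂ) + u * I) * ((x : ℂ) + u * I) = -((x : ℂ) ^ 2 * (1 + ((u : ℂ) / x) ^ 2)) := by
      have hI : I ^ 2 = -1 := Complex.I_sq
      push_cast
      field_simp
      linear_combination (u : ℂ) ^ 2 * hI
    rw [h1]
    push_cast
    field_simp
  simp_rw [e]
  rw [integral_complex_ofReal, integral_const_mul]
  have h2 : ∫ u : ℝ, (1 + (u / x) ^ 2)⁻¹ = x * π := by
    have h3 := MeasureTheory.Measure.integral_comp_div (fun u : ℝ => (1 + u ^ 2)⁻¹) x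
    rw [h3, integral_univ_inv_one_add_sq, abs_of_pos hx, smul_eq_mul]
  rw [h2]
  push_cast
  have hxC : (x : ℂ) ≠ 0 := by exact_mod_cast hx.ne'
  field_simp

/-- difference quotients: differentiability and decay -/
theorem vs_dslope {a b : ℝ} {p : ℂ} (hap : a < p.re) (hpb : p.re < b) {N : ℂ → ℂ}
    (hN : ∀ s : ℂ, a ≤ s.re → s.re ≤ b → DifferentiableAt ℂ N s) (k : ℕ) {A : ℝ}
    (hA : ∀ s : ℂ, a ≤ s.re → s.re ≤ b → ‖N s - N p‖ ≤ A / (1 + |s.im|) ^ k) :
    (∀ s : ℂ, a ≤ s.re → s.re ≤ b → DifferentiableAt ℂ (dslope N p) s) ∧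
    ∃ A' : ℝ, ∀ s : ℂ, a ≤ s.re → s.re ≤ b → ‖dslope N p s‖ ≤ A' / (1 + |s.im|) ^ (k + 1) := by
  have hd : ∀ s : ℂ, a ≤ s.re → s.re ≤ b → DifferentiableAt ℂ (dslope N p) s := by
    intro s h1 h2
    by_cases hs : s = p
    · subst hs
      have hU : {z : ℂ | a < z.re ∧ z.re < b} ∈ 𝓝 s := by
        have ho : IsOpen {z : ℂ | a < z.re ∧ z.re < b} :=
          (isOpen_lt continuous_const Complex.continuous_re).inter
            (isOpen_lt Complex.continuous_re continuous_const)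
        exact ho.mem_nhds ⟨hap, hpb⟩
      have h3 : DifferentiableOn ℂ N {z : ℂ | a < z.re ∧ z.re < b} := fun z hz =>
        (hN z hz.1.le hz.2.le).differentiableWithinAt
      exact ((Complex.differentiableOn_dslope hU).2 h3).differentiableAt hU
    · exact (differentiableAt_dslope_of_ne hs).2 (hN s h1 h2)
  refine ⟨hd, ?_⟩
  -- the compact part
  have hK : IsCompact (Icc a b ×ℂ Icc (p.im - 1) (p.im + 1)) :=
    isCompact_Icc.reProdIm isCompact_Icc
  have hcont : ContinuousOn (dslope N p) (Icc a b ×ℂ Icc (p.im - 1) (p.im + 1)) := fun s hs =>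
    (hd s hs.1.1 hs.1.2).continuousAt.continuousWithinAt
  obtain ⟨M, hM⟩ := hK.exists_bound_of_continuousOn hcont
  have hA0 : 0 ≤ A := by
    have h1 := (norm_nonneg _).trans (hA p hap.le hpb.le)
    have h2 : 0 < (1 + |p.im|) ^ k := by positivity
    by_contra hneg
    push Not at hneg
    have := div_neg_of_neg_of_pos hneg h2
    linarith
  have hM0 : 0 ≤ M := (norm_nonneg _).trans (hM p ⟨⟨hap.le, hpb.le⟩, by
    constructor <;> simp⟩)
  refine ⟨M * (2 + |p.im|) ^ (k + 1) + A * (2 + |p.im|), fun s h1 h2 => ?_⟩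
  have hs0 : 0 < 1 + |s.im| := by positivity
  by_cases hs : |s.im - p.im| ≤ 1
  · have h3 : ‖dslope N p s‖ ≤ M := hM s ⟨⟨h1, h2⟩, by
      rw [abs_le] at hs
      constructor
      · show p.im - 1 ≤ s.im
        linarith [hs.1]
      · show s.im ≤ p.im + 1
        linarith [hs.2]⟩
    refine h3.trans ?_
    rw [le_div_iff₀ (by positivity)]
    have h4 : 1 + |s.im| ≤ 2 + |p.im| := by
      have : |s.im| ≤ |s.im - p.im| + |p.im| := by
        have := abs_add_le (s.im - p.im) p.im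
        simpa using this
      linarith
    have h5 : (1 + |s.im|) ^ (k + 1) ≤ (2 + |p.im|) ^ (k + 1) := pow_le_pow_left₀ hs0.le h4 _
    have h6 : 0 ≤ A * (2 + |p.im|) := by positivity
    nlinarith [mul_le_mul_of_nonneg_left h5 hM0]
  · push Not at hs
    have hne : s ≠ p := by
      rintro rfl
      simp at hs
      linarith
    rw [dslope_of_ne _ hne, slope_def_module, norm_smul, norm_inv]
    have h3 : |s.im - p.im| ≤ ‖s - p‖ := by
      have := Complex.abs_im_le_norm (s - p)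
      simpa using this
    have h4 : 1 + |s.im| ≤ (2 + |p.im|) * ‖s - p‖ := by
      have h5 : |s.im| ≤ |s.im - p.im| + |p.im| := by
        have := abs_add_le (s.im - p.im) p.im
        simpa using this
      have h6 : 0 ≤ |p.im| := abs_nonneg _
      nlinarith
    have hpos : 0 < ‖s - p‖ := by linarith
    have h7 := hA s h1 h2
    have h8 : ‖s - p‖⁻¹ ≤ (2 + |p.im|) / (1 + |s.im|) := by
      rw [le_div_iff₀ hs0, inv_mul_le_iff₀ hpos]
      linarith
    calc ‖s - p‖⁻¹ * ‖N s - N p‖ ≤ ((2 + |p.im|) / (1 + |s.im|)) * (A / (1 + |s.im|) ^ k) :=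
          mul_le_mul h8 h7 (norm_nonneg _) (by positivity)
      _ = (A * (2 + |p.im|)) / (1 + |s.im|) ^ (k + 1) := by
          rw [pow_succ]
          field_simp
      _ ≤ _ := by
          refine div_le_div_of_nonneg_right ?_ (by positivity)
          have : 0 ≤ M * (2 + |p.im|) ^ (k + 1) := by positivity
          linarith

/-- **A6b.** -/
theorem vshift1 {a b : ℝ} {p : ℂ} (hap : a < p.re) (hpb : p.re < b) {F : ℂ → ℂ}
    (hF : ∀ s : ℂ, a ≤ s.re → s.re ≤ b → DifferentiableAt ℂ F s) {C : ℝ}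
    (hC : ∀ s : ℂ, a ≤ s.re → s.re ≤ b → ‖F s‖ ≤ C / (1 + |s.im|)) :
    (∫ y : ℝ, F (b + y * I) / (b + y * I - p)) - (∫ y : ℝ, F (a + y * I) / (a + y * I - p)) =
      2 * π * F p := by
  have hab : a ≤ b := (hap.trans hpb).le
  set q : ℂ := ((2 * a - p.re : ℝ) : ℂ) + p.im * I with hq
  have hqre : q.re = 2 * a - p.re := by simp [hq]
  have hqim : q.im = p.im := by simp [hq]
  have hpq : p - q = ((2 * (p.re - a) : ℝ) : ℂ) := by
    apply Complex.ext
    · rw [Complex.sub_re, hqre, Complex.ofReal_re]; ring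
    · rw [Complex.sub_im, hqim, Complex.ofReal_im, sub_self]
  have hpq0 : p - q ≠ 0 := by
    rw [hpq]
    have : 2 * (p.re - a) ≠ 0 := by
      have : 0 < p.re - a := by linarith
      positivity
    exact_mod_cast this
  have hsq : ∀ s : ℂ, a ≤ s.re → s - q ≠ 0 := by
    intro s hs h
    have := congrArg Complex.re h
    rw [Complex.sub_re, hqre, Complex.zero_re] at this
    linarith
  set N : ℂ → ℂ := fun s => F s - F p * ((p - q) / (s - q)) with hNdef
  have hNp : N p = 0 := by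
    simp only [hNdef]
    rw [div_self hpq0, mul_one, sub_self]
  have hN : ∀ s : ℂ, a ≤ s.re → s.re ≤ b → DifferentiableAt ℂ N s := by
    intro s h1 h2
    refine (hF s h1 h2).sub ?_
    exact ((differentiableAt_const _).div (differentiableAt_id.sub_const q) (hsq s h1)).const_mul _
  have hC0 : 0 ≤ C := by
    have h1 := (norm_nonneg _).trans (hC p hap.le hpb.le)
    have h2 : 0 < (1 + |p.im|) := by positivity
    by_contra hneg
    push Not at hneg
    have := div_neg_of_neg_of_pos hneg h2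
    linarith
  -- decay of `N`
  obtain ⟨c, hc, hlow⟩ := vs_low (x := p.re - a) (by linarith)
  have hqlow : ∀ s : ℂ, a ≤ s.re → (min (p.re - a) 1 / (2 * (2 + |p.im|))) * (1 + |s.im|) ≤ ‖s - q‖ := by
    intro s h1
    have h2 : |s.im - p.im| ≤ ‖s - q‖ := by
      have := Complex.abs_im_le_norm (s - q)
      rw [Complex.sub_im, hqim] at this
      exact this
    have h3 : p.re - a ≤ ‖s - q‖ := by
      have h4 := Complex.abs_re_le_norm (s - q)
      rw [Complex.sub_re, hqre] at h4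
      have h5 := le_abs_self (s.re - (2 * a - p.re))
      linarith
    have h4 : |s.im| ≤ |s.im - p.im| + |p.im| := by
      have := abs_add_le (s.im - p.im) p.im
      simpa using this
    have h5 : 0 ≤ |p.im| := abs_nonneg _
    have h6 : 0 < min (p.re - a) 1 := lt_min (by linarith) one_pos
    have h7 : min (p.re - a) 1 ≤ p.re - a := min_le_left _ _
    have h8 : min (p.re - a) 1 ≤ 1 := min_le_right _ _
    rw [div_mul_eq_mul_div, div_le_iff₀ (by positivity)]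
    have h9 : 0 ≤ |s.im - p.im| := abs_nonneg _
    have h10 : 0 ≤ ‖s - q‖ := norm_nonneg _
    -- m (1 + |s.im|) ≤ m (1 + d + P) ≤ n * 2 (2 + P)
    have h11 : min (p.re - a) 1 * (1 + |s.im|) ≤ min (p.re - a) 1 * (1 + |p.im|) +
        min (p.re - a) 1 * |s.im - p.im| := by
      have := mul_le_mul_of_nonneg_left h4 h6.le
      nlinarith
    have h12 : min (p.re - a) 1 * (1 + |p.im|) ≤ ‖s - q‖ * (1 + |p.im|) :=
      mul_le_mul_of_nonneg_right (h7.trans h3) (by positivity)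
    have h13 : min (p.re - a) 1 * |s.im - p.im| ≤ ‖s - q‖ := by
      calc min (p.re - a) 1 * |s.im - p.im| ≤ 1 * |s.im - p.im| :=
            mul_le_mul_of_nonneg_right h8 h9
        _ ≤ ‖s - q‖ := by rw [one_mul]; exact h2
    nlinarith [mul_nonneg h10 h5]
  set c₂ : ℝ := min (p.re - a) 1 / (2 * (2 + |p.im|)) with hc₂
  have hc₂0 : 0 < c₂ := by
    have h6 : 0 < min (p.re - a) 1 := lt_min (by linarith) one_pos
    positivity
  have hNA : ∀ s : ℂ, a ≤ s.re → s.re ≤ b →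
      ‖N s - N p‖ ≤ (C + ‖F p‖ * ‖p - q‖ * c₂⁻¹) / (1 + |s.im|) ^ 1 := by
    intro s h1 h2
    rw [hNp, sub_zero, pow_one]
    have hs0 : 0 < 1 + |s.im| := by positivity
    have h3 : ‖N s‖ ≤ ‖F s‖ + ‖F p‖ * (‖p - q‖ / ‖s - q‖) := by
      simp only [hNdef]
      refine (norm_sub_le _ _).trans ?_
      rw [norm_mul, norm_div]
    refine h3.trans ?_
    rw [add_div]
    refine add_le_add (hC s h1 h2) ?_
    rw [mul_assoc, mul_div_assoc]
    refine mul_le_mul_of_nonneg_left ?_ (norm_nonneg _)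
    rw [mul_div_assoc, div_eq_mul_inv]
    refine mul_le_mul_of_nonneg_left ?_ (norm_nonneg _)
    rw [div_eq_mul_inv, ← mul_inv]
    exact inv_anti₀ (by positivity) (hqlow s h1)
  obtain ⟨hG, A', hA'⟩ := vs_dslope hap hpb hN 1 hNA
  have hsh := vshift0 hab hG hA'
  -- integrals on the two lines
  have hline : ∀ x : ℝ, a ≤ x → x ≤ b → x ≠ p.re →
      ∫ y : ℝ, F (x + y * I) / (x + y * I - p) = (∫ y : ℝ, dslope N p (x + y * I)) +
        F p * ∫ u : ℝ, (p - q) * ((((x - p.re : ℝ) : ℂ) + u * I) * (((x - q.re : ℝ) : ℂ) + u * I))⁻¹ := by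
    intro x hx1 hx2 hx3
    have hxp : ∀ y : ℝ, (x : ℂ) + y * I - p = ((x - p.re : ℝ) : ℂ) + ((y - p.im : ℝ) : ℂ) * I := by
      intro y
      apply Complex.ext <;> simp
    have hxq : ∀ y : ℝ, (x : ℂ) + y * I - q = ((x - q.re : ℝ) : ℂ) + ((y - p.im : ℝ) : ℂ) * I := by
      intro y
      apply Complex.ext
      · simp
      · simp [hqim]
    have hne1 : x - p.re ≠ 0 := sub_ne_zero.2 hx3
    have hne2 : x - q.re ≠ 0 := by rw [hqre]; intro h; linarith
    have hI2 := (vs_int2 hne1 hne2).const_mul (p - q)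
    have htr : ∫ u : ℝ, (p - q) * ((((x - p.re : ℝ) : ℂ) + u * I) * (((x - q.re : ℝ) : ℂ) + u * I))⁻¹ =
        ∫ y : ℝ, (p - q) * ((((x - p.re : ℝ) : ℂ) + ((y - p.im : ℝ) : ℂ) * I) *
          (((x - q.re : ℝ) : ℂ) + ((y - p.im : ℝ) : ℂ) * I))⁻¹ :=
      (integral_sub_right_eq_self (fun u : ℝ => (p - q) * ((((x - p.re : ℝ) : ℂ) + u * I) *
        (((x - q.re : ℝ) : ℂ) + u * I))⁻¹) p.im).symm
    have hItr : Integrable fun y : ℝ => (p - q) * ((((x - p.re : ℝ) : ℂ) + ((y - p.im : ℝ) : ℂ) * I) *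
          (((x - q.re : ℝ) : ℂ) + ((y - p.im : ℝ) : ℂ) * I))⁻¹ :=
      hI2.comp_sub_right p.im
    rw [htr, ← integral_const_mul, ← integral_add ?_ (hItr.const_mul _)]
    · refine integral_congr_ae (Filter.Eventually.of_forall fun y => ?_)
      simp only
      have hsp : (x : ℂ) + y * I - p ≠ 0 := by
        rw [hxp]
        exact vs_line_ne hne1 _
      have hsq' : (x : ℂ) + y * I - q ≠ 0 := by
        rw [hxq]
        exact vs_line_ne hne2 _
      have hne : (x : ℂ) + y * I ≠ p := sub_ne_zero.1 hsp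
      rw [dslope_of_ne _ hne, slope_def_module, hNp, sub_zero, smul_eq_mul, ← hxp, ← hxq]
      simp only [hNdef]
      field_simp
      ring
    · refine vs_int (vs_cont hx1 hx2 hG) (C := A') fun y => ?_
      have := hA' (x + y * I) (by simpa using hx1) (by simpa using hx2)
      simpa using this
  rw [hline b hab le_rfl hpb.ne', hline a le_rfl hab hap.ne, hsh]
  have hb0 : ∫ u : ℝ, (p - q) * ((((b - p.re : ℝ) : ℂ) + u * I) * (((b - q.re : ℝ) : ℂ) + u * I))⁻¹ = 0 := by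
    have h := vs_H1 (x₁ := b - p.re) (x₂ := b - q.re) (by linarith) (by rw [hqre]; linarith)
    have e : (((b - q.re : ℝ) : ℂ) - ((b - p.re : ℝ) : ℂ)) = p - q := by
      rw [hpq, hqre]
      push_cast
      ring
    rw [e] at h
    exact h
  have ha0 : ∫ u : ℝ, (p - q) * ((((a - p.re : ℝ) : ℂ) + u * I) * (((a - q.re : ℝ) : ℂ) + u * I))⁻¹ =
      -(2 * π) := by
    have h := vs_H2 (x := p.re - a) (by linarith)
    have e1 : a - p.re = -(p.re - a) := by ring
    have e2 : a - q.re = p.re - a := by rw [hqre]; ring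
    have e3 : p - q = (2 * ((p.re - a : ℝ) : ℂ)) := by
      rw [hpq]
      push_cast
      ring
    rw [e1, e2, e3]
    exact h
  rw [hb0, ha0]
  ring

theorem vs_pow {x : ℝ} (hx : x ≠ 0) (k : ℕ) :
    Integrable (fun u : ℝ => (((x : ℂ) + u * I) ^ (k + 2))⁻¹) ∧
    ∫ u : ℝ, (((x : ℂ) + u * I) ^ (k + 2))⁻¹ = 0 := by
  obtain ⟨c, hc, hlow⟩ := vs_low hx
  have hint : Integrable (fun u : ℝ => (((x : ℂ) + u * I) ^ (k + 2))⁻¹) := by
    refine vs_int (C := (c ^ (k + 2))⁻¹) ?_ fun u => ?_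
    · exact Continuous.inv₀ (by fun_prop) fun u => pow_ne_zero _ (vs_line_ne hx u)
    · rw [norm_inv, norm_pow, div_eq_mul_inv, ← mul_inv]
      refine inv_anti₀ (by positivity) ?_
      have h1 : 1 ≤ 1 + |u| := by
        have := abs_nonneg u
        linarith
      calc c ^ (k + 2) * (1 + |u|) ^ 2 ≤ c ^ (k + 2) * (1 + |u|) ^ (k + 2) := by
            refine mul_le_mul_of_nonneg_left (pow_le_pow_right₀ h1 (by omega)) (by positivity)
        _ = (c * (1 + |u|)) ^ (k + 2) := by rw [mul_pow]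
        _ ≤ _ := pow_le_pow_left₀ (by positivity) (hlow u) _
  refine ⟨hint, ?_⟩
  have hlin : ∀ (u : ℝ), HasDerivAt (fun u : ℝ => (x : ℂ) + u * I) I u := by
    intro u
    have h := ((Complex.ofRealCLM.hasDerivAt (x := u)).mul_const I).const_add (x : ℂ)
    simpa using h
  have hder : ∀ u : ℝ, HasDerivAt (fun u : ℝ => (I / (k + 1 : ℂ)) * (((x : ℂ) + u * I) ^ (k + 1))⁻¹)
      ((((x : ℂ) + u * I) ^ (k + 2))⁻¹) u := by
    intro u
    have hn := vs_line_ne hx u
    have h1 : HasDerivAt (fun u : ℝ => (((x : ℂ) + u * I) ^ (k + 1))⁻¹)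
        (-(((k + 1 : ℕ) : ℂ) * ((x : ℂ) + u * I) ^ (k + 1 - 1) * I) / (((x : ℂ) + u * I) ^ (k + 1)) ^ 2) u :=
      ((hlin u).pow (k + 1)).inv (pow_ne_zero _ hn)
    refine (h1.const_mul (I / (k + 1 : ℂ))).congr_deriv ?_
    have hk : (k + 1 : ℂ) ≠ 0 := by exact_mod_cast Nat.succ_ne_zero k
    have key : ∀ A : ℂ, A ≠ 0 → (I / (k + 1 : ℂ)) *
        (-(((k + 1 : ℕ) : ℂ) * A ^ (k + 1 - 1) * I) / (A ^ (k + 1)) ^ 2) = (A ^ (k + 2))⁻¹ := by
      intro A hA
      simp only [Nat.add_sub_cancel]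
      push_cast
      have e1 : I / ((k : ℂ) + 1) * (-(((k : ℂ) + 1) * A ^ k * I) / (A ^ (k + 1)) ^ 2) =
          -(I * I) * ((((k : ℂ) + 1) * A ^ k) / (((k : ℂ) + 1) * (A ^ (k + 1)) ^ 2)) := by
        field_simp
      rw [e1, Complex.I_mul_I]
      have hAk : A ^ k ≠ 0 := pow_ne_zero _ hA
      have e2 : (A ^ (k + 1)) ^ 2 = A ^ k * A ^ (k + 2) := by
        rw [← pow_mul, ← pow_add]
        congr 1
        ring
      rw [e2]
      have hAk2 : A ^ (k + 2) ≠ 0 := pow_ne_zero _ hA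
      generalize A ^ (k + 2) = B at hAk2 ⊢
      generalize A ^ k = D at hAk ⊢
      field_simp
    exact key _ hn
  have hlim : ∀ l : Filter ℝ, Tendsto (fun u : ℝ => |u|) l atTop →
      Tendsto (fun u : ℝ => (I / (k + 1 : ℂ)) * (((x : ℂ) + u * I) ^ (k + 1))⁻¹) l (𝓝 0) := by
    intro l hl
    have h2 : Tendsto (fun u : ℝ => (((x : ℂ) + u * I) ^ (k + 1))⁻¹) l (𝓝 0) := by
      refine squeeze_zero_norm' ?_ (hl.const_div_atTop 1)
      filter_upwards [hl.eventually (eventually_ge_atTop 1)] with u hu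
      rw [norm_inv, norm_pow, one_div]
      refine inv_anti₀ (by linarith) ?_
      have h3 : |u| ≤ ‖(x : ℂ) + u * I‖ := by
        have := Complex.abs_im_le_norm ((x : ℂ) + u * I)
        simpa using this
      calc |u| ≤ ‖(x : ℂ) + u * I‖ := h3
        _ = ‖(x : ℂ) + u * I‖ ^ 1 := by rw [pow_one]
        _ ≤ _ := pow_le_pow_right₀ (hu.trans h3) (by omega)
    simpa using h2.const_mul (I / (k + 1 : ℂ))
  have h := integral_of_hasDerivAt_of_tendsto hder hint (hlim _ tendsto_abs_atBot_atTop)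
    (hlim _ tendsto_abs_atTop_atTop)
  rw [h, sub_zero]

/-- **A6c.** -/
theorem vshift3 {a b : ℝ} (ha : a < 1) (hb : 1 < b) {F : ℂ → ℂ}
    (hF : ∀ s : ℂ, a ≤ s.re → s.re ≤ b → DifferentiableAt ℂ F s) {C : ℝ}
    (hC : ∀ s : ℂ, a ≤ s.re → s.re ≤ b → ‖F s‖ ≤ C) :
    (∫ y : ℝ, F (b + y * I) / (b + y * I - 1) ^ 3) - (∫ y : ℝ, F (a + y * I) / (a + y * I - 1) ^ 3) =
      π * iteratedDeriv 2 F 1 := by
  have hab : a ≤ b := (ha.trans hb).le
  have hap : a < (1 : ℂ).re := by simpa using ha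
  have hpb : (1 : ℂ).re < b := by simpa using hb
  set F1 : ℂ → ℂ := dslope F 1 with hF1def
  set F2 : ℂ → ℂ := dslope F1 1 with hF2def
  obtain ⟨hF1, A1, hA1⟩ := vs_dslope hap hpb hF 0 (A := 2 * C) (fun s h1 h2 => by
    rw [pow_zero, div_one]
    refine (norm_sub_le _ _).trans ?_
    have := hC s h1 h2
    have := hC 1 hap.le hpb.le
    linarith)
  have hA10 : 0 ≤ A1 := by
    have h1 := (norm_nonneg _).trans (hA1 1 hap.le hpb.le)
    have h2 : (0 : ℝ) < (1 + |(1 : ℂ).im|) ^ (0 + 1) := by positivity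
    by_contra hneg
    push Not at hneg
    have := div_neg_of_neg_of_pos hneg h2
    linarith
  have hF1b : ∀ s : ℂ, a ≤ s.re → s.re ≤ b → ‖F1 s‖ ≤ A1 := by
    intro s h1 h2
    refine (hA1 s h1 h2).trans (div_le_self hA10 ?_)
    have h3 : 1 ≤ 1 + |s.im| := by
      have := abs_nonneg s.im
      linarith
    exact one_le_pow₀ h3
  obtain ⟨hF2, A2, hA2⟩ := vs_dslope hap hpb hF1 0 (A := 2 * A1) (fun s h1 h2 => by
    rw [pow_zero, div_one]
    refine (norm_sub_le _ _).trans ?_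
    have := hF1b s h1 h2
    have := hF1b 1 hap.le hpb.le
    linarith)
  have hsh := vshift1 hap hpb hF2 (C := A2) (fun s h1 h2 => by
    have := hA2 s h1 h2
    simpa using this)
  -- second derivative
  have h2d : iteratedDeriv 2 F 1 = 2 * F2 1 := by
    have hU : ∀ᶠ z : ℂ in 𝓝 1, a < z.re ∧ z.re < b := by
      have ho : IsOpen {z : ℂ | a < z.re ∧ z.re < b} :=
        (isOpen_lt continuous_const Complex.continuous_re).inter
          (isOpen_lt Complex.continuous_re continuous_const)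
      exact ho.mem_nhds ⟨hap, hpb⟩
    have hFan : AnalyticAt ℂ F 1 := by
      refine analyticAt_iff_eventually_differentiableAt.2 ?_
      filter_upwards [hU] with z hz using hF z hz.1.le hz.2.le
    have hps := hFan.hasFPowerSeriesAt
    have h3 := (HasFPowerSeriesAt.has_fpower_series_iterate_dslope_fslope 2 hps).coeff_zero 1
    have h4 : ((Function.swap dslope (1 : ℂ))^[2] F) 1 = F2 1 := by
      simp [Function.swap, hF2def, hF1def]
    rw [h4] at h3
    have h5 : ((FormalMultilinearSeries.fslope^[2] (FormalMultilinearSeries.ofScalars ℂ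
        (fun n => iteratedDeriv n F 1 / (n.factorial : ℂ)))).coeff 0) = F2 1 := h3
    rw [FormalMultilinearSeries.coeff_iterate_fslope, FormalMultilinearSeries.coeff_ofScalars] at h5
    rw [← h5]
    norm_num
    ring
  -- integrals on the lines
  have hline : ∀ x : ℝ, a ≤ x → x ≤ b → x ≠ 1 →
      ∫ y : ℝ, F (x + y * I) / (x + y * I - 1) ^ 3 = ∫ y : ℝ, F2 (x + y * I) / (x + y * I - 1) := by
    intro x hx1 hx2 hx3
    have hx0 : x - 1 ≠ 0 := sub_ne_zero.2 hx3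
    have he : ∀ y : ℝ, (x : ℂ) + y * I - 1 = ((x - 1 : ℝ) : ℂ) + y * I := by
      intro y
      push_cast
      ring
    obtain ⟨hi3, hv3⟩ := vs_pow hx0 1
    obtain ⟨hi2, hv2⟩ := vs_pow hx0 0
    obtain ⟨c, hc, hlow⟩ := vs_low hx0
    have hiF : Integrable fun y : ℝ => F2 (x + y * I) / (x + y * I - 1) := by
      have hA20 : 0 ≤ A2 := by
        have h1 := (norm_nonneg _).trans (hA2 1 hap.le hpb.le)
        have h2 : (0 : ℝ) < (1 + |(1 : ℂ).im|) ^ (0 + 1) := by positivity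
        by_contra hneg
        push Not at hneg
        have := div_neg_of_neg_of_pos hneg h2
        linarith
      refine vs_int (C := A2 / c) ?_ fun y => ?_
      · refine (vs_cont hx1 hx2 hF2).div (by fun_prop) fun y => ?_
        rw [he]
        exact vs_line_ne hx0 y
      · rw [norm_div, he]
        have h1 := hA2 (x + y * I) (by simpa using hx1) (by simpa using hx2)
        have h2 : ((x : ℂ) + y * I).im = y := by simp
        rw [h2, zero_add, pow_one] at h1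
        have h3 := hlow y
        have h4 : 0 < 1 + |y| := by positivity
        calc ‖F2 (x + y * I)‖ / ‖((x - 1 : ℝ) : ℂ) + y * I‖ ≤ (A2 / (1 + |y|)) / (c * (1 + |y|)) :=
              div_le_div₀ (by positivity) h1 (by positivity) h3
          _ = A2 / c / (1 + |y|) ^ 2 := by
              field_simp
    have e : ∀ y : ℝ, F (x + y * I) / (x + y * I - 1) ^ 3 =
        F 1 * ((((x - 1 : ℝ) : ℂ) + y * I) ^ (1 + 2))⁻¹ + F1 1 * ((((x - 1 : ℝ) : ℂ) + y * I) ^ (0 + 2))⁻¹ +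
          F2 (x + y * I) / (x + y * I - 1) := by
      intro y
      rw [← he]
      have hn : (x : ℂ) + y * I - 1 ≠ 0 := by
        rw [he]
        exact vs_line_ne hx0 y
      have h1 : F (x + y * I) = F 1 + ((x : ℂ) + y * I - 1) * F1 (x + y * I) := by
        have := sub_smul_dslope F 1 (x + y * I)
        rw [smul_eq_mul] at this
        rw [← hF1def] at this
        rw [this]
        ring
      have h2 : F1 (x + y * I) = F1 1 + ((x : ℂ) + y * I - 1) * F2 (x + y * I) := by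
        have := sub_smul_dslope F1 1 (x + y * I)
        rw [smul_eq_mul] at this
        rw [← hF2def] at this
        rw [this]
        ring
      rw [h1, h2]
      field_simp
      ring
    simp_rw [e]
    have hsum : Integrable (fun y : ℝ => F 1 * ((((x - 1 : ℝ) : ℂ) + y * I) ^ (1 + 2))⁻¹ +
        F1 1 * ((((x - 1 : ℝ) : ℂ) + y * I) ^ (0 + 2))⁻¹) :=
      (hi3.const_mul _).add (hi2.const_mul _)
    rw [integral_add hsum hiF,
      integral_add (hi3.const_mul _) (hi2.const_mul _), integral_const_mul, integral_const_mul,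
      hv3, hv2, mul_zero, mul_zero, zero_add, zero_add]
  rw [hline b hab le_rfl hb.ne', hline a le_rfl hab ha.ne, hsh, h2d]
  ring

end S6

end

section

/-! Row R3 (`zeta3_shift`): shift of `∫ Xm ζ³ r^{-s} VV` from `Re s = 2` to `Re s = 1/2`. -/

namespace S6
open Complex MeasureTheory Filter Topology Set
open scoped Real ComplexConjugate

/-- the entire part of the integrand -/
noncomputable def r3F (T τ r : ℝ) (s : ℂ) : ℂ :=
  (riemannZeta₁ s ^ 3 * Xm s) * ((r : ℂ) ^ (-s) * VV T τ s)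

lemma r3_Xm_diff {s : ℂ} (hs : 0 < s.re) : DifferentiableAt ℂ Xm s := by
  have h1 : DifferentiableAt ℂ Complex.Gamma s := by
    apply Complex.differentiableAt_Gamma
    intro m h
    rw [h] at hs
    simp at hs
    have : (0 : ℝ) ≤ m := Nat.cast_nonneg m
    linarith
  have h2 : (2 * π : ℂ) ≠ 0 := by
    have := Real.pi_ne_zero
    norm_num
  have h3 : DifferentiableAt ℂ (fun s : ℂ => (2 * π : ℂ) ^ (-s)) s :=
    (differentiableAt_id.neg).const_cpow (Or.inl h2)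
  have h4 : DifferentiableAt ℂ (fun s : ℂ => cexp (-(π * I * s / 2))) s := by fun_prop
  exact (h3.mul h1).mul h4

lemma r3F_diff (T τ : ℝ) {r : ℝ} (hr : 0 < r) {s : ℂ} (hs : 0 < s.re) :
    DifferentiableAt ℂ (r3F T τ r) s := by
  have h1 : DifferentiableAt ℂ (fun s : ℂ => riemannZeta₁ s ^ 3) s :=
    (differentiable_riemannZeta₁ s).pow 3
  have h2 : (r : ℂ) ≠ 0 := by exact_mod_cast hr.ne'
  have h3 : DifferentiableAt ℂ (fun s : ℂ => (r : ℂ) ^ (-s)) s :=
    (differentiableAt_id.neg).const_cpow (Or.inl h2)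
  have h4 : DifferentiableAt ℂ (fun s : ℂ => VV T τ s) s := by
    unfold VV
    fun_prop
  exact (h1.mul (r3_Xm_diff hs)).mul (h3.mul h4)

/-- `‖Γ(s)‖ ≤ Γ(Re s)` -/
lemma r3_norm_Gamma_le {s : ℂ} (hs : 0 < s.re) : ‖Complex.Gamma s‖ ≤ Real.Gamma s.re := by
  rw [Complex.Gamma_eq_integral hs, Real.Gamma_eq_integral hs, Complex.GammaIntegral]
  refine (norm_integral_le_integral_norm _).trans (le_of_eq ?_)
  refine setIntegral_congr_fun measurableSet_Ioi ?_
  intro x hx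
  have hx' : (0 : ℝ) < x := hx
  simp only [norm_mul]
  rw [Complex.norm_real, Real.norm_eq_abs, abs_of_pos (Real.exp_pos _),
    Complex.norm_cpow_eq_rpow_re_of_pos hx']
  simp

lemma r3_Gamma_bdd : ∃ C : ℝ, 0 ≤ C ∧ ∀ s : ℂ, 1 / 2 ≤ s.re → s.re ≤ 2 → ‖Complex.Gamma s‖ ≤ C := by
  have hc : ContinuousOn Real.Gamma (Icc (1 / 2 : ℝ) 2) := by
    intro x hx
    have hx0 : (0 : ℝ) < x := by linarith [hx.1]
    exact (Real.differentiableAt_Gamma (fun m h => by
      have : (0 : ℝ) ≤ m := Nat.cast_nonneg m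
      linarith)).continuousAt.continuousWithinAt
  obtain ⟨C, hC⟩ := isCompact_Icc.exists_bound_of_continuousOn hc
  refine ⟨C, (norm_nonneg _).trans (hC 1 (by constructor <;> norm_num)), ?_⟩
  intro s h1 h2
  exact (r3_norm_Gamma_le (by linarith)).trans ((le_abs_self _).trans (hC s.re ⟨h1, h2⟩))

lemma r3_norm_Xm (s : ℂ) : ‖Xm s‖ =
    (2 * π) ^ (-s.re) * ‖Complex.Gamma s‖ * Real.exp (π * s.im / 2) := by
  unfold Xm
  rw [norm_mul, norm_mul]
  have h1 : ‖(2 * π : ℂ) ^ (-s)‖ = (2 * π) ^ (-s.re) := by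
    have h := Complex.norm_cpow_eq_rpow_re_of_pos (x := 2 * π) (by positivity) (-s)
    rw [Complex.neg_re] at h
    rw [← h]
    push_cast
    rfl
  have h2 : ‖cexp (-(π * I * s / 2))‖ = Real.exp (π * s.im / 2) := by
    rw [Complex.norm_exp]
    congr 1
    have : -(π * I * s / 2) = ((π / 2 : ℝ) : ℂ) * (-(I * s)) := by push_cast; ring
    rw [this, Complex.re_ofReal_mul]
    simp
    ring
  rw [h1, h2]

lemma r3_Xm_le : ∃ C : ℝ, 0 ≤ C ∧ ∀ s : ℂ, 1 / 2 ≤ s.re → s.re ≤ 2 →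
    ‖Xm s‖ ≤ C * Real.exp (2 * |s.im|) := by
  obtain ⟨C, hC0, hC⟩ := r3_Gamma_bdd
  refine ⟨C, hC0, ?_⟩
  intro s h1 h2
  rw [r3_norm_Xm]
  have h3 : (2 * π) ^ (-s.re) ≤ (1 : ℝ) := by
    apply Real.rpow_le_one_of_one_le_of_nonpos
    · linarith [Real.pi_gt_three]
    · linarith
  have h4 : Real.exp (π * s.im / 2) ≤ Real.exp (2 * |s.im|) := by
    apply Real.exp_le_exp.2
    have h5 := le_abs_self s.im
    have h6 := abs_nonneg s.im
    have h7 := Real.pi_lt_four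
    have h8 := Real.pi_pos
    nlinarith
  calc (2 * π) ^ (-s.re) * ‖Complex.Gamma s‖ * Real.exp (π * s.im / 2)
      ≤ 1 * C * Real.exp (2 * |s.im|) := by
        gcongr
        exact hC s h1 h2
    _ = C * Real.exp (2 * |s.im|) := by ring

lemma r3_zeta1_le : ∃ C : ℝ, 0 ≤ C ∧ ∀ s : ℂ, 1 / 2 ≤ s.re → s.re ≤ 2 →
    ‖riemannZeta₁ s‖ ≤ C * Real.exp |s.im| := by
  obtain ⟨C, hC1, hC⟩ := MP069854.zeta_growth
  refine ⟨1 + 8 * C, by linarith, ?_⟩
  intro s h1 h2
  have hs : ‖s‖ ≤ 2 + |s.im| := by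
    refine (Complex.norm_le_abs_re_add_abs_im s).trans ?_
    rw [abs_of_nonneg (by linarith : (0 : ℝ) ≤ s.re)]
    linarith
  have hs1 : ‖s - 1‖ ≤ 1 + |s.im| := by
    refine (Complex.norm_le_abs_re_add_abs_im (s - 1)).trans ?_
    have : |(s - 1).re| ≤ 1 := by
      rw [Complex.sub_re, Complex.one_re, abs_le]
      constructor <;> linarith
    have h' : (s - 1).im = s.im := by simp
    rw [h']
    linarith
  have hx := abs_nonneg s.im
  have he : (2 + |s.im|) * (1 + |s.im|) ≤ 8 * Real.exp |s.im| := by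
    have := Real.quadratic_le_exp_of_nonneg hx
    nlinarith
  have he1 : 1 ≤ Real.exp |s.im| := Real.one_le_exp hx
  by_cases h : s = 1
  · subst h
    simp
    nlinarith
  · have hne : s - 1 ≠ 0 := sub_ne_zero.2 h
    have hz : riemannZeta₁ s = (s - 1) * riemannZeta s := by
      rw [riemannZeta_eq_inv_sub_mul h]
      field_simp
    have hn : 0 < ‖s - 1‖ := norm_pos_iff.2 hne
    have : ‖riemannZeta₁ s‖ ≤ 1 + C * (‖s‖ * ‖s - 1‖) := by
      rw [hz, norm_mul]
      calc ‖s - 1‖ * ‖riemannZeta s‖ ≤ ‖s - 1‖ * (1 / ‖s - 1‖ + C * ‖s‖) := by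
            gcongr
            exact hC s h1 h
        _ = 1 + C * (‖s‖ * ‖s - 1‖) := by field_simp
    have h3 : ‖s‖ * ‖s - 1‖ ≤ (2 + |s.im|) * (1 + |s.im|) :=
      mul_le_mul hs hs1 (norm_nonneg _) (by linarith)
    have h4 : C * (‖s‖ * ‖s - 1‖) ≤ C * (8 * Real.exp |s.im|) := by
      apply mul_le_mul_of_nonneg_left (h3.trans he) (by linarith)
    nlinarith

lemma r3_norm_VV (T τ : ℝ) (s : ℂ) : ‖VV T τ s‖ =
    Real.exp (((s.re - 1 / 2) ^ 2 - (s.im - τ) ^ 2) / HH T ^ 2) := by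
  unfold VV
  rw [Complex.norm_exp]
  congr 1
  have h : (s - (1 / 2 + τ * I)) ^ 2 / (HH T : ℂ) ^ 2 =
      ((((s.re - 1 / 2) ^ 2 - (s.im - τ) ^ 2) / HH T ^ 2 : ℝ) : ℂ) +
      ((2 * (s.re - 1 / 2) * (s.im - τ) / HH T ^ 2 : ℝ) : ℂ) * I := by
    have hs : s = (s.re : ℂ) + (s.im : ℂ) * I := (Complex.re_add_im s).symm
    have : s - (1 / 2 + τ * I) = ((s.re - 1 / 2 : ℝ) : ℂ) + ((s.im - τ : ℝ) : ℂ) * I := by
      conv_lhs => rw [hs]
      push_cast
      ring
    rw [this]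
    have hI : (I : ℂ) ^ 2 = -1 := Complex.I_sq
    push_cast
    ring_nf
    rw [hI]
    ring
  rw [h, Complex.add_re, Complex.ofReal_re, Complex.re_ofReal_mul, Complex.I_re]
  ring

lemma r3_rpow_le {r σ : ℝ} (hr : 0 < r) (h0 : 0 ≤ σ) {k : ℝ} (hk : σ ≤ k) {M : ℝ} (hM1 : 1 ≤ M)
    (hM : r⁻¹ ≤ M) : r ^ (-σ) ≤ M ^ k := by
  have h1 : r ^ (-σ) = (r⁻¹) ^ σ := by
    rw [Real.rpow_neg hr.le, Real.inv_rpow hr.le]
  rw [h1]
  calc (r⁻¹) ^ σ ≤ M ^ σ := Real.rpow_le_rpow (by positivity) hM h0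
    _ ≤ M ^ k := Real.rpow_le_rpow_of_exponent_le hM1 hk

lemma r3F_bdd {T : ℝ} (hT : 1 < T) (τ : ℝ) {r : ℝ} (hr : 0 < r) :
    ∃ C : ℝ, ∀ s : ℂ, 1 / 2 ≤ s.re → s.re ≤ 2 → ‖r3F T τ r s‖ ≤ C := by
  obtain ⟨C1, hC10, hC1⟩ := r3_zeta1_le
  obtain ⟨C2, hC20, hC2⟩ := r3_Xm_le
  have hlog : 0 < Real.log T := Real.log_pos hT
  have hH : 0 < HH T := div_pos (by linarith) hlog
  set M : ℝ := max 1 r⁻¹ with hM
  set H := HH T with hHdef
  refine ⟨(C1 ^ 3 * C2) * (M ^ (2 : ℝ) * Real.exp (4 / H ^ 2 + 5 * |τ| + 25 * H ^ 2)), ?_⟩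
  intro s h1 h2
  unfold r3F
  rw [norm_mul, norm_mul, norm_mul, norm_pow]
  have hr' : ‖(r : ℂ) ^ (-s)‖ ≤ M ^ (2 : ℝ) := by
    rw [Complex.norm_cpow_eq_rpow_re_of_pos hr, Complex.neg_re]
    exact r3_rpow_le hr (by linarith) h2 (le_max_left _ _) (le_max_right _ _)
  have hM0 : 0 ≤ M := le_trans zero_le_one (le_max_left _ _)
  have e1 : ‖riemannZeta₁ s‖ ^ 3 ≤ (C1 * Real.exp |s.im|) ^ 3 :=
    pow_le_pow_left₀ (norm_nonneg _) (hC1 s h1 h2) 3
  have hVV : ‖VV T τ s‖ ≤ Real.exp (4 / H ^ 2 - (s.im - τ) ^ 2 / H ^ 2) := by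
    rw [r3_norm_VV]
    apply Real.exp_le_exp.2
    rw [sub_div]
    have : (s.re - 1 / 2) ^ 2 ≤ 4 := by nlinarith
    gcongr
  have key : Real.exp |s.im| ^ 3 * Real.exp (2 * |s.im|) *
      Real.exp (4 / H ^ 2 - (s.im - τ) ^ 2 / H ^ 2) ≤
      Real.exp (4 / H ^ 2 + 5 * |τ| + 25 * H ^ 2) := by
    rw [← Real.exp_nat_mul, ← Real.exp_add, ← Real.exp_add]
    apply Real.exp_le_exp.2
    push_cast
    have ht : |s.im| ≤ |s.im - τ| + |τ| := by
      have := abs_add_le (s.im - τ) τ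
      simpa using this
    set u := |s.im - τ| with hu
    have hu2 : (s.im - τ) ^ 2 = u ^ 2 := (sq_abs _).symm
    rw [hu2]
    have hq : 5 * u ≤ u ^ 2 / H ^ 2 + 25 * H ^ 2 := by
      have : u ^ 2 / H ^ 2 + 25 * H ^ 2 - 5 * u = (u / H - 5 / 2 * H) ^ 2 + (75 / 4) * H ^ 2 := by
        field_simp
        ring
      nlinarith [sq_nonneg (u / H - 5 / 2 * H), sq_nonneg H]
    linarith
  calc ‖riemannZeta₁ s‖ ^ 3 * ‖Xm s‖ * (‖(r : ℂ) ^ (-s)‖ * ‖VV T τ s‖)
      ≤ (C1 * Real.exp |s.im|) ^ 3 * (C2 * Real.exp (2 * |s.im|)) *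
        (M ^ (2 : ℝ) * Real.exp (4 / H ^ 2 - (s.im - τ) ^ 2 / H ^ 2)) := by
        gcongr
        exact hC2 s h1 h2
    _ = (C1 ^ 3 * C2) * (M ^ (2 : ℝ) * (Real.exp |s.im| ^ 3 * Real.exp (2 * |s.im|) *
        Real.exp (4 / H ^ 2 - (s.im - τ) ^ 2 / H ^ 2))) := by ring
    _ ≤ _ := by gcongr

/-- the value of the integrand -/
lemma r3F_eq (T τ r : ℝ) {s : ℂ} (hs : s ≠ 1) :
    r3F T τ r s / (s - 1) ^ 3 = Xm s * riemannZeta s ^ 3 * (r : ℂ) ^ (-s) * VV T τ s := by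
  have hne : s - 1 ≠ 0 := sub_ne_zero.2 hs
  unfold r3F
  rw [riemannZeta_eq_inv_sub_mul hs]
  field_simp

lemma r3_VV_half (T τ t : ℝ) : VV T τ (1 / 2 + t * I) = (win T τ t : ℂ) := by
  unfold VV win
  push_cast
  congr 1
  have hI : (I : ℂ) ^ 2 = -1 := Complex.I_sq
  have : (1 / 2 + t * I - (1 / 2 + τ * I) : ℂ) = (t - τ) * I := by ring
  rw [this, mul_pow, hI, div_pow]
  ring

/-- the residue: `‖F''(1)‖` is tiny -/
lemma r3F_res {δ : ℝ} (hδ : 0 < δ) : ∃ K : ℝ, 0 < K ∧ ∀ T : ℝ, 1 < T → δ⁻¹ ≤ T →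
    ∀ τ, δ * T ≤ τ → ∀ r : ℝ, 0 < r → T ^ (-2 : ℝ) ≤ r →
    ‖iteratedDeriv 2 (r3F T τ r) 1‖ ≤
      K * (T ^ (3 : ℝ) * Real.exp (-(δ ^ 2 / 4) * Real.log T ^ 2)) := by
  have hc : ContinuousOn (fun s : ℂ => riemannZeta₁ s ^ 3 * Xm s) (Metric.closedBall (1 : ℂ) (1 / 2)) := by
    intro s hs
    have hs1 : 0 < s.re := by
      have h1 : ‖s - 1‖ ≤ 1 / 2 := by simpa [dist_eq_norm] using hs
      have h2 := (Complex.abs_re_le_norm (s - 1)).trans h1
      rw [abs_le] at h2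
      simp at h2
      linarith
    exact ((differentiable_riemannZeta₁ s).pow 3).continuousAt.continuousWithinAt.mul
      (r3_Xm_diff hs1).continuousAt.continuousWithinAt
  obtain ⟨K, hK⟩ := (isCompact_closedBall (1 : ℂ) (1 / 2)).exists_bound_of_continuousOn hc
  have hK0 : 0 ≤ K := (norm_nonneg _).trans (hK 1 (by simp))
  refine ⟨8 * ((K + 1) * Real.exp 1), by positivity, ?_⟩
  intro T hT hTδ τ hτ r hr hrT
  have hT0 : 0 < T := by linarith
  have hlog : 0 < Real.log T := Real.log_pos hT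
  have hH : 0 < HH T := div_pos hT0 hlog
  set E := T ^ (3 : ℝ) * Real.exp (-(δ ^ 2 / 4) * Real.log T ^ 2) with hE
  have hsph : ∀ z ∈ Metric.sphere (1 : ℂ) (1 / 2), ‖r3F T τ r z‖ ≤ (K + 1) * Real.exp 1 * E := by
    intro z hz
    have hz1 : ‖z - 1‖ = 1 / 2 := by simpa [dist_eq_norm] using hz
    have h2 := (Complex.abs_re_le_norm (z - 1)).trans hz1.le
    have h3 := (Complex.abs_im_le_norm (z - 1)).trans hz1.le
    rw [abs_le] at h2 h3
    simp at h2 h3
    unfold r3F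
    rw [norm_mul, norm_mul ((r : ℂ) ^ (-z))]
    have hr' : ‖(r : ℂ) ^ (-z)‖ ≤ T ^ (3 : ℝ) := by
      rw [Complex.norm_cpow_eq_rpow_re_of_pos hr, Complex.neg_re]
      have h5 : r⁻¹ ≤ T ^ (2 : ℝ) := by
        rw [Real.rpow_neg hT0.le] at hrT
        exact inv_le_of_inv_le₀ (by positivity) hrT
      have h6 : (1 : ℝ) ≤ T ^ (2 : ℝ) := Real.one_le_rpow hT.le (by norm_num)
      have h7 := r3_rpow_le hr (σ := z.re) (by linarith) (k := 3 / 2) (by linarith) h6 h5
      rw [← Real.rpow_mul hT0.le] at h7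
      norm_num at h7 ⊢
      exact h7
    have hV : ‖VV T τ z‖ ≤ Real.exp 1 * Real.exp (-(δ ^ 2 / 4) * Real.log T ^ 2) := by
      rw [r3_norm_VV, ← Real.exp_add]
      apply Real.exp_le_exp.2
      have hHH : HH T = T / Real.log T := rfl
      rw [hHH, div_pow, div_div_eq_mul_div, div_le_iff₀ (by positivity)]
      have hl : Real.log T ≤ T := (Real.log_le_sub_one_of_pos hT0).trans (by linarith)
      have hl2 : Real.log T ^ 2 ≤ T ^ 2 := pow_le_pow_left₀ hlog.le hl 2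
      have hd : 1 ≤ δ * T := by
        rw [inv_le_iff_one_le_mul₀ hδ] at hTδ
        linarith
      have h8 : δ * T / 2 ≤ τ - z.im := by linarith
      have h9 : (δ * T / 2) ^ 2 ≤ (z.im - τ) ^ 2 := by
        have : (z.im - τ) ^ 2 = (τ - z.im) ^ 2 := by ring
        rw [this]
        exact pow_le_pow_left₀ (by positivity) h8 2
      have h10 : (z.re - 1 / 2) ^ 2 ≤ 1 := by nlinarith
      nlinarith [sq_nonneg (Real.log T)]
    have hA : ‖riemannZeta₁ z ^ 3 * Xm z‖ ≤ K + 1 := by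
      have := hK z (Metric.sphere_subset_closedBall hz)
      linarith
    calc ‖riemannZeta₁ z ^ 3 * Xm z‖ * (‖(r : ℂ) ^ (-z)‖ * ‖VV T τ z‖)
        ≤ (K + 1) * (T ^ (3 : ℝ) * (Real.exp 1 * Real.exp (-(δ ^ 2 / 4) * Real.log T ^ 2))) := by
          gcongr
      _ = (K + 1) * Real.exp 1 * E := by rw [hE]; ring
  have hcont : DiffContOnCl ℂ (r3F T τ r) (Metric.ball (1 : ℂ) (1 / 2)) := by
    apply DifferentiableOn.diffContOnCl
    rw [closure_ball (1 : ℂ) (by norm_num)]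
    intro s hs
    apply DifferentiableAt.differentiableWithinAt
    apply r3F_diff T τ hr
    have h1 : ‖s - 1‖ ≤ 1 / 2 := by simpa [dist_eq_norm] using hs
    have h2 := (Complex.abs_re_le_norm (s - 1)).trans h1
    rw [abs_le] at h2
    simp at h2
    linarith
  have hfin := Complex.norm_iteratedDeriv_le_of_forall_mem_sphere_norm_le 2 (by norm_num) hcont hsph
  refine hfin.trans (le_of_eq ?_)
  norm_num [Nat.factorial]
  ring

theorem zeta3_shift {δ : ℝ} (hδ : 0 < δ) (A : ℝ) : ∃ T₀ : ℝ, ∀ T ≥ T₀, ∀ τ, δ * T ≤ τ → τ ≤ T →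
    ∀ r : ℝ, T ^ (-2 : ℝ) ≤ r → r ≤ T →
    ‖(∫ t : ℝ, Xm (1 / 2 + t * I) * riemannZeta (1 / 2 + t * I) ^ 3 *
        (r : ℂ) ^ (-(1 / 2 + t * I : ℂ)) * (win T τ t : ℂ)) -
      ∫ t : ℝ, Xm (2 + t * I) * riemannZeta (2 + t * I) ^ 3 *
        (r : ℂ) ^ (-(2 + t * I : ℂ)) * VV T τ (2 + t * I)‖ ≤ T ^ (-A) := by
  obtain ⟨K, hK0, hK⟩ := r3F_res hδ
  set B : ℝ := |Real.log (π * K)| + |3 + A| with hB
  have hB0 : 0 ≤ B := by positivity
  set L₀ : ℝ := max 1 (4 / δ ^ 2 * B) with hL₀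
  refine ⟨max (Real.exp L₀) δ⁻¹, ?_⟩
  intro T hT τ hτ hτT r hr hrT
  have hT1 : Real.exp L₀ ≤ T := (le_max_left _ _).trans hT
  have hT2 : δ⁻¹ ≤ T := (le_max_right _ _).trans hT
  have hL1 : (1 : ℝ) ≤ L₀ := le_max_left _ _
  have hTgt : 1 < T := by
    have := Real.add_one_le_exp L₀
    linarith
  have hT0 : 0 < T := by linarith
  have hLT : L₀ ≤ Real.log T := by
    rw [Real.le_log_iff_exp_le hT0]
    exact hT1
  have hr0 : 0 < r := lt_of_lt_of_le (by positivity) hr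
  have hres := hK T hTgt hT2 τ hτ r hr0 hr
  obtain ⟨C, hC⟩ := r3F_bdd hTgt τ hr0
  have hsh := vshift3 (a := 1 / 2) (b := 2) (by norm_num) (by norm_num) (F := r3F T τ r)
    (fun s h1 _ => r3F_diff T τ hr0 (by linarith)) (C := C) hC
  have e1 : (∫ t : ℝ, Xm (1 / 2 + t * I) * riemannZeta (1 / 2 + t * I) ^ 3 *
        (r : ℂ) ^ (-(1 / 2 + t * I : ℂ)) * (win T τ t : ℂ)) =
      ∫ y : ℝ, r3F T τ r (((1 / 2 : ℝ) : ℂ) + y * I) / (((1 / 2 : ℝ) : ℂ) + y * I - 1) ^ 3 := by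
    congr 1
    ext t
    have hne : (((1 / 2 : ℝ) : ℂ) + t * I) ≠ 1 := by
      intro h
      have := congrArg Complex.re h
      norm_num at this
    rw [r3F_eq T τ r hne]
    have h' : (((1 / 2 : ℝ) : ℂ) + t * I) = 1 / 2 + t * I := by push_cast; ring
    rw [h', r3_VV_half]
  have e2 : (∫ t : ℝ, Xm (2 + t * I) * riemannZeta (2 + t * I) ^ 3 *
        (r : ℂ) ^ (-(2 + t * I : ℂ)) * VV T τ (2 + t * I)) =
      ∫ y : ℝ, r3F T τ r (((2 : ℝ) : ℂ) + y * I) / (((2 : ℝ) : ℂ) + y * I - 1) ^ 3 := by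
    congr 1
    ext t
    have hne : (((2 : ℝ) : ℂ) + t * I) ≠ 1 := by
      intro h
      have := congrArg Complex.re h
      simp at this
    rw [r3F_eq T τ r hne]
    have h' : (((2 : ℝ) : ℂ) + t * I) = 2 + t * I := by push_cast; ring
    rw [h']
  rw [e1, e2, norm_sub_rev, hsh, norm_mul]
  have hpi : ‖(π : ℂ)‖ = π := by
    rw [Complex.norm_real, Real.norm_eq_abs, abs_of_pos Real.pi_pos]
  rw [hpi]
  calc π * ‖iteratedDeriv 2 (r3F T τ r) 1‖
      ≤ π * (K * (T ^ (3 : ℝ) * Real.exp (-(δ ^ 2 / 4) * Real.log T ^ 2))) := by gcongr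
    _ = Real.exp (Real.log (π * K) + 3 * Real.log T + -(δ ^ 2 / 4) * Real.log T ^ 2) := by
        rw [Real.exp_add, Real.exp_add, Real.exp_log (by positivity),
          Real.rpow_def_of_pos hT0, mul_comm (Real.log T) 3]
        ring
    _ ≤ Real.exp (-A * Real.log T) := by
        apply Real.exp_le_exp.2
        have h1 : Real.log (π * K) ≤ |Real.log (π * K)| * Real.log T := by
          have ha := le_abs_self (Real.log (π * K))
          have hb := abs_nonneg (Real.log (π * K))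
          nlinarith
        have hl0 : 0 ≤ Real.log T := by linarith
        have h2 : (3 + A) * Real.log T ≤ |3 + A| * Real.log T :=
          mul_le_mul_of_nonneg_right (le_abs_self _) hl0
        have h3 : 4 / δ ^ 2 * B ≤ Real.log T := (le_max_right _ _).trans hLT
        have h4 : B ≤ δ ^ 2 / 4 * Real.log T := by
          have : B = δ ^ 2 / 4 * (4 / δ ^ 2 * B) := by field_simp
          rw [this]
          gcongr
        have h5 : B * Real.log T ≤ δ ^ 2 / 4 * Real.log T * Real.log T :=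
          mul_le_mul_of_nonneg_right h4 hl0
        have h6 : B * Real.log T = |Real.log (π * K)| * Real.log T + |3 + A| * Real.log T := by
          rw [hB]; ring
        nlinarith
    _ = T ^ (-A) := by
        rw [Real.rpow_def_of_pos hT0]
        ring_nf

end S6

end
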