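import Pool.Agent.Lib.MP_39df77_nt.S6Defs
import Pool.Agent.Lib.MP_39df77_nt.Part03

section

namespace S6
open Complex MeasureTheory Filter Topology Set
open scoped Real ComplexConjugate

/-- `(s - 1) ζ(s, a)` -/
noncomputable def dde (a : UnitAddCircle) : ℂ → ℂ :=
  Function.update (fun s => (s - 1) * HurwitzZeta.hurwitzZeta a s) 1 1

lemma dde_ne (a : UnitAddCircle) {s : ℂ} (hs : s ≠ 1) :
    dde a s = (s - 1) * HurwitzZeta.hurwitzZeta a s := Function.update_of_ne hs _ _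

lemma dde_diff (a : UnitAddCircle) : Differentiable ℂ (dde a) := by
  have h1 : ∀ s : ℂ, s ≠ 1 → DifferentiableAt ℂ (dde a) s := by
    intro s hs
    have h2 : DifferentiableAt ℂ (fun s : ℂ => (s - 1) * HurwitzZeta.hurwitzZeta a s) s :=
      (by fun_prop : DifferentiableAt ℂ (fun s : ℂ => s - 1) s).mul
        (HurwitzZeta.differentiableAt_hurwitzZeta a hs)
    refine h2.congr_of_eventuallyEq ?_
    filter_upwards [isOpen_ne.mem_nhds hs] with z hz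
    exact dde_ne a hz
  intro s
  by_cases hs : s = 1
  · subst hs
    refine (analyticAt_of_differentiable_on_punctured_nhds_of_continuousAt ?_ ?_).differentiableAt
    · filter_upwards [self_mem_nhdsWithin] with z hz using h1 z hz
    · unfold dde
      exact continuousAt_update_same.2 (HurwitzZeta.hurwitzZeta_residue_one a)
  · exact h1 s hs

/-- **D4.** `(s-1) hurwitzZeta a s` extends to an entire function (value `1` at `s = 1`). -/
theorem DD_entire (q : ℕ) [NeZero q] (h : ZMod q) : ∃ F : ℂ → ℂ, Differentiable ℂ F ∧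
    ∀ s : ℂ, s ≠ 1 → DD q h s = F s / (s - 1) ^ 3 := by
  refine ⟨fun s => (q : ℂ) ^ (-(3 * s)) * ∑ a : ZMod q, ∑ b : ZMod q, ∑ c : ZMod q,
    ZMod.stdAddChar (-(h * a * b * c)) * (dde (ZMod.toAddCircle a) s *
      dde (ZMod.toAddCircle b) s * dde (ZMod.toAddCircle c) s), ?_, ?_⟩
  · refine Differentiable.mul ?_ ?_
    · exact Differentiable.const_cpow (by fun_prop) (Or.inl (Nat.cast_ne_zero.2 (NeZero.ne q)))
    · refine Differentiable.fun_sum fun a _ => Differentiable.fun_sum fun b _ =>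
        Differentiable.fun_sum fun c _ => ?_
      exact (differentiable_const _).mul (((dde_diff _).mul (dde_diff _)).mul (dde_diff _))
  · intro s hs
    have hs' : (s - 1) ^ 3 ≠ 0 := pow_ne_zero _ (sub_ne_zero.2 hs)
    rw [eq_div_iff hs']
    unfold DD
    simp only [dde_ne _ hs]
    rw [mul_assoc, Finset.sum_mul]
    congr 1
    refine Finset.sum_congr rfl fun a _ => ?_
    rw [Finset.sum_mul]
    refine Finset.sum_congr rfl fun b _ => ?_
    rw [Finset.sum_mul]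
    refine Finset.sum_congr rfl fun c _ => ?_
    ring

/-- a term of `ζ(s, x) - ζ(s, 1)` -/
noncomputable def ddg (x : ℝ) (n : ℕ) (s : ℂ) : ℂ :=
  (((n : ℝ) + 1 + x : ℝ) : ℂ) ^ (-s) - (((n : ℝ) + 2 : ℝ) : ℂ) ^ (-s)

lemma ddg_norm {x : ℝ} (hx0 : 0 < x) (hx1 : x ≤ 1) (n : ℕ) {s : ℂ} (hs : 0 < s.re) :
    ‖ddg x n s‖ ≤ ‖s‖ * ((n : ℝ) + 1) ^ (-s.re - 1) := by
  have hn : (0 : ℝ) ≤ n := Nat.cast_nonneg n
  have h1 : ∀ y ∈ Icc ((n : ℝ) + 1 + x) ((n : ℝ) + 2), HasDerivWithinAt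
      (fun y : ℝ => (y : ℂ) ^ (-s)) (-s * (y : ℂ) ^ (-s - 1) * 1)
      (Icc ((n : ℝ) + 1 + x) ((n : ℝ) + 2)) y := by
    intro y hy
    have hy0 : 0 < y := by linarith [hy.1]
    have h2 : HasDerivAt (fun z : ℂ => z ^ (-s)) (-s * (y : ℂ) ^ (-s - 1) * 1) (y : ℂ) :=
      (hasDerivAt_id (y : ℂ)).cpow_const (ofReal_mem_slitPlane.2 hy0)
    exact h2.comp_ofReal.hasDerivWithinAt
  have h2 : ∀ y ∈ Ico ((n : ℝ) + 1 + x) ((n : ℝ) + 2),
      ‖-s * (y : ℂ) ^ (-s - 1) * 1‖ ≤ ‖s‖ * ((n : ℝ) + 1) ^ (-s.re - 1) := by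
    intro y hy
    have hy0 : 0 < y := by linarith [hy.1]
    rw [mul_one, norm_mul, norm_neg, norm_cpow_eq_rpow_re_of_pos hy0]
    refine mul_le_mul_of_nonneg_left ?_ (norm_nonneg _)
    have h3 : (-s - 1).re = -s.re - 1 := by simp
    rw [h3]
    exact Real.rpow_le_rpow_of_nonpos (by linarith) (by linarith [hy.1]) (by linarith)
  have h3 := norm_image_sub_le_of_norm_deriv_le_segment' h1 h2 ((n : ℝ) + 2)
    ⟨by linarith, le_rfl⟩
  have h4 : ‖ddg x n s‖ = ‖(((n : ℝ) + 2 : ℝ) : ℂ) ^ (-s) - (((n : ℝ) + 1 + x : ℝ) : ℂ) ^ (-s)‖ := by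
    unfold ddg
    rw [norm_sub_rev]
  rw [h4]
  refine h3.trans ?_
  have h5 : 0 ≤ ‖s‖ * ((n : ℝ) + 1) ^ (-s.re - 1) := by positivity
  nlinarith

/-- the formula for `ζ(s, x) - ζ(s, 1)` in `Re s > 0` -/
lemma dd_diff {x : ℝ} (hx0 : 0 < x) (hx1 : x ≤ 1) {t : ℝ} (ht0 : 0 < t) (ht1 : t < 1) :
    HurwitzZeta.hurwitzZeta (x : UnitAddCircle) t - HurwitzZeta.hurwitzZeta ((1 : ℝ) : UnitAddCircle) t
      = (x : ℂ) ^ (-(t : ℂ)) - 1 + ∑' n, ddg x n t := by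
  set U : Set ℂ := {s : ℂ | t / 2 < s.re} ∩ Metric.ball 0 3 with hU
  have hUo : IsOpen U := (isOpen_lt continuous_const continuous_re).inter Metric.isOpen_ball
  have hUc : IsPreconnected U :=
    ((convex_halfSpace_re_gt (t / 2)).inter (convex_ball _ _)).isPreconnected
  have hsum : Summable fun n : ℕ => 3 * (((n + 1 : ℕ) : ℝ)) ^ (-(t / 2) - 1) :=
    ((summable_nat_add_iff 1).2 (Real.summable_nat_rpow.2 (by linarith))).mul_left 3
  have hbound : ∀ (n : ℕ) (s : ℂ), s ∈ U → ‖ddg x n s‖ ≤ 3 * (((n + 1 : ℕ) : ℝ)) ^ (-(t / 2) - 1) := by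
    intro n s hs
    have hs1 : t / 2 < s.re := hs.1
    have hs2 : ‖s‖ ≤ 3 := by
      have := hs.2
      rw [mem_ball_zero_iff] at this
      exact this.le
    refine (ddg_norm hx0 hx1 n (by linarith)).trans ?_
    have h1 : ((n : ℝ) + 1) ^ (-s.re - 1) ≤ (((n + 1 : ℕ) : ℝ)) ^ (-(t / 2) - 1) := by
      push_cast
      exact Real.rpow_le_rpow_of_exponent_le (by linarith [(Nat.cast_nonneg n : (0 : ℝ) ≤ n)])
        (by linarith)
    exact mul_le_mul hs2 h1 (by positivity) (by norm_num)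
  have hG : DifferentiableOn ℂ (fun s => (x : ℂ) ^ (-s) - 1 + ∑' n, ddg x n s) U := by
    refine DifferentiableOn.add ?_ ?_
    · refine (Differentiable.differentiableOn ?_).sub_const 1
      exact Differentiable.const_cpow (by fun_prop) (Or.inl (by exact_mod_cast hx0.ne'))
    · refine differentiableOn_tsum_of_summable_norm hsum (fun n => ?_) hUo hbound
      refine Differentiable.differentiableOn ?_
      unfold ddg
      have hn : (0 : ℝ) ≤ n := Nat.cast_nonneg n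
      refine (Differentiable.const_cpow (by fun_prop) (Or.inl ?_)).sub
        (Differentiable.const_cpow (by fun_prop) (Or.inl ?_))
      · rw [ofReal_ne_zero]; linarith
      · rw [ofReal_ne_zero]; linarith
  have hD := HurwitzZeta.differentiable_hurwitzZeta_sub_hurwitzZeta (x : UnitAddCircle)
    ((1 : ℝ) : UnitAddCircle)
  have h2U : (2 : ℂ) ∈ U := by
    refine ⟨?_, ?_⟩
    · change t / 2 < (2 : ℂ).re
      simp
      linarith
    · rw [mem_ball_zero_iff]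
      norm_num
  have hev : (fun s => HurwitzZeta.hurwitzZeta (x : UnitAddCircle) s -
      HurwitzZeta.hurwitzZeta ((1 : ℝ) : UnitAddCircle) s) =ᶠ[𝓝 2]
      fun s => (x : ℂ) ^ (-s) - 1 + ∑' n, ddg x n s := by
    have h1 : {s : ℂ | 1 < s.re} ∈ 𝓝 (2 : ℂ) :=
      (isOpen_lt continuous_const continuous_re).mem_nhds (by simp)
    filter_upwards [h1] with s hs
    have h2 := HurwitzZeta.hasSum_hurwitzZeta_of_one_lt_re (a := x) ⟨hx0.le, hx1⟩ hs
    have h3 := HurwitzZeta.hasSum_hurwitzZeta_of_one_lt_re (a := 1) ⟨zero_le_one, le_rfl⟩ hs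
    have h4 := h2.sub h3
    rw [← h4.tsum_eq, h4.summable.tsum_eq_zero_add]
    congr 1
    · simp only [Nat.cast_zero, zero_add, ofReal_one, one_cpow]
      rw [cpow_neg, one_div]
      simp
    · refine tsum_congr fun n => ?_
      unfold ddg
      rw [cpow_neg, cpow_neg, one_div, one_div]
      push_cast
      congr 3
      ring
  have hEq := (hD.differentiableOn.analyticOnNhd hUo).eqOn_of_preconnected_of_eventuallyEq
    (hG.analyticOnNhd hUo) hUc h2U hev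
  have htU : (t : ℂ) ∈ U := by
    refine ⟨?_, ?_⟩
    · change t / 2 < (t : ℂ).re
      rw [ofReal_re]
      linarith
    · rw [mem_ball_zero_iff, norm_real, Real.norm_eq_abs, abs_of_pos ht0]
      linarith
  exact hEq htU

lemma dd_real {x : ℝ} (hx0 : 0 < x) (hx1 : x ≤ 1) {t : ℝ} (ht0 : 0 < t) (ht1 : t < 1) :
    ‖HurwitzZeta.hurwitzZeta (x : UnitAddCircle) t -
      HurwitzZeta.hurwitzZeta ((1 : ℝ) : UnitAddCircle) t - ((x ^ (-t) / 2 : ℝ) : ℂ)‖
      ≤ x ^ (-t) / 2 := by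
  rw [dd_diff hx0 hx1 ht0 ht1]
  set gr : ℕ → ℝ := fun n => ((n : ℝ) + 1 + x) ^ (-t) - ((n : ℝ) + 2) ^ (-t) with hgr
  have h1 : ∀ n, ddg x n t = ((gr n : ℝ) : ℂ) := by
    intro n
    have hn : (0 : ℝ) ≤ n := Nat.cast_nonneg n
    unfold ddg
    rw [hgr, ofReal_sub, ofReal_cpow (by linarith), ofReal_cpow (by linarith)]
    push_cast
    rfl
  have h2 : (x : ℂ) ^ (-(t : ℂ)) = ((x ^ (-t) : ℝ) : ℂ) := by
    rw [ofReal_cpow hx0.le]
    push_cast
    rfl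
  simp_rw [h1]
  rw [h2, ← ofReal_tsum]
  have h3 : 0 ≤ ∑' n, gr n := by
    refine tsum_nonneg fun n => ?_
    have hn : (0 : ℝ) ≤ n := Nat.cast_nonneg n
    exact sub_nonneg.2 (Real.rpow_le_rpow_of_nonpos (by linarith) (by linarith) (by linarith))
  have h4 : ∑' n, gr n ≤ 1 := by
    refine Real.tsum_le_of_sum_range_le (fun n => ?_) fun N => ?_
    · have hn : (0 : ℝ) ≤ n := Nat.cast_nonneg n
      exact sub_nonneg.2 (Real.rpow_le_rpow_of_nonpos (by linarith) (by linarith) (by linarith))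
    · have h5 : ∑ n ∈ Finset.range N, gr n ≤ ∑ n ∈ Finset.range N,
          (((n : ℝ) + 1 + x) ^ (-t) - (((n + 1 : ℕ) : ℝ) + 1 + x) ^ (-t)) := by
        refine Finset.sum_le_sum fun n _ => ?_
        have hn : (0 : ℝ) ≤ n := Nat.cast_nonneg n
        refine sub_le_sub_left ?_ _
        push_cast
        exact Real.rpow_le_rpow_of_nonpos (by linarith) (by linarith) (by linarith)
      refine h5.trans ?_
      rw [Finset.sum_range_sub' (fun n : ℕ => ((n : ℝ) + 1 + x) ^ (-t))]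
      have h6 : (((0 : ℕ) : ℝ) + 1 + x) ^ (-t) ≤ 1 :=
        Real.rpow_le_one_of_one_le_of_nonpos (by push_cast; linarith) (by linarith)
      have h7 : 0 ≤ ((N : ℝ) + 1 + x) ^ (-t) := by positivity
      linarith
  have h5 : 1 ≤ x ^ (-t) := Real.one_le_rpow_of_pos_of_le_one_of_nonpos hx0 hx1 (by linarith)
  have h6 : ((x ^ (-t) : ℝ) : ℂ) - 1 + ((∑' n, gr n : ℝ) : ℂ) - ((x ^ (-t) / 2 : ℝ) : ℂ)
      = ((x ^ (-t) - 1 + ∑' n, gr n - x ^ (-t) / 2 : ℝ) : ℂ) := by push_cast; ring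
  rw [h6, norm_real, Real.norm_eq_abs, abs_le]
  constructor <;> linarith

/-- `|ζ(0, x)| ≤ 1/2` -/
lemma dd_zero_norm {x : ℝ} (hx0 : 0 < x) (hx1 : x ≤ 1) :
    ‖HurwitzZeta.hurwitzZeta (x : UnitAddCircle) 0‖ ≤ 1 / 2 := by
  have hD := (HurwitzZeta.differentiable_hurwitzZeta_sub_hurwitzZeta (x : UnitAddCircle)
    ((1 : ℝ) : UnitAddCircle)).continuous
  have h1 : Tendsto (fun t : ℝ => x ^ (-t) / 2) (𝓝[>] 0) (𝓝 (1 / 2)) := by
    have h2 : ContinuousAt (fun t : ℝ => x ^ (-t) / 2) 0 := by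
      refine ContinuousAt.div_const ?_ _
      exact (Real.continuousAt_const_rpow hx0.ne').comp (continuous_neg.continuousAt)
    have h3 := h2.tendsto
    simp only [neg_zero, Real.rpow_zero] at h3
    exact h3.mono_left nhdsWithin_le_nhds
  have h2 : Tendsto (fun t : ℝ => ‖HurwitzZeta.hurwitzZeta (x : UnitAddCircle) t -
      HurwitzZeta.hurwitzZeta ((1 : ℝ) : UnitAddCircle) t - ((x ^ (-t) / 2 : ℝ) : ℂ)‖) (𝓝[>] 0)
      (𝓝 ‖HurwitzZeta.hurwitzZeta (x : UnitAddCircle) 0 -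
      HurwitzZeta.hurwitzZeta ((1 : ℝ) : UnitAddCircle) 0 - ((1 / 2 : ℝ) : ℂ)‖) := by
    refine Tendsto.norm (Tendsto.sub ?_ ?_)
    · have h3 : Tendsto (fun t : ℝ => (t : ℂ)) (𝓝[>] 0) (𝓝 0) := by
        have := (continuous_ofReal.tendsto (0 : ℝ))
        rw [ofReal_zero] at this
        exact this.mono_left nhdsWithin_le_nhds
      exact (hD.tendsto 0).comp h3
    · exact (continuous_ofReal.tendsto _).comp h1
  have h3 : ‖HurwitzZeta.hurwitzZeta (x : UnitAddCircle) 0 -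
      HurwitzZeta.hurwitzZeta ((1 : ℝ) : UnitAddCircle) 0 - ((1 / 2 : ℝ) : ℂ)‖ ≤ 1 / 2 := by
    refine le_of_tendsto_of_tendsto h2 h1 ?_
    filter_upwards [Ioo_mem_nhdsGT (zero_lt_one' ℝ)] with t ht
    exact dd_real hx0 hx1 ht.1 ht.2
  have h4 : HurwitzZeta.hurwitzZeta ((1 : ℝ) : UnitAddCircle) 0 = -1 / 2 := by
    have h5 : ((1 : ℝ) : UnitAddCircle) = 0 := AddCircle.coe_period 1
    rw [h5, HurwitzZeta.hurwitzZeta_zero, riemannZeta_zero]
  rw [h4] at h3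
  have h5 : HurwitzZeta.hurwitzZeta (x : UnitAddCircle) 0 - (-1 / 2) - ((1 / 2 : ℝ) : ℂ)
      = HurwitzZeta.hurwitzZeta (x : UnitAddCircle) 0 := by
    push_cast
    ring
  rwa [h5] at h3

lemma dd_zero_norm' (q : ℕ) [NeZero q] (a : ZMod q) :
    ‖HurwitzZeta.hurwitzZeta (ZMod.toAddCircle a) 0‖ ≤ 1 := by
  have hq : (0 : ℝ) < q := Nat.cast_pos.2 (NeZero.pos q)
  by_cases ha : a = 0
  · subst ha
    rw [map_zero, HurwitzZeta.hurwitzZeta_zero, riemannZeta_zero]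
    norm_num
  · have h1 : 0 < a.val := Nat.pos_of_ne_zero fun h => ha ((ZMod.val_eq_zero a).1 h)
    rw [ZMod.toAddCircle_apply]
    refine (dd_zero_norm (x := (a.val : ℝ) / q) (by positivity) ?_).trans (by norm_num)
    rw [div_le_one hq]
    exact_mod_cast (ZMod.val_lt a).le

/-- **D5.** `|hurwitzZeta a 0| ≤ 1/2` (`-B₁(x)` for `a = x mod 1`). -/
theorem DD_zero (q : ℕ) [NeZero q] (h : ZMod q) : ‖DD q h 0‖ ≤ (q : ℝ) ^ 3 := by
  unfold DD
  rw [mul_zero, neg_zero, cpow_zero, one_mul]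
  have h1 : ∀ a b c : ZMod q, ‖ZMod.stdAddChar (-(h * a * b * c)) *
      (HurwitzZeta.hurwitzZeta (ZMod.toAddCircle a) 0 *
      HurwitzZeta.hurwitzZeta (ZMod.toAddCircle b) 0 *
      HurwitzZeta.hurwitzZeta (ZMod.toAddCircle c) 0)‖ ≤ 1 := by
    intro a b c
    rw [norm_mul, norm_mul, norm_mul, AddChar.norm_apply, one_mul]
    have ha := dd_zero_norm' q a
    have hb := dd_zero_norm' q b
    have hc := dd_zero_norm' q c
    exact mul_le_one₀ (mul_le_one₀ ha (norm_nonneg _) hb) (norm_nonneg _) hc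
  have h2 : ∀ a b : ZMod q, ‖∑ c : ZMod q, ZMod.stdAddChar (-(h * a * b * c)) *
      (HurwitzZeta.hurwitzZeta (ZMod.toAddCircle a) 0 *
      HurwitzZeta.hurwitzZeta (ZMod.toAddCircle b) 0 *
      HurwitzZeta.hurwitzZeta (ZMod.toAddCircle c) 0)‖ ≤ q := by
    intro a b
    refine (norm_sum_le_of_le _ fun c _ => h1 a b c).trans ?_
    simp
  have h3 : ∀ a : ZMod q, ‖∑ b : ZMod q, ∑ c : ZMod q, ZMod.stdAddChar (-(h * a * b * c)) *
      (HurwitzZeta.hurwitzZeta (ZMod.toAddCircle a) 0 *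
      HurwitzZeta.hurwitzZeta (ZMod.toAddCircle b) 0 *
      HurwitzZeta.hurwitzZeta (ZMod.toAddCircle c) 0)‖ ≤ (q : ℝ) ^ 2 := by
    intro a
    refine (norm_sum_le_of_le _ fun b _ => h2 a b).trans ?_
    simp [sq]
  refine (norm_sum_le_of_le _ fun a _ => h3 a).trans ?_
  simp
  exact le_of_eq (by ring)

end S6

end

section

namespace S6
open Complex MeasureTheory Filter Topology Set
open scoped Real ComplexConjugate

/-- a term of `(s-1) ζ(s, x)` (trapezoidal rule) -/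
noncomputable def hge (x : ℝ) (n : ℕ) (s : ℂ) : ℂ :=
  (s - 1) / 2 * (((((n : ℝ) + x : ℝ) : ℂ)) ^ (-s) + (((n : ℝ) + x + 1 : ℝ) : ℂ) ^ (-s)) +
    (((n : ℝ) + x + 1 : ℝ) : ℂ) ^ (1 - s) - (((n : ℝ) + x : ℝ) : ℂ) ^ (1 - s)

lemma hge_norm {x : ℝ} (hx0 : 0 < x) (n : ℕ) {s : ℂ} (hs : -1 ≤ s.re) :
    ‖hge x n s‖ ≤ ‖s - 1‖ * ‖s‖ * ‖s + 1‖ * ((n : ℝ) + x) ^ (-s.re - 2) := by
  have hn : (0 : ℝ) ≤ n := Nat.cast_nonneg n
  set y : ℝ := (n : ℝ) + x with hy
  have hy0 : 0 < y := by positivity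
  have hcp : ∀ (w : ℂ) (v : ℝ), 0 ≤ v → HasDerivAt (fun v : ℝ => ((y + v : ℝ) : ℂ) ^ w)
      (w * ((y + v : ℝ) : ℂ) ^ (w - 1)) v := by
    intro w v hv
    have h2 : HasDerivAt (fun z : ℂ => ((y : ℂ) + z) ^ w) (w * ((y : ℂ) + (v : ℂ)) ^ (w - 1) * 1) (v : ℂ) := by
      refine HasDerivAt.cpow_const ((hasDerivAt_id (v : ℂ)).const_add (y : ℂ)) ?_
      rw [← ofReal_add]
      exact ofReal_mem_slitPlane.2 (by positivity)
    have h3 := h2.comp_ofReal
    rw [mul_one] at h3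
    push_cast
    exact h3
  set Φ : ℝ → ℂ := fun v => (s - 1) * ((((v ^ 2 - v) / 2 : ℝ) : ℂ) * (-s * ((y + v : ℝ) : ℂ) ^ (-s - 1)) -
    ((v - 1 / 2 : ℝ) : ℂ) * ((y + v : ℝ) : ℂ) ^ (-s)) - ((y + v : ℝ) : ℂ) ^ (1 - s) with hΦ
  have hd : ∀ v : ℝ, 0 ≤ v → HasDerivAt Φ ((s - 1) * ((((v ^ 2 - v) / 2 : ℝ) : ℂ) *
      (s * (s + 1) * ((y + v : ℝ) : ℂ) ^ (-s - 2)))) v := by
    intro v hv
    have a1 : HasDerivAt (fun v : ℝ => (((v ^ 2 - v) / 2 : ℝ) : ℂ)) (((v - 1 / 2 : ℝ)) : ℂ) v := by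
      have : HasDerivAt (fun v : ℝ => (v ^ 2 - v) / 2) (v - 1 / 2) v :=
        (((hasDerivAt_pow 2 v).sub (hasDerivAt_id v)).div_const 2).congr_deriv (by norm_num; ring)
      exact this.ofReal_comp
    have a2 : HasDerivAt (fun v : ℝ => ((v - 1 / 2 : ℝ) : ℂ)) (1 : ℂ) v := by
      have := ((hasDerivAt_id v).sub_const (1 / 2)).ofReal_comp
      simpa using this
    have b1 := hcp (-s - 1) v hv
    have b2 := hcp (-s) v hv
    have b3 := hcp (1 - s) v hv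
    have c := (((a1.mul (b1.const_mul (-s))).sub (a2.mul b2)).const_mul (s - 1)).sub b3
    refine c.congr_deriv ?_
    have e1 : -s - 1 - 1 = -s - 2 := by ring
    have e2 : 1 - s - 1 = -s := by ring
    rw [e1, e2]
    push_cast
    ring
  have hbd : ∀ v ∈ Ico (0:ℝ) 1, ‖(s - 1) * ((((v ^ 2 - v) / 2 : ℝ) : ℂ) *
      (s * (s + 1) * ((y + v : ℝ) : ℂ) ^ (-s - 2)))‖ ≤ ‖s - 1‖ * ‖s‖ * ‖s + 1‖ * y ^ (-s.re - 2) := by
    intro v hv
    have h1 : ‖(((v ^ 2 - v) / 2 : ℝ) : ℂ)‖ ≤ 1 := by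
      rw [norm_real, Real.norm_eq_abs, abs_le]
      constructor <;> nlinarith [hv.1, hv.2]
    have h2 : ‖((y + v : ℝ) : ℂ) ^ (-s - 2)‖ ≤ y ^ (-s.re - 2) := by
      rw [norm_cpow_eq_rpow_re_of_pos (by linarith [hv.1])]
      have : (-s - 2).re = -s.re - 2 := by simp
      rw [this]
      exact Real.rpow_le_rpow_of_nonpos hy0 (by linarith [hv.1]) (by linarith)
    rw [norm_mul, norm_mul, norm_mul, norm_mul]
    have h3 : ‖(((v ^ 2 - v) / 2 : ℝ) : ℂ)‖ * (‖s‖ * ‖s + 1‖ * ‖((y + v : ℝ) : ℂ) ^ (-s - 2)‖) ≤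
        1 * (‖s‖ * ‖s + 1‖ * y ^ (-s.re - 2)) := by
      refine mul_le_mul h1 ?_ (by positivity) zero_le_one
      exact mul_le_mul_of_nonneg_left h2 (by positivity)
    calc _ ≤ ‖s - 1‖ * (1 * (‖s‖ * ‖s + 1‖ * y ^ (-s.re - 2))) := by
          exact mul_le_mul_of_nonneg_left h3 (norm_nonneg _)
      _ = _ := by ring
  have hmv := norm_image_sub_le_of_norm_deriv_le_segment_01'
    (fun v hv => (hd v hv.1).hasDerivWithinAt) hbd
  have he : Φ 1 - Φ 0 = -hge x n s := by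
    simp only [hΦ, hge]
    rw [← hy]
    push_cast
    ring_nf
  rw [he, norm_neg] at hmv
  exact hmv

lemma hge_norm' {x : ℝ} (hx0 : 0 < x) (hx1 : x ≤ 1) (n : ℕ) {s : ℂ} (hs : -1 ≤ s.re) :
    ‖hge x n s‖ ≤ ‖s - 1‖ * ‖s‖ * ‖s + 1‖ * (x ^ (-s.re - 2) * ((n : ℝ) + 1) ^ (-s.re - 2)) := by
  have hn : (0 : ℝ) ≤ n := Nat.cast_nonneg n
  refine (hge_norm hx0 n hs).trans ?_
  refine mul_le_mul_of_nonneg_left ?_ (by positivity)
  rw [← Real.mul_rpow hx0.le (by positivity)]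
  refine Real.rpow_le_rpow_of_nonpos (by positivity) ?_ (by linarith)
  nlinarith

lemma hge_diff {x : ℝ} (hx0 : 0 < x) (n : ℕ) : Differentiable ℂ (hge x n) := by
  have hn : (0 : ℝ) ≤ n := Nat.cast_nonneg n
  unfold hge
  have h1 : (((n : ℝ) + x : ℝ) : ℂ) ≠ 0 := by rw [ofReal_ne_zero]; positivity
  have h2 : (((n : ℝ) + x + 1 : ℝ) : ℂ) ≠ 0 := by rw [ofReal_ne_zero]; positivity
  refine ((Differentiable.mul (by fun_prop) ?_).add ?_).sub ?_
  · exact (Differentiable.const_cpow (by fun_prop) (Or.inl h1)).add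
      (Differentiable.const_cpow (by fun_prop) (Or.inl h2))
  · exact Differentiable.const_cpow (by fun_prop) (Or.inl h2)
  · exact Differentiable.const_cpow (by fun_prop) (Or.inl h1)

lemma hg_formula {x : ℝ} (hx0 : 0 < x) (hx1 : x ≤ 1) {s : ℂ} (hs : -1 / 2 ≤ s.re) :
    dde (x : UnitAddCircle) s = (s - 1) / 2 * (x : ℂ) ^ (-s) + (x : ℂ) ^ (1 - s) + ∑' n, hge x n s := by
  set R : ℝ := ‖s‖ + 3 with hR
  have hR0 : 0 ≤ ‖s‖ := norm_nonneg s
  set U : Set ℂ := {s : ℂ | -3 / 4 < s.re} ∩ Metric.ball 0 R with hU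
  have hUo : IsOpen U := (isOpen_lt continuous_const continuous_re).inter Metric.isOpen_ball
  have hUc : IsPreconnected U :=
    ((convex_halfSpace_re_gt (-3 / 4)).inter (convex_ball _ _)).isPreconnected
  have hsum : Summable fun n : ℕ => ((R + 1) * R * (R + 1) * x ^ (-R - 2)) * (((n + 1 : ℕ) : ℝ)) ^ (-(5 / 4) : ℝ) :=
    ((summable_nat_add_iff 1).2 (Real.summable_nat_rpow.2 (by norm_num))).mul_left _
  have hbound : ∀ (n : ℕ) (s : ℂ), s ∈ U → ‖hge x n s‖ ≤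
      ((R + 1) * R * (R + 1) * x ^ (-R - 2)) * (((n + 1 : ℕ) : ℝ)) ^ (-(5 / 4) : ℝ) := by
    intro n s hs
    have hs1 : -3 / 4 < s.re := hs.1
    have hs2 : ‖s‖ ≤ R := by
      have := hs.2
      rw [mem_ball_zero_iff] at this
      exact this.le
    refine (hge_norm' hx0 hx1 n (by linarith)).trans ?_
    have h1 : ((n : ℝ) + 1) ^ (-s.re - 2) ≤ (((n + 1 : ℕ) : ℝ)) ^ (-(5 / 4) : ℝ) := by
      push_cast
      exact Real.rpow_le_rpow_of_exponent_le (by linarith [(Nat.cast_nonneg n : (0 : ℝ) ≤ n)])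
        (by linarith)
    have h2 : x ^ (-s.re - 2) ≤ x ^ (-R - 2) :=
      Real.rpow_le_rpow_of_exponent_ge hx0 hx1 (by linarith [(abs_le.mp ((abs_re_le_norm s).trans hs2)).2])
    have h3 : ‖s - 1‖ ≤ R + 1 := (norm_sub_le _ _).trans (by rw [norm_one]; linarith)
    have h4 : ‖s + 1‖ ≤ R + 1 := (norm_add_le _ _).trans (by rw [norm_one]; linarith)
    have hRp : 0 ≤ R := by positivity
    calc _ ≤ ((R + 1) * R * (R + 1)) * (x ^ (-R - 2) * (((n + 1 : ℕ) : ℝ)) ^ (-(5 / 4) : ℝ)) := by gcongr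
      _ = _ := by ring
  have hG : DifferentiableOn ℂ (fun s => (s - 1) / 2 * (x : ℂ) ^ (-s) + (x : ℂ) ^ (1 - s) + ∑' n, hge x n s) U := by
    have hx' : (x : ℂ) ≠ 0 := by exact_mod_cast hx0.ne'
    refine DifferentiableOn.add ?_ ?_
    · refine Differentiable.differentiableOn ?_
      exact (Differentiable.mul (by fun_prop) (Differentiable.const_cpow (by fun_prop) (Or.inl hx'))).add
        (Differentiable.const_cpow (by fun_prop) (Or.inl hx'))
    · exact differentiableOn_tsum_of_summable_norm hsum (fun n => (hge_diff hx0 n).differentiableOn) hUo hbound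
  have h2U : (2 : ℂ) ∈ U := by
    refine ⟨?_, ?_⟩
    · change -3 / 4 < (2 : ℂ).re
      norm_num
    · rw [mem_ball_zero_iff]
      norm_num
      linarith
  have hev : dde (x : UnitAddCircle) =ᶠ[𝓝 2]
      fun s => (s - 1) / 2 * (x : ℂ) ^ (-s) + (x : ℂ) ^ (1 - s) + ∑' n, hge x n s := by
    have h1 : {s : ℂ | 1 < s.re} ∈ 𝓝 (2 : ℂ) :=
      (isOpen_lt continuous_const continuous_re).mem_nhds (by simp)
    filter_upwards [h1, hUo.mem_nhds h2U] with s hs hsU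
    have hs : 1 < s.re := hs
    have hs1 : s ≠ 1 := by rintro rfl; simp at hs
    rw [dde_ne _ hs1]
    have h2 := HurwitzZeta.hasSum_hurwitzZeta_of_one_lt_re (a := x) ⟨hx0.le, hx1⟩ hs
    set Z := HurwitzZeta.hurwitzZeta (x : UnitAddCircle) s with hZ
    set f : ℕ → ℂ := fun n => (((n : ℝ) + x : ℝ) : ℂ) ^ (-s) with hf
    have hfs : HasSum f Z := by
      have e : f = fun n : ℕ => 1 / ((n : ℂ) + (x : ℂ)) ^ s := by
        funext n
        simp only [hf]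
        rw [cpow_neg, one_div]
        push_cast
        rfl
      rw [e]; exact h2
    have hf1 : HasSum (fun n => f (n + 1)) (Z - (x : ℂ) ^ (-s)) := by
      have := (hasSum_nat_add_iff' 1).mpr hfs
      simpa [hf] using this
    have hadd := (hfs.add hf1).mul_left ((s - 1) / 2)
    set g : ℕ → ℂ := fun n => (((n : ℝ) + x : ℝ) : ℂ) ^ (1 - s) with hg
    have hhs : Summable (fun n => hge x n s) :=
      Summable.of_norm_bounded hsum (fun n => hbound n s hsU)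
    have hdec : ∀ n, hge x n s = (s - 1) / 2 * (f n + f (n + 1)) + (g (n + 1) - g n) := by
      intro n
      simp only [hge, hf, hg]
      push_cast
      ring_nf
    have hts : Summable (fun n => g (n + 1) - g n) := by
      have := hhs.sub hadd.summable
      refine this.congr (fun n => ?_)
      rw [hdec]; ring
    have htt : HasSum (fun n => g (n + 1) - g n) (-(x : ℂ) ^ (1 - s)) := by
      have t1 := hts.hasSum.tendsto_sum_nat
      have t2 : Tendsto (fun N : ℕ => ∑ n ∈ Finset.range N, (g (n + 1) - g n)) atTop (𝓝 (0 - g 0)) := by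
        simp_rw [Finset.sum_range_sub]
        refine Tendsto.sub_const ?_ _
        rw [tendsto_zero_iff_norm_tendsto_zero]
        have e : ∀ n : ℕ, ‖g n‖ = ((n : ℝ) + x) ^ (-(s.re - 1)) := by
          intro n
          simp only [hg]
          rw [norm_cpow_eq_rpow_re_of_pos (by positivity)]
          congr 1
          simp
        simp_rw [e]
        refine (tendsto_rpow_neg_atTop (by linarith : 0 < s.re - 1)).comp ?_
        exact tendsto_atTop_add_const_right _ _ tendsto_natCast_atTop_atTop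
      have := tendsto_nhds_unique t1 t2
      have h3 := hts.hasSum
      rw [this] at h3
      simpa [hg] using h3
    have hall := hadd.add htt
    have := hall.tsum_eq
    simp_rw [← hdec] at this
    rw [this]
    ring
  have hEq := ((dde_diff _).differentiableOn.analyticOnNhd hUo).eqOn_of_preconnected_of_eventuallyEq
    (hG.analyticOnNhd hUo) hUc h2U hev
  have htU : s ∈ U := by
    refine ⟨?_, ?_⟩
    · change -3 / 4 < s.re
      linarith
    · rw [mem_ball_zero_iff]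
      linarith
  exact hEq htU

lemma hg_real {x : ℝ} (hx0 : 0 < x) (hx1 : x ≤ 1) : ∃ C : ℝ, ∀ s : ℂ, -1 / 2 ≤ s.re →
    s.re ≤ 2 → 1 ≤ |s.im| →
    ‖HurwitzZeta.hurwitzZeta (x : UnitAddCircle) s‖ ≤ C * (1 + |s.im|) ^ (2 : ℝ) := by
  have hsum : Summable fun n : ℕ => (((n + 1 : ℕ) : ℝ)) ^ (-(3 / 2) : ℝ) :=
    (summable_nat_add_iff 1).2 (Real.summable_nat_rpow.2 (by norm_num))
  set S : ℝ := ∑' n : ℕ, (((n + 1 : ℕ) : ℝ)) ^ (-(3 / 2) : ℝ) with hS
  have hS0 : 0 ≤ S := tsum_nonneg (fun n => by positivity)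
  refine ⟨x ^ (-2 : ℝ) + x ^ (-1 : ℝ) + 9 * (x ^ (-4 : ℝ) * S), fun s hs1 hs2 hs3 => ?_⟩
  have hne : s ≠ 1 := by rintro rfl; norm_num at hs3
  have hn1 : 1 ≤ ‖s - 1‖ := by
    refine hs3.trans ?_
    have := abs_im_le_norm (s - 1)
    simpa using this
  have hre : |s.re| ≤ 2 := abs_le.mpr ⟨by linarith, hs2⟩
  have hn2 : ‖s‖ ≤ 3 * (1 + |s.im|) := by
    refine (norm_le_abs_re_add_abs_im s).trans ?_
    linarith [abs_nonneg s.im]
  have hn3 : ‖s + 1‖ ≤ 3 * (1 + |s.im|) := by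
    refine (norm_add_le _ _).trans ?_
    rw [norm_one]
    have := norm_le_abs_re_add_abs_im s
    linarith [abs_nonneg s.im]
  have hterm : ∀ n : ℕ, ‖hge x n s‖ ≤ (‖s - 1‖ * ‖s‖ * ‖s + 1‖ * x ^ (-4 : ℝ)) *
      (((n + 1 : ℕ) : ℝ)) ^ (-(3 / 2) : ℝ) := by
    intro n
    refine (hge_norm' hx0 hx1 n (by linarith)).trans ?_
    have h1 : ((n : ℝ) + 1) ^ (-s.re - 2) ≤ (((n + 1 : ℕ) : ℝ)) ^ (-(3 / 2) : ℝ) := by
      push_cast
      exact Real.rpow_le_rpow_of_exponent_le (by linarith [(Nat.cast_nonneg n : (0 : ℝ) ≤ n)])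
        (by linarith)
    have h2 : x ^ (-s.re - 2) ≤ x ^ (-4 : ℝ) :=
      Real.rpow_le_rpow_of_exponent_ge hx0 hx1 (by linarith)
    calc _ ≤ ‖s - 1‖ * ‖s‖ * ‖s + 1‖ * (x ^ (-4 : ℝ) * (((n + 1 : ℕ) : ℝ)) ^ (-(3 / 2) : ℝ)) := by gcongr
      _ = _ := by ring
  have hts : ‖∑' n, hge x n s‖ ≤ (‖s - 1‖ * ‖s‖ * ‖s + 1‖ * x ^ (-4 : ℝ)) * S := by
    rw [hS, ← tsum_mul_left]
    exact tsum_of_norm_bounded (hsum.mul_left _).hasSum hterm
  have hf := hg_formula hx0 hx1 hs1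
  rw [dde_ne _ hne] at hf
  have hxs : ‖(x : ℂ) ^ (-s)‖ ≤ x ^ (-2 : ℝ) := by
    rw [norm_cpow_eq_rpow_re_of_pos hx0]
    exact Real.rpow_le_rpow_of_exponent_ge hx0 hx1 (by simp; linarith)
  have hxs' : ‖(x : ℂ) ^ (1 - s)‖ ≤ x ^ (-1 : ℝ) := by
    rw [norm_cpow_eq_rpow_re_of_pos hx0]
    exact Real.rpow_le_rpow_of_exponent_ge hx0 hx1 (by simp; linarith)
  have hmain : ‖s - 1‖ * ‖HurwitzZeta.hurwitzZeta (x : UnitAddCircle) s‖ ≤
      ‖s - 1‖ * (x ^ (-2 : ℝ) + x ^ (-1 : ℝ) + ‖s‖ * ‖s + 1‖ * (x ^ (-4 : ℝ) * S)) := by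
    rw [← norm_mul, hf]
    have k1 : ‖(s - 1) / 2 * (x : ℂ) ^ (-s)‖ ≤ ‖s - 1‖ * x ^ (-2 : ℝ) := by
      rw [norm_mul, norm_div, norm_ofNat]
      have : ‖s - 1‖ / 2 ≤ ‖s - 1‖ := by linarith
      exact mul_le_mul this hxs (norm_nonneg _) (norm_nonneg _)
    have k2 : ‖(x : ℂ) ^ (1 - s)‖ ≤ ‖s - 1‖ * x ^ (-1 : ℝ) := by
      refine hxs'.trans ?_
      have : 0 < x ^ (-1 : ℝ) := by positivity
      nlinarith
    calc ‖(s - 1) / 2 * (x : ℂ) ^ (-s) + (x : ℂ) ^ (1 - s) + ∑' n, hge x n s‖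
        ≤ ‖(s - 1) / 2 * (x : ℂ) ^ (-s)‖ + ‖(x : ℂ) ^ (1 - s)‖ + ‖∑' n, hge x n s‖ :=
          (norm_add_le _ _).trans (by gcongr; exact norm_add_le _ _)
      _ ≤ ‖s - 1‖ * x ^ (-2 : ℝ) + ‖s - 1‖ * x ^ (-1 : ℝ) + (‖s - 1‖ * ‖s‖ * ‖s + 1‖ * x ^ (-4 : ℝ)) * S := by
          gcongr
      _ = _ := by ring
  have h6 := le_of_mul_le_mul_left hmain (by linarith)
  refine h6.trans ?_
  have hT : 1 ≤ (1 + |s.im|) ^ (2 : ℝ) := Real.one_le_rpow (by linarith [abs_nonneg s.im]) (by norm_num)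
  have h7 : ‖s‖ * ‖s + 1‖ ≤ 9 * (1 + |s.im|) ^ (2 : ℝ) := by
    have : (1 + |s.im|) ^ (2 : ℝ) = (1 + |s.im|) ^ 2 := by norm_cast
    rw [this]
    calc ‖s‖ * ‖s + 1‖ ≤ (3 * (1 + |s.im|)) * (3 * (1 + |s.im|)) := by gcongr
      _ = _ := by ring
  have hxS : 0 ≤ x ^ (-4 : ℝ) * S := by positivity
  have hx2 : 0 < x ^ (-2 : ℝ) := by positivity
  have hx1' : 0 < x ^ (-1 : ℝ) := by positivity
  have h8 := mul_le_mul_of_nonneg_right h7 hxS
  nlinarith

theorem hurwitz_growth (q : ℕ) [NeZero q] (a : ZMod q) : ∃ C A : ℝ, ∀ s : ℂ, -1 / 2 ≤ s.re →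
    s.re ≤ 2 → 1 ≤ |s.im| →
    ‖HurwitzZeta.hurwitzZeta (ZMod.toAddCircle a) s‖ ≤ C * (1 + |s.im|) ^ A := by
  have hq : (0 : ℝ) < q := Nat.cast_pos.2 (NeZero.pos q)
  by_cases ha : a = 0
  · subst ha
    obtain ⟨C, hC⟩ := hg_real (x := 1) one_pos le_rfl
    refine ⟨C, 2, fun s h1 h2 h3 => ?_⟩
    have := hC s h1 h2 h3
    have e : ((1 : ℝ) : UnitAddCircle) = ZMod.toAddCircle (0 : ZMod q) := by
      rw [map_zero]
      exact AddCircle.coe_period 1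
    rw [e] at this
    exact this
  · have h1 : 0 < a.val := Nat.pos_of_ne_zero fun h => ha ((ZMod.val_eq_zero a).1 h)
    rw [ZMod.toAddCircle_apply]
    obtain ⟨C, hC⟩ := hg_real (x := (a.val : ℝ) / q) (by positivity) (by
      rw [div_le_one hq]
      exact_mod_cast (ZMod.val_lt a).le)
    exact ⟨C, 2, hC⟩

end S6

end

section

set_option autoImplicit false

namespace S6
open Complex MeasureTheory Filter Topology Set
open scoped Real ComplexConjugate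

lemma HH_pos {T : ℝ} (hT : 1 < T) : 0 < HH T := by
  unfold HH
  exact div_pos (by linarith) (Real.log_pos hT)

/-- **B1.** Gaussian Fourier transform. -/
theorem win_fourier {T : ℝ} (hT : 1 < T) (τ α : ℝ) :
    ∫ t : ℝ, cexp (((t * α : ℝ) : ℂ) * I) * (win T τ t : ℂ) =
      (HH T * √π * Real.exp (-(HH T * α / 2) ^ 2) : ℝ) * cexp (((τ * α : ℝ) : ℂ) * I) := by
  have hH := HH_pos hT
  set H := HH T with hHdef
  have hHc : (H : ℂ) ≠ 0 := by exact_mod_cast hH.ne'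
  have h1 : ∀ t : ℝ, cexp (((t * α : ℝ) : ℂ) * I) * (win T τ t : ℂ) =
      cexp ((-((H : ℂ) ^ 2)⁻¹) * (t : ℂ) ^ 2 + (2 * τ / (H : ℂ) ^ 2 + α * I) * t +
        (-(τ : ℂ) ^ 2 / (H : ℂ) ^ 2)) := by
    intro t
    unfold win
    rw [ofReal_exp, ← Complex.exp_add]
    congr 1
    push_cast
    rw [← hHdef]
    field_simp
    ring
  simp only [h1]
  have hb : (-((H : ℂ) ^ 2)⁻¹).re < 0 := by
    have : (-((H : ℂ) ^ 2)⁻¹) = ((-(H ^ 2)⁻¹ : ℝ) : ℂ) := by push_cast; ring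
    rw [this, ofReal_re]
    have : 0 < (H ^ 2)⁻¹ := by positivity
    linarith
  rw [integral_cexp_quadratic hb]
  have h2 : ((π : ℂ) / -(-((H : ℂ) ^ 2)⁻¹)) ^ (1 / 2 : ℂ) = ((H * √π : ℝ) : ℂ) := by
    have h3 : ((π : ℂ) / -(-((H : ℂ) ^ 2)⁻¹)) = ((π * H ^ 2 : ℝ) : ℂ) := by
      push_cast
      field_simp
    rw [h3, show (1 / 2 : ℂ) = ((1 / 2 : ℝ) : ℂ) by push_cast; ring,
      ← ofReal_cpow (by positivity), ← Real.sqrt_eq_rpow, Real.sqrt_mul Real.pi_pos.le,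
      Real.sqrt_sq hH.le, mul_comm]
  rw [h2]
  have h4 : (-(τ : ℂ) ^ 2 / (H : ℂ) ^ 2) - (2 * τ / (H : ℂ) ^ 2 + α * I) ^ 2 /
      (4 * (-((H : ℂ) ^ 2)⁻¹)) = ((-(H * α / 2) ^ 2 : ℝ) : ℂ) + ((τ * α : ℝ) : ℂ) * I := by
    push_cast
    field_simp
    ring_nf
    rw [I_sq]
    ring
  rw [h4, Complex.exp_add, ← ofReal_exp]
  push_cast
  ring

end S6

end

section

namespace SG
open Complex MeasureTheory Filter Topology Set
open scoped Real ComplexConjugate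

private theorem D2b_pochh (w : ℝ) (n : ℕ) :
    Ring.choose (w + n - 1) n = (∏ m ∈ Finset.range n, (w + m)) / (n.factorial : ℝ) := by
  have h := Ring.factorial_nsmul_multichoose_eq_ascPochhammer w n
  rw [Ring.multichoose_eq, Polynomial.ascPochhammer_smeval_eq_eval] at h
  have h2 : ∀ n : ℕ, (ascPochhammer ℝ n).eval w = ∏ m ∈ Finset.range n, (w + m) := by
    intro n
    induction n with
    | zero => simp
    | succ n ih => rw [ascPochhammer_succ_eval, ih, Finset.prod_range_succ]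
  rw [h2, nsmul_eq_mul] at h
  have hf : (n.factorial : ℝ) ≠ 0 := by exact_mod_cast n.factorial_ne_zero
  rw [eq_div_iff hf, mul_comm]
  exact h

private theorem D2b_binom (w : ℝ) {x : ℝ} (hx : 0 ≤ x) (hx1 : x < 1) :
    HasSum (fun i : ℕ => (∏ m ∈ Finset.range i, (w + m)) / (i.factorial : ℝ) * x ^ i)
      ((1 - x) ^ (-w)) := by
  have h := (Real.one_div_one_sub_rpow_hasFPowerSeriesOnBall_zero w).hasSum (y := x) (by
    rw [Metric.mem_eball, edist_dist, Real.dist_eq, sub_zero, abs_of_nonneg hx]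
    exact_mod_cast (ENNReal.ofReal_lt_one.mpr hx1))
  simp only [FormalMultilinearSeries.ofScalars_apply_eq, zero_add, smul_eq_mul, D2b_pochh] at h
  rw [Real.rpow_neg (by linarith), ← one_div]
  exact h

private theorem D2b_exp (a : ℝ) : HasSum (fun n : ℕ => a ^ n / (n.factorial : ℝ)) (Real.exp a) := by
  have := NormedSpace.expSeries_div_hasSum_exp a
  rwa [← Real.exp_eq_exp_ℝ] at this

private noncomputable def D2bG (u x y : ℝ) (q : (ℕ × ℕ) × ℕ) : ℝ :=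
  ((∏ m ∈ Finset.range q.2, (u + q.1.1 + q.1.2 + m)) / (q.2.factorial : ℝ) * x ^ q.2) *
    (((2 * π) * y) ^ q.1.1 / (q.1.1.factorial : ℝ) * (((2 * π) * y) ^ q.1.2 / (q.1.2.factorial : ℝ)))

private theorem D2bG_nonneg {u x y : ℝ} (hu : 0 ≤ u) (hx : 0 ≤ x) (hy : 0 ≤ y) :
    0 ≤ D2bG u x y := by
  intro q
  unfold D2bG
  have : 0 ≤ ∏ m ∈ Finset.range q.2, (u + q.1.1 + q.1.2 + m) :=
    Finset.prod_nonneg fun m _ => by positivity
  show (0 : ℝ) ≤ _
  positivity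

private theorem D2bG_sum {u x y : ℝ} (hu : 0 ≤ u) (hx : 0 ≤ x) (hx1 : x < 1) (hy : 0 ≤ y) :
    HasSum (D2bG u x y) ((1 - x) ^ (-u) * Real.exp (4 * π * y / (1 - x))) := by
  have h1x : 0 < 1 - x := by linarith
  set b : ℝ := 2 * π * y / (1 - x) with hb
  have hb0 : 0 ≤ b := by positivity
  have hin : ∀ q : ℕ × ℕ, HasSum (fun i => D2bG u x y (q, i))
      ((1 - x) ^ (-u) * (b ^ q.1 / (q.1.factorial : ℝ) * (b ^ q.2 / (q.2.factorial : ℝ)))) := by
    intro q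
    have h := (D2b_binom (u + q.1 + q.2) hx hx1).mul_right
      (((2 * π) * y) ^ q.1 / (q.1.factorial : ℝ) * (((2 * π) * y) ^ q.2 / (q.2.factorial : ℝ)))
    have e : (1 - x) ^ (-u) * (b ^ q.1 / (q.1.factorial : ℝ) * (b ^ q.2 / (q.2.factorial : ℝ))) =
        (1 - x) ^ (-(u + q.1 + q.2)) * (((2 * π) * y) ^ q.1 / (q.1.factorial : ℝ) *
          (((2 * π) * y) ^ q.2 / (q.2.factorial : ℝ))) := by
      rw [hb, div_pow, div_pow, neg_add, neg_add, Real.rpow_add h1x, Real.rpow_add h1x,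
        Real.rpow_neg h1x.le (q.1 : ℝ), Real.rpow_neg h1x.le (q.2 : ℝ), Real.rpow_natCast,
        Real.rpow_natCast]
      field_simp
    rw [e]
    exact h
  have hout : HasSum (fun q : ℕ × ℕ => (1 - x) ^ (-u) *
      (b ^ q.1 / (q.1.factorial : ℝ) * (b ^ q.2 / (q.2.factorial : ℝ))))
      ((1 - x) ^ (-u) * Real.exp (4 * π * y / (1 - x))) := by
    apply HasSum.mul_left
    have he : Real.exp (4 * π * y / (1 - x)) = Real.exp b * Real.exp b := by
      rw [← Real.exp_add]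
      congr 1
      rw [hb]; ring
    rw [he]
    have hs := (D2b_exp b).summable
    have hnn : (0 : ℕ → ℝ) ≤ fun n : ℕ => b ^ n / (n.factorial : ℝ) := fun n => by
      show (0 : ℝ) ≤ _
      positivity
    exact (D2b_exp b).mul (D2b_exp b) (hs.mul_of_nonneg hs hnn hnn)
  have hsum : Summable (D2bG u x y) := by
    rw [summable_prod_of_nonneg (D2bG_nonneg hu hx hy)]
    refine ⟨fun q => (hin q).summable, ?_⟩
    simp only [fun q => (hin q).tsum_eq]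
    exact hout.summable
  have := hsum.hasSum.prod_fiberwise hin
  rw [← this.unique hout]
  exact hsum.hasSum

private theorem D2b_le (z : ℂ) {x y : ℝ} (hx : 0 ≤ x) (hy : 0 ≤ y) (t : ℕ × ℕ × ℕ) :
    ‖cijl z t‖ * x ^ t.1 * y ^ t.2.1 * y ^ t.2.2 ≤ D2bG ‖z‖ x y ((t.2.1, t.2.2), t.1) := by
  have hI : ‖(2 : ℂ) * π * I‖ = 2 * π := by
    rw [norm_mul, norm_mul, Complex.norm_I, Complex.norm_real, Real.norm_eq_abs,
      abs_of_pos Real.pi_pos]
    simp
  have hI' : ‖(-2 : ℂ) * π * I‖ = 2 * π := by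
    rw [norm_mul, norm_mul, Complex.norm_I, Complex.norm_real, Real.norm_eq_abs,
      abs_of_pos Real.pi_pos]
    simp
  have hp : ‖∏ m ∈ Finset.range t.1, (-z - t.2.1 - t.2.2 - m)‖ ≤
      ∏ m ∈ Finset.range t.1, (‖z‖ + t.2.1 + t.2.2 + m) := by
    rw [norm_prod]
    apply Finset.prod_le_prod
    · intro m _; exact norm_nonneg _
    · intro m _
      calc ‖-z - t.2.1 - t.2.2 - m‖ ≤ ‖-z‖ + ‖(t.2.1 : ℂ)‖ + ‖(t.2.2 : ℂ)‖ + ‖(m : ℂ)‖ := by
            refine (norm_sub_le _ _).trans ?_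
            gcongr
            refine (norm_sub_le _ _).trans ?_
            gcongr
            exact norm_sub_le _ _
        _ = ‖z‖ + t.2.1 + t.2.2 + m := by
            rw [norm_neg, Complex.norm_natCast, Complex.norm_natCast, Complex.norm_natCast]
  unfold cijl D2bG
  rw [norm_mul, norm_mul, norm_div, norm_div, norm_div, norm_pow, norm_pow, hI, hI',
    Complex.norm_natCast, Complex.norm_natCast, Complex.norm_natCast]
  calc ‖∏ m ∈ Finset.range t.1, (-z - t.2.1 - t.2.2 - m)‖ / (t.1.factorial : ℝ) *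
        ((2 * π) ^ t.2.1 / (t.2.1.factorial : ℝ)) * ((2 * π) ^ t.2.2 / (t.2.2.factorial : ℝ)) *
        x ^ t.1 * y ^ t.2.1 * y ^ t.2.2
      ≤ (∏ m ∈ Finset.range t.1, (‖z‖ + t.2.1 + t.2.2 + m)) / (t.1.factorial : ℝ) *
        ((2 * π) ^ t.2.1 / (t.2.1.factorial : ℝ)) * ((2 * π) ^ t.2.2 / (t.2.2.factorial : ℝ)) *
        x ^ t.1 * y ^ t.2.1 * y ^ t.2.2 := by gcongr
    _ = _ := by
        simp only
        rw [mul_pow (2 * π) y, mul_pow (2 * π) y]
        ring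

/-- **D2b.** `|∏_{m<i} (-w-m)|/i! ≤ ∏_{m<i} (|w|+m)/i!`, the coefficients of `(1-x)^{-|w|}`, `|w| ≤ |z|+j+l`; so the sum
over `i` is `≤ (1-x)^{-|z|-j-l}` and `∑_{j,l} (2πy/(1-x))^{j+l}/(j! l!) = e^{4πy/(1-x)}`. -/
theorem sep_bound (z : ℂ) {x y : ℝ} (hx : 0 ≤ x) (hx1 : x < 1) (hy : 0 ≤ y) :
    Summable (fun t : ℕ × ℕ × ℕ => ‖cijl z t‖ * x ^ t.1 * y ^ t.2.1 * y ^ t.2.2) ∧
    ∑' t : ℕ × ℕ × ℕ, ‖cijl z t‖ * x ^ t.1 * y ^ t.2.1 * y ^ t.2.2 ≤
      (1 - x) ^ (-‖z‖) * Real.exp (4 * π * y / (1 - x)) := by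
  have h := D2bG_sum (norm_nonneg z) hx hx1 hy
  have h' : HasSum (fun t : ℕ × ℕ × ℕ => D2bG ‖z‖ x y ((t.2.1, t.2.2), t.1))
      ((1 - x) ^ (-‖z‖) * Real.exp (4 * π * y / (1 - x))) := by
    have := (Equiv.prodComm ℕ (ℕ × ℕ)).hasSum_iff.mpr h
    exact this
  have hs : Summable (fun t : ℕ × ℕ × ℕ => ‖cijl z t‖ * x ^ t.1 * y ^ t.2.1 * y ^ t.2.2) :=
    Summable.of_nonneg_of_le (fun t => by positivity) (fun t => D2b_le z hx hy t) h'.summable
  refine ⟨hs, ?_⟩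
  rw [← h'.tsum_eq]
  exact hs.tsum_le_tsum (fun t => D2b_le z hx hy t) h'.summable

end SG

end
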