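import Pool.Agent.Lib.MP_39df77_nt.S6Defs

section

namespace S6
open Complex MeasureTheory Filter Topology Set
open scoped Real ComplexConjugate

private theorem HH_pos_gk {T : ℝ} (hT : 1 < T) : 0 < HH T :=
  div_pos (by linarith) (Real.log_pos hT)

/-- **A3.** Gaussian integral with complex linear term. -/
theorem gauss_ker {T : ℝ} (hT : 1 < T) (τ : ℝ) (s : ℂ) :
    Integrable (fun ξ : ℝ => ker T τ ξ * cexp (om T ξ * s)) ∧
    ∫ ξ : ℝ, ker T τ ξ * cexp (om T ξ * s) = VV T τ s := by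
  have hH : 0 < HH T := HH_pos_gk hT
  have hHC : (HH T : ℂ) ≠ 0 := by exact_mod_cast hH.ne'
  set u : ℂ := s - (1 / 2 + τ * I) with hu
  set ε : ℂ := ((T⁻¹ : ℝ) : ℂ) with hε
  set b : ℂ := -((HH T : ℂ) ^ 2 / 4) with hb
  set c : ℂ := u - I * ε * (HH T : ℂ) ^ 2 / 2 with hc
  set d : ℂ := (HH T : ℂ) ^ 2 / 4 * ε ^ 2 + I * ε * u with hd
  have hbre : b.re < 0 := by
    have h1 : b = ((-(HH T ^ 2 / 4) : ℝ) : ℂ) := by
      rw [hb]
      push_cast
      ring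
    rw [h1, ofReal_re]
    have : 0 < HH T ^ 2 := by positivity
    linarith
  have hfun : (fun ξ : ℝ => ker T τ ξ * cexp (om T ξ * s)) = fun ξ : ℝ =>
      ((HH T / (2 * √π) : ℝ) : ℂ) * cexp (b * (ξ : ℂ) ^ 2 + c * ξ + d) := by
    funext ξ
    rw [ker, gg, mul_assoc, mul_assoc, ← Complex.exp_add, ← Complex.exp_add]
    congr 2
    rw [om, hb, hc, hd, hu]
    linear_combination (-(HH T : ℂ) ^ 2 / 4 * ε ^ 2) * (I_sq)
  rw [hfun]
  refine ⟨(integrable_cexp_quadratic' hbre c d).const_mul _, ?_⟩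
  rw [integral_const_mul, integral_cexp_quadratic hbre, VV]
  have h2 : (π / -b) ^ (1 / 2 : ℂ) = ((2 * √π / HH T : ℝ) : ℂ) := by
    have h3 : (π / -b : ℂ) = (((2 * √π / HH T) ^ 2 : ℝ) : ℂ) := by
      rw [hb]
      have h4 : (2 * √π / HH T) ^ 2 = 4 * π / HH T ^ 2 := by
        rw [div_pow, mul_pow, Real.sq_sqrt Real.pi_pos.le]
        ring
      rw [h4]
      push_cast
      field_simp
    rw [h3]
    have h5 : (0 : ℝ) ≤ 2 * √π / HH T := by positivity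
    rw [show (1 / 2 : ℂ) = ((1 / 2 : ℝ) : ℂ) by push_cast; ring,
      ← ofReal_cpow (by positivity), ← Real.sqrt_eq_rpow, Real.sqrt_sq h5]
  rw [h2, ← mul_assoc, ← ofReal_mul]
  have h6 : HH T / (2 * √π) * (2 * √π / HH T) = 1 := by
    have : √π ≠ 0 := (Real.sqrt_pos.2 Real.pi_pos).ne'
    field_simp
  rw [h6, ofReal_one, one_mul]
  congr 1
  rw [← hu, hb, hc, hd]
  field_simp
  ring_nf
  rw [I_sq]
  ring

/-- **A3'.** -/
theorem ker_norm {T : ℝ} (hT : Real.exp 1 ≤ T) {τ : ℝ} (h0 : 0 ≤ τ) (h1 : τ ≤ T) (ξ : ℝ) :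
    ‖ker T τ ξ‖ ≤ 2 * HH T * Real.exp (-(HH T ^ 2 * ξ ^ 2 / 4) - ξ / 2) := by
  have _ := h0
  have hT1 : 1 < T := lt_of_lt_of_le (by
    have := Real.add_one_lt_exp (x := 1) one_ne_zero
    linarith) hT
  have hT0 : 0 < T := by linarith
  have hH : 0 < HH T := HH_pos_gk hT1
  have hlog : 1 ≤ Real.log T := by
    rw [Real.le_log_iff_exp_le hT0]
    exact hT
  have hHT : HH T * T⁻¹ ≤ 1 := by
    rw [HH, div_mul_eq_mul_div, mul_inv_cancel₀ hT0.ne']
    exact (div_le_one (by linarith)).2 hlog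
  have hHT0 : 0 ≤ HH T * T⁻¹ := by positivity
  have hτ : T⁻¹ * τ ≤ 1 := by
    rw [inv_mul_le_iff₀ hT0]
    linarith
  have hpi : 1 ≤ √π := by
    rw [Real.one_le_sqrt]
    linarith [Real.pi_gt_three]
  rw [ker, gg, norm_mul, norm_mul, Complex.norm_exp, Complex.norm_exp, Complex.norm_real,
    Real.norm_of_nonneg (by positivity), mul_assoc, ← Real.exp_add]
  have hre : (-((HH T : ℂ) ^ 2 * om T ξ ^ 2 / 4)).re + (-(om T ξ * (1 / 2 + τ * I))).re =
      (-(HH T ^ 2 * ξ ^ 2 / 4) - ξ / 2) + ((HH T * T⁻¹) ^ 2 / 4 + T⁻¹ * τ) := by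
    have e1 : (-((HH T : ℂ) ^ 2 * om T ξ ^ 2 / 4)) = ((-(HH T ^ 2 * (ξ ^ 2 - T⁻¹ ^ 2) / 4) : ℝ) : ℂ) +
        ((-(HH T ^ 2 * (2 * ξ * T⁻¹) / 4) : ℝ) : ℂ) * I := by
      rw [om]
      push_cast
      linear_combination (-(HH T : ℂ) ^ 2 / 4 * (T : ℂ)⁻¹ ^ 2) * (I_sq)
    have e2 : (-(om T ξ * (1 / 2 + τ * I))) = ((-(ξ / 2) + T⁻¹ * τ : ℝ) : ℂ) +
        ((-(ξ * τ) - T⁻¹ / 2 : ℝ) : ℂ) * I := by
      rw [om]
      push_cast
      linear_combination (-((T : ℂ)⁻¹ * τ)) * (I_sq)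
    rw [e1, e2]
    simp only [add_re, ofReal_re, mul_re, I_re, mul_zero, ofReal_im, I_im, mul_one, sub_self,
      add_zero]
    ring
  rw [hre, Real.exp_add]
  have h5 : Real.exp ((HH T * T⁻¹) ^ 2 / 4 + T⁻¹ * τ) ≤ 4 := by
    have h6 : (HH T * T⁻¹) ^ 2 / 4 + T⁻¹ * τ ≤ 5 / 4 := by nlinarith
    refine (Real.exp_le_exp.2 h6).trans ?_
    have h7 : Real.exp (5 / 4) ^ 4 = Real.exp 1 ^ 5 := by
      rw [← Real.exp_nat_mul, ← Real.exp_nat_mul]
      norm_num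
    have h8 : Real.exp 1 ^ 5 ≤ 4 ^ 4 := by
      have := Real.exp_one_lt_d9
      calc Real.exp 1 ^ 5 ≤ 2.7182818286 ^ 5 := by
            gcongr
        _ ≤ 4 ^ 4 := by norm_num
    by_contra hcon
    push Not at hcon
    have h9 : (4 : ℝ) ^ 4 < Real.exp (5 / 4) ^ 4 := by gcongr
    linarith
  have h10 : HH T / (2 * √π) ≤ HH T / 2 := by
    rw [div_le_div_iff₀ (by positivity) (by norm_num)]
    nlinarith
  set e := Real.exp (-(HH T ^ 2 * ξ ^ 2 / 4) - ξ / 2)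
  have he : 0 < e := Real.exp_pos _
  calc HH T / (2 * √π) * (e * Real.exp ((HH T * T⁻¹) ^ 2 / 4 + T⁻¹ * τ))
      ≤ HH T / 2 * (e * 4) := by gcongr
    _ = 2 * HH T * e := by ring

end S6

end

section

namespace S6
open Complex MeasureTheory Filter Topology Set
open scoped Real ComplexConjugate

-- BEGIN K1_bound

lemma K1_norm_sq (T ξ : ℝ) : ‖zz T ξ‖ ^ 2 =
    4 * π ^ 2 * ((Real.exp (-ξ) - 1) ^ 2 + 2 * Real.exp (-ξ) * (1 - Real.cos T⁻¹)) := by
  have h1 : zz T ξ = (2 * π * I : ℂ) * (((Real.exp (-ξ) * Real.cos T⁻¹ - 1 : ℝ) : ℂ) +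
      ((-(Real.exp (-ξ) * Real.sin T⁻¹) : ℝ) : ℂ) * I) := by
    unfold zz om
    congr 1
    have : -((ξ : ℂ) + ((T⁻¹ : ℝ) : ℂ) * I) = ((-ξ : ℝ) : ℂ) + ((-T⁻¹ : ℝ) : ℂ) * I := by
      push_cast; ring
    rw [this, Complex.exp_add, Complex.exp_mul_I, ← Complex.ofReal_cos, ← Complex.ofReal_sin,
      ← Complex.ofReal_exp, Real.cos_neg, Real.sin_neg]
    push_cast
    ring
  have h2 : ‖(2 * π * I : ℂ)‖ = 2 * π := by
    simp [abs_of_pos Real.pi_pos]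
  rw [h1, norm_mul, mul_pow, h2, ← Complex.normSq_eq_norm_sq, Complex.normSq_add_mul_I]
  have := Real.sin_sq_add_cos_sq T⁻¹
  have h3 : Real.sin T⁻¹ ^ 2 = 1 - Real.cos T⁻¹ ^ 2 := by linarith
  have : (-(Real.exp (-ξ) * Real.sin T⁻¹)) ^ 2 = Real.exp (-ξ) ^ 2 * (1 - Real.cos T⁻¹ ^ 2) := by
    rw [← h3]; ring
  rw [this]
  ring

lemma K1_exp_lower (ξ : ℝ) : Real.exp (-ξ) * ξ ^ 2 ≤ (Real.exp (-ξ) - 1) ^ 2 := by
  have h1 : Real.exp (-ξ) = Real.exp (-(ξ / 2)) * Real.exp (-(ξ / 2)) := by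
    rw [← Real.exp_add]; congr 1; ring
  have h2 : Real.exp (-(ξ / 2)) * Real.exp (ξ / 2) = 1 := by
    rw [← Real.exp_add]; simp
  have h3 : (Real.exp (-ξ) - 1) ^ 2 =
      Real.exp (-ξ) * (Real.exp (ξ / 2) - Real.exp (-(ξ / 2))) ^ 2 := by
    have : Real.exp (-ξ) - 1 = -(Real.exp (-(ξ / 2)) *
        (Real.exp (ξ / 2) - Real.exp (-(ξ / 2)))) := by
      rw [mul_sub, h2, ← h1]; ring
    rw [this, neg_sq, mul_pow]
    congr 1
    rw [h1]; ring
  rw [h3]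
  apply mul_le_mul_of_nonneg_left _ (Real.exp_pos _).le
  have h4 : (Real.exp (ξ / 2) - Real.exp (-(ξ / 2))) = 2 * Real.sinh (ξ / 2) := by
    rw [Real.sinh_eq]; ring
  rw [h4]
  have h5 : |ξ / 2| ≤ |Real.sinh (ξ / 2)| := by
    rcases le_total 0 (ξ / 2) with h | h
    · rw [abs_of_nonneg h]
      exact le_trans (Real.self_le_sinh_iff.2 h) (le_abs_self _)
    · rw [abs_of_nonpos h]
      have := Real.sinh_le_self_iff.2 h
      exact le_trans (by linarith) (neg_le_abs _)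
  have h6 := sq_le_sq.2 h5
  nlinarith [h6]

lemma K1_exp_upper (ξ : ℝ) : (Real.exp (-ξ) - 1) ^ 2 ≤ ξ ^ 2 * Real.exp (2 * |ξ|) := by
  have h1 : |Real.exp (-ξ) - 1| ≤ |ξ| * Real.exp |ξ| := by
    rcases le_total 0 ξ with h | h
    · rw [abs_of_nonneg h, abs_of_nonpos (by
        have : Real.exp (-ξ) ≤ 1 := Real.exp_le_one_iff.2 (by linarith)
        linarith)]
      have h2 := Real.add_one_le_exp (-ξ)
      have h3 : 1 ≤ Real.exp ξ := Real.one_le_exp h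
      nlinarith
    · rw [abs_of_nonpos h, abs_of_nonneg (by
        have : 1 ≤ Real.exp (-ξ) := Real.one_le_exp (by linarith)
        linarith)]
      have h2 := Real.add_one_le_exp ξ
      have h3 : Real.exp (-ξ) * Real.exp ξ = 1 := by rw [← Real.exp_add]; simp
      nlinarith [Real.exp_pos (-ξ)]
  have h2 : (Real.exp (-ξ) - 1) ^ 2 ≤ (|ξ| * Real.exp |ξ|) ^ 2 := by
    rw [← sq_abs (Real.exp (-ξ) - 1)]
    exact pow_le_pow_left₀ (abs_nonneg _) h1 2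
  refine h2.trans (le_of_eq ?_)
  rw [mul_pow, sq_abs, ← Real.exp_nat_mul]
  norm_num

lemma K1_lower {T : ℝ} (hT : 1 ≤ T) (ξ : ℝ) :
    16 * Real.exp (-ξ) * (1 + T ^ 2 * ξ ^ 2) ≤ (T * ‖zz T ξ‖) ^ 2 := by
  have hT0 : 0 < T := by linarith
  rw [mul_pow, K1_norm_sq]
  have hi : T⁻¹ ≤ 1 := inv_le_one_of_one_le₀ hT
  have hi0 : 0 < T⁻¹ := inv_pos.2 hT0
  have hc : Real.cos T⁻¹ ≤ 1 - 2 / π ^ 2 * T⁻¹ ^ 2 := by
    apply Real.cos_le_one_sub_mul_cos_sq
    rw [abs_of_pos hi0]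
    linarith [Real.pi_gt_three]
  have he := K1_exp_lower ξ
  have hE := Real.exp_pos (-ξ)
  have hpi : 4 < π ^ 2 := by nlinarith [Real.pi_gt_three]
  have h1 : Real.exp (-ξ) * (4 / π ^ 2 * T⁻¹ ^ 2) ≤ 2 * Real.exp (-ξ) * (1 - Real.cos T⁻¹) := by
    have h0 : 2 / π ^ 2 * T⁻¹ ^ 2 ≤ 1 - Real.cos T⁻¹ := by linarith
    calc Real.exp (-ξ) * (4 / π ^ 2 * T⁻¹ ^ 2)
        = 2 * Real.exp (-ξ) * (2 / π ^ 2 * T⁻¹ ^ 2) := by ring
      _ ≤ _ := mul_le_mul_of_nonneg_left h0 (by positivity)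
  have h2 : 4 * π ^ 2 * (Real.exp (-ξ) * ξ ^ 2 + Real.exp (-ξ) * (4 / π ^ 2 * T⁻¹ ^ 2)) ≤
      4 * π ^ 2 * ((Real.exp (-ξ) - 1) ^ 2 + 2 * Real.exp (-ξ) * (1 - Real.cos T⁻¹)) := by
    apply mul_le_mul_of_nonneg_left _ (by positivity)
    linarith
  have h3 : T ^ 2 * (4 * π ^ 2 * (Real.exp (-ξ) * ξ ^ 2 + Real.exp (-ξ) * (4 / π ^ 2 * T⁻¹ ^ 2))) =
      4 * π ^ 2 * Real.exp (-ξ) * (T ^ 2 * ξ ^ 2) + 16 * Real.exp (-ξ) := by
    field_simp
    ring
  calc 16 * Real.exp (-ξ) * (1 + T ^ 2 * ξ ^ 2)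
      ≤ 4 * π ^ 2 * Real.exp (-ξ) * (T ^ 2 * ξ ^ 2) + 16 * Real.exp (-ξ) := by
        have : 0 ≤ Real.exp (-ξ) * (T ^ 2 * ξ ^ 2) := by positivity
        nlinarith
    _ = T ^ 2 * (4 * π ^ 2 * (Real.exp (-ξ) * ξ ^ 2 +
          Real.exp (-ξ) * (4 / π ^ 2 * T⁻¹ ^ 2))) := h3.symm
    _ ≤ _ := mul_le_mul_of_nonneg_left h2 (by positivity)

lemma K1_upper {T : ℝ} (hT : 1 ≤ T) (ξ : ℝ) :
    (T * ‖zz T ξ‖) ^ 2 ≤ 4 * π ^ 2 * Real.exp (2 * |ξ|) * (1 + T ^ 2 * ξ ^ 2) := by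
  have hT0 : 0 < T := by linarith
  rw [mul_pow, K1_norm_sq]
  have hc : 1 - T⁻¹ ^ 2 / 2 ≤ Real.cos T⁻¹ := Real.one_sub_sq_div_two_le_cos
  have he := K1_exp_upper ξ
  have hE := Real.exp_pos (-ξ)
  have h0 : Real.exp (-ξ) ≤ Real.exp (2 * |ξ|) := by
    apply Real.exp_le_exp.2
    have := neg_le_abs ξ
    have := abs_nonneg ξ
    linarith
  have h1 : 2 * Real.exp (-ξ) * (1 - Real.cos T⁻¹) ≤ Real.exp (2 * |ξ|) * T⁻¹ ^ 2 := by
    have h2 : 1 - Real.cos T⁻¹ ≤ T⁻¹ ^ 2 / 2 := by linarith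
    have h3 : 0 ≤ 1 - Real.cos T⁻¹ := by linarith [Real.cos_le_one T⁻¹]
    calc 2 * Real.exp (-ξ) * (1 - Real.cos T⁻¹) ≤ 2 * Real.exp (2 * |ξ|) * (T⁻¹ ^ 2 / 2) := by
          gcongr
      _ = _ := by ring
  calc T ^ 2 * (4 * π ^ 2 * ((Real.exp (-ξ) - 1) ^ 2 + 2 * Real.exp (-ξ) * (1 - Real.cos T⁻¹)))
      ≤ T ^ 2 * (4 * π ^ 2 * (ξ ^ 2 * Real.exp (2 * |ξ|) + Real.exp (2 * |ξ|) * T⁻¹ ^ 2)) := by
        gcongr
    _ = _ := by
        field_simp
        ring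

lemma K1_zz_pos {T : ℝ} (hT : 1 ≤ T) (ξ : ℝ) : 0 < ‖zz T ξ‖ := by
  have h := K1_lower hT ξ
  have h1 : 0 < 16 * Real.exp (-ξ) * (1 + T ^ 2 * ξ ^ 2) := by positivity
  have h2 : 0 < (T * ‖zz T ξ‖) ^ 2 := lt_of_lt_of_le h1 h
  by_contra h3
  have : ‖zz T ξ‖ = 0 := le_antisymm (not_lt.1 h3) (norm_nonneg _)
  rw [this] at h2
  simp at h2

lemma K1_log {T : ℝ} (hT : 1 ≤ T) (ξ : ℝ) :
    ‖Complex.log (zz T ξ) + Real.log T‖ ≤ 6 + |ξ| + Real.log (1 + T ^ 2 * ξ ^ 2) / 2 := by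
  have hT0 : 0 < T := by linarith
  have hz := K1_zz_pos hT ξ
  have hy : 0 ≤ T ^ 2 * ξ ^ 2 := by positivity
  have hly : 0 ≤ Real.log (1 + T ^ 2 * ξ ^ 2) := Real.log_nonneg (by linarith)
  have hre : (Complex.log (zz T ξ) + Real.log T).re = Real.log (T * ‖zz T ξ‖) := by
    rw [Complex.add_re, Complex.log_re, Complex.ofReal_re, Real.log_mul hT0.ne' hz.ne']
    ring
  have him : (Complex.log (zz T ξ) + Real.log T).im = (zz T ξ).arg := by
    rw [Complex.add_im, Complex.log_im, Complex.ofReal_im]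
    ring
  have hsq : Real.log ((T * ‖zz T ξ‖) ^ 2) = 2 * Real.log (T * ‖zz T ξ‖) := by
    rw [Real.log_pow]; norm_num
  have hpos : 0 < (T * ‖zz T ξ‖) ^ 2 := by positivity
  have hup : 2 * Real.log (T * ‖zz T ξ‖) ≤ 4 + 2 * |ξ| + Real.log (1 + T ^ 2 * ξ ^ 2) := by
    rw [← hsq]
    refine (Real.log_le_log hpos (K1_upper hT ξ)).trans ?_
    rw [Real.log_mul (by positivity) (by positivity), Real.log_mul (by positivity) (by positivity),
      Real.log_exp]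
    have : Real.log (4 * π ^ 2) ≤ 4 := by
      rw [Real.log_le_iff_le_exp (by positivity)]
      have h1 : π < 3.15 := Real.pi_lt_d2
      have h2 : (2.7 : ℝ) < Real.exp 1 := by
        have := Real.exp_one_gt_d9; linarith
      have h3 : Real.exp 4 = Real.exp 1 ^ 4 := by
        rw [← Real.exp_nat_mul]; norm_num
      rw [h3]
      have h4 : (2.7 : ℝ) ^ 4 ≤ Real.exp 1 ^ 4 := pow_le_pow_left₀ (by norm_num) h2.le 4
      have h5 : π ^ 2 ≤ 3.15 ^ 2 := pow_le_pow_left₀ Real.pi_pos.le h1.le 2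
      have h6 : (4 : ℝ) * 3.15 ^ 2 ≤ 2.7 ^ 4 := by norm_num
      linarith
    linarith
  have hlo : -|ξ| ≤ 2 * Real.log (T * ‖zz T ξ‖) := by
    rw [← hsq]
    have h1 : Real.exp (-|ξ|) ≤ (T * ‖zz T ξ‖) ^ 2 := by
      refine le_trans ?_ (K1_lower hT ξ)
      have h2 : Real.exp (-|ξ|) ≤ Real.exp (-ξ) := Real.exp_le_exp.2 (by
        have := le_abs_self ξ; linarith)
      have h3 := Real.exp_pos (-ξ)
      have h4 : 0 ≤ Real.exp (-ξ) * (T ^ 2 * ξ ^ 2) := by positivity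
      nlinarith
    have := Real.log_le_log (Real.exp_pos _) h1
    rwa [Real.log_exp] at this
  have harg : |(zz T ξ).arg| ≤ 4 := (Complex.abs_arg_le_pi _).trans (by
    have := Real.pi_lt_d2; linarith)
  refine (Complex.norm_le_abs_re_add_abs_im _).trans ?_
  rw [hre, him]
  have habs : |Real.log (T * ‖zz T ξ‖)| ≤ 2 + |ξ| + Real.log (1 + T ^ 2 * ξ ^ 2) / 2 := by
    rw [abs_le]
    have := abs_nonneg ξ
    constructor <;> linarith
  linarith

/-- the integrable majorant -/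
noncomputable def K1g (j : ℕ) (u : ℝ) : ℝ :=
  Real.exp (-(u ^ 2 / 4)) * (1 + |u|) ^ j * |u| ^ (-(1 / 2) : ℝ)

lemma K1g_nonneg (j : ℕ) (u : ℝ) : 0 ≤ K1g j u := by unfold K1g; positivity

lemma K1_pow_exp (j : ℕ) {x : ℝ} (hx : 0 ≤ x) : x ^ j ≤ (Nat.factorial j : ℝ) * Real.exp x := by
  have h := Real.pow_div_factorial_le_exp x hx j
  have h1 : (0 : ℝ) < Nat.factorial j := by positivity
  rw [div_le_iff₀ h1] at h
  linarith

lemma K1g_integrable (j : ℕ) : Integrable (K1g j) := by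
  have hb : Integrable (fun u : ℝ => |u| ^ (-(1 / 2) : ℝ) * Real.exp (-(1 / 8) * |u| ^ 2)) := by
    rw [← integrableOn_univ, ← Iic_union_Ioi (a := (0 : ℝ))]
    have h1 : IntegrableOn (fun u : ℝ => |u| ^ (-(1 / 2) : ℝ) * Real.exp (-(1 / 8) * |u| ^ 2))
        (Ioi 0) := by
      refine (integrableOn_rpow_mul_exp_neg_mul_sq (b := 1 / 8) (by norm_num)
        (s := -(1 / 2)) (by norm_num)).congr_fun ?_ measurableSet_Ioi
      intro x hx
      simp only [mem_Ioi] at hx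
      simp only [abs_of_pos hx]
    refine IntegrableOn.union ?_ h1
    rw [← Measure.map_neg_eq_self (volume : Measure ℝ)]
    let m : MeasurableEmbedding fun x : ℝ => -x := (Homeomorph.neg ℝ).measurableEmbedding
    rw [m.integrableOn_map_iff]
    simp_rw [Function.comp_def, abs_neg, neg_preimage, neg_Iic, neg_zero]
    exact Iff.mpr integrableOn_Ici_iff_integrableOn_Ioi h1
  refine (hb.const_mul ((Nat.factorial j : ℝ) * Real.exp 3)).mono' ?_ ?_
  · apply Measurable.aestronglyMeasurable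
    unfold K1g
    fun_prop
  · refine ae_of_all _ fun u => ?_
    rw [Real.norm_of_nonneg (K1g_nonneg j u)]
    unfold K1g
    have h1 := K1_pow_exp j (x := 1 + |u|) (by positivity)
    have h2 : Real.exp (-(u ^ 2 / 4)) * Real.exp (1 + |u|) ≤
        Real.exp 3 * Real.exp (-(1 / 8) * |u| ^ 2) := by
      rw [← Real.exp_add, ← Real.exp_add]
      apply Real.exp_le_exp.2
      rw [← sq_abs u]
      nlinarith [sq_nonneg (|u| - 4)]
    calc Real.exp (-(u ^ 2 / 4)) * (1 + |u|) ^ j * |u| ^ (-(1 / 2) : ℝ)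
        ≤ Real.exp (-(u ^ 2 / 4)) * ((Nat.factorial j : ℝ) * Real.exp (1 + |u|)) *
            |u| ^ (-(1 / 2) : ℝ) := by gcongr
      _ = (Nat.factorial j : ℝ) * (Real.exp (-(u ^ 2 / 4)) * Real.exp (1 + |u|)) *
            |u| ^ (-(1 / 2) : ℝ) := by ring
      _ ≤ (Nat.factorial j : ℝ) * (Real.exp 3 * Real.exp (-(1 / 8) * |u| ^ 2)) *
            |u| ^ (-(1 / 2) : ℝ) := by gcongr
      _ = _ := by ring

lemma K1_point (j : ℕ) {T : ℝ} (hT : Real.exp 1 ≤ T) {τ : ℝ} (h0 : 0 ≤ τ) (h1 : τ ≤ T) (ξ : ℝ)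
    (hξ : ξ ≠ 0) :
    ‖ker T τ ξ‖ * (‖Complex.log (zz T ξ) + Real.log T‖ ^ j * ‖zz T ξ‖⁻¹) ≤
      (6 ^ j * 2 ^ j * (Nat.factorial j : ℝ) * Real.exp 1) * HH T * √T * √(HH T) *
        K1g j (HH T * ξ) := by
  have he1 : (2.7 : ℝ) < Real.exp 1 := by
    have := Real.exp_one_gt_d9; linarith
  have hT1 : 1 ≤ T := by linarith
  have hT0 : 0 < T := by linarith
  have hlog : 1 ≤ Real.log T := by
    rw [← Real.log_exp 1]
    exact Real.log_le_log (Real.exp_pos 1) hT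
  have hH : 1 ≤ HH T := by
    unfold HH
    rw [one_le_div (by linarith)]
    have := Real.log_le_sub_one_of_pos hT0
    linarith
  have hH0 : 0 < HH T := by linarith
  set y : ℝ := T ^ 2 * ξ ^ 2 with hy
  have hy0 : 0 < y := by positivity
  have hl := K1_log hT1 ξ
  have hly : 0 ≤ Real.log (1 + y) := Real.log_nonneg (by linarith)
  -- bound of the power
  have hpow : ‖Complex.log (zz T ξ) + Real.log T‖ ^ j ≤
      (6 ^ j * 2 ^ j * (Nat.factorial j : ℝ) * Real.exp 1) * (1 + |ξ|) ^ j *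
        (1 + y) ^ (1 / 4 : ℝ) := by
    have ha : 6 + |ξ| + Real.log (1 + y) / 2 ≤
        6 * 2 * (1 + |ξ|) * (1 + Real.log (1 + y) / 4) := by
      have := abs_nonneg ξ
      nlinarith [mul_nonneg this hly]
    have hb : (1 + Real.log (1 + y) / 4) ^ j ≤
        (Nat.factorial j : ℝ) * Real.exp 1 * (1 + y) ^ (1 / 4 : ℝ) := by
      have h2 := K1_pow_exp j (x := 1 + Real.log (1 + y) / 4) (by positivity)
      refine h2.trans (le_of_eq ?_)
      rw [Real.exp_add, Real.rpow_def_of_pos (by linarith)]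
      ring_nf
    calc ‖Complex.log (zz T ξ) + Real.log T‖ ^ j
        ≤ (6 * 2 * (1 + |ξ|) * (1 + Real.log (1 + y) / 4)) ^ j :=
          pow_le_pow_left₀ (norm_nonneg _) (hl.trans ha) j
      _ = 6 ^ j * 2 ^ j * (1 + |ξ|) ^ j * (1 + Real.log (1 + y) / 4) ^ j := by
          rw [mul_pow, mul_pow, mul_pow]
      _ ≤ 6 ^ j * 2 ^ j * (1 + |ξ|) ^ j *
            ((Nat.factorial j : ℝ) * Real.exp 1 * (1 + y) ^ (1 / 4 : ℝ)) := by gcongr
      _ = _ := by ring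
  -- bound of the inverse
  have hinv : ‖zz T ξ‖⁻¹ ≤ T * Real.exp (ξ / 2) / 4 * (1 + y) ^ (-(1 / 2) : ℝ) := by
    have hz := K1_zz_pos hT1 ξ
    have h2 := K1_lower hT1 ξ
    have h3 : 4 * Real.exp (-(ξ / 2)) * √(1 + y) ≤ T * ‖zz T ξ‖ := by
      apply le_of_sq_le_sq _ (by positivity)
      refine le_trans (le_of_eq ?_) h2
      rw [mul_pow, mul_pow, Real.sq_sqrt (by linarith), ← Real.exp_nat_mul]
      have h9 : -(2 * (ξ / 2)) = -ξ := by ring
      norm_num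
      rw [h9]
    rw [inv_le_iff_one_le_mul₀ hz]
    have h4 : (1 + y) ^ (-(1 / 2) : ℝ) = (√(1 + y))⁻¹ := by
      rw [Real.rpow_neg (by linarith), ← Real.sqrt_eq_rpow]
    rw [h4]
    have h5 : 0 < √(1 + y) := Real.sqrt_pos.2 (by linarith)
    have h6 : Real.exp (ξ / 2) * Real.exp (-(ξ / 2)) = 1 := by
      rw [← Real.exp_add]; simp
    calc (1 : ℝ) = Real.exp (ξ / 2) / 4 * (√(1 + y))⁻¹ *
            (4 * Real.exp (-(ξ / 2)) * √(1 + y)) := by
          field_simp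
          linarith
      _ ≤ Real.exp (ξ / 2) / 4 * (√(1 + y))⁻¹ * (T * ‖zz T ξ‖) := by gcongr
      _ = _ := by ring
  have hk := ker_norm hT h0 h1 ξ
  -- combination
  have hcomb : (1 + y) ^ (1 / 4 : ℝ) * (1 + y) ^ (-(1 / 2) : ℝ) ≤ (T * |ξ|) ^ (-(1 / 2) : ℝ) := by
    rw [← Real.rpow_add (by linarith)]
    have h2 : (T * |ξ|) ^ (-(1 / 2) : ℝ) = y ^ (-(1 / 4) : ℝ) := by
      have : y = (T * |ξ|) ^ (2 : ℝ) := by
        rw [hy]
        norm_num
        rw [mul_pow, sq_abs]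
      rw [this, ← Real.rpow_mul (by positivity)]
      norm_num
    rw [h2]
    have h3 : (1 / 4 : ℝ) + -(1 / 2) = -(1 / 4) := by norm_num
    rw [h3]
    exact Real.rpow_le_rpow_of_nonpos hy0 (by linarith) (by norm_num)
  set K : ℝ := 6 ^ j * 2 ^ j * (Nat.factorial j : ℝ) * Real.exp 1 with hK
  have hK0 : 0 < K := by positivity
  have hx0 : 0 < |ξ| := abs_pos.2 hξ
  have hTx : (T * |ξ|) ^ (-(1 / 2) : ℝ) = T ^ (-(1 / 2) : ℝ) * |ξ| ^ (-(1 / 2) : ℝ) :=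
    Real.mul_rpow hT0.le hx0.le
  have hTs : T * T ^ (-(1 / 2) : ℝ) = √T := by
    rw [Real.sqrt_eq_rpow]
    nth_rewrite 1 [← Real.rpow_one T]
    rw [← Real.rpow_add hT0]
    norm_num
  have hHs : √(HH T) * |HH T * ξ| ^ (-(1 / 2) : ℝ) = |ξ| ^ (-(1 / 2) : ℝ) := by
    rw [abs_mul, abs_of_pos hH0, Real.mul_rpow hH0.le hx0.le, ← mul_assoc, Real.sqrt_eq_rpow,
      ← Real.rpow_add hH0]
    norm_num
  have hmono : (1 + |ξ|) ^ j ≤ (1 + |HH T * ξ|) ^ j := by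
    apply pow_le_pow_left₀ (by positivity)
    rw [abs_mul, abs_of_pos hH0]
    nlinarith
  have hee : Real.exp (-(HH T ^ 2 * ξ ^ 2 / 4) - ξ / 2) * Real.exp (ξ / 2) =
      Real.exp (-((HH T * ξ) ^ 2 / 4)) := by
    rw [← Real.exp_add]; congr 1; ring
  calc ‖ker T τ ξ‖ * (‖Complex.log (zz T ξ) + Real.log T‖ ^ j * ‖zz T ξ‖⁻¹)
      ≤ (2 * HH T * Real.exp (-(HH T ^ 2 * ξ ^ 2 / 4) - ξ / 2)) *
        ((K * (1 + |ξ|) ^ j * (1 + y) ^ (1 / 4 : ℝ)) *
          (T * Real.exp (ξ / 2) / 4 * (1 + y) ^ (-(1 / 2) : ℝ))) := by gcongr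
    _ = (1 / 2) * K * HH T * (Real.exp (-(HH T ^ 2 * ξ ^ 2 / 4) - ξ / 2) * Real.exp (ξ / 2)) *
          (1 + |ξ|) ^ j * T * ((1 + y) ^ (1 / 4 : ℝ) * (1 + y) ^ (-(1 / 2) : ℝ)) := by ring
    _ ≤ (1 / 2) * K * HH T * (Real.exp (-(HH T ^ 2 * ξ ^ 2 / 4) - ξ / 2) * Real.exp (ξ / 2)) *
          (1 + |HH T * ξ|) ^ j * T * (T * |ξ|) ^ (-(1 / 2) : ℝ) := by gcongr
    _ = (1 / 2) * (K * HH T * (T * T ^ (-(1 / 2) : ℝ)) *
          (Real.exp (-((HH T * ξ) ^ 2 / 4)) * (1 + |HH T * ξ|) ^ j) *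
            |ξ| ^ (-(1 / 2) : ℝ)) := by
        rw [hee, hTx]; ring
    _ = (1 / 2) * (K * HH T * √T * √(HH T) * K1g j (HH T * ξ)) := by
        rw [hTs, ← hHs]
        unfold K1g
        ring
    _ ≤ 1 * (K * HH T * √T * √(HH T) * K1g j (HH T * ξ)) := by
        have := K1g_nonneg j (HH T * ξ)
        gcongr
        norm_num
    _ = _ := by ring

lemma K1_cont_ker (T τ : ℝ) : Continuous (fun ξ : ℝ => ker T τ ξ) := by
  unfold ker gg om
  fun_prop

lemma K1_cont_zz (T : ℝ) : Continuous (fun ξ : ℝ => zz T ξ) := by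
  unfold zz om
  fun_prop

theorem K1_bound (j : ℕ) : ∃ C T₀ : ℝ, ∀ T ≥ T₀, ∀ τ, 0 ≤ τ → τ ≤ T →
    Integrable (fun ξ : ℝ => ‖ker T τ ξ‖ * (‖Complex.log (zz T ξ) + Real.log T‖ ^ j * ‖zz T ξ‖⁻¹)) ∧
    ∫ ξ : ℝ, ‖ker T τ ξ‖ * (‖Complex.log (zz T ξ) + Real.log T‖ ^ j * ‖zz T ξ‖⁻¹) ≤
      C * (HH T * √(Real.log T)) := by
  set K : ℝ := 6 ^ j * 2 ^ j * (Nat.factorial j : ℝ) * Real.exp 1 with hK
  refine ⟨K * ∫ u, K1g j u, Real.exp 1, fun T hT τ h0 h1 => ?_⟩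
  have he1 : (2.7 : ℝ) < Real.exp 1 := by
    have := Real.exp_one_gt_d9; linarith
  have hT1 : 1 ≤ T := by linarith
  have hT0 : 0 < T := by linarith
  have hlog : 1 ≤ Real.log T := by
    rw [← Real.log_exp 1]
    exact Real.log_le_log (Real.exp_pos 1) hT
  have hH : 1 ≤ HH T := by
    unfold HH
    rw [one_le_div (by linarith)]
    have := Real.log_le_sub_one_of_pos hT0
    linarith
  have hH0 : 0 < HH T := by linarith
  have hne : ∀ᵐ ξ : ℝ, ξ ≠ 0 := by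
    simp [ae_iff]
  have hmaj : Integrable (fun ξ : ℝ => K * HH T * √T * √(HH T) * K1g j (HH T * ξ)) :=
    ((K1g_integrable j).comp_mul_left' hH0.ne').const_mul _
  have hbd : ∀ᵐ ξ : ℝ, ‖ker T τ ξ‖ * (‖Complex.log (zz T ξ) + Real.log T‖ ^ j * ‖zz T ξ‖⁻¹) ≤
      K * HH T * √T * √(HH T) * K1g j (HH T * ξ) := by
    filter_upwards [hne] with ξ hξ
    exact K1_point j hT h0 h1 ξ hξ
  have hint : Integrable (fun ξ : ℝ => ‖ker T τ ξ‖ *
      (‖Complex.log (zz T ξ) + Real.log T‖ ^ j * ‖zz T ξ‖⁻¹)) := by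
    refine hmaj.mono' ?_ ?_
    · apply Measurable.aestronglyMeasurable
      have hk := (K1_cont_ker T τ).measurable
      have hz := (K1_cont_zz T).measurable
      exact hk.norm.mul ((((Complex.measurable_log.comp hz).add_const _).norm.pow_const _).mul
        hz.norm.inv)
    · filter_upwards [hbd] with ξ hξ
      rw [Real.norm_of_nonneg (by positivity)]
      exact hξ
  refine ⟨hint, ?_⟩
  refine (integral_mono_ae hint hmaj hbd).trans (le_of_eq ?_)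
  rw [integral_const_mul, Measure.integral_comp_mul_left, abs_of_pos (inv_pos.2 hH0), smul_eq_mul]
  have hs : √T * √(HH T) * (HH T)⁻¹ = √(Real.log T) := by
    have h2 : T = HH T * Real.log T := by
      unfold HH
      field_simp
    have h3 : √T = √(HH T) * √(Real.log T) := by
      rw [← Real.sqrt_mul hH0.le, ← h2]
    rw [h3]
    have h4 : √(HH T) * √(HH T) = HH T := Real.mul_self_sqrt hH0.le
    calc √(HH T) * √(Real.log T) * √(HH T) * (HH T)⁻¹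
        = √(Real.log T) * ((√(HH T) * √(HH T)) * (HH T)⁻¹) := by ring
      _ = _ := by rw [h4, mul_inv_cancel₀ hH0.ne', mul_one]
  calc K * HH T * √T * √(HH T) * ((HH T)⁻¹ * ∫ u, K1g j u)
      = K * (∫ u, K1g j u) * HH T * (√T * √(HH T) * (HH T)⁻¹) := by ring
    _ = _ := by rw [hs]; ring

-- END K1_bound

end S6

end

section

namespace S6
open Complex MeasureTheory Filter Topology Set
open scoped Real ComplexConjugate

namespace A44

instance : SFinite m0 := by unfold m0; infer_instance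
instance : IsFiniteMeasureOnCompacts m0 := by unfold m0; infer_instance

theorem ae_m0 : ∀ᵐ x ∂m0, (0:ℝ) ≤ x := by
  unfold m0; exact ae_restrict_mem measurableSet_Ici

theorem ae_fst {α β : Type*} [MeasurableSpace α] [MeasurableSpace β] {μ : Measure α}
    {ν : Measure β} [SFinite μ] [SFinite ν] {p : α → Prop} (h : ∀ᵐ x ∂μ, p x) :
    ∀ᵐ z ∂(μ.prod ν), p z.1 :=
  (Measure.quasiMeasurePreserving_fst (μ := μ) (ν := ν)).ae h

theorem ae_snd {α β : Type*} [MeasurableSpace α] [MeasurableSpace β] {μ : Measure α}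
    {ν : Measure β} [SFinite μ] [SFinite ν] {p : β → Prop} (h : ∀ᵐ x ∂ν, p x) :
    ∀ᵐ z ∂(μ.prod ν), p z.2 :=
  (Measure.quasiMeasurePreserving_snd (μ := μ) (ν := ν)).ae h

theorem ae_m0m0 : ∀ᵐ t ∂(m0.prod m0), (0:ℝ) ≤ t.1 ∧ 0 ≤ t.2 := by
  filter_upwards [ae_fst (ν := m0) ae_m0, ae_snd (μ := m0) ae_m0] with t h1 h2
  exact ⟨h1, h2⟩

theorem integ_box {α : Type*} [MeasurableSpace α] {μ : Measure α} {B : Set α}
    (hB : MeasurableSet B) (hμ : μ B ≠ ⊤) {f : α → ℝ} (hf : AEStronglyMeasurable f μ) {M : ℝ}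
    (hM : ∀ x, ‖f x‖ ≤ M) (h0 : ∀ᵐ x ∂μ, x ∉ B → f x = 0) : Integrable f μ := by
  have h1 : IntegrableOn f B μ := Measure.integrableOn_of_bounded hμ hf (Eventually.of_forall hM)
  have h2 : Integrable (B.indicator f) μ := (integrable_indicator_iff hB).2 h1
  refine h2.congr ?_
  filter_upwards [h0] with x hx
  by_cases hxB : x ∈ B
  · simp [hxB]
  · simp [hxB, hx hxB]

theorem integ_cont {α : Type*} [TopologicalSpace α] [T2Space α] [MeasurableSpace α]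
    [OpensMeasurableSpace α]
    {μ : Measure α} [IsFiniteMeasureOnCompacts μ] {B : Set α}
    (hB : IsCompact B) {f : α → ℝ} (hf : ContinuousOn f B)
    (h0 : ∀ᵐ x ∂μ, x ∉ B → f x = 0) : Integrable f μ := by
  have h1 : IntegrableOn f B μ := hf.integrableOn_compact hB
  have h2 : Integrable (B.indicator f) μ := (integrable_indicator_iff hB.measurableSet).2 h1
  refine h2.congr ?_
  filter_upwards [h0] with x hx
  by_cases hxB : x ∈ B
  · simp [hxB]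
  · simp [hxB, hx hxB]

theorem inner_area {α β p : ℝ} :
    ∫ q : ℝ, (if 2 * p + q ≤ α ∧ p + 2 * q ≤ β then (1 : ℝ) else 0) ∂m0 =
      max (min (α - 2 * p) ((β - p) / 2)) 0 := by
  have h1 : (fun q : ℝ => (if 2 * p + q ≤ α ∧ p + 2 * q ≤ β then (1 : ℝ) else 0)) =
      (Iic (min (α - 2 * p) ((β - p) / 2))).indicator (fun _ => (1:ℝ)) := by
    funext q
    by_cases h : 2 * p + q ≤ α ∧ p + 2 * q ≤ β
    · have : q ∈ Iic (min (α - 2 * p) ((β - p) / 2)) := by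
        rw [mem_Iic, le_min_iff]; constructor <;> linarith [h.1, h.2]
      rw [if_pos h, indicator_of_mem this]
    · have : q ∉ Iic (min (α - 2 * p) ((β - p) / 2)) := by
        intro hq
        rw [mem_Iic, le_min_iff] at hq
        exact h ⟨by linarith [hq.1], by linarith [hq.2]⟩
      rw [if_neg h, indicator_of_notMem this]
  rw [h1, integral_indicator_const _ measurableSet_Iic]
  unfold m0
  rw [measureReal_restrict_apply measurableSet_Iic, Iic_inter_Ici, measureReal_def, Real.volume_Icc,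
    sub_zero, ENNReal.toReal_ofReal', smul_eq_mul, mul_one]

theorem area_aux {α β : ℝ} (h1 : α ≤ 2 * β) (h2 : β ≤ 2 * α) (h0 : 0 ≤ α) (h0' : 0 ≤ β) :
    ∫ t : ℝ × ℝ, (if 2 * t.1 + t.2 ≤ α ∧ t.1 + 2 * t.2 ≤ β then (1 : ℝ) else 0) ∂(m0.prod m0) =
      (4 * α * β - α ^ 2 - β ^ 2) / 12 := by
  have hint : Integrable (fun t : ℝ × ℝ =>
      (if 2 * t.1 + t.2 ≤ α ∧ t.1 + 2 * t.2 ≤ β then (1 : ℝ) else 0)) (m0.prod m0) := by
    refine integ_box (B := Icc ((0:ℝ), (0:ℝ)) (α, α)) measurableSet_Icc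
      isCompact_Icc.measure_lt_top.ne ?_ (M := 1) ?_ ?_
    · refine (Measurable.ite ?_ measurable_const measurable_const).aestronglyMeasurable
      exact (measurableSet_le (f := fun t : ℝ × ℝ => 2 * t.1 + t.2) (g := fun _ => α)
          (by fun_prop) (by fun_prop)).inter
        (measurableSet_le (f := fun t : ℝ × ℝ => t.1 + 2 * t.2) (g := fun _ => β)
          (by fun_prop) (by fun_prop))
    · intro t; split_ifs <;> simp
    · filter_upwards [ae_m0m0] with t ht hB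
      rw [if_neg]
      intro h
      apply hB
      refine ⟨⟨ht.1, ht.2⟩, ⟨?_, ?_⟩⟩
      · dsimp only; linarith [h.1, h.2, ht.1, ht.2]
      · dsimp only; linarith [h.1, h.2, ht.1, ht.2]
  rw [integral_prod _ hint]
  simp only [inner_area]
  have hp0 : 0 ≤ (2 * α - β) / 3 := by linarith
  have hp1 : (2 * α - β) / 3 ≤ α / 2 := by linarith
  have e1 : ∫ p : ℝ, max (min (α - 2 * p) ((β - p) / 2)) 0 ∂m0 =
      ∫ p in (0:ℝ)..(α/2), min (α - 2 * p) ((β - p) / 2) := by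
    unfold m0
    rw [intervalIntegral.integral_of_le (by linarith), ← integral_Icc_eq_integral_Ioc,
      ← integral_indicator measurableSet_Ici, ← integral_indicator measurableSet_Icc]
    congr 1
    funext p
    by_cases hp : 0 ≤ p
    · rw [indicator_of_mem (show p ∈ Ici 0 from hp)]
      by_cases hp' : p ≤ α / 2
      · rw [indicator_of_mem (show p ∈ Icc 0 (α/2) from ⟨hp, hp'⟩)]
        exact max_eq_left (le_min (by linarith) (by linarith))
      · rw [indicator_of_notMem (show p ∉ Icc 0 (α / 2) from fun h => hp' h.2)]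
        push Not at hp'
        exact max_eq_right ((min_le_left _ _).trans (by linarith))
    · rw [indicator_of_notMem (show p ∉ Ici 0 from hp),
        indicator_of_notMem (show p ∉ Icc 0 (α / 2) from fun h => hp h.1)]
  rw [e1]
  have hc : Continuous (fun p : ℝ => min (α - 2 * p) ((β - p) / 2)) := by fun_prop
  rw [← intervalIntegral.integral_add_adjacent_intervals (b := (2 * α - β) / 3)
    (hc.intervalIntegrable _ _) (hc.intervalIntegrable _ _)]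
  have e2 : ∫ p in (0:ℝ)..((2 * α - β) / 3), min (α - 2 * p) ((β - p) / 2) =
      ∫ p in (0:ℝ)..((2 * α - β) / 3), (β / 2 - p / 2) := by
    refine intervalIntegral.integral_congr ?_
    intro p hp
    rw [uIcc_of_le hp0] at hp
    dsimp only
    rw [min_eq_right (by linarith [hp.2])]; ring
  have e3 : ∫ p in ((2 * α - β) / 3)..(α/2), min (α - 2 * p) ((β - p) / 2) =
      ∫ p in ((2 * α - β) / 3)..(α/2), (α - 2 * p) := by
    refine intervalIntegral.integral_congr ?_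
    intro p hp
    rw [uIcc_of_le hp1] at hp
    dsimp only
    rw [min_eq_left (by linarith [hp.1])]
  rw [e2, e3]
  rw [intervalIntegral.integral_sub (Continuous.intervalIntegrable (by fun_prop) _ _)
      (Continuous.intervalIntegrable (by fun_prop) _ _),
    intervalIntegral.integral_sub (Continuous.intervalIntegrable (by fun_prop) _ _)
      (Continuous.intervalIntegrable (by fun_prop) _ _)]
  have e4 : ∫ p in ((2 * α - β) / 3)..(α/2), (2:ℝ) * p =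
      2 * (((α/2)^2 - ((2 * α - β) / 3)^2)/2) := by
    rw [intervalIntegral.integral_const_mul, integral_id]
  rw [e4]
  simp only [intervalIntegral.integral_const, intervalIntegral.integral_div,
    integral_id, smul_eq_mul]
  ring

end A44

theorem area {α β : ℝ} (h1 : α ≤ 2 * β) (h2 : β ≤ 2 * α) (h0 : 0 ≤ α) (h0' : 0 ≤ β) :
    ∫ t : ℝ × ℝ, (if 2 * t.1 + t.2 ≤ α ∧ t.1 + 2 * t.2 ≤ β then (1 : ℝ) else 0) ∂(m0.prod m0) =
      (4 * α * β - α ^ 2 - β ^ 2) / 12 := A44.area_aux h1 h2 h0 h0'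

end S6

end
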