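import Pool.Agent.Lib.MP_39df77_nt.S6Defs

namespace S6
open Complex MeasureTheory Filter Topology Set
open scoped Real ComplexConjugate

lemma chiXm_normsq (t : ℝ) : ‖MP069854.chi (1 / 2 + t * I) - Xm (1 / 2 + t * I)‖ ^ 2 =
    (Real.exp (2 * π * t) + 1)⁻¹ := by
  have e1 : MP069854.chi (1 / 2 + t * I) - Xm (1 / 2 + t * I) =
      (2 * π : ℂ) ^ (-(1 / 2 + t * I : ℂ)) * Gamma (1 / 2 + t * I) *
        cexp (π * I * (1 / 2 + t * I) / 2) := by
    unfold MP069854.chi Xm
    rw [Complex.cos]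
    have h1 : cexp (↑π * (1 / 2 + ↑t * I) / 2 * I) = cexp (π * I * (1 / 2 + t * I) / 2) := by
      congr 1; ring
    have h2 : cexp (-(↑π * (1 / 2 + ↑t * I) / 2) * I) = cexp (-(π * I * (1 / 2 + t * I) / 2)) := by
      congr 1; ring
    rw [h1, h2]
    ring
  rw [e1, norm_mul, norm_mul, mul_pow, mul_pow]
  have e2 : ‖(2 * π : ℂ) ^ (-(1 / 2 + t * I : ℂ))‖ ^ 2 = (2 * π)⁻¹ := by
    have : (2 * π : ℂ) = ((2 * π : ℝ) : ℂ) := by push_cast; rfl
    rw [this, norm_cpow_eq_rpow_re_of_pos (by positivity)]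
    have h3 : (-(1 / 2 + t * I : ℂ)).re = -(1 / 2 : ℝ) := by simp
    rw [h3, ← Real.rpow_natCast, ← Real.rpow_mul (by positivity)]
    norm_num
    rw [Real.rpow_neg_one]
    ring
  have e3 : ‖Gamma (1 / 2 + t * I)‖ ^ 2 = π / Real.cosh (π * t) := by
    have h := MP069854.Gamma_half_prod t
    have h4 : (1 / 2 - t * I : ℂ) = conj (1 / 2 + t * I : ℂ) := by
      simp [Complex.ext_iff]
    rw [h4, Gamma_conj, mul_conj, normSq_eq_norm_sq] at h
    have h5 : ((‖Gamma (1 / 2 + t * I)‖ ^ 2 : ℝ) : ℂ) = ((π / Real.cosh (π * t) : ℝ) : ℂ) := by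
      rw [h]; push_cast; rfl
    exact_mod_cast h5
  have e4 : ‖cexp (π * I * (1 / 2 + t * I) / 2)‖ ^ 2 = Real.exp (-(π * t)) := by
    rw [norm_exp, ← Real.exp_nat_mul]
    congr 1
    have : (π * I * (1 / 2 + t * I) / 2 : ℂ) = ((-(π * t) / 2 : ℝ) : ℂ) + ((π / 4 : ℝ) : ℂ) * I := by
      push_cast
      linear_combination (π * t / 2 : ℂ) * I_sq
    rw [this]
    simp
    ring
  rw [e2, e3, e4, Real.cosh_eq]
  have hp := Real.pi_pos
  have h6 : Real.exp (2 * π * t) = Real.exp (π * t) * Real.exp (π * t) := by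
    rw [← Real.exp_add]; congr 1; ring
  have h7 : Real.exp (-(π * t)) = (Real.exp (π * t))⁻¹ := Real.exp_neg _
  have h8 := Real.exp_pos (π * t)
  rw [h6, h7]
  field_simp

theorem chi_sub_Xm (t : ℝ) : ‖MP069854.chi (1 / 2 + t * I) - Xm (1 / 2 + t * I)‖ ≤
    min 1 (Real.exp (-(π * t))) := by
  have h := chiXm_normsq t
  have h0 : 0 ≤ ‖MP069854.chi (1 / 2 + t * I) - Xm (1 / 2 + t * I)‖ := norm_nonneg _
  have h1 := Real.exp_pos (2 * π * t)
  apply le_min
  · have h2 : (Real.exp (2 * π * t) + 1)⁻¹ ≤ 1 := inv_le_one_of_one_le₀ (by linarith)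
    nlinarith
  · have h2 : (Real.exp (2 * π * t) + 1)⁻¹ ≤ Real.exp (-(π * t)) ^ 2 := by
      rw [← Real.exp_nat_mul]
      have : ((2 : ℕ) : ℝ) * -(π * t) = -(2 * π * t) := by push_cast; ring
      rw [this, Real.exp_neg]
      exact inv_anti₀ h1 (by linarith)
    rw [← h] at h2
    exact (pow_le_pow_iff_left₀ h0 (Real.exp_pos _).le (by norm_num)).1 h2

lemma chiXm_ev (A δ : ℝ) (hδ : 0 < δ) : ∀ᶠ T : ℝ in atTop,
    Real.exp 1 ≤ T ∧ 12 / δ ≤ Real.log T ^ 2 ∧
    (Nat.factorial 8 : ℝ) * Real.exp 1 * Real.exp (-(δ * T)) ≤ T ^ (-A) / 4 ∧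
    T ^ 8 * ((Nat.factorial 8 : ℝ) * Real.exp 1) * Real.exp (-(δ ^ 2 / 8 * Real.log T ^ 2)) ≤
      T ^ (-A) / 4 := by
  have hL := Real.tendsto_log_atTop
  set K : ℝ := 4 * ((Nat.factorial 8 : ℝ) * Real.exp 1) with hK
  have hKpos : 0 < K := by positivity
  have ev1 := (tendsto_rpow_mul_exp_neg_mul_atTop_nhds_zero A δ hδ).eventually_le_const
    (show (0:ℝ) < K⁻¹ by positivity)
  filter_upwards [eventually_ge_atTop (Real.exp 1), ev1,
    hL.eventually_ge_atTop 1, hL.eventually_ge_atTop (12 / δ),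
    hL.eventually_ge_atTop (8 / δ ^ 2 * (|8 + A| + |Real.log K|))] with T hT h1 h2 h3 h4
  have hT0 : 0 < T := (Real.exp_pos 1).trans_le hT
  refine ⟨hT, ?_, ?_, ?_⟩
  · have : 0 < 12 / δ := by positivity
    nlinarith
  · have h5 : Real.exp (-δ * T) ≤ T ^ (-A) * K⁻¹ := by
      rw [Real.rpow_neg hT0.le]
      have := Real.rpow_pos_of_pos hT0 A
      rw [inv_mul_eq_div, le_div_iff₀ this, mul_comm]
      exact h1
    have h6 : Real.exp (-(δ * T)) = Real.exp (-δ * T) := by congr 1; ring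
    rw [h6]
    calc (Nat.factorial 8 : ℝ) * Real.exp 1 * Real.exp (-δ * T)
        ≤ (Nat.factorial 8 : ℝ) * Real.exp 1 * (T ^ (-A) * K⁻¹) := by gcongr
      _ = T ^ (-A) / 4 := by
          rw [hK]; field_simp
  · have h7 : T ^ 8 = Real.exp (8 * Real.log T) := by
      rw [show (8 : ℝ) * Real.log T = ((8 : ℕ) : ℝ) * Real.log T by norm_num, Real.exp_nat_mul,
        Real.exp_log hT0]
    have h8 : T ^ (-A) = Real.exp (-A * Real.log T) := by
      rw [Real.rpow_def_of_pos hT0]; congr 1; ring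
    have h9 : T ^ 8 * ((Nat.factorial 8 : ℝ) * Real.exp 1) *
        Real.exp (-(δ ^ 2 / 8 * Real.log T ^ 2)) =
        Real.exp (8 * Real.log T + Real.log K - δ ^ 2 / 8 * Real.log T ^ 2) / 4 := by
      rw [sub_eq_add_neg, Real.exp_add, Real.exp_add, Real.exp_log hKpos, ← h7, hK]
      ring
    rw [h9, h8]
    gcongr
    have h10 : |8 + A| + |Real.log K| ≤ δ ^ 2 / 8 * Real.log T := by
      have h11 : 0 < δ ^ 2 / 8 := by positivity
      calc |8 + A| + |Real.log K| = δ ^ 2 / 8 * (8 / δ ^ 2 * (|8 + A| + |Real.log K|)) := by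
            field_simp
        _ ≤ _ := by gcongr
    have h12 : (|8 + A| + |Real.log K|) * Real.log T ≤ δ ^ 2 / 8 * Real.log T ^ 2 := by
      have := mul_le_mul_of_nonneg_right h10 (show (0:ℝ) ≤ Real.log T by linarith)
      nlinarith
    have h13 := le_abs_self (8 + A)
    have h14 := le_abs_self (Real.log K)
    have h15 := abs_nonneg (Real.log K)
    nlinarith

theorem chi_Xm_tail {δ : ℝ} (hδ : 0 < δ) (A : ℝ) : ∃ T₀ : ℝ, ∀ T ≥ T₀, ∀ τ, δ * T ≤ τ → τ ≤ T →
    ∫ t : ℝ, ‖MP069854.chi (1 / 2 + t * I) - Xm (1 / 2 + t * I)‖ * (1 + |t|) ^ 6 * win T τ t ≤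
      T ^ (-A) := by
  obtain ⟨T₀, hT₀⟩ := (eventually_atTop.1 (chiXm_ev A δ hδ))
  refine ⟨T₀, fun T hT τ hτ1 hτ2 => ?_⟩
  obtain ⟨h1, h2, h3, h4⟩ := hT₀ T hT
  have hT0 : 0 < T := (Real.exp_pos 1).trans_le h1
  have hT1 : 1 ≤ T := by
    have := Real.add_one_le_exp (1:ℝ)
    linarith
  have hL : 1 ≤ Real.log T := by
    rw [← Real.log_exp 1]; exact Real.log_le_log (Real.exp_pos 1) h1
  have hH : 0 < HH T := by unfold HH; positivity
  have hE : 0 < T ^ (-A) := Real.rpow_pos_of_pos hT0 _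
  have key : ∀ t : ℝ, ‖MP069854.chi (1 / 2 + t * I) - Xm (1 / 2 + t * I)‖ * (1 + |t|) ^ 8 *
      win T τ t ≤ T ^ (-A) / 4 := by
    intro t
    have hD := chi_sub_Xm t
    have hD1 : ‖MP069854.chi (1 / 2 + t * I) - Xm (1 / 2 + t * I)‖ ≤ 1 := hD.trans (min_le_left _ _)
    have hD2 : ‖MP069854.chi (1 / 2 + t * I) - Xm (1 / 2 + t * I)‖ ≤ Real.exp (-(π * t)) :=
      hD.trans (min_le_right _ _)
    have hτ0 : 0 < τ := lt_of_lt_of_le (by positivity) hτ1
    have hw0 : 0 ≤ win T τ t := (Real.exp_pos _).le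
    rcases le_or_gt (τ / 2) t with ht | ht
    · have ht0 : 0 < t := by linarith
      have hw1 : win T τ t ≤ 1 := by
        unfold win
        rw [Real.exp_le_one_iff]
        nlinarith [sq_nonneg ((t - τ) / HH T)]
      have hf := Real.pow_div_factorial_le_exp (1 + t) (by linarith) 8
      rw [div_le_iff₀ (by positivity)] at hf
      rw [abs_of_pos ht0]
      calc ‖MP069854.chi (1 / 2 + t * I) - Xm (1 / 2 + t * I)‖ * (1 + t) ^ 8 * win T τ t
          ≤ Real.exp (-(π * t)) * (Real.exp (1 + t) * (Nat.factorial 8 : ℝ)) * 1 := by gcongr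
        _ = (Nat.factorial 8 : ℝ) * Real.exp 1 * Real.exp (-(π * t) + t) := by
            rw [Real.exp_add, Real.exp_add]; ring
        _ ≤ (Nat.factorial 8 : ℝ) * Real.exp 1 * Real.exp (-(δ * T)) := by
            gcongr
            have := Real.pi_gt_three
            nlinarith
        _ ≤ _ := h3
    · have hu : τ / 2 ≤ τ - t := by linarith
      set v := (τ - t) / T with hv
      have huv : τ - t = v * T := by rw [hv]; field_simp
      have hv1 : δ / 2 ≤ v := by
        rw [hv, le_div_iff₀ hT0]; linarith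
      have hv0 : 0 < v := lt_of_lt_of_le (by positivity) hv1
      have habs : |t| ≤ 3 * v * T := by
        rw [abs_le]; constructor <;> nlinarith
      have hwin : win T τ t = Real.exp (-(v ^ 2 * Real.log T ^ 2)) := by
        unfold win HH
        congr 1
        have : (t - τ) = -(v * T) := by linarith
        rw [this]
        field_simp
      have hb : 1 + |t| ≤ T * (1 + 3 * v) := by nlinarith
      have hf := Real.pow_div_factorial_le_exp (1 + 3 * v) (by linarith) 8
      rw [div_le_iff₀ (by positivity)] at hf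
      rw [hwin]
      calc ‖MP069854.chi (1 / 2 + t * I) - Xm (1 / 2 + t * I)‖ * (1 + |t|) ^ 8 *
            Real.exp (-(v ^ 2 * Real.log T ^ 2))
          ≤ 1 * (T * (1 + 3 * v)) ^ 8 * Real.exp (-(v ^ 2 * Real.log T ^ 2)) := by gcongr
        _ = T ^ 8 * (1 + 3 * v) ^ 8 * Real.exp (-(v ^ 2 * Real.log T ^ 2)) := by ring
        _ ≤ T ^ 8 * (Real.exp (1 + 3 * v) * (Nat.factorial 8 : ℝ)) *
            Real.exp (-(v ^ 2 * Real.log T ^ 2)) := by gcongr
        _ = T ^ 8 * ((Nat.factorial 8 : ℝ) * Real.exp 1) *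
            Real.exp (3 * v + -(v ^ 2 * Real.log T ^ 2)) := by
            rw [Real.exp_add, Real.exp_add]; ring
        _ ≤ T ^ 8 * ((Nat.factorial 8 : ℝ) * Real.exp 1) *
            Real.exp (-(δ ^ 2 / 8 * Real.log T ^ 2)) := by
            gcongr
            have h5 : 12 ≤ δ * Real.log T ^ 2 := by
              rw [div_le_iff₀ hδ] at h2; linarith
            have h6 : 0 ≤ Real.log T ^ 2 := by positivity
            have h7 : δ / 2 * v * Real.log T ^ 2 ≤ v ^ 2 * Real.log T ^ 2 := by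
              have : δ / 2 * v ≤ v ^ 2 := by nlinarith
              exact mul_le_mul_of_nonneg_right this h6
            have h8 : 3 * v ≤ δ / 4 * v * Real.log T ^ 2 := by nlinarith
            have h9 : δ ^ 2 / 8 * Real.log T ^ 2 ≤ δ / 4 * v * Real.log T ^ 2 := by
              have : δ ^ 2 / 8 ≤ δ / 4 * v := by nlinarith
              exact mul_le_mul_of_nonneg_right this h6
            linarith
        _ ≤ _ := h4
  calc ∫ t : ℝ, ‖MP069854.chi (1 / 2 + t * I) - Xm (1 / 2 + t * I)‖ * (1 + |t|) ^ 6 * win T τ t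
      ≤ ∫ t : ℝ, T ^ (-A) / 4 * (1 + t ^ 2)⁻¹ := by
        apply integral_mono_of_nonneg
        · filter_upwards with t
          have : 0 ≤ win T τ t := (Real.exp_pos _).le
          simp only [Pi.zero_apply]
          positivity
        · exact integrable_inv_one_add_sq.const_mul _
        · filter_upwards with t
          have h5 := key t
          have h6 : 1 + t ^ 2 ≤ (1 + |t|) ^ 2 := by
            have := abs_nonneg t
            rw [← sq_abs t]; nlinarith
          rw [← div_eq_mul_inv, le_div_iff₀ (by positivity)]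
          have h7 : 0 ≤ win T τ t := (Real.exp_pos _).le
          calc ‖MP069854.chi (1 / 2 + t * I) - Xm (1 / 2 + t * I)‖ * (1 + |t|) ^ 6 * win T τ t *
                (1 + t ^ 2)
              ≤ ‖MP069854.chi (1 / 2 + t * I) - Xm (1 / 2 + t * I)‖ * (1 + |t|) ^ 6 * win T τ t *
                (1 + |t|) ^ 2 := by gcongr
            _ = ‖MP069854.chi (1 / 2 + t * I) - Xm (1 / 2 + t * I)‖ * (1 + |t|) ^ 8 *
                win T τ t := by ring
            _ ≤ _ := h5
    _ = T ^ (-A) / 4 * π := by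
        rw [integral_const_mul, integral_univ_inv_one_add_sq]
    _ ≤ T ^ (-A) := by
        have := Real.pi_le_four
        nlinarith

end S6
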