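import Pool.Agent.Lib.MP_39df77_nt.S6Defs

namespace S6
open Complex MeasureTheory Filter Topology Set
open scoped Real ComplexConjugate

/-- the integrand of `kernel_tiny`, as an entire function -/
noncomputable def ktF (T τ y : ℝ) (w : ℂ) : ℂ :=
  gg T w * cexp (-(w * (1 / 2 + τ * I))) * cexp (-(2 * π * I * y * cexp (-w)))

lemma kt_norm {T τ y : ℝ} (hH : 0 ≤ HH T) (ξ η : ℝ) : ‖ktF T τ y (ξ + η * I)‖ =
    HH T / (2 * √π) * Real.exp (-(HH T ^ 2 * (ξ ^ 2 - η ^ 2) / 4) - (ξ / 2 - η * τ) -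
      2 * π * y * Real.exp (-ξ) * Real.sin η) := by
  unfold ktF gg
  rw [norm_mul, norm_mul, norm_mul, norm_exp, norm_exp, norm_exp, norm_real, Real.norm_of_nonneg
    (by positivity)]
  have e1 : (-((HH T : ℂ) ^ 2 * (ξ + η * I) ^ 2 / 4)).re = -(HH T ^ 2 * (ξ ^ 2 - η ^ 2) / 4) := by
    have : (-((HH T : ℂ) ^ 2 * (ξ + η * I) ^ 2 / 4)) =
        ((-(HH T ^ 2 * (ξ ^ 2 - η ^ 2) / 4) : ℝ) : ℂ) + ((-(HH T ^ 2 * (2 * ξ * η) / 4) : ℝ) : ℂ) * I := by
      push_cast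
      linear_combination (-((HH T : ℂ) ^ 2 * η ^ 2 / 4)) * I_sq
    rw [this, add_re, ofReal_re, re_ofReal_mul, I_re, mul_zero, add_zero]
  have e2 : (-((ξ + η * I : ℂ) * (1 / 2 + τ * I))).re = -(ξ / 2 - η * τ) := by
    simp
    ring
  have e3 : (-(2 * π * I * y * cexp (-(ξ + η * I : ℂ)))).re =
      -(2 * π * y * Real.exp (-ξ) * Real.sin η) := by
    have h : (-(2 * π * I * y * cexp (-(ξ + η * I : ℂ)))) =
        ((-(2 * π * y) : ℝ) : ℂ) * (I * cexp (-(ξ + η * I : ℂ))) := by push_cast; ring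
    rw [h, re_ofReal_mul, I_mul_re, exp_im]
    simp
    ring
  rw [e1, e2, e3, mul_assoc, mul_assoc, ← Real.exp_add, ← Real.exp_add]
  congr 2
  ring

lemma kt_diff (T τ y : ℝ) : Differentiable ℂ (ktF T τ y) := by
  unfold ktF gg
  fun_prop

lemma kt_eq (T τ y ξ : ℝ) : ker T τ ξ * cexp (-(2 * π * I * y * cexp (-(om T ξ)))) =
    ktF T τ y (ξ + (T⁻¹ : ℝ) * I) := by
  unfold ker ktF om
  rfl

lemma kt_ev (A δ ε : ℝ) (hδ : 0 < δ) (hε : 0 < ε) : ∀ᶠ T : ℝ in atTop,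
    Real.exp 1 ≤ T ∧ 12 ≤ HH T ^ 2 ∧ Real.log T ^ 2 ≤ T ^ ε / (18 * δ) ∧
    2 * Real.exp (3 / 2) * T * Real.exp (-(3 / 4 * δ ^ 2 * Real.log T ^ 2)) ≤ T ^ (-A) / 2 ∧
    (2 * Real.exp (5 / 2) + 4 * Real.exp (5 / 4)) * T * Real.exp (-(HH T ^ 2 / 8)) ≤
      T ^ (-A) / 2 := by
  have hL := Real.tendsto_log_atTop
  set C₁ : ℝ := 4 * Real.exp (3 / 2) with hC1
  set C₂ : ℝ := 2 * (2 * Real.exp (5 / 2) + 4 * Real.exp (5 / 4)) with hC2
  have hC1p : 0 < C₁ := by positivity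
  have hC2p : 0 < C₂ := by positivity
  have ev1 := (tendsto_rpow_mul_exp_neg_mul_atTop_nhds_zero (A + 1) (1 / 8)
    (by norm_num)).eventually_le_const (show (0:ℝ) < C₂⁻¹ by positivity)
  have ev2 := (isLittleO_log_rpow_rpow_atTop 2 hε).bound (show (0:ℝ) < 1 / (18 * δ) by positivity)
  have ev3 := (isLittleO_log_rpow_atTop (show (0:ℝ) < 1 / 2 by norm_num)).bound one_pos
  filter_upwards [eventually_ge_atTop (Real.exp 1), eventually_ge_atTop 12, ev1, ev2, ev3,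
    hL.eventually_ge_atTop 1,
    hL.eventually_ge_atTop (4 / (3 * δ ^ 2) * (|A + 1| + |Real.log C₁|))] with T hT hT12 h1 h2 h3 h4 h5
  have hT0 : 0 < T := (Real.exp_pos 1).trans_le hT
  have hHT : T ≤ HH T ^ 2 := by
    rw [one_mul, Real.norm_of_nonneg (by linarith only [h4]), Real.norm_of_nonneg (by positivity),
      ← Real.sqrt_eq_rpow] at h3
    have h6 : Real.log T ^ 2 ≤ T := by
      calc Real.log T ^ 2 ≤ (√T) ^ 2 := by gcongr
        _ = T := Real.sq_sqrt hT0.le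
    unfold HH
    rw [div_pow, le_div_iff₀ (by positivity)]
    have p0 := mul_le_mul_of_nonneg_left h6 hT0.le
    linarith only [p0]
  refine ⟨hT, hT12.trans hHT, ?_, ?_, ?_⟩
  · rw [Real.norm_of_nonneg (by positivity), Real.norm_of_nonneg (by positivity)] at h2
    have : Real.log T ^ (2 : ℝ) = Real.log T ^ 2 := by norm_cast
    rw [this] at h2
    calc _ ≤ _ := h2
      _ = _ := by ring
  · have h8 : T ^ (-A) = Real.exp (-A * Real.log T) := by
      rw [Real.rpow_def_of_pos hT0]; congr 1; ring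
    have h9 : 2 * Real.exp (3 / 2) * T * Real.exp (-(3 / 4 * δ ^ 2 * Real.log T ^ 2)) =
        Real.exp (Real.log T + Real.log C₁ - 3 / 4 * δ ^ 2 * Real.log T ^ 2) / 2 := by
      rw [sub_eq_add_neg, Real.exp_add, Real.exp_add, Real.exp_log hC1p, Real.exp_log hT0, hC1]
      ring
    rw [h9, h8]
    gcongr
    have h10 : |A + 1| + |Real.log C₁| ≤ 3 / 4 * δ ^ 2 * Real.log T := by
      have h11 : 0 < 3 / 4 * δ ^ 2 := by positivity
      calc |A + 1| + |Real.log C₁| =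
            3 / 4 * δ ^ 2 * (4 / (3 * δ ^ 2) * (|A + 1| + |Real.log C₁|)) := by
            field_simp
        _ ≤ _ := by gcongr
    have h12 := mul_le_mul_of_nonneg_right h10 (show (0:ℝ) ≤ Real.log T by linarith only [h4])
    have h13 := le_abs_self (A + 1)
    have h14 := le_abs_self (Real.log C₁)
    have h15 := abs_nonneg (Real.log C₁)
    have p1 := mul_le_mul_of_nonneg_right h13 (show (0:ℝ) ≤ Real.log T by linarith only [h4])
    have p2 := mul_le_mul_of_nonneg_left h4 h15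
    linarith only [h12, p1, p2, h14]
  · have h6 : Real.exp (-(HH T ^ 2 / 8)) ≤ Real.exp (-(1 / 8) * T) := by
      gcongr; linarith only [hHT]
    have h7 : Real.exp (-(1 / 8) * T) ≤ T ^ (-(A + 1)) * C₂⁻¹ := by
      rw [Real.rpow_neg hT0.le]
      have := Real.rpow_pos_of_pos hT0 (A + 1)
      rw [inv_mul_eq_div, le_div_iff₀ this, mul_comm]
      exact h1
    have h8 : T ^ (-A) = T * T ^ (-(A + 1)) := by
      nth_rewrite 2 [← Real.rpow_one T]
      rw [← Real.rpow_add hT0]; congr 1; ring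
    rw [h8]
    calc (2 * Real.exp (5 / 2) + 4 * Real.exp (5 / 4)) * T * Real.exp (-(HH T ^ 2 / 8))
        ≤ (C₂ / 2) * T * (T ^ (-(A + 1)) * C₂⁻¹) := by
          rw [show (2 * Real.exp (5 / 2) + 4 * Real.exp (5 / 4)) = C₂ / 2 by rw [hC2]; ring]
          gcongr
          exact h6.trans h7
      _ = T * T ^ (-(A + 1)) / 2 := by field_simp

theorem kernel_tiny {δ ε : ℝ} (hδ : 0 < δ) (hε : 0 < ε) (A : ℝ) : ∃ T₀ : ℝ, ∀ T ≥ T₀, ∀ τ,
    δ * T ≤ τ → τ ≤ T → ∀ y : ℝ, 0 < y → y ≤ T ^ (1 - ε) →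
    ‖∫ ξ : ℝ, ker T τ ξ * cexp (-(2 * π * I * y * cexp (-(om T ξ))))‖ ≤ T ^ (-A) := by
  set e₁ := min ε 1 with he1
  have he0 : 0 < e₁ := lt_min hε one_pos
  have he11 : e₁ ≤ 1 := min_le_right _ _
  obtain ⟨T₀, hT₀⟩ := (eventually_atTop.1 (kt_ev A δ e₁ hδ he0))
  refine ⟨T₀, fun T hT τ hτ1 hτ2 y hy0 hy1 => ?_⟩
  obtain ⟨h1, h2, h3, h4, h5⟩ := hT₀ T hT
  have hT0 : 0 < T := (Real.exp_pos 1).trans_le h1
  have hT2 : 2 ≤ T := by
    have := Real.add_one_le_exp (1:ℝ)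
    linarith only [h1, this]
  have hT1 : 1 ≤ T := by linarith only [hT2]
  have hL : 1 ≤ Real.log T := by
    rw [← Real.log_exp 1]; exact Real.log_le_log (Real.exp_pos 1) h1
  have hH : 0 < HH T := by unfold HH; positivity
  have hHT : HH T ≤ T := by
    unfold HH; exact div_le_self hT0.le hL
  have hHs : HH T / (2 * √π) ≤ T := by
    have h6 : 1 ≤ √π := by
      rw [Real.one_le_sqrt]; linarith only [Real.pi_gt_three]
    exact (div_le_self hH.le (by linarith only [h6])).trans hHT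
  have hHs0 : 0 ≤ HH T / (2 * √π) := by positivity
  have hy2 : y ≤ T ^ (1 - e₁) := hy1.trans
    (Real.rpow_le_rpow_of_exponent_le hT1 (by linarith only [min_le_left ε (1:ℝ)]))
  -- the shift
  set κ : ℝ := δ * Real.log T ^ 2 / T with hκ
  have hκ0 : 0 < κ := by rw [hκ]; positivity
  have hHκ : HH T * κ = δ * Real.log T := by
    rw [hκ]; unfold HH; field_simp
  have hTe : T ^ e₁ ≤ T := by
    calc T ^ e₁ ≤ T ^ (1:ℝ) := Real.rpow_le_rpow_of_exponent_le hT1 he11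
      _ = T := Real.rpow_one T
  have hδL : δ * Real.log T ^ 2 ≤ T ^ e₁ / 18 := by
    calc δ * Real.log T ^ 2 ≤ δ * (T ^ e₁ / (18 * δ)) := by gcongr
      _ = T ^ e₁ / 18 := by field_simp
  have hκ1 : κ ≤ 1 / 18 := by
    rw [hκ, div_le_iff₀ hT0]
    linarith only [hTe, hδL]
  have hyκ : y * κ ≤ 1 / 18 := by
    have h6 : T ^ (1 - e₁) * T ^ e₁ = T := by
      rw [← Real.rpow_add hT0]; simp
    have h7 : 0 ≤ T ^ (1 - e₁) := by positivity
    calc y * κ ≤ T ^ (1 - e₁) * (T ^ e₁ / 18 / T) := by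
          rw [hκ]; gcongr
      _ = (T ^ (1 - e₁) * T ^ e₁) / T / 18 := by ring
      _ = 1 / 18 := by rw [h6]; field_simp
  have hpe : 2 * π * Real.exp 1 ≤ 18 := by
    have h6 := Real.pi_lt_d2
    have h7 := Real.exp_one_lt_d9
    have h8 : π * Real.exp 1 ≤ 3.15 * 2.7182818286 :=
      mul_le_mul h6.le h7.le (Real.exp_pos 1).le (by norm_num)
    linarith only [h8]
  have hτT : T⁻¹ * τ ≤ 1 := by
    rw [inv_mul_le_iff₀ hT0]; linarith only [hτ2]
  have hτ0 : 0 < τ := lt_of_lt_of_le (by positivity) hτ1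
  have hTi : T⁻¹ ≤ 1 / 2 := by
    rw [inv_le_comm₀ hT0 (by norm_num)]; linarith only [hT2]
  have hTi0 : 0 < T⁻¹ := by positivity
  -- bound of the exponential factor
  have hfac : ∀ ξ η : ℝ, -1 ≤ ξ → -κ ≤ η → η ≤ T⁻¹ →
      -(2 * π * y * Real.exp (-ξ) * Real.sin η) ≤ 1 := by
    intro ξ η h6 h7 h8
    have h9 : Real.exp (-ξ) ≤ Real.exp 1 := Real.exp_le_exp.2 (by linarith only [h6])
    have h10 := Real.exp_pos (-ξ)
    rcases le_or_gt 0 η with h11 | h11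
    · have h12 : 0 ≤ Real.sin η := Real.sin_nonneg_of_nonneg_of_le_pi h11
        (by linarith only [Real.pi_gt_three, hκ0, hκ1, hTi, h8])
      have : 0 ≤ 2 * π * y * Real.exp (-ξ) * Real.sin η := by positivity
      linarith only [hκ0, hκ1, this]
    · have h12 : -Real.sin η ≤ κ := by
        have h13 := Real.sin_le (show 0 ≤ -η by linarith only [h11])
        rw [Real.sin_neg] at h13
        linarith only [h7, h13]
      have h14 : 0 ≤ -Real.sin η := by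
        rw [← Real.sin_neg]
        exact Real.sin_nonneg_of_nonneg_of_le_pi (by linarith only [h11]) (by linarith only [Real.pi_gt_three, hκ0, hκ1, h7])
      calc -(2 * π * y * Real.exp (-ξ) * Real.sin η) =
            2 * π * y * Real.exp (-ξ) * (-Real.sin η) := by ring
        _ ≤ 2 * π * y * Real.exp 1 * κ := by gcongr
        _ = 2 * π * Real.exp 1 * (y * κ) := by ring
        _ ≤ 18 * (1 / 18) := by gcongr
        _ = 1 := by norm_num
  -- lower side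
  have hlow : ∀ x ∈ uIoc (-1:ℝ) 1, ‖ktF T τ y (x + ((-κ : ℝ) : ℂ) * I)‖ ≤
      Real.exp (3 / 2) * T * Real.exp (-(3 / 4 * δ ^ 2 * Real.log T ^ 2)) := by
    intro x hx
    rw [uIoc_of_le (by norm_num)] at hx
    rw [kt_norm hH.le]
    have h6 := hfac x (-κ) hx.1.le le_rfl (by linarith only [hκ0, hTi0])
    have h7 : HH T ^ 2 * κ ^ 2 = δ ^ 2 * Real.log T ^ 2 := by
      rw [← mul_pow, hHκ, mul_pow]
    have h8 : δ ^ 2 * Real.log T ^ 2 ≤ κ * τ := by
      calc δ ^ 2 * Real.log T ^ 2 = κ * (δ * T) := by rw [hκ]; field_simp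
        _ ≤ κ * τ := by gcongr
    calc HH T / (2 * √π) * Real.exp (-(HH T ^ 2 * (x ^ 2 - (-κ) ^ 2) / 4) - (x / 2 - (-κ) * τ) -
          2 * π * y * Real.exp (-x) * Real.sin (-κ))
        ≤ T * Real.exp (3 / 2 + -(3 / 4 * δ ^ 2 * Real.log T ^ 2)) := by
          gcongr
          have h9 : 0 ≤ HH T ^ 2 * x ^ 2 := by positivity
          have h10 := hx.1
          linarith only [h6, h7, h8, h9, h10]
      _ = _ := by rw [Real.exp_add]; ring
  -- vertical sides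
  have hver : ∀ s : ℝ, s ^ 2 = 1 → ∀ v ∈ uIoc (-κ) T⁻¹, ‖ktF T τ y ((s : ℂ) + v * I)‖ ≤
      Real.exp (5 / 2) * T * Real.exp (-(HH T ^ 2 / 8)) := by
    intro s hs v hv
    rw [uIoc_of_le (by linarith only [hκ0, hTi0])] at hv
    rw [kt_norm hH.le]
    have hs1 : -1 ≤ s := by nlinarith only [hs]
    have h6 := hfac s v hs1 hv.1.le hv.2
    have h7 : v ^ 2 ≤ 1 / 4 := by
      have : |v| ≤ 1 / 2 := abs_le.2 ⟨by linarith only [hv.1, hκ0, hκ1, hv], by linarith only [hv.2, hTi, hv]⟩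
      calc v ^ 2 = |v| ^ 2 := (sq_abs v).symm
        _ ≤ (1 / 2) ^ 2 := pow_le_pow_left₀ (abs_nonneg v) this 2
        _ = 1 / 4 := by norm_num
    have h8 : v * τ ≤ 1 := by
      calc v * τ ≤ T⁻¹ * τ := by gcongr; exact hv.2
        _ ≤ 1 := hτT
    calc HH T / (2 * √π) * Real.exp (-(HH T ^ 2 * (s ^ 2 - v ^ 2) / 4) - (s / 2 - v * τ) -
          2 * π * y * Real.exp (-s) * Real.sin v)
        ≤ T * Real.exp (5 / 2 + -(HH T ^ 2 / 8)) := by
          gcongr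
          rw [hs]
          have p1 := mul_le_mul_of_nonneg_left h7 (sq_nonneg (HH T))
          have p2 := sq_nonneg (HH T)
          linarith only [h6, h8, hs1, p1, p2]
      _ = _ := by rw [Real.exp_add]; ring
  -- the upper line
  have hup : ∀ ξ : ℝ, ‖ktF T τ y (ξ + ((T⁻¹ : ℝ) : ℂ) * I)‖ ≤
      T * Real.exp (5 / 4) * Real.exp (-(HH T ^ 2 * ξ ^ 2 / 4) - ξ / 2) := by
    intro ξ
    rw [kt_norm hH.le]
    have h6 : 0 ≤ 2 * π * y * Real.exp (-ξ) * Real.sin T⁻¹ := by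
      have : 0 ≤ Real.sin T⁻¹ := Real.sin_nonneg_of_nonneg_of_le_pi hTi0.le
        (by linarith only [Real.pi_gt_three, hκ0, hκ1, hTi])
      positivity
    have h7 : HH T ^ 2 * (T⁻¹) ^ 2 ≤ 1 := by
      rw [← mul_pow]
      have : HH T * T⁻¹ ≤ 1 := by
        rw [← div_eq_mul_inv, div_le_one hT0]; exact hHT
      have h0 : 0 ≤ HH T * T⁻¹ := by positivity
      exact pow_le_one₀ h0 this
    calc HH T / (2 * √π) * Real.exp (-(HH T ^ 2 * (ξ ^ 2 - (T⁻¹) ^ 2) / 4) - (ξ / 2 - T⁻¹ * τ) -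
          2 * π * y * Real.exp (-ξ) * Real.sin T⁻¹)
        ≤ T * Real.exp (5 / 4 + (-(HH T ^ 2 * ξ ^ 2 / 4) - ξ / 2)) := by
          gcongr
          linarith only [hτT, h6, h7]
      _ = _ := by rw [Real.exp_add]; ring
  have hcont : Continuous (fun ξ : ℝ => ktF T τ y (ξ + ((T⁻¹ : ℝ) : ℂ) * I)) :=
    (kt_diff T τ y).continuous.comp (by fun_prop)
  have hint : Integrable (fun ξ : ℝ => ktF T τ y (ξ + ((T⁻¹ : ℝ) : ℂ) * I)) := by
    refine (integrable_inv_one_add_sq.const_mul (T * Real.exp (5 / 4) * Real.exp 1)).mono'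
      hcont.aestronglyMeasurable (Eventually.of_forall fun ξ => (hup ξ).trans ?_)
    rw [mul_assoc (T * Real.exp (5 / 4))]
    gcongr
    have h6 : 1 + ξ ^ 2 ≤ Real.exp (ξ ^ 2) := by linarith only [Real.add_one_le_exp (ξ ^ 2)]
    rw [← div_eq_mul_inv, le_div_iff₀ (by positivity)]
    calc Real.exp (-(HH T ^ 2 * ξ ^ 2 / 4) - ξ / 2) * (1 + ξ ^ 2)
        ≤ Real.exp (-(HH T ^ 2 * ξ ^ 2 / 4) - ξ / 2) * Real.exp (ξ ^ 2) := by gcongr
      _ = Real.exp (-(HH T ^ 2 * ξ ^ 2 / 4) - ξ / 2 + ξ ^ 2) := by rw [Real.exp_add]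
      _ ≤ Real.exp 1 := by
          gcongr
          have p1 := mul_le_mul_of_nonneg_right h2 (sq_nonneg ξ)
          have p2 := sq_nonneg (ξ + 1)
          have p3 := sq_nonneg ξ
          linarith only [p1, p2, p3]
  -- outside
  have hout : ‖∫ ξ in (Ioc (-1:ℝ) 1)ᶜ, ktF T τ y (ξ + ((T⁻¹ : ℝ) : ℂ) * I)‖ ≤
      T * Real.exp (5 / 4) * Real.exp (-(HH T ^ 2 / 8)) * π := by
    calc ‖∫ ξ in (Ioc (-1:ℝ) 1)ᶜ, ktF T τ y (ξ + ((T⁻¹ : ℝ) : ℂ) * I)‖
        ≤ ∫ ξ in (Ioc (-1:ℝ) 1)ᶜ, T * Real.exp (5 / 4) * Real.exp (-(HH T ^ 2 / 8)) *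
            (1 + ξ ^ 2)⁻¹ := by
          apply norm_integral_le_of_norm_le (integrable_inv_one_add_sq.const_mul _).integrableOn
          refine (ae_restrict_iff' measurableSet_Ioc.compl).2 (Eventually.of_forall fun ξ hξ => ?_)
          have hξ1 : 1 ≤ |ξ| := by
            by_contra hc
            push Not at hc
            rw [abs_lt] at hc
            exact hξ ⟨hc.1, hc.2.le⟩
          refine (hup ξ).trans ?_
          rw [mul_assoc (T * Real.exp (5 / 4))]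
          gcongr
          rw [← div_eq_mul_inv, le_div_iff₀ (by positivity)]
          have h6 : 1 + ξ ^ 2 ≤ Real.exp (ξ ^ 2) := by linarith only [Real.add_one_le_exp (ξ ^ 2)]
          calc Real.exp (-(HH T ^ 2 * ξ ^ 2 / 4) - ξ / 2) * (1 + ξ ^ 2)
              ≤ Real.exp (-(HH T ^ 2 * ξ ^ 2 / 4) - ξ / 2) * Real.exp (ξ ^ 2) := by gcongr
            _ = Real.exp (-(HH T ^ 2 * ξ ^ 2 / 4) - ξ / 2 + ξ ^ 2) := by rw [Real.exp_add]
            _ ≤ Real.exp (-(HH T ^ 2 / 8)) := by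
                gcongr
                have h7 : 1 ≤ ξ ^ 2 := by rw [← sq_abs]; exact one_le_pow₀ hξ1
                have h8 : -ξ ≤ ξ ^ 2 := by
                  have := neg_abs_le ξ
                  have p1 := mul_le_mul_of_nonneg_left hξ1 (abs_nonneg ξ)
                  rw [← sq_abs]; linarith only [this, p1]
                have h9 := mul_le_mul_of_nonneg_right h2 (show 0 ≤ ξ ^ 2 by positivity)
                have h10 : HH T ^ 2 ≤ HH T ^ 2 * ξ ^ 2 := by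
                  exact le_mul_of_one_le_right (sq_nonneg _) h7
                linarith only [h8, h9, h10]
      _ ≤ ∫ ξ : ℝ, T * Real.exp (5 / 4) * Real.exp (-(HH T ^ 2 / 8)) * (1 + ξ ^ 2)⁻¹ := by
          apply setIntegral_le_integral (integrable_inv_one_add_sq.const_mul _)
          filter_upwards with ξ
          simp only [Pi.zero_apply]
          positivity
      _ = _ := by rw [integral_const_mul, integral_univ_inv_one_add_sq]
  -- the rectangle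
  have rect := Complex.integral_boundary_rect_eq_zero_of_differentiableOn (ktF T τ y)
    ⟨-1, -κ⟩ ⟨1, T⁻¹⟩ (kt_diff T τ y).differentiableOn
  simp only at rect
  have hmid : ‖∫ x in (-1:ℝ)..1, ktF T τ y (x + ((T⁻¹ : ℝ) : ℂ) * I)‖ ≤
      2 * (Real.exp (3 / 2) * T * Real.exp (-(3 / 4 * δ ^ 2 * Real.log T ^ 2))) +
      2 * (Real.exp (5 / 2) * T * Real.exp (-(HH T ^ 2 / 8))) := by
    have hb1 := intervalIntegral.norm_integral_le_of_norm_le_const hlow
    have hb2 := intervalIntegral.norm_integral_le_of_norm_le_const (hver 1 (by norm_num))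
    have hb3 := intervalIntegral.norm_integral_le_of_norm_le_const (hver (-1) (by norm_num))
    have h6 : ∫ x in (-1:ℝ)..1, ktF T τ y (x + ((T⁻¹ : ℝ) : ℂ) * I) =
        (∫ x in (-1:ℝ)..1, ktF T τ y (x + ((-κ : ℝ) : ℂ) * I)) +
        I * (∫ v in (-κ)..T⁻¹, ktF T τ y (((1 : ℝ) : ℂ) + v * I)) -
        I * (∫ v in (-κ)..T⁻¹, ktF T τ y (((-1 : ℝ) : ℂ) + v * I)) := by
      simp only [smul_eq_mul] at rect
      linear_combination -rect
    rw [h6]
    have h7 : |(1:ℝ) - (-1)| = 2 := by norm_num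
    have h8 : |T⁻¹ - (-κ)| ≤ 1 := by
      rw [abs_of_pos (by linarith only [hκ0, hTi0])]; linarith only [hκ0, hκ1, hTi]
    rw [h7] at hb1
    have hE : 0 ≤ Real.exp (5 / 2) * T * Real.exp (-(HH T ^ 2 / 8)) := by positivity
    have hb2' := hb2.trans (mul_le_mul_of_nonneg_left h8 hE)
    have hb3' := hb3.trans (mul_le_mul_of_nonneg_left h8 hE)
    have n1 := norm_sub_le ((∫ x in (-1:ℝ)..1, ktF T τ y (x + ((-κ : ℝ) : ℂ) * I)) +
        I * (∫ v in (-κ)..T⁻¹, ktF T τ y (((1 : ℝ) : ℂ) + v * I)))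
        (I * (∫ v in (-κ)..T⁻¹, ktF T τ y (((-1 : ℝ) : ℂ) + v * I)))
    have n2 := norm_add_le (∫ x in (-1:ℝ)..1, ktF T τ y (x + ((-κ : ℝ) : ℂ) * I))
        (I * (∫ v in (-κ)..T⁻¹, ktF T τ y (((1 : ℝ) : ℂ) + v * I)))
    rw [norm_mul, norm_I, one_mul] at n1 n2
    linarith only [hb1, hb2', hb3', n1, n2]
  simp only [kt_eq]
  rw [← integral_add_compl measurableSet_Ioc hint]
  have hmid' : ‖∫ ξ in Ioc (-1:ℝ) 1, ktF T τ y (ξ + ((T⁻¹ : ℝ) : ℂ) * I)‖ ≤
      2 * (Real.exp (3 / 2) * T * Real.exp (-(3 / 4 * δ ^ 2 * Real.log T ^ 2))) +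
      2 * (Real.exp (5 / 2) * T * Real.exp (-(HH T ^ 2 / 8))) := by
    rw [← intervalIntegral.integral_of_le (by norm_num)]
    exact hmid
  have hpi := Real.pi_le_four
  have hE2 : T * Real.exp (5 / 4) * Real.exp (-(HH T ^ 2 / 8)) * π ≤
      T * Real.exp (5 / 4) * Real.exp (-(HH T ^ 2 / 8)) * 4 := by gcongr
  have n3 := norm_add_le (∫ ξ in Ioc (-1:ℝ) 1, ktF T τ y (ξ + ((T⁻¹ : ℝ) : ℂ) * I))
    (∫ ξ in (Ioc (-1:ℝ) 1)ᶜ, ktF T τ y (ξ + ((T⁻¹ : ℝ) : ℂ) * I))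
  linarith only [h4, h5, hout, hmid', hE2, n3]

end S6
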