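import Pool.Agent.Lib.MP_39df77_nt.S6Defs
import Pool.Agent.Lib.MP_39df77_nt.S6_chi_sub_Xm
import Pool.Agent.Lib.MP_39df77_nt.S6_kernel_tiny
import Pool.Agent.Lib.MP_39df77_nt.Part01
import Pool.Agent.Lib.MP_39df77_nt.Part02
import Pool.Agent.Lib.MP_39df77_nt.Part05

section

namespace S6
open Complex MeasureTheory Filter Topology Set
open scoped Real ComplexConjugate

theorem I2_expand_HH {T : ℝ} (hT : 1 < T) : 0 < HH T := by
  unfold HH
  exact div_pos (by linarith only [hT]) (Real.log_pos hT)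

/-- polynomial times window -/
theorem I2_expand_dom {T : ℝ} (hT : 1 < T) (τ : ℝ) :
    Integrable (fun t : ℝ => (1 + |t|) ^ 3 * win T τ t) := by
  have hH := I2_expand_HH hT
  set b : ℝ := (HH T ^ 2)⁻¹ with hb
  have hb0 : 0 < b := by rw [hb]; positivity
  have h1 : Integrable (fun u : ℝ => Real.exp (-b * u ^ 2)) := integrable_exp_neg_mul_sq hb0
  have h2 : Integrable (fun u : ℝ => |u| ^ 3 * Real.exp (-b * u ^ 2)) := by
    have h3 := (integrable_rpow_mul_exp_neg_mul_sq hb0 (s := 3) (by norm_num)).norm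
    refine h3.congr (Eventually.of_forall fun u => ?_)
    simp only
    rw [norm_mul, Real.norm_eq_abs, Real.norm_eq_abs, abs_of_pos (Real.exp_pos _)]
    congr 1
    have : (3 : ℝ) = ((3 : ℕ) : ℝ) := by norm_num
    rw [this, Real.rpow_natCast, abs_pow]
  have h3 : Integrable (fun u : ℝ => (1 + |τ|) ^ 3 * (4 * (Real.exp (-b * u ^ 2) +
      |u| ^ 3 * Real.exp (-b * u ^ 2)))) := ((h1.add h2).const_mul 4).const_mul _
  have h4 := h3.comp_sub_right τ
  refine h4.mono' ?_ (Eventually.of_forall fun t => ?_)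
  · apply Continuous.aestronglyMeasurable
    unfold win
    fun_prop
  · have hw : win T τ t = Real.exp (-b * (t - τ) ^ 2) := by
      unfold win
      congr 1
      rw [hb]
      field_simp
    rw [hw, norm_mul, Real.norm_eq_abs, Real.norm_eq_abs, abs_of_pos (Real.exp_pos _),
      abs_of_nonneg (by positivity)]
    have h5 : 1 + |t| ≤ (1 + |τ|) * (1 + |t - τ|) := by
      have h6 : |t| ≤ |t - τ| + |τ| := by
        have := abs_add_le (t - τ) τ
        simpa using this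
      have h7 : 0 ≤ |τ| * |t - τ| := by positivity
      linarith only [h6, h7]
    have h8 : (1 + |t - τ|) ^ 3 ≤ 4 * (1 + |t - τ| ^ 3) := by
      have h9 : 0 ≤ |t - τ| := abs_nonneg _
      nlinarith [sq_nonneg (|t - τ| - 1), mul_nonneg h9 (sq_nonneg (|t - τ| - 1))]
    have h9 : (1 + |t|) ^ 3 ≤ (1 + |τ|) ^ 3 * (4 * (1 + |t - τ| ^ 3)) := by
      calc (1 + |t|) ^ 3 ≤ ((1 + |τ|) * (1 + |t - τ|)) ^ 3 :=
            pow_le_pow_left₀ (by positivity) h5 3
        _ = (1 + |τ|) ^ 3 * (1 + |t - τ|) ^ 3 := by rw [mul_pow]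
        _ ≤ _ := mul_le_mul_of_nonneg_left h8 (by positivity)
    calc (1 + |t|) ^ 3 * Real.exp (-b * (t - τ) ^ 2)
        ≤ ((1 + |τ|) ^ 3 * (4 * (1 + |t - τ| ^ 3))) * Real.exp (-b * (t - τ) ^ 2) :=
          mul_le_mul_of_nonneg_right h9 (Real.exp_pos _).le
      _ = _ := by ring

theorem I2_expand_zcont : Continuous fun t : ℝ => riemannZeta (1 / 2 + t * I) := by
  rw [continuous_iff_continuousAt]
  intro y
  have h : DifferentiableAt ℂ riemannZeta (1/2 + y * I) := by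
    apply differentiableAt_riemannZeta
    intro h
    have := congrArg Complex.re h
    simp at this
  exact ContinuousAt.comp (f := fun y : ℝ => (1/2 + y * I : ℂ)) (g := riemannZeta) h.continuousAt
    (by fun_prop)

theorem I2_expand_ccont : Continuous fun t : ℝ => MP069854.chi (1 / 2 + t * I) := by
  rw [continuous_iff_continuousAt]
  intro y
  have hG : DifferentiableAt ℂ Gamma (1/2 + y * I) := by
    apply differentiableAt_Gamma
    intro m h
    have h1 := congrArg Complex.re h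
    simp at h1
    have : (0 : ℝ) ≤ m := Nat.cast_nonneg m
    norm_num at h1
    linarith only [h1]
  have hpi : (2 * (π : ℂ)) ≠ 0 := by
    simp [Real.pi_ne_zero]
  have h : ContinuousAt MP069854.chi (1/2 + y * I) := by
    unfold MP069854.chi
    refine ContinuousAt.mul (ContinuousAt.mul (ContinuousAt.mul continuousAt_const ?_)
      hG.continuousAt) ?_
    · exact (continuousAt_id.neg).const_cpow (Or.inl hpi)
    · fun_prop
  exact ContinuousAt.comp (f := fun y : ℝ => (1/2 + y * I : ℂ)) (g := MP069854.chi) h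
    (by fun_prop)

theorem I2_expand_wcont (T τ : ℝ) : Continuous (win T τ) := by
  unfold win
  fun_prop

theorem I2_expand_rcont {r : ℝ} (hr : 0 < r) :
    Continuous fun t : ℝ => (r : ℂ) ^ (-(1 / 2 + t * I : ℂ)) := by
  have hr' : (r : ℂ) ≠ 0 := by exact_mod_cast hr.ne'
  refine Continuous.const_cpow (by fun_prop) (Or.inl hr')

theorem I2_expand_int {T : ℝ} (hT : 1 < T) (τ : ℝ) {r : ℝ} (hr : 0 < r) :
    Integrable (fun t : ℝ => MP069854.chi (1 / 2 + t * I) * riemannZeta (1 / 2 + t * I) ^ 3 *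
        (r : ℂ) ^ (-(1 / 2 + t * I : ℂ)) * (win T τ t : ℂ)) := by
  obtain ⟨C, hC1, hC⟩ := MP069854.zeta_growth'
  have h := (I2_expand_dom hT τ).const_mul (C ^ 3 * r ^ (-(1 / 2) : ℝ))
  refine h.mono' ?_ (Eventually.of_forall fun t => ?_)
  · apply Continuous.aestronglyMeasurable
    exact ((I2_expand_ccont.mul (I2_expand_zcont.pow 3)).mul (I2_expand_rcont hr)).mul
      (Complex.continuous_ofReal.comp (I2_expand_wcont T τ))
  · have hw : 0 < win T τ t := Real.exp_pos _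
    have hz : ‖riemannZeta (1 / 2 + t * I)‖ ≤ C * (1 + |t|) := by
      refine (hC _ (by simp) (MP069854.dist_one_of_re (by simp))).trans ?_
      refine mul_le_mul_of_nonneg_left ?_ (by linarith only [hC1])
      have h1 := Complex.norm_le_abs_re_add_abs_im (1/2 + t * I)
      have h2 : (1/2 + (t:ℂ) * I).re = 1/2 := by simp
      have h3 : (1/2 + (t:ℂ) * I).im = t := by simp
      rw [h2, h3] at h1
      have h4 : |(1/2:ℝ)| = 1/2 := by norm_num
      rw [h4] at h1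
      linarith only [h1]
    have hr2 : ‖(r : ℂ) ^ (-(1 / 2 + t * I : ℂ))‖ = r ^ (-(1 / 2) : ℝ) := by
      rw [Complex.norm_cpow_eq_rpow_re_of_pos hr]
      congr 1
      simp
    rw [norm_mul, norm_mul, norm_mul, norm_pow, MP069854.chi_norm (by simp), one_mul, hr2,
      Complex.norm_real, Real.norm_eq_abs, abs_of_pos hw]
    have h5 : ‖riemannZeta (1 / 2 + t * I)‖ ^ 3 ≤ C ^ 3 * (1 + |t|) ^ 3 := by
      rw [← mul_pow]
      exact pow_le_pow_left₀ (norm_nonneg _) hz 3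
    have h6 : 0 < r ^ (-(1 / 2) : ℝ) := Real.rpow_pos_of_pos hr _
    calc ‖riemannZeta (1 / 2 + t * I)‖ ^ 3 * r ^ (-(1 / 2) : ℝ) * win T τ t
        ≤ (C ^ 3 * (1 + |t|) ^ 3) * r ^ (-(1 / 2) : ℝ) * win T τ t := by gcongr
      _ = _ := by ring

/-- **R7.** Algebra: `|ζ|²ζ = conj ζ · ζ² = chi ζ³` (`MP069854.zeta_one_sub`, `riemannZeta_conj`),
`(m₁m₂n)^{-1/2} (n/(m₁m₂))^{-it} = (m₁m₂)^{-1} (n/(m₁m₂))^{-(1/2+it)}`. -/
theorem I2_expand (G : ℝ × ℝ × ℝ → ℝ) {T : ℝ} (hT : 1 < T) (τ : ℝ) :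
    I2 G T τ = ∑ x ∈ tri T, ((cf G T x / ((x.1 : ℝ) * x.2.1) : ℝ) : ℂ) *
      ∫ t : ℝ, MP069854.chi (1 / 2 + t * I) * riemannZeta (1 / 2 + t * I) ^ 3 *
        (((x.2.2 : ℝ) / ((x.1 : ℝ) * x.2.1) : ℝ) : ℂ) ^ (-(1 / 2 + t * I : ℂ)) * (win T τ t : ℂ) := by
  have hpos : ∀ x ∈ tri T, (0 : ℝ) < x.1 ∧ (0 : ℝ) < x.2.1 ∧ (0 : ℝ) < x.2.2 := by
    intro x hx
    unfold tri at hx
    rw [Finset.mem_product, Finset.mem_product, Finset.mem_Icc, Finset.mem_Icc,
      Finset.mem_Icc] at hx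
    refine ⟨?_, ?_, ?_⟩
    · exact_mod_cast hx.1.1
    · exact_mod_cast hx.2.1.1
    · exact_mod_cast hx.2.2.1
  have hrw : ∀ x ∈ tri T, ((cf G T x / ((x.1 : ℝ) * x.2.1) : ℝ) : ℂ) *
      ∫ t : ℝ, MP069854.chi (1 / 2 + t * I) * riemannZeta (1 / 2 + t * I) ^ 3 *
        (((x.2.2 : ℝ) / ((x.1 : ℝ) * x.2.1) : ℝ) : ℂ) ^ (-(1 / 2 + t * I : ℂ)) * (win T τ t : ℂ) =
      ∫ t : ℝ, ((cf G T x / ((x.1 : ℝ) * x.2.1) : ℝ) : ℂ) *
        (MP069854.chi (1 / 2 + t * I) * riemannZeta (1 / 2 + t * I) ^ 3 *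
        (((x.2.2 : ℝ) / ((x.1 : ℝ) * x.2.1) : ℝ) : ℂ) ^ (-(1 / 2 + t * I : ℂ)) *
          (win T τ t : ℂ)) := by
    intro x _
    rw [integral_const_mul]
  rw [Finset.sum_congr rfl hrw, ← integral_finsetSum]
  · unfold I2
    refine integral_congr_ae (Eventually.of_forall fun t => ?_)
    simp only
    have hconj : conj (riemannZeta (1 / 2 + t * I)) =
        MP069854.chi (1 / 2 + t * I) * riemannZeta (1 / 2 + t * I) := by
      rw [← MP069854.zeta_one_sub (by simp), ← riemannZeta_conj]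
      congr 1
      have h2 : (starRingEnd ℂ) (2:ℂ) = 2 := map_ofNat _ 2
      simp [h2]
      ring
    have hz : ((‖riemannZeta (1 / 2 + t * I)‖ ^ 2 : ℝ) : ℂ) * riemannZeta (1 / 2 + t * I) =
        MP069854.chi (1 / 2 + t * I) * riemannZeta (1 / 2 + t * I) ^ 3 := by
      have h1 : ((‖riemannZeta (1 / 2 + t * I)‖ ^ 2 : ℝ) : ℂ) =
          riemannZeta (1 / 2 + t * I) * conj (riemannZeta (1 / 2 + t * I)) := by
        rw [Complex.mul_conj, Complex.normSq_eq_norm_sq]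
      rw [h1, hconj]
      ring
    rw [hz]
    unfold BB
    rw [map_sum, Finset.mul_sum, Finset.sum_mul]
    refine Finset.sum_congr rfl fun x hx => ?_
    obtain ⟨h1, h2, h3⟩ := hpos x hx
    have h12 : (0 : ℝ) < (x.1 : ℝ) * x.2.1 := mul_pos h1 h2
    have hr : 0 < (x.2.2 : ℝ) / ((x.1 : ℝ) * x.2.1) := div_pos h3 h12
    set r := (x.2.2 : ℝ) / ((x.1 : ℝ) * x.2.1) with hrdef
    have hlog : Real.log r = Real.log x.2.2 - Real.log x.1 - Real.log x.2.1 := by
      rw [hrdef, Real.log_div h3.ne' h12.ne', Real.log_mul h1.ne' h2.ne']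
      ring
    have hcp : (r : ℂ) ^ (-(1 / 2 + t * I : ℂ)) =
        ((r ^ (-(1 / 2) : ℝ) : ℝ) : ℂ) *
          cexp (-(((t * (Real.log x.2.2 - Real.log x.1 - Real.log x.2.1) : ℝ) : ℂ) * I)) := by
      have hr' : (r : ℂ) ≠ 0 := by exact_mod_cast hr.ne'
      rw [← hlog, Real.rpow_def_of_pos hr, Complex.ofReal_exp, ← Complex.exp_add,
        Complex.cpow_def_of_ne_zero hr', ← Complex.ofReal_log hr.le]
      congr 1
      push_cast
      ring
    have hcf : cf G T x / ((x.1 : ℝ) * x.2.1) * r ^ (-(1 / 2) : ℝ) =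
        cf G T x * (√((x.1 : ℝ) * x.2.1 * x.2.2))⁻¹ := by
      rw [Real.rpow_neg hr.le, ← Real.sqrt_eq_rpow, hrdef, Real.sqrt_div h3.le,
        Real.sqrt_mul h12.le]
      have e1 : √((x.1 : ℝ) * x.2.1) ≠ 0 := (Real.sqrt_pos.mpr h12).ne'
      have e2 : √(x.2.2 : ℝ) ≠ 0 := (Real.sqrt_pos.mpr h3).ne'
      have e3 : √((x.1 : ℝ) * x.2.1) * √((x.1 : ℝ) * x.2.1) = (x.1 : ℝ) * x.2.1 :=
        Real.mul_self_sqrt h12.le
      rw [inv_div, mul_inv]
      rw [div_mul_eq_mul_div, div_eq_iff h12.ne']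
      calc cf G T x * (√((x.1 : ℝ) * x.2.1) / √(x.2.2 : ℝ))
          = cf G T x * ((√((x.1 : ℝ) * x.2.1))⁻¹ * (√(x.2.2 : ℝ))⁻¹) *
            (√((x.1 : ℝ) * x.2.1) * √((x.1 : ℝ) * x.2.1)) := by
            field_simp
        _ = _ := by rw [e3]
    rw [hcp, map_mul, Complex.conj_ofReal, ← Complex.exp_conj, map_mul, Complex.conj_ofReal,
      Complex.conj_I, ← hcf]
    push_cast
    rw [mul_neg]
    ring
  · intro x hx
    obtain ⟨h1, h2, h3⟩ := hpos x hx
    exact (I2_expand_int hT τ (div_pos h3 (mul_pos h1 h2))).const_mul _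

end S6

end

section

namespace S6
open Complex MeasureTheory Filter Topology Set
open scoped Real ComplexConjugate

-- BEGIN S3_vert

theorem S3_vert_cpow {N : ℕ} (hN : 0 < N) {Z : ℂ} (hZ : Z ≠ 0) (s : ℂ) :
    ((N : ℂ) * Z) ^ s = (N : ℂ) ^ s * Z ^ s := by
  have hN' : (N : ℂ) ≠ 0 := by exact_mod_cast hN.ne'
  rw [cpow_def_of_ne_zero (mul_ne_zero hN' hZ), cpow_def_of_ne_zero hN', cpow_def_of_ne_zero hZ,
    ← Complex.exp_add]
  congr 1
  have h := Complex.log_ofReal_mul (r := (N : ℝ)) (by exact_mod_cast hN) hZ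
  have h2 : Complex.log (N : ℂ) = ((Real.log N : ℝ) : ℂ) := Complex.natCast_log.symm
  rw [h2, show (N : ℂ) = ((N : ℝ) : ℂ) by push_cast; rfl, h]
  ring

/-- the index `n₁n₂n₃` -/
def S3_vert_m (n : ℕ × ℕ × ℕ) : ℕ := (n.1 + 1) * (n.2.1 + 1) * (n.2.2 + 1)

theorem S3_vert_m_pos (n : ℕ × ℕ × ℕ) : 0 < S3_vert_m n := by
  unfold S3_vert_m
  positivity

theorem S3_vert_summable : Summable fun n : ℕ × ℕ × ℕ => (((S3_vert_m n : ℕ) : ℝ) ^ 2)⁻¹ := by
  have h1 : Summable fun k : ℕ => (((k : ℝ) + 1) ^ 2)⁻¹ := by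
    have h := (summable_nat_add_iff (f := fun k : ℕ => ((k : ℝ) ^ 2)⁻¹) 1).2
      (Real.summable_nat_pow_inv.2 (by norm_num))
    refine h.congr fun k => ?_
    push_cast
    rfl
  have h0 : ∀ k : ℕ, 0 ≤ (((k : ℝ) + 1) ^ 2)⁻¹ := fun k => by positivity
  have h2 := h1.mul_of_nonneg h1 (fun k => h0 k) (fun k => h0 k)
  have h3 := h1.mul_of_nonneg h2 (fun k => h0 k) (fun k => mul_nonneg (h0 _) (h0 _))
  refine h3.congr fun n => ?_
  unfold S3_vert_m
  push_cast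
  rw [mul_pow, mul_pow, mul_inv, mul_inv, mul_assoc]

theorem S3_vert_norm (n : ℕ × ℕ × ℕ) (y : ℝ) :
    ‖((S3_vert_m n : ℕ) : ℂ) ^ (-(2 + y * I : ℂ))‖ = (((S3_vert_m n : ℕ) : ℝ) ^ 2)⁻¹ := by
  rw [norm_natCast_cpow_of_pos (S3_vert_m_pos n)]
  have h : (-(2 + y * I : ℂ)).re = -((2 : ℕ) : ℝ) := by simp
  rw [h, Real.rpow_neg (Nat.cast_nonneg _), Real.rpow_natCast]

theorem S3_vert (q : ℕ) [NeZero q] (h : ℕ) {Z : ℂ} (hZ : 0 < Z.re) :
    Integrable (fun y : ℝ => Gamma (2 + y * I) * Z ^ (-(2 + y * I : ℂ)) * DD q h (2 + y * I)) ∧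
    S3 (2 * π * I * (h / q) + Z) = (1 / (2 * π)) *
      ∫ y : ℝ, Gamma (2 + y * I) * Z ^ (-(2 + y * I : ℂ)) * DD q h (2 + y * I) := by
  have hZ0 : Z ≠ 0 := by
    rintro rfl
    simp at hZ
  have hq : (q : ℂ) ≠ 0 := by exact_mod_cast NeZero.ne q
  set G : ℝ → ℂ := fun y => Gamma (2 + y * I) * Z ^ (-(2 + y * I : ℂ)) with hG
  have hGi : Integrable G := by
    have := (exp_mellin (c := 2) two_pos hZ).1
    simpa only [ofReal_ofNat] using this
  set e : ℕ × ℕ × ℕ → ℂ := fun n =>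
    ZMod.stdAddChar (-((h : ZMod q) * ((S3_vert_m n : ℕ) : ZMod q))) with he
  have he1 : ∀ n, ‖e n‖ = 1 := by
    intro n
    simp only [he, ZMod.stdAddChar_apply, Circle.norm_coe]
  set P : ℕ × ℕ × ℕ → ℝ → ℂ := fun n y => e n * ((S3_vert_m n : ℕ) : ℂ) ^ (-(2 + y * I : ℂ))
    with hP
  have hPn : ∀ n y, ‖P n y‖ = (((S3_vert_m n : ℕ) : ℝ) ^ 2)⁻¹ := by
    intro n y
    simp only [hP]
    rw [norm_mul, he1, one_mul, S3_vert_norm]
  have hPc : ∀ n, Continuous (P n) := by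
    intro n
    have hm : ((S3_vert_m n : ℕ) : ℂ) ≠ 0 := by exact_mod_cast (S3_vert_m_pos n).ne'
    simp only [hP]
    refine continuous_const.mul ?_
    refine Continuous.const_cpow (by fun_prop) (Or.inl hm)
  have hDs : ∀ y : ℝ, HasSum (fun n => P n y) (DD q h (2 + y * I)) := by
    intro y
    have h1 := DD_hasSum q (h : ZMod q) (s := 2 + y * I) (by simp)
    exact h1
  have hDc : Continuous fun y : ℝ => DD q h (2 + y * I) := by
    have h1 : (fun y : ℝ => DD q h (2 + y * I)) = fun y => ∑' n, P n y := by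
      funext y
      exact (hDs y).tsum_eq.symm
    rw [h1]
    exact continuous_tsum hPc S3_vert_summable fun n y => (hPn n y).le
  have hDb : ∀ y : ℝ, ‖DD q h (2 + y * I)‖ ≤ ∑' n, (((S3_vert_m n : ℕ) : ℝ) ^ 2)⁻¹ := by
    intro y
    rw [← (hDs y).tsum_eq]
    refine tsum_of_norm_bounded S3_vert_summable.hasSum fun n => (hPn n y).le
  have hFi : ∀ n, Integrable (fun y => P n y * G y) := fun n =>
    hGi.bdd_mul (hPc n).aestronglyMeasurable (Eventually.of_forall fun y => (hPn n y).le)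
  have hFn : ∀ n, ∫ y, ‖P n y * G y‖ = (((S3_vert_m n : ℕ) : ℝ) ^ 2)⁻¹ * ∫ y, ‖G y‖ := by
    intro n
    rw [← integral_const_mul]
    refine integral_congr_ae (Eventually.of_forall fun y => ?_)
    simp only
    rw [norm_mul, hPn]
  have hFs : Summable fun n => ∫ y, ‖P n y * G y‖ := by
    simp only [hFn]
    exact S3_vert_summable.mul_right _
  have hsum := hasSum_integral_of_summable_integral_norm hFi hFs
  have hterm : ∀ n, cexp (-(((S3_vert_m n : ℕ) : ℂ) * (2 * π * I * (h / q) + Z)))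
      = (1 / (2 * π)) * ∫ y, P n y * G y := by
    intro n
    have hm : (0 : ℝ) < ((S3_vert_m n : ℕ) : ℝ) := by exact_mod_cast S3_vert_m_pos n
    have hmZ : 0 < (((S3_vert_m n : ℕ) : ℂ) * Z).re := by
      rw [show ((S3_vert_m n : ℕ) : ℂ) = (((S3_vert_m n : ℕ) : ℝ) : ℂ) by push_cast; rfl,
        re_ofReal_mul]
      positivity
    have h1 := (exp_mellin (c := 2) two_pos hmZ).2
    simp only [ofReal_ofNat] at h1
    have h2 : -(((S3_vert_m n : ℕ) : ℂ) * (2 * π * I * (h / q) + Z))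
        = 2 * π * I * ((-((h : ℤ) * (S3_vert_m n : ℕ)) : ℤ) : ℂ) / q
          + -(((S3_vert_m n : ℕ) : ℂ) * Z) := by
      push_cast
      ring
    have h3 : cexp (2 * π * I * ((-((h : ℤ) * (S3_vert_m n : ℕ)) : ℤ) : ℂ) / q) = e n := by
      rw [← ZMod.stdAddChar_coe]
      simp only [he]
      congr 1
      push_cast
      ring
    rw [h2, Complex.exp_add, h3, ← h1, mul_left_comm, ← integral_const_mul]
    congr 1
    refine integral_congr_ae (Eventually.of_forall fun y => ?_)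
    simp only [hP, hG]
    rw [S3_vert_cpow (S3_vert_m_pos n) hZ0]
    ring
  refine ⟨?_, ?_⟩
  · exact hGi.mul_bdd hDc.aestronglyMeasurable (Eventually.of_forall hDb)
  · have h1 : S3 (2 * π * I * (h / q) + Z)
        = ∑' n, cexp (-(((S3_vert_m n : ℕ) : ℂ) * (2 * π * I * (h / q) + Z))) := rfl
    rw [h1]
    simp only [hterm]
    rw [tsum_mul_left, hsum.tsum_eq]
    congr 1
    refine integral_congr_ae (Eventually.of_forall fun y => ?_)
    simp only
    rw [tsum_mul_right, (hDs y).tsum_eq, mul_comm]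

end S6

end

section

namespace S6
open Complex MeasureTheory Filter Topology Set
open scoped Real ComplexConjugate

-- BEGIN mellin_zeta3

theorem mz3_W_eq (T : ℝ) {r : ℝ} (hr : 0 < r) (ξ : ℝ) :
    2 * π * I * r * cexp (-(om T ξ)) =
      cexp (((Real.log (2 * π * r) : ℝ) : ℂ) + ((π / 2 : ℝ) : ℂ) * I - om T ξ) := by
  have h2 : 0 < 2 * π * r := by positivity
  rw [sub_eq_add_neg, Complex.exp_add, Complex.exp_add, ← Complex.ofReal_exp, Real.exp_log h2]
  have hI : cexp (((π / 2 : ℝ) : ℂ) * I) = I := by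
    push_cast
    exact Complex.exp_pi_div_two_mul_I
  rw [hI]
  push_cast
  ring

theorem mz3_om_im (T ξ : ℝ) : (om T ξ).im = T⁻¹ := by
  unfold om
  simp

theorem mz3_om_re (T ξ : ℝ) : (om T ξ).re = ξ := by
  unfold om
  simp

theorem mz3_log {T : ℝ} (hT : 1 ≤ T) {r : ℝ} (hr : 0 < r) (ξ : ℝ) :
    Complex.log (2 * π * I * r * cexp (-(om T ξ))) =
      ((Real.log (2 * π * r) : ℝ) : ℂ) + ((π / 2 : ℝ) : ℂ) * I - om T ξ := by
  rw [mz3_W_eq T hr ξ]
  have h1 : T⁻¹ ≤ 1 := inv_le_one_of_one_le₀ hT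
  have h0 : 0 < T⁻¹ := inv_pos.2 (by linarith only [hT])
  have hpi := Real.pi_gt_three
  have him : (((Real.log (2 * π * r) : ℝ) : ℂ) + ((π / 2 : ℝ) : ℂ) * I - om T ξ).im
      = π / 2 - T⁻¹ := by
    rw [Complex.sub_im, mz3_om_im, Complex.add_im, Complex.ofReal_im, Complex.im_ofReal_mul,
      Complex.I_im]
    ring
  apply Complex.log_exp
  · rw [him]; linarith only [h1, hpi]
  · rw [him]; linarith only [h0, hpi]

theorem mz3_ne {T : ℝ} {r : ℝ} (hr : 0 < r) (ξ : ℝ) :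
    2 * π * I * r * cexp (-(om T ξ)) ≠ 0 := by
  rw [mz3_W_eq T hr ξ]
  exact Complex.exp_ne_zero _

theorem mz3_re_pos {T : ℝ} (hT : 1 ≤ T) {r : ℝ} (hr : 0 < r) (ξ : ℝ) :
    0 < (2 * π * I * r * cexp (-(om T ξ))).re := by
  rw [mz3_W_eq T hr ξ, Complex.exp_re]
  have h1 : T⁻¹ ≤ 1 := inv_le_one_of_one_le₀ hT
  have h0 : 0 < T⁻¹ := inv_pos.2 (by linarith only [hT])
  have hpi := Real.pi_gt_three
  refine mul_pos (Real.exp_pos _) (Real.cos_pos_of_mem_Ioo ?_)
  have him : (((Real.log (2 * π * r) : ℝ) : ℂ) + ((π / 2 : ℝ) : ℂ) * I - om T ξ).im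
      = π / 2 - T⁻¹ := by
    rw [Complex.sub_im, mz3_om_im, Complex.add_im, Complex.ofReal_im, Complex.im_ofReal_mul,
      Complex.I_im]
    ring
  rw [him]
  constructor <;> linarith only [h1, hpi, h0]

theorem mz3_cpow {T : ℝ} (hT : 1 ≤ T) {r : ℝ} (hr : 0 < r) (ξ : ℝ) (s : ℂ) :
    (2 * π * I * r * cexp (-(om T ξ))) ^ (-s) =
      (2 * π : ℂ) ^ (-s) * (r : ℂ) ^ (-s) * cexp (-(π * I * s / 2)) * cexp (om T ξ * s) := by
  have hpi : 0 < π := Real.pi_pos
  rw [Complex.cpow_def_of_ne_zero (mz3_ne hr ξ), mz3_log hT hr ξ,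
    Complex.cpow_def_of_ne_zero (by
      simp [hpi.ne']),
    Complex.cpow_def_of_ne_zero (by exact_mod_cast hr.ne'),
    ← Complex.exp_add, ← Complex.exp_add, ← Complex.exp_add]
  congr 1
  have e1 : Complex.log (2 * π : ℂ) = ((Real.log (2 * π) : ℝ) : ℂ) := by
    rw [Complex.ofReal_log (by positivity)]
    push_cast
    rfl
  have e2 : Complex.log (r : ℂ) = ((Real.log r : ℝ) : ℂ) := by
    rw [Complex.ofReal_log hr.le]
  rw [e1, e2, Real.log_mul (by positivity) hr.ne']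
  push_cast
  ring

theorem mz3_cpow_shift {T : ℝ} (hT : 1 ≤ T) {r : ℝ} (hr : 0 < r) (ξ : ℝ) (s : ℂ) :
    (2 * π * I * r * cexp (-(om T ξ))) ^ (-s) =
      (2 * π * I * r * cexp (-(om T 0))) ^ (-s) * cexp (ξ * s) := by
  have e : cexp (om T ξ * s) = cexp (om T 0 * s) * cexp (ξ * s) := by
    rw [← Complex.exp_add]
    congr 1
    unfold om
    push_cast
    ring
  rw [mz3_cpow hT hr, mz3_cpow hT hr, e]
  ring

/-- The Fubini step. -/
theorem mz3_fubini {T : ℝ} (hT : Real.exp 1 ≤ T) (τ : ℝ) {r : ℝ} (hr : 0 < r) {σ : ℝ} (hσ : 0 < σ)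
    {f : ℝ → ℂ} (hf : Continuous f) {M : ℝ} (hM : ∀ t, ‖f t‖ ≤ M) :
    Integrable (fun ξ : ℝ => ker T τ ξ * ∫ t : ℝ, Gamma (σ + t * I) *
      (2 * π * I * r * cexp (-(om T ξ))) ^ (-(σ + t * I : ℂ)) * f t) ∧
    ∫ t : ℝ, Xm (σ + t * I) * f t * (r : ℂ) ^ (-(σ + t * I : ℂ)) * VV T τ (σ + t * I) =
      ∫ ξ : ℝ, ker T τ ξ * ∫ t : ℝ, Gamma (σ + t * I) *
        (2 * π * I * r * cexp (-(om T ξ))) ^ (-(σ + t * I : ℂ)) * f t := by
  have hT2 : 2 ≤ T := by
    have := Real.add_one_le_exp (1 : ℝ)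
    linarith only [hT, this]
  have hT1 : 1 < T := by linarith only [hT2]
  have hT1' : 1 ≤ T := hT1.le
  -- integrability in `ξ`
  have hA : Integrable (fun ξ : ℝ => ker T τ ξ * cexp ((σ : ℂ) * ξ)) := by
    have h := (gauss_ker hT1 τ (σ : ℂ)).1.mul_const (cexp (-(((T⁻¹ : ℝ) : ℂ) * I * σ)))
    refine h.congr (Filter.Eventually.of_forall fun ξ => ?_)
    simp only
    rw [mul_assoc, ← Complex.exp_add]
    congr 2
    unfold om
    ring
  -- integrability in `t`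
  have hB : Integrable (fun t : ℝ => Gamma (σ + t * I) *
      (2 * π * I * r * cexp (-(om T 0))) ^ (-(σ + t * I : ℂ)) * f t) := by
    have h := (exp_mellin hσ (mz3_re_pos hT1' hr 0)).1
    exact h.mul_bdd hf.aestronglyMeasurable (Filter.Eventually.of_forall hM)
  have hG0 := hA.mul_prod hB
  have hG : Integrable (fun z : ℝ × ℝ => ker T τ z.1 * (Gamma (σ + z.2 * I) *
      (2 * π * I * r * cexp (-(om T z.1))) ^ (-(σ + z.2 * I : ℂ)) * f z.2))
      (volume.prod volume) := by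
    have hb : Continuous (fun z : ℝ × ℝ => cexp (((z.1 * z.2 : ℝ) : ℂ) * I)) := by
      fun_prop
    have h := hG0.mul_bdd (c := 1) hb.aestronglyMeasurable (Filter.Eventually.of_forall fun z => by
      rw [Complex.norm_exp_ofReal_mul_I])
    refine h.congr (Filter.Eventually.of_forall fun z => ?_)
    simp only
    rw [mz3_cpow_shift hT1' hr z.1]
    have e : cexp ((z.1 : ℂ) * (σ + z.2 * I)) =
        cexp ((σ : ℂ) * z.1) * cexp (((z.1 * z.2 : ℝ) : ℂ) * I) := by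
      rw [← Complex.exp_add]
      congr 1
      push_cast
      ring
    rw [e]
    ring
  have hI1 : ∀ ξ : ℝ, (∫ t : ℝ, ker T τ ξ * (Gamma (σ + t * I) *
      (2 * π * I * r * cexp (-(om T ξ))) ^ (-(σ + t * I : ℂ)) * f t)) =
      ker T τ ξ * ∫ t : ℝ, Gamma (σ + t * I) *
      (2 * π * I * r * cexp (-(om T ξ))) ^ (-(σ + t * I : ℂ)) * f t := fun ξ => by
    rw [integral_const_mul]
  refine ⟨?_, ?_⟩
  · refine hG.integral_prod_left.congr (Filter.Eventually.of_forall fun ξ => ?_)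
    exact hI1 ξ
  · have hsw := integral_integral_swap (f := fun (ξ t : ℝ) => ker T τ ξ * (Gamma (σ + t * I) *
      (2 * π * I * r * cexp (-(om T ξ))) ^ (-(σ + t * I : ℂ)) * f t)) hG
    rw [integral_congr_ae (Filter.Eventually.of_forall hI1)] at hsw
    rw [hsw]
    refine integral_congr_ae (Filter.Eventually.of_forall fun t => ?_)
    simp only
    have e1 : ∀ ξ : ℝ, ker T τ ξ * (Gamma (σ + t * I) *
        (2 * π * I * r * cexp (-(om T ξ))) ^ (-(σ + t * I : ℂ)) * f t) =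
        (Gamma (σ + t * I) * ((2 * π : ℂ) ^ (-(σ + t * I : ℂ)) * (r : ℂ) ^ (-(σ + t * I : ℂ)) *
          cexp (-(π * I * (σ + t * I) / 2))) * f t) *
          (ker T τ ξ * cexp (om T ξ * (σ + t * I))) := by
      intro ξ
      rw [mz3_cpow hT1' hr ξ]
      ring
    simp_rw [e1]
    rw [integral_const_mul, (gauss_ker hT1 τ (σ + t * I)).2]
    unfold Xm
    ring

theorem mz3_VV_half {T : ℝ} (hT : 1 < T) (τ t : ℝ) :
    VV T τ (1 / 2 + t * I) = (win T τ t : ℂ) := by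
  unfold VV win
  rw [Complex.ofReal_exp]
  congr 1
  have hH : (HH T : ℂ) ≠ 0 := by
    have h : HH T ≠ 0 := by
      unfold HH
      exact div_ne_zero (by linarith only [hT]) (Real.log_pos hT).ne'
    exact_mod_cast h
  push_cast
  have e : (1 / 2 + (t : ℂ) * I - (1 / 2 + τ * I)) ^ 2 = -((t : ℂ) - τ) ^ 2 := by
    have hI : I ^ 2 = -1 := Complex.I_sq
    linear_combination ((t : ℂ) - τ) ^ 2 * hI
  rw [e]
  field_simp

/-- **R5.** -/
theorem mellin_one {T : ℝ} (hT : Real.exp 1 ≤ T) (τ : ℝ) {y : ℝ} (hy : 0 < y) :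
    ∫ t : ℝ, Xm (1 / 2 + t * I) * (y : ℂ) ^ (-(1 / 2 + t * I : ℂ)) * (win T τ t : ℂ) =
      2 * π * ∫ ξ : ℝ, ker T τ ξ * cexp (-(2 * π * I * y * cexp (-(om T ξ)))) := by
  have hT2 : 2 ≤ T := by
    have := Real.add_one_le_exp (1 : ℝ)
    linarith only [hT, this]
  have hT1 : 1 < T := by linarith only [hT2]
  have hpi : (π : ℂ) ≠ 0 := by exact_mod_cast Real.pi_pos.ne'
  have h := (mz3_fubini hT τ hy (σ := 1 / 2) (by norm_num) (f := fun _ => (1 : ℂ))
    continuous_const (M := 1) (fun t => by simp)).2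
  have hc : (((1 / 2 : ℝ)) : ℂ) = 1 / 2 := by push_cast; rfl
  simp only [hc, mul_one] at h
  have e1 : ∀ t : ℝ, Xm (1 / 2 + t * I) * (y : ℂ) ^ (-(1 / 2 + t * I : ℂ)) * (win T τ t : ℂ) =
      Xm (1 / 2 + t * I) * (y : ℂ) ^ (-(1 / 2 + t * I : ℂ)) * VV T τ (1 / 2 + t * I) := by
    intro t
    rw [mz3_VV_half hT1]
  simp_rw [e1]
  rw [h, ← integral_const_mul]
  refine integral_congr_ae (Filter.Eventually.of_forall fun ξ => ?_)
  simp only
  have h2 := (exp_mellin (c := 1 / 2) (by norm_num) (mz3_re_pos hT1.le hy ξ)).2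
  rw [← h2, hc]
  generalize (∫ t : ℝ, Gamma (1 / 2 + t * I) *
    (2 * π * I * y * cexp (-(om T ξ))) ^ (-(1 / 2 + t * I : ℂ))) = Q
  field_simp

theorem mz3_DD (s : ℂ) : DD 1 ((0 : ℕ) : ZMod 1) s = riemannZeta s ^ 3 := by
  unfold DD
  have h0 : ∀ a : ZMod 1, a = 0 := fun a => Subsingleton.elim _ _
  have hs : ∀ g : ZMod 1 → ℂ, ∑ a : ZMod 1, g a = g 0 := by
    intro g
    exact Fintype.sum_eq_single 0 fun x hx => absurd (h0 x) hx
  simp only [hs]
  simp only [mul_zero, neg_zero, AddChar.map_zero_eq_one, map_zero, HurwitzZeta.hurwitzZeta_zero,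
    Nat.cast_one, one_cpow, one_mul]
  ring

/-- **R4.** -/
theorem mellin_zeta3 {T : ℝ} (hT : Real.exp 1 ≤ T) (τ : ℝ) {r : ℝ} (hr : 0 < r) :
    Integrable (fun ξ : ℝ => ker T τ ξ * S3 (2 * π * I * r * cexp (-(om T ξ)))) ∧
    ∫ t : ℝ, Xm (2 + t * I) * riemannZeta (2 + t * I) ^ 3 *
        (r : ℂ) ^ (-(2 + t * I : ℂ)) * VV T τ (2 + t * I) =
      2 * π * ∫ ξ : ℝ, ker T τ ξ * S3 (2 * π * I * r * cexp (-(om T ξ))) := by
  have hT2 : 2 ≤ T := by
    have := Real.add_one_le_exp (1 : ℝ)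
    linarith only [hT, this]
  have hT1 : 1 < T := by linarith only [hT2]
  have hpi : (π : ℂ) ≠ 0 := by exact_mod_cast Real.pi_pos.ne'
  have hc : ((2 : ℝ) : ℂ) = 2 := by push_cast; rfl
  have hcont : Continuous fun t : ℝ => riemannZeta (2 + t * I) ^ 3 := by
    refine Continuous.pow ?_ 3
    refine continuous_iff_continuousAt.2 fun t => ?_
    have hne : (2 + t * I : ℂ) ≠ 1 := by
      intro h
      have := congrArg Complex.re h
      simp at this
    have h1 : ContinuousAt riemannZeta (2 + t * I) :=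
      (differentiableAt_riemannZeta hne).continuousAt
    have h2 : ContinuousAt (fun t : ℝ => (2 + t * I : ℂ)) t := by fun_prop
    exact ContinuousAt.comp (f := fun t : ℝ => (2 + t * I : ℂ)) h1 h2
  obtain ⟨M, hM⟩ : ∃ M : ℝ, ∀ t : ℝ, ‖riemannZeta (2 + t * I) ^ 3‖ ≤ M := by
    refine ⟨(∑' n : ℕ, (1 / ((n : ℝ) + 1) ^ 2)) ^ 3, fun t => ?_⟩
    rw [norm_pow]
    refine pow_le_pow_left₀ (norm_nonneg _) ?_ 3
    have hre : 1 < (2 + t * I : ℂ).re := by simp
    rw [zeta_eq_tsum_one_div_nat_add_one_cpow hre]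
    have hsum : Summable fun n : ℕ => 1 / ((n : ℝ) + 1) ^ 2 := by
      have h := (summable_nat_add_iff (f := fun k : ℕ => ((k : ℝ) ^ 2)⁻¹) 1).2
        (Real.summable_nat_pow_inv.2 (by norm_num))
      refine h.congr fun k => ?_
      push_cast
      rw [one_div]
    have hterm : ∀ n : ℕ, ‖1 / ((n : ℂ) + 1) ^ (2 + t * I : ℂ)‖ = 1 / ((n : ℝ) + 1) ^ 2 := by
      intro n
      have hn : (0 : ℝ) < (n : ℝ) + 1 := by positivity
      rw [norm_div, norm_one]
      have e : ((n : ℂ) + 1) = (((n : ℝ) + 1 : ℝ) : ℂ) := by push_cast; rfl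
      rw [e, Complex.norm_cpow_eq_rpow_re_of_pos hn]
      have hre2 : (2 + t * I : ℂ).re = ((2 : ℕ) : ℝ) := by simp
      rw [hre2, Real.rpow_natCast]
    refine (norm_tsum_le_tsum_norm (by simp_rw [hterm]; exact hsum)).trans ?_
    simp_rw [hterm]
    exact le_rfl
  have h := mz3_fubini hT τ hr (σ := 2) (by norm_num)
    (f := fun t => riemannZeta (2 + t * I) ^ 3) hcont hM
  simp only [hc] at h
  have hS : ∀ ξ : ℝ, S3 (2 * π * I * r * cexp (-(om T ξ))) = (1 / (2 * π)) *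
      ∫ t : ℝ, Gamma (2 + t * I) * (2 * π * I * r * cexp (-(om T ξ))) ^ (-(2 + t * I : ℂ)) *
        riemannZeta (2 + t * I) ^ 3 := by
    intro ξ
    have h1 := (S3_vert 1 0 (mz3_re_pos hT1.le hr ξ)).2
    simp only [mz3_DD] at h1
    rw [← h1]
    congr 1
    simp
  have hS' : ∀ ξ : ℝ, ker T τ ξ * S3 (2 * π * I * r * cexp (-(om T ξ))) = (1 / (2 * π)) *
      (ker T τ ξ * ∫ t : ℝ, Gamma (2 + t * I) *
        (2 * π * I * r * cexp (-(om T ξ))) ^ (-(2 + t * I : ℂ)) *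
        riemannZeta (2 + t * I) ^ 3) := by
    intro ξ
    rw [hS]
    ring
  simp_rw [hS']
  refine ⟨h.1.const_mul _, ?_⟩
  have hk : (2 * (π : ℂ)) * (1 / (2 * π)) = 1 := by field_simp
  rw [h.2, integral_const_mul, ← mul_assoc, hk, one_mul]

end S6

end

section

namespace S6
open Complex MeasureTheory Filter Topology Set
open scoped Real ComplexConjugate

-- BEGIN I2_rep

/-- polynomial times window -/
theorem I2_rep_dom {T : ℝ} (hT : 1 < T) (τ : ℝ) (k : ℕ) :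
    Integrable (fun t : ℝ => (1 + |t|) ^ k * win T τ t) := by
  have hH := I2_expand_HH hT
  set b : ℝ := (HH T ^ 2)⁻¹ with hb
  have hb0 : 0 < b := by rw [hb]; positivity
  have h1 : Integrable (fun u : ℝ => Real.exp (-b * u ^ 2)) := integrable_exp_neg_mul_sq hb0
  have h2 : Integrable (fun u : ℝ => |u| ^ k * Real.exp (-b * u ^ 2)) := by
    have h3 := (integrable_rpow_mul_exp_neg_mul_sq hb0 (s := (k : ℝ))
      (by have := Nat.cast_nonneg (α := ℝ) k; linarith only [])).norm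
    refine h3.congr (Eventually.of_forall fun u => ?_)
    simp only
    rw [norm_mul, Real.norm_eq_abs, Real.norm_eq_abs, abs_of_pos (Real.exp_pos _)]
    congr 1
    rw [Real.rpow_natCast, abs_pow]
  have h3 : Integrable (fun u : ℝ => (1 + |τ|) ^ k * (2 ^ k * (Real.exp (-b * u ^ 2) +
      |u| ^ k * Real.exp (-b * u ^ 2)))) := ((h1.add h2).const_mul (2 ^ k)).const_mul _
  have h4 := h3.comp_sub_right τ
  refine h4.mono' ?_ (Eventually.of_forall fun t => ?_)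
  · apply Continuous.aestronglyMeasurable
    unfold win
    fun_prop
  · have hw : win T τ t = Real.exp (-b * (t - τ) ^ 2) := by
      unfold win
      congr 1
      rw [hb]
      field_simp
    rw [hw, norm_mul, Real.norm_eq_abs, Real.norm_eq_abs, abs_of_pos (Real.exp_pos _),
      abs_of_nonneg (by positivity)]
    have h5 : 1 + |t| ≤ (1 + |τ|) * (1 + |t - τ|) := by
      have h6 : |t| ≤ |t - τ| + |τ| := by
        have := abs_add_le (t - τ) τ
        simpa using this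
      have h7 : 0 ≤ |τ| * |t - τ| := by positivity
      linarith only [h6, h7]
    have h8 : (1 + |t - τ|) ^ k ≤ 2 ^ k * (1 + |t - τ| ^ k) := by
      have h9 : 0 ≤ |t - τ| := abs_nonneg _
      have h10 : 1 + |t - τ| ≤ 2 * max 1 |t - τ| := by
        have := le_max_left 1 |t - τ|
        have := le_max_right 1 |t - τ|
        linarith
      calc (1 + |t - τ|) ^ k ≤ (2 * max 1 |t - τ|) ^ k :=
            pow_le_pow_left₀ (by positivity) h10 k
        _ = 2 ^ k * (max 1 |t - τ|) ^ k := mul_pow _ _ _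
        _ ≤ 2 ^ k * (1 + |t - τ| ^ k) := by
            refine mul_le_mul_of_nonneg_left ?_ (by positivity)
            rcases le_total 1 |t - τ| with h | h
            · rw [max_eq_right h]
              linarith only []
            · rw [max_eq_left h, one_pow]
              have : 0 ≤ |t - τ| ^ k := by positivity
              linarith only [this]
    have h9 : (1 + |t|) ^ k ≤ (1 + |τ|) ^ k * (2 ^ k * (1 + |t - τ| ^ k)) := by
      calc (1 + |t|) ^ k ≤ ((1 + |τ|) * (1 + |t - τ|)) ^ k :=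
            pow_le_pow_left₀ (by positivity) h5 k
        _ = (1 + |τ|) ^ k * (1 + |t - τ|) ^ k := by rw [mul_pow]
        _ ≤ _ := mul_le_mul_of_nonneg_left h8 (by positivity)
    calc (1 + |t|) ^ k * Real.exp (-b * (t - τ) ^ 2)
        ≤ ((1 + |τ|) ^ k * (2 ^ k * (1 + |t - τ| ^ k))) * Real.exp (-b * (t - τ) ^ 2) :=
          mul_le_mul_of_nonneg_right h9 (Real.exp_pos _).le
      _ = _ := by ring

theorem I2_rep_xcont : Continuous fun t : ℝ => Xm (1 / 2 + t * I) := by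
  rw [continuous_iff_continuousAt]
  intro y
  have hG : DifferentiableAt ℂ Gamma (1/2 + y * I) := by
    apply differentiableAt_Gamma
    intro m h
    have h1 := congrArg Complex.re h
    simp at h1
    have : (0 : ℝ) ≤ m := Nat.cast_nonneg m
    norm_num at h1
    linarith only [h1]
  have hpi : (2 * (π : ℂ)) ≠ 0 := by
    simp [Real.pi_ne_zero]
  have h : ContinuousAt Xm (1/2 + y * I) := by
    unfold Xm
    refine ContinuousAt.mul (ContinuousAt.mul ?_ hG.continuousAt) ?_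
    · exact (continuousAt_id.neg).const_cpow (Or.inl hpi)
    · fun_prop
  exact ContinuousAt.comp (f := fun y : ℝ => (1/2 + y * I : ℂ)) (g := Xm) h
    (by fun_prop)

theorem I2_rep_zb : ∃ C : ℝ, 1 ≤ C ∧ ∀ t : ℝ, ‖riemannZeta (1 / 2 + t * I)‖ ≤ C * (1 + |t|) := by
  obtain ⟨C, hC1, hC⟩ := MP069854.zeta_growth'
  refine ⟨C, hC1, fun t => ?_⟩
  refine (hC _ (by simp) (MP069854.dist_one_of_re (by simp))).trans ?_
  refine mul_le_mul_of_nonneg_left ?_ (by linarith only [hC1])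
  have h1 := Complex.norm_le_abs_re_add_abs_im (1/2 + t * I)
  have h2 : (1/2 + (t:ℂ) * I).re = 1/2 := by simp
  have h3 : (1/2 + (t:ℂ) * I).im = t := by simp
  rw [h2, h3] at h1
  have h4 : |(1/2:ℝ)| = 1/2 := by norm_num
  rw [h4] at h1
  linarith only [h1]

theorem I2_rep_rn {r : ℝ} (hr : 0 < r) (t : ℝ) :
    ‖(r : ℂ) ^ (-(1 / 2 + t * I : ℂ))‖ = r ^ (-(1 / 2) : ℝ) := by
  rw [Complex.norm_cpow_eq_rpow_re_of_pos hr]
  congr 1
  simp

theorem I2_rep_int {T : ℝ} (hT : 1 < T) (τ : ℝ) {r : ℝ} (hr : 0 < r) :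
    Integrable (fun t : ℝ => Xm (1 / 2 + t * I) * riemannZeta (1 / 2 + t * I) ^ 3 *
        (r : ℂ) ^ (-(1 / 2 + t * I : ℂ)) * (win T τ t : ℂ)) := by
  obtain ⟨C, hC1, hC⟩ := I2_rep_zb
  have h := (I2_expand_dom hT τ).const_mul (2 * C ^ 3 * r ^ (-(1 / 2) : ℝ))
  refine h.mono' ?_ (Eventually.of_forall fun t => ?_)
  · apply Continuous.aestronglyMeasurable
    exact ((I2_rep_xcont.mul (I2_expand_zcont.pow 3)).mul (I2_expand_rcont hr)).mul
      (Complex.continuous_ofReal.comp (I2_expand_wcont T τ))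
  · have hw : 0 < win T τ t := Real.exp_pos _
    have hx : ‖Xm (1 / 2 + t * I)‖ ≤ 2 := by
      have h1 : ‖MP069854.chi (1 / 2 + t * I)‖ = 1 := MP069854.chi_norm (by simp)
      have h2 := (chi_sub_Xm t).trans (min_le_left _ _)
      have h3 := norm_sub_norm_le (Xm (1 / 2 + t * I)) (MP069854.chi (1 / 2 + t * I))
      rw [norm_sub_rev] at h3
      linarith only [h1, h2, h3]
    rw [norm_mul, norm_mul, norm_mul, norm_pow, I2_rep_rn hr,
      Complex.norm_real, Real.norm_eq_abs, abs_of_pos hw]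
    have h5 : ‖riemannZeta (1 / 2 + t * I)‖ ^ 3 ≤ C ^ 3 * (1 + |t|) ^ 3 := by
      rw [← mul_pow]
      exact pow_le_pow_left₀ (norm_nonneg _) (hC t) 3
    have h6 : 0 < r ^ (-(1 / 2) : ℝ) := Real.rpow_pos_of_pos hr _
    calc ‖Xm (1 / 2 + t * I)‖ * ‖riemannZeta (1 / 2 + t * I)‖ ^ 3 * r ^ (-(1 / 2) : ℝ) * win T τ t
        ≤ 2 * (C ^ 3 * (1 + |t|) ^ 3) * r ^ (-(1 / 2) : ℝ) * win T τ t := by gcongr
      _ = _ := by ring

theorem I2_rep_diff {T : ℝ} (hT : 1 < T) (τ : ℝ) {r : ℝ} (hr : T ^ (-2 : ℝ) ≤ r) {C : ℝ}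
    (hC1 : 1 ≤ C) (hC : ∀ t : ℝ, ‖riemannZeta (1 / 2 + t * I)‖ ≤ C * (1 + |t|)) {B : ℝ}
    (hB : ∫ t : ℝ, ‖MP069854.chi (1 / 2 + t * I) - Xm (1 / 2 + t * I)‖ * (1 + |t|) ^ 6 * win T τ t
      ≤ B) :
    ‖(∫ t : ℝ, MP069854.chi (1 / 2 + t * I) * riemannZeta (1 / 2 + t * I) ^ 3 *
        (r : ℂ) ^ (-(1 / 2 + t * I : ℂ)) * (win T τ t : ℂ)) -
      ∫ t : ℝ, Xm (1 / 2 + t * I) * riemannZeta (1 / 2 + t * I) ^ 3 *
        (r : ℂ) ^ (-(1 / 2 + t * I : ℂ)) * (win T τ t : ℂ)‖ ≤ C ^ 3 * T * B := by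
  have hT0 : 0 < T := by linarith only [hT]
  have hr0 : 0 < r := (Real.rpow_pos_of_pos hT0 _).trans_le hr
  rw [← integral_sub (I2_expand_int hT τ hr0) (I2_rep_int hT τ hr0)]
  have hrT : r ^ (-(1 / 2) : ℝ) ≤ T := by
    have h1 : r ^ (-(1 / 2) : ℝ) ≤ (T ^ (-2 : ℝ)) ^ (-(1 / 2) : ℝ) :=
      Real.rpow_le_rpow_of_nonpos (Real.rpow_pos_of_pos hT0 _) hr (by norm_num)
    rw [← Real.rpow_mul hT0.le] at h1
    norm_num at h1
    norm_num
    exact h1
  have hint : Integrable (fun t : ℝ => C ^ 3 * T *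
      (‖MP069854.chi (1 / 2 + t * I) - Xm (1 / 2 + t * I)‖ * (1 + |t|) ^ 6 * win T τ t)) := by
    refine Integrable.const_mul ?_ _
    refine (I2_rep_dom hT τ 6).mono' ?_ (Eventually.of_forall fun t => ?_)
    · apply Continuous.aestronglyMeasurable
      exact ((I2_expand_ccont.sub I2_rep_xcont).norm.mul (by fun_prop)).mul (I2_expand_wcont T τ)
    · have hw : 0 < win T τ t := Real.exp_pos _
      rw [norm_mul, norm_mul, norm_norm, Real.norm_eq_abs, Real.norm_eq_abs, abs_of_pos hw,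
        abs_of_nonneg (by positivity)]
      have h2 := (chi_sub_Xm t).trans (min_le_left _ _)
      have h3 : 0 ≤ (1 + |t|) ^ 6 * win T τ t := by positivity
      linarith only [mul_le_mul_of_nonneg_right h2 h3]
  refine (norm_integral_le_of_norm_le hint (Eventually.of_forall fun t => ?_)).trans ?_
  · have hw : 0 < win T τ t := Real.exp_pos _
    have e1 : MP069854.chi (1 / 2 + t * I) * riemannZeta (1 / 2 + t * I) ^ 3 *
        (r : ℂ) ^ (-(1 / 2 + t * I : ℂ)) * (win T τ t : ℂ) - Xm (1 / 2 + t * I) *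
        riemannZeta (1 / 2 + t * I) ^ 3 * (r : ℂ) ^ (-(1 / 2 + t * I : ℂ)) * (win T τ t : ℂ)
        = (MP069854.chi (1 / 2 + t * I) - Xm (1 / 2 + t * I)) * riemannZeta (1 / 2 + t * I) ^ 3 *
        (r : ℂ) ^ (-(1 / 2 + t * I : ℂ)) * (win T τ t : ℂ) := by ring
    rw [e1, norm_mul, norm_mul, norm_mul, norm_pow, I2_rep_rn hr0,
      Complex.norm_real, Real.norm_eq_abs, abs_of_pos hw]
    have h5 : ‖riemannZeta (1 / 2 + t * I)‖ ^ 3 ≤ C ^ 3 * (1 + |t|) ^ 6 := by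
      calc ‖riemannZeta (1 / 2 + t * I)‖ ^ 3 ≤ (C * (1 + |t|)) ^ 3 :=
            pow_le_pow_left₀ (norm_nonneg _) (hC t) 3
        _ = C ^ 3 * (1 + |t|) ^ 3 := mul_pow _ _ _
        _ ≤ C ^ 3 * (1 + |t|) ^ 6 := by
            refine mul_le_mul_of_nonneg_left ?_ (by positivity)
            exact pow_le_pow_right₀ (by have := abs_nonneg t; linarith only [this]) (by norm_num)
    calc ‖MP069854.chi (1 / 2 + t * I) - Xm (1 / 2 + t * I)‖ *
          ‖riemannZeta (1 / 2 + t * I)‖ ^ 3 * r ^ (-(1 / 2) : ℝ) * win T τ t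
        ≤ ‖MP069854.chi (1 / 2 + t * I) - Xm (1 / 2 + t * I)‖ *
          (C ^ 3 * (1 + |t|) ^ 6) * T * win T τ t := by gcongr
      _ = _ := by ring
  · rw [integral_const_mul]
    exact mul_le_mul_of_nonneg_left hB (by positivity)

theorem I2_rep {G : ℝ × ℝ × ℝ → ℝ} (hG : Continuous G) (hGc : HasCompactSupport G) {δ : ℝ}
    (hδ : 0 < δ) : ∃ T₀ : ℝ, ∀ T ≥ T₀, ∀ τ, δ * T ≤ τ → τ ≤ T →
    ‖I2 G T τ - ∑ x ∈ tri T, ((cf G T x / ((x.1 : ℝ) * x.2.1) : ℝ) : ℂ) *
      (2 * π * ∫ ξ : ℝ, ker T τ ξ *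
        S3 (2 * π * I * ((x.2.2 : ℝ) / ((x.1 : ℝ) * x.2.1) : ℝ) * cexp (-(om T ξ))))‖ ≤ 1 := by
  obtain ⟨M, hM⟩ := hGc.exists_bound_of_continuous hG
  have hM0 : 0 ≤ M := (norm_nonneg _).trans (hM 0)
  obtain ⟨C, hC1, hC⟩ := I2_rep_zb
  obtain ⟨T₁, hT₁⟩ := chi_Xm_tail hδ 5
  obtain ⟨T₂, hT₂⟩ := zeta3_shift hδ 5
  refine ⟨max (max T₁ T₂) (max (Real.exp 1) (M * (C ^ 3 + 1))), ?_⟩
  intro T hT τ hτ1 hτ2
  have hTT₁ : T ≥ T₁ := (le_max_left _ _).trans ((le_max_left _ _).trans hT)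
  have hTT₂ : T ≥ T₂ := (le_max_right _ _).trans ((le_max_left _ _).trans hT)
  have hTe : Real.exp 1 ≤ T := (le_max_left _ _).trans ((le_max_right _ _).trans hT)
  have hTM : M * (C ^ 3 + 1) ≤ T := (le_max_right _ _).trans ((le_max_right _ _).trans hT)
  have hT1 : 1 < T := (Real.one_lt_exp_iff.2 one_pos).trans_le hTe
  have hT0 : 0 < T := by linarith only [hT1]
  have h5 : T ^ (-5 : ℝ) = (T ^ 5)⁻¹ := by
    rw [Real.rpow_neg hT0.le]
    norm_num
  have hx : ∀ x ∈ tri T, ‖((cf G T x / ((x.1 : ℝ) * x.2.1) : ℝ) : ℂ) *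
      ((∫ t : ℝ, MP069854.chi (1 / 2 + t * I) * riemannZeta (1 / 2 + t * I) ^ 3 *
        (((x.2.2 : ℝ) / ((x.1 : ℝ) * x.2.1) : ℝ) : ℂ) ^ (-(1 / 2 + t * I : ℂ)) * (win T τ t : ℂ)) -
      (2 * π * ∫ ξ : ℝ, ker T τ ξ *
        S3 (2 * π * I * ((x.2.2 : ℝ) / ((x.1 : ℝ) * x.2.1) : ℝ) * cexp (-(om T ξ)))))‖
      ≤ M * (C ^ 3 * T * (T ^ 5)⁻¹ + (T ^ 5)⁻¹) := by
    intro x hx
    unfold tri at hx
    rw [Finset.mem_product, Finset.mem_product, Finset.mem_Icc, Finset.mem_Icc,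
      Finset.mem_Icc] at hx
    obtain ⟨⟨a1, a2⟩, ⟨b1, b2⟩, c1, c2⟩ := hx
    have hfl : ((⌊T⌋₊ : ℕ) : ℝ) ≤ T := Nat.floor_le hT0.le
    have a1' : (1 : ℝ) ≤ x.1 := by exact_mod_cast a1
    have b1' : (1 : ℝ) ≤ x.2.1 := by exact_mod_cast b1
    have c1' : (1 : ℝ) ≤ x.2.2 := by exact_mod_cast c1
    have a2' : (x.1 : ℝ) ≤ T := le_trans (by exact_mod_cast a2) hfl
    have b2' : (x.2.1 : ℝ) ≤ T := le_trans (by exact_mod_cast b2) hfl
    have c2' : (x.2.2 : ℝ) ≤ T := le_trans (by exact_mod_cast c2) hfl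
    have hab1 : (1 : ℝ) ≤ (x.1 : ℝ) * x.2.1 := one_le_mul_of_one_le_of_one_le a1' b1'
    have hab0 : (0 : ℝ) < (x.1 : ℝ) * x.2.1 := by linarith only [hab1]
    have hab2 : (x.1 : ℝ) * x.2.1 ≤ T ^ 2 := (mul_le_mul a2' b2' (le_trans zero_le_one b1') hT0.le).trans (le_of_eq (sq T).symm)
    obtain ⟨r, hr⟩ : ∃ r : ℝ, r = (x.2.2 : ℝ) / ((x.1 : ℝ) * x.2.1) := ⟨_, rfl⟩
    rw [← hr]
    have hr1 : T ^ (-2 : ℝ) ≤ r := by
      have e1 : T ^ (-2 : ℝ) = (T ^ 2)⁻¹ := by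
        rw [Real.rpow_neg hT0.le]
        norm_num
      rw [e1, hr, le_div_iff₀ hab0]
      calc (T ^ 2)⁻¹ * ((x.1 : ℝ) * x.2.1) ≤ (T ^ 2)⁻¹ * T ^ 2 := by gcongr
        _ = 1 := by field_simp
        _ ≤ _ := c1'
    have hr2 : r ≤ T := by
      rw [hr, div_le_iff₀ hab0]
      exact c2'.trans (le_mul_of_one_le_right hT0.le hab1)
    have hr0 : 0 < r := (Real.rpow_pos_of_pos hT0 _).trans_le hr1
    have e2 := I2_rep_diff hT1 τ hr1 hC1 hC (hT₁ T hTT₁ τ hτ1 hτ2)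
    have e3 := hT₂ T hTT₂ τ hτ1 hτ2 r hr1 hr2
    rw [(mellin_zeta3 hTe τ hr0).2] at e3
    rw [h5] at e2 e3
    rw [norm_mul]
    have e4 : ‖((cf G T x / ((x.1 : ℝ) * x.2.1) : ℝ) : ℂ)‖ ≤ M := by
      rw [Complex.norm_real, norm_div, Real.norm_of_nonneg hab0.le]
      refine (div_le_self (norm_nonneg _) hab1).trans ?_
      exact hM _
    refine mul_le_mul e4 ?_ (norm_nonneg _) hM0
    refine le_trans ?_ (add_le_add e2 e3)
    refine le_trans (le_of_eq ?_) (norm_add_le _ _)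
    congr 1
    ring
  rw [I2_expand G hT1 τ, ← Finset.sum_sub_distrib]
  simp only [← mul_sub]
  refine (norm_sum_le _ _).trans ((Finset.sum_le_sum hx).trans ?_)
  rw [Finset.sum_const, nsmul_eq_mul]
  have hcard : ((tri T).card : ℝ) ≤ T ^ 3 := by
    have h1 : (tri T).card = ⌊T⌋₊ * (⌊T⌋₊ * ⌊T⌋₊) := by
      unfold tri
      rw [Finset.card_product, Finset.card_product, Nat.card_Icc]
      simp
    have hfl : ((⌊T⌋₊ : ℕ) : ℝ) ≤ T := Nat.floor_le hT0.le
    have h0 : (0 : ℝ) ≤ ((⌊T⌋₊ : ℕ) : ℝ) := Nat.cast_nonneg _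
    rw [h1]
    push_cast
    calc ((⌊T⌋₊ : ℕ) : ℝ) * (((⌊T⌋₊ : ℕ) : ℝ) * ((⌊T⌋₊ : ℕ) : ℝ)) ≤ T * (T * T) := by gcongr
      _ = T ^ 3 := by ring
  have hC3 : 0 ≤ C ^ 3 := by positivity
  calc ((tri T).card : ℝ) * (M * (C ^ 3 * T * (T ^ 5)⁻¹ + (T ^ 5)⁻¹))
      ≤ T ^ 3 * (M * (C ^ 3 * T * (T ^ 5)⁻¹ + T * (T ^ 5)⁻¹)) := by
        have : (T ^ 5)⁻¹ ≤ T * (T ^ 5)⁻¹ := by
          have h0 : 0 ≤ (T ^ 5)⁻¹ := by positivity
          exact le_mul_of_one_le_left h0 hT1.le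
        gcongr
    _ = (M * (C ^ 3 + 1)) * T⁻¹ := by
        field_simp
    _ ≤ T * T⁻¹ := by gcongr
    _ = 1 := mul_inv_cancel₀ hT0.ne'

end S6

end

section

namespace S6
open Complex MeasureTheory Filter Topology Set
open scoped Real ComplexConjugate

theorem I3aux_cexp_eq {y : ℝ} (hy : 0 < y) (t : ℝ) :
    cexp (((t * (-Real.log y) : ℝ) : ℂ) * I) =
      ((√y : ℝ) : ℂ) * (y : ℂ) ^ (-(1 / 2 + t * I : ℂ)) := by
  rw [Complex.cpow_def_of_ne_zero (by exact_mod_cast hy.ne'), ← Complex.ofReal_log hy.le]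
  have h : ((√y : ℝ) : ℂ) = cexp ((Real.log y / 2 : ℝ) : ℂ) := by
    rw [← Complex.ofReal_exp]
    congr 1
    rw [Real.sqrt_eq_rpow, Real.rpow_def_of_pos hy]
    congr 1
    ring
  rw [h, ← Complex.exp_add]
  congr 1
  push_cast
  ring

theorem I3aux_cont_line {f : ℂ → ℂ} (hf : ∀ s : ℂ, 0 < s.re → ContinuousAt f s) :
    Continuous fun t : ℝ => f (1 / 2 + t * I) := by
  rw [continuous_iff_continuousAt]
  intro t
  have h1 : ContinuousAt f ((fun t : ℝ => (1 / 2 + t * I : ℂ)) t) := by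
    apply hf
    simp
  exact ContinuousAt.comp (f := fun t : ℝ => (1 / 2 + t * I : ℂ)) (g := f) h1
    (by fun_prop)

theorem I3aux_Gamma_cont {s : ℂ} (hs : 0 < s.re) : ContinuousAt Gamma s := by
  apply (Complex.differentiableAt_Gamma s ?_).continuousAt
  intro m hm
  rw [hm] at hs
  simp at hs
  have : (0 : ℝ) ≤ m := Nat.cast_nonneg m
  linarith only [hs]

theorem I3aux_pow_cont (s : ℂ) : ContinuousAt (fun s : ℂ => (2 * π : ℂ) ^ (-s)) s := by
  apply ContinuousAt.const_cpow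
  · fun_prop
  · left
    norm_num [Real.pi_ne_zero]

theorem I3aux_chi_cont : Continuous fun t : ℝ => MP069854.chi (1 / 2 + t * I) := by
  apply I3aux_cont_line
  intro s hs
  unfold MP069854.chi
  exact ((continuousAt_const.mul (I3aux_pow_cont s)).mul (I3aux_Gamma_cont hs)).mul
    (by fun_prop)

theorem I3aux_Xm_cont : Continuous fun t : ℝ => Xm (1 / 2 + t * I) := by
  apply I3aux_cont_line
  intro s hs
  unfold Xm
  exact ((I3aux_pow_cont s).mul (I3aux_Gamma_cont hs)).mul (by fun_prop)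

theorem I3aux_win_cont (T τ : ℝ) : Continuous fun t : ℝ => win T τ t := by
  unfold win
  fun_prop

theorem I3aux_win_pos (T τ t : ℝ) : 0 ≤ win T τ t := (Real.exp_pos _).le

theorem I3aux_int_poly {T : ℝ} (hT : 1 < T) (τ : ℝ) :
    Integrable fun t : ℝ => (1 + |t|) ^ 6 * win T τ t := by
  have hH : 0 < HH T := div_pos (by linarith only [hT]) (Real.log_pos hT)
  set b : ℝ := (HH T)⁻¹ ^ 2 with hb
  have hb0 : 0 < b := by positivity
  have key : Integrable fun u : ℝ => (1 + |τ| + |u|) ^ 6 * Real.exp (-b * u ^ 2) := by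
    have h1 : (fun u : ℝ => (1 + |τ| + |u|) ^ 6 * Real.exp (-b * u ^ 2)) =
        fun u => ∑ k ∈ Finset.range 7, ((1 + |τ|) ^ k * (Nat.choose 6 k)) *
          ‖u ^ (((6 - k : ℕ) : ℕ) : ℝ) * Real.exp (-b * u ^ 2)‖ := by
      funext u
      rw [add_pow, Finset.sum_mul]
      refine Finset.sum_congr rfl fun k _ => ?_
      rw [norm_mul, Real.norm_of_nonneg (Real.exp_pos _).le, Real.rpow_natCast, norm_pow,
        Real.norm_eq_abs]
      ring
    rw [h1]
    refine integrable_finsetSum _ fun k _ => ?_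
    refine Integrable.const_mul ?_ _
    refine Integrable.norm ?_
    exact integrable_rpow_mul_exp_neg_mul_sq hb0
      (lt_of_lt_of_le (by norm_num) (Nat.cast_nonneg _))
  have key2 := key.comp_sub_right τ
  refine key2.mono' ?_ ?_
  · exact (by unfold win; fun_prop : Continuous fun t : ℝ => (1 + |t|) ^ 6 * win T τ t).aestronglyMeasurable
  · refine ae_of_all _ fun t => ?_
    rw [norm_mul, Real.norm_of_nonneg (I3aux_win_pos T τ t), norm_pow, Real.norm_eq_abs,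
      abs_of_nonneg (by positivity : (0:ℝ) ≤ 1 + |t|)]
    have h2 : win T τ t = Real.exp (-b * (t - τ) ^ 2) := by
      unfold win
      congr 1
      rw [hb]
      field_simp
    rw [h2]
    have h3 : 1 + |t| ≤ 1 + |τ| + |t - τ| := by
      have := abs_add_le τ (t - τ)
      rw [add_sub_cancel] at this
      linarith only [this]
    gcongr

theorem I3aux_int_win {T : ℝ} (hT : 1 < T) (τ : ℝ) : Integrable fun t : ℝ => win T τ t := by
  refine (I3aux_int_poly hT τ).mono' (I3aux_win_cont T τ).aestronglyMeasurable ?_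
  refine ae_of_all _ fun t => ?_
  rw [Real.norm_of_nonneg (I3aux_win_pos T τ t)]
  have h1 : (1 : ℝ) ≤ (1 + |t|) ^ 6 := one_le_pow₀ (by linarith only [abs_nonneg t])
  nlinarith only [I3aux_win_pos T τ t, h1]

theorem I3aux_chi_norm (t : ℝ) : ‖MP069854.chi (1 / 2 + t * I)‖ = 1 :=
  MP069854.chi_norm (by simp)

theorem I3aux_int_bdd {T : ℝ} (hT : 1 < T) (τ : ℝ) {f : ℝ → ℂ} (hf : Continuous f) {C : ℝ}
    (hC : ∀ t, ‖f t‖ ≤ C) : Integrable fun t : ℝ => f t * (win T τ t : ℂ) := by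
  refine ((I3aux_int_win hT τ).const_mul C).mono' ?_ ?_
  · have h := I3aux_win_cont T τ
    exact (hf.mul (Complex.continuous_ofReal.comp h)).aestronglyMeasurable
  · refine ae_of_all _ fun t => ?_
    rw [norm_mul, Complex.norm_real, Real.norm_of_nonneg (I3aux_win_pos T τ t)]
    exact mul_le_mul_of_nonneg_right (hC t) (I3aux_win_pos T τ t)

theorem I3aux_cexp_norm (a : ℝ) : ‖cexp ((a : ℂ) * I)‖ = 1 := Complex.norm_exp_ofReal_mul_I a

/-- One term. -/
theorem I3aux_term {δ ε : ℝ} (hδ : 0 < δ) (hε : 0 < ε) (A : ℝ) : ∃ T₀ : ℝ, ∀ T ≥ T₀, ∀ τ,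
    δ * T ≤ τ → τ ≤ T → ∀ y : ℝ, 0 < y → y ≤ T ^ (1 - ε) →
    ‖∫ t : ℝ, MP069854.chi (1 / 2 + t * I) * cexp (((t * (-Real.log y) : ℝ) : ℂ) * I) *
      (win T τ t : ℂ)‖ ≤ T ^ (-A) * (1 + 2 * π * √y) := by
  obtain ⟨T₁, h1⟩ := chi_Xm_tail hδ A
  obtain ⟨T₂, h2⟩ := kernel_tiny hδ hε A
  refine ⟨max (max T₁ T₂) (Real.exp 1), ?_⟩
  intro T hT τ hτ1 hτ2 y hy hy2
  have hT1 : T₁ ≤ T := le_trans (le_trans (le_max_left _ _) (le_max_left _ _)) hT
  have hT2 : T₂ ≤ T := le_trans (le_trans (le_max_right _ _) (le_max_left _ _)) hT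
  have hTe : Real.exp 1 ≤ T := le_trans (le_max_right _ _) hT
  have hT0 : 1 < T := lt_of_lt_of_le (by linarith only [Real.add_one_lt_exp (one_ne_zero)]) hTe
  have hE : Continuous fun t : ℝ => cexp (((t * (-Real.log y) : ℝ) : ℂ) * I) := by fun_prop
  have hi1 : Integrable fun t : ℝ => (MP069854.chi (1 / 2 + t * I) - Xm (1 / 2 + t * I)) *
      cexp (((t * (-Real.log y) : ℝ) : ℂ) * I) * (win T τ t : ℂ) := by
    refine I3aux_int_bdd hT0 τ (C := 1) ((I3aux_chi_cont.sub I3aux_Xm_cont).mul hE) fun t => ?_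
    rw [norm_mul, I3aux_cexp_norm, mul_one]
    exact (chi_sub_Xm t).trans (min_le_left _ _)
  have hi2 : Integrable fun t : ℝ => Xm (1 / 2 + t * I) *
      cexp (((t * (-Real.log y) : ℝ) : ℂ) * I) * (win T τ t : ℂ) := by
    refine I3aux_int_bdd hT0 τ (C := 2) (I3aux_Xm_cont.mul hE) fun t => ?_
    rw [norm_mul, I3aux_cexp_norm, mul_one]
    have h3 : Xm (1 / 2 + t * I) = MP069854.chi (1 / 2 + t * I) -
      (MP069854.chi (1 / 2 + t * I) - Xm (1 / 2 + t * I)) := by ring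
    rw [h3]
    refine (norm_sub_le _ _).trans ?_
    rw [I3aux_chi_norm]
    have := (chi_sub_Xm t).trans (min_le_left _ _)
    linarith only [this]
  have hsplit : ∫ t : ℝ, MP069854.chi (1 / 2 + t * I) * cexp (((t * (-Real.log y) : ℝ) : ℂ) * I) *
      (win T τ t : ℂ) = (∫ t : ℝ, (MP069854.chi (1 / 2 + t * I) - Xm (1 / 2 + t * I)) *
      cexp (((t * (-Real.log y) : ℝ) : ℂ) * I) * (win T τ t : ℂ)) + ∫ t : ℝ, Xm (1 / 2 + t * I) *
      cexp (((t * (-Real.log y) : ℝ) : ℂ) * I) * (win T τ t : ℂ) := by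
    rw [← integral_add hi1 hi2]
    congr 1
    funext t
    ring
  have hA : ‖∫ t : ℝ, (MP069854.chi (1 / 2 + t * I) - Xm (1 / 2 + t * I)) *
      cexp (((t * (-Real.log y) : ℝ) : ℂ) * I) * (win T τ t : ℂ)‖ ≤ T ^ (-A) := by
    refine (norm_integral_le_integral_norm _).trans ?_
    refine le_trans ?_ (h1 T hT1 τ hτ1 hτ2)
    refine integral_mono hi1.norm ?_ ?_
    · refine (I3aux_int_poly hT0 τ).mono' ?_ ?_
      · have hw := I3aux_win_cont T τ
        have hn := (I3aux_chi_cont.sub I3aux_Xm_cont).norm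
        exact ((hn.mul (by fun_prop)).mul hw).aestronglyMeasurable
      · refine ae_of_all _ fun t => ?_
        rw [norm_mul, norm_mul, norm_norm, Real.norm_of_nonneg (I3aux_win_pos T τ t), norm_pow,
          Real.norm_eq_abs, abs_of_nonneg (by positivity : (0:ℝ) ≤ 1 + |t|)]
        have h3 := (chi_sub_Xm t).trans (min_le_left _ _)
        have h4 : 0 ≤ (1 + |t|) ^ 6 * win T τ t :=
          mul_nonneg (by positivity) (I3aux_win_pos T τ t)
        calc _ = ‖MP069854.chi (1 / 2 + t * I) - Xm (1 / 2 + t * I)‖ *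
              ((1 + |t|) ^ 6 * win T τ t) := by ring
          _ ≤ 1 * ((1 + |t|) ^ 6 * win T τ t) := mul_le_mul_of_nonneg_right h3 h4
          _ = _ := one_mul _
    · intro t
      show ‖_‖ ≤ _
      rw [norm_mul, norm_mul, I3aux_cexp_norm, mul_one, Complex.norm_real,
        Real.norm_of_nonneg (I3aux_win_pos T τ t)]
      have h1 : (1 : ℝ) ≤ (1 + |t|) ^ 6 := one_le_pow₀ (by linarith only [abs_nonneg t])
      refine mul_le_mul_of_nonneg_right ?_ (I3aux_win_pos T τ t)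
      exact le_mul_of_one_le_right (norm_nonneg _) h1
  have hB : ∫ t : ℝ, Xm (1 / 2 + t * I) *
      cexp (((t * (-Real.log y) : ℝ) : ℂ) * I) * (win T τ t : ℂ) = ((√y : ℝ) : ℂ) *
      (2 * π * ∫ ξ : ℝ, ker T τ ξ * cexp (-(2 * π * I * y * cexp (-(om T ξ))))) := by
    rw [← mellin_one hTe τ hy, ← integral_const_mul]
    congr 1
    funext t
    rw [I3aux_cexp_eq hy]
    ring
  rw [hsplit]
  refine (norm_add_le _ _).trans ?_
  have hC : ‖∫ t : ℝ, Xm (1 / 2 + t * I) *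
      cexp (((t * (-Real.log y) : ℝ) : ℂ) * I) * (win T τ t : ℂ)‖ ≤ √y * (2 * π * T ^ (-A)) := by
    rw [hB, norm_mul, norm_mul, norm_mul, Complex.norm_real, Complex.norm_real,
      Real.norm_of_nonneg (Real.sqrt_nonneg y), Real.norm_of_nonneg Real.pi_pos.le]
    have h5 := h2 T hT2 τ hτ1 hτ2 y hy hy2
    have h6 : ‖(2 : ℂ)‖ = 2 := by norm_num
    rw [h6]
    gcongr
  linarith only [hA, hC]

theorem I3aux_supp {κ : ℝ} {G : ℝ × ℝ × ℝ → ℝ} (hG : TF κ G) :
    ∃ ε : ℝ, 0 < ε ∧ ∀ p, G p ≠ 0 → p.1 + p.2.1 - p.2.2 ≤ 1 / 2 - ε := by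
  rcases (tsupport G).eq_empty_or_nonempty with h | h
  · refine ⟨1, one_pos, fun p hp => ?_⟩
    have := subset_tsupport G hp
    rw [h] at this
    exact this.elim
  · obtain ⟨q, hq, hmax⟩ := hG.hcs.isCompact.exists_isMaxOn h
      (f := fun p : ℝ × ℝ × ℝ => p.1 + p.2.1 - p.2.2) (by fun_prop)
    have hq2 := (hG.supp hq).2.2.2.2
    refine ⟨1 / 2 - (q.1 + q.2.1 - q.2.2), by linarith only [hq2], fun p hp => ?_⟩
    have := hmax (subset_tsupport G hp)
    simp only [mem_ofPred_eq] at this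
    linarith only [this]

theorem I3aux_card {T : ℝ} (hT : 1 ≤ T) : ((tri T).card : ℝ) ≤ T ^ 3 := by
  unfold tri
  rw [Finset.card_product, Finset.card_product, Nat.card_Icc]
  have h := Nat.floor_le (by linarith only [hT] : (0:ℝ) ≤ T)
  simp only [Nat.add_sub_cancel]
  push_cast
  have h3 : (0 : ℝ) ≤ ⌊T⌋₊ := Nat.cast_nonneg _
  calc (⌊T⌋₊ : ℝ) * (⌊T⌋₊ * ⌊T⌋₊) ≤ T * (T * T) := by gcongr
    _ = T ^ 3 := by ring

/-- coefficients of the test polynomial -/
noncomputable def I3a (G : ℝ × ℝ × ℝ → ℝ) (T : ℝ) (x : ℕ × ℕ × ℕ) : ℝ :=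
  cf G T x * (√((x.1 : ℝ) * x.2.1 * x.2.2))⁻¹

/-- phases -/
noncomputable def I3p (x : ℕ × ℕ × ℕ) : ℝ := Real.log x.2.2 - Real.log x.1 - Real.log x.2.1

theorem I3aux_expand (G : ℝ × ℝ × ℝ → ℝ) {T : ℝ} (hT : 1 < T) (τ : ℝ) :
    I3 G T τ = ∑ x ∈ tri T, ∑ x' ∈ tri T, ((I3a G T x * I3a G T x' : ℝ) : ℂ) *
      ∫ t : ℝ, MP069854.chi (1 / 2 + t * I) * cexp (((t * (I3p x + I3p x') : ℝ) : ℂ) * I) *
        (win T τ t : ℂ) := by
  unfold I3
  have h1 : ∀ t : ℝ, MP069854.chi (1 / 2 + t * I) * BB G T t ^ 2 * (win T τ t : ℂ) =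
      ∑ x ∈ tri T, ∑ x' ∈ tri T, ((I3a G T x * I3a G T x' : ℝ) : ℂ) *
        (MP069854.chi (1 / 2 + t * I) * cexp (((t * (I3p x + I3p x') : ℝ) : ℂ) * I) *
        (win T τ t : ℂ)) := by
    intro t
    rw [sq, BB, Finset.sum_mul_sum, Finset.mul_sum, Finset.sum_mul]
    refine Finset.sum_congr rfl fun x _ => ?_
    rw [Finset.mul_sum, Finset.sum_mul]
    refine Finset.sum_congr rfl fun x' _ => ?_
    have h2 : cexp (((t * (I3p x + I3p x') : ℝ) : ℂ) * I) =
        cexp (((t * (Real.log x.2.2 - Real.log x.1 - Real.log x.2.1) : ℝ) : ℂ) * I) *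
        cexp (((t * (Real.log x'.2.2 - Real.log x'.1 - Real.log x'.2.1) : ℝ) : ℂ) * I) := by
      rw [← Complex.exp_add]
      congr 1
      unfold I3p
      push_cast
      ring
    rw [h2]
    unfold I3a
    push_cast
    ring
  have h3 : ∀ x x' : ℕ × ℕ × ℕ, Integrable fun t : ℝ => ((I3a G T x * I3a G T x' : ℝ) : ℂ) *
        (MP069854.chi (1 / 2 + t * I) * cexp (((t * (I3p x + I3p x') : ℝ) : ℂ) * I) *
        (win T τ t : ℂ)) := by
    intro x x'
    refine Integrable.const_mul ?_ _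
    refine I3aux_int_bdd hT τ (C := 1) (I3aux_chi_cont.mul (by fun_prop)) fun t => ?_
    rw [norm_mul, I3aux_cexp_norm, I3aux_chi_norm, mul_one]
  simp_rw [h1]
  rw [integral_finsetSum _ fun x _ => integrable_finsetSum _ fun x' _ => h3 x x']
  refine Finset.sum_congr rfl fun x _ => ?_
  rw [integral_finsetSum _ fun x' _ => h3 x x']
  refine Finset.sum_congr rfl fun x' _ => ?_
  rw [integral_const_mul]

theorem I3_lim {κ : ℝ} (hκ : 1 ≤ κ) {G : ℝ × ℝ × ℝ → ℝ} (hG : TF κ G)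
    {δ : ℝ} (hδ : 0 < δ) {τ : ℝ → ℝ} (hτ : ∀ T : ℝ, 1 ≤ T → δ * T ≤ τ T ∧ τ T ≤ T) :
    Tendsto (fun T : ℝ => (I3 G T (τ T)).re / (HH T * √π * Real.log T ^ 9)) atTop (𝓝 0) := by
  obtain ⟨ε, hε, hsupp⟩ := I3aux_supp hG
  obtain ⟨C, hC⟩ := hG.cont.bounded_above_of_compact_support hG.hcs
  have hC0 : 0 ≤ C := (norm_nonneg _).trans (hC 0)
  obtain ⟨T₀, hT₀⟩ := I3aux_term hδ (ε := 2 * ε) (by positivity) 7
  have hbound : ∀ T ≥ max T₀ (Real.exp 1), ‖I3 G T (τ T)‖ ≤ C ^ 2 * (1 + 2 * π) * T⁻¹ := by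
    intro T hT
    have hTe : Real.exp 1 ≤ T := le_trans (le_max_right _ _) hT
    have hT1 : 1 < T := lt_of_lt_of_le (by linarith only [Real.add_one_lt_exp (one_ne_zero)]) hTe
    have hlog : 0 < Real.log T := Real.log_pos hT1
    obtain ⟨hτ1, hτ2⟩ := hτ T hT1.le
    rw [I3aux_expand G hT1]
    have hterm : ∀ x ∈ tri T, ∀ x' ∈ tri T, ‖((I3a G T x * I3a G T x' : ℝ) : ℂ) *
      ∫ t : ℝ, MP069854.chi (1 / 2 + t * I) * cexp (((t * (I3p x + I3p x') : ℝ) : ℂ) * I) *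
        (win T (τ T) t : ℂ)‖ ≤ C ^ 2 * (1 + 2 * π) * T ^ (-7 : ℝ) := by
      intro x hx x' hx'
      have hpos : ∀ x ∈ tri T, (1 : ℝ) ≤ x.1 ∧ (1 : ℝ) ≤ x.2.1 ∧ (1 : ℝ) ≤ x.2.2 := by
        intro x hx
        unfold tri at hx
        simp only [Finset.mem_product, Finset.mem_Icc] at hx
        exact ⟨by exact_mod_cast hx.1.1, by exact_mod_cast hx.2.1.1, by exact_mod_cast hx.2.2.1⟩
      obtain ⟨ha, hb, hc⟩ := hpos x hx
      obtain ⟨ha', hb', hc'⟩ := hpos x' hx'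
      have ha0 : (0 : ℝ) < x.1 := by linarith only [ha]
      have hb0 : (0 : ℝ) < x.2.1 := by linarith only [hb]
      have hc0 : (0 : ℝ) < x.2.2 := by linarith only [hc]
      have ha0' : (0 : ℝ) < x'.1 := by linarith only [ha']
      have hb0' : (0 : ℝ) < x'.2.1 := by linarith only [hb']
      have hc0' : (0 : ℝ) < x'.2.2 := by linarith only [hc']
      have hTp : 0 < T ^ (-7 : ℝ) := Real.rpow_pos_of_pos (by linarith only [hT1]) _
      by_cases h0 : cf G T x * cf G T x' = 0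
      · have h1 : I3a G T x * I3a G T x' = 0 := by
          unfold I3a
          rw [show cf G T x * (√((x.1 : ℝ) * x.2.1 * x.2.2))⁻¹ *
            (cf G T x' * (√((x'.1 : ℝ) * x'.2.1 * x'.2.2))⁻¹) = (cf G T x * cf G T x') *
            ((√((x.1 : ℝ) * x.2.1 * x.2.2))⁻¹ * (√((x'.1 : ℝ) * x'.2.1 * x'.2.2))⁻¹) by ring, h0,
            zero_mul]
        rw [h1]
        simp only [Complex.ofReal_zero, zero_mul, norm_zero]
        positivity
      have hx0 : cf G T x ≠ 0 := left_ne_zero_of_mul h0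
      have hx0' : cf G T x' ≠ 0 := right_ne_zero_of_mul h0
      set y : ℝ := (x.1 * x.2.1 * (x'.1 * x'.2.1)) / (x.2.2 * x'.2.2) with hy
      have hy0 : 0 < y := by positivity
      have hlogy : -Real.log y = I3p x + I3p x' := by
        rw [hy, Real.log_div (by positivity) (by positivity), Real.log_mul (by positivity)
          (by positivity), Real.log_mul (by positivity) (by positivity), Real.log_mul
          (by positivity) (by positivity), Real.log_mul (by positivity) (by positivity)]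
        unfold I3p
        ring
      have hs : ∀ x : ℕ × ℕ × ℕ, cf G T x ≠ 0 → -I3p x ≤ (1 / 2 - ε) * Real.log T := by
        intro x hx
        have h1 := hsupp _ hx
        simp only at h1
        have h2 : Real.log x.1 / Real.log T + Real.log x.2.1 / Real.log T -
          Real.log x.2.2 / Real.log T = -I3p x / Real.log T := by
          unfold I3p
          ring
        rw [h2, div_le_iff₀ hlog] at h1
        exact h1
      have hyT : y ≤ T ^ (1 - 2 * ε) := by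
        rw [← Real.exp_log hy0, Real.rpow_def_of_pos (by linarith only [hT1])]
        apply Real.exp_le_exp.mpr
        have h1 := hs x hx0
        have h2 := hs x' hx0'
        linarith only [hlogy, h1, h2]
      have h3 := hT₀ T (le_trans (le_max_left _ _) hT) (τ T) hτ1 hτ2 y hy0 hyT
      rw [hlogy] at h3
      rw [norm_mul, Complex.norm_real]
      refine (mul_le_mul_of_nonneg_left h3 (norm_nonneg _)).trans ?_
      have hn : ‖I3a G T x * I3a G T x'‖ = |cf G T x| * |cf G T x'| *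
          ((√((x.1 : ℝ) * x.2.1 * x.2.2))⁻¹ * (√((x'.1 : ℝ) * x'.2.1 * x'.2.2))⁻¹) := by
        unfold I3a
        rw [Real.norm_eq_abs, abs_mul, abs_mul, abs_mul, abs_of_nonneg (a := (√_)⁻¹) (by positivity),
          abs_of_nonneg (a := (√_)⁻¹) (by positivity)]
        ring
      rw [hn]
      have hcf : |cf G T x| ≤ C := hC _
      have hcf' : |cf G T x'| ≤ C := hC _
      have hsq1 : 1 ≤ √((x.1 : ℝ) * x.2.1 * x.2.2) := by
        rw [Real.one_le_sqrt]
        exact one_le_mul_of_one_le_of_one_le (one_le_mul_of_one_le_of_one_le ha hb) hc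
      have hsq2 : 1 ≤ √((x'.1 : ℝ) * x'.2.1 * x'.2.2) := by
        rw [Real.one_le_sqrt]
        exact one_le_mul_of_one_le_of_one_le (one_le_mul_of_one_le_of_one_le ha' hb') hc'
      set S := (√((x.1 : ℝ) * x.2.1 * x.2.2))⁻¹ * (√((x'.1 : ℝ) * x'.2.1 * x'.2.2))⁻¹ with hS
      have hS0 : 0 ≤ S := by positivity
      have hS1 : S ≤ 1 := by
        rw [hS]
        exact mul_le_one₀ (inv_le_one_of_one_le₀ hsq1) (by positivity) (inv_le_one_of_one_le₀ hsq2)
      have hSy : S * √y ≤ 1 := by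
        have h4 : S * √y = (x.2.2 * x'.2.2 : ℝ)⁻¹ := by
          rw [hS, ← mul_inv, ← Real.sqrt_mul (by positivity), ← Real.sqrt_inv,
            ← Real.sqrt_mul (by positivity)]
          rw [show ((x.1 : ℝ) * x.2.1 * x.2.2 * (x'.1 * x'.2.1 * x'.2.2))⁻¹ * y =
            ((x.2.2 * x'.2.2 : ℝ)⁻¹) ^ 2 by
              rw [hy]
              field_simp]
          exact Real.sqrt_sq (by positivity)
        rw [h4]
        exact inv_le_one_of_one_le₀ (one_le_mul_of_one_le_of_one_le hc hc')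
      have hprod : |cf G T x| * |cf G T x'| ≤ C ^ 2 := by
        rw [sq]
        exact mul_le_mul hcf hcf' (abs_nonneg _) hC0
      have hP0 : 0 ≤ |cf G T x| * |cf G T x'| := by positivity
      have hpi := Real.pi_pos
      have h5 : S * (1 + 2 * π * √y) ≤ 1 + 2 * π := by
        have : S * (1 + 2 * π * √y) = S + 2 * π * (S * √y) := by ring
        rw [this]
        linarith only [hS1, mul_le_mul_of_nonneg_left hSy (mul_nonneg zero_le_two hpi.le)]
      calc |cf G T x| * |cf G T x'| * S * (T ^ (-7 : ℝ) * (1 + 2 * π * √y))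
          = (|cf G T x| * |cf G T x'|) * (S * (1 + 2 * π * √y)) * T ^ (-7 : ℝ) := by ring
        _ ≤ C ^ 2 * (1 + 2 * π) * T ^ (-7 : ℝ) := by
          refine mul_le_mul_of_nonneg_right ?_ hTp.le
          exact mul_le_mul hprod h5 (by positivity) (by positivity)
    refine (norm_sum_le _ _).trans ?_
    refine (Finset.sum_le_sum fun x hx => (norm_sum_le _ _).trans
      (Finset.sum_le_sum fun x' hx' => hterm x hx x' hx')).trans ?_
    rw [Finset.sum_const, Finset.sum_const, nsmul_eq_mul, nsmul_eq_mul]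
    have hcard := I3aux_card hT1.le
    have hTpos : 0 < T := by linarith only [hT1]
    have hc0 : (0 : ℝ) ≤ (tri T).card := Nat.cast_nonneg _
    have hpi := Real.pi_pos
    have hK : 0 ≤ C ^ 2 * (1 + 2 * π) := by positivity
    have hTp : 0 < T ^ (-7 : ℝ) := Real.rpow_pos_of_pos (by linarith only [hT1]) _
    calc ((tri T).card : ℝ) * (((tri T).card : ℝ) * (C ^ 2 * (1 + 2 * π) * T ^ (-7 : ℝ)))
        ≤ T ^ 3 * (T ^ 3 * (C ^ 2 * (1 + 2 * π) * T ^ (-7 : ℝ))) := by gcongr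
      _ = C ^ 2 * (1 + 2 * π) * (T ^ 6 * T ^ (-7 : ℝ)) := by ring
      _ = C ^ 2 * (1 + 2 * π) * T⁻¹ := by
        congr 1
        rw [← Real.rpow_natCast T 6, ← Real.rpow_add hTpos, ← Real.rpow_neg_one]
        norm_num
  refine squeeze_zero_norm' (a := fun T : ℝ => C ^ 2 * (1 + 2 * π) * T⁻¹) ?_ ?_
  · filter_upwards [eventually_ge_atTop (max T₀ (Real.exp 1))] with T hT
    have hTe : Real.exp 1 ≤ T := le_trans (le_max_right _ _) hT
    have hT1 : 1 < T := lt_of_lt_of_le (by linarith only [Real.add_one_lt_exp (one_ne_zero)]) hTe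
    have hlog1 : 1 ≤ Real.log T := by
      rw [Real.le_log_iff_exp_le (by linarith only [hT1])]
      exact hTe
    have hden : 1 ≤ HH T * √π * Real.log T ^ 9 := by
      have h1 : 1 ≤ HH T := by
        unfold HH
        rw [one_le_div (by linarith only [hlog1])]
        exact (Real.log_le_sub_one_of_pos (by linarith only [hT1])).trans (by linarith only [])
      have h2 : 1 ≤ √π := by
        rw [Real.one_le_sqrt]
        linarith only [Real.pi_gt_three]
      have h3 : 1 ≤ Real.log T ^ 9 := one_le_pow₀ hlog1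
      exact one_le_mul_of_one_le_of_one_le (one_le_mul_of_one_le_of_one_le h1 h2) h3
    rw [norm_div, Real.norm_of_nonneg (by linarith only [hden] : (0:ℝ) ≤ HH T * √π * Real.log T ^ 9)]
    refine (div_le_self (norm_nonneg _) hden).trans ?_
    rw [Real.norm_eq_abs]
    exact (Complex.abs_re_le_norm _).trans (hbound T hT)
  · have : Tendsto (fun T : ℝ => C ^ 2 * (1 + 2 * π) * T⁻¹) atTop (𝓝 (C ^ 2 * (1 + 2 * π) * 0)) :=
      tendsto_inv_atTop_zero.const_mul _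
    rw [mul_zero] at this
    exact this

end S6

end
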