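import Pool.Agent.Lib.MP_39df77_nt.S6Defs
import Pool.Agent.Lib.MP_39df77_nt.Part01
import Pool.Agent.Lib.MP_39df77_nt.Part02
import Pool.Agent.Lib.MP_39df77_nt.Part07

section

/-! Rows JJ_left, JJ_right, JJ_shift -/

namespace S6
open Complex MeasureTheory Filter Topology Set
open scoped Real ComplexConjugate

-- BEGIN DEPS
-- END DEPS

/-! ### `e^{-a|t|}` -/

theorem JJ_exp_int {a : ℝ} (ha : 0 < a) : ∫ t : ℝ, Real.exp (-(a * |t|)) = 2 / a := by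
  have h := integral_comp_abs (f := fun x => Real.exp (-(a * x)))
  rw [h]
  have h2 : ∫ x in Ioi (0 : ℝ), Real.exp (-(a * x)) = 1 / a := by
    have h3 := integral_exp_mul_Ioi (a := -a) (by linarith) 0
    simp only [mul_zero, Real.exp_zero] at h3
    have e : (fun x : ℝ => Real.exp (-(a * x))) = fun x => Real.exp (-a * x) := by
      funext x
      congr 1
      ring
    rw [e, h3]
    rw [neg_div_neg_eq]
  rw [h2]
  ring

theorem JJ_exp_integrable {a : ℝ} (ha : 0 < a) :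
    Integrable (fun t : ℝ => Real.exp (-(a * |t|))) := by
  refine Integrable.of_integral_ne_zero ?_
  rw [JJ_exp_int ha]
  positivity

theorem JJ_sq_exp {ρ : ℝ} (h0 : 0 < ρ) (h1 : ρ ≤ 1) (t : ℝ) :
    (1 + t ^ 2) * Real.exp (-(ρ * |t|)) ≤ 9 / ρ ^ 2 * Real.exp (-(ρ / 2 * |t|)) := by
  have hx : 0 ≤ ρ / 2 * |t| := by positivity
  have h2 := Real.pow_div_factorial_le_exp _ hx 2
  have e2 : ((Nat.factorial 2 : ℕ) : ℝ) = 2 := by norm_num [Nat.factorial]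
  rw [e2] at h2
  have h3 : t ^ 2 ≤ 8 / ρ ^ 2 * Real.exp (ρ / 2 * |t|) := by
    have e3 : (ρ / 2 * |t|) ^ 2 / 2 = ρ ^ 2 / 8 * t ^ 2 := by
      rw [mul_pow, sq_abs]
      ring
    rw [e3] at h2
    rw [div_mul_eq_mul_div, le_div_iff₀ (by positivity)]
    nlinarith
  have h4 : (1 : ℝ) ≤ 1 / ρ ^ 2 * Real.exp (ρ / 2 * |t|) := by
    have h5 : (1 : ℝ) ≤ 1 / ρ ^ 2 := by
      rw [le_div_iff₀ (by positivity)]
      nlinarith
    have h6 : (1 : ℝ) ≤ Real.exp (ρ / 2 * |t|) := Real.one_le_exp hx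
    nlinarith
  have h5 : 1 + t ^ 2 ≤ 9 / ρ ^ 2 * Real.exp (ρ / 2 * |t|) := by
    have e : 9 / ρ ^ 2 * Real.exp (ρ / 2 * |t|) =
      1 / ρ ^ 2 * Real.exp (ρ / 2 * |t|) + 8 / ρ ^ 2 * Real.exp (ρ / 2 * |t|) := by ring
    rw [e]
    linarith
  calc (1 + t ^ 2) * Real.exp (-(ρ * |t|)) ≤
      (9 / ρ ^ 2 * Real.exp (ρ / 2 * |t|)) * Real.exp (-(ρ * |t|)) :=
        mul_le_mul_of_nonneg_right h5 (Real.exp_pos _).le
    _ = 9 / ρ ^ 2 * Real.exp (-(ρ / 2 * |t|)) := by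
        rw [mul_assoc, ← Real.exp_add]
        congr 2
        ring

/-! ### norms -/

theorem JJ_norm_exp (e : ℤ) (s : ℂ) :
    ‖cexp (-(π * I * (1 - s) * e / 2))‖ = Real.exp (-(π * e * s.im / 2)) := by
  rw [Complex.norm_exp]
  congr 1
  have h : -((π : ℂ) * I * (1 - s) * e / 2) = (((-(π * e / 2) : ℝ)) : ℂ) * (I * (1 - s)) := by
    push_cast
    ring
  rw [h, Complex.re_ofReal_mul]
  simp
  ring

theorem JJ_norm_exp_le {e : ℤ} (he : |e| ≤ 3) (s : ℂ) :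
    ‖cexp (-(π * I * (1 - s) * e / 2))‖ ≤ Real.exp (3 * π / 2 * |s.im|) := by
  rw [JJ_norm_exp]
  apply Real.exp_le_exp.2
  have h1 : |(e : ℝ)| ≤ 3 := by exact_mod_cast he
  have h2 : -(π * e * s.im / 2) ≤ |π * e * s.im / 2| := neg_le_abs _
  refine h2.trans ?_
  rw [abs_div, abs_mul, abs_mul, abs_of_pos Real.pi_pos, abs_two]
  have h3 : 0 ≤ |s.im| := abs_nonneg _
  have h4 : π * |(e : ℝ)| * |s.im| ≤ π * 3 * |s.im| :=
    mul_le_mul_of_nonneg_right (mul_le_mul_of_nonneg_left h1 Real.pi_pos.le) h3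
  linarith

theorem JJ_norm_y {y : ℂ} (hy : 0 < y.re) (s : ℂ) :
    ‖y ^ (-s)‖ = ‖y‖ ^ (-s.re) * Real.exp (arg y * s.im) := by
  have hy0 : y ≠ 0 := by
    rintro rfl
    simp at hy
  rw [Complex.norm_cpow_of_ne_zero hy0, neg_re, neg_im, mul_neg, Real.exp_neg, div_inv_eq_mul]

theorem JJ_arg {y : ℂ} (hy : 0 < y.re) :
    |arg y| ≤ π / 2 - y.re / ‖y‖ ∧ 0 < y.re / ‖y‖ ∧ y.re / ‖y‖ ≤ 1 := by
  have hy0 : y ≠ 0 := by
    rintro rfl
    simp at hy
  have hn : 0 < ‖y‖ := norm_pos_iff.2 hy0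
  have h1 : |arg y| < π / 2 := Complex.abs_arg_lt_pi_div_two_iff.2 (Or.inl hy)
  have h2 : Real.cos |arg y| = y.re / ‖y‖ := by
    rw [Real.cos_abs, Complex.cos_arg hy0]
  have h3 : Real.sin (π / 2 - |arg y|) ≤ π / 2 - |arg y| := Real.sin_le (by linarith)
  rw [Real.sin_pi_div_two_sub, h2] at h3
  refine ⟨by linarith, div_pos hy hn, ?_⟩
  rw [div_le_one hn]
  exact (Complex.re_le_norm y)

theorem JJ_norm_two_pi (s : ℂ) : ‖(2 * π : ℂ) ^ (s - 1)‖ = (2 * π) ^ (s.re - 1) := by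
  have h : (2 * π : ℂ) = ((2 * π : ℝ) : ℂ) := by push_cast; ring
  rw [h, Complex.norm_cpow_eq_rpow_re_of_pos (by positivity), sub_re, one_re]

/-- product of four Gamma factors on the critical line -/
theorem JJ_gamma4 (t : ℝ) : ‖Gamma (1 / 2 + t * I)‖ * ‖Gamma (1 / 2 - t * I)‖ ^ 3 ≤
    (2 * π) ^ 2 * Real.exp (-(2 * π * |t|)) := by
  have h1 := Gamma_half t
  have h2 := Gamma_half (-t)
  rw [abs_neg] at h2
  have e : (1 / 2 + ((-t : ℝ) : ℂ) * I) = 1 / 2 - t * I := by push_cast; ring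
  rw [e] at h2
  set g := ‖Gamma (1 / 2 + t * I)‖ with hg
  set g' := ‖Gamma (1 / 2 - t * I)‖ with hg'
  set B := 2 * π * Real.exp (-(π * |t|)) with hB
  have hg0 : 0 ≤ g := norm_nonneg _
  have hg'0 : 0 ≤ g' := norm_nonneg _
  have h3 : g * g' ≤ B := by nlinarith [sq_nonneg (g - g')]
  have hB0 : 0 ≤ B := by positivity
  calc g * g' ^ 3 = (g * g') * g' ^ 2 := by ring
    _ ≤ B * B := mul_le_mul h3 h2 (by positivity) hB0
    _ = (2 * π) ^ 2 * Real.exp (-(2 * π * |t|)) := by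
      rw [hB]
      have : Real.exp (-(2 * π * |t|)) = Real.exp (-(π * |t|)) * Real.exp (-(π * |t|)) := by
        rw [← Real.exp_add]
        congr 1
        ring
      rw [this]
      ring

theorem JJ_kk_left {e : ℤ} (he : |e| ≤ 3) (t : ℝ) :
    ‖kk e (((-1 / 2 : ℝ) : ℂ) + t * I)‖ ≤ (1 + t ^ 2) * Real.exp (-(π / 2 * |t|)) := by
  set s : ℂ := ((-1 / 2 : ℝ) : ℂ) + t * I with hs
  have hre : s.re = -1 / 2 := by simp [hs]
  have him : s.im = t := by simp [hs]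
  have hs0 : s ≠ 0 := by
    intro h
    rw [h, zero_re] at hre
    norm_num at hre
  have hs1 : s + 1 = 1 / 2 + t * I := by rw [hs]; push_cast; ring
  have hs2 : 1 - s = (1 / 2 - t * I) + 1 := by rw [hs]; push_cast; ring
  have h0' : (1 / 2 - t * I : ℂ) ≠ 0 := by
    intro h
    have := congrArg Complex.re h
    simp at this
  have hG1 : Gamma s = Gamma (1 / 2 + t * I) / s := by
    rw [eq_div_iff hs0, ← hs1, Complex.Gamma_add_one s hs0, mul_comm]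
  have hG2 : Gamma (1 - s) = (1 / 2 - t * I) * Gamma (1 / 2 - t * I) := by
    rw [hs2, Complex.Gamma_add_one _ h0']
  have hR : ‖s‖ ^ 2 = 1 / 4 + t ^ 2 := by
    rw [Complex.sq_norm, Complex.normSq_apply, hre, him]
    ring
  have hR' : ‖(1 / 2 - t * I : ℂ)‖ = ‖s‖ := by
    have h1 : (1 / 2 - t * I : ℂ) = -s := by rw [hs]; push_cast; ring
    rw [h1, norm_neg]
  have hRpos : 0 < ‖s‖ := norm_pos_iff.2 hs0
  have h2π : ‖(2 * π : ℂ) ^ (s - 1)‖ ≤ (2 * π)⁻¹ := by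
    rw [JJ_norm_two_pi, hre]
    have h1 : (1 : ℝ) ≤ 2 * π := by linarith [Real.pi_gt_three]
    calc (2 * π) ^ ((-1 / 2 : ℝ) - 1) ≤ (2 * π) ^ (-1 : ℝ) :=
          Real.rpow_le_rpow_of_exponent_le h1 (by norm_num)
      _ = (2 * π)⁻¹ := Real.rpow_neg_one _
  have hE := JJ_norm_exp_le he s
  rw [him] at hE
  have hg4 := JJ_gamma4 t
  set g := ‖Gamma (1 / 2 + t * I)‖ with hg
  set g' := ‖Gamma (1 / 2 - t * I)‖ with hg'
  have hnorm : ‖kk e s‖ = g / ‖s‖ * (‖(2 * π : ℂ) ^ (s - 1)‖ * (‖s‖ * g')) ^ 3 *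
      ‖cexp (-(π * I * (1 - s) * e / 2))‖ := by
    unfold kk
    rw [norm_mul, norm_mul, norm_pow, norm_mul, hG1, hG2, norm_div, norm_mul, hR']
  rw [hnorm]
  have hg0 : 0 ≤ g := norm_nonneg _
  have hg'0 : 0 ≤ g' := norm_nonneg _
  have hstep : g / ‖s‖ * (‖(2 * π : ℂ) ^ (s - 1)‖ * (‖s‖ * g')) ^ 3 ≤
      (1 / 4 + t ^ 2) * Real.exp (-(2 * π * |t|)) := by
    calc g / ‖s‖ * (‖(2 * π : ℂ) ^ (s - 1)‖ * (‖s‖ * g')) ^ 3
        ≤ g / ‖s‖ * ((2 * π)⁻¹ * (‖s‖ * g')) ^ 3 := by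
          apply mul_le_mul_of_nonneg_left _ (by positivity)
          apply pow_le_pow_left₀ (by positivity)
          exact mul_le_mul_of_nonneg_right h2π (by positivity)
      _ = (g * g' ^ 3) * ‖s‖ ^ 2 * ((2 * π)⁻¹) ^ 3 := by
          field_simp
      _ ≤ ((2 * π) ^ 2 * Real.exp (-(2 * π * |t|))) * ‖s‖ ^ 2 * ((2 * π)⁻¹) ^ 3 := by
          gcongr
      _ = (2 * π)⁻¹ * ((1 / 4 + t ^ 2) * Real.exp (-(2 * π * |t|))) := by
          rw [hR]
          field_simp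
      _ ≤ 1 * ((1 / 4 + t ^ 2) * Real.exp (-(2 * π * |t|))) := by
          apply mul_le_mul_of_nonneg_right _ (by positivity)
          apply inv_le_one_of_one_le₀
          linarith [Real.pi_gt_three]
      _ = _ := one_mul _
  calc g / ‖s‖ * (‖(2 * π : ℂ) ^ (s - 1)‖ * (‖s‖ * g')) ^ 3 *
      ‖cexp (-(π * I * (1 - s) * e / 2))‖
      ≤ ((1 / 4 + t ^ 2) * Real.exp (-(2 * π * |t|))) * Real.exp (3 * π / 2 * |t|) :=
        mul_le_mul hstep hE (norm_nonneg _) (by positivity)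
    _ = (1 / 4 + t ^ 2) * Real.exp (-(π / 2 * |t|)) := by
        rw [mul_assoc, ← Real.exp_add]
        congr 2
        ring
    _ ≤ (1 + t ^ 2) * Real.exp (-(π / 2 * |t|)) := by
        apply mul_le_mul_of_nonneg_right _ (Real.exp_pos _).le
        linarith

theorem JJ_kk_right {e : ℤ} (he : |e| ≤ 3) (t : ℝ) :
    ‖kk e (((1 / 2 : ℝ) : ℂ) + t * I)‖ ≤ (2 * π) ^ 2 * Real.exp (-(π / 2 * |t|)) := by
  set s : ℂ := ((1 / 2 : ℝ) : ℂ) + t * I with hs
  have hre : s.re = 1 / 2 := by simp [hs]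
  have him : s.im = t := by simp [hs]
  have hs1 : s = 1 / 2 + t * I := by rw [hs]; push_cast; ring
  have hs2 : 1 - s = 1 / 2 - t * I := by rw [hs]; push_cast; ring
  have h2π : ‖(2 * π : ℂ) ^ (s - 1)‖ ≤ 1 := by
    rw [JJ_norm_two_pi, hre]
    have h1 : (1 : ℝ) ≤ 2 * π := by linarith [Real.pi_gt_three]
    exact Real.rpow_le_one_of_one_le_of_nonpos h1 (by norm_num)
  have hE := JJ_norm_exp_le he s
  rw [him] at hE
  have hg4 := JJ_gamma4 t
  have hnorm : ‖kk e s‖ = ‖Gamma (1 / 2 + t * I)‖ * (‖(2 * π : ℂ) ^ (s - 1)‖ *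
      ‖Gamma (1 / 2 - t * I)‖) ^ 3 * ‖cexp (-(π * I * (1 - s) * e / 2))‖ := by
    unfold kk
    rw [norm_mul, norm_mul, norm_pow, norm_mul, hs2, ← hs1]
  rw [hnorm]
  calc ‖Gamma (1 / 2 + t * I)‖ * (‖(2 * π : ℂ) ^ (s - 1)‖ * ‖Gamma (1 / 2 - t * I)‖) ^ 3 *
      ‖cexp (-(π * I * (1 - s) * e / 2))‖
      ≤ ((2 * π) ^ 2 * Real.exp (-(2 * π * |t|))) * Real.exp (3 * π / 2 * |t|) := by
        apply mul_le_mul _ hE (norm_nonneg _) (by positivity)
        calc ‖Gamma (1 / 2 + t * I)‖ * (‖(2 * π : ℂ) ^ (s - 1)‖ * ‖Gamma (1 / 2 - t * I)‖) ^ 3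
            ≤ ‖Gamma (1 / 2 + t * I)‖ * (1 * ‖Gamma (1 / 2 - t * I)‖) ^ 3 := by
              gcongr
          _ = ‖Gamma (1 / 2 + t * I)‖ * ‖Gamma (1 / 2 - t * I)‖ ^ 3 := by rw [one_mul]
          _ ≤ _ := hg4
    _ = (2 * π) ^ 2 * Real.exp (-(π / 2 * |t|)) := by
        rw [mul_assoc, ← Real.exp_add]
        congr 2
        ring

/-! ### continuity -/

theorem JJ_kk_diff (e : ℤ) {s : ℂ} (h1 : ∀ m : ℕ, s ≠ -m) (h2 : s.re < 1) :
    DifferentiableAt ℂ (kk e) s := by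
  have h3 : ∀ m : ℕ, 1 - s ≠ -m := by
    intro m h
    have := congrArg Complex.re h
    simp at this
    have hm : (0 : ℝ) ≤ (m : ℝ) := Nat.cast_nonneg m
    linarith
  have hG1 := Complex.differentiableAt_Gamma s h1
  have hG2 : DifferentiableAt ℂ (fun s : ℂ => Gamma (1 - s)) s :=
    DifferentiableAt.comp s (Complex.differentiableAt_Gamma (1 - s) h3)
      ((differentiableAt_const 1).sub differentiableAt_id)
  have hc : DifferentiableAt ℂ (fun s : ℂ => (2 * π : ℂ) ^ (s - 1)) s := by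
    apply DifferentiableAt.const_cpow
    · exact differentiableAt_id.sub_const 1
    · left
      exact MP069854.twopi_ne
  have hE : DifferentiableAt ℂ (fun s : ℂ => cexp (-(π * I * (1 - s) * e / 2))) s := by
    fun_prop
  exact (hG1.mul ((hc.mul hG2).pow 3)).mul hE

theorem JJ_cont {e : ℤ} {σ : ℝ} (h1 : ∀ m : ℕ, σ ≠ -m) (h2 : σ < 1) {y : ℂ} (hy : 0 < y.re) :
    Continuous (fun t : ℝ => kk e ((σ : ℂ) + t * I) * y ^ (-((σ : ℂ) + t * I))) := by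
  have hy0 : y ≠ 0 := by
    rintro rfl
    simp at hy
  have hl : Continuous (fun t : ℝ => (σ : ℂ) + t * I) := by fun_prop
  refine Continuous.mul ?_ ?_
  · rw [continuous_iff_continuousAt]
    intro t
    have h3 : ∀ m : ℕ, ((σ : ℂ) + t * I) ≠ -m := by
      intro m h
      have := congrArg Complex.re h
      simp at this
      exact h1 m this
    have h4 : ((σ : ℂ) + t * I).re < 1 := by simpa using h2
    exact ContinuousAt.comp (f := fun t : ℝ => (σ : ℂ) + t * I)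
      (JJ_kk_diff e h3 h4).continuousAt hl.continuousAt
  · exact Continuous.const_cpow hl.neg (Or.inl hy0)

/-- **D7.** -/
theorem JJ_left : ∃ C : ℝ, 0 ≤ C ∧ ∀ e : ℤ, |e| ≤ 3 → ∀ y : ℂ, 0 < y.re →
    Integrable (fun t : ℝ => kk e (((-1 / 2 : ℝ) : ℂ) + t * I) * y ^ (-(((-1 / 2 : ℝ) : ℂ) + t * I))) ∧
    (∫ t : ℝ, ‖kk e (((-1 / 2 : ℝ) : ℂ) + t * I) * y ^ (-(((-1 / 2 : ℝ) : ℂ) + t * I))‖) ≤
      C * (‖y‖ ^ (1 / 2 : ℝ) * (‖y‖ / y.re) ^ 4) := by
  refine ⟨36, by norm_num, ?_⟩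
  intro e he y hy
  obtain ⟨ha1, ha2, ha3⟩ := JJ_arg hy
  set ρ := y.re / ‖y‖ with hρ
  have hy0 : y ≠ 0 := by
    rintro rfl
    simp at hy
  have hn : 0 < ‖y‖ := norm_pos_iff.2 hy0
  have hbound : ∀ t : ℝ, ‖kk e (((-1 / 2 : ℝ) : ℂ) + t * I) * y ^ (-(((-1 / 2 : ℝ) : ℂ) + t * I))‖ ≤
      ‖y‖ ^ (1 / 2 : ℝ) * (9 / ρ ^ 2) * Real.exp (-(ρ / 2 * |t|)) := by
    intro t
    have him : (((-1 / 2 : ℝ) : ℂ) + t * I).im = t := by simp
    have hre : (((-1 / 2 : ℝ) : ℂ) + t * I).re = -1 / 2 := by simp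
    rw [norm_mul, JJ_norm_y hy, him, hre]
    have h1 := JJ_kk_left he t
    have h2 : arg y * t ≤ (π / 2 - ρ) * |t| := by
      calc arg y * t ≤ |arg y * t| := le_abs_self _
        _ = |arg y| * |t| := abs_mul _ _
        _ ≤ (π / 2 - ρ) * |t| := mul_le_mul_of_nonneg_right ha1 (abs_nonneg _)
    have h3 : Real.exp (arg y * t) ≤ Real.exp ((π / 2 - ρ) * |t|) := Real.exp_le_exp.2 h2
    have e1 : (-(-1 / 2) : ℝ) = 1 / 2 := by norm_num
    rw [e1]
    calc ‖kk e (((-1 / 2 : ℝ) : ℂ) + t * I)‖ * (‖y‖ ^ (1 / 2 : ℝ) * Real.exp (arg y * t))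
        ≤ ((1 + t ^ 2) * Real.exp (-(π / 2 * |t|))) *
          (‖y‖ ^ (1 / 2 : ℝ) * Real.exp ((π / 2 - ρ) * |t|)) := by
          apply mul_le_mul h1 _ (by positivity) (by positivity)
          exact mul_le_mul_of_nonneg_left h3 (by positivity)
      _ = ‖y‖ ^ (1 / 2 : ℝ) * ((1 + t ^ 2) *
          (Real.exp (-(π / 2 * |t|)) * Real.exp ((π / 2 - ρ) * |t|))) := by ring
      _ = ‖y‖ ^ (1 / 2 : ℝ) * ((1 + t ^ 2) * Real.exp (-(ρ * |t|))) := by
          rw [← Real.exp_add]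
          congr 3
          ring
      _ ≤ ‖y‖ ^ (1 / 2 : ℝ) * (9 / ρ ^ 2 * Real.exp (-(ρ / 2 * |t|))) :=
          mul_le_mul_of_nonneg_left (JJ_sq_exp ha2 ha3 t) (by positivity)
      _ = _ := by ring
  have hdom : Integrable (fun t : ℝ => ‖y‖ ^ (1 / 2 : ℝ) * (9 / ρ ^ 2) *
      Real.exp (-(ρ / 2 * |t|))) := (JJ_exp_integrable (by positivity)).const_mul _
  have hcont := JJ_cont (e := e) (σ := -1 / 2) (by
    intro m h
    have h1 : (m : ℝ) = 1 / 2 := by linarith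
    have h2 : (2 * m : ℕ) = 1 := by
      have : ((2 * m : ℕ) : ℝ) = 1 := by push_cast; linarith
      exact_mod_cast this
    omega) (by norm_num) hy
  have hint : Integrable (fun t : ℝ => kk e (((-1 / 2 : ℝ) : ℂ) + t * I) *
      y ^ (-(((-1 / 2 : ℝ) : ℂ) + t * I))) :=
    hdom.mono' hcont.aestronglyMeasurable (Eventually.of_forall hbound)
  refine ⟨hint, ?_⟩
  calc (∫ t : ℝ, ‖kk e (((-1 / 2 : ℝ) : ℂ) + t * I) * y ^ (-(((-1 / 2 : ℝ) : ℂ) + t * I))‖)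
      ≤ ∫ t : ℝ, ‖y‖ ^ (1 / 2 : ℝ) * (9 / ρ ^ 2) * Real.exp (-(ρ / 2 * |t|)) :=
        integral_mono hint.norm hdom hbound
    _ = ‖y‖ ^ (1 / 2 : ℝ) * (9 / ρ ^ 2) * (2 / (ρ / 2)) := by
        rw [integral_const_mul, JJ_exp_int (by positivity)]
    _ = 36 * (‖y‖ ^ (1 / 2 : ℝ) * (1 / ρ) ^ 3) := by
        field_simp
        ring
    _ ≤ 36 * (‖y‖ ^ (1 / 2 : ℝ) * (1 / ρ) ^ 4) := by
        have h1 : 1 ≤ 1 / ρ := by
          rw [le_div_iff₀ ha2]
          linarith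
        have h2 : (1 / ρ) ^ 3 ≤ (1 / ρ) ^ 4 := pow_le_pow_right₀ h1 (by norm_num)
        have h3 : 0 ≤ ‖y‖ ^ (1 / 2 : ℝ) := by positivity
        nlinarith [mul_le_mul_of_nonneg_left h2 h3]
    _ = 36 * (‖y‖ ^ (1 / 2 : ℝ) * (‖y‖ / y.re) ^ 4) := by
        rw [hρ, one_div_div]

/-- **D8.** -/
theorem JJ_right : ∃ C : ℝ, 0 ≤ C ∧ ∀ e : ℤ, |e| ≤ 3 → ∀ y : ℂ, 0 < y.re →
    ‖JJ (1 / 2) e y‖ ≤ C * (‖y‖ ^ (-(1 / 2) : ℝ) * (‖y‖ / y.re)) := by
  refine ⟨4 * π, by positivity, ?_⟩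
  intro e he y hy
  obtain ⟨ha1, ha2, ha3⟩ := JJ_arg hy
  set ρ := y.re / ‖y‖ with hρ
  have hy0 : y ≠ 0 := by
    rintro rfl
    simp at hy
  have hn : 0 < ‖y‖ := norm_pos_iff.2 hy0
  have hbound : ∀ t : ℝ, ‖kk e (((1 / 2 : ℝ) : ℂ) + t * I) * y ^ (-(((1 / 2 : ℝ) : ℂ) + t * I))‖ ≤
      ‖y‖ ^ (-(1 / 2) : ℝ) * (2 * π) ^ 2 * Real.exp (-(ρ * |t|)) := by
    intro t
    have him : (((1 / 2 : ℝ) : ℂ) + t * I).im = t := by simp
    have hre : (((1 / 2 : ℝ) : ℂ) + t * I).re = 1 / 2 := by simp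
    rw [norm_mul, JJ_norm_y hy, him, hre]
    have h1 := JJ_kk_right he t
    have h2 : arg y * t ≤ (π / 2 - ρ) * |t| := by
      calc arg y * t ≤ |arg y * t| := le_abs_self _
        _ = |arg y| * |t| := abs_mul _ _
        _ ≤ (π / 2 - ρ) * |t| := mul_le_mul_of_nonneg_right ha1 (abs_nonneg _)
    have h3 : Real.exp (arg y * t) ≤ Real.exp ((π / 2 - ρ) * |t|) := Real.exp_le_exp.2 h2
    calc ‖kk e (((1 / 2 : ℝ) : ℂ) + t * I)‖ * (‖y‖ ^ (-(1 / 2) : ℝ) * Real.exp (arg y * t))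
        ≤ ((2 * π) ^ 2 * Real.exp (-(π / 2 * |t|))) *
          (‖y‖ ^ (-(1 / 2) : ℝ) * Real.exp ((π / 2 - ρ) * |t|)) := by
          apply mul_le_mul h1 _ (by positivity) (by positivity)
          exact mul_le_mul_of_nonneg_left h3 (by positivity)
      _ = ‖y‖ ^ (-(1 / 2) : ℝ) * (2 * π) ^ 2 *
          (Real.exp (-(π / 2 * |t|)) * Real.exp ((π / 2 - ρ) * |t|)) := by ring
      _ = ‖y‖ ^ (-(1 / 2) : ℝ) * (2 * π) ^ 2 * Real.exp (-(ρ * |t|)) := by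
          rw [← Real.exp_add]
          congr 2
          ring
  have hdom : Integrable (fun t : ℝ => ‖y‖ ^ (-(1 / 2) : ℝ) * (2 * π) ^ 2 *
      Real.exp (-(ρ * |t|))) := (JJ_exp_integrable ha2).const_mul _
  have hI : ‖∫ t : ℝ, kk e (((1 / 2 : ℝ) : ℂ) + t * I) * y ^ (-(((1 / 2 : ℝ) : ℂ) + t * I))‖ ≤
      ‖y‖ ^ (-(1 / 2) : ℝ) * (2 * π) ^ 2 * (2 / ρ) := by
    calc ‖∫ t : ℝ, kk e (((1 / 2 : ℝ) : ℂ) + t * I) * y ^ (-(((1 / 2 : ℝ) : ℂ) + t * I))‖
        ≤ ∫ t : ℝ, ‖y‖ ^ (-(1 / 2) : ℝ) * (2 * π) ^ 2 * Real.exp (-(ρ * |t|)) :=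
          norm_integral_le_of_norm_le hdom (Eventually.of_forall hbound)
      _ = _ := by rw [integral_const_mul, JJ_exp_int ha2]
  have hJ : JJ (1 / 2) e y = (1 / (2 * π)) *
      ∫ t : ℝ, kk e (((1 / 2 : ℝ) : ℂ) + t * I) * y ^ (-(((1 / 2 : ℝ) : ℂ) + t * I)) := rfl
  have hc : ‖(1 / (2 * π) : ℂ)‖ = 1 / (2 * π) := by
    have : (1 / (2 * π) : ℂ) = ((1 / (2 * π) : ℝ) : ℂ) := by push_cast; ring
    rw [this, Complex.norm_real, Real.norm_of_nonneg (by positivity)]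
  rw [hJ, norm_mul, hc]
  calc 1 / (2 * π) * ‖∫ t : ℝ, kk e (((1 / 2 : ℝ) : ℂ) + t * I) *
      y ^ (-(((1 / 2 : ℝ) : ℂ) + t * I))‖
      ≤ 1 / (2 * π) * (‖y‖ ^ (-(1 / 2) : ℝ) * (2 * π) ^ 2 * (2 / ρ)) :=
        mul_le_mul_of_nonneg_left hI (by positivity)
    _ = 4 * π * (‖y‖ ^ (-(1 / 2) : ℝ) * (1 / ρ)) := by
        field_simp
        ring
    _ = 4 * π * (‖y‖ ^ (-(1 / 2) : ℝ) * (‖y‖ / y.re)) := by
        rw [hρ, one_div_div]

/-- `e^{-δ x} ≤ (1 + 1/δ)/(1 + x)` -/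
theorem JJ_exp_le_inv {δ x : ℝ} (hδ : 0 < δ) (hx : 0 ≤ x) :
    Real.exp (-(δ * x)) ≤ (1 + 1 / δ) / (1 + x) := by
  rw [le_div_iff₀ (by linarith)]
  have h1 : 1 + δ * x ≤ Real.exp (δ * x) := by
    have := Real.add_one_le_exp (δ * x)
    linarith
  have h2 : 1 + x ≤ (1 + 1 / δ) * (1 + δ * x) := by
    have e : (1 + 1 / δ) * (1 + δ * x) = 1 + δ * x + 1 / δ + x := by
      field_simp
      ring
    rw [e]
    have h3 : 0 ≤ δ * x := by positivity
    have h4 : 0 ≤ 1 / δ := by positivity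
    linarith
  have h3 : Real.exp (-(δ * x)) * Real.exp (δ * x) = 1 := by
    rw [← Real.exp_add]
    simp
  have h4 : 0 < Real.exp (-(δ * x)) := Real.exp_pos _
  have h5 : 0 < 1 + 1 / δ := by positivity
  calc Real.exp (-(δ * x)) * (1 + x) ≤ Real.exp (-(δ * x)) * ((1 + 1 / δ) * (1 + δ * x)) :=
        mul_le_mul_of_nonneg_left h2 h4.le
    _ ≤ Real.exp (-(δ * x)) * ((1 + 1 / δ) * Real.exp (δ * x)) := by
        apply mul_le_mul_of_nonneg_left _ h4.le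
        exact mul_le_mul_of_nonneg_left h1 h5.le
    _ = (1 + 1 / δ) * (Real.exp (-(δ * x)) * Real.exp (δ * x)) := by ring
    _ = 1 + 1 / δ := by rw [h3, mul_one]

theorem JJ_norm_y_le {y : ℂ} (hy : 0 < y.re) {s : ℂ} (h1 : -1 / 2 ≤ s.re) (h2 : s.re ≤ 1 / 2) :
    ‖y ^ (-s)‖ ≤ (‖y‖ ^ (1 / 2 : ℝ) + ‖y‖ ^ (-(1 / 2) : ℝ)) * Real.exp (|arg y| * |s.im|) := by
  have hy0 : y ≠ 0 := by
    rintro rfl
    simp at hy
  have hn : 0 < ‖y‖ := norm_pos_iff.2 hy0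
  rw [JJ_norm_y hy]
  apply mul_le_mul _ _ (Real.exp_pos _).le (by positivity)
  · rcases le_total 1 ‖y‖ with h | h
    · have h3 : ‖y‖ ^ (-s.re) ≤ ‖y‖ ^ (1 / 2 : ℝ) :=
        Real.rpow_le_rpow_of_exponent_le h (by linarith)
      have h4 : 0 ≤ ‖y‖ ^ (-(1 / 2) : ℝ) := by positivity
      linarith
    · have h3 : ‖y‖ ^ (-s.re) ≤ ‖y‖ ^ (-(1 / 2) : ℝ) :=
        Real.rpow_le_rpow_of_exponent_ge hn h (by linarith)
      have h4 : 0 ≤ ‖y‖ ^ (1 / 2 : ℝ) := by positivity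
      linarith
  · apply Real.exp_le_exp.2
    rw [← abs_mul]
    exact le_abs_self _

/-- **D9.** -/
theorem JJ_shift (e : ℤ) (he : |e| ≤ 3) : ∃ c : ℂ, ‖c‖ ≤ 1 ∧ ∀ y : ℂ, 0 < y.re →
    JJ (-1 / 2) e y = JJ (1 / 2) e y - c := by
  refine ⟨((2 * π : ℂ) ^ ((0 : ℂ) - 1)) ^ 3 * cexp (-(π * I * (1 - 0) * e / 2)), ?_, ?_⟩
  · rw [norm_mul, norm_pow, JJ_norm_two_pi, JJ_norm_exp]
    have h1 : (2 * π) ^ ((0 : ℂ).re - 1) ≤ 1 := by
      apply Real.rpow_le_one_of_one_le_of_nonpos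
      · linarith [Real.pi_gt_three]
      · norm_num
    have h2 : 0 ≤ (2 * π) ^ ((0 : ℂ).re - 1) := by positivity
    have h3 : Real.exp (-(π * e * (0 : ℂ).im / 2)) = 1 := by simp
    rw [h3, mul_one]
    exact pow_le_one₀ h2 h1
  · intro y hy
    have hy0 : y ≠ 0 := by
      rintro rfl
      simp at hy
    have hn : 0 < ‖y‖ := norm_pos_iff.2 hy0
    obtain ⟨ha1, ha2, ha3⟩ := JJ_arg hy
    have hθ1 : |arg y| < π / 2 := by linarith
    have ha0 : 0 ≤ |arg y| := abs_nonneg _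
    set θ : ℝ := (π / 2 + (3 * π / 2 + |arg y|) / 4) / 2 with hθ
    have hθ0 : 0 < θ := by
      have := Real.pi_pos
      positivity
    have hθ2 : θ < π / 2 := by rw [hθ]; linarith
    obtain ⟨C, hC⟩ := Gamma_decay hθ0 hθ2 (a := 1 / 2) (b := 3 / 2) (by norm_num)
    have hC0 : 0 ≤ C := by
      have h := hC 1 (by norm_num) (by norm_num)
      simp only [one_im, abs_zero, mul_zero, neg_zero, Real.exp_zero, mul_one] at h
      exact (norm_nonneg _).trans h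
    set δ : ℝ := (π / 2 - |arg y|) / 2 with hδ
    have hδ0 : 0 < δ := by rw [hδ]; linarith
    have h4θ : 4 * θ = 3 * π / 2 + |arg y| + δ := by rw [hθ, hδ]; ring
    set F : ℂ → ℂ := fun s => Gamma (s + 1) * ((2 * π : ℂ) ^ (s - 1) * Gamma (1 - s)) ^ 3 *
      cexp (-(π * I * (1 - s) * e / 2)) * y ^ (-s) with hF
    set M : ℝ := ‖y‖ ^ (1 / 2 : ℝ) + ‖y‖ ^ (-(1 / 2) : ℝ) with hM
    have hM0 : 0 ≤ M := by positivity
    have hdiff : ∀ s : ℂ, (-1 / 2 : ℝ) ≤ s.re → s.re ≤ (1 / 2 : ℝ) → DifferentiableAt ℂ F s := by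
      intro s h1 h2
      have h3 : ∀ m : ℕ, s + 1 ≠ -m := by
        intro m h
        have := congrArg Complex.re h
        simp at this
        have hm : (0 : ℝ) ≤ (m : ℝ) := Nat.cast_nonneg m
        linarith
      have h3' : ∀ m : ℕ, 1 - s ≠ -m := by
        intro m h
        have := congrArg Complex.re h
        simp at this
        have hm : (0 : ℝ) ≤ (m : ℝ) := Nat.cast_nonneg m
        linarith
      have hG1 : DifferentiableAt ℂ (fun s : ℂ => Gamma (s + 1)) s :=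
        DifferentiableAt.comp s (Complex.differentiableAt_Gamma (s + 1) h3)
          (differentiableAt_id.add_const 1)
      have hG2 : DifferentiableAt ℂ (fun s : ℂ => Gamma (1 - s)) s :=
        DifferentiableAt.comp s (Complex.differentiableAt_Gamma (1 - s) h3')
          ((differentiableAt_const 1).sub differentiableAt_id)
      have hc : DifferentiableAt ℂ (fun s : ℂ => (2 * π : ℂ) ^ (s - 1)) s := by
        apply DifferentiableAt.const_cpow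
        · exact differentiableAt_id.sub_const 1
        · left
          exact MP069854.twopi_ne
      have hE : DifferentiableAt ℂ (fun s : ℂ => cexp (-(π * I * (1 - s) * e / 2))) s := by
        fun_prop
      have hY : DifferentiableAt ℂ (fun s : ℂ => y ^ (-s)) s :=
        DifferentiableAt.const_cpow differentiableAt_id.neg (Or.inl hy0)
      exact (((hG1.mul ((hc.mul hG2).pow 3)).mul hE).mul hY)
    have hbd : ∀ s : ℂ, (-1 / 2 : ℝ) ≤ s.re → s.re ≤ (1 / 2 : ℝ) →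
        ‖F s‖ ≤ (C ^ 4 * M * (1 + 1 / δ)) / (1 + |s.im|) := by
      intro s h1 h2
      have g1 := hC (s + 1) (by simp; linarith) (by simp; linarith)
      have g2 := hC (1 - s) (by simp; linarith) (by simp; linarith)
      have i1 : (s + 1).im = s.im := by simp
      have i2 : |(1 - s).im| = |s.im| := by simp
      rw [i1] at g1
      rw [i2] at g2
      have h2π : ‖(2 * π : ℂ) ^ (s - 1)‖ ≤ 1 := by
        rw [JJ_norm_two_pi]
        apply Real.rpow_le_one_of_one_le_of_nonpos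
        · linarith [Real.pi_gt_three]
        · linarith
      have hE := JJ_norm_exp_le he s
      have hY := JJ_norm_y_le hy h1 h2
      set x := |s.im| with hx
      have hx0 : 0 ≤ x := abs_nonneg _
      have hnorm : ‖F s‖ = ‖Gamma (s + 1)‖ * (‖(2 * π : ℂ) ^ (s - 1)‖ * ‖Gamma (1 - s)‖) ^ 3 *
          ‖cexp (-(π * I * (1 - s) * e / 2))‖ * ‖y ^ (-s)‖ := by
        simp only [hF, norm_mul, norm_pow]
      rw [hnorm]
      calc ‖Gamma (s + 1)‖ * (‖(2 * π : ℂ) ^ (s - 1)‖ * ‖Gamma (1 - s)‖) ^ 3 *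
          ‖cexp (-(π * I * (1 - s) * e / 2))‖ * ‖y ^ (-s)‖
          ≤ (C * Real.exp (-(θ * x))) * (1 * (C * Real.exp (-(θ * x)))) ^ 3 *
            Real.exp (3 * π / 2 * x) * (M * Real.exp (|arg y| * x)) := by
            have hp : 0 ≤ C * Real.exp (-(θ * x)) := by positivity
            apply mul_le_mul _ hY (norm_nonneg _) (by positivity)
            apply mul_le_mul _ hE (norm_nonneg _) (by positivity)
            apply mul_le_mul g1 _ (by positivity) hp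
            apply pow_le_pow_left₀ (by positivity)
            exact mul_le_mul h2π g2 (norm_nonneg _) zero_le_one
        _ = C ^ 4 * M * ((Real.exp (-(θ * x)) * Real.exp (-(θ * x)) * Real.exp (-(θ * x)) *
            Real.exp (-(θ * x))) * Real.exp (3 * π / 2 * x) * Real.exp (|arg y| * x)) := by ring
        _ = C ^ 4 * M * Real.exp (-(δ * x)) := by
            rw [← Real.exp_add, ← Real.exp_add, ← Real.exp_add, ← Real.exp_add, ← Real.exp_add]
            congr 2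
            have : 4 * θ * x = (3 * π / 2 + |arg y| + δ) * x := by rw [h4θ]
            linarith
        _ ≤ C ^ 4 * M * ((1 + 1 / δ) / (1 + x)) := by
            apply mul_le_mul_of_nonneg_left (JJ_exp_le_inv hδ0 hx0) (by positivity)
        _ = _ := by ring
    have hv := vshift1 (a := -1 / 2) (b := 1 / 2) (p := 0) (by simp; norm_num) (by simp)
      hdiff hbd
    have hkey : ∀ s : ℂ, s ≠ 0 → F s / (s - 0) = kk e s * y ^ (-s) := by
      intro s hs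
      simp only [hF, kk]
      rw [Complex.Gamma_add_one s hs, sub_zero]
      field_simp
    have hI1 : (∫ t : ℝ, F (((1 / 2 : ℝ) : ℂ) + t * I) / (((1 / 2 : ℝ) : ℂ) + t * I - 0)) =
        ∫ t : ℝ, kk e (((1 / 2 : ℝ) : ℂ) + t * I) * y ^ (-(((1 / 2 : ℝ) : ℂ) + t * I)) := by
      congr 1
      funext t
      apply hkey
      intro h
      have := congrArg Complex.re h
      simp at this
    have hI2 : (∫ t : ℝ, F (((-1 / 2 : ℝ) : ℂ) + t * I) / (((-1 / 2 : ℝ) : ℂ) + t * I - 0)) =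
        ∫ t : ℝ, kk e (((-1 / 2 : ℝ) : ℂ) + t * I) * y ^ (-(((-1 / 2 : ℝ) : ℂ) + t * I)) := by
      congr 1
      funext t
      apply hkey
      intro h
      have := congrArg Complex.re h
      simp at this
    rw [hI1, hI2] at hv
    have hF0 : F 0 = ((2 * π : ℂ) ^ ((0 : ℂ) - 1)) ^ 3 * cexp (-(π * I * (1 - 0) * e / 2)) := by
      simp only [hF]
      simp [Complex.Gamma_one]
    rw [← hF0]
    have hJ1 : JJ (1 / 2) e y = (1 / (2 * π)) *
        ∫ t : ℝ, kk e (((1 / 2 : ℝ) : ℂ) + t * I) * y ^ (-(((1 / 2 : ℝ) : ℂ) + t * I)) := rfl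
    have hJ2 : JJ (-1 / 2) e y = (1 / (2 * π)) *
        ∫ t : ℝ, kk e (((-1 / 2 : ℝ) : ℂ) + t * I) * y ^ (-(((-1 / 2 : ℝ) : ℂ) + t * I)) := rfl
    rw [hJ1, hJ2]
    have hpi : (2 * π : ℂ) ≠ 0 := MP069854.twopi_ne
    have h1 : (∫ t : ℝ, kk e (((-1 / 2 : ℝ) : ℂ) + t * I) * y ^ (-(((-1 / 2 : ℝ) : ℂ) + t * I))) =
        (∫ t : ℝ, kk e (((1 / 2 : ℝ) : ℂ) + t * I) * y ^ (-(((1 / 2 : ℝ) : ℂ) + t * I))) -
        2 * π * F 0 := by
      rw [← hv]
      ring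
    rw [h1, mul_sub]
    have h2 : (1 / (2 * π : ℂ)) * (2 * π * F 0) = F 0 := by
      rw [← mul_assoc, one_div, inv_mul_cancel₀ hpi, one_mul]
    rw [h2]

end S6

end

section

namespace SG
open Complex MeasureTheory Filter Topology Set
open scoped Real ComplexConjugate

theorem A3_Dt_meas : Measurable Dt := by
  unfold Dt wd
  fun_prop

theorem A3_inj : Function.Injective fun γ : SLZ => (γ.1 0 0, γ.1 0 1, γ.1 1 0, γ.1 1 1) := by
  intro γ γ' h
  simp only [Prod.mk.injEq] at h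
  obtain ⟨h1, h2, h3, h4⟩ := h
  ext r s
  fin_cases r <;> fin_cases s
  · exact h1
  · exact h2
  · exact h3
  · exact h4

theorem A3_geo {k : ℝ} (hk : 0 < k) : Summable fun n : ℤ => Real.exp (-(k * |(n : ℝ)|)) := by
  have h1 : Summable fun n : ℕ => Real.exp (-(k * n)) := by
    have := summable_geometric_of_lt_one (Real.exp_nonneg (-k))
      (Real.exp_lt_one_iff.2 (neg_lt_zero.2 hk))
    refine this.congr fun n => ?_
    rw [← Real.exp_nat_mul]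
    congr 1
    ring
  refine Summable.of_nat_of_neg ?_ ?_
  · refine h1.congr fun n => ?_
    rw [Int.cast_natCast, abs_of_nonneg (Nat.cast_nonneg n)]
  · refine h1.congr fun n => ?_
    rw [Int.cast_neg, Int.cast_natCast, abs_neg, abs_of_nonneg (Nat.cast_nonneg n)]

theorem A3_wd_le (u v : V2) : |wd u v| ≤ 2 * ‖u‖ * ‖v‖ := by
  have h1 : |u.1| ≤ ‖u‖ := norm_fst_le u
  have h2 : |u.2| ≤ ‖u‖ := norm_snd_le u
  have h3 : |v.1| ≤ ‖v‖ := norm_fst_le v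
  have h4 : |v.2| ≤ ‖v‖ := norm_snd_le v
  unfold wd
  have h5 : |u.1 * v.2| ≤ ‖u‖ * ‖v‖ := by
    rw [abs_mul]
    exact mul_le_mul h1 h4 (abs_nonneg _) (norm_nonneg _)
  have h6 : |u.2 * v.1| ≤ ‖u‖ * ‖v‖ := by
    rw [abs_mul]
    exact mul_le_mul h2 h3 (abs_nonneg _) (norm_nonneg _)
  have := abs_sub (u.1 * v.2) (u.2 * v.1)
  linarith

/-- a row `w = a u + b v` controls its coefficients -/
theorem A3_row (g : X4) (hg : 0 < Dt g) (a b : ℝ) :
    (|a| + |b|) * Dt g ≤ 4 * ‖g‖ * ‖a • g.1 + b • g.2‖ := by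
  have e1 : wd (a • g.1 + b • g.2) g.2 = a * Dt g := by
    simp only [wd, Dt, Prod.fst_add, Prod.snd_add, Prod.smul_fst, Prod.smul_snd, smul_eq_mul]
    ring
  have e2 : wd g.1 (a • g.1 + b • g.2) = b * Dt g := by
    simp only [wd, Dt, Prod.fst_add, Prod.snd_add, Prod.smul_fst, Prod.smul_snd, smul_eq_mul]
    ring
  have h1 := A3_wd_le (a • g.1 + b • g.2) g.2
  have h2 := A3_wd_le g.1 (a • g.1 + b • g.2)
  rw [e1, abs_mul, abs_of_pos hg] at h1
  rw [e2, abs_mul, abs_of_pos hg] at h2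
  have h3 : ‖g.1‖ ≤ ‖g‖ := norm_fst_le g
  have h4 : ‖g.2‖ ≤ ‖g‖ := norm_snd_le g
  have h5 := mul_le_mul_of_nonneg_left h4 (norm_nonneg (a • g.1 + b • g.2))
  have h6 := mul_le_mul_of_nonneg_left h3 (norm_nonneg (a • g.1 + b • g.2))
  nlinarith

theorem A3_summable (g : X4) (hg : 0 < Dt g) :
    Summable fun γ : SLZ => Real.exp (-‖act γ g‖ ^ 2) := by
  have hgn : 0 < ‖g‖ := by
    rw [norm_pos_iff]
    intro h
    rw [h] at hg
    simp [Dt, wd] at hg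
  -- kappa
  set κ : ℝ := Dt g / (8 * ‖g‖) with hκ
  have hκ0 : 0 < κ := by positivity
  have hbound : ∀ γ : SLZ, κ * (|((γ.1 0 0 : ℤ) : ℝ)| + |((γ.1 0 1 : ℤ) : ℝ)| +
      |((γ.1 1 0 : ℤ) : ℝ)| + |((γ.1 1 1 : ℤ) : ℝ)|) ≤ ‖act γ g‖ := by
    intro γ
    have r1 := A3_row g hg ((γ.1 0 0 : ℤ) : ℝ) ((γ.1 0 1 : ℤ) : ℝ)
    have r2 := A3_row g hg ((γ.1 1 0 : ℤ) : ℝ) ((γ.1 1 1 : ℤ) : ℝ)
    have n1 : ‖((γ.1 0 0 : ℤ) : ℝ) • g.1 + ((γ.1 0 1 : ℤ) : ℝ) • g.2‖ ≤ ‖act γ g‖ :=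
      norm_fst_le (act γ g)
    have n2 : ‖((γ.1 1 0 : ℤ) : ℝ) • g.1 + ((γ.1 1 1 : ℤ) : ℝ) • g.2‖ ≤ ‖act γ g‖ :=
      norm_snd_le (act γ g)
    have m1 := mul_le_mul_of_nonneg_left n1 (by positivity : 0 ≤ 4 * ‖g‖)
    have m2 := mul_le_mul_of_nonneg_left n2 (by positivity : 0 ≤ 4 * ‖g‖)
    rw [hκ, div_mul_eq_mul_div, div_le_iff₀ (by positivity)]
    nlinarith
  set q : ℤ → ℝ := fun n => Real.exp (-(2 * κ * |(n : ℝ)|)) with hq
  have hqs : Summable q := A3_geo (by positivity)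
  have hq0 : ∀ n, 0 ≤ q n := fun n => Real.exp_nonneg _
  have h2 : Summable fun x : ℤ × ℤ => q x.1 * q x.2 := hqs.mul_of_nonneg hqs hq0 hq0
  have h3 : Summable fun x : ℤ × ℤ × ℤ => q x.1 * (q x.2.1 * q x.2.2) :=
    hqs.mul_of_nonneg h2 hq0 (fun x => mul_nonneg (hq0 _) (hq0 _))
  have h4 : Summable fun x : ℤ × ℤ × ℤ × ℤ => q x.1 * (q x.2.1 * (q x.2.2.1 * q x.2.2.2)) :=
    hqs.mul_of_nonneg h3 hq0 (fun x => mul_nonneg (hq0 _) (mul_nonneg (hq0 _) (hq0 _)))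
  have h5 := (h4.comp_injective A3_inj).mul_left (Real.exp 1)
  refine Summable.of_nonneg_of_le (fun γ => Real.exp_nonneg _) (fun γ => ?_) h5
  simp only [Function.comp, hq]
  rw [← Real.exp_add, ← Real.exp_add, ← Real.exp_add, ← Real.exp_add]
  apply Real.exp_le_exp.2
  have hb := hbound γ
  nlinarith [sq_nonneg (‖act γ g‖ - 1)]

/-- **A3.** `Θ(g) = e^{-‖g‖²}/∑_{γ∈H} e^{-‖γ g‖²}` for `Dt g > 0` and `Θ = 0` otherwise. The sum is
finite: `‖(a u + b v, c u + d v)‖ ≥ κ (|a|+|b|+|c|+|d|)` with `κ = κ(g) > 0` (invert `g`), and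
`∑_{ℤ⁴} e^{-κ²(|a|+|b|+|c|+|d|)²} < ∞`. `Dt (γ g) = Dt g`, and reindex `γ ↦ γ γ'` in the group `H`.
Measurability: countable sum of continuous functions (`Measurable.tsum` for `ℝ≥0∞`, then `toReal`). -/
theorem theta (H : Subgroup SLZ) : ∃ Θ : X4 → ℝ, Measurable Θ ∧ (∀ g, 0 ≤ Θ g) ∧ (∀ g, Θ g ≤ 1) ∧
    ∀ g, 0 < Dt g → HasSum (fun γ : H => Θ (act (γ : SLZ) g)) 1 := by
  classical
  have hcount : Countable SLZ := A3_inj.countable
  set E : X4 → ENNReal := fun g => ∑' γ : H, ENNReal.ofReal (Real.exp (-‖act (γ : SLZ) g‖ ^ 2))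
    with hE
  have hEm : Measurable E := by
    rw [hE]
    refine Measurable.tsum fun γ => ?_
    exact ENNReal.measurable_ofReal.comp
      (Real.measurable_exp.comp (((act_meas (γ : SLZ)).norm.pow_const 2).neg))
  have hsum : ∀ g, 0 < Dt g → Summable fun γ : H => Real.exp (-‖act (γ : SLZ) g‖ ^ 2) :=
    fun g hg => (A3_summable g hg).comp_injective Subtype.val_injective
  have hES : ∀ g, 0 < Dt g → (E g).toReal = ∑' γ : H, Real.exp (-‖act (γ : SLZ) g‖ ^ 2) := by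
    intro g hg
    rw [hE]
    simp only
    rw [← ENNReal.ofReal_tsum_of_nonneg (fun γ => Real.exp_nonneg _) (hsum g hg),
      ENNReal.toReal_ofReal (tsum_nonneg fun γ => Real.exp_nonneg _)]
  have hge : ∀ g, 0 < Dt g → Real.exp (-‖g‖ ^ 2) ≤ (E g).toReal := by
    intro g hg
    rw [hES g hg]
    have h1 := (hsum g hg).le_tsum (1 : H) (fun γ _ => Real.exp_nonneg _)
    have h2 : act ((1 : H) : SLZ) g = g := act_one g
    rw [h2] at h1
    exact h1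
  refine ⟨fun g => if 0 < Dt g then Real.exp (-‖g‖ ^ 2) / (E g).toReal else 0, ?_, ?_, ?_, ?_⟩
  · refine Measurable.ite (measurableSet_lt measurable_const A3_Dt_meas) ?_ measurable_const
    exact (Real.measurable_exp.comp ((measurable_norm.pow_const 2).neg)).div hEm.ennreal_toReal
  · intro g
    simp only
    split_ifs
    · exact div_nonneg (Real.exp_nonneg _) ENNReal.toReal_nonneg
    · exact le_rfl
  · intro g
    simp only
    split_ifs with hg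
    · exact div_le_one_of_le₀ (hge g hg) ENNReal.toReal_nonneg
    · exact zero_le_one
  · intro g hg
    have hinv : ∀ γ' : H, E (act (γ' : SLZ) g) = E g := by
      intro γ'
      rw [hE]
      simp only
      rw [← (Equiv.mulRight γ').tsum_eq
        (fun γ : H => ENNReal.ofReal (Real.exp (-‖act (γ : SLZ) g‖ ^ 2)))]
      refine tsum_congr fun γ => ?_
      rw [← act_mul]
      rfl
    have hpos : 0 < (E g).toReal := (Real.exp_pos _).trans_le (hge g hg)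
    have h1 : HasSum (fun γ : H => Real.exp (-‖act (γ : SLZ) g‖ ^ 2)) (E g).toReal := by
      rw [hES g hg]
      exact (hsum g hg).hasSum
    have h2 := h1.div_const (E g).toReal
    rw [div_self hpos.ne'] at h2
    have h3 : (fun γ : H => if 0 < Dt (act (γ : SLZ) g) then
        Real.exp (-‖act (γ : SLZ) g‖ ^ 2) / (E (act (γ : SLZ) g)).toReal else 0) =
        fun γ : H => Real.exp (-‖act (γ : SLZ) g‖ ^ 2) / (E g).toReal := by
      funext γ
      rw [Dt_act, if_pos hg, hinv]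
    simp only
    rw [h3]
    exact h2

end SG

end

section

namespace SG
open Complex MeasureTheory Filter Topology Set
open scoped Real ComplexConjugate

theorem A4b_nonneg {α : Type*} [MeasurableSpace α] (μ : Measure α) (Θ : α → ℝ) (f : α → ℂ) (h0 : ∀ x, 0 ≤ Θ x) :
    0 ≤ (∫ x, (Θ x : ℂ) * (f x * conj (f x)) ∂μ).re := by
  have h1 : ∀ x, (Θ x : ℂ) * (f x * conj (f x)) = ((Θ x * normSq (f x) : ℝ) : ℂ) := by
    intro x
    rw [Complex.mul_conj]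
    push_cast
    ring
  have h2 : ∫ x, ((Θ x * normSq (f x) : ℝ) : ℂ) ∂μ = ((∫ x, Θ x * normSq (f x) ∂μ : ℝ) : ℂ) := integral_ofReal
  simp only [h1]
  rw [h2, Complex.ofReal_re]
  exact integral_nonneg fun x => mul_nonneg (h0 x) (normSq_nonneg _)

theorem A4b_cs {α : Type*} [MeasurableSpace α] (μ : Measure α) (Θ : α → ℝ) (f g : α → ℂ) (h0 : ∀ x, 0 ≤ Θ x)
    (hff : Integrable (fun x => (Θ x : ℂ) * (f x * conj (f x))) μ)
    (hgg : Integrable (fun x => (Θ x : ℂ) * (g x * conj (g x))) μ)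
    (hfg : Integrable (fun x => (Θ x : ℂ) * (f x * conj (g x))) μ) :
    ‖∫ x, (Θ x : ℂ) * (f x * conj (g x)) ∂μ‖ ^ 2 ≤
      (∫ x, (Θ x : ℂ) * (f x * conj (f x)) ∂μ).re * (∫ x, (Θ x : ℂ) * (g x * conj (g x)) ∂μ).re := by
  obtain ⟨J, hJ⟩ : ∃ J : ℂ, J = ∫ x, (Θ x : ℂ) * (f x * conj (g x)) ∂μ := ⟨_, rfl⟩
  obtain ⟨A, hA⟩ : ∃ A : ℝ, A = (∫ x, (Θ x : ℂ) * (f x * conj (f x)) ∂μ).re := ⟨_, rfl⟩
  obtain ⟨B, hB⟩ : ∃ B : ℝ, B = (∫ x, (Θ x : ℂ) * (g x * conj (g x)) ∂μ).re := ⟨_, rfl⟩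
  have hA0 : 0 ≤ A := by rw [hA]; exact A4b_nonneg μ Θ f h0
  have hB0 : 0 ≤ B := by rw [hB]; exact A4b_nonneg μ Θ g h0
  have hgf : Integrable (fun x => (Θ x : ℂ) * (g x * conj (f x))) μ := by
    have h1 := (Complex.conjCLE.toContinuousLinearMap.integrable_comp hfg)
    refine h1.congr (Filter.Eventually.of_forall fun x => ?_)
    show conj ((Θ x : ℂ) * (f x * conj (g x))) = (Θ x : ℂ) * (g x * conj (f x))
    simp only [map_mul, Complex.conj_ofReal, Complex.conj_conj]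
    ring
  have hgfi : ∫ x, (Θ x : ℂ) * (g x * conj (f x)) ∂μ = conj J := by
    rw [hJ, ← integral_conj]
    congr 1
    funext x
    simp only [map_mul, Complex.conj_ofReal, Complex.conj_conj]
    ring
  have hquad : ∀ t : ℝ, 0 ≤ (‖J‖ ^ 2 * B) * (t * t) + (-(2 * ‖J‖ ^ 2)) * t + A := by
    intro t
    have h1 := A4b_nonneg μ Θ (fun x => f x - (t : ℂ) * J * g x) h0
    have h2 : ∀ x, (Θ x : ℂ) * ((f x - (t : ℂ) * J * g x) * conj (f x - (t : ℂ) * J * g x)) =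
        (((Θ x : ℂ) * (f x * conj (f x)) - ((t : ℂ) * conj J) * ((Θ x : ℂ) * (f x * conj (g x)))) -
          ((t : ℂ) * J) * ((Θ x : ℂ) * (g x * conj (f x)))) +
          ((t : ℂ) * J * ((t : ℂ) * conj J)) * ((Θ x : ℂ) * (g x * conj (g x))) := by
      intro x
      simp only [map_sub, map_mul, Complex.conj_ofReal]
      ring
    simp only [h2] at h1
    have i1 : Integrable (fun x => (Θ x : ℂ) * (f x * conj (f x)) -
        ((t : ℂ) * conj J) * ((Θ x : ℂ) * (f x * conj (g x)))) μ := hff.sub (hfg.const_mul _)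
    have i2 : Integrable (fun x => ((Θ x : ℂ) * (f x * conj (f x)) -
        ((t : ℂ) * conj J) * ((Θ x : ℂ) * (f x * conj (g x)))) -
        ((t : ℂ) * J) * ((Θ x : ℂ) * (g x * conj (f x)))) μ := i1.sub (hgf.const_mul _)
    rw [integral_add i2 (hgg.const_mul _),
      integral_sub i1 (hgf.const_mul _), integral_sub hff (hfg.const_mul _),
      integral_const_mul, integral_const_mul, integral_const_mul, hgfi, ← hJ] at h1
    have h3 : ((t : ℂ) * conj J * J).re = t * ‖J‖ ^ 2 := by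
      rw [mul_assoc, mul_comm (conj J) J, Complex.mul_conj, Complex.normSq_eq_norm_sq]
      norm_cast
    have h4 : ((t : ℂ) * J * conj J).re = t * ‖J‖ ^ 2 := by
      rw [mul_assoc, Complex.mul_conj, Complex.normSq_eq_norm_sq]
      norm_cast
    have h5 : ((t : ℂ) * J * ((t : ℂ) * conj J) * ∫ x, (Θ x : ℂ) * (g x * conj (g x)) ∂μ).re = t * t * ‖J‖ ^ 2 * B := by
      have h6 : (t : ℂ) * J * ((t : ℂ) * conj J) = ((t * t * ‖J‖ ^ 2 : ℝ) : ℂ) := by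
        have h7 : (t : ℂ) * J * ((t : ℂ) * conj J) = (t : ℂ) * t * (J * conj J) := by ring
        rw [h7, Complex.mul_conj, Complex.normSq_eq_norm_sq]
        push_cast
        ring
      rw [h6, Complex.re_ofReal_mul, ← hB]
    rw [Complex.add_re, Complex.sub_re, Complex.sub_re, h3, h4, h5, ← hA] at h1
    linarith
  have hd := discrim_le_zero hquad
  unfold discrim at hd
  rw [← hJ, ← hA, ← hB]
  by_cases hJ0 : J = 0
  · rw [hJ0]
    simp only [norm_zero, ne_eq, OfNat.ofNat_ne_zero, not_false_eq_true, zero_pow]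
    positivity
  · have hJp : 0 < ‖J‖ ^ 2 := by
      have := norm_pos_iff.mpr hJ0
      positivity
    by_contra hcon
    rw [not_le] at hcon
    nlinarith [mul_lt_mul_of_pos_left hcon hJp]

/-- **A4b. Cauchy–Schwarz.** A3 and A4a with `(W',W) = (1,1), (W,W), (1,W)`; then Cauchy–Schwarz
`‖∫ Θ P conj Q‖² ≤ ∫ Θ |P|² ∫ Θ |Q|²` (`√Θ P`, `√Θ Q` are square integrable because A4a gives integrability of
`Θ |P|²`, `Θ |Q|²`; e.g. discriminant argument with `∫ Θ |P - λ Q|² ≥ 0`, or `L²` inner product). -/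
theorem cs_pair (H : Subgroup SLZ) (W : SLZ) {φ ψ : X4 → ℂ} (hφ : Adm φ) (hψ : Adm ψ) :
    0 ≤ (∑' γ : H, ∫ g : X4, φ g * conj (φ (act γ g))).re ∧
    0 ≤ (∑' γ : H, ∫ g : X4, ψ (act W g) * conj (ψ (act (W * γ) g))).re ∧
    ‖∑' γ : H, ∫ g : X4, φ g * conj (ψ (act (W * γ) g))‖ ^ 2 ≤
      (∑' γ : H, ∫ g : X4, φ g * conj (φ (act γ g))).re *
      (∑' γ : H, ∫ g : X4, ψ (act W g) * conj (ψ (act (W * γ) g))).re := by
  obtain ⟨Θ, hm, h0, h1, hs⟩ := theta H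
  obtain ⟨i1, e1⟩ := unfold_pair H 1 1 hφ hφ hm h0 h1 hs
  obtain ⟨i2, e2⟩ := unfold_pair H W W hψ hψ hm h0 h1 hs
  obtain ⟨i3, e3⟩ := unfold_pair H W 1 hφ hψ hm h0 h1 hs
  simp only [one_mul, act_one] at i1 e1 i3 e3
  rw [← e1, ← e2, ← e3]
  exact ⟨A4b_nonneg volume Θ _ h0, A4b_nonneg volume Θ _ h0, A4b_cs volume Θ _ _ h0 i1 i2 i3⟩

end SG

end

section

namespace SG
open Complex MeasureTheory Filter Topology Set
open scoped Real ComplexConjugate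

private theorem A5_mul (γ γ' : SLZ) (i j : Fin 2) :
    (γ * γ').1 i j = γ.1 i 0 * γ'.1 0 j + γ.1 i 1 * γ'.1 1 j := by
  change (γ.1 * γ'.1) i j = _
  rw [Matrix.mul_apply, Fin.sum_univ_two]

private theorem A5_inv (γ : SLZ) : (γ⁻¹).1 = !![γ.1 1 1, -γ.1 0 1; -γ.1 1 0, γ.1 0 0] := by
  rw [Matrix.SpecialLinearGroup.SL2_inv_expl]
  rfl

/-- the subgroup `{h ∣ b, s ∣ c}` -/
private def A5_H (h s : ℕ) : Subgroup SLZ where
  carrier := {γ | PA h s γ}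
  mul_mem' := by
    rintro γ γ' ⟨h1, h2⟩ ⟨h3, h4⟩
    refine ⟨?_, ?_⟩
    · rw [A5_mul]
      exact dvd_add (h3.mul_left _) (h1.mul_right _)
    · rw [A5_mul]
      exact dvd_add (h2.mul_right _) (h4.mul_left _)
  one_mem' := by
    refine ⟨?_, ?_⟩ <;> simp
  inv_mem' := by
    rintro γ ⟨h1, h2⟩
    refine ⟨?_, ?_⟩
    · rw [A5_inv]; simpa using h1
    · rw [A5_inv]; simpa using h2

private theorem A5_mem {h s : ℕ} {γ : SLZ} : γ ∈ A5_H h s ↔ PA h s γ := Iff.rfl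

/-- `act W` as a measurable equivalence -/
private def A5_equiv (W : SLZ) : X4 ≃ᵐ X4 where
  toFun := act W
  invFun := act W⁻¹
  left_inv g := by rw [← act_mul, inv_mul_cancel, act_one]
  right_inv g := by rw [← act_mul, mul_inv_cancel, act_one]
  measurable_toFun := act_meas W
  measurable_invFun := act_meas W⁻¹

/-- **A5.** Apply A4b with `H = {γ : h ∣ b, s ∣ c}` (a subgroup) and `W = [[a₀,b₀],[s, h d₀]]`,
`a₀ h d₀ - s b₀ = 1` (exists since `(h,s) = 1`). `W H = {M : s ∣ M₁₀, h ∣ M₁₁}` and `W H W⁻¹ = Γ₀(h s)`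
(check the entries modulo `h` and modulo `s`; `M, M'` with `s ∣ c`, `h ∣ d` satisfy `M⁻¹M' ∈ H`,
`M' M⁻¹ ∈ Γ₀(hs)`). Second factor: substitute `g ↦ W⁻¹ g` (measure preserving). -/
theorem cs_main {h s : ℕ} (hh : 0 < h) (hs : 0 < s) (hco : Nat.Coprime h s) {φ ψ : X4 → ℂ}
    (hφ : Adm φ) (hψ : Adm ψ) :
    0 ≤ (pair (PA h s) φ φ).re ∧ 0 ≤ (pair (PG (h * s)) ψ ψ).re ∧
    ‖pair (PW h s) φ ψ‖ ^ 2 ≤ (pair (PA h s) φ φ).re * (pair (PG (h * s)) ψ ψ).re := by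
  obtain ⟨x, y, hxy⟩ : ∃ x y : ℤ, (h : ℤ) * x + s * y = 1 := by
    have := (Int.isCoprime_iff_gcd_eq_one (m := (h : ℤ)) (n := (s : ℤ))).mpr (by simpa using hco)
    obtain ⟨a, b, hab⟩ := this
    exact ⟨a, b, by linear_combination hab⟩
  set W : SLZ := ⟨!![1, -y; s, h * x], by rw [Matrix.det_fin_two_of]; linear_combination hxy⟩ with hW
  have hW00 : W.1 0 0 = 1 := rfl
  have hW01 : W.1 0 1 = -y := rfl
  have hW10 : W.1 1 0 = s := rfl
  have hW11 : W.1 1 1 = h * x := rfl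
  have hV00 : (W⁻¹).1 0 0 = h * x := by rw [A5_inv]; simp [hW11]
  have hV01 : (W⁻¹).1 0 1 = y := by rw [A5_inv]; simp [hW01]
  have hV10 : (W⁻¹).1 1 0 = -s := by rw [A5_inv]; simp [hW10]
  have hV11 : (W⁻¹).1 1 1 = 1 := by rw [A5_inv]; simp [hW00]
  -- first equivalence
  have e1 : ∀ γ : SLZ, γ ∈ A5_H h s ↔ PW h s (W * γ) := by
    intro γ
    constructor
    · rintro ⟨h1, h2⟩
      refine ⟨?_, ?_⟩
      · rw [A5_mul, hW10, hW11]
        exact dvd_add (dvd_mul_right _ _) (h2.mul_left _)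
      · rw [A5_mul, hW10, hW11]
        exact dvd_add (h1.mul_left _) ((dvd_mul_right _ _).mul_right _)
    · rintro ⟨h1, h2⟩
      have hγ : γ = W⁻¹ * (W * γ) := by rw [inv_mul_cancel_left]
      rw [A5_mem, hγ]
      refine ⟨?_, ?_⟩
      · rw [A5_mul, hV00, hV01]
        exact dvd_add ((dvd_mul_right _ _).mul_right _) (h2.mul_left _)
      · rw [A5_mul, hV10, hV11, one_mul]
        exact dvd_add ((dvd_neg.mpr (dvd_refl _)).mul_right _) h1
  have e2 : ∀ γ : SLZ, γ ∈ A5_H h s ↔ PG (h * s) (W * γ * W⁻¹) := by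
    intro γ
    constructor
    · rintro ⟨⟨k, hk⟩, ⟨l, hl⟩⟩
      unfold PG
      rw [A5_mul, A5_mul, A5_mul, hW10, hW11, hV00, hV10, hk, hl]
      push_cast
      exact ⟨γ.1 0 0 * x + h * x * l * x - s * k - x * γ.1 1 1, by ring⟩
    · intro h1
      unfold PG at h1
      obtain ⟨M, hM⟩ : ∃ M : SLZ, M = W * γ * W⁻¹ := ⟨_, rfl⟩
      have hγ : γ = W⁻¹ * M * W := by rw [hM]; group
      rw [← hM] at h1
      push_cast at h1
      obtain ⟨k, hk⟩ := h1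
      rw [A5_mem, hγ]
      refine ⟨?_, ?_⟩
      · rw [A5_mul, A5_mul, A5_mul, hV00, hV01, hW01, hW11, hk]
        exact ⟨-x * M.1 0 0 * y - y * s * k * y + (h * x * M.1 0 1 + y * M.1 1 1) * x, by ring⟩
      · rw [A5_mul, A5_mul, A5_mul, hV10, hV11, hW00, hW10, hk]
        exact ⟨-M.1 0 0 + h * k - s * M.1 0 1 + M.1 1 1, by ring⟩
  obtain ⟨c1, c2, c3⟩ := cs_pair (A5_H h s) W hφ hψ
  have p1 : ∑' γ : A5_H h s, ∫ g : X4, φ g * conj (φ (act γ g)) = pair (PA h s) φ φ := rfl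
  have p2 : ∑' γ : A5_H h s, ∫ g : X4, φ g * conj (ψ (act (W * γ) g)) = pair (PW h s) φ ψ := by
    unfold pair
    let e : A5_H h s ≃ {γ : SLZ // PW h s γ} :=
      Equiv.subtypeEquiv (Equiv.mulLeft W) (fun γ => by simpa using e1 γ)
    exact e.tsum_eq (fun γ : {γ : SLZ // PW h s γ} => ∫ g : X4, φ g * conj (ψ (act γ g)))
  have p3 : ∑' γ : A5_H h s, ∫ g : X4, ψ (act W g) * conj (ψ (act (W * γ) g)) =
      pair (PG (h * s)) ψ ψ := by
    unfold pair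
    let e : A5_H h s ≃ {γ : SLZ // PG (h * s) γ} :=
      Equiv.subtypeEquiv (MulAut.conj W).toEquiv (fun γ => by simpa using e2 γ)
    rw [← e.tsum_eq (fun γ : {γ : SLZ // PG (h * s) γ} => ∫ g : X4, ψ g * conj (ψ (act γ g)))]
    refine tsum_congr fun γ => ?_
    have hmp : MeasurePreserving (A5_equiv W) volume volume := act_mp W
    rw [← hmp.integral_comp' (fun g => ψ g * conj (ψ (act (e γ : SLZ) g)))]
    refine integral_congr_ae (Filter.Eventually.of_forall fun g => ?_)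
    have h1 : (A5_equiv W) g = act W g := rfl
    have h2 : ((e γ : {γ : SLZ // PG (h * s) γ}) : SLZ) = W * γ * W⁻¹ := rfl
    simp only [h1, h2]
    rw [← act_mul, inv_mul_cancel_right]
  rw [p1] at c1 c3
  rw [p3] at c2 c3
  rw [p2] at c3
  exact ⟨c1, c2, c3⟩

end SG

end
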