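import Pool.Agent.Lib.MP_39df77_nt.S6Defs

namespace S6
open Complex MeasureTheory Filter Topology Set
open scoped Real ComplexConjugate

theorem elem_exp_le {t : ℝ} (ht : 0 < t) : Real.exp (-t) ≤ t ^ (-(3 / 4) : ℝ) := by
  rw [Real.rpow_def_of_pos ht]
  apply Real.exp_le_exp.2
  have := Real.log_le_sub_one_of_pos ht
  nlinarith

theorem elem_root {m : ℕ} (hm : 0 < m) {u : ℂ} (hu : u ^ m = 1) (hu1 : u ≠ 1) :
    2 / (m : ℝ) ≤ ‖1 - u‖ := by
  have hnu : ‖u‖ = 1 := Complex.norm_eq_one_of_pow_eq_one hu hm.ne'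
  have hgs : ∑ j ∈ Finset.range m, u ^ j = 0 := by
    have := geom_sum_mul u m
    rw [hu, sub_self] at this
    exact (mul_eq_zero.1 this).resolve_right (sub_ne_zero.2 hu1)
  have hj : ∀ j : ℕ, ‖1 - u ^ j‖ ≤ j * ‖1 - u‖ := by
    intro j
    induction j with
    | zero => simp
    | succ j ih =>
      have : 1 - u ^ (j + 1) = (1 - u) + u * (1 - u ^ j) := by ring
      rw [this]
      calc _ ≤ ‖1 - u‖ + ‖u * (1 - u ^ j)‖ := norm_add_le _ _
        _ = ‖1 - u‖ + ‖1 - u ^ j‖ := by rw [norm_mul, hnu, one_mul]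
        _ ≤ _ := by push_cast; linarith
  have h1 : (m : ℝ) ≤ ∑ j ∈ Finset.range m, (j : ℝ) * ‖1 - u‖ := by
    calc (m : ℝ) = ‖∑ j ∈ Finset.range m, (1 - u ^ j)‖ := by
          rw [Finset.sum_sub_distrib, hgs]; simp
      _ ≤ ∑ j ∈ Finset.range m, ‖1 - u ^ j‖ := norm_sum_le _ _
      _ ≤ _ := Finset.sum_le_sum fun j _ => hj j
  rw [← Finset.sum_mul] at h1
  have h2 : (∑ j ∈ Finset.range m, (j : ℝ)) * 2 = m * (m - 1) := by
    have := Finset.sum_range_id_mul_two m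
    have h3 : (((∑ i ∈ Finset.range m, i) * 2 : ℕ) : ℝ) = ((m * (m - 1) : ℕ) : ℝ) := by rw [this]
    rw [Nat.cast_mul, Nat.cast_mul, Nat.cast_sum, Nat.cast_sub hm] at h3
    simpa using h3
  have hm' : (0 : ℝ) < m := Nat.cast_pos.2 hm
  have h0 : 0 ≤ ‖1 - u‖ := norm_nonneg _
  rw [div_le_iff₀ hm']
  have h4 : (m : ℝ) * 2 ≤ (m * (m - 1)) * ‖1 - u‖ := by
    rw [← h2]; linarith
  have h5 : (m : ℝ) * 2 ≤ m * ((m - 1) * ‖1 - u‖) := by rw [← mul_assoc]; exact h4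
  have h6 := le_of_mul_le_mul_left h5 hm'
  nlinarith

theorem elem_half {r : ℝ} (hr0 : 0 ≤ r) (hr1 : r ≤ 1) {u : ℂ} (hu : ‖u‖ = 1) :
    ‖1 - u‖ / 2 ≤ ‖1 - (r : ℂ) * u‖ := by
  have h1 : ‖1 - u‖ ≤ ‖1 - (r : ℂ) * u‖ + (1 - r) := by
    have : 1 - u = (1 - (r : ℂ) * u) + -((1 - r : ℝ) * u) := by push_cast; ring
    rw [this]
    refine (norm_add_le _ _).trans ?_
    rw [norm_neg, norm_mul, hu, mul_one, Complex.norm_real, Real.norm_of_nonneg (by linarith)]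
  have h2 : 1 - r ≤ ‖1 - (r : ℂ) * u‖ := by
    have := norm_sub_norm_le (1 : ℂ) ((r : ℂ) * u)
    rwa [norm_mul, hu, mul_one, Complex.norm_real, Real.norm_of_nonneg hr0, norm_one] at this
  linarith

/-- the general term -/
noncomputable def elemG (W : ℂ) (n : ℕ × ℕ × ℕ) : ℂ :=
  cexp (-((((n.1 + 1) * (n.2.1 + 1) * (n.2.2 + 1) : ℕ) : ℂ) * W))

theorem elem_norm (W : ℂ) (x : ℕ × ℕ × ℕ) :
    ‖elemG W x‖ = Real.exp (-((((x.1 + 1) * (x.2.1 + 1) * (x.2.2 + 1) : ℕ) : ℝ) * W.re)) := by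
  unfold elemG
  rw [Complex.norm_exp, Complex.neg_re, ← Complex.ofReal_natCast, Complex.re_ofReal_mul]

theorem elem_exp_le2 {t : ℝ} (ht : 0 < t) : Real.exp (-t) ≤ 2 * (t ^ 2)⁻¹ := by
  rw [Real.exp_neg]
  have h1 : t ^ 2 / 2 ≤ Real.exp t := by
    have := Real.quadratic_le_exp_of_nonneg ht.le
    nlinarith
  have h2 : 0 < t ^ 2 / 2 := by positivity
  calc (Real.exp t)⁻¹ ≤ (t ^ 2 / 2)⁻¹ := inv_anti₀ h2 h1
    _ = _ := by field_simp

theorem elem_sum2 : Summable fun u : ℕ => (((u : ℝ) + 1) ^ 2)⁻¹ := by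
  have := (Real.summable_nat_pow_inv (p := 2)).2 (by norm_num)
  have h := (summable_nat_add_iff 1).2 this
  simpa using h

theorem elem_summable {W : ℂ} (hW : 0 < W.re) : Summable (fun x => ‖elemG W x‖) := by
  have hs : Summable fun x : ℕ × ℕ × ℕ =>
      (((x.1 : ℝ) + 1) ^ 2)⁻¹ * ((((x.2.1 : ℝ) + 1) ^ 2)⁻¹ * (((x.2.2 : ℝ) + 1) ^ 2)⁻¹) := by
    refine elem_sum2.mul_of_nonneg (elem_sum2.mul_of_nonneg elem_sum2 ?_ ?_) ?_ ?_
    all_goals intro x; dsimp; positivity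
  refine Summable.of_nonneg_of_le (fun _ => norm_nonneg _) (fun x => ?_)
    (hs.mul_left (2 * (W.re ^ 2)⁻¹))
  rw [elem_norm]
  refine (elem_exp_le2 (by positivity)).trans (le_of_eq ?_)
  push_cast
  rw [mul_pow, mul_pow, mul_pow, mul_inv, mul_inv, mul_inv]
  ring

/-- the majorant -/
noncomputable def elemK (p : ℕ × ℕ) : ℝ :=
  ((p.1 : ℝ) + 1) ^ (-(9 / 8) : ℝ) * ((p.2 : ℝ) + 1) ^ (-(9 / 8) : ℝ)

theorem elemK_nonneg (p : ℕ × ℕ) : 0 ≤ elemK p := by unfold elemK; positivity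

theorem elemK_summable : Summable elemK := by
  have h1 : Summable fun u : ℕ => ((u : ℝ) + 1) ^ (-(9 / 8) : ℝ) := by
    have := Real.summable_nat_rpow.2 (show (-(9 / 8) : ℝ) < -1 by norm_num)
    have h := (summable_nat_add_iff 1).2 this
    simpa using h
  refine h1.mul_of_nonneg h1 ?_ ?_
  all_goals intro x; dsimp; positivity

/-- `e^{-tη} ≤ η^{-3/4} K` if `t² ≥ (pq)³` -/
theorem elem_bd {η : ℝ} (hη : 0 < η) {t : ℝ} (p : ℕ × ℕ) (ht : 0 < t)
    (h : (((p.1 : ℝ) + 1) * ((p.2 : ℝ) + 1)) ^ 3 ≤ t ^ 2) :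
    Real.exp (-(t * η)) ≤ η ^ (-(3 / 4) : ℝ) * elemK p := by
  refine (elem_exp_le (mul_pos ht hη)).trans ?_
  rw [Real.mul_rpow ht.le hη.le, mul_comm]
  refine mul_le_mul_of_nonneg_left ?_ (by positivity)
  unfold elemK
  set q : ℝ := ((p.1 : ℝ) + 1) * ((p.2 : ℝ) + 1) with hq
  have hq0 : 0 < q := by positivity
  rw [← Real.mul_rpow (by positivity) (by positivity), ← hq]
  have h1 : t ^ (-(3 / 4) : ℝ) = (t ^ 2) ^ (-(3 / 8) : ℝ) := by
    rw [← Real.rpow_natCast, ← Real.rpow_mul ht.le]; norm_num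
  have h2 : q ^ (-(9 / 8) : ℝ) = (q ^ 3) ^ (-(3 / 8) : ℝ) := by
    rw [← Real.rpow_natCast, ← Real.rpow_mul hq0.le]; norm_num
  rw [h1, h2]
  exact Real.rpow_le_rpow_of_nonpos (by positivity) h (by norm_num)

/-- `x.1` is the strict maximum -/
def elemA1 : Set (ℕ × ℕ × ℕ) := {x | x.2.1 < x.1 ∧ x.2.2 < x.1}
def elemA2 : Set (ℕ × ℕ × ℕ) := {x | x.1 < x.2.1 ∧ x.2.2 < x.2.1}
def elemA3 : Set (ℕ × ℕ × ℕ) := {x | x.2.1 < x.2.2 ∧ x.1 < x.2.2}

/-- the complement -/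
def elemR : Set (ℕ × ℕ × ℕ) := {x | ¬(x.2.1 < x.1 ∧ x.2.2 < x.1) ∧ ¬(x.1 < x.2.1 ∧ x.2.2 < x.2.1) ∧
  ¬(x.2.1 < x.2.2 ∧ x.1 < x.2.2)}

def elemB1 : Set (ℕ × ℕ × ℕ) := {x | x.2.1 = x.2.2 ∧ x.1 ≤ x.2.1}
def elemB2 : Set (ℕ × ℕ × ℕ) := {x | x.1 = x.2.2 ∧ x.2.1 ≤ x.1}
def elemB3 : Set (ℕ × ℕ × ℕ) := {x | x.2.1 = x.1 ∧ x.2.2 ≤ x.2.1}

/-- swap of the first two coordinates -/
def elemS2 : ℕ × ℕ × ℕ ≃ ℕ × ℕ × ℕ where
  toFun x := (x.2.1, x.1, x.2.2)
  invFun x := (x.2.1, x.1, x.2.2)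
  left_inv _ := rfl
  right_inv _ := rfl

/-- swap of the first and third coordinates -/
def elemS3 : ℕ × ℕ × ℕ ≃ ℕ × ℕ × ℕ where
  toFun x := (x.2.2, x.2.1, x.1)
  invFun x := (x.2.2, x.2.1, x.1)
  left_inv _ := rfl
  right_inv _ := rfl

theorem elemG_S2 (W : ℂ) (x : ℕ × ℕ × ℕ) : elemG W (elemS2 x) = elemG W x := by
  simp only [elemG, elemS2, Equiv.coe_fn_mk]
  rw [mul_comm (x.2.1 + 1) (x.1 + 1)]

theorem elemG_S3 (W : ℂ) (x : ℕ × ℕ × ℕ) : elemG W (elemS3 x) = elemG W x := by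
  simp only [elemG, elemS3, Equiv.coe_fn_mk]
  rw [show (x.2.2 + 1) * (x.2.1 + 1) * (x.1 + 1) = (x.1 + 1) * (x.2.1 + 1) * (x.2.2 + 1) by ring]

theorem elem_split {E : Type*} [NormedAddCommGroup E] [CompleteSpace E] (f : ℕ × ℕ × ℕ → E)
    (hf : Summable fun x => ‖f x‖) :
    ∑' x, f x = ∑' x, elemA1.indicator f x + ∑' x, elemA2.indicator f x +
      ∑' x, elemA3.indicator f x + ∑' x, elemR.indicator f x := by
  have hs : ∀ A : Set (ℕ × ℕ × ℕ), Summable (A.indicator f) := fun A =>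
    (hf.of_norm).indicator A
  rw [← (hs _).tsum_add (hs _), ← ((hs _).add (hs _)).tsum_add (hs _),
    ← (((hs _).add (hs _)).add (hs _)).tsum_add (hs _)]
  refine tsum_congr fun x => ?_
  classical
  simp only [Set.indicator_apply, elemA1, elemA2, elemA3, elemR, Set.mem_ofPred_eq]
  by_cases h1 : x.2.1 < x.1 ∧ x.2.2 < x.1
  · have h2 : ¬(x.1 < x.2.1 ∧ x.2.2 < x.2.1) := by omega
    have h3 : ¬(x.2.1 < x.2.2 ∧ x.1 < x.2.2) := by omega
    simp [h1, h2, h3]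
  · by_cases h2 : x.1 < x.2.1 ∧ x.2.2 < x.2.1
    · have h3 : ¬(x.2.1 < x.2.2 ∧ x.1 < x.2.2) := by omega
      simp [h1, h2, h3]
    · by_cases h3 : x.2.1 < x.2.2 ∧ x.1 < x.2.2
      · simp [h1, h2, h3]
      · simp [h1, h2, h3]

theorem elem_A2 (W : ℂ) : ∑' x, elemA2.indicator (elemG W) x = ∑' x, elemA1.indicator (elemG W) x := by
  rw [← elemS2.tsum_eq]
  refine tsum_congr fun x => ?_
  classical
  simp only [Set.indicator_apply, elemG_S2]
  simp only [elemA1, elemA2, elemS2, Equiv.coe_fn_mk, Set.mem_ofPred_eq]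
  congr

theorem elem_A3 (W : ℂ) : ∑' x, elemA3.indicator (elemG W) x = ∑' x, elemA1.indicator (elemG W) x := by
  rw [← elemS3.tsum_eq]
  refine tsum_congr fun x => ?_
  classical
  simp only [Set.indicator_apply, elemG_S3]
  simp only [elemA1, elemA3, elemS3, Equiv.coe_fn_mk, Set.mem_ofPred_eq]
  congr

theorem elem_B2 (W : ℂ) : ∑' x, elemB2.indicator (fun x => ‖elemG W x‖) x =
    ∑' x, elemB1.indicator (fun x => ‖elemG W x‖) x := by
  rw [← elemS2.tsum_eq]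
  refine tsum_congr fun x => ?_
  classical
  simp only [Set.indicator_apply, elemG_S2]
  simp only [elemB1, elemB2, elemS2, Equiv.coe_fn_mk, Set.mem_ofPred_eq]
  congr

theorem elem_B3 (W : ℂ) : ∑' x, elemB3.indicator (fun x => ‖elemG W x‖) x =
    ∑' x, elemB1.indicator (fun x => ‖elemG W x‖) x := by
  rw [← elemS3.tsum_eq]
  refine tsum_congr fun x => ?_
  classical
  simp only [Set.indicator_apply, elemG_S3]
  simp only [elemB1, elemB3, elemS3, Equiv.coe_fn_mk, Set.mem_ofPred_eq]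
  congr

theorem elem_B1 {W : ℂ} (hW : 0 < W.re) : ∑' x, elemB1.indicator (fun x => ‖elemG W x‖) x ≤
    W.re ^ (-(3 / 4) : ℝ) * ∑' p, elemK p := by
  have hsum := elem_summable hW
  let ι : ℕ × ℕ → ℕ × ℕ × ℕ := fun p => (p.1, p.2, p.2)
  have hι : Function.Injective ι := by
    intro p q h
    simp only [ι, Prod.mk.injEq] at h
    exact Prod.ext h.1 h.2.1
  have h1 : Function.support (elemB1.indicator (fun x => ‖elemG W x‖)) ⊆ range ι := by
    intro x hx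
    have hx' : x ∈ elemB1 := Set.mem_of_indicator_ne_zero hx
    refine ⟨(x.1, x.2.1), ?_⟩
    simp only [ι]
    exact Prod.ext rfl (Prod.ext rfl hx'.1)
  rw [← hι.tsum_eq h1, ← tsum_mul_left]
  refine Summable.tsum_le_tsum (fun p => ?_) ((hsum.indicator elemB1).comp_injective hι)
    (elemK_summable.mul_left _)
  classical
  simp only [Set.indicator_apply]
  split_ifs with h
  · rw [elem_norm]
    have hle : p.1 ≤ p.2 := h.2
    refine elem_bd hW p (by positivity) ?_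
    simp only [ι]
    push_cast
    have h3 : (p.1 : ℝ) + 1 ≤ (p.2 : ℝ) + 1 := by exact_mod_cast Nat.succ_le_succ hle
    have h4 : (0 : ℝ) < (p.1 : ℝ) + 1 := by positivity
    have h5 : (0 : ℝ) < (p.2 : ℝ) + 1 := by positivity
    have : ((p.1 : ℝ) + 1) ^ 2 * ((p.2 : ℝ) + 1) ^ 3 * ((p.1 : ℝ) + 1) ≤
        ((p.1 : ℝ) + 1) ^ 2 * ((p.2 : ℝ) + 1) ^ 3 * ((p.2 : ℝ) + 1) :=
      mul_le_mul_of_nonneg_left h3 (by positivity)
    nlinarith [this]
  · exact mul_nonneg (by positivity) (elemK_nonneg p)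

theorem elem_R {W : ℂ} (hW : 0 < W.re) : ‖∑' x, elemR.indicator (elemG W) x‖ ≤
    3 * (W.re ^ (-(3 / 4) : ℝ) * ∑' p, elemK p) := by
  have hsum := elem_summable hW
  have hs : ∀ A : Set (ℕ × ℕ × ℕ), Summable (A.indicator (fun x => ‖elemG W x‖)) := fun A =>
    hsum.indicator A
  have h0 : ∀ x, ‖elemR.indicator (elemG W) x‖ = elemR.indicator (fun x => ‖elemG W x‖) x := fun x =>
    norm_indicator_eq_indicator_norm _ _
  have hR : Summable (fun x => ‖elemR.indicator (elemG W) x‖) := by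
    simp only [h0]; exact hs _
  refine (norm_tsum_le_tsum_norm hR).trans ?_
  simp only [h0]
  have h1 : ∑' x, elemR.indicator (fun x => ‖elemG W x‖) x ≤
      ∑' x, elemB1.indicator (fun x => ‖elemG W x‖) x + ∑' x, elemB2.indicator (fun x => ‖elemG W x‖) x +
      ∑' x, elemB3.indicator (fun x => ‖elemG W x‖) x := by
    rw [← (hs _).tsum_add (hs _), ← ((hs _).add (hs _)).tsum_add (hs _)]
    refine Summable.tsum_le_tsum (fun x => ?_) (hs _) (((hs _).add (hs _)).add (hs _))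
    classical
    have hn : 0 ≤ ‖elemG W x‖ := norm_nonneg _
    by_cases hx : x ∈ elemR
    · rw [Set.indicator_of_mem hx]
      have hx' : x ∈ elemB1 ∨ x ∈ elemB2 ∨ x ∈ elemB3 := by
        simp only [elemR, elemB1, elemB2, elemB3, Set.mem_ofPred_eq] at hx ⊢
        omega
      have hi : ∀ A : Set (ℕ × ℕ × ℕ), 0 ≤ A.indicator (fun x => ‖elemG W x‖) x := fun A =>
        Set.indicator_nonneg (fun _ _ => norm_nonneg _) _
      rcases hx' with h | h | h
      · have := hi elemB2; have := hi elemB3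
        rw [Set.indicator_of_mem h]; linarith
      · have := hi elemB1; have := hi elemB3
        rw [Set.indicator_of_mem h]; linarith
      · have := hi elemB1; have := hi elemB2
        rw [Set.indicator_of_mem h]; linarith
    · rw [Set.indicator_of_notMem hx]
      have hi : ∀ A : Set (ℕ × ℕ × ℕ), 0 ≤ A.indicator (fun x => ‖elemG W x‖) x := fun A =>
        Set.indicator_nonneg (fun _ _ => norm_nonneg _) _
      have := hi elemB1; have := hi elemB2; have := hi elemB3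
      linarith
  refine h1.trans ?_
  rw [elem_B2, elem_B3]
  have := elem_B1 hW
  linarith

/-- the sum over `A1` is a sum of geometric series -/
theorem elem_A1 {W : ℂ} (hW : 0 < W.re) :
    (Summable fun p : ℕ × ℕ => cexp (-(((mx p + 1 : ℕ) : ℂ) * ((pq p : ℕ) * W))) *
      (1 - cexp (-((pq p : ℕ) * W)))⁻¹) ∧
    ∑' x, elemA1.indicator (elemG W) x =
      ∑' p : ℕ × ℕ, cexp (-(((mx p + 1 : ℕ) : ℂ) * ((pq p : ℕ) * W))) *
        (1 - cexp (-((pq p : ℕ) * W)))⁻¹ := by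
  have hsum := elem_summable hW
  let ι : (ℕ × ℕ) × ℕ → ℕ × ℕ × ℕ := fun q => (mx q.1 + q.2, q.1.1, q.1.2)
  have hι : Function.Injective ι := by
    intro p q h
    simp only [ι, Prod.mk.injEq] at h
    have h1 : p.1 = q.1 := Prod.ext h.2.1 h.2.2
    have h2 := h.1
    rw [h1] at h2
    exact Prod.ext h1 (by omega)
  have hmem : ∀ q, ι q ∈ elemA1 := by
    intro q
    simp only [ι, elemA1, Set.mem_ofPred_eq, mx]
    omega
  have h1 : Function.support (elemA1.indicator (elemG W)) ⊆ range ι := by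
    intro x hx
    have hx' : x ∈ elemA1 := Set.mem_of_indicator_ne_zero hx
    refine ⟨(x.2, x.1 - mx x.2), ?_⟩
    simp only [ι]
    have h2 : mx x.2 + (x.1 - mx x.2) = x.1 := by
      simp only [elemA1, Set.mem_ofPred_eq] at hx'
      simp only [mx]; omega
    rw [h2]
  have hsι : Summable fun q => elemG W (ι q) := (hsum.of_norm).comp_injective hι
  have hgeo : ∀ p : ℕ × ℕ, HasSum (fun k : ℕ => elemG W (ι (p, k)))
      (cexp (-(((mx p + 1 : ℕ) : ℂ) * ((pq p : ℕ) * W))) * (1 - cexp (-((pq p : ℕ) * W)))⁻¹) := by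
    intro p
    have h2 : ∀ k : ℕ, elemG W (ι (p, k)) =
        cexp (-(((mx p + 1 : ℕ) : ℂ) * ((pq p : ℕ) * W))) * cexp (-((pq p : ℕ) * W)) ^ k := by
      intro k
      rw [← Complex.exp_nat_mul, ← Complex.exp_add]
      simp only [elemG, ι, pq]
      congr 1
      push_cast
      ring
    have hlt : ‖cexp (-((pq p : ℕ) * W))‖ < 1 := by
      rw [Complex.norm_exp, Complex.neg_re, ← Complex.ofReal_natCast, Complex.re_ofReal_mul]
      rw [Real.exp_lt_one_iff]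
      have : 0 < ((pq p : ℕ) : ℝ) := Nat.cast_pos.2 (Nat.mul_pos (Nat.succ_pos _) (Nat.succ_pos _))
      have := mul_pos this hW
      linarith
    rw [show (fun k : ℕ => elemG W (ι (p, k))) = _ from funext h2]
    exact (hasSum_geometric_of_norm_lt_one hlt).mul_left _
  have h3 := hsι.hasSum.prod_fiberwise hgeo
  refine ⟨h3.summable, ?_⟩
  rw [← hι.tsum_eq h1, h3.tsum_eq]
  refine tsum_congr fun q => ?_
  rw [Set.indicator_of_mem (hmem q)]

theorem elem_point {m n : ℕ} (hm : 0 < m) (hn : 0 < n) {Z : ℝ} (hZ : 0 < Z) (p : ℕ × ℕ) :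
    ‖cexp (-(((mx p + 1 : ℕ) : ℂ) * ((pq p : ℕ) * (((n : ℝ) / m : ℝ) * (2 * π * I + Z))))) *
        (1 - cexp (-((pq p : ℕ) * (((n : ℝ) / m : ℝ) * (2 * π * I + Z)))))⁻¹ - (tl m n Z p : ℂ)‖ ≤
      m * ((n * Z / m) ^ (-(3 / 4) : ℝ) * elemK p) := by
  have hm' : (0 : ℝ) < m := Nat.cast_pos.2 hm
  have hn' : (0 : ℝ) < n := Nat.cast_pos.2 hn
  have hmC : (m : ℂ) ≠ 0 := Nat.cast_ne_zero.2 hm.ne'
  have hη : 0 < n * Z / m := by positivity
  have hpq : 0 < ((pq p : ℕ) : ℝ) := Nat.cast_pos.2 (Nat.mul_pos (Nat.succ_pos _) (Nat.succ_pos _))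
  by_cases hd : m ∣ n * pq p
  · obtain ⟨l, hl⟩ := id hd
    have hlR : (n : ℝ) * pq p / m = l := by
      have : ((n * pq p : ℕ) : ℝ) = ((m * l : ℕ) : ℝ) := by rw [hl]
      push_cast at this
      rw [this]; field_simp
    have hlC : ((pq p : ℕ) : ℂ) * (((n : ℝ) / m : ℝ) * (2 * π * I + Z)) =
        l * (2 * π * I) + ((l * Z : ℝ) : ℂ) := by
      have : ((n * pq p : ℕ) : ℂ) = ((m * l : ℕ) : ℂ) := by rw [hl]
      push_cast at this
      push_cast
      field_simp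
      linear_combination (2 * π * I + Z) * this
    rw [hlC]
    have e1 : cexp (-(l * (2 * π * I) + ((l * Z : ℝ) : ℂ))) = ((Real.exp (-(l * Z)) : ℝ) : ℂ) := by
      rw [neg_add, Complex.exp_add, Complex.exp_neg (l * (2 * π * I)),
        Complex.exp_nat_mul_two_pi_mul_I, inv_one, one_mul, Complex.ofReal_exp]
      push_cast; rfl
    have e2 : cexp (-(((mx p + 1 : ℕ) : ℂ) * (l * (2 * π * I) + ((l * Z : ℝ) : ℂ)))) =
        ((Real.exp (-((mx p + 1 : ℝ) * l * Z)) : ℝ) : ℂ) := by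
      have : -(((mx p + 1 : ℕ) : ℂ) * (l * (2 * π * I) + ((l * Z : ℝ) : ℂ))) =
          -((((mx p + 1) * l : ℕ) : ℂ) * (2 * π * I)) + ((-((mx p + 1 : ℝ) * l * Z) : ℝ) : ℂ) := by
        push_cast; ring
      rw [this, Complex.exp_add, Complex.exp_neg, Complex.exp_nat_mul_two_pi_mul_I, inv_one, one_mul,
        Complex.ofReal_exp]
    rw [e1, e2]
    have e3 : tl m n Z p = Real.exp (-((mx p + 1 : ℝ) * l * Z)) * (1 - Real.exp (-(l * Z)))⁻¹ := by
      unfold tl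
      rw [if_pos hd, hlR, div_eq_mul_inv]
    rw [e3]
    push_cast
    rw [sub_self, norm_zero]
    have := elemK_nonneg p
    positivity
  · have e0 : tl m n Z p = 0 := by unfold tl; rw [if_neg hd]
    rw [e0, Complex.ofReal_zero, sub_zero, norm_mul, norm_inv]
    set r : ℝ := Real.exp (-((pq p : ℝ) * (n * Z / m))) with hr
    set u : ℂ := cexp (-(((n * pq p : ℕ) : ℂ) / m * (2 * π * I))) with hu
    have hru : cexp (-((pq p : ℕ) * (((n : ℝ) / m : ℝ) * (2 * π * I + Z)))) = (r : ℂ) * u := by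
      rw [hr, hu, Complex.ofReal_exp, ← Complex.exp_add]
      congr 1
      push_cast
      ring
    have hu1 : ‖u‖ = 1 := by
      have : u = cexp (((-((n * pq p : ℕ) / m * (2 * π)) : ℝ) : ℂ) * I) := by
        rw [hu]; congr 1; push_cast; ring
      rw [this, Complex.norm_exp_ofReal_mul_I]
    have hum : u ^ m = 1 := by
      rw [hu, ← Complex.exp_nat_mul]
      have : (m : ℂ) * -(((n * pq p : ℕ) : ℂ) / m * (2 * π * I)) =
          -(((n * pq p : ℕ) : ℂ) * (2 * π * I)) := by field_simp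
      rw [this, Complex.exp_neg, Complex.exp_nat_mul_two_pi_mul_I, inv_one]
    have hune : u ≠ 1 := by
      intro h
      rw [hu, Complex.exp_eq_one_iff] at h
      obtain ⟨k, hk⟩ := h
      apply hd
      have h2 : (2 * (π : ℂ) * I) ≠ 0 := Complex.two_pi_I_ne_zero
      have h3 : -(((n * pq p : ℕ) : ℂ) / m) = k := by
        have : (-(((n * pq p : ℕ) : ℂ) / m)) * (2 * π * I) = k * (2 * π * I) := by
          rw [← hk]; ring
        exact mul_right_cancel₀ h2 this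
      have h4 : ((n * pq p : ℕ) : ℂ) = ((m : ℤ) * (-k) : ℤ) := by
        push_cast
        push_cast at h3
        rw [← h3]; field_simp
      have h5 : ((n * pq p : ℕ) : ℤ) = (m : ℤ) * (-k) := by exact_mod_cast h4
      exact Int.natCast_dvd_natCast.1 ⟨-k, h5⟩
    have h6 := elem_root hm hum hune
    have h7 := elem_half (r := r) (Real.exp_pos _).le
      (Real.exp_le_one_iff.2 (by have := mul_pos hpq hη; linarith)) hu1
    have h8 : (m : ℝ)⁻¹ ≤ ‖1 - (r : ℂ) * u‖ := by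
      refine le_trans ?_ h7
      have : (m : ℝ)⁻¹ = 2 / m / 2 := by field_simp
      rw [this]; linarith
    have h9 : ‖1 - (r : ℂ) * u‖⁻¹ ≤ m := by
      have := inv_anti₀ (inv_pos.2 hm') h8
      rwa [inv_inv] at this
    rw [hru]
    have h10 : ‖cexp (-(((mx p + 1 : ℕ) : ℂ) * ((pq p : ℕ) * (((n : ℝ) / m : ℝ) * (2 * π * I + Z)))))‖ ≤
        (n * Z / m) ^ (-(3 / 4) : ℝ) * elemK p := by
      rw [Complex.norm_exp]
      have : (-(((mx p + 1 : ℕ) : ℂ) * ((pq p : ℕ) * (((n : ℝ) / m : ℝ) * (2 * π * I + Z))))).re =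
          -((((mx p : ℝ) + 1) * pq p) * (n * Z / m)) := by
        have : (-(((mx p + 1 : ℕ) : ℂ) * ((pq p : ℕ) * (((n : ℝ) / m : ℝ) * (2 * π * I + Z))))) =
            ((-((((mx p : ℝ) + 1) * pq p) * (n * Z / m)) : ℝ) : ℂ) +
            ((-((mx p + 1) * pq p * (n / m) * (2 * π)) : ℝ) : ℂ) * I := by
          push_cast; ring
        rw [this, Complex.add_re, Complex.ofReal_re, Complex.re_ofReal_mul, Complex.I_re, mul_zero,
          add_zero]
      rw [this]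
      refine elem_bd hη p (by positivity) ?_
      have h11 : (pq p : ℝ) = ((p.1 : ℝ) + 1) * ((p.2 : ℝ) + 1) := by unfold pq; push_cast; ring
      have h12 : ((p.1 : ℝ) + 1) ≤ (mx p : ℝ) := by
        have : p.1 + 1 ≤ mx p := le_max_left _ _
        exact_mod_cast this
      have h13 : ((p.2 : ℝ) + 1) ≤ (mx p : ℝ) := by
        have : p.2 + 1 ≤ mx p := le_max_right _ _
        exact_mod_cast this
      rw [h11] at hpq ⊢
      have ha : (0 : ℝ) < (p.1 : ℝ) + 1 := by positivity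
      have hb : (0 : ℝ) < (p.2 : ℝ) + 1 := by positivity
      have h14 : ((p.1 : ℝ) + 1) * ((p.2 : ℝ) + 1) ≤ ((mx p : ℝ) + 1) ^ 2 := by
        have := mul_le_mul h12 h13 hb.le (ha.le.trans h12)
        nlinarith
      have h15 := mul_le_mul_of_nonneg_right h14 (sq_nonneg (((p.1 : ℝ) + 1) * ((p.2 : ℝ) + 1)))
      nlinarith [h15]
    calc _ ≤ ((n * Z / m) ^ (-(3 / 4) : ℝ) * elemK p) * m :=
          mul_le_mul h10 h9 (inv_nonneg.2 (norm_nonneg _))
            (mul_nonneg (by positivity) (elemK_nonneg p))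
      _ = _ := mul_comm _ _

theorem elem : ∃ C : ℝ, 0 ≤ C ∧ ∀ m n : ℕ, 0 < m → 0 < n → ∀ Z : ℝ, 0 < Z →
    (Summable fun p : ℕ × ℕ => tl m n Z p) ∧
    ‖S3 (((n : ℝ) / m : ℝ) * (2 * π * I + Z)) - ((3 * ∑' p : ℕ × ℕ, tl m n Z p : ℝ) : ℂ)‖ ≤
      C * (m * (n * Z / m) ^ (-(3 / 4) : ℝ)) := by
  have hK : 0 ≤ ∑' p, elemK p := tsum_nonneg elemK_nonneg
  refine ⟨6 * ∑' p, elemK p, by positivity, ?_⟩
  intro m n hm hn Z hZ
  have hm' : (0 : ℝ) < m := Nat.cast_pos.2 hm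
  have hn' : (0 : ℝ) < n := Nat.cast_pos.2 hn
  set W : ℂ := ((n : ℝ) / m : ℝ) * (2 * π * I + Z) with hW
  have hWre : W.re = n * Z / m := by
    have : W = ((n * Z / m : ℝ) : ℂ) + ((n / m * (2 * π) : ℝ) : ℂ) * I := by
      rw [hW]; push_cast; ring
    rw [this, Complex.add_re, Complex.ofReal_re, Complex.re_ofReal_mul, Complex.I_re, mul_zero,
      add_zero]
  have hWpos : 0 < W.re := by rw [hWre]; positivity
  obtain ⟨hT, hA1⟩ := elem_A1 hWpos
  set T : ℕ × ℕ → ℂ := fun p => cexp (-(((mx p + 1 : ℕ) : ℂ) * ((pq p : ℕ) * W))) *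
    (1 - cexp (-((pq p : ℕ) * W)))⁻¹ with hTdef
  have hpt : ∀ p, ‖T p - (tl m n Z p : ℂ)‖ ≤ m * ((n * Z / m) ^ (-(3 / 4) : ℝ) * elemK p) :=
    fun p => elem_point hm hn hZ p
  have hKs : Summable fun p => m * ((n * Z / m) ^ (-(3 / 4) : ℝ) * elemK p) :=
    (elemK_summable.mul_left _).mul_left _
  have hds : Summable fun p => ‖T p - (tl m n Z p : ℂ)‖ :=
    Summable.of_nonneg_of_le (fun _ => norm_nonneg _) hpt hKs
  have htC : Summable fun p => (tl m n Z p : ℂ) := by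
    have := hT.sub hds.of_norm
    simpa using this
  have htR : Summable fun p => tl m n Z p := Complex.summable_ofReal.1 htC
  refine ⟨htR, ?_⟩
  have hS3 : S3 W = ∑' x, elemG W x := rfl
  rw [hS3, elem_split (elemG W) (elem_summable hWpos), elem_A2, elem_A3, hA1]
  have e1 : ((3 * ∑' p : ℕ × ℕ, tl m n Z p : ℝ) : ℂ) = 3 * ∑' p, (tl m n Z p : ℂ) := by
    push_cast; rfl
  rw [e1]
  have e2 : ∑' p, T p + ∑' p, T p + ∑' p, T p + ∑' x, elemR.indicator (elemG W) x -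
      3 * ∑' p, (tl m n Z p : ℂ) = 3 * ∑' p, (T p - (tl m n Z p : ℂ)) +
        ∑' x, elemR.indicator (elemG W) x := by
    rw [hT.tsum_sub htC]; ring
  rw [e2]
  have h3 : ‖∑' p, (T p - (tl m n Z p : ℂ))‖ ≤ m * ((n * Z / m) ^ (-(3 / 4) : ℝ) * ∑' p, elemK p) := by
    refine (norm_tsum_le_tsum_norm hds).trans ?_
    rw [← tsum_mul_left, ← tsum_mul_left]
    exact hds.tsum_le_tsum hpt hKs
  have h4 := elem_R hWpos
  rw [hWre] at h4
  have hK0 : 0 ≤ (n * Z / m) ^ (-(3 / 4) : ℝ) * ∑' p, elemK p :=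
    mul_nonneg (by positivity) (tsum_nonneg elemK_nonneg)
  have hm1 : (1 : ℝ) ≤ m := by exact_mod_cast hm
  have h5 : (n * Z / m) ^ (-(3 / 4) : ℝ) * ∑' p, elemK p ≤
      m * ((n * Z / m) ^ (-(3 / 4) : ℝ) * ∑' p, elemK p) := le_mul_of_one_le_left hK0 hm1
  calc _ ≤ ‖3 * ∑' p, (T p - (tl m n Z p : ℂ))‖ + ‖∑' x, elemR.indicator (elemG W) x‖ := norm_add_le _ _
    _ = 3 * ‖∑' p, (T p - (tl m n Z p : ℂ))‖ + ‖∑' x, elemR.indicator (elemG W) x‖ := by
        rw [norm_mul]; norm_num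
    _ ≤ 3 * (m * ((n * Z / m) ^ (-(3 / 4) : ℝ) * ∑' p, elemK p)) +
        3 * (m * ((n * Z / m) ^ (-(3 / 4) : ℝ) * ∑' p, elemK p)) := by linarith
    _ = _ := by ring

end S6
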