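import Pool.Agent.Lib.MP_39df77_nt.S6Defs
import Pool.Agent.Lib.MP_39df77_nt.Part03
import Pool.Agent.Lib.MP_39df77_nt.Part11
import Pool.Agent.Lib.MP_39df77_nt.S6_elem
import Pool.Agent.Lib.MP_39df77_nt.Part14

section

set_option autoImplicit false

namespace S6
namespace EL
open MeasureTheory Filter Topology Set
open scoped Real

/-- `u e^{-(M+1)u}/(1-e^{-u})` -/
noncomputable def thu (u M : ℝ) : ℝ := u * Real.exp (-((M + 1) * u)) / (1 - Real.exp (-u))

lemma one_sub_pos {u : ℝ} (hu : 0 < u) : 0 < 1 - Real.exp (-u) := by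
  have : Real.exp (-u) < 1 := by
    rw [← Real.exp_zero]; exact Real.exp_lt_exp.2 (by linarith)
  linarith

lemma thu_le {u M : ℝ} (hu : 0 < u) : thu u M ≤ Real.exp (-(M * u)) := by
  unfold thu
  rw [div_le_iff₀ (one_sub_pos hu)]
  have h1 : Real.exp (-((M + 1) * u)) = Real.exp (-(M * u)) * Real.exp (-u) := by
    rw [← Real.exp_add]; congr 1; ring
  rw [h1]
  have h2 : (u + 1) * Real.exp (-u) ≤ 1 := by
    have := Real.add_one_le_exp u
    calc (u + 1) * Real.exp (-u) ≤ Real.exp u * Real.exp (-u) := by gcongr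
      _ = 1 := by rw [← Real.exp_add, add_neg_cancel, Real.exp_zero]
  have h3 := Real.exp_pos (-(M * u))
  nlinarith

lemma le_thu {u M : ℝ} (hu : 0 < u) : Real.exp (-((M + 1) * u)) ≤ thu u M := by
  unfold thu
  rw [le_div_iff₀ (one_sub_pos hu)]
  have h1 : 1 - Real.exp (-u) ≤ u := by have := Real.one_sub_le_exp_neg u; linarith
  have h3 := Real.exp_pos (-((M + 1) * u))
  nlinarith

lemma thu_nonneg {u M : ℝ} (hu : 0 < u) : 0 ≤ thu u M := (Real.exp_pos _).le.trans (le_thu hu)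

/-- the weight in logarithmic coordinates -/
noncomputable def TH (L l : ℝ) (p : E6) : ℝ :=
  thu (Real.exp (L * (p.1.2.2 - l))) (Real.exp (L * max p.2.2.1 p.2.2.2))

/-- continuous cutoff -/
noncomputable def chi (l η t : ℝ) : ℝ := max 0 (min 1 ((l + η - t) / (2 * η)))

/-- bump at `l` -/
noncomputable def bet (l η t : ℝ) : ℝ := max 0 (2 - |t - l| / η)

lemma chi_cont (l η : ℝ) : Continuous (chi l η) := by unfold chi; fun_prop
lemma bet_cont (l η : ℝ) : Continuous (bet l η) := by unfold bet; fun_prop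

lemma bet_nonneg (l η t : ℝ) : 0 ≤ bet l η t := le_max_left _ _

lemma chi_mem (l η t : ℝ) : 0 ≤ chi l η t ∧ chi l η t ≤ 1 :=
  ⟨le_max_left _ _, max_le zero_le_one (min_le_left _ _)⟩

lemma chi_one {l η t : ℝ} (hη : 0 < η) (h : t ≤ l - η) : chi l η t = 1 := by
  unfold chi
  rw [min_eq_left, max_eq_right zero_le_one]
  rw [le_div_iff₀ (by positivity)]; linarith

lemma chi_zero {l η t : ℝ} (hη : 0 < η) (h : l + η ≤ t) : chi l η t = 0 := by
  unfold chi
  have h1 : (l + η - t) / (2 * η) ≤ 0 := div_nonpos_of_nonpos_of_nonneg (by linarith) (by positivity)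
  rw [min_eq_right (by linarith), max_eq_left h1]

lemma bet_ge {l η t : ℝ} (hη : 0 < η) (h : |t - l| ≤ η) : 1 ≤ bet l η t := by
  unfold bet
  have : |t - l| / η ≤ 1 := (div_le_one hη).2 h
  exact le_max_of_le_right (by linarith)

lemma bet_zero {l η t : ℝ} (hη : 0 < η) (h : 2 * η ≤ |t - l|) : bet l η t = 0 := by
  unfold bet
  have : 2 ≤ |t - l| / η := by rw [le_div_iff₀ hη]; linarith
  exact max_eq_left (by linarith)

lemma bet_le_two {l η t : ℝ} (hη : 0 < η) : bet l η t ≤ 2 := by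
  unfold bet
  have : 0 ≤ |t - l| / η := by positivity
  exact max_le (by norm_num) (by linarith)

lemma chi_ind {l η t : ℝ} (hη : 0 < η) : |chi l η t - (if t ≤ l then 1 else 0)| ≤ bet l η t := by
  by_cases h : |t - l| ≤ η
  · refine le_trans ?_ (bet_ge hη h)
    have := chi_mem l η t
    split_ifs
    · rw [abs_le]; constructor <;> linarith
    · rw [abs_le]; constructor <;> linarith
  · push Not at h
    rcases le_or_gt t l with h1 | h1
    · rw [if_pos h1]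
      have h2 : t ≤ l - η := by
        rw [abs_of_nonpos (by linarith)] at h; linarith
      rw [chi_one hη h2, sub_self, abs_zero]; exact bet_nonneg _ _ _
    · rw [if_neg (not_le.2 h1)]
      have h2 : l + η ≤ t := by
        rw [abs_of_pos (by linarith)] at h; linarith
      rw [chi_zero hη h2, sub_self, abs_zero]; exact bet_nonneg _ _ _

lemma TH_bound {L l η : ℝ} (hL : 3 ≤ L) (hη : 0 < η) (p : E6)
    (hp : 0 ≤ max p.2.2.1 p.2.2.2) :
    |TH L l p - chi l η (ell p)| ≤ bet l η (ell p) +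
      2 * Real.exp (3 * l + 3 * η - η * L) * Real.exp (-(3 * ell p)) := by
  have hu : 0 < Real.exp (L * (p.1.2.2 - l)) := Real.exp_pos _
  set u := Real.exp (L * (p.1.2.2 - l)) with hudef
  set M := Real.exp (L * max p.2.2.1 p.2.2.2) with hM
  have hM1 : 1 ≤ M := Real.one_le_exp (by positivity)
  have hMu : M * u = Real.exp (L * (ell p - l)) := by
    rw [hM, hudef, ← Real.exp_add]; congr 1; unfold ell; ring
  have hTH : TH L l p = thu u M := rfl
  have h0 := thu_nonneg (M := M) hu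
  have h1 : thu u M ≤ 1 := (thu_le hu).trans (Real.exp_le_one_iff.2 (by
    have : 0 < M * u := by positivity
    linarith))
  have hb := bet_nonneg l η (ell p)
  have hpos : 0 ≤ 2 * Real.exp (3 * l + 3 * η - η * L) * Real.exp (-(3 * ell p)) := by positivity
  rw [hTH]
  by_cases h : |ell p - l| ≤ η
  · have h2 := bet_ge hη h
    have h3 := chi_mem l η (ell p)
    rw [abs_le]; constructor <;> linarith
  · push Not at h
    rcases le_or_gt (ell p) l with h4 | h4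
    · have h5 : ell p ≤ l - η := by
        rw [abs_of_nonpos (by linarith)] at h; linarith
      rw [chi_one hη h5]
      have h6 : 1 - thu u M ≤ 2 * (M * u) := by
        have h7 := le_thu (M := M) hu
        have h8 : 1 - (M + 1) * u ≤ Real.exp (-((M + 1) * u)) := Real.one_sub_le_exp_neg _
        nlinarith
      have h9 : M * u ≤ Real.exp (-(η * L)) := by
        rw [hMu]; refine Real.exp_le_exp.2 ?_
        nlinarith
      have h10 : Real.exp (-(η * L)) ≤ Real.exp (3 * l + 3 * η - η * L) * Real.exp (-(3 * ell p)) := by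
        rw [← Real.exp_add]; refine Real.exp_le_exp.2 ?_
        linarith
      rw [abs_le]; constructor <;> linarith
    · have h5 : l + η ≤ ell p := by
        rw [abs_of_pos (by linarith)] at h; linarith
      rw [chi_zero hη h5, sub_zero, abs_of_nonneg h0]
      have h6 : thu u M ≤ Real.exp (3 * l + 3 * η - η * L) * Real.exp (-(3 * ell p)) := by
        refine (thu_le hu).trans ?_
        rw [hMu, ← Real.exp_add]
        refine Real.exp_le_exp.2 ?_
        have h7 := Real.add_one_le_exp (L * (ell p - l))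
        nlinarith
      have : 0 ≤ Real.exp (3 * l + 3 * η - η * L) * Real.exp (-(3 * ell p)) := by positivity
      linarith

/-- lift of `G` -/
def fG (G : ℝ × ℝ × ℝ → ℝ) (p : E6) : ℝ := G (p.1.1, p.1.2.1, p.2.1)

/-- cutoff for negative coordinates -/
noncomputable def kp (t : ℝ) : ℝ := max 0 (min 1 (t + 1))

lemma kp_one {t : ℝ} (h : 0 ≤ t) : kp t = 1 := by
  unfold kp; rw [min_eq_left (by linarith), max_eq_right zero_le_one]

lemma kp_zero {t : ℝ} (h : t ≤ -1) : kp t = 0 := by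
  unfold kp; rw [min_eq_right (by linarith), max_eq_left (by linarith)]

lemma kp_nonneg (t : ℝ) : 0 ≤ kp t := le_max_left _ _
lemma kp_cont : Continuous kp := by unfold kp; fun_prop

noncomputable def k3 (p : E6) : ℝ := kp p.1.2.2 * kp p.2.2.1 * kp p.2.2.2

lemma k3_one {p : E6} (h : Nn6 p) : k3 p = 1 := by
  obtain ⟨_, _, h3, _, h5, h6⟩ := h
  unfold k3; rw [kp_one h3, kp_one h5, kp_one h6]; norm_num

lemma k3_nonneg (p : E6) : 0 ≤ k3 p := by
  unfold k3; exact mul_nonneg (mul_nonneg (kp_nonneg _) (kp_nonneg _)) (kp_nonneg _)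

lemma k3_cont : Continuous k3 := by
  unfold k3
  exact ((kp_cont.comp (by fun_prop)).mul (kp_cont.comp (by fun_prop))).mul
    (kp_cont.comp (by fun_prop))

lemma k3_ne {p : E6} (h : k3 p ≠ 0) : -1 < p.1.2.2 ∧ -1 < p.2.2.1 ∧ -1 < p.2.2.2 := by
  refine ⟨?_, ?_, ?_⟩
  · by_contra hc; push Not at hc; apply h; unfold k3; rw [kp_zero hc]; ring
  · by_contra hc; push Not at hc; apply h; unfold k3; rw [kp_zero hc]; ring
  · by_contra hc; push Not at hc; apply h; unfold k3; rw [kp_zero hc]; ring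

lemma ell_cont : Continuous ell := by unfold ell; fun_prop

lemma fG_cont {G : ℝ × ℝ × ℝ → ℝ} (hG : Continuous G) : Continuous (fG G) := by
  unfold fG; exact hG.comp (by fun_prop)

/-- compact support of products with a function of `ell` vanishing above `B` -/
lemma prod_hcs {G : ℝ × ℝ × ℝ → ℝ} (hGc : HasCompactSupport G) {g : E6 → ℝ} {h : ℝ → ℝ} {B : ℝ}
    (hg : ∀ p, g p ≠ 0 → fG G p ≠ 0) (hB : ∀ t, B < t → h t = 0) :
    HasCompactSupport fun p : E6 => g p * h (ell p) * k3 p := by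
  obtain ⟨R, hR⟩ : ∃ R : ℝ, ∀ p : ℝ × ℝ × ℝ, G p ≠ 0 → ‖p‖ ≤ R := by
    obtain ⟨R, hR⟩ := hGc.isCompact.isBounded.exists_norm_le
    exact ⟨R, fun p hp => hR p (subset_tsupport G hp)⟩
  refine HasCompactSupport.of_support_subset_isCompact
    (isCompact_closedBall (0 : E6) (|R| + |B| + 1)) ?_
  intro p hp
  have hp' : g p * h (ell p) * k3 p ≠ 0 := hp
  have e1 : g p ≠ 0 := left_ne_zero_of_mul (left_ne_zero_of_mul hp')
  have e2 : h (ell p) ≠ 0 := right_ne_zero_of_mul (left_ne_zero_of_mul hp')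
  obtain ⟨k1, k2, k4⟩ := k3_ne (right_ne_zero_of_mul hp')
  have h1 := hR _ (hg p e1)
  have h2 : ell p ≤ B := by
    by_contra hc; push Not at hc; exact e2 (hB _ hc)
  unfold ell at h2
  have h3 := le_max_left p.2.2.1 p.2.2.2
  have h4 := le_max_right p.2.2.1 p.2.2.2
  have hRR := le_abs_self R
  have hBB := le_abs_self B
  have hR0 := abs_nonneg R
  have hB0 := abs_nonneg B
  rw [mem_closedBall_zero_iff]
  simp only [Prod.norm_def, max_le_iff, Real.norm_eq_abs] at h1 ⊢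
  refine ⟨⟨by linarith [h1.1], by linarith [h1.2.1], ?_⟩, by linarith [h1.2.2], ?_, ?_⟩
  · rw [abs_le]; constructor <;> linarith
  · rw [abs_le]; constructor <;> linarith
  · rw [abs_le]; constructor <;> linarith

noncomputable def f1 (G : ℝ × ℝ × ℝ → ℝ) (l η : ℝ) (p : E6) : ℝ := fG G p * chi l η (ell p) * k3 p
noncomputable def f2 (G : ℝ × ℝ × ℝ → ℝ) (l η : ℝ) (p : E6) : ℝ := |fG G p| * bet l η (ell p) * k3 p

lemma f1_cont {G : ℝ × ℝ × ℝ → ℝ} (hG : Continuous G) (l η : ℝ) : Continuous (f1 G l η) :=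
  ((fG_cont hG).mul ((chi_cont l η).comp ell_cont)).mul k3_cont

lemma f2_cont {G : ℝ × ℝ × ℝ → ℝ} (hG : Continuous G) (l η : ℝ) : Continuous (f2 G l η) :=
  ((fG_cont hG).abs.mul ((bet_cont l η).comp ell_cont)).mul k3_cont

lemma f1_hcs {G : ℝ × ℝ × ℝ → ℝ} (hGc : HasCompactSupport G) (l : ℝ) {η : ℝ} (hη : 0 < η) :
    HasCompactSupport (f1 G l η) :=
  prod_hcs hGc (g := fG G) (h := chi l η) (B := l + η) (fun _ h => h) (fun _ ht => chi_zero hη ht.le)

lemma f2_hcs {G : ℝ × ℝ × ℝ → ℝ} (hGc : HasCompactSupport G) (l : ℝ) {η : ℝ} (hη : 0 < η) :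
    HasCompactSupport (f2 G l η) :=
  prod_hcs hGc (g := fun p => |fG G p|) (h := bet l η) (B := l + 2 * η)
    (fun p h => by simpa using h) (fun t ht => bet_zero hη (by
      rw [abs_of_pos (by linarith)]; linarith))

lemma f2_nonneg (G : ℝ × ℝ × ℝ → ℝ) (l η : ℝ) (p : E6) : 0 ≤ f2 G l η p :=
  mul_nonneg (mul_nonneg (abs_nonneg _) (bet_nonneg _ _ _)) (k3_nonneg _)

/-- the vector of ones -/
def one6 : E6 := ((1, 1, 1), (1, 1, 1))

lemma one6_pos : Pos6 one6 := ⟨one_pos, one_pos, one_pos, one_pos, one_pos, one_pos⟩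

lemma lg6_nn {L : ℝ} (hL : 0 < L) (x : N6) : Nn6 (lg6 L x) := by
  have : ∀ n : ℕ, 0 ≤ Real.log n / L := fun n => div_nonneg (Real.log_natCast_nonneg n) hL.le
  exact ⟨this _, this _, this _, this _, this _, this _⟩

/-- main pointwise estimate -/
lemma point {G : ℝ × ℝ × ℝ → ℝ}
    (hGs : ∀ p, G p ≠ 0 → 0 < p.1 ∧ p.1 < 1 ∧ 0 < p.2.1 ∧ p.2.1 < 1 ∧ 0 < p.2.2 ∧ p.2.2 < 1)
    {M : ℝ} (hM : ∀ p, |G p| ≤ M) {L l η : ℝ} (hL : 3 ≤ L) (hη : 0 < η) {p : E6} (hp : Nn6 p) :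
    |fG G p * TH L l p - f1 G l η p| ≤ f2 G l η p +
      M * (2 * Real.exp (3 * l + 3 * η - η * L) * Real.exp 3) * Real.exp (-dot6 one6 p) := by
  have hM0 : 0 ≤ M := (abs_nonneg _).trans (hM 0)
  obtain ⟨n1, n2, n3, n4, n5, n6⟩ := hp
  unfold f1 f2
  rw [k3_one ⟨n1, n2, n3, n4, n5, n6⟩, mul_one, mul_one, ← mul_sub, abs_mul]
  by_cases hz : fG G p = 0
  · rw [hz]; simp only [abs_zero, zero_mul, zero_add]; positivity
  have hs := hGs _ hz
  simp only at hs
  have hb := TH_bound (l := l) hL hη p (le_max_of_le_left n5)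
  have h1 : Real.exp (-(3 * ell p)) ≤ Real.exp 3 * Real.exp (-dot6 one6 p) := by
    rw [← Real.exp_add]
    refine Real.exp_le_exp.2 ?_
    unfold dot6 one6 ell
    have h3 := le_max_left p.2.2.1 p.2.2.2
    have h4 := le_max_right p.2.2.1 p.2.2.2
    simp only [one_mul]
    linarith
  calc |fG G p| * |TH L l p - chi l η (ell p)|
      ≤ |fG G p| * (bet l η (ell p) + 2 * Real.exp (3 * l + 3 * η - η * L) *
          Real.exp (-(3 * ell p))) := by gcongr
    _ = |fG G p| * bet l η (ell p) + |fG G p| * (2 * Real.exp (3 * l + 3 * η - η * L) *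
          Real.exp (-(3 * ell p))) := by ring
    _ ≤ |fG G p| * bet l η (ell p) + M * (2 * Real.exp (3 * l + 3 * η - η * L) *
          (Real.exp 3 * Real.exp (-dot6 one6 p))) := by
        gcongr
        exact hM _
    _ = _ := by ring

lemma int_f2 {G : ℝ × ℝ × ℝ → ℝ} (hG : Continuous G) (hGc : HasCompactSupport G)
    {ν : Measure E6} (hν : Lap ν) {l : ℝ} (hnull : ν {p | ell p = l} = 0) :
    Tendsto (fun n : ℕ => ∫ p, f2 G l (1 / ((n : ℝ) + 1)) p ∂ν) atTop (𝓝 0) := by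
  have hwt : ∀ x, 0 ≤ wt6 x := by
    intro x; unfold wt6; split_ifs
    · positivity
    · exact le_rfl
  have hint : Integrable (f2 G l 2) ν :=
    (kara_of_exp hν hwt (fun s hs => kara_exp s hs) (f2_cont hG l 2)
      (f2_hcs hGc l (by norm_num))).1
  have h0 : (0:ℝ) = ∫ _p : E6, (0:ℝ) ∂ν := by simp
  rw [h0]
  refine tendsto_integral_of_dominated_convergence (fun p => 2 * f2 G l 2 p)
    (fun n => (f2_cont hG l _).aestronglyMeasurable) (hint.const_mul 2) ?_ ?_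
  · intro n
    refine Eventually.of_forall fun p => ?_
    rw [Real.norm_of_nonneg (f2_nonneg _ _ _ _)]
    unfold f2
    have hn : (0:ℝ) < 1 / ((n:ℝ) + 1) := by positivity
    have hn1 : 1 / ((n:ℝ) + 1) ≤ 1 := by
      rw [div_le_one (by positivity)]; linarith [Nat.cast_nonneg (α := ℝ) n]
    have h1 : bet l (1 / ((n:ℝ) + 1)) (ell p) ≤ 2 * bet l 2 (ell p) := by
      by_cases h : |ell p - l| ≤ 2
      · have := bet_ge (by norm_num : (0:ℝ) < 2) h
        have := bet_le_two (l := l) (t := ell p) hn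
        linarith
      · push Not at h
        rw [bet_zero hn (by linarith)]
        have := bet_nonneg l 2 (ell p)
        linarith
    have h2 := abs_nonneg (fG G p)
    have h3 := k3_nonneg p
    calc |fG G p| * bet l (1 / ((n:ℝ) + 1)) (ell p) * k3 p
        ≤ |fG G p| * (2 * bet l 2 (ell p)) * k3 p := by gcongr
      _ = _ := by ring
  · have h1 : ∀ᵐ p ∂ν, ell p ≠ l := by
      rw [ae_iff]; simpa using hnull
    filter_upwards [h1] with p hp
    have hpos : 0 < |ell p - l| := abs_pos.2 (sub_ne_zero.2 hp)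
    have h2 : ∀ᶠ n : ℕ in atTop, 2 * (1 / ((n:ℝ) + 1)) < |ell p - l| := by
      have h3 : Tendsto (fun n : ℕ => 2 * (1 / ((n:ℝ) + 1))) atTop (𝓝 (2 * 0)) :=
        tendsto_one_div_add_atTop_nhds_zero_nat.const_mul 2
      rw [mul_zero] at h3
      exact h3.eventually (gt_mem_nhds hpos)
    refine tendsto_const_nhds.congr' ?_
    filter_upwards [h2] with n hn
    unfold f2
    rw [bet_zero (by positivity) hn.le]
    ring

/-- the limit of the weighted sums -/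
lemma main_lim {G : ℝ × ℝ × ℝ → ℝ} (hG : Continuous G) (hGc : HasCompactSupport G)
    (hGs : ∀ p, G p ≠ 0 → 0 < p.1 ∧ p.1 < 1 ∧ 0 < p.2.1 ∧ p.2.1 < 1 ∧ 0 < p.2.2 ∧ p.2.2 < 1)
    {ν : Measure E6} (hν : Lap ν) {l : ℝ} (hnull : ν {p | ell p = l} = 0) :
    (∀ L : ℝ, 3 ≤ L → Summable fun x : N6 => wt6 x * (fG G (lg6 L x) * TH L l (lg6 L x))) ∧
    Tendsto (fun L : ℝ => (L ^ 9)⁻¹ * ∑' x : N6, wt6 x * (fG G (lg6 L x) * TH L l (lg6 L x))) atTop
      (𝓝 (MP069854.arith 3 * ∫ p : E6, fG G p * (if ell p ≤ l then 1 else 0) ∂ν)) := by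
  obtain ⟨M, hM⟩ := hGc.exists_bound_of_continuous hG
  have hM' : ∀ p, |G p| ≤ M := hM
  have hM0 : 0 ≤ M := (abs_nonneg _).trans (hM' 0)
  have hwt : ∀ x, 0 ≤ wt6 x := by
    intro x; unfold wt6; split_ifs
    · positivity
    · exact le_rfl
  have ha3 : 0 ≤ MP069854.arith 3 := (MP069854.zetaData (k := 3) (by norm_num)).A_nonneg
  have K1 : ∀ η : ℝ, 0 < η → _ := fun η hη =>
    kara_of_exp hν hwt (fun s hs => kara_exp s hs) (f1_cont hG l η) (f1_hcs hGc l hη)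
  have K2 : ∀ η : ℝ, 0 < η → _ := fun η hη =>
    kara_of_exp hν hwt (fun s hs => kara_exp s hs) (f2_cont hG l η) (f2_hcs hGc l hη)
  have K0 := kara_exp one6 one6_pos
  have hsum : ∀ L : ℝ, 3 ≤ L → Summable fun x : N6 => wt6 x * (fG G (lg6 L x) * TH L l (lg6 L x)) := by
    intro L hL
    have hL0 : 0 < L := by linarith
    have s1 := (K1 1 one_pos).2.1 L hL0
    have s2 := (K2 1 one_pos).2.1 L hL0
    have s0 := (K0.1 L hL0).mul_left (M * (2 * Real.exp (3 * l + 3 * 1 - 1 * L) * Real.exp 3))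
    refine Summable.of_norm_bounded (s1.norm.add (s2.add s0)) fun x => ?_
    have h1 := point hGs hM' (l := l) hL one_pos (lg6_nn hL0 x)
    rw [Real.norm_eq_abs, Real.norm_eq_abs, abs_mul (wt6 x), abs_mul (wt6 x), abs_of_nonneg (hwt x)]
    have h2 : |fG G (lg6 L x) * TH L l (lg6 L x)| ≤ |f1 G l 1 (lg6 L x)| + (f2 G l 1 (lg6 L x) +
        M * (2 * Real.exp (3 * l + 3 * 1 - 1 * L) * Real.exp 3) * Real.exp (-dot6 one6 (lg6 L x))) := by
      have h3 := abs_add_le (fG G (lg6 L x) * TH L l (lg6 L x) - f1 G l 1 (lg6 L x)) (f1 G l 1 (lg6 L x))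
      rw [sub_add_cancel] at h3
      linarith
    calc wt6 x * |fG G (lg6 L x) * TH L l (lg6 L x)|
        ≤ wt6 x * (|f1 G l 1 (lg6 L x)| + (f2 G l 1 (lg6 L x) +
        M * (2 * Real.exp (3 * l + 3 * 1 - 1 * L) * Real.exp 3) * Real.exp (-dot6 one6 (lg6 L x)))) :=
          mul_le_mul_of_nonneg_left h2 (hwt x)
      _ = _ := by ring
  refine ⟨hsum, ?_⟩
  rw [Metric.tendsto_nhds]
  intro ε hε
  -- choose η
  obtain ⟨n, hn⟩ := ((int_f2 hG hGc hν hnull).eventually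
    (gt_mem_nhds (show (0:ℝ) < ε / (8 * (MP069854.arith 3 + 1)) by positivity))).exists
  set η : ℝ := 1 / ((n:ℝ) + 1) with hηdef
  have hη : 0 < η := by positivity
  obtain ⟨i1, s1, l1⟩ := K1 η hη
  obtain ⟨i2, s2, l2⟩ := K2 η hη
  -- small error
  have hsmall : Tendsto (fun L : ℝ => M * (2 * Real.exp (3 * l + 3 * η - η * L) * Real.exp 3) *
      ((L ^ 9)⁻¹ * ∑' x : N6, wt6 x * Real.exp (-dot6 one6 (lg6 L x)))) atTop (𝓝 0) := by
    have h1 : Tendsto (fun L : ℝ => Real.exp (3 * l + 3 * η - η * L)) atTop (𝓝 0) := by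
      refine Real.tendsto_exp_atBot.comp ?_
      have h2 : Tendsto (fun L : ℝ => η * L) atTop atTop := tendsto_id.const_mul_atTop hη
      exact tendsto_atBot_add_const_left _ _ (tendsto_neg_atTop_atBot.comp h2)
    have h3 := ((((h1.const_mul 2).mul_const (Real.exp 3)).const_mul M).mul K0.2)
    simpa using h3
  have hint0 : Integrable (fun p : E6 => fG G p * (if ell p ≤ l then (1:ℝ) else 0)) ν := by
    refine (i1.norm.add i2).mono' ?_ ?_
    · refine AEStronglyMeasurable.mul (fG_cont hG).aestronglyMeasurable ?_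
      refine Measurable.aestronglyMeasurable ?_
      exact Measurable.ite (measurableSet_le ell_cont.measurable measurable_const)
        measurable_const measurable_const
    · filter_upwards [hν.nn] with p hp
      simp only [Pi.add_apply]
      unfold f1 f2
      rw [k3_one hp, mul_one, mul_one, norm_mul, norm_mul, Real.norm_eq_abs, Real.norm_eq_abs,
        Real.norm_eq_abs, ← mul_add]
      refine mul_le_mul_of_nonneg_left ?_ (abs_nonneg _)
      have h1 := chi_ind (l := l) (t := ell p) hη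
      have h2 := abs_sub_abs_le_abs_sub (if ell p ≤ l then (1:ℝ) else 0) (chi l η (ell p))
      rw [abs_sub_comm] at h2
      linarith
  have hIdiff : |(∫ p, f1 G l η p ∂ν) - ∫ p : E6, fG G p * (if ell p ≤ l then 1 else 0) ∂ν| ≤
      ∫ p, f2 G l η p ∂ν := by
    rw [← integral_sub i1 hint0, ← Real.norm_eq_abs]
    refine norm_integral_le_of_norm_le i2 ?_
    filter_upwards [hν.nn] with p hp
    unfold f1 f2
    rw [k3_one hp, mul_one, mul_one, ← mul_sub, norm_mul, Real.norm_eq_abs, Real.norm_eq_abs]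
    exact mul_le_mul_of_nonneg_left (chi_ind hη) (abs_nonneg _)
  have e1 := (Metric.tendsto_nhds.1 l1) (ε / 8) (by positivity)
  have e2 := (Metric.tendsto_nhds.1 l2) (ε / 8) (by positivity)
  have e3 := (Metric.tendsto_nhds.1 hsmall) (ε / 8) (by positivity)
  filter_upwards [e1, e2, e3, eventually_ge_atTop 3] with L h1 h2 h3 hL
  have hL0 : 0 < L := by linarith
  rw [Real.dist_eq] at h1 h2 h3 ⊢
  rw [sub_zero] at h3
  have hLk : 0 ≤ (L ^ 9)⁻¹ := by positivity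
  have hdiff : |(L ^ 9)⁻¹ * ∑' x : N6, wt6 x * (fG G (lg6 L x) * TH L l (lg6 L x)) -
      (L ^ 9)⁻¹ * ∑' x : N6, wt6 x * f1 G l η (lg6 L x)| ≤
      (L ^ 9)⁻¹ * ∑' x : N6, wt6 x * f2 G l η (lg6 L x) +
      M * (2 * Real.exp (3 * l + 3 * η - η * L) * Real.exp 3) *
      ((L ^ 9)⁻¹ * ∑' x : N6, wt6 x * Real.exp (-dot6 one6 (lg6 L x))) := by
    rw [← mul_sub, ← (hsum L hL).tsum_sub (s1 L hL0), abs_mul, abs_of_nonneg hLk]
    have h4 : |∑' x : N6, (wt6 x * (fG G (lg6 L x) * TH L l (lg6 L x)) -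
        wt6 x * f1 G l η (lg6 L x))| ≤ ∑' x : N6, (wt6 x * f2 G l η (lg6 L x) +
        M * (2 * Real.exp (3 * l + 3 * η - η * L) * Real.exp 3) *
          (wt6 x * Real.exp (-dot6 one6 (lg6 L x)))) := by
      rw [← Real.norm_eq_abs]
      refine tsum_of_norm_bounded
        ((s2 L hL0).add ((K0.1 L hL0).mul_left _)).hasSum fun x => ?_
      rw [← mul_sub, norm_mul, Real.norm_of_nonneg (hwt x), Real.norm_eq_abs]
      have h5 := mul_le_mul_of_nonneg_left
        (point hGs hM' (l := l) hL hη (lg6_nn hL0 x)) (hwt x)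
      refine h5.trans (le_of_eq ?_)
      ring
    rw [(s2 L hL0).tsum_add ((K0.1 L hL0).mul_left _), tsum_mul_left] at h4
    calc (L ^ 9)⁻¹ * |∑' x : N6, (wt6 x * (fG G (lg6 L x) * TH L l (lg6 L x)) -
        wt6 x * f1 G l η (lg6 L x))| ≤ (L ^ 9)⁻¹ * (∑' x : N6, wt6 x * f2 G l η (lg6 L x) +
        M * (2 * Real.exp (3 * l + 3 * η - η * L) * Real.exp 3) *
          ∑' x : N6, wt6 x * Real.exp (-dot6 one6 (lg6 L x))) := by gcongr
      _ = _ := by ring
  have hA : MP069854.arith 3 * ∫ p, f2 G l η p ∂ν < ε / 8 := by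
    have h4 : 0 ≤ ∫ p, f2 G l η p ∂ν := integral_nonneg fun p => f2_nonneg _ _ _ _
    have := mul_lt_mul_of_pos_left hn (show 0 < MP069854.arith 3 + 1 by linarith)
    have h5 : (MP069854.arith 3 + 1) * (ε / (8 * (MP069854.arith 3 + 1))) = ε / 8 := by
      have : MP069854.arith 3 + 1 ≠ 0 := by linarith
      field_simp
    nlinarith
  have hB : |MP069854.arith 3 * (∫ p, f1 G l η p ∂ν) -
      MP069854.arith 3 * ∫ p : E6, fG G p * (if ell p ≤ l then 1 else 0) ∂ν| ≤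
      MP069854.arith 3 * ∫ p, f2 G l η p ∂ν := by
    rw [← mul_sub, abs_mul, abs_of_nonneg ha3]
    exact mul_le_mul_of_nonneg_left hIdiff ha3
  rw [abs_lt] at h1 h2 h3
  rw [abs_le] at hdiff hB
  rw [abs_lt]
  constructor <;> linarith [h1.1, h1.2, h2.1, h2.2, h3.1, h3.2, hdiff.1, hdiff.2, hB.1, hB.2]

/-- coordinates on `N6` -/
def e2 : (ℕ × ℕ × ℕ) × ((ℕ × ℕ) × ℕ) ≃ N6 where
  toFun r := ((r.1.1, r.1.2.1, r.2.2), (r.1.2.2, r.2.1.1, r.2.1.2))
  invFun q := ((q.1.1, q.1.2.1, q.2.1), ((q.2.2.1, q.2.2.2), q.1.2.2))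
  left_inv _ := rfl
  right_inv _ := rfl

/-- the summand on `N6` -/
noncomputable def FT (G : ℝ × ℝ × ℝ → ℝ) (T l : ℝ) (q : N6) : ℝ :=
  wt6 q * (fG G (lg6 (Real.log T) q) * TH (Real.log T) l (lg6 (Real.log T) q))

lemma TH_eval {T : ℝ} (hT : 1 < T) (l : ℝ) (x : ℕ × ℕ × ℕ) {c d j : ℕ} (hc : 1 ≤ c) (hd : 1 ≤ d)
    (hj : 1 ≤ j) : TH (Real.log T) l (lg6 (Real.log T) (e2 (x, ((c, d), j)))) =
      thu (j * T ^ (-l)) ((max c d : ℕ) : ℝ) := by
  have hL := Real.log_pos hT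
  have hc0 : (0:ℝ) < c := by exact_mod_cast hc
  have hd0 : (0:ℝ) < d := by exact_mod_cast hd
  have hj0 : (0:ℝ) < j := by exact_mod_cast hj
  unfold TH lg6 e2
  simp only [Equiv.coe_fn_mk]
  congr 1
  · rw [mul_sub, mul_div_cancel₀ _ hL.ne', sub_eq_add_neg, Real.exp_add, Real.exp_log hj0,
      Real.rpow_def_of_pos (by linarith)]
    congr 2; ring
  · push_cast
    rcases le_total (c:ℝ) d with h | h
    · have h1 : Real.log c / Real.log T ≤ Real.log d / Real.log T := by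
        have := Real.log_le_log hc0 h
        gcongr
      rw [max_eq_right h, max_eq_right h1, mul_div_cancel₀ _ hL.ne', Real.exp_log hd0]
    · have h1 : Real.log d / Real.log T ≤ Real.log c / Real.log T := by
        have := Real.log_le_log hd0 h
        gcongr
      rw [max_eq_left h, max_eq_left h1, mul_div_cancel₀ _ hL.ne', Real.exp_log hc0]

lemma wt6_e2 (x : ℕ × ℕ × ℕ) (c d j : ℕ) : wt6 (e2 (x, ((c, d), j))) =
    if 0 < x.1 * x.2.1 * j ∧ x.1 * x.2.1 * j = x.2.2 * c * d then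
      ((x.1 * x.2.1 * j : ℕ) : ℝ)⁻¹ else 0 := rfl

/-- inner sum over `j` -/
lemma sum_j (G : ℝ × ℝ × ℝ → ℝ) {T : ℝ} (hT : 1 < T) (l : ℝ) {x : ℕ × ℕ × ℕ} (h1 : 1 ≤ x.1)
    (h2 : 1 ≤ x.2.1) (h3 : 1 ≤ x.2.2) (p : ℕ × ℕ) :
    ∑' j : ℕ, FT G T l (e2 (x, ((p.1 + 1, p.2 + 1), j))) =
      T ^ (-l) * (cf G T x / ((x.1 : ℝ) * x.2.1) * tl (x.1 * x.2.1) x.2.2 (T ^ (-l)) p) := by
  have hm : 0 < x.1 * x.2.1 := by positivity
  have hZ : 0 < T ^ (-l) := Real.rpow_pos_of_pos (by linarith) _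
  set Z := T ^ (-l) with hZdef
  have hpq : x.2.2 * (p.1 + 1) * (p.2 + 1) = x.2.2 * pq p := by unfold pq; ring
  by_cases hdvd : x.1 * x.2.1 ∣ x.2.2 * pq p
  · obtain ⟨j0, hj0⟩ := hdvd
    have hpos : 0 < x.2.2 * pq p := by unfold pq; positivity
    have hj1 : 1 ≤ j0 := by
      rcases Nat.eq_zero_or_pos j0 with h | h
      · rw [h, mul_zero] at hj0; omega
      · exact h
    rw [tsum_eq_single j0]
    · unfold FT
      rw [wt6_e2, TH_eval hT l x (by omega) (by omega) hj1, if_pos ⟨by rw [← hj0]; exact hpos,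
        by rw [hpq, hj0]⟩]
      have hfG : fG G (lg6 (Real.log T) (e2 (x, ((p.1 + 1, p.2 + 1), j0)))) = cf G T x := rfl
      rw [hfG]
      unfold tl thu
      rw [if_pos ⟨j0, hj0⟩, ← hZdef]
      have hreal : ((x.2.2 : ℝ) * (pq p : ℝ) / ((x.1 * x.2.1 : ℕ) : ℝ)) = j0 := by
        have h4 : ((x.2.2 : ℝ) * (pq p : ℝ)) = ((x.1 * x.2.1 : ℕ) : ℝ) * j0 := by exact_mod_cast hj0
        rw [h4]
        have : ((x.1 * x.2.1 : ℕ) : ℝ) ≠ 0 := by exact_mod_cast hm.ne'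
        field_simp
      rw [hreal]
      have hmx : ((max (p.1 + 1) (p.2 + 1) : ℕ) : ℝ) = (mx p : ℝ) := rfl
      rw [hmx]
      have hj0' : (j0 : ℝ) ≠ 0 := by positivity
      have hx1 : (x.1 : ℝ) ≠ 0 := by positivity
      have hx2 : (x.2.1 : ℝ) ≠ 0 := by positivity
      have hden := (one_sub_pos (show 0 < (j0 : ℝ) * Z by positivity)).ne'
      rw [show -(((mx p : ℝ) + 1) * (j0 * Z)) = -(((mx p : ℝ) + 1) * j0 * Z) by ring]
      push_cast
      field_simp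
    · intro j hj
      unfold FT
      rw [wt6_e2, if_neg, zero_mul]
      rintro ⟨-, h⟩
      apply hj
      rw [hpq, hj0] at h
      exact Nat.eq_of_mul_eq_mul_left hm h
  · have : ∀ j, FT G T l (e2 (x, ((p.1 + 1, p.2 + 1), j))) = 0 := by
      intro j
      unfold FT
      rw [wt6_e2, if_neg, zero_mul]
      rintro ⟨-, h⟩
      apply hdvd
      rw [hpq] at h
      exact ⟨j, h.symm⟩
    simp only [this, tsum_zero]
    unfold tl
    rw [if_neg hdvd, mul_zero, mul_zero]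

lemma floor_mem' {T : ℝ} (hT : 1 < T) {m : ℕ} (hm : 1 ≤ m) (h : Real.log m / Real.log T < 1) :
    m ≤ ⌊T⌋₊ := by
  have hL := Real.log_pos hT
  rw [div_lt_one hL] at h
  have hm0 : (0:ℝ) < m := by exact_mod_cast hm
  have := (Real.log_lt_log_iff hm0 (by linarith)).1 h
  exact Nat.le_floor this.le

lemma sum_id {G : ℝ × ℝ × ℝ → ℝ}
    (hGs : ∀ p, G p ≠ 0 → 0 < p.1 ∧ p.1 < 1 ∧ 0 < p.2.1 ∧ p.2.1 < 1 ∧ 0 < p.2.2 ∧ p.2.2 < 1)
    {T : ℝ} (hT : 1 < T) (l : ℝ) (hs : Summable (FT G T l)) :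
    ∑' q : N6, FT G T l q = T ^ (-l) * ∑ x ∈ tri T, cf G T x / ((x.1 : ℝ) * x.2.1) *
      ∑' p : ℕ × ℕ, tl (x.1 * x.2.1) x.2.2 (T ^ (-l)) p := by
  have hs2 : Summable fun r : (ℕ × ℕ × ℕ) × ((ℕ × ℕ) × ℕ) => FT G T l (e2 r) :=
    (e2.summable_iff (f := FT G T l)).2 hs
  rw [← e2.tsum_eq, hs2.tsum_prod]
  rw [tsum_eq_sum (s := tri T), Finset.mul_sum]
  · refine Finset.sum_congr rfl fun x hx => ?_
    have hx' : (1 ≤ x.1 ∧ x.1 ≤ ⌊T⌋₊) ∧ (1 ≤ x.2.1 ∧ x.2.1 ≤ ⌊T⌋₊) ∧ (1 ≤ x.2.2 ∧ x.2.2 ≤ ⌊T⌋₊) := by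
      simpa only [tri, Finset.mem_product, Finset.mem_Icc] using hx
    obtain ⟨⟨a1, -⟩, ⟨a2, -⟩, ⟨a3, -⟩⟩ := hx'
    have hs3 := hs2.prod_factor x
    rw [hs3.tsum_prod]
    -- shift
    have hinj : Function.Injective fun p : ℕ × ℕ => (p.1 + 1, p.2 + 1) := by
      intro p q h
      simp only [Prod.mk.injEq, Nat.add_right_cancel_iff] at h
      exact Prod.ext h.1 h.2
    rw [← hinj.tsum_eq]
    · simp only [sum_j G hT l a1 a2 a3]
      rw [tsum_mul_left, tsum_mul_left]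
    · intro cd hcd
      have hne : (∑' j : ℕ, FT G T l (e2 (x, (cd, j)))) ≠ 0 := hcd
      have hex : ∃ j, FT G T l (e2 (x, (cd, j))) ≠ 0 := by
        by_contra hcon
        push Not at hcon
        apply hne
        simp only [hcon, tsum_zero]
      obtain ⟨j, hj⟩ := hex
      have hw : wt6 (e2 (x, ((cd.1, cd.2), j))) ≠ 0 := left_ne_zero_of_mul hj
      rw [wt6_e2] at hw
      have hc : 0 < x.1 * x.2.1 * j ∧ x.1 * x.2.1 * j = x.2.2 * cd.1 * cd.2 := by
        by_contra hcon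
        rw [if_neg hcon] at hw
        exact hw rfl
      have h4 : 0 < x.2.2 * cd.1 * cd.2 := hc.2 ▸ hc.1
      have h5 : cd.1 ≠ 0 := by rintro h; rw [h] at h4; simp at h4
      have h6 : cd.2 ≠ 0 := by rintro h; rw [h] at h4; simp at h4
      refine ⟨(cd.1 - 1, cd.2 - 1), ?_⟩
      simp only
      rw [Nat.sub_add_cancel (Nat.one_le_iff_ne_zero.2 h5),
        Nat.sub_add_cancel (Nat.one_le_iff_ne_zero.2 h6)]
  · intro x hx
    have hz : ∀ r, FT G T l (e2 (x, r)) = 0 := by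
      intro r
      by_contra hne
      apply hx
      have hw : wt6 (e2 (x, ((r.1.1, r.1.2), r.2))) ≠ 0 := left_ne_zero_of_mul hne
      have hg : fG G (lg6 (Real.log T) (e2 (x, r))) ≠ 0 :=
        left_ne_zero_of_mul (right_ne_zero_of_mul hne)
      rw [wt6_e2] at hw
      have hc : 0 < x.1 * x.2.1 * r.2 ∧ x.1 * x.2.1 * r.2 = x.2.2 * r.1.1 * r.1.2 := by
        by_contra hcon
        rw [if_neg hcon] at hw
        exact hw rfl
      have h4 : 0 < x.2.2 * r.1.1 * r.1.2 := hc.2 ▸ hc.1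
      have h5 : 1 ≤ x.1 := by
        rcases Nat.eq_zero_or_pos x.1 with h | h
        · have := hc.1; rw [h] at this; simp at this
        · exact h
      have h6 : 1 ≤ x.2.1 := by
        rcases Nat.eq_zero_or_pos x.2.1 with h | h
        · have := hc.1; rw [h] at this; simp at this
        · exact h
      have h7 : 1 ≤ x.2.2 := by
        rcases Nat.eq_zero_or_pos x.2.2 with h | h
        · rw [h] at h4; simp at h4
        · exact h
      have hg' : G (Real.log x.1 / Real.log T, Real.log x.2.1 / Real.log T,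
        Real.log x.2.2 / Real.log T) ≠ 0 := hg
      obtain ⟨-, g1, -, g2, -, g3⟩ := hGs _ hg'
      simp only [tri, Finset.mem_product, Finset.mem_Icc]
      exact ⟨⟨h5, floor_mem' hT h5 g1⟩, ⟨h6, floor_mem' hT h6 g2⟩, ⟨h7, floor_mem' hT h7 g3⟩⟩
    simp only [hz, tsum_zero]

lemma card_tri' {T : ℝ} (hT : 0 ≤ T) : ((tri T).card : ℝ) ≤ T ^ 3 := by
  have h1 : (tri T).card = ⌊T⌋₊ * (⌊T⌋₊ * ⌊T⌋₊) := by
    simp [tri, Finset.card_product]
  rw [h1]
  push_cast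
  have := Nat.floor_le hT
  have h0 : (0:ℝ) ≤ ⌊T⌋₊ := Nat.cast_nonneg _
  calc (⌊T⌋₊:ℝ) * (⌊T⌋₊ * ⌊T⌋₊) ≤ T * (T * T) := by gcongr
    _ = T ^ 3 := by ring

end EL

open Complex MeasureTheory Filter Topology Set in
/-- **E2.** -/
theorem E_lim {G : ℝ × ℝ × ℝ → ℝ} (hG : Continuous G) (hGc : HasCompactSupport G)
    (hGs : ∀ p, G p ≠ 0 → 0 < p.1 ∧ p.1 < 1 ∧ 0 < p.2.1 ∧ p.2.1 < 1 ∧ 0 < p.2.2 ∧ p.2.2 < 1)
    {ν : Measure E6} (hν : Lap ν) {l : ℝ} (hl : 60 ≤ l) (hnull : ν {p | ell p = l} = 0) :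
    Tendsto (fun T : ℝ => ((Real.log T : ℝ) : ℂ)⁻¹ ^ 9 * ((T ^ (-l) : ℝ) : ℂ) *
      ∑ x ∈ tri T, ((cf G T x / ((x.1 : ℝ) * x.2.1) : ℝ) : ℂ) *
        S3 (((x.2.2 : ℝ) / ((x.1 : ℝ) * x.2.1) : ℝ) * (2 * Real.pi * I + (T ^ (-l) : ℝ)))) atTop
      (𝓝 ((MP069854.arith 3 * QB ν G l : ℝ) : ℂ)) := by
  obtain ⟨C, hC0, hC⟩ := elem
  obtain ⟨M, hM⟩ := hGc.exists_bound_of_continuous hG
  have hM0 : 0 ≤ M := (norm_nonneg _).trans (hM 0)
  obtain ⟨hsum, hlim⟩ := EL.main_lim hG hGc hGs hν hnull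
  -- the main part
  have hmain : Tendsto (fun T : ℝ => ((3 * ((Real.log T ^ 9)⁻¹ * ∑' x : N6, wt6 x *
      (EL.fG G (lg6 (Real.log T) x) * EL.TH (Real.log T) l (lg6 (Real.log T) x))) : ℝ) : ℂ)) atTop
      (𝓝 ((MP069854.arith 3 * QB ν G l : ℝ) : ℂ)) := by
    have h1 := (hlim.comp Real.tendsto_log_atTop).const_mul 3
    have h2 : 3 * (MP069854.arith 3 * ∫ p : E6, EL.fG G p * (if ell p ≤ l then 1 else 0) ∂ν) =
        MP069854.arith 3 * QB ν G l := by
      unfold QB EL.fG; ring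
    rw [h2] at h1
    exact (Complex.continuous_ofReal.tendsto _).comp h1
  -- the error
  have herr : Tendsto (fun T : ℝ => M * C * T ^ (-1 : ℝ)) atTop (𝓝 0) := by
    have := (tendsto_rpow_neg_atTop (show (0:ℝ) < 1 by norm_num)).const_mul (M * C)
    simpa using this
  have hdiff : Tendsto (fun T : ℝ => ((Real.log T : ℝ) : ℂ)⁻¹ ^ 9 * ((T ^ (-l) : ℝ) : ℂ) *
      (∑ x ∈ tri T, ((cf G T x / ((x.1 : ℝ) * x.2.1) : ℝ) : ℂ) *
        S3 (((x.2.2 : ℝ) / ((x.1 : ℝ) * x.2.1) : ℝ) * (2 * Real.pi * I + (T ^ (-l) : ℝ)))) -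
      ((3 * ((Real.log T ^ 9)⁻¹ * ∑' x : N6, wt6 x *
      (EL.fG G (lg6 (Real.log T) x) * EL.TH (Real.log T) l (lg6 (Real.log T) x))) : ℝ) : ℂ)) atTop
      (𝓝 0) := by
    refine squeeze_zero_norm' ?_ herr
    filter_upwards [eventually_ge_atTop (Real.exp 3)] with T hT
    have hT1 : 1 < T := by
      have : (1:ℝ) < Real.exp 3 := by
        rw [← Real.exp_zero]; exact Real.exp_lt_exp.2 (by norm_num)
      linarith
    have hL3 : 3 ≤ Real.log T := by
      rw [← Real.log_exp 3]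
      exact Real.log_le_log (Real.exp_pos _) hT
    have hT0 : 0 < T := by linarith
    have hZ : 0 < T ^ (-l) := Real.rpow_pos_of_pos hT0 _
    have hid := EL.sum_id hGs hT1 l (hsum _ hL3)
    unfold EL.FT at hid
    rw [hid]
    have hc9 : (((Real.log T ^ 9)⁻¹ : ℝ) : ℂ) = ((Real.log T : ℝ) : ℂ)⁻¹ ^ 9 := by
      push_cast; rw [inv_pow]
    have hrew : ((3 * ((Real.log T ^ 9)⁻¹ * (T ^ (-l) * ∑ x ∈ tri T,
        cf G T x / ((x.1 : ℝ) * x.2.1) * ∑' p : ℕ × ℕ, tl (x.1 * x.2.1) x.2.2 (T ^ (-l)) p)) : ℝ) : ℂ) =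
        ((Real.log T : ℝ) : ℂ)⁻¹ ^ 9 * ((T ^ (-l) : ℝ) : ℂ) *
        ∑ x ∈ tri T, ((cf G T x / ((x.1 : ℝ) * x.2.1) : ℝ) : ℂ) *
          ((3 * ∑' p : ℕ × ℕ, tl (x.1 * x.2.1) x.2.2 (T ^ (-l)) p : ℝ) : ℂ) := by
      rw [← hc9, Finset.mul_sum]
      have : (3 * ((Real.log T ^ 9)⁻¹ * (∑ x ∈ tri T, T ^ (-l) *
        (cf G T x / ((x.1 : ℝ) * x.2.1) * ∑' p : ℕ × ℕ, tl (x.1 * x.2.1) x.2.2 (T ^ (-l)) p))) : ℝ) =
        (Real.log T ^ 9)⁻¹ * T ^ (-l) * ∑ x ∈ tri T, (cf G T x / ((x.1 : ℝ) * x.2.1)) *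
          (3 * ∑' p : ℕ × ℕ, tl (x.1 * x.2.1) x.2.2 (T ^ (-l)) p) := by
        rw [Finset.mul_sum, Finset.mul_sum, Finset.mul_sum]
        exact Finset.sum_congr rfl fun x _ => by ring
      rw [this]
      push_cast
      ring
    rw [hrew, ← mul_sub, ← Finset.sum_sub_distrib]
    simp only [← mul_sub]
    rw [norm_mul, norm_mul, norm_pow, norm_inv, Complex.norm_real, Complex.norm_real,
      Real.norm_of_nonneg (by linarith : 0 ≤ Real.log T), Real.norm_of_nonneg hZ.le]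
    have hterm : ∀ x ∈ tri T, ‖((cf G T x / ((x.1 : ℝ) * x.2.1) : ℝ) : ℂ) *
        (S3 (((x.2.2 : ℝ) / ((x.1 : ℝ) * x.2.1) : ℝ) * (2 * Real.pi * I + (T ^ (-l) : ℝ))) -
          ((3 * ∑' p : ℕ × ℕ, tl (x.1 * x.2.1) x.2.2 (T ^ (-l)) p : ℝ) : ℂ))‖ ≤
        M * C * T ^ ((3 / 4 : ℝ) * (l + 2)) := by
      intro x hx
      have hx' : (1 ≤ x.1 ∧ x.1 ≤ ⌊T⌋₊) ∧ (1 ≤ x.2.1 ∧ x.2.1 ≤ ⌊T⌋₊) ∧
          (1 ≤ x.2.2 ∧ x.2.2 ≤ ⌊T⌋₊) := by
        simpa only [tri, Finset.mem_product, Finset.mem_Icc] using hx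
      obtain ⟨⟨a1, a2⟩, ⟨b1, b2⟩, ⟨c1, -⟩⟩ := hx'
      have hm : 0 < x.1 * x.2.1 := by positivity
      have hmr : (0:ℝ) < (x.1 : ℝ) * x.2.1 := by exact_mod_cast hm
      have h1 := (hC (x.1 * x.2.1) x.2.2 hm (by omega) (T ^ (-l)) hZ).2
      have hcast : (((x.1 * x.2.1 : ℕ)) : ℝ) = (x.1 : ℝ) * x.2.1 := by push_cast; ring
      rw [hcast] at h1
      rw [norm_mul, Complex.norm_real, Real.norm_eq_abs, abs_div, abs_of_pos hmr]
      have hcf : |cf G T x| ≤ M := hM _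
      have ha : (x.1 : ℝ) ≤ T := (Nat.cast_le.2 a2).trans (Nat.floor_le hT0.le)
      have hb : (x.2.1 : ℝ) ≤ T := (Nat.cast_le.2 b2).trans (Nat.floor_le hT0.le)
      have hc1 : (1:ℝ) ≤ x.2.2 := by exact_mod_cast c1
      have h2 : ((x.2.2 : ℝ) * T ^ (-l) / ((x.1 : ℝ) * x.2.1)) ^ (-(3 / 4) : ℝ) ≤
          T ^ ((3 / 4 : ℝ) * (l + 2)) := by
        have h3 : T ^ (-(l + 2)) ≤ (x.2.2 : ℝ) * T ^ (-l) / ((x.1 : ℝ) * x.2.1) := by
          rw [le_div_iff₀ hmr]
          have h4 : (x.1 : ℝ) * x.2.1 ≤ T ^ (2:ℝ) := by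
            rw [Real.rpow_two, sq]
            have : (0:ℝ) ≤ x.2.1 := Nat.cast_nonneg _
            gcongr
          calc T ^ (-(l + 2)) * ((x.1 : ℝ) * x.2.1) ≤ T ^ (-(l + 2)) * T ^ (2:ℝ) := by gcongr
            _ = T ^ (-l) := by rw [← Real.rpow_add hT0]; congr 1; ring
            _ ≤ (x.2.2 : ℝ) * T ^ (-l) := by nlinarith
        have h5 : T ^ ((3 / 4 : ℝ) * (l + 2)) = (T ^ (-(l + 2))) ^ (-(3 / 4) : ℝ) := by
          rw [← Real.rpow_mul hT0.le]; congr 1; ring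
        rw [h5]
        exact Real.rpow_le_rpow_of_nonpos (Real.rpow_pos_of_pos hT0 _) h3 (by norm_num)
      have h6 : |cf G T x| / ((x.1 : ℝ) * x.2.1) * (C * ((x.1 : ℝ) * x.2.1 *
          ((x.2.2 : ℝ) * T ^ (-l) / ((x.1 : ℝ) * x.2.1)) ^ (-(3 / 4) : ℝ))) =
          |cf G T x| * C * ((x.2.2 : ℝ) * T ^ (-l) / ((x.1 : ℝ) * x.2.1)) ^ (-(3 / 4) : ℝ) := by
        field_simp
      calc |cf G T x| / ((x.1 : ℝ) * x.2.1) *
          ‖S3 (((x.2.2 : ℝ) / ((x.1 : ℝ) * x.2.1) : ℝ) * (2 * Real.pi * I + (T ^ (-l) : ℝ))) -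
          ((3 * ∑' p : ℕ × ℕ, tl (x.1 * x.2.1) x.2.2 (T ^ (-l)) p : ℝ) : ℂ)‖
          ≤ |cf G T x| / ((x.1 : ℝ) * x.2.1) * (C * ((x.1 : ℝ) * x.2.1 *
          ((x.2.2 : ℝ) * T ^ (-l) / ((x.1 : ℝ) * x.2.1)) ^ (-(3 / 4) : ℝ))) := by
            gcongr
        _ = |cf G T x| * C * ((x.2.2 : ℝ) * T ^ (-l) / ((x.1 : ℝ) * x.2.1)) ^ (-(3 / 4) : ℝ) := h6
        _ ≤ M * C * T ^ ((3 / 4 : ℝ) * (l + 2)) := by gcongr
    have hs1 : ‖∑ x ∈ tri T, ((cf G T x / ((x.1 : ℝ) * x.2.1) : ℝ) : ℂ) *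
        (S3 (((x.2.2 : ℝ) / ((x.1 : ℝ) * x.2.1) : ℝ) * (2 * Real.pi * I + (T ^ (-l) : ℝ))) -
          ((3 * ∑' p : ℕ × ℕ, tl (x.1 * x.2.1) x.2.2 (T ^ (-l)) p : ℝ) : ℂ))‖ ≤
        T ^ 3 * (M * C * T ^ ((3 / 4 : ℝ) * (l + 2))) := by
      refine (norm_sum_le_of_le _ hterm).trans ?_
      rw [Finset.sum_const, nsmul_eq_mul]
      have := EL.card_tri' hT0.le
      gcongr
    have h9 : (Real.log T)⁻¹ ^ 9 ≤ 1 := by
      refine pow_le_one₀ (by positivity) (inv_le_one_of_one_le₀ (by linarith))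
    calc (Real.log T)⁻¹ ^ 9 * T ^ (-l) * ‖∑ x ∈ tri T, ((cf G T x / ((x.1 : ℝ) * x.2.1) : ℝ) : ℂ) *
        (S3 (((x.2.2 : ℝ) / ((x.1 : ℝ) * x.2.1) : ℝ) * (2 * Real.pi * I + (T ^ (-l) : ℝ))) -
          ((3 * ∑' p : ℕ × ℕ, tl (x.1 * x.2.1) x.2.2 (T ^ (-l)) p : ℝ) : ℂ))‖
        ≤ 1 * T ^ (-l) * (T ^ 3 * (M * C * T ^ ((3 / 4 : ℝ) * (l + 2)))) := by gcongr
      _ = M * C * (T ^ (-l) * T ^ (3:ℝ) * T ^ ((3 / 4 : ℝ) * (l + 2))) := by
          rw [show T ^ (3:ℝ) = T ^ 3 by norm_cast]; ring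
      _ = M * C * T ^ (-l + 3 + (3 / 4 : ℝ) * (l + 2)) := by
          rw [← Real.rpow_add hT0, ← Real.rpow_add hT0]
      _ ≤ M * C * T ^ (-1 : ℝ) := by
          have : T ^ (-l + 3 + (3 / 4 : ℝ) * (l + 2)) ≤ T ^ (-1 : ℝ) :=
            Real.rpow_le_rpow_of_exponent_le hT1.le (by linarith)
          gcongr
  have := hdiff.add hmain
  rw [zero_add] at this
  refine this.congr fun T => ?_
  ring

end S6

end

section

namespace S6
open Complex MeasureTheory Filter Topology Set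
open scoped Real ComplexConjugate

theorem TF_GG_smooth {f : ℝ × ℝ × ℝ → ℝ} (hf : ContDiff ℝ (⊤ : ℕ∞) f) (v : ℝ × ℝ × ℝ) :
    ContDiff ℝ (⊤ : ℕ∞) (Dv v f) := by
  unfold Dv
  exact (hf.fderiv_right (m := ((⊤ : ℕ∞) : WithTop ℕ∞)) (by exact le_rfl)).clm_apply contDiff_const

theorem TF_GG_cs {f : ℝ × ℝ × ℝ → ℝ} (hf : HasCompactSupport f) (v : ℝ × ℝ × ℝ) :
    HasCompactSupport (Dv v f) := hf.fderiv_apply ℝ v

theorem TF_GG_ts {f : ℝ × ℝ × ℝ → ℝ} (v : ℝ × ℝ × ℝ) :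
    tsupport (Dv v f) ⊆ tsupport f := tsupport_fderiv_apply_subset ℝ v

/-- **G7.** `TF κ (GG Ψ)`. -/
theorem TF_GG {κ : ℝ} {Ψ : ℝ × ℝ × ℝ → ℝ} (hΨ : ContDiff ℝ (⊤ : ℕ∞) Ψ)
    (hc : HasCompactSupport Ψ) (hs : tsupport Ψ ⊆ Reg κ) : TF κ (GG Ψ) := by
  refine ⟨?_, ?_, ?_⟩
  · unfold GG
    exact (TF_GG_smooth (TF_GG_smooth (TF_GG_smooth hΨ _) _) _).continuous
  · unfold GG
    exact TF_GG_cs (TF_GG_cs (TF_GG_cs hc _) _) _
  · unfold GG
    exact (((TF_GG_ts _).trans (TF_GG_ts _)).trans (TF_GG_ts _)).trans hs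

end S6

end

section

namespace S6
open Complex MeasureTheory Filter Topology Set
open scoped Real ComplexConjugate

/-- antiderivative in `x₁` -/
noncomputable def v32F (w x2 x1 : ℝ) : ℝ :=
  -(((w - x2) ^ 4 * (w - x1) ^ 3 / 3 - (w - x2) ^ 3 * (w - x1) ^ 4 / 2
    + (w - x2) ^ 2 * (w - x1) ^ 5 / 5) / 4)

lemma v32F_deriv (w x2 x1 : ℝ) :
    HasDerivAt (v32F w x2) (((x1 - x2) * (w - x1) * (w - x2) / 2) ^ 2) x1 := by
  have h0 : ∀ n : ℕ, HasDerivAt (fun x : ℝ => (w - x) ^ n) (-((n : ℝ) * (w - x1) ^ (n - 1))) x1 :=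
    fun n => (hasDerivAt_pow n (w - x1)).comp_const_sub w x1
  have h1 := (((((h0 3).const_mul ((w - x2) ^ 4)).div_const 3).sub
    (((h0 4).const_mul ((w - x2) ^ 3)).div_const 2)).add
    (((h0 5).const_mul ((w - x2) ^ 2)).div_const 5)).div_const 4 |>.neg
  refine h1.congr_deriv ?_
  norm_num
  ring

/-- antiderivative in `v = w - x₂` -/
noncomputable def v32A (b v : ℝ) : ℝ :=
  v ^ 8 / 30 - b * v ^ 7 / 7 + b ^ 2 * v ^ 6 / 4 - 13 * b ^ 3 * v ^ 5 / 60
    + 3 * b ^ 4 * v ^ 4 / 32 - b ^ 5 * v ^ 3 / 60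

lemma v32A_deriv (b v : ℝ) :
    HasDerivAt (v32A b) (8 * v ^ 7 / 30 - b * v ^ 6 + 3 / 2 * b ^ 2 * v ^ 5 - 13 / 12 * b ^ 3 * v ^ 4
      + 3 / 8 * b ^ 4 * v ^ 3 - b ^ 5 * v ^ 2 / 20) v := by
  have h0 : ∀ n : ℕ, HasDerivAt (fun x : ℝ => x ^ n) ((n : ℝ) * v ^ (n - 1)) v :=
    fun n => hasDerivAt_pow n v
  have h1 := ((((((h0 8).div_const 30).sub (((h0 7).const_mul b).div_const 7)).add
    (((h0 6).const_mul (b ^ 2)).div_const 4)).sub
    (((h0 5).const_mul (13 * b ^ 3)).div_const 60)).add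
    (((h0 4).const_mul (3 * b ^ 4)).div_const 32)).sub
    (((h0 3).const_mul (b ^ 5)).div_const 60)
  refine h1.congr_deriv ?_
  norm_num
  ring

/-- the integral over `x₁`, `x₂` -/
noncomputable def v32J (c y : ℝ) : ℝ :=
  v32A (2 * (1 - y) - c) (1 - y) - v32A (2 * (1 - y) - c) (1 - y - c / 2)

noncomputable def v32c (y : ℝ) : ℝ := min (2 * (1 - y) / 3) (1 / 2 + y)

noncomputable def v32f : ℝ × ℝ × ℝ → ℝ := (Reg (3 / 2)).indicator fun p => PP p ^ 2

lemma v32_open : IsOpen (Reg (3 / 2)) := by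
  unfold Reg
  refine IsOpen.and (isOpen_lt continuous_const (by fun_prop)) ?_
  refine IsOpen.and (isOpen_lt (by fun_prop) (by fun_prop)) ?_
  refine IsOpen.and (isOpen_lt continuous_const (by fun_prop)) ?_
  exact IsOpen.and (isOpen_lt (by fun_prop) (by fun_prop)) (isOpen_lt (by fun_prop) (by fun_prop))

lemma v32_cont : Continuous fun p : ℝ × ℝ × ℝ => PP p ^ 2 := by
  unfold PP
  fun_prop

lemma v32_int : Integrable v32f := by
  unfold v32f
  rw [integrable_indicator_iff v32_open.measurableSet]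
  refine (v32_cont.continuousOn.integrableOn_compact
    (isCompact_Icc (a := ((0, 0, 0) : ℝ × ℝ × ℝ)) (b := (1, 1, 1)))).mono_set ?_
  rintro ⟨x1, x2, y⟩ ⟨h1, h2, h3, h4, h5⟩
  simp only at h1 h2 h3 h4 h5
  refine ⟨⟨?_, ?_, ?_⟩, ⟨?_, ?_, ?_⟩⟩ <;> simp only <;> linarith

lemma v32_mem (x1 x2 y : ℝ) : ((x1, x2, y) : ℝ × ℝ × ℝ) ∈ Reg (3 / 2) ↔
    0 < x2 ∧ 0 < y ∧ x1 ∈ Ioo x2 (v32c y - x2) := by
  unfold Reg v32c
  simp only [mem_ofPred_eq, mem_Ioo, lt_sub_iff_add_lt, lt_min_iff]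
  constructor
  · rintro ⟨h1, h2, h3, h4, h5⟩
    exact ⟨h1, h3, h2, by linarith, by linarith⟩
  · rintro ⟨h1, h3, h2, h4, h5⟩
    exact ⟨h1, h2, h3, by linarith, by linarith⟩

/-- inner integral -/
lemma v32_inner (x2 y : ℝ) : ∫ x1, v32f (x1, x2, y) =
    if 0 < y then (Ioc 0 (v32c y / 2)).indicator
      (fun x2 => v32F (1 - y) x2 (v32c y - x2) - v32F (1 - y) x2 x2) x2 else 0 := by
  have h1 : ∀ x1, v32f (x1, x2, y) = if 0 < x2 ∧ 0 < y then
      (Ioo x2 (v32c y - x2)).indicator (fun x1 => ((x1 - x2) * (1 - y - x1) * (1 - y - x2) / 2) ^ 2)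
        x1 else 0 := by
    intro x1
    unfold v32f
    by_cases h : ((x1, x2, y) : ℝ × ℝ × ℝ) ∈ Reg (3 / 2)
    · rw [indicator_of_mem h]
      rw [v32_mem] at h
      rw [if_pos ⟨h.1, h.2.1⟩, indicator_of_mem h.2.2]
      rfl
    · rw [indicator_of_notMem h]
      rw [v32_mem] at h
      split_ifs with h2
      · rw [indicator_of_notMem]
        exact fun h3 => h ⟨h2.1, h2.2, h3⟩
      · rfl
  simp_rw [h1]
  by_cases hy : 0 < y
  · by_cases hx : 0 < x2
    · simp only [hx, hy, and_self, if_true]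
      rw [integral_indicator measurableSet_Ioo]
      by_cases hc : x2 ≤ v32c y - x2
      · rw [indicator_of_mem (by constructor <;> linarith)]
        rw [← integral_Ioc_eq_integral_Ioo, ← intervalIntegral.integral_of_le hc]
        exact intervalIntegral.integral_eq_sub_of_hasDerivAt (fun x _ => v32F_deriv (1 - y) x2 x)
          (Continuous.intervalIntegrable (by fun_prop) _ _)
      · rw [indicator_of_notMem (by rintro ⟨-, h3⟩; apply hc; linarith), Ioo_eq_empty (by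
          intro h3; exact hc h3.le)]
        simp
    · simp only [hx, hy, false_and, if_false, if_true, integral_zero]
      rw [indicator_of_notMem (by rintro ⟨h3, -⟩; exact hx h3)]
  · simp only [hy, and_false, if_false, integral_zero]

lemma v32_middle (y : ℝ) : ∫ x2, ∫ x1, v32f (x1, x2, y) =
    (Ioc 0 1).indicator (fun y => v32J (v32c y) y) y := by
  simp_rw [v32_inner]
  by_cases hy : 0 < y
  · simp only [hy, if_true]
    rw [integral_indicator measurableSet_Ioc]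
    by_cases hc : 0 ≤ v32c y / 2
    · have hy1 : y ≤ 1 := by
        by_contra h
        push Not at h
        have : v32c y ≤ 2 * (1 - y) / 3 := min_le_left _ _
        linarith
      rw [indicator_of_mem (show y ∈ Ioc (0 : ℝ) 1 from ⟨hy, hy1⟩), ← intervalIntegral.integral_of_le hc]
      set b : ℝ := 2 * (1 - y) - v32c y with hb
      have h2 : ∀ x2, HasDerivAt (fun x => -v32A b (1 - y - x))
          (v32F (1 - y) x2 (v32c y - x2) - v32F (1 - y) x2 x2) x2 := by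
        intro x2
        have h3 := ((v32A_deriv b (1 - y - x2)).comp_const_sub (1 - y) x2).neg
        refine h3.congr_deriv ?_
        unfold v32F
        rw [show v32c y = 2 * (1 - y) - b by rw [hb]; ring]
        ring
      rw [intervalIntegral.integral_eq_sub_of_hasDerivAt (fun x _ => h2 x)
        (Continuous.intervalIntegrable (by unfold v32F; fun_prop) _ _)]
      unfold v32J
      rw [← hb]
      ring_nf
    · have hy1 : 1 < y := by
        by_contra h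
        push Not at h
        apply hc
        have : 0 ≤ v32c y := le_min (by linarith) (by linarith)
        linarith
      rw [indicator_of_notMem (by rintro ⟨-, h3⟩; linarith), Ioc_eq_empty (by
          intro h3; exact hc h3.le)]
      simp
  · simp only [hy, if_false, integral_zero]
    rw [indicator_of_notMem (by rintro ⟨h3, -⟩; exact hy h3)]

lemma v32_total : ∫ p in Reg (3 / 2), PP p ^ 2 = ∫ y in (0 : ℝ)..1, v32J (v32c y) y := by
  have h1 : ∫ p in Reg (3 / 2), PP p ^ 2 = ∫ p, v32f p := by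
    unfold v32f
    rw [integral_indicator v32_open.measurableSet]
  rw [h1]
  have h2 : ∫ p, v32f p = ∫ z : ℝ × ℝ, ∫ x1 : ℝ, v32f (x1, z) := by
    have h3 := integral_prod_symm (μ := (volume : Measure ℝ)) (ν := (volume : Measure (ℝ × ℝ)))
      v32f v32_int
    exact h3
  rw [h2]
  have h4 : Integrable (fun z : ℝ × ℝ => ∫ x1 : ℝ, v32f (x1, z)) := by
    have h5 := Integrable.integral_prod_right (μ := (volume : Measure ℝ))
      (ν := (volume : Measure (ℝ × ℝ))) (f := v32f) v32_int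
    exact h5
  have h6 : ∫ z : ℝ × ℝ, ∫ x1 : ℝ, v32f (x1, z) = ∫ y : ℝ, ∫ x2 : ℝ, ∫ x1 : ℝ, v32f (x1, x2, y) := by
    have h7 := integral_prod_symm (μ := (volume : Measure ℝ)) (ν := (volume : Measure ℝ)) _ h4
    exact h7
  rw [h6]
  simp_rw [v32_middle]
  rw [integral_indicator measurableSet_Ioc, intervalIntegral.integral_of_le zero_le_one]

lemma v32_J1 (y : ℝ) : v32J (1 / 2 + y) y =
    493 / 13440 * (1 - y) ^ 8 - 309 / 1120 * (1 - y) ^ 7 + 549 / 640 * (1 - y) ^ 6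
      - 909 / 640 * (1 - y) ^ 5 + 1377 / 1024 * (1 - y) ^ 4 - 1863 / 2560 * (1 - y) ^ 3
      + 2187 / 10240 * (1 - y) ^ 2 - 2187 / 71680 * (1 - y) + 2187 / 1146880 := by
  unfold v32J v32A
  ring

lemma v32_J2 (y : ℝ) : v32J (2 * (1 - y) / 3) y = 727 / 1377810 * (1 - y) ^ 8 := by
  unfold v32J v32A
  ring

lemma v32_first : ∫ y in (0 : ℝ)..(1 / 10), v32J (v32c y) y = 424396909/17280000000000 := by
  have h1 : ∫ y in (0 : ℝ)..(1 / 10), v32J (v32c y) y =
      ∫ y in (0 : ℝ)..(1 / 10), v32J (1 / 2 + y) y := by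
    refine intervalIntegral.integral_congr fun y hy => ?_
    rw [uIcc_of_le (by norm_num)] at hy
    have h2 : v32c y = 1 / 2 + y := min_eq_right (by linarith [hy.2])
    simp only [h2]
  rw [h1]
  simp_rw [v32_J1]
  have h3 : ∀ y : ℝ, HasDerivAt (fun y : ℝ => -(493 / 13440 * (1 - y) ^ 9 / 9
      - 309 / 1120 * (1 - y) ^ 8 / 8 + 549 / 640 * (1 - y) ^ 7 / 7
      - 909 / 640 * (1 - y) ^ 6 / 6 + 1377 / 1024 * (1 - y) ^ 5 / 5 - 1863 / 2560 * (1 - y) ^ 4 / 4
      + 2187 / 10240 * (1 - y) ^ 3 / 3 - 2187 / 71680 * (1 - y) ^ 2 / 2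
      + 2187 / 1146880 * (1 - y) ^ 1))
      (493 / 13440 * (1 - y) ^ 8 - 309 / 1120 * (1 - y) ^ 7 + 549 / 640 * (1 - y) ^ 6
      - 909 / 640 * (1 - y) ^ 5 + 1377 / 1024 * (1 - y) ^ 4 - 1863 / 2560 * (1 - y) ^ 3
      + 2187 / 10240 * (1 - y) ^ 2 - 2187 / 71680 * (1 - y) + 2187 / 1146880) y := by
    intro y
    have h0 : ∀ n : ℕ, HasDerivAt (fun x : ℝ => (1 - x) ^ n) (-((n : ℝ) * (1 - y) ^ (n - 1))) y :=
      fun n => (hasDerivAt_pow n (1 - y)).comp_const_sub 1 y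
    have h4 := (((((((((((h0 9).const_mul (493 / 13440)).div_const 9).sub
      (((h0 8).const_mul (309 / 1120)).div_const 8)).add
      (((h0 7).const_mul (549 / 640)).div_const 7)).sub
      (((h0 6).const_mul (909 / 640)).div_const 6)).add
      (((h0 5).const_mul (1377 / 1024)).div_const 5)).sub
      (((h0 4).const_mul (1863 / 2560)).div_const 4)).add
      (((h0 3).const_mul (2187 / 10240)).div_const 3)).sub
      (((h0 2).const_mul (2187 / 71680)).div_const 2)).add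
      ((h0 1).const_mul (2187 / 1146880))).neg
    refine h4.congr_deriv ?_
    norm_num
    ring
  rw [intervalIntegral.integral_eq_sub_of_hasDerivAt (fun x _ => h3 x)
    (Continuous.intervalIntegrable (by fun_prop) _ _)]
  norm_num

lemma v32_second : ∫ y in (1 / 10 : ℝ)..1, v32J (v32c y) y = 1589949/70000000000 := by
  have h1 : ∫ y in (1 / 10 : ℝ)..1, v32J (v32c y) y =
      ∫ y in (1 / 10 : ℝ)..1, v32J (2 * (1 - y) / 3) y := by
    refine intervalIntegral.integral_congr fun y hy => ?_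
    rw [uIcc_of_le (by norm_num)] at hy
    have h2 : v32c y = 2 * (1 - y) / 3 := min_eq_left (by linarith [hy.1])
    simp only [h2]
  rw [h1]
  simp_rw [v32_J2]
  have h3 : ∀ y : ℝ, HasDerivAt (fun y : ℝ => -(727 / 1377810 * (1 - y) ^ 9 / 9))
      (727 / 1377810 * (1 - y) ^ 8) y := by
    intro y
    have h0 : ∀ n : ℕ, HasDerivAt (fun x : ℝ => (1 - x) ^ n) (-((n : ℝ) * (1 - y) ^ (n - 1))) y :=
      fun n => (hasDerivAt_pow n (1 - y)).comp_const_sub 1 y
    refine ((((h0 9).const_mul (727 / 1377810)).div_const 9).neg).congr_deriv ?_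
    norm_num
    ring
  rw [intervalIntegral.integral_eq_sub_of_hasDerivAt (fun x _ => h3 x)
    (Continuous.intervalIntegrable (by fun_prop) _ _)]
  norm_num

lemma v32_cont' : Continuous fun y => v32J (v32c y) y := by
  unfold v32J v32A v32c
  fun_prop

/-- **G9.** Exact value, `Reg (3/2)`: `a = x₁+x₂ < 1/2`, `0 < y < 1-3a/2` and `1/2 ≤ a < 3/5`,
`a-1/2 < y < 1-3a/2`. -/
theorem value32 : 2 * (Nat.factorial 9 : ℝ) * ∫ p in Reg (3 / 2), PP p ^ 2 =
    3430926141 / 100000000 := by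
  rw [v32_total, ← intervalIntegral.integral_add_adjacent_intervals (b := 1 / 10)
    (v32_cont'.intervalIntegrable _ _) (v32_cont'.intervalIntegrable _ _), v32_first, v32_second]
  norm_num [Nat.factorial]

end S6

end

section

namespace SG
open Complex MeasureTheory Filter Topology Set
open scoped Real ComplexConjugate FourierTransform

theorem E2_iter {g : ℝ → ℝ} (hg : ContDiff ℝ (⊤ : ℕ∞) g) (n : ℕ) (x : ℝ) :
    iteratedDeriv n (fun y => (g y : ℂ)) x = ((iteratedDeriv n g x : ℝ) : ℂ) := by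
  induction n generalizing x with
  | zero => simp [iteratedDeriv_zero]
  | succ n ih =>
    have h1 : iteratedDeriv n (fun y => (g y : ℂ)) = fun y => ((iteratedDeriv n g y : ℝ) : ℂ) := funext ih
    rw [iteratedDeriv_succ, iteratedDeriv_succ, h1]
    have h2 : DifferentiableAt ℝ (iteratedDeriv n g) x := by
      have := hg.differentiable_iteratedDeriv n (by exact_mod_cast WithTop.coe_lt_top (n : ℕ))
      exact this x
    exact h2.hasDerivAt.ofReal_comp.deriv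

theorem E2_supp {g : ℝ → ℝ} (hs : ∀ x, g x ≠ 0 → 0 ≤ x ∧ x ≤ 1) (n : ℕ) (x : ℝ)
    (hx : x ∉ Icc (0 : ℝ) 1) : iteratedDeriv n g x = 0 := by
  have h1 : tsupport g ⊆ Icc (0 : ℝ) 1 := by
    refine closure_minimal ?_ isClosed_Icc
    intro y hy
    exact hs y hy
  have h2 : x ∉ Function.support (iteratedFDeriv ℝ n g) := fun h => hx (h1 (support_iteratedFDeriv_subset n h))
  rw [Function.notMem_support] at h2
  have h3 : ‖iteratedFDeriv ℝ n g x‖ = ‖iteratedDeriv n g x‖ := norm_iteratedFDeriv_eq_norm_iteratedDeriv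
  rw [h2, norm_zero] at h3
  exact norm_eq_zero.mp h3.symm

theorem E2_cont {g : ℝ → ℝ} (hg : ContDiff ℝ (⊤ : ℕ∞) g) (n : ℕ) : Continuous (iteratedDeriv n g) := by
  have := hg.differentiable_iteratedDeriv n (by exact_mod_cast WithTop.coe_lt_top (n : ℕ))
  exact this.continuous

theorem E2_int {g : ℝ → ℝ} (hg : ContDiff ℝ (⊤ : ℕ∞) g) (hs : ∀ x, g x ≠ 0 → 0 ≤ x ∧ x ≤ 1) {M : ℝ} (n : ℕ)
    (hM : ∀ x, |iteratedDeriv n g x| ≤ M) :
    Integrable (iteratedDeriv n (fun y => (g y : ℂ))) ∧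
      ∫ x, ‖iteratedDeriv n (fun y => (g y : ℂ)) x‖ ≤ M := by
  have hM0 : 0 ≤ M := le_trans (abs_nonneg _) (hM 0)
  have hfun : iteratedDeriv n (fun y => (g y : ℂ)) = fun y => ((iteratedDeriv n g y : ℝ) : ℂ) :=
    funext (E2_iter hg n)
  have hbd : ∀ x, ‖iteratedDeriv n (fun y => (g y : ℂ)) x‖ ≤ (Icc (0 : ℝ) 1).indicator (fun _ => M) x := by
    intro x
    rw [hfun]
    simp only [Complex.norm_real, Real.norm_eq_abs]
    by_cases hx : x ∈ Icc (0 : ℝ) 1
    · rw [indicator_of_mem hx]; exact hM x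
    · rw [indicator_of_notMem hx, E2_supp hs n x hx, abs_zero]
  have hI : Integrable ((Icc (0 : ℝ) 1).indicator (fun _ => M)) := by
    rw [integrable_indicator_iff measurableSet_Icc]
    exact integrableOn_const (by simp) (by simp)
  have hm : AEStronglyMeasurable (iteratedDeriv n (fun y => (g y : ℂ))) volume := by
    rw [hfun]
    exact (Complex.continuous_ofReal.comp (E2_cont hg n)).aestronglyMeasurable
  have hint : Integrable (iteratedDeriv n (fun y => (g y : ℂ))) :=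
    Integrable.mono' hI hm (Eventually.of_forall hbd)
  refine ⟨hint, ?_⟩
  calc ∫ x, ‖iteratedDeriv n (fun y => (g y : ℂ)) x‖ ≤ ∫ x, (Icc (0 : ℝ) 1).indicator (fun _ => M) x :=
        integral_mono hint.norm hI hbd
    _ = M := by
        rw [integral_indicator measurableSet_Icc]
        simp

/-- **E2. Fourier representation**, uniform in a bounded family. `ĝ(ξ) = (2π)⁻¹ ∫ g(x) e^{-iξx} dx`,
integration by parts `k` times gives `|ĝ(ξ)| ≤ M_k/|ξ|^k`; inversion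
(`g` is a Schwartz function / `MeasureTheory.Integrable.fourierInv_fourier_eq`, `g` continuous, `g, ĝ` integrable). -/
theorem fourier_rep (M : ℕ → ℝ) : ∃ Dk : ℕ → ℝ, ∀ g : ℝ → ℝ, ContDiff ℝ (⊤ : ℕ∞) g →
    (∀ x, g x ≠ 0 → 0 ≤ x ∧ x ≤ 1) → (∀ n x, |iteratedDeriv n g x| ≤ M n) →
    ∃ gh : ℝ → ℂ, Continuous gh ∧ (∀ k : ℕ, ∀ ξ : ℝ, ‖gh ξ‖ ≤ Dk k * (1 + |ξ|) ^ (-(k : ℝ))) ∧
      ∀ x, (g x : ℂ) = ∫ ξ : ℝ, gh ξ * cexp (I * ξ * x) := by
  refine ⟨fun k => 2 ^ k * (M 0 + M k), ?_⟩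
  intro g hg hs hM
  have hM0 : ∀ n, 0 ≤ M n := fun n => le_trans (abs_nonneg _) (hM n 0)
  set G : ℝ → ℂ := fun y => (g y : ℂ) with hG
  have hGc : ContDiff ℝ (⊤ : ℕ∞) G := Complex.ofRealCLM.contDiff.comp hg
  have hint : ∀ n : ℕ, Integrable (iteratedDeriv n G) := fun n => (E2_int hg hs n (hM n)).1
  have hG0 : Integrable G := by
    have := hint 0
    rwa [iteratedDeriv_zero] at this
  have hnorm : ∀ (n : ℕ) (w : ℝ), ‖𝓕 (iteratedDeriv n G) w‖ ≤ M n := by
    intro n w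
    refine le_trans ?_ (E2_int hg hs n (hM n)).2
    rw [Real.fourier_eq]
    exact (norm_integral_le_integral_norm _).trans (le_of_eq (by simp_rw [Circle.norm_smul]; rfl))
  -- bound for the transform
  have hpow : ∀ (n : ℕ) (w : ℝ), (2 * π * |w|) ^ n * ‖𝓕 G w‖ ≤ M n := by
    intro n w
    have h1 := congrFun (Real.fourier_iteratedDeriv (N := ⊤) (n := n) hGc (fun m _ => hint m) le_top) w
    have h2 := hnorm n w
    rw [h1, norm_smul, norm_pow] at h2
    have h3 : ‖(2 * π * I * w : ℂ)‖ = 2 * π * |w| := by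
      simp [abs_of_pos Real.pi_pos]
    rwa [h3] at h2
  have hbd : ∀ (k : ℕ) (ξ : ℝ), ‖𝓕 G (ξ / (2 * π))‖ ≤ 2 ^ k * (M 0 + M k) * (1 + |ξ|) ^ (-(k : ℝ)) := by
    intro k ξ
    have hpos : 0 < 1 + |ξ| := by positivity
    rw [Real.rpow_neg hpos.le, Real.rpow_natCast, ← div_eq_mul_inv, le_div_iff₀ (by positivity)]
    have hw : 2 * π * |ξ / (2 * π)| = |ξ| := by
      rw [abs_div, abs_of_pos (by positivity : (0 : ℝ) < 2 * π)]
      field_simp
    have h0 := hpow 0 (ξ / (2 * π))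
    have hk := hpow k (ξ / (2 * π))
    rw [hw] at h0 hk
    rw [pow_zero, one_mul] at h0
    set A := ‖𝓕 G (ξ / (2 * π))‖ with hA
    have hA0 : 0 ≤ A := norm_nonneg _
    have hle : (1 + |ξ|) ^ k ≤ 2 ^ k * (1 + |ξ| ^ k) := by
      rcases le_total |ξ| 1 with h | h
      · calc (1 + |ξ|) ^ k ≤ 2 ^ k := pow_le_pow_left₀ hpos.le (by linarith) k
          _ ≤ 2 ^ k * (1 + |ξ| ^ k) := by
            have : 0 ≤ |ξ| ^ k := by positivity
            nlinarith [pow_pos (by norm_num : (0 : ℝ) < 2) k]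
      · calc (1 + |ξ|) ^ k ≤ (2 * |ξ|) ^ k := pow_le_pow_left₀ hpos.le (by linarith) k
          _ = 2 ^ k * |ξ| ^ k := mul_pow _ _ _
          _ ≤ 2 ^ k * (1 + |ξ| ^ k) := by
            have : (0 : ℝ) < 2 ^ k := by positivity
            nlinarith
    calc A * (1 + |ξ|) ^ k ≤ A * (2 ^ k * (1 + |ξ| ^ k)) := mul_le_mul_of_nonneg_left hle hA0
      _ = 2 ^ k * (A + |ξ| ^ k * A) := by ring
      _ ≤ 2 ^ k * (M 0 + M k) := mul_le_mul_of_nonneg_left (by linarith) (by positivity)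
  have hcont : Continuous (𝓕 G) :=
    VectorFourier.fourierIntegral_continuous Real.continuous_fourierChar (by exact continuous_inner) hG0
  set gh : ℝ → ℂ := fun ξ => (((2 * π : ℝ) : ℂ))⁻¹ * 𝓕 G (ξ / (2 * π)) with hgh
  have hghc : Continuous gh := by
    refine continuous_const.mul (hcont.comp ?_)
    fun_prop
  have hghb : ∀ (k : ℕ) (ξ : ℝ), ‖gh ξ‖ ≤ 2 ^ k * (M 0 + M k) * (1 + |ξ|) ^ (-(k : ℝ)) := by
    intro k ξ
    refine le_trans ?_ (hbd k ξ)
    rw [hgh]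
    change ‖(((2 * π : ℝ) : ℂ))⁻¹ * 𝓕 G (ξ / (2 * π))‖ ≤ _
    rw [norm_mul, norm_inv, Complex.norm_real, Real.norm_eq_abs,
      abs_of_pos (by positivity : (0 : ℝ) < 2 * π)]
    refine mul_le_of_le_one_left (norm_nonneg _) ?_
    rw [inv_le_one₀ (by positivity)]
    have := Real.pi_gt_three
    linarith
  refine ⟨gh, hghc, hghb, ?_⟩
  -- integrability of the transform
  have hghI : Integrable gh := by
    have h2 : Integrable (fun ξ : ℝ => (2 ^ 2 * (M 0 + M 2)) * (1 + ‖ξ‖) ^ (-(2 : ℝ))) :=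
      (integrable_one_add_norm (by simp)).const_mul _
    refine Integrable.mono' h2 hghc.aestronglyMeasurable (Eventually.of_forall fun ξ => ?_)
    have := hghb 2 ξ
    simpa using this
  have hFI : Integrable (𝓕 G) := by
    have h1 : Integrable (fun w : ℝ => gh (w * (2 * π))) := hghI.comp_mul_right' (by positivity)
    have h2 : (fun w : ℝ => (((2 * π : ℝ) : ℂ)) * gh (w * (2 * π))) = 𝓕 G := by
      funext w
      rw [hgh]
      simp only
      rw [mul_div_assoc, div_self (by positivity : (2 * π : ℝ) ≠ 0), mul_one, ← mul_assoc,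
        mul_inv_cancel₀, one_mul]
      exact_mod_cast (by positivity : (2 * π : ℝ) ≠ 0)
    rw [← h2]
    exact h1.const_mul _
  intro x
  have hinv : 𝓕⁻ (𝓕 G) x = G x := hG0.fourierInv_fourier_eq hFI hGc.continuous.continuousAt
  have h3 : (g x : ℂ) = 𝓕⁻ (𝓕 G) x := hinv.symm
  rw [h3, Real.fourierInv_eq']
  have h4 : ∀ ξ : ℝ, gh ξ * cexp (I * ξ * x) =
      (fun w : ℝ => (((2 * π : ℝ) : ℂ))⁻¹ * (cexp (((2 * π * (w * x) : ℝ) : ℂ) * I) * 𝓕 G w)) (ξ / (2 * π)) := by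
    intro ξ
    rw [hgh]
    simp only
    have : (I * ξ * x : ℂ) = ((2 * π * (ξ / (2 * π) * x) : ℝ) : ℂ) * I := by
      have hp : (π : ℂ) ≠ 0 := by exact_mod_cast Real.pi_ne_zero
      push_cast
      field_simp
    rw [this]
    ring
  rw [integral_congr_ae (Eventually.of_forall h4)]
  rw [Measure.integral_comp_div (fun w : ℝ => (((2 * π : ℝ) : ℂ))⁻¹ * (cexp (((2 * π * (w * x) : ℝ) : ℂ) * I) * 𝓕 G w)),
    abs_of_pos (by positivity : (0 : ℝ) < 2 * π), integral_const_mul]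
  rw [Complex.real_smul, ← mul_assoc, mul_inv_cancel₀ (by exact_mod_cast (by positivity : (2 * π : ℝ) ≠ 0)),
    one_mul]
  refine integral_congr_ae (Eventually.of_forall fun w => ?_)
  simp only [smul_eq_mul]
  congr 3
  simp [mul_comm]

end SG

end
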