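import Pool.Agent.Lib.MP_39df77_nt.S6Defs

section

namespace S6
open Complex MeasureTheory Filter Topology Set
open scoped Real ComplexConjugate

namespace K44

instance : SFinite m0 := by unfold m0; infer_instance
instance : IsFiniteMeasureOnCompacts m0 := by unfold m0; infer_instance

theorem ae_m0 : ∀ᵐ x ∂m0, (0:ℝ) ≤ x := by
  unfold m0; exact ae_restrict_mem measurableSet_Ici

theorem ae_fst {α β : Type*} [MeasurableSpace α] [MeasurableSpace β] {μ : Measure α}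
    {ν : Measure β} [SFinite μ] [SFinite ν] {p : α → Prop} (h : ∀ᵐ x ∂μ, p x) :
    ∀ᵐ z ∂(μ.prod ν), p z.1 :=
  (Measure.quasiMeasurePreserving_fst (μ := μ) (ν := ν)).ae h

theorem ae_snd {α β : Type*} [MeasurableSpace α] [MeasurableSpace β] {μ : Measure α}
    {ν : Measure β} [SFinite μ] [SFinite ν] {p : β → Prop} (h : ∀ᵐ x ∂ν, p x) :
    ∀ᵐ z ∂(μ.prod ν), p z.2 :=
  (Measure.quasiMeasurePreserving_snd (μ := μ) (ν := ν)).ae h

theorem ae_m0m0 : ∀ᵐ t ∂(m0.prod m0), (0:ℝ) ≤ t.1 ∧ 0 ≤ t.2 := by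
  filter_upwards [ae_fst (ν := m0) ae_m0, ae_snd (μ := m0) ae_m0] with t h1 h2
  exact ⟨h1, h2⟩

theorem integ_box {α : Type*} [MeasurableSpace α] {μ : Measure α} {B : Set α}
    (hB : MeasurableSet B) (hμ : μ B ≠ ⊤) {f : α → ℝ} (hf : AEStronglyMeasurable f μ) {M : ℝ}
    (hM : ∀ x, ‖f x‖ ≤ M) (h0 : ∀ᵐ x ∂μ, x ∉ B → f x = 0) : Integrable f μ := by
  have h1 : IntegrableOn f B μ := Measure.integrableOn_of_bounded hμ hf (Eventually.of_forall hM)
  have h2 : Integrable (B.indicator f) μ := (integrable_indicator_iff hB).2 h1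
  refine h2.congr ?_
  filter_upwards [h0] with x hx
  by_cases hxB : x ∈ B
  · simp [hxB]
  · simp [hxB, hx hxB]

theorem integ_cont {α : Type*} [TopologicalSpace α] [T2Space α] [MeasurableSpace α]
    [OpensMeasurableSpace α]
    {μ : Measure α} [IsFiniteMeasureOnCompacts μ] {B : Set α}
    (hB : IsCompact B) {f : α → ℝ} (hf : ContinuousOn f B)
    (h0 : ∀ᵐ x ∂μ, x ∉ B → f x = 0) : Integrable f μ := by
  have h1 : IntegrableOn f B μ := hf.integrableOn_compact hB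
  have h2 : Integrable (B.indicator f) μ := (integrable_indicator_iff hB.measurableSet).2 h1
  refine h2.congr ?_
  filter_upwards [h0] with x hx
  by_cases hxB : x ∈ B
  · simp [hxB]
  · simp [hxB, hx hxB]


/-! ### directional derivatives -/

theorem Dv_contDiff {n m : WithTop ℕ∞} {f : ℝ × ℝ × ℝ → ℝ} (hf : ContDiff ℝ n f)
    (hmn : m + 1 ≤ n) (v : ℝ × ℝ × ℝ) : ContDiff ℝ m (Dv v f) := by
  unfold Dv
  exact (hf.fderiv_right hmn).clm_apply contDiff_const

theorem tsupport_Dv (f : ℝ × ℝ × ℝ → ℝ) (v : ℝ × ℝ × ℝ) : tsupport (Dv v f) ⊆ tsupport f := by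
  refine closure_minimal ?_ (isClosed_tsupport f)
  intro x hx
  apply tsupport_fderiv_subset ℝ (f := f)
  apply subset_tsupport
  intro h
  apply hx
  change fderiv ℝ f x v = 0
  rw [h]; rfl

theorem Dv_hcs {f : ℝ × ℝ × ℝ → ℝ} (hfc : HasCompactSupport f) (v : ℝ × ℝ × ℝ) :
    HasCompactSupport (Dv v f) :=
  hfc.of_isClosed_subset (isClosed_tsupport _) (tsupport_Dv f v)

theorem line_int {h : ℝ × ℝ × ℝ → ℝ} (hh : ContDiff ℝ 1 h) (hc : HasCompactSupport h)
    {v : ℝ × ℝ × ℝ} (hv : v ≠ 0) (x : ℝ × ℝ × ℝ) :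
    ∫ s : ℝ, Dv v h (x + s • v) ∂m0 = - h x := by
  have hemb : Topology.IsClosedEmbedding (fun s : ℝ => x + s • v) :=
    (Homeomorph.addLeft x).isClosedEmbedding.comp (isClosedEmbedding_smul_left hv)
  have hφc : HasCompactSupport (fun s : ℝ => h (x + s • v)) := hc.comp_isClosedEmbedding hemb
  have hφ : ContDiff ℝ 1 (fun s : ℝ => h (x + s • v)) := by
    refine hh.comp ?_
    fun_prop
  have hd : ∀ s : ℝ, deriv (fun s : ℝ => h (x + s • v)) s = Dv v h (x + s • v) := by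
    intro s
    have h1 : HasDerivAt (fun s : ℝ => x + s • v) v s := by
      have := ((hasDerivAt_id s).smul_const v).const_add x
      simpa using this
    have h2 : HasFDerivAt h (fderiv ℝ h (x + s • v)) (x + s • v) :=
      ((hh.differentiable one_ne_zero) _).hasFDerivAt
    exact (h2.comp_hasDerivAt s h1).deriv
  have := hφc.integral_Ioi_deriv_eq hφ 0
  simp only [hd, zero_smul, add_zero] at this
  unfold m0
  rw [integral_Ici_eq_integral_Ioi, this]

theorem kill2_aux {f : ℝ × ℝ × ℝ → ℝ} (hf : ContDiff ℝ 2 f) (hfc : HasCompactSupport f)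
    (x : ℝ × ℝ × ℝ) :
    ∫ s : ℝ × ℝ, Dv (1, 0, 1) (Dv (0, 1, 1) f) (x.1 + s.1, x.2.1 + s.2, x.2.2 + s.1 + s.2)
      ∂(m0.prod m0) = f x := by
  have h1 : ContDiff ℝ 1 (Dv (0, 1, 1) f) := Dv_contDiff hf (by norm_num) _
  have h0 : ContDiff ℝ 0 (Dv (1, 0, 1) (Dv (0, 1, 1) f)) := Dv_contDiff h1 (by norm_num) _
  have hc1 := Dv_hcs hfc (0, 1, 1)
  have hc0 := Dv_hcs hc1 (1, 0, 1)
  have hcs : HasCompactSupport (fun s : ℝ × ℝ =>
      Dv (1, 0, 1) (Dv (0, 1, 1) f) (x.1 + s.1, x.2.1 + s.2, x.2.2 + s.1 + s.2)) := by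
    obtain ⟨R, hR⟩ := hc0.isCompact.isBounded.subset_closedBall 0
    refine HasCompactSupport.intro
      (isCompact_Icc (a := ((-R - x.1 : ℝ), (-R - x.2.1 : ℝ))) (b := (R - x.1, R - x.2.1))) ?_
    intro s hs
    by_contra hne
    have hm := hR (subset_tsupport _ hne)
    rw [mem_closedBall_zero_iff] at hm
    apply hs
    have ha : |x.1 + s.1| ≤ R := by
      have := (norm_fst_le _).trans hm
      simpa using this
    have hb : |x.2.1 + s.2| ≤ R := by
      have := ((norm_fst_le _).trans (norm_snd_le _)).trans hm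
      simpa using this
    rw [abs_le] at ha hb
    refine ⟨⟨?_, ?_⟩, ⟨?_, ?_⟩⟩ <;> dsimp only <;> linarith [ha.1, ha.2, hb.1, hb.2]
  have hcont : Continuous (fun s : ℝ × ℝ =>
      Dv (1, 0, 1) (Dv (0, 1, 1) f) (x.1 + s.1, x.2.1 + s.2, x.2.2 + s.1 + s.2)) :=
    h0.continuous.comp (by fun_prop)
  rw [integral_prod_symm _ (hcont.integrable_of_hasCompactSupport hcs)]
  have hin : ∀ t : ℝ, ∫ s : ℝ, Dv (1, 0, 1) (Dv (0, 1, 1) f)
      (x.1 + s, x.2.1 + t, x.2.2 + s + t) ∂m0 = - Dv (0, 1, 1) f (x + t • (0, 1, 1)) := by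
    intro t
    have := line_int h1 hc1 (v := (1, 0, 1)) (by simp) (x + t • (0, 1, 1))
    rw [← this]
    congr 1
    funext s
    congr 1
    ext <;> simp
    ring
  simp only [hin]
  rw [integral_neg, line_int (hf.of_le (by norm_num)) hfc (by simp) x, neg_neg]

end K44

theorem kill2 {f : ℝ × ℝ × ℝ → ℝ} (hf : ContDiff ℝ (⊤ : ℕ∞) f) (hfc : HasCompactSupport f)
    (x : ℝ × ℝ × ℝ) :
    ∫ s : ℝ × ℝ, Dv (1, 0, 1) (Dv (0, 1, 1) f) (x.1 + s.1, x.2.1 + s.2, x.2.2 + s.1 + s.2)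
      ∂(m0.prod m0) = f x :=
  K44.kill2_aux (contDiff_infty.1 hf 2) hfc x

end S6

end

section

namespace S6
open Complex MeasureTheory Filter Topology Set
open scoped Real ComplexConjugate

/-- Lebesgue measure on `[0,R]` -/
noncomputable def tbmu (R : ℝ) : Measure ℝ := volume.restrict (Icc 0 R)

theorem tbmu_prod (R : ℝ) : (tbmu R).prod (tbmu R) =
    (volume : Measure (ℝ × ℝ)).restrict (Icc (0, 0) (R, R)) := by
  unfold tbmu
  rw [Measure.prod_restrict, Icc_prod_Icc]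
  rfl

theorem tbmu_int2 (R : ℝ) {g : ℝ × ℝ → ℝ} (hg : Continuous g) :
    Integrable g ((tbmu R).prod (tbmu R)) := by
  rw [tbmu_prod]
  exact hg.continuousOn.integrableOn_compact isCompact_Icc

theorem tbmu_int3 (R : ℝ) {g : (ℝ × ℝ) × ℝ → ℝ} (hg : Continuous g) :
    Integrable g (((tbmu R).prod (tbmu R)).prod (tbmu R)) := by
  rw [tbmu_prod]
  unfold tbmu
  rw [Measure.prod_restrict]
  exact hg.continuousOn.integrableOn_compact (isCompact_Icc.prod isCompact_Icc)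

theorem tbmu_int4 (R : ℝ) {g : (ℝ × ℝ) × (ℝ × ℝ) → ℝ} (hg : Continuous g) :
    Integrable g (((tbmu R).prod (tbmu R)).prod ((tbmu R).prod (tbmu R))) := by
  rw [tbmu_prod, Measure.prod_restrict]
  exact hg.continuousOn.integrableOn_compact (isCompact_Icc.prod isCompact_Icc)

/-- integration by parts in the direction `(1,-1)` on a square -/
theorem tb_key {f : ℝ × ℝ → ℝ} (hf : ContDiff ℝ 1 f) {φ : ℝ → ℝ} (hφ : ContDiff ℝ 1 φ) {R : ℝ}
    (hR : 0 ≤ R) (hs : ∀ p : ℝ × ℝ, (R ≤ p.1 ∨ R ≤ p.2) → f p = 0) {u v : ℝ} (hu : 0 ≤ u)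
    (hv : 0 ≤ v) :
    ∫ p : ℝ × ℝ, fderiv ℝ f (p.1 + u, p.2 + v) (1, -1) * φ (p.1 + p.2)
      ∂((tbmu R).prod (tbmu R)) =
    (∫ x, f (x + u, v) * φ x ∂(tbmu R)) - ∫ y, f (u, y + v) * φ y ∂(tbmu R) := by
  set G : ℝ × ℝ → ℝ := fun p => f (p.1 + u, p.2 + v) * φ (p.1 + p.2) with hG
  have hG1 : ContDiff ℝ 1 G := by
    rw [hG]
    refine ContDiff.mul (hf.comp ?_) (hφ.comp ?_)
    · exact (contDiff_fst.add contDiff_const).prodMk (contDiff_snd.add contDiff_const)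
    · exact contDiff_fst.add contDiff_snd
  have hGd : Differentiable ℝ G := hG1.differentiable (by norm_num)
  have hdir : ∀ p : ℝ × ℝ, fderiv ℝ G p (1, -1) =
      fderiv ℝ f (p.1 + u, p.2 + v) (1, -1) * φ (p.1 + p.2) := by
    intro p
    have hline : HasDerivAt (fun t : ℝ => p + t • ((1 : ℝ), (-1 : ℝ))) (1, -1) 0 := by
      have h := ((hasDerivAt_id (0 : ℝ)).smul_const ((1 : ℝ), (-1 : ℝ))).const_add p
      simpa using h
    have h1 : HasDerivAt (fun t : ℝ => G (p + t • ((1 : ℝ), (-1 : ℝ)))) (fderiv ℝ G p (1, -1)) 0 := by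
      have h := (hGd (p + (0 : ℝ) • ((1 : ℝ), (-1 : ℝ)))).hasFDerivAt.comp_hasDerivAt 0 hline
      simpa [Function.comp_def] using h
    set q : ℝ × ℝ := (p.1 + u, p.2 + v) with hq
    have hline' : HasDerivAt (fun t : ℝ => q + t • ((1 : ℝ), (-1 : ℝ))) (1, -1) 0 := by
      have h := ((hasDerivAt_id (0 : ℝ)).smul_const ((1 : ℝ), (-1 : ℝ))).const_add q
      simpa using h
    have hfd : Differentiable ℝ f := hf.differentiable (by norm_num)
    have h2 : HasDerivAt (fun t : ℝ => f (q + t • ((1 : ℝ), (-1 : ℝ)))) (fderiv ℝ f q (1, -1)) 0 := by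
      have h := (hfd (q + (0 : ℝ) • ((1 : ℝ), (-1 : ℝ)))).hasFDerivAt.comp_hasDerivAt 0 hline'
      simpa [Function.comp_def] using h
    have h3 := h2.mul_const (φ (p.1 + p.2))
    have h4 : (fun t : ℝ => f (q + t • ((1 : ℝ), (-1 : ℝ))) * φ (p.1 + p.2)) =
        fun t : ℝ => G (p + t • ((1 : ℝ), (-1 : ℝ))) := by
      funext t
      have e1 : q + t • ((1 : ℝ), (-1 : ℝ)) =
          ((p + t • ((1 : ℝ), (-1 : ℝ))).1 + u, (p + t • ((1 : ℝ), (-1 : ℝ))).2 + v) := by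
        rw [hq]
        ext <;> simp <;> ring
      have e2 : (p + t • ((1 : ℝ), (-1 : ℝ))).1 + (p + t • ((1 : ℝ), (-1 : ℝ))).2 = p.1 + p.2 := by
        simp
        ring
      simp only [hG]
      rw [e1, e2]
    rw [h4] at h3
    exact h1.unique h3
  have hcont : Continuous fun p => fderiv ℝ G p (1, -1) :=
    (hG1.continuous_fderiv (by norm_num)).clm_apply continuous_const
  have hsplit : ∀ p : ℝ × ℝ, fderiv ℝ G p (1, 0) + (-fderiv ℝ G p) (0, 1) =
      fderiv ℝ G p (1, -1) := by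
    intro p
    rw [neg_apply, ← map_neg, ← map_add]
    congr 1
    ext <;> simp
  have hdiv := integral_divergence_prod_Icc_of_hasFDerivAt_of_le G (fun p => -G p)
    (fun p => fderiv ℝ G p) (fun p => -fderiv ℝ G p) (0, 0) (R, R)
    (Prod.mk_le_mk.2 ⟨hR, hR⟩) hG1.continuous.continuousOn hG1.continuous.neg.continuousOn
    (fun x _ => (hGd x).hasFDerivAt) (fun x _ => (hGd x).hasFDerivAt.neg)
    (by
      simp only [hsplit]
      exact hcont.continuousOn.integrableOn_compact isCompact_Icc)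
  simp only [hsplit] at hdiv
  rw [tbmu_prod]
  have hL : ∫ p : ℝ × ℝ in Icc (0, 0) (R, R),
      fderiv ℝ f (p.1 + u, p.2 + v) (1, -1) * φ (p.1 + p.2) =
      ∫ p : ℝ × ℝ in Icc (0, 0) (R, R), fderiv ℝ G p (1, -1) := by
    simp only [hdir]
  rw [hL, hdiv]
  have z1 : ∫ x in (0 : ℝ)..R, -G (x, R) = 0 := by
    rw [intervalIntegral.integral_congr (g := fun _ => (0 : ℝ))]
    · simp
    · intro x hx
      simp only [hG]
      rw [hs _ (Or.inr (by simp only; linarith))]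
      simp
  have z2 : ∫ y in (0 : ℝ)..R, G (R, y) = 0 := by
    rw [intervalIntegral.integral_congr (g := fun _ => (0 : ℝ))]
    · simp
    · intro y hy
      simp only [hG]
      rw [hs _ (Or.inl (by simp only; linarith))]
      simp
  rw [z1, z2]
  unfold tbmu
  rw [integral_Icc_eq_integral_Ioc, integral_Icc_eq_integral_Ioc,
    ← intervalIntegral.integral_of_le hR, ← intervalIntegral.integral_of_le hR,
    intervalIntegral.integral_neg]
  simp only [hG, add_zero, zero_add, sub_neg_eq_add]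

/-- **G3.** The 2×2 identity. -/
theorem two_by_two {f : ℝ × ℝ → ℝ} (hf : ContDiff ℝ (⊤ : ℕ∞) f) (hfc : HasCompactSupport f)
    (hs : ∀ p, f p ≠ 0 → 0 < p.2 ∧ p.2 < p.1) :
    ∫ t : ℝ × ℝ × ℝ × ℝ, fderiv ℝ f (t.1 + t.2.2.1, t.2.1 + t.2.2.2) (1, -1) *
      fderiv ℝ f (t.1 + t.2.1, t.2.2.1 + t.2.2.2) (1, -1) ∂(m0.prod (m0.prod (m0.prod m0))) =
      ∫ p : ℝ × ℝ, f p ^ 2 := by
  -- the size of the support
  obtain ⟨R0, hR0⟩ := hfc.isBounded.subset_closedBall (0 : ℝ × ℝ)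
  set R : ℝ := max R0 0 + 1 with hRdef
  have hRpos : 0 < R := by positivity
  have hR0R : R0 < R := by
    rw [hRdef]
    linarith [le_max_left R0 0]
  have hts : ∀ p : ℝ × ℝ, (R ≤ p.1 ∨ R ≤ p.2) → p ∉ tsupport f := by
    intro p hp hmem
    have h1 := hR0 hmem
    rw [mem_closedBall_zero_iff, Prod.norm_def] at h1
    have h2 : |p.1| ≤ R0 := (le_max_left _ _).trans h1
    have h3 : |p.2| ≤ R0 := (le_max_right _ _).trans h1
    rcases hp with hp | hp
    · linarith [le_abs_self p.1]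
    · linarith [le_abs_self p.2]
  have hf0 : ∀ p : ℝ × ℝ, (R ≤ p.1 ∨ R ≤ p.2) → f p = 0 := fun p hp =>
    image_eq_zero_of_notMem_tsupport (hts p hp)
  have hF0 : ∀ p : ℝ × ℝ, (R ≤ p.1 ∨ R ≤ p.2) → fderiv ℝ f p (1, -1) = 0 := by
    intro p hp
    have h1 : p ∉ tsupport (fderiv ℝ f) := fun h => hts p hp (tsupport_fderiv_subset ℝ h)
    rw [image_eq_zero_of_notMem_tsupport h1]
    rfl
  have hf1 : ContDiff ℝ 1 f := hf.of_le (by exact_mod_cast le_top)
  set F : ℝ × ℝ → ℝ := fun p => fderiv ℝ f p (1, -1) with hF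
  have hFc : ContDiff ℝ 1 F := by
    have h2 : ContDiff ℝ 2 f := hf.of_le (by
      have : ((2 : ℕ∞) : WithTop ℕ∞) ≤ ((⊤ : ℕ∞) : WithTop ℕ∞) := WithTop.coe_le_coe.2 le_top
      exact this)
    have h1 : ContDiff ℝ 1 (fderiv ℝ f) := h2.fderiv_right (by norm_num)
    exact h1.clm_apply contDiff_const
  have hFcont : Continuous F := hFc.continuous
  have hfcont : Continuous f := hf.continuous
  set H : ℝ × ℝ × ℝ × ℝ → ℝ := fun t => F (t.1 + t.2.2.1, t.2.1 + t.2.2.2) *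
      F (t.1 + t.2.1, t.2.2.1 + t.2.2.2) with hH
  have hHc : Continuous H := by
    rw [hH]
    exact (hFcont.comp (by fun_prop)).mul (hFcont.comp (by fun_prop))
  -- reduction to the cube
  have step0 : ∫ t, H t ∂(m0.prod (m0.prod (m0.prod m0))) =
      ∫ t, H t ∂((tbmu R).prod ((tbmu R).prod ((tbmu R).prod (tbmu R)))) := by
    unfold m0 tbmu
    rw [Measure.prod_restrict, Measure.prod_restrict, Measure.prod_restrict,
      Measure.prod_restrict, Measure.prod_restrict, Measure.prod_restrict]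
    refine setIntegral_eq_of_subset_of_forall_sdiff_eq_zero ?_ ?_ ?_
    · exact measurableSet_Ici.prod (measurableSet_Ici.prod (measurableSet_Ici.prod
        measurableSet_Ici))
    · exact Set.prod_mono Icc_subset_Ici_self (Set.prod_mono Icc_subset_Ici_self
        (Set.prod_mono Icc_subset_Ici_self Icc_subset_Ici_self))
    · rintro ⟨a, b, c, d⟩ ⟨⟨ha, hb, hc, hd⟩, hn⟩
      simp only [mem_Ici] at ha hb hc hd
      simp only [mem_prod, mem_Icc, not_and_or, not_le] at hn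
      simp only [hH]
      have : R ≤ a + c ∨ R ≤ b + d := by
        rcases hn with (h | h) | (h | h) | (h | h) | (h | h)
        · linarith
        · left; linarith
        · linarith
        · right; linarith
        · linarith
        · left; linarith
        · linarith
        · right; linarith
      rw [hF]
      simp only
      rw [hF0 _ this, zero_mul]
  have step1 : ∫ t, H t ∂((tbmu R).prod ((tbmu R).prod ((tbmu R).prod (tbmu R)))) =
      ∫ q : ℝ × ℝ, ∫ p : ℝ × ℝ, H (p.1, p.2, q) ∂((tbmu R).prod (tbmu R))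
        ∂((tbmu R).prod (tbmu R)) := by
    have _i1 : SFinite (tbmu R) := by unfold tbmu; infer_instance
    have h1 := (measurePreserving_prodAssoc (tbmu R) (tbmu R)
      ((tbmu R).prod (tbmu R))).integral_comp' H
    rw [← h1, integral_prod_symm]
    · rfl
    · exact tbmu_int4 R (hHc.comp (by
        show Continuous fun s : (ℝ × ℝ) × (ℝ × ℝ) => (s.1.1, s.1.2, s.2)
        fun_prop))
  have hfin : IsFiniteMeasure (tbmu R) := by
    unfold tbmu
    exact ⟨by rw [Measure.restrict_apply_univ]; exact isCompact_Icc.measure_lt_top⟩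
  have hleft : ∀ z : ℝ, f (0, z) = 0 := by
    intro z
    by_contra h
    have := hs _ h
    simp only at this
    linarith [this.1, this.2]
  set A : ℝ × ℝ → ℝ := fun q => ∫ x, f (x + q.1, q.2) * F (x, q.1 + q.2) ∂(tbmu R) with hA
  set B : ℝ × ℝ → ℝ := fun q => ∫ y, f (q.1, y + q.2) * F (y, q.1 + q.2) ∂(tbmu R) with hB
  have hAint : Integrable A ((tbmu R).prod (tbmu R)) :=
    (tbmu_int3 R (g := fun s : (ℝ × ℝ) × ℝ => f (s.2 + s.1.1, s.1.2) * F (s.2, s.1.1 + s.1.2))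
      ((hfcont.comp (by fun_prop)).mul (hFcont.comp (by fun_prop)))).integral_prod_left
  have hBint : Integrable B ((tbmu R).prod (tbmu R)) :=
    (tbmu_int3 R (g := fun s : (ℝ × ℝ) × ℝ => f (s.1.1, s.2 + s.1.2) * F (s.2, s.1.1 + s.1.2))
      ((hfcont.comp (by fun_prop)).mul (hFcont.comp (by fun_prop)))).integral_prod_left
  have step2 : ∫ q : ℝ × ℝ, ∫ p : ℝ × ℝ, H (p.1, p.2, q) ∂((tbmu R).prod (tbmu R))
        ∂((tbmu R).prod (tbmu R)) = (∫ q, A q ∂((tbmu R).prod (tbmu R))) -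
        ∫ q, B q ∂((tbmu R).prod (tbmu R)) := by
    rw [← integral_sub hAint hBint]
    refine integral_congr_ae ?_
    have hae : ∀ᵐ q ∂((tbmu R).prod (tbmu R)), q ∈ Icc ((0 : ℝ), (0 : ℝ)) (R, R) := by
      rw [tbmu_prod]
      exact ae_restrict_mem measurableSet_Icc
    filter_upwards [hae] with q hq
    have hq1 : 0 ≤ q.1 := hq.1.1
    have hq2 : 0 ≤ q.2 := hq.1.2
    exact tb_key hf1 (φ := fun σ => F (σ, q.1 + q.2))
      (hFc.comp (contDiff_id.prodMk contDiff_const)) hRpos.le hf0 hq1 hq2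
  have step3 : ∫ q, A q ∂((tbmu R).prod (tbmu R)) = ∫ d, ∫ x, f (x, d) ^ 2 ∂(tbmu R) ∂(tbmu R) := by
    rw [integral_prod_symm _ hAint]
    refine integral_congr_ae ?_
    have hae : ∀ᵐ d ∂(tbmu R), d ∈ Icc (0 : ℝ) R := by
      unfold tbmu
      exact ae_restrict_mem measurableSet_Icc
    filter_upwards [hae] with d hd
    have h1 : ∫ c, A (c, d) ∂(tbmu R) = ∫ p : ℝ × ℝ,
        fderiv ℝ f (p.1 + 0, p.2 + d) (1, -1) * f (p.1 + p.2, d) ∂((tbmu R).prod (tbmu R)) := by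
      rw [integral_prod_symm]
      · simp only [hA, hF]
        refine integral_congr_ae (Eventually.of_forall fun c => ?_)
        refine integral_congr_ae (Eventually.of_forall fun x => ?_)
        simp only [add_zero]
        ring
      · refine tbmu_int2 R ?_
        have : Continuous fun p : ℝ × ℝ => F (p.1 + 0, p.2 + d) * f (p.1 + p.2, d) :=
          (hFcont.comp (by fun_prop)).mul (hfcont.comp (by fun_prop))
        exact this
    rw [h1, tb_key hf1 (φ := fun σ => f (σ, d)) (hf1.comp (contDiff_id.prodMk contDiff_const))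
      hRpos.le hf0 le_rfl hd.1]
    simp only [hleft, zero_mul, integral_zero, sub_zero, add_zero]
    refine integral_congr_ae (Eventually.of_forall fun x => ?_)
    simp only
    ring
  have step4 : ∫ q, B q ∂((tbmu R).prod (tbmu R)) = 0 := by
    rw [integral_prod _ hBint]
    rw [integral_congr_ae (g := fun _ => (0 : ℝ)), integral_zero]
    have hae : ∀ᵐ d ∂(tbmu R), d ∈ Icc (0 : ℝ) R := by
      unfold tbmu
      exact ae_restrict_mem measurableSet_Icc
    filter_upwards [hae] with c hc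
    have h1 : ∫ d, B (c, d) ∂(tbmu R) = ∫ p : ℝ × ℝ,
        fderiv ℝ f (p.1 + 0, p.2 + c) (1, -1) * f (c, p.1 + p.2) ∂((tbmu R).prod (tbmu R)) := by
      rw [integral_prod_symm]
      · simp only [hB, hF]
        refine integral_congr_ae (Eventually.of_forall fun d => ?_)
        refine integral_congr_ae (Eventually.of_forall fun y => ?_)
        simp only [add_zero]
        rw [add_comm c d]
        ring
      · refine tbmu_int2 R ?_
        have : Continuous fun p : ℝ × ℝ => F (p.1 + 0, p.2 + c) * f (c, p.1 + p.2) :=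
          (hFcont.comp (by fun_prop)).mul (hfcont.comp (by fun_prop))
        exact this
    rw [h1, tb_key hf1 (φ := fun σ => f (c, σ)) (hf1.comp (contDiff_const.prodMk contDiff_id))
      hRpos.le hf0 le_rfl hc.1]
    simp only [hleft, zero_mul, integral_zero, sub_zero, add_zero]
    rw [integral_congr_ae (g := fun _ => (0 : ℝ)), integral_zero]
    refine Eventually.of_forall fun x => ?_
    simp only
    by_contra h
    have h2 : f (x, c) ≠ 0 := fun h0 => h (by rw [h0, zero_mul])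
    have h3 : f (c, x) ≠ 0 := fun h0 => h (by rw [h0, mul_zero])
    have h4 := hs _ h2
    have h5 := hs _ h3
    simp only at h4 h5
    linarith [h4.2, h5.2]
  have step5 : ∫ d, ∫ x, f (x, d) ^ 2 ∂(tbmu R) ∂(tbmu R) = ∫ p : ℝ × ℝ, f p ^ 2 := by
    rw [← integral_prod_symm (f := fun p : ℝ × ℝ => f p ^ 2) (tbmu_int2 R (hfcont.pow 2)),
      tbmu_prod]
    refine setIntegral_eq_integral_of_forall_compl_eq_zero ?_
    intro p hp
    by_contra h
    have h1 : f p ≠ 0 := fun h0 => h (by rw [h0]; norm_num)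
    have h2 := hs p h1
    have h3 : p.1 < R := by
      by_contra h4
      exact h1 (hf0 p (Or.inl (not_lt.1 h4)))
    refine hp ⟨⟨?_, ?_⟩, ⟨?_, ?_⟩⟩
    · show (0 : ℝ) ≤ p.1
      linarith [h2.1, h2.2]
    · show (0 : ℝ) ≤ p.2
      linarith [h2.1]
    · show p.1 ≤ R
      linarith
    · show p.2 ≤ R
      linarith [h2.2]
  calc ∫ t : ℝ × ℝ × ℝ × ℝ, fderiv ℝ f (t.1 + t.2.2.1, t.2.1 + t.2.2.2) (1, -1) *
      fderiv ℝ f (t.1 + t.2.1, t.2.2.1 + t.2.2.2) (1, -1) ∂(m0.prod (m0.prod (m0.prod m0)))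
      = ∫ t, H t ∂(m0.prod (m0.prod (m0.prod m0))) := rfl
    _ = ∫ p : ℝ × ℝ, f p ^ 2 := by
      rw [step0, step1, step2, step3, step4, step5, sub_zero]

end S6

end

section

namespace S6
open Complex MeasureTheory Filter Topology Set
open scoped Real ComplexConjugate

/-! ### QA_GG -/

theorem QA_GG_Dv_smooth (v : ℝ × ℝ × ℝ) {f : ℝ × ℝ × ℝ → ℝ} (hf : ContDiff ℝ (⊤ : ℕ∞) f) :
    ContDiff ℝ (⊤ : ℕ∞) (Dv v f) :=
  ((contDiff_infty_iff_fderiv.1 hf).2).clm_apply contDiff_const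

theorem QA_GG_Dv_cs (v : ℝ × ℝ × ℝ) {f : ℝ × ℝ × ℝ → ℝ} (hf : HasCompactSupport f) :
    HasCompactSupport (Dv v f) := hf.fderiv_apply (𝕜 := ℝ) v

/-- the positive orthant -/
def QA_GG_orth : Set OA :=
  ((Ici (0 : ℝ)) ×ˢ ((Ici (0 : ℝ)) ×ˢ ((Ici (0 : ℝ)) ×ˢ ((Ici (0 : ℝ)) ×ˢ (Ici (0 : ℝ)))))) ×ˢ
    (((Ici (0 : ℝ)) ×ˢ (Ici (0 : ℝ))) ×ˢ ((Ici (0 : ℝ)) ×ˢ (Ici (0 : ℝ))))

theorem QA_GG_meas :
    ((m0.prod (m0.prod (m0.prod (m0.prod m0)))).prod ((m0.prod m0).prod (m0.prod m0))) =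
      (volume : Measure OA).restrict QA_GG_orth := by
  unfold m0 QA_GG_orth
  simp only [Measure.prod_restrict]
  rfl

theorem QA_GG_mapA_cont : Continuous mapA := by
  unfold mapA
  fun_prop

theorem QA_GG_sf : SigmaFinite m0 := by
  unfold m0
  infer_instance

/-- integrability over the orthant -/
theorem QA_GG_int {G : ℝ × ℝ × ℝ → ℝ} (hG : Continuous G) (hGc : HasCompactSupport G) :
    Integrable (fun t : OA => G ((mapA t).2.2.1, (mapA t).2.2.2, (mapA t).1.1) *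
      G ((mapA t).1.2.1, (mapA t).1.2.2, (mapA t).2.1))
      ((m0.prod (m0.prod (m0.prod (m0.prod m0)))).prod ((m0.prod m0).prod (m0.prod m0))) := by
  rw [QA_GG_meas]
  obtain ⟨R, hR⟩ := (hGc.isCompact.isBounded).subset_closedBall (0 : ℝ × ℝ × ℝ)
  have hGR : ∀ a b c : ℝ, G (a, b, c) ≠ 0 → |a| ≤ R ∧ |b| ≤ R ∧ |c| ≤ R := by
    intro a b c h
    have h1 := hR (subset_tsupport G h)
    rw [mem_closedBall_zero_iff, Prod.norm_def, Prod.norm_def] at h1
    simp only [Real.norm_eq_abs, max_le_iff] at h1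
    exact h1
  have hcont : Continuous (fun t : OA => G ((mapA t).2.2.1, (mapA t).2.2.2, (mapA t).1.1) *
      G ((mapA t).1.2.1, (mapA t).1.2.2, (mapA t).2.1)) := by
    have := QA_GG_mapA_cont
    fun_prop
  have hmeas : MeasurableSet QA_GG_orth := by
    unfold QA_GG_orth
    have h := measurableSet_Ici (a := (0 : ℝ))
    exact (h.prod (h.prod (h.prod (h.prod h)))).prod ((h.prod h).prod (h.prod h))
  refine IntegrableOn.of_forall_sdiff_eq_zero (s := Metric.closedBall 0 R)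
    (hcont.continuousOn.integrableOn_compact (isCompact_closedBall _ _)) hmeas ?_
  rintro ⟨⟨t11, t22, t23, t32, t33⟩, ⟨t12, t13⟩, ⟨t21, t31⟩⟩ ⟨ht, hn⟩
  by_contra hne
  apply hn
  simp only [QA_GG_orth, Set.mem_prod, Set.mem_Ici] at ht
  obtain ⟨⟨h11, h22, h23, h32, h33⟩, ⟨h12, h13⟩, h21, h31⟩ := ht
  obtain ⟨ha, hb⟩ := mul_ne_zero_iff.1 hne
  obtain ⟨a1, a2, a3⟩ := hGR _ _ _ ha
  obtain ⟨b1, b2, b3⟩ := hGR _ _ _ hb
  simp only [mapA] at a1 a2 a3 b1 b2 b3
  rw [abs_of_nonneg (by positivity)] at a1 a2 a3 b1 b2 b3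
  rw [mem_closedBall_zero_iff]
  simp only [Prod.norm_def, Real.norm_eq_abs, max_le_iff, abs_of_nonneg h11, abs_of_nonneg h22,
    abs_of_nonneg h23, abs_of_nonneg h32, abs_of_nonneg h33, abs_of_nonneg h12, abs_of_nonneg h13,
    abs_of_nonneg h21, abs_of_nonneg h31]
  refine ⟨⟨?_, ?_, ?_, ?_, ?_⟩, ⟨?_, ?_⟩, ?_, ?_⟩ <;> linarith

/-- **G4.** -/
theorem QA_GG {Ψ : ℝ × ℝ × ℝ → ℝ} (hΨ : ContDiff ℝ (⊤ : ℕ∞) Ψ) (hc : HasCompactSupport Ψ)
    (hs : ∀ p, Ψ p ≠ 0 → 0 < p.2.1 ∧ p.2.1 < p.1 ∧ 0 < p.2.2) :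
    QA nuA (GG Ψ) = ∫ p, Ψ p ^ 2 := by
  have : SigmaFinite m0 := QA_GG_sf
  set f : ℝ × ℝ × ℝ → ℝ := Dv (1, -1, 0) Ψ with hf
  have hfs : ContDiff ℝ (⊤ : ℕ∞) f := QA_GG_Dv_smooth _ hΨ
  have hfc : HasCompactSupport f := QA_GG_Dv_cs _ hc
  have hGs : ContDiff ℝ (⊤ : ℕ∞) (GG Ψ) := QA_GG_Dv_smooth _ (QA_GG_Dv_smooth _ hfs)
  have hGc : HasCompactSupport (GG Ψ) := QA_GG_Dv_cs _ (QA_GG_Dv_cs _ hfc)
  have hGcont : Continuous (GG Ψ) := hGs.continuous
  have hint := QA_GG_int hGcont hGc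
  -- push forward
  have h1 : QA nuA (GG Ψ) = ∫ t : OA, GG Ψ ((mapA t).2.2.1, (mapA t).2.2.2, (mapA t).1.1) *
      GG Ψ ((mapA t).1.2.1, (mapA t).1.2.2, (mapA t).2.1)
      ∂((m0.prod (m0.prod (m0.prod (m0.prod m0)))).prod ((m0.prod m0).prod (m0.prod m0))) := by
    unfold QA nuA
    rw [integral_map QA_GG_mapA_cont.aemeasurable]
    have hcont : Continuous (fun p : E6 => GG Ψ (p.2.2.1, p.2.2.2, p.1.1) *
        GG Ψ (p.1.2.1, p.1.2.2, p.2.1)) := by fun_prop
    exact hcont.aestronglyMeasurable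
  rw [h1, integral_prod _ hint]
  -- inner integral
  have h2 : ∀ o : ℝ × ℝ × ℝ × ℝ × ℝ,
      ∫ i : (ℝ × ℝ) × (ℝ × ℝ), GG Ψ ((mapA (o, i)).2.2.1, (mapA (o, i)).2.2.2, (mapA (o, i)).1.1) *
        GG Ψ ((mapA (o, i)).1.2.1, (mapA (o, i)).1.2.2, (mapA (o, i)).2.1)
        ∂((m0.prod m0).prod (m0.prod m0)) =
      f (o.2.1 + o.2.2.2.1, o.2.2.1 + o.2.2.2.2, o.1) *
        f (o.2.1 + o.2.2.1, o.2.2.2.1 + o.2.2.2.2, o.1) := by
    intro o
    have h3 : ∀ i : (ℝ × ℝ) × (ℝ × ℝ),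
        GG Ψ ((mapA (o, i)).2.2.1, (mapA (o, i)).2.2.2, (mapA (o, i)).1.1) *
          GG Ψ ((mapA (o, i)).1.2.1, (mapA (o, i)).1.2.2, (mapA (o, i)).2.1) =
        (fun s : ℝ × ℝ => GG Ψ (o.2.1 + o.2.2.2.1 + s.1, o.2.2.1 + o.2.2.2.2 + s.2,
          o.1 + s.1 + s.2)) i.1 *
        (fun s : ℝ × ℝ => GG Ψ (o.2.1 + o.2.2.1 + s.1, o.2.2.2.1 + o.2.2.2.2 + s.2,
          o.1 + s.1 + s.2)) i.2 := by
      intro i
      simp only [mapA]
      congr 2 <;> · refine Prod.ext ?_ (Prod.ext ?_ ?_) <;> simp only <;> ring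
    refine (integral_congr_ae (Eventually.of_forall h3)).trans ?_
    refine (integral_prod_mul (μ := m0.prod m0) (ν := m0.prod m0)
      (fun s : ℝ × ℝ => GG Ψ (o.2.1 + o.2.2.2.1 + s.1, o.2.2.1 + o.2.2.2.2 + s.2, o.1 + s.1 + s.2))
      (fun s : ℝ × ℝ => GG Ψ (o.2.1 + o.2.2.1 + s.1, o.2.2.2.1 + o.2.2.2.2 + s.2,
        o.1 + s.1 + s.2))).trans ?_
    congr 1
    · exact kill2 hfs hfc (o.2.1 + o.2.2.2.1, o.2.2.1 + o.2.2.2.2, o.1)
    · exact kill2 hfs hfc (o.2.1 + o.2.2.1, o.2.2.2.1 + o.2.2.2.2, o.1)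
  simp_rw [h2]
  have hint2 : Integrable (fun o : ℝ × ℝ × ℝ × ℝ × ℝ =>
      f (o.2.1 + o.2.2.2.1, o.2.2.1 + o.2.2.2.2, o.1) *
        f (o.2.1 + o.2.2.1, o.2.2.2.1 + o.2.2.2.2, o.1))
      (m0.prod (m0.prod (m0.prod (m0.prod m0)))) := by
    have := hint.integral_prod_left
    simp_rw [h2] at this
    exact this
  rw [integral_prod _ hint2]
  -- the 2 x 2 identity
  have h4 : ∀ y : ℝ, ∫ t : ℝ × ℝ × ℝ × ℝ, f (t.1 + t.2.2.1, t.2.1 + t.2.2.2, y) *
      f (t.1 + t.2.1, t.2.2.1 + t.2.2.2, y) ∂(m0.prod (m0.prod (m0.prod m0))) =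
      ∫ p : ℝ × ℝ, Ψ (p.1, p.2, y) ^ 2 := by
    intro y
    set e : ℝ × ℝ → ℝ × ℝ × ℝ := fun p => (p.1, p.2, y) with he
    have hes : ContDiff ℝ (⊤ : ℕ∞) e := by
      rw [he]
      fun_prop
    have hec : HasCompactSupport (fun p => Ψ (e p)) := by
      have hcl : Topology.IsClosedEmbedding e := by
        refine Topology.IsClosedEmbedding.of_continuous_injective_isClosedMap hes.continuous ?_ ?_
        · rintro ⟨a, b⟩ ⟨c, d⟩ h
          simp only [he, Prod.mk.injEq] at h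
          exact Prod.ext h.1 h.2.1
        · intro s hs'
          have h5 : e '' s = {q : ℝ × ℝ × ℝ | (q.1, q.2.1) ∈ s ∧ q.2.2 = y} := by
            ext q
            constructor
            · rintro ⟨p, hp, rfl⟩
              exact ⟨hp, rfl⟩
            · rintro ⟨hq, hq2⟩
              exact ⟨(q.1, q.2.1), hq, by simp only [he]; rw [← hq2]⟩
          rw [h5]
          have h6 : IsClosed {q : ℝ × ℝ × ℝ | (q.1, q.2.1) ∈ s} :=
            hs'.preimage (by fun_prop : Continuous fun q : ℝ × ℝ × ℝ => (q.1, q.2.1))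
          have h7 : IsClosed {q : ℝ × ℝ × ℝ | q.2.2 = y} :=
            isClosed_eq (by fun_prop) (by fun_prop)
          exact h6.inter h7
      exact hc.comp_isClosedEmbedding hcl
    have h8 := two_by_two (f := fun p => Ψ (e p)) (hΨ.comp hes) hec (fun p hp => by
      have := hs (e p) hp
      exact ⟨this.1, this.2.1⟩)
    have h9 : ∀ q : ℝ × ℝ, fderiv ℝ (fun p => Ψ (e p)) q (1, -1) = f (e q) := by
      intro q
      have hd1 : DifferentiableAt ℝ Ψ (e q) := (hΨ.differentiable (by simp)) (e q)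
      have hd2 : HasFDerivAt e ((ContinuousLinearMap.fst ℝ ℝ ℝ).prod
          ((ContinuousLinearMap.snd ℝ ℝ ℝ).prod (0 : ℝ × ℝ →L[ℝ] ℝ))) q :=
        hasFDerivAt_fst.prodMk (hasFDerivAt_snd.prodMk (hasFDerivAt_const y q))
      have h10 := (hd1.hasFDerivAt.comp q hd2).fderiv
      have h11 : fderiv ℝ (fun p => Ψ (e p)) q = (fderiv ℝ Ψ (e q)).comp
          ((ContinuousLinearMap.fst ℝ ℝ ℝ).prod
          ((ContinuousLinearMap.snd ℝ ℝ ℝ).prod (0 : ℝ × ℝ →L[ℝ] ℝ))) := h10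
      rw [h11]
      simp [hf, Dv]
    simp_rw [h9] at h8
    exact h8
  simp_rw [h4]
  -- final Fubini
  have hΨ2c : Continuous (fun p : ℝ × ℝ × ℝ => Ψ p ^ 2) := hΨ.continuous.pow 2
  have hΨ2s : HasCompactSupport (fun p : ℝ × ℝ × ℝ => Ψ p ^ 2) := by
    have := hc.comp_left (g := fun x : ℝ => x ^ 2) (by norm_num)
    exact this
  have hI3 : Integrable (fun p : ℝ × ℝ × ℝ => Ψ p ^ 2) :=
    hΨ2c.integrable_of_hasCompactSupport hΨ2s
  have hhomeo : HasCompactSupport (fun z : (ℝ × ℝ) × ℝ => Ψ (z.1.1, z.1.2, z.2) ^ 2) :=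
    hΨ2s.comp_homeomorph (Homeomorph.prodAssoc ℝ ℝ ℝ)
  have hI2 : Integrable (fun z : (ℝ × ℝ) × ℝ => Ψ (z.1.1, z.1.2, z.2) ^ 2) := by
    refine Continuous.integrable_of_hasCompactSupport ?_ hhomeo
    have := hΨ.continuous
    fun_prop
  have hI2' : Integrable (fun z : ℝ × (ℝ × ℝ) => Ψ (z.2.1, z.2.2, z.1) ^ 2) := hI2.swap
  calc ∫ y, (∫ p : ℝ × ℝ, Ψ (p.1, p.2, y) ^ 2) ∂m0
      = ∫ y : ℝ, ∫ p : ℝ × ℝ, Ψ (p.1, p.2, y) ^ 2 := by
        unfold m0
        refine setIntegral_eq_integral_of_forall_compl_eq_zero fun y hy => ?_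
        have h5 : ∀ p : ℝ × ℝ, Ψ (p.1, p.2, y) ^ 2 = 0 := by
          intro p
          by_contra h
          have h6 : Ψ (p.1, p.2, y) ≠ 0 := fun h7 => h (by rw [h7]; norm_num)
          exact hy (hs _ h6).2.2.le
        simp [h5]
    _ = ∫ p : ℝ × ℝ, ∫ y : ℝ, Ψ (p.1, p.2, y) ^ 2 :=
        integral_integral_swap (f := fun (y : ℝ) (p : ℝ × ℝ) => Ψ (p.1, p.2, y) ^ 2) hI2'
    _ = ∫ a : ℝ, ∫ b : ℝ, ∫ y : ℝ, Ψ (a, b, y) ^ 2 := by
        have := integral_prod (fun p : ℝ × ℝ => ∫ y : ℝ, Ψ (p.1, p.2, y) ^ 2)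
          hI2.integral_prod_left
        exact this
    _ = ∫ a : ℝ, ∫ q : ℝ × ℝ, Ψ (a, q.1, q.2) ^ 2 := by
        refine integral_congr_ae ?_
        filter_upwards [hI3.prod_right_ae] with a ha
        exact (integral_prod (fun q : ℝ × ℝ => Ψ (a, q.1, q.2) ^ 2) ha).symm
    _ = ∫ p, Ψ p ^ 2 := (integral_prod (fun p : ℝ × ℝ × ℝ => Ψ p ^ 2) hI3).symm

end S6

end

section

namespace S6
open Complex MeasureTheory Filter Topology Set
open scoped Real ComplexConjugate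

noncomputable section

/-- auxiliary: Laplace transform of one linear form -/
def lapA_E {α : Type} [MeasurableSpace α] (μ : Measure α) (f : α → ℝ) (c : ℝ) : Prop :=
  Integrable (fun x => Real.exp (-(f x))) μ ∧ ∫ x, Real.exp (-(f x)) ∂μ = c

instance lapA_inst : SFinite m0 := by unfold m0; infer_instance

theorem lapA_prod {α β : Type} [MeasurableSpace α] [MeasurableSpace β] {μ : Measure α}
    {ν : Measure β} [SFinite μ] [SFinite ν] {f : α → ℝ} {g : β → ℝ} {c d : ℝ}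
    (hf : lapA_E μ f c) (hg : lapA_E ν g d) :
    lapA_E (μ.prod ν) (fun z => f z.1 + g z.2) (c * d) := by
  have h : (fun z : α × β => Real.exp (-(f z.1 + g z.2))) =
      fun z => Real.exp (-(f z.1)) * Real.exp (-(g z.2)) := by
    funext z
    rw [← Real.exp_add]
    congr 1
    ring
  constructor
  · rw [h]
    exact hf.1.mul_prod hg.1
  · rw [h, integral_prod_mul (fun x => Real.exp (-(f x))) (fun y => Real.exp (-(g y))), hf.2, hg.2]

theorem lapA_one {c : ℝ} (hc : 0 < c) : lapA_E m0 (fun x => c * x) c⁻¹ := by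
  unfold m0 lapA_E
  have h : (fun x : ℝ => Real.exp (-(c * x))) = fun x => Real.exp ((-c) * x) := by
    funext x; congr 1; ring
  constructor
  · rw [h]
    have := integrableOn_exp_mul_Ioi (a := -c) (by linarith) 0
    rwa [← integrableOn_Ici_iff_integrableOn_Ioi] at this
  · rw [h, integral_Ici_eq_integral_Ioi, integral_exp_mul_Ioi (by linarith) 0]
    simp

theorem lapA_ae {α β : Type} [MeasurableSpace α] [MeasurableSpace β] {μ : Measure α}
    {ν : Measure β} [SFinite μ] [SFinite ν] {p : α → Prop} {q : β → Prop}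
    (hp : ∀ᵐ x ∂μ, p x) (hq : ∀ᵐ x ∂ν, q x) : ∀ᵐ z ∂μ.prod ν, p z.1 ∧ q z.2 :=
  (Measure.quasiMeasurePreserving_fst.ae hp).and (Measure.quasiMeasurePreserving_snd.ae hq)

theorem lapA_nn : ∀ᵐ x ∂m0, 0 ≤ x := by
  unfold m0
  exact ae_restrict_mem measurableSet_Ici

theorem lapA_cont : Continuous mapA := by
  unfold mapA
  fun_prop

theorem lapB_cont : Continuous mapB := by
  unfold mapB
  fun_prop

theorem lapA_dot (s : E6) : Continuous fun p : E6 => Real.exp (-dot6 s p) := by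
  unfold dot6
  fun_prop

theorem lapA_meas : MeasurableSet {p : E6 | Nn6 p} := by
  have : IsClosed {p : E6 | Nn6 p} := by
    unfold Nn6
    have h : ∀ f : E6 → ℝ, Continuous f → IsClosed {p : E6 | 0 ≤ f p} := fun f hf =>
      isClosed_le continuous_const hf
    exact (h (fun p => p.1.1) (by fun_prop)).inter ((h (fun p => p.1.2.1) (by fun_prop)).inter
      ((h (fun p => p.1.2.2) (by fun_prop)).inter ((h (fun p => p.2.1) (by fun_prop)).inter
      ((h (fun p => p.2.2.1) (by fun_prop)).inter (h (fun p => p.2.2.2) (by fun_prop))))))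
  exact this.measurableSet

theorem lapA_of {Ω : Type} [MeasurableSpace Ω] {μ : Measure Ω} {m : Ω → E6} (hm : Measurable m)
    (hn : ∀ᵐ t ∂μ, Nn6 (m t))
    (h : ∀ s : E6, Pos6 s → lapA_E μ (fun t => dot6 s (m t)) (cauchyProd s)⁻¹) :
    Lap (Measure.map m μ) := by
  refine ⟨?_, ?_, ?_⟩
  · rw [ae_map_iff hm.aemeasurable lapA_meas]
    exact hn
  · intro s hs
    rw [integrable_map_measure (lapA_dot s).aestronglyMeasurable hm.aemeasurable]
    exact (h s hs).1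
  · intro s hs
    rw [integral_map hm.aemeasurable (lapA_dot s).aestronglyMeasurable]
    exact (h s hs).2

theorem lapA_congr {Ω : Type} [MeasurableSpace Ω] {μ : Measure Ω} {f g : Ω → ℝ} {c d : ℝ}
    (h : lapA_E μ f c) (hfg : ∀ x, f x = g x) (hcd : c = d) : lapA_E μ g d := by
  have : f = g := funext hfg
  rw [← this, ← hcd]
  exact h

/-- **G1.** Product structure, `∫_0^∞ e^{-(s_i+t_j) t} dt = 1/(s_i+t_j)`. -/
theorem lapA : Lap nuA := by
  refine lapA_of lapA_cont.measurable ?_ ?_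
  · have h := lapA_ae (lapA_ae lapA_nn (lapA_ae lapA_nn (lapA_ae lapA_nn (lapA_ae lapA_nn lapA_nn))))
      (lapA_ae (lapA_ae lapA_nn lapA_nn) (lapA_ae lapA_nn lapA_nn))
    filter_upwards [h] with t ht
    obtain ⟨⟨h11, h22, h23, h32, h33⟩, ⟨⟨h12, h13⟩, h21, h31⟩⟩ := ht
    unfold Nn6 mapA
    refine ⟨?_, ?_, ?_, ?_, ?_, ?_⟩ <;> positivity
  · intro s hs
    obtain ⟨h1, h2, h3, h4, h5, h6⟩ := hs
    have h := lapA_prod (lapA_prod (lapA_one (add_pos h1 h4)) (lapA_prod (lapA_one (add_pos h2 h5))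
      (lapA_prod (lapA_one (add_pos h2 h6)) (lapA_prod (lapA_one (add_pos h3 h5))
      (lapA_one (add_pos h3 h6))))))
      (lapA_prod (lapA_prod (lapA_one (add_pos h1 h5)) (lapA_one (add_pos h1 h6)))
        (lapA_prod (lapA_one (add_pos h2 h4)) (lapA_one (add_pos h3 h4))))
    refine lapA_congr h (fun t => ?_) ?_
    · unfold dot6 mapA
      ring
    · unfold cauchyProd
      simp only [mul_inv]
      ring

theorem lapB : Lap nuB := by
  refine lapA_of lapB_cont.measurable ?_ ?_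
  · have h := lapA_ae (lapA_ae (lapA_ae lapA_nn lapA_nn) (lapA_ae (lapA_ae lapA_nn lapA_nn)
      (lapA_ae lapA_nn (lapA_ae lapA_nn lapA_nn)))) (lapA_ae lapA_nn lapA_nn)
    filter_upwards [h] with t ht
    obtain ⟨⟨⟨h12, h13⟩, ⟨h22, h23⟩, h31, h32, h33⟩, h11, h21⟩ := ht
    unfold Nn6 mapB
    refine ⟨?_, ?_, ?_, ?_, ?_, ?_⟩ <;> positivity
  · intro s hs
    obtain ⟨h1, h2, h3, h4, h5, h6⟩ := hs
    have h := lapA_prod (lapA_prod (lapA_prod (lapA_one (add_pos h1 h5)) (lapA_one (add_pos h1 h6)))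
      (lapA_prod (lapA_prod (lapA_one (add_pos h2 h5)) (lapA_one (add_pos h2 h6)))
        (lapA_prod (lapA_one (add_pos h3 h4)) (lapA_prod (lapA_one (add_pos h3 h5))
          (lapA_one (add_pos h3 h6)))))) (lapA_prod (lapA_one (add_pos h1 h4))
          (lapA_one (add_pos h2 h4)))
    refine lapA_congr h (fun t => ?_) ?_
    · unfold dot6 mapB
      ring
    · unfold cauchyProd
      simp only [mul_inv]
      ring

end

end S6

end
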