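import Pool.Agent.Lib.MP_39df77_nt.S6Defs

section

namespace S6
open Complex MeasureTheory Filter Topology Set
open scoped Real ComplexConjugate

namespace A68

lemma HH_pos {T : ℝ} (hT : 1 < T) : 0 < HH T := by
  unfold HH
  exact div_pos (by linarith) (Real.log_pos hT)

lemma win_pos (T τ t : ℝ) : 0 < win T τ t := Real.exp_pos _

lemma win_cont (T τ : ℝ) : Continuous (fun t => win T τ t) := by
  unfold win
  fun_prop

lemma win_cont2 (T : ℝ) : Continuous (fun p : ℝ × ℝ => win T p.1 p.2) := by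
  unfold win
  fun_prop

/-- elementary: `(1+|u|)^n ≤ n! e^{3/2} e^{u²/2}` -/
lemma pow_le_gauss (n : ℕ) (u : ℝ) :
    (1 + |u|) ^ n ≤ (n.factorial * Real.exp (3 / 2)) * Real.exp (u ^ 2 / 2) := by
  have h1 : (1 + |u|) ^ n / n.factorial ≤ Real.exp (1 + |u|) :=
    Real.pow_div_factorial_le_exp _ (by positivity) n
  have h2 : (1 + |u|) ^ n ≤ n.factorial * Real.exp (1 + |u|) := by
    rw [div_le_iff₀ (by positivity)] at h1
    linarith
  refine h2.trans ?_
  rw [mul_assoc, ← Real.exp_add]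
  refine mul_le_mul_of_nonneg_left (Real.exp_le_exp.2 ?_) (by positivity)
  have : |u| ≤ 1 / 2 + u ^ 2 / 2 := by
    rw [← sq_abs u]
    nlinarith [sq_nonneg (|u| - 1)]
  linarith

/-- `(1+|t|)^n win ≤ K · gaussian`, all `T > 1` -/
lemma pow_win_le {T : ℝ} (hT : 1 < T) (n : ℕ) (τ t : ℝ) :
    (1 + |t|) ^ n * win T τ t ≤
      ((1 + |τ| + HH T) ^ n * (n.factorial * Real.exp (3 / 2))) *
        Real.exp (-((t - τ) / HH T) ^ 2 / 2) := by
  have hH := HH_pos hT
  set u : ℝ := (t - τ) / HH T with hu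
  have ht : t = τ + HH T * u := by rw [hu]; field_simp; ring
  have h1 : 1 + |t| ≤ (1 + |τ| + HH T) * (1 + |u|) := by
    have : |t| ≤ |τ| + HH T * |u| := by
      rw [ht]
      refine (abs_add_le _ _).trans ?_
      rw [abs_mul, abs_of_pos hH]
    nlinarith [abs_nonneg u, abs_nonneg τ, hH, mul_nonneg (abs_nonneg τ) (abs_nonneg u)]
  have h2 : (1 + |t|) ^ n ≤ (1 + |τ| + HH T) ^ n * (1 + |u|) ^ n := by
    rw [← mul_pow]
    exact pow_le_pow_left₀ (by positivity) h1 n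
  have h3 := pow_le_gauss n u
  have h4 : win T τ t = Real.exp (-(u ^ 2) / 2) * Real.exp (-(u ^ 2) / 2) := by
    unfold win
    rw [← Real.exp_add, ← hu]
    congr 1; ring
  have h5 : Real.exp (u ^ 2 / 2) * Real.exp (-(u ^ 2) / 2) = 1 := by
    rw [← Real.exp_add]
    simp [neg_div]
  calc (1 + |t|) ^ n * win T τ t ≤ ((1 + |τ| + HH T) ^ n * ((n.factorial * Real.exp (3 / 2)) * Real.exp (u ^ 2 / 2))) *
        win T τ t := by
        gcongr
        · exact (win_pos _ _ _).le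
        · exact h2.trans (by gcongr)
    _ = ((1 + |τ| + HH T) ^ n * (n.factorial * Real.exp (3 / 2))) * Real.exp (-(u ^ 2) / 2) *
        (Real.exp (u ^ 2 / 2) * Real.exp (-(u ^ 2) / 2)) := by rw [h4]; ring
    _ = _ := by rw [h5, mul_one]

lemma gauss_int {T : ℝ} (hT : 1 < T) (τ : ℝ) :
    Integrable (fun t : ℝ => Real.exp (-((t - τ) / HH T) ^ 2 / 2)) := by
  have hH := HH_pos hT
  have h := integrable_exp_neg_mul_sq (show 0 < 1 / (2 * HH T ^ 2) by positivity)
  have h2 := h.comp_sub_right τ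
  refine h2.congr (Eventually.of_forall fun t => ?_)
  simp only
  congr 1
  field_simp

lemma pow_win_int {T : ℝ} (hT : 1 < T) (n : ℕ) (τ : ℝ) :
    Integrable (fun t : ℝ => (1 + |t|) ^ n * win T τ t) := by
  have h := (gauss_int hT τ).const_mul ((1 + |τ| + HH T) ^ n * (n.factorial * Real.exp (3 / 2)))
  refine h.mono' ?_ (Eventually.of_forall fun t => ?_)
  · have := win_cont T τ
    exact Continuous.aestronglyMeasurable (by fun_prop)
  · rw [Real.norm_of_nonneg (mul_nonneg (by positivity) (win_pos _ _ _).le)]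
    exact pow_win_le hT n τ t

/-- continuous functions of polynomial growth are integrable against the window -/
lemma int_win {E : Type*} [NormedAddCommGroup E] [NormedSpace ℝ E] {T : ℝ} (hT : 1 < T) {f : ℝ → E}
    (hf : Continuous f) {C : ℝ} {n : ℕ} (hC : ∀ t, ‖f t‖ ≤ C * (1 + |t|) ^ n) (τ : ℝ) :
    Integrable (fun t : ℝ => win T τ t • f t) := by
  refine ((pow_win_int hT n τ).const_mul C).mono' ?_ (Eventually.of_forall fun t => ?_)
  · have := win_cont T τ
    exact Continuous.aestronglyMeasurable (by fun_prop)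
  · rw [norm_smul, Real.norm_of_nonneg (win_pos _ _ _).le]
    calc win T τ t * ‖f t‖ ≤ win T τ t * (C * (1 + |t|) ^ n) := by
          gcongr
          · exact (win_pos _ _ _).le
          · exact hC t
      _ = _ := by ring

lemma half_ne (t : ℝ) : (1 / 2 + t * I : ℂ) ≠ 1 := by
  intro h
  have := congrArg Complex.re h
  norm_num at this

lemma zeta_half_cont : Continuous (fun t : ℝ => riemannZeta (1 / 2 + t * I)) := by
  rw [continuous_iff_continuousAt]
  intro t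
  have h := (differentiableAt_riemannZeta (half_ne t)).continuousAt
  have h2 : ContinuousAt (fun t : ℝ => (1 / 2 + t * I : ℂ)) t := by fun_prop
  exact ContinuousAt.comp (f := fun t : ℝ => (1 / 2 + t * I : ℂ)) (g := riemannZeta) h h2

lemma zeta_half_growth : ∃ C : ℝ, 1 ≤ C ∧ ∀ t : ℝ, ‖riemannZeta (1 / 2 + t * I)‖ ≤ C * (1 + |t|) := by
  obtain ⟨C, h1, hC⟩ := MP069854.zeta_growth'
  refine ⟨C, h1, fun t => ?_⟩
  refine (hC _ (by simp) ?_).trans ?_
  · refine le_trans ?_ (Complex.abs_re_le_norm _)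
    norm_num
  · gcongr
    refine (norm_add_le _ _).trans ?_
    rw [norm_mul, norm_I, mul_one, Complex.norm_real, Real.norm_eq_abs]
    norm_num

lemma chi_half_cont : Continuous (fun t : ℝ => MP069854.chi (1 / 2 + t * I)) := by
  rw [continuous_iff_continuousAt]
  intro t
  have h2 : ContinuousAt (fun t : ℝ => (1 / 2 + t * I : ℂ)) t := by fun_prop
  have h : ContinuousAt MP069854.chi (1 / 2 + t * I) := by
    unfold MP069854.chi
    have hG : ContinuousAt Gamma (1 / 2 + t * I) := by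
      refine (differentiableAt_Gamma _ fun m hm => ?_).continuousAt
      have := congrArg Complex.re hm
      have hm0 : (0:ℝ) ≤ m := Nat.cast_nonneg m
      simp at this
      linarith
    have hP : ContinuousAt (fun s : ℂ => (2 * Real.pi : ℂ) ^ (-s)) (1 / 2 + t * I) :=
      (continuousAt_const_cpow MP069854.twopi_ne).comp continuousAt_neg
    exact ((continuousAt_const.mul hP).mul hG).mul (by fun_prop)
  exact ContinuousAt.comp (f := fun t : ℝ => (1 / 2 + t * I : ℂ)) (g := MP069854.chi) h h2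

lemma chi_half_norm (t : ℝ) : ‖MP069854.chi (1 / 2 + t * I)‖ = 1 :=
  MP069854.chi_norm (by simp)

lemma BB_cont (G : ℝ × ℝ × ℝ → ℝ) (T : ℝ) : Continuous (fun t => BB G T t) := by
  unfold BB
  fun_prop

lemma BB_bound (G : ℝ × ℝ × ℝ → ℝ) (T : ℝ) : ∃ C : ℝ, 0 ≤ C ∧ ∀ t, ‖BB G T t‖ ≤ C := by
  refine ⟨∑ x ∈ tri T, ‖((cf G T x * (√((x.1 : ℝ) * x.2.1 * x.2.2))⁻¹ : ℝ) : ℂ)‖,
    Finset.sum_nonneg fun _ _ => norm_nonneg _, fun t => ?_⟩
  unfold BB
  refine (norm_sum_le _ _).trans (Finset.sum_le_sum fun x _ => ?_)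
  rw [norm_mul, norm_exp_ofReal_mul_I, mul_one]

lemma zeta_conj_half (t : ℝ) : conj (riemannZeta (1 / 2 + t * I)) =
    MP069854.chi (1 / 2 + t * I) * riemannZeta (1 / 2 + t * I) := by
  rw [← riemannZeta_conj, ← MP069854.zeta_one_sub (by simp)]
  congr 1
  apply Complex.ext <;> simp
  norm_num

lemma chi_mul_conj_half (t : ℝ) : MP069854.chi (1 / 2 + t * I) * conj (MP069854.chi (1 / 2 + t * I)) = 1 := by
  rw [mul_conj, normSq_eq_norm_sq, chi_half_norm]
  norm_num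

/-- the pointwise inequality -/
lemma point_ineq (z X B : ℂ) (h1 : conj z = X * z) (h2 : X * conj X = 1) :
    4 * (((‖z‖ ^ 2 : ℝ) : ℂ) * z * conj B).re - 2 * ‖B‖ ^ 2 - 2 * (X * B ^ 2).re ≤ ‖z‖ ^ 6 := by
  have h0 : (0:ℝ) ≤ normSq (z ^ 3 - (conj X * B + conj X ^ 2 * conj B)) := normSq_nonneg _
  have hz : ((‖z‖ ^ 2 : ℝ) : ℂ) = z * conj z := by rw [mul_conj, normSq_eq_norm_sq]
  have hB : ((‖B‖ ^ 2 : ℝ) : ℂ) = B * conj B := by rw [mul_conj, normSq_eq_norm_sq]
  have e1 : ((normSq (z ^ 3 - (conj X * B + conj X ^ 2 * conj B)) : ℝ) : ℂ) =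
      (z * conj z) ^ 3 - 2 * ((z * conj z) * z * conj B) - 2 * conj ((z * conj z) * z * conj B)
        + 2 * (B * conj B) + (X * B ^ 2 + conj (X * B ^ 2)) := by
    rw [← mul_conj]
    simp only [map_sub, map_add, map_mul, map_pow, Complex.conj_conj]
    set Y := conj X
    set w := conj z
    set D := conj B
    rw [h1]
    linear_combination (-z ^ 3 * B * X ^ 2 - z ^ 3 * D * X * (X * Y + 1) + B * D + B ^ 2 * X +
      Y * D ^ 2 + B * D * (X * Y + 1)) * h2
  have e2 : normSq (z ^ 3 - (conj X * B + conj X ^ 2 * conj B)) =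
      ‖z‖ ^ 6 - 4 * (((‖z‖ ^ 2 : ℝ) : ℂ) * z * conj B).re + 2 * ‖B‖ ^ 2 + 2 * (X * B ^ 2).re := by
    rw [← hz, ← hB] at e1
    have e3 := congrArg Complex.re e1
    rw [ofReal_re] at e3
    rw [e3]
    have q1 : ∀ u : ℂ, (conj u).re = u.re := fun u => conj_re u
    have q2 : ((((‖z‖ ^ 2 : ℝ) : ℂ) ^ 3).re) = ‖z‖ ^ 6 := by
      rw [← ofReal_pow, ofReal_re]; ring
    have q3 : (((‖B‖ ^ 2 : ℝ) : ℂ)).re = ‖B‖ ^ 2 := ofReal_re _
    have q4 : ∀ u : ℂ, (2 * u).re = 2 * u.re := fun u => by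
      rw [mul_re]; norm_num
    rw [add_re, add_re, sub_re, sub_re, add_re, q4, q4, q4, q1, q1, q2, q3]
    ring
  rw [e2] at h0
  linarith

lemma comb_le {f1 f2 f3 f4 : ℝ → ℝ} (i1 : Integrable (fun t => f1 t)) (i2 : Integrable (fun t => f2 t))
    (i3 : Integrable (fun t => f3 t)) (i4 : Integrable (fun t => f4 t))
    (h : ∀ t, 4 * f2 t - 2 * f1 t - 2 * f3 t ≤ f4 t) :
    4 * (∫ t, f2 t) - 2 * (∫ t, f1 t) - 2 * (∫ t, f3 t) ≤ ∫ t, f4 t := by
  have a1 : Integrable (fun t => 2 * f1 t) := i1.const_mul 2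
  have a2 : Integrable (fun t => 4 * f2 t) := i2.const_mul 4
  have a3 : Integrable (fun t => 2 * f3 t) := i3.const_mul 2
  have a4 : Integrable (fun t => 4 * f2 t - 2 * f1 t) := a2.sub a1
  have a5 : Integrable (fun t => 4 * f2 t - 2 * f1 t - 2 * f3 t) := a4.sub a3
  have e : ∫ t, (4 * f2 t - 2 * f1 t - 2 * f3 t) =
      4 * (∫ t, f2 t) - 2 * (∫ t, f1 t) - 2 * (∫ t, f3 t) := by
    rw [integral_sub a4 a3, integral_sub a2 a1, integral_const_mul, integral_const_mul,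
      integral_const_mul]
  rw [← e]
  exact integral_mono a5 i4 h

end A68

open A68

theorem A_point (G : ℝ × ℝ × ℝ → ℝ) {T : ℝ} (hT : 1 < T) (τ : ℝ) :
    4 * (I2 G T τ).re - 2 * I1 G T τ - 2 * (I3 G T τ).re ≤ J6 T τ := by
  obtain ⟨C, hC1, hC⟩ := zeta_half_growth
  obtain ⟨D, hD0, hD⟩ := BB_bound G T
  have cz := zeta_half_cont
  have cB := BB_cont G T
  have cX := chi_half_cont
  have cB' : Continuous (fun t => conj (BB G T t)) := continuous_conj.comp cB
  have hge1 : ∀ t : ℝ, 1 ≤ 1 + |t| := fun t => by linarith [abs_nonneg t]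
  -- integrability of the four pieces
  have i1 : Integrable (fun t : ℝ => win T τ t • ‖BB G T t‖ ^ 2) :=
    int_win hT (f := fun t => ‖BB G T t‖ ^ 2) (by fun_prop) (C := D ^ 2) (n := 0) (fun t => by
      rw [pow_zero, mul_one, Real.norm_of_nonneg (by positivity)]
      exact pow_le_pow_left₀ (norm_nonneg _) (hD t) 2) τ
  have i2 : Integrable (fun t : ℝ => win T τ t • (((‖riemannZeta (1 / 2 + t * I)‖ ^ 2 : ℝ) : ℂ) *
      riemannZeta (1 / 2 + t * I) * conj (BB G T t))) :=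
    int_win hT (f := fun t => ((‖riemannZeta (1 / 2 + t * I)‖ ^ 2 : ℝ) : ℂ) *
      riemannZeta (1 / 2 + t * I) * conj (BB G T t)) (by fun_prop) (C := C ^ 3 * D) (n := 3)
      (fun t => by
        rw [norm_mul, norm_mul, RCLike.norm_conj, Complex.norm_real, Real.norm_of_nonneg (by positivity)]
        calc _ ≤ (C * (1 + |t|)) ^ 2 * (C * (1 + |t|)) * D := by
              gcongr
              · exact hC t
              · exact hC t
              · exact hD t
          _ = _ := by ring) τ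
  have i3 : Integrable (fun t : ℝ => win T τ t • (MP069854.chi (1 / 2 + t * I) * BB G T t ^ 2)) :=
    int_win hT (f := fun t => MP069854.chi (1 / 2 + t * I) * BB G T t ^ 2) (by fun_prop) (C := D ^ 2)
      (n := 0) (fun t => by
        rw [norm_mul, chi_half_norm, one_mul, norm_pow, pow_zero, mul_one]
        exact pow_le_pow_left₀ (norm_nonneg _) (hD t) 2) τ
  have i4 : Integrable (fun t : ℝ => win T τ t • ‖riemannZeta (1 / 2 + t * I)‖ ^ 6) :=
    int_win hT (f := fun t : ℝ => ‖riemannZeta (1 / 2 + t * I)‖ ^ 6) (by fun_prop) (C := C ^ 6)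
      (n := 6) (fun t => by
        rw [Real.norm_of_nonneg (by positivity), ← mul_pow]
        exact pow_le_pow_left₀ (norm_nonneg _) (hC t) 6) τ
  have e1 : I1 G T τ = ∫ t : ℝ, win T τ t • ‖BB G T t‖ ^ 2 := by
    unfold I1
    exact integral_congr_ae (Eventually.of_forall fun t => by simp [mul_comm])
  have e2 : (I2 G T τ).re = ∫ t : ℝ, (win T τ t • (((‖riemannZeta (1 / 2 + t * I)‖ ^ 2 : ℝ) : ℂ) *
      riemannZeta (1 / 2 + t * I) * conj (BB G T t))).re := by
    have e : I2 G T τ = ∫ t : ℝ, win T τ t • (((‖riemannZeta (1 / 2 + t * I)‖ ^ 2 : ℝ) : ℂ) *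
      riemannZeta (1 / 2 + t * I) * conj (BB G T t)) := by
      unfold I2
      exact integral_congr_ae (Eventually.of_forall fun t => by
        simp only [Complex.real_smul]; ring)
    rw [e]
    exact (integral_re i2).symm
  have e3 : (I3 G T τ).re = ∫ t : ℝ, (win T τ t • (MP069854.chi (1 / 2 + t * I) * BB G T t ^ 2)).re := by
    have e : I3 G T τ = ∫ t : ℝ, win T τ t • (MP069854.chi (1 / 2 + t * I) * BB G T t ^ 2) := by
      unfold I3
      exact integral_congr_ae (Eventually.of_forall fun t => by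
        simp only [Complex.real_smul]; ring)
    rw [e]
    exact (integral_re i3).symm
  have e4 : J6 T τ = ∫ t : ℝ, win T τ t • ‖riemannZeta (1 / 2 + t * I)‖ ^ 6 := by
    unfold J6
    exact integral_congr_ae (Eventually.of_forall fun t => by simp [mul_comm])
  have i2' : Integrable (fun t : ℝ => (win T τ t • (((‖riemannZeta (1 / 2 + t * I)‖ ^ 2 : ℝ) : ℂ) *
      riemannZeta (1 / 2 + t * I) * conj (BB G T t))).re) := i2.re
  have i3' : Integrable (fun t : ℝ => (win T τ t •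
      (MP069854.chi (1 / 2 + t * I) * BB G T t ^ 2)).re) := i3.re
  rw [e1, e2, e3, e4]
  refine comb_le i1 i2' i3' i4 fun t => ?_
  have hp := point_ineq (riemannZeta (1 / 2 + t * I)) (MP069854.chi (1 / 2 + t * I)) (BB G T t)
    (zeta_conj_half t) (chi_mul_conj_half t)
  have hw := (win_pos T τ t).le
  have := mul_le_mul_of_nonneg_left hp hw
  simp only [Complex.smul_re, smul_eq_mul]
  linarith

end S6

end

section

namespace S6
open Complex MeasureTheory Filter Topology Set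
open scoped Real ComplexConjugate

namespace A68

lemma A_unif {c : ℝ}
    (h : ∀ δ : ℝ, 0 < δ → ∀ τ : ℝ → ℝ, (∀ T : ℝ, 1 ≤ T → δ * T ≤ τ T ∧ τ T ≤ T) →
      ∀ c' < c, ∀ᶠ T in atTop, c' * (HH T * √π * Real.log T ^ 9) ≤ J6 T (τ T))
    {δ : ℝ} (hδ : 0 < δ) (hδ1 : δ ≤ 1) {c' : ℝ} (hc' : c' < c) :
    ∃ T₀ : ℝ, ∀ T ≥ T₀, ∀ τ, δ * T ≤ τ → τ ≤ T → c' * (HH T * √π * Real.log T ^ 9) ≤ J6 T τ := by
  classical
  by_contra hcon
  push Not at hcon
  let bad : ℝ → ℝ → Prop := fun T τ => δ * T ≤ τ ∧ τ ≤ T ∧ J6 T τ < c' * (HH T * √π * Real.log T ^ 9)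
  let τ₀ : ℝ → ℝ := fun T => if hx : ∃ τ, bad T τ then hx.choose else T
  have h1 : ∀ T : ℝ, 1 ≤ T → δ * T ≤ τ₀ T ∧ τ₀ T ≤ T := by
    intro T hT
    by_cases hx : ∃ τ, bad T τ
    · have e : τ₀ T = hx.choose := dif_pos hx
      rw [e]
      exact ⟨hx.choose_spec.1, hx.choose_spec.2.1⟩
    · have e : τ₀ T = T := dif_neg hx
      rw [e]
      exact ⟨by nlinarith, le_rfl⟩
  have h2 := h δ hδ τ₀ h1 c' hc'
  rw [eventually_atTop] at h2
  obtain ⟨T₁, hT₁⟩ := h2
  obtain ⟨T, hT, τ, ha, hb, hlt⟩ := hcon T₁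
  have hx : ∃ τ, bad T τ := ⟨τ, ha, hb, hlt⟩
  have e : τ₀ T = hx.choose := dif_pos hx
  have h3 := hT₁ T hT
  rw [e] at h3
  exact absurd h3 (not_le.2 hx.choose_spec.2.2)

lemma zeta6_le : ∃ C : ℝ, 1 ≤ C ∧ ∀ t : ℝ, ‖riemannZeta (1 / 2 + t * I)‖ ^ 6 ≤ C * (1 + |t|) ^ 6 := by
  obtain ⟨C, hC1, hC⟩ := zeta_half_growth
  refine ⟨C ^ 6, one_le_pow₀ hC1, fun t => ?_⟩
  rw [← mul_pow]
  exact pow_le_pow_left₀ (norm_nonneg _) (hC t) 6

lemma J6_int {T : ℝ} (hT : 1 < T) (τ : ℝ) :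
    Integrable (fun t : ℝ => ‖riemannZeta (1 / 2 + t * I)‖ ^ 6 * win T τ t) := by
  obtain ⟨C, hC1, hC⟩ := zeta6_le
  have cz := zeta_half_cont
  have h := int_win hT (f := fun t : ℝ => ‖riemannZeta (1 / 2 + t * I)‖ ^ 6) (by fun_prop) (C := C)
      (n := 6) (fun t => by
        rw [Real.norm_of_nonneg (by positivity)]
        exact hC t) τ
  refine h.congr (Eventually.of_forall fun t => by simp [mul_comm])

lemma gauss4_int {T : ℝ} (hT : 1 < T) (τ : ℝ) :
    Integrable (fun t : ℝ => Real.exp (-((t - τ) / HH T) ^ 2 / 4)) := by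
  have hH := HH_pos hT
  have h := integrable_exp_neg_mul_sq (show 0 < 1 / (4 * HH T ^ 2) by positivity)
  have h2 := h.comp_sub_right τ
  refine h2.congr (Eventually.of_forall fun t => ?_)
  simp only
  congr 1
  field_simp

lemma gauss4_val {T : ℝ} (hT : 1 < T) (τ : ℝ) :
    ∫ t : ℝ, Real.exp (-((t - τ) / HH T) ^ 2 / 4) = 2 * √π * HH T := by
  have hH := HH_pos hT
  have h := integral_gaussian (1 / (4 * HH T ^ 2))
  have e : (fun t : ℝ => Real.exp (-((t - τ) / HH T) ^ 2 / 4)) =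
      fun t => (fun x => Real.exp (-(1 / (4 * HH T ^ 2)) * x ^ 2)) (t - τ) := by
    funext t
    simp only
    congr 1
    field_simp
  rw [e, integral_sub_right_eq_self (fun x => Real.exp (-(1 / (4 * HH T ^ 2)) * x ^ 2)), h]
  have : π / (1 / (4 * HH T ^ 2)) = π * (2 * HH T) ^ 2 := by field_simp; ring
  rw [this, Real.sqrt_mul (by positivity), Real.sqrt_sq (by positivity)]
  ring

/-- the total mass of the windows over the centre -/
lemma win_mass {T : ℝ} (hT : 1 < T) (t : ℝ) :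
    Integrable (fun τ : ℝ => win T τ t) ∧ ∫ τ : ℝ, win T τ t = √π * HH T := by
  have hH := HH_pos hT
  have e : (fun τ : ℝ => win T τ t) =
      fun τ => (fun x => Real.exp (-(1 / (HH T ^ 2)) * x ^ 2)) (t - τ) := by
    funext τ
    unfold win
    simp only
    congr 1
    field_simp
  constructor
  · rw [e]
    have h := integrable_exp_neg_mul_sq (show 0 < 1 / (HH T ^ 2) by positivity)
    exact h.comp_sub_left t
  · rw [e, integral_sub_left_eq_self (fun x => Real.exp (-(1 / (HH T ^ 2)) * x ^ 2)),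
      integral_gaussian]
    have : π / (1 / (HH T ^ 2)) = π * (HH T) ^ 2 := by field_simp
    rw [this, Real.sqrt_mul (by positivity), Real.sqrt_sq (by positivity)]

lemma HH_le {T : ℝ} (hT : Real.exp 1 ≤ T) : HH T ≤ T := by
  have h1 : 1 ≤ Real.log T := by
    rw [Real.le_log_iff_exp_le (lt_of_lt_of_le (Real.exp_pos _) hT)]
    exact hT
  have hT0 : 0 < T := lt_of_lt_of_le (Real.exp_pos _) hT
  unfold HH
  rw [div_le_iff₀ (by linarith)]
  nlinarith

/-- pointwise tail bound -/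
lemma tail_point {T : ℝ} (hT : 1 < T) {δ : ℝ} (hδ : 0 < δ) {τ t : ℝ} (h0 : 0 ≤ τ) (h1 : τ ≤ T)
    (hd : δ * T ≤ |t - τ|) :
    (1 + |t|) ^ 6 * win T τ t ≤ ((1 + T + HH T) ^ 6 * (Nat.factorial 6 * Real.exp (3 / 2))) *
      Real.exp (-(δ ^ 2 * Real.log T ^ 2 / 4)) * Real.exp (-((t - τ) / HH T) ^ 2 / 4) := by
  have hH := HH_pos hT
  have hL := Real.log_pos hT
  refine (pow_win_le hT 6 τ t).trans ?_
  have hτ : |τ| ≤ T := by rw [abs_of_nonneg h0]; exact h1
  have hu : δ * Real.log T ≤ |(t - τ) / HH T| := by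
    rw [abs_div, abs_of_pos hH, le_div_iff₀ hH]
    unfold HH
    calc δ * Real.log T * (T / Real.log T) = δ * T := by field_simp
      _ ≤ _ := hd
  have hu2 : δ ^ 2 * Real.log T ^ 2 ≤ ((t - τ) / HH T) ^ 2 := by
    rw [← sq_abs ((t - τ) / HH T), ← mul_pow]
    exact pow_le_pow_left₀ (by positivity) hu 2
  rw [mul_assoc (((1 + T + HH T) ^ 6 * (Nat.factorial 6 * Real.exp (3 / 2))))]
  rw [← Real.exp_add]
  refine mul_le_mul ?_ (Real.exp_le_exp.2 (by linarith)) (Real.exp_pos _).le (by positivity)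
  refine mul_le_mul_of_nonneg_right ?_ (by positivity)
  exact pow_le_pow_left₀ (by positivity) (by linarith) 6

lemma tail_small {δ : ℝ} (hδ : 0 < δ) : ∃ T₀ : ℝ, ∀ T ≥ T₀, ∀ τ, δ * T ≤ τ → τ ≤ (1 - δ) * T →
    ∫ t in (Icc 0 T)ᶜ, ‖riemannZeta (1 / 2 + t * I)‖ ^ 6 * win T τ t ≤ 1 := by
  obtain ⟨C, hC1, hC⟩ := zeta6_le
  set K : ℝ := C * ((3 : ℝ) ^ 6 * (Nat.factorial 6 * Real.exp (3 / 2))) * (2 * √π) with hK
  refine ⟨Real.exp (max 1 (max (32 / δ ^ 2) K)), fun T hT τ h0 h1 => ?_⟩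
  have hT0 : 0 < T := lt_of_lt_of_le (Real.exp_pos _) hT
  have hT1 : Real.exp 1 ≤ T := le_trans (Real.exp_le_exp.2 (le_max_left _ _)) hT
  have hTT : 1 < T := lt_of_lt_of_le (by have := Real.add_one_lt_exp (show (1:ℝ) ≠ 0 by norm_num); linarith) hT1
  have hL : max 1 (max (32 / δ ^ 2) K) ≤ Real.log T := by
    rw [Real.le_log_iff_exp_le hT0]; exact hT
  have hL1 : 1 ≤ Real.log T := (le_max_left _ _).trans hL
  have hL2 : 32 / δ ^ 2 ≤ Real.log T := ((le_max_left _ _).trans (le_max_right _ _)).trans hL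
  have hL3 : K ≤ Real.log T := ((le_max_right _ _).trans (le_max_right _ _)).trans hL
  have hτ0 : 0 ≤ τ := le_trans (by positivity) h0
  have hτ1 : τ ≤ T := by nlinarith
  have hH := HH_pos hTT
  have hHT := HH_le hT1
  have hpt : ∀ t ∈ (Icc 0 T)ᶜ, ‖riemannZeta (1 / 2 + t * I)‖ ^ 6 * win T τ t ≤
      C * (((1 + T + HH T) ^ 6 * (Nat.factorial 6 * Real.exp (3 / 2))) *
      Real.exp (-(δ ^ 2 * Real.log T ^ 2 / 4)) * Real.exp (-((t - τ) / HH T) ^ 2 / 4)) := by
    intro t ht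
    have hd : δ * T ≤ |t - τ| := by
      rw [mem_compl_iff, mem_Icc, not_and_or, not_le, not_le] at ht
      rcases ht with ht | ht
      · rw [abs_of_neg (by linarith)]; linarith
      · rw [abs_of_nonneg (by linarith)]; nlinarith
    have := tail_point hTT hδ hτ0 hτ1 hd
    calc _ ≤ (C * (1 + |t|) ^ 6) * win T τ t := by
          gcongr
          · exact (win_pos _ _ _).le
          · exact hC t
      _ = C * ((1 + |t|) ^ 6 * win T τ t) := by ring
      _ ≤ _ := mul_le_mul_of_nonneg_left this (by linarith)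
  have hgi : Integrable (fun t : ℝ => C * (((1 + T + HH T) ^ 6 * (Nat.factorial 6 * Real.exp (3 / 2))) *
      Real.exp (-(δ ^ 2 * Real.log T ^ 2 / 4)) * Real.exp (-((t - τ) / HH T) ^ 2 / 4))) :=
    ((gauss4_int hTT τ).const_mul _).const_mul C
  have hle : ∫ t in (Icc 0 T)ᶜ, ‖riemannZeta (1 / 2 + t * I)‖ ^ 6 * win T τ t ≤
      ∫ t : ℝ, C * (((1 + T + HH T) ^ 6 * (Nat.factorial 6 * Real.exp (3 / 2))) *
      Real.exp (-(δ ^ 2 * Real.log T ^ 2 / 4)) * Real.exp (-((t - τ) / HH T) ^ 2 / 4)) := by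
    refine (setIntegral_mono_on (J6_int hTT τ).integrableOn hgi.integrableOn
      measurableSet_Icc.compl hpt).trans ?_
    exact setIntegral_le_integral hgi (Eventually.of_forall fun t => by positivity)
  refine hle.trans ?_
  rw [integral_const_mul, integral_const_mul, gauss4_val hTT]
  have h3 : (1 + T + HH T) ^ 6 ≤ (3 * T) ^ 6 := pow_le_pow_left₀ (by positivity) (by linarith) 6
  have hexp : T ^ 7 * Real.exp (-(δ ^ 2 * Real.log T ^ 2 / 4)) ≤ (Real.log T)⁻¹ := by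
    have e7 : T ^ 7 = Real.exp (7 * Real.log T) := by
      have : T ^ 7 = Real.exp (Real.log T) ^ 7 := by rw [Real.exp_log hT0]
      rw [this, ← Real.exp_nat_mul]
      norm_num
    rw [e7, ← Real.exp_add]
    have h4 : 7 * Real.log T + -(δ ^ 2 * Real.log T ^ 2 / 4) ≤ -Real.log T := by
      have h5 : 32 ≤ δ ^ 2 * Real.log T := by
        rw [div_le_iff₀ (by positivity)] at hL2
        linarith
      nlinarith
    refine (Real.exp_le_exp.2 h4).trans ?_
    rw [Real.exp_neg]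
    have h6 : Real.log T ≤ Real.exp (Real.log T) := by
      have := Real.add_one_le_exp (Real.log T)
      linarith
    exact inv_anti₀ (by linarith) h6
  calc C * (((1 + T + HH T) ^ 6 * (Nat.factorial 6 * Real.exp (3 / 2))) *
      Real.exp (-(δ ^ 2 * Real.log T ^ 2 / 4)) * (2 * √π * HH T))
      ≤ C * (((3 * T) ^ 6 * (Nat.factorial 6 * Real.exp (3 / 2))) *
      Real.exp (-(δ ^ 2 * Real.log T ^ 2 / 4)) * (2 * √π * T)) := by
        gcongr
    _ = K * (T ^ 7 * Real.exp (-(δ ^ 2 * Real.log T ^ 2 / 4))) := by rw [hK]; ring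
    _ ≤ K * (Real.log T)⁻¹ := mul_le_mul_of_nonneg_left hexp (by rw [hK]; positivity)
    _ ≤ 1 := by
        rw [← div_eq_mul_inv, div_le_one (by linarith)]
        exact hL3

/-- lower bound for the window integral restricted to `[0,T]` -/
lemma inner_lower {T : ℝ} (hT : 1 < T) {τ m : ℝ} (hm : m ≤ J6 T τ)
    (ht : ∫ t in (Icc 0 T)ᶜ, ‖riemannZeta (1 / 2 + t * I)‖ ^ 6 * win T τ t ≤ 1) :
    m - 1 ≤ ∫ t in (0:ℝ)..T, ‖riemannZeta (1 / 2 + t * I)‖ ^ 6 * win T τ t := by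
  rw [intervalIntegral.integral_of_le (by linarith), ← integral_Icc_eq_integral_Ioc]
  have h := integral_add_compl (measurableSet_Icc (a := (0:ℝ)) (b := T)) (J6_int hT τ)
  unfold J6 at hm
  linarith

/-- the Fubini step -/
lemma avg_step {T a b m : ℝ} (hT : 1 < T) (hab : a ≤ b)
    (hm : ∀ τ ∈ Icc a b, m ≤ ∫ t in (0:ℝ)..T, ‖riemannZeta (1 / 2 + t * I)‖ ^ 6 * win T τ t) :
    (b - a) * m ≤ (√π * HH T) * ∫ t in (0:ℝ)..T, ‖riemannZeta (1 / 2 + t * I)‖ ^ 6 := by
  have cz := zeta_half_cont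
  have cw := win_cont2 T
  set F : ℝ → ℝ → ℝ := fun τ t => ‖riemannZeta (1 / 2 + t * I)‖ ^ 6 * win T τ t with hF
  have hFc : Continuous (Function.uncurry F) := by
    have e : Function.uncurry F = fun p : ℝ × ℝ => ‖riemannZeta (1 / 2 + p.2 * I)‖ ^ 6 * win T p.1 p.2 := rfl
    rw [e]
    have c1 : Continuous (fun p : ℝ × ℝ => riemannZeta (1 / 2 + (p.2 : ℂ) * I)) :=
      cz.comp continuous_snd
    fun_prop
  have hswap := intervalIntegral_intervalIntegral_swap (F := F) (a := a) (b := b) (c := 0) (d := T)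
    ((hFc.continuousOn.integrableOn_compact (isCompact_uIcc.prod isCompact_uIcc)).mono_set
      (prod_mono uIoc_subset_uIcc uIoc_subset_uIcc))
  have hinner : Continuous (fun τ => ∫ t in (0:ℝ)..T, F τ t) :=
    intervalIntegral.continuous_parametric_intervalIntegral_of_continuous' hFc 0 T
  have h1 : (b - a) * m ≤ ∫ τ in a..b, ∫ t in (0:ℝ)..T, F τ t := by
    have := intervalIntegral.integral_mono_on (μ := volume) (a := a) (b := b) (f := fun _ => m)
      (g := fun τ => ∫ t in (0:ℝ)..T, F τ t) hab intervalIntegrable_const (hinner.intervalIntegrable a b)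
      (fun τ hτ => hm τ hτ)
    rw [intervalIntegral.integral_const, smul_eq_mul] at this
    exact this
  refine h1.trans ?_
  have hFs : Continuous (Function.uncurry fun (t τ : ℝ) => ‖riemannZeta (1 / 2 + t * I)‖ ^ 6 * win T τ t) := by
    have e : (Function.uncurry fun (t τ : ℝ) => ‖riemannZeta (1 / 2 + t * I)‖ ^ 6 * win T τ t) =
      fun p : ℝ × ℝ => ‖riemannZeta (1 / 2 + p.1 * I)‖ ^ 6 * win T p.2 p.1 := rfl
    rw [e]
    have c1 : Continuous (fun p : ℝ × ℝ => riemannZeta (1 / 2 + (p.1 : ℂ) * I)) :=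
      cz.comp continuous_fst
    have c2 : Continuous (fun p : ℝ × ℝ => win T p.2 p.1) := cw.comp continuous_swap
    fun_prop
  have houter : Continuous (fun t : ℝ => ∫ τ in a..b, ‖riemannZeta (1 / 2 + t * I)‖ ^ 6 * win T τ t) :=
    intervalIntegral.continuous_parametric_intervalIntegral_of_continuous' hFs a b
  rw [hswap, ← intervalIntegral.integral_const_mul]
  refine intervalIntegral.integral_mono_on (by linarith) (houter.intervalIntegrable _ _) ?_ ?_
  · exact Continuous.intervalIntegrable (by fun_prop) _ _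
  · intro t _
    simp only [hF]
    rw [intervalIntegral.integral_const_mul, mul_comm]
    refine mul_le_mul_of_nonneg_right ?_ (by positivity)
    obtain ⟨w1, w2⟩ := win_mass hT t
    rw [intervalIntegral.integral_of_le hab, ← w2]
    exact setIntegral_le_integral w1 (Eventually.of_forall fun τ => (win_pos _ _ _).le)

end A68

open A68

theorem A_avg {c : ℝ} (hc : 0 < c)
    (h : ∀ δ : ℝ, 0 < δ → ∀ τ : ℝ → ℝ, (∀ T : ℝ, 1 ≤ T → δ * T ≤ τ T ∧ τ T ≤ T) →
      ∀ c' < c, ∀ᶠ T in atTop, c' * (HH T * √π * Real.log T ^ 9) ≤ J6 T (τ T)) :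
    ∀ c' < c, ∀ᶠ T : ℝ in atTop, c' * Real.log T ^ 9 ≤
      T⁻¹ * ∫ t in (0 : ℝ)..T, ‖riemannZeta (1 / 2 + I * t)‖ ^ 6 := by
  intro c' hc'
  have ecomm : ∀ T : ℝ, ∫ t in (0 : ℝ)..T, ‖riemannZeta (1 / 2 + I * t)‖ ^ 6 =
      ∫ t in (0 : ℝ)..T, ‖riemannZeta (1 / 2 + t * I)‖ ^ 6 := fun T =>
    intervalIntegral.integral_congr fun t _ => by simp only [mul_comm I]
  simp only [ecomm]
  -- constants
  set c1 : ℝ := max c' (c / 2) with hc1
  have hc1c : c1 < c := max_lt hc' (by linarith)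
  have hc10 : 0 < c1 := lt_of_lt_of_le (by linarith) (le_max_right _ _)
  set c2 : ℝ := (c1 + c) / 2 with hc2
  have h12 : c1 < c2 := by rw [hc2]; linarith
  have h2c : c2 < c := by rw [hc2]; linarith
  have hc20 : 0 < c2 := hc10.trans h12
  -- δ with (1 - 2δ) c2 > c1 : δ = (c2 - c1)/(4 c2)
  set δ : ℝ := (c2 - c1) / (4 * c2) with hδ
  have hδ0 : 0 < δ := by rw [hδ]; exact div_pos (by linarith) (by linarith)
  have hδ1 : δ ≤ 1 / 4 := by
    rw [hδ, div_le_iff₀ (by linarith)]; linarith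
  have hδc : (1 - 2 * δ) * c2 = (c1 + c2) / 2 := by
    rw [hδ]; field_simp; ring
  obtain ⟨T₀, hT₀⟩ := A_unif h hδ0 (by linarith) h2c
  obtain ⟨T₁, hT₁⟩ := tail_small hδ0
  -- (1-2δ)/(√π HH T) ≤ (c2 - c1)/2 eventually, we use log T ^ 9 ≥ 1
  have hlim : Tendsto (fun T : ℝ => HH T) atTop atTop := by
    unfold HH
    have h1 : Tendsto (fun T : ℝ => Real.log T / T) atTop (𝓝 0) := by
      have := Real.isLittleO_log_id_atTop.tendsto_div_nhds_zero
      simpa using this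
    have h2 : Tendsto (fun T : ℝ => Real.log T / T) atTop (𝓝[>] 0) := by
      rw [tendsto_nhdsWithin_iff]
      refine ⟨h1, ?_⟩
      filter_upwards [eventually_gt_atTop 1] with T hT
      exact div_pos (Real.log_pos hT) (by linarith)
    have h3 := h2.inv_tendsto_nhdsGT_zero
    refine h3.congr fun T => ?_
    simp [inv_div]
  have hev := hlim.eventually_ge_atTop (2 / (c2 - c1))
  filter_upwards [hev, eventually_ge_atTop T₀, eventually_ge_atTop T₁,
    eventually_ge_atTop (Real.exp 1)] with T hTH hTa hTb hTe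
  have hT0 : 0 < T := lt_of_lt_of_le (Real.exp_pos _) hTe
  have hTT : 1 < T := lt_of_lt_of_le
    (by have := Real.add_one_lt_exp (show (1:ℝ) ≠ 0 by norm_num); linarith) hTe
  have hL1 : 1 ≤ Real.log T := by rw [Real.le_log_iff_exp_le hT0]; exact hTe
  have hH := HH_pos hTT
  have hπ : 0 < √π := Real.sqrt_pos.2 Real.pi_pos
  have hπ1 : 1 ≤ √π := by
    rw [Real.one_le_sqrt]; linarith [Real.pi_gt_three]
  set L9 : ℝ := Real.log T ^ 9 with hL9
  have hL91 : 1 ≤ L9 := one_le_pow₀ hL1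
  have hmain := avg_step hTT (a := δ * T) (b := (1 - δ) * T) (m := c2 * (HH T * √π * L9) - 1)
    (by nlinarith) (fun τ hτ => inner_lower hTT (hT₀ T hTa τ hτ.1 (by nlinarith [hτ.2]))
      (hT₁ T hTb τ hτ.1 hτ.2))
  set X : ℝ := ∫ t in (0:ℝ)..T, ‖riemannZeta (1 / 2 + t * I)‖ ^ 6 with hX
  -- T ((c1+c2)/2 · H√π L9 - (1-2δ)) ≤ √π H X
  have e1 : ((1 - δ) * T - δ * T) * (c2 * (HH T * √π * L9) - 1) =
      T * ((c1 + c2) / 2 * (HH T * √π * L9) - (1 - 2 * δ)) := by
    rw [← hδc]; ring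
  rw [e1] at hmain
  have h5 : 1 ≤ (c2 - c1) / 2 * (HH T * √π * L9) := by
    have h6 : 2 ≤ HH T * (c2 - c1) := by
      rwa [div_le_iff₀ (by linarith)] at hTH
    have h7 : HH T * 1 ≤ HH T * √π := mul_le_mul_of_nonneg_left hπ1 hH.le
    have h8 : HH T * √π * 1 ≤ HH T * √π * L9 := mul_le_mul_of_nonneg_left hL91 (by positivity)
    nlinarith
  have h9 : T * (c1 * (HH T * √π * L9)) ≤ √π * HH T * X := by
    refine le_trans ?_ hmain
    refine mul_le_mul_of_nonneg_left ?_ hT0.le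
    nlinarith
  have h10 : T * (c1 * L9) ≤ X := by
    have : (√π * HH T) * (T * (c1 * L9)) ≤ (√π * HH T) * X := by
      calc _ = T * (c1 * (HH T * √π * L9)) := by ring
        _ ≤ _ := h9
    exact le_of_mul_le_mul_left this (by positivity)
  have h11 : c' * L9 ≤ c1 * L9 := mul_le_mul_of_nonneg_right (le_max_left _ _) (by positivity)
  refine h11.trans ?_
  rw [← div_eq_inv_mul, le_div_iff₀ hT0]
  linarith

end S6

end

section

namespace S6
open Complex MeasureTheory Filter Topology Set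
open scoped Real ComplexConjugate Manifold

private theorem ct_open (κ : ℝ) : IsOpen (Reg κ) := by
  have h1 : IsOpen {p : ℝ × ℝ × ℝ | 0 < p.2.1} := isOpen_lt continuous_const (by fun_prop)
  have h2 : IsOpen {p : ℝ × ℝ × ℝ | p.2.1 < p.1} := isOpen_lt (by fun_prop) (by fun_prop)
  have h3 : IsOpen {p : ℝ × ℝ × ℝ | 0 < p.2.2} := isOpen_lt continuous_const (by fun_prop)
  have h4 : IsOpen {p : ℝ × ℝ × ℝ | κ * (p.1 + p.2.1) + p.2.2 < 1} :=
    isOpen_lt (by fun_prop) continuous_const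
  have h5 : IsOpen {p : ℝ × ℝ × ℝ | p.1 + p.2.1 - p.2.2 < 1 / 2} :=
    isOpen_lt (by fun_prop) continuous_const
  exact h1.inter (h2.inter (h3.inter (h4.inter h5)))

private theorem ct_sub {κ : ℝ} (hκ : 1 ≤ κ) :
    Reg κ ⊆ Icc (0 : ℝ) 1 ×ˢ (Icc (0 : ℝ) 1 ×ˢ Icc (0 : ℝ) 1) := by
  rintro p ⟨h1, h2, h3, h4, -⟩
  have h5 : p.1 + p.2.1 ≤ κ * (p.1 + p.2.1) := by nlinarith
  refine ⟨⟨by linarith, by linarith⟩, ⟨by linarith, by linarith⟩, ⟨by linarith, by linarith⟩⟩

private theorem ct_PP {κ : ℝ} (hκ : 1 ≤ κ) {p : ℝ × ℝ × ℝ} (hp : p ∈ Reg κ) : PP p ^ 2 ≤ 1 := by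
  obtain ⟨h1, h2, h3, h4, -⟩ := hp
  have h5 : p.1 + p.2.1 ≤ κ * (p.1 + p.2.1) := by nlinarith
  have a1 : 0 ≤ p.1 - p.2.1 := by linarith
  have a2 : p.1 - p.2.1 ≤ 1 := by linarith
  have b1 : 0 ≤ 1 - p.2.2 - p.1 := by linarith
  have b2 : 1 - p.2.2 - p.1 ≤ 1 := by linarith
  have c1 : 0 ≤ 1 - p.2.2 - p.2.1 := by linarith
  have c2 : 1 - p.2.2 - p.2.1 ≤ 1 := by linarith
  have d1 : 0 ≤ PP p := by
    rw [PP]
    positivity
  have d2 : PP p ≤ 1 := by
    rw [PP]
    have e1 : (p.1 - p.2.1) * (1 - p.2.2 - p.1) ≤ 1 := mul_le_one₀ a2 b1 b2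
    have e2 : (p.1 - p.2.1) * (1 - p.2.2 - p.1) * (1 - p.2.2 - p.2.1) ≤ 1 :=
      mul_le_one₀ e1 c1 c2
    linarith
  exact pow_le_one₀ d1 d2

/-- **G8.** -/
theorem cutoff {κ : ℝ} (hκ : 1 ≤ κ) {η : ℝ} (hη : 0 < η) : ∃ Ψ : ℝ × ℝ × ℝ → ℝ,
    ContDiff ℝ (⊤ : ℕ∞) Ψ ∧ HasCompactSupport Ψ ∧ tsupport Ψ ⊆ Reg κ ∧
    2 * (∫ p in Reg κ, PP p ^ 2) - η ≤ 4 * (∫ p, Ψ p * PP p) - 2 * ∫ p, Ψ p ^ 2 := by
  have hop := ct_open κ
  have hbox : IsCompact (Icc (0 : ℝ) 1 ×ˢ (Icc (0 : ℝ) 1 ×ˢ Icc (0 : ℝ) 1)) :=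
    isCompact_Icc.prod (isCompact_Icc.prod isCompact_Icc)
  have hfin : volume (Reg κ) ≠ ⊤ :=
    ((measure_mono (ct_sub hκ)).trans_lt hbox.measure_lt_top).ne
  obtain ⟨K, hKR, hK, hKm⟩ := hop.measurableSet.exists_isCompact_sdiff_lt hfin
    (ε := ENNReal.ofReal (η / 2)) (by simpa using hη)
  obtain ⟨L, hL, hKL, hLR⟩ := exists_compact_between hK hop hKR
  obtain ⟨χ, hχ1, hχ0, hχ⟩ := exists_contMDiffMap_one_nhds_of_subset_interior
    (n := (⊤ : ℕ∞)) 𝓘(ℝ, ℝ × ℝ × ℝ) hK.isClosed hKL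
  have hχs : ContDiff ℝ (⊤ : ℕ∞) (χ : ℝ × ℝ × ℝ → ℝ) := χ.contMDiff.contDiff
  have hPPc : ContDiff ℝ (⊤ : ℕ∞) PP := by
    unfold PP
    fun_prop
  have hsub : tsupport (fun p => χ p * PP p) ⊆ L := by
    refine closure_minimal ?_ hL.isClosed
    intro p hp
    by_contra hcon
    exact hp (by simp [hχ0 p hcon])
  have hcs : HasCompactSupport (fun p => χ p * PP p) :=
    hL.of_isClosed_subset isClosed_closure hsub
  have hsm : ContDiff ℝ (⊤ : ℕ∞) (fun p => χ p * PP p) := hχs.mul hPPc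
  refine ⟨fun p => χ p * PP p, hsm, hcs, hsub.trans hLR, ?_⟩
  have i1 : Integrable (fun p => χ p * PP p * PP p) := by
    refine (hsm.continuous.mul hPPc.continuous).integrable_of_hasCompactSupport ?_
    exact hcs.mul_right
  have i2 : Integrable (fun p => (χ p * PP p) ^ 2) := by
    have : (fun p => (χ p * PP p) ^ 2) = fun p => (χ p * PP p) * (χ p * PP p) := by
      funext p
      ring
    rw [this]
    exact (hsm.continuous.mul hsm.continuous).integrable_of_hasCompactSupport hcs.mul_right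
  have iR : IntegrableOn (fun p => PP p ^ 2) (Reg κ) := by
    have : IntegrableOn (fun p => PP p ^ 2)
        (Icc (0 : ℝ) 1 ×ˢ (Icc (0 : ℝ) 1 ×ˢ Icc (0 : ℝ) 1)) :=
      (hPPc.continuous.pow 2).continuousOn.integrableOn_compact hbox
    exact this.mono_set (ct_sub hκ)
  have iK : IntegrableOn (fun p => PP p ^ 2) K := iR.mono_set hKR
  -- split off the compact set
  have hsplit : ∫ p in Reg κ, PP p ^ 2 =
      (∫ p in K, PP p ^ 2) + ∫ p in Reg κ \ K, PP p ^ 2 := by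
    rw [← setIntegral_union disjoint_sdiff_right (hop.measurableSet.diff hK.measurableSet) iK
      (iR.mono_set sdiff_subset), union_sdiff_cancel hKR]
  have hsmall : ∫ p in Reg κ \ K, PP p ^ 2 ≤ η / 2 := by
    have h1 : ‖∫ p in Reg κ \ K, PP p ^ 2‖ ≤ 1 * volume.real (Reg κ \ K) := by
      refine norm_setIntegral_le_of_norm_le_const (hKm.trans_le le_top) ?_
      intro p hp
      rw [Real.norm_of_nonneg (by positivity)]
      exact ct_PP hκ hp.1
    have h2 : volume.real (Reg κ \ K) ≤ η / 2 := by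
      rw [Measure.real]
      exact ENNReal.toReal_le_of_le_ofReal (by linarith) hKm.le
    have h3 := (le_abs_self _).trans h1
    linarith
  have hmain : 2 * ∫ p in K, PP p ^ 2 ≤ 4 * (∫ p, χ p * PP p * PP p) -
      2 * ∫ p, (χ p * PP p) ^ 2 := by
    rw [← integral_const_mul, ← integral_const_mul, ← integral_const_mul, ← integral_sub
      (i1.const_mul 4) (i2.const_mul 2), ← integral_indicator hK.measurableSet]
    refine integral_mono ((integrable_indicator_iff hK.measurableSet).2 (iK.const_mul 2))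
      ((i1.const_mul 4).sub (i2.const_mul 2)) ?_
    intro p
    have hχp := hχ p
    have h0 : 0 ≤ χ p := hχp.1
    have h1 : χ p ≤ 1 := hχp.2
    have hsq : 0 ≤ PP p ^ 2 := sq_nonneg _
    by_cases hp : p ∈ K
    · rw [indicator_of_mem hp]
      have : χ p = 1 := hχ1.self_of_nhdsSet p hp
      simp only [this]
      nlinarith
    · rw [indicator_of_notMem hp]
      have : 4 * (χ p * PP p * PP p) - 2 * (χ p * PP p) ^ 2 =
        (2 * χ p + 2 * χ p * (1 - χ p)) * PP p ^ 2 := by ring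
      show 0 ≤ 4 * (χ p * PP p * PP p) - 2 * (χ p * PP p) ^ 2
      rw [this]
      have : 0 ≤ 1 - χ p := by linarith
      positivity
  linarith

end S6

end
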