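import Pool.Agent.Lib.MP_39df77_nt.Part08
import Pool.Agent.Lib.MP_39df77_nt.S6Defs

/-! Row S6-err_bound. The theorem `err_bound_of` takes the rows D7, D8, D9, M1, M2, A3 as hypotheses. -/

namespace S6
open Complex MeasureTheory Filter Topology Set
open scoped Real ComplexConjugate

/-! ### arithmetic sums -/

theorem eb_gcd_sum (q : ℕ) (hq : 0 < q) {ε : ℝ} (hε : 0 < ε) :
    Summable (fun n : ℕ => ((n + 1 : ℕ) : ℝ) ^ (-1 - ε) * √(Nat.gcd (n + 1) q)) ∧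
    ∑' n : ℕ, ((n + 1 : ℕ) : ℝ) ^ (-1 - ε) * √(Nat.gcd (n + 1) q)
      ≤ q.divisors.card * ∑' n : ℕ, ((n + 1 : ℕ) : ℝ) ^ (-1 - ε) := by
  classical
  have hf : Summable (fun n : ℕ => ((n + 1 : ℕ) : ℝ) ^ (-1 - ε)) :=
    (summable_nat_add_iff (f := fun n : ℕ => (n : ℝ) ^ (-1 - ε)) 1).mpr
      (Real.summable_nat_rpow.mpr (by linarith only [hε]))
  set Z := ∑' n : ℕ, ((n + 1 : ℕ) : ℝ) ^ (-1 - ε) with hZ
  have hf0 : ∀ n : ℕ, 0 ≤ ((n + 1 : ℕ) : ℝ) ^ (-1 - ε) := fun n => by (clear * -; positivity)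
  have hbound : ∀ N : ℕ, ∑ n ∈ Finset.range N, ((n + 1 : ℕ) : ℝ) ^ (-1 - ε) * √(Nat.gcd (n + 1) q)
      ≤ q.divisors.card * Z := by
    intro N
    have h1 : ∀ n ∈ Finset.range N, ((n + 1 : ℕ) : ℝ) ^ (-1 - ε) * √(Nat.gcd (n + 1) q)
        ≤ ∑ d ∈ q.divisors, if d ∣ n + 1 then ((n + 1 : ℕ) : ℝ) ^ (-1 - ε) * √d else 0 := by
      intro n _
      have hmem : Nat.gcd (n + 1) q ∈ q.divisors := by
        rw [Nat.mem_divisors]; exact ⟨Nat.gcd_dvd_right _ _, hq.ne'⟩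
      have := Finset.single_le_sum (f := fun d : ℕ => if d ∣ n + 1 then ((n + 1 : ℕ) : ℝ) ^ (-1 - ε) * √d else 0)
        (fun d _ => by split_ifs <;> (clear * -; positivity)) hmem
      simpa [Nat.gcd_dvd_left] using this
    refine (Finset.sum_le_sum h1).trans ?_
    rw [Finset.sum_comm]
    have h2 : ∀ d ∈ q.divisors, ∑ n ∈ Finset.range N, (if d ∣ n + 1 then ((n + 1 : ℕ) : ℝ) ^ (-1 - ε) * √d else 0) ≤ Z := by
      intro d hd
      rw [Nat.mem_divisors] at hd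
      have hd0 : 0 < d := Nat.pos_of_dvd_of_pos hd.1 hq
      have hd1 : (1 : ℝ) ≤ d := by exact_mod_cast hd0
      rw [← Finset.sum_filter]
      have hsub : ∑ n ∈ (Finset.range N).filter (fun n => d ∣ n + 1), ((n + 1 : ℕ) : ℝ) ^ (-1 - ε) * √d
          ≤ ∑ m ∈ Finset.range N, ((d * (m + 1) : ℕ) : ℝ) ^ (-1 - ε) * √d := by
        have hinj : ((Finset.range N).filter (fun n => d ∣ n + 1)) ⊆ (Finset.range N).image (fun m => d * (m + 1) - 1) := by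
          intro n hn
          rw [Finset.mem_filter, Finset.mem_range] at hn
          obtain ⟨k, hk⟩ := hn.2
          rw [Finset.mem_image]
          have hk0 : 0 < k := by
            rcases Nat.eq_zero_or_pos k with h | h
            · rw [h, mul_zero] at hk; omega
            · exact h
          refine ⟨k - 1, ?_, ?_⟩
          · rw [Finset.mem_range]
            have : k ≤ d * k := Nat.le_mul_of_pos_left _ hd0
            omega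
          · have : k - 1 + 1 = k := by omega
            rw [this, ← hk]; (clear * - hk; omega)
        refine (Finset.sum_le_sum_of_subset_of_nonneg hinj (fun n _ _ => by (clear * - hd0; positivity))).trans ?_
        rw [Finset.sum_image]
        · apply le_of_eq
          refine Finset.sum_congr rfl fun m _ => ?_
          have : d * (m + 1) - 1 + 1 = d * (m + 1) := by
            have : 0 < d * (m + 1) := by (clear * - hd0; positivity)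
            (clear * - this; omega)
          rw [this]
        · intro x _ y _ hxy
          have hx : 0 < d * (x + 1) := by (clear * - hd0; positivity)
          have hy : 0 < d * (y + 1) := by (clear * - hd0; positivity)
          simp only at hxy
          have : d * (x + 1) = d * (y + 1) := by (clear * - hxy hx hy; omega)
          have := Nat.eq_of_mul_eq_mul_left hd0 this
          (clear * - this; omega)
      refine hsub.trans ?_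
      have h3 : ∀ m ∈ Finset.range N, ((d * (m + 1) : ℕ) : ℝ) ^ (-1 - ε) * √d ≤ ((m + 1 : ℕ) : ℝ) ^ (-1 - ε) := by
        intro m _
        have e1 : ((d * (m + 1) : ℕ) : ℝ) ^ (-1 - ε) = (d : ℝ) ^ (-1 - ε) * ((m + 1 : ℕ) : ℝ) ^ (-1 - ε) := by
          rw [Nat.cast_mul, Real.mul_rpow (by (clear * - hd0; positivity)) (by (clear * -; positivity))]
        have e2 : (d : ℝ) ^ (-1 - ε) * √d ≤ 1 := by
          rw [Real.sqrt_eq_rpow, ← Real.rpow_add (by linarith only [hd1])]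
          exact Real.rpow_le_one_of_one_le_of_nonpos hd1 (by linarith only [hε])
        rw [e1]
        calc (d : ℝ) ^ (-1 - ε) * ((m + 1 : ℕ) : ℝ) ^ (-1 - ε) * √d
            = ((d : ℝ) ^ (-1 - ε) * √d) * ((m + 1 : ℕ) : ℝ) ^ (-1 - ε) := by ring
          _ ≤ 1 * ((m + 1 : ℕ) : ℝ) ^ (-1 - ε) := mul_le_mul_of_nonneg_right e2 (hf0 m)
          _ = _ := one_mul _
      exact (Finset.sum_le_sum h3).trans (hf.sum_le_tsum _ (fun n _ => hf0 n))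
    refine (Finset.sum_le_sum h2).trans ?_
    rw [Finset.sum_const, nsmul_eq_mul]
  have hnn : ∀ n : ℕ, 0 ≤ ((n + 1 : ℕ) : ℝ) ^ (-1 - ε) * √(Nat.gcd (n + 1) q) := fun n => by (clear * -; positivity)
  have hs : Summable (fun n : ℕ => ((n + 1 : ℕ) : ℝ) ^ (-1 - ε) * √(Nat.gcd (n + 1) q)) :=
    summable_of_sum_range_le hnn hbound
  exact ⟨hs, Real.tsum_le_of_sum_range_le hnn hbound⟩

theorem eb_triple (g f : ℕ → ℝ) (hg0 : ∀ n, 0 ≤ g n) (hf0 : ∀ n, 0 ≤ f n) (hg : Summable g) (hf : Summable f) :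
    HasSum (fun i : Ix => g i.2.1 * (f i.2.2.1 * g i.2.2.2)) (8 * ((∑' n, g n) * ((∑' n, f n) * (∑' n, g n)))) := by
  have h1 : Summable (fun p : ℕ × ℕ => f p.1 * g p.2) := hf.mul_of_nonneg hg hf0 hg0
  have h2 : HasSum (fun p : ℕ × ℕ => f p.1 * g p.2) ((∑' n, f n) * ∑' n, g n) := hf.hasSum.mul hg.hasSum h1
  obtain ⟨k, hk⟩ : ∃ k : ℕ × ℕ → ℝ, ∀ p, k p = f p.1 * g p.2 := ⟨_, fun _ => rfl⟩
  have hk0 : ∀ p, 0 ≤ k p := fun p => by rw [hk]; exact mul_nonneg (hf0 _) (hg0 _)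
  have h2' : HasSum k ((∑' n, f n) * ∑' n, g n) := by
    convert! h2 using 1
    funext p; exact hk p
  have h3 : Summable (fun p : ℕ × (ℕ × ℕ) => g p.1 * k p.2) := hg.mul_of_nonneg h2'.summable hg0 hk0
  have h4 : HasSum (fun p : ℕ × (ℕ × ℕ) => g p.1 * k p.2) ((∑' n, g n) * ((∑' n, f n) * ∑' n, g n)) :=
    hg.hasSum.mul h2' h3
  obtain ⟨l, hl⟩ : ∃ l : ℕ × (ℕ × ℕ) → ℝ, ∀ p, l p = g p.1 * k p.2 := ⟨_, fun _ => rfl⟩
  have hl0 : ∀ p, 0 ≤ l p := fun p => by rw [hl]; exact mul_nonneg (hg0 _) (hk0 _)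
  have h4' : HasSum l ((∑' n, g n) * ((∑' n, f n) * ∑' n, g n)) := by
    convert! h4 using 1
    funext p; exact hl p
  have h5 : HasSum (fun _ : Bool × Bool × Bool => (1 : ℝ)) 8 := by
    have := hasSum_fintype (fun _ : Bool × Bool × Bool => (1 : ℝ))
    simp at this
    exact this
  have h6 : Summable (fun i : (Bool × Bool × Bool) × (ℕ × ℕ × ℕ) => (1 : ℝ) * l i.2) :=
    h5.summable.mul_of_nonneg h4'.summable (fun _ => zero_le_one) hl0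
  have h7 := h5.mul h4' h6
  convert! h7 using 1
  funext i
  rw [one_mul, hl, hk]

theorem eb_gcd_val (q : ℕ) [NeZero q] (b : Bool) (n : ℕ) :
    Nat.gcd (((sg b * (n + 1 : ℕ) : ℤ) : ZMod q)).val q = Nat.gcd (n + 1) q := by
  have h1 : Int.gcd ((((sg b * (n + 1 : ℕ) : ℤ) : ZMod q)).val : ℤ) q = Int.gcd (sg b * (n + 1 : ℕ) : ℤ) q := by
    rw [ZMod.val_intCast]
    exact Int.gcd_emod _ _
  rw [Int.gcd_natCast_natCast] at h1
  rw [h1]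
  cases b
  · simp only [sg, Bool.false_eq_true, if_false, neg_mul, one_mul, Int.neg_gcd, Int.gcd_natCast_natCast]
  · simp only [sg, if_true, one_mul, Int.gcd_natCast_natCast]

theorem eb_es_le (i : Ix) : |es i| ≤ 3 := by
  obtain ⟨⟨a, b, c⟩, _⟩ := i
  unfold es
  cases a <;> cases b <;> cases c <;> simp [sg]

theorem eb_pr_pos (i : Ix) : 1 ≤ pr i := by
  unfold pr
  have h1 : (1 : ℝ) ≤ ((i.2.1 + 1 : ℕ) : ℝ) := by exact_mod_cast Nat.le_add_left 1 _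
  have h2 : (1 : ℝ) ≤ ((i.2.2.1 + 1 : ℕ) : ℝ) := by exact_mod_cast Nat.le_add_left 1 _
  have h3 : (1 : ℝ) ≤ ((i.2.2.2 + 1 : ℕ) : ℝ) := by exact_mod_cast Nat.le_add_left 1 _
  have h12 : (1 : ℝ) ≤ ((i.2.1 + 1 : ℕ) : ℝ) * ((i.2.2.1 + 1 : ℕ) : ℝ) := one_le_mul_of_one_le_of_one_le h1 h2
  exact one_le_mul_of_one_le_of_one_le h12 h3


/-! ### analysis -/

theorem eb_kk_cont (σ : ℝ) (hσ : σ = -1 / 2 ∨ σ = 1 / 2) (e : ℤ) :
    Continuous (fun t : ℝ => kk e ((σ : ℂ) + t * I)) := by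
  unfold kk
  have hc : Continuous (fun t : ℝ => (σ : ℂ) + t * I) := by fun_prop
  have h2π : (2 * π : ℂ) ≠ 0 := by
    simp [Real.pi_ne_zero]
  refine ((?_ : Continuous _).mul ((Continuous.mul ?_ ?_).pow 3)).mul ?_
  · rw [continuous_iff_continuousAt]
    intro t
    apply ContinuousAt.comp (g := Gamma) _ hc.continuousAt
    apply (differentiableAt_Gamma _ _).continuousAt
    intro m h
    have := congrArg Complex.re h
    simp at this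
    rcases hσ with h' | h'
    · rw [h'] at this
      have h3 : (m : ℝ) = 1 / 2 := by linarith only [this]
      have h4 : (2 * m : ℝ) = 1 := by linarith only [this]
      have h5 : 2 * m = 1 := by exact_mod_cast h4
      (clear * - h5; omega)
    · rw [h'] at this
      have h3 : (0 : ℝ) ≤ m := Nat.cast_nonneg m
      linarith only [this]
  · exact (hc.sub continuous_const).const_cpow (Or.inl h2π)
  · rw [continuous_iff_continuousAt]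
    intro t
    apply ContinuousAt.comp (g := Gamma) (f := fun t : ℝ => 1 - ((σ : ℂ) + t * I)) _ (continuous_const.sub hc).continuousAt
    apply (differentiableAt_Gamma _ _).continuousAt
    intro m h
    have := congrArg Complex.re h
    simp at this
    have h3 : (0 : ℝ) ≤ m := Nat.cast_nonneg m
    rcases hσ with h' | h' <;> rw [h'] at this <;> linarith only [this]
  · exact Complex.continuous_exp.comp (by fun_prop)

theorem eb_zz_cont (T : ℝ) : Continuous (fun ξ : ℝ => zz T ξ) := by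
  unfold zz om
  fun_prop

theorem eb_ker_cont (T τ : ℝ) : Continuous (fun ξ : ℝ => ker T τ ξ) := by
  unfold ker gg om
  fun_prop

theorem eb_JJ_meas (σ : ℝ) (hσ : σ = -1 / 2 ∨ σ = 1 / 2) (e : ℤ) {T c : ℝ} (hc : 0 < c)
    (hz : ∀ ξ, 0 < (zz T ξ).re) :
    StronglyMeasurable (fun ξ : ℝ => JJ σ e (zz T ξ * (c : ℂ))) := by
  unfold JJ
  apply StronglyMeasurable.const_mul
  have hcont : Continuous (fun p : ℝ × ℝ => kk e ((σ : ℂ) + p.2 * I) * (zz T p.1 * (c : ℂ)) ^ (-((σ : ℂ) + p.2 * I))) := by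
    apply Continuous.mul
    · exact (eb_kk_cont σ hσ e).comp continuous_snd
    · apply Continuous.cpow
      · exact ((eb_zz_cont T).comp continuous_fst).mul continuous_const
      · fun_prop
      · intro p
        left
        rw [Complex.re_mul_ofReal]
        exact mul_pos (hz _) hc
  exact hcont.stronglyMeasurable.integral_prod_right'


/-- The bound for one term. `c = Y / pr`. -/
theorem eb_one {T τ : ℝ} (hz : ∀ ξ, 0 < (zz T ξ).re) {C1 C2 KA KB : ℝ} (hC1 : 0 ≤ C1) (hC2 : 0 ≤ C2)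
    (e : ℤ)
    (hJL : ∀ y : ℂ, 0 < y.re → (∫ t : ℝ, ‖kk e (((-1 / 2 : ℝ) : ℂ) + t * I) * y ^ (-(((-1 / 2 : ℝ) : ℂ) + t * I))‖) ≤
      C1 * (‖y‖ ^ (1 / 2 : ℝ) * (‖y‖ / y.re) ^ 4))
    (hJR : ∀ y : ℂ, 0 < y.re → ‖JJ (1 / 2) e y‖ ≤ C2 * (‖y‖ ^ (-(1 / 2) : ℝ) * (‖y‖ / y.re)))
    (hJS : ∃ c : ℂ, ‖c‖ ≤ 1 ∧ ∀ y : ℂ, 0 < y.re → JJ (-1 / 2) e y = JJ (1 / 2) e y - c)
    (hIA : Integrable (fun ξ : ℝ => ‖ker T τ ξ‖ * (‖zz T ξ‖ ^ (9 / 2 : ℝ) / (zz T ξ).re ^ 4)))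
    (hA : ∫ ξ : ℝ, ‖ker T τ ξ‖ * (‖zz T ξ‖ ^ (9 / 2 : ℝ) / (zz T ξ).re ^ 4) ≤ KA)
    (hIB : Integrable (fun ξ : ℝ => ‖ker T τ ξ‖ * (‖zz T ξ‖ ^ (1 / 2 : ℝ) / (zz T ξ).re ^ 1)))
    (hB : ∫ ξ : ℝ, ‖ker T τ ξ‖ * (‖zz T ξ‖ ^ (1 / 2 : ℝ) / (zz T ξ).re ^ 1) ≤ KB)
    (hIk : Integrable (fun ξ : ℝ => ker T τ ξ)) (hV : ‖∫ ξ : ℝ, ker T τ ξ‖ ≤ 1)
    {c : ℝ} (hc : 0 < c) :
    Integrable (fun ξ : ℝ => ker T τ ξ * JJ (-1 / 2) e (zz T ξ * (c : ℂ))) ∧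
    (∫ ξ : ℝ, ‖ker T τ ξ * JJ (-1 / 2) e (zz T ξ * (c : ℂ))‖) ≤ C1 * c ^ (1 / 2 : ℝ) * KA ∧
    ‖∫ ξ : ℝ, ker T τ ξ * JJ (-1 / 2) e (zz T ξ * (c : ℂ))‖ ≤ C1 * c ^ (1 / 2 : ℝ) * KA ∧
    ‖∫ ξ : ℝ, ker T τ ξ * JJ (-1 / 2) e (zz T ξ * (c : ℂ))‖ ≤ C2 * c ^ (-(1 / 2) : ℝ) * KB + 1 := by
  have hy : ∀ ξ, 0 < (zz T ξ * (c : ℂ)).re := by
    intro ξ; rw [Complex.re_mul_ofReal]; exact mul_pos (hz ξ) hc
  have hyn : ∀ ξ, ‖zz T ξ * (c : ℂ)‖ = ‖zz T ξ‖ * c := by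
    intro ξ; rw [norm_mul, Complex.norm_real, Real.norm_of_nonneg hc.le]
  have hznorm : ∀ ξ, 0 < ‖zz T ξ‖ := by
    intro ξ
    rw [norm_pos_iff]
    intro h
    have := hz ξ
    rw [h] at this
    simp at this
  have hratio : ∀ ξ, ‖zz T ξ * (c : ℂ)‖ / (zz T ξ * (c : ℂ)).re = ‖zz T ξ‖ / (zz T ξ).re := by
    intro ξ
    rw [hyn, Complex.re_mul_ofReal]
    have := (hz ξ).ne'
    field_simp
  have eh : (((-1 / 2 : ℝ)) : ℂ) = (-1 / 2 : ℂ) := by push_cast; ring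
  have hcast : ((-1 / 2 : ℝ)) = -1 / 2 := rfl
  -- pointwise bound A
  have hptA : ∀ ξ, ‖JJ (-1 / 2) e (zz T ξ * (c : ℂ))‖ ≤ C1 * c ^ (1 / 2 : ℝ) * (‖zz T ξ‖ ^ (9 / 2 : ℝ) / (zz T ξ).re ^ 4) := by
    intro ξ
    unfold JJ
    rw [norm_mul]
    have h1 : ‖(1 / (2 * π) : ℂ)‖ ≤ 1 := by
      rw [norm_div, norm_one, norm_mul, Complex.norm_two, Complex.norm_real, Real.norm_of_nonneg Real.pi_pos.le,
        div_le_one (by positivity)]
      linarith only [Real.pi_gt_three]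
    have h2 := (norm_integral_le_integral_norm (μ := volume) (fun t : ℝ => kk e (((-1 / 2 : ℝ) : ℂ) + t * I) * (zz T ξ * (c : ℂ)) ^ (-(((-1 / 2 : ℝ) : ℂ) + t * I)))).trans
      (hJL _ (hy ξ))
    have h3 : C1 * (‖zz T ξ * (c : ℂ)‖ ^ (1 / 2 : ℝ) * (‖zz T ξ * (c : ℂ)‖ / (zz T ξ * (c : ℂ)).re) ^ 4)
        = C1 * c ^ (1 / 2 : ℝ) * (‖zz T ξ‖ ^ (9 / 2 : ℝ) / (zz T ξ).re ^ 4) := by
      rw [hratio, hyn, Real.mul_rpow (norm_nonneg _) hc.le, div_pow]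
      have : ‖zz T ξ‖ ^ (9 / 2 : ℝ) = ‖zz T ξ‖ ^ (1 / 2 : ℝ) * ‖zz T ξ‖ ^ 4 := by
        rw [← Real.rpow_natCast, ← Real.rpow_add (hznorm ξ)]
        norm_num
      rw [this]; ring
    rw [h3] at h2
    have h4 : 0 ≤ ‖∫ t : ℝ, kk e (((-1 / 2 : ℝ) : ℂ) + t * I) * (zz T ξ * (c : ℂ)) ^ (-(((-1 / 2 : ℝ) : ℂ) + t * I))‖ := norm_nonneg _
    calc _ ≤ 1 * ‖∫ t : ℝ, kk e (((-1 / 2 : ℝ) : ℂ) + t * I) * (zz T ξ * (c : ℂ)) ^ (-(((-1 / 2 : ℝ) : ℂ) + t * I))‖ :=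
          mul_le_mul_of_nonneg_right h1 h4
      _ ≤ _ := by rw [one_mul]; exact h2
  have hmeas : AEStronglyMeasurable (fun ξ : ℝ => ker T τ ξ * JJ (-1 / 2) e (zz T ξ * (c : ℂ))) volume :=
    (eb_ker_cont T τ).aestronglyMeasurable.mul (eb_JJ_meas _ (Or.inl rfl) e hc hz).aestronglyMeasurable
  have hIA' : Integrable (fun ξ : ℝ => C1 * c ^ (1 / 2 : ℝ) * (‖ker T τ ξ‖ * (‖zz T ξ‖ ^ (9 / 2 : ℝ) / (zz T ξ).re ^ 4))) :=
    hIA.const_mul _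
  have hle : ∀ ξ, ‖ker T τ ξ * JJ (-1 / 2) e (zz T ξ * (c : ℂ))‖
      ≤ C1 * c ^ (1 / 2 : ℝ) * (‖ker T τ ξ‖ * (‖zz T ξ‖ ^ (9 / 2 : ℝ) / (zz T ξ).re ^ 4)) := by
    intro ξ
    rw [norm_mul]
    calc _ ≤ ‖ker T τ ξ‖ * (C1 * c ^ (1 / 2 : ℝ) * (‖zz T ξ‖ ^ (9 / 2 : ℝ) / (zz T ξ).re ^ 4)) :=
          mul_le_mul_of_nonneg_left (hptA ξ) (norm_nonneg _)
      _ = _ := by ring
  have hInt : Integrable (fun ξ : ℝ => ker T τ ξ * JJ (-1 / 2) e (zz T ξ * (c : ℂ))) :=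
    hIA'.mono' hmeas (Eventually.of_forall hle)
  have hcp : 0 ≤ C1 * c ^ (1 / 2 : ℝ) := by (clear * - hC1 hc; positivity)
  have hA1 : (∫ ξ : ℝ, ‖ker T τ ξ * JJ (-1 / 2) e (zz T ξ * (c : ℂ))‖) ≤ C1 * c ^ (1 / 2 : ℝ) * KA := by
    refine (integral_mono hInt.norm hIA' hle).trans ?_
    rw [integral_const_mul]
    exact mul_le_mul_of_nonneg_left hA hcp
  refine ⟨hInt, hA1, (norm_integral_le_integral_norm _).trans hA1, ?_⟩
  obtain ⟨c0, hc0, hsh⟩ := hJS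
  have hsh' : ∀ ξ, ker T τ ξ * JJ (-1 / 2) e (zz T ξ * (c : ℂ)) = ker T τ ξ * JJ (1 / 2) e (zz T ξ * (c : ℂ)) - c0 * ker T τ ξ := by
    intro ξ
    rw [hsh _ (hy ξ)]; ring
  have hIc : Integrable (fun ξ : ℝ => c0 * ker T τ ξ) := hIk.const_mul c0
  have hInt2 : Integrable (fun ξ : ℝ => ker T τ ξ * JJ (1 / 2) e (zz T ξ * (c : ℂ))) := by
    have := hInt.add hIc
    refine this.congr (Eventually.of_forall fun ξ => ?_)
    simp only [Pi.add_apply]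
    rw [hsh' ξ]; ring
  rw [integral_congr_ae (Eventually.of_forall hsh'), integral_sub hInt2 hIc, integral_const_mul]
  have hB1 : ‖∫ ξ : ℝ, ker T τ ξ * JJ (1 / 2) e (zz T ξ * (c : ℂ))‖ ≤ C2 * c ^ (-(1 / 2) : ℝ) * KB := by
    have hle2 : ∀ ξ, ‖ker T τ ξ * JJ (1 / 2) e (zz T ξ * (c : ℂ))‖
        ≤ C2 * c ^ (-(1 / 2) : ℝ) * (‖ker T τ ξ‖ * (‖zz T ξ‖ ^ (1 / 2 : ℝ) / (zz T ξ).re ^ 1)) := by
      intro ξ
      rw [norm_mul]
      have h1 := hJR _ (hy ξ)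
      have h3 : C2 * (‖zz T ξ * (c : ℂ)‖ ^ (-(1 / 2) : ℝ) * (‖zz T ξ * (c : ℂ)‖ / (zz T ξ * (c : ℂ)).re))
          = C2 * c ^ (-(1 / 2) : ℝ) * (‖zz T ξ‖ ^ (1 / 2 : ℝ) / (zz T ξ).re ^ 1) := by
        rw [hratio, hyn, Real.mul_rpow (norm_nonneg _) hc.le, pow_one]
        have : ‖zz T ξ‖ ^ (1 / 2 : ℝ) = ‖zz T ξ‖ ^ (-(1 / 2) : ℝ) * ‖zz T ξ‖ := by
          nth_rewrite 3 [← Real.rpow_one ‖zz T ξ‖]
          rw [← Real.rpow_add (hznorm ξ)]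
          norm_num
        rw [this]; ring
      rw [h3] at h1
      calc _ ≤ ‖ker T τ ξ‖ * (C2 * c ^ (-(1 / 2) : ℝ) * (‖zz T ξ‖ ^ (1 / 2 : ℝ) / (zz T ξ).re ^ 1)) :=
            mul_le_mul_of_nonneg_left h1 (norm_nonneg _)
        _ = _ := by ring
    refine (norm_integral_le_integral_norm _).trans ((integral_mono hInt2.norm (hIB.const_mul _) hle2).trans ?_)
    rw [integral_const_mul]
    exact mul_le_mul_of_nonneg_left hB (by (clear * - hC2 hc; positivity))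
  calc _ ≤ ‖∫ ξ : ℝ, ker T τ ξ * JJ (1 / 2) e (zz T ξ * (c : ℂ))‖ + ‖c0 * ∫ ξ : ℝ, ker T τ ξ‖ := norm_sub_le _ _
    _ ≤ C2 * c ^ (-(1 / 2) : ℝ) * KB + 1 := by
        apply add_le_add hB1
        rw [norm_mul]
        calc ‖c0‖ * ‖∫ ξ : ℝ, ker T τ ξ‖ ≤ 1 * 1 := mul_le_mul hc0 hV (norm_nonneg _) zero_le_one
          _ = 1 := one_mul 1


theorem eb_log_pow (ε : ℝ) (hε : 0 < ε) : ∃ C : ℝ, 0 ≤ C ∧ ∀ T : ℝ, Real.exp 1 ≤ T →
    Real.log T ^ (9 / 2 : ℝ) ≤ C * T ^ ε := by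
  refine ⟨(1 / (ε / (9 / 2))) ^ (9 / 2 : ℝ), by (clear * - hε; positivity), fun T hT => ?_⟩
  have hT1 : 1 ≤ T := le_trans (by have := Real.add_one_le_exp (1 : ℝ); linarith only [this]) hT
  have hlog0 : 0 ≤ Real.log T := Real.log_nonneg hT1
  have hlog : Real.log T ≤ T ^ (ε / (9 / 2)) / (ε / (9 / 2)) := Real.log_le_rpow_div (by linarith only [hT1]) (by (clear * - hε; positivity))
  have h1 : Real.log T ^ (9 / 2 : ℝ) ≤ (T ^ (ε / (9 / 2)) / (ε / (9 / 2))) ^ (9 / 2 : ℝ) :=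
    Real.rpow_le_rpow hlog0 hlog (by norm_num)
  refine h1.trans (le_of_eq ?_)
  rw [div_eq_mul_one_div, Real.mul_rpow (by positivity) (by positivity), ← Real.rpow_mul (by linarith only [hT1]), mul_comm]
  congr 2
  field_simp

/-- **F1.** `err_bound`, from D7, D8, D9, M1, M2, A3. -/
theorem err_bound_of
    (hJL : ∃ C : ℝ, 0 ≤ C ∧ ∀ e : ℤ, |e| ≤ 3 → ∀ y : ℂ, 0 < y.re →
      Integrable (fun t : ℝ => kk e (((-1 / 2 : ℝ) : ℂ) + t * I) * y ^ (-(((-1 / 2 : ℝ) : ℂ) + t * I))) ∧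
      (∫ t : ℝ, ‖kk e (((-1 / 2 : ℝ) : ℂ) + t * I) * y ^ (-(((-1 / 2 : ℝ) : ℂ) + t * I))‖) ≤
        C * (‖y‖ ^ (1 / 2 : ℝ) * (‖y‖ / y.re) ^ 4))
    (hJR : ∃ C : ℝ, 0 ≤ C ∧ ∀ e : ℤ, |e| ≤ 3 → ∀ y : ℂ, 0 < y.re →
      ‖JJ (1 / 2) e y‖ ≤ C * (‖y‖ ^ (-(1 / 2) : ℝ) * (‖y‖ / y.re)))
    (hJS : ∀ e : ℤ, |e| ≤ 3 → ∃ c : ℂ, ‖c‖ ≤ 1 ∧ ∀ y : ℂ, 0 < y.re →
      JJ (-1 / 2) e y = JJ (1 / 2) e y - c)
    (hKM : ∀ β : ℝ, 0 ≤ β → ∀ k : ℕ, ∃ C T₀ : ℝ, ∀ T ≥ T₀, ∀ τ, 0 ≤ τ → τ ≤ T →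
      Integrable (fun ξ : ℝ => ‖ker T τ ξ‖ * (‖zz T ξ‖ ^ β / (zz T ξ).re ^ k)) ∧
      ∫ ξ : ℝ, ‖ker T τ ξ‖ * (‖zz T ξ‖ ^ β / (zz T ξ).re ^ k) ≤
        C * (T ^ ((k : ℝ) - β) * Real.log T ^ β))
    (hzz : ∀ T : ℝ, 1 < T → ∀ ξ : ℝ, 0 < (zz T ξ).re)
    (hVV : ∀ δ : ℝ, 0 < δ → ∀ A : ℝ, ∃ T₀ : ℝ, ∀ T ≥ T₀, ∀ τ, δ * T ≤ τ → τ ≤ T →
      ‖VV T τ 0‖ ≤ T ^ (-A))
    (hGK : ∀ T : ℝ, 1 < T → ∀ (τ : ℝ) (s : ℂ),
      Integrable (fun ξ : ℝ => ker T τ ξ * cexp (om T ξ * s)) ∧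
      ∫ ξ : ℝ, ker T τ ξ * cexp (om T ξ * s) = VV T τ s)
    {δ : ℝ} (hδ : 0 < δ) {ε : ℝ} (hε : 0 < ε) : ∃ C T₀ : ℝ, ∀ T ≥ T₀, ∀ τ,
    δ * T ≤ τ → τ ≤ T → ∀ (q h : ℕ) [NeZero q], 0 < h → (q : ℝ) ≤ T ^ 2 → (h : ℝ) ≤ T →
    ∀ b : ℝ, 0 ≤ b → (∀ x y z : ZMod q, ‖SS q h x y z‖ ≤
      q * b * (√(Nat.gcd x.val q) * √(Nat.gcd z.val q))) →
    ‖∫ ξ : ℝ, ker T τ ξ * ∑' i : Ix, ((pr i : ℂ))⁻¹ * SI q h i *
      JJ (-1 / 2) (es i) (zz T ξ * ((h * q ^ 2 / pr i : ℝ) : ℂ))‖ ≤ C * T ^ ε * (1 + q * b) := by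
  obtain ⟨C1, hC1, hJL⟩ := hJL
  obtain ⟨C2, hC2, hJR⟩ := hJR
  obtain ⟨CA', TA, hKA⟩ := hKM (9 / 2) (by norm_num) 4
  obtain ⟨CB', TB, hKB⟩ := hKM (1 / 2) (by norm_num) 1
  obtain ⟨TV, hTV⟩ := hVV δ hδ 0
  set CA := max CA' 0 with hCA
  set CB := max CB' 0 with hCB
  have hCA0 : 0 ≤ CA := le_max_right _ _
  have hCB0 : 0 ≤ CB := le_max_right _ _
  set ε' := min (ε / 16) (1 / 2) with hε'
  have hε'0 : 0 < ε' := lt_min (by (clear * - hε; positivity)) (by norm_num)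
  have hε'1 : ε' ≤ ε / 16 := min_le_left _ _
  have hε'2 : ε' ≤ 1 / 2 := min_le_right _ _
  obtain ⟨Cd, hCd1, hCd⟩ := KlWeil.card_divisors_le_rpow (ε / 16) (by (clear * - hε; positivity))
  obtain ⟨CL, hCL0, hCL⟩ := eb_log_pow (ε / 4) (by (clear * - hε; positivity))
  set Z := ∑' n : ℕ, ((n + 1 : ℕ) : ℝ) ^ (-1 - ε') with hZ
  have hZ0 : 0 ≤ Z := tsum_nonneg fun n => by (clear * -; positivity)
  set K0 := C1 * CA + C2 * CB + 1 with hK0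
  have hK00 : 0 ≤ K0 := by (clear * - hC1 hC2; positivity)
  refine ⟨K0 * CL * (8 * (Cd ^ 2 * Z ^ 3)), max (max TA TB) (max TV (Real.exp 1)), fun T hT τ hτ1 hτ2 q h _ hh hqT hhT b hb hSS => ?_⟩
  have hTA : TA ≤ T := (le_max_left _ _).trans ((le_max_left _ _).trans hT)
  have hTB : TB ≤ T := (le_max_right _ _).trans ((le_max_left _ _).trans hT)
  have hTV' : TV ≤ T := (le_max_left _ _).trans ((le_max_right _ _).trans hT)
  have hTe : Real.exp 1 ≤ T := (le_max_right _ _).trans ((le_max_right _ _).trans hT)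
  have hT1 : 1 < T := lt_of_lt_of_le (by have := Real.add_one_lt_exp (one_ne_zero : (1 : ℝ) ≠ 0); linarith only [hε'0, hε'2, this]) hTe
  have hT0 : 0 < T := by linarith only [hε'0, hε'2, hT1]
  have hL1 : 1 ≤ Real.log T := by rwa [Real.le_log_iff_exp_le hT0]
  have hL0 : 0 < Real.log T := by linarith only [hε'0, hε'2, hL1]
  have hτ0 : 0 ≤ τ := le_trans (by (clear * - hδ hT1; positivity)) hτ1
  have hz : ∀ ξ, 0 < (zz T ξ).re := hzz T hT1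
  obtain ⟨hIA, hA⟩ := hKA T hTA τ hτ0 hτ2
  obtain ⟨hIB, hB⟩ := hKB T hTB τ hτ0 hτ2
  have hA' : ∫ ξ : ℝ, ‖ker T τ ξ‖ * (‖zz T ξ‖ ^ (9 / 2 : ℝ) / (zz T ξ).re ^ 4) ≤ CA * (T ^ (-(1 / 2) : ℝ) * Real.log T ^ (9 / 2 : ℝ)) := by
    refine hA.trans ?_
    have : (((4 : ℕ) : ℝ) - 9 / 2) = -(1 / 2) := by norm_num
    rw [this]
    exact mul_le_mul_of_nonneg_right (le_max_left _ _) (by (clear * - hT1 hL1; positivity))
  have hB' : ∫ ξ : ℝ, ‖ker T τ ξ‖ * (‖zz T ξ‖ ^ (1 / 2 : ℝ) / (zz T ξ).re ^ 1) ≤ CB * (T ^ (1 / 2 : ℝ) * Real.log T ^ (1 / 2 : ℝ)) := by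
    refine hB.trans ?_
    have : (((1 : ℕ) : ℝ) - 1 / 2) = 1 / 2 := by norm_num
    rw [this]
    exact mul_le_mul_of_nonneg_right (le_max_left _ _) (by (clear * - hT1 hL1; positivity))
  have hgk := hGK T hT1 τ 0
  simp only [mul_zero, Complex.exp_zero, mul_one] at hgk
  have hIk : Integrable (fun ξ : ℝ => ker T τ ξ) := hgk.1
  have hV : ‖∫ ξ : ℝ, ker T τ ξ‖ ≤ 1 := by
    rw [hgk.2]
    have := hTV T hTV' τ hτ1 hτ2
    simpa using this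
  have hq0 : 0 < q := Nat.pos_of_ne_zero (NeZero.ne q)
  set Y : ℝ := h * q ^ 2 with hY
  have hY0 : 0 < Y := by
    have : (0 : ℝ) < h := by exact_mod_cast hh
    have : (0 : ℝ) < q := by exact_mod_cast hq0
    (clear * - hh hq0; positivity)
  have hYT : Y / T ≤ T ^ (4 : ℝ) := by
    rw [div_le_iff₀ hT0]
    have h1 : (q : ℝ) ^ 2 ≤ (T ^ 2) ^ 2 := pow_le_pow_left₀ (Nat.cast_nonneg _) hqT 2
    calc Y = h * (q : ℝ) ^ 2 := rfl
      _ ≤ T * (T ^ 2) ^ 2 := mul_le_mul hhT h1 (by (clear * - hq0; positivity)) hT0.le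
      _ = T ^ (4 : ℝ) * T := by
        have : T ^ (4 : ℝ) = T ^ 4 := by rw [← Real.rpow_natCast]; norm_num
        rw [this]; ring
  have hone := fun (i : Ix) (c : ℝ) (hc : 0 < c) =>
    eb_one (T := T) (τ := τ) hz hC1 hC2 (es i) (fun y hy => (hJL (es i) (eb_es_le i) y hy).2) (hJR (es i) (eb_es_le i))
      (hJS (es i) (eb_es_le i)) hIA hA' hIB hB' hIk hV hc
  have hci : ∀ i : Ix, 0 < Y / pr i := fun i => div_pos hY0 (lt_of_lt_of_le one_pos (eb_pr_pos i))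
  -- functions g, f
  set g : ℕ → ℝ := fun n => ((n + 1 : ℕ) : ℝ) ^ (-1 - ε') * √(Nat.gcd (n + 1) q) with hg
  set f : ℕ → ℝ := fun n => ((n + 1 : ℕ) : ℝ) ^ (-1 - ε') with hf
  obtain ⟨hgs, hgb⟩ := eb_gcd_sum q hq0 hε'0
  have hfs : Summable f :=
    (summable_nat_add_iff (f := fun n : ℕ => (n : ℝ) ^ (-1 - ε')) 1).mpr
      (Real.summable_nat_rpow.mpr (by linarith only [hε'0]))
  have hg0 : ∀ n, 0 ≤ g n := fun n => by simp only [hg]; (clear * -; positivity)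
  have hf0 : ∀ n, 0 ≤ f n := fun n => by simp only [hf]; (clear * -; positivity)
  have htrip := eb_triple g f hg0 hf0 hgs hfs
  have hGi : ∀ i : Ix, pr i ^ (-1 - ε') * (√(Nat.gcd (i.2.1 + 1) q) * √(Nat.gcd (i.2.2.2 + 1) q))
      = g i.2.1 * (f i.2.2.1 * g i.2.2.2) := by
    intro i
    simp only [hg, hf]
    unfold pr
    rw [Real.mul_rpow (by (clear * -; positivity)) (by (clear * -; positivity)), Real.mul_rpow (by (clear * -; positivity)) (by (clear * -; positivity))]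
    ring
  have hSI : ∀ i : Ix, ‖SI q h i‖ ≤ q * b * (√(Nat.gcd (i.2.1 + 1) q) * √(Nat.gcd (i.2.2.2 + 1) q)) := by
    intro i
    have := hSS ((sg i.1.1 * (i.2.1 + 1 : ℕ) : ℤ) : ZMod q) ((sg i.1.2.1 * (i.2.2.1 + 1 : ℕ) : ℤ) : ZMod q)
      ((sg i.1.2.2 * (i.2.2.2 + 1 : ℕ) : ℤ) : ZMod q)
    rw [eb_gcd_val, eb_gcd_val] at this
    exact this
  have hqb : 0 ≤ (q : ℝ) * b := by (clear * - hb hq0; positivity)
  -- terms
  set F : Ix → ℝ → ℂ := fun i ξ => ((pr i : ℂ))⁻¹ * SI q h i *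
    (ker T τ ξ * JJ (-1 / 2) (es i) (zz T ξ * ((h * q ^ 2 / pr i : ℝ) : ℂ))) with hF
  have hFint : ∀ i, Integrable (F i) := fun i => ((hone i _ (hci i)).1).const_mul _
  have hprn : ∀ i : Ix, ‖((pr i : ℂ))⁻¹‖ = (pr i)⁻¹ := by
    intro i
    rw [norm_inv, Complex.norm_real, Real.norm_of_nonneg (zero_le_one.trans (eb_pr_pos i))]
  have hFn : ∀ i, (∫ ξ, ‖F i ξ‖) = (pr i)⁻¹ * ‖SI q h i‖ * ∫ ξ, ‖ker T τ ξ * JJ (-1 / 2) (es i) (zz T ξ * ((h * q ^ 2 / pr i : ℝ) : ℂ))‖ := by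
    intro i
    simp only [hF]
    rw [← integral_const_mul]
    apply integral_congr_ae
    refine Eventually.of_forall fun ξ => ?_
    simp only
    rw [norm_mul (_ * _), norm_mul ((pr i : ℂ))⁻¹, hprn]
  -- summability of the norms
  have hsumF : Summable (fun i => ∫ ξ, ‖F i ξ‖) := by
    have hmaj : Summable (fun i : Ix => (C1 * Y ^ (1 / 2 : ℝ) * (CA * (T ^ (-(1 / 2) : ℝ) * Real.log T ^ (9 / 2 : ℝ))) * (q * b)) *
        (g i.2.1 * (f i.2.2.1 * g i.2.2.2))) := htrip.summable.mul_left _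
    refine Summable.of_nonneg_of_le (fun i => integral_nonneg fun ξ => norm_nonneg _) (fun i => ?_) hmaj
    rw [hFn, ← hGi]
    have hp := eb_pr_pos i
    have hp0 : 0 < pr i := by linarith only [hε'0, hε'2, hp]
    have h1 := (hone i _ (hci i)).2.1
    have h2 := hSI i
    have h3 : (Y / pr i) ^ (1 / 2 : ℝ) ≤ Y ^ (1 / 2 : ℝ) * pr i ^ (-ε') := by
      rw [Real.div_rpow hY0.le hp0.le, div_eq_mul_inv, ← Real.rpow_neg hp0.le]
      apply mul_le_mul_of_nonneg_left _ (by (clear * - hh hq0; positivity))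
      exact Real.rpow_le_rpow_of_exponent_le hp (by linarith only [hε'2])
    have h4 : (pr i)⁻¹ * pr i ^ (-ε') = pr i ^ (-1 - ε') := by
      rw [← Real.rpow_neg_one, ← Real.rpow_add hp0]; ring_nf
    have hKpos : 0 ≤ CA * (T ^ (-(1 / 2) : ℝ) * Real.log T ^ (9 / 2 : ℝ)) := by (clear * - hT1 hL1; positivity)
    calc (pr i)⁻¹ * ‖SI q h i‖ * ∫ ξ, ‖ker T τ ξ * JJ (-1 / 2) (es i) (zz T ξ * ((h * q ^ 2 / pr i : ℝ) : ℂ))‖
        ≤ (pr i)⁻¹ * (q * b * (√(Nat.gcd (i.2.1 + 1) q) * √(Nat.gcd (i.2.2.2 + 1) q))) *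
          (C1 * (Y ^ (1 / 2 : ℝ) * pr i ^ (-ε')) * (CA * (T ^ (-(1 / 2) : ℝ) * Real.log T ^ (9 / 2 : ℝ)))) := by
          apply mul_le_mul
          · exact mul_le_mul_of_nonneg_left h2 (by (clear * - hp; positivity))
          · refine h1.trans ?_
            apply mul_le_mul_of_nonneg_right _ hKpos
            exact mul_le_mul_of_nonneg_left h3 hC1
          · exact integral_nonneg fun ξ => norm_nonneg _
          · (clear * - hb hq0 hp; positivity)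
      _ = (C1 * Y ^ (1 / 2 : ℝ) * (CA * (T ^ (-(1 / 2) : ℝ) * Real.log T ^ (9 / 2 : ℝ))) * (q * b)) *
          (((pr i)⁻¹ * pr i ^ (-ε')) * (√(Nat.gcd (i.2.1 + 1) q) * √(Nat.gcd (i.2.2.2 + 1) q))) := by ring
      _ = _ := by rw [h4]
  have hexch := hasSum_integral_of_summable_integral_norm hFint hsumF
  have hIeq : ∫ ξ : ℝ, ker T τ ξ * ∑' i : Ix, ((pr i : ℂ))⁻¹ * SI q h i *
      JJ (-1 / 2) (es i) (zz T ξ * ((h * q ^ 2 / pr i : ℝ) : ℂ)) = ∫ ξ : ℝ, ∑' i : Ix, F i ξ := by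
    apply integral_congr_ae
    refine Eventually.of_forall fun ξ => ?_
    simp only [hF]
    rw [← tsum_mul_left]
    exact tsum_congr fun i => by ring
  rw [hIeq, ← hexch.tsum_eq]
  -- bound each integral
  have hbi : ∀ i : Ix, ‖∫ ξ, F i ξ‖ ≤ (K0 * Real.log T ^ (9 / 2 : ℝ) * T ^ (4 * ε') * (q * b)) * (g i.2.1 * (f i.2.2.1 * g i.2.2.2)) := by
    intro i
    have hp := eb_pr_pos i
    have hp0 : 0 < pr i := by linarith only [hε'0, hε'2, hp]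
    obtain ⟨-, -, hA2, hB2⟩ := hone i _ (hci i)
    set x := pr i * T / Y with hx
    have hx0 : 0 < x := by (clear * - hh hT1 hq0 hp; positivity)
    have hcx : Y / pr i = T / x := by rw [hx]; field_simp
    have hLge : 1 ≤ Real.log T ^ (9 / 2 : ℝ) := Real.one_le_rpow hL1 (by norm_num)
    have hLle : Real.log T ^ (1 / 2 : ℝ) ≤ Real.log T ^ (9 / 2 : ℝ) := Real.rpow_le_rpow_of_exponent_le hL1 (by norm_num)
    have hmain : ‖∫ ξ : ℝ, ker T τ ξ * JJ (-1 / 2) (es i) (zz T ξ * ((Y / pr i : ℝ) : ℂ))‖ ≤ K0 * Real.log T ^ (9 / 2 : ℝ) * x ^ (-ε') := by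
      rcases le_or_gt 1 x with h1 | h1
      · have e1 : C1 * (Y / pr i) ^ (1 / 2 : ℝ) * (CA * (T ^ (-(1 / 2) : ℝ) * Real.log T ^ (9 / 2 : ℝ)))
            = C1 * CA * Real.log T ^ (9 / 2 : ℝ) * x ^ (-(1 / 2) : ℝ) := by
          rw [hcx, Real.div_rpow hT0.le hx0.le, Real.rpow_neg hx0.le, Real.rpow_neg hT0.le]
          have : 0 < T ^ (1 / 2 : ℝ) := by (clear * - hT1; positivity)
          have : 0 < x ^ (1 / 2 : ℝ) := by (clear * - hh hT1 hq0 hp; positivity)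
          field_simp
        rw [e1] at hA2
        refine hA2.trans ?_
        have e2 : x ^ (-(1 / 2) : ℝ) ≤ x ^ (-ε') := Real.rpow_le_rpow_of_exponent_le h1 (by linarith only [hε'2])
        have e3 : C1 * CA ≤ K0 := by rw [hK0]; linarith only [mul_nonneg hC2 hCB0]
        have e4 : 0 ≤ C1 * CA := by (clear * - hC1; positivity)
        have e6 : C1 * CA * Real.log T ^ (9 / 2 : ℝ) * x ^ (-(1 / 2) : ℝ)
            ≤ K0 * Real.log T ^ (9 / 2 : ℝ) * x ^ (-ε') := by (clear * - hC1 hC2 hh hT1 hL1 hq0 hp e2 e3; gcongr)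
        exact e6
      · have e1 : C2 * (Y / pr i) ^ (-(1 / 2) : ℝ) * (CB * (T ^ (1 / 2 : ℝ) * Real.log T ^ (1 / 2 : ℝ)))
            = C2 * CB * Real.log T ^ (1 / 2 : ℝ) * x ^ (1 / 2 : ℝ) := by
          rw [hcx, Real.rpow_neg (by (clear * - hh hT1 hq0 hp; positivity)), Real.div_rpow hT0.le hx0.le]
          have : 0 < T ^ (1 / 2 : ℝ) := by (clear * - hT1; positivity)
          have : 0 < x ^ (1 / 2 : ℝ) := by (clear * - hh hT1 hq0 hp; positivity)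
          field_simp
        rw [e1] at hB2
        refine hB2.trans ?_
        have e2 : 1 ≤ x ^ (-ε') := Real.one_le_rpow_of_pos_of_le_one_of_nonpos hx0 h1.le (by linarith only [hε'0])
        have e3 : x ^ (1 / 2 : ℝ) ≤ 1 := Real.rpow_le_one hx0.le h1.le (by norm_num)
        have e4 : C2 * CB * Real.log T ^ (1 / 2 : ℝ) * x ^ (1 / 2 : ℝ) ≤ C2 * CB * Real.log T ^ (9 / 2 : ℝ) * 1 := by
          (clear * - hC2 hh hT1 hL1 hq0 hp hLle e3; gcongr)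
        have e5 : C2 * CB * Real.log T ^ (9 / 2 : ℝ) + Real.log T ^ (9 / 2 : ℝ) ≤ K0 * Real.log T ^ (9 / 2 : ℝ) := by
          rw [hK0]
          have : 0 ≤ C1 * CA * Real.log T ^ (9 / 2 : ℝ) := by (clear * - hC1 hL1; positivity)
          linarith only [this]
        have e6 : 0 ≤ K0 * Real.log T ^ (9 / 2 : ℝ) := by (clear * - hC1 hC2 hL1; positivity)
        have e7 := le_mul_of_one_le_right e6 e2
        linarith only [e4, e5, e7, hLge]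
    have hxe : x ^ (-ε') ≤ T ^ (4 * ε') * pr i ^ (-ε') := by
      have e1 : x = pr i * (Y / T)⁻¹ := by rw [hx]; field_simp
      rw [e1, Real.mul_rpow hp0.le (by (clear * - hh hT1 hq0; positivity)), Real.inv_rpow (by (clear * - hh hT1 hq0; positivity)), Real.rpow_neg (by (clear * - hh hT1 hq0; positivity) : 0 ≤ Y / T), inv_inv, mul_comm]
      apply mul_le_mul_of_nonneg_right _ (by (clear * - hp; positivity))
      calc (Y / T) ^ ε' ≤ (T ^ (4 : ℝ)) ^ ε' := Real.rpow_le_rpow (by (clear * - hh hT1 hq0; positivity)) hYT hε'0.le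
        _ = T ^ (4 * ε') := by rw [← Real.rpow_mul hT0.le]
    have hFi : ‖∫ ξ, F i ξ‖ = (pr i)⁻¹ * ‖SI q h i‖ * ‖∫ ξ : ℝ, ker T τ ξ * JJ (-1 / 2) (es i) (zz T ξ * ((Y / pr i : ℝ) : ℂ))‖ := by
      simp only [hF]
      rw [integral_const_mul, norm_mul, norm_mul, hprn]
    rw [hFi, ← hGi]
    have h4 : (pr i)⁻¹ * pr i ^ (-ε') = pr i ^ (-1 - ε') := by
      rw [← Real.rpow_neg_one, ← Real.rpow_add hp0]; ring_nf
    calc (pr i)⁻¹ * ‖SI q h i‖ * ‖∫ ξ : ℝ, ker T τ ξ * JJ (-1 / 2) (es i) (zz T ξ * ((Y / pr i : ℝ) : ℂ))‖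
        ≤ (pr i)⁻¹ * (q * b * (√(Nat.gcd (i.2.1 + 1) q) * √(Nat.gcd (i.2.2.2 + 1) q))) *
          (K0 * Real.log T ^ (9 / 2 : ℝ) * (T ^ (4 * ε') * pr i ^ (-ε'))) := by
          apply mul_le_mul
          · exact mul_le_mul_of_nonneg_left (hSI i) (by (clear * - hp; positivity))
          · exact hmain.trans (mul_le_mul_of_nonneg_left hxe (by (clear * - hC1 hC2 hL1; positivity)))
          · exact norm_nonneg _
          · (clear * - hb hq0 hp; positivity)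
      _ = (K0 * Real.log T ^ (9 / 2 : ℝ) * T ^ (4 * ε') * (q * b)) *
          (((pr i)⁻¹ * pr i ^ (-ε')) * (√(Nat.gcd (i.2.1 + 1) q) * √(Nat.gcd (i.2.2.2 + 1) q))) := by ring
      _ = _ := by rw [h4]
  have hmaj : Summable (fun i : Ix => (K0 * Real.log T ^ (9 / 2 : ℝ) * T ^ (4 * ε') * (q * b)) * (g i.2.1 * (f i.2.2.1 * g i.2.2.2))) :=
    htrip.summable.mul_left _
  have hsn : Summable (fun i : Ix => ‖∫ ξ, F i ξ‖) := Summable.of_nonneg_of_le (fun _ => norm_nonneg _) hbi hmaj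
  refine (norm_tsum_le_tsum_norm hsn).trans ((hsn.tsum_le_tsum hbi hmaj).trans ?_)
  rw [tsum_mul_left, htrip.tsum_eq]
  -- final numerics
  have hdq : (q.divisors.card : ℝ) ≤ Cd * T ^ (ε / 8) := by
    refine (hCd q hq0.ne').trans ?_
    apply mul_le_mul_of_nonneg_left _ (by linarith only [hε'0, hε'2, hCd1])
    calc (q : ℝ) ^ (ε / 16) ≤ (T ^ 2) ^ (ε / 16) := Real.rpow_le_rpow (Nat.cast_nonneg _) hqT (by (clear * - hε; positivity))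
      _ = T ^ (ε / 8) := by
        rw [← Real.rpow_two, ← Real.rpow_mul hT0.le]; congr 1; ring
  have hgsum : ∑' n, g n ≤ Cd * T ^ (ε / 8) * Z := hgb.trans (mul_le_mul_of_nonneg_right hdq hZ0)
  have hgs0 : 0 ≤ ∑' n, g n := tsum_nonneg hg0
  have hfsum : ∑' n, f n = Z := rfl
  rw [hfsum]
  have hCd0 : 0 ≤ Cd := by linarith only [hε'0, hε'2, hCd1]
  have hTT : T ^ (4 * ε') ≤ T ^ (ε / 4) := Real.rpow_le_rpow_of_exponent_le hT1.le (by linarith only [hε'1])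
  have hprod : (∑' n, g n) * (Z * ∑' n, g n) ≤ (Cd * T ^ (ε / 8) * Z) * (Z * (Cd * T ^ (ε / 8) * Z)) :=
    mul_le_mul hgsum (mul_le_mul_of_nonneg_left hgsum hZ0) (mul_nonneg hZ0 hgs0) (by (clear * - hCd1 hT1; positivity))
  calc K0 * Real.log T ^ (9 / 2 : ℝ) * T ^ (4 * ε') * (q * b) * (8 * ((∑' n, g n) * (Z * ∑' n, g n)))
      ≤ K0 * (CL * T ^ (ε / 4)) * T ^ (ε / 4) * (q * b) * (8 * ((Cd * T ^ (ε / 8) * Z) * (Z * (Cd * T ^ (ε / 8) * Z)))) := by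
        have := hCL T hTe
        (clear * - hC1 hC2 hCL0 hb hT1 hq0 hTT hprod this; gcongr)
    _ = K0 * CL * (8 * (Cd ^ 2 * Z ^ 3)) * (T ^ (ε / 4) * T ^ (ε / 4) * T ^ (ε / 8) * T ^ (ε / 8)) * (q * b) := by ring
    _ = K0 * CL * (8 * (Cd ^ 2 * Z ^ 3)) * T ^ (3 * ε / 4) * (q * b) := by
        rw [← Real.rpow_add hT0, ← Real.rpow_add hT0, ← Real.rpow_add hT0]
        congr 3
        ring
    _ ≤ K0 * CL * (8 * (Cd ^ 2 * Z ^ 3)) * T ^ ε * (1 + q * b) := by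
        have e1 : T ^ (3 * ε / 4) ≤ T ^ ε := Real.rpow_le_rpow_of_exponent_le hT1.le (by linarith only [hε'0, hε'1])
        gcongr
        linarith only [hε'0, hε'2]

end S6
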