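import Pool.Agent.Lib.MP_39df77_nt.Part03

section

namespace SG
open Complex MeasureTheory Filter Topology Set
open scoped Real ComplexConjugate

private theorem C2_ex_add (x y : ℝ) : ex (x + y) = ex x * ex y := by
  unfold ex
  rw [← Complex.exp_add]
  congr 1
  push_cast
  ring

private theorem C2_ex_int (n : ℤ) : ex n = 1 := by
  unfold ex
  have h : 2 * (π : ℂ) * I * ((n : ℝ) : ℂ) = n * (2 * π * I) := by
    push_cast
    ring
  rw [h, Complex.exp_int_mul_two_pi_mul_I]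

private theorem C2_ex_pow (x : ℝ) (d : ℕ) : ex (x * d) = ex x ^ d := by
  unfold ex
  rw [← Complex.exp_nat_mul]
  congr 1
  push_cast
  ring

private theorem C2_norm_ex (x : ℝ) : ‖ex x‖ = 1 := by
  unfold ex
  have h : 2 * (π : ℂ) * I * (x : ℂ) = ((2 * π * x : ℝ) : ℂ) * I := by
    push_cast
    ring
  rw [h, Complex.norm_exp_ofReal_mul_I]

private theorem C2_conj_ex (x : ℝ) : conj (ex x) = ex (-x) := by
  unfold ex
  rw [← Complex.exp_conj]
  congr 1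
  simp only [map_mul, Complex.conj_I, Complex.conj_ofReal, map_ofNat]
  push_cast
  ring

private theorem C2_geom (c : ℕ) (hc : 0 < c) (k : ℤ) :
    ∑ d ∈ Finset.range c, ex (k * (d / c)) = if (c : ℤ) ∣ k then (c : ℂ) else 0 := by
  have hcR : (c : ℝ) ≠ 0 := by exact_mod_cast hc.ne'
  have h1 : ∀ d : ℕ, ex ((k : ℝ) * (d / c)) = ex (k / c) ^ d := by
    intro d
    rw [← C2_ex_pow]
    congr 1
    ring
  simp only [h1]
  split_ifs with hk
  · obtain ⟨l, rfl⟩ := hk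
    have h2 : (((c : ℤ) * l : ℤ) : ℝ) / c = ((l : ℤ) : ℝ) := by
      push_cast
      field_simp
    rw [h2, C2_ex_int]
    simp
  · have hne : ex (k / c) ≠ 1 := by
      intro h
      unfold ex at h
      rw [Complex.exp_eq_one_iff] at h
      obtain ⟨n, hn⟩ := h
      have hpi : (2 * (π : ℂ) * I) ≠ 0 := Complex.two_pi_I_ne_zero
      have h3 : ((k / c : ℝ) : ℂ) = n := by
        have : 2 * (π : ℂ) * I * ((k / c : ℝ) : ℂ) = 2 * (π : ℂ) * I * n := by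
          rw [hn]; ring
        exact mul_left_cancel₀ hpi this
      have h4 : (k / c : ℝ) = n := by exact_mod_cast h3
      have h5 : (k : ℝ) = n * c := by
        rw [← h4]; field_simp
      have h6 : k = n * c := by exact_mod_cast h5
      exact hk ⟨n, by rw [h6, mul_comm]⟩
    have h7 : ex (k / c) ^ c = 1 := by
      rw [← C2_ex_pow]
      have : (k : ℝ) / c * c = k := by field_simp
      rw [this, C2_ex_int]
    rw [geom_sum_eq hne, h7, sub_self, zero_div]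

private theorem C2_count (c : ℕ) {K : ℝ} (hK : 0 ≤ K) (F : Finset ℤ)
    (hF : ∀ n ∈ F, |(n : ℝ)| ≤ K) (n : ℤ) :
    ((F.filter (fun m => (c : ℤ) ∣ n - m)).card : ℝ) * c ≤ 2 * K + c := by
  classical
  have hinj : Set.InjOn (fun q : ℤ × ℕ => q.1 + q.2)
      ((F.filter (fun m => (c : ℤ) ∣ n - m)) ×ˢ Finset.range c : Finset (ℤ × ℕ)) := by
    rintro ⟨m, j⟩ hx ⟨m', j'⟩ hy hxy
    simp only [Finset.coe_product, Set.mem_prod, Finset.mem_coe, Finset.mem_filter,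
      Finset.mem_range] at hx hy hxy
    obtain ⟨⟨_, h1⟩, h2⟩ := hx
    obtain ⟨⟨_, h3⟩, h4⟩ := hy
    have h5 : (c : ℤ) ∣ (j : ℤ) - j' := by
      have : (j : ℤ) - j' = (n - m) - (n - m') := by linarith
      rw [this]
      exact dvd_sub h1 h3
    have h6 : (j : ℤ) % c = (j' : ℤ) % c :=
      Int.emod_eq_emod_iff_emod_sub_eq_zero.mpr (Int.emod_eq_zero_of_dvd h5)
    rw [Int.emod_eq_of_lt (by positivity) (by exact_mod_cast h2),
      Int.emod_eq_of_lt (by positivity) (by exact_mod_cast h4)] at h6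
    have h7 : j = j' := by exact_mod_cast h6
    subst h7
    have h8 : m = m' := by linarith
    rw [h8]
  have hsub : ((F.filter (fun m => (c : ℤ) ∣ n - m)) ×ˢ Finset.range c).image
      (fun q : ℤ × ℕ => q.1 + q.2) ⊆ Finset.Ico (-⌊K⌋) (⌊K⌋ + c) := by
    intro x hx
    rw [Finset.mem_image] at hx
    obtain ⟨⟨m, j⟩, hq, rfl⟩ := hx
    rw [Finset.mem_product, Finset.mem_filter, Finset.mem_range] at hq
    obtain ⟨⟨h1, _⟩, h2⟩ := hq
    simp only at h1 h2 ⊢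
    have h3 := abs_le.mp (hF m h1)
    have h4 : m ≤ ⌊K⌋ := Int.le_floor.mpr h3.2
    have h5 : -m ≤ ⌊K⌋ := Int.le_floor.mpr (by push_cast; linarith)
    rw [Finset.mem_Ico]
    constructor
    · have : (0 : ℤ) ≤ j := by positivity
      linarith
    · have : (j : ℤ) < c := by exact_mod_cast h2
      linarith
  have hcard := Finset.card_le_card hsub
  rw [Finset.card_image_of_injOn hinj, Finset.card_product, Finset.card_range, Int.card_Ico] at hcard
  have hfl : 0 ≤ ⌊K⌋ := Int.floor_nonneg.mpr hK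
  have h9 : (((F.filter (fun m => (c : ℤ) ∣ n - m)).card * c : ℕ) : ℤ) ≤ 2 * ⌊K⌋ + c := by
    have h10 : ((⌊K⌋ + c - -⌊K⌋).toNat : ℤ) = 2 * ⌊K⌋ + c := by
      have h0 : (0 : ℤ) ≤ c := by positivity
      rw [Int.toNat_of_nonneg (by linarith)]
      ring
    rw [← h10]
    exact_mod_cast hcard
  have h11 : (((F.filter (fun m => (c : ℤ) ∣ n - m)).card * c : ℕ) : ℝ) ≤ 2 * (⌊K⌋ : ℝ) + c := by
    exact_mod_cast h9
  have h12 := Int.floor_le K
  push_cast at h11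
  linarith

/-- **C2. Orthogonality modulo `c`.** `∑_{d mod c} |∑_n b_n e(n d/c)|² = c ∑_{r mod c} |∑_{n ≡ r} b_n|²`
with `b_n = a_n e(n α)`, and a residue class contains at most `2K/c + 1` integers `|n| ≤ K`. -/
theorem orth (c : ℕ) (hc : 0 < c) {K : ℝ} (hK : 0 ≤ K) (F : Finset ℤ) (hF : ∀ n ∈ F, |(n : ℝ)| ≤ K)
    (a : ℤ → ℂ) (α : ℝ) :
    ∑ d ∈ Finset.range c, ‖∑ n ∈ F, a n * ex (n * (α + d / c))‖ ^ 2 ≤
      (2 * K + c) * ∑ n ∈ F, ‖a n‖ ^ 2 := by
  classical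
  set b : ℤ → ℂ := fun n => a n * ex (n * α) with hb
  have hbn : ∀ n, ‖b n‖ = ‖a n‖ := fun n => by rw [hb]; simp only [norm_mul, C2_norm_ex, mul_one]
  have hS : ∀ d : ℕ, ∑ n ∈ F, a n * ex (n * (α + d / c)) = ∑ n ∈ F, b n * ex (n * (d / c)) := by
    intro d
    refine Finset.sum_congr rfl fun n _ => ?_
    rw [hb]
    simp only
    rw [mul_add, C2_ex_add, mul_assoc]
  have h1 : ((∑ d ∈ Finset.range c, ‖∑ n ∈ F, a n * ex (n * (α + d / c))‖ ^ 2 : ℝ) : ℂ) =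
      ∑ n ∈ F, ∑ m ∈ F, b n * conj (b m) * (if (c : ℤ) ∣ n - m then (c : ℂ) else 0) := by
    push_cast
    have h2 : ∀ d ∈ Finset.range c, ((‖∑ n ∈ F, a n * ex (n * (α + d / c))‖ : ℂ)) ^ 2 =
        ∑ n ∈ F, ∑ m ∈ F, b n * conj (b m) * ex ((n - m : ℤ) * (d / c)) := by
      intro d _
      rw [← Complex.mul_conj', hS, map_sum, Finset.sum_mul_sum]
      refine Finset.sum_congr rfl fun n _ => Finset.sum_congr rfl fun m _ => ?_
      rw [map_mul, C2_conj_ex]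
      have : ((n - m : ℤ) : ℝ) * ((d : ℝ) / c) = n * (d / c) + -(m * (d / c)) := by
        push_cast; ring
      rw [this, C2_ex_add]
      ring
    rw [Finset.sum_congr rfl h2, Finset.sum_comm]
    refine Finset.sum_congr rfl fun n _ => ?_
    rw [Finset.sum_comm]
    refine Finset.sum_congr rfl fun m _ => ?_
    rw [← Finset.mul_sum, C2_geom c hc]
  have h3 : ∑ d ∈ Finset.range c, ‖∑ n ∈ F, a n * ex (n * (α + d / c))‖ ^ 2 ≤
      ∑ n ∈ F, ∑ m ∈ F, ‖a n‖ * ‖a m‖ * (if (c : ℤ) ∣ n - m then (c : ℝ) else 0) := by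
    have h4 : ∑ d ∈ Finset.range c, ‖∑ n ∈ F, a n * ex (n * (α + d / c))‖ ^ 2 =
        ‖((∑ d ∈ Finset.range c, ‖∑ n ∈ F, a n * ex (n * (α + d / c))‖ ^ 2 : ℝ) : ℂ)‖ := by
      rw [Complex.norm_real, Real.norm_of_nonneg]
      exact Finset.sum_nonneg fun d _ => by positivity
    rw [h4, h1]
    refine (norm_sum_le _ _).trans (Finset.sum_le_sum fun n _ => ?_)
    refine (norm_sum_le _ _).trans (Finset.sum_le_sum fun m _ => ?_)
    rw [norm_mul, norm_mul, Complex.norm_conj, hbn, hbn]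
    refine mul_le_mul_of_nonneg_left ?_ (by positivity)
    split_ifs
    · rw [Complex.norm_natCast]
    · rw [norm_zero]
  refine h3.trans ?_
  have h5 : ∑ n ∈ F, ∑ m ∈ F, ‖a n‖ * ‖a m‖ * (if (c : ℤ) ∣ n - m then (c : ℝ) else 0) ≤
      ∑ n ∈ F, ∑ m ∈ F, (‖a n‖ ^ 2 / 2 * (if (c : ℤ) ∣ n - m then (c : ℝ) else 0) +
        ‖a m‖ ^ 2 / 2 * (if (c : ℤ) ∣ n - m then (c : ℝ) else 0)) := by
    refine Finset.sum_le_sum fun n _ => Finset.sum_le_sum fun m _ => ?_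
    rw [← add_mul]
    refine mul_le_mul_of_nonneg_right ?_ (by split_ifs <;> positivity)
    nlinarith [sq_nonneg (‖a n‖ - ‖a m‖)]
  refine h5.trans ?_
  have h6 : ∀ n : ℤ, ∑ m ∈ F, (if (c : ℤ) ∣ n - m then (c : ℝ) else 0) ≤ 2 * K + c := by
    intro n
    rw [← Finset.sum_filter, Finset.sum_const, nsmul_eq_mul]
    exact C2_count c hK F hF n
  have h7 : ∑ n ∈ F, ∑ m ∈ F, ‖a n‖ ^ 2 / 2 * (if (c : ℤ) ∣ n - m then (c : ℝ) else 0) ≤
      (2 * K + c) * ∑ n ∈ F, ‖a n‖ ^ 2 / 2 := by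
    rw [Finset.mul_sum]
    refine Finset.sum_le_sum fun n _ => ?_
    rw [← Finset.mul_sum, mul_comm (2 * K + (c : ℝ))]
    exact mul_le_mul_of_nonneg_left (h6 n) (by positivity)
  have h8 : ∑ n ∈ F, ∑ m ∈ F, ‖a m‖ ^ 2 / 2 * (if (c : ℤ) ∣ n - m then (c : ℝ) else 0) ≤
      (2 * K + c) * ∑ n ∈ F, ‖a n‖ ^ 2 / 2 := by
    rw [Finset.sum_comm]
    refine le_trans (le_of_eq ?_) h7
    refine Finset.sum_congr rfl fun n _ => Finset.sum_congr rfl fun m _ => ?_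
    congr 1
    have h10 : ((c : ℤ) ∣ m - n) ↔ ((c : ℤ) ∣ n - m) := by rw [← neg_sub, dvd_neg]
    simp only [h10]
  simp only [Finset.sum_add_distrib]
  have h9 : ∑ n ∈ F, ‖a n‖ ^ 2 / 2 = (∑ n ∈ F, ‖a n‖ ^ 2) / 2 := by rw [Finset.sum_div]
  rw [h9] at h7 h8
  linarith

end SG

end

section

namespace SG
open Complex MeasureTheory Filter Topology Set
open scoped Real ComplexConjugate

theorem D2a_smeval (a : ℂ) (n : ℕ) :
    (descPochhammer ℤ n).smeval a = ∏ m ∈ Finset.range n, (a - m) := by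
  induction n with
  | zero => simp
  | succ n ih =>
    rw [Finset.prod_range_succ, ← ih, descPochhammer_succ_right]
    simp [Polynomial.smeval_mul, Polynomial.smeval_natCast]

theorem D2a_choose (a : ℂ) (n : ℕ) :
    Ring.choose a n = (∏ m ∈ Finset.range n, (a - m)) / (n.factorial : ℂ) := by
  rw [Ring.choose_eq_smul, D2a_smeval, smul_eq_mul, div_eq_mul_inv, mul_comm]

theorem D2a_binom (a x : ℂ) (hx : ‖x‖ < 1) :
    HasSum (fun n : ℕ => (∏ m ∈ Finset.range n, (a - m)) / (n.factorial : ℂ) * x ^ n) ((1 + x) ^ a) := by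
  have h := (one_add_cpow_hasFPowerSeriesOnBall_zero (a := a)).hasSum (y := x) (by
    rw [← ENNReal.ofReal_one, Metric.eball_ofReal]
    simpa using hx)
  simp only [zero_add] at h
  have e : (fun n : ℕ => (∏ m ∈ Finset.range n, (a - m)) / (n.factorial : ℂ) * x ^ n) =
      fun n => (binomialSeries ℂ a n) fun _ => x := by
    funext n
    rw [binomialSeries_apply, D2a_choose]
    simp
  rw [e]
  exact h

/-- real version with nonnegative terms -/
theorem D2a_real (K x : ℝ) (hx0 : 0 ≤ x) (hx : x < 1) :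
    HasSum (fun n : ℕ => (∏ m ∈ Finset.range n, (K + m)) / (n.factorial : ℝ) * x ^ n) ((1 - x) ^ (-K)) := by
  have h := D2a_binom (-(K : ℂ)) (-(x : ℂ)) (by rw [norm_neg, Complex.norm_real]; rwa [Real.norm_of_nonneg hx0])
  rw [← Complex.hasSum_ofReal]
  have e : (fun n : ℕ => (((∏ m ∈ Finset.range n, (K + m)) / (n.factorial : ℝ) * x ^ n : ℝ) : ℂ)) =
      fun n : ℕ => (∏ m ∈ Finset.range n, (-(K : ℂ) - m)) / (n.factorial : ℂ) * (-(x : ℂ)) ^ n := by
    funext n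
    push_cast
    have h1 : ∀ m ∈ Finset.range n, (-(K : ℂ) - m) = (-1) * ((K : ℂ) + m) := fun m _ => by ring
    rw [Finset.prod_congr rfl h1, Finset.prod_mul_distrib, Finset.prod_const, Finset.card_range,
      neg_pow (x : ℂ)]
    have h2 : ((-1 : ℂ) ^ n) * (-1) ^ n = 1 := by rw [← mul_pow]; simp
    linear_combination (-(∏ m ∈ Finset.range n, ((K : ℂ) + m)) / (n.factorial : ℂ) * x ^ n) * h2
  rw [e, Complex.ofReal_cpow (by linarith)]
  push_cast
  rw [sub_eq_add_neg]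
  exact h

theorem D2a_norm_le (z : ℂ) (X A B : ℝ) (i j l : ℕ) :
    ‖cijl z (i, j, l) * (X : ℂ) ^ i * (A : ℂ) ^ j * (B : ℂ) ^ l‖ ≤
      (∏ m ∈ Finset.range i, ((‖z‖ + j + l) + m)) / (i.factorial : ℝ) * |X| ^ i *
        ((2 * π * |A|) ^ j / (j.factorial : ℝ) * ((2 * π * |B|) ^ l / (l.factorial : ℝ))) := by
  have h1 : ‖(∏ m ∈ Finset.range i, (-z - j - l - m : ℂ))‖ ≤ ∏ m ∈ Finset.range i, ((‖z‖ + j + l) + m) := by
    rw [norm_prod]
    apply Finset.prod_le_prod (fun m _ => norm_nonneg _)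
    intro m _
    have e : (-z - j - l - m : ℂ) = -(z + ((j + l + m : ℕ) : ℂ)) := by push_cast; ring
    rw [e, norm_neg]
    refine (norm_add_le _ _).trans ?_
    rw [Complex.norm_natCast]
    push_cast
    linarith
  have h2 : ‖(-2 * π * I : ℂ)‖ = 2 * π := by
    simp [abs_of_pos Real.pi_pos]
  have h3 : ‖(2 * π * I : ℂ)‖ = 2 * π := by
    simp [abs_of_pos Real.pi_pos]
  unfold cijl
  simp only [norm_mul, norm_div, norm_pow, h2, h3, Complex.norm_real, Real.norm_eq_abs,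
    Complex.norm_natCast]
  calc ‖∏ m ∈ Finset.range i, (-z - j - l - m : ℂ)‖ / (i.factorial : ℝ) * ((2 * π) ^ j / (j.factorial : ℝ)) *
        ((2 * π) ^ l / (l.factorial : ℝ)) * |X| ^ i * |A| ^ j * |B| ^ l
      ≤ (∏ m ∈ Finset.range i, ((‖z‖ + j + l) + m)) / (i.factorial : ℝ) * ((2 * π) ^ j / (j.factorial : ℝ)) *
        ((2 * π) ^ l / (l.factorial : ℝ)) * |X| ^ i * |A| ^ j * |B| ^ l := by gcongr
    _ = _ := by rw [mul_pow (2 * π) |A|, mul_pow (2 * π) |B|]; ring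

theorem D2a_summable (z : ℂ) (X A B : ℝ) (hX : |X| < 1) :
    Summable fun t : (ℕ × ℕ) × ℕ =>
      cijl z (t.2, t.1.1, t.1.2) * (X : ℂ) ^ t.2 * (A : ℂ) ^ t.1.1 * (B : ℂ) ^ t.1.2 := by
  have h0 : 0 < 1 - |X| := by linarith
  have hin : ∀ jl : ℕ × ℕ, HasSum (fun i : ℕ =>
      (∏ m ∈ Finset.range i, ((‖z‖ + jl.1 + jl.2) + m)) / (i.factorial : ℝ) * |X| ^ i *
        ((2 * π * |A|) ^ jl.1 / (jl.1.factorial : ℝ) * ((2 * π * |B|) ^ jl.2 / (jl.2.factorial : ℝ))))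
      ((1 - |X|) ^ (-(‖z‖ + jl.1 + jl.2)) *
        ((2 * π * |A|) ^ jl.1 / (jl.1.factorial : ℝ) * ((2 * π * |B|) ^ jl.2 / (jl.2.factorial : ℝ)))) :=
    fun jl => (D2a_real _ _ (abs_nonneg X) hX).mul_right _
  apply Summable.of_norm_bounded (g := fun t : (ℕ × ℕ) × ℕ =>
      (∏ m ∈ Finset.range t.2, ((‖z‖ + t.1.1 + t.1.2) + m)) / (t.2.factorial : ℝ) * |X| ^ t.2 *
        ((2 * π * |A|) ^ t.1.1 / (t.1.1.factorial : ℝ) *
          ((2 * π * |B|) ^ t.1.2 / (t.1.2.factorial : ℝ)))) _ (fun t => D2a_norm_le z X A B _ _ _)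
  rw [summable_prod_of_nonneg]
  · refine ⟨fun jl => (hin jl).summable, ?_⟩
    have e : (fun jl : ℕ × ℕ => ∑' i : ℕ,
        (∏ m ∈ Finset.range i, ((‖z‖ + jl.1 + jl.2) + m)) / (i.factorial : ℝ) * |X| ^ i *
        ((2 * π * |A|) ^ jl.1 / (jl.1.factorial : ℝ) * ((2 * π * |B|) ^ jl.2 / (jl.2.factorial : ℝ)))) =
        fun jl : ℕ × ℕ => (1 - |X|) ^ (-‖z‖) * (((2 * π * |A| / (1 - |X|)) ^ jl.1 / (jl.1.factorial : ℝ)) *
          ((2 * π * |B| / (1 - |X|)) ^ jl.2 / (jl.2.factorial : ℝ))) := by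
      funext jl
      rw [(hin jl).tsum_eq]
      have : (1 - |X|) ^ (-(‖z‖ + jl.1 + jl.2)) =
          (1 - |X|) ^ (-‖z‖) * (((1 - |X|) ^ jl.1)⁻¹ * ((1 - |X|) ^ jl.2)⁻¹) := by
        rw [neg_add, neg_add, Real.rpow_add h0, Real.rpow_add h0, Real.rpow_neg h0.le (jl.1 : ℝ),
          Real.rpow_neg h0.le (jl.2 : ℝ), Real.rpow_natCast, Real.rpow_natCast, mul_assoc]
      rw [this, div_pow, div_pow]
      ring
    change Summable (fun jl : ℕ × ℕ => ∑' i : ℕ,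
        (∏ m ∈ Finset.range i, ((‖z‖ + jl.1 + jl.2) + m)) / (i.factorial : ℝ) * |X| ^ i *
        ((2 * π * |A|) ^ jl.1 / (jl.1.factorial : ℝ) * ((2 * π * |B|) ^ jl.2 / (jl.2.factorial : ℝ))))
    rw [e]
    apply Summable.mul_left
    exact (Real.summable_pow_div_factorial _).mul_of_nonneg (Real.summable_pow_div_factorial _)
      (fun n => by positivity) (fun n => by positivity)
  · intro t
    have : 0 ≤ ∏ m ∈ Finset.range t.2, ((‖z‖ + t.1.1 + t.1.2) + m) :=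
      Finset.prod_nonneg fun m _ => by positivity
    positivity

/-- **D2a.** `exp(-2πi(A-B)/(1+X)) (1+X)^{-z} = ∑_{j,l} (-2πiA)^j (2πiB)^l/(j! l!) (1+X)^{-z-j-l}` and the
binomial series `(1+X)^{-w} = ∑_i (-w)(-w-1)...(-w-i+1)/i! X^i`, `|X| < 1` (Mathlib: binomial series /
`Complex.one_add_cpow_hasFPowerSeriesOnBall_zero` or `Ring.choose`; otherwise by the differential equation). Note
`cijl z t = ∏_{m<i} (-(z+j+l) - m)/i! · (-2πi)^j/j! · (2πi)^l/l!`. Use `sep_summable` (D2b) to combine the sums. -/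
theorem sep_expand (z : ℂ) (X A B : ℝ) (hX : |X| < 1) :
    HasSum (fun t : ℕ × ℕ × ℕ => cijl z t * (X : ℂ) ^ t.1 * (A : ℂ) ^ t.2.1 * (B : ℂ) ^ t.2.2)
      (((1 + X : ℝ) : ℂ) ^ (-z) * ex (-((A - B) / (1 + X)))) := by
  have hX' : ‖(X : ℂ)‖ < 1 := by rwa [Complex.norm_real, Real.norm_eq_abs]
  have h1X : 0 < 1 + X := by
    have := (abs_lt.mp hX).1
    linarith
  have hne : ((1 + X : ℝ) : ℂ) ≠ 0 := by exact_mod_cast h1X.ne'
  have hS := D2a_summable z X A B hX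
  -- inner sums
  have hin : ∀ jl : ℕ × ℕ, HasSum (fun i : ℕ =>
      cijl z (i, jl.1, jl.2) * (X : ℂ) ^ i * (A : ℂ) ^ jl.1 * (B : ℂ) ^ jl.2)
      (((1 + X : ℝ) : ℂ) ^ (-z) * ((-2 * π * I * A / ((1 + X : ℝ) : ℂ)) ^ jl.1 / (jl.1.factorial : ℂ) *
        ((2 * π * I * B / ((1 + X : ℝ) : ℂ)) ^ jl.2 / (jl.2.factorial : ℂ)))) := by
    intro jl
    have h := (D2a_binom (-z - jl.1 - jl.2) X hX').mul_right
      ((-2 * π * I) ^ jl.1 / (jl.1.factorial : ℂ) * ((2 * π * I) ^ jl.2 / (jl.2.factorial : ℂ)) *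
        (A : ℂ) ^ jl.1 * (B : ℂ) ^ jl.2)
    have e1 : (1 + (X : ℂ)) ^ (-z - jl.1 - jl.2) *
        ((-2 * π * I) ^ jl.1 / (jl.1.factorial : ℂ) * ((2 * π * I) ^ jl.2 / (jl.2.factorial : ℂ)) *
        (A : ℂ) ^ jl.1 * (B : ℂ) ^ jl.2) =
        (((1 + X : ℝ) : ℂ) ^ (-z) * ((-2 * π * I * A / ((1 + X : ℝ) : ℂ)) ^ jl.1 / (jl.1.factorial : ℂ) *
        ((2 * π * I * B / ((1 + X : ℝ) : ℂ)) ^ jl.2 / (jl.2.factorial : ℂ)))) := by
      have e2 : (1 + (X : ℂ)) = ((1 + X : ℝ) : ℂ) := by push_cast; rfl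
      rw [e2, Complex.cpow_sub _ _ hne, Complex.cpow_sub _ _ hne, Complex.cpow_natCast,
        Complex.cpow_natCast, div_pow, div_pow, mul_pow _ (A : ℂ), mul_pow _ (B : ℂ)]
      field_simp
    rw [e1] at h
    have e3 : (fun i : ℕ => cijl z (i, jl.1, jl.2) * (X : ℂ) ^ i * (A : ℂ) ^ jl.1 * (B : ℂ) ^ jl.2) =
        fun i : ℕ => (∏ m ∈ Finset.range i, (-z - jl.1 - jl.2 - m)) / (i.factorial : ℂ) * (X : ℂ) ^ i *
          ((-2 * π * I) ^ jl.1 / (jl.1.factorial : ℂ) * ((2 * π * I) ^ jl.2 / (jl.2.factorial : ℂ)) *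
        (A : ℂ) ^ jl.1 * (B : ℂ) ^ jl.2) := by
      funext i
      simp only [cijl]
      ring
    rw [e3]
    exact h
  -- the outer sum
  have hexp : ∀ w : ℂ, HasSum (fun n : ℕ => w ^ n / (n.factorial : ℂ)) (cexp w) := by
    intro w
    rw [Complex.exp_eq_exp_ℂ]
    exact NormedSpace.expSeries_div_hasSum_exp w
  have hexpn : ∀ w : ℂ, Summable (fun n : ℕ => ‖w ^ n / (n.factorial : ℂ)‖) := by
    intro w
    simp only [norm_div, norm_pow, Complex.norm_natCast]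
    exact Real.summable_pow_div_factorial _
  have hout : HasSum (fun jl : ℕ × ℕ => ((1 + X : ℝ) : ℂ) ^ (-z) *
      ((-2 * π * I * A / ((1 + X : ℝ) : ℂ)) ^ jl.1 / (jl.1.factorial : ℂ) *
        ((2 * π * I * B / ((1 + X : ℝ) : ℂ)) ^ jl.2 / (jl.2.factorial : ℂ))))
      (((1 + X : ℝ) : ℂ) ^ (-z) * ex (-((A - B) / (1 + X)))) := by
    have hs : ∀ w w' : ℂ, Summable fun x : ℕ × ℕ => w ^ x.1 / (x.1.factorial : ℂ) *
        (w' ^ x.2 / (x.2.factorial : ℂ)) := fun w w' =>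
      summable_mul_of_summable_norm (f := fun n : ℕ => w ^ n / (n.factorial : ℂ))
        (g := fun n : ℕ => w' ^ n / (n.factorial : ℂ)) (hexpn w) (hexpn w')
    have hm : ∀ w w' : ℂ, HasSum (fun x : ℕ × ℕ => w ^ x.1 / (x.1.factorial : ℂ) *
        (w' ^ x.2 / (x.2.factorial : ℂ))) (cexp w * cexp w') := by
      intro w w'
      have h0 := tsum_mul_tsum_of_summable_norm (f := fun n : ℕ => w ^ n / (n.factorial : ℂ))
        (g := fun n : ℕ => w' ^ n / (n.factorial : ℂ)) (hexpn w) (hexpn w')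
      rw [(hexp w).tsum_eq, (hexp w').tsum_eq] at h0
      rw [h0]
      exact (hs w w').hasSum
    have h1 := hm (-2 * π * I * A / ((1 + X : ℝ) : ℂ)) (2 * π * I * B / ((1 + X : ℝ) : ℂ))
    have h2 : ex (-((A - B) / (1 + X))) =
        cexp (-2 * π * I * A / ((1 + X : ℝ) : ℂ)) * cexp (2 * π * I * B / ((1 + X : ℝ) : ℂ)) := by
      rw [ex, ← Complex.exp_add]
      congr 1
      have hne' : (1 + (X : ℂ)) ≠ 0 := by
        have := hne
        push_cast at this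
        exact this
      push_cast
      field_simp
      ring
    rw [h2]
    exact h1.mul_left _
  have hG := hS.hasSum
  have huniq := (hG.prod_fiberwise hin).unique hout
  rw [huniq] at hG
  have hfun : (fun t : ℕ × ℕ × ℕ => cijl z t * (X : ℂ) ^ t.1 * (A : ℂ) ^ t.2.1 * (B : ℂ) ^ t.2.2) =
      (fun t : (ℕ × ℕ) × ℕ =>
        cijl z (t.2, t.1.1, t.1.2) * (X : ℂ) ^ t.2 * (A : ℂ) ^ t.1.1 * (B : ℂ) ^ t.1.2) ∘
        (Equiv.prodComm ℕ (ℕ × ℕ)) := by
    funext t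
    rfl
  rw [hfun]
  exact (Equiv.prodComm ℕ (ℕ × ℕ)).hasSum_iff.mpr hG

end SG

end
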