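import Pool.Agent.Lib.MP_39df77_nt.S6Defs
import Pool.Agent.Lib.MP_39df77_nt.Part03
import Pool.Agent.Lib.MP_39df77_nt.Part07
import Pool.Agent.Lib.MP_39df77_nt.Part09
import Pool.Agent.Lib.MP_39df77_nt.Part10
import Pool.Agent.Lib.MP_39df77_nt.Part11

section

/-! Row S6-DD_left: functional equation of `DD` -/

namespace S6
open Complex MeasureTheory Filter Topology Set
open scoped Real ComplexConjugate

/-- the terms of one factor -/
noncomputable def dlf (q : ℕ) [NeZero q] (s : ℂ) (a : ZMod q) (p : Bool × ℕ) : ℂ :=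
  cexp (-(π * I * (1 - s) * sg p.1 / 2)) * ((p.2 + 1 : ℕ) : ℂ) ^ (s - 1) *
    ZMod.stdAddChar ((((sg p.1 * (p.2 + 1 : ℕ) : ℤ)) : ZMod q) * a)

theorem dl_exp (q : ℕ) [NeZero q] (a : ZMod q) {w : ℂ} (hw : 1 < w.re) (e : ℤ) :
    HasSum (fun n : ℕ => ((n + 1 : ℕ) : ℂ) ^ (-w) * ZMod.stdAddChar (((e * (n + 1 : ℕ) : ℤ) : ZMod q) * a))
      (HurwitzZeta.expZeta (ZMod.toAddCircle ((e : ZMod q) * a)) w) := by
  set b : ZMod q := (e : ZMod q) * a with hb
  have h1 := HurwitzZeta.hasSum_expZeta_of_one_lt_re ((b.val : ℝ) / q) hw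
  have e1 : (((b.val : ℝ) / q : ℝ) : UnitAddCircle) = ZMod.toAddCircle b := (ZMod.toAddCircle_apply b).symm
  rw [e1] at h1
  have h0 : cexp (2 * π * I * ((b.val : ℝ) / q : ℝ) * ((0 : ℕ) : ℂ)) / ((0 : ℕ) : ℂ) ^ w = 0 := by
    rw [Nat.cast_zero, Complex.zero_cpow (by rintro rfl; simp at hw; linarith), div_zero]
  have h2 := (hasSum_nat_add_iff' (f := fun n : ℕ => cexp (2 * π * I * ((b.val : ℝ) / q : ℝ) * n) / (n : ℂ) ^ w) 1).mpr h1
  rw [Finset.sum_range_one, h0, sub_zero] at h2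
  convert! h2 using 1
  ext n
  have h3 : ZMod.stdAddChar (((e * (n + 1 : ℕ) : ℤ) : ZMod q) * a)
      = cexp (2 * π * I * ((b.val : ℝ) / q : ℝ) * ((n + 1 : ℕ) : ℂ)) := by
    have h4 : (((e * (n + 1 : ℕ) : ℤ) : ZMod q) * a) = (((b.val * (n + 1 : ℕ) : ℤ)) : ZMod q) := by
      push_cast
      rw [ZMod.natCast_zmod_val, hb]
      ring
    rw [h4, ZMod.stdAddChar_coe]
    congr 1
    push_cast
    ring
  rw [h3, Complex.cpow_neg, mul_comm]
  exact (div_eq_mul_inv _ _).symm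

theorem dl_hurwitz (q : ℕ) [NeZero q] (a : ZMod q) {s : ℂ} (hs : s.re < 0) :
    Summable (fun p : Bool × ℕ => ‖dlf q s a p‖) ∧
    HurwitzZeta.hurwitzZeta (ZMod.toAddCircle a) s =
      ((2 * π) ^ (s - 1) * Gamma (1 - s)) * ∑' p : Bool × ℕ, dlf q s a p := by
  have hw : 1 < (1 - s).re := by rw [sub_re, one_re]; linarith
  have hexp : ∀ b : Bool, HasSum (fun n : ℕ => dlf q s a (b, n))
      (cexp (-(π * I * (1 - s) * sg b / 2)) * HurwitzZeta.expZeta (ZMod.toAddCircle ((sg b : ZMod q) * a)) (1 - s)) := by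
    intro b
    have h1 := (dl_exp q a hw (sg b)).mul_left (cexp (-(π * I * (1 - s) * sg b / 2)))
    convert! h1 using 1
    ext n
    unfold dlf
    rw [neg_sub]
    ring
  have hsum : Summable (fun p : Bool × ℕ => ‖dlf q s a p‖) := by
    have hn : ∀ b : Bool, Summable (fun n : ℕ => ‖dlf q s a (b, n)‖) := fun b => (hexp b).summable.norm
    rw [summable_prod_of_nonneg (fun _ => norm_nonneg _)]
    exact ⟨hn, Summable.of_finite⟩
  refine ⟨hsum, ?_⟩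
  have htot : ∑' p : Bool × ℕ, dlf q s a p
      = cexp (-(π * I * (1 - s) * 1 / 2)) * HurwitzZeta.expZeta (ZMod.toAddCircle a) (1 - s)
        + cexp (-(π * I * (1 - s) * (-1) / 2)) * HurwitzZeta.expZeta (ZMod.toAddCircle (-a)) (1 - s) := by
    rw [hsum.of_norm.tsum_prod' (fun b => (hexp b).summable), tsum_bool, (hexp false).tsum_eq, (hexp true).tsum_eq]
    simp only [sg]
    push_cast
    simp only [one_mul, neg_mul]
    ring
  have hfe := HurwitzZeta.hurwitzZeta_one_sub (ZMod.toAddCircle a) (s := 1 - s)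
    (by
      intro n h
      have := congrArg Complex.re h
      simp at this
      have hn : (0 : ℝ) ≤ n := Nat.cast_nonneg n
      linarith)
    (Or.inr (by
      intro h
      have := congrArg Complex.re h
      simp at this
      linarith))
  rw [sub_sub_cancel, ← map_neg] at hfe
  rw [hfe, htot, neg_sub]
  congr 2
  · congr 2
    ring
  · congr 2
    ring

/-- reindexing -/
def dlE : Ix ≃ ((Bool × ℕ) × ((Bool × ℕ) × (Bool × ℕ))) where
  toFun i := ((i.1.1, i.2.1), ((i.1.2.1, i.2.2.1), (i.1.2.2, i.2.2.2)))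
  invFun p := ((p.1.1, p.2.1.1, p.2.2.1), (p.1.2, p.2.1.2, p.2.2.2))
  left_inv _ := rfl
  right_inv _ := rfl

theorem dl_reS (g : (Bool × ℕ) × ((Bool × ℕ) × (Bool × ℕ)) → ℝ) (hg : Summable g) :
    Summable (fun i : Ix => g (dlE i)) := dlE.summable_iff.mpr hg

theorem dl_reT (g : (Bool × ℕ) × ((Bool × ℕ) × (Bool × ℕ)) → ℂ) :
    ∑' i : Ix, g (dlE i) = ∑' p, g p := dlE.tsum_eq g

theorem dl_tri (fa fb fc : Bool × ℕ → ℂ) (ha : Summable fun p => ‖fa p‖) (hb : Summable fun p => ‖fb p‖)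
    (hc : Summable fun p => ‖fc p‖) :
    Summable (fun i : Ix => ‖fa (dlE i).1 * (fb (dlE i).2.1 * fc (dlE i).2.2)‖) ∧
    ∑' i : Ix, fa (dlE i).1 * (fb (dlE i).2.1 * fc (dlE i).2.2)
        = (∑' p, fa p) * ((∑' p, fb p) * (∑' p, fc p)) := by
  obtain ⟨g, hg⟩ : ∃ g : (Bool × ℕ) × (Bool × ℕ) → ℂ, ∀ p, g p = fb p.1 * fc p.2 := ⟨_, fun _ => rfl⟩
  have h1 : Summable (fun p : (Bool × ℕ) × (Bool × ℕ) => ‖g p‖) := by
    have := hb.mul_norm hc
    simpa only [hg] using this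
  obtain ⟨k, hk⟩ : ∃ k : (Bool × ℕ) × ((Bool × ℕ) × (Bool × ℕ)) → ℂ, ∀ p, k p = fa p.1 * g p.2 := ⟨_, fun _ => rfl⟩
  have h2 : Summable (fun p : (Bool × ℕ) × ((Bool × ℕ) × (Bool × ℕ)) => ‖k p‖) := by
    have := ha.mul_norm h1
    simpa only [hk] using this
  have e1 : ∀ i : Ix, fa (dlE i).1 * (fb (dlE i).2.1 * fc (dlE i).2.2) = k (dlE i) := by
    intro i; rw [hk, hg]
  simp only [e1]
  refine ⟨dl_reS _ h2, ?_⟩
  rw [dl_reT, tsum_mul_tsum_of_summable_norm hb hc]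
  have e2 : ∑' p : (Bool × ℕ) × (Bool × ℕ), fb p.1 * fc p.2 = ∑' p, g p := tsum_congr fun p => (hg p).symm
  rw [e2, tsum_mul_tsum_of_summable_norm ha h1]
  exact tsum_congr fun p => hk p

/-- **D6.** -/
theorem DD_left (q : ℕ) [NeZero q] (h : ZMod q) {s : ℂ} (hs : s.re < 0) :
    (Summable fun i : Ix => ‖cexp (-(π * I * (1 - s) * es i / 2)) * (pr i : ℂ) ^ (s - 1) * SI q h i‖) ∧
    DD q h s = (q : ℂ) ^ (-(3 * s)) * ((2 * π) ^ (s - 1) * Gamma (1 - s)) ^ 3 *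
      ∑' i : Ix, cexp (-(π * I * (1 - s) * es i / 2)) * (pr i : ℂ) ^ (s - 1) * SI q h i := by
  classical
  have hH := fun a => dl_hurwitz q a hs
  set K : ℂ := (2 * π) ^ (s - 1) * Gamma (1 - s) with hK
  -- triple products
  have htri := fun a b c : ZMod q => dl_tri (dlf q s a) (dlf q s b) (dlf q s c) (hH a).1 (hH b).1 (hH c).1
  -- the term
  have hterm : ∀ i : Ix, cexp (-(π * I * (1 - s) * es i / 2)) * (pr i : ℂ) ^ (s - 1) * SI q h i
      = ∑ a : ZMod q, ∑ b : ZMod q, ∑ c : ZMod q, ZMod.stdAddChar (-(h * a * b * c)) *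
          (dlf q s a (dlE i).1 * (dlf q s b (dlE i).2.1 * dlf q s c (dlE i).2.2)) := by
    intro i
    have hp : (pr i : ℂ) ^ (s - 1) = ((i.2.1 + 1 : ℕ) : ℂ) ^ (s - 1) * (((i.2.2.1 + 1 : ℕ) : ℂ) ^ (s - 1)
        * ((i.2.2.2 + 1 : ℕ) : ℂ) ^ (s - 1)) := by
      unfold pr
      rw [Complex.ofReal_mul, Complex.ofReal_mul, mul_assoc]
      rw [← Complex.ofReal_mul, Complex.mul_cpow_ofReal_nonneg (by positivity) (by positivity),
        Complex.ofReal_mul, Complex.mul_cpow_ofReal_nonneg (by positivity) (by positivity)]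
      push_cast
      rfl
    have he : cexp (-(π * I * (1 - s) * es i / 2)) = cexp (-(π * I * (1 - s) * sg i.1.1 / 2))
        * (cexp (-(π * I * (1 - s) * sg i.1.2.1 / 2)) * cexp (-(π * I * (1 - s) * sg i.1.2.2 / 2))) := by
      rw [← Complex.exp_add, ← Complex.exp_add]
      congr 1
      unfold es
      push_cast
      ring
    rw [hp, he]
    unfold SI SS
    simp_rw [Finset.mul_sum]
    refine Finset.sum_congr rfl fun a _ => Finset.sum_congr rfl fun b _ => Finset.sum_congr rfl fun c _ => ?_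
    simp only [AddChar.map_add_eq_mul]
    simp only [dlf, dlE, Equiv.coe_fn_mk]
    ring
  have hsn : Summable fun i : Ix => ‖cexp (-(π * I * (1 - s) * es i / 2)) * (pr i : ℂ) ^ (s - 1) * SI q h i‖ := by
    have hbd : Summable (fun i : Ix => ∑ a : ZMod q, ∑ b : ZMod q, ∑ c : ZMod q,
        ‖dlf q s a (dlE i).1 * (dlf q s b (dlE i).2.1 * dlf q s c (dlE i).2.2)‖) :=
      summable_sum fun a _ => summable_sum fun b _ => summable_sum fun c _ => (htri a b c).1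
    refine Summable.of_nonneg_of_le (fun _ => norm_nonneg _) (fun i => ?_) hbd
    rw [hterm]
    refine (norm_sum_le _ _).trans (Finset.sum_le_sum fun a _ => ?_)
    refine (norm_sum_le _ _).trans (Finset.sum_le_sum fun b _ => ?_)
    refine (norm_sum_le _ _).trans (Finset.sum_le_sum fun c _ => ?_)
    rw [norm_mul, AddChar.norm_apply, one_mul]
  refine ⟨hsn, ?_⟩
  unfold DD
  have hsumeq : ∑' i : Ix, cexp (-(π * I * (1 - s) * es i / 2)) * (pr i : ℂ) ^ (s - 1) * SI q h i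
      = ∑ a : ZMod q, ∑ b : ZMod q, ∑ c : ZMod q, ZMod.stdAddChar (-(h * a * b * c)) *
          ((∑' p, dlf q s a p) * ((∑' p, dlf q s b p) * (∑' p, dlf q s c p))) := by
    rw [tsum_congr hterm]
    have hs3 : ∀ a b c : ZMod q, Summable (fun i : Ix => ZMod.stdAddChar (-(h * a * b * c)) *
          (dlf q s a (dlE i).1 * (dlf q s b (dlE i).2.1 * dlf q s c (dlE i).2.2))) :=
      fun a b c => (htri a b c).1.of_norm.mul_left _
    rw [Summable.tsum_finsetSum (fun a _ => summable_sum fun b _ => summable_sum fun c _ => hs3 a b c)]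
    refine Finset.sum_congr rfl fun a _ => ?_
    rw [Summable.tsum_finsetSum (fun b _ => summable_sum fun c _ => hs3 a b c)]
    refine Finset.sum_congr rfl fun b _ => ?_
    rw [Summable.tsum_finsetSum (fun c _ => hs3 a b c)]
    refine Finset.sum_congr rfl fun c _ => ?_
    rw [tsum_mul_left, (htri a b c).2]
  rw [hsumeq, mul_assoc]
  congr 1
  rw [Finset.mul_sum]
  refine Finset.sum_congr rfl fun a _ => ?_
  rw [Finset.mul_sum]
  refine Finset.sum_congr rfl fun b _ => ?_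
  rw [Finset.mul_sum]
  refine Finset.sum_congr rfl fun c _ => ?_
  rw [(hH a).2, (hH b).2, (hH c).2]
  ring

end S6

end

section

/-! The cross term `QB nuB (GG Ψ) l` (row S6-QB_GG). -/

namespace S6
open Complex MeasureTheory Filter Topology Set
open scoped Real ComplexConjugate

namespace Q44


instance : SFinite m0 := by unfold m0; infer_instance
instance : IsFiniteMeasureOnCompacts m0 := by unfold m0; infer_instance

theorem ae_m0 : ∀ᵐ x ∂m0, (0:ℝ) ≤ x := by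
  unfold m0; exact ae_restrict_mem measurableSet_Ici

theorem ae_fst {α β : Type*} [MeasurableSpace α] [MeasurableSpace β] {μ : Measure α}
    {ν : Measure β} [SFinite μ] [SFinite ν] {p : α → Prop} (h : ∀ᵐ x ∂μ, p x) :
    ∀ᵐ z ∂(μ.prod ν), p z.1 :=
  (Measure.quasiMeasurePreserving_fst (μ := μ) (ν := ν)).ae h

theorem ae_snd {α β : Type*} [MeasurableSpace α] [MeasurableSpace β] {μ : Measure α}
    {ν : Measure β} [SFinite μ] [SFinite ν] {p : β → Prop} (h : ∀ᵐ x ∂ν, p x) :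
    ∀ᵐ z ∂(μ.prod ν), p z.2 :=
  (Measure.quasiMeasurePreserving_snd (μ := μ) (ν := ν)).ae h

theorem ae_m0m0 : ∀ᵐ t ∂(m0.prod m0), (0:ℝ) ≤ t.1 ∧ 0 ≤ t.2 := by
  filter_upwards [ae_fst (ν := m0) ae_m0, ae_snd (μ := m0) ae_m0] with t h1 h2
  exact ⟨h1, h2⟩

theorem integ_box {α : Type*} [MeasurableSpace α] {μ : Measure α} {B : Set α}
    (hB : MeasurableSet B) (hμ : μ B ≠ ⊤) {f : α → ℝ} (hf : AEStronglyMeasurable f μ) {M : ℝ}
    (hM : ∀ x, ‖f x‖ ≤ M) (h0 : ∀ᵐ x ∂μ, x ∉ B → f x = 0) : Integrable f μ := by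
  have h1 : IntegrableOn f B μ := Measure.integrableOn_of_bounded hμ hf (Eventually.of_forall hM)
  have h2 : Integrable (B.indicator f) μ := (integrable_indicator_iff hB).2 h1
  refine h2.congr ?_
  filter_upwards [h0] with x hx
  by_cases hxB : x ∈ B
  · simp [hxB]
  · simp [hxB, hx hxB]

theorem integ_cont {α : Type*} [TopologicalSpace α] [T2Space α] [MeasurableSpace α]
    [OpensMeasurableSpace α]
    {μ : Measure α} [IsFiniteMeasureOnCompacts μ] {B : Set α}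
    (hB : IsCompact B) {f : α → ℝ} (hf : ContinuousOn f B)
    (h0 : ∀ᵐ x ∂μ, x ∉ B → f x = 0) : Integrable f μ := by
  have h1 : IntegrableOn f B μ := hf.integrableOn_compact hB
  have h2 : Integrable (B.indicator f) μ := (integrable_indicator_iff hB.measurableSet).2 h1
  refine h2.congr ?_
  filter_upwards [h0] with x hx
  by_cases hxB : x ∈ B
  · simp [hxB]
  · simp [hxB, hx hxB]


/-! ### directional derivatives -/

theorem Dv_contDiff {n m : WithTop ℕ∞} {f : ℝ × ℝ × ℝ → ℝ} (hf : ContDiff ℝ n f)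
    (hmn : m + 1 ≤ n) (v : ℝ × ℝ × ℝ) : ContDiff ℝ m (Dv v f) := by
  unfold Dv
  exact (hf.fderiv_right hmn).clm_apply contDiff_const

theorem tsupport_Dv (f : ℝ × ℝ × ℝ → ℝ) (v : ℝ × ℝ × ℝ) : tsupport (Dv v f) ⊆ tsupport f := by
  refine closure_minimal ?_ (isClosed_tsupport f)
  intro x hx
  apply tsupport_fderiv_subset ℝ (f := f)
  apply subset_tsupport
  intro h
  apply hx
  change fderiv ℝ f x v = 0
  rw [h]; rfl

theorem Dv_hcs {f : ℝ × ℝ × ℝ → ℝ} (hfc : HasCompactSupport f) (v : ℝ × ℝ × ℝ) :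
    HasCompactSupport (Dv v f) :=
  hfc.of_isClosed_subset (isClosed_tsupport _) (tsupport_Dv f v)

theorem line_int {h : ℝ × ℝ × ℝ → ℝ} (hh : ContDiff ℝ 1 h) (hc : HasCompactSupport h)
    {v : ℝ × ℝ × ℝ} (hv : v ≠ 0) (x : ℝ × ℝ × ℝ) :
    ∫ s : ℝ, Dv v h (x + s • v) ∂m0 = - h x := by
  have hemb : Topology.IsClosedEmbedding (fun s : ℝ => x + s • v) :=
    (Homeomorph.addLeft x).isClosedEmbedding.comp (isClosedEmbedding_smul_left hv)
  have hφc : HasCompactSupport (fun s : ℝ => h (x + s • v)) := hc.comp_isClosedEmbedding hemb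
  have hφ : ContDiff ℝ 1 (fun s : ℝ => h (x + s • v)) := by
    refine hh.comp ?_
    fun_prop
  have hd : ∀ s : ℝ, deriv (fun s : ℝ => h (x + s • v)) s = Dv v h (x + s • v) := by
    intro s
    have h1 : HasDerivAt (fun s : ℝ => x + s • v) v s := by
      have := ((hasDerivAt_id s).smul_const v).const_add x
      simpa using this
    have h2 : HasFDerivAt h (fderiv ℝ h (x + s • v)) (x + s • v) :=
      ((hh.differentiable one_ne_zero) _).hasFDerivAt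
    exact (h2.comp_hasDerivAt s h1).deriv
  have := hφc.integral_Ioi_deriv_eq hφ 0
  simp only [hd, zero_smul, add_zero] at this
  unfold m0
  rw [integral_Ici_eq_integral_Ioi, this]

theorem kill2_aux {f : ℝ × ℝ × ℝ → ℝ} (hf : ContDiff ℝ 2 f) (hfc : HasCompactSupport f)
    (x : ℝ × ℝ × ℝ) :
    ∫ s : ℝ × ℝ, Dv (1, 0, 1) (Dv (0, 1, 1) f) (x.1 + s.1, x.2.1 + s.2, x.2.2 + s.1 + s.2)
      ∂(m0.prod m0) = f x := by
  have h1 : ContDiff ℝ 1 (Dv (0, 1, 1) f) := Dv_contDiff hf (by norm_num) _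
  have h0 : ContDiff ℝ 0 (Dv (1, 0, 1) (Dv (0, 1, 1) f)) := Dv_contDiff h1 (by norm_num) _
  have hc1 := Dv_hcs hfc (0, 1, 1)
  have hc0 := Dv_hcs hc1 (1, 0, 1)
  have hcs : HasCompactSupport (fun s : ℝ × ℝ =>
      Dv (1, 0, 1) (Dv (0, 1, 1) f) (x.1 + s.1, x.2.1 + s.2, x.2.2 + s.1 + s.2)) := by
    obtain ⟨R, hR⟩ := hc0.isCompact.isBounded.subset_closedBall 0
    refine HasCompactSupport.intro
      (isCompact_Icc (a := ((-R - x.1 : ℝ), (-R - x.2.1 : ℝ))) (b := (R - x.1, R - x.2.1))) ?_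
    intro s hs
    by_contra hne
    have hm := hR (subset_tsupport _ hne)
    rw [mem_closedBall_zero_iff] at hm
    apply hs
    have ha : |x.1 + s.1| ≤ R := by
      have := (norm_fst_le _).trans hm
      simpa using this
    have hb : |x.2.1 + s.2| ≤ R := by
      have := ((norm_fst_le _).trans (norm_snd_le _)).trans hm
      simpa using this
    rw [abs_le] at ha hb
    refine ⟨⟨?_, ?_⟩, ⟨?_, ?_⟩⟩ <;> dsimp only <;> linarith [ha.1, ha.2, hb.1, hb.2]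
  have hcont : Continuous (fun s : ℝ × ℝ =>
      Dv (1, 0, 1) (Dv (0, 1, 1) f) (x.1 + s.1, x.2.1 + s.2, x.2.2 + s.1 + s.2)) :=
    h0.continuous.comp (by fun_prop)
  rw [integral_prod_symm _ (hcont.integrable_of_hasCompactSupport hcs)]
  have hin : ∀ t : ℝ, ∫ s : ℝ, Dv (1, 0, 1) (Dv (0, 1, 1) f)
      (x.1 + s, x.2.1 + t, x.2.2 + s + t) ∂m0 = - Dv (0, 1, 1) f (x + t • (0, 1, 1)) := by
    intro t
    have := line_int h1 hc1 (v := (1, 0, 1)) (by simp) (x + t • (0, 1, 1))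
    rw [← this]
    congr 1
    funext s
    congr 1
    ext <;> simp
    ring
  simp only [hin]
  rw [integral_neg, line_int (hf.of_le (by norm_num)) hfc (by simp) x, neg_neg]



theorem inner_area {α β p : ℝ} :
    ∫ q : ℝ, (if 2 * p + q ≤ α ∧ p + 2 * q ≤ β then (1 : ℝ) else 0) ∂m0 =
      max (min (α - 2 * p) ((β - p) / 2)) 0 := by
  have h1 : (fun q : ℝ => (if 2 * p + q ≤ α ∧ p + 2 * q ≤ β then (1 : ℝ) else 0)) =
      (Iic (min (α - 2 * p) ((β - p) / 2))).indicator (fun _ => (1:ℝ)) := by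
    funext q
    by_cases h : 2 * p + q ≤ α ∧ p + 2 * q ≤ β
    · have : q ∈ Iic (min (α - 2 * p) ((β - p) / 2)) := by
        rw [mem_Iic, le_min_iff]; constructor <;> linarith [h.1, h.2]
      rw [if_pos h, indicator_of_mem this]
    · have : q ∉ Iic (min (α - 2 * p) ((β - p) / 2)) := by
        intro hq
        rw [mem_Iic, le_min_iff] at hq
        exact h ⟨by linarith [hq.1], by linarith [hq.2]⟩
      rw [if_neg h, indicator_of_notMem this]
  rw [h1, integral_indicator_const _ measurableSet_Iic]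
  unfold m0
  rw [measureReal_restrict_apply measurableSet_Iic, Iic_inter_Ici, measureReal_def, Real.volume_Icc,
    sub_zero, ENNReal.toReal_ofReal', smul_eq_mul, mul_one]

theorem area_aux {α β : ℝ} (h1 : α ≤ 2 * β) (h2 : β ≤ 2 * α) (h0 : 0 ≤ α) (h0' : 0 ≤ β) :
    ∫ t : ℝ × ℝ, (if 2 * t.1 + t.2 ≤ α ∧ t.1 + 2 * t.2 ≤ β then (1 : ℝ) else 0) ∂(m0.prod m0) =
      (4 * α * β - α ^ 2 - β ^ 2) / 12 := by
  have hint : Integrable (fun t : ℝ × ℝ =>
      (if 2 * t.1 + t.2 ≤ α ∧ t.1 + 2 * t.2 ≤ β then (1 : ℝ) else 0)) (m0.prod m0) := by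
    refine integ_box (B := Icc ((0:ℝ), (0:ℝ)) (α, α)) measurableSet_Icc
      isCompact_Icc.measure_lt_top.ne ?_ (M := 1) ?_ ?_
    · refine (Measurable.ite ?_ measurable_const measurable_const).aestronglyMeasurable
      exact (measurableSet_le (f := fun t : ℝ × ℝ => 2 * t.1 + t.2) (g := fun _ => α)
          (by fun_prop) (by fun_prop)).inter
        (measurableSet_le (f := fun t : ℝ × ℝ => t.1 + 2 * t.2) (g := fun _ => β)
          (by fun_prop) (by fun_prop))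
    · intro t; split_ifs <;> simp
    · filter_upwards [ae_m0m0] with t ht hB
      rw [if_neg]
      intro h
      apply hB
      refine ⟨⟨ht.1, ht.2⟩, ⟨?_, ?_⟩⟩
      · dsimp only; linarith [h.1, h.2, ht.1, ht.2]
      · dsimp only; linarith [h.1, h.2, ht.1, ht.2]
  rw [integral_prod _ hint]
  simp only [inner_area]
  have hp0 : 0 ≤ (2 * α - β) / 3 := by linarith
  have hp1 : (2 * α - β) / 3 ≤ α / 2 := by linarith
  have e1 : ∫ p : ℝ, max (min (α - 2 * p) ((β - p) / 2)) 0 ∂m0 =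
      ∫ p in (0:ℝ)..(α/2), min (α - 2 * p) ((β - p) / 2) := by
    unfold m0
    rw [intervalIntegral.integral_of_le (by linarith), ← integral_Icc_eq_integral_Ioc,
      ← integral_indicator measurableSet_Ici, ← integral_indicator measurableSet_Icc]
    congr 1
    funext p
    by_cases hp : 0 ≤ p
    · rw [indicator_of_mem (show p ∈ Ici 0 from hp)]
      by_cases hp' : p ≤ α / 2
      · rw [indicator_of_mem (show p ∈ Icc 0 (α/2) from ⟨hp, hp'⟩)]
        exact max_eq_left (le_min (by linarith) (by linarith))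
      · rw [indicator_of_notMem (show p ∉ Icc 0 (α / 2) from fun h => hp' h.2)]
        push Not at hp'
        exact max_eq_right ((min_le_left _ _).trans (by linarith))
    · rw [indicator_of_notMem (show p ∉ Ici 0 from hp),
        indicator_of_notMem (show p ∉ Icc 0 (α / 2) from fun h => hp h.1)]
  rw [e1]
  have hc : Continuous (fun p : ℝ => min (α - 2 * p) ((β - p) / 2)) := by fun_prop
  rw [← intervalIntegral.integral_add_adjacent_intervals (b := (2 * α - β) / 3)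
    (hc.intervalIntegrable _ _) (hc.intervalIntegrable _ _)]
  have e2 : ∫ p in (0:ℝ)..((2 * α - β) / 3), min (α - 2 * p) ((β - p) / 2) =
      ∫ p in (0:ℝ)..((2 * α - β) / 3), (β / 2 - p / 2) := by
    refine intervalIntegral.integral_congr ?_
    intro p hp
    rw [uIcc_of_le hp0] at hp
    dsimp only
    rw [min_eq_right (by linarith [hp.2])]; ring
  have e3 : ∫ p in ((2 * α - β) / 3)..(α/2), min (α - 2 * p) ((β - p) / 2) =
      ∫ p in ((2 * α - β) / 3)..(α/2), (α - 2 * p) := by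
    refine intervalIntegral.integral_congr ?_
    intro p hp
    rw [uIcc_of_le hp1] at hp
    dsimp only
    rw [min_eq_left (by linarith [hp.1])]
  rw [e2, e3]
  rw [intervalIntegral.integral_sub (Continuous.intervalIntegrable (by fun_prop) _ _)
      (Continuous.intervalIntegrable (by fun_prop) _ _),
    intervalIntegral.integral_sub (Continuous.intervalIntegrable (by fun_prop) _ _)
      (Continuous.intervalIntegrable (by fun_prop) _ _)]
  have e4 : ∫ p in ((2 * α - β) / 3)..(α/2), (2:ℝ) * p =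
      2 * (((α/2)^2 - ((2 * α - β) / 3)^2)/2) := by
    rw [intervalIntegral.integral_const_mul, integral_id]
  rw [e4]
  simp only [intervalIntegral.integral_const, intervalIntegral.integral_div,
    integral_id, smul_eq_mul]
  ring


theorem conv {F : ℝ → ℝ → ℝ}
    (hF : Integrable (fun t : ℝ × ℝ => F (t.1 + t.2) t.1) (m0.prod m0)) :
    ∫ t : ℝ × ℝ, F (t.1 + t.2) t.1 ∂(m0.prod m0) = ∫ x : ℝ, (∫ u in (0:ℝ)..x, F x u) ∂m0 := by
  set S : Set (ℝ × ℝ) := {p | 0 ≤ p.1 ∧ p.1 ≤ p.2} with hS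
  have hSm : MeasurableSet S :=
    (measurableSet_le (f := fun _ : ℝ × ℝ => (0:ℝ)) (g := fun p => p.1)
        (by fun_prop) (by fun_prop)).inter
      (measurableSet_le (f := fun p : ℝ × ℝ => p.1) (g := fun p => p.2)
        (by fun_prop) (by fun_prop))
  set G : ℝ × ℝ → ℝ := fun p => F p.2 p.1 with hG
  have hmp : MeasurePreserving (MeasurableEquiv.shearAddRight ℝ)
      ((volume : Measure ℝ).prod volume) ((volume : Measure ℝ).prod volume) :=
    measurePreserving_prod_add volume volume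
  have hemb : MeasurableEmbedding (MeasurableEquiv.shearAddRight ℝ) :=
    (MeasurableEquiv.shearAddRight ℝ).measurableEmbedding
  have hpre : (MeasurableEquiv.shearAddRight ℝ) ⁻¹' S = Ici (0:ℝ) ×ˢ Ici (0:ℝ) := by
    ext p
    have h1 : (MeasurableEquiv.shearAddRight ℝ) p = (p.1, p.1 + p.2) := rfl
    simp only [mem_preimage, h1, hS, mem_ofPred_eq, mem_prod, mem_Ici]
    constructor
    · rintro ⟨a, b⟩; exact ⟨a, by linarith⟩
    · rintro ⟨a, b⟩; exact ⟨a, by linarith⟩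
  have hm : m0.prod m0 = ((volume : Measure ℝ).prod volume).restrict
      ((MeasurableEquiv.shearAddRight ℝ) ⁻¹' S) := by
    rw [hpre]; unfold m0; rw [Measure.prod_restrict]
  have hcomp : (fun t : ℝ × ℝ => F (t.1 + t.2) t.1) =
      fun t => G ((MeasurableEquiv.shearAddRight ℝ) t) := rfl
  rw [hcomp, hm] at hF ⊢
  rw [hmp.setIntegral_preimage_emb hemb G S]
  have hGi : IntegrableOn G S ((volume : Measure ℝ).prod volume) :=
    (hmp.integrableOn_comp_preimage hemb).1 hF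
  rw [← integral_indicator hSm, integral_prod_symm _ ((integrable_indicator_iff hSm).2 hGi)]
  unfold m0
  rw [← integral_indicator measurableSet_Ici]
  congr 1
  funext x
  by_cases hx : 0 ≤ x
  · rw [indicator_of_mem (show x ∈ Ici 0 from hx), intervalIntegral.integral_of_le hx,
      ← integral_Icc_eq_integral_Ioc, ← integral_indicator measurableSet_Icc]
    congr 1
  · rw [indicator_of_notMem (show x ∉ Ici 0 from hx)]
    have : (fun u : ℝ => S.indicator G (u, x)) = fun _ => 0 := by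
      funext u
      rw [indicator_of_notMem]
      intro h
      exact hx (h.1.trans h.2)
    rw [this, integral_zero]


theorem poly2 (c0 c1 c2 x : ℝ) :
    ∫ u in (0:ℝ)..x, (c0 + c1 * u + c2 * u ^ 2) = c0 * x + c1 * x ^ 2 / 2 + c2 * x ^ 3 / 3 := by
  rw [intervalIntegral.integral_add (Continuous.intervalIntegrable (by fun_prop) _ _)
    (Continuous.intervalIntegrable (by fun_prop) _ _),
    intervalIntegral.integral_add (Continuous.intervalIntegrable (by fun_prop) _ _)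
    (Continuous.intervalIntegrable (by fun_prop) _ _)]
  rw [intervalIntegral.integral_const_mul, intervalIntegral.integral_const_mul, integral_id,
    integral_pow, intervalIntegral.integral_const]
  simp
  ring

/-- `Φ(α, β)` -/
noncomputable def Ph (α β : ℝ) : ℝ := (4 * α * β - α ^ 2 - β ^ 2) / 12

/-- the inner integral over one pair -/
noncomputable def K1 (A p q x : ℝ) : ℝ :=
  (6 * ((A - p) * (A - q - x)) - ((A - p) + (A - q - x)) ^ 2) / 12 * x +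
    ((A - p) - (A - q - x)) / 2 * x ^ 2 / 2 + (-1 / 2) * x ^ 3 / 3

noncomputable def KK (A x y : ℝ) : ℝ := x * y * (2 * A ^ 2 - 2 * A * (x + y) + x * y) / 12

theorem K1_eq (A p q x : ℝ) :
    ∫ v in (0:ℝ)..x, Ph (A - p - v) (A - q - (x - v)) = K1 A p q x := by
  have : (fun v : ℝ => Ph (A - p - v) (A - q - (x - v))) = fun v =>
      (6 * ((A - p) * (A - q - x)) - ((A - p) + (A - q - x)) ^ 2) / 12 +
      ((A - p) - (A - q - x)) / 2 * v + (-1 / 2) * v ^ 2 := by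
    funext v; unfold Ph; ring
  rw [this, poly2]
  unfold K1
  ring

theorem KK_eq (A x y : ℝ) :
    ∫ u in (0:ℝ)..x, K1 A u (x - u) y = KK A x y := by
  have : (fun u : ℝ => K1 A u (x - u) y) = fun u =>
      (y * (6 * A * (A - (x + y)) - (2 * A - (x + y)) ^ 2) / 12 + (x + y) * y ^ 2 / 4 - y ^ 3 / 6) +
      (y * (x + y) / 2 - y ^ 2 / 2) * u + (- y / 2) * u ^ 2 := by
    funext u; unfold K1; ring
  rw [this, poly2]
  unfold KK
  ring

theorem Ph_cont {X : Type*} [TopologicalSpace X] {f g : X → ℝ} (hf : Continuous f)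
    (hg : Continuous g) : Continuous (fun x => Ph (f x) (g x)) := by
  unfold Ph; fun_prop

theorem K1_cont {X : Type*} [TopologicalSpace X] {A f g h : X → ℝ} (hA : Continuous A)
    (hf : Continuous f) (hg : Continuous g) (hh : Continuous h) :
    Continuous (fun x => K1 (A x) (f x) (g x) (h x)) := by
  unfold K1; fun_prop

theorem conv2 {φ : ℝ → ℝ → ℝ} (hφ : Continuous (Function.uncurry φ))
    (h0 : ∀ x y, 0 ≤ x → 0 ≤ y → φ x y ≠ 0 → x ≤ 1 ∧ y ≤ 1) (A : ℝ) :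
    ∫ b : ℝ × ℝ, ∫ d : ℝ × ℝ, φ (b.1 + b.2) (d.1 + d.2) * Ph (A - b.1 - d.1) (A - b.2 - d.2)
      ∂(m0.prod m0) ∂(m0.prod m0) = ∫ y : ℝ, ∫ x : ℝ, φ x y * KK A x y ∂m0 ∂m0 := by
  have hc2 : ∀ {X : Type} [TopologicalSpace X] {f g : X → ℝ}, Continuous f → Continuous g →
      Continuous (fun x => φ (f x) (g x)) := by
    intro X _ f g hf hg
    exact hφ.comp (hf.prodMk hg)
  -- step 1
  have s1 : ∀ᵐ b ∂(m0.prod m0), ∫ d : ℝ × ℝ,
      φ (b.1 + b.2) (d.1 + d.2) * Ph (A - b.1 - d.1) (A - b.2 - d.2) ∂(m0.prod m0) =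
      ∫ y : ℝ, φ (b.1 + b.2) y * K1 A b.1 b.2 y ∂m0 := by
    filter_upwards [ae_m0m0] with b hb
    have e : (fun d : ℝ × ℝ =>
        φ (b.1 + b.2) (d.1 + d.2) * Ph (A - b.1 - d.1) (A - b.2 - d.2)) =
        fun d => (fun y v => φ (b.1 + b.2) y * Ph (A - b.1 - v) (A - b.2 - (y - v)))
          (d.1 + d.2) d.1 := by
      funext d; dsimp only; congr 2; ring
    rw [e, conv (F := fun y v => φ (b.1 + b.2) y * Ph (A - b.1 - v) (A - b.2 - (y - v)))]
    · congr 1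
      funext y
      rw [intervalIntegral.integral_const_mul, K1_eq]
    · refine integ_cont (B := Icc ((0:ℝ), (0:ℝ)) (1, 1)) isCompact_Icc
        (Continuous.continuousOn ?_) ?_
      · exact (hc2 (by fun_prop) (by fun_prop)).mul (Ph_cont (by fun_prop) (by fun_prop))
      · filter_upwards [ae_m0m0] with t ht hB
        by_contra hne
        have := (h0 _ _ (by linarith [hb.1, hb.2]) (by linarith [ht.1, ht.2])
          (left_ne_zero_of_mul hne)).2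
        apply hB
        refine ⟨⟨ht.1, ht.2⟩, ⟨?_, ?_⟩⟩ <;> dsimp only <;> linarith [ht.1, ht.2]
  rw [integral_congr_ae s1]
  rw [integral_integral_swap]
  · refine integral_congr_ae ?_
    filter_upwards [ae_m0] with y hy
    have e : (fun b : ℝ × ℝ => φ (b.1 + b.2) y * K1 A b.1 b.2 y) =
        fun b => (fun x u => φ x y * K1 A u (x - u) y) (b.1 + b.2) b.1 := by
      funext b; dsimp only; congr 2; ring
    rw [e, conv (F := fun x u => φ x y * K1 A u (x - u) y)]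
    · congr 1
      funext x
      rw [intervalIntegral.integral_const_mul, KK_eq]
    · refine integ_cont (B := Icc ((0:ℝ), (0:ℝ)) (1, 1)) isCompact_Icc
        (Continuous.continuousOn ?_) ?_
      · exact (hc2 (by fun_prop) (by fun_prop)).mul
          (K1_cont (by fun_prop) (by fun_prop) (by fun_prop) (by fun_prop))
      · filter_upwards [ae_m0m0] with t ht hB
        by_contra hne
        have := (h0 _ _ (by linarith [ht.1, ht.2]) hy (left_ne_zero_of_mul hne)).1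
        apply hB
        refine ⟨⟨ht.1, ht.2⟩, ⟨?_, ?_⟩⟩ <;> dsimp only <;> linarith [ht.1, ht.2]
  · refine integ_cont (B := Icc (((0:ℝ), (0:ℝ)), (0:ℝ)) ((1, 1), 1)) isCompact_Icc
        (Continuous.continuousOn ?_) ?_
    · exact (hc2 (by fun_prop) (by fun_prop)).mul
            (K1_cont (by fun_prop) (by fun_prop) (by fun_prop) (by fun_prop))
    · filter_upwards [ae_fst ae_m0m0, ae_snd ae_m0] with t ht1 ht2 hB
      by_contra hne
      have := (h0 _ _ (by linarith [ht1.1, ht1.2]) ht2 (left_ne_zero_of_mul hne))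
      apply hB
      refine ⟨⟨⟨ht1.1, ht1.2⟩, ht2⟩, ⟨⟨?_, ?_⟩, ?_⟩⟩ <;> dsimp only <;>
        linarith [ht1.1, ht1.2, this.1, this.2]


/-! ### integration by parts -/

theorem dirK (l : ℝ) (p : ℝ × ℝ × ℝ) :
    DifferentiableAt ℝ (fun p : ℝ × ℝ × ℝ => KK (l - p.2.2) p.1 p.2.1) p ∧
    fderiv ℝ (fun p : ℝ × ℝ × ℝ => KK (l - p.2.2) p.1 p.2.1) p (1, -1, 0) =
      -((p.1 - p.2.1) * (l - p.2.2 - p.1) * (l - p.2.2 - p.2.1) / 6) := by
  have hd : DifferentiableAt ℝ (fun p : ℝ × ℝ × ℝ => KK (l - p.2.2) p.1 p.2.1) p := by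
    unfold KK; fun_prop
  refine ⟨hd, ?_⟩
  have h1 : HasDerivAt (fun s : ℝ => p + s • ((1, -1, 0) : ℝ × ℝ × ℝ)) (1, -1, 0) 0 := by
    have := ((hasDerivAt_id (0:ℝ)).smul_const ((1, -1, 0) : ℝ × ℝ × ℝ)).const_add p
    simpa using this
  have h2 : HasFDerivAt (fun p : ℝ × ℝ × ℝ => KK (l - p.2.2) p.1 p.2.1)
      (fderiv ℝ (fun p : ℝ × ℝ × ℝ => KK (l - p.2.2) p.1 p.2.1) p)
      (p + (0:ℝ) • ((1, -1, 0) : ℝ × ℝ × ℝ)) := by
    rw [zero_smul, add_zero]; exact hd.hasFDerivAt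
  have h3 := h2.comp_hasDerivAt (0:ℝ) h1
  have h4 : HasDerivAt (fun s : ℝ => KK (l - p.2.2) (p.1 + s) (p.2.1 - s))
      (-((p.1 - p.2.1) * (l - p.2.2 - p.1) * (l - p.2.2 - p.2.1) / 6)) 0 := by
    have a1 : HasDerivAt (fun s : ℝ => p.1 + s) 1 0 := (hasDerivAt_id' (0:ℝ)).const_add _
    have a2 : HasDerivAt (fun s : ℝ => p.2.1 - s) (-1) 0 := (hasDerivAt_id' (0:ℝ)).const_sub _
    have a3 := a1.mul a2
    have a4 := (a3.mul ((((a1.add a2).const_mul (2 * (l - p.2.2))).const_sub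
      (2 * (l - p.2.2) ^ 2)).add a3)).div_const 12
    refine a4.congr_deriv ?_ |>.congr_of_eventuallyEq ?_
    · simp only [Pi.mul_apply, Pi.add_apply]
      ring
    · refine Eventually.of_forall fun s => ?_
      simp only [KK, Pi.mul_apply, Pi.add_apply]
  have h5 : (fun s : ℝ => KK (l - p.2.2) (p.1 + s) (p.2.1 - s)) =
      (fun p : ℝ × ℝ × ℝ => KK (l - p.2.2) p.1 p.2.1) ∘
        (fun s : ℝ => p + s • ((1, -1, 0) : ℝ × ℝ × ℝ)) := by
    funext s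
    simp [sub_eq_add_neg]
  rw [h5] at h4
  exact h3.unique h4

theorem ibp {Ψ : ℝ × ℝ × ℝ → ℝ} (hΨ : ContDiff ℝ 1 Ψ) (hc : HasCompactSupport Ψ) (l : ℝ) :
    ∫ p : ℝ × ℝ × ℝ, Dv (1, -1, 0) Ψ p * KK (l - p.2.2) p.1 p.2.1 =
      ∫ p : ℝ × ℝ × ℝ, Ψ p * ((p.1 - p.2.1) * (l - p.2.2 - p.1) * (l - p.2.2 - p.2.1) / 6) := by
  have hK : Continuous (fun p : ℝ × ℝ × ℝ => KK (l - p.2.2) p.1 p.2.1) := by
    unfold KK; fun_prop
  have hf : Continuous (Dv (1, -1, 0) Ψ) := (Dv_contDiff (m := 0) hΨ (by norm_num) _).continuous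
  have hP : Continuous (fun p : ℝ × ℝ × ℝ =>
      -((p.1 - p.2.1) * (l - p.2.2 - p.1) * (l - p.2.2 - p.2.1) / 6)) := by fun_prop
  have : (volume : Measure (ℝ × ℝ × ℝ)).IsAddHaarMeasure := by
    have h2 : ((volume : Measure ℝ).prod (volume : Measure ℝ)).IsAddHaarMeasure := inferInstance
    have h3 : ((volume : Measure ℝ).prod
        ((volume : Measure ℝ).prod (volume : Measure ℝ))).IsAddHaarMeasure :=
      inferInstance
    exact h3
  have h := integral_mul_fderiv_eq_neg_fderiv_mul_of_integrable (μ := (volume : Measure (ℝ × ℝ × ℝ)))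
    (f := fun p : ℝ × ℝ × ℝ => KK (l - p.2.2) p.1 p.2.1) (g := Ψ) (v := (1, -1, 0)) ?_ ?_ ?_ ?_ ?_
  · have e1 : ∫ p : ℝ × ℝ × ℝ, Dv (1, -1, 0) Ψ p * KK (l - p.2.2) p.1 p.2.1 =
        ∫ p : ℝ × ℝ × ℝ, KK (l - p.2.2) p.1 p.2.1 * fderiv ℝ Ψ p (1, -1, 0) := by
      congr 1; funext p; unfold Dv; ring
    rw [e1, h, ← integral_neg]
    congr 1
    funext p
    rw [(dirK l p).2]; ring
  · simp only [(dirK l _).2]
    exact (hP.mul hΨ.continuous).integrable_of_hasCompactSupport (hc.mul_left)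
  · exact (hK.mul hf).integrable_of_hasCompactSupport ((Dv_hcs hc _).mul_left)
  · exact (hK.mul hΨ.continuous).integrable_of_hasCompactSupport (hc.mul_left)
  · exact fun p _ => (dirK l p).1
  · exact fun p _ => (hΨ.differentiable one_ne_zero) p

theorem int_m0 {H : ℝ × ℝ × ℝ → ℝ} (h : ∀ p, H p ≠ 0 → 0 ≤ p.1 ∧ 0 ≤ p.2.1 ∧ 0 ≤ p.2.2) :
    ∫ p, H p = ∫ p, H p ∂(m0.prod (m0.prod m0)) := by
  have : m0.prod (m0.prod m0) = (volume : Measure (ℝ × ℝ × ℝ)).restrict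
      (Ici (0:ℝ) ×ˢ (Ici (0:ℝ) ×ˢ Ici (0:ℝ))) := by
    unfold m0; rw [Measure.prod_restrict, Measure.prod_restrict]; rfl
  rw [this]
  symm
  apply setIntegral_eq_integral_of_forall_compl_eq_zero
  intro p hp
  by_contra hne
  exact hp ⟨(h p hne).1, (h p hne).2.1, (h p hne).2.2⟩



/-- outer measure of `OB` -/
noncomputable def mO : Measure ((ℝ × ℝ) × (ℝ × ℝ) × (ℝ × ℝ × ℝ)) :=
  (m0.prod m0).prod ((m0.prod m0).prod (m0.prod (m0.prod m0)))

instance : SFinite mO := by unfold mO; infer_instance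
instance : IsFiniteMeasureOnCompacts mO := by unfold mO; infer_instance

theorem ae_mO : ∀ᵐ a ∂mO, (0 ≤ a.1.1 ∧ 0 ≤ a.1.2) ∧ (0 ≤ a.2.1.1 ∧ 0 ≤ a.2.1.2) ∧
    0 ≤ a.2.2.1 ∧ (0 ≤ a.2.2.2.1 ∧ 0 ≤ a.2.2.2.2) := by
  unfold mO
  have h1 : ∀ᵐ a ∂((m0.prod m0).prod ((m0.prod m0).prod (m0.prod (m0.prod m0)))),
      (0 ≤ a.1.1 ∧ 0 ≤ a.1.2) := ae_fst ae_m0m0
  have h2 : ∀ᵐ a ∂((m0.prod m0).prod ((m0.prod m0).prod (m0.prod (m0.prod m0)))),
      (0 ≤ a.2.1.1 ∧ 0 ≤ a.2.1.2) := ae_snd (ae_fst ae_m0m0)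
  have h3 : ∀ᵐ a ∂((m0.prod m0).prod ((m0.prod m0).prod (m0.prod (m0.prod m0)))),
      0 ≤ a.2.2.1 := ae_snd (ae_snd (ae_fst ae_m0))
  have h4 : ∀ᵐ a ∂((m0.prod m0).prod ((m0.prod m0).prod (m0.prod (m0.prod m0)))),
      (0 ≤ a.2.2.2.1 ∧ 0 ≤ a.2.2.2.2) := ae_snd (ae_snd (ae_snd ae_m0m0))
  filter_upwards [h1, h2, h3, h4] with a a1 a2 a3 a4
  exact ⟨a1, a2, a3, a4⟩

theorem support_facts {Ψ : ℝ × ℝ × ℝ → ℝ}
    (hs : ∀ p, Ψ p ≠ 0 → 0 < p.2.1 ∧ p.2.1 < p.1 ∧ 0 < p.2.2 ∧ p.1 + p.2.1 + p.2.2 < 1) :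
    ∀ p ∈ tsupport Ψ, 0 ≤ p.2.1 ∧ p.2.1 ≤ p.1 ∧ 0 ≤ p.2.2 ∧ p.1 + p.2.1 + p.2.2 ≤ 1 := by
  have hcl : IsClosed {p : ℝ × ℝ × ℝ | 0 ≤ p.2.1 ∧ p.2.1 ≤ p.1 ∧ 0 ≤ p.2.2 ∧
      p.1 + p.2.1 + p.2.2 ≤ 1} := by
    refine (isClosed_le (f := fun _ : ℝ × ℝ × ℝ => (0:ℝ)) (g := fun p => p.2.1)
        (by fun_prop) (by fun_prop)).inter
      ((isClosed_le (f := fun p : ℝ × ℝ × ℝ => p.2.1) (g := fun p => p.1)
        (by fun_prop) (by fun_prop)).inter
      ((isClosed_le (f := fun _ : ℝ × ℝ × ℝ => (0:ℝ)) (g := fun p => p.2.2)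
        (by fun_prop) (by fun_prop)).inter
      (isClosed_le (f := fun p : ℝ × ℝ × ℝ => p.1 + p.2.1 + p.2.2) (g := fun _ => (1:ℝ))
        (by fun_prop) (by fun_prop))))
  intro p hp
  have := closure_minimal (s := Function.support Ψ) (fun q hq => ?_) hcl hp
  · exact this
  · obtain ⟨a, b, c, d⟩ := hs q hq
    exact ⟨a.le, b.le, c.le, d.le⟩

theorem cond_iff {l : ℝ} {b d : ℝ × ℝ} {y : ℝ} {q : ℝ × ℝ} :
    (max (b.1 + d.1 + q.1) (b.2 + d.2 + q.2) + (y + q.1 + q.2) ≤ l) ↔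
    (2 * q.1 + q.2 ≤ l - y - b.1 - d.1 ∧ q.1 + 2 * q.2 ≤ l - y - b.2 - d.2) := by
  constructor
  · intro h
    have h1 := le_max_left (b.1 + d.1 + q.1) (b.2 + d.2 + q.2)
    have h2 := le_max_right (b.1 + d.1 + q.1) (b.2 + d.2 + q.2)
    constructor <;> linarith
  · rintro ⟨h1, h2⟩
    have : max (b.1 + d.1 + q.1) (b.2 + d.2 + q.2) ≤ l - (y + q.1 + q.2) :=
      max_le (by linarith) (by linarith)
    linarith

theorem QB_GG_aux {Ψ : ℝ × ℝ × ℝ → ℝ} (hΨ : ContDiff ℝ 3 Ψ) (hc : HasCompactSupport Ψ)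
    (hs : ∀ p, Ψ p ≠ 0 → 0 < p.2.1 ∧ p.2.1 < p.1 ∧ 0 < p.2.2 ∧ p.1 + p.2.1 + p.2.2 < 1)
    {l : ℝ} (hl : 3 ≤ l) :
    QB nuB (GG Ψ) l = ∫ p : ℝ × ℝ × ℝ,
      Ψ p * ((p.1 - p.2.1) * (l - p.2.2 - p.1) * (l - p.2.2 - p.2.1) / 2) := by
  set f : ℝ × ℝ × ℝ → ℝ := Dv (1, -1, 0) Ψ with hfdef
  have hf2 : ContDiff ℝ 2 f := Dv_contDiff hΨ (by norm_num) _
  have hfc : HasCompactSupport f := Dv_hcs hc _
  have hf1 : ContDiff ℝ 1 (Dv (0, 1, 1) f) := Dv_contDiff hf2 (by norm_num) _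
  have hG0 : Continuous (GG Ψ) := (Dv_contDiff (m := 0) hf1 (by norm_num) _).continuous
  have hGc : HasCompactSupport (GG Ψ) := Dv_hcs (Dv_hcs hfc _) _
  have hfs : ∀ p, f p ≠ 0 → 0 ≤ p.2.1 ∧ p.2.1 ≤ p.1 ∧ 0 ≤ p.2.2 ∧ p.1 + p.2.1 + p.2.2 ≤ 1 := by
    intro p hp
    exact support_facts hs p (tsupport_Dv _ _ (subset_tsupport _ hp))
  have hGs : ∀ p, GG Ψ p ≠ 0 →
      0 ≤ p.2.1 ∧ p.2.1 ≤ p.1 ∧ 0 ≤ p.2.2 ∧ p.1 + p.2.1 + p.2.2 ≤ 1 := by
    intro p hp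
    exact support_facts hs p (tsupport_Dv _ _ (tsupport_Dv _ _ (tsupport_Dv _ _
      (subset_tsupport _ hp))))
  have hfcont : Continuous f := hf2.continuous
  obtain ⟨M, hM⟩ : ∃ M, ∀ p, ‖GG Ψ p‖ ≤ M := hG0.bounded_above_of_compact_support hGc
  have hM0 : 0 ≤ M := (norm_nonneg _).trans (hM 0)
  -- the integrand on `OB`
  set F : OB → ℝ := fun t => GG Ψ (t.2.1 + t.1.1.1 + t.1.1.2, t.2.2 + t.1.2.1.1 + t.1.2.1.2,
      t.2.1 + t.2.2 + t.1.2.2.1) *
    (if max (t.1.1.1 + t.1.2.1.1 + t.1.2.2.2.1) (t.1.1.2 + t.1.2.1.2 + t.1.2.2.2.2) +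
      (t.1.2.2.1 + t.1.2.2.2.1 + t.1.2.2.2.2) ≤ l then 1 else 0) with hF
  have hFm : Measurable F := by
    refine Measurable.mul ?_ (Measurable.ite ?_ measurable_const measurable_const)
    · exact hG0.measurable.comp (by fun_prop)
    · exact measurableSet_le (f := fun t : OB =>
        max (t.1.1.1 + t.1.2.1.1 + t.1.2.2.2.1) (t.1.1.2 + t.1.2.1.2 + t.1.2.2.2.2) +
        (t.1.2.2.1 + t.1.2.2.2.1 + t.1.2.2.2.2)) (g := fun _ => l) (by fun_prop) (by fun_prop)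
  have hQB : QB nuB (GG Ψ) l = 3 * ∫ t, F t ∂(mO.prod (m0.prod m0)) := by
    unfold QB nuB
    rw [integral_map]
    · rfl
    · have : Continuous mapB := by unfold mapB; fun_prop
      exact this.measurable.aemeasurable
    · refine Measurable.aestronglyMeasurable (Measurable.mul ?_
        (Measurable.ite ?_ measurable_const measurable_const))
      · exact hG0.measurable.comp (by fun_prop)
      · unfold ell
        exact measurableSet_le (by fun_prop) (by fun_prop)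
  have hFi : Integrable F (mO.prod (m0.prod m0)) := by
    refine integ_box (B := Icc ((((((0:ℝ), (0:ℝ)), ((0:ℝ), (0:ℝ)), ((0:ℝ), (0:ℝ), (0:ℝ))),
      ((0:ℝ), (0:ℝ)))) : OB) (((l, l), (l, l), (l, l, l)), (l, l))) measurableSet_Icc
      isCompact_Icc.measure_lt_top.ne hFm.aestronglyMeasurable (M := M) ?_ ?_
    · intro t
      simp only [hF]
      split_ifs
      · rw [mul_one]; exact hM _
      · simpa using hM0
    · filter_upwards [ae_fst (ν := m0.prod m0) ae_mO, ae_snd (μ := mO) ae_m0m0] with t h1 h2 hB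
      by_contra hne
      have g1 := hGs _ (left_ne_zero_of_mul hne)
      have g2 : max (t.1.1.1 + t.1.2.1.1 + t.1.2.2.2.1) (t.1.1.2 + t.1.2.1.2 + t.1.2.2.2.2) +
          (t.1.2.2.1 + t.1.2.2.2.1 + t.1.2.2.2.2) ≤ l := by
        by_contra h
        apply hne
        simp only [hF, if_neg h, mul_zero]
      have g3 := le_max_left (t.1.1.1 + t.1.2.1.1 + t.1.2.2.2.1)
        (t.1.1.2 + t.1.2.1.2 + t.1.2.2.2.2)
      obtain ⟨⟨p1, p2⟩, ⟨p3, p4⟩, p5, ⟨p6, p7⟩⟩ := h1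
      obtain ⟨p8, p9⟩ := h2
      obtain ⟨q1, q2, q3, q4⟩ := g1
      dsimp only at q1 q2 q3 q4
      apply hB
      refine ⟨⟨⟨⟨p1, p2⟩, ⟨p3, p4⟩, ⟨p5, p6, p7⟩⟩, ⟨p8, p9⟩⟩,
        ⟨⟨⟨?_, ?_⟩, ⟨?_, ?_⟩, ⟨?_, ?_, ?_⟩⟩, ⟨?_, ?_⟩⟩⟩ <;> dsimp only <;> linarith
  rw [hQB, integral_prod _ hFi]
  -- inner integral
  have hin : ∀ a : (ℝ × ℝ) × (ℝ × ℝ) × (ℝ × ℝ × ℝ), ∫ s : ℝ × ℝ, F (a, s) ∂(m0.prod m0) =
      f (a.1.1 + a.1.2, a.2.1.1 + a.2.1.2, a.2.2.1) *
      (if max (a.1.1 + a.2.1.1 + a.2.2.2.1) (a.1.2 + a.2.1.2 + a.2.2.2.2) +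
        (a.2.2.1 + a.2.2.2.1 + a.2.2.2.2) ≤ l then 1 else 0) := by
    intro a
    have hc0 : ∫ s : ℝ × ℝ, F (a, s) ∂(m0.prod m0) = (∫ s : ℝ × ℝ,
        GG Ψ (s.1 + a.1.1 + a.1.2, s.2 + a.2.1.1 + a.2.1.2, s.1 + s.2 + a.2.2.1) ∂(m0.prod m0)) *
      (if max (a.1.1 + a.2.1.1 + a.2.2.2.1) (a.1.2 + a.2.1.2 + a.2.2.2.2) +
        (a.2.2.1 + a.2.2.2.1 + a.2.2.2.2) ≤ l then 1 else 0) :=
      integral_mul_const (μ := m0.prod m0) (L := ℝ)
        (if max (a.1.1 + a.2.1.1 + a.2.2.2.1) (a.1.2 + a.2.1.2 + a.2.2.2.2) +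
        (a.2.2.1 + a.2.2.2.1 + a.2.2.2.2) ≤ l then 1 else 0)
        (fun s : ℝ × ℝ => GG Ψ (s.1 + a.1.1 + a.1.2, s.2 + a.2.1.1 + a.2.1.2,
          s.1 + s.2 + a.2.2.1))
    rw [hc0]
    congr 1
    have := kill2_aux hf2 hfc (a.1.1 + a.1.2, a.2.1.1 + a.2.1.2, a.2.2.1)
    rw [← this]
    congr 1
    funext s
    change Dv (1, 0, 1) (Dv (0, 1, 1) f) _ = _
    congr 1
    ext <;> dsimp only <;> ring
  have hFi1 := hFi.integral_prod_left
  simp only [hin] at hFi1 ⊢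
  set H : (ℝ × ℝ) × (ℝ × ℝ) × (ℝ × ℝ × ℝ) → ℝ := fun a =>
      f (a.1.1 + a.1.2, a.2.1.1 + a.2.1.2, a.2.2.1) *
      (if max (a.1.1 + a.2.1.1 + a.2.2.2.1) (a.1.2 + a.2.1.2 + a.2.2.2.2) +
        (a.2.2.1 + a.2.2.2.1 + a.2.2.2.2) ≤ l then 1 else 0) with hH
  have hq : ∀ (b d : ℝ × ℝ) (y : ℝ), 0 ≤ b.1 ∧ 0 ≤ b.2 → 0 ≤ d.1 ∧ 0 ≤ d.2 → 0 ≤ y →
      ∫ q : ℝ × ℝ, H (b, (d, (y, q))) ∂(m0.prod m0) = f (b.1 + b.2, d.1 + d.2, y) *
        Ph (l - y - b.1 - d.1) (l - y - b.2 - d.2) := by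
    intro b d y hb hd hy
    have e1 : ∫ q : ℝ × ℝ, H (b, (d, (y, q))) ∂(m0.prod m0) = f (b.1 + b.2, d.1 + d.2, y) *
        ∫ q : ℝ × ℝ, (if max (b.1 + d.1 + q.1) (b.2 + d.2 + q.2) + (y + q.1 + q.2) ≤ l
          then (1:ℝ) else 0) ∂(m0.prod m0) :=
      integral_const_mul (μ := m0.prod m0) (L := ℝ) (f (b.1 + b.2, d.1 + d.2, y))
        (fun q : ℝ × ℝ => (if max (b.1 + d.1 + q.1) (b.2 + d.2 + q.2) + (y + q.1 + q.2) ≤ l
          then (1:ℝ) else 0))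
    rw [e1]
    by_cases hz : f (b.1 + b.2, d.1 + d.2, y) = 0
    · rw [hz, zero_mul, zero_mul]
    · obtain ⟨q1, q2, q3, q4⟩ := hfs _ hz
      dsimp only at q1 q2 q3 q4
      congr 1
      simp only [cond_iff]
      rw [area_aux (by linarith [hb.1, hb.2, hd.1, hd.2]) (by linarith [hb.1, hb.2, hd.1, hd.2])
        (by linarith [hb.1, hb.2, hd.1, hd.2]) (by linarith [hb.1, hb.2, hd.1, hd.2])]
      rfl
  have key : ∫ a, H a ∂mO = ∫ b : ℝ × ℝ, ∫ d : ℝ × ℝ, ∫ y : ℝ, f (b.1 + b.2, d.1 + d.2, y) *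
        Ph (l - y - b.1 - d.1) (l - y - b.2 - d.2) ∂m0 ∂(m0.prod m0) ∂(m0.prod m0) := by
    unfold mO at hFi1 ⊢
    rw [integral_prod _ hFi1]
    refine integral_congr_ae ?_
    filter_upwards [hFi1.prod_right_ae, ae_m0m0] with b hb hb0
    rw [integral_prod _ hb]
    refine integral_congr_ae ?_
    filter_upwards [hb.prod_right_ae, ae_m0m0] with d hd hd0
    rw [integral_prod _ hd]
    refine integral_congr_ae ?_
    filter_upwards [ae_m0] with y hy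
    exact hq b d y hb0 hd0 hy
  rw [key]
  -- reorder
  have hPhc : ∀ {X : Type} [TopologicalSpace X] {b1 b2 d1 d2 y : X → ℝ}, Continuous b1 →
      Continuous b2 → Continuous d1 → Continuous d2 → Continuous y →
      Continuous (fun x => f (b1 x + b2 x, d1 x + d2 x, y x) *
        Ph (l - y x - b1 x - d1 x) (l - y x - b2 x - d2 x)) := by
    intro X _ b1 b2 d1 d2 y h1 h2 h3 h4 h5
    exact (hfcont.comp (by fun_prop)).mul (Ph_cont (by fun_prop) (by fun_prop))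
  have sw1 : ∫ b : ℝ × ℝ, ∫ d : ℝ × ℝ, ∫ y : ℝ, f (b.1 + b.2, d.1 + d.2, y) *
        Ph (l - y - b.1 - d.1) (l - y - b.2 - d.2) ∂m0 ∂(m0.prod m0) ∂(m0.prod m0) =
      ∫ b : ℝ × ℝ, ∫ y : ℝ, ∫ d : ℝ × ℝ, f (b.1 + b.2, d.1 + d.2, y) *
        Ph (l - y - b.1 - d.1) (l - y - b.2 - d.2) ∂(m0.prod m0) ∂m0 ∂(m0.prod m0) := by
    refine integral_congr_ae ?_
    filter_upwards [ae_m0m0] with b hb
    rw [integral_integral_swap]
    refine integ_cont (B := Icc (((0:ℝ), (0:ℝ)), (0:ℝ)) ((1, 1), 1)) isCompact_Icc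
        (Continuous.continuousOn ?_) ?_
    · exact hPhc (by fun_prop) (by fun_prop) (by fun_prop) (by fun_prop) (by fun_prop)
    · filter_upwards [ae_fst (ν := m0) ae_m0m0, ae_snd (μ := m0.prod m0) ae_m0] with t h1 h2 hB
      by_contra hne
      obtain ⟨q1, q2, q3, q4⟩ := hfs _ (left_ne_zero_of_mul hne)
      dsimp only at q1 q2 q3 q4
      apply hB
      refine ⟨⟨⟨h1.1, h1.2⟩, h2⟩, ⟨⟨?_, ?_⟩, ?_⟩⟩ <;> dsimp only <;>
        linarith [h1.1, h1.2, hb.1, hb.2]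
  have sw2 : ∫ b : ℝ × ℝ, ∫ y : ℝ, ∫ d : ℝ × ℝ, f (b.1 + b.2, d.1 + d.2, y) *
        Ph (l - y - b.1 - d.1) (l - y - b.2 - d.2) ∂(m0.prod m0) ∂m0 ∂(m0.prod m0) =
      ∫ y : ℝ, ∫ b : ℝ × ℝ, ∫ d : ℝ × ℝ, f (b.1 + b.2, d.1 + d.2, y) *
        Ph (l - y - b.1 - d.1) (l - y - b.2 - d.2) ∂(m0.prod m0) ∂(m0.prod m0) ∂m0 := by
    rw [integral_integral_swap]
    have hI : Integrable (fun z : ((ℝ × ℝ) × ℝ) × (ℝ × ℝ) =>
        f (z.1.1.1 + z.1.1.2, z.2.1 + z.2.2, z.1.2) *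
        Ph (l - z.1.2 - z.1.1.1 - z.2.1) (l - z.1.2 - z.1.1.2 - z.2.2))
        (((m0.prod m0).prod m0).prod (m0.prod m0)) := by
      refine integ_cont (B := Icc ((((0:ℝ), (0:ℝ)), (0:ℝ)), ((0:ℝ), (0:ℝ)))
        (((1, 1), 1), (1, 1))) isCompact_Icc (Continuous.continuousOn ?_) ?_
      · exact hPhc (by fun_prop) (by fun_prop) (by fun_prop) (by fun_prop) (by fun_prop)
      · have g1 : ∀ᵐ z ∂(((m0.prod m0).prod m0).prod (m0.prod m0)), 0 ≤ z.1.1.1 ∧ 0 ≤ z.1.1.2 :=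
          ae_fst (ae_fst ae_m0m0)
        have g2 : ∀ᵐ z ∂(((m0.prod m0).prod m0).prod (m0.prod m0)), 0 ≤ z.1.2 :=
          ae_fst (ae_snd ae_m0)
        have g3 : ∀ᵐ z ∂(((m0.prod m0).prod m0).prod (m0.prod m0)), 0 ≤ z.2.1 ∧ 0 ≤ z.2.2 :=
          ae_snd ae_m0m0
        filter_upwards [g1, g2, g3] with z h1 h2 h3 hB
        by_contra hne
        obtain ⟨q1, q2, q3, q4⟩ := hfs _ (left_ne_zero_of_mul hne)
        dsimp only at q1 q2 q3 q4
        apply hB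
        refine ⟨⟨⟨⟨h1.1, h1.2⟩, h2⟩, ⟨h3.1, h3.2⟩⟩, ⟨⟨⟨?_, ?_⟩, ?_⟩, ⟨?_, ?_⟩⟩⟩ <;>
          dsimp only <;> linarith [h1.1, h1.2, h3.1, h3.2]
    exact hI.integral_prod_left
  rw [sw1, sw2]
  have e3 : ∫ y : ℝ, ∫ b : ℝ × ℝ, ∫ d : ℝ × ℝ, f (b.1 + b.2, d.1 + d.2, y) *
        Ph (l - y - b.1 - d.1) (l - y - b.2 - d.2) ∂(m0.prod m0) ∂(m0.prod m0) ∂m0 =
      ∫ y : ℝ, ∫ x2 : ℝ, ∫ x1 : ℝ, f (x1, x2, y) * KK (l - y) x1 x2 ∂m0 ∂m0 ∂m0 := by
    refine integral_congr_ae ?_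
    filter_upwards [ae_m0] with y hy
    refine conv2 (φ := fun x1 x2 => f (x1, x2, y)) (hfcont.comp (by fun_prop)) ?_ (l - y)
    intro x1 x2 h1 h2 hne
    obtain ⟨q1, q2, q3, q4⟩ := hfs _ hne
    dsimp only at q1 q2 q3 q4
    constructor <;> linarith
  rw [e3]
  have hKc : Continuous (fun p : ℝ × ℝ × ℝ => f p * KK (l - p.2.2) p.1 p.2.1) := by
    refine hfcont.mul ?_
    unfold KK; fun_prop
  have hKs : HasCompactSupport (fun p : ℝ × ℝ × ℝ => f p * KK (l - p.2.2) p.1 p.2.1) :=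
    hfc.mul_right
  have hKi : Integrable (fun p : ℝ × ℝ × ℝ => f p * KK (l - p.2.2) p.1 p.2.1)
      (m0.prod (m0.prod m0)) := hKc.integrable_of_hasCompactSupport hKs
  have e4 : ∫ y : ℝ, ∫ x2 : ℝ, ∫ x1 : ℝ, f (x1, x2, y) * KK (l - y) x1 x2 ∂m0 ∂m0 ∂m0 =
      ∫ p : ℝ × ℝ × ℝ, f p * KK (l - p.2.2) p.1 p.2.1 := by
    rw [int_m0]
    · rw [integral_prod_symm _ hKi, integral_prod_symm _ hKi.integral_prod_right]
    · intro p hp
      obtain ⟨q1, q2, q3, q4⟩ := hfs _ (left_ne_zero_of_mul hp)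
      exact ⟨q1.trans q2, q1, q3⟩
  rw [e4, ibp (hΨ.of_le (by norm_num)) hc l, ← integral_const_mul]
  congr 1
  funext p
  ring


end Q44

/-- **G6.** -/
theorem QB_GG {Ψ : ℝ × ℝ × ℝ → ℝ} (hΨ : ContDiff ℝ (⊤ : ℕ∞) Ψ) (hc : HasCompactSupport Ψ)
    (hs : ∀ p, Ψ p ≠ 0 → 0 < p.2.1 ∧ p.2.1 < p.1 ∧ 0 < p.2.2 ∧ p.1 + p.2.1 + p.2.2 < 1)
    {l : ℝ} (hl : 3 ≤ l) :
    QB nuB (GG Ψ) l = ∫ p : ℝ × ℝ × ℝ,
      Ψ p * ((p.1 - p.2.1) * (l - p.2.2 - p.1) * (l - p.2.2 - p.2.1) / 2) :=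
  Q44.QB_GG_aux (contDiff_infty.1 hΨ 3) hc hs hl

end S6

end

section

namespace SG
open Complex MeasureTheory Filter Topology Set
open scoped Real ComplexConjugate

theorem B4_supp {φ ψ : X4 → ℂ} (hφ : Adm φ) (hψ : Adm ψ) :
    ∃ S : Finset SLZ, ∀ γ, γ ∉ S → ∫ g : X4, φ g * conj (ψ (act γ g)) = 0 := by
  classical
  refine ⟨(finite_hits hφ hψ 1).toFinset, ?_⟩
  intro γ hγ
  rw [Set.Finite.mem_toFinset] at hγ
  have h1 : ∀ g : X4, φ g * conj (ψ (act γ g)) = 0 := by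
    intro g
    by_contra hne
    apply hγ
    refine ⟨g, left_ne_zero_of_mul hne, ?_⟩
    rw [one_mul]
    intro h0
    apply hne
    rw [h0]
    simp
  simp [h1]

theorem B4_pair {φ ψ : X4 → ℂ} (S : Finset SLZ)
    (hS : ∀ γ, γ ∉ S → ∫ g : X4, φ g * conj (ψ (act γ g)) = 0) (P : SLZ → Prop) [DecidablePred P] :
    pair P φ ψ = ∑ γ ∈ S, if P γ then ∫ g : X4, φ g * conj (ψ (act γ g)) else 0 := by
  classical
  unfold pair
  have h1 := tsum_subtype (s := {γ : SLZ | P γ}) (f := fun γ : SLZ => ∫ g : X4, φ g * conj (ψ (act γ g)))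
  have h2 : ∑' γ : {γ : SLZ // P γ}, ∫ g : X4, φ g * conj (ψ (act γ g)) =
      ∑' γ : SLZ, ({γ : SLZ | P γ}.indicator (fun γ : SLZ => ∫ g : X4, φ g * conj (ψ (act γ g)))) γ := h1
  rw [h2, tsum_eq_sum (s := S)]
  · refine Finset.sum_congr rfl (fun γ _ => ?_)
    simp only [indicator_apply, mem_setOf_eq]
  · intro γ hγ
    rw [indicator_apply, hS γ hγ]
    simp

theorem B4_group {φ ψ : X4 → ℂ} (hφ : Adm φ) (hψ : Adm ψ) (P Q : SLZ → Prop) (R : ℤ → Prop) [DecidablePred R]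
    (h : ∀ γ : SLZ, P γ ↔ R (γ.1 1 0) ∧ Q γ) :
    pair P φ ψ = ∑' c : ℤ, if R c then pair (fun M => M.1 1 0 = c ∧ Q M) φ ψ else 0 := by
  classical
  obtain ⟨S, hS⟩ := B4_supp hφ hψ
  rw [B4_pair S hS P]
  have h1 : ∀ c : ℤ, (if R c then pair (fun M => M.1 1 0 = c ∧ Q M) φ ψ else 0) =
      ∑ γ ∈ S, if R c ∧ (γ.1 1 0 = c ∧ Q γ) then ∫ g : X4, φ g * conj (ψ (act γ g)) else 0 := by
    intro c
    by_cases hc : R c
    · simp only [hc, if_true, true_and]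
      rw [B4_pair S hS (fun M => M.1 1 0 = c ∧ Q M)]
    · simp [hc]
  simp only [h1]
  rw [Summable.tsum_finsetSum]
  · refine Finset.sum_congr rfl (fun γ _ => ?_)
    rw [tsum_eq_single (γ.1 1 0)]
    · simp only [true_and]
      by_cases hP : P γ
      · rw [if_pos hP, if_pos ((h γ).mp hP)]
      · rw [if_neg hP, if_neg (fun hh => hP ((h γ).mpr hh))]
    · intro c hc
      rw [if_neg]
      rintro ⟨_, h2, _⟩
      exact hc h2.symm
  · intro γ _
    apply summable_of_ne_finset_zero (s := {γ.1 1 0})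
    intro c hc
    rw [Finset.mem_singleton] at hc
    rw [if_neg]
    rintro ⟨_, h2, _⟩
    exact hc h2.symm

/-! **B4. Grouping by `c`.** `{γ : N ∣ γ₁₀}` is the disjoint union of the fibres `γ₁₀ = c`, `c ∈ N ℤ`;
only finitely many `γ` contribute (A2 with `W = 1`), so the `tsum` over the union is the sum over the fibres (finite
support). The same for `PW h s`, with fibres `M₁₀ = c`, `s ∣ c`, `h ∣ M₁₁`; if `(c,h) ≠ 1` the fibre
is empty (`a h d - b c = 1`). -/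
theorem group_PG (N : ℕ) {φ ψ : X4 → ℂ} (hφ : Adm φ) (hψ : Adm ψ) :
    pair (PG N) φ ψ = ∑' c : ℤ, if (N : ℤ) ∣ c then pair (fun M => M.1 1 0 = c) φ ψ else 0 := by
  have h1 := B4_group hφ hψ (PG N) (fun _ => True) (fun c => (N : ℤ) ∣ c) (by
    intro γ
    simp [PG])
  simp only [and_true] at h1
  exact h1

theorem group_PW (h s : ℕ) {φ ψ : X4 → ℂ} (hφ : Adm φ) (hψ : Adm ψ) :
    pair (PW h s) φ ψ = ∑' c : ℤ, if (s : ℤ) ∣ c ∧ IsCoprime (h : ℤ) c then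
      pair (fun M => M.1 1 0 = c ∧ (h : ℤ) ∣ M.1 1 1) φ ψ else 0 := by
  refine B4_group hφ hψ (PW h s) (fun M => (h : ℤ) ∣ M.1 1 1) (fun c => (s : ℤ) ∣ c ∧ IsCoprime (h : ℤ) c) ?_
  intro γ
  unfold PW
  constructor
  · rintro ⟨h1, h2⟩
    refine ⟨⟨h1, ?_⟩, h2⟩
    obtain ⟨k, hk⟩ := h2
    have hdet := Matrix.det_fin_two γ.1
    rw [γ.2] at hdet
    refine ⟨γ.1 0 0 * k, -γ.1 0 1, ?_⟩
    rw [hk] at hdet
    linarith
  · rintro ⟨⟨h1, _⟩, h2⟩
    exact ⟨h1, h2⟩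

theorem group_fin (P : SLZ → Prop) {φ ψ : X4 → ℂ} (hφ : Adm φ) (hψ : Adm ψ) :
    {c : ℤ | pair (fun M => M.1 1 0 = c ∧ P M) φ ψ ≠ 0}.Finite := by
  classical
  obtain ⟨S, hS⟩ := B4_supp hφ hψ
  apply (S.image (fun γ => γ.1 1 0)).finite_toSet.subset
  intro c hc
  rw [mem_setOf_eq, B4_pair S hS] at hc
  obtain ⟨γ, hγ, hne⟩ := Finset.exists_ne_zero_of_sum_ne_zero hc
  rw [Finset.mem_coe, Finset.mem_image]
  refine ⟨γ, hγ, ?_⟩
  by_contra hcon
  apply hne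
  rw [if_neg]
  rintro ⟨h1, _⟩
  exact hcon h1

theorem group_fin' {φ ψ : X4 → ℂ} (hφ : Adm φ) (hψ : Adm ψ) :
    {c : ℤ | pair (fun M => M.1 1 0 = c) φ ψ ≠ 0}.Finite := by
  have h1 := group_fin (fun _ => True) hφ hψ
  simp only [and_true] at h1
  exact h1

end SG

end

section

namespace SG
open Complex MeasureTheory Filter Topology Set
open scoped Real ComplexConjugate

private theorem C3a_ex_add_int (x : ℝ) (n : ℤ) : ex (x + n) = ex x := by
  unfold ex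
  have h : 2 * (π : ℂ) * I * ((x + n : ℝ) : ℂ) = 2 * (π : ℂ) * I * (x : ℂ) + n * (2 * π * I) := by
    push_cast
    ring
  rw [h, Complex.exp_add, Complex.exp_int_mul_two_pi_mul_I, mul_one]

private theorem C3a_norm_ex (x : ℝ) : ‖ex x‖ = 1 := by
  unfold ex
  have h : 2 * (π : ℂ) * I * (x : ℂ) = ((2 * π * x : ℝ) : ℂ) * I := by
    push_cast
    ring
  rw [h, Complex.norm_exp_ofReal_mul_I]

private theorem C3a_conj_ex (x : ℝ) : conj (ex x) = ex (-x) := by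
  unfold ex
  rw [← Complex.exp_conj]
  congr 1
  simp only [map_mul, Complex.conj_I, Complex.conj_ofReal, map_ofNat]
  push_cast
  ring

private theorem C3a_meas_ex : Measurable ex := by
  unfold ex
  fun_prop

private theorem C3a_meas_co (i : Bool) : Measurable (co i) := by
  unfold co
  split_ifs <;> fun_prop

private theorem C3a_norm_conj (F : Finset ℤ) (a : ℤ → ℂ) (x : ℝ) :
    ‖∑ n ∈ F, a n * ex (n * x)‖ = ‖∑ n ∈ F, conj (a n) * ex (n * (-x))‖ := by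
  rw [← Complex.norm_conj (∑ n ∈ F, a n * ex (n * x)), map_sum]
  congr 1
  refine Finset.sum_congr rfl fun n _ => ?_
  rw [map_mul, C3a_conj_ex]
  congr 2
  ring

private theorem C3a_orth_neg (c : ℕ) (hc : 0 < c) {K : ℝ} (hK : 0 ≤ K) (F : Finset ℤ)
    (hF : ∀ n ∈ F, |(n : ℝ)| ≤ K) (a : ℤ → ℂ) (α : ℝ) :
    ∑ d ∈ Finset.range c, ‖∑ n ∈ F, a n * ex (n * (α - d / c))‖ ^ 2 ≤
      (2 * K + c) * ∑ n ∈ F, ‖a n‖ ^ 2 := by
  have h := orth c hc hK F hF (fun n => conj (a n)) (-α)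
  simp only [Complex.norm_conj] at h
  refine le_trans (le_of_eq ?_) h
  refine Finset.sum_congr rfl fun d _ => ?_
  rw [C3a_norm_conj]
  congr 4
  funext n
  congr 2
  ring

private theorem C3a_natAbs (c : ℤ) : ((c.natAbs : ℕ) : ℝ) = |(c : ℝ)| := by
  rw [Nat.cast_natAbs, Int.cast_abs]

private theorem C3a_both {c : ℤ} (hc : c ≠ 0) {K : ℝ} (hK : 0 ≤ K) (F : Finset ℤ)
    (hF : ∀ n ∈ F, |(n : ℝ)| ≤ K) (a : ℤ → ℂ) (α : ℝ) :
    (∑ d ∈ Finset.range c.natAbs, ‖∑ n ∈ F, a n * ex (n * (α - d / c))‖ ^ 2 ≤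
      (2 * K + |(c : ℝ)|) * ∑ n ∈ F, ‖a n‖ ^ 2) ∧
    (∑ d ∈ Finset.range c.natAbs, ‖∑ n ∈ F, a n * ex (n * (d / c - α))‖ ^ 2 ≤
      (2 * K + |(c : ℝ)|) * ∑ n ∈ F, ‖a n‖ ^ 2) := by
  have hpos : 0 < c.natAbs := Int.natAbs_pos.mpr hc
  have h1 := C3a_orth_neg c.natAbs hpos hK F hF a
  have h2 := orth c.natAbs hpos hK F hF a
  rw [C3a_natAbs] at h1 h2
  rcases lt_or_gt_of_ne hc with h | h
  · have hcR : (c : ℝ) < 0 := by exact_mod_cast h
    rw [abs_of_neg hcR] at h1 h2 ⊢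
    refine ⟨le_trans (le_of_eq ?_) (h2 α), le_trans (le_of_eq ?_) (h1 (-α))⟩
    · refine Finset.sum_congr rfl fun d _ => ?_
      congr 4
      funext n
      congr 3
      rw [div_neg, sub_eq_add_neg]
    · refine Finset.sum_congr rfl fun d _ => ?_
      congr 4
      funext n
      congr 3
      rw [div_neg]
      ring
  · have hcR : (0 : ℝ) < c := by exact_mod_cast h
    rw [abs_of_pos hcR] at h1 h2 ⊢
    refine ⟨h1 α, le_trans (le_of_eq ?_) (h2 (-α))⟩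
    refine Finset.sum_congr rfl fun d _ => ?_
    congr 4
    funext n
    congr 3
    ring

/-- inverses modulo `m` are injective on reduced residues -/
private theorem C3a_iv {m : ℕ} (hm : 0 < m) {g : ℕ → ℝ} (hg : ∀ d, 0 ≤ g d) :
    ∑ d ∈ (Finset.range m).filter (fun d => Nat.Coprime d m), g (iv m (1 : ℤ) d) ≤
      ∑ d ∈ Finset.range m, g d := by
  have : NeZero m := ⟨hm.ne'⟩
  have hinj : Set.InjOn (fun d : ℕ => iv m (1 : ℤ) d)
      ((Finset.range m).filter (fun d => Nat.Coprime d m) : Finset ℕ) := by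
    intro x hx y hy hxy
    simp only [Finset.coe_filter, Finset.mem_range, Set.mem_ofPred_eq] at hx hy
    simp only [iv, one_mul, Int.cast_natCast] at hxy
    have h1 : ((x : ZMod m))⁻¹ = ((y : ZMod m))⁻¹ := ZMod.val_injective m hxy
    have hx1 := ZMod.coe_mul_inv_eq_one x hx.2
    have hy1 := ZMod.coe_mul_inv_eq_one y hy.2
    have h2 : (x : ZMod m) = y := by
      calc (x : ZMod m) = x * (y * (y : ZMod m)⁻¹) := by rw [hy1, mul_one]
        _ = y * (x * (x : ZMod m)⁻¹) := by rw [h1]; ring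
        _ = y := by rw [hx1, mul_one]
    have h3 := (ZMod.natCast_eq_natCast_iff x y m).mp h2
    have h4 : x % m = y % m := h3
    rwa [Nat.mod_eq_of_lt hx.1, Nat.mod_eq_of_lt hy.1] at h4
  rw [← Finset.sum_image (f := g) hinj]
  refine Finset.sum_le_sum_of_subset_of_nonneg ?_ (fun d _ _ => hg d)
  intro e he
  rw [Finset.mem_image] at he
  obtain ⟨d, -, rfl⟩ := he
  rw [Finset.mem_range]
  exact ZMod.val_lt _

/-- such profiles are admissible -/
private theorem C3a_per {i : Bool} {σ lam δ D0 D1 : ℝ} (hσ : σ = 1 ∨ σ = -1) (hl : 0 < lam)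
    (hδ : 0 < δ) (hD : 0 < D0) (F : Finset ℤ) (a : ℤ → ℂ) {Ψ : V2 → ℝ → ℂ}
    (hm : Measurable (fun p : V2 × ℝ => Ψ p.1 p.2)) (hb : ∃ C : ℝ, ∀ v D, ‖Ψ v D‖ ≤ C)
    (hs : ∀ v D, Ψ v D ≠ 0 → v ∈ Sec i σ lam δ ∧ D0 ≤ D ∧ D ≤ D1) :
    Per i (fun x v D => (∑ n ∈ F, a n * ex (n * x)) * Ψ v D) := by
  obtain ⟨C, hC⟩ := hb
  refine ⟨fun x v D => ?_, ?_, ⟨(∑ n ∈ F, ‖a n‖) * C, fun x v D => ?_⟩,
    ⟨max (2 * lam + δ * (2 * lam)) D1, min lam D0, lt_min hl hD, fun x v D hne => ?_⟩⟩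
  · congr 1
    refine Finset.sum_congr rfl fun n _ => ?_
    have : (n : ℝ) * (x + 1) = n * x + n := by ring
    rw [this, C3a_ex_add_int]
  · have h1 : Measurable fun p : ℝ × V2 × ℝ => ∑ n ∈ F, a n * ex (n * p.1) := by
      refine Finset.measurable_sum F fun n _ => ?_
      exact measurable_const.mul (C3a_meas_ex.comp (measurable_const.mul measurable_fst))
    have h2 : Measurable fun p : ℝ × V2 × ℝ => Ψ p.2.1 p.2.2 := hm.comp measurable_snd
    exact h1.mul h2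
  · rw [norm_mul]
    refine mul_le_mul ?_ (hC v D) (norm_nonneg _) (Finset.sum_nonneg fun n _ => norm_nonneg _)
    refine (norm_sum_le _ _).trans (Finset.sum_le_sum fun n _ => ?_)
    rw [norm_mul, C3a_norm_ex, mul_one]
  · have hΨ : Ψ v D ≠ 0 := fun h0 => hne (by rw [h0, mul_zero])
    obtain ⟨⟨hv1, hv2, hv3⟩, hD1, hD2⟩ := hs v D hΨ
    have habs : |co i v| = σ * co i v := by
      rcases hσ with rfl | rfl
      · rw [one_mul] at hv1 ⊢
        exact abs_of_nonneg (hl.le.trans hv1)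
      · have : co i v < 0 := by linarith
        rw [abs_of_neg this]
        ring
    have h1 : lam ≤ |co i v| := habs ▸ hv1
    have h2 : |co i v| ≤ 2 * lam := habs ▸ hv2
    have h3 : |co (!i) v| ≤ δ * (2 * lam) := hv3.trans (mul_le_mul_of_nonneg_left h2 hδ.le)
    have h4 : 0 ≤ δ * (2 * lam) := by positivity
    refine ⟨le_trans ?_ (le_max_left _ _), (min_le_left _ _).trans h1,
      (min_le_right _ _).trans hD1, hD2.trans (le_max_right _ _)⟩
    have h5 : ‖v‖ = max |v.1| |v.2| := by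
      rw [Prod.norm_def, Real.norm_eq_abs, Real.norm_eq_abs]
    rw [h5]
    unfold co at h2 h3
    cases i
    · simp only [Bool.false_eq_true, if_false, Bool.not_false, if_true] at h2 h3
      exact max_le (by linarith) (by linarith [abs_nonneg v.2])
    · simp only [if_true, Bool.not_true, Bool.false_eq_true, if_false] at h2 h3
      exact max_le (by linarith) (by linarith [abs_nonneg v.2])

/-- **C3a. One fibre.** B2 with `h = 1` (the condition `(1 : ℤ) ∣ M₁₁` is void), `i = j`. If `|c| > 8δlam²/D₀` the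
integrand vanishes (C1). Otherwise `|∑_d A(α - d/c) conj A(β + iv/c)| ≤ ½ ∑_d (|A(α-d/c)|² + |A(iv/c + β)|²) ≤
(2K+|c|) ∑|a|²` (C2 with `c.natAbs`; `d ↦ iv |c| 1 d` is injective on the reduced residues; drop the
coprimality by positivity; for `c < 0` replace `d` by `-d`, or note that `-d/c = d/|c|`), and `|Ψ| ≤ 1`; integrate over the
set of C1: `c⁻² · 3δlam²D₀|c| · (2K+|c|) ∑|a|²`. -/
theorem fibre_multi {i : Bool} {σ lam δ D0 K : ℝ} (hσ : σ = 1 ∨ σ = -1) (hl : 0 < lam) (hδ : 0 < δ)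
    (hD : 0 < D0) (hK : 1 ≤ K) {F : Finset ℤ} (hF : ∀ n ∈ F, |(n : ℝ)| ≤ K) {a : ℤ → ℂ}
    {Ψ : V2 → ℝ → ℂ} (hm : Measurable (fun p : V2 × ℝ => Ψ p.1 p.2)) (hb : ∀ v D, ‖Ψ v D‖ ≤ 1)
    (hs : ∀ v D, Ψ v D ≠ 0 → v ∈ Sec i σ lam δ ∧ D0 ≤ D ∧ D ≤ 2 * D0) {c : ℤ} (hc : c ≠ 0) :
    ‖pair (fun M => M.1 1 0 = c) (poin 1 i fun x v D => (∑ n ∈ F, a n * ex (n * x)) * Ψ v D)
      (poin 1 i fun x v D => (∑ n ∈ F, a n * ex (n * x)) * Ψ v D)‖ ≤
      if |(c : ℝ)| ≤ 8 * δ * lam ^ 2 / D0 then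
        3 * δ * lam ^ 2 * D0 / |(c : ℝ)| * (2 * K + |(c : ℝ)|) * ∑ n ∈ F, ‖a n‖ ^ 2 else 0 := by
  have hper := C3a_per hσ hl hδ hD F a hm ⟨1, hb⟩ hs
  set f : ℝ → V2 → ℝ → ℂ := fun x v D => (∑ n ∈ F, a n * ex (n * x)) * Ψ v D with hf
  have hcR : (c : ℝ) ≠ 0 := by exact_mod_cast hc
  have hcabs : 0 < |(c : ℝ)| := abs_pos.mpr hcR
  obtain ⟨hvol, hbig, -, hSm⟩ := vol_bound (i := i) (σ := σ) (lam := lam) (δ := δ) (D0 := D0)
    (c := (c : ℝ)) hσ hl hδ hD hcR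
  set S : Set (V2 × V2) := {p : V2 × V2 | p.1 ∈ Sec i σ lam δ ∧ p.2 ∈ Sec i σ lam δ ∧
    D0 ≤ wd p.2 p.1 / c ∧ wd p.2 p.1 / c ≤ 2 * D0} with hS
  have hwm : Measurable fun p : V2 × V2 => wd p.2 p.1 / (c : ℝ) := by
    unfold wd
    fun_prop
  have hSmeas : MeasurableSet S := by
    have e : S = (Prod.fst ⁻¹' Sec i σ lam δ) ∩ (Prod.snd ⁻¹' Sec i σ lam δ) ∩
        ((fun p : V2 × V2 => wd p.2 p.1 / (c : ℝ)) ⁻¹' Set.Icc D0 (2 * D0)) := by
      ext p
      simp only [hS, Set.mem_ofPred_eq, Set.mem_inter_iff, Set.mem_preimage, Set.mem_Icc]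
      tauto
    rw [e]
    exact ((measurable_fst hSm).inter (measurable_snd hSm)).inter (hwm measurableSet_Icc)
  have hcop : IsCoprime ((1 : ℕ) : ℤ) c := by
    rw [Nat.cast_one]
    exact isCoprime_one_left
  have hg := gram_c (h := 1) one_pos hc hcop (i := i) (j := i) hper hper
  have hpred : (fun M : SLZ => M.1 1 0 = c ∧ ((1 : ℕ) : ℤ) ∣ M.1 1 1) =
      (fun M : SLZ => M.1 1 0 = c) := by
    funext M
    simp
  rw [hpred, Nat.cast_one] at hg
  rw [hg]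
  set B : ℝ := (2 * K + |(c : ℝ)|) * ∑ n ∈ F, ‖a n‖ ^ 2 with hB
  have hB0 : 0 ≤ B := by
    have : 0 ≤ ∑ n ∈ F, ‖a n‖ ^ 2 := Finset.sum_nonneg fun n _ => by positivity
    have h2 : 0 ≤ 2 * K + |(c : ℝ)| := by linarith
    exact mul_nonneg h2 this
  set G : ℕ → V2 × V2 → ℂ := fun d p =>
    f (co i p.2 / (co i p.1 * (1 : ℝ) * c) - d / c) p.1 (wd p.2 p.1 / c) *
      conj (f (iv c.natAbs ((1 : ℕ) : ℤ) d / c - co i p.1 / (c * co i p.2)) p.2
        (wd p.2 p.1 / c)) with hG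
  have hGint : ∀ d : ℕ, Integrable (G d) := by
    intro d
    have := gram_int (h := 1) hc hper hper (d / c) (iv c.natAbs ((1 : ℕ) : ℤ) d / c)
    rw [Nat.cast_one] at this
    exact this
  set R : Finset ℕ := (Finset.range c.natAbs).filter (fun d => Nat.Coprime d c.natAbs) with hR
  have hpt : ∀ p : V2 × V2, ‖∑ d ∈ R, G d p‖ ≤ S.indicator (fun _ => B) p := by
    intro p
    by_cases hp : p ∈ S
    · rw [Set.indicator_of_mem hp]
      obtain ⟨h1, h2⟩ := C3a_both hc (by linarith : (0 : ℝ) ≤ K) F hF a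
        (co i p.2 / (co i p.1 * (1 : ℝ) * c))
      obtain ⟨h3, h4⟩ := C3a_both hc (by linarith : (0 : ℝ) ≤ K) F hF a
        (co i p.1 / (c * co i p.2))
      have h5 : ∑ d ∈ R, ‖∑ n ∈ F, a n * ex (n * (co i p.2 / (co i p.1 * (1 : ℝ) * c) - d / c))‖ ^ 2
          ≤ B := by
        refine le_trans ?_ h1
        exact Finset.sum_le_sum_of_subset_of_nonneg (Finset.filter_subset _ _)
          (fun d _ _ => by positivity)
      have h6 : ∑ d ∈ R, ‖∑ n ∈ F, a n * ex (n * (iv c.natAbs ((1 : ℕ) : ℤ) d / c -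
          co i p.1 / (c * co i p.2)))‖ ^ 2 ≤ B := by
        refine le_trans ?_ h4
        have := C3a_iv (Int.natAbs_pos.mpr hc)
          (g := fun d : ℕ => ‖∑ n ∈ F, a n * ex (n * ((d : ℝ) / c -
            co i p.1 / (c * co i p.2)))‖ ^ 2) (fun d => by positivity)
        rw [Nat.cast_one]
        exact this
      refine (norm_sum_le _ _).trans ?_
      have h7 : ∀ d ∈ R, ‖G d p‖ ≤
          (‖∑ n ∈ F, a n * ex (n * (co i p.2 / (co i p.1 * (1 : ℝ) * c) - d / c))‖ ^ 2 +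
          ‖∑ n ∈ F, a n * ex (n * (iv c.natAbs ((1 : ℕ) : ℤ) d / c -
          co i p.1 / (c * co i p.2)))‖ ^ 2) / 2 := by
        intro d _
        simp only [hG, hf]
        rw [norm_mul, Complex.norm_conj, norm_mul, norm_mul]
        set x := ‖∑ n ∈ F, a n * ex (n * (co i p.2 / (co i p.1 * (1 : ℝ) * c) - d / c))‖
        set y := ‖∑ n ∈ F, a n * ex (n * (iv c.natAbs ((1 : ℕ) : ℤ) d / c -
          co i p.1 / (c * co i p.2)))‖
        have hx : 0 ≤ x := norm_nonneg _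
        have hy : 0 ≤ y := norm_nonneg _
        have e1 : x * ‖Ψ p.1 (wd p.2 p.1 / c)‖ ≤ x := mul_le_of_le_one_right hx (hb _ _)
        have e2 : y * ‖Ψ p.2 (wd p.2 p.1 / c)‖ ≤ y := mul_le_of_le_one_right hy (hb _ _)
        have e3 : x * ‖Ψ p.1 (wd p.2 p.1 / c)‖ * (y * ‖Ψ p.2 (wd p.2 p.1 / c)‖) ≤ x * y :=
          mul_le_mul e1 e2 (by positivity) hx
        nlinarith [sq_nonneg (x - y)]
      refine (Finset.sum_le_sum h7).trans ?_
      rw [← Finset.sum_div, Finset.sum_add_distrib]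
      linarith
    · rw [Set.indicator_of_notMem hp]
      have h0 : ∀ d ∈ R, G d p = 0 := by
        intro d _
        by_contra hne
        simp only [hG, hf] at hne
        rw [mul_eq_zero, not_or] at hne
        obtain ⟨n1, n2⟩ := hne
        have hΨ1 : Ψ p.1 (wd p.2 p.1 / c) ≠ 0 := fun h0 => n1 (by rw [h0, mul_zero])
        have hΨ2 : Ψ p.2 (wd p.2 p.1 / c) ≠ 0 := fun h0 => n2 (by rw [h0, mul_zero, map_zero])
        obtain ⟨s1, s2, s3⟩ := hs _ _ hΨ1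
        obtain ⟨s4, -, -⟩ := hs _ _ hΨ2
        exact hp ⟨s1, s4, s2, s3⟩
      rw [Finset.sum_eq_zero h0, norm_zero]
  have hvfin : volume S < ⊤ := hvol.trans_lt ENNReal.ofReal_lt_top
  have hind : Integrable (S.indicator fun _ : V2 × V2 => B) :=
    (integrable_indicator_iff hSmeas).mpr (integrableOn_const hvfin.ne)
  have hmain : ‖∑ d ∈ R, ∫ p : V2 × V2, G d p‖ ≤ (volume S).toReal * B := by
    rw [← integral_finsetSum R fun d _ => hGint d]
    refine (norm_integral_le_of_norm_le hind (Eventually.of_forall hpt)).trans ?_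
    rw [integral_indicator_const B hSmeas, smul_eq_mul]
    rfl
  have hc2 : ‖((c : ℂ) ^ 2)⁻¹‖ = (|(c : ℝ)| ^ 2)⁻¹ := by
    rw [norm_inv, norm_pow, Complex.norm_intCast]
  rw [norm_mul, hc2]
  split_ifs with hle
  · have hv : (volume S).toReal ≤ 3 * δ * lam ^ 2 * D0 * |(c : ℝ)| := by
      refine ENNReal.toReal_le_of_le_ofReal (by positivity) hvol
    calc (|(c : ℝ)| ^ 2)⁻¹ * ‖∑ d ∈ R, ∫ p : V2 × V2, G d p‖
        ≤ (|(c : ℝ)| ^ 2)⁻¹ * ((3 * δ * lam ^ 2 * D0 * |(c : ℝ)|) * B) := by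
          refine mul_le_mul_of_nonneg_left (hmain.trans ?_) (by positivity)
          exact mul_le_mul_of_nonneg_right hv hB0
      _ = 3 * δ * lam ^ 2 * D0 / |(c : ℝ)| * (2 * K + |(c : ℝ)|) * ∑ n ∈ F, ‖a n‖ ^ 2 := by
          rw [hB]
          field_simp
  · have hSe : S = ∅ := by
      rw [Set.eq_empty_iff_forall_notMem]
      intro p hp
      exact hle (hbig p hp.1 hp.2.1 hp.2.2.1)
    have : ‖∑ d ∈ R, ∫ p : V2 × V2, G d p‖ ≤ 0 := by
      refine hmain.trans ?_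
      rw [hSe, measure_empty]
      simp
    have h0 : ‖∑ d ∈ R, ∫ p : V2 × V2, G d p‖ = 0 := le_antisymm this (norm_nonneg _)
    rw [h0, mul_zero]

/-- such profiles are admissible (used again in C3b, C4, D1) -/
theorem per_sum {i : Bool} {σ lam δ D0 D1 : ℝ} (hσ : σ = 1 ∨ σ = -1) (hl : 0 < lam) (hδ : 0 < δ)
    (hD : 0 < D0) (F : Finset ℤ) (a : ℤ → ℂ) {Ψ : V2 → ℝ → ℂ}
    (hm : Measurable (fun p : V2 × ℝ => Ψ p.1 p.2)) (hb : ∃ C : ℝ, ∀ v D, ‖Ψ v D‖ ≤ C)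
    (hs : ∀ v D, Ψ v D ≠ 0 → v ∈ Sec i σ lam δ ∧ D0 ≤ D ∧ D ≤ D1) :
    Per i (fun x v D => (∑ n ∈ F, a n * ex (n * x)) * Ψ v D) :=
  C3a_per hσ hl hδ hD F a hm hb hs

end SG

end

section

namespace SG
open Complex MeasureTheory Filter Topology Set
open scoped Real ComplexConjugate

theorem C3b_norm_ex (x : ℝ) : ‖ex x‖ = 1 := by
  unfold ex
  have : (2 * π * I * x : ℂ) = ((2 * π * x : ℝ) : ℂ) * I := by push_cast; ring
  rw [this, Complex.norm_exp_ofReal_mul_I]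

theorem C3b_conj_ex (x : ℝ) : conj (ex x) = ex (-x) := by
  unfold ex
  rw [← Complex.exp_conj]
  congr 1
  rw [map_mul, map_mul, map_mul, Complex.conj_I, Complex.conj_ofReal, Complex.conj_ofReal, map_ofNat]
  push_cast
  ring

theorem C3b_ex_add (x y : ℝ) : ex (x + y) = ex x * ex y := by
  unfold ex
  rw [← Complex.exp_add]
  congr 1
  push_cast
  ring

theorem C3b_cont_ex : Continuous ex := by
  unfold ex
  fun_prop

theorem C3b_int_ex (k : ℤ) : ∫ x in Ico (0 : ℝ) 1, ex (k * x) = if k = 0 then 1 else 0 := by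
  rw [MeasureTheory.integral_Ico_eq_integral_Ioc, ← intervalIntegral.integral_of_le zero_le_one]
  by_cases hk : k = 0
  · subst hk
    simp [ex]
  · rw [if_neg hk]
    have h1 : (fun x : ℝ => ex (k * x)) = fun x : ℝ => cexp ((2 * π * I * k) * x) := by
      funext x
      unfold ex
      congr 1
      push_cast
      ring
    have hne : (2 * π * I * k : ℂ) ≠ 0 := by
      have h2 : (k : ℂ) ≠ 0 := by exact_mod_cast hk
      have h3 : (π : ℂ) ≠ 0 := by exact_mod_cast Real.pi_ne_zero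
      simp [h2, h3]
    have h4 : ∫ x in (0 : ℝ)..1, ex (k * x) = ∫ x in (0 : ℝ)..1, cexp ((2 * π * I * k) * x) :=
      intervalIntegral.integral_congr fun x _ => congrFun h1 x
    rw [h4, integral_exp_mul_complex hne]
    have h5 : cexp (2 * π * I * k * ((1 : ℝ) : ℂ)) = 1 := by
      rw [Complex.exp_eq_one_iff]
      exact ⟨k, by push_cast; ring⟩
    rw [h5]
    simp

/-- Parseval for trigonometric polynomials -/
theorem C3b_parseval (F : Finset ℤ) (a : ℤ → ℂ) :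
    ∫ x in Ico (0 : ℝ) 1, ‖∑ n ∈ F, a n * ex (n * x)‖ ^ 2 = ∑ n ∈ F, ‖a n‖ ^ 2 := by
  have h1 : ∀ x : ℝ, ((‖∑ n ∈ F, a n * ex (n * x)‖ ^ 2 : ℝ) : ℂ) =
      ∑ n ∈ F, ∑ m ∈ F, (a n * conj (a m)) * ex (((n - m : ℤ) : ℝ) * x) := by
    intro x
    rw [← Complex.normSq_eq_norm_sq, ← Complex.mul_conj, map_sum, Finset.sum_mul_sum]
    refine Finset.sum_congr rfl fun n _ => Finset.sum_congr rfl fun m _ => ?_
    rw [map_mul, C3b_conj_ex]
    have : (((n - m : ℤ) : ℝ) * x) = n * x + -(m * x) := by push_cast; ring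
    rw [this, C3b_ex_add]
    ring
  have hint : ∀ n m : ℤ, IntegrableOn (fun x : ℝ => (a n * conj (a m)) * ex (((n - m : ℤ) : ℝ) * x)) (Ico (0 : ℝ) 1) := by
    intro n m
    refine (Continuous.integrableOn_Icc ?_).mono_set Ico_subset_Icc_self
    exact continuous_const.mul (C3b_cont_ex.comp (by fun_prop))
  have h2 : ((∫ x in Ico (0 : ℝ) 1, ‖∑ n ∈ F, a n * ex (n * x)‖ ^ 2 : ℝ) : ℂ) = ((∑ n ∈ F, ‖a n‖ ^ 2 : ℝ) : ℂ) := by
    rw [← integral_complex_ofReal]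
    simp_rw [h1]
    rw [integral_finsetSum _ fun n _ => integrable_finsetSum _ fun m _ => hint n m, Complex.ofReal_sum]
    refine Finset.sum_congr rfl fun n hn => ?_
    rw [integral_finsetSum _ fun m _ => hint n m, Finset.sum_eq_single n]
    · rw [integral_const_mul, C3b_int_ex, sub_self, if_pos rfl, mul_one, Complex.mul_conj, Complex.normSq_eq_norm_sq]
    · intro m _ hmn
      rw [integral_const_mul, C3b_int_ex, if_neg (sub_ne_zero.2 hmn.symm), mul_zero]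
    · intro h
      exact absurd hn h
  exact_mod_cast h2

/-- the `L²` norm of `Ψ` -/
theorem C3b_psi {i : Bool} {σ lam δ D0 : ℝ} (hσ : σ = 1 ∨ σ = -1) (hl : 0 < lam) (hδ : 0 < δ)
    (hD : 0 < D0) {Ψ : V2 → ℝ → ℂ} (hb : ∀ v D, ‖Ψ v D‖ ≤ 1)
    (hs : ∀ v D, Ψ v D ≠ 0 → v ∈ Sec i σ lam δ ∧ D0 ≤ D ∧ D ≤ 2 * D0) :
    ∫ p : V2 × ℝ, ‖Ψ p.1 p.2‖ ^ 2 ≤ 3 * δ * lam ^ 2 * D0 := by
  obtain ⟨-, -, hv, hm⟩ := vol_bound (i := i) (c := 1) hσ hl hδ hD one_ne_zero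
  have hset : MeasurableSet (Sec i σ lam δ ×ˢ Icc D0 (2 * D0)) := hm.prod measurableSet_Icc
  have hvol : volume (Sec i σ lam δ ×ˢ Icc D0 (2 * D0)) ≤ ENNReal.ofReal (3 * δ * lam ^ 2 * D0) := by
    rw [Measure.volume_eq_prod, Measure.prod_prod, Real.volume_Icc]
    have h2 : 2 * D0 - D0 = D0 := by ring
    rw [h2, ENNReal.ofReal_mul (by positivity)]
    gcongr
  have hfin : volume (Sec i σ lam δ ×ˢ Icc D0 (2 * D0)) ≠ ⊤ := ne_top_of_le_ne_top ENNReal.ofReal_ne_top hvol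
  have h1 : ∀ p : V2 × ℝ, ‖Ψ p.1 p.2‖ ^ 2 ≤ (Sec i σ lam δ ×ˢ Icc D0 (2 * D0)).indicator (fun _ => (1 : ℝ)) p := by
    intro p
    by_cases hp : Ψ p.1 p.2 = 0
    · rw [hp]
      simp only [norm_zero, ne_eq, OfNat.ofNat_ne_zero, not_false_eq_true, zero_pow]
      exact Set.indicator_nonneg (fun _ _ => zero_le_one) _
    · have := hs _ _ hp
      rw [Set.indicator_of_mem (by exact ⟨this.1, this.2.1, this.2.2⟩)]
      have h3 := hb p.1 p.2
      have h4 := norm_nonneg (Ψ p.1 p.2)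
      nlinarith
  calc ∫ p : V2 × ℝ, ‖Ψ p.1 p.2‖ ^ 2
      ≤ ∫ p : V2 × ℝ, (Sec i σ lam δ ×ˢ Icc D0 (2 * D0)).indicator (fun _ => (1 : ℝ)) p := by
        refine integral_mono_of_nonneg (Eventually.of_forall fun p => by positivity) ?_ (Eventually.of_forall h1)
        exact (integrable_indicator_iff hset).2 (integrableOn_const hfin)
    _ = (volume (Sec i σ lam δ ×ˢ Icc D0 (2 * D0))).toReal := by
        rw [integral_indicator hset]
        simp [Measure.real]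
    _ ≤ 3 * δ * lam ^ 2 * D0 := ENNReal.toReal_le_of_le_ofReal (by positivity) hvol

theorem C3b_count (N : ℕ) (hN : 0 < N) (m : ℕ) :
    (((Finset.Icc 1 m).filter (fun c => N ∣ c)).card : ℝ) ≤ (m : ℝ) / N ∧
    ∑ c ∈ (Finset.Icc 1 m).filter (fun c => N ∣ c), (1 : ℝ) / c ≤ (1 + Real.log (1 + m)) / N := by
  have himg : (Finset.Icc 1 m).filter (fun c => N ∣ c) = (Finset.Icc 1 (m / N)).image (fun j => N * j) := by
    ext c
    simp only [Finset.mem_filter, Finset.mem_Icc, Finset.mem_image]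
    constructor
    · rintro ⟨⟨h1, h2⟩, ⟨j, rfl⟩⟩
      refine ⟨j, ⟨?_, ?_⟩, rfl⟩
      · rcases Nat.eq_zero_or_pos j with h | h
        · subst h; simp at h1
        · exact h
      · rw [Nat.le_div_iff_mul_le hN]
        rw [mul_comm]; exact h2
    · rintro ⟨j, ⟨h1, h2⟩, rfl⟩
      refine ⟨⟨Nat.mul_pos hN h1, ?_⟩, Dvd.intro _ rfl⟩
      rw [Nat.le_div_iff_mul_le hN] at h2
      rw [mul_comm]; exact h2
  have hinj : Function.Injective (fun j : ℕ => N * j) := fun x y h => Nat.eq_of_mul_eq_mul_left hN h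
  have hNr : (0 : ℝ) < N := by exact_mod_cast hN
  rw [himg]
  constructor
  · rw [Finset.card_image_of_injective _ hinj, Nat.card_Icc, Nat.add_sub_cancel]
    exact Nat.cast_div_le
  · rw [Finset.sum_image (fun x _ y _ h => hinj h)]
    have h1 : ∀ j ∈ Finset.Icc 1 (m / N), (1 : ℝ) / ((N * j : ℕ) : ℝ) = (1 / N) * (1 / j) := by
      intro j _
      push_cast
      rw [one_div_mul_one_div]
    rw [Finset.sum_congr rfl h1, ← Finset.mul_sum]
    have h2 : ∑ j ∈ Finset.Icc 1 (m / N), (1 : ℝ) / j = ((harmonic (m / N) : ℚ) : ℝ) := by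
      rw [harmonic_eq_sum_Icc]
      push_cast
      simp [one_div]
    have h3 : ((harmonic (m / N) : ℚ) : ℝ) ≤ 1 + Real.log (1 + m) := by
      have h4 : Real.log ((m / N : ℕ) : ℝ) ≤ Real.log (1 + m) := by
        rcases Nat.eq_zero_or_pos (m / N) with h | h
        · rw [h]
          simp only [Nat.cast_zero, Real.log_zero]
          exact Real.log_nonneg (by linarith [(Nat.cast_nonneg m : (0 : ℝ) ≤ m)])
        · refine Real.log_le_log (by exact_mod_cast h) ?_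
          have : ((m / N : ℕ) : ℝ) ≤ m := by exact_mod_cast Nat.div_le_self m N
          linarith
      exact (harmonic_le_one_add_log _).trans (by linarith)
    rw [h2]
    calc 1 / (N : ℝ) * ((harmonic (m / N) : ℚ) : ℝ) ≤ 1 / (N : ℝ) * (1 + Real.log (1 + m)) := by gcongr
      _ = _ := by ring

/-- splitting of a sum over `ℤ` supported on `N ∣ c`, `|c| ≤ m` -/
theorem C3b_split (N : ℕ) (P : ℤ → ℂ) (B : ℕ → ℝ) (m : ℕ) (h0 : ∀ c : ℤ, m < c.natAbs → P c = 0)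
    (hB : ∀ c : ℤ, c ≠ 0 → ‖P c‖ ≤ B c.natAbs) :
    ‖∑' c : ℤ, if (N : ℤ) ∣ c then P c else 0‖ ≤ ‖P 0‖ + 2 * ∑ c ∈ (Finset.Icc 1 m).filter (fun c => N ∣ c), B c := by
  have hsupp : ∀ c ∉ Finset.Icc (-(m : ℤ)) m, (if (N : ℤ) ∣ c then P c else 0) = 0 := by
    intro c hc
    have : m < c.natAbs := by
      rw [Finset.mem_Icc] at hc
      omega
    rw [h0 c this]
    simp
  rw [tsum_eq_sum hsupp]
  have hdec : Finset.Icc (-(m : ℤ)) m = insert 0 ((Finset.Icc 1 m).image (fun c : ℕ => (c : ℤ)) ∪ (Finset.Icc 1 m).image (fun c : ℕ => -(c : ℤ))) := by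
    ext c
    simp only [Finset.mem_Icc, Finset.mem_insert, Finset.mem_union, Finset.mem_image]
    constructor
    · rintro ⟨h1, h2⟩
      rcases lt_trichotomy c 0 with h | h | h
      · right; right; exact ⟨c.natAbs, by omega, by omega⟩
      · left; exact h
      · right; left; exact ⟨c.natAbs, by omega, by omega⟩
    · rintro (h | ⟨a, h1, h2⟩ | ⟨a, h1, h2⟩) <;> omega
  have hdisj : Disjoint ((Finset.Icc 1 m).image (fun c : ℕ => (c : ℤ))) ((Finset.Icc 1 m).image (fun c : ℕ => -(c : ℤ))) := by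
    rw [Finset.disjoint_left]
    intro c hc hc'
    simp only [Finset.mem_Icc, Finset.mem_image] at hc hc'
    obtain ⟨a, h1, h2⟩ := hc
    obtain ⟨b, h3, h4⟩ := hc'
    omega
  have h0n : (0 : ℤ) ∉ (Finset.Icc 1 m).image (fun c : ℕ => (c : ℤ)) ∪ (Finset.Icc 1 m).image (fun c : ℕ => -(c : ℤ)) := by
    simp only [Finset.mem_Icc, Finset.mem_union, Finset.mem_image, not_or, not_exists, not_and]
    constructor <;> intro a ha <;> omega
  rw [hdec, Finset.sum_insert h0n, Finset.sum_union hdisj,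
    Finset.sum_image (fun x _ y _ h => by simpa using h), Finset.sum_image (fun x _ y _ h => by simpa using h)]
  have hone : ∀ s : ℤ, (s = 1 ∨ s = -1) → ‖∑ c ∈ Finset.Icc 1 m, (if (N : ℤ) ∣ s * (c : ℤ) then P (s * c) else 0)‖ ≤
      ∑ c ∈ (Finset.Icc 1 m).filter (fun c => N ∣ c), B c := by
    intro s hs
    refine (norm_sum_le _ _).trans ?_
    rw [Finset.sum_filter]
    refine Finset.sum_le_sum fun c hc => ?_
    rw [Finset.mem_Icc] at hc
    have hiff : (N : ℤ) ∣ s * (c : ℤ) ↔ N ∣ c := by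
      rcases hs with rfl | rfl
      · rw [one_mul, Int.natCast_dvd_natCast]
      · rw [neg_one_mul, dvd_neg, Int.natCast_dvd_natCast]
    by_cases hd : N ∣ c
    · rw [if_pos (hiff.2 hd), if_pos hd]
      have hne : s * (c : ℤ) ≠ 0 := by rcases hs with rfl | rfl <;> omega
      have hab : (s * (c : ℤ)).natAbs = c := by rcases hs with rfl | rfl <;> omega
      have := hB _ hne
      rwa [hab] at this
    · rw [if_neg (fun h => hd (hiff.1 h)), if_neg hd]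
      simp
  have e1 := hone 1 (Or.inl rfl)
  have e2 := hone (-1) (Or.inr rfl)
  simp only [one_mul, neg_one_mul] at e1 e2
  calc _ ≤ ‖(if (N : ℤ) ∣ 0 then P 0 else 0)‖ + (‖∑ c ∈ Finset.Icc 1 m, (if (N : ℤ) ∣ (c : ℤ) then P c else 0)‖ +
        ‖∑ c ∈ Finset.Icc 1 m, (if (N : ℤ) ∣ -(c : ℤ) then P (-c) else 0)‖) :=
        (norm_add_le _ _).trans (add_le_add le_rfl (norm_add_le _ _))
    _ ≤ _ := by
        rw [if_pos (dvd_zero _)]
        linarith

/-- **C3b. Norm of a sum of Poincaré series.** B4 (`group_PG`), B3 for `c = 0` (gives `≤ 3δlam²D₀ ∑|a|²`,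
since `∫₀¹ |∑ a_n e(n x)|² = ∑ |a_n|²`, `|Ψ| ≤ 1`, volume `3δlam²` of the sector and length `D₀`), C3a for `c ≠ 0`, and
`∑_{0<|c| ≤ R, N∣c} |c|⁻¹ (2K+|c|) ≤ 2 (2K(1+log(1+R)) + R)/N`, `R = 8δlam²/D₀`. -/
theorem norm_multi : ∃ C : ℝ, 0 < C ∧ ∀ N : ℕ, 0 < N → ∀ (i : Bool) (σ lam δ D0 K : ℝ),
    (σ = 1 ∨ σ = -1) → 0 < lam → 0 < δ → δ ≤ 1 → 0 < D0 → 1 ≤ K → ∀ F : Finset ℤ,
    (∀ n ∈ F, |(n : ℝ)| ≤ K) → ∀ (a : ℤ → ℂ) (Ψ : V2 → ℝ → ℂ),
    Measurable (fun p : V2 × ℝ => Ψ p.1 p.2) → (∀ v D, ‖Ψ v D‖ ≤ 1) →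
    (∀ v D, Ψ v D ≠ 0 → v ∈ Sec i σ lam δ ∧ D0 ≤ D ∧ D ≤ 2 * D0) →
    (pair (PG N) (poin 1 i fun x v D => (∑ n ∈ F, a n * ex (n * x)) * Ψ v D)
      (poin 1 i fun x v D => (∑ n ∈ F, a n * ex (n * x)) * Ψ v D)).re ≤
      C * (δ * lam ^ 2 * D0) * (1 + (K * (1 + Real.log (1 + 8 * δ * lam ^ 2 / D0)) +
        8 * δ * lam ^ 2 / D0) / N) * ∑ n ∈ F, ‖a n‖ ^ 2 := by
  refine ⟨12, by norm_num, ?_⟩
  intro N hN i σ lam δ D0 K hσ hl hδ _ hD hK F hF a Ψ hm hb hs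
  have hper : Per i (fun x v D => (∑ n ∈ F, a n * ex (n * x)) * Ψ v D) :=
    per_sum hσ hl hδ hD F a hm ⟨1, hb⟩ hs
  have hadm : Adm (poin 1 i fun x v D => (∑ n ∈ F, a n * ex (n * x)) * Ψ v D) := poin_adm one_pos hper
  set φ := poin 1 i fun x v D => (∑ n ∈ F, a n * ex (n * x)) * Ψ v D with hφ
  set S := ∑ n ∈ F, ‖a n‖ ^ 2 with hS
  set R := 8 * δ * lam ^ 2 / D0 with hR
  have hS0 : 0 ≤ S := Finset.sum_nonneg fun _ _ => by positivity
  have hR0 : 0 < R := by positivity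
  have hNr : (0 : ℝ) < N := by exact_mod_cast hN
  rw [group_PG N hadm hadm]
  have hP0 : ‖pair (fun M => M.1 1 0 = 0) φ φ‖ ≤ 3 * δ * lam ^ 2 * D0 * S := by
    rw [hφ, gram_0 hσ hper]
    · have hnn : 0 ≤ ∫ p in (Ico (0 : ℝ) 1) ×ˢ (univ : Set (V2 × ℝ)), ‖(∑ n ∈ F, a n * ex (n * p.1)) * Ψ p.2.1 p.2.2‖ ^ 2 :=
        integral_nonneg fun _ => by positivity
      rw [Complex.norm_real, Real.norm_of_nonneg hnn]
      have h1 : ∀ p : ℝ × V2 × ℝ, ‖(∑ n ∈ F, a n * ex (n * p.1)) * Ψ p.2.1 p.2.2‖ ^ 2 =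
          ‖(∑ n ∈ F, a n * ex (n * p.1))‖ ^ 2 * ‖Ψ p.2.1 p.2.2‖ ^ 2 := by
        intro p
        rw [norm_mul, mul_pow]
      simp_rw [h1]
      rw [Measure.volume_eq_prod, setIntegral_prod_mul (fun x : ℝ => ‖(∑ n ∈ F, a n * ex (n * x))‖ ^ 2)
        (fun q : V2 × ℝ => ‖Ψ q.1 q.2‖ ^ 2), C3b_parseval, setIntegral_univ]
      have h2 := C3b_psi hσ hl hδ hD hb hs
      rw [mul_comm]
      exact mul_le_mul_of_nonneg_right h2 hS0
    · intro x v D h
      have h1 : Ψ v D ≠ 0 := right_ne_zero_of_mul h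
      have := (hs v D h1).1.1
      linarith
  have hfib : ∀ c : ℤ, c ≠ 0 → ‖pair (fun M => M.1 1 0 = c) φ φ‖ ≤
      if |(c : ℝ)| ≤ R then 3 * δ * lam ^ 2 * D0 / |(c : ℝ)| * (2 * K + |(c : ℝ)|) * S else 0 :=
    fun c hc => fibre_multi hσ hl hδ hD hK hF hm hb hs hc
  have habs : ∀ c : ℤ, |(c : ℝ)| = (c.natAbs : ℝ) := fun c => by rw [Nat.cast_natAbs]; push_cast; rfl
  have key := C3b_split N (fun c => pair (fun M => M.1 1 0 = c) φ φ)
    (fun c => 3 * δ * lam ^ 2 * D0 / c * (2 * K + c) * S) ⌊R⌋₊ (by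
      intro c hc
      have hc0 : c ≠ 0 := by rintro rfl; simp at hc
      have h1 := hfib c hc0
      rw [habs, if_neg] at h1
      · exact norm_le_zero_iff.1 h1
      · rw [not_le]
        exact (Nat.floor_lt hR0.le).1 hc) (by
      intro c hc
      refine (hfib c hc).trans ?_
      rw [habs]
      split_ifs
      · exact le_rfl
      · positivity)
  refine (Complex.re_le_norm _).trans (key.trans ?_)
  obtain ⟨hc1, hc2⟩ := C3b_count N hN ⌊R⌋₊
  have hfl : ((⌊R⌋₊ : ℕ) : ℝ) ≤ R := Nat.floor_le hR0.le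
  have hsum : ∀ S : ℝ, ∑ c ∈ (Finset.Icc 1 ⌊R⌋₊).filter (fun c => N ∣ c), 3 * δ * lam ^ 2 * D0 / (c : ℝ) * (2 * K + c) * S =
      3 * δ * lam ^ 2 * D0 * S * (2 * K * ∑ c ∈ (Finset.Icc 1 ⌊R⌋₊).filter (fun c => N ∣ c), (1 : ℝ) / c +
        (((Finset.Icc 1 ⌊R⌋₊).filter (fun c => N ∣ c)).card : ℝ)) := by
    intro S
    rw [Finset.card_eq_sum_ones]
    push_cast
    rw [Finset.mul_sum, ← Finset.sum_add_distrib, Finset.mul_sum]
    refine Finset.sum_congr rfl fun c hc => ?_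
    rw [Finset.mem_filter, Finset.mem_Icc] at hc
    have : (c : ℝ) ≠ 0 := by
      have : 0 < c := hc.1.1
      exact_mod_cast this.ne'
    field_simp
  rw [hsum]
  have hlog : Real.log (1 + (⌊R⌋₊ : ℕ)) ≤ Real.log (1 + R) :=
    Real.log_le_log (by positivity) (by linarith)
  have hlog0 : 0 ≤ Real.log (1 + R) := Real.log_nonneg (by linarith)
  have hb1 : ∑ c ∈ (Finset.Icc 1 ⌊R⌋₊).filter (fun c => N ∣ c), (1 : ℝ) / c ≤ (1 + Real.log (1 + R)) / N :=
    hc2.trans (by gcongr)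
  have hb2 : (((Finset.Icc 1 ⌊R⌋₊).filter (fun c => N ∣ c)).card : ℝ) ≤ R / N := hc1.trans (by gcongr)
  have hq : 2 * K * ∑ c ∈ (Finset.Icc 1 ⌊R⌋₊).filter (fun c => N ∣ c), (1 : ℝ) / c +
        (((Finset.Icc 1 ⌊R⌋₊).filter (fun c => N ∣ c)).card : ℝ) ≤ 2 * ((K * (1 + Real.log (1 + R)) + R) / N) := by
    have h1 : 2 * K * ∑ c ∈ (Finset.Icc 1 ⌊R⌋₊).filter (fun c => N ∣ c), (1 : ℝ) / c ≤ 2 * K * ((1 + Real.log (1 + R)) / N) := by
      gcongr
    have h2 : 0 ≤ R / N := by positivity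
    calc _ ≤ 2 * K * ((1 + Real.log (1 + R)) / N) + R / N := add_le_add h1 hb2
      _ ≤ 2 * K * ((1 + Real.log (1 + R)) / N) + 2 * (R / N) := by linarith
      _ = _ := by ring
  have hA : 0 ≤ 3 * δ * lam ^ 2 * D0 * S := by positivity
  have hQ0 : 0 ≤ (K * (1 + Real.log (1 + R)) + R) / N := by positivity
  calc ‖pair (fun M => M.1 1 0 = 0) φ φ‖ + 2 * (3 * δ * lam ^ 2 * D0 * S * (2 * K * ∑ c ∈ (Finset.Icc 1 ⌊R⌋₊).filter (fun c => N ∣ c), (1 : ℝ) / c +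
        (((Finset.Icc 1 ⌊R⌋₊).filter (fun c => N ∣ c)).card : ℝ)))
      ≤ 3 * δ * lam ^ 2 * D0 * S + 2 * (3 * δ * lam ^ 2 * D0 * S * (2 * ((K * (1 + Real.log (1 + R)) + R) / N))) := by
        gcongr
    _ ≤ 12 * (δ * lam ^ 2 * D0) * (1 + (K * (1 + Real.log (1 + R)) + R) / N) * S := by
        nlinarith [mul_nonneg hA hQ0, hA]

end SG

end
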