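import Pool.Agent.Lib.MP_39df77_nt.S6Defs
import Pool.Agent.Lib.MP_39df77_nt.Part04
import Pool.Agent.Lib.MP_39df77_nt.Part12
import Pool.Agent.Lib.MP_39df77_nt.Part01
import Pool.Agent.Lib.MP_39df77_nt.Part13
import Pool.Agent.Lib.MP_39df77_nt.Part06
import Pool.Agent.Lib.MP_39df77_nt.Part02

/-! Row dual -/

namespace S6
open Complex MeasureTheory Filter Topology Set
open scoped Real ComplexConjugate

-- BEGIN DEPS
-- END DEPS

/-! ### elementary facts -/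

theorem dual_cpow_mul {Z : ℂ} (hZ : Z ≠ 0) {r : ℝ} (hr : 0 < r) (s : ℂ) :
    (Z * (r : ℂ)) ^ s = Z ^ s * (r : ℂ) ^ s := by
  have hr0 : (r : ℂ) ≠ 0 := by exact_mod_cast hr.ne'
  rw [Complex.cpow_def_of_ne_zero (mul_ne_zero hZ hr0), Complex.cpow_def_of_ne_zero hZ,
    Complex.cpow_def_of_ne_zero hr0, mul_comm Z, Complex.log_ofReal_mul hr hZ, ← Complex.exp_add,
    Complex.ofReal_log hr.le]
  congr 1
  ring

theorem dual_poly_exp (A : ℝ) {δ : ℝ} (hδ : 0 < δ) :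
    ∃ C : ℝ, 0 ≤ C ∧ ∀ x : ℝ, 0 ≤ x → (1 + x) ^ A * Real.exp (-(δ * x)) ≤ C := by
  obtain ⟨n, hn⟩ := exists_nat_ge A
  refine ⟨(n.factorial : ℝ) / δ ^ n * Real.exp δ, by positivity, ?_⟩
  intro x hx
  have h1 : (1 : ℝ) ≤ 1 + x := by linarith
  have h2 : (1 + x) ^ A ≤ (1 + x) ^ n := by
    rw [← Real.rpow_natCast]
    exact Real.rpow_le_rpow_of_exponent_le h1 hn
  have h3 := Real.pow_div_factorial_le_exp (δ * (1 + x)) (by positivity) n
  have h4 : (1 + x) ^ n ≤ (n.factorial : ℝ) / δ ^ n * Real.exp (δ * (1 + x)) := by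
    rw [mul_pow] at h3
    rw [div_le_iff₀ (by positivity)] at h3
    rw [div_mul_eq_mul_div, le_div_iff₀ (by positivity)]
    linarith
  calc (1 + x) ^ A * Real.exp (-(δ * x))
      ≤ ((n.factorial : ℝ) / δ ^ n * Real.exp (δ * (1 + x))) * Real.exp (-(δ * x)) :=
        mul_le_mul_of_nonneg_right (h2.trans h4) (Real.exp_pos _).le
    _ = (n.factorial : ℝ) / δ ^ n * Real.exp δ := by
        rw [mul_assoc, ← Real.exp_add]
        congr 2
        ring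

theorem dual_norm_cpow {W : ℂ} (hW : 0 < W.re) {s : ℂ} (h1 : -1 / 2 ≤ s.re) (h2 : s.re ≤ 2) :
    ‖W ^ (-s)‖ ≤ (‖W‖ ^ (1 / 2 : ℝ) + ‖W‖ ^ (-2 : ℝ)) * Real.exp (|arg W| * |s.im|) := by
  have hW0 : W ≠ 0 := by
    rintro rfl
    simp at hW
  have hn : 0 < ‖W‖ := norm_pos_iff.2 hW0
  rw [Complex.norm_cpow_of_ne_zero hW0, neg_re, neg_im, mul_neg, Real.exp_neg, div_inv_eq_mul]
  apply mul_le_mul _ _ (Real.exp_pos _).le (by positivity)
  · rcases le_total 1 ‖W‖ with h | h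
    · have h3 : ‖W‖ ^ (-s.re) ≤ ‖W‖ ^ (1 / 2 : ℝ) :=
        Real.rpow_le_rpow_of_exponent_le h (by linarith)
      have h4 : 0 ≤ ‖W‖ ^ (-2 : ℝ) := by positivity
      linarith
    · have h3 : ‖W‖ ^ (-s.re) ≤ ‖W‖ ^ (-2 : ℝ) :=
        Real.rpow_le_rpow_of_exponent_ge hn h (by linarith)
      have h4 : 0 ≤ ‖W‖ ^ (1 / 2 : ℝ) := by positivity
      linarith
  · apply Real.exp_le_exp.2
    rw [← abs_mul]
    exact le_abs_self _

theorem dual_hurwitz (q : ℕ) [NeZero q] : ∃ C A : ℝ, 0 ≤ C ∧ 0 ≤ A ∧ ∀ a : ZMod q, ∀ s : ℂ,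
    -1 / 2 ≤ s.re → s.re ≤ 2 → 1 ≤ |s.im| →
    ‖HurwitzZeta.hurwitzZeta (ZMod.toAddCircle a) s‖ ≤ C * (1 + |s.im|) ^ A := by
  choose C A hCA using hurwitz_growth q
  refine ⟨∑ a, |C a|, ∑ a, |A a|, Finset.sum_nonneg fun a _ => abs_nonneg _,
    Finset.sum_nonneg fun a _ => abs_nonneg _, ?_⟩
  intro a s h1 h2 h3
  have hA : A a ≤ ∑ a, |A a| := (le_abs_self _).trans
    (Finset.single_le_sum (f := fun a => |A a|) (fun a _ => abs_nonneg _) (Finset.mem_univ a))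
  have hC : C a ≤ ∑ a, |C a| := (le_abs_self _).trans
    (Finset.single_le_sum (f := fun a => |C a|) (fun a _ => abs_nonneg _) (Finset.mem_univ a))
  have h4 : (1 : ℝ) ≤ 1 + |s.im| := by linarith [abs_nonneg s.im]
  calc ‖HurwitzZeta.hurwitzZeta (ZMod.toAddCircle a) s‖ ≤ C a * (1 + |s.im|) ^ (A a) :=
        hCA a s h1 h2 h3
    _ ≤ (∑ a, |C a|) * (1 + |s.im|) ^ (A a) :=
        mul_le_mul_of_nonneg_right hC (by positivity)
    _ ≤ (∑ a, |C a|) * (1 + |s.im|) ^ (∑ a, |A a|) := by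
        apply mul_le_mul_of_nonneg_left _ (Finset.sum_nonneg fun a _ => abs_nonneg _)
        exact Real.rpow_le_rpow_of_exponent_le h4 hA

theorem dual_char_norm {q : ℕ} [NeZero q] (a : ZMod q) : ‖(ZMod.stdAddChar a : ℂ)‖ = 1 := by
  have : (ZMod.stdAddChar a : ℂ) = ((ZMod.toCircle a : Circle) : ℂ) := ZMod.stdAddChar_apply a
  rw [this]
  exact Circle.norm_coe _

theorem dual_DD_growth (q : ℕ) [NeZero q] (h : ZMod q) : ∃ C A : ℝ, 0 ≤ C ∧ 0 ≤ A ∧ ∀ s : ℂ,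
    -1 / 2 ≤ s.re → s.re ≤ 2 → 1 ≤ |s.im| → ‖DD q h s‖ ≤ C * (1 + |s.im|) ^ A := by
  obtain ⟨C, A, hC0, hA0, hCA⟩ := dual_hurwitz q
  refine ⟨(q : ℝ) ^ (3 / 2 : ℝ) * ((q : ℝ) * ((q : ℝ) * ((q : ℝ) * C ^ 3))), A * 3, by positivity,
    by positivity, ?_⟩
  intro s h1 h2 h3
  have hq : 0 < (q : ℝ) := by exact_mod_cast Nat.pos_of_ne_zero (NeZero.ne q)
  have hq1 : (1 : ℝ) ≤ (q : ℝ) := by exact_mod_cast Nat.pos_of_ne_zero (NeZero.ne q)
  set X := (1 + |s.im|) ^ A with hX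
  have h4 : (0 : ℝ) < 1 + |s.im| := by linarith [abs_nonneg s.im]
  have hX0 : 0 ≤ X := by positivity
  have hX3 : (1 + |s.im|) ^ (A * 3) = X ^ 3 := by
    rw [hX, Real.rpow_mul h4.le]
    norm_cast
  have hqn : ‖(q : ℂ) ^ (-(3 * s))‖ ≤ (q : ℝ) ^ (3 / 2 : ℝ) := by
    have e : (q : ℂ) = ((q : ℝ) : ℂ) := by push_cast; rfl
    rw [e, Complex.norm_cpow_eq_rpow_re_of_pos hq]
    apply Real.rpow_le_rpow_of_exponent_le hq1
    have e2 : (-(3 * s)).re = -(3 * s.re) := by simp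
    rw [e2]
    linarith
  have hterm : ∀ a b c : ZMod q, ‖(ZMod.stdAddChar (-(h * a * b * c)) : ℂ) *
      (HurwitzZeta.hurwitzZeta (ZMod.toAddCircle a) s *
      HurwitzZeta.hurwitzZeta (ZMod.toAddCircle b) s *
      HurwitzZeta.hurwitzZeta (ZMod.toAddCircle c) s)‖ ≤ C ^ 3 * X ^ 3 := by
    intro a b c
    rw [norm_mul, dual_char_norm, one_mul, norm_mul, norm_mul]
    have ha := hCA a s h1 h2 h3
    have hb := hCA b s h1 h2 h3
    have hc := hCA c s h1 h2 h3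
    calc _ ≤ (C * X) * (C * X) * (C * X) := by
          apply mul_le_mul (mul_le_mul ha hb (norm_nonneg _) (by positivity)) hc (norm_nonneg _)
            (by positivity)
      _ = _ := by ring
  have hcard : (Finset.univ : Finset (ZMod q)).card = q := by
    rw [Finset.card_univ, ZMod.card]
  have h5 : ‖∑ a : ZMod q, ∑ b : ZMod q, ∑ c : ZMod q,
    (ZMod.stdAddChar (-(h * a * b * c)) : ℂ) * (HurwitzZeta.hurwitzZeta (ZMod.toAddCircle a) s *
      HurwitzZeta.hurwitzZeta (ZMod.toAddCircle b) s *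
      HurwitzZeta.hurwitzZeta (ZMod.toAddCircle c) s)‖ ≤ (q : ℝ) * ((q : ℝ) * ((q : ℝ) * (C ^ 3 * X ^ 3))) := by
    calc _ ≤ ∑ a : ZMod q, ((q : ℝ) * ((q : ℝ) * (C ^ 3 * X ^ 3))) := by
          apply norm_sum_le_of_le
          intro a _
          calc _ ≤ ∑ b : ZMod q, ((q : ℝ) * (C ^ 3 * X ^ 3)) := by
                apply norm_sum_le_of_le
                intro b _
                calc _ ≤ ∑ c : ZMod q, (C ^ 3 * X ^ 3) := by
                      apply norm_sum_le_of_le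
                      intro c _
                      exact hterm a b c
                  _ = _ := by rw [Finset.sum_const, hcard, nsmul_eq_mul]
            _ = _ := by rw [Finset.sum_const, hcard, nsmul_eq_mul]
      _ = _ := by rw [Finset.sum_const, hcard, nsmul_eq_mul]
  unfold DD
  rw [norm_mul, hX3]
  calc _ ≤ (q : ℝ) ^ (3 / 2 : ℝ) * ((q : ℝ) * ((q : ℝ) * ((q : ℝ) * (C ^ 3 * X ^ 3)))) :=
        mul_le_mul hqn h5 (norm_nonneg _) (by positivity)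
    _ = _ := by ring

theorem dual_F_growth (q : ℕ) [NeZero q] (h : ZMod q) {F : ℂ → ℂ} (hF : Differentiable ℂ F)
    (hDD : ∀ s : ℂ, s ≠ 1 → DD q h s = F s / (s - 1) ^ 3) :
    ∃ C A : ℝ, 0 ≤ C ∧ 0 ≤ A ∧ ∀ s : ℂ, -1 / 2 ≤ s.re → s.re ≤ 2 →
      ‖F s‖ ≤ C * (1 + |s.im|) ^ A := by
  obtain ⟨C, A, hC0, hA0, hCA⟩ := dual_DD_growth q h
  -- compact part
  have hK : IsCompact (Icc (-1 / 2 : ℝ) 2 ×ℂ Icc (-1 : ℝ) 1) := isCompact_Icc.reProdIm isCompact_Icc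
  obtain ⟨D, hD⟩ := hK.exists_bound_of_continuousOn hF.continuous.continuousOn
  refine ⟨|D| + 8 * C, A + 3, by positivity, by positivity, ?_⟩
  intro s h1 h2
  have h4 : (1 : ℝ) ≤ 1 + |s.im| := by linarith [abs_nonneg s.im]
  have h5 : 1 ≤ (1 + |s.im|) ^ (A + 3) := Real.one_le_rpow h4 (by positivity)
  have h6 : 0 ≤ 8 * C := by positivity
  rcases le_total |s.im| 1 with h3 | h3
  · have h7 : ‖F s‖ ≤ D := hD s (by
      rw [Complex.mem_reProdIm]
      exact ⟨⟨h1, h2⟩, abs_le.1 h3⟩)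
    calc ‖F s‖ ≤ |D| := h7.trans (le_abs_self _)
      _ ≤ (|D| + 8 * C) * 1 := by linarith
      _ ≤ _ := mul_le_mul_of_nonneg_left h5 (by positivity)
  · have hs1 : s ≠ 1 := by
      rintro rfl
      simp at h3
      linarith
    have hs0 : (s - 1) ≠ 0 := sub_ne_zero.2 hs1
    have e : F s = (s - 1) ^ 3 * DD q h s := by
      rw [hDD s hs1]
      field_simp
    have h7 : ‖s - 1‖ ≤ 2 * (1 + |s.im|) := by
      calc ‖s - 1‖ ≤ |(s - 1).re| + |(s - 1).im| := Complex.norm_le_abs_re_add_abs_im _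
        _ ≤ 2 * (1 + |s.im|) := by
          have e1 : (s - 1).re = s.re - 1 := by simp
          have e2 : (s - 1).im = s.im := by simp
          rw [e1, e2]
          have : |s.re - 1| ≤ 2 := abs_le.2 ⟨by linarith, by linarith⟩
          linarith [abs_nonneg s.im]
    rw [e, norm_mul, norm_pow]
    calc ‖s - 1‖ ^ 3 * ‖DD q h s‖ ≤ (2 * (1 + |s.im|)) ^ 3 * (C * (1 + |s.im|) ^ A) :=
          mul_le_mul (pow_le_pow_left₀ (norm_nonneg _) h7 3) (hCA s h1 h2 h3) (norm_nonneg _)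
            (by positivity)
      _ = 8 * C * (1 + |s.im|) ^ (A + 3) := by
          rw [Real.rpow_add (by linarith)]
          have : (1 + |s.im|) ^ (3 : ℝ) = (1 + |s.im|) ^ 3 := by norm_cast
          rw [this]
          ring
      _ ≤ (|D| + 8 * C) * (1 + |s.im|) ^ (A + 3) := by
          apply mul_le_mul_of_nonneg_right _ (by positivity)
          linarith [abs_nonneg D]

theorem dual_deriv {Z : ℂ} (hZ : Z ≠ 0) {P : ℂ → ℂ} (hP : ∀ s : ℂ, 0 < s.re → DifferentiableAt ℂ P s) :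
    iteratedDeriv 2 (fun s => Z ^ (-s) * P s) 1 =
      Z⁻¹ * (deriv (deriv P) 1 - 2 * Complex.log Z * deriv P 1 + Complex.log Z ^ 2 * P 1) := by
  have hopen : IsOpen {s : ℂ | 0 < s.re} := isOpen_lt continuous_const Complex.continuous_re
  have hE : ∀ s : ℂ, HasDerivAt (fun s : ℂ => Z ^ (-s)) (-(Complex.log Z) * Z ^ (-s)) s := by
    intro s
    have h1 : HasDerivAt (fun s : ℂ => -s) (-1) s := (hasDerivAt_id s).neg
    have h2 := h1.const_cpow (c := Z) (Or.inl hZ)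
    have e : Z ^ (-s) * Complex.log Z * (-1) = -(Complex.log Z) * Z ^ (-s) := by ring
    rw [e] at h2
    exact h2
  have hP1 : DifferentiableOn ℂ P {s : ℂ | 0 < s.re} := fun s hs => (hP s hs).differentiableWithinAt
  have hP2 : ∀ s : ℂ, 0 < s.re → DifferentiableAt ℂ (deriv P) s := by
    intro s hs
    have := hP1.deriv hopen
    exact (this s hs).differentiableAt (hopen.mem_nhds hs)
  have h1 : ∀ s : ℂ, 0 < s.re → HasDerivAt (fun s => Z ^ (-s) * P s)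
      (Z ^ (-s) * (deriv P s - Complex.log Z * P s)) s := by
    intro s hs
    have e : Z ^ (-s) * (deriv P s - Complex.log Z * P s) =
      -(Complex.log Z) * Z ^ (-s) * P s + Z ^ (-s) * deriv P s := by ring
    rw [e]
    exact (hE s).mul (hP s hs).hasDerivAt
  have h2 : deriv (fun s => Z ^ (-s) * P s) =ᶠ[𝓝 1]
      fun s => Z ^ (-s) * (deriv P s - Complex.log Z * P s) := by
    filter_upwards [hopen.mem_nhds (show (1 : ℂ) ∈ {s : ℂ | 0 < s.re} by simp)] with s hs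
    exact (h1 s hs).deriv
  have h11 : (0 : ℝ) < (1 : ℂ).re := by simp
  have h3 : HasDerivAt (fun s => Z ^ (-s) * (deriv P s - Complex.log Z * P s))
      (-(Complex.log Z) * Z ^ (-(1 : ℂ)) * (deriv P 1 - Complex.log Z * P 1) +
        Z ^ (-(1 : ℂ)) * (deriv (deriv P) 1 - Complex.log Z * deriv P 1)) 1 := by
    exact (hE 1).mul ((hP2 1 h11).hasDerivAt.sub ((hP 1 h11).hasDerivAt.const_mul _))
  rw [iteratedDeriv_succ, iteratedDeriv_one, h2.deriv_eq, h3.deriv, Complex.cpow_neg_one]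
  ring

theorem dual_SI_le (q : ℕ) [NeZero q] (h : ZMod q) (i : Ix) : ‖SI q h i‖ ≤ (q : ℝ) ^ 3 := by
  have hcard : (Finset.univ : Finset (ZMod q)).card = q := by
    rw [Finset.card_univ, ZMod.card]
  unfold SI SS
  calc _ ≤ ∑ a : ZMod q, ((q : ℝ) * ((q : ℝ) * 1)) := by
        apply norm_sum_le_of_le
        intro a _
        calc _ ≤ ∑ b : ZMod q, ((q : ℝ) * 1) := by
              apply norm_sum_le_of_le
              intro b _
              calc _ ≤ ∑ c : ZMod q, (1 : ℝ) := by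
                    apply norm_sum_le_of_le
                    intro c _
                    rw [dual_char_norm]
                _ = _ := by rw [Finset.sum_const, hcard, nsmul_eq_mul]
          _ = _ := by rw [Finset.sum_const, hcard, nsmul_eq_mul]
    _ = (q : ℝ) ^ 3 := by
        rw [Finset.sum_const, hcard, nsmul_eq_mul]
        ring

theorem dual_pr_pos (i : Ix) : 0 < pr i := by
  unfold pr
  positivity

theorem dual_es (i : Ix) : |es i| ≤ 3 := by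
  unfold es sg
  rcases i with ⟨⟨a, b, c⟩, n⟩
  cases a <;> cases b <;> cases c <;> simp

theorem dual_summable_one : Summable (fun n : ℕ => ((n + 1 : ℕ) : ℝ) ^ (-(3 / 2) : ℝ)) :=
  (summable_nat_add_iff (f := fun n : ℕ => (n : ℝ) ^ (-(3 / 2) : ℝ)) 1).2
    (Real.summable_nat_rpow.2 (by norm_num))

theorem dual_summable_pr : Summable (fun i : Ix => (pr i) ^ (-(3 / 2) : ℝ)) := by
  have h0 : ∀ n : ℕ, 0 ≤ ((n + 1 : ℕ) : ℝ) ^ (-(3 / 2) : ℝ) := fun n => by positivity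
  have h1 := dual_summable_one
  have h2 : Summable (fun x : ℕ × ℕ => ((x.1 + 1 : ℕ) : ℝ) ^ (-(3 / 2) : ℝ) *
      ((x.2 + 1 : ℕ) : ℝ) ^ (-(3 / 2) : ℝ)) := h1.mul_of_nonneg h1 h0 h0
  have h3 : Summable (fun x : ℕ × ℕ × ℕ => ((x.1 + 1 : ℕ) : ℝ) ^ (-(3 / 2) : ℝ) *
      (((x.2.1 + 1 : ℕ) : ℝ) ^ (-(3 / 2) : ℝ) * ((x.2.2 + 1 : ℕ) : ℝ) ^ (-(3 / 2) : ℝ))) :=
    h1.mul_of_nonneg h2 h0 (fun x => by positivity)
  have h4 : Summable (fun _ : Bool × Bool × Bool => (1 : ℝ)) := Summable.of_finite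
  have h5 := h4.mul_of_nonneg h3 (fun _ => zero_le_one) (fun x => by positivity)
  refine h5.congr ?_
  intro i
  unfold pr
  rw [one_mul, Real.mul_rpow (by positivity) (by positivity), Real.mul_rpow (by positivity)
    (by positivity), mul_assoc]

theorem dual_ofReal_cpow {x : ℝ} (hx : 0 < x) (s : ℂ) :
    (x : ℂ) ^ s = cexp ((Real.log x : ℂ) * s) := by
  have hx0 : (x : ℂ) ≠ 0 := by exact_mod_cast hx.ne'
  rw [Complex.cpow_def_of_ne_zero hx0, Complex.ofReal_log hx.le]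

/-- the terms of the dual series -/
theorem dual_term (q : ℕ) [NeZero q] (h : ℕ) (hh : 0 < h) {Z : ℂ} (hZ : Z ≠ 0) (s : ℂ) (i : Ix) :
    Gamma s * (Z * ((h / q : ℝ) : ℂ)) ^ (-s) *
      ((q : ℂ) ^ (-(3 * s)) * ((2 * π) ^ (s - 1) * Gamma (1 - s)) ^ 3) *
      (cexp (-(π * I * (1 - s) * es i / 2)) * (pr i : ℂ) ^ (s - 1) * SI q h i) =
    ((pr i : ℂ))⁻¹ * SI q h i * (kk (es i) s * (Z * ((h * q ^ 2 / pr i : ℝ) : ℂ)) ^ (-s)) := by
  have hq : 0 < (q : ℝ) := by exact_mod_cast Nat.pos_of_ne_zero (NeZero.ne q)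
  have hh' : 0 < (h : ℝ) := by exact_mod_cast hh
  have hp : 0 < pr i := dual_pr_pos i
  have hpc : (pr i : ℂ) ≠ 0 := by exact_mod_cast hp.ne'
  have eq : (q : ℂ) = ((q : ℝ) : ℂ) := by push_cast; rfl
  have e1 : (pr i : ℂ)⁻¹ = cexp (-(Real.log (pr i) : ℂ)) := by
    have := dual_ofReal_cpow hp (-1)
    rw [Complex.cpow_neg_one] at this
    rw [this]
    congr 1
    ring
  have e2 : (((h * q ^ 2 / pr i : ℝ)) : ℂ) ^ (-s) * cexp (-(Real.log (pr i) : ℂ)) =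
      ((h / q : ℝ) : ℂ) ^ (-s) * (q : ℂ) ^ (-(3 * s)) * (pr i : ℂ) ^ (s - 1) := by
    rw [eq, dual_ofReal_cpow (by positivity), dual_ofReal_cpow (by positivity),
      dual_ofReal_cpow hq, dual_ofReal_cpow hp, ← Complex.exp_add, ← Complex.exp_add,
      ← Complex.exp_add, Real.log_div (by positivity) (by positivity),
      Real.log_mul (by positivity) (by positivity), Real.log_pow,
      Real.log_div (by positivity) (by positivity)]
    congr 1
    push_cast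
    ring
  rw [dual_cpow_mul hZ (by positivity), dual_cpow_mul hZ (by positivity), e1]
  unfold kk
  calc _ = Gamma s * Z ^ (-s) * ((2 * π) ^ (s - 1) * Gamma (1 - s)) ^ 3 *
      cexp (-(π * I * (1 - s) * es i / 2)) * SI q h i *
      (((h / q : ℝ) : ℂ) ^ (-s) * (q : ℂ) ^ (-(3 * s)) * (pr i : ℂ) ^ (s - 1)) := by ring
    _ = Gamma s * Z ^ (-s) * ((2 * π) ^ (s - 1) * Gamma (1 - s)) ^ 3 *
      cexp (-(π * I * (1 - s) * es i / 2)) * SI q h i *
      ((((h * q ^ 2 / pr i : ℝ)) : ℂ) ^ (-s) * cexp (-(Real.log (pr i) : ℂ))) := by rw [e2]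
    _ = _ := by ring

/-- first shift -/
theorem dual_shift3 (q : ℕ) [NeZero q] (h : ℕ) {F : ℂ → ℂ} (hF : Differentiable ℂ F)
    (hDD : ∀ s : ℂ, s ≠ 1 → DD q h s = F s / (s - 1) ^ 3) {W : ℂ} (hW : 0 < W.re) :
    (∫ y : ℝ, Gamma (2 + y * I) * W ^ (-(2 + y * I : ℂ)) * DD q h (2 + y * I)) -
      (∫ y : ℝ, Gamma (((1 / 2 : ℝ) : ℂ) + y * I) * W ^ (-(((1 / 2 : ℝ) : ℂ) + y * I)) *
        DD q h (((1 / 2 : ℝ) : ℂ) + y * I)) =
      π * iteratedDeriv 2 (fun s => Gamma s * W ^ (-s) * F s) 1 := by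
  have hW0 : W ≠ 0 := by
    rintro rfl
    simp at hW
  have harg : |arg W| < π / 2 := Complex.abs_arg_lt_pi_div_two_iff.2 (Or.inl hW)
  have ha0 : 0 ≤ |arg W| := abs_nonneg _
  set θ : ℝ := (π / 2 + |arg W|) / 2 with hθ
  have hθ0 : 0 < θ := by
    have := Real.pi_pos
    positivity
  have hθ1 : θ < π / 2 := by rw [hθ]; linarith
  set δ : ℝ := θ - |arg W| with hδ
  have hδ0 : 0 < δ := by rw [hδ, hθ]; linarith
  obtain ⟨C₁, hC₁⟩ := Gamma_decay hθ0 hθ1 (a := 1 / 2) (b := 2) (by norm_num)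
  have hC₁0 : 0 ≤ C₁ := by
    have h := hC₁ 1 (by norm_num) (by norm_num)
    simp only [one_im, abs_zero, mul_zero, neg_zero, Real.exp_zero, mul_one] at h
    exact (norm_nonneg _).trans h
  obtain ⟨C₂, A, hC₂0, hA0, hC₂⟩ := dual_F_growth q (h : ZMod q) hF hDD
  obtain ⟨C₃, hC₃0, hC₃⟩ := dual_poly_exp A hδ0
  set M : ℝ := ‖W‖ ^ (1 / 2 : ℝ) + ‖W‖ ^ (-2 : ℝ) with hM
  have hM0 : 0 ≤ M := by positivity
  have hdiff : ∀ s : ℂ, (1 / 2 : ℝ) ≤ s.re → s.re ≤ (2 : ℝ) →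
      DifferentiableAt ℂ (fun s => Gamma s * W ^ (-s) * F s) s := by
    intro s h1 h2
    have h3 : ∀ m : ℕ, s ≠ -m := by
      intro m h
      have := congrArg Complex.re h
      simp at this
      have hm : (0 : ℝ) ≤ (m : ℝ) := Nat.cast_nonneg m
      linarith
    exact ((Complex.differentiableAt_Gamma s h3).mul
      (DifferentiableAt.const_cpow differentiableAt_id.neg (Or.inl hW0))).mul (hF s)
  have hbd : ∀ s : ℂ, (1 / 2 : ℝ) ≤ s.re → s.re ≤ (2 : ℝ) →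
      ‖(fun s => Gamma s * W ^ (-s) * F s) s‖ ≤ C₁ * M * C₂ * C₃ := by
    intro s h1 h2
    have g1 := hC₁ s h1 h2
    have g2 := dual_norm_cpow hW (s := s) (by linarith) h2
    have g3 := hC₂ s (by linarith) h2
    have g4 := hC₃ |s.im| (abs_nonneg _)
    set x := |s.im| with hx
    have hx0 : 0 ≤ x := abs_nonneg _
    show ‖Gamma s * W ^ (-s) * F s‖ ≤ _
    rw [norm_mul, norm_mul]
    calc ‖Gamma s‖ * ‖W ^ (-s)‖ * ‖F s‖ ≤ (C₁ * Real.exp (-(θ * x))) *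
        (M * Real.exp (|arg W| * x)) * (C₂ * (1 + x) ^ A) := by
          apply mul_le_mul (mul_le_mul g1 g2 (norm_nonneg _) (by positivity)) g3 (norm_nonneg _)
            (by positivity)
      _ = C₁ * M * C₂ * ((1 + x) ^ A * (Real.exp (-(θ * x)) * Real.exp (|arg W| * x))) := by ring
      _ = C₁ * M * C₂ * ((1 + x) ^ A * Real.exp (-(δ * x))) := by
          rw [← Real.exp_add]
          congr 4
          rw [hδ]
          ring
      _ ≤ C₁ * M * C₂ * C₃ := mul_le_mul_of_nonneg_left g4 (by positivity)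
  have hv := vshift3 (a := 1 / 2) (b := 2) (by norm_num) (by norm_num) hdiff hbd
  have hkey : ∀ s : ℂ, s ≠ 1 → (fun s => Gamma s * W ^ (-s) * F s) s / (s - 1) ^ 3 =
      Gamma s * W ^ (-s) * DD q h s := by
    intro s hs
    rw [hDD s hs, mul_div_assoc]
  have hI1 : (∫ y : ℝ, (fun s => Gamma s * W ^ (-s) * F s) (((2 : ℝ) : ℂ) + y * I) /
      (((2 : ℝ) : ℂ) + y * I - 1) ^ 3) =
      ∫ y : ℝ, Gamma (2 + y * I) * W ^ (-(2 + y * I : ℂ)) * DD q h (2 + y * I) := by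
    congr 1
    funext y
    rw [hkey]
    · rw [show (((2 : ℝ) : ℂ) + y * I) = 2 + y * I by push_cast; rfl]
    · intro h
      have := congrArg Complex.re h
      simp at this
  have hI2 : (∫ y : ℝ, (fun s => Gamma s * W ^ (-s) * F s) (((1 / 2 : ℝ) : ℂ) + y * I) /
      (((1 / 2 : ℝ) : ℂ) + y * I - 1) ^ 3) =
      ∫ y : ℝ, Gamma (((1 / 2 : ℝ) : ℂ) + y * I) * W ^ (-(((1 / 2 : ℝ) : ℂ) + y * I)) *
        DD q h (((1 / 2 : ℝ) : ℂ) + y * I) := by
    congr 1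
    funext y
    rw [hkey]
    intro h
    have := congrArg Complex.re h
    simp at this
  rw [hI1, hI2] at hv
  exact hv

/-- second shift -/
theorem dual_shift1 (q : ℕ) [NeZero q] (h : ℕ) {F : ℂ → ℂ} (hF : Differentiable ℂ F)
    (hDD : ∀ s : ℂ, s ≠ 1 → DD q h s = F s / (s - 1) ^ 3) {W : ℂ} (hW : 0 < W.re) :
    (∫ y : ℝ, Gamma (((1 / 2 : ℝ) : ℂ) + y * I) * W ^ (-(((1 / 2 : ℝ) : ℂ) + y * I)) *
        DD q h (((1 / 2 : ℝ) : ℂ) + y * I)) -
      (∫ y : ℝ, Gamma (((-1 / 2 : ℝ) : ℂ) + y * I) * W ^ (-(((-1 / 2 : ℝ) : ℂ) + y * I)) *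
        DD q h (((-1 / 2 : ℝ) : ℂ) + y * I)) = 2 * π * DD q h 0 := by
  have hW0 : W ≠ 0 := by
    rintro rfl
    simp at hW
  have harg : |arg W| < π / 2 := Complex.abs_arg_lt_pi_div_two_iff.2 (Or.inl hW)
  have ha0 : 0 ≤ |arg W| := abs_nonneg _
  set θ : ℝ := (π / 2 + |arg W|) / 2 with hθ
  have hθ0 : 0 < θ := by
    have := Real.pi_pos
    positivity
  have hθ1 : θ < π / 2 := by rw [hθ]; linarith
  set δ : ℝ := θ - |arg W| with hδ
  have hδ0 : 0 < δ := by rw [hδ, hθ]; linarith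
  obtain ⟨C₁, hC₁⟩ := Gamma_decay hθ0 hθ1 (a := 1 / 2) (b := 3 / 2) (by norm_num)
  have hC₁0 : 0 ≤ C₁ := by
    have h := hC₁ 1 (by norm_num) (by norm_num)
    simp only [one_im, abs_zero, mul_zero, neg_zero, Real.exp_zero, mul_one] at h
    exact (norm_nonneg _).trans h
  obtain ⟨C₂, A, hC₂0, hA0, hC₂⟩ := dual_F_growth q (h : ZMod q) hF hDD
  obtain ⟨C₃, hC₃0, hC₃⟩ := dual_poly_exp (A + 1) hδ0
  set M : ℝ := ‖W‖ ^ (1 / 2 : ℝ) + ‖W‖ ^ (-2 : ℝ) with hM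
  have hM0 : 0 ≤ M := by positivity
  set G : ℂ → ℂ := fun s => Gamma (s + 1) * W ^ (-s) * (F s / (s - 1) ^ 3) with hG
  have hdiff : ∀ s : ℂ, (-1 / 2 : ℝ) ≤ s.re → s.re ≤ (1 / 2 : ℝ) → DifferentiableAt ℂ G s := by
    intro s h1 h2
    have h3 : ∀ m : ℕ, s + 1 ≠ -m := by
      intro m h
      have := congrArg Complex.re h
      simp at this
      have hm : (0 : ℝ) ≤ (m : ℝ) := Nat.cast_nonneg m
      linarith
    have h4 : (s - 1) ^ 3 ≠ 0 := by
      apply pow_ne_zero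
      intro h
      have := congrArg Complex.re h
      simp at this
      linarith
    have hG1 : DifferentiableAt ℂ (fun s : ℂ => Gamma (s + 1)) s :=
      DifferentiableAt.comp s (Complex.differentiableAt_Gamma (s + 1) h3)
        (differentiableAt_id.add_const 1)
    have hG2 : DifferentiableAt ℂ (fun s : ℂ => (s - 1) ^ 3) s := by fun_prop
    exact (hG1.mul (DifferentiableAt.const_cpow differentiableAt_id.neg (Or.inl hW0))).mul
      ((hF s).div hG2 h4)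
  have hbd : ∀ s : ℂ, (-1 / 2 : ℝ) ≤ s.re → s.re ≤ (1 / 2 : ℝ) →
      ‖G s‖ ≤ (C₁ * M * C₂ * 8 * C₃) / (1 + |s.im|) := by
    intro s h1 h2
    have g1 := hC₁ (s + 1) (by simp; linarith) (by simp; linarith)
    have g2 := dual_norm_cpow hW (s := s) h1 (by linarith)
    have g3 := hC₂ s h1 (by linarith)
    have g4 := hC₃ |s.im| (abs_nonneg _)
    have i1 : (s + 1).im = s.im := by simp
    rw [i1] at g1
    have g5 : 1 / 2 ≤ ‖s - 1‖ := by
      calc (1 : ℝ) / 2 ≤ |(s - 1).re| := by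
            have e1 : (s - 1).re = s.re - 1 := by simp
            rw [e1, abs_sub_comm, abs_of_nonneg (by linarith)]
            linarith
        _ ≤ ‖s - 1‖ := Complex.abs_re_le_norm _
    have g6 : ‖F s / (s - 1) ^ 3‖ ≤ C₂ * (1 + |s.im|) ^ A * 8 := by
      rw [norm_div, norm_pow, div_le_iff₀ (by positivity)]
      have g7 : (1 / 2 : ℝ) ^ 3 ≤ ‖s - 1‖ ^ 3 := pow_le_pow_left₀ (by norm_num) g5 3
      have g8 : 0 ≤ C₂ * (1 + |s.im|) ^ A := by positivity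
      nlinarith
    set x := |s.im| with hx
    have hx0 : 0 ≤ x := abs_nonneg _
    rw [le_div_iff₀ (by positivity)]
    have hn : ‖G s‖ = ‖Gamma (s + 1)‖ * ‖W ^ (-s)‖ * ‖F s / (s - 1) ^ 3‖ := by
      simp only [hG, norm_mul]
    rw [hn]
    calc ‖Gamma (s + 1)‖ * ‖W ^ (-s)‖ * ‖F s / (s - 1) ^ 3‖ * (1 + x) ≤
        ((C₁ * Real.exp (-(θ * x))) * (M * Real.exp (|arg W| * x)) * (C₂ * (1 + x) ^ A * 8)) *
          (1 + x) := by
          apply mul_le_mul_of_nonneg_right _ (by positivity)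
          apply mul_le_mul (mul_le_mul g1 g2 (norm_nonneg _) (by positivity)) g6 (norm_nonneg _)
            (by positivity)
      _ = C₁ * M * C₂ * 8 * (((1 + x) ^ A * (1 + x)) *
          (Real.exp (-(θ * x)) * Real.exp (|arg W| * x))) := by ring
      _ = C₁ * M * C₂ * 8 * ((1 + x) ^ (A + 1) * Real.exp (-(δ * x))) := by
          rw [← Real.exp_add, Real.rpow_add_one (by positivity)]
          congr 4
          rw [hδ]
          ring
      _ ≤ C₁ * M * C₂ * 8 * C₃ := mul_le_mul_of_nonneg_left g4 (by positivity)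
  have hv := vshift1 (a := -1 / 2) (b := 1 / 2) (p := 0) (by simp; norm_num) (by simp) hdiff hbd
  have hkey : ∀ s : ℂ, s ≠ 0 → s ≠ 1 → G s / (s - 0) = Gamma s * W ^ (-s) * DD q h s := by
    intro s hs hs1
    rw [hDD s hs1]
    simp only [hG]
    rw [Complex.Gamma_add_one s hs, sub_zero]
    have hs1' : (s - 1) ≠ 0 := sub_ne_zero.2 hs1
    field_simp
  have hI1 : (∫ y : ℝ, G (((1 / 2 : ℝ) : ℂ) + y * I) / (((1 / 2 : ℝ) : ℂ) + y * I - 0)) =
      ∫ y : ℝ, Gamma (((1 / 2 : ℝ) : ℂ) + y * I) * W ^ (-(((1 / 2 : ℝ) : ℂ) + y * I)) *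
        DD q h (((1 / 2 : ℝ) : ℂ) + y * I) := by
    congr 1
    funext y
    apply hkey
    · intro h
      have := congrArg Complex.re h
      simp at this
    · intro h
      have := congrArg Complex.re h
      simp at this
  have hI2 : (∫ y : ℝ, G (((-1 / 2 : ℝ) : ℂ) + y * I) / (((-1 / 2 : ℝ) : ℂ) + y * I - 0)) =
      ∫ y : ℝ, Gamma (((-1 / 2 : ℝ) : ℂ) + y * I) * W ^ (-(((-1 / 2 : ℝ) : ℂ) + y * I)) *
        DD q h (((-1 / 2 : ℝ) : ℂ) + y * I) := by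
    congr 1
    funext y
    apply hkey
    · intro h
      have := congrArg Complex.re h
      simp at this
    · intro h
      have := congrArg Complex.re h
      simp at this
      norm_num at this
  rw [hI1, hI2] at hv
  have h0 : G 0 = DD q h 0 := by
    rw [hDD 0 zero_ne_one]
    simp [hG, Complex.Gamma_one]
  rw [h0] at hv
  exact hv

/-- Fubini on the line `Re s = -1/2` -/
theorem dual_fubini (q : ℕ) [NeZero q] (h : ℕ) (hh : 0 < h) {Z : ℂ} (hZ : 0 < Z.re) :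
    (Summable fun i : Ix => ‖((pr i : ℂ))⁻¹ * SI q h i *
      JJ (-1 / 2) (es i) (Z * ((h * q ^ 2 / pr i : ℝ) : ℂ))‖) ∧
    (1 / (2 * π : ℂ)) * (∫ y : ℝ, Gamma (((-1 / 2 : ℝ) : ℂ) + y * I) *
      (Z * ((h / q : ℝ) : ℂ)) ^ (-(((-1 / 2 : ℝ) : ℂ) + y * I)) *
        DD q h (((-1 / 2 : ℝ) : ℂ) + y * I)) =
      ∑' i : Ix, ((pr i : ℂ))⁻¹ * SI q h i * JJ (-1 / 2) (es i) (Z * ((h * q ^ 2 / pr i : ℝ) : ℂ)) := by
  obtain ⟨C, hC0, hC⟩ := JJ_left
  have hZ0 : Z ≠ 0 := by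
    rintro rfl
    simp at hZ
  have hZn : 0 < ‖Z‖ := norm_pos_iff.2 hZ0
  have hq : 0 < (q : ℝ) := by exact_mod_cast Nat.pos_of_ne_zero (NeZero.ne q)
  have hh' : 0 < (h : ℝ) := by exact_mod_cast hh
  set f : Ix → ℝ → ℂ := fun i t => ((pr i : ℂ))⁻¹ * SI q h i *
    (kk (es i) (((-1 / 2 : ℝ) : ℂ) + t * I) *
      (Z * ((h * q ^ 2 / pr i : ℝ) : ℂ)) ^ (-(((-1 / 2 : ℝ) : ℂ) + t * I))) with hf
  have hre : ∀ i : Ix, 0 < (Z * ((h * q ^ 2 / pr i : ℝ) : ℂ)).re := by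
    intro i
    have hp := dual_pr_pos i
    rw [mul_comm, Complex.re_ofReal_mul]
    positivity
  have hint : ∀ i, Integrable (f i) := fun i =>
    ((hC (es i) (dual_es i) _ (hre i)).1).const_mul _
  set K : ℝ := (q : ℝ) ^ 3 * (C * ((‖Z‖ * (h * q ^ 2)) ^ (1 / 2 : ℝ) * (‖Z‖ / Z.re) ^ 4)) with hK
  have hnorm : ∀ i, ∫ t, ‖f i t‖ ≤ K * (pr i) ^ (-(3 / 2) : ℝ) := by
    intro i
    have hp := dual_pr_pos i
    have h1 := (hC (es i) (dual_es i) _ (hre i)).2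
    have e1 : ∫ t, ‖f i t‖ = ‖((pr i : ℂ))⁻¹ * SI q h i‖ *
        ∫ t : ℝ, ‖kk (es i) (((-1 / 2 : ℝ) : ℂ) + t * I) *
      (Z * ((h * q ^ 2 / pr i : ℝ) : ℂ)) ^ (-(((-1 / 2 : ℝ) : ℂ) + t * I))‖ := by
      rw [← integral_const_mul]
      congr 1
      funext t
      rw [hf, norm_mul]
    have e2 : ‖((pr i : ℂ))⁻¹ * SI q h i‖ ≤ (pr i)⁻¹ * (q : ℝ) ^ 3 := by
      rw [norm_mul, norm_inv, Complex.norm_real, Real.norm_of_nonneg hp.le]
      exact mul_le_mul_of_nonneg_left (dual_SI_le q h i) (by positivity)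
    have e3 : ‖Z * ((h * q ^ 2 / pr i : ℝ) : ℂ)‖ = (‖Z‖ * (h * q ^ 2)) * (pr i)⁻¹ := by
      rw [norm_mul, Complex.norm_real, Real.norm_of_nonneg (by positivity)]
      ring
    have e4 : ‖Z * ((h * q ^ 2 / pr i : ℝ) : ℂ)‖ / (Z * ((h * q ^ 2 / pr i : ℝ) : ℂ)).re =
        ‖Z‖ / Z.re := by
      rw [norm_mul, Complex.norm_real, Real.norm_of_nonneg (by positivity), mul_comm Z,
        Complex.re_ofReal_mul]
      field_simp
    rw [e4, e3, Real.mul_rpow (by positivity) (by positivity)] at h1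
    rw [e1]
    have e5 : (pr i) ^ (-(3 / 2) : ℝ) = (pr i)⁻¹ * ((pr i)⁻¹) ^ (1 / 2 : ℝ) := by
      rw [Real.inv_rpow hp.le, ← Real.rpow_neg hp.le, ← Real.rpow_neg_one, ← Real.rpow_add hp]
      norm_num
    rw [e5, hK]
    calc ‖((pr i : ℂ))⁻¹ * SI q h i‖ * (∫ t : ℝ, ‖kk (es i) (((-1 / 2 : ℝ) : ℂ) + t * I) *
      (Z * ((h * q ^ 2 / pr i : ℝ) : ℂ)) ^ (-(((-1 / 2 : ℝ) : ℂ) + t * I))‖)
        ≤ ((pr i)⁻¹ * (q : ℝ) ^ 3) * (C * ((‖Z‖ * (h * q ^ 2)) ^ (1 / 2 : ℝ) *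
          ((pr i)⁻¹) ^ (1 / 2 : ℝ) * (‖Z‖ / Z.re) ^ 4)) := by
          apply mul_le_mul e2 h1 _ (by positivity)
          exact integral_nonneg fun t => norm_nonneg _
      _ = _ := by ring
  have hsumK : Summable (fun i : Ix => K * (pr i) ^ (-(3 / 2) : ℝ)) :=
    dual_summable_pr.mul_left K
  have hsum : Summable fun i => ∫ t, ‖f i t‖ :=
    Summable.of_nonneg_of_le (fun i => integral_nonneg fun t => norm_nonneg _) hnorm hsumK
  have hHS := hasSum_integral_of_summable_integral_norm hint hsum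
  have hJ : ∀ i : Ix, ((pr i : ℂ))⁻¹ * SI q h i *
      JJ (-1 / 2) (es i) (Z * ((h * q ^ 2 / pr i : ℝ) : ℂ)) = (1 / (2 * π : ℂ)) * ∫ t, f i t := by
    intro i
    have e1 : JJ (-1 / 2) (es i) (Z * ((h * q ^ 2 / pr i : ℝ) : ℂ)) = (1 / (2 * π)) *
      ∫ t : ℝ, kk (es i) (((-1 / 2 : ℝ) : ℂ) + t * I) *
        (Z * ((h * q ^ 2 / pr i : ℝ) : ℂ)) ^ (-(((-1 / 2 : ℝ) : ℂ) + t * I)) := rfl
    rw [e1, hf, integral_const_mul]
    ring
  have hcc : ‖(1 / (2 * π : ℂ))‖ ≤ 1 := by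
    have : (1 / (2 * π) : ℂ) = ((1 / (2 * π) : ℝ) : ℂ) := by push_cast; ring
    rw [this, Complex.norm_real, Real.norm_of_nonneg (by positivity)]
    rw [div_le_one (by positivity)]
    linarith [Real.pi_gt_three]
  refine ⟨?_, ?_⟩
  · refine Summable.of_nonneg_of_le (fun i => norm_nonneg _) ?_ hsum
    intro i
    rw [hJ i, norm_mul]
    calc ‖(1 / (2 * π : ℂ))‖ * ‖∫ t, f i t‖ ≤ 1 * ∫ t, ‖f i t‖ :=
          mul_le_mul hcc (norm_integral_le_integral_norm _) (norm_nonneg _) zero_le_one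
      _ = _ := one_mul _
  · have e1 : (fun i : Ix => ((pr i : ℂ))⁻¹ * SI q h i *
      JJ (-1 / 2) (es i) (Z * ((h * q ^ 2 / pr i : ℝ) : ℂ))) =
      fun i => (1 / (2 * π : ℂ)) * ∫ t, f i t := funext hJ
    rw [e1, tsum_mul_left, hHS.tsum_eq]
    congr 1
    congr 1
    funext t
    set s : ℂ := (((-1 / 2 : ℝ) : ℂ) + t * I) with hs
    have hsre : s.re < 0 := by
      rw [hs]
      simp
      norm_num
    rw [(DD_left q (h : ZMod q) hsre).2]
    have e2 : ∀ i : Ix, f i t = Gamma s * (Z * ((h / q : ℝ) : ℂ)) ^ (-s) *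
      ((q : ℂ) ^ (-(3 * s)) * ((2 * π) ^ (s - 1) * Gamma (1 - s)) ^ 3) *
      (cexp (-(π * I * (1 - s) * es i / 2)) * (pr i : ℂ) ^ (s - 1) * SI q h i) := by
      intro i
      exact (dual_term q h hh hZ0 s i).symm
    have e3 : (fun i => f i t) = fun i : Ix => Gamma s * (Z * ((h / q : ℝ) : ℂ)) ^ (-s) *
      ((q : ℂ) ^ (-(3 * s)) * ((2 * π) ^ (s - 1) * Gamma (1 - s)) ^ 3) *
      (cexp (-(π * I * (1 - s) * es i / 2)) * (pr i : ℂ) ^ (s - 1) * SI q h i) := funext e2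
    show _ = ∑' i, f i t
    rw [e3, tsum_mul_left]
    ring

/-- **D10. Dual formula.** -/
theorem dual (q : ℕ) [NeZero q] (h : ℕ) (hh : 0 < h) : ∃ p₀ p₁ p₂ k₀ : ℂ, ‖k₀‖ ≤ (q : ℝ) ^ 3 ∧
    ∀ Z : ℂ, 0 < Z.re →
    (Summable fun i : Ix => ‖((pr i : ℂ))⁻¹ * SI q h i *
      JJ (-1 / 2) (es i) (Z * ((h * q ^ 2 / pr i : ℝ) : ℂ))‖) ∧
    S3 (2 * π * I * (h / q) + Z * (h / q)) =
      Z⁻¹ * (p₀ + p₁ * Complex.log Z + p₂ * Complex.log Z ^ 2) + k₀ +
      ∑' i : Ix, ((pr i : ℂ))⁻¹ * SI q h i * JJ (-1 / 2) (es i) (Z * ((h * q ^ 2 / pr i : ℝ) : ℂ)) := by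
  obtain ⟨F, hF, hDD⟩ := DD_entire q (h : ZMod q)
  have hq : 0 < (q : ℝ) := by exact_mod_cast Nat.pos_of_ne_zero (NeZero.ne q)
  have hh' : 0 < (h : ℝ) := by exact_mod_cast hh
  set r : ℝ := h / q with hr
  have hr0 : 0 < r := by positivity
  have hrc : (r : ℂ) ≠ 0 := by exact_mod_cast hr0.ne'
  set P : ℂ → ℂ := fun s => Gamma s * (r : ℂ) ^ (-s) * F s with hP
  refine ⟨deriv (deriv P) 1 / 2, -deriv P 1, P 1 / 2, DD q h 0, DD_zero q h, ?_⟩
  intro Z hZ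
  have hZ0 : Z ≠ 0 := by
    rintro rfl
    simp at hZ
  obtain ⟨hS, hI⟩ := dual_fubini q h hh hZ
  refine ⟨hS, ?_⟩
  rw [← hI]
  have hW : 0 < (Z * (r : ℂ)).re := by
    rw [mul_comm, Complex.re_ofReal_mul]
    positivity
  have h1 := (S3_vert q h hW).2
  have h2 := dual_shift3 q h hF hDD hW
  have h3 := dual_shift1 q h hF hDD hW
  have hPd : ∀ s : ℂ, 0 < s.re → DifferentiableAt ℂ P s := by
    intro s hs
    have h3 : ∀ m : ℕ, s ≠ -m := by
      intro m h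
      have := congrArg Complex.re h
      simp at this
      have hm : (0 : ℝ) ≤ (m : ℝ) := Nat.cast_nonneg m
      linarith
    exact ((Complex.differentiableAt_Gamma s h3).mul
      (DifferentiableAt.const_cpow differentiableAt_id.neg (Or.inl hrc))).mul (hF s)
  have h4 := dual_deriv hZ0 hPd
  have h5 : (fun s => Gamma s * (Z * (r : ℂ)) ^ (-s) * F s) = fun s => Z ^ (-s) * P s := by
    funext s
    rw [dual_cpow_mul hZ0 hr0, hP]
    ring
  rw [h5, h4] at h2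
  have e0 : (h : ℂ) / q = ((r : ℝ) : ℂ) := by rw [hr]; push_cast; ring
  rw [e0] at h1
  rw [e0, h1]
  have e1 : (∫ y : ℝ, Gamma (2 + y * I) * (Z * (r : ℂ)) ^ (-(2 + y * I : ℂ)) * DD q h (2 + y * I)) =
      (∫ y : ℝ, Gamma (((-1 / 2 : ℝ) : ℂ) + y * I) *
      (Z * (r : ℂ)) ^ (-(((-1 / 2 : ℝ) : ℂ) + y * I)) * DD q h (((-1 / 2 : ℝ) : ℂ) + y * I)) +
      2 * π * DD q h 0 + π * (Z⁻¹ * (deriv (deriv P) 1 - 2 * Complex.log Z * deriv P 1 +
        Complex.log Z ^ 2 * P 1)) := by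
    rw [← h2, ← h3]
    ring
  rw [e1]
  have hpi : (π : ℂ) ≠ 0 := by exact_mod_cast Real.pi_ne_zero
  generalize (∫ y : ℝ, Gamma (((-1 / 2 : ℝ) : ℂ) + y * I) *
      (Z * (r : ℂ)) ^ (-(((-1 / 2 : ℝ) : ℂ) + y * I)) * DD q h (((-1 / 2 : ℝ) : ℂ) + y * I)) = X
  field_simp
  ring

end S6
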