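import Pool.Agent.Lib.MP_39df77_nt.S6_chi_sub_Xm
import Pool.Agent.Lib.MP_39df77_nt.S6_kernel_tiny
import Pool.Agent.Lib.MP_39df77_nt.Part01
import Pool.Agent.Lib.MP_39df77_nt.Part02
import Pool.Agent.Lib.MP_39df77_nt.Part03
import Pool.Agent.Lib.MP_39df77_nt.Part04
import Pool.Agent.Lib.MP_39df77_nt.Part05
import Pool.Agent.Lib.MP_39df77_nt.Part06
import Pool.Agent.Lib.MP_39df77_nt.Part09
import Pool.Agent.Lib.MP_39df77_nt.Part11
import Pool.Agent.Lib.MP_39df77_nt.Part12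
import Pool.Agent.Lib.MP_39df77_nt.Part13
import Pool.Agent.Lib.MP_39df77_nt.S6_dual
import Pool.Agent.Lib.MP_39df77_nt.S6_ErrBound
import Pool.Agent.Lib.MP_39df77_nt.S6_elem
import Pool.Agent.Lib.MP_39df77_nt.Part14
import Pool.Agent.Lib.MP_39df77_nt.S6_I1_lim
import Pool.Agent.Lib.MP_39df77_nt.Part16
import Pool.Agent.Lib.MP_39df77_nt.Part17
import Pool.Agent.Lib.MP_39df77_nt.Part18
import Pool.Agent.Lib.MP_39df77_nt.Part19

section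

namespace S6
open Complex MeasureTheory Filter Topology Set
open scoped Real ComplexConjugate

theorem err_bound {δ : ℝ} (hδ : 0 < δ) {ε : ℝ} (hε : 0 < ε) : ∃ C T₀ : ℝ, ∀ T ≥ T₀, ∀ τ,
    δ * T ≤ τ → τ ≤ T → ∀ (q h : ℕ) [NeZero q], 0 < h → (q : ℝ) ≤ T ^ 2 → (h : ℝ) ≤ T →
    ∀ b : ℝ, 0 ≤ b → (∀ x y z : ZMod q, ‖SS q h x y z‖ ≤
      q * b * (√(Nat.gcd x.val q) * √(Nat.gcd z.val q))) →
    ‖∫ ξ : ℝ, ker T τ ξ * ∑' i : Ix, ((pr i : ℂ))⁻¹ * SI q h i *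
      JJ (-1 / 2) (es i) (zz T ξ * ((h * q ^ 2 / pr i : ℝ) : ℂ))‖ ≤ C * T ^ ε * (1 + q * b) :=
  err_bound_of JJ_left JJ_right (fun e he => JJ_shift e he) (fun b hb k => ker_moment b hb k)
    (fun _ hT ξ => zz_re_pos hT ξ) (fun _ hd A => VV_zero hd A) (fun _ hT t s => gauss_ker hT t s) hδ hε

end S6

end

section



end

section

namespace S6
open Complex MeasureTheory Filter Topology Set
open scoped Real ComplexConjugate

/-- Lagrange interpolation in the limit. -/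
lemma interp {a b c : ℝ → ℂ} {l₁ l₂ l₃ : ℝ} (h12 : l₁ ≠ l₂) (h13 : l₁ ≠ l₃) (h23 : l₂ ≠ l₃)
    {α β γ : ℂ}
    (H1 : Tendsto (fun T => a T + b T * l₁ + c T * l₁ ^ 2) atTop (𝓝 (α + β * l₁ + γ * l₁ ^ 2)))
    (H2 : Tendsto (fun T => a T + b T * l₂ + c T * l₂ ^ 2) atTop (𝓝 (α + β * l₂ + γ * l₂ ^ 2)))
    (H3 : Tendsto (fun T => a T + b T * l₃ + c T * l₃ ^ 2) atTop (𝓝 (α + β * l₃ + γ * l₃ ^ 2))) :
    Tendsto a atTop (𝓝 α) ∧ Tendsto b atTop (𝓝 β) ∧ Tendsto c atTop (𝓝 γ) := by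
  have e12 : ((l₁ : ℂ) - l₂) ≠ 0 := by
    rw [sub_ne_zero]; exact_mod_cast h12
  have e13 : ((l₁ : ℂ) - l₃) ≠ 0 := by
    rw [sub_ne_zero]; exact_mod_cast h13
  have e23 : ((l₂ : ℂ) - l₃) ≠ 0 := by
    rw [sub_ne_zero]; exact_mod_cast h23
  refine ⟨?_, ?_, ?_⟩
  · have := ((H1.const_mul ((l₂ : ℂ) * l₃ / ((l₁ - l₂) * (l₁ - l₃)))).sub
      (H2.const_mul ((l₁ : ℂ) * l₃ / ((l₁ - l₂) * (l₂ - l₃))))).add
      (H3.const_mul ((l₁ : ℂ) * l₂ / ((l₁ - l₃) * (l₂ - l₃))))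
    convert this using 2
    · field_simp; ring
    · field_simp; ring
  · have := ((H1.const_mul (-((l₂ : ℂ) + l₃) / ((l₁ - l₂) * (l₁ - l₃)))).add
      (H2.const_mul (((l₁ : ℂ) + l₃) / ((l₁ - l₂) * (l₂ - l₃))))).sub
      (H3.const_mul (((l₁ : ℂ) + l₂) / ((l₁ - l₃) * (l₂ - l₃))))
    convert this using 2
    · field_simp; ring
    · field_simp; ring
  · have := ((H1.const_mul (1 / (((l₁ : ℂ) - l₂) * (l₁ - l₃)))).sub
      (H2.const_mul (1 / (((l₁ : ℂ) - l₂) * (l₂ - l₃))))).add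
      (H3.const_mul (1 / (((l₁ : ℂ) - l₃) * (l₂ - l₃))))
    convert this using 2
    · field_simp; ring
    · field_simp; ring

lemma three_points (ν : Measure E6) [SFinite ν] (M : ℝ) : ∃ l₁ l₂ l₃ : ℝ, M < l₁ ∧ l₁ < l₂ ∧ l₂ < l₃ ∧
    ν {p | ell p = l₁} = 0 ∧ ν {p | ell p = l₂} = 0 ∧ ν {p | ell p = l₃} = 0 := by
  have hm : Measurable ell := by
    unfold ell
    fun_prop
  have hc := Measure.countable_meas_level_set_pos (μ := ν) hm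
  have hd := hc.dense_compl ℝ
  have key : ∀ x : ℝ, ∃ l, x < l ∧ l < x + 1 ∧ ν {p | ell p = l} = 0 := by
    intro x
    obtain ⟨l, hl1, hl2⟩ := hd.exists_between (show x < x + 1 by linarith)
    refine ⟨l, hl2.1, hl2.2, ?_⟩
    by_contra h
    exact hl1 (pos_iff_ne_zero.2 h)
  obtain ⟨l₁, a1, a2, a3⟩ := key M
  obtain ⟨l₂, b1, b2, b3⟩ := key (M + 1)
  obtain ⟨l₃, c1, c2, c3⟩ := key (M + 2)
  exact ⟨l₁, l₂, l₃, a1, by linarith, by linarith, a3, b3, c3⟩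

/-- The dual data, chosen once and for all. -/
lemma dual_data : ∃ P : ℕ → ℕ → ℂ × ℂ × ℂ × ℂ, ∀ (q h : ℕ) [NeZero q], 0 < h →
    ‖(P q h).2.2.2‖ ≤ (q : ℝ) ^ 3 ∧ ∀ Z : ℂ, 0 < Z.re →
    (Summable fun i : Ix => ‖((pr i : ℂ))⁻¹ * SI q h i *
      JJ (-1 / 2) (es i) (Z * ((h * q ^ 2 / pr i : ℝ) : ℂ))‖) ∧
    S3 (2 * π * I * (h / q) + Z * (h / q)) =
      Z⁻¹ * ((P q h).1 + (P q h).2.1 * Complex.log Z + (P q h).2.2.1 * Complex.log Z ^ 2) +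
      (P q h).2.2.2 +
      ∑' i : Ix, ((pr i : ℂ))⁻¹ * SI q h i *
        JJ (-1 / 2) (es i) (Z * ((h * q ^ 2 / pr i : ℝ) : ℂ)) := by
  have key : ∀ q h : ℕ, ∃ P : ℂ × ℂ × ℂ × ℂ, ∀ [NeZero q], 0 < h →
      ‖P.2.2.2‖ ≤ (q : ℝ) ^ 3 ∧ ∀ Z : ℂ, 0 < Z.re →
      (Summable fun i : Ix => ‖((pr i : ℂ))⁻¹ * SI q h i *
        JJ (-1 / 2) (es i) (Z * ((h * q ^ 2 / pr i : ℝ) : ℂ))‖) ∧
      S3 (2 * π * I * (h / q) + Z * (h / q)) =
        Z⁻¹ * (P.1 + P.2.1 * Complex.log Z + P.2.2.1 * Complex.log Z ^ 2) + P.2.2.2 +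
        ∑' i : Ix, ((pr i : ℂ))⁻¹ * SI q h i *
          JJ (-1 / 2) (es i) (Z * ((h * q ^ 2 / pr i : ℝ) : ℂ)) := by
    intro q h
    by_cases hq : q = 0
    · exact ⟨0, fun {inst} => absurd hq inst.out⟩
    · by_cases hh : 0 < h
      · have : NeZero q := ⟨hq⟩
        obtain ⟨p₀, p₁, p₂, k₀, hk, hZ⟩ := dual q h hh
        exact ⟨(p₀, p₁, p₂, k₀), fun {_} _ => ⟨hk, hZ⟩⟩
      · exact ⟨0, fun {_} h0 => absurd h0 hh⟩
  choose P hP using key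
  exact ⟨P, fun q h _ hh => hP q h hh⟩

lemma pr_pos (i : Ix) : 0 < pr i := by unfold pr; positivity

lemma norm_SI_le (q : ℕ) [NeZero q] (h : ZMod q) (i : Ix) : ‖SI q h i‖ ≤ (q : ℝ) ^ 3 := by
  unfold SI SS
  refine (norm_sum_le _ _).trans ?_
  have h1 : ∀ a ∈ (Finset.univ : Finset (ZMod q)), ‖∑ b : ZMod q, ∑ c : ZMod q,
      (ZMod.stdAddChar (-(h * a * b * c) + ((sg i.1.1 * (i.2.1 + 1 : ℕ) : ℤ) : ZMod q) * a +
        ((sg i.1.2.1 * (i.2.2.1 + 1 : ℕ) : ℤ) : ZMod q) * b +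
        ((sg i.1.2.2 * (i.2.2.2 + 1 : ℕ) : ℤ) : ZMod q) * c) : ℂ)‖ ≤ (q : ℝ) ^ 2 := by
    intro a _
    refine (norm_sum_le _ _).trans ?_
    have h2 : ∀ b ∈ (Finset.univ : Finset (ZMod q)), ‖∑ c : ZMod q,
      (ZMod.stdAddChar (-(h * a * b * c) + ((sg i.1.1 * (i.2.1 + 1 : ℕ) : ℤ) : ZMod q) * a +
        ((sg i.1.2.1 * (i.2.2.1 + 1 : ℕ) : ℤ) : ZMod q) * b +
        ((sg i.1.2.2 * (i.2.2.2 + 1 : ℕ) : ℤ) : ZMod q) * c) : ℂ)‖ ≤ (q : ℝ) := by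
      intro b _
      refine (norm_sum_le _ _).trans ?_
      simp [AddChar.norm_apply, ZMod.card]
    refine (Finset.sum_le_sum h2).trans ?_
    simp [ZMod.card, sq]
  refine (Finset.sum_le_sum h1).trans ?_
  simp [ZMod.card]
  nlinarith

lemma sum_aux {a : ℝ} (ha : a < -1) : Summable fun n : ℕ × (ℕ × ℕ) => ((n.1 + 1 : ℕ) : ℝ) ^ a *
      (((n.2.1 + 1 : ℕ) : ℝ) ^ a * ((n.2.2 + 1 : ℕ) : ℝ) ^ a) := by
  have h1 : Summable fun n : ℕ => ((n + 1 : ℕ) : ℝ) ^ a :=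
    (summable_nat_add_iff (f := fun n : ℕ => (n : ℝ) ^ a) 1).2 (Real.summable_nat_rpow.2 ha)
  have h0 : ∀ n : ℕ, 0 ≤ ((n + 1 : ℕ) : ℝ) ^ a := fun n => by positivity
  have h3 : Summable fun n : ℕ × ℕ => ((n.1 + 1 : ℕ) : ℝ) ^ a * ((n.2 + 1 : ℕ) : ℝ) ^ a :=
    Summable.mul_of_nonneg (f := fun n : ℕ => ((n + 1 : ℕ) : ℝ) ^ a) (g := fun n : ℕ => ((n + 1 : ℕ) : ℝ) ^ a)
      h1 h1 h0 h0
  exact Summable.mul_of_nonneg (f := fun n : ℕ => ((n + 1 : ℕ) : ℝ) ^ a)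
    (g := fun n : ℕ × ℕ => ((n.1 + 1 : ℕ) : ℝ) ^ a * ((n.2 + 1 : ℕ) : ℝ) ^ a) h1 h3 h0
    (fun n => mul_nonneg (h0 _) (h0 _))

lemma sum_aux2 {g : ℕ × ℕ × ℕ → ℝ} (hg : Summable g) (hg0 : ∀ n, 0 ≤ g n) :
    Summable fun i : Ix => g i.2 := by
  have h := Summable.mul_of_nonneg (f := fun _ : Bool × Bool × Bool => (1 : ℝ)) (g := g)
    Summable.of_finite hg (fun _ => zero_le_one) hg0
  exact h.congr fun i => one_mul _

lemma summable_pr_exp {a : ℝ} (ha : a < -1) : Summable fun i : Ix => (pr i) ^ a := by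
  refine (sum_aux2 (sum_aux ha) (fun n => ?_)).congr fun i => ?_
  · positivity
  · unfold pr
    rw [Real.mul_rpow (by positivity) (by positivity),
      Real.mul_rpow (by positivity) (by positivity), mul_assoc]

lemma summable_pr : Summable fun i : Ix => (pr i) ^ (-(3 / 2) : ℝ) :=
  summable_pr_exp (by norm_num)

lemma es_le (i : Ix) : |es i| ≤ 3 := by
  unfold es sg
  rcases i.1.1 <;> rcases i.1.2.1 <;> rcases i.1.2.2 <;> simp

/-- The dual sum at a real argument. -/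
lemma dual_real : ∃ C : ℝ, 0 ≤ C ∧ ∀ (q h : ℕ) [NeZero q], 0 < h → ∀ Z : ℝ, 0 < Z →
    ‖∑' i : Ix, ((pr i : ℂ))⁻¹ * SI q h i *
        JJ (-1 / 2) (es i) ((Z : ℂ) * ((h * q ^ 2 / pr i : ℝ) : ℂ))‖ ≤
      C * ((q : ℝ) ^ 4 * h * √Z) := by
  obtain ⟨C, hC0, hC⟩ := JJ_left
  set S : ℝ := ∑' i : Ix, (pr i) ^ (-(3 / 2) : ℝ) with hS
  have hS0 : 0 ≤ S := tsum_nonneg fun i => Real.rpow_nonneg (pr_pos i).le _
  refine ⟨C * S, by positivity, ?_⟩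
  intro q h _ hh Z hZ
  have hq0 : (0 : ℝ) < q := by exact_mod_cast Nat.pos_of_ne_zero (NeZero.ne q)
  have hh1 : (1 : ℝ) ≤ h := by exact_mod_cast hh
  have hJ : ∀ i : Ix, ‖JJ (-1 / 2) (es i) ((Z : ℂ) * ((h * q ^ 2 / pr i : ℝ) : ℂ))‖ ≤
      C * √(Z * (h * q ^ 2 / pr i)) := by
    intro i
    set y : ℝ := Z * (h * q ^ 2 / pr i) with hy
    have hy0 : 0 < y := by
      have := pr_pos i
      positivity
    have hyc : ((Z : ℂ) * ((h * q ^ 2 / pr i : ℝ) : ℂ)) = (y : ℂ) := by rw [hy]; push_cast; ring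
    rw [hyc]
    obtain ⟨_, h2⟩ := hC (es i) (es_le i) (y : ℂ) (by simpa using hy0)
    unfold JJ
    rw [norm_mul]
    have h3 := (norm_integral_le_integral_norm (fun t : ℝ => kk (es i) (((-1 / 2 : ℝ) : ℂ) + t * I) *
      (y : ℂ) ^ (-(((-1 / 2 : ℝ) : ℂ) + t * I)))).trans h2
    have h4 : ‖(1 / (2 * π) : ℂ)‖ ≤ 1 := by
      rw [norm_div, norm_mul, norm_one]
      simp only [Complex.norm_ofNat, Complex.norm_real, Real.norm_eq_abs, abs_of_pos Real.pi_pos]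
      rw [div_le_one (by positivity)]
      linarith [Real.pi_gt_three]
    have h5 : C * (‖(y : ℂ)‖ ^ (1 / 2 : ℝ) * (‖(y : ℂ)‖ / (y : ℂ).re) ^ 4) = C * √y := by
      rw [Complex.norm_real, Real.norm_of_nonneg hy0.le, ofReal_re, div_self hy0.ne', one_pow, mul_one,
        Real.sqrt_eq_rpow]
    rw [h5] at h3
    calc _ ≤ 1 * (C * √y) := mul_le_mul h4 h3 (norm_nonneg _) zero_le_one
      _ = _ := one_mul _
  have hterm : ∀ i : Ix, ‖((pr i : ℂ))⁻¹ * SI q h i *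
        JJ (-1 / 2) (es i) ((Z : ℂ) * ((h * q ^ 2 / pr i : ℝ) : ℂ))‖ ≤
      (C * ((q : ℝ) ^ 4 * h * √Z)) * (pr i) ^ (-(3 / 2) : ℝ) := by
    intro i
    have hp := pr_pos i
    rw [norm_mul, norm_mul, norm_inv, Complex.norm_real, Real.norm_of_nonneg hp.le]
    have e1 : √(Z * (h * q ^ 2 / pr i)) = √Z * (√h * q * (pr i) ^ (-(1 / 2) : ℝ)) := by
      rw [Real.sqrt_mul hZ.le, Real.sqrt_div (by positivity), Real.sqrt_mul (by positivity),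
        Real.sqrt_sq hq0.le, Real.rpow_neg hp.le, ← Real.sqrt_eq_rpow, div_eq_mul_inv]
    have e2 : √(h : ℝ) ≤ h := by
      rw [Real.sqrt_le_left (by positivity)]
      nlinarith
    calc (pr i)⁻¹ * ‖SI q h i‖ * ‖JJ (-1 / 2) (es i) ((Z : ℂ) * ((h * q ^ 2 / pr i : ℝ) : ℂ))‖
        ≤ (pr i)⁻¹ * (q : ℝ) ^ 3 * (C * (√Z * (h * q * (pr i) ^ (-(1 / 2) : ℝ)))) := by
          have := hJ i
          rw [e1] at this
          have h6 : C * (√Z * (√h * q * (pr i) ^ (-(1 / 2) : ℝ))) ≤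
              C * (√Z * (h * q * (pr i) ^ (-(1 / 2) : ℝ))) := by
            have := Real.rpow_nonneg hp.le (-(1 / 2) : ℝ)
            gcongr
          exact mul_le_mul (mul_le_mul_of_nonneg_left (norm_SI_le q h i) (by positivity))
            (this.trans h6) (norm_nonneg _) (by positivity)
      _ = (C * ((q : ℝ) ^ 4 * h * √Z)) * ((pr i)⁻¹ * (pr i) ^ (-(1 / 2) : ℝ)) := by ring
      _ = _ := by
          rw [← Real.rpow_neg_one (pr i), ← Real.rpow_add hp]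
          norm_num
  refine (norm_tsum_le_tsum_norm ?_).trans ?_
  · exact Summable.of_nonneg_of_le (fun i => norm_nonneg _) hterm (summable_pr.mul_left _)
  · refine (Summable.tsum_le_tsum hterm ?_ (summable_pr.mul_left _)).trans ?_
    · exact Summable.of_nonneg_of_le (fun i => norm_nonneg _) hterm (summable_pr.mul_left _)
    · rw [tsum_mul_left]
      apply le_of_eq; ring

lemma om_cont (T : ℝ) : Continuous (om T) := by unfold om; fun_prop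
lemma ker_cont (T τ : ℝ) : Continuous (ker T τ) := by
  have := om_cont T
  unfold ker gg; fun_prop
lemma zz_cont (T : ℝ) : Continuous (zz T) := by
  have := om_cont T
  unfold zz; fun_prop
lemma zz_ne {T : ℝ} (hT : 1 < T) (ξ : ℝ) : zz T ξ ≠ 0 := by
  intro h
  have := zz_re_pos hT ξ
  rw [h] at this; simp at this
lemma logzz_cont {T : ℝ} (hT : 1 < T) : Continuous fun ξ => Complex.log (zz T ξ) :=
  (zz_cont T).clog fun ξ => Or.inl (zz_re_pos hT ξ)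
lemma zzinv_cont {T : ℝ} (hT : 1 < T) : Continuous fun ξ => (zz T ξ)⁻¹ :=
  (zz_cont T).inv₀ fun ξ => zz_ne hT ξ

/-- log moments of the kernel -/
noncomputable def Ej (j : ℕ) (T τ : ℝ) : ℂ :=
  ∫ ξ : ℝ, ker T τ ξ * (zz T ξ)⁻¹ * (Complex.log (zz T ξ) + Real.log T) ^ j

lemma Ej_bound (j : ℕ) : ∃ C T₀ : ℝ, ∀ T ≥ T₀, ∀ τ, 0 ≤ τ → τ ≤ T →
    Integrable (fun ξ : ℝ => ker T τ ξ * (zz T ξ)⁻¹ * (Complex.log (zz T ξ) + Real.log T) ^ j) ∧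
    ‖Ej j T τ‖ ≤ C * (HH T * √(Real.log T)) := by
  obtain ⟨C, T₀, h⟩ := K1_bound j
  refine ⟨C, max T₀ 2, ?_⟩
  intro T hT τ h0 h1
  have hT1 : 1 < T := by linarith [le_max_right T₀ 2]
  obtain ⟨i1, i2⟩ := h T (le_trans (le_max_left _ _) hT) τ h0 h1
  have hcont : Continuous fun ξ : ℝ =>
      ker T τ ξ * (zz T ξ)⁻¹ * (Complex.log (zz T ξ) + Real.log T) ^ j := by
    have a1 := ker_cont T τ
    have a2 := zzinv_cont hT1
    have a3 := logzz_cont hT1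
    exact (a1.mul a2).mul ((a3.add continuous_const).pow j)
  have hn : ∀ ξ : ℝ, ‖ker T τ ξ * (zz T ξ)⁻¹ * (Complex.log (zz T ξ) + Real.log T) ^ j‖ =
      ‖ker T τ ξ‖ * (‖Complex.log (zz T ξ) + Real.log T‖ ^ j * ‖zz T ξ‖⁻¹) := by
    intro ξ
    rw [norm_mul, norm_mul, norm_inv, norm_pow]; ring
  have hi : Integrable (fun ξ : ℝ =>
      ker T τ ξ * (zz T ξ)⁻¹ * (Complex.log (zz T ξ) + Real.log T) ^ j) := by
    refine (integrable_norm_iff hcont.aestronglyMeasurable).1 ?_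
    exact i1.congr (Eventually.of_forall fun ξ => (hn ξ).symm)
  refine ⟨hi, ?_⟩
  unfold Ej
  refine (norm_integral_le_integral_norm _).trans ?_
  simp only [hn]
  exact i2

lemma zz_eq (T ξ : ℝ) (r : ℂ) :
    2 * π * I * r * cexp (-(om T ξ)) = 2 * π * I * r + zz T ξ * r := by
  unfold zz; ring

lemma ker_int {T : ℝ} (hT : 1 < T) (τ : ℝ) : Integrable (ker T τ) ∧ ∫ ξ, ker T τ ξ = VV T τ 0 := by
  obtain ⟨h1, h2⟩ := gauss_ker hT τ 0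
  simp only [mul_zero, Complex.exp_zero, mul_one] at h1 h2
  exact ⟨h1, h2⟩

lemma int5 {a b c d e : ℝ → ℂ} (ha : Integrable a) (hb : Integrable b) (hc : Integrable c)
    (hd : Integrable d) (he : Integrable e) :
    ∫ ξ, (a ξ + b ξ + c ξ + d ξ + e ξ) = (∫ ξ, a ξ) + (∫ ξ, b ξ) + (∫ ξ, c ξ) + (∫ ξ, d ξ) + ∫ ξ, e ξ := by
  have h1 : Integrable fun ξ => a ξ + b ξ := ha.add hb
  have h2 : Integrable fun ξ => a ξ + b ξ + c ξ := h1.add hc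
  have h3 : Integrable fun ξ => a ξ + b ξ + c ξ + d ξ := h2.add hd
  rw [integral_add h3 he, integral_add h2 hd, integral_add h1 hc, integral_add ha hb]

/-- Decomposition of the representation of one term. -/
lemma decomp {T τ : ℝ} (hT : Real.exp 1 ≤ T)
    (hE : ∀ j : ℕ, j ≤ 2 → Integrable (fun ξ : ℝ =>
      ker T τ ξ * (zz T ξ)⁻¹ * (Complex.log (zz T ξ) + Real.log T) ^ j))
    {q h : ℕ} [NeZero q] (hh : 0 < h) {p₀ p₁ p₂ k₀ : ℂ}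
    (hZ : ∀ Z : ℂ, 0 < Z.re → (Summable fun i : Ix => ‖((pr i : ℂ))⁻¹ * SI q h i *
      JJ (-1 / 2) (es i) (Z * ((h * q ^ 2 / pr i : ℝ) : ℂ))‖) ∧
    S3 (2 * π * I * (h / q) + Z * (h / q)) =
      Z⁻¹ * (p₀ + p₁ * Complex.log Z + p₂ * Complex.log Z ^ 2) + k₀ +
      ∑' i : Ix, ((pr i : ℂ))⁻¹ * SI q h i * JJ (-1 / 2) (es i) (Z * ((h * q ^ 2 / pr i : ℝ) : ℂ))) :
    ∫ ξ : ℝ, ker T τ ξ * S3 (2 * π * I * (((h : ℝ) / q : ℝ) : ℂ) * cexp (-(om T ξ))) =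
      (p₀ - p₁ * Real.log T + p₂ * Real.log T ^ 2) * Ej 0 T τ +
      (p₁ - 2 * p₂ * Real.log T) * Ej 1 T τ + p₂ * Ej 2 T τ + k₀ * VV T τ 0 +
      ∫ ξ : ℝ, ker T τ ξ * ∑' i : Ix, ((pr i : ℂ))⁻¹ * SI q h i *
        JJ (-1 / 2) (es i) (zz T ξ * ((h * q ^ 2 / pr i : ℝ) : ℂ)) := by
  have hT1 : 1 < T := by
    have := Real.add_one_le_exp 1
    linarith
  have hq0 : (0 : ℝ) < q := by exact_mod_cast Nat.pos_of_ne_zero (NeZero.ne q)
  have hh0 : (0 : ℝ) < h := by exact_mod_cast hh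
  set r : ℝ := (h : ℝ) / q with hr
  have hr0 : 0 < r := by positivity
  have hrc : (r : ℂ) = (h : ℂ) / q := by rw [hr]; push_cast; rfl
  obtain ⟨iS, -⟩ := mellin_zeta3 hT τ hr0
  obtain ⟨ik, hk⟩ := ker_int hT1 τ
  set L : ℂ := (Real.log T : ℂ) with hL
  set F : ℝ → ℂ := fun ξ => ∑' i : Ix, ((pr i : ℂ))⁻¹ * SI q h i *
        JJ (-1 / 2) (es i) (zz T ξ * ((h * q ^ 2 / pr i : ℝ) : ℂ)) with hF
  have hS : ∀ ξ : ℝ, ker T τ ξ * S3 (2 * π * I * (r : ℂ) * cexp (-(om T ξ))) =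
      (p₀ - p₁ * L + p₂ * L ^ 2) * (ker T τ ξ * (zz T ξ)⁻¹ * (Complex.log (zz T ξ) + L) ^ 0) +
      (p₁ - 2 * p₂ * L) * (ker T τ ξ * (zz T ξ)⁻¹ * (Complex.log (zz T ξ) + L) ^ 1) +
      p₂ * (ker T τ ξ * (zz T ξ)⁻¹ * (Complex.log (zz T ξ) + L) ^ 2) + k₀ * ker T τ ξ +
      ker T τ ξ * F ξ := by
    intro ξ
    rw [zz_eq, hrc, (hZ (zz T ξ) (zz_re_pos hT1 ξ)).2]
    simp only [hF]
    ring
  have i0 := (hE 0 (by norm_num)).const_mul (p₀ - p₁ * L + p₂ * L ^ 2)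
  have i1 := (hE 1 (by norm_num)).const_mul (p₁ - 2 * p₂ * L)
  have i2 := (hE 2 le_rfl).const_mul p₂
  have i3 := ik.const_mul k₀
  have i012 := (i0.add i1).add i2
  have i0123 := i012.add i3
  have iF : Integrable (fun ξ => ker T τ ξ * F ξ) := by
    refine (iS.sub i0123).congr (Eventually.of_forall fun ξ => ?_)
    simp only [Pi.sub_apply, Pi.add_apply]
    rw [hS ξ]; ring
  rw [integral_congr_ae (Eventually.of_forall hS), int5 i0 i1 i2 i3 iF, integral_const_mul,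
    integral_const_mul, integral_const_mul, integral_const_mul, hk]
  rfl

/-- numerator of the reduced fraction -/
def hn (x : ℕ × ℕ × ℕ) : ℕ := x.2.2 / Nat.gcd (x.1 * x.2.1) x.2.2

lemma tri_facts {T : ℝ} (hT : 0 ≤ T) {x : ℕ × ℕ × ℕ} (hx : x ∈ tri T) :
    0 < x.1 ∧ 0 < x.2.1 ∧ 0 < x.2.2 ∧ (x.1 : ℝ) ≤ T ∧ (x.2.1 : ℝ) ≤ T ∧ (x.2.2 : ℝ) ≤ T := by
  simp only [tri, Finset.mem_product, Finset.mem_Icc] at hx
  obtain ⟨⟨a1, a2⟩, ⟨b1, b2⟩, ⟨c1, c2⟩⟩ := hx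
  exact ⟨a1, b1, c1, (Nat.cast_le.2 a2).trans (Nat.floor_le hT), (Nat.cast_le.2 b2).trans (Nat.floor_le hT),
    (Nat.cast_le.2 c2).trans (Nat.floor_le hT)⟩

lemma frac_facts {T : ℝ} (hT : 0 ≤ T) {x : ℕ × ℕ × ℕ} (hx : x ∈ tri T) :
    0 < qq x ∧ 0 < hn x ∧ Nat.Coprime (hn x) (qq x) ∧
    ((x.2.2 : ℝ) / ((x.1 : ℝ) * x.2.1) : ℝ) = (hn x : ℝ) / qq x ∧
    (qq x : ℝ) ≤ T ^ 2 ∧ (hn x : ℝ) ≤ T := by
  obtain ⟨h1, h2, h3, h4, h5, h6⟩ := tri_facts hT hx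
  have hm : 0 < x.1 * x.2.1 := Nat.mul_pos h1 h2
  have hg : 0 < Nat.gcd (x.1 * x.2.1) x.2.2 := Nat.gcd_pos_of_pos_left _ hm
  have hq : 0 < qq x := Nat.div_pos (Nat.le_of_dvd hm (Nat.gcd_dvd_left _ _)) hg
  have hh : 0 < hn x := Nat.div_pos (Nat.le_of_dvd h3 (Nat.gcd_dvd_right _ _)) hg
  have e1 : qq x * Nat.gcd (x.1 * x.2.1) x.2.2 = x.1 * x.2.1 := Nat.div_mul_cancel (Nat.gcd_dvd_left _ _)
  have e2 : hn x * Nat.gcd (x.1 * x.2.1) x.2.2 = x.2.2 := Nat.div_mul_cancel (Nat.gcd_dvd_right _ _)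
  have hgr : (0 : ℝ) < (Nat.gcd (x.1 * x.2.1) x.2.2 : ℝ) := by exact_mod_cast hg
  have hqr : (0 : ℝ) < qq x := by exact_mod_cast hq
  refine ⟨hq, hh, (Nat.coprime_div_gcd_div_gcd hg).symm, ?_, ?_, ?_⟩
  · have e1' : ((x.1 : ℝ) * x.2.1) = qq x * (Nat.gcd (x.1 * x.2.1) x.2.2 : ℝ) := by exact_mod_cast e1.symm
    have e2' : (x.2.2 : ℝ) = hn x * (Nat.gcd (x.1 * x.2.1) x.2.2 : ℝ) := by exact_mod_cast e2.symm
    rw [e1', e2', mul_div_mul_right _ _ hgr.ne']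
  · have : qq x ≤ x.1 * x.2.1 := Nat.div_le_self _ _
    calc (qq x : ℝ) ≤ ((x.1 * x.2.1 : ℕ) : ℝ) := by exact_mod_cast this
      _ = (x.1 : ℝ) * x.2.1 := by push_cast; ring
      _ ≤ T * T := mul_le_mul h4 h5 (Nat.cast_nonneg _) hT
      _ = T ^ 2 := by ring
  · have : hn x ≤ x.2.2 := Nat.div_le_self _ _
    exact (by exact_mod_cast this : (hn x : ℝ) ≤ x.2.2).trans h6

lemma TF.bdd {κ : ℝ} {G : ℝ × ℝ × ℝ → ℝ} (hG : TF κ G) : ∃ M : ℝ, 0 < M ∧ ∀ p, |G p| ≤ M := by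
  obtain ⟨M, hM⟩ := hG.hcs.exists_bound_of_continuous hG.cont
  exact ⟨|M| + 1, by positivity, fun p => (hM p).trans ((le_abs_self M).trans (by linarith))⟩

lemma TF.unit {κ : ℝ} (hκ : 1 ≤ κ) {G : ℝ × ℝ × ℝ → ℝ} (hG : TF κ G) (p : ℝ × ℝ × ℝ) (hp : G p ≠ 0) :
    0 < p.1 ∧ p.1 < 1 ∧ 0 < p.2.1 ∧ p.2.1 < 1 ∧ 0 < p.2.2 ∧ p.2.2 < 1 := by
  obtain ⟨h1, h2, h3, h4, h5⟩ := hG.supp (subset_tsupport _ (Function.mem_support.2 hp))
  have h6 : 1 * (p.1 + p.2.1) ≤ κ * (p.1 + p.2.1) := mul_le_mul_of_nonneg_right hκ (by linarith)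
  refine ⟨by linarith, by linarith, h1, by linarith, h3, by linarith⟩

lemma sum_cf_bound {κ : ℝ} {G : ℝ × ℝ × ℝ → ℝ} (hG : TF κ G) : ∃ M : ℝ, 0 < M ∧ ∀ T : ℝ, 1 ≤ T →
    ∑ x ∈ tri T, |cf G T x| / ((x.1 : ℝ) * x.2.1) ≤ M * T ^ 3 := by
  obtain ⟨M, hM0, hM⟩ := hG.bdd
  refine ⟨M, hM0, ?_⟩
  intro T hT
  have hT0 : (0 : ℝ) ≤ T := by linarith
  have h1 : ∀ x ∈ tri T, |cf G T x| / ((x.1 : ℝ) * x.2.1) ≤ M := by
    intro x hx
    obtain ⟨h1, h2, -⟩ := tri_facts hT0 hx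
    have h3 : (1 : ℝ) ≤ (x.1 : ℝ) * x.2.1 := by
      have : 1 ≤ x.1 * x.2.1 := Nat.mul_pos h1 h2
      exact_mod_cast this
    exact (div_le_self (abs_nonneg _) h3).trans (hM _)
  refine (Finset.sum_le_sum h1).trans ?_
  rw [Finset.sum_const, nsmul_eq_mul, mul_comm]
  refine mul_le_mul_of_nonneg_left ?_ hM0.le
  have h2 : ((tri T).card : ℝ) = (⌊T⌋₊ : ℝ) ^ 3 := by
    unfold tri
    rw [Finset.card_product, Finset.card_product, Nat.card_Icc, Nat.add_sub_cancel]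
    push_cast; ring
  rw [h2]
  exact pow_le_pow_left₀ (Nat.cast_nonneg _) (Nat.floor_le hT0) 3

end S6

end

section

namespace S6
open Complex MeasureTheory Filter Topology Set
open scoped Real ComplexConjugate

/-- data of the dual formula -/
def DualData (P : ℕ → ℕ → ℂ × ℂ × ℂ × ℂ) : Prop := ∀ (q h : ℕ) [NeZero q], 0 < h →
    ‖(P q h).2.2.2‖ ≤ (q : ℝ) ^ 3 ∧ ∀ Z : ℂ, 0 < Z.re →
    (Summable fun i : Ix => ‖((pr i : ℂ))⁻¹ * SI q h i *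
      JJ (-1 / 2) (es i) (Z * ((h * q ^ 2 / pr i : ℝ) : ℂ))‖) ∧
    S3 (2 * π * I * (h / q) + Z * (h / q)) =
      Z⁻¹ * ((P q h).1 + (P q h).2.1 * Complex.log Z + (P q h).2.2.1 * Complex.log Z ^ 2) +
      (P q h).2.2.2 +
      ∑' i : Ix, ((pr i : ℂ))⁻¹ * SI q h i *
        JJ (-1 / 2) (es i) (Z * ((h * q ^ 2 / pr i : ℝ) : ℂ))

/-- `cf/(m₁m₂)` as a complex number -/
noncomputable def cx (G : ℝ × ℝ × ℝ → ℝ) (T : ℝ) (x : ℕ × ℕ × ℕ) : ℂ :=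
  ((cf G T x / ((x.1 : ℝ) * x.2.1) : ℝ) : ℂ)

noncomputable def Ac (P : ℕ → ℕ → ℂ × ℂ × ℂ × ℂ) (G : ℝ × ℝ × ℝ → ℝ) (T : ℝ) : ℂ :=
  ∑ x ∈ tri T, cx G T x * (P (qq x) (hn x)).1
noncomputable def Bc (P : ℕ → ℕ → ℂ × ℂ × ℂ × ℂ) (G : ℝ × ℝ × ℝ → ℝ) (T : ℝ) : ℂ :=
  ∑ x ∈ tri T, cx G T x * (P (qq x) (hn x)).2.1
noncomputable def Cc (P : ℕ → ℕ → ℂ × ℂ × ℂ × ℂ) (G : ℝ × ℝ × ℝ → ℝ) (T : ℝ) : ℂ :=
  ∑ x ∈ tri T, cx G T x * (P (qq x) (hn x)).2.2.1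

lemma norm_cx (G : ℝ × ℝ × ℝ → ℝ) (T : ℝ) (x : ℕ × ℕ × ℕ) :
    ‖cx G T x‖ = |cf G T x| / ((x.1 : ℝ) * x.2.1) := by
  unfold cx
  rw [Complex.norm_real, Real.norm_eq_abs, abs_div, abs_of_nonneg (by positivity : (0:ℝ) ≤ (x.1 : ℝ) * x.2.1)]

/-- The interpolation side. -/
lemma E_side {κ : ℝ} (hκ : 1 ≤ κ) {G : ℝ × ℝ × ℝ → ℝ} (hG : TF κ G) {ν : Measure E6} (hν : Lap ν)
    {P : ℕ → ℕ → ℂ × ℂ × ℂ × ℂ} (hP : DualData P) {l : ℝ} (hl : 60 ≤ l) (hnull : ν {p | ell p = l} = 0) :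
    Tendsto (fun T : ℝ => ((Real.log T : ℝ) : ℂ)⁻¹ ^ 9 * Ac P G T +
      (-(((Real.log T : ℝ) : ℂ)⁻¹ ^ 8 * Bc P G T)) * l +
      (((Real.log T : ℝ) : ℂ)⁻¹ ^ 7 * Cc P G T) * l ^ 2) atTop
      (𝓝 ((MP069854.arith 3 * QB ν G l : ℝ) : ℂ)) := by
  have hE := E_lim hG.cont hG.hcs (hG.unit hκ) hν hl hnull
  obtain ⟨C, hC0, hC⟩ := dual_real
  obtain ⟨M, hM0, hM⟩ := sum_cf_bound hG
  -- the remainder
  set R : ℝ → ℂ := fun T => ((T ^ (-l) : ℝ) : ℂ) * ∑ x ∈ tri T, cx G T x *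
    (S3 (((x.2.2 : ℝ) / ((x.1 : ℝ) * x.2.1) : ℝ) * (2 * π * I + (T ^ (-l) : ℝ))) -
      ((T ^ (-l) : ℝ) : ℂ)⁻¹ * ((P (qq x) (hn x)).1 + (P (qq x) (hn x)).2.1 *
        (-(l * Real.log T : ℝ)) + (P (qq x) (hn x)).2.2.1 * (-(l * Real.log T : ℝ)) ^ 2)) with hR
  have hRb : ∀ T : ℝ, 1 < T → ‖R T‖ ≤ M * (1 + C) * T ^ (-1 : ℝ) := by
    intro T hT
    have hT0 : (0 : ℝ) ≤ T := by linarith
    have hTp : (0 : ℝ) < T := by linarith
    have hZ0 : 0 < T ^ (-l) := Real.rpow_pos_of_pos hTp _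
    have hZ1 : T ^ (-l) ≤ 1 := Real.rpow_le_one_of_one_le_of_nonpos hT.le (by linarith)
    have hlog : Complex.log ((T ^ (-l) : ℝ) : ℂ) = (-(l * Real.log T : ℝ) : ℂ) := by
      rw [← Complex.ofReal_log hZ0.le, Real.log_rpow hTp]
      push_cast; ring
    have hterm : ∀ x ∈ tri T, ‖cx G T x *
      (S3 (((x.2.2 : ℝ) / ((x.1 : ℝ) * x.2.1) : ℝ) * (2 * π * I + (T ^ (-l) : ℝ))) -
      ((T ^ (-l) : ℝ) : ℂ)⁻¹ * ((P (qq x) (hn x)).1 + (P (qq x) (hn x)).2.1 *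
        (-(l * Real.log T : ℝ)) + (P (qq x) (hn x)).2.2.1 * (-(l * Real.log T : ℝ)) ^ 2))‖ ≤
        |cf G T x| / ((x.1 : ℝ) * x.2.1) * ((1 + C) * T ^ 9) := by
      intro x hx
      obtain ⟨hq, hh, -, hfr, hqT, hhT⟩ := frac_facts hT0 hx
      have : NeZero (qq x) := ⟨hq.ne'⟩
      rw [norm_mul, norm_cx]
      refine mul_le_mul_of_nonneg_left ?_ (by positivity)
      obtain ⟨hk, hZ⟩ := hP (qq x) (hn x) hh
      obtain ⟨-, hf⟩ := hZ ((T ^ (-l) : ℝ) : ℂ) (by simpa using hZ0)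
      have e1 : (((x.2.2 : ℝ) / ((x.1 : ℝ) * x.2.1) : ℝ) : ℂ) * (2 * π * I + (T ^ (-l) : ℝ)) =
          2 * π * I * ((hn x : ℂ) / (qq x : ℂ)) + ((T ^ (-l) : ℝ) : ℂ) * ((hn x : ℂ) / (qq x : ℂ)) := by
        rw [hfr]; push_cast; ring
      rw [e1, hf, hlog]
      have hd := hC (qq x) (hn x) hh (T ^ (-l)) hZ0
      have e2 : ∀ a b c : ℂ, a + b + c - a = b + c := by intro a b c; ring
      rw [e2]
      refine (norm_add_le _ _).trans ?_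
      have hT1 : (1 : ℝ) ≤ T := hT.le
      have b1 : ‖(P (qq x) (hn x)).2.2.2‖ ≤ T ^ 9 := by
        refine hk.trans ?_
        calc ((qq x : ℕ) : ℝ) ^ 3 ≤ (T ^ 2) ^ 3 := pow_le_pow_left₀ (Nat.cast_nonneg _) hqT 3
          _ = T ^ 6 := by ring
          _ ≤ T ^ 9 := pow_le_pow_right₀ hT1 (by norm_num)
      have b2 : C * (((qq x : ℕ) : ℝ) ^ 4 * ((hn x : ℕ) : ℝ) * √(T ^ (-l))) ≤ C * T ^ 9 := by
        refine mul_le_mul_of_nonneg_left ?_ hC0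
        calc ((qq x : ℕ) : ℝ) ^ 4 * ((hn x : ℕ) : ℝ) * √(T ^ (-l)) ≤ (T ^ 2) ^ 4 * T * 1 := by
              gcongr
              exact Real.sqrt_le_one.2 hZ1
          _ = T ^ 9 := by ring
      linarith
    have h1 : ‖R T‖ ≤ T ^ (-l) * ((M * T ^ 3) * ((1 + C) * T ^ 9)) := by
      simp only [hR]
      rw [norm_mul, Complex.norm_real, Real.norm_of_nonneg hZ0.le]
      refine mul_le_mul_of_nonneg_left ?_ hZ0.le
      refine (norm_sum_le _ _).trans ((Finset.sum_le_sum hterm).trans ?_)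
      rw [← Finset.sum_mul]
      exact mul_le_mul_of_nonneg_right (hM T hT.le) (by positivity)
    refine h1.trans ?_
    have h2 : T ^ (-l) * T ^ (12 : ℝ) ≤ T ^ (-1 : ℝ) := by
      rw [← Real.rpow_add hTp]
      exact Real.rpow_le_rpow_of_exponent_le hT.le (by linarith)
    have h3 : T ^ (12 : ℝ) = T ^ 12 := by
      rw [← Real.rpow_natCast]; norm_num
    rw [h3] at h2
    calc T ^ (-l) * ((M * T ^ 3) * ((1 + C) * T ^ 9)) = M * (1 + C) * (T ^ (-l) * T ^ 12) := by ring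
      _ ≤ M * (1 + C) * T ^ (-1 : ℝ) := mul_le_mul_of_nonneg_left h2 (by positivity)
  have hRlim : Tendsto (fun T : ℝ => ((Real.log T : ℝ) : ℂ)⁻¹ ^ 9 * R T) atTop (𝓝 0) := by
    have h0 : Tendsto (fun T : ℝ => ‖((Real.log T : ℝ) : ℂ)⁻¹ ^ 9 * R T‖) atTop (𝓝 0) := by
      have h1 : Tendsto (fun T : ℝ => (M * (1 + C)) * T ^ (-1 : ℝ)) atTop (𝓝 0) := by
        have := (tendsto_rpow_neg_atTop (y := 1) one_pos).const_mul (M * (1 + C))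
        rwa [mul_zero] at this
      refine squeeze_zero' (Eventually.of_forall fun _ => norm_nonneg _) ?_ h1
      filter_upwards [eventually_ge_atTop (Real.exp 1)] with T hT
      have hT1 : 1 < T := by
        have := Real.add_one_le_exp 1
        linarith
      have hlog : 1 ≤ Real.log T := by
        rw [Real.le_log_iff_exp_le (by linarith)]; exact hT
      rw [norm_mul, norm_pow, norm_inv, Complex.norm_real, Real.norm_of_nonneg (by linarith)]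
      calc (Real.log T)⁻¹ ^ 9 * ‖R T‖ ≤ 1 * ‖R T‖ := by
            refine mul_le_mul_of_nonneg_right ?_ (norm_nonneg _)
            exact pow_le_one₀ (by positivity) (inv_le_one_of_one_le₀ hlog)
        _ ≤ _ := by rw [one_mul]; exact hRb T hT1
    exact tendsto_zero_iff_norm_tendsto_zero.2 h0
  have hfin := hE.sub hRlim
  rw [sub_zero] at hfin
  refine hfin.congr' ?_
  filter_upwards [eventually_gt_atTop (1 : ℝ)] with T hT
  have hTp : (0 : ℝ) < T := by linarith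
  have hZ0 : ((T ^ (-l) : ℝ) : ℂ) ≠ 0 := by
    exact_mod_cast (Real.rpow_pos_of_pos hTp (-l)).ne'
  have hL : ((Real.log T : ℝ) : ℂ) ≠ 0 := by
    exact_mod_cast (Real.log_pos hT).ne'
  simp only [hR]
  have e1 : ((T ^ (-l) : ℝ) : ℂ) * ∑ x ∈ tri T, cx G T x *
    (S3 (((x.2.2 : ℝ) / ((x.1 : ℝ) * x.2.1) : ℝ) * (2 * π * I + (T ^ (-l) : ℝ))) -
      ((T ^ (-l) : ℝ) : ℂ)⁻¹ * ((P (qq x) (hn x)).1 + (P (qq x) (hn x)).2.1 *
        (-(l * Real.log T : ℝ)) + (P (qq x) (hn x)).2.2.1 * (-(l * Real.log T : ℝ)) ^ 2)) =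
      ((T ^ (-l) : ℝ) : ℂ) * ∑ x ∈ tri T, cx G T x *
        S3 (((x.2.2 : ℝ) / ((x.1 : ℝ) * x.2.1) : ℝ) * (2 * π * I + (T ^ (-l) : ℝ))) -
      (Ac P G T - Bc P G T * (l * Real.log T) + Cc P G T * (l * Real.log T) ^ 2) := by
    unfold Ac Bc Cc
    rw [Finset.mul_sum, Finset.mul_sum, Finset.sum_mul, Finset.sum_mul, ← Finset.sum_sub_distrib,
      ← Finset.sum_add_distrib, ← Finset.sum_sub_distrib]
    refine Finset.sum_congr rfl fun x _ => ?_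
    push_cast
    field_simp
    ring
  rw [e1]
  have e2 : ∑ x ∈ tri T, ((cf G T x / ((x.1 : ℝ) * x.2.1) : ℝ) : ℂ) *
        S3 (((x.2.2 : ℝ) / ((x.1 : ℝ) * x.2.1) : ℝ) * (2 * π * I + (T ^ (-l) : ℝ))) =
      ∑ x ∈ tri T, cx G T x *
        S3 (((x.2.2 : ℝ) / ((x.1 : ℝ) * x.2.1) : ℝ) * (2 * π * I + (T ^ (-l) : ℝ))) := rfl
  rw [e2]
  generalize ∑ x ∈ tri T, cx G T x *
        S3 (((x.2.2 : ℝ) / ((x.1 : ℝ) * x.2.1) : ℝ) * (2 * π * I + (T ^ (-l) : ℝ))) = Sm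
  generalize ((T ^ (-l) : ℝ) : ℂ) = Z
  generalize ((Real.log T : ℝ) : ℂ) = L at hL ⊢
  field_simp
  ring

end S6

end

section

namespace S6
open Complex MeasureTheory Filter Topology Set
open scoped Real ComplexConjugate

lemma one_lt_of_exp {T : ℝ} (hT : Real.exp 1 ≤ T) : 1 < T := by
  have := Real.add_one_le_exp 1
  linarith

/-- The window side: `I2` in terms of the coefficients of the dual formula. -/
lemma I2_formula {κ : ℝ} (hκ : 1 ≤ κ) (hK : KloosBound κ) {G : ℝ × ℝ × ℝ → ℝ} (hG : TF κ G)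
    {P : ℕ → ℕ → ℂ × ℂ × ℂ × ℂ} (hP : DualData P) {δ : ℝ} (hδ : 0 < δ) :
    ∃ η T₀ : ℝ, 0 < η ∧ ∀ T ≥ T₀, ∀ τ, δ * T ≤ τ → τ ≤ T →
    ‖I2 G T τ - 2 * π * ((Ac P G T - Bc P G T * Real.log T + Cc P G T * Real.log T ^ 2) * Ej 0 T τ +
      (Bc P G T - 2 * Cc P G T * Real.log T) * Ej 1 T τ + Cc P G T * Ej 2 T τ)‖ ≤ T ^ (1 - η) := by
  obtain ⟨B, hB0, hB1, hB2⟩ := hK
  obtain ⟨η₀, hη₀, hsum₀⟩ := err_sum hκ hG hB0 hB2
  set η : ℝ := min η₀ 1 with hηd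
  have hη : 0 < η := lt_min hη₀ one_pos
  have hη1 : η ≤ 1 := min_le_right _ _
  have hsum : ∀ᶠ T : ℝ in atTop,
      ∑ x ∈ tri T, |cf G T x| / ((x.1 : ℝ) * x.2.1) * (1 + qq x * B (qq x)) ≤ T ^ (1 - η) := by
    filter_upwards [hsum₀, eventually_ge_atTop (1 : ℝ)] with T h1 h2
    exact h1.trans (Real.rpow_le_rpow_of_exponent_le h2 (by linarith [min_le_left η₀ 1]))
  obtain ⟨C, T₁, herr⟩ := err_bound hδ (half_pos hη)
  obtain ⟨T₂, hrep⟩ := I2_rep hG.cont hG.hcs hδ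
  obtain ⟨T₃, hVV⟩ := VV_zero hδ 6
  obtain ⟨C0, T₄, hE0⟩ := Ej_bound 0
  obtain ⟨C1, T₅, hE1⟩ := Ej_bound 1
  obtain ⟨C2, T₆, hE2⟩ := Ej_bound 2
  -- final growth comparison
  have hfin : ∀ᶠ T : ℝ in atTop, 1 + 2 * π * (((|C| + 1) * T ^ (η / 2)) * T ^ (1 - η)) ≤
      T ^ (1 - η / 4) := by
    have h1 : Tendsto (fun T : ℝ => T ^ (-(η / 4))) atTop (𝓝 0) := tendsto_rpow_neg_atTop (by positivity)
    have h2 := h1.const_mul (1 + 2 * π * (|C| + 1))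
    rw [mul_zero] at h2
    filter_upwards [h2.eventually (gt_mem_nhds one_pos), eventually_ge_atTop (1 : ℝ)] with T hT hT1
    have hTp : (0 : ℝ) < T := by linarith
    have e1 : T ^ (η / 2) * T ^ (1 - η) = T ^ (1 - η / 2) := by
      rw [← Real.rpow_add hTp]; congr 1; ring
    have e2 : T ^ (1 - η / 2) = T ^ (-(η / 4)) * T ^ (1 - η / 4) := by
      rw [← Real.rpow_add hTp]; congr 1; ring
    have e3 : (1 : ℝ) ≤ T ^ (1 - η / 2) := Real.one_le_rpow hT1 (by linarith)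
    have e4 : 0 < T ^ (1 - η / 4) := Real.rpow_pos_of_pos hTp _
    calc 1 + 2 * π * (((|C| + 1) * T ^ (η / 2)) * T ^ (1 - η))
        = 1 + 2 * π * (|C| + 1) * T ^ (1 - η / 2) := by rw [mul_assoc (|C| + 1), e1]; ring
      _ ≤ T ^ (1 - η / 2) + 2 * π * (|C| + 1) * T ^ (1 - η / 2) := by linarith
      _ = ((1 + 2 * π * (|C| + 1)) * T ^ (-(η / 4))) * T ^ (1 - η / 4) := by rw [e2]; ring
      _ ≤ 1 * T ^ (1 - η / 4) := mul_le_mul_of_nonneg_right hT.le e4.le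
      _ = _ := one_mul _
  have hall : ∀ᶠ T : ℝ in atTop, Real.exp 1 ≤ T ∧ T₁ ≤ T ∧ T₂ ≤ T ∧ T₃ ≤ T ∧ T₄ ≤ T ∧ T₅ ≤ T ∧
      T₆ ≤ T ∧ (∑ x ∈ tri T, |cf G T x| / ((x.1 : ℝ) * x.2.1) * (1 + qq x * B (qq x)) ≤ T ^ (1 - η)) ∧
      1 + 2 * π * (((|C| + 1) * T ^ (η / 2)) * T ^ (1 - η)) ≤ T ^ (1 - η / 4) := by
    filter_upwards [eventually_ge_atTop (Real.exp 1), eventually_ge_atTop T₁, eventually_ge_atTop T₂,
      eventually_ge_atTop T₃, eventually_ge_atTop T₄, eventually_ge_atTop T₅, eventually_ge_atTop T₆,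
      hsum, hfin] with T a b c d e f g h i
    exact ⟨a, b, c, d, e, f, g, h, i⟩
  obtain ⟨T₀, hT₀⟩ := eventually_atTop.1 hall
  refine ⟨η / 4, T₀, by positivity, ?_⟩
  intro T hT τ h1 h2
  obtain ⟨a, b, c, d, e, f, g, hs, hf⟩ := hT₀ T hT
  have hT1 : 1 < T := one_lt_of_exp a
  have hTp : 0 < T := by linarith
  have hτ0 : 0 ≤ τ := le_trans (by positivity) h1
  have hEj : ∀ j : ℕ, j ≤ 2 → Integrable (fun ξ : ℝ =>
      ker T τ ξ * (zz T ξ)⁻¹ * (Complex.log (zz T ξ) + Real.log T) ^ j) := by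
    intro j hj
    interval_cases j
    · exact (hE0 T e τ hτ0 h2).1
    · exact (hE1 T f τ hτ0 h2).1
    · exact (hE2 T g τ hτ0 h2).1
  set L : ℂ := (Real.log T : ℂ) with hL
  -- one term
  set R : ℕ × ℕ × ℕ → ℂ := fun x =>
    (∫ ξ : ℝ, ker T τ ξ *
        S3 (2 * π * I * ((x.2.2 : ℝ) / ((x.1 : ℝ) * x.2.1) : ℝ) * cexp (-(om T ξ)))) -
    (((P (qq x) (hn x)).1 - (P (qq x) (hn x)).2.1 * L + (P (qq x) (hn x)).2.2.1 * L ^ 2) * Ej 0 T τ +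
      ((P (qq x) (hn x)).2.1 - 2 * (P (qq x) (hn x)).2.2.1 * L) * Ej 1 T τ +
      (P (qq x) (hn x)).2.2.1 * Ej 2 T τ) with hR
  have hRb : ∀ x ∈ tri T, ‖R x‖ ≤ ((|C| + 1) * T ^ (η / 2)) * (1 + qq x * B (qq x)) := by
    intro x hx
    obtain ⟨hq, hh, hcop, hfr, hqT, hhT⟩ := frac_facts hTp.le hx
    have : NeZero (qq x) := ⟨hq.ne'⟩
    obtain ⟨hk, hZ⟩ := hP (qq x) (hn x) hh
    have hdec := decomp (τ := τ) a hEj hh hZ
    have hu : IsUnit ((hn x : ℕ) : ZMod (qq x)) := (ZMod.isUnit_iff_coprime _ _).2 hcop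
    have hSS : ∀ x' y z : ZMod (qq x), ‖SS (qq x) ((hn x : ℕ) : ZMod (qq x)) x' y z‖ ≤
        (qq x) * B (qq x) * (√(Nat.gcd x'.val (qq x)) * √(Nat.gcd z.val (qq x))) :=
      fun x' y z => hB1 (qq x) _ x' y z hu
    have hb := herr T b τ h1 h2 (qq x) (hn x) hh hqT hhT (B (qq x)) (hB0 _) hSS
    have hRx : R x = (P (qq x) (hn x)).2.2.2 * VV T τ 0 +
      ∫ ξ : ℝ, ker T τ ξ * ∑' i : Ix, ((pr i : ℂ))⁻¹ * SI (qq x) (hn x) i *
        JJ (-1 / 2) (es i) (zz T ξ * ((((hn x : ℕ) : ℝ) * ((qq x : ℕ) : ℝ) ^ 2 / pr i : ℝ) : ℂ)) := by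
      rw [hR]
      beta_reduce
      rw [hfr, hdec]
      ring
    rw [hRx]
    refine (norm_add_le _ _).trans ?_
    have hqB : 0 ≤ (qq x : ℝ) * B (qq x) := mul_nonneg (Nat.cast_nonneg _) (hB0 _)
    have hTη : 1 ≤ T ^ (η / 2) := Real.one_le_rpow hT1.le (by positivity)
    have b1 : ‖(P (qq x) (hn x)).2.2.2 * VV T τ 0‖ ≤ T ^ (η / 2) * (1 + qq x * B (qq x)) := by
      rw [norm_mul]
      have hv := hVV T d τ h1 h2
      have h3 : T ^ (-6 : ℝ) = (T ^ 6)⁻¹ := by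
        rw [Real.rpow_neg hTp.le, ← Real.rpow_natCast]
        norm_num
      calc ‖(P (qq x) (hn x)).2.2.2‖ * ‖VV T τ 0‖ ≤ ((qq x : ℕ) : ℝ) ^ 3 * T ^ (-6 : ℝ) :=
            mul_le_mul hk hv (norm_nonneg _) (by positivity)
        _ ≤ (T ^ 2) ^ 3 * T ^ (-6 : ℝ) := by
            refine mul_le_mul_of_nonneg_right ?_ (Real.rpow_nonneg hTp.le _)
            exact pow_le_pow_left₀ (Nat.cast_nonneg _) hqT 3
        _ = 1 := by rw [h3]; field_simp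
        _ ≤ _ := one_le_mul_of_one_le_of_one_le hTη (le_add_of_nonneg_right hqB)
    have b2 : C * T ^ (η / 2) * (1 + qq x * B (qq x)) ≤ |C| * T ^ (η / 2) * (1 + qq x * B (qq x)) := by
      have := le_abs_self C
      gcongr
    calc _ ≤ T ^ (η / 2) * (1 + qq x * B (qq x)) + |C| * T ^ (η / 2) * (1 + qq x * B (qq x)) :=
          add_le_add b1 (hb.trans b2)
      _ = _ := by ring
  have hmain : ∑ x ∈ tri T, ((cf G T x / ((x.1 : ℝ) * x.2.1) : ℝ) : ℂ) *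
      (2 * π * ∫ ξ : ℝ, ker T τ ξ *
        S3 (2 * π * I * ((x.2.2 : ℝ) / ((x.1 : ℝ) * x.2.1) : ℝ) * cexp (-(om T ξ)))) =
      2 * π * ((Ac P G T - Bc P G T * L + Cc P G T * L ^ 2) * Ej 0 T τ +
      (Bc P G T - 2 * Cc P G T * L) * Ej 1 T τ + Cc P G T * Ej 2 T τ) +
      2 * π * ∑ x ∈ tri T, cx G T x * R x := by
    unfold Ac Bc Cc
    simp only [Finset.sum_mul, Finset.mul_sum, ← Finset.sum_sub_distrib, ← Finset.sum_add_distrib]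
    refine Finset.sum_congr rfl fun x _ => ?_
    simp only [hR, cx]
    ring
  have hr := hrep T c τ h1 h2
  rw [hmain] at hr
  have hs2 : ‖2 * π * ∑ x ∈ tri T, cx G T x * R x‖ ≤
      2 * π * (((|C| + 1) * T ^ (η / 2)) * T ^ (1 - η)) := by
    rw [norm_mul, norm_mul, Complex.norm_ofNat, Complex.norm_real, Real.norm_of_nonneg Real.pi_pos.le]
    refine mul_le_mul_of_nonneg_left ?_ (by positivity)
    refine (norm_sum_le _ _).trans ?_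
    calc ∑ x ∈ tri T, ‖cx G T x * R x‖ ≤ ∑ x ∈ tri T, ((|C| + 1) * T ^ (η / 2)) *
          (|cf G T x| / ((x.1 : ℝ) * x.2.1) * (1 + qq x * B (qq x))) := by
          refine Finset.sum_le_sum fun x hx => ?_
          rw [norm_mul, norm_cx]
          calc |cf G T x| / ((x.1 : ℝ) * x.2.1) * ‖R x‖ ≤ |cf G T x| / ((x.1 : ℝ) * x.2.1) *
                (((|C| + 1) * T ^ (η / 2)) * (1 + qq x * B (qq x))) :=
                mul_le_mul_of_nonneg_left (hRb x hx) (by positivity)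
            _ = _ := by ring
      _ = ((|C| + 1) * T ^ (η / 2)) *
          ∑ x ∈ tri T, |cf G T x| / ((x.1 : ℝ) * x.2.1) * (1 + qq x * B (qq x)) := by
          rw [Finset.mul_sum]
      _ ≤ _ := mul_le_mul_of_nonneg_left hs (by positivity)
  refine le_trans ?_ hf
  generalize 2 * π * ((Ac P G T - Bc P G T * L + Cc P G T * L ^ 2) * Ej 0 T τ +
      (Bc P G T - 2 * Cc P G T * L) * Ej 1 T τ + Cc P G T * Ej 2 T τ) = M at hr ⊢
  generalize 2 * π * ∑ x ∈ tri T, cx G T x * R x = E at hr hs2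
  calc ‖I2 G T τ - M‖ = ‖(I2 G T τ - (M + E)) + E‖ := by congr 1; ring
    _ ≤ ‖I2 G T τ - (M + E)‖ + ‖E‖ := norm_add_le _ _
    _ ≤ _ := add_le_add hr hs2

end S6

end

section

namespace S6
open Complex MeasureTheory Filter Topology Set
open scoped Real ComplexConjugate

lemma sqrt_pi_pos : 0 < √π := Real.sqrt_pos.2 Real.pi_pos

lemma HH_tendsto : Tendsto HH atTop atTop := by
  have h1 : Tendsto (fun x : ℝ => Real.log x / x) atTop (𝓝 0) := by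
    have := Real.isLittleO_log_id_atTop.tendsto_div_nhds_zero
    simpa using this
  have h2 : ∀ᶠ x : ℝ in atTop, 0 < Real.log x / x := by
    filter_upwards [eventually_gt_atTop (1 : ℝ)] with x hx
    exact div_pos (Real.log_pos hx) (by linarith)
  have h3 : Tendsto (fun x : ℝ => Real.log x / x) atTop (𝓝[>] 0) :=
    tendsto_nhdsWithin_iff.2 ⟨h1, h2⟩
  have h4 := tendsto_inv_nhdsGT_zero.comp h3
  refine h4.congr fun x => ?_
  simp [HH]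

theorem I2_lim {κ : ℝ} (hκ : 1 ≤ κ) (hK : KloosBound κ) {G : ℝ × ℝ × ℝ → ℝ} (hG : TF κ G)
    {ν : Measure E6} (hν : Lap ν) [SFinite ν] {c₀ c₁ c₂ l₀ : ℝ}
    (hq : ∀ l ≥ l₀, QB ν G l = c₀ + c₁ * l + c₂ * l ^ 2)
    {δ : ℝ} (hδ : 0 < δ) {τ : ℝ → ℝ} (hτ : ∀ T : ℝ, 1 ≤ T → δ * T ≤ τ T ∧ τ T ≤ T) :
    Tendsto (fun T : ℝ => (I2 G T (τ T)).re / (HH T * √π * Real.log T ^ 9)) atTop
      (𝓝 (MP069854.arith 3 * (c₀ + c₁ + c₂))) := by
  obtain ⟨P, hP⟩ := dual_data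
  have hP' : DualData P := hP
  obtain ⟨l₁, l₂, l₃, hl1, hl12, hl23, n1, n2, n3⟩ := three_points ν (max 60 l₀)
  have g60 : (60 : ℝ) ≤ max 60 l₀ := le_max_left _ _
  have gl0 : l₀ ≤ max 60 l₀ := le_max_right _ _
  set A3 : ℝ := MP069854.arith 3 with hA3
  set a : ℝ → ℂ := fun T => ((Real.log T : ℝ) : ℂ)⁻¹ ^ 9 * Ac P G T with ha
  set b : ℝ → ℂ := fun T => -(((Real.log T : ℝ) : ℂ)⁻¹ ^ 8 * Bc P G T) with hb
  set c : ℝ → ℂ := fun T => ((Real.log T : ℝ) : ℂ)⁻¹ ^ 7 * Cc P G T with hc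
  have key : ∀ l : ℝ, max 60 l₀ < l → ν {p | ell p = l} = 0 →
      Tendsto (fun T => a T + b T * l + c T * l ^ 2) atTop
        (𝓝 ((A3 * c₀ : ℝ) + (A3 * c₁ : ℝ) * (l : ℂ) + (A3 * c₂ : ℝ) * (l : ℂ) ^ 2)) := by
    intro l hl hn
    have := E_side hκ hG hν hP' (by linarith : (60 : ℝ) ≤ l) hn
    rw [hq l (by linarith)] at this
    convert this using 2
    push_cast; ring
  obtain ⟨ta, tb, tc⟩ := interp hl12.ne (hl12.trans hl23).ne hl23.ne (key l₁ hl1 n1)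
    (key l₂ (by linarith) n2) (key l₃ (by linarith) n3)
  -- kernel constants
  obtain ⟨η, T₀, hη, hform⟩ := I2_formula hκ hK hG hP' hδ
  obtain ⟨C0, T₁, h0⟩ := K0_bound hδ
  obtain ⟨C1, T₂, h1⟩ := Ej_bound 1
  obtain ⟨C2, T₃, h2⟩ := Ej_bound 2
  have hN : Tendsto (fun T : ℝ => HH T * √π) atTop atTop :=
    HH_tendsto.atTop_mul_const sqrt_pi_pos
  have hlog := Real.tendsto_log_atTop
  have hev : ∀ᶠ T : ℝ in atTop, Real.exp 1 ≤ T ∧ T₀ ≤ T ∧ T₁ ≤ T ∧ T₂ ≤ T ∧ T₃ ≤ T := by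
    filter_upwards [eventually_ge_atTop (Real.exp 1), eventually_ge_atTop T₀, eventually_ge_atTop T₁,
      eventually_ge_atTop T₂, eventually_ge_atTop T₃] with T a b c d e
    exact ⟨a, b, c, d, e⟩
  have facts : ∀ T : ℝ, Real.exp 1 ≤ T → 1 < T ∧ 1 ≤ Real.log T ∧ 0 < HH T ∧ 0 < HH T * √π := by
    intro T hT
    have hT1 := one_lt_of_exp hT
    have hl : 1 ≤ Real.log T := by
      rw [Real.le_log_iff_exp_le (by linarith)]; exact hT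
    have hH : 0 < HH T := div_pos (by linarith) (by linarith)
    exact ⟨hT1, hl, hH, mul_pos hH sqrt_pi_pos⟩
  set e0 : ℝ → ℂ := fun T => 2 * π * Ej 0 T (τ T) / ((HH T * √π : ℝ) : ℂ) with he0
  set e1 : ℝ → ℂ := fun T => 2 * π * Ej 1 T (τ T) / ((HH T * √π * Real.log T : ℝ) : ℂ) with he1
  set e2 : ℝ → ℂ := fun T => 2 * π * Ej 2 T (τ T) / ((HH T * √π * Real.log T ^ 2 : ℝ) : ℂ) with he2
  have t0 : Tendsto e0 atTop (𝓝 1) := by
    rw [← tendsto_sub_nhds_zero_iff, tendsto_zero_iff_norm_tendsto_zero]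
    have hz : Tendsto (fun T : ℝ => C0 / (HH T * √π)) atTop (𝓝 0) := hN.const_div_atTop C0
    refine squeeze_zero' (Eventually.of_forall fun _ => norm_nonneg _) ?_ hz
    filter_upwards [hev] with T hT
    obtain ⟨hT1, hl, hH, hHp⟩ := facts T hT.1
    obtain ⟨d1, d2⟩ := hτ T hT1.le
    obtain ⟨-, hb0⟩ := h0 T hT.2.2.1 (τ T) d1 d2
    have hHc : ((HH T * √π : ℝ) : ℂ) ≠ 0 := by exact_mod_cast hHp.ne'
    have e : e0 T - 1 = (2 * π * Ej 0 T (τ T) - ((HH T * √π : ℝ) : ℂ)) / ((HH T * √π : ℝ) : ℂ) := by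
      simp only [he0]
      rw [sub_div, div_self hHc]
    rw [e, norm_div, Complex.norm_real, Real.norm_of_nonneg hHp.le]
    refine div_le_div_of_nonneg_right ?_ hHp.le
    have : Ej 0 T (τ T) = ∫ ξ : ℝ, ker T (τ T) ξ * (zz T ξ)⁻¹ := by
      unfold Ej; simp
    rw [this]; exact hb0
  have tj : ∀ (j : ℕ), 1 ≤ j → ∀ C T' : ℝ, (∀ T ≥ T', ∀ τ, 0 ≤ τ → τ ≤ T → ‖Ej j T τ‖ ≤
      C * (HH T * √(Real.log T))) → Tendsto (fun T => 2 * π * Ej j T (τ T) /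
        ((HH T * √π * Real.log T ^ j : ℝ) : ℂ)) atTop (𝓝 0) := by
    intro j hj C T' hC
    rw [tendsto_zero_iff_norm_tendsto_zero]
    have hz : Tendsto (fun T : ℝ => (2 * π * |C| / √π) * (√(Real.log T))⁻¹) atTop (𝓝 0) := by
      have := (tendsto_inv_atTop_zero.comp (Real.tendsto_sqrt_atTop.comp hlog)).const_mul
        (2 * π * |C| / √π)
      rw [mul_zero] at this
      exact this
    refine squeeze_zero' (Eventually.of_forall fun _ => norm_nonneg _) ?_ hz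
    filter_upwards [hev, eventually_ge_atTop T'] with T hT hT'
    obtain ⟨hT1, hl, hH, hHp⟩ := facts T hT.1
    obtain ⟨d1, d2⟩ := hτ T hT1.le
    have hτ0 : 0 ≤ τ T := le_trans (by positivity) d1
    have hb := hC T hT' (τ T) hτ0 d2
    have hlp : 0 < Real.log T := by linarith
    have hsp : 0 < √(Real.log T) := Real.sqrt_pos.2 hlp
    rw [norm_div, norm_mul, norm_mul, Complex.norm_ofNat, Complex.norm_real, Complex.norm_real,
      Real.norm_of_nonneg Real.pi_pos.le, Real.norm_of_nonneg (by positivity)]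
    have hjl : Real.log T ≤ Real.log T ^ j := le_self_pow₀ hl (by omega)
    calc 2 * π * ‖Ej j T (τ T)‖ / (HH T * √π * Real.log T ^ j)
        ≤ 2 * π * (|C| * (HH T * √(Real.log T))) / (HH T * √π * Real.log T) := by
          have := sqrt_pi_pos
          have hb' : ‖Ej j T (τ T)‖ ≤ |C| * (HH T * √(Real.log T)) :=
            hb.trans (mul_le_mul_of_nonneg_right (le_abs_self C) (by positivity))
          gcongr
      _ = (2 * π * |C| / √π) * (√(Real.log T))⁻¹ := by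
          have h3 : √(Real.log T) * √(Real.log T) = Real.log T := Real.mul_self_sqrt hlp.le
          have := sqrt_pi_pos
          field_simp
          rw [sq, h3]
  have t1 : Tendsto e1 atTop (𝓝 0) := by
    have := tj 1 le_rfl C1 T₂ (fun T hT τ h3 h4 => (h1 T hT τ h3 h4).2)
    simpa only [he1, pow_one] using this
  have t2 : Tendsto e2 atTop (𝓝 0) :=
    tj 2 (by norm_num) C2 T₃ (fun T hT τ h3 h4 => (h2 T hT τ h3 h4).2)
  -- the error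
  set er : ℝ → ℂ := fun T => (I2 G T (τ T) - 2 * π * ((Ac P G T - Bc P G T * Real.log T +
      Cc P G T * Real.log T ^ 2) * Ej 0 T (τ T) +
      (Bc P G T - 2 * Cc P G T * Real.log T) * Ej 1 T (τ T) + Cc P G T * Ej 2 T (τ T))) /
      ((HH T * √π * Real.log T ^ 9 : ℝ) : ℂ) with her
  have te : Tendsto er atTop (𝓝 0) := by
    rw [tendsto_zero_iff_norm_tendsto_zero]
    have hz : Tendsto (fun T : ℝ => (√π)⁻¹ * T ^ (-η)) atTop (𝓝 0) := by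
      have := (tendsto_rpow_neg_atTop hη).const_mul (√π)⁻¹
      rwa [mul_zero] at this
    refine squeeze_zero' (Eventually.of_forall fun _ => norm_nonneg _) ?_ hz
    filter_upwards [hev] with T hT
    obtain ⟨hT1, hl, hH, hHp⟩ := facts T hT.1
    obtain ⟨d1, d2⟩ := hτ T hT1.le
    have hb := hform T hT.2.1 (τ T) d1 d2
    have hTp : 0 < T := by linarith
    have hlp : 0 < Real.log T := by linarith
    have hs := sqrt_pi_pos
    simp only [her]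
    rw [norm_div, Complex.norm_real, Real.norm_of_nonneg (by positivity)]
    have h8 : 1 ≤ Real.log T ^ 8 := one_le_pow₀ hl
    calc _ ≤ T ^ (1 - η) / (HH T * √π * Real.log T ^ 9) :=
          div_le_div_of_nonneg_right hb (by positivity)
      _ = (√π)⁻¹ * T ^ (-η) / Real.log T ^ 8 := by
          have e : T ^ (1 - η) = T * T ^ (-η) := by
            rw [sub_eq_add_neg, Real.rpow_add hTp, Real.rpow_one]
          rw [e]
          unfold HH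
          field_simp
      _ ≤ (√π)⁻¹ * T ^ (-η) := div_le_self (by positivity) h8
  have hlim : Tendsto (fun T => (a T + b T + c T) * e0 T + (-b T - 2 * c T) * e1 T + c T * e2 T + er T)
      atTop (𝓝 (((A3 * c₀ : ℝ) + (A3 * c₁ : ℝ) + (A3 * c₂ : ℝ)) * 1 +
        (-((A3 * c₁ : ℝ) : ℂ) - 2 * ((A3 * c₂ : ℝ) : ℂ)) * 0 + ((A3 * c₂ : ℝ) : ℂ) * 0 + 0)) :=
    (((((ta.add tb).add tc).mul t0).add ((tb.neg.sub (tc.const_mul 2)).mul t1)).add (tc.mul t2)).add te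
  have hval : ((A3 * c₀ : ℝ) + (A3 * c₁ : ℝ) + (A3 * c₂ : ℝ)) * 1 +
        (-((A3 * c₁ : ℝ) : ℂ) - 2 * ((A3 * c₂ : ℝ) : ℂ)) * 0 + ((A3 * c₂ : ℝ) : ℂ) * 0 + 0 =
      ((A3 * (c₀ + c₁ + c₂) : ℝ) : ℂ) := by push_cast; ring
  rw [hval] at hlim
  have hre := (Complex.continuous_re.tendsto _).comp hlim
  rw [ofReal_re] at hre
  refine hre.congr' ?_
  filter_upwards [hev] with T hT
  obtain ⟨hT1, hl, hH, hHp⟩ := facts T hT.1
  have hlp : 0 < Real.log T := by linarith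
  have hlc : ((Real.log T : ℝ) : ℂ) ≠ 0 := by exact_mod_cast hlp.ne'
  have hHc : ((HH T : ℝ) : ℂ) ≠ 0 := by exact_mod_cast hH.ne'
  have hpc : ((√π : ℝ) : ℂ) ≠ 0 := by exact_mod_cast sqrt_pi_pos.ne'
  have hEq : (a T + b T + c T) * e0 T + (-b T - 2 * c T) * e1 T + c T * e2 T + er T =
      I2 G T (τ T) / ((HH T * √π * Real.log T ^ 9 : ℝ) : ℂ) := by
    simp only [ha, hb, hc, he0, he1, he2, her]
    push_cast
    generalize ((Real.log T : ℝ) : ℂ) = L at hlc ⊢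
    generalize ((HH T : ℝ) : ℂ) = H at hHc ⊢
    generalize ((√π : ℝ) : ℂ) = p at hpc ⊢
    field_simp
    ring
  show ((a T + b T + c T) * e0 T + (-b T - 2 * c T) * e1 T + c T * e2 T + er T).re = _
  rw [hEq, Complex.div_ofReal_re]

end S6

end

section

namespace S6
open Complex MeasureTheory Filter Topology Set
open scoped Real ComplexConjugate

instance m0_sfinite : SFinite m0 := by unfold m0; infer_instance

instance nuB_sfinite : SFinite nuB := by unfold nuB; infer_instance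

/-- Lower bound in windows, from one profile. -/
theorem window_bound {κ : ℝ} (hκ : 1 ≤ κ) (hK : KloosBound κ) {δ : ℝ} (hδ : 0 < δ) {τ : ℝ → ℝ}
    (hτ : ∀ T : ℝ, 1 ≤ T → δ * T ≤ τ T ∧ τ T ≤ T) {c' : ℝ} (hA : 0 < MP069854.arith 3)
    (hc' : c' < MP069854.arith 3 * (2 * ∫ p in Reg κ, PP p ^ 2)) :
    ∀ᶠ T in atTop, c' * (HH T * √π * Real.log T ^ 9) ≤ J6 T (τ T) := by
  set A3 : ℝ := MP069854.arith 3 with hA3
  set V : ℝ := 2 * ∫ p in Reg κ, PP p ^ 2 with hV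
  obtain ⟨Ψ, s1, s2, s3, s4⟩ := cutoff hκ (η := (A3 * V - c') / (2 * A3))
    (div_pos (by linarith) (by linarith))
  have hTF : TF κ (GG Ψ) := TF_GG s1 s2 s3
  have hsR : ∀ p, Ψ p ≠ 0 → p ∈ Reg κ := fun p hp =>
    s3 (subset_tsupport _ (Function.mem_support.2 hp))
  have hs1 : ∀ p, Ψ p ≠ 0 → 0 < p.2.1 ∧ p.2.1 < p.1 ∧ 0 < p.2.2 := fun p hp =>
    ⟨(hsR p hp).1, (hsR p hp).2.1, (hsR p hp).2.2.1⟩
  have hs2 : ∀ p, Ψ p ≠ 0 → 0 < p.2.1 ∧ p.2.1 < p.1 ∧ 0 < p.2.2 ∧ p.1 + p.2.1 + p.2.2 < 1 := by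
    intro p hp
    obtain ⟨a, b, c, d, -⟩ := hsR p hp
    have : 1 * (p.1 + p.2.1) ≤ κ * (p.1 + p.2.1) := mul_le_mul_of_nonneg_right hκ (by linarith)
    exact ⟨a, b, c, by linarith⟩
  have hcont : Continuous Ψ := s1.continuous
  have hint : ∀ f : ℝ × ℝ × ℝ → ℝ, Continuous f → Integrable fun p => Ψ p * f p := fun f hf =>
    (hcont.mul hf).integrable_of_hasCompactSupport (s2.mul_right)
  set c₀ : ℝ := ∫ p : ℝ × ℝ × ℝ, Ψ p * ((p.1 - p.2.1) * (p.2.2 + p.1) * (p.2.2 + p.2.1) / 2) with hc0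
  set c₁ : ℝ := ∫ p : ℝ × ℝ × ℝ, Ψ p * (-((p.1 - p.2.1) * (2 * p.2.2 + p.1 + p.2.1)) / 2) with hc1
  set c₂ : ℝ := ∫ p : ℝ × ℝ × ℝ, Ψ p * ((p.1 - p.2.1) / 2) with hc2
  have i0 := hint (fun p => (p.1 - p.2.1) * (p.2.2 + p.1) * (p.2.2 + p.2.1) / 2) (by fun_prop)
  have i1 := hint (fun p => -((p.1 - p.2.1) * (2 * p.2.2 + p.1 + p.2.1)) / 2) (by fun_prop)
  have i2 := hint (fun p => (p.1 - p.2.1) / 2) (by fun_prop)
  have hpoly : ∀ l : ℝ, ∫ p : ℝ × ℝ × ℝ,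
      Ψ p * ((p.1 - p.2.1) * (l - p.2.2 - p.1) * (l - p.2.2 - p.2.1) / 2) =
      c₀ + c₁ * l + c₂ * l ^ 2 := by
    intro l
    have i01 : Integrable fun p : ℝ × ℝ × ℝ =>
        Ψ p * ((p.1 - p.2.1) * (p.2.2 + p.1) * (p.2.2 + p.2.1) / 2) +
        Ψ p * (-((p.1 - p.2.1) * (2 * p.2.2 + p.1 + p.2.1)) / 2) * l := i0.add (i1.mul_const l)
    rw [hc0, hc1, hc2, ← integral_mul_const, ← integral_mul_const, ← integral_add i0 (i1.mul_const l),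
      ← integral_add i01 (i2.mul_const (l ^ 2))]
    refine integral_congr_ae (Eventually.of_forall fun p => ?_)
    ring
  have hq : ∀ l ≥ (3 : ℝ), QB nuB (GG Ψ) l = c₀ + c₁ * l + c₂ * l ^ 2 := fun l hl => by
    rw [QB_GG s1 s2 hs2 hl, hpoly]
  have h1 := hpoly 1
  have hPP : ∫ p, Ψ p * PP p = c₀ + c₁ + c₂ := by
    rw [mul_one, one_pow, mul_one] at h1
    rw [← h1]
    rfl
  have t1 := I1_lim hκ hTF lapA hδ hτ
  have t2 := I2_lim hκ hK hTF lapB hq hδ hτ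
  have t3 := I3_lim hκ hTF hδ hτ
  rw [QA_GG s1 s2 hs1] at t1
  rw [← hPP] at t2
  have tl := ((t2.const_mul 4).sub (t1.const_mul 2)).sub (t3.const_mul 2)
  have hlt : c' < 4 * (A3 * ∫ p, Ψ p * PP p) - 2 * (A3 * ∫ p, Ψ p ^ 2) - 2 * 0 := by
    have h2 : A3 * (V - (A3 * V - c') / (2 * A3)) ≤
        A3 * (4 * (∫ p, Ψ p * PP p) - 2 * ∫ p, Ψ p ^ 2) := mul_le_mul_of_nonneg_left s4 hA.le
    have h3 : A3 * (V - (A3 * V - c') / (2 * A3)) = (A3 * V + c') / 2 := by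
      field_simp; ring
    linarith
  have hev := tl.eventually (lt_mem_nhds hlt)
  filter_upwards [hev, eventually_ge_atTop (Real.exp 1)] with T hT hT'
  have hT1 := one_lt_of_exp hT'
  have hl : 0 < Real.log T := Real.log_pos hT1
  have hH : 0 < HH T := div_pos (by linarith) hl
  have hp := sqrt_pi_pos
  have hD : 0 < HH T * √π * Real.log T ^ 9 := by positivity
  have hpt := A_point (GG Ψ) hT1 (τ T)
  have h4 : c' < (4 * (I2 (GG Ψ) T (τ T)).re - 2 * I1 (GG Ψ) T (τ T) - 2 * (I3 (GG Ψ) T (τ T)).re) /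
      (HH T * √π * Real.log T ^ 9) := by
    refine hT.trans_eq ?_
    ring
  rw [lt_div_iff₀ hD] at h4
  linarith

/-- General form: Weil-type bound implies a lower bound. -/
theorem sixth_of_kloos {κ : ℝ} (hκ : 1 ≤ κ) (hK : KloosBound κ) (hA : 0 < MP069854.arith 3)
    (hV : 0 < ∫ p in Reg κ, PP p ^ 2) :
    ∀ c' < MP069854.arith 3 * (2 * ∫ p in Reg κ, PP p ^ 2), ∀ᶠ T : ℝ in atTop,
      c' * Real.log T ^ 9 ≤ T⁻¹ * ∫ t in (0 : ℝ)..T, ‖riemannZeta (1 / 2 + I * t)‖ ^ 6 :=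
  A_avg (by positivity) fun _ hδ _ hτ _ hc' => window_bound hκ hK hδ hτ hA hc'

end S6

end

section

/-! Definitions connecting `SG` with the sixth moment (helper11). Paper proof: team-store `s6g_paper.md`. -/

namespace SG
open Complex MeasureTheory Filter Topology Set S6
open scoped Real ComplexConjugate

noncomputable section

/-- Kloosterman sum `∑_{(a,c)=1} e((x a + n (h a)⁻¹)/c)` -/
def KlG (c : ℕ) (h x n : ℤ) : ℂ :=
  ∑ a ∈ (Finset.range c).filter (fun a => Nat.Coprime a c), ex ((x * a + n * iv c h a) / c)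

/-- `SI` without the instance -/
def SIz (q h : ℕ) (i : Ix) : ℂ :=
  if hq : q = 0 then 0 else haveI : NeZero q := ⟨hq⟩; SI q (h : ZMod q) i

/-- error term of the dual formula for the fraction `h/q` -/
def ErrX (T τ : ℝ) (q h : ℕ) : ℂ :=
  ∫ ξ : ℝ, ker T τ ξ * ∑' i : Ix, ((pr i : ℂ))⁻¹ * SIz q h i *
    JJ (-1 / 2) (es i) (zz T ξ * ((h * q ^ 2 / pr i : ℝ) : ℂ))

/-- total error term -/
def ErrTot (G : ℝ × ℝ × ℝ → ℝ) (T τ : ℝ) : ℂ := ∑ x ∈ tri T, cx G T x * ErrX T τ (qq x) (hn x)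

/-- the test function `G` has an admissible error term -/
def ErrOK (G : ℝ × ℝ × ℝ → ℝ) : Prop := ∀ δ : ℝ, 0 < δ → ∃ η T₀ : ℝ, 0 < η ∧ ∀ T ≥ T₀, ∀ τ,
  δ * T ≤ τ → τ ≤ T → ‖ErrTot G T τ‖ ≤ T ^ (1 - η)

/-- the averaged kernel -/
def FF (σ : ℝ) (e : ℤ) (T τ x : ℝ) : ℂ := ∫ ξ : ℝ, ker T τ ξ * JJ σ e (zz T ξ * (x : ℂ))

/-- sum and product of three signs -/
def e3 (s : Bool × Bool × Bool) : ℤ := sg s.1 + sg s.2.1 + sg s.2.2
def s3 (s : Bool × Bool × Bool) : ℤ := sg s.1 * sg s.2.1 * sg s.2.2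

/-- the new region -/
def RegS : Set (ℝ × ℝ × ℝ) :=
  {p | 0 < p.2.1 ∧ p.2.1 < p.1 ∧ 0 < p.2.2 ∧ p.2.1 + p.2.2 < 1 / 2 ∧
    2 * (p.1 + p.2.1) + p.2.2 < 3 / 2 ∧ p.1 + p.2.1 - p.2.2 < 1 / 2}

def RegG : Set (ℝ × ℝ × ℝ) := Reg (3 / 2) ∪ RegS

end

end SG

end

section

namespace SG
open Complex MeasureTheory Filter Topology Set S6
open scoped Real ComplexConjugate

/-- the integrand -/
private noncomputable def K1a_Phi (T τ σ : ℝ) (e : ℤ) (ξ t : ℝ) : ℂ :=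
  ker T τ ξ * (kk e ((σ : ℂ) + t * I) * (zz T ξ) ^ (-((σ : ℂ) + t * I)))

private lemma K1a_kk {σ : ℝ} (hσ : σ = 1 / 2 ∨ σ = -1 / 2) {e : ℤ} (he : |e| ≤ 3) (t : ℝ) :
    ‖kk e ((σ : ℂ) + t * I)‖ ≤ (2 * π) ^ 2 * ((1 + t ^ 2) * Real.exp (-(π / 2 * |t|))) := by
  have hexp : 0 < Real.exp (-(π / 2 * |t|)) := Real.exp_pos _
  have hpi : (1 : ℝ) ≤ (2 * π) ^ 2 := by
    have := Real.pi_gt_three
    nlinarith
  rcases hσ with rfl | rfl
  · refine (JJ_kk_right he t).trans ?_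
    apply mul_le_mul_of_nonneg_left _ (by positivity)
    nlinarith [sq_nonneg t]
  · refine (JJ_kk_left he t).trans ?_
    have h0 : 0 ≤ (1 + t ^ 2) * Real.exp (-(π / 2 * |t|)) := by positivity
    nlinarith

private lemma K1a_point {T : ℝ} (hT : 1 < T) (τ : ℝ) {σ : ℝ} (hσ : σ = 1 / 2 ∨ σ = -1 / 2) {e : ℤ}
    (he : |e| ≤ 3) (ξ t : ℝ) :
    ‖K1a_Phi T τ σ e ξ t‖ ≤ ‖ker T τ ξ‖ * ((2 * π) ^ 2 * ‖zz T ξ‖ ^ (-σ) *
      (9 / ((zz T ξ).re / ‖zz T ξ‖) ^ 2 *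
        Real.exp (-((zz T ξ).re / ‖zz T ξ‖ / 2 * |t|)))) := by
  have hy := zz_re_pos hT ξ
  set y := zz T ξ with hy'
  obtain ⟨ha1, ha2, ha3⟩ := JJ_arg hy
  set ρ := y.re / ‖y‖ with hρ
  have him : ((σ : ℂ) + t * I).im = t := by simp
  have hre : ((σ : ℂ) + t * I).re = σ := by simp
  unfold K1a_Phi
  rw [norm_mul, norm_mul, JJ_norm_y hy, him, hre]
  apply mul_le_mul_of_nonneg_left _ (norm_nonneg _)
  have h1 := K1a_kk hσ he t
  have h2 : arg y * t ≤ (π / 2 - ρ) * |t| := by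
    calc arg y * t ≤ |arg y * t| := le_abs_self _
      _ = |arg y| * |t| := abs_mul _ _
      _ ≤ (π / 2 - ρ) * |t| := mul_le_mul_of_nonneg_right ha1 (abs_nonneg _)
  have h3 : Real.exp (arg y * t) ≤ Real.exp ((π / 2 - ρ) * |t|) := Real.exp_le_exp.2 h2
  calc ‖kk e ((σ : ℂ) + t * I)‖ * (‖y‖ ^ (-σ) * Real.exp (arg y * t))
      ≤ ((2 * π) ^ 2 * ((1 + t ^ 2) * Real.exp (-(π / 2 * |t|)))) *
        (‖y‖ ^ (-σ) * Real.exp ((π / 2 - ρ) * |t|)) := by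
        apply mul_le_mul h1 _ (by positivity) (by positivity)
        exact mul_le_mul_of_nonneg_left h3 (by positivity)
    _ = (2 * π) ^ 2 * ‖y‖ ^ (-σ) * ((1 + t ^ 2) *
        (Real.exp (-(π / 2 * |t|)) * Real.exp ((π / 2 - ρ) * |t|))) := by ring
    _ = (2 * π) ^ 2 * ‖y‖ ^ (-σ) * ((1 + t ^ 2) * Real.exp (-(ρ * |t|))) := by
        rw [← Real.exp_add]
        congr 3
        ring
    _ ≤ (2 * π) ^ 2 * ‖y‖ ^ (-σ) * (9 / ρ ^ 2 * Real.exp (-(ρ / 2 * |t|))) :=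
        mul_le_mul_of_nonneg_left (JJ_sq_exp ha2 ha3 t) (by positivity)

private lemma K1a_cont {T : ℝ} (hT : 1 < T) (τ : ℝ) {σ : ℝ} (hσ : σ = 1 / 2 ∨ σ = -1 / 2) (e : ℤ) :
    Continuous (fun p : ℝ × ℝ => K1a_Phi T τ σ e p.1 p.2) := by
  have hl : Continuous (fun p : ℝ × ℝ => (σ : ℂ) + p.2 * I) := by fun_prop
  have hσ1 : ∀ m : ℕ, σ ≠ -m := by
    intro m h
    rcases hσ with h1 | h1
    · have hm : (0 : ℝ) ≤ (m : ℝ) := Nat.cast_nonneg m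
      linarith
    · have h3 : (m : ℝ) = 1 / 2 := by linarith
      have h2 : (2 * m : ℕ) = 1 := by
        have : ((2 * m : ℕ) : ℝ) = 1 := by push_cast; linarith
        exact_mod_cast this
      omega
  have hσ2 : σ < 1 := by rcases hσ with h | h <;> linarith
  unfold K1a_Phi
  refine ((km_cont_ker T τ).comp continuous_fst).mul (Continuous.mul ?_ ?_)
  · rw [continuous_iff_continuousAt]
    intro p
    have h3 : ∀ m : ℕ, ((σ : ℂ) + p.2 * I) ≠ -m := by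
      intro m h
      have := congrArg Complex.re h
      simp at this
      exact hσ1 m this
    have h4 : ((σ : ℂ) + p.2 * I).re < 1 := by simpa using hσ2
    exact ContinuousAt.comp (f := fun p : ℝ × ℝ => (σ : ℂ) + p.2 * I)
      (JJ_kk_diff e h3 h4).continuousAt hl.continuousAt
  · refine Continuous.cpow ((km_cont_zz T).comp continuous_fst) hl.neg ?_
    intro p
    exact Or.inl (zz_re_pos hT p.1)

private lemma K1a_cont1 {T : ℝ} (hT : 1 < T) (τ : ℝ) {σ : ℝ} (hσ : σ = 1 / 2 ∨ σ = -1 / 2) (e : ℤ)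
    (ξ : ℝ) : Continuous (fun t : ℝ => K1a_Phi T τ σ e ξ t) := by
  have hpair : Continuous (fun t : ℝ => ((ξ, t) : ℝ × ℝ)) := by fun_prop
  have h := (K1a_cont hT τ hσ e).comp hpair
  simpa only [Function.comp_def] using h

private lemma K1a_alg {ρ : ℝ} (hρ : 0 < ρ) : 9 / ρ ^ 2 * (2 / (ρ / 2)) = 36 * (1 / ρ) ^ 3 := by
  field_simp
  norm_num

private lemma K1a_alg2 {ρ M : ℝ} (hρ : 0 < ρ) :
    9 / ρ ^ 2 * (M * (2 / (ρ / 4))) = 72 * (M * (1 / ρ) ^ 3) := by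
  field_simp
  ring

/-- one-variable bound -/
private lemma K1a_line {T : ℝ} (hT : 1 < T) (τ : ℝ) {σ : ℝ} (hσ : σ = 1 / 2 ∨ σ = -1 / 2) {e : ℤ}
    (he : |e| ≤ 3) (ξ : ℝ) : Integrable (fun t : ℝ => K1a_Phi T τ σ e ξ t) ∧
    ∫ t : ℝ, ‖K1a_Phi T τ σ e ξ t‖ ≤ 36 * (2 * π) ^ 2 *
      (‖ker T τ ξ‖ * (‖zz T ξ‖ ^ (3 - σ) / (zz T ξ).re ^ 3)) := by
  have hy := zz_re_pos hT ξ
  have hb := K1a_point hT τ hσ he ξ
  set y := zz T ξ with hy'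
  obtain ⟨ha1, ha2, ha3⟩ := JJ_arg hy
  have hy0 : y ≠ 0 := by
    rintro h
    rw [h] at hy
    simp at hy
  have hn : 0 < ‖y‖ := norm_pos_iff.2 hy0
  set ρ := y.re / ‖y‖ with hρ
  have hdom : Integrable (fun t : ℝ => ‖ker T τ ξ‖ * ((2 * π) ^ 2 * ‖y‖ ^ (-σ) *
      (9 / ρ ^ 2 * Real.exp (-(ρ / 2 * |t|))))) :=
    ((((JJ_exp_integrable (by positivity)).const_mul _).const_mul _).const_mul _)
  have hcont : Continuous (fun t : ℝ => K1a_Phi T τ σ e ξ t) := K1a_cont1 hT τ hσ e ξ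
  have hint : Integrable (fun t : ℝ => K1a_Phi T τ σ e ξ t) :=
    hdom.mono' hcont.aestronglyMeasurable (Eventually.of_forall hb)
  refine ⟨hint, ?_⟩
  have s1 : ∫ t : ℝ, ‖K1a_Phi T τ σ e ξ t‖ ≤ ∫ t : ℝ, ‖ker T τ ξ‖ * ((2 * π) ^ 2 * ‖y‖ ^ (-σ) *
      (9 / ρ ^ 2 * Real.exp (-(ρ / 2 * |t|)))) := integral_mono hint.norm hdom hb
  have s2 : ∫ t : ℝ, ‖ker T τ ξ‖ * ((2 * π) ^ 2 * ‖y‖ ^ (-σ) *
      (9 / ρ ^ 2 * Real.exp (-(ρ / 2 * |t|)))) =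
      ‖ker T τ ξ‖ * ((2 * π) ^ 2 * ‖y‖ ^ (-σ) * (9 / ρ ^ 2 * (2 / (ρ / 2)))) := by
    rw [integral_const_mul, integral_const_mul, integral_const_mul, JJ_exp_int (by positivity)]
  have h1 : ‖y‖ ^ (3 - σ) = ‖y‖ ^ (-σ) * ‖y‖ ^ 3 := by
    have e1 : (3 - σ : ℝ) = -σ + ((3 : ℕ) : ℝ) := by push_cast; ring
    rw [e1, Real.rpow_add hn, Real.rpow_natCast]
  have h2 : (1 / ρ) ^ 3 = ‖y‖ ^ 3 / y.re ^ 3 := by rw [hρ, one_div_div, div_pow]
  refine s1.trans (le_of_eq ?_)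
  rw [s2, K1a_alg ha2, h1, h2]
  ring

/-- one-variable bound for the tails -/
private lemma K1a_tail {T : ℝ} (hT : 1 < T) (τ : ℝ) {σ : ℝ} (hσ : σ = 1 / 2 ∨ σ = -1 / 2) {e : ℤ}
    (he : |e| ≤ 3) (j : ℕ) {V : ℝ} (hV : 0 < V) (ξ : ℝ) :
    ∫ t in {t : ℝ | V < |t|}, ‖K1a_Phi T τ σ e ξ t‖ ≤ 72 * (2 * π) ^ 2 * j.factorial * (4 / V) ^ j *
      (‖ker T τ ξ‖ * (‖zz T ξ‖ ^ (3 + j - σ) / (zz T ξ).re ^ (3 + j))) := by
  have hy := zz_re_pos hT ξ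
  have hb := K1a_point hT τ hσ he ξ
  have hint := (K1a_line hT τ hσ he ξ).1
  set y := zz T ξ with hy'
  obtain ⟨ha1, ha2, ha3⟩ := JJ_arg hy
  have hy0 : y ≠ 0 := by
    rintro h
    rw [h] at hy
    simp at hy
  have hn : 0 < ‖y‖ := norm_pos_iff.2 hy0
  set ρ := y.re / ‖y‖ with hρ
  set M : ℝ := (j.factorial : ℝ) * (4 / V) ^ j * (1 / ρ) ^ j with hM
  have hM0 : 0 ≤ M := by positivity
  have hexp : ∀ t : ℝ, V < |t| → Real.exp (-(ρ / 2 * |t|)) ≤ M * Real.exp (-(ρ / 4 * |t|)) := by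
    intro t ht
    have h1 : Real.exp (-(ρ / 2 * |t|)) = Real.exp (-(ρ / 4 * |t|)) * Real.exp (-(ρ / 4 * |t|)) := by
      rw [← Real.exp_add]
      congr 1
      ring
    rw [h1]
    apply mul_le_mul_of_nonneg_right _ (Real.exp_pos _).le
    have hx : 0 ≤ ρ / 4 * V := by positivity
    have h2 := Real.pow_div_factorial_le_exp _ hx j
    have h3 : Real.exp (ρ / 4 * V) ≤ Real.exp (ρ / 4 * |t|) := by
      apply Real.exp_le_exp.2
      exact mul_le_mul_of_nonneg_left ht.le (by positivity)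
    rw [Real.exp_neg, hM]
    have h4 : (ρ / 4 * V) ^ j / (j.factorial : ℝ) ≤ Real.exp (ρ / 4 * |t|) := h2.trans h3
    have h5 : (0 : ℝ) < (ρ / 4 * V) ^ j / (j.factorial : ℝ) := by positivity
    calc (Real.exp (ρ / 4 * |t|))⁻¹ ≤ ((ρ / 4 * V) ^ j / (j.factorial : ℝ))⁻¹ :=
          inv_anti₀ h5 h4
      _ = (j.factorial : ℝ) * (4 / V) ^ j * (1 / ρ) ^ j := by
          rw [inv_div, mul_assoc, ← mul_pow, div_eq_mul_inv, ← inv_pow]
          congr 2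
          clear_value ρ
          field_simp
  have hdom : Integrable (fun t : ℝ => ‖ker T τ ξ‖ * ((2 * π) ^ 2 * ‖y‖ ^ (-σ) *
      (9 / ρ ^ 2 * (M * Real.exp (-(ρ / 4 * |t|)))))) :=
    (((((JJ_exp_integrable (by positivity)).const_mul _).const_mul _).const_mul _).const_mul _)
  have hms : MeasurableSet {t : ℝ | V < |t|} :=
    (isOpen_lt continuous_const continuous_abs).measurableSet
  calc ∫ t in {t : ℝ | V < |t|}, ‖K1a_Phi T τ σ e ξ t‖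
      ≤ ∫ t in {t : ℝ | V < |t|}, ‖ker T τ ξ‖ * ((2 * π) ^ 2 * ‖y‖ ^ (-σ) *
      (9 / ρ ^ 2 * (M * Real.exp (-(ρ / 4 * |t|))))) := by
        apply setIntegral_mono_on hint.norm.integrableOn hdom.integrableOn hms
        intro t ht
        refine (hb t).trans ?_
        apply mul_le_mul_of_nonneg_left _ (norm_nonneg _)
        apply mul_le_mul_of_nonneg_left _ (by positivity)
        apply mul_le_mul_of_nonneg_left (hexp t ht) (by positivity)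
    _ ≤ ∫ t : ℝ, ‖ker T τ ξ‖ * ((2 * π) ^ 2 * ‖y‖ ^ (-σ) *
      (9 / ρ ^ 2 * (M * Real.exp (-(ρ / 4 * |t|))))) := by
        apply setIntegral_le_integral hdom
        exact Eventually.of_forall fun t => by positivity
    _ = ‖ker T τ ξ‖ * ((2 * π) ^ 2 * ‖y‖ ^ (-σ) * (9 / ρ ^ 2 * (M * (2 / (ρ / 4))))) := by
        rw [integral_const_mul, integral_const_mul, integral_const_mul, integral_const_mul,
          JJ_exp_int (by positivity)]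
    _ = 72 * (2 * π) ^ 2 * j.factorial * (4 / V) ^ j *
        (‖ker T τ ξ‖ * (‖y‖ ^ (-σ) * (1 / ρ) ^ (3 + j))) := by
        rw [K1a_alg2 ha2, hM, pow_add (1 / ρ) 3 j]
        ring
    _ = 72 * (2 * π) ^ 2 * j.factorial * (4 / V) ^ j *
        (‖ker T τ ξ‖ * (‖y‖ ^ (3 + j - σ) / y.re ^ (3 + j))) := by
        have h1 : ‖y‖ ^ (3 + j - σ) = ‖y‖ ^ (-σ) * ‖y‖ ^ (3 + j) := by
          rw [show (3 + j - σ : ℝ) = -σ + ((3 + j : ℕ) : ℝ) by push_cast; ring, Real.rpow_add hn,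
            Real.rpow_natCast]
        have h2 : (1 / ρ) ^ (3 + j) = ‖y‖ ^ (3 + j) / y.re ^ (3 + j) := by
          rw [hρ, one_div_div, div_pow]
        rw [h1, h2]
        ring

/-- the integrand is integrable on the product -/
private lemma K1a_int {T : ℝ} (hT : 1 < T) (τ : ℝ) {σ : ℝ} (hσ : σ = 1 / 2 ∨ σ = -1 / 2) {e : ℤ}
    (he : |e| ≤ 3)
    (hM : Integrable (fun ξ : ℝ => ‖ker T τ ξ‖ * (‖zz T ξ‖ ^ (3 - σ) / (zz T ξ).re ^ 3))) :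
    Integrable (fun p : ℝ × ℝ => K1a_Phi T τ σ e p.1 p.2) ((volume : Measure ℝ).prod volume) := by
  have hmeas : AEStronglyMeasurable (fun p : ℝ × ℝ => K1a_Phi T τ σ e p.1 p.2)
      ((volume : Measure ℝ).prod volume) := (K1a_cont hT τ hσ e).aestronglyMeasurable
  rw [integrable_prod_iff hmeas]
  refine ⟨Eventually.of_forall fun ξ => (K1a_line hT τ hσ he ξ).1, ?_⟩
  refine (hM.const_mul (36 * (2 * π) ^ 2)).mono' hmeas.norm.integral_prod_right'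
    (Eventually.of_forall fun ξ => ?_)
  rw [Real.norm_eq_abs, abs_of_nonneg (integral_nonneg fun t => norm_nonneg _)]
  exact (K1a_line hT τ hσ he ξ).2

private lemma K1a_L1 {T τ σ : ℝ} {e : ℤ}
    (hΦ : Integrable (fun p : ℝ × ℝ => K1a_Phi T τ σ e p.1 p.2) ((volume : Measure ℝ).prod volume))
    (S : Set ℝ) (hS : MeasurableSet S) {M : ℝ → ℝ} (hM : Integrable M)
    (hle : ∀ ξ, ∫ t in S, ‖K1a_Phi T τ σ e ξ t‖ ≤ M ξ) :
    ∫ t in S, ‖(1 / (2 * π) : ℂ) * ∫ ξ : ℝ, K1a_Phi T τ σ e ξ t‖ ≤ (1 / (2 * π)) * ∫ ξ : ℝ, M ξ := by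
  have hν : ((volume : Measure ℝ).prod (volume.restrict S)) =
      ((volume : Measure ℝ).prod volume).restrict (univ ×ˢ S) := by
    rw [← Measure.prod_restrict, Measure.restrict_univ]
  have hΦν : Integrable (fun p : ℝ × ℝ => K1a_Phi T τ σ e p.1 p.2)
      ((volume : Measure ℝ).prod (volume.restrict S)) := by
    rw [hν]
    exact hΦ.restrict
  have hn : ‖(1 / (2 * π) : ℂ)‖ = 1 / (2 * π) := by
    have : (1 / (2 * π) : ℂ) = ((1 / (2 * π) : ℝ) : ℂ) := by push_cast; rfl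
    rw [this, Complex.norm_real, Real.norm_eq_abs, abs_of_pos (by positivity)]
  have h1 : Integrable (fun t : ℝ => ∫ ξ : ℝ, ‖K1a_Phi T τ σ e ξ t‖) (volume.restrict S) :=
    hΦν.norm.integral_prod_right
  have h2 : Integrable (fun t : ℝ => (1 / (2 * π) : ℂ) * ∫ ξ : ℝ, K1a_Phi T τ σ e ξ t)
      (volume.restrict S) := (hΦν.integral_prod_right).const_mul _
  have h3 : Integrable (fun ξ : ℝ => ∫ t in S, ‖K1a_Phi T τ σ e ξ t‖) volume :=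
    hΦν.norm.integral_prod_left
  calc ∫ t in S, ‖(1 / (2 * π) : ℂ) * ∫ ξ : ℝ, K1a_Phi T τ σ e ξ t‖
      ≤ ∫ t in S, (1 / (2 * π)) * ∫ ξ : ℝ, ‖K1a_Phi T τ σ e ξ t‖ := by
        apply integral_mono h2.norm (h1.const_mul _)
        intro t
        simp only [norm_mul, hn]
        exact mul_le_mul_of_nonneg_left (norm_integral_le_integral_norm _) (by positivity)
    _ = (1 / (2 * π)) * ∫ t in S, ∫ ξ : ℝ, ‖K1a_Phi T τ σ e ξ t‖ := integral_const_mul _ _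
    _ = (1 / (2 * π)) * ∫ ξ : ℝ, ∫ t in S, ‖K1a_Phi T τ σ e ξ t‖ := by
        congr 1
        exact (integral_integral_swap (f := fun ξ t => ‖K1a_Phi T τ σ e ξ t‖) hΦν.norm).symm
    _ ≤ (1 / (2 * π)) * ∫ ξ : ℝ, M ξ :=
        mul_le_mul_of_nonneg_left (integral_mono h3 hM hle) (by positivity)

private lemma K1a_cpow {z : ℂ} (hz : z ≠ 0) {x : ℝ} (hx : 0 < x) (s : ℂ) :
    (z * (x : ℂ)) ^ s = z ^ s * (x : ℂ) ^ s := by
  have hx0 : (x : ℂ) ≠ 0 := by exact_mod_cast hx.ne'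
  rw [Complex.cpow_def_of_ne_zero (mul_ne_zero hz hx0), Complex.cpow_def_of_ne_zero hz,
    Complex.cpow_def_of_ne_zero hx0, Complex.log_mul_ofReal x hx z hz, ← Complex.exp_add,
    Complex.ofReal_log hx.le]
  congr 1
  ring

private lemma K1a_rep {T : ℝ} (hT : 1 < T) {τ σ : ℝ} (hσ : σ = 1 / 2 ∨ σ = -1 / 2) {e : ℤ}
    (hΦ : Integrable (fun p : ℝ × ℝ => K1a_Phi T τ σ e p.1 p.2) ((volume : Measure ℝ).prod volume))
    {x : ℝ} (hx : 0 < x) :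
    Integrable (fun ξ : ℝ => ker T τ ξ * JJ σ e (zz T ξ * (x : ℂ))) ∧
      ∫ ξ : ℝ, ker T τ ξ * JJ σ e (zz T ξ * (x : ℂ)) =
        ∫ t : ℝ, ((1 / (2 * π) : ℂ) * ∫ ξ : ℝ, K1a_Phi T τ σ e ξ t) * (x : ℂ) ^ (-(σ + t * I : ℂ)) := by
  have hx0 : (x : ℂ) ≠ 0 := by exact_mod_cast hx.ne'
  have hnx : ∀ t : ℝ, ‖(x : ℂ) ^ (-(σ + t * I : ℂ))‖ = x ^ (-σ) := by
    intro t
    rw [Complex.norm_cpow_eq_rpow_re_of_pos hx]
    congr 1
    simp
  have hcx : Continuous (fun p : ℝ × ℝ => (x : ℂ) ^ (-(σ + p.2 * I : ℂ))) := by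
    refine Continuous.const_cpow ?_ (Or.inl hx0)
    fun_prop
  have hΨ : Integrable (fun p : ℝ × ℝ => K1a_Phi T τ σ e p.1 p.2 * (x : ℂ) ^ (-(σ + p.2 * I : ℂ)))
      ((volume : Measure ℝ).prod volume) := by
    refine (hΦ.norm.mul_const (x ^ (-σ))).mono'
      (((K1a_cont hT τ hσ e).mul hcx).aestronglyMeasurable) (Eventually.of_forall fun p => ?_)
    rw [norm_mul, hnx]
  have hpt : ∀ ξ : ℝ, ker T τ ξ * JJ σ e (zz T ξ * (x : ℂ)) =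
      (1 / (2 * π) : ℂ) * ∫ t : ℝ, K1a_Phi T τ σ e ξ t * (x : ℂ) ^ (-(σ + t * I : ℂ)) := by
    intro ξ
    have hz : zz T ξ ≠ 0 := by
      intro h
      have := zz_re_pos hT ξ
      rw [h] at this
      simp at this
    have h1 : ∫ t : ℝ, K1a_Phi T τ σ e ξ t * (x : ℂ) ^ (-(σ + t * I : ℂ)) =
        ker T τ ξ * ∫ t : ℝ, kk e (σ + t * I) * (zz T ξ * (x : ℂ)) ^ (-(σ + t * I : ℂ)) := by
      rw [← integral_const_mul]
      congr 1
      funext t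
      unfold K1a_Phi
      rw [K1a_cpow hz hx]
      ring
    rw [h1]
    unfold JJ
    ring
  constructor
  · have h1 : Integrable (fun ξ : ℝ => ∫ t : ℝ, K1a_Phi T τ σ e ξ t *
        (x : ℂ) ^ (-(σ + t * I : ℂ))) := hΨ.integral_prod_left
    exact (h1.const_mul (1 / (2 * π) : ℂ)).congr (Eventually.of_forall fun ξ => (hpt ξ).symm)
  · have h1 : ∫ ξ : ℝ, ker T τ ξ * JJ σ e (zz T ξ * (x : ℂ)) =
        (1 / (2 * π) : ℂ) * ∫ ξ : ℝ, ∫ t : ℝ, K1a_Phi T τ σ e ξ t *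
          (x : ℂ) ^ (-(σ + t * I : ℂ)) := by
      rw [← integral_const_mul]
      congr 1
      funext ξ
      exact hpt ξ
    rw [h1, integral_integral_swap hΨ, ← integral_const_mul]
    congr 1
    funext t
    rw [integral_mul_const]
    ring

private lemma K1a_log {A : ℝ} {r : ℝ} (hr : 0 < r) (s : ℝ) :
    ∀ᶠ T : ℝ in atTop, |A| * Real.log T ^ s ≤ T ^ r := by
  have h := (isLittleO_log_rpow_rpow_atTop s hr).def (show (0 : ℝ) < 1 / (|A| + 1) by positivity)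
  filter_upwards [h, eventually_gt_atTop 1] with T hT h1
  have hl : 0 < Real.log T := Real.log_pos h1
  have hT0 : 0 < T := by linarith
  rw [Real.norm_eq_abs, Real.norm_eq_abs, abs_of_pos (Real.rpow_pos_of_pos hl s),
    abs_of_pos (Real.rpow_pos_of_pos hT0 r)] at hT
  have h2 : 0 < Real.log T ^ s := Real.rpow_pos_of_pos hl s
  have hA : 0 ≤ |A| := abs_nonneg A
  rw [div_mul_eq_mul_div, one_mul, le_div_iff₀ (by positivity)] at hT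
  nlinarith

/-- **K1a. One line.** `k t = (2π)⁻¹ kk e (σ+it) ∫ ker zz^{-(σ+it)} dξ`. `(zz x)^{-s} = zz^{-s} x^{-s}` for `x > 0`
(`Complex.mul_cpow_ofReal_nonneg`-type); Fubini. Bounds: `|kk e (σ+it)| ≤ (2π)² (1+t²) e^{-π|t|/2}` (`JJ_kk_right`,
`JJ_kk_left` in S6_JJ), `|y^{-(σ+it)}| = |y|^{-σ} e^{t arg y}`, `π/2 - |arg y| ≥ ρ := Re y/|y|` (`JJ_arg`, `JJ_norm_y`), so
`∫ (1+t²) e^{-ρ|t|} dt ≤ 6 ρ^{-3}` and `ker_moment` with `β = 3 - σ`, `k = 3`: `T^{3-β} log^{β} = T^σ log^{3-σ}`. Tails: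
for `|t| > T^ε`, `e^{-ρ|t|} ≤ e^{-ρ|t|/2} j! (2/(ρ T^ε))^j` with `j ε ≥ 50`, and `ker_moment` with `β = 3+j-σ`, `k = 3+j`. -/
theorem kd_side {ε : ℝ} (hε : 0 < ε) (σ : ℝ) (hσ : σ = 1 / 2 ∨ σ = -1 / 2) : ∃ T₀ : ℝ, ∀ T ≥ T₀,
    ∀ τ, 0 ≤ τ → τ ≤ T → ∀ e : ℤ, |e| ≤ 3 → ∃ k : ℝ → ℂ, Integrable k ∧
    (∀ x : ℝ, 0 < x → Integrable (fun ξ : ℝ => ker T τ ξ * JJ σ e (zz T ξ * (x : ℂ))) ∧
      ∫ ξ : ℝ, ker T τ ξ * JJ σ e (zz T ξ * (x : ℂ)) = ∫ t : ℝ, k t * (x : ℂ) ^ (-(σ + t * I : ℂ))) ∧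
    ∫ t : ℝ, ‖k t‖ ≤ T ^ (σ + ε) ∧ ∫ t in {t : ℝ | T ^ ε < |t|}, ‖k t‖ ≤ T ^ (-40 : ℝ) := by
  have hσb : -(1 / 2 : ℝ) ≤ σ ∧ σ ≤ 1 / 2 := by
    rcases hσ with h | h <;> rw [h] <;> norm_num
  obtain ⟨C1, T1, h1⟩ := ker_moment (3 - σ) (by linarith [hσb.2]) 3
  set j : ℕ := ⌈50 / ε⌉₊ with hj
  have hjε : 50 ≤ ε * j := by
    have := Nat.le_ceil (50 / ε)
    rw [div_le_iff₀ hε] at this
    rw [mul_comm]
    exact this
  have hj0 : (0 : ℝ) ≤ (j : ℝ) := Nat.cast_nonneg j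
  obtain ⟨C2, T2, h2⟩ := ker_moment (3 + j - σ) (by linarith [hσb.2]) (3 + j)
  set A1 : ℝ := 1 / (2 * π) * (36 * (2 * π) ^ 2) * |C1| with hA1
  set A2 : ℝ := 1 / (2 * π) * (72 * (2 * π) ^ 2 * j.factorial * 4 ^ j) * |C2| with hA2
  have hA1' : 0 ≤ A1 := by positivity
  have hA2' : 0 ≤ A2 := by positivity
  have e1 := K1a_log (A := A1) hε (3 - σ)
  have e2 := K1a_log (A := A2) (r := ε * j - σ - 40) (by linarith [hσb.2]) (3 + j - σ)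
  obtain ⟨T₀, hT₀⟩ := eventually_atTop.1 (e1.and (e2.and ((eventually_ge_atTop T1).and
    ((eventually_ge_atTop T2).and (eventually_gt_atTop 1)))))
  refine ⟨T₀, fun T hT τ h0 hτ e he => ?_⟩
  obtain ⟨f1, f2, g1, g2, hT1⟩ := hT₀ T hT
  rw [abs_of_nonneg hA1'] at f1
  rw [abs_of_nonneg hA2'] at f2
  have hTpos : 0 < T := by linarith
  have hlog : 0 < Real.log T := Real.log_pos hT1
  obtain ⟨i1, b1⟩ := h1 T g1 τ h0 hτ
  obtain ⟨i2, b2⟩ := h2 T g2 τ h0 hτ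
  have hΦ := K1a_int hT1 τ hσ he i1
  refine ⟨fun t => (1 / (2 * π) : ℂ) * ∫ ξ : ℝ, K1a_Phi T τ σ e ξ t,
    (hΦ.integral_prod_right).const_mul _, fun x hx => K1a_rep hT1 hσ hΦ hx, ?_, ?_⟩
  · have h3 := K1a_L1 hΦ univ MeasurableSet.univ (i1.const_mul (36 * (2 * π) ^ 2)) (by
      intro ξ
      rw [Measure.restrict_univ]
      exact (K1a_line hT1 τ hσ he ξ).2)
    rw [Measure.restrict_univ, integral_const_mul] at h3
    refine h3.trans ?_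
    have e3 : T ^ (((3 : ℕ) : ℝ) - (3 - σ)) = T ^ σ := by
      congr 1
      push_cast
      ring
    rw [e3] at b1
    calc 1 / (2 * π) * (36 * (2 * π) ^ 2 * ∫ ξ : ℝ, ‖ker T τ ξ‖ * (‖zz T ξ‖ ^ (3 - σ) /
          (zz T ξ).re ^ 3))
        ≤ 1 / (2 * π) * (36 * (2 * π) ^ 2 * (|C1| * (T ^ σ * Real.log T ^ (3 - σ)))) := by
          have h5 : C1 * (T ^ σ * Real.log T ^ (3 - σ)) ≤
              |C1| * (T ^ σ * Real.log T ^ (3 - σ)) :=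
            mul_le_mul_of_nonneg_right (le_abs_self _) (by positivity)
          have h6 := b1.trans h5
          gcongr
      _ = T ^ σ * (A1 * Real.log T ^ (3 - σ)) := by rw [hA1]; ring
      _ ≤ T ^ σ * T ^ ε := mul_le_mul_of_nonneg_left f1 (by positivity)
      _ = T ^ (σ + ε) := (Real.rpow_add hTpos _ _).symm
  · have hV : 0 < T ^ ε := Real.rpow_pos_of_pos hTpos _
    have h3 := K1a_L1 hΦ {t : ℝ | T ^ ε < |t|} (isOpen_lt continuous_const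
      continuous_abs).measurableSet
      (i2.const_mul (72 * (2 * π) ^ 2 * j.factorial * (4 / T ^ ε) ^ j)) (fun ξ =>
        K1a_tail hT1 τ hσ he j hV ξ)
    rw [integral_const_mul] at h3
    refine h3.trans ?_
    have e3 : T ^ (((3 + j : ℕ) : ℝ) - (3 + j - σ)) = T ^ σ := by
      congr 1
      push_cast
      ring
    rw [e3] at b2
    have e4 : (4 / T ^ ε) ^ j = 4 ^ j * T ^ (-(ε * j)) := by
      rw [div_pow, Real.rpow_neg hTpos.le, Real.rpow_mul hTpos.le, Real.rpow_natCast,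
        div_eq_mul_inv]
    calc 1 / (2 * π) * (72 * (2 * π) ^ 2 * j.factorial * (4 / T ^ ε) ^ j *
          ∫ ξ : ℝ, ‖ker T τ ξ‖ * (‖zz T ξ‖ ^ (3 + j - σ) / (zz T ξ).re ^ (3 + j)))
        ≤ 1 / (2 * π) * (72 * (2 * π) ^ 2 * j.factorial * (4 / T ^ ε) ^ j *
          (|C2| * (T ^ σ * Real.log T ^ (3 + j - σ)))) := by
          have h5 : C2 * (T ^ σ * Real.log T ^ (3 + j - σ)) ≤
              |C2| * (T ^ σ * Real.log T ^ (3 + j - σ)) :=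
            mul_le_mul_of_nonneg_right (le_abs_self _) (by positivity)
          have h6 := b2.trans h5
          gcongr
      _ = T ^ (-(ε * j)) * T ^ σ * (A2 * Real.log T ^ (3 + j - σ)) := by
          rw [hA2, e4]; ring
      _ ≤ T ^ (-(ε * j)) * T ^ σ * T ^ (ε * j - σ - 40) :=
          mul_le_mul_of_nonneg_left f2 (by positivity)
      _ = T ^ (-40 : ℝ) := by
          rw [← Real.rpow_add hTpos, ← Real.rpow_add hTpos]
          congr 1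
          ring

end SG

end

section

namespace SG
open Complex MeasureTheory Filter Topology Set S6
open scoped Real ComplexConjugate

/-- **K1.** K1a for `σ = 1/2` (`kp`) and `σ = -1/2` (`km`), `κ₀ = -c VV T τ 0` with `c` of `JJ_shift`
(`JJ (-1/2) e y = JJ (1/2) e y - c`, `‖c‖ ≤ 1`), `∫ ker = VV T τ 0` (`ker_int` in S6AsmA), `VV_zero`. -/
theorem KD_FF {δ ε : ℝ} (hδ : 0 < δ) (hε : 0 < ε) (hε1 : ε ≤ 1 / 100) : ∃ T₀ : ℝ, ∀ T ≥ T₀, ∀ τ,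
    δ * T ≤ τ → τ ≤ T → ∀ e : ℤ, |e| ≤ 3 →
    ∃ (kp km : ℝ → ℂ) (κ0 : ℂ), KD T ε (FF (-1 / 2) e T τ) kp km κ0 := by
  obtain ⟨T1, h1⟩ := kd_side hε (1 / 2) (Or.inl rfl)
  obtain ⟨T2, h2⟩ := kd_side hε (-1 / 2) (Or.inr rfl)
  obtain ⟨T3, h3⟩ := VV_zero hδ 40
  refine ⟨max (max T1 T2) (max T3 2), ?_⟩
  intro T hT τ hτ1 hτ2 e he
  have hT1 : T1 ≤ T := ((le_max_left _ _).trans (le_max_left _ _)).trans hT
  have hT2 : T2 ≤ T := ((le_max_right _ _).trans (le_max_left _ _)).trans hT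
  have hT3 : T3 ≤ T := ((le_max_left _ _).trans (le_max_right _ _)).trans hT
  have hT4 : 2 ≤ T := ((le_max_right _ _).trans (le_max_right _ _)).trans hT
  have hT0 : 0 < T := by linarith
  have hτ0 : 0 ≤ τ := (mul_nonneg hδ.le hT0.le).trans hτ1
  obtain ⟨kp, ikp, rkp, bkp, tkp⟩ := h1 T hT1 τ hτ0 hτ2 e he
  obtain ⟨km, ikm, rkm, bkm, tkm⟩ := h2 T hT2 τ hτ0 hτ2 e he
  obtain ⟨c, hc1, hc⟩ := JJ_shift e he
  obtain ⟨ik, hk⟩ := ker_int (by linarith : 1 < T) τ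
  have c1 : (((1 / 2 : ℝ)) : ℂ) = 1 / 2 := by push_cast; rfl
  have c2 : (((-1 / 2 : ℝ)) : ℂ) = -1 / 2 := by push_cast; rfl
  refine ⟨kp, km, -c * VV T τ 0, ?_⟩
  refine ⟨ikp, ikm, ?_, ?_, bkp, ?_, tkp, tkm, ?_⟩
  · intro x hx
    obtain ⟨i1, e1⟩ := rkp x hx
    rw [c1] at e1
    unfold FF
    have hy : ∀ ξ : ℝ, ker T τ ξ * JJ (-1 / 2) e (zz T ξ * (x : ℂ)) =
        ker T τ ξ * JJ (1 / 2) e (zz T ξ * (x : ℂ)) - c * ker T τ ξ := by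
      intro ξ
      have hre : 0 < (zz T ξ * (x : ℂ)).re := by
        rw [Complex.re_mul_ofReal]
        exact mul_pos (zz_re_pos (by linarith) ξ) hx
      rw [hc _ hre]
      ring
    simp only [hy]
    rw [integral_sub i1 (ik.const_mul c), e1, integral_const_mul, hk]
    ring
  · intro x hx
    obtain ⟨i1, e1⟩ := rkm x hx
    rw [c2] at e1
    exact e1
  · exact bkm
  · rw [norm_mul, norm_neg]
    have := h3 T hT3 τ hτ1 hτ2
    calc ‖c‖ * ‖VV T τ 0‖ ≤ 1 * T ^ (-(40 : ℝ)) :=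
          mul_le_mul hc1 this (norm_nonneg _) zero_le_one
      _ = T ^ (-40 : ℝ) := by rw [one_mul]

theorem FF_bound {T ε : ℝ} {F : ℝ → ℂ} {kp km : ℝ → ℂ} {κ0 : ℂ} (h : KD T ε F kp km κ0) :
    ∀ x : ℝ, 0 < x → ‖F x‖ ≤ T ^ (-1 / 2 + ε) * √x := by
  intro x hx
  rw [h.rm x hx]
  have hn : ∀ t : ℝ, ‖km t * (x : ℂ) ^ (-(-1 / 2 + t * I : ℂ))‖ = ‖km t‖ * √x := by
    intro t
    rw [norm_mul, Complex.norm_cpow_eq_rpow_re_of_pos hx, Real.sqrt_eq_rpow]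
    congr 2
    simp
    norm_num
  calc ‖∫ t : ℝ, km t * (x : ℂ) ^ (-(-1 / 2 + t * I : ℂ))‖
      ≤ ∫ t : ℝ, ‖km t * (x : ℂ) ^ (-(-1 / 2 + t * I : ℂ))‖ := norm_integral_le_integral_norm _
    _ = ∫ t : ℝ, ‖km t‖ * √x := by simp only [hn]
    _ = (∫ t : ℝ, ‖km t‖) * √x := integral_mul_const _ _
    _ ≤ T ^ (-1 / 2 + ε) * √x := mul_le_mul_of_nonneg_right h.bm (Real.sqrt_nonneg _)

end SG

end

section

namespace SG
open Complex MeasureTheory Filter Topology Set S6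
open scoped Real ComplexConjugate


/-- the pointwise bound for the kernel -/
theorem K2_JJ {C1 : ℝ} (hC1 : 0 ≤ C1) (e : ℤ)
    (hJL : ∀ y : ℂ, 0 < y.re → (∫ t : ℝ, ‖kk e (((-1 / 2 : ℝ) : ℂ) + t * I) * y ^ (-(((-1 / 2 : ℝ) : ℂ) + t * I))‖) ≤
      C1 * (‖y‖ ^ (1 / 2 : ℝ) * (‖y‖ / y.re) ^ 4)) {z : ℂ} (hz : 0 < z.re) {c : ℝ} (hc : 0 < c) :
    ‖JJ (-1 / 2) e (z * (c : ℂ))‖ ≤ C1 * c ^ (1 / 2 : ℝ) * (‖z‖ ^ (9 / 2 : ℝ) / z.re ^ 4) := by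
  have hy : 0 < (z * (c : ℂ)).re := by
    rw [Complex.re_mul_ofReal]; exact mul_pos hz hc
  have hyn : ‖z * (c : ℂ)‖ = ‖z‖ * c := by
    rw [norm_mul, Complex.norm_real, Real.norm_of_nonneg hc.le]
  have hznorm : 0 < ‖z‖ := by
    rw [norm_pos_iff]
    intro h
    rw [h] at hz
    simp at hz
  have hratio : ‖z * (c : ℂ)‖ / (z * (c : ℂ)).re = ‖z‖ / z.re := by
    rw [hyn, Complex.re_mul_ofReal]
    have := hz.ne'
    field_simp
  unfold JJ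
  rw [norm_mul]
  have h1 : ‖(1 / (2 * π) : ℂ)‖ ≤ 1 := by
    rw [norm_div, norm_one, norm_mul, Complex.norm_two, Complex.norm_real, Real.norm_of_nonneg Real.pi_pos.le,
      div_le_one (by positivity)]
    linarith [Real.pi_gt_three]
  have h2 := (norm_integral_le_integral_norm (μ := volume) (fun t : ℝ => kk e (((-1 / 2 : ℝ) : ℂ) + t * I) * (z * (c : ℂ)) ^ (-(((-1 / 2 : ℝ) : ℂ) + t * I)))).trans
    (hJL _ hy)
  have h3 : C1 * (‖z * (c : ℂ)‖ ^ (1 / 2 : ℝ) * (‖z * (c : ℂ)‖ / (z * (c : ℂ)).re) ^ 4)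
      = C1 * c ^ (1 / 2 : ℝ) * (‖z‖ ^ (9 / 2 : ℝ) / z.re ^ 4) := by
    rw [hratio, hyn, Real.mul_rpow (norm_nonneg _) hc.le, div_pow]
    have : ‖z‖ ^ (9 / 2 : ℝ) = ‖z‖ ^ (1 / 2 : ℝ) * ‖z‖ ^ 4 := by
      rw [← Real.rpow_natCast, ← Real.rpow_add hznorm]
      norm_num
    rw [this]; ring
  rw [h3] at h2
  calc _ ≤ 1 * ‖∫ t : ℝ, kk e (((-1 / 2 : ℝ) : ℂ) + t * I) * (z * (c : ℂ)) ^ (-(((-1 / 2 : ℝ) : ℂ) + t * I))‖ :=
        mul_le_mul_of_nonneg_right h1 (norm_nonneg _)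
    _ ≤ _ := by rw [one_mul]; exact h2

theorem K2_SIz (q h : ℕ) (hq : 0 < q) (i : Ix) : ‖SIz q h i‖ ≤ (q : ℝ) ^ 3 := by
  unfold SIz
  rw [dif_neg hq.ne']
  have : NeZero q := ⟨hq.ne'⟩
  exact norm_SI_le q _ i

/-- **K2.** Fubini: `∫ |ker| ∑_i pr⁻¹ q³ |JJ (-1/2) e (zz h q²/pr)| < ∞` by `JJ_left`
(`|JJ| ≤ C ‖y‖^{1/2} (‖y‖/Re y)^4`, `y = zz·h q²/pr`), `norm_SI_le`, `summable_pr` and `ker_moment (9/2) 4`
(`MeasureTheory.integral_tsum`/`hasSum_integral_of_summable_integral_norm`). -/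
theorem ErrX_eq : ∃ T₀ : ℝ, ∀ T ≥ T₀, ∀ τ, 0 ≤ τ → τ ≤ T → ∀ q h : ℕ, 0 < q → 0 < h →
    Integrable (fun ξ : ℝ => ker T τ ξ * ∑' i : Ix, ((pr i : ℂ))⁻¹ * SIz q h i *
      JJ (-1 / 2) (es i) (zz T ξ * ((h * q ^ 2 / pr i : ℝ) : ℂ))) ∧
    ErrX T τ q h = ∑' i : Ix, ((pr i : ℂ))⁻¹ * SIz q h i * FF (-1 / 2) (es i) T τ (h * q ^ 2 / pr i) := by
  obtain ⟨C1, hC1, hJL⟩ := JJ_left
  obtain ⟨CA, TA, hKA⟩ := ker_moment (9 / 2) (by norm_num) 4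
  refine ⟨max TA 2, ?_⟩
  intro T hT τ hτ0 hτ1 q h hq hh
  have hTA : TA ≤ T := (le_max_left _ _).trans hT
  have hT1 : 1 < T := by have := (le_max_right TA 2).trans hT; linarith
  have hz : ∀ ξ, 0 < (zz T ξ).re := zz_re_pos hT1
  obtain ⟨hIA, -⟩ := hKA T hTA τ hτ0 hτ1
  set W : ℝ → ℝ := fun ξ => ‖ker T τ ξ‖ * (‖zz T ξ‖ ^ (9 / 2 : ℝ) / (zz T ξ).re ^ 4) with hW
  have hW0 : ∀ ξ, 0 ≤ W ξ := fun ξ => by
    have := hz ξ
    rw [hW]
    positivity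
  have hY0 : (0 : ℝ) < h * q ^ 2 := by positivity
  have hc : ∀ i : Ix, (0 : ℝ) < h * q ^ 2 / pr i := fun i => div_pos hY0 (pr_pos i)
  set F : Ix → ℝ → ℂ := fun i ξ => ker T τ ξ * (((pr i : ℂ))⁻¹ * SIz q h i *
      JJ (-1 / 2) (es i) (zz T ξ * ((h * q ^ 2 / pr i : ℝ) : ℂ))) with hF
  have hJm : ∀ i : Ix, StronglyMeasurable (fun ξ : ℝ =>
      JJ (-1 / 2) (es i) (zz T ξ * ((h * q ^ 2 / pr i : ℝ) : ℂ))) := fun i =>
    eb_JJ_meas _ (Or.inl rfl) (es i) (hc i) hz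
  have hFm : ∀ i, StronglyMeasurable (F i) := fun i =>
    (eb_ker_cont T τ).stronglyMeasurable.mul ((hJm i).const_mul _)
  set K : ℝ := C1 * ((q : ℝ) ^ 3 * ((h : ℝ) * q ^ 2) ^ (1 / 2 : ℝ)) with hK
  have hK0 : 0 ≤ K := by positivity
  have hb : ∀ i ξ, ‖F i ξ‖ ≤ K * (pr i) ^ (-(3 / 2) : ℝ) * W ξ := by
    intro i ξ
    have hp := pr_pos i
    have h1 := K2_JJ hC1 (es i) (fun y hy => (hJL (es i) (es_le i) y hy).2) (hz ξ) (hc i)
    have h2 := K2_SIz q h hq i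
    simp only [hF]
    rw [norm_mul, norm_mul, norm_mul, norm_inv, Complex.norm_real, Real.norm_of_nonneg hp.le]
    have e1 : ((h : ℝ) * q ^ 2 / pr i) ^ (1 / 2 : ℝ) = ((h : ℝ) * q ^ 2) ^ (1 / 2 : ℝ) * (pr i) ^ (-(1 / 2) : ℝ) := by
      rw [Real.div_rpow hY0.le hp.le, Real.rpow_neg hp.le, div_eq_mul_inv]
    have e2 : (pr i)⁻¹ * (pr i) ^ (-(1 / 2) : ℝ) = (pr i) ^ (-(3 / 2) : ℝ) := by
      rw [← Real.rpow_neg_one (pr i), ← Real.rpow_add hp]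
      norm_num
    calc ‖ker T τ ξ‖ * ((pr i)⁻¹ * ‖SIz q h i‖ * ‖JJ (-1 / 2) (es i) (zz T ξ * ((h * q ^ 2 / pr i : ℝ) : ℂ))‖)
        ≤ ‖ker T τ ξ‖ * ((pr i)⁻¹ * (q : ℝ) ^ 3 * (C1 * ((h : ℝ) * q ^ 2 / pr i) ^ (1 / 2 : ℝ) *
            (‖zz T ξ‖ ^ (9 / 2 : ℝ) / (zz T ξ).re ^ 4))) := by
          refine mul_le_mul_of_nonneg_left ?_ (norm_nonneg _)
          exact mul_le_mul (mul_le_mul_of_nonneg_left h2 (by positivity)) h1 (norm_nonneg _) (by positivity)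
      _ = K * ((pr i)⁻¹ * (pr i) ^ (-(1 / 2) : ℝ)) * W ξ := by
          rw [e1, hK, hW]
          ring
      _ = _ := by rw [e2]
  have hFint : ∀ i, Integrable (F i) := fun i =>
    (hIA.const_mul (K * (pr i) ^ (-(3 / 2) : ℝ))).mono' (hFm i).aestronglyMeasurable
      (Eventually.of_forall (hb i))
  have hFsum : Summable fun i => ∫ ξ, ‖F i ξ‖ := by
    refine Summable.of_nonneg_of_le (fun i => integral_nonneg fun _ => norm_nonneg _) (fun i => ?_)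
      ((summable_pr.mul_left K).mul_right (∫ ξ, W ξ))
    refine (integral_mono (hFint i).norm (hIA.const_mul (K * (pr i) ^ (-(3 / 2) : ℝ))) (hb i)).trans ?_
    rw [integral_const_mul]
  have hsum := integral_tsum_of_summable_integral_norm hFint hFsum
  have hpull : ∀ ξ, ∑' i, F i ξ = ker T τ ξ * ∑' i : Ix, ((pr i : ℂ))⁻¹ * SIz q h i *
      JJ (-1 / 2) (es i) (zz T ξ * ((h * q ^ 2 / pr i : ℝ) : ℂ)) := fun ξ => tsum_mul_left
  have hsm : ∀ ξ, Summable fun i => ‖F i ξ‖ := fun ξ =>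
    Summable.of_nonneg_of_le (fun i => norm_nonneg _) (fun i => hb i ξ) ((summable_pr.mul_left K).mul_right (W ξ))
  constructor
  · have hm : Measurable (fun ξ : ℝ => ∑' i, F i ξ) := Measurable.tsum fun i => (hFm i).measurable
    have hi : Integrable (fun ξ : ℝ => ∑' i, F i ξ) := by
      refine (hIA.const_mul (∑' i, K * (pr i) ^ (-(3 / 2) : ℝ))).mono' hm.aestronglyMeasurable
        (Eventually.of_forall fun ξ => ?_)
      refine (norm_tsum_le_tsum_norm (hsm ξ)).trans ?_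
      refine ((hsm ξ).tsum_le_tsum (fun i => hb i ξ) ((summable_pr.mul_left K).mul_right (W ξ))).trans ?_
      rw [tsum_mul_right]
    exact hi.congr (Eventually.of_forall hpull)
  · unfold ErrX
    rw [← integral_congr_ae (Eventually.of_forall hpull), ← hsum]
    refine tsum_congr fun i => ?_
    unfold FF
    rw [← integral_const_mul]
    refine integral_congr_ae (Eventually.of_forall fun ξ => ?_)
    simp only [hF]
    ring

end SG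

end

section

namespace SG
open Complex MeasureTheory Filter Topology Set S6
open scoped Real ComplexConjugate

/-- **Z1.** copy of `S6.I2_formula` (S6AsmC.lean) with `ErrOK G` in place of the Kloosterman
hypothesis: the remainder is `2π ∑ cx ((P q h).2.2.2 VV T τ 0 + ErrX T τ q h)`, the first part is bounded as there (`b1`),
`∑ |cx| ≤ M T^3` (`sum_cf_bound`) and `VV_zero` with a larger exponent. -/
theorem I2_formulaG {G : ℝ × ℝ × ℝ → ℝ} (hG : TF 1 G) (hE : ErrOK G)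
    {P : ℕ → ℕ → ℂ × ℂ × ℂ × ℂ} (hP : DualData P) {δ : ℝ} (hδ : 0 < δ) :
    ∃ η T₀ : ℝ, 0 < η ∧ ∀ T ≥ T₀, ∀ τ, δ * T ≤ τ → τ ≤ T →
    ‖I2 G T τ - 2 * π * ((Ac P G T - Bc P G T * Real.log T + Cc P G T * Real.log T ^ 2) * Ej 0 T τ +
      (Bc P G T - 2 * Cc P G T * Real.log T) * Ej 1 T τ + Cc P G T * Ej 2 T τ)‖ ≤ T ^ (1 - η) := by
  obtain ⟨η₀, T₁, hη₀, herr⟩ := hE δ hδ
  obtain ⟨M₀, hM₀, hM⟩ := sum_cf_bound hG
  set η : ℝ := min η₀ 1 with hηd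
  have hη : 0 < η := lt_min hη₀ one_pos
  have hη1 : η ≤ 1 := min_le_right _ _
  obtain ⟨T₂, hrep⟩ := I2_rep hG.cont hG.hcs hδ
  obtain ⟨T₃, hVV⟩ := VV_zero hδ 9
  obtain ⟨C0, T₄, hE0⟩ := Ej_bound 0
  obtain ⟨C1, T₅, hE1⟩ := Ej_bound 1
  obtain ⟨C2, T₆, hE2⟩ := Ej_bound 2
  -- final growth comparison
  have hfin : ∀ᶠ T : ℝ in atTop, 1 + 2 * π * (M₀ + T ^ (1 - η)) ≤ T ^ (1 - η / 2) := by
    have h1 : Tendsto (fun T : ℝ => T ^ (-(η / 2))) atTop (𝓝 0) := tendsto_rpow_neg_atTop (by positivity)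
    have h2 := h1.const_mul (1 + 2 * π * (M₀ + 1))
    rw [mul_zero] at h2
    filter_upwards [h2.eventually (gt_mem_nhds one_pos), eventually_ge_atTop (1 : ℝ)] with T hT hT1
    have hTp : (0 : ℝ) < T := by linarith
    have e2 : T ^ (1 - η) = T ^ (-(η / 2)) * T ^ (1 - η / 2) := by
      rw [← Real.rpow_add hTp]; congr 1; ring
    have e3 : (1 : ℝ) ≤ T ^ (1 - η) := Real.one_le_rpow hT1 (by linarith)
    have e4 : 0 < T ^ (1 - η / 2) := Real.rpow_pos_of_pos hTp _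
    have hπ : 0 < π := Real.pi_pos
    calc 1 + 2 * π * (M₀ + T ^ (1 - η)) ≤ T ^ (1 - η) + 2 * π * (M₀ * T ^ (1 - η) + T ^ (1 - η)) := by
          have h5 : M₀ ≤ M₀ * T ^ (1 - η) := le_mul_of_one_le_right hM₀.le e3
          have h6 : 2 * π * (M₀ + T ^ (1 - η)) ≤ 2 * π * (M₀ * T ^ (1 - η) + T ^ (1 - η)) :=
            mul_le_mul_of_nonneg_left (by linarith) (by positivity)
          linarith
      _ = ((1 + 2 * π * (M₀ + 1)) * T ^ (-(η / 2))) * T ^ (1 - η / 2) := by rw [e2]; ring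
      _ ≤ 1 * T ^ (1 - η / 2) := mul_le_mul_of_nonneg_right hT.le e4.le
      _ = _ := one_mul _
  have hall : ∀ᶠ T : ℝ in atTop, Real.exp 1 ≤ T ∧ T₁ ≤ T ∧ T₂ ≤ T ∧ T₃ ≤ T ∧ T₄ ≤ T ∧ T₅ ≤ T ∧
      T₆ ≤ T ∧ 1 + 2 * π * (M₀ + T ^ (1 - η)) ≤ T ^ (1 - η / 2) := by
    filter_upwards [eventually_ge_atTop (Real.exp 1), eventually_ge_atTop T₁, eventually_ge_atTop T₂,
      eventually_ge_atTop T₃, eventually_ge_atTop T₄, eventually_ge_atTop T₅, eventually_ge_atTop T₆,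
      hfin] with T a b c d e f g i
    exact ⟨a, b, c, d, e, f, g, i⟩
  obtain ⟨T₀, hT₀⟩ := eventually_atTop.1 hall
  refine ⟨η / 2, T₀, by positivity, ?_⟩
  intro T hT τ h1 h2
  obtain ⟨a, b, c, d, e, f, g, hf⟩ := hT₀ T hT
  have hT1 : 1 < T := one_lt_of_exp a
  have hTp : 0 < T := by linarith
  have hτ0 : 0 ≤ τ := le_trans (by positivity) h1
  have hEj : ∀ j : ℕ, j ≤ 2 → Integrable (fun ξ : ℝ =>
      ker T τ ξ * (zz T ξ)⁻¹ * (Complex.log (zz T ξ) + Real.log T) ^ j) := by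
    intro j hj
    interval_cases j
    · exact (hE0 T e τ hτ0 h2).1
    · exact (hE1 T f τ hτ0 h2).1
    · exact (hE2 T g τ hτ0 h2).1
  set L : ℂ := (Real.log T : ℂ) with hL
  -- one term
  set R : ℕ × ℕ × ℕ → ℂ := fun x =>
    (∫ ξ : ℝ, ker T τ ξ *
        S3 (2 * π * I * ((x.2.2 : ℝ) / ((x.1 : ℝ) * x.2.1) : ℝ) * cexp (-(om T ξ)))) -
    (((P (qq x) (hn x)).1 - (P (qq x) (hn x)).2.1 * L + (P (qq x) (hn x)).2.2.1 * L ^ 2) * Ej 0 T τ +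
      ((P (qq x) (hn x)).2.1 - 2 * (P (qq x) (hn x)).2.2.1 * L) * Ej 1 T τ +
      (P (qq x) (hn x)).2.2.1 * Ej 2 T τ) with hR
  have hRx : ∀ x ∈ tri T, R x = (P (qq x) (hn x)).2.2.2 * VV T τ 0 + ErrX T τ (qq x) (hn x) := by
    intro x hx
    obtain ⟨hq, hh, hcop, hfr, hqT, hhT⟩ := frac_facts hTp.le hx
    have : NeZero (qq x) := ⟨hq.ne'⟩
    obtain ⟨hk, hZ⟩ := hP (qq x) (hn x) hh
    have hdec := decomp (τ := τ) a hEj hh hZ
    have hEX : ErrX T τ (qq x) (hn x) =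
      ∫ ξ : ℝ, ker T τ ξ * ∑' i : Ix, ((pr i : ℂ))⁻¹ * SI (qq x) (hn x) i *
        JJ (-1 / 2) (es i) (zz T ξ * ((((hn x : ℕ) : ℝ) * ((qq x : ℕ) : ℝ) ^ 2 / pr i : ℝ) : ℂ)) := by
      unfold ErrX
      have hSI : ∀ i : Ix, SIz (qq x) (hn x) i = SI (qq x) (hn x) i := by
        intro i
        unfold SIz
        rw [dif_neg hq.ne']
      simp only [hSI]
    rw [hEX, hR]
    beta_reduce
    rw [hfr, hdec]
    ring
  have hb1 : ∀ x ∈ tri T, ‖(P (qq x) (hn x)).2.2.2 * VV T τ 0‖ ≤ T ^ (-3 : ℝ) := by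
    intro x hx
    obtain ⟨hq, hh, hcop, hfr, hqT, hhT⟩ := frac_facts hTp.le hx
    have : NeZero (qq x) := ⟨hq.ne'⟩
    obtain ⟨hk, hZ⟩ := hP (qq x) (hn x) hh
    rw [norm_mul]
    have hv := hVV T d τ h1 h2
    calc ‖(P (qq x) (hn x)).2.2.2‖ * ‖VV T τ 0‖ ≤ ((qq x : ℕ) : ℝ) ^ 3 * T ^ (-9 : ℝ) :=
          mul_le_mul hk hv (norm_nonneg _) (by positivity)
      _ ≤ (T ^ 2) ^ 3 * T ^ (-9 : ℝ) := by
          refine mul_le_mul_of_nonneg_right ?_ (Real.rpow_nonneg hTp.le _)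
          exact pow_le_pow_left₀ (Nat.cast_nonneg _) hqT 3
      _ = T ^ (-3 : ℝ) := by
          rw [← pow_mul, ← Real.rpow_natCast, ← Real.rpow_add hTp]
          norm_num
  have hmain : ∑ x ∈ tri T, ((cf G T x / ((x.1 : ℝ) * x.2.1) : ℝ) : ℂ) *
      (2 * π * ∫ ξ : ℝ, ker T τ ξ *
        S3 (2 * π * I * ((x.2.2 : ℝ) / ((x.1 : ℝ) * x.2.1) : ℝ) * cexp (-(om T ξ)))) =
      2 * π * ((Ac P G T - Bc P G T * L + Cc P G T * L ^ 2) * Ej 0 T τ +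
      (Bc P G T - 2 * Cc P G T * L) * Ej 1 T τ + Cc P G T * Ej 2 T τ) +
      2 * π * ∑ x ∈ tri T, cx G T x * R x := by
    unfold Ac Bc Cc
    simp only [Finset.sum_mul, Finset.mul_sum, ← Finset.sum_sub_distrib, ← Finset.sum_add_distrib]
    refine Finset.sum_congr rfl fun x _ => ?_
    simp only [hR, cx]
    ring
  have hr := hrep T c τ h1 h2
  rw [hmain] at hr
  have hsR : ∑ x ∈ tri T, cx G T x * R x =
      ∑ x ∈ tri T, cx G T x * ((P (qq x) (hn x)).2.2.2 * VV T τ 0) + ErrTot G T τ := by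
    unfold ErrTot
    rw [← Finset.sum_add_distrib]
    refine Finset.sum_congr rfl fun x hx => ?_
    rw [hRx x hx]
    ring
  have hs1 : ‖∑ x ∈ tri T, cx G T x * ((P (qq x) (hn x)).2.2.2 * VV T τ 0)‖ ≤ M₀ := by
    refine (norm_sum_le _ _).trans ?_
    calc ∑ x ∈ tri T, ‖cx G T x * ((P (qq x) (hn x)).2.2.2 * VV T τ 0)‖
        ≤ ∑ x ∈ tri T, (|cf G T x| / ((x.1 : ℝ) * x.2.1)) * T ^ (-3 : ℝ) := by
          refine Finset.sum_le_sum fun x hx => ?_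
          rw [norm_mul, norm_cx]
          exact mul_le_mul_of_nonneg_left (hb1 x hx) (by positivity)
      _ = (∑ x ∈ tri T, |cf G T x| / ((x.1 : ℝ) * x.2.1)) * T ^ (-3 : ℝ) := by rw [Finset.sum_mul]
      _ ≤ (M₀ * T ^ 3) * T ^ (-3 : ℝ) :=
          mul_le_mul_of_nonneg_right (hM T hT1.le) (Real.rpow_nonneg hTp.le _)
      _ = M₀ := by
          rw [mul_assoc, ← Real.rpow_natCast, ← Real.rpow_add hTp]
          norm_num
  have hs3 : ‖ErrTot G T τ‖ ≤ T ^ (1 - η) :=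
    (herr T b τ h1 h2).trans (Real.rpow_le_rpow_of_exponent_le hT1.le (by linarith [min_le_left η₀ 1]))
  have hs2 : ‖2 * π * ∑ x ∈ tri T, cx G T x * R x‖ ≤ 2 * π * (M₀ + T ^ (1 - η)) := by
    rw [norm_mul, norm_mul, Complex.norm_ofNat, Complex.norm_real, Real.norm_of_nonneg Real.pi_pos.le]
    refine mul_le_mul_of_nonneg_left ?_ (by positivity)
    rw [hsR]
    exact (norm_add_le _ _).trans (add_le_add hs1 hs3)
  refine le_trans ?_ hf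
  generalize 2 * π * ((Ac P G T - Bc P G T * L + Cc P G T * L ^ 2) * Ej 0 T τ +
      (Bc P G T - 2 * Cc P G T * L) * Ej 1 T τ + Cc P G T * Ej 2 T τ) = M at hr ⊢
  generalize 2 * π * ∑ x ∈ tri T, cx G T x * R x = E at hr hs2
  calc ‖I2 G T τ - M‖ = ‖(I2 G T τ - (M + E)) + E‖ := by congr 1; ring
    _ ≤ ‖I2 G T τ - (M + E)‖ + ‖E‖ := norm_add_le _ _
    _ ≤ _ := add_le_add hr hs2

end SG

end
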