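import Pool.Agent.Lib.MP_39df77_nt.Part03
import Pool.Agent.Lib.MP_39df77_nt.Part04
import Pool.Agent.Lib.MP_39df77_nt.Part09
import Pool.Agent.Lib.MP_39df77_nt.Part10
import Pool.Agent.Lib.MP_39df77_nt.Part11
import Pool.Agent.Lib.MP_39df77_nt.Part12

section

namespace SG
open Complex MeasureTheory Filter Topology Set
open scoped Real ComplexConjugate

theorem D1_ex_add (x y : ℝ) : ex (x + y) = ex x * ex y := by
  unfold ex
  rw [← Complex.exp_add]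
  congr 1
  push_cast
  ring

theorem D1_ex_conj (x : ℝ) : conj (ex x) = ex (-x) := by
  unfold ex
  rw [← Complex.exp_conj]
  congr 1
  simp only [map_mul, Complex.conj_I, Complex.conj_ofReal, map_ofNat]
  push_cast
  ring

theorem D1_ex_int (n : ℤ) : ex n = 1 := by
  unfold ex
  rw [Complex.exp_eq_one_iff]
  exact ⟨n, by push_cast; ring⟩

theorem D1_ex_norm (x : ℝ) : ‖ex x‖ = 1 := by
  unfold ex
  rw [Complex.norm_exp]
  simp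

theorem D1_ex_cont : Continuous ex := by
  unfold ex
  fun_prop

/-- `e(x/c)` depends only on `x` modulo `c` -/
theorem D1_ex_mod {c : ℕ} (hc : 0 < c) {x y : ℤ} (h : ((x : ℤ) : ZMod c) = ((y : ℤ) : ZMod c)) :
    ex (x / c) = ex (y / c) := by
  obtain ⟨k, hk⟩ := (ZMod.intCast_eq_intCast_iff_dvd_sub _ _ _).mp h
  have hc' : (c : ℝ) ≠ 0 := by exact_mod_cast hc.ne'
  have e : ((y : ℝ) / c) = (x : ℝ) / c + (k : ℤ) := by
    have h1 : (y : ℝ) - x = c * k := by exact_mod_cast hk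
    field_simp
    linarith
  rw [e, D1_ex_add, D1_ex_int, mul_one]

theorem D1_iv_cast {c : ℕ} (hc : 0 < c) (h d : ℤ) :
    ((iv c h d : ℕ) : ZMod c) = ((h * d : ℤ) : ZMod c)⁻¹ := by
  have : NeZero c := ⟨hc.ne'⟩
  unfold iv
  rw [ZMod.natCast_zmod_val]

theorem D1_unit {c : ℕ} {x : ℤ} (h : IsCoprime x (c : ℤ)) : ((x : ℤ) : ZMod c) * ((x : ℤ) : ZMod c)⁻¹ = 1 := by
  apply ZMod.mul_inv_of_unit
  obtain ⟨u, v, huv⟩ := h
  have h1 : ((u * x + v * (c : ℤ) : ℤ) : ZMod c) = 1 := by rw [huv]; simp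
  push_cast at h1
  rw [ZMod.natCast_self, mul_zero, add_zero] at h1
  exact IsUnit.of_mul_eq_one _ (by rw [mul_comm]; exact h1)

theorem D1_inv_neg {c : ℕ} {x y : ℤ} (hx : IsCoprime x (c : ℤ)) (h : ((y : ℤ) : ZMod c) = -((x : ℤ) : ZMod c)) :
    ((y : ℤ) : ZMod c)⁻¹ = -((x : ℤ) : ZMod c)⁻¹ := by
  have h1 := D1_unit hx
  have h2 : ((y : ℤ) : ZMod c) * (-((x : ℤ) : ZMod c)⁻¹) = 1 := by
    rw [h, neg_mul_neg, h1]
  have hu : IsUnit ((y : ℤ) : ZMod c) := IsUnit.of_mul_eq_one _ h2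
  have h3 := ZMod.mul_inv_of_unit _ hu
  exact hu.mul_left_cancel (h3.trans h2.symm)

/-- reflection `d ↦ -d` modulo `c` -/
theorem D1_refl {c : ℕ} (hc : 0 < c) {d : ℕ} (hd : d < c) (hcd : Nat.Coprime d c) :
    (c - d) % c < c ∧ Nat.Coprime ((c - d) % c) c ∧
      (((c - d) % c : ℕ) : ZMod c) = -((d : ℕ) : ZMod c) ∧ (c - (c - d) % c) % c = d := by
  refine ⟨Nat.mod_lt _ hc, ?_, ?_, ?_⟩
  · have h1 : Nat.Coprime (c - d) c := by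
      rw [Nat.coprime_self_sub_left hd.le]
      exact hcd
    rw [Nat.Coprime] at h1 ⊢
    rw [← Nat.gcd_rec, Nat.gcd_comm]
    exact h1
  · rw [ZMod.natCast_mod, Nat.cast_sub hd.le, ZMod.natCast_self, zero_sub]
  · rcases Nat.eq_zero_or_pos d with rfl | hd0
    · simp
    · rw [Nat.mod_eq_of_lt (by omega : c - d < c)]
      have : c - (c - d) = d := by omega
      rw [this, Nat.mod_eq_of_lt hd]

theorem D1_term {c : ℕ} (hc : 0 < c) {h : ℤ} (hco : IsCoprime h (c : ℤ)) (n : ℤ) {d d' : ℕ}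
    (hcd : Nat.Coprime d c) (h3 : ((d' : ℕ) : ZMod c) = -((d : ℕ) : ZMod c)) :
    ex (-((d + n * iv c h d) / c)) = ex ((d' + n * iv c h d') / c) := by
  have hcopd : IsCoprime (h * (d : ℤ)) (c : ℤ) :=
    IsCoprime.mul_left hco (Nat.isCoprime_iff_coprime.mpr hcd)
  have e1 : ex (-(((d : ℕ) + n * iv c h d) / c)) = ex (((-((d : ℤ) + n * iv c h d) : ℤ) : ℝ) / c) := by
    congr 1
    push_cast
    ring
  have e2 : ex (((d' : ℝ) + n * iv c h (d' : ℤ)) / c) =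
      ex ((((d' : ℤ) + n * iv c h (d' : ℤ) : ℤ) : ℝ) / c) := by
    congr 1
    push_cast
    ring
  rw [e1, e2]
  apply D1_ex_mod hc
  have h4 : ((h * (d' : ℤ) : ℤ) : ZMod c) = -((h * (d : ℤ) : ℤ) : ZMod c) := by
    push_cast
    rw [h3]
    ring
  have h5 := D1_inv_neg hcopd h4
  have h6 := D1_iv_cast hc h d
  have h7 := D1_iv_cast hc h d'
  push_cast
  rw [h6, h7, h5, h3]
  ring

/-- `∑_d e(-(d + n iv)/c) = Kl` -/
theorem D1_Kl {c : ℕ} (hc : 0 < c) {h : ℤ} (hco : IsCoprime h (c : ℤ)) (n : ℤ) :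
    ∑ d ∈ (Finset.range c).filter (fun d => Nat.Coprime d c), ex (-((d + n * iv c h d) / c)) = Kl c h n := by
  unfold Kl
  refine Finset.sum_nbij' (fun d => (c - d) % c) (fun d => (c - d) % c) ?_ ?_ ?_ ?_ ?_
  · intro d hd
    rw [Finset.mem_filter, Finset.mem_range] at hd ⊢
    obtain ⟨h1, h2, _, _⟩ := D1_refl hc hd.1 hd.2
    exact ⟨h1, h2⟩
  · intro d hd
    rw [Finset.mem_filter, Finset.mem_range] at hd ⊢
    obtain ⟨h1, h2, _, _⟩ := D1_refl hc hd.1 hd.2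
    exact ⟨h1, h2⟩
  · intro d hd
    rw [Finset.mem_filter, Finset.mem_range] at hd
    exact (D1_refl hc hd.1 hd.2).2.2.2
  · intro d hd
    rw [Finset.mem_filter, Finset.mem_range] at hd
    exact (D1_refl hc hd.1 hd.2).2.2.2
  · intro d hd
    rw [Finset.mem_filter, Finset.mem_range] at hd
    obtain ⟨_, _, h3, _⟩ := D1_refl hc hd.1 hd.2
    exact D1_term hc hco n hd.2 h3

/-- the two thin sectors -/
theorem D1_sec {lam1 lam2 δ : ℝ} (h1 : 0 < lam1) (h2 : 0 < lam2) (hδ : 0 < δ) (hδ1 : δ ≤ 1 / 4) {v w : V2}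
    (hv : v ∈ Sec false 1 lam1 δ) (hw : w ∈ Sec true (-1) lam2 δ) :
    0 < wd w v ∧ wd w v ≤ 8 * lam1 * lam2 := by
  simp only [Sec, co, Set.mem_ofPred_eq, Bool.not_false, Bool.not_true, if_true, one_mul,
    Bool.false_eq_true, if_false, neg_mul] at hv hw
  obtain ⟨a1, a2, a3⟩ := hv
  obtain ⟨b1, b2, b3⟩ := hw
  have hv1 : |v.1| = v.1 := abs_of_pos (by linarith)
  have hw2 : |w.2| = -w.2 := abs_of_neg (by linarith)
  rw [hv1] at a3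
  rw [hw2] at b3
  have hP : 0 < v.1 * (-w.2) := mul_pos (by linarith) (by linarith)
  have h3 : |w.1 * v.2| ≤ (1 / 16) * (v.1 * (-w.2)) := by
    rw [abs_mul]
    calc |w.1| * |v.2| ≤ (δ * (-w.2)) * (δ * v.1) :=
          mul_le_mul b3 a3 (abs_nonneg _) (mul_nonneg hδ.le (by linarith))
      _ = (δ * δ) * (v.1 * (-w.2)) := by ring
      _ ≤ (1 / 16) * (v.1 * (-w.2)) := by
          apply mul_le_mul_of_nonneg_right _ hP.le
          nlinarith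
  have h4 : v.1 * (-w.2) ≤ (2 * lam1) * (2 * lam2) :=
    mul_le_mul a2 b2 (by linarith) (by linarith)
  have h5 := abs_le.mp h3
  unfold wd
  constructor
  · nlinarith [h5.1]
  · nlinarith [h5.2, mul_pos h1 h2]

theorem D1_perf {lam1 δ : ℝ} (h1 : 0 < lam1) (hδ : 0 < δ) {Φ : V2 → ℝ → ℂ}
    (mΦ : Measurable (fun p : V2 × ℝ => Φ p.1 p.2)) (bΦ : ∃ C : ℝ, ∀ v D, ‖Φ v D‖ ≤ C)
    (sΦ : ∀ v D, Φ v D ≠ 0 → v ∈ Sec false 1 lam1 δ ∧ 1 ≤ D ∧ D ≤ 2) :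
    Per false (fun x v D => ex x * Φ v D) := by
  have h := per_sum (i := false) (σ := 1) (lam := lam1) (δ := δ) (D0 := 1) (D1 := 2) (Or.inl rfl) h1 hδ
    one_pos {1} (fun _ => 1) mΦ bΦ sΦ
  simpa using h

theorem D1_perg {lam2 δ : ℝ} (h2 : 0 < lam2) (hδ : 0 < δ) (F : Finset ℤ)
    (a : ℤ → ℂ) {Ψ : V2 → ℝ → ℂ}
    (mΨ : Measurable (fun p : V2 × ℝ => Ψ p.1 p.2)) (bΨ : ∃ C : ℝ, ∀ v D, ‖Ψ v D‖ ≤ C)
    (sΨ : ∀ v D, Ψ v D ≠ 0 → v ∈ Sec true (-1) lam2 δ ∧ 1 ≤ D ∧ D ≤ 2) :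
    Per true (fun x v D => (∑ n ∈ F, a n * ex (n * x)) * Ψ v D) :=
  per_sum (i := true) (σ := -1) (lam := lam2) (δ := δ) (D0 := 1) (D1 := 2) (Or.inr rfl) h2 hδ
    one_pos F a mΨ bΨ sΨ

theorem D1_integrable {lam1 lam2 δ : ℝ} (h1 : 0 < lam1) (h2 : 0 < lam2) (hδ : 0 < δ)
    {Φ Ψ : V2 → ℝ → ℂ} (mΦ : Measurable (fun p : V2 × ℝ => Φ p.1 p.2))
    (mΨ : Measurable (fun p : V2 × ℝ => Ψ p.1 p.2)) (bΦ : ∃ C : ℝ, ∀ v D, ‖Φ v D‖ ≤ C)
    (bΨ : ∃ C : ℝ, ∀ v D, ‖Ψ v D‖ ≤ C)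
    (sΦ : ∀ v D, Φ v D ≠ 0 → v ∈ Sec false 1 lam1 δ ∧ 1 ≤ D ∧ D ≤ 2)
    (sΨ : ∀ v D, Ψ v D ≠ 0 → v ∈ Sec true (-1) lam2 δ ∧ 1 ≤ D ∧ D ≤ 2)
    (c : ℝ) {t : V2 × V2 → ℝ} (ht : Measurable t) :
    Integrable (fun p : V2 × V2 => Φ p.1 (wd p.2 p.1 / c) * conj (Ψ p.2 (wd p.2 p.1 / c)) * ex (t p)) := by
  obtain ⟨C1, hC1⟩ := bΦ
  obtain ⟨C2, hC2⟩ := bΨ
  have hwd : Measurable (fun p : V2 × V2 => wd p.2 p.1 / c) := by
    unfold wd
    fun_prop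
  have hm1 : Measurable (fun p : V2 × V2 => Φ p.1 (wd p.2 p.1 / c)) :=
    mΦ.comp (measurable_fst.prodMk hwd)
  have hm2 : Measurable (fun p : V2 × V2 => Ψ p.2 (wd p.2 p.1 / c)) :=
    mΨ.comp (measurable_snd.prodMk hwd)
  have hm : Measurable (fun p : V2 × V2 => Φ p.1 (wd p.2 p.1 / c) *
      conj (Ψ p.2 (wd p.2 p.1 / c)) * ex (t p)) := by
    refine (hm1.mul ?_).mul (D1_ex_cont.measurable.comp ht)
    exact (Complex.continuous_conj.measurable).comp hm2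
  obtain ⟨_, _, v1, m1⟩ := vol_bound (i := false) (σ := 1) (lam := lam1) (δ := δ) (D0 := 1) (c := 1)
    (Or.inl rfl) h1 hδ one_pos one_ne_zero
  obtain ⟨_, _, v2, m2⟩ := vol_bound (i := true) (σ := -1) (lam := lam2) (δ := δ) (D0 := 1) (c := 1)
    (Or.inr rfl) h2 hδ one_pos one_ne_zero
  have hfin : volume ((Sec false 1 lam1 δ) ×ˢ (Sec true (-1) lam2 δ) : Set (V2 × V2)) ≠ ⊤ := by
    rw [Measure.volume_eq_prod, Measure.prod_prod]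
    exact (ENNReal.mul_lt_top (v1.trans_lt ENNReal.ofReal_lt_top)
      (v2.trans_lt ENNReal.ofReal_lt_top)).ne
  have hsupp : Function.support (fun p : V2 × V2 => Φ p.1 (wd p.2 p.1 / c) *
      conj (Ψ p.2 (wd p.2 p.1 / c)) * ex (t p)) ⊆ (Sec false 1 lam1 δ) ×ˢ (Sec true (-1) lam2 δ) := by
    intro p hp
    rw [Function.mem_support] at hp
    have q1 : Φ p.1 (wd p.2 p.1 / c) ≠ 0 := fun h => hp (by rw [h]; simp)
    have q2 : Ψ p.2 (wd p.2 p.1 / c) ≠ 0 := fun h => hp (by rw [h]; simp)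
    exact ⟨(sΦ _ _ q1).1, (sΨ _ _ q2).1⟩
  rw [← integrableOn_iff_integrable_of_support_subset hsupp]
  refine Measure.integrableOn_of_bounded (M := C1 * C2) hfin hm.aestronglyMeasurable ?_
  refine Filter.Eventually.of_forall fun p => ?_
  rw [norm_mul, norm_mul, D1_ex_norm, mul_one, RCLike.norm_conj]
  exact mul_le_mul (hC1 _ _) (hC2 _ _) (norm_nonneg _) ((norm_nonneg _).trans (hC1 p.1 0))

/-- the integral with index `n` for the modulus `c` -/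
noncomputable def D1_J (h : ℕ) (Φ Ψ : V2 → ℝ → ℂ) (c : ℕ) (n : ℤ) : ℂ :=
  ∫ p : V2 × V2, Φ p.1 (wd p.2 p.1 / c) * conj (Ψ p.2 (wd p.2 p.1 / c)) *
    ex ((p.2.1 / (h * p.1.1) + n * (p.1.2 / p.2.2)) / c)

theorem D1_pos {h : ℕ} (hh : 0 < h)
    {lam1 lam2 δ : ℝ} (h1 : 0 < lam1) (h2 : 0 < lam2) (hδ : 0 < δ) (F : Finset ℤ)
    (a : ℤ → ℂ) {Φ Ψ : V2 → ℝ → ℂ} (mΦ : Measurable (fun p : V2 × ℝ => Φ p.1 p.2))
    (mΨ : Measurable (fun p : V2 × ℝ => Ψ p.1 p.2)) (bΦ : ∃ C : ℝ, ∀ v D, ‖Φ v D‖ ≤ C)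
    (bΨ : ∃ C : ℝ, ∀ v D, ‖Ψ v D‖ ≤ C)
    (sΦ : ∀ v D, Φ v D ≠ 0 → v ∈ Sec false 1 lam1 δ ∧ 1 ≤ D ∧ D ≤ 2)
    (sΨ : ∀ v D, Ψ v D ≠ 0 → v ∈ Sec true (-1) lam2 δ ∧ 1 ≤ D ∧ D ≤ 2)
    {c : ℕ} (hc : 0 < c) (hco : IsCoprime (h : ℤ) (c : ℤ)) :
    pair (fun M => M.1 1 0 = (c : ℤ) ∧ (h : ℤ) ∣ M.1 1 1) (poin h false fun x v D => ex x * Φ v D)
      (poin 1 true fun x v D => (∑ n ∈ F, a n * ex (n * x)) * Ψ v D) =
    ∑ n ∈ F, conj (a n) * (((c : ℂ) ^ 2)⁻¹ * Kl c h n * D1_J h Φ Ψ c n) := by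
  have hcz : ((c : ℕ) : ℤ) ≠ 0 := by exact_mod_cast hc.ne'
  have hcr : (c : ℝ) ≠ 0 := by exact_mod_cast hc.ne'
  have hhr : (h : ℝ) ≠ 0 := by exact_mod_cast hh.ne'
  rw [gram_c hh hcz hco (D1_perf h1 hδ mΦ bΦ sΦ) (D1_perg h2 hδ F a mΨ bΨ sΨ)]
  simp only [Int.natAbs_natCast, Int.cast_natCast]
  have key : ∀ d : ℕ, (∫ p : V2 × V2, ex (co false p.2 / (co false p.1 * h * c) - d / c) *
        Φ p.1 (wd p.2 p.1 / c) *
      conj ((∑ n ∈ F, a n * ex (n * (iv c h d / c - co true p.1 / (c * co true p.2)))) *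
        Ψ p.2 (wd p.2 p.1 / c))) =
      ∑ n ∈ F, conj (a n) * ex (-((d + n * iv c h d) / c)) * D1_J h Φ Ψ c n := by
    intro d
    have e : ∀ p : V2 × V2, ex (co false p.2 / (co false p.1 * h * c) - d / c) *
        Φ p.1 (wd p.2 p.1 / c) *
      conj ((∑ n ∈ F, a n * ex (n * (iv c h d / c - co true p.1 / (c * co true p.2)))) *
        Ψ p.2 (wd p.2 p.1 / c)) =
        ∑ n ∈ F, conj (a n) * ex (-((d + n * iv c h d) / c)) *
          (Φ p.1 (wd p.2 p.1 / c) * conj (Ψ p.2 (wd p.2 p.1 / c)) *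
            ex ((p.2.1 / (h * p.1.1) + n * (p.1.2 / p.2.2)) / c)) := by
      intro p
      rw [map_mul, map_sum, Finset.sum_mul, Finset.mul_sum]
      refine Finset.sum_congr rfl fun n _ => ?_
      rw [map_mul, D1_ex_conj]
      have e2 : ex (co false p.2 / (co false p.1 * h * c) - d / c) *
          ex (-(n * (iv c h d / c - co true p.1 / (c * co true p.2)))) =
          ex (-((d + n * iv c h d) / c)) * ex ((p.2.1 / (h * p.1.1) + n * (p.1.2 / p.2.2)) / c) := by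
        rw [← D1_ex_add, ← D1_ex_add]
        congr 1
        simp only [co, Bool.false_eq_true, if_false, if_true]
        have e3 : p.2.1 / (p.1.1 * h * c) = p.2.1 / (h * p.1.1) / c := by
          rw [div_div, mul_comm (h : ℝ) p.1.1]
        have e4 : p.1.2 / (c * p.2.2) = p.1.2 / p.2.2 / c := by
          rw [div_div, mul_comm (c : ℝ) p.2.2]
        rw [e3, e4]
        ring
      calc _ = (ex (co false p.2 / (co false p.1 * h * c) - d / c) *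
          ex (-(n * (iv c h d / c - co true p.1 / (c * co true p.2))))) *
          (conj (a n) * (Φ p.1 (wd p.2 p.1 / c) * conj (Ψ p.2 (wd p.2 p.1 / c)))) := by ring
        _ = _ := by rw [e2]; ring
    simp_rw [e]
    rw [integral_finsetSum]
    · refine Finset.sum_congr rfl fun n _ => ?_
      rw [integral_const_mul]
      rfl
    · intro n _
      refine Integrable.const_mul ?_ _
      exact D1_integrable h1 h2 hδ mΦ mΨ bΦ bΨ sΦ sΨ (c : ℝ)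
        (t := fun p : V2 × V2 => (p.2.1 / (h * p.1.1) + n * (p.1.2 / p.2.2)) / c) (by fun_prop)
  simp_rw [key]
  rw [Finset.sum_comm, Finset.mul_sum]
  refine Finset.sum_congr rfl fun n _ => ?_
  rw [← D1_Kl hc hco n]
  simp_rw [mul_comm (conj (a n)) (ex _), mul_assoc, ← Finset.sum_mul]
  ring

/-- a nonzero product of profiles gives the range of `c` -/
theorem D1_range {lam1 lam2 δ : ℝ} (h1 : 0 < lam1) (h2 : 0 < lam2) (hδ : 0 < δ) (hδ1 : δ ≤ 1 / 4)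
    {Φ Ψ : V2 → ℝ → ℂ}
    (sΦ : ∀ v D, Φ v D ≠ 0 → v ∈ Sec false 1 lam1 δ ∧ 1 ≤ D ∧ D ≤ 2)
    (sΨ : ∀ v D, Ψ v D ≠ 0 → v ∈ Sec true (-1) lam2 δ ∧ 1 ≤ D ∧ D ≤ 2)
    {c : ℝ} {p : V2 × V2} (hp : Φ p.1 (wd p.2 p.1 / c) * Ψ p.2 (wd p.2 p.1 / c) ≠ 0) :
    0 < c ∧ c ≤ 8 * lam1 * lam2 := by
  obtain ⟨s1, s2, _⟩ := sΦ _ _ (left_ne_zero_of_mul hp)
  obtain ⟨t1, _, _⟩ := sΨ _ _ (right_ne_zero_of_mul hp)
  obtain ⟨w1, w2⟩ := D1_sec h1 h2 hδ hδ1 s1 t1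
  have hc : 0 < c := by
    by_contra hneg
    push Not at hneg
    have := div_nonpos_of_nonneg_of_nonpos w1.le hneg
    linarith
  refine ⟨hc, ?_⟩
  rw [le_div_iff₀ hc] at s2
  linarith

theorem D1_neg {h : ℕ} (hh : 0 < h)
    {lam1 lam2 δ : ℝ} (h1 : 0 < lam1) (h2 : 0 < lam2) (hδ : 0 < δ) (hδ1 : δ ≤ 1 / 4) (F : Finset ℤ)
    (a : ℤ → ℂ) {Φ Ψ : V2 → ℝ → ℂ} (mΦ : Measurable (fun p : V2 × ℝ => Φ p.1 p.2))
    (mΨ : Measurable (fun p : V2 × ℝ => Ψ p.1 p.2)) (bΦ : ∃ C : ℝ, ∀ v D, ‖Φ v D‖ ≤ C)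
    (bΨ : ∃ C : ℝ, ∀ v D, ‖Ψ v D‖ ≤ C)
    (sΦ : ∀ v D, Φ v D ≠ 0 → v ∈ Sec false 1 lam1 δ ∧ 1 ≤ D ∧ D ≤ 2)
    (sΨ : ∀ v D, Ψ v D ≠ 0 → v ∈ Sec true (-1) lam2 δ ∧ 1 ≤ D ∧ D ≤ 2)
    {c : ℤ} (hc : c < 0) (hco : IsCoprime (h : ℤ) c) :
    pair (fun M => M.1 1 0 = c ∧ (h : ℤ) ∣ M.1 1 1) (poin h false fun x v D => ex x * Φ v D)
      (poin 1 true fun x v D => (∑ n ∈ F, a n * ex (n * x)) * Ψ v D) = 0 := by
  rw [gram_c hh hc.ne hco (D1_perf h1 hδ mΦ bΦ sΦ) (D1_perg h2 hδ F a mΨ bΨ sΨ)]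
  apply mul_eq_zero_of_right
  apply Finset.sum_eq_zero
  intro d _
  apply integral_eq_zero_of_ae
  refine Filter.Eventually.of_forall fun p => ?_
  by_contra hne
  have h3 : Φ p.1 (wd p.2 p.1 / c) * Ψ p.2 (wd p.2 p.1 / c) ≠ 0 := by
    intro h0
    apply hne
    rcases mul_eq_zero.mp h0 with h0 | h0 <;> simp [h0]
  have h4 := (D1_range h1 h2 hδ hδ1 sΦ sΨ h3).1
  have h5 : (c : ℝ) < 0 := by exact_mod_cast hc
  linarith

theorem D1_zero {h : ℕ}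
    {lam1 lam2 δ : ℝ} (h1 : 0 < lam1) (h2 : 0 < lam2) (hδ : 0 < δ) (hδ1 : δ ≤ 1 / 4) (F : Finset ℤ)
    (a : ℤ → ℂ) {Φ Ψ : V2 → ℝ → ℂ} 
    (sΦ : ∀ v D, Φ v D ≠ 0 → v ∈ Sec false 1 lam1 δ ∧ 1 ≤ D ∧ D ≤ 2)
    (sΨ : ∀ v D, Ψ v D ≠ 0 → v ∈ Sec true (-1) lam2 δ ∧ 1 ≤ D ∧ D ≤ 2) :
    pair (fun M => M.1 1 0 = 0 ∧ (h : ℤ) ∣ M.1 1 1) (poin h false fun x v D => ex x * Φ v D)
      (poin 1 true fun x v D => (∑ n ∈ F, a n * ex (n * x)) * Ψ v D) = 0 := by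
  unfold pair
  have : ∀ γ : {γ : SLZ // γ.1 1 0 = 0 ∧ (h : ℤ) ∣ γ.1 1 1}, ∫ g : X4,
      (poin h false fun x v D => ex x * Φ v D) g *
      conj ((poin 1 true fun x v D => (∑ n ∈ F, a n * ex (n * x)) * Ψ v D) (act γ g)) = 0 := by
    rintro ⟨γ, h10, _⟩
    apply integral_eq_zero_of_ae
    refine Filter.Eventually.of_forall fun g => ?_
    by_contra hne
    simp only [poin, Pi.zero_apply] at hne
    have hΦ : Φ g.2 (Dt g) ≠ 0 := by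
      intro h0
      apply hne
      simp [h0]
    have hΨ : Ψ (act γ g).2 (Dt (act γ g)) ≠ 0 := by
      intro h0
      apply hne
      simp [h0]
    obtain ⟨s1, _, _⟩ := sΦ _ _ hΦ
    obtain ⟨t1, _, _⟩ := sΨ _ _ hΨ
    have hdet : γ.1 0 0 * γ.1 1 1 = 1 := by
      have := γ.2
      rw [Matrix.det_fin_two, h10, mul_zero, sub_zero] at this
      exact this
    have hd : γ.1 1 1 = 1 ∨ γ.1 1 1 = -1 := by
      rcases Int.eq_one_or_neg_one_of_mul_eq_one' hdet with h | h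
      · exact Or.inl h.2
      · exact Or.inr h.2
    have hsec := (D1_sec h1 h2 hδ hδ1 s1 t1).1
    have hw : (act γ g).2 = ((γ.1 1 1 : ℤ) : ℝ) • g.2 := by
      simp [act, h10]
    rw [hw] at hsec
    unfold wd at hsec
    simp only [Prod.smul_fst, Prod.smul_snd, smul_eq_mul] at hsec
    have : (γ.1 1 1 : ℝ) * g.2.1 * g.2.2 - (γ.1 1 1 : ℝ) * g.2.2 * g.2.1 = 0 := by ring
    linarith
  simp [this]

theorem D1_J_zero {h : ℕ}
    {lam1 lam2 δ : ℝ} (h1 : 0 < lam1) (h2 : 0 < lam2) (hδ : 0 < δ) (hδ1 : δ ≤ 1 / 4)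
    {Φ Ψ : V2 → ℝ → ℂ}
    (sΦ : ∀ v D, Φ v D ≠ 0 → v ∈ Sec false 1 lam1 δ ∧ 1 ≤ D ∧ D ≤ 2)
    (sΨ : ∀ v D, Ψ v D ≠ 0 → v ∈ Sec true (-1) lam2 δ ∧ 1 ≤ D ∧ D ≤ 2)
    {c : ℕ} (hc : 8 * lam1 * lam2 < c) (n : ℤ) : D1_J h Φ Ψ c n = 0 := by
  unfold D1_J
  apply integral_eq_zero_of_ae
  refine Filter.Eventually.of_forall fun p => ?_
  by_contra hne
  have h3 : Φ p.1 (wd p.2 p.1 / c) * Ψ p.2 (wd p.2 p.1 / c) ≠ 0 := by
    intro h0
    apply hne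
    rcases mul_eq_zero.mp h0 with h0 | h0 <;> simp [h0]
  have h4 := (D1_range h1 h2 hδ hδ1 sΦ sΨ h3).2
  linarith

/-- **D1.** B4 (`group_PW`) and B2 with `i = false`, `j = true`. `c = 0`: then `h = 1`, `M = ±[[1,b],[0,1]]`, `v'' = ±v`, and
`Sec false 1 lam1 δ ∩ ± Sec true (-1) lam2 δ = ∅` because `δ < 1`. `c < 0`: on `Sec1 × Sec2`,
`wd v'' v = v''₁v₂ - v''₂v₁ ≥ (1-δ²) |v''₂| v₁ > 0`, so `D = wd/c < 0`. For `c > 0`:
`e(-d/c) conj e(n iv/c)`, and `∑_d e(-(d + n iv c h d)/c) = Kl c h n` after `d ↦ c - d` (`iv c h (-d) = -iv c h d`). The two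
profiles are `Per` (as in C3a `per_sum`, proved there; prove it again here or import C3a). -/
theorem mixed_formula {h s : ℕ} (hh : 0 < h) (hs : 0 < s) (hco : Nat.Coprime h s)
    {lam1 lam2 δ : ℝ} (h1 : 0 < lam1) (h2 : 0 < lam2) (hδ : 0 < δ) (hδ1 : δ ≤ 1 / 4) (F : Finset ℤ)
    (a : ℤ → ℂ) {Φ Ψ : V2 → ℝ → ℂ} (mΦ : Measurable (fun p : V2 × ℝ => Φ p.1 p.2))
    (mΨ : Measurable (fun p : V2 × ℝ => Ψ p.1 p.2)) (bΦ : ∃ C : ℝ, ∀ v D, ‖Φ v D‖ ≤ C)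
    (bΨ : ∃ C : ℝ, ∀ v D, ‖Ψ v D‖ ≤ C)
    (sΦ : ∀ v D, Φ v D ≠ 0 → v ∈ Sec false 1 lam1 δ ∧ 1 ≤ D ∧ D ≤ 2)
    (sΨ : ∀ v D, Ψ v D ≠ 0 → v ∈ Sec true (-1) lam2 δ ∧ 1 ≤ D ∧ D ≤ 2) :
    pair (PW h s) (poin h false fun x v D => ex x * Φ v D)
      (poin 1 true fun x v D => (∑ n ∈ F, a n * ex (n * x)) * Ψ v D) =
    ∑ n ∈ F, conj (a n) * ∑' c : ℕ, if 0 < c ∧ s ∣ c ∧ Nat.Coprime c h then
      ((c : ℂ) ^ 2)⁻¹ * Kl c h n * ∫ p : V2 × V2, Φ p.1 (wd p.2 p.1 / c) *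
        conj (Ψ p.2 (wd p.2 p.1 / c)) *
        ex ((p.2.1 / (h * p.1.1) + n * (p.1.2 / p.2.2)) / c) else 0 := by
  have hh' : (0 : ℝ) < h := by exact_mod_cast hh
  have A1 : Adm (poin h false fun x v D => ex x * Φ v D) :=
    poin_adm hh' (D1_perf h1 hδ mΦ bΦ sΦ)
  have A2 : Adm (poin 1 true fun x v D => (∑ n ∈ F, a n * ex (n * x)) * Ψ v D) :=
    poin_adm one_pos (D1_perg h2 hδ F a mΨ bΨ sΨ)
  rw [group_PW h s A1 A2]
  set G : ℤ → ℂ := fun c => if (s : ℤ) ∣ c ∧ IsCoprime (h : ℤ) c then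
      pair (fun M => M.1 1 0 = c ∧ (h : ℤ) ∣ M.1 1 1) (poin h false fun x v D => ex x * Φ v D)
      (poin 1 true fun x v D => (∑ n ∈ F, a n * ex (n * x)) * Ψ v D) else 0 with hG
  have hsupp : Function.support G ⊆ Set.range ((↑) : ℕ → ℤ) := by
    intro c hc
    rw [Function.mem_support] at hc
    by_contra hr
    apply hc
    have hneg : c < 0 := by
      by_contra h0
      push Not at h0
      exact hr ⟨c.toNat, Int.toNat_of_nonneg h0⟩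
    rw [hG]
    simp only
    split_ifs with hcc
    · exact D1_neg hh h1 h2 hδ hδ1 F a mΦ mΨ bΦ bΨ sΦ sΨ hneg hcc.2
    · rfl
  have e1 : ∑' c : ℤ, G c = ∑' c : ℕ, G (c : ℤ) :=
    (Function.Injective.tsum_eq Nat.cast_injective hsupp).symm
  have e2 : ∀ c : ℕ, G (c : ℤ) = ∑ n ∈ F, conj (a n) *
      (if 0 < c ∧ s ∣ c ∧ Nat.Coprime c h then ((c : ℂ) ^ 2)⁻¹ * Kl c h n * D1_J h Φ Ψ c n else 0) := by
    intro c
    rw [hG]
    simp only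
    rcases Nat.eq_zero_or_pos c with rfl | hc
    · simp only [lt_irrefl, false_and, if_false, mul_zero, Finset.sum_const_zero, Nat.cast_zero]
      rw [D1_zero h1 h2 hδ hδ1 F a sΦ sΨ]
      simp
    · by_cases hcc : s ∣ c ∧ Nat.Coprime c h
      · have hcc' : (s : ℤ) ∣ (c : ℤ) ∧ IsCoprime (h : ℤ) (c : ℤ) :=
          ⟨Int.natCast_dvd_natCast.mpr hcc.1, Nat.isCoprime_iff_coprime.mpr (Nat.coprime_comm.mp hcc.2)⟩
        rw [if_pos hcc', D1_pos hh h1 h2 hδ F a mΦ mΨ bΦ bΨ sΦ sΨ hc hcc'.2]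
        refine Finset.sum_congr rfl fun n _ => ?_
        rw [if_pos ⟨hc, hcc⟩]
      · have hcc' : ¬ ((s : ℤ) ∣ (c : ℤ) ∧ IsCoprime (h : ℤ) (c : ℤ)) := by
          rintro ⟨q1, q2⟩
          exact hcc ⟨Int.natCast_dvd_natCast.mp q1, Nat.coprime_comm.mp (Nat.isCoprime_iff_coprime.mp q2)⟩
        rw [if_neg hcc']
        symm
        apply Finset.sum_eq_zero
        intro n _
        rw [if_neg (fun q => hcc q.2), mul_zero]
  rw [e1]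
  simp_rw [e2]
  rw [Summable.tsum_finsetSum]
  · refine Finset.sum_congr rfl fun n _ => ?_
    rw [tsum_mul_left]
    rfl
  · intro n _
    apply Summable.mul_left
    apply summable_of_ne_finset_zero (s := Finset.range (⌊8 * lam1 * lam2⌋₊ + 1))
    intro c hc
    rw [Finset.mem_range, not_lt] at hc
    have hc' : 8 * lam1 * lam2 < c := (Nat.lt_floor_add_one _).trans_le (by exact_mod_cast hc)
    rw [D1_J_zero h1 h2 hδ hδ1 sΦ sΨ hc' n]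
    simp

end SG

end

section

namespace SG
open Complex MeasureTheory Filter Topology Set
open scoped Real ComplexConjugate

private lemma D3b_memF {lam δ : ℝ} {v : V2} :
    v ∈ Sec false 1 lam δ ↔ lam ≤ v.1 ∧ v.1 ≤ 2 * lam ∧ |v.2| ≤ δ * |v.1| := by
  simp [Sec, co]

private lemma D3b_memT {lam δ : ℝ} {v : V2} :
    v ∈ Sec true (-1) lam δ ↔ lam ≤ -v.2 ∧ -v.2 ≤ 2 * lam ∧ |v.1| ≤ δ * |v.2| := by
  simp [Sec, co]

private lemma D3b_rpow {lam x r : ℝ} (hl : 0 < lam) (h1 : lam ≤ x) (h2 : x ≤ 2 * lam) :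
    x ^ r ≤ lam ^ r * 2 ^ |r| := by
  have hx : 0 < x := lt_of_lt_of_le hl h1
  rcases le_total 0 r with hr | hr
  · rw [abs_of_nonneg hr, mul_comm, ← Real.mul_rpow (by norm_num) hl.le]
    exact Real.rpow_le_rpow hx.le h2 hr
  · have h3 : x ^ r ≤ lam ^ r := Real.rpow_le_rpow_of_nonpos hl h1 hr
    have h4 : (1:ℝ) ≤ 2 ^ |r| := Real.one_le_rpow (by norm_num) (abs_nonneg r)
    nlinarith [Real.rpow_pos_of_pos hl r]

private lemma D3b_PhiT_bound {h : ℕ} (hh : 0 < h) {lam1 δ : ℝ} (h1 : 0 < lam1) (hδ : 0 < δ)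
    (z : ℂ) (t : ℕ × ℕ × ℕ) (v : V2) (D : ℝ) :
    ‖PhiT h lam1 δ z t v D‖ ≤ (lam1 ^ (-z.re) * 2 ^ |z.re|) * (2 ^ |z.re| * 2 ^ (t.2.1 + t.2.2)) *
      (((h : ℝ) * lam1 ^ 2) ^ t.2.1)⁻¹ * δ ^ (t.1 + t.2.2) := by
  have hh' : (0:ℝ) < h := by exact_mod_cast hh
  unfold PhiT
  split_ifs with hc
  · obtain ⟨hv, hD1, hD2⟩ := hc
    rw [D3b_memF] at hv
    obtain ⟨hv1, hv2, hv3⟩ := hv
    have hv0 : 0 < v.1 := lt_of_lt_of_le h1 hv1
    have hD0 : 0 < D := by linarith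
    rw [norm_mul, norm_mul, norm_mul]
    have e1 : ‖(v.1 : ℂ) ^ (-z)‖ ≤ lam1 ^ (-z.re) * 2 ^ |z.re| := by
      rw [Complex.norm_cpow_eq_rpow_re_of_pos hv0]
      have := D3b_rpow (r := (-z).re) h1 hv1 hv2
      simpa [abs_neg] using this
    have e2 : ‖(D : ℂ) ^ (z + t.2.1 + t.2.2)‖ ≤ 2 ^ |z.re| * 2 ^ (t.2.1 + t.2.2) := by
      rw [Complex.norm_cpow_eq_rpow_re_of_pos hD0]
      have e3 : (z + (t.2.1 : ℂ) + (t.2.2 : ℂ)).re = z.re + ((t.2.1 + t.2.2 : ℕ) : ℝ) := by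
        simp [add_assoc]
      rw [e3, Real.rpow_add hD0, Real.rpow_natCast]
      have e4 := D3b_rpow (lam := 1) (x := D) (r := z.re) one_pos hD1 (by linarith)
      rw [Real.one_rpow, one_mul] at e4
      exact mul_le_mul e4 (pow_le_pow_left₀ hD0.le hD2 _) (by positivity) (by positivity)
    have e3 : ‖((((h : ℝ) * v.1 ^ 2) ^ t.2.1 : ℝ) : ℂ)⁻¹‖ ≤ (((h : ℝ) * lam1 ^ 2) ^ t.2.1)⁻¹ := by
      rw [norm_inv, Complex.norm_real, Real.norm_of_nonneg (by positivity)]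
      apply inv_anti₀ (by positivity)
      apply pow_le_pow_left₀ (by positivity)
      apply mul_le_mul_of_nonneg_left _ hh'.le
      exact pow_le_pow_left₀ h1.le hv1 2
    have e4 : ‖(((v.2 / v.1) ^ (t.1 + t.2.2) : ℝ) : ℂ)‖ ≤ δ ^ (t.1 + t.2.2) := by
      rw [Complex.norm_real, norm_pow, Real.norm_eq_abs, abs_div]
      apply pow_le_pow_left₀ (by positivity)
      rw [div_le_iff₀ (abs_pos.mpr hv0.ne')]
      exact hv3
    exact mul_le_mul (mul_le_mul (mul_le_mul e1 e2 (norm_nonneg _) (by positivity)) e3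
      (norm_nonneg _) (by positivity)) e4 (norm_nonneg _) (by positivity)
  · rw [norm_zero]; positivity

private lemma D3b_PsiT_bound {lam2 δ : ℝ} (h2 : 0 < lam2) (hδ : 0 < δ)
    (z : ℂ) (t : ℕ × ℕ × ℕ) (v : V2) (D : ℝ) :
    ‖PsiT lam2 δ z t v D‖ ≤ (lam2 ^ (-z.re) * 2 ^ |z.re|) *
      ((lam2 ^ 2) ^ t.2.2)⁻¹ * δ ^ (t.1 + t.2.1) := by
  unfold PsiT
  split_ifs with hc
  · obtain ⟨hv, hD1, hD2⟩ := hc
    rw [D3b_memT] at hv
    obtain ⟨hv1, hv2, hv3⟩ := hv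
    have hv0 : 0 < -v.2 := lt_of_lt_of_le h2 hv1
    rw [norm_mul, norm_mul]
    have e1 : ‖conj ((((-v.2 : ℝ) : ℂ)) ^ (-z))‖ ≤ lam2 ^ (-z.re) * 2 ^ |z.re| := by
      rw [RCLike.norm_conj, Complex.norm_cpow_eq_rpow_re_of_pos hv0]
      have := D3b_rpow (r := (-z).re) h2 hv1 hv2
      simpa [abs_neg] using this
    have e3 : ‖((((v.2 ^ 2) ^ t.2.2 : ℝ) : ℂ))⁻¹‖ ≤ ((lam2 ^ 2) ^ t.2.2)⁻¹ := by
      rw [norm_inv, Complex.norm_real, Real.norm_of_nonneg (by positivity)]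
      apply inv_anti₀ (by positivity)
      apply pow_le_pow_left₀ (by positivity)
      nlinarith
    have e4 : ‖(((v.1 / (-v.2)) ^ (t.1 + t.2.1) : ℝ) : ℂ)‖ ≤ δ ^ (t.1 + t.2.1) := by
      rw [Complex.norm_real, norm_pow, Real.norm_eq_abs, abs_div]
      apply pow_le_pow_left₀ (by positivity)
      rw [div_le_iff₀ (abs_pos.mpr hv0.ne'), abs_neg]
      exact hv3
    exact mul_le_mul (mul_le_mul e1 e3
      (norm_nonneg _) (by positivity)) e4 (norm_nonneg _) (by positivity)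
  · rw [norm_zero]; positivity

private lemma D3b_measSecF {lam δ : ℝ} : MeasurableSet (Sec false 1 lam δ) := by
  have : Sec false 1 lam δ = {v : V2 | lam ≤ v.1} ∩ ({v | v.1 ≤ 2 * lam} ∩
      {v | |v.2| ≤ δ * |v.1|}) := by
    ext v; rw [D3b_memF]; rfl
  rw [this]
  refine (measurableSet_le (by fun_prop) (by fun_prop)).inter
    ((measurableSet_le (by fun_prop) (by fun_prop)).inter (measurableSet_le ?_ ?_))
  · exact (measurable_snd.abs)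
  · exact (measurable_fst.abs).const_mul δ

private lemma D3b_measSecT {lam δ : ℝ} : MeasurableSet (Sec true (-1) lam δ) := by
  have : Sec true (-1) lam δ = {v : V2 | lam ≤ -v.2} ∩ ({v | -v.2 ≤ 2 * lam} ∩
      {v | |v.1| ≤ δ * |v.2|}) := by
    ext v; rw [D3b_memT]; rfl
  rw [this]
  refine (measurableSet_le (by fun_prop) (by fun_prop)).inter
    ((measurableSet_le (by fun_prop) (by fun_prop)).inter (measurableSet_le ?_ ?_))
  · exact (measurable_fst.abs)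
  · exact (measurable_snd.abs).const_mul δ

private lemma D3b_PhiT_meas (h : ℕ) (lam1 δ : ℝ) (z : ℂ) (t : ℕ × ℕ × ℕ) :
    Measurable (fun p : V2 × ℝ => PhiT h lam1 δ z t p.1 p.2) := by
  unfold PhiT
  refine Measurable.ite ?_ ?_ measurable_const
  · have : {p : V2 × ℝ | p.1 ∈ Sec false 1 lam1 δ ∧ 1 ≤ p.2 ∧ p.2 ≤ 2} =
        (Prod.fst ⁻¹' (Sec false 1 lam1 δ)) ∩ ({p | 1 ≤ p.2} ∩ {p | p.2 ≤ 2}) := rfl
    rw [this]
    exact (measurable_fst D3b_measSecF).inter ((measurableSet_le (by fun_prop) (by fun_prop)).inter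
      (measurableSet_le (by fun_prop) (by fun_prop)))
  · fun_prop

private lemma D3b_PsiT_meas (lam2 δ : ℝ) (z : ℂ) (t : ℕ × ℕ × ℕ) :
    Measurable (fun p : V2 × ℝ => PsiT lam2 δ z t p.1 p.2) := by
  unfold PsiT
  refine Measurable.ite ?_ ?_ measurable_const
  · have : {p : V2 × ℝ | p.1 ∈ Sec true (-1) lam2 δ ∧ 1 ≤ p.2 ∧ p.2 ≤ 2} =
        (Prod.fst ⁻¹' (Sec true (-1) lam2 δ)) ∩ ({p | 1 ≤ p.2} ∩ {p | p.2 ≤ 2}) := rfl
    rw [this]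
    exact (measurable_fst D3b_measSecT).inter ((measurableSet_le (by fun_prop) (by fun_prop)).inter
      (measurableSet_le (by fun_prop) (by fun_prop)))
  · refine Measurable.mul (Measurable.mul ?_ (by fun_prop)) (by fun_prop)
    exact (Complex.continuous_conj.measurable).comp (by fun_prop)

private lemma D3b_PhiT_supp {h : ℕ} {lam1 δ : ℝ} {z : ℂ} {t : ℕ × ℕ × ℕ} {v : V2} {D : ℝ}
    (hne : PhiT h lam1 δ z t v D ≠ 0) : v ∈ Sec false 1 lam1 δ ∧ 1 ≤ D ∧ D ≤ 2 := by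
  unfold PhiT at hne
  by_contra hc
  rw [if_neg hc] at hne
  exact hne rfl

private lemma D3b_PsiT_supp {lam2 δ : ℝ} {z : ℂ} {t : ℕ × ℕ × ℕ} {v : V2} {D : ℝ}
    (hne : PsiT lam2 δ z t v D ≠ 0) : v ∈ Sec true (-1) lam2 δ ∧ 1 ≤ D ∧ D ≤ 2 := by
  unfold PsiT at hne
  by_contra hc
  rw [if_neg hc] at hne
  exact hne rfl


/-- integrand of the pair term -/
private noncomputable def D3b_G (h : ℕ) (lam1 lam2 δ : ℝ) (z : ℂ) (n : ℤ) (c : ℕ) (t : ℕ × ℕ × ℕ)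
    (p : V2 × V2) : ℂ :=
  PhiT h lam1 δ z t p.1 (wd p.2 p.1 / c) * conj (PsiT lam2 δ z t p.2 (wd p.2 p.1 / c)) *
    ex ((p.2.1 / (h * p.1.1) + n * (p.1.2 / p.2.2)) / c)

private lemma D3b_wd {lam1 lam2 δ : ℝ} {p : V2 × V2} (h1 : 0 < lam1) (h2 : 0 < lam2)
    (hp1 : p.1 ∈ Sec false 1 lam1 δ) (hp2 : p.2 ∈ Sec true (-1) lam2 δ) :
    wd p.2 p.1 = (-p.2.2) * p.1.1 * (1 + (p.1.2 / p.1.1) * (p.2.1 / (-p.2.2))) := by
  rw [D3b_memF] at hp1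
  rw [D3b_memT] at hp2
  have hv0 : p.1.1 ≠ 0 := (lt_of_lt_of_le h1 hp1.1).ne'
  have hw0 : (-p.2.2) ≠ 0 := (lt_of_lt_of_le h2 hp2.1).ne'
  have hw1 : p.2.2 ≠ 0 := fun h => hw0 (by rw [h, neg_zero])
  unfold wd
  field_simp
  ring

private lemma D3b_X {lam1 lam2 δ : ℝ} {p : V2 × V2} (h1 : 0 < lam1) (h2 : 0 < lam2)
    (hp1 : p.1 ∈ Sec false 1 lam1 δ) (hp2 : p.2 ∈ Sec true (-1) lam2 δ) :
    |p.1.2 / p.1.1| ≤ δ ∧ |p.2.1 / (-p.2.2)| ≤ δ := by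
  rw [D3b_memF] at hp1
  rw [D3b_memT] at hp2
  have hv0 : 0 < p.1.1 := (lt_of_lt_of_le h1 hp1.1)
  have hw0 : 0 < (-p.2.2) := (lt_of_lt_of_le h2 hp2.1)
  constructor
  · rw [abs_div, div_le_iff₀ (abs_pos.mpr hv0.ne')]
    exact hp1.2.2
  · rw [abs_div, div_le_iff₀ (abs_pos.mpr hw0.ne'), abs_neg]
    exact hp2.2.2

private lemma D3b_supp {h : ℕ} {lam1 lam2 δ : ℝ} {z : ℂ} {n : ℤ} {c : ℕ} {t : ℕ × ℕ × ℕ}
    {p : V2 × V2} (hne : D3b_G h lam1 lam2 δ z n c t p ≠ 0) :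
    p.1 ∈ Sec false 1 lam1 δ ∧ p.2 ∈ Sec true (-1) lam2 δ ∧
      1 ≤ wd p.2 p.1 / c ∧ wd p.2 p.1 / c ≤ 2 := by
  unfold D3b_G at hne
  have e1 : PhiT h lam1 δ z t p.1 (wd p.2 p.1 / c) ≠ 0 := by
    intro h0; apply hne; rw [h0]; ring
  have e2 : PsiT lam2 δ z t p.2 (wd p.2 p.1 / c) ≠ 0 := by
    intro h0; apply hne; rw [h0]; simp
  exact ⟨(D3b_PhiT_supp e1).1, (D3b_PsiT_supp e2).1, (D3b_PhiT_supp e1).2⟩

private lemma D3b_lt {lam1 lam2 δ : ℝ} {p : V2 × V2} (h1 : 0 < lam1) (h2 : 0 < lam2) (hδ : 0 < δ)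
    (hδ1 : δ ≤ 1 / 4) {c : ℕ} (hc : 0 < c)
    (hp1 : p.1 ∈ Sec false 1 lam1 δ) (hp2 : p.2 ∈ Sec true (-1) lam2 δ)
    (hD : 1 ≤ wd p.2 p.1 / c) : (c : ℝ) < 5 * lam1 * lam2 := by
  have hc' : (0:ℝ) < c := by exact_mod_cast hc
  have hX := D3b_X h1 h2 hp1 hp2
  have hw := D3b_wd h1 h2 hp1 hp2
  have e1 : (c:ℝ) ≤ wd p.2 p.1 := by
    rw [le_div_iff₀ hc'] at hD; linarith
  rw [D3b_memF] at hp1
  rw [D3b_memT] at hp2
  have hv0 : 0 < p.1.1 := (lt_of_lt_of_le h1 hp1.1)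
  have hw0 : 0 < (-p.2.2) := (lt_of_lt_of_le h2 hp2.1)
  have e2 : |(p.1.2 / p.1.1) * (p.2.1 / (-p.2.2))| ≤ 1 / 16 := by
    rw [abs_mul]
    calc |p.1.2 / p.1.1| * |p.2.1 / (-p.2.2)| ≤ (1/4) * (1/4) := by
          apply mul_le_mul (hX.1.trans hδ1) (hX.2.trans hδ1) (abs_nonneg _) (by norm_num)
      _ = 1/16 := by norm_num
  have e3 := (abs_le.mp e2).2
  have e4 : (-p.2.2) * p.1.1 ≤ (2 * lam2) * (2 * lam1) :=
    mul_le_mul hp2.2.1 hp1.2.1 hv0.le (by positivity)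
  have e5 : wd p.2 p.1 ≤ (2 * lam2) * (2 * lam1) * (1 + 1 / 16) := by
    rw [hw]
    apply mul_le_mul e4 (by linarith) _ (by positivity)
    have := (abs_le.mp e2).1
    linarith
  have : 0 < lam1 * lam2 := mul_pos h1 h2
  nlinarith

private lemma D3b_G_meas (h : ℕ) (lam1 lam2 δ : ℝ) (z : ℂ) (n : ℤ) (c : ℕ) (t : ℕ × ℕ × ℕ) :
    Measurable (D3b_G h lam1 lam2 δ z n c t) := by
  have m0 : Measurable (fun p : V2 × V2 => wd p.2 p.1 / (c:ℝ)) := by unfold wd; fun_prop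
  have m1 : Measurable (fun p : V2 × V2 => PhiT h lam1 δ z t p.1 (wd p.2 p.1 / c)) :=
    (D3b_PhiT_meas h lam1 δ z t).comp (measurable_fst.prodMk m0)
  have m2 : Measurable (fun p : V2 × V2 => conj (PsiT lam2 δ z t p.2 (wd p.2 p.1 / c))) :=
    Complex.continuous_conj.measurable.comp
      ((D3b_PsiT_meas lam2 δ z t).comp (measurable_snd.prodMk m0))
  have m3 : Measurable (fun p : V2 × V2 =>
      ex ((p.2.1 / (h * p.1.1) + n * (p.1.2 / p.2.2)) / (c:ℝ))) := by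
    unfold ex; fun_prop
  exact (m1.mul m2).mul m3

private lemma D3b_norm_ex (x : ℝ) : ‖ex x‖ = 1 := by
  unfold ex
  have : (2 * π * I * x : ℂ) = ((2 * π * x : ℝ) : ℂ) * I := by push_cast; ring
  rw [this, Complex.norm_exp_ofReal_mul_I]

private lemma D3b_bound {h : ℕ} (hh : 0 < h) {lam1 lam2 δ : ℝ} (h1 : 0 < lam1) (h2 : 0 < lam2)
    (hδ : 0 < δ) (z : ℂ) (n : ℤ) (c : ℕ) (t : ℕ × ℕ × ℕ) (p : V2 × V2) :
    ‖cijl z t * (n : ℂ) ^ t.2.2 * D3b_G h lam1 lam2 δ z n c t p‖ ≤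
      ((Sec false 1 lam1 δ) ×ˢ (Sec true (-1) lam2 δ)).indicator (fun _ => (1:ℝ)) p *
      ((lam1 ^ (-z.re) * 2 ^ |z.re| * 2 ^ |z.re| * (lam2 ^ (-z.re) * 2 ^ |z.re|)) *
      (‖cijl z t‖ * (δ ^ 2) ^ t.1 *
        (2 * δ / (h * lam1 ^ 2) + 2 * δ * |(n:ℝ)| / lam2 ^ 2) ^ t.2.1 *
        (2 * δ / (h * lam1 ^ 2) + 2 * δ * |(n:ℝ)| / lam2 ^ 2) ^ t.2.2)) := by
  have hh' : (0:ℝ) < h := by exact_mod_cast hh
  by_cases hG : D3b_G h lam1 lam2 δ z n c t p = 0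
  · rw [hG, mul_zero, norm_zero]
    apply mul_nonneg
    · exact indicator_nonneg (fun _ _ => zero_le_one) _
    · positivity
  have hs := D3b_supp hG
  have hmem : p ∈ (Sec false 1 lam1 δ) ×ˢ (Sec true (-1) lam2 δ) := ⟨hs.1, hs.2.1⟩
  rw [indicator_of_mem hmem, one_mul]
  have b1 := D3b_PhiT_bound hh h1 hδ z t p.1 (wd p.2 p.1 / c)
  have b2 := D3b_PsiT_bound h2 hδ z t p.2 (wd p.2 p.1 / c)
  have hn : ‖(n : ℂ) ^ t.2.2‖ = |(n:ℝ)| ^ t.2.2 := by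
    rw [norm_pow, Complex.norm_intCast]
  unfold D3b_G
  rw [norm_mul, norm_mul, norm_mul, norm_mul, D3b_norm_ex, mul_one, RCLike.norm_conj, hn]
  have y1 : 2 * δ / (h * lam1 ^ 2) ≤ 2 * δ / (h * lam1 ^ 2) + 2 * δ * |(n:ℝ)| / lam2 ^ 2 := by
    have : 0 ≤ 2 * δ * |(n:ℝ)| / lam2 ^ 2 := by positivity
    linarith
  have y2 : 2 * δ * |(n:ℝ)| / lam2 ^ 2 ≤ 2 * δ / (h * lam1 ^ 2) + 2 * δ * |(n:ℝ)| / lam2 ^ 2 := by
    have : 0 ≤ 2 * δ / (h * lam1 ^ 2) := by positivity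
    linarith
  set y : ℝ := 2 * δ / (h * lam1 ^ 2) + 2 * δ * |(n:ℝ)| / lam2 ^ 2 with hy
  have hy0 : 0 ≤ y := by rw [hy]; positivity
  calc ‖cijl z t‖ * |(n:ℝ)| ^ t.2.2 * (‖PhiT h lam1 δ z t p.1 (wd p.2 p.1 / c)‖ *
        ‖PsiT lam2 δ z t p.2 (wd p.2 p.1 / c)‖)
      ≤ ‖cijl z t‖ * |(n:ℝ)| ^ t.2.2 * (((lam1 ^ (-z.re) * 2 ^ |z.re|) *
        (2 ^ |z.re| * 2 ^ (t.2.1 + t.2.2)) *
        (((h : ℝ) * lam1 ^ 2) ^ t.2.1)⁻¹ * δ ^ (t.1 + t.2.2)) *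
        ((lam2 ^ (-z.re) * 2 ^ |z.re|) * ((lam2 ^ 2) ^ t.2.2)⁻¹ * δ ^ (t.1 + t.2.1))) := by
        apply mul_le_mul_of_nonneg_left _ (by positivity)
        exact mul_le_mul b1 b2 (norm_nonneg _) (by positivity)
    _ = (lam1 ^ (-z.re) * 2 ^ |z.re| * 2 ^ |z.re| * (lam2 ^ (-z.re) * 2 ^ |z.re|)) *
        (‖cijl z t‖ * (δ ^ 2) ^ t.1 * (2 * δ / (h * lam1 ^ 2)) ^ t.2.1 *
          (2 * δ * |(n:ℝ)| / lam2 ^ 2) ^ t.2.2) := by
        rw [div_pow, div_pow, mul_pow (2 * δ) |(n:ℝ)|, mul_pow 2 δ, mul_pow 2 δ, pow_add, pow_add,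
          pow_add]
        field_simp
        ring
    _ ≤ _ := by
        apply mul_le_mul_of_nonneg_left _ (by positivity)
        apply mul_le_mul _ (pow_le_pow_left₀ (by positivity) y2 _) (by positivity) (by positivity)
        apply mul_le_mul_of_nonneg_left (pow_le_pow_left₀ (by positivity) y1 _) (by positivity)

private lemma D3b_vol {lam1 lam2 δ : ℝ} (h1 : 0 < lam1) (h2 : 0 < lam2) (hδ : 0 < δ) :
    volume ((Sec false 1 lam1 δ) ×ˢ (Sec true (-1) lam2 δ)) < ⊤ := by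
  have hb : Bornology.IsBounded ((Sec false 1 lam1 δ) ×ˢ (Sec true (-1) lam2 δ)) := by
    have : (Sec false 1 lam1 δ) ×ˢ (Sec true (-1) lam2 δ) ⊆
        ((Icc (0:ℝ) (2 * lam1)) ×ˢ (Icc (-(δ * (2 * lam1))) (δ * (2 * lam1)))) ×ˢ
        ((Icc (-(δ * (2 * lam2))) (δ * (2 * lam2))) ×ˢ (Icc (-(2 * lam2)) (0:ℝ))) := by
      rintro ⟨v, w⟩ ⟨hv, hw⟩
      simp only at hv hw
      rw [D3b_memF] at hv
      rw [D3b_memT] at hw
      have hv0 : 0 < v.1 := (lt_of_lt_of_le h1 hv.1)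
      have hw0 : 0 < (-w.2) := (lt_of_lt_of_le h2 hw.1)
      have a1 : |v.2| ≤ δ * (2 * lam1) := hv.2.2.trans
        (mul_le_mul_of_nonneg_left (by rw [abs_of_pos hv0]; exact hv.2.1) hδ.le)
      have a2 : |w.1| ≤ δ * (2 * lam2) := hw.2.2.trans
        (mul_le_mul_of_nonneg_left (by rw [← abs_neg, abs_of_pos hw0]; exact hw.2.1) hδ.le)
      rw [abs_le] at a1 a2
      exact ⟨⟨⟨hv0.le, hv.2.1⟩, a1⟩, ⟨a2, ⟨by linarith [hw.2.1], by linarith⟩⟩⟩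
    refine Bornology.IsBounded.subset ?_ this
    exact ((Metric.isBounded_Icc _ _).prod (Metric.isBounded_Icc _ _)).prod
      ((Metric.isBounded_Icc _ _).prod (Metric.isBounded_Icc _ _))
  exact hb.measure_lt_top

/-- the limit function -/
private lemma D3b_point {h : ℕ} (hh : 0 < h) {lam1 lam2 δ : ℝ} (h1 : 0 < lam1) (h2 : 0 < lam2)
    (hδ : 0 < δ) (hδ1 : δ ≤ 1 / 4) (z : ℂ) (n : ℤ) {c : ℕ} (hc : 0 < c) (p : V2 × V2)
    (hp1 : p.1 ∈ Sec false 1 lam1 δ) (hp2 : p.2 ∈ Sec true (-1) lam2 δ)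
    (hD1 : 1 ≤ wd p.2 p.1 / c) (hD2 : wd p.2 p.1 / c ≤ 2) :
    HasSum (fun t => cijl z t * (n : ℂ) ^ t.2.2 * D3b_G h lam1 lam2 δ z n c t p)
      ((c : ℂ) ^ (-z)) := by
  have hh' : (0:ℝ) < h := by exact_mod_cast hh
  have hc' : (0:ℝ) < c := by exact_mod_cast hc
  have hX := D3b_X h1 h2 hp1 hp2
  have hw := D3b_wd h1 h2 hp1 hp2
  have hp1' := hp1
  have hp2' := hp2
  rw [D3b_memF] at hp1'
  rw [D3b_memT] at hp2'
  have hv0 : 0 < p.1.1 := (lt_of_lt_of_le h1 hp1'.1)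
  have hw0 : 0 < (-p.2.2) := (lt_of_lt_of_le h2 hp2'.1)
  have e2 : |(p.1.2 / p.1.1) * (p.2.1 / (-p.2.2))| ≤ 1 / 16 := by
    rw [abs_mul]
    calc |p.1.2 / p.1.1| * |p.2.1 / (-p.2.2)| ≤ (1/4) * (1/4) := by
          apply mul_le_mul (hX.1.trans hδ1) (hX.2.trans hδ1) (abs_nonneg _) (by norm_num)
      _ = 1/16 := by norm_num
  set D : ℝ := wd p.2 p.1 / c with hDdef
  set ρ : ℝ := p.1.2 / p.1.1 with hρ
  set ρ' : ℝ := p.2.1 / (-p.2.2) with hρ'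
  set v₁ : ℝ := p.1.1 with hv1
  set w : ℝ := -p.2.2 with hwdef
  have hD0 : 0 < D := by linarith
  have hX1 : |ρ * ρ'| < 1 := by linarith
  have h1X : 0 < 1 + ρ * ρ' := by linarith [(abs_lt.mp hX1).1]
  have hcD : (c:ℝ) = w * v₁ * (1 + ρ * ρ') / D := by
    rw [← hw, hDdef]
    have : wd p.2 p.1 ≠ 0 := by
      intro h0; rw [hDdef, h0] at hD0; simp at hD0
    field_simp
  have hS := sep_expand z (ρ * ρ') (D * ρ' / (h * v₁ ^ 2)) (n * D * ρ / w ^ 2) hX1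
  have hS2 := hS.mul_left ((v₁ : ℂ) ^ (-z) * (w : ℂ) ^ (-z) * (D : ℂ) ^ z *
    ex ((p.2.1 / (h * v₁) + n * (p.1.2 / p.2.2)) / c))
  have hph : (p.2.1 / (h * v₁) + n * (p.1.2 / p.2.2)) / c =
      (D * ρ' / (h * v₁ ^ 2) - n * D * ρ / w ^ 2) / (1 + ρ * ρ') := by
    have a1 : p.2.1 = ρ' * w := by rw [hρ', div_mul_cancel₀ _ hw0.ne']
    have a2 : p.1.2 = ρ * v₁ := by rw [hρ, div_mul_cancel₀ _ hv0.ne']
    have a3 : p.2.2 = -w := by rw [hwdef]; ring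
    rw [a1, a2, a3, hcD]
    have hw0' : w ≠ 0 := hw0.ne'
    have hv0' : v₁ ≠ 0 := hv0.ne'
    have h1X' : 1 + ρ * ρ' ≠ 0 := h1X.ne'
    have hD0' : D ≠ 0 := hD0.ne'
    have hh'' : (h:ℝ) ≠ 0 := hh'.ne'
    have hw0'' : -w ≠ 0 := neg_ne_zero.mpr hw0'
    field_simp
    ring
  have hval : (v₁ : ℂ) ^ (-z) * (w : ℂ) ^ (-z) * (D : ℂ) ^ z *
      ex ((p.2.1 / (h * v₁) + n * (p.1.2 / p.2.2)) / c) *
      (((1 + ρ * ρ' : ℝ) : ℂ) ^ (-z) *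
        ex (-((D * ρ' / (h * v₁ ^ 2) - n * D * ρ / w ^ 2) / (1 + ρ * ρ')))) = (c : ℂ) ^ (-z) := by
    rw [hph]
    have hee : ∀ x : ℝ, ex x * ex (-x) = 1 := by
      intro x
      unfold ex
      rw [← Complex.exp_add]
      have : (2 * π * I * x + 2 * π * I * ((-x : ℝ) : ℂ) : ℂ) = 0 := by push_cast; ring
      rw [this, Complex.exp_zero]
    have hc2 : (c : ℂ) ^ (-z) = (w : ℂ) ^ (-z) * (v₁ : ℂ) ^ (-z) *
        ((1 + ρ * ρ' : ℝ) : ℂ) ^ (-z) * (D : ℂ) ^ z := by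
      have b1 : (c : ℂ) = ((c : ℝ) : ℂ) := by simp
      rw [b1, hcD]
      have b2 : w * v₁ * (1 + ρ * ρ') / D = w * v₁ * (1 + ρ * ρ') * D⁻¹ := rfl
      rw [b2, Complex.ofReal_mul, Complex.mul_cpow_ofReal_nonneg (by positivity) (by positivity),
        Complex.ofReal_mul, Complex.mul_cpow_ofReal_nonneg (by positivity) (by positivity),
        Complex.ofReal_mul, Complex.mul_cpow_ofReal_nonneg (by positivity) (by positivity)]
      congr 1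
      rw [Complex.ofReal_inv, Complex.inv_cpow, ← Complex.cpow_neg, neg_neg]
      rw [Complex.arg_ofReal_of_nonneg hD0.le]
      exact Real.pi_pos.ne
    rw [hc2]
    have := hee ((D * ρ' / (h * v₁ ^ 2) - n * D * ρ / w ^ 2) / (1 + ρ * ρ'))
    linear_combination ((v₁ : ℂ) ^ (-z) * (w : ℂ) ^ (-z) * (D : ℂ) ^ z *
      ((1 + ρ * ρ' : ℝ) : ℂ) ^ (-z)) * this
  rw [hval] at hS2
  have hfun : (fun t : ℕ × ℕ × ℕ => cijl z t * (n : ℂ) ^ t.2.2 * D3b_G h lam1 lam2 δ z n c t p) =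
      fun t : ℕ × ℕ × ℕ => (v₁ : ℂ) ^ (-z) * (w : ℂ) ^ (-z) * (D : ℂ) ^ z *
      ex ((p.2.1 / (h * v₁) + n * (p.1.2 / p.2.2)) / c) *
      (cijl z t * ((ρ * ρ' : ℝ) : ℂ) ^ t.1 * ((D * ρ' / (h * v₁ ^ 2) : ℝ) : ℂ) ^ t.2.1 *
        ((n * D * ρ / w ^ 2 : ℝ) : ℂ) ^ t.2.2) := by
    funext t
    have g1 : PhiT h lam1 δ z t p.1 D = (v₁ : ℂ) ^ (-z) * (D : ℂ) ^ (z + t.2.1 + t.2.2) *
      (((((h : ℝ) * v₁ ^ 2) ^ t.2.1 : ℝ) : ℂ))⁻¹ * (((ρ) ^ (t.1 + t.2.2) : ℝ) : ℂ) := by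
      unfold PhiT
      rw [if_pos ⟨hp1, hD1, hD2⟩]
    have g2 : conj (PsiT lam2 δ z t p.2 D) = (w : ℂ) ^ (-z) * ((((w ^ 2) ^ t.2.2 : ℝ) : ℂ))⁻¹ *
      (((ρ') ^ (t.1 + t.2.1) : ℝ) : ℂ) := by
      unfold PsiT
      rw [if_pos ⟨hp2, hD1, hD2⟩, map_mul, map_mul, Complex.conj_conj, map_inv₀,
        Complex.conj_ofReal, Complex.conj_ofReal]
      have : p.2.2 ^ 2 = w ^ 2 := by rw [hwdef]; ring
      rw [this]
    unfold D3b_G
    rw [← hDdef, g1, g2, ← hv1]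
    generalize ex ((p.2.1 / (h * v₁) + n * (p.1.2 / p.2.2)) / c) = E
    have hDc : (D : ℂ) ≠ 0 := Complex.ofReal_ne_zero.mpr hD0.ne'
    have hwc : (w : ℂ) ≠ 0 := Complex.ofReal_ne_zero.mpr hw0.ne'
    have hvc : (v₁ : ℂ) ≠ 0 := Complex.ofReal_ne_zero.mpr hv0.ne'
    have hhc : (h : ℂ) ≠ 0 := by exact_mod_cast hh.ne'
    rw [Complex.cpow_add _ _ hDc, Complex.cpow_add _ _ hDc, Complex.cpow_natCast,
      Complex.cpow_natCast]
    push_cast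
    rw [div_pow, div_pow, mul_pow (ρ : ℂ), mul_pow (D : ℂ), mul_pow ((n : ℂ) * D),
      mul_pow (n : ℂ), pow_add, pow_add]
    generalize ((h : ℂ) * (v₁ : ℂ) ^ 2) ^ t.2.1 = Q1
    generalize (((w : ℂ) ^ 2) ^ t.2.2) = Q2
    ring
  rw [hfun]
  exact hS2


private lemma D3b_int {h : ℕ} (hh : 0 < h) {lam1 lam2 δ : ℝ} (h1 : 0 < lam1) (h2 : 0 < lam2)
    (hδ : 0 < δ) (hδ1 : δ ≤ 1 / 4) (z : ℂ) (n : ℤ) {c : ℕ} (hc : 0 < c) :
    HasSum (fun t => cijl z t * (n : ℂ) ^ t.2.2 * ∫ p, D3b_G h lam1 lam2 δ z n c t p)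
      ((c : ℂ) ^ (-z) * Vol lam1 lam2 δ c) := by
  have hh' : (0:ℝ) < h := by exact_mod_cast hh
  set U : Set (V2 × V2) := {p : V2 × V2 | p.1 ∈ Sec false 1 lam1 δ ∧ p.2 ∈ Sec true (-1) lam2 δ ∧
    1 ≤ wd p.2 p.1 / c ∧ wd p.2 p.1 / c ≤ 2} with hU
  set S : Set (V2 × V2) := (Sec false 1 lam1 δ) ×ˢ (Sec true (-1) lam2 δ) with hS
  have mwd : Measurable (fun p : V2 × V2 => wd p.2 p.1 / (c:ℝ)) := by unfold wd; fun_prop
  have hSm : MeasurableSet S := D3b_measSecF.prod D3b_measSecT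
  have hUm : MeasurableSet U := by
    have : U = (Prod.fst ⁻¹' (Sec false 1 lam1 δ)) ∩ ((Prod.snd ⁻¹' (Sec true (-1) lam2 δ)) ∩
        ({p | 1 ≤ wd p.2 p.1 / c} ∩ {p | wd p.2 p.1 / c ≤ 2})) := rfl
    rw [this]
    exact (measurable_fst D3b_measSecF).inter ((measurable_snd D3b_measSecT).inter
      ((measurableSet_le measurable_const mwd).inter (measurableSet_le mwd measurable_const)))
  have hUS : U ⊆ S := fun p hp => ⟨hp.1, hp.2.1⟩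
  have hSv : volume S < ⊤ := D3b_vol h1 h2 hδ
  have hx : δ ^ 2 < 1 := by nlinarith
  set y : ℝ := 2 * δ / (h * lam1 ^ 2) + 2 * δ * |(n:ℝ)| / lam2 ^ 2 with hy
  have hy0 : 0 ≤ y := by rw [hy]; positivity
  have hsum := (sep_bound z (sq_nonneg δ) hx hy0).1
  set M : ℝ := lam1 ^ (-z.re) * 2 ^ |z.re| * 2 ^ |z.re| * (lam2 ^ (-z.re) * 2 ^ |z.re|) with hM
  have key := hasSum_integral_of_dominated_convergence (μ := (volume : Measure (V2 × V2)))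
    (F := fun (t : ℕ × ℕ × ℕ) p => cijl z t * (n : ℂ) ^ t.2.2 * D3b_G h lam1 lam2 δ z n c t p)
    (f := U.indicator (fun _ => (c : ℂ) ^ (-z)))
    (fun t p => S.indicator (fun _ => (1:ℝ)) p * (M * (‖cijl z t‖ * (δ ^ 2) ^ t.1 *
        y ^ t.2.1 * y ^ t.2.2)))
    (fun t => ((D3b_G_meas h lam1 lam2 δ z n c t).const_mul _).aestronglyMeasurable)
    (fun t => Eventually.of_forall fun p => D3b_bound hh h1 h2 hδ z n c t p)
    (Eventually.of_forall fun p => (hsum.mul_left M).mul_left _)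
    ?_ (Eventually.of_forall fun p => ?_)
  · have e1 : ∫ p, U.indicator (fun _ => (c : ℂ) ^ (-z)) p = (c : ℂ) ^ (-z) * Vol lam1 lam2 δ c := by
      rw [integral_indicator_const _ hUm, mul_comm]
      unfold Vol
      rw [← hU]
      simp [Measure.real]
    rw [e1] at key
    have e2 : (fun t : ℕ × ℕ × ℕ => cijl z t * (n : ℂ) ^ t.2.2 *
        ∫ p, D3b_G h lam1 lam2 δ z n c t p) = fun t =>
        ∫ p, cijl z t * (n : ℂ) ^ t.2.2 * D3b_G h lam1 lam2 δ z n c t p := by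
      funext t
      rw [integral_const_mul]
    rw [e2]
    exact key
  · simp_rw [tsum_mul_left]
    apply Integrable.mul_const
    exact (integrable_indicator_iff hSm).mpr (integrableOn_const hSv.ne)
  · by_cases hp : p ∈ U
    · rw [indicator_of_mem hp]
      exact D3b_point hh h1 h2 hδ hδ1 z n hc p hp.1 hp.2.1 hp.2.2.1 hp.2.2.2
    · rw [indicator_of_notMem hp]
      have : (fun t : ℕ × ℕ × ℕ => cijl z t * (n : ℂ) ^ t.2.2 * D3b_G h lam1 lam2 δ z n c t p) =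
          fun _ => 0 := by
        funext t
        have : D3b_G h lam1 lam2 δ z n c t p = 0 := by
          by_contra hne
          exact hp (D3b_supp hne)
        rw [this, mul_zero]
      rw [this]
      exact hasSum_zero

/-- **D3b. Expansion.** Let `v = (v₁, ρ v₁) ∈ Sec1`, `v'' = (ρ' w, -w) ∈ Sec2`, `X = ρρ'`, `wd v'' v = w v₁ (1+X)`,
`D = wd/c ∈ [1,2]`. Then `c^{-z} = v₁^{-z} w^{-z} D^z (1+X)^{-z}` and the phase of D1 is `ph = (A - B_n)/(1+X)`,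
`A = D ρ'/(h v₁²)`, `B_n = n D ρ/w²`. Insert `1 = e(-ph) e(ph)` and `sep_expand z X A B_n`:
`X^i A^j B_n^l = [ρ^{i+l} D^{j+l} (h v₁²)^{-j}] [ρ'^{i+j} w^{-2l}] n^l`, i.e.
`c^{-z} = ∑_t cijl z t · PhiT_t(v, D) conj(PsiT_t(v'', D)) n^l e(ph)` on the support. Multiply by `a_n c⁻² Kl`, integrate over
`(v,v'')` (dominated convergence: `sep_bound` with `x = δ²`, `y` a bound of `|A|, |B_n|`), sum over the finitely many
`n, c` (`Vol = 0` for `c > 5 lam1 lam2`) and use `mixed_formula` with coefficients `conj (a n) n^l`. -/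
theorem expand_pair {h s : ℕ} (hh : 0 < h) (hs : 0 < s) (hco : Nat.Coprime h s)
    {lam1 lam2 δ : ℝ} (h1 : 0 < lam1) (h2 : 0 < lam2) (hδ : 0 < δ) (hδ1 : δ ≤ 1 / 4) (F : Finset ℤ)
    (a : ℤ → ℂ) (z : ℂ) :
    HasSum (fun t : ℕ × ℕ × ℕ => cijl z t * pair (PW h s)
        (poin h false fun x v D => ex x * PhiT h lam1 δ z t v D)
        (poin 1 true fun x v D => (∑ n ∈ F, (conj (a n) * (n : ℂ) ^ t.2.2) * ex (n * x)) *
          PsiT lam2 δ z t v D))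
      (∑ n ∈ F, a n * ∑' c : ℕ, (if 0 < c ∧ s ∣ c ∧ Nat.Coprime c h then
        Kl c h n * (c : ℂ) ^ (-2 - z) * Vol lam1 lam2 δ c else 0)) := by
  set N : ℕ := ⌊5 * lam1 * lam2⌋₊ + 1 with hN
  have hNc : ∀ c : ℕ, c ∉ Finset.range N → ∀ p : V2 × V2, p.1 ∈ Sec false 1 lam1 δ →
      p.2 ∈ Sec true (-1) lam2 δ → ¬ (1 ≤ wd p.2 p.1 / c) := by
    intro c hc p hp1 hp2 hD
    rw [Finset.mem_range, not_lt] at hc
    have hc0 : 0 < c := by omega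
    have := D3b_lt h1 h2 hδ hδ1 hc0 hp1 hp2 hD
    have h3 : 5 * lam1 * lam2 < N := by rw [hN]; push_cast; exact Nat.lt_floor_add_one _
    have h4 : (N:ℝ) ≤ c := by exact_mod_cast hc
    linarith
  have hpair : ∀ t : ℕ × ℕ × ℕ, cijl z t * pair (PW h s)
        (poin h false fun x v D => ex x * PhiT h lam1 δ z t v D)
        (poin 1 true fun x v D => (∑ n ∈ F, (conj (a n) * (n : ℂ) ^ t.2.2) * ex (n * x)) *
          PsiT lam2 δ z t v D) =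
      ∑ n ∈ F, a n * ∑ c ∈ Finset.range N, (if 0 < c ∧ s ∣ c ∧ Nat.Coprime c h then
        ((c : ℂ) ^ 2)⁻¹ * Kl c h n * (cijl z t * (n : ℂ) ^ t.2.2 *
          ∫ p, D3b_G h lam1 lam2 δ z n c t p) else 0) := by
    intro t
    rw [mixed_formula hh hs hco h1 h2 hδ hδ1 F (fun n => conj (a n) * (n : ℂ) ^ t.2.2)
      (Φ := fun v D => PhiT h lam1 δ z t v D) (Ψ := fun v D => PsiT lam2 δ z t v D)
      (D3b_PhiT_meas h lam1 δ z t) (D3b_PsiT_meas lam2 δ z t)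
      ⟨_, fun v D => D3b_PhiT_bound hh h1 hδ z t v D⟩
      ⟨_, fun v D => D3b_PsiT_bound h2 hδ z t v D⟩
      (fun v D => D3b_PhiT_supp) (fun v D => D3b_PsiT_supp), Finset.mul_sum]
    refine Finset.sum_congr rfl fun n _ => ?_
    rw [map_mul, Complex.conj_conj, map_pow, map_intCast]
    rw [tsum_eq_sum (s := Finset.range N)]
    · rw [Finset.mul_sum, Finset.mul_sum, Finset.mul_sum]
      refine Finset.sum_congr rfl fun c _ => ?_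
      split_ifs with hc
      · simp only [D3b_G]
        ring
      · simp
    · intro c hc
      split_ifs with hc'
      · have : (fun p : V2 × V2 => PhiT h lam1 δ z t p.1 (wd p.2 p.1 / c) *
          conj (PsiT lam2 δ z t p.2 (wd p.2 p.1 / c)) *
          ex ((p.2.1 / (h * p.1.1) + n * (p.1.2 / p.2.2)) / c)) = fun _ => 0 := by
          funext p
          by_contra hne
          have := D3b_supp (h := h) (z := z) (n := n) (t := t) (c := c) (p := p)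
            (lam1 := lam1) (lam2 := lam2) (δ := δ) hne
          exact hNc c hc p this.1 this.2.1 this.2.2.1
        rw [this]
        simp
      · rfl
  have htarget : ∀ n : ℤ, (∑' c : ℕ, (if 0 < c ∧ s ∣ c ∧ Nat.Coprime c h then
        Kl c h n * (c : ℂ) ^ (-2 - z) * Vol lam1 lam2 δ c else 0)) =
      ∑ c ∈ Finset.range N, (if 0 < c ∧ s ∣ c ∧ Nat.Coprime c h then
        ((c : ℂ) ^ 2)⁻¹ * Kl c h n * ((c : ℂ) ^ (-z) * Vol lam1 lam2 δ c) else 0) := by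
    intro n
    rw [tsum_eq_sum (s := Finset.range N)]
    · refine Finset.sum_congr rfl fun c _ => ?_
      split_ifs with hc
      · have hc0 : (c : ℂ) ≠ 0 := by exact_mod_cast hc.1.ne'
        have : (c : ℂ) ^ (-2 - z) = ((c : ℂ) ^ 2)⁻¹ * (c : ℂ) ^ (-z) := by
          rw [show (-2 - z : ℂ) = -2 + -z by ring, Complex.cpow_add _ _ hc0, Complex.cpow_neg]
          congr 2
          exact_mod_cast Complex.cpow_natCast (c : ℂ) 2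
        rw [this]
        ring
      · rfl
    · intro c hc
      split_ifs with hc'
      · have : Vol lam1 lam2 δ c = 0 := by
          unfold Vol
          have : {p : V2 × V2 | p.1 ∈ Sec false 1 lam1 δ ∧ p.2 ∈ Sec true (-1) lam2 δ ∧
              1 ≤ wd p.2 p.1 / (c:ℝ) ∧ wd p.2 p.1 / (c:ℝ) ≤ 2} = ∅ := by
            ext p
            simp only [mem_empty_iff_false, iff_false]
            rintro ⟨q1, q2, q3, _⟩
            exact hNc c hc p q1 q2 q3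
          rw [this]
          simp
        rw [this]
        simp
      · rfl
  simp_rw [htarget, hpair]
  refine hasSum_sum fun n _ => HasSum.mul_left _ (hasSum_sum fun c _ => ?_)
  by_cases hc : 0 < c ∧ s ∣ c ∧ Nat.Coprime c h
  · simp only [if_pos hc]
    exact (D3b_int hh h1 h2 hδ hδ1 z n hc.1).mul_left _
  · simp only [if_neg hc]
    exact hasSum_zero

/-- bounds and supports of `PhiT`, `PsiT` (`1 ≤ h lam1²`). -/
theorem PhiT_props {h : ℕ} {lam1 δ : ℝ} (h1 : 0 < lam1) (hδ : 0 < δ) (hδ1 : δ ≤ 1 / 4)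
    (hh : 1 ≤ h * lam1 ^ 2) {z : ℂ} (hz : |z.re| ≤ 2) (t : ℕ × ℕ × ℕ) :
    Measurable (fun p : V2 × ℝ => PhiT h lam1 δ z t p.1 p.2) ∧
    (∀ v D, ‖PhiT h lam1 δ z t v D‖ ≤ 16 * lam1 ^ (-z.re) * 2 ^ (t.2.1 + t.2.2) * δ ^ (t.1 + t.2.2)) ∧
    ∀ v D, PhiT h lam1 δ z t v D ≠ 0 → v ∈ Sec false 1 lam1 δ ∧ 1 ≤ D ∧ D ≤ 2 := by
  refine ⟨D3b_PhiT_meas h lam1 δ z t, fun v D => ?_, fun v D => D3b_PhiT_supp⟩
  have hh0 : 0 < h := by
    rcases Nat.eq_zero_or_pos h with h0 | h0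
    · subst h0; norm_num at hh
    · exact h0
  refine (D3b_PhiT_bound hh0 h1 hδ z t v D).trans ?_
  have e1 : (2:ℝ) ^ |z.re| ≤ 4 := by
    calc (2:ℝ) ^ |z.re| ≤ 2 ^ (2:ℝ) := Real.rpow_le_rpow_of_exponent_le (by norm_num) hz
      _ = 4 := by norm_num
  have e2 : (((h : ℝ) * lam1 ^ 2) ^ t.2.1)⁻¹ ≤ 1 := inv_le_one_of_one_le₀ (one_le_pow₀ hh)
  have e0 : (0:ℝ) < 2 ^ |z.re| := by positivity
  have e3 : (2:ℝ) ^ |z.re| * 2 ^ |z.re| ≤ 16 := by nlinarith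
  have hl := Real.rpow_pos_of_pos h1 (-z.re)
  calc (lam1 ^ (-z.re) * 2 ^ |z.re|) * (2 ^ |z.re| * 2 ^ (t.2.1 + t.2.2)) *
      (((h : ℝ) * lam1 ^ 2) ^ t.2.1)⁻¹ * δ ^ (t.1 + t.2.2)
      = (2 ^ |z.re| * 2 ^ |z.re|) * (lam1 ^ (-z.re) * 2 ^ (t.2.1 + t.2.2) * δ ^ (t.1 + t.2.2)) *
      (((h : ℝ) * lam1 ^ 2) ^ t.2.1)⁻¹ := by ring
    _ ≤ 16 * (lam1 ^ (-z.re) * 2 ^ (t.2.1 + t.2.2) * δ ^ (t.1 + t.2.2)) * 1 := by
        apply mul_le_mul _ e2 (by positivity) (by positivity)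
        exact mul_le_mul_of_nonneg_right e3 (by positivity)
    _ = _ := by ring

theorem PsiT_props {lam2 δ : ℝ} (h2 : 0 < lam2) (hδ : 0 < δ) (hδ1 : δ ≤ 1 / 4) {z : ℂ}
    (hz : |z.re| ≤ 2) (t : ℕ × ℕ × ℕ) :
    Measurable (fun p : V2 × ℝ => PsiT lam2 δ z t p.1 p.2) ∧
    (∀ v D, ‖PsiT lam2 δ z t v D‖ ≤ 4 * lam2 ^ (-z.re) * ((lam2 ^ 2) ^ t.2.2)⁻¹ * δ ^ (t.1 + t.2.1)) ∧
    ∀ v D, PsiT lam2 δ z t v D ≠ 0 → v ∈ Sec true (-1) lam2 δ ∧ 1 ≤ D ∧ D ≤ 2 := by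
  refine ⟨D3b_PsiT_meas lam2 δ z t, fun v D => ?_, fun v D => D3b_PsiT_supp⟩
  refine (D3b_PsiT_bound h2 hδ z t v D).trans ?_
  have e1 : (2:ℝ) ^ |z.re| ≤ 4 := by
    calc (2:ℝ) ^ |z.re| ≤ 2 ^ (2:ℝ) := Real.rpow_le_rpow_of_exponent_le (by norm_num) hz
      _ = 4 := by norm_num
  have hl := Real.rpow_pos_of_pos h2 (-z.re)
  apply mul_le_mul_of_nonneg_right _ (by positivity)
  apply mul_le_mul_of_nonneg_right _ (by positivity)
  nlinarith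

end SG

end
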