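import Pool.Agent.Lib.MP_39df77_nt.Part03
import Pool.Agent.Lib.MP_39df77_nt.Part07
import Pool.Agent.Lib.MP_39df77_nt.Part12
import Pool.Agent.Lib.MP_39df77_nt.Part13
import Pool.Agent.Lib.MP_39df77_nt.Part16

section

namespace SG
open Complex MeasureTheory Filter Topology Set
open scoped Real ComplexConjugate

/-- one fibre, `n = 1` -/
theorem C4_fibre {i : Bool} {σ lam δ D0 : ℝ} (hσ : σ = 1 ∨ σ = -1) (hl : 0 < lam) (hδ : 0 < δ)
    (hD : 0 < D0) {Ψ : V2 → ℝ → ℂ} (hper : Per i (fun x v D => ex x * Ψ v D)) (hb : ∀ v D, ‖Ψ v D‖ ≤ 1)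
    (hs : ∀ v D, Ψ v D ≠ 0 → v ∈ Sec i σ lam δ ∧ D0 ≤ D ∧ D ≤ 2 * D0) {c : ℤ} (hc : c ≠ 0) :
    ‖pair (fun M => M.1 1 0 = c) (poin 1 i fun x v D => ex x * Ψ v D) (poin 1 i fun x v D => ex x * Ψ v D)‖ ≤
      if |(c : ℝ)| ≤ 8 * δ * lam ^ 2 / D0 then 3 * δ * lam ^ 2 * D0 / |(c : ℝ)| * ‖Kl c.natAbs 1 1‖ else 0 := by
  have hcr : (c : ℝ) ≠ 0 := by exact_mod_cast hc
  have hcabs : 0 < |(c : ℝ)| := abs_pos.2 hcr
  have hP : (fun M : SLZ => M.1 1 0 = c) = (fun M : SLZ => M.1 1 0 = c ∧ ((1 : ℕ) : ℤ) ∣ M.1 1 1) := by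
    funext M
    simp
  have hg := gram_c (h := 1) one_pos hc (by simpa using isCoprime_one_left) hper hper
  rw [Nat.cast_one] at hg
  simp only [Nat.cast_one] at hg hP
  rw [hP, hg]
  -- the common integral
  set G : V2 × V2 → ℂ := fun p => ex (co i p.2 / (co i p.1 * 1 * c) + co i p.1 / (c * co i p.2)) *
    (Ψ p.1 (wd p.2 p.1 / c) * conj (Ψ p.2 (wd p.2 p.1 / c))) with hG
  have hterm : ∀ d : ℕ, (∫ p : V2 × V2, ex (co i p.2 / (co i p.1 * 1 * c) - d / c) * Ψ p.1 (wd p.2 p.1 / c) *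
          conj (ex (iv c.natAbs 1 d / c - co i p.1 / (c * co i p.2)) * Ψ p.2 (wd p.2 p.1 / c))) =
        ex (-((d + iv c.natAbs 1 d) / c)) * ∫ p : V2 × V2, G p := by
    intro d
    rw [← integral_const_mul]
    congr 1
    funext p
    rw [map_mul, C3b_conj_ex, hG]
    have e1 : ex (co i p.2 / (co i p.1 * 1 * c) - d / c) * ex (-(iv c.natAbs 1 d / c - co i p.1 / (c * co i p.2))) =
        ex (-((d + iv c.natAbs 1 d) / c)) * ex (co i p.2 / (co i p.1 * 1 * c) + co i p.1 / (c * co i p.2)) := by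
      rw [← C3b_ex_add, ← C3b_ex_add]
      congr 1
      ring
    linear_combination (Ψ p.1 (wd p.2 p.1 / c) * conj (Ψ p.2 (wd p.2 p.1 / c))) * e1
  have hsum : (∑ d ∈ (Finset.range c.natAbs).filter (fun d => Nat.Coprime d c.natAbs),
        ∫ p : V2 × V2, ex (co i p.2 / (co i p.1 * 1 * c) - d / c) * Ψ p.1 (wd p.2 p.1 / c) *
          conj (ex (iv c.natAbs 1 d / c - co i p.1 / (c * co i p.2)) * Ψ p.2 (wd p.2 p.1 / c))) =
      (∑ d ∈ (Finset.range c.natAbs).filter (fun d => Nat.Coprime d c.natAbs), ex (-((d + iv c.natAbs 1 d) / c))) *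
        ∫ p : V2 × V2, G p := by
    rw [Finset.sum_mul]
    exact Finset.sum_congr rfl fun d _ => hterm d
  have hkl : ‖∑ d ∈ (Finset.range c.natAbs).filter (fun d => Nat.Coprime d c.natAbs), ex (-((d + iv c.natAbs 1 d) / c))‖ =
      ‖Kl c.natAbs 1 1‖ := by
    have hn : ((c.natAbs : ℕ) : ℝ) = |(c : ℝ)| := by rw [Nat.cast_natAbs]; push_cast; rfl
    unfold Kl
    rcases lt_or_gt_of_ne hcr with h | h
    · congr 1
      refine Finset.sum_congr rfl fun d _ => ?_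
      congr 1
      rw [hn, abs_of_neg h]
      push_cast
      rw [one_mul, div_neg]
    · rw [← Complex.norm_conj (∑ d ∈ (Finset.range c.natAbs).filter (fun d => Nat.Coprime d c.natAbs), ex (-((d + iv c.natAbs 1 d) / c))), map_sum]
      congr 1
      refine Finset.sum_congr rfl fun d _ => ?_
      rw [C3b_conj_ex, neg_neg]
      congr 1
      rw [hn, abs_of_pos h]
      push_cast
      rw [one_mul]
  obtain ⟨hv1, hv2, -, -⟩ := vol_bound (i := i) (c := (c : ℝ)) hσ hl hδ hD hcr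
  set T : Set (V2 × V2) := {p : V2 × V2 | p.1 ∈ Sec i σ lam δ ∧ p.2 ∈ Sec i σ lam δ ∧ D0 ≤ wd p.2 p.1 / c ∧
      wd p.2 p.1 / c ≤ 2 * D0} with hT
  have hGz : ∀ p, p ∉ T → G p = 0 := by
    intro p hp
    by_contra hne
    rw [hG] at hne
    simp only [ne_eq, mul_eq_zero, not_or, map_eq_zero] at hne
    have h1 := hs _ _ hne.2.1
    have h2 := hs _ _ hne.2.2
    exact hp ⟨h1.1, h2.1, h1.2.1, h1.2.2⟩
  have hGb : ∀ p, ‖G p‖ ≤ 1 := by
    intro p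
    rw [hG]
    simp only
    rw [norm_mul, C3b_norm_ex, one_mul, norm_mul, Complex.norm_conj]
    have h1 := hb p.1 (wd p.2 p.1 / c)
    have h2 := hb p.2 (wd p.2 p.1 / c)
    have h3 := norm_nonneg (Ψ p.1 (wd p.2 p.1 / c))
    have h4 := norm_nonneg (Ψ p.2 (wd p.2 p.1 / c))
    nlinarith
  have hGint : ‖∫ p : V2 × V2, G p‖ ≤ 3 * δ * lam ^ 2 * D0 * |(c : ℝ)| := by
    rw [← setIntegral_eq_integral_of_forall_compl_eq_zero hGz]
    have hfin : volume T < ⊤ := lt_of_le_of_lt hv1 ENNReal.ofReal_lt_top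
    refine (norm_setIntegral_le_of_norm_le_const hfin fun p _ => hGb p).trans ?_
    rw [one_mul]
    exact ENNReal.toReal_le_of_le_ofReal (by positivity) hv1
  rw [hsum, norm_mul, norm_mul, hkl]
  have hc2 : ‖((c : ℂ) ^ 2)⁻¹‖ = (|(c : ℝ)| ^ 2)⁻¹ := by
    rw [norm_inv, norm_pow]
    congr 2
    rw [← Complex.ofReal_intCast, Complex.norm_real, Real.norm_eq_abs]
  rw [hc2]
  split_ifs with hR
  · have h1 := norm_nonneg (Kl c.natAbs 1 1)
    calc (|(c : ℝ)| ^ 2)⁻¹ * (‖Kl c.natAbs 1 1‖ * ‖∫ p : V2 × V2, G p‖)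
        ≤ (|(c : ℝ)| ^ 2)⁻¹ * (‖Kl c.natAbs 1 1‖ * (3 * δ * lam ^ 2 * D0 * |(c : ℝ)|)) := by gcongr
      _ = _ := by field_simp
  · have hz : ∫ p : V2 × V2, G p = 0 := by
      have : G = fun _ => 0 := by
        funext p
        refine hGz p fun hp => hR (hv2 p hp.1 hp.2.1 hp.2.2.1)
      rw [this]
      simp
    rw [hz]
    simp

/-- **C4. Norm of one Poincaré series** (`n = 1`): B4, B3 (`|e(x)| = 1`, so `≤ 3δlam²D₀`), and for `c ≠ 0` B2 with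
`h = 1`, `i = j`: the `d`-sum is `e(..) ∑_d e(-(d + iv |c| 1 d)/c)`, of modulus `‖Kl |c| 1 1‖` for both signs of `c`;
volume by C1. Total `≤ 3δlam²D₀ (1 + 2 ∑_{c ≤ R, N ∣ c} ‖Kl c 1 1‖/c)`. -/
theorem norm_one : ∃ C : ℝ, 0 < C ∧ ∀ N : ℕ, 0 < N → ∀ (i : Bool) (σ lam δ D0 : ℝ),
    (σ = 1 ∨ σ = -1) → 0 < lam → 0 < δ → δ ≤ 1 → 0 < D0 → ∀ Ψ : V2 → ℝ → ℂ,
    Measurable (fun p : V2 × ℝ => Ψ p.1 p.2) → (∀ v D, ‖Ψ v D‖ ≤ 1) →
    (∀ v D, Ψ v D ≠ 0 → v ∈ Sec i σ lam δ ∧ D0 ≤ D ∧ D ≤ 2 * D0) →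
    (pair (PG N) (poin 1 i fun x v D => ex x * Ψ v D) (poin 1 i fun x v D => ex x * Ψ v D)).re ≤
      C * (δ * lam ^ 2 * D0) * (1 + WW N (8 * δ * lam ^ 2 / D0)) := by
  refine ⟨6, by norm_num, ?_⟩
  intro N hN i σ lam δ D0 hσ hl hδ _ hD Ψ hm hb hs
  have hper : Per i (fun x v D => ex x * Ψ v D) := by
    have := per_sum hσ hl hδ hD {1} (fun _ => 1) hm ⟨1, hb⟩ hs
    simpa using this
  have hadm : Adm (poin 1 i fun x v D => ex x * Ψ v D) := poin_adm one_pos hper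
  set φ := poin 1 i fun x v D => ex x * Ψ v D with hφ
  set R := 8 * δ * lam ^ 2 / D0 with hR
  have hR0 : 0 < R := by positivity
  rw [group_PG N hadm hadm]
  have hP0 : ‖pair (fun M => M.1 1 0 = 0) φ φ‖ ≤ 3 * δ * lam ^ 2 * D0 := by
    rw [hφ, gram_0 hσ hper]
    · have hnn : 0 ≤ ∫ p in (Ico (0 : ℝ) 1) ×ˢ (univ : Set (V2 × ℝ)), ‖ex p.1 * Ψ p.2.1 p.2.2‖ ^ 2 :=
        integral_nonneg fun _ => by positivity
      rw [Complex.norm_real, Real.norm_of_nonneg hnn]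
      have h1 : ∀ p : ℝ × V2 × ℝ, ‖ex p.1 * Ψ p.2.1 p.2.2‖ ^ 2 = 1 * ‖Ψ p.2.1 p.2.2‖ ^ 2 := by
        intro p
        rw [norm_mul, C3b_norm_ex, one_mul, one_mul]
      simp_rw [h1]
      rw [Measure.volume_eq_prod, setIntegral_prod_mul (fun _ : ℝ => (1 : ℝ))
        (fun q : V2 × ℝ => ‖Ψ q.1 q.2‖ ^ 2), setIntegral_univ]
      have h2 := C3b_psi hσ hl hδ hD hb hs
      simpa using h2
    · intro x v D h
      have h1 : Ψ v D ≠ 0 := right_ne_zero_of_mul h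
      have := (hs v D h1).1.1
      linarith
  have habs : ∀ c : ℤ, |(c : ℝ)| = (c.natAbs : ℝ) := fun c => by rw [Nat.cast_natAbs]; push_cast; rfl
  have hfib : ∀ c : ℤ, c ≠ 0 → ‖pair (fun M => M.1 1 0 = c) φ φ‖ ≤
      if |(c : ℝ)| ≤ R then 3 * δ * lam ^ 2 * D0 / |(c : ℝ)| * ‖Kl c.natAbs 1 1‖ else 0 :=
    fun c hc => C4_fibre hσ hl hδ hD hper hb hs hc
  have key := C3b_split N (fun c => pair (fun M => M.1 1 0 = c) φ φ)
    (fun c => 3 * δ * lam ^ 2 * D0 / c * ‖Kl c 1 1‖) ⌊R⌋₊ (by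
      intro c hc
      have hc0 : c ≠ 0 := by rintro rfl; simp at hc
      have h1 := hfib c hc0
      rw [habs, if_neg] at h1
      · exact norm_le_zero_iff.1 h1
      · rw [not_le]
        exact (Nat.floor_lt hR0.le).1 hc) (by
      intro c hc
      refine (hfib c hc).trans ?_
      rw [habs]
      split_ifs
      · exact le_rfl
      · positivity)
  refine (Complex.re_le_norm _).trans (key.trans ?_)
  have hsum : ∑ c ∈ (Finset.Icc 1 ⌊R⌋₊).filter (fun c => N ∣ c), 3 * δ * lam ^ 2 * D0 / (c : ℝ) * ‖Kl c 1 1‖ =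
      3 * δ * lam ^ 2 * D0 * WW N R := by
    unfold WW
    rw [Finset.mul_sum]
    refine Finset.sum_congr rfl fun c _ => ?_
    ring
  rw [hsum]
  have hW : 0 ≤ WW N R := Finset.sum_nonneg fun _ _ => by positivity
  have hA : 0 ≤ δ * lam ^ 2 * D0 := by positivity
  nlinarith [mul_nonneg hA hW]

end SG

end

section

namespace SG
open Complex MeasureTheory Filter Topology Set
open scoped Real ComplexConjugate

private theorem D3a_poin_smul (h : ℝ) (i : Bool) (A : ℝ) (f : ℝ → V2 → ℝ → ℂ) (g : X4) :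
    poin h i (fun x v D => (A : ℂ) * f x v D) g = (A : ℂ) * poin h i f g := by
  unfold poin
  split_ifs <;> simp

private theorem D3a_pair_smul (P : SLZ → Prop) (A : ℝ) (φ : X4 → ℂ) :
    pair P (fun g => (A : ℂ) * φ g) (fun g => (A : ℂ) * φ g) = ((A ^ 2 : ℝ) : ℂ) * pair P φ φ := by
  unfold pair
  rw [← tsum_mul_left]
  congr 1
  funext γ
  rw [← MeasureTheory.integral_const_mul]
  congr 1
  funext g
  rw [map_mul, Complex.conj_ofReal]
  push_cast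
  ring

private theorem D3a_pair_zero_left (P : SLZ → Prop) (ψ : X4 → ℂ) :
    pair P (fun _ => (0 : ℂ)) ψ = 0 := by
  unfold pair
  simp

private theorem D3a_pair_zero_right (P : SLZ → Prop) (φ : X4 → ℂ) :
    pair P φ (fun _ => (0 : ℂ)) = 0 := by
  unfold pair
  simp

private theorem D3a_WW_nonneg (N : ℕ) (R : ℝ) : 0 ≤ WW N R := by
  unfold WW
  exact Finset.sum_nonneg fun c _ => by positivity

private theorem D3a_poin_scale {h : ℕ} (hh : 0 < h) (f : ℝ → V2 → ℝ → ℂ) (g : X4) :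
    poin (h : ℝ) false f ((h : ℝ) • g.1, g.2) =
      poin 1 false (fun x v D => f x v ((h : ℝ) * D)) g := by
  have hh' : (h : ℝ) ≠ 0 := by exact_mod_cast hh.ne'
  have e1 : co false ((h : ℝ) • g.1) / co false g.2 / (h : ℝ) = co false g.1 / co false g.2 / 1 := by
    simp only [co, Bool.false_eq_true, if_false, Prod.smul_fst, smul_eq_mul, div_one]
    rw [div_div, mul_comm (g.2.1) (h : ℝ), mul_div_mul_left _ _ hh']
  have e2 : Dt ((h : ℝ) • g.1, g.2) = (h : ℝ) * Dt g := by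
    simp only [Dt, wd, Prod.smul_fst, Prod.smul_snd, smul_eq_mul]
    ring
  unfold poin
  simp only [e1, e2]

/-- **D3a.** `cs_main` for `φ = poin h false (ex · Φ)`, `ψ = poin 1 true (..)`; first factor: `pairA_eq` and
`poin h false f (h u, v) = poin 1 false (fun x v D => f x v (h D)) (u,v)`, then `norm_one` with `D₀ = 1/h`, `N = h s` (after
dividing `Φ` by `A₁`); second factor: `norm_multi` with `i = true`, `σ = -1`, `D₀ = 1`, `N = h s`, `8δ ≤ 2`. If `A₁ = 0` or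
`A₂ = 0` the pair is `0`. -/
theorem pair_bound : ∃ C : ℝ, 0 < C ∧ ∀ h s : ℕ, 0 < h → 0 < s → Nat.Coprime h s →
    ∀ lam1 lam2 δ Kb : ℝ, 0 < lam1 → 0 < lam2 → 0 < δ → δ ≤ 1 / 4 → 1 ≤ Kb →
    ∀ F : Finset ℤ, (∀ n ∈ F, |(n : ℝ)| ≤ Kb) → ∀ (a : ℤ → ℂ) (A1 A2 : ℝ), 0 ≤ A1 → 0 ≤ A2 →
    ∀ Φ Ψ : V2 → ℝ → ℂ, Measurable (fun p : V2 × ℝ => Φ p.1 p.2) →
    Measurable (fun p : V2 × ℝ => Ψ p.1 p.2) → (∀ v D, ‖Φ v D‖ ≤ A1) → (∀ v D, ‖Ψ v D‖ ≤ A2) →
    (∀ v D, Φ v D ≠ 0 → v ∈ Sec false 1 lam1 δ ∧ 1 ≤ D ∧ D ≤ 2) →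
    (∀ v D, Ψ v D ≠ 0 → v ∈ Sec true (-1) lam2 δ ∧ 1 ≤ D ∧ D ≤ 2) →
    ‖pair (PW h s) (poin h false fun x v D => ex x * Φ v D)
      (poin 1 true fun x v D => (∑ n ∈ F, a n * ex (n * x)) * Ψ v D)‖ ^ 2 ≤
    C * (A1 ^ 2 * A2 ^ 2) * (h * δ * lam1 ^ 2 * (1 + WW (h * s) (8 * δ * (h * lam1 ^ 2)))) *
      (δ * lam2 ^ 2 * (1 + (Kb * (1 + Real.log (1 + lam2 ^ 2)) + lam2 ^ 2) / (h * s))) *
      ∑ n ∈ F, ‖a n‖ ^ 2 := by
  obtain ⟨C1, hC1, H1⟩ := norm_one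
  obtain ⟨C2, hC2, H2⟩ := norm_multi
  refine ⟨C1 * (C2 * 2), by positivity, ?_⟩
  intro h s hh hs hco lam1 lam2 δ Kb hl1 hl2 hδ hδ4 hKb F hF a A1 A2 hA1 hA2 Φ Ψ mΦ mΨ bΦ bΨ sΦ sΨ
  have hh' : (0 : ℝ) < h := by exact_mod_cast hh
  have hs' : (0 : ℝ) < s := by exact_mod_cast hs
  have hWW := D3a_WW_nonneg (h * s) (8 * δ * (h * lam1 ^ 2))
  have hlog : 0 ≤ Real.log (1 + lam2 ^ 2) := Real.log_nonneg (by nlinarith [sq_nonneg lam2])
  have hsum : 0 ≤ ∑ n ∈ F, ‖a n‖ ^ 2 := Finset.sum_nonneg fun n _ => by positivity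
  have hKb0 : 0 ≤ Kb := by linarith
  have hrhs : 0 ≤ C1 * (C2 * 2) * (A1 ^ 2 * A2 ^ 2) *
      (h * δ * lam1 ^ 2 * (1 + WW (h * s) (8 * δ * (h * lam1 ^ 2)))) *
      (δ * lam2 ^ 2 * (1 + (Kb * (1 + Real.log (1 + lam2 ^ 2)) + lam2 ^ 2) / (h * s))) *
      ∑ n ∈ F, ‖a n‖ ^ 2 := by positivity
  -- degenerate cases
  rcases hA1.eq_or_lt with hA1' | hA1'
  · have hz : ∀ v D, Φ v D = 0 := fun v D => by
      have := bΦ v D
      rw [← hA1'] at this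
      exact norm_le_zero_iff.mp this
    have : (poin h false fun x v D => ex x * Φ v D) = fun _ => (0 : ℂ) := by
      funext g
      unfold poin
      simp [hz]
    rw [this, D3a_pair_zero_left, norm_zero]
    simpa using hrhs
  rcases hA2.eq_or_lt with hA2' | hA2'
  · have hz : ∀ v D, Ψ v D = 0 := fun v D => by
      have := bΨ v D
      rw [← hA2'] at this
      exact norm_le_zero_iff.mp this
    have : (poin 1 true fun x v D => (∑ n ∈ F, a n * ex (n * x)) * Ψ v D) = fun _ => (0 : ℂ) := by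
      funext g
      unfold poin
      simp [hz]
    rw [this, D3a_pair_zero_right, norm_zero]
    simpa using hrhs
  -- admissibility
  have hP1 : Per false (fun x v D => ex x * Φ v D) := by
    have := per_sum (i := false) (σ := 1) (lam := lam1) (δ := δ) (D0 := 1) (D1 := 2) (Or.inl rfl) hl1 hδ
      one_pos {1} (fun _ => 1) mΦ ⟨A1, bΦ⟩ sΦ
    simpa using this
  have hP2 : Per true (fun x v D => (∑ n ∈ F, a n * ex (n * x)) * Ψ v D) :=
    per_sum (i := true) (σ := -1) (lam := lam2) (δ := δ) (D0 := 1) (D1 := 2) (Or.inr rfl) hl2 hδ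
      one_pos F a mΨ ⟨A2, bΨ⟩ sΨ
  have hAd1 : Adm (poin h false fun x v D => ex x * Φ v D) := poin_adm hh' hP1
  have hAd2 : Adm (poin 1 true fun x v D => (∑ n ∈ F, a n * ex (n * x)) * Ψ v D) :=
    poin_adm one_pos hP2
  obtain ⟨hp1, hp2, hcs⟩ := cs_main hh hs hco hAd1 hAd2
  -- first factor
  have hf1 : (pair (PA h s) (poin h false fun x v D => ex x * Φ v D)
      (poin h false fun x v D => ex x * Φ v D)).re ≤
      C1 * A1 ^ 2 * (h * δ * lam1 ^ 2 * (1 + WW (h * s) (8 * δ * (h * lam1 ^ 2)))) := by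
    set Φ1 : V2 → ℝ → ℂ := fun v D => (A1 : ℂ)⁻¹ * Φ v ((h : ℝ) * D) with hΦ1
    have hA1c : (A1 : ℂ) ≠ 0 := by exact_mod_cast hA1'.ne'
    have e0 : (fun g : X4 => poin (h : ℝ) false (fun x v D => ex x * Φ v D) ((h : ℝ) • g.1, g.2)) =
        fun g => (A1 : ℂ) * poin 1 false (fun x v D => ex x * Φ1 v D) g := by
      funext g
      rw [D3a_poin_scale hh, ← D3a_poin_smul]
      congr 1
      funext x v D
      rw [hΦ1]
      simp only
      field_simp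
    have m1 : Measurable (fun p : V2 × ℝ => Φ1 p.1 p.2) := by
      have : Measurable (fun p : V2 × ℝ => Φ p.1 ((h : ℝ) * p.2)) :=
        mΦ.comp (measurable_fst.prodMk (measurable_snd.const_mul _))
      exact this.const_mul _
    have b1 : ∀ v D, ‖Φ1 v D‖ ≤ 1 := by
      intro v D
      rw [hΦ1]
      simp only [norm_mul, norm_inv, Complex.norm_real, Real.norm_eq_abs, abs_of_pos hA1']
      rw [inv_mul_le_iff₀ hA1', mul_one]
      exact bΦ _ _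
    have s1 : ∀ v D, Φ1 v D ≠ 0 → v ∈ Sec false 1 lam1 δ ∧ 1 / (h : ℝ) ≤ D ∧ D ≤ 2 * (1 / (h : ℝ)) := by
      intro v D hne
      have hne' : Φ v ((h : ℝ) * D) ≠ 0 := by
        intro h0
        apply hne
        rw [hΦ1]
        simp [h0]
      obtain ⟨q1, q2, q3⟩ := sΦ _ _ hne'
      refine ⟨q1, ?_, ?_⟩
      · rw [div_le_iff₀ hh']; linarith
      · rw [mul_one_div, le_div_iff₀ hh']; linarith
    have hN := H1 (h * s) (Nat.mul_pos hh hs) false 1 lam1 δ (1 / (h : ℝ)) (Or.inl rfl) hl1 hδ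
      (by linarith) (by positivity) Φ1 m1 b1 s1
    rw [pairA_eq hh hAd1, e0, D3a_pair_smul]
    have e1 : ((h : ℂ) ^ 2 * (((A1 ^ 2 : ℝ) : ℂ) * pair (PG (h * s)) (poin 1 false fun x v D => ex x * Φ1 v D)
        (poin 1 false fun x v D => ex x * Φ1 v D))).re =
        (h : ℝ) ^ 2 * A1 ^ 2 * (pair (PG (h * s)) (poin 1 false fun x v D => ex x * Φ1 v D)
        (poin 1 false fun x v D => ex x * Φ1 v D)).re := by
      have : ((h : ℂ) ^ 2 * (((A1 ^ 2 : ℝ) : ℂ) * pair (PG (h * s)) (poin 1 false fun x v D => ex x * Φ1 v D)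
        (poin 1 false fun x v D => ex x * Φ1 v D))) = (((h : ℝ) ^ 2 * A1 ^ 2 : ℝ) : ℂ) *
          pair (PG (h * s)) (poin 1 false fun x v D => ex x * Φ1 v D)
            (poin 1 false fun x v D => ex x * Φ1 v D) := by
        push_cast; ring
      rw [this, Complex.re_ofReal_mul]
    rw [e1]
    have e2 : 8 * δ * lam1 ^ 2 / (1 / (h : ℝ)) = 8 * δ * (h * lam1 ^ 2) := by
      field_simp
    rw [e2] at hN
    calc (h : ℝ) ^ 2 * A1 ^ 2 * (pair (PG (h * s)) (poin 1 false fun x v D => ex x * Φ1 v D)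
        (poin 1 false fun x v D => ex x * Φ1 v D)).re
        ≤ (h : ℝ) ^ 2 * A1 ^ 2 * (C1 * (δ * lam1 ^ 2 * (1 / (h : ℝ))) *
          (1 + WW (h * s) (8 * δ * (h * lam1 ^ 2)))) :=
          mul_le_mul_of_nonneg_left hN (by positivity)
      _ = C1 * A1 ^ 2 * (h * δ * lam1 ^ 2 * (1 + WW (h * s) (8 * δ * (h * lam1 ^ 2)))) := by
          field_simp
  -- second factor
  have hf2 : (pair (PG (h * s)) (poin 1 true fun x v D => (∑ n ∈ F, a n * ex (n * x)) * Ψ v D)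
      (poin 1 true fun x v D => (∑ n ∈ F, a n * ex (n * x)) * Ψ v D)).re ≤
      C2 * 2 * A2 ^ 2 *
      (δ * lam2 ^ 2 * (1 + (Kb * (1 + Real.log (1 + lam2 ^ 2)) + lam2 ^ 2) / (h * s))) *
      ∑ n ∈ F, ‖a n‖ ^ 2 := by
    set Ψ1 : V2 → ℝ → ℂ := fun v D => (A2 : ℂ)⁻¹ * Ψ v D with hΨ1
    have hA2c : (A2 : ℂ) ≠ 0 := by exact_mod_cast hA2'.ne'
    have e0 : (poin 1 true fun x v D => (∑ n ∈ F, a n * ex (n * x)) * Ψ v D) =
        fun g => (A2 : ℂ) * poin 1 true (fun x v D => (∑ n ∈ F, a n * ex (n * x)) * Ψ1 v D) g := by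
      funext g
      rw [← D3a_poin_smul]
      congr 1
      funext x v D
      rw [hΨ1]
      simp only
      rw [mul_left_comm (A2 : ℂ), mul_inv_cancel_left₀ hA2c]
    have m1 : Measurable (fun p : V2 × ℝ => Ψ1 p.1 p.2) := mΨ.const_mul _
    have b1 : ∀ v D, ‖Ψ1 v D‖ ≤ 1 := by
      intro v D
      rw [hΨ1]
      simp only [norm_mul, norm_inv, Complex.norm_real, Real.norm_eq_abs, abs_of_pos hA2']
      rw [inv_mul_le_iff₀ hA2', mul_one]
      exact bΨ _ _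
    have s1 : ∀ v D, Ψ1 v D ≠ 0 → v ∈ Sec true (-1) lam2 δ ∧ (1 : ℝ) ≤ D ∧ D ≤ 2 * 1 := by
      intro v D hne
      have hne' : Ψ v D ≠ 0 := by
        intro h0
        apply hne
        rw [hΨ1]
        simp [h0]
      obtain ⟨q1, q2, q3⟩ := sΨ _ _ hne'
      exact ⟨q1, q2, by linarith⟩
    have hN := H2 (h * s) (Nat.mul_pos hh hs) true (-1) lam2 δ 1 Kb (Or.inr rfl) hl2 hδ
      (by linarith) one_pos hKb F hF a Ψ1 m1 b1 s1
    rw [e0, D3a_pair_smul, Complex.re_ofReal_mul]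
    have hNc : (((h * s : ℕ)) : ℝ) = (h : ℝ) * s := by push_cast; ring
    rw [hNc] at hN
    have hlog2 : Real.log (1 + 8 * δ * lam2 ^ 2 / 1) ≤ 1 + Real.log (1 + lam2 ^ 2) := by
      have l1 : (1 : ℝ) + 8 * δ * lam2 ^ 2 / 1 ≤ 2 * (1 + lam2 ^ 2) := by
        have : 8 * δ * lam2 ^ 2 ≤ 2 * lam2 ^ 2 := by
          apply mul_le_mul_of_nonneg_right _ (sq_nonneg _)
          linarith
        linarith
      have l2 : Real.log (1 + 8 * δ * lam2 ^ 2 / 1) ≤ Real.log (2 * (1 + lam2 ^ 2)) :=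
        Real.log_le_log (by positivity) l1
      rw [Real.log_mul two_ne_zero (by positivity)] at l2
      have l3 := Real.log_two_lt_d9
      linarith
    have hmain : 1 + (Kb * (1 + Real.log (1 + 8 * δ * lam2 ^ 2 / 1)) + 8 * δ * lam2 ^ 2 / 1) /
        ((h : ℝ) * s) ≤
        2 * (1 + (Kb * (1 + Real.log (1 + lam2 ^ 2)) + lam2 ^ 2) / ((h : ℝ) * s)) := by
      have hhs : (0 : ℝ) < (h : ℝ) * s := by positivity
      have n1 : Kb * (1 + Real.log (1 + 8 * δ * lam2 ^ 2 / 1)) + 8 * δ * lam2 ^ 2 / 1 ≤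
          2 * (Kb * (1 + Real.log (1 + lam2 ^ 2)) + lam2 ^ 2) := by
        have n2 : Kb * (1 + Real.log (1 + 8 * δ * lam2 ^ 2 / 1)) ≤
            Kb * (2 * (1 + Real.log (1 + lam2 ^ 2))) :=
          mul_le_mul_of_nonneg_left (by linarith) hKb0
        have n3 : 8 * δ * lam2 ^ 2 ≤ 2 * lam2 ^ 2 := by
          apply mul_le_mul_of_nonneg_right _ (sq_nonneg _)
          linarith
        linarith
      have n4 : (Kb * (1 + Real.log (1 + 8 * δ * lam2 ^ 2 / 1)) + 8 * δ * lam2 ^ 2 / 1) /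
          ((h : ℝ) * s) ≤ 2 * (Kb * (1 + Real.log (1 + lam2 ^ 2)) + lam2 ^ 2) / ((h : ℝ) * s) :=
        div_le_div_of_nonneg_right n1 hhs.le
      have n5 : 2 * (Kb * (1 + Real.log (1 + lam2 ^ 2)) + lam2 ^ 2) / ((h : ℝ) * s) =
          2 * ((Kb * (1 + Real.log (1 + lam2 ^ 2)) + lam2 ^ 2) / ((h : ℝ) * s)) :=
        mul_div_assoc _ _ _
      rw [n5] at n4
      linarith
    calc A2 ^ 2 * (pair (PG (h * s)) (poin 1 true fun x v D => (∑ n ∈ F, a n * ex (n * x)) * Ψ1 v D)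
        (poin 1 true fun x v D => (∑ n ∈ F, a n * ex (n * x)) * Ψ1 v D)).re
        ≤ A2 ^ 2 * (C2 * (δ * lam2 ^ 2 * 1) * (1 + (Kb * (1 + Real.log (1 + 8 * δ * lam2 ^ 2 / 1)) +
          8 * δ * lam2 ^ 2 / 1) / ((h : ℝ) * s)) * ∑ n ∈ F, ‖a n‖ ^ 2) :=
          mul_le_mul_of_nonneg_left hN (by positivity)
      _ ≤ A2 ^ 2 * (C2 * (δ * lam2 ^ 2 * 1) * (2 * (1 + (Kb * (1 + Real.log (1 + lam2 ^ 2)) +
          lam2 ^ 2) / ((h : ℝ) * s))) * ∑ n ∈ F, ‖a n‖ ^ 2) := by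
          apply mul_le_mul_of_nonneg_left _ (by positivity)
          apply mul_le_mul_of_nonneg_right _ hsum
          exact mul_le_mul_of_nonneg_left hmain (by positivity)
      _ = C2 * 2 * A2 ^ 2 *
          (δ * lam2 ^ 2 * (1 + (Kb * (1 + Real.log (1 + lam2 ^ 2)) + lam2 ^ 2) / (h * s))) *
          ∑ n ∈ F, ‖a n‖ ^ 2 := by ring
  refine hcs.trans ?_
  calc _ ≤ (C1 * A1 ^ 2 * (h * δ * lam1 ^ 2 * (1 + WW (h * s) (8 * δ * (h * lam1 ^ 2))))) *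
        (C2 * 2 * A2 ^ 2 *
      (δ * lam2 ^ 2 * (1 + (Kb * (1 + Real.log (1 + lam2 ^ 2)) + lam2 ^ 2) / (h * s))) *
      ∑ n ∈ F, ‖a n‖ ^ 2) := mul_le_mul hf1 hf2 hp2 (by positivity)
    _ = _ := by ring

end SG

end
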