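import Pool.Agent.Lib.MP_39df77_nt.Part11
import Pool.Agent.Lib.MP_39df77_nt.Part15
import Pool.Agent.Lib.MP_39df77_nt.Part17
import Pool.Agent.Lib.MP_39df77_nt.Part21

section

namespace SG
open Complex MeasureTheory Filter Topology Set
open scoped Real ComplexConjugate

lemma D3_exp {δ w : ℝ} (hδ : 0 < δ) (hδ1 : δ ≤ 1 / 4) (hδw : δ ^ 2 * w ≤ 1) (hw : 0 ≤ w) :
    (1 - δ ^ 2) ^ (-w) * Real.exp (4 * π * (2 * δ) / (1 - δ ^ 2)) ≤
      Real.exp (16 / 15) * Real.exp (32 * π / 15) := by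
  have h1 : δ ^ 2 ≤ 1 / 16 := by nlinarith only [hδ1, hδ]
  have h2 : 15 / 16 ≤ 1 - δ ^ 2 := by linarith only [h1]
  have h3 : 0 < 1 - δ ^ 2 := by linarith only [hδ, hδ1, h1]
  apply mul_le_mul _ _ (Real.exp_pos _).le (Real.exp_pos _).le
  · rw [Real.rpow_def_of_pos h3]
    apply Real.exp_le_exp.2
    have h4 := Real.one_sub_inv_le_log_of_pos h3
    have h5 : 1 - (1 - δ ^ 2)⁻¹ = -(δ ^ 2 / (1 - δ ^ 2)) := by field_simp; ring
    have h6 : δ ^ 2 / (1 - δ ^ 2) ≤ 16 / 15 * δ ^ 2 := by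
      rw [div_le_iff₀ h3]
      nlinarith only [sq_nonneg δ, h1]
    have h7 : -Real.log (1 - δ ^ 2) ≤ 16 / 15 * δ ^ 2 := by linarith only [h4, h5, h6]
    calc Real.log (1 - δ ^ 2) * -w = (-Real.log (1 - δ ^ 2)) * w := by ring
      _ ≤ (16 / 15 * δ ^ 2) * w := mul_le_mul_of_nonneg_right h7 hw
      _ = 16 / 15 * (δ ^ 2 * w) := by ring
      _ ≤ 16 / 15 := by linarith only [hδw]
  · apply Real.exp_le_exp.2
    rw [div_le_iff₀ h3]
    have hpi := Real.pi_pos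
    have h8 : 4 * π * (2 * δ) ≤ 2 * π := by nlinarith only [hδ1, hpi]
    have h9 : 2 * π ≤ 32 * π / 15 * (15 / 16) := by linarith only []
    have h10 : 32 * π / 15 * (15 / 16) ≤ 32 * π / 15 * (1 - δ ^ 2) :=
      mul_le_mul_of_nonneg_left h2 (by (clear * -; positivity))
    linarith only [h8, h10]

/-- **D3. Main inequality.** `expand_pair`, `pair_bound` with `A₁ = 16 lam1^{-σ} 2^{j+l} δ^{i+l}`,
`A₂ = 4 lam2^{-σ} lam2^{-2l} δ^{i+j}`, coefficients `conj(a_n) n^l`, `∑ |a_n n^l|² ≤ Kb^{2l} ∑|a|²`, `Kb ≤ lam2²`; hence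
`‖pair_t‖ ≤ 64 √C (lam1 lam2)^{-σ} δ^{2i} (2δ)^{j+l} √(..)`, and `∑_t |c_t| (δ²)^i (2δ)^{j+l} ≤ (1-δ²)^{-|z|} e^{8πδ/(1-δ²)} ≤ C'`
by `sep_bound` (`δ²|z| ≤ 1`, `δ ≤ 1/4`). -/
theorem star : ∃ C : ℝ, 0 < C ∧ ∀ h s : ℕ, 0 < h → 0 < s → Nat.Coprime h s →
    ∀ lam1 lam2 δ Kb : ℝ, 0 < lam1 → 0 < lam2 → 0 < δ → δ ≤ 1 / 4 → 1 ≤ Kb → Kb ≤ lam2 ^ 2 →
    1 ≤ h * lam1 ^ 2 → ∀ F : Finset ℤ, (∀ n ∈ F, |(n : ℝ)| ≤ Kb) → ∀ (a : ℤ → ℂ) (z : ℂ),
    |z.re| ≤ 2 → δ ^ 2 * ‖z‖ ≤ 1 →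
    ‖∑ n ∈ F, a n * ∑' c : ℕ, (if 0 < c ∧ s ∣ c ∧ Nat.Coprime c h then
      Kl c h n * (c : ℂ) ^ (-2 - z) * Vol lam1 lam2 δ c else 0)‖ ^ 2 ≤
    C * (lam1 * lam2) ^ (-2 * z.re) * (h * δ * lam1 ^ 2 * (1 + WW (h * s) (8 * δ * (h * lam1 ^ 2)))) *
      (δ * lam2 ^ 2 * (1 + (Kb * (1 + Real.log (1 + lam2 ^ 2)) + lam2 ^ 2) / (h * s))) *
      ∑ n ∈ F, ‖a n‖ ^ 2 := by
  obtain ⟨C, hC, hpb⟩ := pair_bound
  set M : ℝ := Real.exp (16 / 15) * Real.exp (32 * π / 15) with hM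
  have hM0 : 0 < M := by positivity
  refine ⟨(64 * M) ^ 2 * C, by (clear * - hC; positivity), ?_⟩
  intro h s hh hs hco lam1 lam2 δ Kb h1 h2 hδ hδ1 hK1 hK2 hh1 F hF a z hz hδz
  set X : ℝ := h * δ * lam1 ^ 2 * (1 + WW (h * s) (8 * δ * (h * lam1 ^ 2))) with hXdef
  set Y : ℝ := δ * lam2 ^ 2 * (1 + (Kb * (1 + Real.log (1 + lam2 ^ 2)) + lam2 ^ 2) / (h * s)) with hYdef
  set S : ℝ := ∑ n ∈ F, ‖a n‖ ^ 2 with hSdef
  have hX : 0 ≤ X := by
    have : 0 ≤ WW (h * s) (8 * δ * (h * lam1 ^ 2)) :=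
      Finset.sum_nonneg fun c _ => div_nonneg (norm_nonneg _) (Nat.cast_nonneg _)
    (clear * - hh h1 hδ this; positivity)
  have hY : 0 ≤ Y := by
    have : 0 ≤ Real.log (1 + lam2 ^ 2) := Real.log_nonneg (by linarith only [sq_nonneg lam2])
    (clear * - hh hs h2 hδ hK1 this; positivity)
  have hS : 0 ≤ S := Finset.sum_nonneg fun n _ => by (clear * -; positivity)
  set R : ℝ := C * X * Y * S with hR
  have hR0 : 0 ≤ R := by (clear * - hC hX hY; positivity)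
  set L : ℝ := lam1 ^ (-z.re) * lam2 ^ (-z.re) with hL
  have hL0 : 0 < L := by (clear * - h1 h2; positivity)
  -- the bound of one pair
  have hpair : ∀ t : ℕ × ℕ × ℕ, ‖pair (PW h s)
        (poin h false fun x v D => ex x * PhiT h lam1 δ z t v D)
        (poin 1 true fun x v D => (∑ n ∈ F, (conj (a n) * (n : ℂ) ^ t.2.2) * ex (n * x)) *
          PsiT lam2 δ z t v D)‖ ≤
      (64 * L * √R) * ((δ ^ 2) ^ t.1 * (2 * δ) ^ t.2.1 * (2 * δ) ^ t.2.2) := by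
    intro t
    obtain ⟨mΦ, bΦ, sΦ⟩ := PhiT_props (h := h) h1 hδ hδ1 hh1 hz t
    obtain ⟨mΨ, bΨ, sΨ⟩ := PsiT_props h2 hδ hδ1 hz t
    have hp := hpb h s hh hs hco lam1 lam2 δ Kb h1 h2 hδ hδ1 hK1 F hF
      (fun n => conj (a n) * (n : ℂ) ^ t.2.2) _ _ (by (clear * - h1 hδ; positivity)) (by (clear * - h2 hδ; positivity))
      (PhiT h lam1 δ z t) (PsiT lam2 δ z t) mΦ mΨ bΦ bΨ sΦ sΨ
    have hsum : ∑ n ∈ F, ‖conj (a n) * (n : ℂ) ^ t.2.2‖ ^ 2 ≤ ((lam2 ^ 2) ^ t.2.2) ^ 2 * S := by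
      rw [hSdef, Finset.mul_sum]
      refine Finset.sum_le_sum fun n hn => ?_
      rw [norm_mul, norm_pow, RCLike.norm_conj, Complex.norm_intCast, mul_pow, mul_comm]
      have h3 : |(n : ℝ)| ≤ lam2 ^ 2 := (hF n hn).trans hK2
      (clear * - h3; gcongr)
    have hle : ‖pair (PW h s)
        (poin h false fun x v D => ex x * PhiT h lam1 δ z t v D)
        (poin 1 true fun x v D => (∑ n ∈ F, (conj (a n) * (n : ℂ) ^ t.2.2) * ex (n * x)) *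
          PsiT lam2 δ z t v D)‖ ^ 2 ≤
        ((64 * L * √R) * ((δ ^ 2) ^ t.1 * (2 * δ) ^ t.2.1 * (2 * δ) ^ t.2.2)) ^ 2 := by
      refine hp.trans ?_
      have hnn : 0 ≤ C * ((16 * lam1 ^ (-z.re) * 2 ^ (t.2.1 + t.2.2) * δ ^ (t.1 + t.2.2)) ^ 2 *
          (4 * lam2 ^ (-z.re) * ((lam2 ^ 2) ^ t.2.2)⁻¹ * δ ^ (t.1 + t.2.1)) ^ 2) * X * Y := by
        (clear * - hC h1 h2 hδ hX hY; positivity)
      refine (mul_le_mul_of_nonneg_left hsum hnn).trans (le_of_eq ?_)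
      rw [mul_pow (64 * L * √R), mul_pow (64 * L), Real.sq_sqrt hR0, hR, hL]
      have e1 : ((lam2 ^ 2) ^ t.2.2)⁻¹ * (lam2 ^ 2) ^ t.2.2 = 1 :=
        inv_mul_cancel₀ (by (clear * - h2; positivity))
      have e2 : (((lam2 ^ 2) ^ t.2.2)⁻¹) ^ 2 * ((lam2 ^ 2) ^ t.2.2) ^ 2 = 1 := by
        rw [← mul_pow, e1, one_pow]
      calc C * ((16 * lam1 ^ (-z.re) * 2 ^ (t.2.1 + t.2.2) * δ ^ (t.1 + t.2.2)) ^ 2 *
            (4 * lam2 ^ (-z.re) * ((lam2 ^ 2) ^ t.2.2)⁻¹ * δ ^ (t.1 + t.2.1)) ^ 2) * X * Y *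
            (((lam2 ^ 2) ^ t.2.2) ^ 2 * S)
          = ((((lam2 ^ 2) ^ t.2.2)⁻¹) ^ 2 * ((lam2 ^ 2) ^ t.2.2) ^ 2) *
            ((64 * (lam1 ^ (-z.re) * lam2 ^ (-z.re))) ^ 2 * (C * X * Y * S) *
            (δ ^ (t.1 + t.2.2) * δ ^ (t.1 + t.2.1) * 2 ^ (t.2.1 + t.2.2)) ^ 2) := by ring
        _ = _ := by
            rw [e2, one_mul]
            congr 2
            rw [pow_add, pow_add, pow_add, mul_pow, mul_pow, ← pow_mul]
            ring
    exact le_of_sq_le_sq hle (by (clear * - h1 h2 hδ; positivity))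
  -- summation
  have hexp := expand_pair (h := h) (s := s) hh hs hco h1 h2 hδ hδ1 F a z
  obtain ⟨hsb1, hsb2⟩ := sep_bound z (x := δ ^ 2) (y := 2 * δ) (by (clear * - hδ; positivity)) (by nlinarith only [hδ, hδ1])
    (by (clear * - hδ; positivity))
  have hsb3 := hsb2.trans (D3_exp hδ hδ1 hδz (norm_nonneg z))
  have hV : ‖∑ n ∈ F, a n * ∑' c : ℕ, (if 0 < c ∧ s ∣ c ∧ Nat.Coprime c h then
      Kl c h n * (c : ℂ) ^ (-2 - z) * Vol lam1 lam2 δ c else 0)‖ ≤ (64 * L * √R) * M := by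
    rw [← hexp.tsum_eq]
    have hb := tsum_of_norm_bounded (hsb1.mul_left (64 * L * √R)).hasSum
      (f := fun t : ℕ × ℕ × ℕ => cijl z t * pair (PW h s)
        (poin h false fun x v D => ex x * PhiT h lam1 δ z t v D)
        (poin 1 true fun x v D => (∑ n ∈ F, (conj (a n) * (n : ℂ) ^ t.2.2) * ex (n * x)) *
          PsiT lam2 δ z t v D)) (fun t => by
        rw [norm_mul]
        refine (mul_le_mul_of_nonneg_left (hpair t) (norm_nonneg _)).trans (le_of_eq ?_)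
        ring)
    refine hb.trans ?_
    rw [tsum_mul_left]
    exact mul_le_mul_of_nonneg_left hsb3 (by (clear * - h1 h2; positivity))
  calc ‖∑ n ∈ F, a n * ∑' c : ℕ, (if 0 < c ∧ s ∣ c ∧ Nat.Coprime c h then
      Kl c h n * (c : ℂ) ^ (-2 - z) * Vol lam1 lam2 δ c else 0)‖ ^ 2
      ≤ ((64 * L * √R) * M) ^ 2 := by (clear * - hV; gcongr)
    _ = (64 * M) ^ 2 * C * L ^ 2 * X * Y * S := by
        rw [mul_pow, mul_pow, Real.sq_sqrt hR0, hR]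
        ring
    _ = _ := by
        congr 3
        congr 1
        rw [hL, ← Real.mul_rpow h1.le h2.le, ← Real.rpow_natCast, ← Real.rpow_mul (by (clear * - h1 h2; positivity))]
        congr 1
        push_cast
        ring

end SG

end

section

namespace SG
open Complex MeasureTheory Filter Topology Set
open scoped Real ComplexConjugate

private theorem E3a_WW_nonneg (N : ℕ) (R : ℝ) : 0 ≤ WW N R := by
  unfold WW
  exact Finset.sum_nonneg fun c _ => by (clear * -; positivity)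

private theorem E3a_WW_mono (N : ℕ) {R R' : ℝ} (h : R ≤ R') : WW N R ≤ WW N R' := by
  unfold WW
  apply Finset.sum_le_sum_of_subset_of_nonneg
  · intro c hc
    rw [Finset.mem_filter, Finset.mem_Icc] at hc ⊢
    exact ⟨⟨hc.1.1, hc.1.2.trans (Nat.floor_le_floor h)⟩, hc.2⟩
  · intro c _ _
    (clear * -; positivity)

private theorem E3a_summand {lam1 lam2 r δ : ℝ} (h1 : 0 < lam1) (h2 : 0 < lam2) (hδ : 0 < δ)
    (hr : lam1 * lam2 = r) (z : ℂ) {c : ℕ} (hc : 0 < c) (K : ℂ) :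
    K * (c : ℂ) ^ (-2 - z) * (Vol lam1 lam2 δ c : ℂ) =
      (δ : ℂ) ^ 2 * (K * (Wf δ (c / r) : ℂ) * (c : ℂ) ^ (-z)) := by
  have hc' : (0 : ℝ) < c := by exact_mod_cast hc
  have hcc : (c : ℂ) ≠ 0 := by exact_mod_cast hc.ne'
  have hr0 : 0 < r := by rw [← hr]; (clear * - h1 h2; positivity)
  have hrc : (r : ℂ) ≠ 0 := by exact_mod_cast hr0.ne'
  have hδc : (δ : ℂ) ≠ 0 := by exact_mod_cast hδ.ne'
  have e1 : (c : ℂ) ^ (-2 - z) = (c : ℂ) ^ (-z) * ((c : ℂ) ^ 2)⁻¹ := by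
    have : (-2 - z : ℂ) = -z + -2 := by ring
    rw [this, Complex.cpow_add _ _ hcc, Complex.cpow_neg, Complex.cpow_neg, Complex.cpow_ofNat]
  rw [e1, Vol_scale h1 h2 hδ hc', hr]
  unfold Wf
  push_cast
  field_simp

/-- **E3a. One window.** `star` with `lam2² = min (max Kb (h s)) (h r²)`, `lam1 = r/lam2`; then `Kb ≤ lam2²`,
`h lam1² = max (h r²/max Kb (h s)) 1 ≥ 1`, `c⁻² Vol lam1 lam2 δ c = δ² Wf δ (c/r)` (E1). So the left side is
`δ⁻² ·` (left side of `star`)`≤ δ⁻² √C r^{-σ} √(h δ lam1² · δ lam2²) √(..)`, `√(h δ² lam1² lam2²) = δ √h r`. Further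
`8δ h lam1² ≤ 8δ max (h r²/Kb) 1` (`WW` is monotone in `R`) and
`(Kb (1 + log(1+lam2²)) + lam2²)/(hs) ≤ 2 (1 + log(1 + Kb + hs)) (1 + Kb/(hs))`. -/
theorem window_sum : ∃ C : ℝ, 0 < C ∧ ∀ h s : ℕ, 0 < h → 0 < s → Nat.Coprime h s →
    ∀ r δ Kb : ℝ, 0 < r → 0 < δ → δ ≤ 1 / 4 → 1 ≤ Kb → Kb ≤ h * r ^ 2 →
    ∀ F : Finset ℤ, (∀ n ∈ F, |(n : ℝ)| ≤ Kb) → ∀ (a : ℤ → ℂ) (z : ℂ), |z.re| ≤ 2 → δ ^ 2 * ‖z‖ ≤ 1 →
    ‖∑ n ∈ F, a n * ∑' c : ℕ, (if 0 < c ∧ s ∣ c ∧ Nat.Coprime c h then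
      Kl c h n * (Wf δ (c / r) : ℂ) * (c : ℂ) ^ (-z) else 0)‖ ≤
    C * δ⁻¹ * √h * r ^ (1 - z.re) * √((1 + Real.log (1 + Kb + h * s)) * ((1 + Kb / (h * s)) *
      (1 + WW (h * s) (8 * δ * max (h * r ^ 2 / Kb) 1)))) * √(∑ n ∈ F, ‖a n‖ ^ 2) := by
  obtain ⟨C0, hC0, H⟩ := star
  refine ⟨√(2 * C0), by (clear * - hC0; positivity), ?_⟩
  intro h s hh hs hco r δ Kb hr hδ hδ4 hKb hKr F hF a z hz1 hz2
  have hh' : (0 : ℝ) < h := by exact_mod_cast hh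
  have hs' : (0 : ℝ) < s := by exact_mod_cast hs
  have hhs : (0 : ℝ) < (h : ℝ) * s := by (clear * - hh hs; positivity)
  have hKb0 : 0 < Kb := by linarith only [hδ, hδ4, hKb]
  set M : ℝ := max Kb ((h : ℝ) * s) with hM
  set L2 : ℝ := min M ((h : ℝ) * r ^ 2) with hL2
  have hMpos : 0 < M := lt_of_lt_of_le hKb0 (le_max_left _ _)
  have hhr : 0 < (h : ℝ) * r ^ 2 := by (clear * - hh hr; positivity)
  have hL2pos : 0 < L2 := lt_min hMpos hhr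
  set lam2 : ℝ := √L2 with hlam2
  have hlam2pos : 0 < lam2 := Real.sqrt_pos.mpr hL2pos
  have hlam2sq : lam2 ^ 2 = L2 := Real.sq_sqrt hL2pos.le
  set lam1 : ℝ := r / lam2 with hlam1
  have hlam1pos : 0 < lam1 := div_pos hr hlam2pos
  have hprod : lam1 * lam2 = r := by rw [hlam1]; field_simp
  have hlam1sq : lam1 ^ 2 = r ^ 2 / L2 := by rw [hlam1, div_pow, hlam2sq]
  have hKL : Kb ≤ lam2 ^ 2 := by
    rw [hlam2sq]
    exact le_min (le_max_left _ _) hKr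
  have hl1 : 1 ≤ (h : ℝ) * lam1 ^ 2 := by
    rw [hlam1sq, ← mul_div_assoc, le_div_iff₀ hL2pos, one_mul]
    exact min_le_right _ _
  have hl1' : (h : ℝ) * lam1 ^ 2 ≤ max ((h : ℝ) * r ^ 2 / Kb) 1 := by
    rw [hlam1sq, ← mul_div_assoc]
    rcases min_choice M ((h : ℝ) * r ^ 2) with h0 | h0
    · rw [← hL2] at h0
      rw [h0]
      exact (div_le_div_of_nonneg_left hhr.le hKb0 (le_max_left _ _)).trans (le_max_left _ _)
    · rw [← hL2] at h0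
      rw [h0, div_self hhr.ne']
      exact le_max_right _ _
  have hstar := H h s hh hs hco lam1 lam2 δ Kb hlam1pos hlam2pos hδ hδ4 hKb hKL hl1 F hF a z hz1 hz2
  set S : ℂ := ∑ n ∈ F, a n * ∑' c : ℕ, (if 0 < c ∧ s ∣ c ∧ Nat.Coprime c h then
      Kl c h n * (Wf δ (c / r) : ℂ) * (c : ℂ) ^ (-z) else 0) with hS
  have hSeq : (∑ n ∈ F, a n * ∑' c : ℕ, (if 0 < c ∧ s ∣ c ∧ Nat.Coprime c h then
      Kl c h n * (c : ℂ) ^ (-2 - z) * Vol lam1 lam2 δ c else 0)) = (δ : ℂ) ^ 2 * S := by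
    rw [hS, Finset.mul_sum]
    refine Finset.sum_congr rfl fun n _ => ?_
    rw [mul_left_comm ((δ : ℂ) ^ 2)]
    congr 1
    rw [← tsum_mul_left]
    congr 1
    funext c
    split_ifs with hc
    · exact E3a_summand hlam1pos hlam2pos hδ hprod z hc.1 _
    · simp
  rw [hSeq, norm_mul, norm_pow, Complex.norm_real, Real.norm_eq_abs, abs_of_pos hδ, hprod] at hstar
  set Sa : ℝ := ∑ n ∈ F, ‖a n‖ ^ 2 with hSa
  have hSa0 : 0 ≤ Sa := Finset.sum_nonneg fun n _ => by (clear * -; positivity)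
  set W0 : ℝ := WW (h * s) (8 * δ * max (h * r ^ 2 / Kb) 1) with hW0
  have hW0nn : 0 ≤ W0 := E3a_WW_nonneg _ _
  have hWle : WW (h * s) (8 * δ * (h * lam1 ^ 2)) ≤ W0 :=
    E3a_WW_mono _ (mul_le_mul_of_nonneg_left hl1' (by (clear * - hδ; positivity)))
  set ℓ : ℝ := Real.log (1 + Kb + h * s) with hℓ
  have hℓ0 : 0 ≤ ℓ := Real.log_nonneg (by linarith only [hδ, hδ4, hKb, hhs])
  set κ : ℝ := Kb / (h * s) with hκ
  have hκ0 : 0 ≤ κ := by (clear * - hh hs hKb; positivity)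
  have hL2le : L2 ≤ Kb + h * s := by
    refine (min_le_left _ _).trans ?_
    exact max_le (by linarith only [hhs]) (by linarith only [hδ, hδ4, hKb])
  have hlogle : Real.log (1 + lam2 ^ 2) ≤ ℓ := by
    rw [hlam2sq, hℓ]
    exact Real.log_le_log (by linarith only [hδ, hδ4, hL2pos]) (by linarith only [hL2le])
  have hlog0 : 0 ≤ Real.log (1 + lam2 ^ 2) := Real.log_nonneg (by linarith only [sq_nonneg lam2])
  have hQ : 1 + (Kb * (1 + Real.log (1 + lam2 ^ 2)) + lam2 ^ 2) / (h * s) ≤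
      2 * ((1 + ℓ) * (1 + κ)) := by
    have q1 : Kb * (1 + Real.log (1 + lam2 ^ 2)) + lam2 ^ 2 ≤ Kb * (2 + ℓ) + h * s := by
      have : Kb * (1 + Real.log (1 + lam2 ^ 2)) ≤ Kb * (1 + ℓ) :=
        mul_le_mul_of_nonneg_left (by linarith only [hlogle]) hKb0.le
      rw [hlam2sq] at this ⊢
      linarith only [hL2le, this]
    have q2 : (Kb * (1 + Real.log (1 + lam2 ^ 2)) + lam2 ^ 2) / ((h : ℝ) * s) ≤
        (Kb * (2 + ℓ) + h * s) / ((h : ℝ) * s) := div_le_div_of_nonneg_right q1 hhs.le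
    have q3 : (Kb * (2 + ℓ) + h * s) / ((h : ℝ) * s) = κ * (2 + ℓ) + 1 := by
      rw [hκ]; field_simp
    have : 0 ≤ κ * ℓ := by (clear * - hh hs hKb hℓ0; positivity)
    linarith only [hℓ0, q2, q3, this]
  -- final estimate
  have hfin : (δ ^ 2 * ‖S‖) ^ 2 ≤ C0 * r ^ (-2 * z.re) * (δ ^ 2 * (h * r ^ 2)) *
      ((1 + W0) * (2 * ((1 + ℓ) * (1 + κ)))) * Sa := by
    refine hstar.trans ?_
    have e1 : C0 * r ^ (-2 * z.re) * (h * δ * lam1 ^ 2 * (1 + WW (h * s) (8 * δ * (h * lam1 ^ 2)))) *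
      (δ * lam2 ^ 2 * (1 + (Kb * (1 + Real.log (1 + lam2 ^ 2)) + lam2 ^ 2) / (h * s))) * Sa =
      C0 * r ^ (-2 * z.re) * (δ ^ 2 * (h * (lam1 * lam2) ^ 2)) *
      ((1 + WW (h * s) (8 * δ * (h * lam1 ^ 2))) *
        (1 + (Kb * (1 + Real.log (1 + lam2 ^ 2)) + lam2 ^ 2) / (h * s))) * Sa := by ring
    rw [e1, hprod]
    apply mul_le_mul_of_nonneg_right _ hSa0
    apply mul_le_mul_of_nonneg_left _ (by (clear * - hC0 hh hr hδ; positivity))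
    apply mul_le_mul (by linarith only [hWle]) hQ _ (by linarith only [hδ, hδ4, hW0nn])
    (clear * - hh hs hr hKb hlog0; positivity)
  have hrpos : 0 < r ^ (-2 * z.re) := Real.rpow_pos_of_pos hr _
  have hrr : r ^ (-2 * z.re) * r ^ 2 = (r ^ (1 - z.re)) ^ 2 := by
    rw [← Real.rpow_natCast r 2, ← Real.rpow_natCast (r ^ (1 - z.re)) 2, ← Real.rpow_mul hr.le,
      ← Real.rpow_add hr]
    congr 1
    push_cast
    ring
  have hRnn : 0 ≤ √(2 * C0) * δ⁻¹ * √h * r ^ (1 - z.re) * √((1 + ℓ) * ((1 + κ) * (1 + W0))) * √Sa := by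
    (clear * - hC0 hh hs hr hδ hKb hW0nn hℓ0; positivity)
  rw [← pow_le_pow_iff_left₀ (norm_nonneg S) hRnn two_ne_zero]
  have hsq : (√(2 * C0) * δ⁻¹ * √h * r ^ (1 - z.re) * √((1 + ℓ) * ((1 + κ) * (1 + W0))) * √Sa) ^ 2 =
      2 * C0 * (δ⁻¹) ^ 2 * h * (r ^ (1 - z.re)) ^ 2 * ((1 + ℓ) * ((1 + κ) * (1 + W0))) * Sa := by
    have s1 : √(2 * C0) ^ 2 = 2 * C0 := Real.sq_sqrt (by positivity)
    have s2 : √(h : ℝ) ^ 2 = h := Real.sq_sqrt hh'.le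
    have s3 : √((1 + ℓ) * ((1 + κ) * (1 + W0))) ^ 2 = (1 + ℓ) * ((1 + κ) * (1 + W0)) :=
      Real.sq_sqrt (by (clear * - hh hs hKb hW0nn hℓ0; positivity))
    have s4 : √Sa ^ 2 = Sa := Real.sq_sqrt hSa0
    simp only [mul_pow]
    rw [s1, s2, s3, s4]
  rw [hsq, ← hrr]
  have hδ4' : 0 < δ ^ 4 := by positivity
  have e2 : (δ ^ 2 * ‖S‖) ^ 2 = δ ^ 4 * ‖S‖ ^ 2 := by ring
  rw [e2] at hfin
  have e3 : C0 * r ^ (-2 * z.re) * (δ ^ 2 * (h * r ^ 2)) *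
      ((1 + W0) * (2 * ((1 + ℓ) * (1 + κ)))) * Sa = δ ^ 4 * (2 * C0 * (δ⁻¹) ^ 2 * h *
      (r ^ (-2 * z.re) * r ^ 2) * ((1 + ℓ) * ((1 + κ) * (1 + W0))) * Sa) := by
    field_simp
  rw [e3] at hfin
  exact le_of_mul_le_mul_left hfin hδ4'

end SG

end

section

namespace SG
open Complex MeasureTheory Filter Topology Set
open scoped Real ComplexConjugate

theorem E3_WW_mono (N : ℕ) {R R' : ℝ} (h : R ≤ R') : WW N R ≤ WW N R' := by
  unfold WW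
  refine Finset.sum_le_sum_of_subset_of_nonneg ?_ fun c _ _ => by (clear * -; positivity)
  intro c hc
  simp only [Finset.mem_filter, Finset.mem_Icc] at hc ⊢
  exact ⟨⟨hc.1.1, hc.1.2.trans (Nat.floor_le_floor h)⟩, hc.2⟩

theorem E3_WW_nonneg (N : ℕ) (R : ℝ) : 0 ≤ WW N R := by
  unfold WW
  (clear * -; positivity)

theorem E3_norm_ex (x : ℝ) : ‖ex x‖ = 1 := by
  unfold ex
  have : (2 * π * I * x : ℂ) = ((2 * π * x : ℝ) : ℂ) * I := by push_cast; ring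
  rw [this, Complex.norm_exp_ofReal_mul_I]

theorem E3_Kl_le (c : ℕ) (h k : ℤ) : ‖Kl c h k‖ ≤ c := by
  unfold Kl
  refine (norm_sum_le _ _).trans ?_
  rw [Finset.sum_congr rfl fun d _ => E3_norm_ex _, Finset.sum_const, nsmul_eq_mul, mul_one]
  have h1 : ((Finset.range c).filter (fun d => Nat.Coprime d c)).card ≤ c :=
    (Finset.card_filter_le _ _).trans (by rw [Finset.card_range])
  exact_mod_cast h1

theorem E3_swap {ι : Type*} (S : Finset ι) (b G : ι → ℂ) (w : ι → ℝ → ℝ)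
    {p q κ Bd : ℝ} (hp : 0 < p) (hpq : p ≤ q) (hκ : 0 < κ)
    (hw : ∀ i ∈ S, IntegrableOn (w i) (Icc p q))
    (hv : ∀ i ∈ S, G i ≠ 0 → ∫ r in Icc p q, w i r = κ)
    (hb : ∀ r ∈ Icc p q, ‖∑ i ∈ S, (b i * (w i r : ℂ)) * G i‖ ≤ Bd * r⁻¹) :
    ‖∑ i ∈ S, b i * G i‖ ≤ κ⁻¹ * (Bd * Real.log (q / p)) := by
  have h1 : ∑ i ∈ S, b i * G i =
      (κ : ℂ)⁻¹ * ∫ r in Icc p q, ∑ i ∈ S, (b i * (w i r : ℂ)) * G i := by
    rw [integral_finsetSum, Finset.mul_sum]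
    · refine Finset.sum_congr rfl fun i hi => ?_
      have e1 : ∫ r in Icc p q, (b i * (w i r : ℂ)) * G i =
          b i * G i * ∫ r in Icc p q, (w i r : ℂ) := by
        rw [← integral_const_mul]
        congr 1
        funext r
        ring
      rw [e1]
      by_cases hG : G i = 0
      · rw [hG]
        ring
      · have e2 : ∫ r in Icc p q, (w i r : ℂ) = ((∫ r in Icc p q, w i r : ℝ) : ℂ) :=
          integral_ofReal
        rw [e2, hv i hi hG]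
        have : (κ : ℂ) ≠ 0 := by exact_mod_cast hκ.ne'
        field_simp
    · intro i hi
      have e1 := (hw i hi).ofReal (𝕜 := ℂ)
      have e2 := (e1.const_mul (b i)).mul_const (G i)
      exact e2
  have h2 : IntegrableOn (fun r : ℝ => Bd * r⁻¹) (Icc p q) := by
    apply ContinuousOn.integrableOn_compact isCompact_Icc
    apply ContinuousOn.mul continuousOn_const
    apply ContinuousOn.inv₀ continuousOn_id
    intro r hr
    exact (hp.trans_le hr.1).ne'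
  have h3 : ‖∫ r in Icc p q, ∑ i ∈ S, (b i * (w i r : ℂ)) * G i‖ ≤ ∫ r in Icc p q, Bd * r⁻¹ := by
    refine norm_integral_le_of_norm_le h2 ?_
    exact (ae_restrict_iff' measurableSet_Icc).2 (Eventually.of_forall hb)
  have h4 : ∫ r in Icc p q, Bd * r⁻¹ = Bd * Real.log (q / p) := by
    rw [integral_Icc_eq_integral_Ioc, ← intervalIntegral.integral_of_le hpq,
      intervalIntegral.integral_const_mul, integral_inv_of_pos hp (hp.trans_le hpq)]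
  rw [h1, norm_mul, norm_inv, Complex.norm_real, Real.norm_of_nonneg hκ.le]
  exact mul_le_mul_of_nonneg_left (h3.trans h4.le) (inv_pos.2 hκ).le

theorem E3_int2 : Integrable (fun ξ : ℝ => (1 + |ξ|) ^ (-(2 : ℝ))) := by
  have := integrable_one_add_norm (E := ℝ) (μ := volume) (r := 2) (by simp)
  simpa [Real.norm_eq_abs] using this

theorem E3_norm_cexp (ξ x : ℝ) : ‖cexp (I * ξ * x)‖ = 1 := by
  have : (I * ξ * x : ℂ) = ((ξ * x : ℝ) : ℂ) * I := by push_cast; ring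
  rw [this, Complex.norm_exp_ofReal_mul_I]

theorem E3_fixed {ι : Type*} (S : Finset ι) (b : ι → ℂ) (x : ι → ℝ) (gh : ℝ → ℂ)
    (hc : Continuous gh) (D2 Dk : ℝ) (k : ℕ)
    (h2 : ∀ ξ, ‖gh ξ‖ ≤ D2 * (1 + |ξ|) ^ (-((2 : ℕ) : ℝ)))
    (hk : ∀ ξ, ‖gh ξ‖ ≤ Dk * (1 + |ξ|) ^ (-((k + 2 : ℕ) : ℝ)))
    {Y B1 B2 : ℝ} (hY : 1 ≤ Y) (hB1 : 0 ≤ B1) (hB2 : 0 ≤ B2) (hD : 0 ≤ Dk)
    (hb1 : ∀ ξ : ℝ, |ξ| ≤ Y → ‖∑ i ∈ S, b i * cexp (I * ξ * x i)‖ ≤ B1)
    (hb2 : ∀ ξ : ℝ, ‖∑ i ∈ S, b i * cexp (I * ξ * x i)‖ ≤ B2) :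
    ‖∑ i ∈ S, b i * ∫ ξ : ℝ, gh ξ * cexp (I * ξ * x i)‖ ≤
      (B1 * D2 + B2 * Dk * Y ^ (-(k : ℝ))) * ∫ ξ : ℝ, (1 + |ξ|) ^ (-(2 : ℝ)) := by
  have hgh : Integrable gh := by
    refine (E3_int2.const_mul D2).mono' hc.aestronglyMeasurable (Eventually.of_forall fun ξ => ?_)
    have := h2 ξ
    exact_mod_cast this
  have hint : ∀ i ∈ S, Integrable (fun ξ : ℝ => b i * (gh ξ * cexp (I * ξ * x i))) := by
    intro i _
    apply Integrable.const_mul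
    refine hgh.mul_bdd (c := 1) ?_ ?_
    · apply Continuous.aestronglyMeasurable
      fun_prop
    · exact Eventually.of_forall fun ξ => (E3_norm_cexp ξ (x i)).le
  have h1 : ∑ i ∈ S, b i * ∫ ξ : ℝ, gh ξ * cexp (I * ξ * x i) =
      ∫ ξ : ℝ, gh ξ * ∑ i ∈ S, b i * cexp (I * ξ * x i) := by
    rw [Finset.sum_congr rfl fun i _ => (integral_const_mul (b i) _).symm,
      ← integral_finsetSum S hint]
    congr 1
    funext ξ
    rw [Finset.mul_sum]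
    refine Finset.sum_congr rfl fun i _ => ?_
    ring
  rw [h1, ← integral_const_mul]
  refine norm_integral_le_of_norm_le (E3_int2.const_mul _) (Eventually.of_forall fun ξ => ?_)
  rw [norm_mul]
  have hpos : 0 < 1 + |ξ| := by (clear * -; positivity)
  have h2' : ‖gh ξ‖ ≤ D2 * (1 + |ξ|) ^ (-(2 : ℝ)) := by exact_mod_cast h2 ξ
  have hY0 : 0 < Y := by linarith only [hY]
  have hYk : 0 ≤ Y ^ (-(k : ℝ)) := (Real.rpow_pos_of_pos hY0 _).le
  have hq : 0 ≤ (1 + |ξ|) ^ (-(2 : ℝ)) := (Real.rpow_pos_of_pos hpos _).le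
  rcases le_or_gt |ξ| Y with hξ | hξ
  · calc ‖gh ξ‖ * ‖∑ i ∈ S, b i * cexp (I * ξ * x i)‖
        ≤ (D2 * (1 + |ξ|) ^ (-(2 : ℝ))) * B1 :=
          mul_le_mul h2' (hb1 ξ hξ) (norm_nonneg _) ((norm_nonneg _).trans h2')
      _ ≤ (B1 * D2 + B2 * Dk * Y ^ (-(k : ℝ))) * (1 + |ξ|) ^ (-(2 : ℝ)) := by
          have : 0 ≤ B2 * Dk * Y ^ (-(k : ℝ)) * (1 + |ξ|) ^ (-(2 : ℝ)) := by (clear * - hY hB2 hD; positivity)
          linarith only [this]
  · have hk' : ‖gh ξ‖ ≤ Dk * (Y ^ (-(k : ℝ)) * (1 + |ξ|) ^ (-(2 : ℝ))) := by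
      refine (hk ξ).trans (mul_le_mul_of_nonneg_left ?_ hD)
      have e1 : (-((k + 2 : ℕ) : ℝ)) = -(k : ℝ) + -(2 : ℝ) := by push_cast; ring
      rw [e1, Real.rpow_add hpos]
      refine mul_le_mul_of_nonneg_right ?_ hq
      rw [Real.rpow_neg hpos.le, Real.rpow_neg hY0.le]
      apply inv_anti₀ (Real.rpow_pos_of_pos hY0 _)
      exact Real.rpow_le_rpow hY0.le (by linarith only [hξ]) (Nat.cast_nonneg k)
    have hD2 : 0 ≤ D2 * (1 + |ξ|) ^ (-(2 : ℝ)) := (norm_nonneg _).trans h2'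
    calc ‖gh ξ‖ * ‖∑ i ∈ S, b i * cexp (I * ξ * x i)‖
        ≤ (Dk * (Y ^ (-(k : ℝ)) * (1 + |ξ|) ^ (-(2 : ℝ)))) * B2 :=
          mul_le_mul hk' (hb2 ξ) (norm_nonneg _) (by (clear * - hY hD; positivity))
      _ ≤ (B1 * D2 + B2 * Dk * Y ^ (-(k : ℝ))) * (1 + |ξ|) ^ (-(2 : ℝ)) := by
          have : 0 ≤ B1 * (D2 * (1 + |ξ|) ^ (-(2 : ℝ))) := by (clear * - hB1 hD2; positivity)
          linarith only [this]

theorem E3_supp {g : ℝ → ℝ} {α1 α2 A T : ℝ} (hT : 1 < T) (hA : 0 < A)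
    (hg : ∀ x, g x ≠ 0 → α1 ≤ x ∧ x ≤ α2)
    {c : ℕ} (hc : 0 < c) (h : g (Real.log (A * c) / Real.log T) ≠ 0) :
    T ^ α1 / A ≤ c ∧ (c : ℝ) ≤ T ^ α2 / A := by
  obtain ⟨h1, h2⟩ := hg _ h
  have hL : 0 < Real.log T := Real.log_pos hT
  have hc' : (0 : ℝ) < c := by exact_mod_cast hc
  have hAc : 0 < A * c := by (clear * - hA hc; positivity)
  have hT0 : 0 < T := by linarith only [hT]
  rw [le_div_iff₀ hL] at h1
  rw [div_le_iff₀ hL] at h2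
  have e1 : T ^ α1 ≤ A * c := by
    rw [Real.rpow_def_of_pos hT0, mul_comm]
    calc Real.exp (α1 * Real.log T) ≤ Real.exp (Real.log (A * c)) := Real.exp_le_exp.2 h1
      _ = A * c := Real.exp_log hAc
  have e2 : A * c ≤ T ^ α2 := by
    rw [Real.rpow_def_of_pos hT0, mul_comm (Real.log T)]
    calc A * c = Real.exp (Real.log (A * c)) := (Real.exp_log hAc).symm
      _ ≤ Real.exp (α2 * Real.log T) := Real.exp_le_exp.2 h2
  rw [div_le_iff₀ hA, le_div_iff₀ hA]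
  constructor <;> linarith only [e1, e2]

/-- the window integral over `[Cm/5, 4 Cp]` -/
theorem E3_kappa {δ κ Cm Cp c : ℝ} (hsupp : ∀ x, 0 < x → Wf δ x ≠ 0 → 1 / 4 ≤ x ∧ x ≤ 5)
    (hκ : ∫ r in Ioi (0 : ℝ), Wf δ (c / r) / r = κ) (hCm : 0 < Cm) (hc : Cm ≤ c) (hc2 : c ≤ Cp) :
    ∫ r in Icc (Cm / 5) (4 * Cp), Wf δ (c / r) / r = κ := by
  rw [← hκ]
  symm
  apply setIntegral_eq_of_subset_of_forall_sdiff_eq_zero measurableSet_Ioi
  · intro r hr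
    exact lt_of_lt_of_le (by (clear * - hCm; positivity)) hr.1
  · intro r hr
    by_contra hne
    have hr0 : (0 : ℝ) < r := hr.1
    have hc0 : 0 < c := hCm.trans_le hc
    have hW : Wf δ (c / r) ≠ 0 := by
      intro h0
      rw [h0, zero_div] at hne
      exact hne rfl
    obtain ⟨h1, h2⟩ := hsupp _ (div_pos hc0 hr0) hW
    rw [le_div_iff₀ hr0] at h1
    rw [div_le_iff₀ hr0] at h2
    exact hr.2 ⟨by linarith only [hc, h2], by linarith only [hc2, h1]⟩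

theorem E3_cpow {c : ℕ} (hc : 0 < c) (z : ℂ) {A L : ℝ} (hA : 0 < A) (ξ : ℝ) :
    (c : ℂ) ^ (-z) * cexp (I * ξ * ((Real.log (A * c) / L : ℝ) : ℂ)) =
      cexp (I * ξ * ((Real.log A / L : ℝ) : ℂ)) * (c : ℂ) ^ (-(z - I * ((ξ / L : ℝ) : ℂ))) := by
  have hc' : (c : ℂ) ≠ 0 := by exact_mod_cast hc.ne'
  have hcr : (0 : ℝ) < c := by exact_mod_cast hc
  have e1 : -(z - I * ((ξ / L : ℝ) : ℂ)) = -z + I * ((ξ / L : ℝ) : ℂ) := by ring
  rw [e1, Complex.cpow_add _ _ hc', Complex.cpow_def_of_ne_zero hc' (I * ((ξ / L : ℝ) : ℂ))]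
  have e2 : Complex.log (c : ℂ) = ((Real.log c : ℝ) : ℂ) := by
    rw [Complex.ofReal_log hcr.le, Complex.ofReal_natCast]
  rw [e2, Real.log_mul hA.ne' hcr.ne']
  have e3 : cexp (I * ξ * (((Real.log A + Real.log c) / L : ℝ) : ℂ)) =
      cexp (I * ξ * ((Real.log A / L : ℝ) : ℂ)) *
        cexp (((Real.log c : ℝ) : ℂ) * (I * ((ξ / L : ℝ) : ℂ))) := by
    rw [← Complex.exp_add]
    congr 1
    push_cast
    ring
  rw [e3]
  ring

open scoped Classical in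
/-- the integrand for fixed `r`, `ξ` as a window sum -/
theorem E3_window {δ A L r Cp : ℝ} (hA : 0 < A) (hr : 0 < r) (hrq : r ≤ 4 * Cp)
    (hsupp : ∀ x, 0 < x → Wf δ x ≠ 0 → 1 / 4 ≤ x ∧ x ≤ 5) (h s : ℕ) (F : Finset ℤ) (a : ℤ → ℂ)
    (z : ℂ) (ξ : ℝ) :
    ∑ i ∈ F ×ˢ (Finset.range (⌊20 * Cp⌋₊ + 1)).filter (fun c => 0 < c ∧ s ∣ c ∧ Nat.Coprime c h),
      (a i.1 * Kl i.2 h i.1 * (i.2 : ℂ) ^ (-z) * ((Wf δ (i.2 / r) / r : ℝ) : ℂ)) *
        cexp (I * ξ * ((Real.log (A * i.2) / L : ℝ) : ℂ)) =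
    ((r⁻¹ : ℝ) : ℂ) * cexp (I * ξ * ((Real.log A / L : ℝ) : ℂ)) *
      ∑ n ∈ F, a n * ∑' c : ℕ, (if 0 < c ∧ s ∣ c ∧ Nat.Coprime c h then
        Kl c h n * (Wf δ (c / r) : ℂ) * (c : ℂ) ^ (-(z - I * ((ξ / L : ℝ) : ℂ))) else 0) := by
  rw [Finset.sum_product, Finset.mul_sum]
  refine Finset.sum_congr rfl fun n _ => ?_
  have e1 : ∑' c : ℕ, (if 0 < c ∧ s ∣ c ∧ Nat.Coprime c h then
        Kl c h n * (Wf δ (c / r) : ℂ) * (c : ℂ) ^ (-(z - I * ((ξ / L : ℝ) : ℂ))) else 0) =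
      ∑ c ∈ (Finset.range (⌊20 * Cp⌋₊ + 1)).filter (fun c => 0 < c ∧ s ∣ c ∧ Nat.Coprime c h),
        Kl c h n * (Wf δ (c / r) : ℂ) * (c : ℂ) ^ (-(z - I * ((ξ / L : ℝ) : ℂ))) := by
    rw [tsum_eq_sum (s := (Finset.range (⌊20 * Cp⌋₊ + 1)).filter
      (fun c => 0 < c ∧ s ∣ c ∧ Nat.Coprime c h))]
    · refine Finset.sum_congr rfl fun c hc => ?_
      rw [if_pos (Finset.mem_filter.1 hc).2]
    · intro c hc
      split_ifs with hP
      · have hcN : ⌊20 * Cp⌋₊ + 1 ≤ c := by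
          by_contra hlt
          exact hc (Finset.mem_filter.2 ⟨Finset.mem_range.2 (not_le.1 hlt), hP⟩)
        have hc20 : 20 * Cp < c := (Nat.lt_floor_add_one _).trans_le (by exact_mod_cast hcN)
        have hW : Wf δ (c / r) = 0 := by
          by_contra hne
          have hc0 : (0 : ℝ) < c := by exact_mod_cast hP.1
          obtain ⟨_, h2⟩ := hsupp _ (div_pos hc0 hr) hne
          rw [div_le_iff₀ hr] at h2
          linarith only [hrq, hc20, h2]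
        rw [hW]
        simp
      · rfl
  rw [e1, Finset.mul_sum, Finset.mul_sum]
  refine Finset.sum_congr rfl fun c hc => ?_
  have hc0 := (Finset.mem_filter.1 hc).2.1
  have e2 := E3_cpow hc0 z (L := L) hA ξ
  have e3 : ((Wf δ (c / r) / r : ℝ) : ℂ) = ((r⁻¹ : ℝ) : ℂ) * (Wf δ (c / r) : ℂ) := by
    push_cast
    ring
  simp only
  rw [e3]
  linear_combination (a n * Kl c h n * (((r⁻¹ : ℝ) : ℂ) * (Wf δ (c / r) : ℂ))) * e2

open scoped Classical in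
/-- the trivial bound -/
theorem E3_trivial {δ A L r Cp : ℝ} (hr : 0 < r)
    (hW0 : ∀ x, 0 ≤ Wf δ x) (hW : ∀ x, 0 < x → Wf δ x ≤ 200) (h s : ℕ) (F : Finset ℤ)
    (a : ℤ → ℂ) (z : ℂ) (hz : |z.re| ≤ 1) (ξ : ℝ) :
    ‖∑ i ∈ F ×ˢ (Finset.range (⌊20 * Cp⌋₊ + 1)).filter (fun c => 0 < c ∧ s ∣ c ∧ Nat.Coprime c h),
      (a i.1 * Kl i.2 h i.1 * (i.2 : ℂ) ^ (-z) * ((Wf δ (i.2 / r) / r : ℝ) : ℂ)) *
        cexp (I * ξ * ((Real.log (A * i.2) / L : ℝ) : ℂ))‖ ≤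
    (200 * (⌊20 * Cp⌋₊ + 1 : ℝ) ^ 3 * ∑ n ∈ F, ‖a n‖) * r⁻¹ := by
  rw [Finset.sum_product]
  refine (norm_sum_le _ _).trans ?_
  rw [mul_assoc, Finset.sum_mul, Finset.mul_sum]
  refine Finset.sum_le_sum fun n _ => ?_
  refine (norm_sum_le _ _).trans ?_
  set N : ℝ := (⌊20 * Cp⌋₊ + 1 : ℝ) with hN
  have hN1 : (1 : ℝ) ≤ N := by
    rw [hN]
    have : (0 : ℝ) ≤ ⌊20 * Cp⌋₊ := Nat.cast_nonneg _
    linarith only []
  have hterm : ∀ c ∈ (Finset.range (⌊20 * Cp⌋₊ + 1)).filter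
      (fun c => 0 < c ∧ s ∣ c ∧ Nat.Coprime c h),
      ‖(a n * Kl c h n * (c : ℂ) ^ (-z) * ((Wf δ (c / r) / r : ℝ) : ℂ)) *
        cexp (I * ξ * ((Real.log (A * c) / L : ℝ) : ℂ))‖ ≤ ‖a n‖ * N * N * (200 * r⁻¹) := by
    intro c hc
    obtain ⟨hc1, hc2, -⟩ := Finset.mem_filter.1 hc
    have hcN : (c : ℝ) ≤ N := by
      have := Finset.mem_range.1 hc1
      rw [hN]
      exact_mod_cast this.le
    have hc0 : (0 : ℝ) < c := by exact_mod_cast hc2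
    have hc1' : (1 : ℝ) ≤ c := by exact_mod_cast hc2
    have e1 : ‖(c : ℂ) ^ (-z)‖ ≤ N := by
      have : ((c : ℝ) : ℂ) = (c : ℂ) := by norm_cast
      rw [← this, Complex.norm_cpow_eq_rpow_re_of_pos hc0]
      calc (c : ℝ) ^ (-z).re ≤ (c : ℝ) ^ (1 : ℝ) := by
            apply Real.rpow_le_rpow_of_exponent_le hc1'
            rw [Complex.neg_re]
            linarith only [neg_abs_le z.re, hz]
        _ = c := Real.rpow_one _
        _ ≤ N := hcN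
    have e2 : ‖((Wf δ (c / r) / r : ℝ) : ℂ)‖ ≤ 200 * r⁻¹ := by
      rw [Complex.norm_real, Real.norm_of_nonneg (div_nonneg (hW0 _) hr.le), div_eq_mul_inv]
      exact mul_le_mul_of_nonneg_right (hW _ (div_pos hc0 hr)) (inv_pos.2 hr).le
    rw [norm_mul, E3_norm_cexp, mul_one, norm_mul, norm_mul, norm_mul]
    have e3 : ‖Kl c h n‖ ≤ N := (E3_Kl_le c h n).trans hcN
    (clear * - e1 e2 e3; gcongr)
  refine (Finset.sum_le_card_nsmul _ _ _ hterm).trans ?_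
  rw [nsmul_eq_mul]
  have hcard : (((Finset.range (⌊20 * Cp⌋₊ + 1)).filter
      (fun c => 0 < c ∧ s ∣ c ∧ Nat.Coprime c h)).card : ℝ) ≤ N := by
    have : ((Finset.range (⌊20 * Cp⌋₊ + 1)).filter
      (fun c => 0 < c ∧ s ∣ c ∧ Nat.Coprime c h)).card ≤ ⌊20 * Cp⌋₊ + 1 :=
      (Finset.card_filter_le _ _).trans (by rw [Finset.card_range])
    rw [hN]
    exact_mod_cast this
  calc _ ≤ N * (‖a n‖ * N * N * (200 * r⁻¹)) :=
        mul_le_mul_of_nonneg_right hcard (by (clear * - hr; positivity))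
    _ = 200 * N ^ 3 * (‖a n‖ * r⁻¹) := by ring


theorem E3_log_sq {T ε : ℝ} (hT : 1 ≤ T) (hε : 0 < ε) :
    Real.log T ^ 2 ≤ (4 / ε ^ 2) * T ^ ε := by
  have h1 := Real.log_le_rpow_div (show (0 : ℝ) ≤ T by linarith only [hT]) (half_pos hε)
  have h0 : 0 ≤ Real.log T := Real.log_nonneg hT
  have h2 : Real.log T ^ 2 ≤ (T ^ (ε / 2) / (ε / 2)) ^ 2 := pow_le_pow_left₀ h0 h1 2
  refine h2.trans (le_of_eq ?_)
  rw [div_pow, ← Real.rpow_natCast (T ^ (ε / 2)) 2, ← Real.rpow_mul (by linarith only [hT])]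
  have : ε / 2 * ((2 : ℕ) : ℝ) = ε := by push_cast; ring
  rw [this]
  field_simp
  ring

set_option maxHeartbeats 4000000 in
/-- **E3. Smooth sums of Kloosterman sums.** Notation `L = log T`, `Cm = T^α1/A ≤ c ≤ Cp = T^α2/A` on the support
of `g(log(A c)/L)`, `δ = T^{-ε}`. By E1', `1 = κ⁻¹ ∫ Wf δ (c/r) dr/r`, where only `Cm/5 ≤ r ≤ 4 Cp` matters; by E2
`g(log(A c)/L) = ∫ gh(ξ) A^{iξ/L} c^{iξ/L} dξ`. So the sum is
`κ⁻¹ ∫_{Cm/5}^{4Cp} ∫ gh(ξ) A^{iξ/L} (∑_n a_n ∑_c Kl Wf δ (c/r) c^{-(z - iξ/L)}) dξ dr/r` (finite sums, Fubini).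
For `|ξ| ≤ T^ε` E3a with exponent `z - iξ/L` (`δ² ‖·‖ ≤ 6 T^{-ε} ≤ 1`; `Kb ≤ h r²` by the hypothesis;
`8 δ max (h r²/Kb) 1 ≤ 200 T^{-ε} max (h Cp²/Kb) 1`; `r^{1 - Re z} ≤ 25 Cp^{1 - Re z}`; `∫ |gh| ≤ C`,
`∫ dr/r ≤ log(20 Cp/Cm) ≤ C log T`, logs `≤ T^{ε/2}`; `δ⁻¹ = T^ε`). For `|ξ| > T^ε` use
`|Kl| ≤ c ≤ 20 T²` (`Cp ≤ T²`), at most `20T²` values of `c`, `|gh| ≤ D_k (1+|ξ|)^{-k}` with `k ε ≥ 30`. -/
theorem smooth_sum {ε : ℝ} (hε : 0 < ε) (hε1 : ε ≤ 1 / 100) (M : ℕ → ℝ) : ∃ C T₀ : ℝ, 0 < C ∧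
    ∀ T ≥ T₀, ∀ h s : ℕ, 0 < h → 0 < s → Nat.Coprime h s → (h : ℝ) ≤ T → (s : ℝ) ≤ T →
    ∀ α1 α2 A : ℝ, 0 ≤ α1 → α1 ≤ α2 → α2 ≤ 1 → T⁻¹ ≤ A → A ≤ T ^ 3 → ∀ g : ℝ → ℝ,
    ContDiff ℝ (⊤ : ℕ∞) g → (∀ x, g x ≠ 0 → α1 ≤ x ∧ x ≤ α2) → (∀ n x, |iteratedDeriv n g x| ≤ M n) →
    ∀ Kb : ℝ, 1 ≤ Kb → Kb ≤ h * (T ^ α1 / A) ^ 2 / 25 → ∀ F : Finset ℤ, (∀ n ∈ F, |(n : ℝ)| ≤ Kb) →
    ∀ (a : ℤ → ℂ) (z : ℂ), |z.re| ≤ 1 → ‖z‖ ≤ 5 * T ^ ε →
    ‖∑ n ∈ F, a n * ∑' c : ℕ, (if 0 < c ∧ s ∣ c ∧ Nat.Coprime c h then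
      Kl c h n * (g (Real.log (A * c) / Real.log T) : ℂ) * (c : ℂ) ^ (-z) else 0)‖ ≤
    C * T ^ (2 * ε) * √h * (T ^ α2 / A) ^ (1 - z.re) *
      √((1 + Kb / (h * s)) * (1 + WW (h * s) (200 * T ^ (-ε) * max (h * (T ^ α2 / A) ^ 2 / Kb) 1))) *
      √(∑ n ∈ F, ‖a n‖ ^ 2) + T ^ (-10 : ℝ) * ∑ n ∈ F, ‖a n‖ := by
  classical
  obtain ⟨C0, hC0, hwin⟩ := window_sum
  obtain ⟨Dk, hDk⟩ := fourier_rep M
  set I2 : ℝ := ∫ ξ : ℝ, (1 + |ξ|) ^ (-(2 : ℝ)) with hI2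
  have hI2n : 0 ≤ I2 := integral_nonneg fun ξ => (Real.rpow_pos_of_pos (by (clear * -; positivity)) _).le
  set k : ℕ := ⌈18 / ε⌉₊ with hk
  have hkε : 18 ≤ ε * k := by
    have := Nat.le_ceil (18 / ε)
    rw [← hk, div_le_iff₀ hε] at this
    linarith only [this]
  set D2 : ℝ := |Dk 2| with hD2
  set Dq : ℝ := |Dk (k + 2)| with hDq
  have hD2n : 0 ≤ D2 := abs_nonneg _
  have hDqn : 0 ≤ Dq := abs_nonneg _
  refine ⟨192 * I2 * D2 * C0 * (4 / ε ^ 2) + 1, max 20 (max (6 ^ (1 / ε)) (7408800 * I2 * Dq)),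
    by (clear * - hε hC0; positivity), ?_⟩
  intro T hT h s hh hs hcop hhT hsT α1 α2 A hα1 hα12 hα2 hA1 hA2 g hgs hgsupp hgM Kb hKb1 hKb2 F hF
    a z hz hzn
  have hT20 : 20 ≤ T := (le_max_left _ _).trans hT
  have hT6 : 6 ^ (1 / ε) ≤ T := (le_max_left _ _).trans ((le_max_right _ _).trans hT)
  have hTD : 7408800 * I2 * Dq ≤ T := (le_max_right _ _).trans ((le_max_right _ _).trans hT)
  have hT0 : 0 < T := by linarith only [hε, hε1, hT20]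
  have hT1 : 1 < T := by linarith only [hε, hε1, hT20]
  have hA : 0 < A := (inv_pos.2 hT0).trans_le hA1
  obtain ⟨gh, hghc, hghb, hghr⟩ := hDk g hgs (fun x hx =>
    ⟨hα1.trans (hgsupp x hx).1, (hgsupp x hx).2.trans hα2⟩) hgM
  set L : ℝ := Real.log T with hL
  have hL1 : 1 ≤ L := by
    rw [hL, Real.le_log_iff_exp_le hT0]
    have := Real.exp_one_lt_d9
    linarith only [hε, hε1, hT20, this]
  set Cp : ℝ := T ^ α2 / A with hCp
  set Cm : ℝ := T ^ α1 / A with hCm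
  have hCp0 : 0 < Cp := by (clear * - hT20 hA; positivity)
  have hCm0 : 0 < Cm := by (clear * - hT20 hA; positivity)
  have hCmp : Cm ≤ Cp := by
    rw [hCm, hCp]
    gcongr
    exact hT1.le
  have hAinv : A⁻¹ ≤ T := by
    rw [inv_le_comm₀ hA hT0]
    exact hA1
  have hTα2 : T ^ α2 ≤ T := by
    calc T ^ α2 ≤ T ^ (1 : ℝ) := Real.rpow_le_rpow_of_exponent_le hT1.le hα2
      _ = T := Real.rpow_one T
  have hTα1 : 1 ≤ T ^ α1 := Real.one_le_rpow hT1.le hα1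
  have hCpT : Cp ≤ T ^ 2 := by
    rw [hCp, div_eq_mul_inv, sq]
    exact mul_le_mul hTα2 hAinv (inv_pos.2 hA).le hT0.le
  have hCpm : Cp ≤ T * Cm := by
    rw [hCp, hCm, ← mul_div_assoc]
    gcongr
    exact hTα2.trans (le_mul_of_one_le_right hT0.le hTα1)
  set δ : ℝ := T ^ (-ε) with hδ
  set Y : ℝ := T ^ ε with hY
  have hY6 : 6 ≤ Y := by
    calc (6 : ℝ) = ((6 : ℝ) ^ (1 / ε)) ^ ε := by
          rw [← Real.rpow_mul (by norm_num), one_div_mul_cancel hε.ne', Real.rpow_one]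
      _ ≤ T ^ ε := Real.rpow_le_rpow (by positivity) hT6 hε.le
  have hY0 : 0 < Y := by linarith only [hε, hε1, hY6]
  have hδY : δ = Y⁻¹ := by rw [hδ, hY, Real.rpow_neg hT0.le]
  have hδ0 : 0 < δ := by rw [hδY]; (clear * - hT20; positivity)
  have hδ6 : δ ≤ 1 / 6 := by
    rw [hδY, inv_le_comm₀ hY0 (by norm_num)]
    linarith only [hY6]
  obtain ⟨hW0, hWs, hW200, hWm, κ, hκ1, hκ2, hκ⟩ := Wf_props hδ0 (by linarith only [hε, hε1, hδ6] : δ ≤ 1 / 4)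
  have hκ0 : 0 < κ := by linarith only [hε, hε1, hκ1]
  have hh0 : (0 : ℝ) < h := by exact_mod_cast hh
  have hs0 : (0 : ℝ) < s := by exact_mod_cast hs
  set σ : ℝ := z.re with hσ
  obtain ⟨hσ1, hσ2⟩ := abs_le.1 hz
  -- the index set
  set cset := (Finset.range (⌊20 * Cp⌋₊ + 1)).filter (fun c => 0 < c ∧ s ∣ c ∧ Nat.Coprime c h)
    with hcset
  have hLHS : ∑ n ∈ F, a n * ∑' c : ℕ, (if 0 < c ∧ s ∣ c ∧ Nat.Coprime c h then
      Kl c h n * (g (Real.log (A * c) / L) : ℂ) * (c : ℂ) ^ (-z) else 0) =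
      ∑ i ∈ F ×ˢ cset, (a i.1 * Kl i.2 h i.1 * (i.2 : ℂ) ^ (-z)) *
        ∫ ξ : ℝ, gh ξ * cexp (I * ξ * ((Real.log (A * i.2) / L : ℝ) : ℂ)) := by
    rw [Finset.sum_product]
    refine Finset.sum_congr rfl fun n _ => ?_
    rw [tsum_eq_sum (s := cset), Finset.mul_sum]
    · refine Finset.sum_congr rfl fun c hc => ?_
      rw [if_pos (Finset.mem_filter.1 hc).2, ← hghr]
      ring
    · intro c hc
      split_ifs with hP
      · have hcN : ⌊20 * Cp⌋₊ + 1 ≤ c := by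
          by_contra hlt
          exact hc (Finset.mem_filter.2 ⟨Finset.mem_range.2 (not_le.1 hlt), hP⟩)
        have hc20 : 20 * Cp < c := (Nat.lt_floor_add_one _).trans_le (by exact_mod_cast hcN)
        have hg0 : g (Real.log (A * c) / L) = 0 := by
          by_contra hne
          have := (E3_supp hT1 hA hgsupp hP.1 hne).2
          rw [← hCp] at this
          linarith only [hCp0, hc20, this]
        rw [hg0]
        simp
      · rfl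
  rw [hLHS]
  -- constants
  set QQ : ℝ := (1 + Kb / (h * s)) *
    (1 + WW (h * s) (200 * δ * max (h * Cp ^ 2 / Kb) 1)) with hQQ
  have hQ1 : 0 ≤ 1 + Kb / (h * s) := by (clear * - hh hs hKb1; positivity)
  have hQ2 : 0 ≤ 1 + WW (h * s) (200 * δ * max (h * Cp ^ 2 / Kb) 1) := by
    have := E3_WW_nonneg (h * s) (200 * δ * max (h * Cp ^ 2 / Kb) 1)
    linarith only [hε, hε1, this]
  have hQQ0 : 0 ≤ QQ := mul_nonneg hQ1 hQ2
  set Sa : ℝ := √(∑ n ∈ F, ‖a n‖ ^ 2) with hSa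
  set Sb : ℝ := ∑ n ∈ F, ‖a n‖ with hSb
  have hSb0 : 0 ≤ Sb := Finset.sum_nonneg fun n _ => norm_nonneg _
  set B1 : ℝ := C0 * Y * √h * (16 * Cp ^ (1 - σ)) * (3 * L * √QQ) * Sa with hB1
  have hB10 : 0 ≤ B1 := by (clear * - hC0 hh hT20 hA hL1; positivity)
  set N : ℝ := (⌊20 * Cp⌋₊ + 1 : ℝ) with hN
  have hN0 : 0 ≤ N := by (clear * -; positivity)
  have hNT : N ≤ 21 * T ^ 2 := by
    have := Nat.floor_le (show (0 : ℝ) ≤ 20 * Cp by (clear * - hT20 hA; positivity))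
    have h1T : (1 : ℝ) ≤ T ^ 2 := one_le_pow₀ hT1.le
    rw [hN]
    linarith only [hCpT, this, h1T]
  set B2 : ℝ := 200 * N ^ 3 * Sb with hB2
  have hB20 : 0 ≤ B2 := by (clear * -; positivity)
  -- the main step
  have key := E3_swap (F ×ˢ cset) (fun i => a i.1 * Kl i.2 h i.1 * (i.2 : ℂ) ^ (-z))
    (fun i => ∫ ξ : ℝ, gh ξ * cexp (I * ξ * ((Real.log (A * i.2) / L : ℝ) : ℂ)))
    (fun i r => Wf δ (i.2 / r) / r) (p := Cm / 5) (q := 4 * Cp) (κ := κ)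
    (Bd := (B1 * D2 + B2 * Dq * Y ^ (-(k : ℝ))) * I2) (by (clear * - hT20 hA; positivity)) (by linarith only [hCp0, hCmp]) hκ0
    ?_ ?_ ?_
  · -- conclusion
    refine key.trans ?_
    have hq : Real.log (4 * Cp / (Cm / 5)) ≤ 2 * L := by
      have e1 : 4 * Cp / (Cm / 5) ≤ T ^ 2 := by
        rw [div_le_iff₀ (by (clear * - hT20 hA; positivity))]
        have f1 : T ^ 2 * (Cm / 5) = T * (T * Cm) / 5 := by ring
        have f2 : 20 * (T * Cm) ≤ T * (T * Cm) := mul_le_mul_of_nonneg_right hT20 (by (clear * - hT20 hA; positivity))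
        rw [f1]
        linarith only [hCpm, f2]
      calc Real.log (4 * Cp / (Cm / 5)) ≤ Real.log (T ^ 2) := Real.log_le_log (by (clear * - hT20 hA; positivity)) e1
        _ = 2 * L := by rw [Real.log_pow]; push_cast; ring
    have hκi : κ⁻¹ ≤ 2 := by
      rw [inv_le_comm₀ hκ0 (by norm_num)]
      linarith only [hκ1]
    have hYk : Y ^ (-(k : ℝ)) ≤ T ^ (-18 : ℝ) := by
      rw [hY, ← Real.rpow_mul hT0.le]
      apply Real.rpow_le_rpow_of_exponent_le hT1.le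
      linarith only [hkε]
    have hYk0 : 0 ≤ Y ^ (-(k : ℝ)) := by (clear * - hT20; positivity)
    have hBd0 : 0 ≤ (B1 * D2 + B2 * Dq * Y ^ (-(k : ℝ))) * I2 := by (clear * - hC0 hh hT20 hA hL1; positivity)
    have hstep : κ⁻¹ * ((B1 * D2 + B2 * Dq * Y ^ (-(k : ℝ))) * I2 * Real.log (4 * Cp / (Cm / 5))) ≤
        2 * ((B1 * D2 + B2 * Dq * Y ^ (-(k : ℝ))) * I2 * (2 * L)) := by
      have hlog0 : 0 ≤ Real.log (4 * Cp / (Cm / 5)) := by
        apply Real.log_nonneg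
        rw [le_div_iff₀ (by (clear * - hT20 hA; positivity))]
        linarith only [hCp0, hCmp]
      exact mul_le_mul hκi (mul_le_mul_of_nonneg_left hq hBd0) (mul_nonneg hBd0 hlog0) (by norm_num)
    refine hstep.trans ?_
    have hL2 := E3_log_sq hT1.le hε
    rw [← hL, ← hY] at hL2
    have hY2 : T ^ (2 * ε) = Y * Y := by
      rw [hY, ← Real.rpow_add hT0]
      congr 1
      ring
    have hfirst : 2 * (B1 * D2 * I2 * (2 * L)) ≤
        (192 * I2 * D2 * C0 * (4 / ε ^ 2)) * T ^ (2 * ε) * √h * Cp ^ (1 - σ) * √QQ * Sa := by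
      rw [hB1, hY2]
      have e1 : 2 * (C0 * Y * √h * (16 * Cp ^ (1 - σ)) * (3 * L * √QQ) * Sa * D2 * I2 * (2 * L)) =
          (192 * I2 * D2 * C0 * Y * √h * Cp ^ (1 - σ) * √QQ * Sa) * L ^ 2 := by ring
      rw [e1]
      calc (192 * I2 * D2 * C0 * Y * √h * Cp ^ (1 - σ) * √QQ * Sa) * L ^ 2 ≤
            (192 * I2 * D2 * C0 * Y * √h * Cp ^ (1 - σ) * √QQ * Sa) * ((4 / ε ^ 2) * Y) := by
            (clear * - hC0 hh hT20 hA hL2; exact mul_le_mul_of_nonneg_left hL2 (by positivity))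
        _ = _ := by ring
    have hsecond : 2 * (B2 * Dq * Y ^ (-(k : ℝ)) * I2 * (2 * L)) ≤ T ^ (-10 : ℝ) * Sb := by
      have hLT : L ≤ T := (Real.log_le_sub_one_of_pos hT0).trans (by linarith only [hε, hε1])
      have e1 : T ^ (-10 : ℝ) = T ^ (-18 : ℝ) * T ^ 8 := by
        rw [← Real.rpow_natCast T 8, ← Real.rpow_add hT0]
        norm_num
      have hT18 : 0 ≤ T ^ (-18 : ℝ) := by (clear * - hT20; positivity)
      rw [hB2, e1]
      calc 2 * (200 * N ^ 3 * Sb * Dq * Y ^ (-(k : ℝ)) * I2 * (2 * L))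
          = (800 * (Sb * Dq * I2)) * (N ^ 3 * Y ^ (-(k : ℝ)) * L) := by ring
        _ ≤ (800 * (Sb * Dq * I2)) * ((21 * T ^ 2) ^ 3 * T ^ (-18 : ℝ) * T) := by
            have hDI0 : 0 ≤ 800 * (Sb * Dq * I2) := by positivity
            exact mul_le_mul_of_nonneg_left (mul_le_mul (mul_le_mul (pow_le_pow_left₀ hN0 hNT 3) hYk hYk0
              (pow_nonneg (mul_nonneg (by norm_num) (sq_nonneg T)) 3)) hLT (zero_le_one.trans hL1)
              (mul_nonneg (pow_nonneg (mul_nonneg (by norm_num) (sq_nonneg T)) 3) hT18)) hDI0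
        _ = 2 * (200 * (21 * T ^ 2) ^ 3 * Sb * Dq * T ^ (-18 : ℝ) * I2 * (2 * T)) := by ring
        _ = (7408800 * I2 * Dq) * (T ^ 7 * T ^ (-18 : ℝ) * Sb) := by ring
        _ ≤ T * (T ^ 7 * T ^ (-18 : ℝ) * Sb) := by
            (clear * - hT20 hTD; gcongr)
        _ = T ^ (-18 : ℝ) * T ^ 8 * Sb := by ring
    have hrest : 0 ≤ T ^ (2 * ε) * √h * Cp ^ (1 - σ) * √QQ * Sa := by (clear * - hh hT20 hA; positivity)
    calc 2 * ((B1 * D2 + B2 * Dq * Y ^ (-(k : ℝ))) * I2 * (2 * L))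
        = 2 * (B1 * D2 * I2 * (2 * L)) + 2 * (B2 * Dq * Y ^ (-(k : ℝ)) * I2 * (2 * L)) := by ring
      _ ≤ (192 * I2 * D2 * C0 * (4 / ε ^ 2)) * T ^ (2 * ε) * √h * Cp ^ (1 - σ) * √QQ * Sa +
          T ^ (-10 : ℝ) * Sb := add_le_add hfirst hsecond
      _ ≤ (192 * I2 * D2 * C0 * (4 / ε ^ 2)) * T ^ (2 * ε) * √h * Cp ^ (1 - σ) * √QQ * Sa +
          T ^ (2 * ε) * √h * Cp ^ (1 - σ) * √QQ * Sa + T ^ (-10 : ℝ) * Sb :=
        add_le_add (le_add_of_nonneg_right hrest) le_rfl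
      _ = (192 * I2 * D2 * C0 * (4 / ε ^ 2) + 1) * T ^ (2 * ε) * √h * Cp ^ (1 - σ) * √QQ * Sa +
          T ^ (-10 : ℝ) * Sb := by ring
  · -- integrability of the windows
    intro i hi
    obtain ⟨_, hi2⟩ := Finset.mem_product.1 hi
    have hc0 : (0 : ℝ) < i.2 := by exact_mod_cast (Finset.mem_filter.1 hi2).2.1
    refine (hκ i.2 hc0).1.mono_set ?_
    intro r hr
    exact lt_of_lt_of_le (by (clear * - hT20 hA; positivity)) hr.1
  · -- value of the windows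
    intro i hi hG
    obtain ⟨_, hi2⟩ := Finset.mem_product.1 hi
    have hc := (Finset.mem_filter.1 hi2).2.1
    have hc0 : (0 : ℝ) < i.2 := by exact_mod_cast hc
    rw [← hghr] at hG
    have hG' : g (Real.log (A * i.2) / L) ≠ 0 := by
      intro h0
      rw [h0] at hG
      exact hG (by simp)
    obtain ⟨h1, h2⟩ := E3_supp hT1 hA hgsupp hc hG'
    exact E3_kappa hWs (hκ i.2 hc0).2 hCm0 h1 h2
  · -- fixed r
    intro r hr
    have hr0 : 0 < r := lt_of_lt_of_le (by (clear * - hT20 hA; positivity)) hr.1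
    have hfix := E3_fixed (F ×ˢ cset) (fun i => a i.1 * Kl i.2 h i.1 * (i.2 : ℂ) ^ (-z) *
      ((Wf δ (i.2 / r) / r : ℝ) : ℂ)) (fun i => Real.log (A * i.2) / L) gh hghc D2 Dq k
      (fun ξ => (hghb 2 ξ).trans (by gcongr; exact le_abs_self _))
      (fun ξ => (hghb (k + 2) ξ).trans (by gcongr; exact le_abs_self _))
      (Y := Y) (B1 := B1 * r⁻¹) (B2 := B2 * r⁻¹) (by linarith only [hε, hε1, hY6]) (by (clear * - hC0 hh hT20 hA hL1 hr0; positivity)) (by (clear * - hr0; positivity)) hDqn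
      ?_ ?_
    · refine hfix.trans (le_of_eq ?_)
      ring
    · -- `|ξ| ≤ Y`
      intro ξ hξ
      rw [E3_window hA hr0 hr.2 hWs h s F a z ξ, norm_mul, norm_mul, E3_norm_cexp, mul_one,
        Complex.norm_real, Real.norm_of_nonneg (inv_pos.2 hr0).le, mul_comm]
      refine mul_le_mul_of_nonneg_right ?_ (inv_pos.2 hr0).le
      have hz're : (z - I * ((ξ / L : ℝ) : ℂ)).re = σ := by
        simp [hσ]
      have hz'n : δ ^ 2 * ‖z - I * ((ξ / L : ℝ) : ℂ)‖ ≤ 1 := by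
        have e1 : ‖z - I * ((ξ / L : ℝ) : ℂ)‖ ≤ 5 * Y + Y := by
          refine (norm_sub_le _ _).trans (add_le_add hzn ?_)
          rw [norm_mul, Complex.norm_I, one_mul, Complex.norm_real, Real.norm_eq_abs, abs_div,
            abs_of_pos (by linarith only [hε, hε1, hL1] : 0 < L), div_le_iff₀ (by linarith only [hε, hε1, hL1])]
          exact hξ.trans (le_mul_of_one_le_right hY0.le hL1)
        calc δ ^ 2 * ‖z - I * ((ξ / L : ℝ) : ℂ)‖ ≤ δ ^ 2 * (5 * Y + Y) := by (clear * - hT20 e1; gcongr)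
          _ = 6 * δ := by rw [hδY]; field_simp; ring
          _ ≤ 1 := by linarith only [hδ6]
      have hKr : Kb ≤ h * r ^ 2 := by
        refine hKb2.trans ?_
        have e1 : Cm / 5 ≤ r := hr.1
        have e2 : (Cm / 5) ^ 2 ≤ r ^ 2 := pow_le_pow_left₀ (by (clear * - hT20 hA; positivity)) e1 2
        calc (h : ℝ) * Cm ^ 2 / 25 = h * (Cm / 5) ^ 2 := by ring
          _ ≤ h * r ^ 2 := by (clear * - hh e2; gcongr)
      have hw := hwin h s hh hs hcop r δ Kb hr0 hδ0 (by linarith only [hε, hε1, hδ6]) hKb1 hKr F hF a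
        (z - I * ((ξ / L : ℝ) : ℂ)) (by rw [hz're]; linarith only [hε, hε1, hz]) hz'n
      refine hw.trans ?_
      rw [hz're, hB1]
      have e1 : δ⁻¹ = Y := by rw [hδY, inv_inv]
      have e2 : r ^ (1 - σ) ≤ 16 * Cp ^ (1 - σ) := by
        calc r ^ (1 - σ) ≤ (4 * Cp) ^ (1 - σ) :=
              Real.rpow_le_rpow hr0.le hr.2 (by linarith only [hσ2])
          _ = 4 ^ (1 - σ) * Cp ^ (1 - σ) := Real.mul_rpow (by norm_num) hCp0.le
          _ ≤ 4 ^ (2 : ℝ) * Cp ^ (1 - σ) := by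
              gcongr
              · norm_num
              · linarith only [hσ1]
          _ = 16 * Cp ^ (1 - σ) := by norm_num
      have e3 : √((1 + Real.log (1 + Kb + h * s)) * ((1 + Kb / (h * s)) *
          (1 + WW (h * s) (8 * δ * max (h * r ^ 2 / Kb) 1)))) ≤ 3 * L * √QQ := by
        have f1 : 1 + Real.log (1 + Kb + h * s) ≤ 9 * L ^ 2 := by
          have g1 : Kb ≤ T ^ 5 / 25 := by
            refine hKb2.trans ?_
            have : Cm ^ 2 ≤ (T ^ 2) ^ 2 := pow_le_pow_left₀ hCm0.le (hCmp.trans hCpT) 2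
            calc (h : ℝ) * Cm ^ 2 / 25 ≤ T * (T ^ 2) ^ 2 / 25 := by (clear * - hhT hT20 hA this; gcongr)
              _ = T ^ 5 / 25 := by ring
          have g2 : (h : ℝ) * s ≤ T ^ 2 := by
            rw [sq]
            exact mul_le_mul hhT hsT hs0.le hT0.le
          have g3 : 1 + Kb + h * s ≤ T ^ 6 := by
            have p1 : (1 : ℝ) ≤ T ^ 5 := one_le_pow₀ hT1.le
            have p2 : T ^ 2 ≤ T ^ 5 := pow_le_pow_right₀ hT1.le (by norm_num)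
            have p3 : T ^ 6 = T * T ^ 5 := by ring
            have p4 : 20 * T ^ 5 ≤ T * T ^ 5 := mul_le_mul_of_nonneg_right hT20 (by (clear * - hT20; positivity))
            rw [p3]
            linarith only [hε, hε1, hKb1, g1, g2, p2, p4]
          have g4 : Real.log (1 + Kb + h * s) ≤ 6 * L := by
            calc Real.log (1 + Kb + h * s) ≤ Real.log (T ^ 6) :=
                  Real.log_le_log (by (clear * - hh hs hKb1; positivity)) g3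
              _ = 6 * L := by rw [Real.log_pow]; push_cast; ring
          have p1 : (1 : ℝ) ≤ L ^ 2 := one_le_pow₀ hL1
          have p2 : L ≤ L ^ 2 := by
            rw [sq]
            exact le_mul_of_one_le_left (by linarith only [hε, hε1, hL1]) hL1
          linarith only [hε, hε1, g4, p1, p2]
        have f2 : WW (h * s) (8 * δ * max (h * r ^ 2 / Kb) 1) ≤
            WW (h * s) (200 * δ * max (h * Cp ^ 2 / Kb) 1) := by
          apply E3_WW_mono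
          have g1 : max (h * r ^ 2 / Kb) 1 ≤ 16 * max (h * Cp ^ 2 / Kb) 1 := by
            apply max_le
            · have : r ^ 2 ≤ (4 * Cp) ^ 2 := pow_le_pow_left₀ hr0.le hr.2 2
              calc (h : ℝ) * r ^ 2 / Kb ≤ h * (4 * Cp) ^ 2 / Kb := by (clear * - hh hKb1 this; gcongr)
                _ = 16 * (h * Cp ^ 2 / Kb) := by ring
                _ ≤ 16 * max (h * Cp ^ 2 / Kb) 1 := by
                    gcongr
                    exact le_max_left _ _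
            · have := le_max_right (h * Cp ^ 2 / Kb) 1
              linarith only [hε, hε1, this]
          have g2 : 0 ≤ max (h * Cp ^ 2 / Kb) 1 := (zero_le_one).trans (le_max_right _ _)
          calc 8 * δ * max (h * r ^ 2 / Kb) 1 ≤ 8 * δ * (16 * max (h * Cp ^ 2 / Kb) 1) := by (clear * - hT20 g1; gcongr)
            _ ≤ 200 * δ * max (h * Cp ^ 2 / Kb) 1 := by
                have : 0 ≤ δ * max (h * Cp ^ 2 / Kb) 1 := by (clear * - hh hKb1 hT20 hA; positivity)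
                linarith only [this]
        calc √((1 + Real.log (1 + Kb + h * s)) * ((1 + Kb / (h * s)) *
          (1 + WW (h * s) (8 * δ * max (h * r ^ 2 / Kb) 1)))) ≤ √(9 * L ^ 2 * QQ) := by
              apply Real.sqrt_le_sqrt
              have g1 := E3_WW_nonneg (h * s) (8 * δ * max (h * r ^ 2 / Kb) 1)
              rw [hQQ]
              (clear * - hh hs hKb1 hL1 f1 f2 g1; gcongr)
          _ = 3 * L * √QQ := by
              rw [Real.sqrt_mul (by (clear * - hL1; positivity)), show 9 * L ^ 2 = (3 * L) ^ 2 by ring,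
                Real.sqrt_sq (by linarith only [hε, hε1, hL1])]
      rw [e1]
      (clear * - hC0 hh hT20 hA e2 e3; gcongr)
    · -- all `ξ`
      intro ξ
      exact E3_trivial hr0 hW0 hW200 h s F a z hz ξ

end SG

end
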