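import Pool.Agent.Lib.MP_39df77_nt.Part03
import Pool.Agent.Lib.MP_39df77_nt.Part09
import Pool.Agent.Lib.MP_39df77_nt.Part16
import Pool.Agent.Lib.MP_39df77_nt.Part20
import Pool.Agent.Lib.MP_069854_nt.Part07
import Pool.Agent.Lib.MP_39df77_nt.Part22

section

namespace MP069854
open Filter Topology Complex Set MeasureTheory
open scoped ContDiff FourierTransform

section
variable {ν : Measure ℝ} {h : ℝ → ℂ} (hmom : ∀ n : ℕ, Integrable (fun α : ℝ => (α : ℂ) ^ n * h α) ν)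
  [SFinite ν]
include hmom

/-- **Explicit limit** (for `k ≥ 2`). -/
theorem mainU_explicit {k : ℕ} (hk : 2 ≤ k) {δ : ℝ} (hδ : 0 < δ)
    (hs : ∀ u : ℝ, 2 - δ < u → u < 2 * (k:ℝ) - 2 + δ → FM ν h u = 0) :
    Tendsto (fun T : ℝ => ∫ α : ℝ, h α * Qk k α T ∂ν) atTop
      (𝓝 (arith k * ((∫ y in (0:ℝ)..1, FM ν h (2 * y) * wt (k ^ 2) y) +
        ∫ y in (0:ℝ)..1, FM ν h (2 * k - 2 * y) * wt (k ^ 2) y))) := by
  have hk1 : 1 ≤ k := by omega
  have hk0 : (2:ℝ) ≤ k := by exact_mod_cast hk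
  have tf := gF_TF hmom k
  set g : ℝ → ℂ := fun u => g00 k u * FM ν h u with hg
  have hsupp : ∀ u ∈ tsupport g, u < 2 ∨ 2 * (k:ℝ) - 2 < u := by
    intro u hu
    by_contra hcon
    rw [not_or, not_lt, not_lt] at hcon
    have hopen : ∀ᶠ v in 𝓝 u, 2 - δ < v ∧ v < 2 * (k:ℝ) - 2 + δ :=
      (lt_mem_nhds (by linarith only [hδ, hcon])).and (gt_mem_nhds (by linarith only [hδ, hcon]))
    have hz : g =ᶠ[𝓝 u] 0 := by
      filter_upwards [hopen] with v hv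
      simp only [hg, Pi.zero_apply]
      rw [hs v hv.1 hv.2, mul_zero]
    exact notMem_tsupport_iff_eventuallyEq.2 hz hu
  obtain ⟨g₁, g₂, A, B, A', B', t1, hB, t2, hA, hsplit⟩ := exists_split hk1 tf.smooth tf.hcs hsupp
  have hG := G_add t1 t2 hsplit
  have l1 := (low_side hk1 t1 hB).add (high_side hk1 t2 hA)
  have e1 : ∫ y in Set.Ioi (0:ℝ), g₁ (2 * y) * wt (k ^ 2) y =
      ∫ y in (0:ℝ)..1, FM ν h (2 * y) * wt (k ^ 2) y := by
    rw [intervalIntegral.integral_of_le zero_le_one, ← Ioc_union_Ioi_eq_Ioi (zero_le_one' ℝ),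
      setIntegral_union (Ioc_disjoint_Ioi le_rfl) measurableSet_Ioi]
    · have h1 : ∫ y in Set.Ioi (1:ℝ), g₁ (2 * y) * wt (k ^ 2) y = 0 := by
        refine setIntegral_eq_zero_of_forall_eq_zero fun y hy => ?_
        have hy' : (1:ℝ) < y := hy
        rw [t1.zero_of (by intro h; linarith only [h.2, hB, hy', h]), zero_mul]
      rw [h1, add_zero]
      refine setIntegral_congr_fun measurableSet_Ioc fun y hy => ?_
      congr 1
      rcases lt_or_eq_of_le hy.2 with h2 | h2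
      · have h3 : g₂ (2 * y) = 0 := t2.zero_of (by intro h; linarith only [h.1, hk0, hA, h2, h])
        have h4 : g (2 * y) = g₁ (2 * y) := by rw [hsplit, h3, add_zero]
        rw [← h4]
        simp only [hg]
        rw [g00_one k (by linarith only [hy.1, hy]) (by linarith only [hk0, h2]), one_mul]
      · rw [h2, t1.zero_of (by intro h; linarith only [h.2, hB, h]), hs _ (by linarith only [hδ]) (by linarith only [hδ, hk0])]
    · refine ((t1.cont.comp (by fun_prop : Continuous fun y : ℝ => 2 * y)).mul ?_).continuousOn.integrableOn_compact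
        isCompact_Icc |>.mono_set Ioc_subset_Icc_self
      unfold wt
      fun_prop
    · refine (integrableOn_zero).congr_fun (fun y hy => ?_) measurableSet_Ioi
      have hy' : (1:ℝ) < y := hy
      rw [t1.zero_of (by intro h; linarith only [h.2, hB, hy', h]), zero_mul]
  have e2 : ∫ y in Set.Ioi (0:ℝ), g₂ (2 * k - 2 * y) * wt (k ^ 2) y =
      ∫ y in (0:ℝ)..1, FM ν h (2 * k - 2 * y) * wt (k ^ 2) y := by
    rw [intervalIntegral.integral_of_le zero_le_one, ← Ioc_union_Ioi_eq_Ioi (zero_le_one' ℝ),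
      setIntegral_union (Ioc_disjoint_Ioi le_rfl) measurableSet_Ioi]
    · have h1 : ∫ y in Set.Ioi (1:ℝ), g₂ (2 * k - 2 * y) * wt (k ^ 2) y = 0 := by
        refine setIntegral_eq_zero_of_forall_eq_zero fun y hy => ?_
        have hy' : (1:ℝ) < y := hy
        rw [t2.zero_of (by intro h; linarith only [h.1, hA, hy', h]), zero_mul]
      rw [h1, add_zero]
      refine setIntegral_congr_fun measurableSet_Ioc fun y hy => ?_
      congr 1
      rcases lt_or_eq_of_le hy.2 with h2 | h2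
      · have h3 : g₁ (2 * k - 2 * y) = 0 := t1.zero_of (by intro h; linarith only [h.2, hk0, hB, h2, h])
        have h4 : g (2 * k - 2 * y) = g₂ (2 * k - 2 * y) := by rw [hsplit, h3, zero_add]
        rw [← h4]
        simp only [hg]
        rw [g00_one k (by linarith only [hk0, h2]) (by linarith only [hy.1, hy]), one_mul]
      · rw [h2, t2.zero_of (by intro h; linarith only [h.1, hA, h]), hs _ (by linarith only [hδ, hk0]) (by linarith only [hδ])]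
    · refine ((t2.cont.comp (by fun_prop : Continuous fun y : ℝ => 2 * k - 2 * y)).mul ?_).continuousOn.integrableOn_compact
        isCompact_Icc |>.mono_set Ioc_subset_Icc_self
      unfold wt
      fun_prop
    · refine (integrableOn_zero).congr_fun (fun y hy => ?_) measurableSet_Ioi
      have hy' : (1:ℝ) < y := hy
      rw [t2.zero_of (by intro h; linarith only [h.1, hA, hy', h]), zero_mul]
  rw [e1, e2] at l1
  have hpi : (2 * Real.pi : ℂ) ≠ 0 := twopi_ne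
  have l2 : Tendsto (fun T : ℝ => ∫ α : ℝ, G g (α * I) * Qk k α T) atTop
      (𝓝 (2 * Real.pi * (arith k * ∫ y in (0:ℝ)..1, FM ν h (2 * y) * wt (k ^ 2) y) +
        2 * Real.pi * (arith k * ∫ y in (0:ℝ)..1, FM ν h (2 * k - 2 * y) * wt (k ^ 2) y))) := by
    refine l1.congr' ?_
    filter_upwards [eventually_gt_atTop (1:ℝ)] with T hT
    rw [← integral_add (Qk_integrable (k := k) t1 hT) (Qk_integrable (k := k) t2 hT)]
    refine integral_congr_ae (Eventually.of_forall fun α => ?_)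
    simp only [hG]; ring
  have h0 := diff_zero hmom k
  rw [← hg] at h0
  have h5 := (h0.add l2).const_mul (2 * Real.pi : ℂ)⁻¹
  rw [zero_add] at h5
  have e3 : (2 * Real.pi : ℂ)⁻¹ *
      (2 * Real.pi * (arith k * ∫ y in (0:ℝ)..1, FM ν h (2 * y) * wt (k ^ 2) y) +
        2 * Real.pi * (arith k * ∫ y in (0:ℝ)..1, FM ν h (2 * k - 2 * y) * wt (k ^ 2) y)) =
      arith k * ((∫ y in (0:ℝ)..1, FM ν h (2 * y) * wt (k ^ 2) y) +
        ∫ y in (0:ℝ)..1, FM ν h (2 * k - 2 * y) * wt (k ^ 2) y) := by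
    field_simp
  rw [e3] at h5
  refine h5.congr fun T => ?_
  rw [sub_add_cancel, inv_mul_cancel_left₀ hpi]

end

section discrete
variable {δ : ℝ} {c : ℤ → ℂ}

/-- the measure carried by the multiples of `δ` -/
noncomputable def nuZ (δ : ℝ) : Measure ℝ := (Measure.count : Measure ℤ).map fun n : ℤ => δ * n

noncomputable def hZ (δ : ℝ) (c : ℤ → ℂ) (α : ℝ) : ℂ := c (round (α / δ))

lemma emb (hδ : 0 < δ) : MeasurableEmbedding fun n : ℤ => δ * (n : ℝ) := by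
  refine Measurable.measurableEmbedding (measurable_of_countable _) ?_
  intro a b hab
  simpa [hδ.ne'] using hab

lemma hZ_apply (hδ : 0 < δ) (c : ℤ → ℂ) (n : ℤ) : hZ δ c (δ * n) = c n := by
  unfold hZ
  rw [mul_div_cancel_left₀ _ hδ.ne', round_intCast]

instance : SFinite (nuZ δ) := by unfold nuZ; infer_instance

lemma nuZ_integrable (hδ : 0 < δ) {f : ℝ → ℂ} : Integrable f (nuZ δ) ↔
    Summable fun n : ℤ => ‖f (δ * n)‖ := by
  unfold nuZ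
  rw [(emb hδ).integrable_map_iff, integrable_count_iff]
  rfl

lemma nuZ_integral (hδ : 0 < δ) {f : ℝ → ℂ} (hf : Summable fun n : ℤ => ‖f (δ * n)‖) :
    ∫ α, f α ∂(nuZ δ) = ∑' n : ℤ, f (δ * n) := by
  have hi : Integrable (fun n : ℤ => f (δ * n)) (Measure.count : Measure ℤ) := by
    rw [integrable_count_iff]
    exact hf
  unfold nuZ
  rw [(emb hδ).integral_map, integral_countable hi]
  refine tsum_congr fun n => ?_
  simp [Measure.real]

end discrete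

end MP069854


namespace MP069854
open Filter Topology Complex Set MeasureTheory
open scoped ContDiff FourierTransform

section discrete
variable {δ : ℝ} {c : ℤ → ℂ}

/-- the trigonometric series with coefficients `c` -/
noncomputable def FZ (δ : ℝ) (c : ℤ → ℂ) (u : ℝ) : ℂ := ∑' n : ℤ, c n * exp (-(((δ * n : ℝ) : ℂ) * u) * I)

lemma momZ (hδ : 0 < δ) (hc : ∀ m : ℕ, Summable fun n : ℤ => |(n : ℝ)| ^ m * ‖c n‖) (m : ℕ) :
    Integrable (fun α : ℝ => (α : ℂ) ^ m * hZ δ c α) (nuZ δ) := by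
  rw [nuZ_integrable hδ]
  refine ((hc m).mul_left (δ ^ m)).congr fun n => ?_
  rw [hZ_apply hδ, norm_mul, norm_pow, Complex.norm_real, Real.norm_eq_abs, abs_mul, abs_of_pos hδ,
    mul_pow]
  ring

lemma FM_FZ (hδ : 0 < δ) (hc : ∀ m : ℕ, Summable fun n : ℤ => |(n : ℝ)| ^ m * ‖c n‖) (u : ℝ) :
    FM (nuZ δ) (hZ δ c) u = FZ δ c u := by
  unfold FM FZ
  rw [nuZ_integral hδ]
  · refine tsum_congr fun n => ?_
    rw [hZ_apply hδ]
  · have h0 := hc 0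
    simp only [pow_zero, one_mul] at h0
    refine h0.congr fun n => ?_
    rw [hZ_apply hδ, norm_mul, norm_exp_phase, mul_one]

/-- **Discrete form.** -/
theorem discrete_lim {k : ℕ} (hk : 2 ≤ k) (hδ : 0 < δ)
    (hc : ∀ m : ℕ, Summable fun n : ℤ => |(n : ℝ)| ^ m * ‖c n‖) {η : ℝ} (hη : 0 < η)
    (hs : ∀ u : ℝ, 2 - η < u → u < 2 * (k:ℝ) - 2 + η → FZ δ c u = 0) :
    (∀ T : ℝ, 1 < T → Summable fun n : ℤ => ‖c n * Qk k (δ * n) T‖) ∧
    Tendsto (fun T : ℝ => ∑' n : ℤ, c n * Qk k (δ * n) T) atTop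
      (𝓝 (arith k * ((∫ y in (0:ℝ)..1, FZ δ c (2 * y) * wt (k ^ 2) y) +
        ∫ y in (0:ℝ)..1, FZ δ c (2 * k - 2 * y) * wt (k ^ 2) y))) := by
  have hmom := momZ hδ hc
  have hsum : ∀ T : ℝ, 1 < T → Summable fun n : ℤ => ‖c n * Qk k (δ * n) T‖ := by
    intro T hT
    have h1 := (nuZ_integrable hδ).1 (hQ_integrable hmom k hT)
    refine h1.congr fun n => ?_
    rw [hZ_apply hδ]
  refine ⟨hsum, ?_⟩
  have h := mainU_explicit hmom hk hη (fun u h1 h2 => by rw [FM_FZ hδ hc]; exact hs u h1 h2)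
  simp only [FM_FZ hδ hc] at h
  refine h.congr' ?_
  filter_upwards [eventually_gt_atTop (1:ℝ)] with T hT
  rw [nuZ_integral hδ]
  · refine tsum_congr fun n => ?_
    rw [hZ_apply hδ]
  · refine (hsum T hT).congr fun n => ?_
    rw [hZ_apply hδ]

end discrete

section coefficients

/-- a bump with prescribed vanishing of its transform -/
lemma exists_bump {δ P x y : ℝ} (hδ : 0 < δ) (hxy : x < y) (n₀ : ℕ) :
    ∃ b : ℝ → ℂ, TF b x y ∧ G b 0 = P ∧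
      ∀ m : ℤ, m ≠ 0 → |m| ≤ n₀ → G b (((δ * m : ℝ) : ℂ) * I) = 0 := by
  induction n₀ with
  | zero =>
    let f : ContDiffBump ((x + y) / 2) := ⟨(y - x) / 8, (y - x) / 4, by linarith only [hxy], by linarith only [hxy]⟩
    refine ⟨fun u => (P : ℂ) * ((f.normed volume u : ℝ) : ℂ), ⟨?_, ?_⟩, ?_, ?_⟩
    · exact contDiff_const.mul (Complex.ofRealCLM.contDiff.comp f.contDiff_normed)
    · have h1 : tsupport (fun u => (P : ℂ) * ((f.normed volume u : ℝ) : ℂ)) ⊆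
          tsupport (f.normed volume) :=
        closure_mono (fun u hu h0 => hu (by
          show (P : ℂ) * ((f.normed volume u : ℝ) : ℂ) = 0
          rw [h0]; simp))
      rw [f.tsupport_normed_eq, Real.closedBall_eq_Icc] at h1
      refine h1.trans (Icc_subset_Icc ?_ ?_)
      · show x ≤ (x + y) / 2 - (y - x) / 4; linarith only [hxy]
      · show (x + y) / 2 + (y - x) / 4 ≤ y; linarith only [hxy]
    · unfold G
      simp only [mul_zero, exp_zero, mul_one]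
      rw [integral_const_mul, integral_complex_ofReal, f.integral_normed]
      simp
    · intro m hm hm2
      exact absurd (abs_nonpos_iff.1 (by simpa using hm2)) hm
  | succ n ih =>
    obtain ⟨b, tb, hb0, hbm⟩ := ih
    set κ : ℂ := ((((δ * (n + 1)) ^ 2)⁻¹ : ℝ) : ℂ) with hκ
    have t2 := tb.der.der
    have hG : ∀ w : ℂ, G (fun u => b u + κ * deriv (deriv b) u) w = G b w * (1 + κ * w ^ 2) := by
      intro w
      have e1 : G (deriv (deriv b)) w = w ^ 2 * G b w := by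
        rw [tb.der.G_deriv, tb.G_deriv]; ring
      have e2 : G (fun u => b u + κ * deriv (deriv b) u) w = G b w + κ * G (deriv (deriv b)) w := by
        unfold G
        rw [← integral_const_mul, ← integral_add (tb.integrable_mul_exp w)
          ((t2.integrable_mul_exp w).const_mul κ)]
        refine integral_congr_ae (Eventually.of_forall fun u => ?_)
        simp only; ring
      rw [e2, e1]; ring
    refine ⟨fun u => b u + κ * deriv (deriv b) u, ⟨tb.smooth.add (contDiff_const.mul t2.smooth), ?_⟩,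
      ?_, ?_⟩
    · refine closure_minimal ?_ isClosed_Icc
      intro u hu
      by_contra hcon
      refine hu ?_
      rw [mem_Icc] at hcon
      show b u + κ * deriv (deriv b) u = 0
      rw [tb.zero_of hcon, t2.zero_of hcon]; simp
    · rw [hG, hb0]; simp
    · intro m hm hm2
      rw [hG]
      rcases eq_or_lt_of_le hm2 with h | h
      · have h2 : (m : ℝ) ^ 2 = ((n:ℝ) + 1) ^ 2 := by
          have h3 : (|m| : ℤ) = (n : ℤ) + 1 := by rw [h]; push_cast; ring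
          have h4 : ((|m| : ℤ) : ℝ) = (n : ℝ) + 1 := by rw [h3]; push_cast; ring
          rw [← h4, Int.cast_abs, sq_abs]
        have h5 : (1 : ℂ) + κ * (((δ * m : ℝ) : ℂ) * I) ^ 2 = 0 := by
          rw [mul_pow, I_sq, hκ]
          have h6 : ((((δ * m : ℝ)) : ℂ)) ^ 2 = (((δ * (n + 1)) ^ 2 : ℝ) : ℂ) := by
            rw [← ofReal_pow, mul_pow, mul_pow, h2]
          rw [h6]
          have h7 : (((δ * ((n:ℝ) + 1)) ^ 2 : ℝ) : ℂ) ≠ 0 := by
            have : (0:ℝ) < δ * ((n:ℝ) + 1) := by (clear * - hδ; positivity)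
            exact_mod_cast (pow_pos this 2).ne'
          rw [ofReal_inv, mul_neg_one, mul_neg, inv_mul_cancel₀ h7]
          ring
        rw [h5, mul_zero]
      · rw [hbm m hm (by
          have h8 : |m| < (n : ℤ) + 1 := by push_cast at h; exact h
          omega), zero_mul]

lemma TF.isBigO {b : ℝ → ℂ} {x y : ℝ} (tb : TF b x y) {P : ℝ} (hP : 0 < P) :
    (fun u : ℝ => b (P * u)) =O[cocompact ℝ] fun u : ℝ => |u| ^ (-(2:ℝ)) := by
  have h1 : (fun u : ℝ => b (P * u)) =ᶠ[cocompact ℝ] fun _ => 0 := by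
    have hK : IsCompact (Icc (x / P) (y / P)) := isCompact_Icc
    filter_upwards [hK.compl_mem_cocompact] with u hu
    apply tb.zero_of
    rintro ⟨h1, h2⟩
    exact hu ⟨by rw [div_le_iff₀ hP]; linarith only [h1], by rw [le_div_iff₀ hP]; linarith only [h2]⟩
  exact (Asymptotics.isBigO_zero _ _).congr' h1.symm (EventuallyEq.refl _ _)

/-- **Coefficients**: rapidly decreasing, `c 0 = 1`, `c n = 0` for `0 < |n| ≤ n₀`, and the
trigonometric series vanishes near `[x, y]` as soon as `y - x < 2π/δ`. -/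
lemma exists_coeff {δ x y : ℝ} (hδ : 0 < δ) (hxy : y - x < 2 * Real.pi / δ) (n₀ : ℕ) :
    ∃ c : ℤ → ℂ, (∀ m : ℕ, Summable fun n : ℤ => |(n : ℝ)| ^ m * ‖c n‖) ∧ c 0 = 1 ∧
      (∀ n : ℤ, n ≠ 0 → |n| ≤ n₀ → c n = 0) ∧
      ∃ η : ℝ, 0 < η ∧ ∀ u : ℝ, x - η < u → u < y + η → FZ δ c u = 0 := by
  set P : ℝ := 2 * Real.pi / δ with hP
  have hP0 : 0 < P := by have := Real.pi_pos; (clear * - hδ; positivity)
  have hδP : δ * P = 2 * Real.pi := by rw [hP]; field_simp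
  set η : ℝ := (P - (y - x)) / 4 with hη
  have hη0 : 0 < η := by rw [hη]; linarith only [hxy]
  obtain ⟨b, tb, hb0, hbm⟩ := exists_bump (P := P) hδ (show y + η < x + P - η by
    rw [hη]; linarith only [hxy]) n₀
  refine ⟨fun n => (P : ℂ)⁻¹ * G b (((δ * n : ℝ) : ℂ) * I), ?_, ?_, ?_, η, hη0, ?_⟩
  · intro m
    obtain ⟨C, hC, hd⟩ := tb.decay_strip (m + 2)
    have hg := (Real.summable_abs_int_rpow (show (1:ℝ) < 2 by norm_num)).mul_left
      (P⁻¹ * C * (δ ^ (m + 2))⁻¹)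
    refine hg.of_norm_bounded_eventually ?_
    have hne : ∀ᶠ n : ℤ in cofinite, n ≠ 0 := by
      rw [eventually_cofinite]
      refine (finite_singleton (0:ℤ)).subset fun n hn => ?_
      simpa using hn
    filter_upwards [hne] with n hn
    have hn0 : 0 < |(n : ℝ)| := abs_pos.2 (by exact_mod_cast hn)
    have e1 := hd (((δ * n : ℝ) : ℂ) * I) (by simp)
    have him : ((((δ * n : ℝ)) : ℂ) * I).im = δ * n := by simp
    rw [him] at e1
    have e2 : (δ * |(n : ℝ)|) ^ (m + 2) ≤ (1 + |δ * n|) ^ (m + 2) := by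
      apply pow_le_pow_left₀ (by (clear * - hδ hn; positivity))
      rw [abs_mul, abs_of_pos hδ]; linarith only []
    have e3 : ‖G b (((δ * n : ℝ) : ℂ) * I)‖ * (δ ^ (m + 2) * |(n : ℝ)| ^ (m + 2)) ≤ C := by
      rw [← mul_pow]
      exact (mul_le_mul_of_nonneg_left e2 (norm_nonneg _)).trans e1
    rw [Real.norm_eq_abs, abs_of_nonneg (by (clear * - hn; positivity)), norm_mul, norm_inv, Complex.norm_real,
      Real.norm_eq_abs, abs_of_pos hP0, Real.rpow_neg hn0.le, Real.rpow_two]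
    have e4 : |(n : ℝ)| ^ m * ‖G b (((δ * n : ℝ) : ℂ) * I)‖ ≤ C * (δ ^ (m + 2))⁻¹ * (|(n : ℝ)| ^ 2)⁻¹ := by
      rw [← div_eq_mul_inv, ← div_eq_mul_inv, div_div, le_div_iff₀ (by (clear * - hδ hn; positivity))]
      calc |(n : ℝ)| ^ m * ‖G b (((δ * n : ℝ) : ℂ) * I)‖ * (δ ^ (m + 2) * |(n : ℝ)| ^ 2)
          = ‖G b (((δ * n : ℝ) : ℂ) * I)‖ * (δ ^ (m + 2) * |(n : ℝ)| ^ (m + 2)) := by ring
        _ ≤ C := e3
    calc |(n : ℝ)| ^ m * (P⁻¹ * ‖G b (((δ * n : ℝ) : ℂ) * I)‖)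
        = P⁻¹ * (|(n : ℝ)| ^ m * ‖G b (((δ * n : ℝ) : ℂ) * I)‖) := by ring
      _ ≤ P⁻¹ * (C * (δ ^ (m + 2))⁻¹ * (|(n : ℝ)| ^ 2)⁻¹) := by (clear * - hδ e4; gcongr)
      _ = _ := by ring
  · simp only [Int.cast_zero, mul_zero, ofReal_zero, zero_mul]
    rw [hb0, inv_mul_cancel₀ (by exact_mod_cast hP0.ne')]
  · intro n hn hn2
    simp only
    rw [hbm n hn hn2, mul_zero]
  · intro u hu1 hu2
    -- Poisson summation
    have hF : ∀ n : ℤ, 𝓕 (fun x : ℝ => b (P * x)) (n : ℝ) =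
        (P : ℂ)⁻¹ * G b (((δ * (-n : ℤ) : ℝ) : ℂ) * I) := by
      intro n
      rw [Real.fourier_eq']
      have h1 := Measure.integral_comp_mul_left
        (fun v : ℝ => b v * exp ((v : ℂ) * (((δ * (-n : ℤ) : ℝ) : ℂ) * I))) P
      rw [abs_of_pos (inv_pos.2 hP0), Complex.real_smul, ofReal_inv] at h1
      unfold G
      rw [← h1]
      refine integral_congr_ae (Eventually.of_forall fun v => ?_)
      simp only [smul_eq_mul]
      rw [mul_comm]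
      congr 2
      have h2 : (-2 * Real.pi * inner ℝ v (n : ℝ) : ℝ) = P * v * (δ * (-n : ℤ)) := by
        simp only [RCLike.inner_apply, conj_trivial]
        push_cast
        linear_combination (-(v * n)) * hδP.symm
      rw [h2]; push_cast; ring
    have hsum0 : Summable fun n : ℤ => 𝓕 (fun x : ℝ => b (P * x)) (n : ℝ) := by
      simp_rw [hF]
      obtain ⟨C, hC, hd⟩ := tb.decay_strip 2
      have hg := (Real.summable_abs_int_rpow (show (1:ℝ) < 2 by norm_num)).mul_left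
        (P⁻¹ * C * (δ ^ 2)⁻¹)
      refine hg.of_norm_bounded_eventually ?_
      have hne : ∀ᶠ n : ℤ in cofinite, n ≠ 0 := by
        rw [eventually_cofinite]
        refine (finite_singleton (0:ℤ)).subset fun n hn => ?_
        simpa using hn
      filter_upwards [hne] with n hn
      have hn0 : 0 < |(n : ℝ)| := abs_pos.2 (by exact_mod_cast hn)
      have e1 := hd (((δ * (-n : ℤ) : ℝ) : ℂ) * I) (by simp)
      have him : ((((δ * (-n : ℤ) : ℝ)) : ℂ) * I).im = δ * (-n : ℤ) := by simp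
      rw [him] at e1
      have e2 : (δ * |(n : ℝ)|) ^ 2 ≤ (1 + |δ * (-n : ℤ)|) ^ 2 := by
        apply pow_le_pow_left₀ (by (clear * - hδ hn; positivity))
        rw [abs_mul, abs_of_pos hδ]; push_cast; rw [abs_neg]; linarith only []
      rw [norm_mul, norm_inv, Complex.norm_real,
        Real.norm_eq_abs, abs_of_pos hP0, Real.rpow_neg hn0.le, Real.rpow_two]
      have e4 : ‖G b (((δ * (-n : ℤ) : ℝ) : ℂ) * I)‖ ≤ C * (δ ^ 2)⁻¹ * (|(n : ℝ)| ^ 2)⁻¹ := by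
        rw [← div_eq_mul_inv, ← div_eq_mul_inv, div_div, le_div_iff₀ (by (clear * - hδ hn; positivity)), ← mul_pow]
        exact (mul_le_mul_of_nonneg_left e2 (norm_nonneg _)).trans e1
      calc P⁻¹ * ‖G b (((δ * (-n : ℤ) : ℝ) : ℂ) * I)‖
          ≤ P⁻¹ * (C * (δ ^ 2)⁻¹ * (|(n : ℝ)| ^ 2)⁻¹) := by (clear * - hδ e4; gcongr)
        _ = _ := by ring
    have hpois := Real.tsum_eq_tsum_fourier_of_rpow_decay_of_summable
      (f := fun x : ℝ => b (P * x)) (tb.cont.comp (by fun_prop)) (show (1:ℝ) < 2 by norm_num)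
      (tb.isBigO hP0) hsum0 (u / P)
    have hzero : ∀ n : ℤ, b (P * (u / P + n)) = 0 := by
      intro n
      have e1 : P * (u / P + n) = u + P * n := by field_simp
      rw [e1]
      apply tb.zero_of
      rintro ⟨h1, h2⟩
      rcases le_or_gt n 0 with hn | hn
      · have hn' : (n : ℝ) ≤ 0 := by exact_mod_cast hn
        nlinarith only [hP0, hu2, h1, hn']
      · have hn' : (1 : ℝ) ≤ n := by exact_mod_cast hn
        nlinarith only [hP0, hu1, h2, hn']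
    simp only [hzero, tsum_zero, hF] at hpois
    have hre : FZ δ (fun n => (P : ℂ)⁻¹ * G b (((δ * n : ℝ) : ℂ) * I)) u =
        ∑' n : ℤ, (P : ℂ)⁻¹ * G b (((δ * (-n : ℤ) : ℝ) : ℂ) * I) *
          fourier n ((u / P : ℝ) : UnitAddCircle) := by
      unfold FZ
      rw [← (Equiv.neg ℤ).tsum_eq]
      refine tsum_congr fun n => ?_
      simp only [Equiv.neg_apply]
      congr 1
      rw [fourier_coe_apply]
      congr 1
      have hδ' : (δ : ℂ) ≠ 0 := by exact_mod_cast hδ.ne'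
      have hpi : (Real.pi : ℂ) ≠ 0 := by exact_mod_cast Real.pi_ne_zero
      rw [hP]
      push_cast
      field_simp
    rw [hre, ← hpois]

end coefficients

end MP069854

namespace MP069854
open Filter Topology Complex Set MeasureTheory

lemma arith_pos (k : ℕ) : 0 < arith k := by
  rw [arith_eq]
  obtain ⟨C, hC, hb⟩ := logH_bound k
  rw [← Real.rexp_tsum_eq_tprod (fun p : Nat.Primes => H_pos' k (by (clear * -; positivity)) (prime_inv_le p)) ?_]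
  · exact Real.exp_pos _
  · refine Summable.of_norm_bounded (g := fun p : Nat.Primes => C * (((p : ℕ) : ℝ) ^ (-1:ℝ)) ^ 2)
      (logH_summable_bound.mul_left C) ?_
    intro p
    have := hb (((p : ℕ) : ℝ)⁻¹) (by (clear * -; positivity)) (prime_inv_le p)
    rw [Real.norm_eq_abs, Real.rpow_neg_one]
    exact this

end MP069854

end

section

namespace SG
open Complex MeasureTheory Filter Topology Set
open scoped Real ComplexConjugate

theorem F2_cpow (x : ℝ) (hx : 0 < x) (w : ℂ) : (x : ℂ) ^ w = cexp ((Real.log x : ℂ) * w) := by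
  rw [cpow_def_of_ne_zero (by exact_mod_cast hx.ne'), ← ofReal_log hx.le]

theorem F2_norm (r : ℝ) (w : ℂ) : ‖cexp ((r : ℂ) * w)‖ = Real.exp (r * w.re) := by
  rw [norm_exp]
  simp

theorem F2_int {km : ℝ → ℂ} (him : Integrable km) (x : ℝ) (hx : 0 < x) :
    Integrable (fun t : ℝ => km t * (x : ℂ) ^ (-(-1 / 2 + t * I : ℂ))) := by
  refine him.mul_bdd (c := Real.exp (Real.log x * (1 / 2))) ?_ ?_
  · have : (fun t : ℝ => (x : ℂ) ^ (-(-1 / 2 + t * I : ℂ))) =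
        fun t : ℝ => cexp ((Real.log x : ℂ) * (-(-1 / 2 + t * I : ℂ))) := by
      funext t
      exact F2_cpow x hx _
    rw [this]
    exact (by fun_prop : Continuous fun t : ℝ => cexp ((Real.log x : ℂ) * (-(-1 / 2 + t * I : ℂ)))).aestronglyMeasurable
  · refine Eventually.of_forall fun t => ?_
    rw [F2_cpow x hx, F2_norm]
    apply le_of_eq
    congr 2
    simp
    norm_num

theorem F2_rep {km : ℝ → ℂ} (him : Integrable km) {ι : Type} (s : Finset ι) (b : ι → ℂ) (x : ι → ℝ)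
    (hx : ∀ i ∈ s, 0 < x i) :
    ∑ i ∈ s, b i * ∫ t : ℝ, km t * (x i : ℂ) ^ (-(-1 / 2 + t * I : ℂ)) =
      ∫ t : ℝ, km t * ∑ i ∈ s, b i * (x i : ℂ) ^ (-(-1 / 2 + t * I : ℂ)) := by
  have h1 : (fun t : ℝ => km t * ∑ i ∈ s, b i * (x i : ℂ) ^ (-(-1 / 2 + t * I : ℂ))) =
      fun t : ℝ => ∑ i ∈ s, b i * (km t * (x i : ℂ) ^ (-(-1 / 2 + t * I : ℂ))) := by
    funext t
    rw [Finset.mul_sum]
    exact Finset.sum_congr rfl fun i _ => by ring
  rw [h1, integral_finsetSum _ (fun i hi => (F2_int him (x i) (hx i hi)).const_mul _)]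
  exact Finset.sum_congr rfl fun i _ => (integral_const_mul _ _).symm

/-- bound of an integral against `km` by its values for `|t| ≤ T^ε` and the tail -/
theorem F2_split {T ε : ℝ} {F : ℝ → ℂ} {kp km : ℝ → ℂ} {κ0 : ℂ} (h : KD T ε F kp km κ0) (W : ℝ → ℂ) (B1 B2 : ℝ)
    (hB1 : 0 ≤ B1) (hB2 : 0 ≤ B2) (h1 : ∀ t, |t| ≤ T ^ ε → ‖W t‖ ≤ B1) (h2 : ∀ t, ‖W t‖ ≤ B2) :
    ‖∫ t : ℝ, km t * W t‖ ≤ T ^ (-1 / 2 + ε) * B1 + T ^ (-40 : ℝ) * B2 := by
  have hms : MeasurableSet {t : ℝ | T ^ ε < |t|} :=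
    measurableSet_lt measurable_const measurable_id.abs
  have hi1 : Integrable (fun t : ℝ => ‖km t‖ * B1) := h.im.norm.mul_const _
  have hi2 : Integrable (fun t : ℝ => Set.indicator {t : ℝ | T ^ ε < |t|} (fun t => ‖km t‖) t * B2) :=
    (h.im.norm.indicator hms).mul_const _
  have hle : ‖∫ t : ℝ, km t * W t‖ ≤
      ∫ t : ℝ, (‖km t‖ * B1 + Set.indicator {t : ℝ | T ^ ε < |t|} (fun t => ‖km t‖) t * B2) := by
    refine MeasureTheory.norm_integral_le_of_norm_le (hi1.add hi2) (Eventually.of_forall fun t => ?_)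
    rw [norm_mul]
    by_cases ht : T ^ ε < |t|
    · have : Set.indicator {t : ℝ | T ^ ε < |t|} (fun t => ‖km t‖) t = ‖km t‖ := Set.indicator_of_mem (show t ∈ {t : ℝ | T ^ ε < |t|} from ht) _
      rw [this]
      have := mul_le_mul_of_nonneg_left (h2 t) (norm_nonneg (km t))
      have := mul_nonneg (norm_nonneg (km t)) hB1
      linarith
    · have : Set.indicator {t : ℝ | T ^ ε < |t|} (fun t => ‖km t‖) t = 0 := Set.indicator_of_notMem (show t ∉ {t : ℝ | T ^ ε < |t|} from ht) _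
      rw [this, zero_mul, add_zero]
      exact mul_le_mul_of_nonneg_left (h1 t (not_lt.1 ht)) (norm_nonneg (km t))
  refine hle.trans ?_
  rw [integral_add hi1 hi2, integral_mul_const, integral_mul_const, integral_indicator hms]
  exact add_le_add (mul_le_mul_of_nonneg_right h.bm hB1) (mul_le_mul_of_nonneg_right h.tm hB2)

/-- the trivial bound for the sum over `c` -/
theorem F2_inner {T A α1 α2 : ℝ} (hT : 2 ≤ T) (hA1 : T⁻¹ ≤ A) (hα2 : α2 ≤ 1) {g : ℝ → ℝ} {M0 : ℝ}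
    (hsupp : ∀ x, g x ≠ 0 → α1 ≤ x ∧ x ≤ α2) (hM : ∀ x, |g x| ≤ M0) (h s : ℕ) (n : ℤ) (z : ℂ) (hz : z.re = -1) :
    (∀ c : ℕ, ⌊T ^ 2⌋₊ + 1 ≤ c → (g (Real.log (A * c) / Real.log T) : ℂ) = 0) ∧
    ‖∑' c : ℕ, (if 0 < c ∧ s ∣ c ∧ Nat.Coprime c h then
      Kl c h n * (g (Real.log (A * c) / Real.log T) : ℂ) * (c : ℂ) ^ (-z) else 0)‖ ≤ 2 * M0 * T ^ 6 := by
  have hT0 : 0 < T := by linarith only [hT]
  have hA0 : 0 < A := lt_of_lt_of_le (inv_pos.2 hT0) hA1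
  have hlog : 0 < Real.log T := Real.log_pos (by linarith only [hT])
  have hM0 : 0 ≤ M0 := (abs_nonneg _).trans (hM 0)
  have hG : ∀ c : ℕ, ⌊T ^ 2⌋₊ + 1 ≤ c → (g (Real.log (A * c) / Real.log T) : ℂ) = 0 := by
    intro c hc
    by_contra hne
    have hne' : g (Real.log (A * c) / Real.log T) ≠ 0 := by exact_mod_cast hne
    have h1 := (hsupp _ hne').2
    have hc0 : (0 : ℝ) < c := by
      have : 0 < c := by (clear * - hc; omega)
      exact_mod_cast this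
    rw [div_le_iff₀ hlog] at h1
    have h2 : Real.log (A * c) ≤ Real.log T := h1.trans (by nlinarith only [hα2, hlog])
    have h3 : A * c ≤ T := (Real.log_le_log_iff (by (clear * - hA0 hc0; positivity)) hT0).1 h2
    have h4 : (c : ℝ) ≤ T ^ 2 := by
      have h5 : T⁻¹ * c ≤ T := (mul_le_mul_of_nonneg_right hA1 hc0.le).trans h3
      have h6 : (c : ℝ) = T * (T⁻¹ * c) := by field_simp
      rw [h6, pow_two]
      exact mul_le_mul_of_nonneg_left h5 hT0.le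
    have h7 := Nat.le_floor h4
    (clear * - hc h7; omega)
  refine ⟨hG, ?_⟩
  rw [tsum_eq_sum (s := Finset.range (⌊T ^ 2⌋₊ + 1)) (by
    intro c hc
    rw [Finset.mem_range, not_lt] at hc
    split_ifs
    · rw [hG c hc]; ring
    · rfl)]
  have hN : (((⌊T ^ 2⌋₊ + 1 : ℕ)) : ℝ) ≤ 2 * T ^ 2 := by
    push_cast
    have := Nat.floor_le (by (clear * - hT; positivity) : (0 : ℝ) ≤ T ^ 2)
    nlinarith only [hT, this]
  have hterm : ∀ c ∈ Finset.range (⌊T ^ 2⌋₊ + 1), ‖(if 0 < c ∧ s ∣ c ∧ Nat.Coprime c h then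
      Kl c h n * (g (Real.log (A * c) / Real.log T) : ℂ) * (c : ℂ) ^ (-z) else 0)‖ ≤ M0 * T ^ 4 := by
    intro c hc
    rw [Finset.mem_range, Nat.lt_succ_iff] at hc
    have hcT : (c : ℝ) ≤ T ^ 2 := (Nat.le_floor_iff (by positivity)).1 hc
    split_ifs with hcond
    · have hc0 : (0 : ℝ) < c := by exact_mod_cast hcond.1
      have e1 : ‖(c : ℂ) ^ (-z)‖ = c := by
        have : ((c : ℝ) : ℂ) = (c : ℂ) := by simp
        rw [← this, F2_cpow _ hc0, F2_norm, neg_re, hz, neg_neg, mul_one, Real.exp_log hc0]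
      rw [norm_mul, norm_mul, e1, norm_real, Real.norm_eq_abs]
      calc ‖Kl c h n‖ * |g (Real.log (A * c) / Real.log T)| * c ≤ c * M0 * c := by
            gcongr
            · exact Kl_le c h n
            · exact hM _
        _ = M0 * (c * c) := by ring
        _ ≤ M0 * (T ^ 2 * T ^ 2) := by (clear * - hT hM0 hcT hc0; gcongr)
        _ = M0 * T ^ 4 := by ring
    · rw [norm_zero]
      (clear * - hT hM0; positivity)
  refine (norm_sum_le _ _).trans ((Finset.sum_le_sum hterm).trans ?_)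
  rw [Finset.sum_const, Finset.card_range, nsmul_eq_mul]
  calc ((⌊T ^ 2⌋₊ + 1 : ℕ) : ℝ) * (M0 * T ^ 4) ≤ 2 * T ^ 2 * (M0 * T ^ 4) := by (clear * - hT hM0 hN; gcongr)
    _ = 2 * M0 * T ^ 6 := by ring

/-- the sum over `c` and `k` as an integral -/
theorem F2_cs {T ε : ℝ} {F : ℝ → ℂ} {kp km : ℝ → ℂ} {κ0 : ℂ} (hKD : KD T ε F kp km κ0) {A α1 α2 : ℝ} (hT : 2 ≤ T)
    (hA1 : T⁻¹ ≤ A) (hα2 : α2 ≤ 1) {g : ℝ → ℝ} {M0 : ℝ}
    (hsupp : ∀ x, g x ≠ 0 → α1 ≤ x ∧ x ≤ α2) (hM : ∀ x, |g x| ≤ M0) (dl h s : ℕ) (hh : 0 < h) (sg : ℤ)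
    (hsg : sg = 1 ∨ sg = -1) (S : Finset ℕ) (hS : ∀ k ∈ S, 0 < k) :
    cs F g T A dl h s sg S = ∫ t : ℝ, km t * (cexp ((Real.log h : ℂ) * (1 / 2 - t * I)) *
      ∑ n ∈ S.image (fun k : ℕ => sg * (k : ℤ)),
        ((rr dl n.natAbs : ℂ) / n.natAbs * cexp ((Real.log n.natAbs : ℂ) * (-(1 / 2 - t * I)))) *
        ∑' c : ℕ, (if 0 < c ∧ s ∣ c ∧ Nat.Coprime c h then
          Kl c h n * (g (Real.log (A * c) / Real.log T) : ℂ) * (c : ℂ) ^ (-(-1 + 2 * t * I : ℂ)) else 0)) := by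
  have hG := fun n : ℤ => (F2_inner (α1 := α1) hT hA1 hα2 hsupp hM h s n (-1) (by simp)).1
  have hG := hG 0
  set N := ⌊T ^ 2⌋₊ + 1 with hN
  set G : ℕ → ℂ := fun c => (g (Real.log (A * c) / Real.log T) : ℂ) with hGdef
  set Ic := (Finset.range N).filter (fun c => 0 < c ∧ s ∣ c ∧ Nat.Coprime c h) with hIc
  have hsum : ∀ f : ℕ → ℂ, (∀ c, N ≤ c → f c = 0) →
      ∑' c : ℕ, (if 0 < c ∧ s ∣ c ∧ Nat.Coprime c h then f c else 0) = ∑ c ∈ Ic, f c := by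
    intro f hf
    rw [tsum_eq_sum (s := Finset.range N) (by
      intro c hc
      rw [Finset.mem_range, not_lt] at hc
      split_ifs
      · exact hf c hc
      · rfl), hIc, Finset.sum_filter]
  have hinj : Set.InjOn (fun k : ℕ => sg * (k : ℤ)) (S : Set ℕ) := by
    intro a _ b _ hab
    have hab' : sg * (a : ℤ) = sg * (b : ℤ) := hab
    rcases hsg with rfl | rfl <;> (clear * - hab'; omega)
  have hnat : ∀ k : ℕ, (sg * (k : ℤ)).natAbs = k := by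
    intro k
    rcases hsg with rfl | rfl <;> simp
  have e1 : cs F g T A dl h s sg S = ∑ p ∈ Ic ×ˢ S, (G p.1 * ((rr dl p.2 : ℂ) / p.2 * Kl p.1 h (sg * p.2))) *
      ∫ t : ℝ, km t * (((h * (p.1 : ℝ) ^ 2 / p.2 : ℝ)) : ℂ) ^ (-(-1 / 2 + t * I : ℂ)) := by
    unfold cs
    rw [hsum (fun c => G c * ∑ k ∈ S, tm F dl h sg c k) (fun c hc => by rw [hGdef]; simp only; rw [hG c hc, zero_mul]),
      Finset.sum_product]
    refine Finset.sum_congr rfl fun c hc => ?_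
    rw [Finset.mul_sum]
    refine Finset.sum_congr rfl fun k hk => ?_
    have hc0 : (0 : ℝ) < c := by exact_mod_cast (Finset.mem_filter.1 hc).2.1
    have hk0 : (0 : ℝ) < k := by exact_mod_cast hS k hk
    have hh0 : (0 : ℝ) < h := by exact_mod_cast hh
    unfold tm
    rw [hKD.rm _ (by (clear * - hh hc0 hk0; positivity))]
    ring
  rw [e1, F2_rep hKD.im (Ic ×ˢ S) (fun p => G p.1 * ((rr dl p.2 : ℂ) / p.2 * Kl p.1 h (sg * p.2)))
    (fun p => (h * (p.1 : ℝ) ^ 2 / p.2 : ℝ)) (by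
      intro p hp
      rw [Finset.mem_product] at hp
      have hc0 : (0 : ℝ) < p.1 := by exact_mod_cast (Finset.mem_filter.1 hp.1).2.1
      have hk0 : (0 : ℝ) < p.2 := by exact_mod_cast hS p.2 hp.2
      have hh0 : (0 : ℝ) < h := by exact_mod_cast hh
      (clear * - hh hc0 hk0; positivity))]
  congr 1
  funext t
  congr 1
  rw [Finset.sum_image hinj, Finset.mul_sum, Finset.sum_product_right]
  refine Finset.sum_congr rfl fun k hk => ?_
  rw [hsum (fun c => Kl c h (sg * k) * (g (Real.log (A * c) / Real.log T) : ℂ) * (c : ℂ) ^ (-(-1 + 2 * t * I : ℂ)))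
    (fun c hc => by rw [hG c hc]; ring), hnat, Finset.mul_sum, Finset.mul_sum]
  refine Finset.sum_congr rfl fun c hc => ?_
  have hc0 : (0 : ℝ) < c := by exact_mod_cast (Finset.mem_filter.1 hc).2.1
  have hk0 : (0 : ℝ) < k := by exact_mod_cast hS k hk
  have hh0 : (0 : ℝ) < h := by exact_mod_cast hh
  have hcc : ((c : ℝ) : ℂ) = (c : ℂ) := by simp
  rw [F2_cpow _ (by (clear * - hh hc0 hk0; positivity) : (0 : ℝ) < h * (c : ℝ) ^ 2 / k), ← hcc, F2_cpow _ hc0]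
  have hlog : Real.log (h * (c : ℝ) ^ 2 / k) = Real.log h + 2 * Real.log c - Real.log k := by
    rw [Real.log_div (by (clear * - hh hc0; positivity)) hk0.ne', Real.log_mul hh0.ne' (by (clear * - hc0; positivity)), Real.log_pow]
    push_cast
    ring
  have hexp : cexp ((Real.log (h * (c : ℝ) ^ 2 / k) : ℂ) * (-(-1 / 2 + t * I))) =
      cexp ((Real.log h : ℂ) * (1 / 2 - t * I)) * cexp ((Real.log k : ℂ) * (-(1 / 2 - t * I))) *
      cexp ((Real.log c : ℂ) * (-(-1 + 2 * t * I))) := by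
    rw [← Complex.exp_add, ← Complex.exp_add, hlog]
    congr 1
    push_cast
    ring
  rw [hexp]
  ring

/-- final arithmetic -/
theorem F2_final {T x sT sh C3 C0 M0 K hC Q R B1 B2 : ℝ} (hT : 2 ≤ T) (hx : 1 ≤ x) (hsT : sT ^ 2 = T) (hsT0 : 0 < sT)
    (hshT : sh ≤ sT) (hC3 : 0 < C3) (hC0 : 0 < C0) (hM0 : 0 ≤ M0) (hK : 0 < K) (hQ : 0 ≤ Q)
    (hhC : 0 ≤ hC) (hR : R = C0 * x)
    (hB1 : B1 = 3 * C3 * x ^ 2 * hC * Q * R / K + sh * ((T ^ 10)⁻¹ * (5 * R)))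
    (hB2 : B2 = sh * (5 * R * (2 * M0 * T ^ 6))) :
    x / sT * B1 + (T ^ 40)⁻¹ * B2 ≤ (3 * C3 * C0 + 5 * C0 + 10 * C0 * M0) * x ^ 10 *
      (sT * (hC / T / K) * Q + T⁻¹) := by
  have hT0 : 0 < T := by linarith only [hT]
  set E := sT * (hC / T / K) * Q with hE
  have hE0 : 0 ≤ E := by (clear * - hT hsT0 hK hQ hhC; positivity)
  have hx4 : x ^ 4 ≤ x ^ 10 := pow_le_pow_right₀ hx (by norm_num)
  have hx2 : x ^ 2 ≤ x ^ 10 := pow_le_pow_right₀ hx (by norm_num)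
  have hx1 : x ≤ x ^ 10 := by
    calc x = x ^ 1 := (pow_one x).symm
      _ ≤ x ^ 10 := pow_le_pow_right₀ hx (by norm_num)
  have hx0 : 0 < x := by linarith only [hx]
  have e1 : x / sT * (3 * C3 * x ^ 2 * hC * Q * R / K) = 3 * C3 * C0 * x ^ 4 * E := by
    rw [hR, hE, ← hsT]
    field_simp
  have hT1 : (T ^ 10)⁻¹ ≤ T⁻¹ := by
    apply inv_anti₀ hT0
    calc T = T ^ 1 := (pow_one T).symm
      _ ≤ T ^ 10 := pow_le_pow_right₀ (by linarith only [hT]) (by norm_num)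
  have e2 : x / sT * (sh * ((T ^ 10)⁻¹ * (5 * R))) ≤ 5 * C0 * x ^ 2 * T⁻¹ := by
    have h1 : sh / sT ≤ 1 := (div_le_one hsT0).2 hshT
    calc x / sT * (sh * ((T ^ 10)⁻¹ * (5 * R))) = (sh / sT) * (5 * C0 * x ^ 2 * (T ^ 10)⁻¹) := by
          rw [hR]; ring
      _ ≤ 1 * (5 * C0 * x ^ 2 * T⁻¹) := by (clear * - hT hx hC0 hT1 h1; gcongr)
      _ = _ := one_mul _
  have e3 : (T ^ 40)⁻¹ * B2 ≤ 10 * C0 * M0 * x * T⁻¹ := by
    have h1 : sh ≤ T := by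
      refine hshT.trans ?_
      rw [← hsT]
      have : 1 ≤ sT := by nlinarith only [hT, hsT, hsT0]
      nlinarith only [hsT0, this]
    calc (T ^ 40)⁻¹ * B2 = 10 * C0 * M0 * x * ((T ^ 40)⁻¹ * (sh * T ^ 6)) := by rw [hB2, hR]; ring
      _ ≤ 10 * C0 * M0 * x * ((T ^ 40)⁻¹ * (T * T ^ 6)) := by (clear * - hT hx hC0 hM0 h1; gcongr)
      _ ≤ 10 * C0 * M0 * x * T⁻¹ := by
          gcongr
          rw [← pow_succ', inv_mul_le_iff₀ (by positivity)]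
          rw [← div_eq_mul_inv, le_div_iff₀ hT0, ← pow_succ]
          exact pow_le_pow_right₀ (by linarith only [hT]) (by norm_num)
  have hTi : 0 < T⁻¹ := inv_pos.2 hT0
  have f1 : 3 * C3 * C0 * x ^ 4 * E ≤ 3 * C3 * C0 * x ^ 10 * E := by (clear * - hT hsT0 hC3 hC0 hK hQ hhC hx4; gcongr)
  have f2 : 5 * C0 * x ^ 2 * T⁻¹ ≤ 5 * C0 * x ^ 10 * T⁻¹ := by (clear * - hT hC0 hx2; gcongr)
  have f3 : 10 * C0 * M0 * x * T⁻¹ ≤ 10 * C0 * M0 * x ^ 10 * T⁻¹ := by (clear * - hT hC0 hM0 hx1; gcongr)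
  have g1 : 0 ≤ 3 * C3 * C0 * x ^ 10 * T⁻¹ := by (clear * - hT hx hC3 hC0; positivity)
  have g2 : 0 ≤ 5 * C0 * x ^ 10 * E := by (clear * - hT hx hsT0 hC0 hK hQ hhC; positivity)
  have g3 : 0 ≤ 10 * C0 * M0 * x ^ 10 * E := by (clear * - hT hx hsT0 hC0 hM0 hK hQ hhC; positivity)
  rw [hB1, mul_add, e1]
  nlinarith only [e2, e3, f1, f2, f3, g1, g2, g3]

theorem F2_Kb {T ε A α1 α2 K h : ℝ} (hT1 : 1 ≤ T) (hA0 : 0 < A) (hh0 : 0 < h) (hx200 : 200 ≤ T ^ ε)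
    (hαε : α2 - α1 ≤ ε) (hK3 : K ≤ h * (T ^ α2 / A) ^ 2 * T ^ (-5 * ε)) :
    2 * K ≤ h * (T ^ α1 / A) ^ 2 / 25 := by
  have hT0 : 0 < T := by linarith only [hT1]
  set x := T ^ ε with hx
  have hx0 : 0 < x := by linarith only [hx200]
  set Cp := T ^ α2 / A with hCp
  have hCp0 : 0 < Cp := by (clear * - hT1 hA0; positivity)
  have hpow : ∀ a : ℝ, T ^ (a * ε) = x ^ a := by
    intro a
    rw [hx, mul_comm, Real.rpow_mul hT0.le]
  have h1 : Cp ^ 2 * (x ^ 2)⁻¹ ≤ (T ^ α1 / A) ^ 2 := by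
    have h2 : Cp * x⁻¹ ≤ T ^ α1 / A := by
      rw [hCp, div_mul_eq_mul_div]
      gcongr
      rw [hx, ← Real.rpow_neg hT0.le, ← Real.rpow_add hT0]
      exact Real.rpow_le_rpow_of_exponent_le hT1 (by linarith only [hαε])
    calc Cp ^ 2 * (x ^ 2)⁻¹ = (Cp * x⁻¹) ^ 2 := by rw [mul_pow, inv_pow]
      _ ≤ _ := by (clear * - hT1 hA0 h2; gcongr)
  have h3 : T ^ (-5 * ε) = (x ^ 5)⁻¹ := by
    rw [hpow, Real.rpow_neg hx0.le]
    congr 1
    exact_mod_cast Real.rpow_natCast x 5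
  have h4 : 2 * K ≤ 2 * (h * Cp ^ 2 * (x ^ 5)⁻¹) := by rw [← h3]; linarith only [hK3]
  refine h4.trans ?_
  have h5 : 50 * (x ^ 5)⁻¹ ≤ (x ^ 2)⁻¹ := by
    rw [← div_eq_mul_inv, div_le_iff₀ (by (clear * - hT1; positivity))]
    have : (x ^ 2)⁻¹ * x ^ 5 = x ^ 3 := by field_simp
    rw [this]
    nlinarith only [pow_le_pow_left₀ (by norm_num : (0 : ℝ) ≤ 200) hx200 3, hx200]
  calc 2 * (h * Cp ^ 2 * (x ^ 5)⁻¹) = h * Cp ^ 2 * (50 * (x ^ 5)⁻¹) / 25 := by ring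
    _ ≤ h * Cp ^ 2 * (x ^ 2)⁻¹ / 25 := by (clear * - hT1 hA0 hh0 h5; gcongr)
    _ = h * (Cp ^ 2 * (x ^ 2)⁻¹) / 25 := by ring
    _ ≤ h * (T ^ α1 / A) ^ 2 / 25 := by (clear * - hh0 h1; gcongr)

theorem F2_sqrt {K hs w w' : ℝ} (hK0 : 0 ≤ K) (hhs : 0 < hs) (hw : 0 ≤ w) (hw' : 0 ≤ w') (hle : w ≤ w') :
    √((1 + 2 * K / hs) * (1 + w)) ≤ 3 / 2 * √((1 + K / hs) * (1 + w')) := by
  set Q := √((1 + K / hs) * (1 + w')) with hQ
  apply Real.sqrt_le_iff.2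
  refine ⟨by (clear * - hK0 hhs hw'; positivity), ?_⟩
  have hk : 0 ≤ K / hs := by (clear * - hK0 hhs; positivity)
  have hq : Q ^ 2 = (1 + K / hs) * (1 + w') := Real.sq_sqrt (by (clear * - hK0 hhs hw'; positivity))
  calc (1 + 2 * K / hs) * (1 + w) ≤ (2 * (1 + K / hs)) * (1 + w') := by
        gcongr
        · rw [mul_div_assoc]
          linarith only []
    _ = 2 * Q ^ 2 := by rw [hq]; ring
    _ ≤ (3 / 2 * Q) ^ 2 := by nlinarith only [sq_nonneg Q]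

theorem F2_card {K : ℝ} (hK0 : 0 < K) (hK1 : 1 / 2 ≤ K) : ((Finset.Ioc ⌊K⌋₊ ⌊2 * K⌋₊).card : ℝ) ≤ 3 * K := by
  rw [Nat.card_Ioc]
  have h1 : ((⌊2 * K⌋₊ - ⌊K⌋₊ : ℕ) : ℝ) = (⌊2 * K⌋₊ : ℝ) - ⌊K⌋₊ :=
    Nat.cast_sub (Nat.floor_le_floor (by linarith only [hK0]))
  have h2 := Nat.floor_le (by (clear * - hK0; positivity) : 0 ≤ 2 * K)
  have h3 := Nat.lt_floor_add_one K
  rw [h1]
  linarith only [hK0, h2]

/-- sums of the coefficients -/
theorem F2_coef {K R D : ℝ} (hK0 : 0 < K) (hK1 : 1 / 2 ≤ K) (hR0 : 0 < R) (hD : D = R / (K * √K)) (S : Finset ℕ)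
    (hS : (S.card : ℝ) ≤ 3 * K) (b : ℕ → ℝ) (hb0 : ∀ k, 0 ≤ b k) (hb : ∀ k ∈ S, b k ≤ D) :
    √(∑ k ∈ S, b k ^ 2) ≤ 2 * R / K ∧ ∑ k ∈ S, b k ≤ 5 * R := by
  have hD0 : 0 < D := by rw [hD]; (clear * - hK0 hR0; positivity)
  constructor
  · apply Real.sqrt_le_iff.2
    refine ⟨by (clear * - hK0 hR0; positivity), ?_⟩
    calc ∑ k ∈ S, b k ^ 2 ≤ ∑ k ∈ S, D ^ 2 :=
          Finset.sum_le_sum fun k hk => by
            have := hb k hk
            have := hb0 k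
            gcongr
      _ = S.card * D ^ 2 := by rw [Finset.sum_const, nsmul_eq_mul]
      _ ≤ 3 * K * D ^ 2 := by (clear * - hS hD0; gcongr)
      _ = 3 * (R / K) ^ 2 := by
          have e0 : (K * √K) ^ 2 = K ^ 3 := by
            calc (K * √K) ^ 2 = K ^ 2 * (√K) ^ 2 := by ring
              _ = K ^ 3 := by rw [Real.sq_sqrt hK0.le]; ring
          have e1 : D ^ 2 = R ^ 2 / K ^ 3 := by
            rw [hD, div_pow, e0]
          rw [e1]
          field_simp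
      _ ≤ (2 * R / K) ^ 2 := by
          have : 0 ≤ (R / K) ^ 2 := by (clear * - hK0 hR0; positivity)
          have e : (2 * R / K) ^ 2 = 4 * (R / K) ^ 2 := by ring
          rw [e]
          linarith only [this]
  · have hsK : (3 / 5 : ℝ) ≤ √K := by
      apply Real.le_sqrt_of_sq_le
      norm_num
      linarith only [hK0, hK1]
    calc ∑ k ∈ S, b k ≤ ∑ k ∈ S, D := Finset.sum_le_sum fun k hk => hb k hk
      _ = S.card * D := by rw [Finset.sum_const, nsmul_eq_mul]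
      _ ≤ 3 * K * D := by (clear * - hS hD0; gcongr)
      _ = 3 * R / √K := by rw [hD]; field_simp
      _ ≤ 5 * R := by
          rw [div_le_iff₀ (by linarith only [hsK])]
          nlinarith only [hR0, hsK]

theorem F2_arg {T ε K y : ℝ} (hT1 : 1 ≤ T) (hK0 : 0 < K) (hx200 : 200 ≤ T ^ ε) (hK2 : y / T ≤ K) :
    200 * T ^ (-ε) * max (y / (2 * K)) 1 ≤ T := by
  have hT0 : 0 < T := by linarith only [hT1]
  have hx0 : 0 < T ^ ε := by (clear * - hT1; positivity)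
  have e1 : T ^ (-ε) = (T ^ ε)⁻¹ := Real.rpow_neg hT0.le _
  have e2 : max (y / (2 * K)) 1 ≤ T := by
    apply max_le _ hT1
    rw [div_le_iff₀ (by positivity)]
    rw [div_le_iff₀ hT0] at hK2
    nlinarith only [hT1, hK0, hK2]
  have e3 : (1 : ℝ) ≤ max (y / (2 * K)) 1 := le_max_right _ _
  rw [e1]
  calc 200 * (T ^ ε)⁻¹ * max (y / (2 * K)) 1 ≤ 1 * T := by
        gcongr
        rw [← div_eq_mul_inv, div_le_one hx0]
        exact hx200
    _ = T := one_mul T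

theorem F2_pow8 {T ε : ℝ} (hT0 : 0 < T) : (T ^ 8) ^ (ε / 8) = T ^ ε := by
  rw [← Real.rpow_natCast, ← Real.rpow_mul hT0.le]
  congr 1
  push_cast
  ring

/-- **F2. `K < k ≤ 2K`**, `max(Y₀,1/2) ≤ K ≤ Y₀ T^{1-5ε}`, `Y₀ = h Cp²/T`: `F(h c²/k) = ∫ km(t) h^{1/2-it} c^{1-2it} k^{-1/2+it} dt`,
E3 with `z = -1+2it`, `a = rr dl k · k^{-3/2+it}`, `∑|a|² ≤ T^{5ε} K⁻²`, `Kb = 2K ≤ h Cm²/25`; `h Cp²/(2K) ≤ T/2`. The factor
`√h √h Cp² K⁻¹ T^{-1/2} = T^{1/2} (h Cp²/T/K)`. Tails `|t| > T^ε` trivially by `tm`. -/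
theorem blk_dyad {ε : ℝ} (hε : 0 < ε) (hε1 : ε ≤ 1 / 100) (M : ℕ → ℝ) : ∃ C T₀ : ℝ, 0 < C ∧
    ∀ T ≥ T₀, ∀ (F : ℝ → ℂ) (kp km : ℝ → ℂ) (κ0 : ℂ), KD T ε F kp km κ0 →
    ∀ h s dl : ℕ, 0 < h → 0 < s → 0 < dl → Nat.Coprime h s → (h : ℝ) ≤ T → (s : ℝ) ≤ T →
    (dl : ℝ) ≤ T ^ 2 → ∀ α1 α2 A : ℝ, 0 ≤ α1 → α1 ≤ α2 → α2 ≤ 1 → α2 - α1 ≤ ε → T⁻¹ ≤ A → A ≤ T ^ 3 →
    ∀ g : ℝ → ℝ, ContDiff ℝ (⊤ : ℕ∞) g → (∀ x, g x ≠ 0 → α1 ≤ x ∧ x ≤ α2) →
    (∀ n x, |iteratedDeriv n g x| ≤ M n) → ∀ sg : ℤ, (sg = 1 ∨ sg = -1) →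
    ∀ K : ℝ, 1 / 2 ≤ K → h * (T ^ α2 / A) ^ 2 / T ≤ K → K ≤ h * (T ^ α2 / A) ^ 2 * T ^ (-5 * ε) →
    ‖cs F g T A dl h s sg (Finset.Ioc ⌊K⌋₊ ⌊2 * K⌋₊)‖ ≤
      C * T ^ (10 * ε) * (T ^ (1 / 2 : ℝ) * (h * (T ^ α2 / A) ^ 2 / T / K) *
        √((1 + K / (h * s)) * (1 + WW (h * s) T)) + T ^ (-1 : ℝ)) := by
  obtain ⟨C3, T3, hC3, h3⟩ := smooth_sum hε hε1 M
  obtain ⟨C0, hC0, h0⟩ := rr_bound (ε := ε / 8) (by (clear * - hε; positivity))
  refine ⟨3 * C3 * C0 + 5 * C0 + 10 * C0 * |M 0|, max (max T3 2) (200 ^ (1 / ε)), by (clear * - hC3 hC0; positivity), ?_⟩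
  intro T hT F kp km κ0 hKD h s dl hh hs hdl hcop hhT hsT hdlT α1 α2 A hα1 hα12 hα2 hαε hA1 hA2 g hg hsupp hM sg hsg
    K hK1 hK2 hK3
  have hT3 : T3 ≤ T := (le_max_left _ _).trans ((le_max_left _ _).trans hT)
  have hT2 : 2 ≤ T := (le_max_right _ _).trans ((le_max_left _ _).trans hT)
  have hTε' : (200 : ℝ) ^ (1 / ε) ≤ T := (le_max_right _ _).trans hT
  have hT0 : 0 < T := by linarith only [hε, hε1, hT2]
  have hT1 : 1 ≤ T := by linarith only [hε, hε1, hT2]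
  set x := T ^ ε with hx
  have hx200 : 200 ≤ x := by
    have h1 := Real.rpow_le_rpow (by positivity) hTε' hε.le
    rwa [← Real.rpow_mul (by norm_num), one_div, inv_mul_cancel₀ hε.ne', Real.rpow_one] at h1
  have hx1 : 1 ≤ x := by linarith only [hε, hε1, hx200]
  have hx0 : 0 < x := by linarith only [hε, hε1, hx200]
  have hA0 : 0 < A := lt_of_lt_of_le (inv_pos.2 hT0) hA1
  have hh0 : (0 : ℝ) < h := by exact_mod_cast hh
  have hs0 : (0 : ℝ) < s := by exact_mod_cast hs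
  have hh1 : (1 : ℝ) ≤ h := by exact_mod_cast hh
  have hK0 : 0 < K := by linarith only [hε, hε1, hK1]
  set Cp := T ^ α2 / A with hCp
  have hCp0 : 0 < Cp := by (clear * - hT2 hA0; positivity)
  have hM0 : ∀ y, |g y| ≤ M 0 := by
    intro y
    have := hM 0 y
    rwa [iteratedDeriv_zero] at this
  have hM00 : 0 ≤ M 0 := (abs_nonneg _).trans (hM0 0)
  have habsM : |M 0| = M 0 := abs_of_nonneg hM00
  have hpow : ∀ a : ℝ, T ^ (a * ε) = x ^ a := by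
    intro a
    rw [hx, mul_comm, Real.rpow_mul hT0.le]
  -- sizes
  have hCpT : Cp ≤ T ^ 2 := by
    rw [hCp, div_le_iff₀ hA0]
    have h1 : T ^ α2 ≤ T := by
      calc T ^ α2 ≤ T ^ (1 : ℝ) := Real.rpow_le_rpow_of_exponent_le hT1 hα2
        _ = T := Real.rpow_one T
    have h2 : 1 ≤ T * A := by
      have := mul_le_mul_of_nonneg_left hA1 hT0.le
      rwa [mul_inv_cancel₀ hT0.ne'] at this
    nlinarith only [hε, hε1, hhT, h1, h2]
  have hKT : K ≤ T ^ 5 := by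
    have h1 : T ^ (-5 * ε) ≤ 1 := Real.rpow_le_one_of_one_le_of_nonpos hT1 (by nlinarith only [hε])
    calc K ≤ h * Cp ^ 2 * T ^ (-5 * ε) := hK3
      _ ≤ T * (T ^ 2) ^ 2 * 1 := by (clear * - hhT hT2 hA0 hCpT h1; gcongr)
      _ = T ^ 5 := by ring
  -- the bound for `rr`
  set S := Finset.Ioc ⌊K⌋₊ ⌊2 * K⌋₊ with hS
  have hSK : ∀ k ∈ S, K < (k : ℝ) ∧ (k : ℝ) ≤ 2 * K := by
    intro k hk
    rw [hS, Finset.mem_Ioc] at hk
    exact ⟨(Nat.floor_lt hK0.le).1 hk.1, (Nat.le_floor_iff (by (clear * - hK1; positivity))).1 hk.2⟩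
  have hS0 : ∀ k ∈ S, 0 < k := by
    intro k hk
    have := (hSK k hk).1
    exact_mod_cast hK0.trans this
  set R := C0 * x with hR
  have hR0 : 0 < R := by (clear * - hC0 hT2; positivity)
  have hrr : ∀ k ∈ S, (rr dl k : ℝ) ≤ R := by
    intro k hk
    refine (h0 dl k hdl (hS0 k hk)).trans ?_
    rw [hR]
    gcongr
    have h1 : ((dl : ℝ) * k) ≤ T ^ 8 := by
      calc ((dl : ℝ) * k) ≤ T ^ 2 * (2 * T ^ 5) := by
            gcongr
            exact (hSK k hk).2.trans (by linarith only [hKT])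
        _ ≤ T ^ 2 * (T * T ^ 5) := by (clear * - hT2; gcongr)
        _ = T ^ 8 := by ring
    calc ((dl : ℝ) * k) ^ (ε / 8) ≤ (T ^ 8) ^ (ε / 8) := Real.rpow_le_rpow (by (clear * - hdl; positivity)) h1 (by (clear * - hε; positivity))
      _ = x := F2_pow8 hT0
  have hScard : (S.card : ℝ) ≤ 3 * K := F2_card hK0 hK1
  -- the coefficients
  set Fs := S.image (fun k : ℕ => sg * (k : ℤ)) with hFs
  have hnat : ∀ k : ℕ, (sg * (k : ℤ)).natAbs = k := by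
    intro k
    rcases hsg with rfl | rfl <;> simp
  have hinj : Set.InjOn (fun k : ℕ => sg * (k : ℤ)) (S : Set ℕ) := by
    intro a _ b _ hab
    have hab' : sg * (a : ℤ) = sg * (b : ℤ) := hab
    rcases hsg with rfl | rfl <;> (clear * - hab'; omega)
  set a : ℝ → ℤ → ℂ := fun t n => (rr dl n.natAbs : ℂ) / n.natAbs * cexp ((Real.log n.natAbs : ℂ) * (-(1 / 2 - t * I)))
    with ha
  set D := R / (K * √K) with hD
  have hD0 : 0 < D := by (clear * - hC0 hK1 hT2; positivity)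
  have han : ∀ t, ∀ k ∈ S, ‖a t (sg * (k : ℤ))‖ ≤ D := by
    intro t k hk
    have hk0 : (0 : ℝ) < k := by exact_mod_cast hS0 k hk
    simp only [ha, hnat]
    rw [norm_mul, F2_norm, norm_div, norm_natCast, norm_natCast]
    have e1 : (-(1 / 2 - (t : ℂ) * I)).re = -(1 / 2) := by simp
    have e2 : Real.exp (Real.log k * -(1 / 2)) = (√k)⁻¹ := by
      rw [mul_neg, Real.exp_neg, mul_one_div, ← Real.log_sqrt hk0.le, Real.exp_log (Real.sqrt_pos.2 hk0)]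
    rw [e1, e2, hD]
    have h1 := hrr k hk
    have h2 := (hSK k hk).1.le
    calc (rr dl k : ℝ) / k * (√k)⁻¹ = (rr dl k : ℝ) / (k * √k) := by
          rw [div_mul_eq_div_div, div_eq_mul_inv (_ / _)]
      _ ≤ R / (K * √K) := by
          have q1 : K * √K ≤ k * √k := mul_le_mul h2 (Real.sqrt_le_sqrt h2) (Real.sqrt_nonneg _) hk0.le
          exact div_le_div₀ ((Nat.cast_nonneg _).trans h1) h1 (by (clear * - hK1; positivity)) q1
  have hsum2 : ∀ t, √(∑ n ∈ Fs, ‖a t n‖ ^ 2) ≤ 2 * R / K := by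
    intro t
    rw [hFs, Finset.sum_image hinj]
    exact (F2_coef hK0 hK1 hR0 hD S hScard (fun k => ‖a t (sg * (k : ℤ))‖) (fun k => norm_nonneg _) (han t)).1
  have hsum1 : ∀ t, ∑ n ∈ Fs, ‖a t n‖ ≤ 5 * R := by
    intro t
    rw [hFs, Finset.sum_image hinj]
    exact (F2_coef hK0 hK1 hR0 hD S hScard (fun k => ‖a t (sg * (k : ℤ))‖) (fun k => norm_nonneg _) (han t)).2
  -- the function `W`
  set Q := √((1 + K / (h * s)) * (1 + WW (h * s) T)) with hQ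
  have hQ0 : 0 ≤ Q := Real.sqrt_nonneg _
  set sh := √(h : ℝ) with hsh
  have hsh2 : sh ^ 2 = h := Real.sq_sqrt hh0.le
  have hsh0 : 0 ≤ sh := Real.sqrt_nonneg _
  set sT := √T with hsT'
  have hsT2 : sT ^ 2 = T := Real.sq_sqrt hT0.le
  have hsT0 : 0 < sT := Real.sqrt_pos.2 hT0
  set W : ℝ → ℂ := fun t => cexp ((Real.log h : ℂ) * (1 / 2 - t * I)) * ∑ n ∈ Fs, a t n *
        ∑' c : ℕ, (if 0 < c ∧ s ∣ c ∧ Nat.Coprime c h then
          Kl c h n * (g (Real.log (A * c) / Real.log T) : ℂ) * (c : ℂ) ^ (-(-1 + 2 * t * I : ℂ)) else 0) with hW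
  have hcs : cs F g T A dl h s sg S = ∫ t : ℝ, km t * W t :=
    F2_cs hKD hT2 hA1 hα2 hsupp hM0 dl h s hh sg hsg S hS0
  have hHn : ∀ t : ℝ, ‖cexp ((Real.log h : ℂ) * (1 / 2 - t * I))‖ = sh := by
    intro t
    rw [F2_norm]
    have e1 : ((1 / 2 - (t : ℂ) * I)).re = 1 / 2 := by simp
    rw [e1, mul_one_div, ← Real.log_sqrt hh0.le, Real.exp_log (Real.sqrt_pos.2 hh0)]
  set hC := (h : ℝ) * Cp ^ 2 with hhC
  have hhC0 : 0 ≤ hC := by (clear * - hh hT2 hA0; positivity)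
  set B1 := 3 * C3 * x ^ 2 * hC * Q * R / K + sh * ((T ^ 10)⁻¹ * (5 * R)) with hB1
  set B2 := sh * (5 * R * (2 * M 0 * T ^ 6)) with hB2
  have hW2 : ∀ t, ‖W t‖ ≤ B2 := by
    intro t
    rw [hW]
    simp only
    rw [norm_mul, hHn, hB2]
    gcongr
    refine (norm_sum_le _ _).trans ?_
    calc ∑ n ∈ Fs, ‖a t n * _‖ ≤ ∑ n ∈ Fs, ‖a t n‖ * (2 * M 0 * T ^ 6) := by
          refine Finset.sum_le_sum fun n _ => ?_
          rw [norm_mul]
          gcongr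
          exact (F2_inner hT2 hA1 hα2 hsupp hM0 h s n _ (by simp)).2
      _ = (∑ n ∈ Fs, ‖a t n‖) * (2 * M 0 * T ^ 6) := by rw [Finset.sum_mul]
      _ ≤ 5 * R * (2 * M 0 * T ^ 6) := by
          gcongr
          exact hsum1 t
  have hWmono : WW (h * s) (200 * T ^ (-ε) * max (h * Cp ^ 2 / (2 * K)) 1) ≤ WW (h * s) T := by
    apply WW_mono
    exact F2_arg hT1 hK0 hx200 hK2
  have hW1 : ∀ t, |t| ≤ T ^ ε → ‖W t‖ ≤ B1 := by
    intro t ht
    have hz : ‖(-1 + 2 * (t : ℂ) * I)‖ ≤ 5 * T ^ ε := by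
      calc ‖(-1 + 2 * (t : ℂ) * I)‖ ≤ ‖(-1 : ℂ)‖ + ‖2 * (t : ℂ) * I‖ := norm_add_le _ _
        _ = 1 + 2 * |t| := by simp
        _ ≤ 5 * T ^ ε := by rw [← hx]; rw [← hx] at ht; linarith only [hε, hε1, hx200, ht]
    have hre : (-1 + 2 * (t : ℂ) * I).re = -1 := by simp
    have hKb : 2 * K ≤ h * (T ^ α1 / A) ^ 2 / 25 := F2_Kb hT1 hA0 hh0 hx200 hαε hK3
    have hFn : ∀ n ∈ Fs, |(n : ℝ)| ≤ 2 * K := by
      intro n hn
      rw [hFs, Finset.mem_image] at hn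
      obtain ⟨k, hk, rfl⟩ := hn
      have h1 := (hSK k hk).2
      have h2 : |((sg * (k : ℤ) : ℤ) : ℝ)| = k := by
        rcases hsg with rfl | rfl <;> simp
      rw [h2]
      exact h1
    have hE3 := h3 T hT3 h s hh hs hcop hhT hsT α1 α2 A hα1 hα12 hα2 hA1 hA2 g hg hsupp hM (2 * K) (by linarith only [hK1]) hKb
      Fs hFn (a t) (-1 + 2 * (t : ℂ) * I) (by rw [hre]; norm_num) hz
    rw [hre] at hE3
    have hsqrt : √((1 + 2 * K / (h * s)) * (1 + WW (h * s) (200 * T ^ (-ε) * max (h * Cp ^ 2 / (2 * K)) 1))) ≤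
        3 / 2 * Q := F2_sqrt hK0.le (by (clear * - hh hs; positivity)) (WW_nonneg (h * s) _) (WW_nonneg (h * s) T) hWmono
    have e1 : T ^ (2 * ε) = x ^ 2 := by
      rw [hpow]
      exact_mod_cast Real.rpow_natCast x 2
    have e2 : Cp ^ (1 - (-1 : ℝ)) = Cp ^ 2 := by
      norm_num
    have e3 : T ^ (-10 : ℝ) = (T ^ 10)⁻¹ := by
      rw [Real.rpow_neg hT0.le]
      congr 1
      exact_mod_cast Real.rpow_natCast T 10
    rw [e1, e3, ← hCp, e2] at hE3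
    rw [hW]
    simp only
    rw [norm_mul, hHn]
    calc sh * _ ≤ sh * (C3 * x ^ 2 * sh * Cp ^ 2 * (3 / 2 * Q) * (2 * R / K) + (T ^ 10)⁻¹ * (5 * R)) := by
          apply mul_le_mul_of_nonneg_left _ hsh0
          refine hE3.trans ?_
          have h5 := hsum2 t
          have h6 := hsum1 t
          have n1 : 0 ≤ C3 * x ^ 2 * sh * Cp ^ 2 := by (clear * - hC3 hh hA0; positivity)
          exact add_le_add (mul_le_mul (mul_le_mul_of_nonneg_left hsqrt n1) h5 (Real.sqrt_nonneg _)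
            (mul_nonneg n1 ((Real.sqrt_nonneg _).trans hsqrt)))
            (mul_le_mul_of_nonneg_left h6 (inv_nonneg.mpr (pow_nonneg hT0.le 10)))
      _ = B1 := by
          rw [hB1, hhC, ← hsh2]
          ring
  have hB10 : 0 ≤ B1 := by (clear * - hC3 hC0 hh hK1 hT2 hA0; positivity)
  have hB20 : 0 ≤ B2 := by (clear * - hC0 hh hT2 hM00; positivity)
  rw [hcs]
  refine (F2_split hKD W B1 B2 hB10 hB20 hW1 hW2).trans ?_
  have f1 : T ^ (-1 / 2 + ε) = x / sT := by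
    rw [Real.rpow_add hT0, ← hx, hsT', Real.sqrt_eq_rpow, show (-1 / 2 : ℝ) = -(1 / 2) by norm_num, Real.rpow_neg hT0.le]
    ring
  have f2 : T ^ (-40 : ℝ) = (T ^ 40)⁻¹ := by
    rw [Real.rpow_neg hT0.le]
    congr 1
    exact_mod_cast Real.rpow_natCast T 40
  have f3 : T ^ (10 * ε) = x ^ 10 := by
    rw [hpow]
    exact_mod_cast Real.rpow_natCast x 10
  have f4 : T ^ (1 / 2 : ℝ) = sT := by rw [hsT', Real.sqrt_eq_rpow]
  have f5 : T ^ (-1 : ℝ) = T⁻¹ := Real.rpow_neg_one T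
  rw [f1, f2, f3, f4, f5, habsM]
  exact F2_final hT2 hx1 hsT2 hsT0 (Real.sqrt_le_sqrt hhT) hC3 hC0 hM00 hK0 hQ0 hhC0 hR hB1 hB2

end SG

end

section

namespace SG
open Complex MeasureTheory Filter Topology Set S6
open scoped Real ComplexConjugate

private theorem G1a_zsum {q : ℕ} [NeZero q] (F : ZMod q → ℂ) :
    ∑ a : ZMod q, F a = ∑ a ∈ Finset.range q, F (a : ZMod q) := by
  refine Finset.sum_bij' (fun a _ => a.val) (fun a _ => (a : ZMod q)) ?_ ?_ ?_ ?_ ?_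
  · intro a _
    exact Finset.mem_range.mpr (ZMod.val_lt a)
  · intro a _
    exact Finset.mem_univ _
  · intro a _
    exact ZMod.natCast_zmod_val a
  · intro a ha
    exact ZMod.val_cast_of_lt (Finset.mem_range.mp ha)
  · intro a _
    rw [ZMod.natCast_zmod_val a]

private theorem G1a_fiber {q : ℕ} (hq : 0 < q) (F : ℕ → ℂ) :
    ∑ a ∈ Finset.range q, F a =
      ∑ d ∈ q.divisors, ∑ a ∈ (Finset.range (q / d)).filter (fun a => Nat.Coprime a (q / d)),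
        F (d * a) := by
  rw [Finset.sum_sigma']
  refine Finset.sum_bij' (fun a _ => (⟨Nat.gcd a q, a / Nat.gcd a q⟩ : (_ : ℕ) × ℕ))
    (fun p _ => p.1 * p.2) ?_ ?_ ?_ ?_ ?_
  · intro a ha
    have ha' := Finset.mem_range.mp ha
    have hg : 0 < Nat.gcd a q := Nat.gcd_pos_of_pos_right a hq
    simp only [Finset.mem_sigma, Nat.mem_divisors, Finset.mem_filter, Finset.mem_range]
    refine ⟨⟨Nat.gcd_dvd_right a q, hq.ne'⟩, ?_, Nat.coprime_div_gcd_div_gcd hg⟩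
    exact Nat.div_lt_div_of_lt_of_dvd (Nat.gcd_dvd_right a q) ha'
  · rintro ⟨d, a⟩ hp
    simp only [Finset.mem_sigma, Nat.mem_divisors, Finset.mem_filter, Finset.mem_range] at hp
    obtain ⟨⟨hd, _⟩, ha, _⟩ := hp
    obtain ⟨m, rfl⟩ := hd
    have hd0 : 0 < d := Nat.pos_of_ne_zero (by rintro rfl; simp at hq)
    rw [Nat.mul_div_cancel_left _ hd0] at ha
    exact Finset.mem_range.mpr (Nat.mul_lt_mul_of_pos_left ha hd0)
  · intro a ha
    exact Nat.mul_div_cancel' (Nat.gcd_dvd_left a q)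
  · rintro ⟨d, a⟩ hp
    simp only [Finset.mem_sigma, Nat.mem_divisors, Finset.mem_filter, Finset.mem_range] at hp
    obtain ⟨⟨hd, _⟩, ha, hc⟩ := hp
    obtain ⟨m, rfl⟩ := hd
    have hd0 : 0 < d := Nat.pos_of_ne_zero (by rintro rfl; simp at hq)
    rw [Nat.mul_div_cancel_left _ hd0] at ha hc
    have hg : Nat.gcd (d * a) (d * m) = d := by
      rw [Nat.gcd_mul_left, hc.gcd_eq_one, mul_one]
    simp only [hg, Nat.mul_div_cancel_left _ hd0]
  · intro a ha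
    simp only [Nat.mul_div_cancel' (Nat.gcd_dvd_left a q)]

private theorem G1a_block (m d : ℕ) (F : ℕ → ℂ) :
    ∑ b ∈ Finset.range (d * m), F b =
      ∑ i ∈ Finset.range m, ∑ j ∈ Finset.range d, F (i + m * j) := by
  rw [Finset.sum_comm]
  induction d with
  | zero => simp
  | succ d ih =>
    rw [Finset.sum_range_succ, ← ih, show (d + 1) * m = d * m + m by ring, Finset.sum_range_add]
    congr 1
    refine Finset.sum_congr rfl fun i _ => ?_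
    congr 1
    ring

private theorem G1a_std {m : ℕ} [NeZero m] (k : ℤ) :
    (ZMod.stdAddChar ((k : ℤ) : ZMod m) : ℂ) = ex ((k : ℝ) / m) := by
  rw [ZMod.stdAddChar_coe, ex]
  congr 1
  push_cast
  ring

private theorem G1a_exadd (u v : ℝ) : ex (u + v) = ex u * ex v := by
  rw [ex, ex, ex, ← Complex.exp_add]
  congr 1
  push_cast
  ring

private theorem G1a_orth {d : ℕ} [NeZero d] (y : ℤ) :
    ∑ j ∈ Finset.range d, ex (((y * j : ℤ) : ℝ) / d) = if (d : ℤ) ∣ y then (d : ℂ) else 0 := by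
  have e1 : ∑ j ∈ Finset.range d, ex (((y * j : ℤ) : ℝ) / d) =
      ∑ j : ZMod d, (ZMod.stdAddChar (j * (y : ZMod d)) : ℂ) := by
    rw [G1a_zsum]
    refine Finset.sum_congr rfl fun j _ => ?_
    rw [← G1a_std]
    congr 1
    push_cast
    ring
  rw [e1, AddChar.sum_mulShift _ (ZMod.isPrimitive_stdAddChar d), ZMod.card]
  by_cases hy : (d : ℤ) ∣ y
  · rw [if_pos hy, if_pos ((ZMod.intCast_zmod_eq_zero_iff_dvd y d).mpr hy)]
  · rw [if_neg hy, if_neg (fun h' => hy ((ZMod.intCast_zmod_eq_zero_iff_dvd y d).mp h'))]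
    simp

private theorem G1a_inner {d m h : ℕ} [NeZero d] [NeZero m] [NeZero (d * m)]
    (hco : Nat.Coprime h (d * m)) (x y z : ℤ) (a : ℕ) (ha : Nat.Coprime a m) :
    ∑ b ∈ Finset.range (d * m),
      (ZMod.stdAddChar ((x : ZMod (d * m)) * ((d * a : ℕ) : ZMod (d * m)) +
        (y : ZMod (d * m)) * (b : ZMod (d * m))) : ℂ) *
        (if (h : ZMod (d * m)) * ((d * a : ℕ) : ZMod (d * m)) * (b : ZMod (d * m)) = (z : ZMod (d * m))
          then ((d * m : ℕ) : ℂ) else 0) =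
      if (d : ℤ) ∣ y ∧ (d : ℤ) ∣ z then
        ((d * m : ℕ) : ℂ) * ((d : ℂ) * ex ((x * a + ((y / d) * (z / d) : ℤ) * iv m h a) / m)) else 0 := by
  have hd0 : (d : ℝ) ≠ 0 := Nat.cast_ne_zero.mpr (NeZero.ne d)
  have hm0 : (m : ℝ) ≠ 0 := Nat.cast_ne_zero.mpr (NeZero.ne m)
  have hdz : (d : ℤ) ≠ 0 := Int.natCast_ne_zero.mpr (NeZero.ne d)
  -- the character
  have hchar : ∀ i j : ℕ, (ZMod.stdAddChar ((x : ZMod (d * m)) * ((d * a : ℕ) : ZMod (d * m)) +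
      (y : ZMod (d * m)) * ((i + m * j : ℕ) : ZMod (d * m))) : ℂ) =
      ex (((x * a : ℤ) : ℝ) / m) * ex ((y * i : ℝ) / (d * m)) * ex (((y * j : ℤ) : ℝ) / d) := by
    intro i j
    have e1 : (x : ZMod (d * m)) * ((d * a : ℕ) : ZMod (d * m)) +
        (y : ZMod (d * m)) * ((i + m * j : ℕ) : ZMod (d * m)) =
        ((x * (d * a) + y * (i + m * j) : ℤ) : ZMod (d * m)) := by
      push_cast
      ring
    rw [e1, G1a_std, ← G1a_exadd, ← G1a_exadd]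
    congr 1
    push_cast
    field_simp
    ring
  by_cases hz : (d : ℤ) ∣ z
  · obtain ⟨z', rfl⟩ := hz
    set w : ZMod m := ((h * a : ℤ) : ZMod m)⁻¹ * (z' : ZMod m) with hw
    have hunit : ((h * a : ℤ) : ZMod m)⁻¹ * ((h * a : ℤ) : ZMod m) = 1 := by
      have hc : Nat.Coprime (h * a) m := by
        have h1 : Nat.Coprime h m := Nat.Coprime.coprime_dvd_right (Dvd.intro_left d rfl) hco
        exact Nat.Coprime.mul_left h1 ha
      have hu : IsUnit (((h * a : ℕ) : ZMod m)) := (ZMod.isUnit_iff_coprime _ _).mpr hc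
      have := ZMod.inv_mul_of_unit _ hu
      push_cast at this ⊢
      exact this
    have hcond : ∀ i ∈ Finset.range m, ∀ j : ℕ,
        ((h : ZMod (d * m)) * ((d * a : ℕ) : ZMod (d * m)) * ((i + m * j : ℕ) : ZMod (d * m)) =
          ((d * z' : ℤ) : ZMod (d * m)) ↔ i = w.val) := by
      intro i hi j
      have e1 : (h : ZMod (d * m)) * ((d * a : ℕ) : ZMod (d * m)) * ((i + m * j : ℕ) : ZMod (d * m)) =
          ((d * (h * a * (i + m * j)) : ℤ) : ZMod (d * m)) := by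
        push_cast
        ring
      rw [e1, ZMod.intCast_eq_intCast_iff_dvd_sub]
      have e2 : (d * z' : ℤ) - d * (h * a * (i + m * j)) = d * (z' - h * a * (i + m * j)) := by ring
      rw [e2]
      push_cast
      rw [mul_dvd_mul_iff_left hdz, ← ZMod.intCast_eq_intCast_iff_dvd_sub]
      have e3 : ((h * a * (i + m * j) : ℤ) : ZMod m) = ((h * a : ℤ) : ZMod m) * (i : ZMod m) := by
        push_cast
        rw [ZMod.natCast_self]
        ring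
      rw [e3]
      constructor
      · intro hh
        have : (i : ZMod m) = w := by
          rw [hw, ← hh, ← mul_assoc, hunit, one_mul]
        rw [← this, ZMod.val_cast_of_lt (Finset.mem_range.mp hi)]
      · intro hh
        rw [hh, ZMod.natCast_zmod_val, hw, ← mul_assoc, mul_comm _ (((h * a : ℤ) : ZMod m)⁻¹), hunit,
          one_mul]
    rw [G1a_block]
    have hstep : ∀ i ∈ Finset.range m, (∑ j ∈ Finset.range d,
        (ZMod.stdAddChar ((x : ZMod (d * m)) * ((d * a : ℕ) : ZMod (d * m)) +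
        (y : ZMod (d * m)) * ((i + m * j : ℕ) : ZMod (d * m))) : ℂ) *
        (if (h : ZMod (d * m)) * ((d * a : ℕ) : ZMod (d * m)) * ((i + m * j : ℕ) : ZMod (d * m)) =
          ((d * z' : ℤ) : ZMod (d * m)) then ((d * m : ℕ) : ℂ) else 0)) =
        if i = w.val then (ex (((x * a : ℤ) : ℝ) / m) * ex ((y * w.val : ℝ) / (d * m)) *
          ∑ j ∈ Finset.range d, ex (((y * j : ℤ) : ℝ) / d)) * ((d * m : ℕ) : ℂ) else 0 := by
      intro i hi
      by_cases hiw : i = w.val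
      · rw [if_pos hiw, Finset.mul_sum, Finset.sum_mul]
        refine Finset.sum_congr rfl fun j _ => ?_
        rw [hchar i j, if_pos ((hcond i hi j).mpr hiw), hiw]
      · rw [if_neg hiw]
        refine Finset.sum_eq_zero fun j _ => ?_
        rw [if_neg (fun h' => hiw ((hcond i hi j).mp h')), mul_zero]
    rw [Finset.sum_congr rfl hstep, Finset.sum_ite_eq' (Finset.range m) w.val,
      if_pos (Finset.mem_range.mpr (ZMod.val_lt w)), G1a_orth]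
    by_cases hy : (d : ℤ) ∣ y
    · rw [if_pos hy, if_pos ⟨hy, Dvd.intro _ rfl⟩]
      obtain ⟨y', rfl⟩ := hy
      rw [Int.mul_ediv_cancel_left _ hdz, Int.mul_ediv_cancel_left _ hdz]
      have e1 : (((d * y' : ℤ) : ℝ) * (w.val : ℝ)) / (d * m) = ((y' * w.val : ℤ) : ℝ) / m := by
        push_cast
        field_simp
      have e2 : ex (((x * a : ℤ) : ℝ) / m) * ex ((((d * y' : ℤ) : ℝ) * (w.val : ℝ)) / (d * m)) =
          ex ((x * a + ((y' * z' : ℤ) : ℝ) * iv m h a) / m) := by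
        have e3 : ((x * a + ((y' * z' : ℤ) : ℝ) * iv m h a) / m : ℝ) =
            (((x * a + (y' * z') * iv m h a : ℤ)) : ℝ) / m := by
          push_cast
          ring
        rw [e1, e3, ← G1a_std, ← G1a_std, ← G1a_std, ← AddChar.map_add_eq_mul]
        congr 1
        have e4 : ((iv m h a : ℕ) : ZMod m) = ((h * a : ℤ) : ZMod m)⁻¹ := by
          rw [iv, ZMod.natCast_zmod_val]
        have e5 : ((w.val : ℕ) : ZMod m) = w := ZMod.natCast_zmod_val w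
        have e6 : ((x * a + (y' * z') * iv m h a : ℤ) : ZMod m) =
            ((x * a : ℤ) : ZMod m) + ((y' : ℤ) : ZMod m) * ((z' : ℤ) : ZMod m) * ((iv m h a : ℕ) : ZMod m) := by
          push_cast
          ring
        have e7 : ((y' * w.val : ℤ) : ZMod m) = ((y' : ℤ) : ZMod m) * ((w.val : ℕ) : ZMod m) := by
          push_cast
          ring
        rw [e6, e7, e4, e5, hw]
        ring
      rw [e2]
      ring
    · rw [if_neg hy, if_neg (fun h' => hy h'.1)]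
      ring
  · rw [if_neg (fun h' => hz h'.2)]
    refine Finset.sum_eq_zero fun b _ => ?_
    rw [if_neg, mul_zero]
    intro hh
    apply hz
    have e1 : (h : ZMod (d * m)) * ((d * a : ℕ) : ZMod (d * m)) * (b : ZMod (d * m)) =
        ((d * (h * a * b) : ℤ) : ZMod (d * m)) := by
      push_cast
      ring
    rw [e1, ZMod.intCast_eq_intCast_iff_dvd_sub] at hh
    have h1 : (d : ℤ) ∣ z - d * (h * a * b) := by
      refine dvd_trans ?_ hh
      push_cast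
      exact Dvd.intro _ rfl
    have h2 : (d : ℤ) ∣ d * (h * a * b) := Dvd.intro _ rfl
    have := dvd_add h1 h2
    rwa [sub_add_cancel] at this

/-- **G1a.** Sum over `c` first: `∑_c e(c (z - h a b)/q) = q 1[h a b = z]`. For `d = (a, q)` solvable
iff `d ∣ z`; then `b = b₀ + (q/d) j`, `j mod d`, `b₀ = (h a/d)⁻¹ (z/d)`, and `∑_j e(y j/d) = d 1[d ∣ y]`.
With `a = d a'`, `(a', q/d) = 1`. -/
theorem SS_red {q h : ℕ} [NeZero q] (hco : Nat.Coprime h q) (x y z : ℤ) :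
    SS q (h : ZMod q) (x : ZMod q) (y : ZMod q) (z : ZMod q) =
      (q : ℂ) * ∑ d ∈ q.divisors.filter (fun d : ℕ => (d : ℤ) ∣ y ∧ (d : ℤ) ∣ z),
        (d : ℂ) * KlG (q / d) h x ((y / d) * (z / d)) := by
  have hq : 0 < q := Nat.pos_of_ne_zero (NeZero.ne q)
  have h1 : ∀ a b : ZMod q, ∑ c : ZMod q,
      (ZMod.stdAddChar (-((h : ZMod q) * a * b * c) + (x : ZMod q) * a + (y : ZMod q) * b +
        (z : ZMod q) * c) : ℂ) =
      (ZMod.stdAddChar ((x : ZMod q) * a + (y : ZMod q) * b) : ℂ) *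
        (if (h : ZMod q) * a * b = (z : ZMod q) then (q : ℂ) else 0) := by
    intro a b
    have e1 : ∀ c : ZMod q, (ZMod.stdAddChar (-((h : ZMod q) * a * b * c) + (x : ZMod q) * a +
        (y : ZMod q) * b + (z : ZMod q) * c) : ℂ) =
        ZMod.stdAddChar ((x : ZMod q) * a + (y : ZMod q) * b) *
          ZMod.stdAddChar (c * ((z : ZMod q) - (h : ZMod q) * a * b)) := by
      intro c
      rw [← AddChar.map_add_eq_mul]
      congr 1
      ring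
    rw [Finset.sum_congr rfl fun c _ => e1 c, ← Finset.mul_sum,
      AddChar.sum_mulShift _ (ZMod.isPrimitive_stdAddChar q)]
    congr 1
    by_cases hz : (h : ZMod q) * a * b = (z : ZMod q)
    · rw [if_pos hz, if_pos (by rw [hz, sub_self])]
      rw [ZMod.card]
    · rw [if_neg hz, if_neg (fun h' => hz (sub_eq_zero.mp h').symm)]
      simp
  unfold SS
  simp only [h1]
  rw [G1a_zsum, G1a_fiber hq, Finset.sum_filter, Finset.mul_sum]
  refine Finset.sum_congr rfl fun d hd => ?_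
  obtain ⟨hdq, _⟩ := Nat.mem_divisors.mp hd
  obtain ⟨m, rfl⟩ := hdq
  have hd0 : 0 < d := Nat.pos_of_ne_zero (by rintro rfl; simp at hq)
  have hm0 : 0 < m := Nat.pos_of_ne_zero (by rintro rfl; simp at hq)
  have : NeZero d := ⟨hd0.ne'⟩
  have : NeZero m := ⟨hm0.ne'⟩
  rw [Nat.mul_div_cancel_left _ hd0]
  have h2 : ∀ a ∈ (Finset.range m).filter (fun a => Nat.Coprime a m),
      (∑ b : ZMod (d * m), (ZMod.stdAddChar ((x : ZMod (d * m)) * ((d * a : ℕ) : ZMod (d * m)) +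
        (y : ZMod (d * m)) * b) : ℂ) *
        (if (h : ZMod (d * m)) * ((d * a : ℕ) : ZMod (d * m)) * b = (z : ZMod (d * m))
          then ((d * m : ℕ) : ℂ) else 0)) =
      if (d : ℤ) ∣ y ∧ (d : ℤ) ∣ z then
        ((d * m : ℕ) : ℂ) * ((d : ℂ) * ex ((x * a + ((y / d) * (z / d) : ℤ) * iv m h a) / m)) else 0 := by
    intro a ha
    rw [G1a_zsum]
    exact G1a_inner hco x y z a (Finset.mem_filter.mp ha).2
  rw [Finset.sum_congr rfl h2]
  by_cases hyz : (d : ℤ) ∣ y ∧ (d : ℤ) ∣ z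
  · simp only [if_pos hyz]
    rw [KlG, Finset.mul_sum, Finset.mul_sum]
  · simp only [if_neg hyz]
    simp

end SG

end

section

namespace SG
open Complex MeasureTheory Filter Topology Set S6
open scoped Real ComplexConjugate

private theorem G1_symm {q : ℕ} [NeZero q] (h x y z : ZMod q) : SS q h x y z = SS q h z x y := by
  unfold SS
  calc ∑ a : ZMod q, ∑ b : ZMod q, ∑ c : ZMod q,
        (ZMod.stdAddChar (-(h * a * b * c) + x * a + y * b + z * c) : ℂ)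
      = ∑ a : ZMod q, ∑ c : ZMod q, ∑ b : ZMod q,
        (ZMod.stdAddChar (-(h * a * b * c) + x * a + y * b + z * c) : ℂ) :=
        Finset.sum_congr rfl fun a _ => Finset.sum_comm
    _ = ∑ c : ZMod q, ∑ a : ZMod q, ∑ b : ZMod q,
        (ZMod.stdAddChar (-(h * a * b * c) + x * a + y * b + z * c) : ℂ) := Finset.sum_comm
    _ = _ := by
        refine Finset.sum_congr rfl fun c _ => Finset.sum_congr rfl fun a _ =>
          Finset.sum_congr rfl fun b _ => ?_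
        congr 1
        ring

private theorem G1_one (c : ℕ) (h n : ℤ) : KlG c h 1 n = Kl c h n := by
  unfold KlG Kl
  refine Finset.sum_congr rfl fun a _ => ?_
  simp

/-- **G1b. Selberg's identity.** `SS` is symmetric in `(x,y,z)`; by G1a `SS c h x y 1 = c KlG c h x y` (only
`d = 1`) and `SS c h 1 x y = c ∑_{e ∣ (c,x,y)} e KlG (c/e) h 1 (x y/e²)`; `KlG c h 1 n = Kl c h n`. -/
theorem selberg {c h : ℕ} (hc : 0 < c) (hco : Nat.Coprime h c) (x y : ℤ) :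
    KlG c h x y = ∑ e ∈ c.divisors.filter (fun e : ℕ => (e : ℤ) ∣ x ∧ (e : ℤ) ∣ y),
      (e : ℂ) * Kl (c / e) h ((x / e) * (y / e)) := by
  have : NeZero c := ⟨hc.ne'⟩
  have h1 := SS_red hco x y 1
  have h2 := SS_red hco 1 x y
  have hf : c.divisors.filter (fun d : ℕ => (d : ℤ) ∣ y ∧ (d : ℤ) ∣ 1) = {1} := by
    ext d
    simp only [Finset.mem_filter, Nat.mem_divisors, Finset.mem_singleton]
    constructor
    · rintro ⟨_, _, h3⟩
      exact_mod_cast Int.eq_one_of_dvd_one (by (clear * -; positivity)) h3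
    · rintro rfl
      exact ⟨⟨one_dvd _, hc.ne'⟩, by simp⟩
  rw [hf, Finset.sum_singleton] at h1
  have h3 : SS c (h : ZMod c) ((x : ℤ) : ZMod c) ((y : ℤ) : ZMod c) ((1 : ℤ) : ZMod c) =
      SS c (h : ZMod c) ((1 : ℤ) : ZMod c) ((x : ℤ) : ZMod c) ((y : ℤ) : ZMod c) := G1_symm _ _ _ _
  rw [h1, h2] at h3
  have hcc : (c : ℂ) ≠ 0 := by exact_mod_cast hc.ne'
  have h4 := mul_left_cancel₀ hcc h3
  have h5 : KlG c h x y = ((1 : ℕ) : ℂ) * KlG (c / 1) h x (y / ((1 : ℕ) : ℤ) * (1 / ((1 : ℕ) : ℤ))) := by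
    simp
  rw [h5, h4]
  refine Finset.sum_congr rfl fun e _ => ?_
  rw [G1_one]

private theorem G1_sg_dvd (b : Bool) (e : ℕ) (u : ℕ) : (e : ℤ) ∣ sg b * (u : ℤ) ↔ e ∣ u := by
  cases b <;> simp [sg, Int.natCast_dvd_natCast]

private theorem G1_sg_dvd' (b : Bool) (e z : ℤ) : e ∣ sg b * z ↔ e ∣ z := by
  cases b <;> simp [sg]

private theorem G1_sg_div (b : Bool) {e u : ℕ} (he : e ∣ u) :
    (sg b * (u : ℤ)) / (e : ℤ) = sg b * ((u / e : ℕ) : ℤ) := by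
  obtain ⟨k, rfl⟩ := he
  rcases Nat.eq_zero_or_pos e with h0 | h0
  · subst h0; simp
  · have : (e : ℤ) ≠ 0 := by exact_mod_cast h0.ne'
    rw [Nat.mul_div_cancel_left _ h0]
    push_cast
    rw [show sg b * ((e : ℤ) * k) = (e : ℤ) * (sg b * k) by ring, Int.mul_ediv_cancel_left _ this]

/-- **G1.** G1a and G1b with `x = s₁ u`, `y = s₂ v`, `z = s₃ w`; `(y/d)(z/d) = s₂ s₃ (v/d)(w/d)`. -/
theorem SI_eq {q h : ℕ} (hq : 0 < q) (hco : Nat.Coprime h q) (i : Ix) :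
    SIz q h i = (q : ℂ) * ∑ d ∈ q.divisors.filter (fun d => d ∣ i.2.2.1 + 1 ∧ d ∣ i.2.2.2 + 1),
      (d : ℂ) * ∑ e ∈ (q / d).divisors.filter (fun e => e ∣ i.2.1 + 1 ∧
        e ∣ ((i.2.2.1 + 1) / d) * ((i.2.2.2 + 1) / d)),
        (e : ℂ) * Kl (q / (d * e)) h
          (s3 i.1 * (((i.2.1 + 1) / e) * ((((i.2.2.1 + 1) / d) * ((i.2.2.2 + 1) / d)) / e) : ℕ)) := by
  have : NeZero q := ⟨hq.ne'⟩
  have h0 : SIz q h i = SI q (h : ZMod q) i := by
    unfold SIz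
    rw [dif_neg hq.ne']
  rw [h0]
  unfold SI
  rw [SS_red hco]
  congr 1
  have hf : q.divisors.filter (fun d : ℕ => (d : ℤ) ∣ sg i.1.2.1 * ((i.2.2.1 + 1 : ℕ) : ℤ) ∧
      (d : ℤ) ∣ sg i.1.2.2 * ((i.2.2.2 + 1 : ℕ) : ℤ)) =
      q.divisors.filter (fun d => d ∣ i.2.2.1 + 1 ∧ d ∣ i.2.2.2 + 1) := by
    refine Finset.filter_congr fun d _ => ?_
    rw [G1_sg_dvd, G1_sg_dvd]
  rw [hf]
  refine Finset.sum_congr rfl fun d hd => ?_
  rw [Finset.mem_filter, Nat.mem_divisors] at hd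
  obtain ⟨⟨hdq, -⟩, hd1, hd2⟩ := hd
  have hdpos : 0 < d := Nat.pos_of_dvd_of_pos hdq hq
  have hqd : 0 < q / d := Nat.div_pos (Nat.le_of_dvd hq hdq) hdpos
  have hco' : Nat.Coprime h (q / d) := Nat.Coprime.coprime_dvd_right (Nat.div_dvd_of_dvd hdq) hco
  rw [G1_sg_div _ hd1, G1_sg_div _ hd2, selberg hqd hco']
  congr 1
  have hprod : sg i.1.2.1 * (((i.2.2.1 + 1) / d : ℕ) : ℤ) * (sg i.1.2.2 * (((i.2.2.2 + 1) / d : ℕ) : ℤ)) =
      sg i.1.2.1 * (sg i.1.2.2 * ((((i.2.2.1 + 1) / d) * ((i.2.2.2 + 1) / d) : ℕ) : ℤ)) := by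
    push_cast; ring
  rw [hprod]
  have hg : (q / d).divisors.filter (fun e : ℕ => (e : ℤ) ∣ sg i.1.1 * ((i.2.1 + 1 : ℕ) : ℤ) ∧
      (e : ℤ) ∣ sg i.1.2.1 * (sg i.1.2.2 * ((((i.2.2.1 + 1) / d) * ((i.2.2.2 + 1) / d) : ℕ) : ℤ))) =
      (q / d).divisors.filter (fun e => e ∣ i.2.1 + 1 ∧
        e ∣ ((i.2.2.1 + 1) / d) * ((i.2.2.2 + 1) / d)) := by
    refine Finset.filter_congr fun e _ => ?_
    rw [G1_sg_dvd]
    have : (e : ℤ) ∣ sg i.1.2.1 * (sg i.1.2.2 * ((((i.2.2.1 + 1) / d) * ((i.2.2.2 + 1) / d) : ℕ) : ℤ)) ↔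
        (e : ℤ) ∣ sg i.1.2.2 * ((((i.2.2.1 + 1) / d) * ((i.2.2.2 + 1) / d) : ℕ) : ℤ) := by
      exact G1_sg_dvd' _ _ _
    rw [this, G1_sg_dvd]
  rw [hg]
  refine Finset.sum_congr rfl fun e he => ?_
  rw [Finset.mem_filter, Nat.mem_divisors] at he
  obtain ⟨⟨heq, -⟩, he1, he2⟩ := he
  rw [G1_sg_div _ he1, Nat.div_div_eq_div_mul]
  congr 2
  have hmul : (sg i.1.2.1 * (sg i.1.2.2 * ((((i.2.2.1 + 1) / d) * ((i.2.2.2 + 1) / d) : ℕ) : ℤ))) / (e : ℤ) =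
      sg i.1.2.1 * (sg i.1.2.2 * (((((i.2.2.1 + 1) / d) * ((i.2.2.2 + 1) / d)) / e : ℕ) : ℤ)) := by
    rw [Int.mul_ediv_assoc _ ((G1_sg_dvd _ _ _).2 he2), G1_sg_div _ he2]
  rw [hmul]
  unfold s3
  push_cast
  ring

end SG

end

section

namespace SG
open Complex MeasureTheory Filter Topology Set S6
open scoped Real ComplexConjugate

/-- the triples counted by `rr` -/
def G2_D (dl d k : ℕ) : Finset (ℕ × ℕ × ℕ) :=
  (((k * dl ^ 2).divisors ×ˢ (k * dl ^ 2).divisors ×ˢ (k * dl ^ 2).divisors).filter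
    (fun t => t.1 * t.2.1 * t.2.2 = k * dl ^ 2 ∧ d ∣ t.2.1 ∧ d ∣ t.2.2 ∧ dl / d ∣ t.1 ∧
      dl / d ∣ (t.2.1 / d) * (t.2.2 / d)))

lemma G2_rr (dl k : ℕ) : rr dl k = ∑ d ∈ dl.divisors, (G2_D dl d k).card := rfl

/-- the divisibility condition on a shifted triple -/
def G2_P (d e : ℕ) (t : ℕ × ℕ × ℕ) : Prop :=
  (d ∣ t.2.1 + 1 ∧ d ∣ t.2.2 + 1) ∧ e ∣ t.1 + 1 ∧ e ∣ ((t.2.1 + 1) / d) * ((t.2.2 + 1) / d)

/-- the value of `k` of a shifted triple -/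
def G2_k (d e : ℕ) (t : ℕ × ℕ × ℕ) : ℕ :=
  ((t.1 + 1) / e) * ((((t.2.1 + 1) / d) * ((t.2.2 + 1) / d)) / e)

lemma G2_prod {d e : ℕ} (hd : 0 < d) (he : 0 < e) {t : ℕ × ℕ × ℕ} (h : G2_P d e t) :
    (t.1 + 1) * (t.2.1 + 1) * (t.2.2 + 1) = G2_k d e t * (d * e) ^ 2 := by
  obtain ⟨⟨⟨v, hv⟩, ⟨w, hw⟩⟩, ⟨u, hu⟩, h4⟩ := h
  unfold G2_k
  rw [hv, hw, Nat.mul_div_cancel_left _ hd, Nat.mul_div_cancel_left _ hd] at h4 ⊢
  obtain ⟨x, hx⟩ := h4
  rw [hu, Nat.mul_div_cancel_left _ he, hx, Nat.mul_div_cancel_left _ he]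
  calc e * u * (d * v) * (d * w) = e * u * d * d * (v * w) := by ring
    _ = u * x * (d * e) ^ 2 := by rw [hx]; ring

lemma G2_kpos {d e : ℕ} (hd : 0 < d) (he : 0 < e) {t : ℕ × ℕ × ℕ} (h : G2_P d e t) :
    0 < G2_k d e t := by
  have h1 := G2_prod hd he h
  rcases Nat.eq_zero_or_pos (G2_k d e t) with h0 | h0
  · rw [h0, zero_mul] at h1
    have : 0 < (t.1 + 1) * (t.2.1 + 1) * (t.2.2 + 1) := by (clear * -; positivity)
    (clear * - h1 this; omega)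
  · exact h0

/-- shift -/
def G2_sh (t : ℕ × ℕ × ℕ) : ℕ × ℕ × ℕ := (t.1 - 1, t.2.1 - 1, t.2.2 - 1)

lemma G2_mem {dl d : ℕ} (hdl : 0 < dl) (hd : d ∣ dl) (k : ℕ) (t : ℕ × ℕ × ℕ) :
    t ∈ (G2_D dl d (k + 1)).image G2_sh ↔ G2_P d (dl / d) t ∧ G2_k d (dl / d) t = k + 1 := by
  have hd0 : 0 < d := Nat.pos_of_dvd_of_pos hd hdl
  have he0 : 0 < dl / d := Nat.div_pos (Nat.le_of_dvd hdl hd) hd0
  have hde : d * (dl / d) = dl := Nat.mul_div_cancel' hd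
  have hne : (k + 1) * dl ^ 2 ≠ 0 := by (clear * - hdl; positivity)
  constructor
  · intro h
    obtain ⟨x, hx, rfl⟩ := Finset.mem_image.1 h
    obtain ⟨h1, h2, h3, h4, h5, h6⟩ := Finset.mem_filter.1 hx
    have hx1 : 0 < x.1 := by
      rcases Nat.eq_zero_or_pos x.1 with h0 | h0
      · rw [h0] at h2; simp at h2; omega
      · exact h0
    have hx2 : 0 < x.2.1 := by
      rcases Nat.eq_zero_or_pos x.2.1 with h0 | h0
      · rw [h0] at h2; simp at h2; omega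
      · exact h0
    have hx3 : 0 < x.2.2 := by
      rcases Nat.eq_zero_or_pos x.2.2 with h0 | h0
      · rw [h0] at h2; simp at h2; omega
      · exact h0
    have e1 : (G2_sh x).1 + 1 = x.1 := Nat.sub_add_cancel hx1
    have e2 : (G2_sh x).2.1 + 1 = x.2.1 := Nat.sub_add_cancel hx2
    have e3 : (G2_sh x).2.2 + 1 = x.2.2 := Nat.sub_add_cancel hx3
    have hP : G2_P d (dl / d) (G2_sh x) := by
      unfold G2_P
      rw [e1, e2, e3]
      exact ⟨⟨h3, h4⟩, h5, h6⟩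
    refine ⟨hP, ?_⟩
    have h7 := G2_prod hd0 he0 hP
    rw [e1, e2, e3, h2, hde] at h7
    exact (Nat.eq_of_mul_eq_mul_right (by (clear * - hdl; positivity)) h7).symm
  · rintro ⟨hP, hk⟩
    have h7 := G2_prod hd0 he0 hP
    rw [hk, hde] at h7
    refine Finset.mem_image.2 ⟨(t.1 + 1, t.2.1 + 1, t.2.2 + 1), ?_, rfl⟩
    refine Finset.mem_filter.2 ⟨?_, h7, hP.1.1, hP.1.2, hP.2.1, hP.2.2⟩
    simp only [Finset.mem_product, Nat.mem_divisors]
    refine ⟨⟨?_, hne⟩, ⟨?_, hne⟩, ⟨?_, hne⟩⟩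
    · rw [← h7]; exact ⟨(t.2.1 + 1) * (t.2.2 + 1), by ring⟩
    · rw [← h7]; exact ⟨(t.1 + 1) * (t.2.2 + 1), by ring⟩
    · rw [← h7]; exact ⟨(t.1 + 1) * (t.2.1 + 1), by ring⟩

lemma G2_card {dl d : ℕ} (k : ℕ) :
    ((G2_D dl d (k + 1)).image G2_sh).card = (G2_D dl d (k + 1)).card := by
  apply Finset.card_image_of_injOn
  have hpos : ∀ x ∈ G2_D dl d (k + 1), 0 < x.1 ∧ 0 < x.2.1 ∧ 0 < x.2.2 := by
    intro x hx
    have h := (Finset.mem_filter.1 hx).1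
    simp only [Finset.mem_product, Nat.mem_divisors] at h
    obtain ⟨⟨h1, h0⟩, ⟨h2, _⟩, ⟨h3, _⟩⟩ := h
    exact ⟨Nat.pos_of_dvd_of_pos h1 (Nat.pos_of_ne_zero h0),
      Nat.pos_of_dvd_of_pos h2 (Nat.pos_of_ne_zero h0),
      Nat.pos_of_dvd_of_pos h3 (Nat.pos_of_ne_zero h0)⟩
  intro x hx y hy hxy
  obtain ⟨a1, a2, a3⟩ := hpos x hx
  obtain ⟨b1, b2, b3⟩ := hpos y hy
  unfold G2_sh at hxy
  simp only [Prod.mk.injEq] at hxy
  obtain ⟨c1, c2, c3⟩ := hxy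
  ext <;> (clear * - a1 a2 a3 b1 b2 b3 c1 c2 c3; omega)

open scoped Classical in
lemma G2_group {dl d : ℕ} (hdl : 0 < dl) (hd : d ∣ dl) (A : ℕ → ℂ)
    (hs : Summable fun t : ℕ × ℕ × ℕ => if G2_P d (dl / d) t then A (G2_k d (dl / d) t) else 0) :
    HasSum (fun k : ℕ => ((G2_D dl d (k + 1)).card : ℂ) * A (k + 1))
      (∑' t : ℕ × ℕ × ℕ, if G2_P d (dl / d) t then A (G2_k d (dl / d) t) else 0) := by
  have hd0 : 0 < d := Nat.pos_of_dvd_of_pos hd hdl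
  have he0 : 0 < dl / d := Nat.div_pos (Nat.le_of_dvd hdl hd) hd0
  have h1 := hs.hasSum.tsum_fiberwise (fun t => G2_k d (dl / d) t - 1)
  have h2 : (fun k : ℕ => ((G2_D dl d (k + 1)).card : ℂ) * A (k + 1)) =
      fun c => ∑' b : ((fun t => G2_k d (dl / d) t - 1) ⁻¹' {c} : Set (ℕ × ℕ × ℕ)),
        (if G2_P d (dl / d) b then A (G2_k d (dl / d) b) else 0) := by
    funext k
    rw [tsum_subtype ((fun t => G2_k d (dl / d) t - 1) ⁻¹' {k} : Set (ℕ × ℕ × ℕ))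
      (fun t => if G2_P d (dl / d) t then A (G2_k d (dl / d) t) else 0)]
    rw [tsum_eq_sum (s := (G2_D dl d (k + 1)).image G2_sh)]
    · rw [Finset.sum_congr rfl (g := fun _ => A (k + 1)), Finset.sum_const, G2_card k, nsmul_eq_mul]
      intro t ht
      obtain ⟨hP, hk⟩ := (G2_mem hdl hd k t).1 ht
      rw [Set.indicator_of_mem, if_pos hP, hk]
      simp [hk]
    · intro t ht
      by_cases h2 : t ∈ ((fun t => G2_k d (dl / d) t - 1) ⁻¹' {k} : Set (ℕ × ℕ × ℕ))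
      · rw [Set.indicator_of_mem h2]
        rw [if_neg]
        intro hP
        apply ht
        rw [G2_mem hdl hd]
        refine ⟨hP, ?_⟩
        have h3 := G2_kpos hd0 he0 hP
        have h4 : G2_k d (dl / d) t - 1 = k := h2
        (clear * - h3 h4; omega)
      · exact Set.indicator_of_notMem h2 _
  rw [h2]
  exact h1

lemma G2_reidx {M : Type*} [AddCommMonoid M] {q : ℕ} (hq : 0 < q) (f : ℕ → ℕ → M) :
    ∑ d ∈ q.divisors, ∑ e ∈ (q / d).divisors, f d e =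
      ∑ dl ∈ q.divisors, ∑ d ∈ dl.divisors, f d (dl / d) := by
  rw [Finset.sum_sigma', Finset.sum_sigma']
  refine Finset.sum_nbij' (fun x => ⟨x.1 * x.2, x.1⟩) (fun x => ⟨x.2, x.1 / x.2⟩) ?_ ?_ ?_ ?_ ?_
  · rintro ⟨d, e⟩ hx
    simp only [Finset.mem_sigma, Nat.mem_divisors] at hx ⊢
    obtain ⟨⟨h1, h2⟩, h3, h4⟩ := hx
    have hd0 : 0 < d := Nat.pos_of_dvd_of_pos h1 hq
    refine ⟨⟨?_, h2⟩, Dvd.intro _ rfl, ?_⟩
    · obtain ⟨c, hc⟩ := h3
      refine ⟨c, ?_⟩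
      rw [mul_assoc, ← hc, Nat.mul_div_cancel' h1]
    · have : e ≠ 0 := by
        rintro rfl
        rw [zero_dvd_iff] at h3
        exact h4 h3
      exact Nat.mul_ne_zero hd0.ne' this
  · rintro ⟨dl, d⟩ hx
    simp only [Finset.mem_sigma, Nat.mem_divisors] at hx ⊢
    obtain ⟨⟨h1, h2⟩, h3, h4⟩ := hx
    have hd0 : 0 < d := Nat.pos_of_dvd_of_pos h3 (Nat.pos_of_ne_zero h4)
    refine ⟨⟨h3.trans h1, h2⟩, Nat.div_dvd_div h3 h1, ?_⟩
    exact (Nat.div_pos (Nat.le_of_dvd hq (h3.trans h1)) hd0).ne'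
  · rintro ⟨d, e⟩ hx
    simp only [Finset.mem_sigma, Nat.mem_divisors] at hx
    obtain ⟨⟨h1, h2⟩, h3, h4⟩ := hx
    have hd0 : 0 < d := Nat.pos_of_dvd_of_pos h1 hq
    simp only [Nat.mul_div_cancel_left _ hd0]
  · rintro ⟨dl, d⟩ hx
    simp only [Finset.mem_sigma, Nat.mem_divisors] at hx
    obtain ⟨⟨h1, h2⟩, h3, h4⟩ := hx
    simp only [Nat.mul_div_cancel' h3]
  · rintro ⟨d, e⟩ hx
    simp only [Finset.mem_sigma, Nat.mem_divisors] at hx
    obtain ⟨⟨h1, h2⟩, h3, h4⟩ := hx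
    have hd0 : 0 < d := Nat.pos_of_dvd_of_pos h1 hq
    simp only [Nat.mul_div_cancel_left _ hd0]

/-- the value of the summand before grouping -/
noncomputable def G2_A (q h : ℕ) (F : ℤ → ℝ → ℂ) (s : Bool × Bool × Bool) (dl k : ℕ) : ℂ :=
  ((q / dl : ℕ) : ℂ) / k * Kl (q / dl) h (s3 s * k) * F (e3 s) (h * ((q / dl : ℕ) : ℝ) ^ 2 / k)

lemma G2_A_le {q h : ℕ} (F : ℤ → ℝ → ℂ) {C : ℝ}
    (hF : ∀ e x, 0 < x → ‖F e x‖ ≤ C * √x) (hh : 0 < h) (s : Bool × Bool × Bool) {dl k : ℕ}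
    (hq : 0 < q) (hdl : dl ∣ q) (hk : 0 < k) :
    ‖G2_A q h F s dl k‖ ≤ ((q : ℝ) ^ 3 * (C * √h)) * (k : ℝ) ^ (-(3 / 2) : ℝ) := by
  have hdl0 : 0 < dl := Nat.pos_of_dvd_of_pos hdl hq
  have hc0 : 0 < q / dl := Nat.div_pos (Nat.le_of_dvd hq hdl) hdl0
  have hk' : (0 : ℝ) < k := by exact_mod_cast hk
  have hh' : (0 : ℝ) < h := by exact_mod_cast hh
  have hc' : (0 : ℝ) < ((q / dl : ℕ) : ℝ) := by exact_mod_cast hc0
  have hcq : ((q / dl : ℕ) : ℝ) ≤ q := by exact_mod_cast Nat.div_le_self q dl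
  have hx : 0 < (h : ℝ) * ((q / dl : ℕ) : ℝ) ^ 2 / k := by (clear * - hh hk hc0; positivity)
  have h1 := hF (e3 s) _ hx
  have h2 := Kl_le (q / dl) h (s3 s * k)
  have hC : 0 ≤ C := by
    have := (norm_nonneg _).trans (hF 0 1 one_pos)
    simpa using this
  unfold G2_A
  rw [norm_mul, norm_mul, norm_div]
  have e1 : √((h : ℝ) * ((q / dl : ℕ) : ℝ) ^ 2 / k) =
      √h * ((q / dl : ℕ) : ℝ) * (k : ℝ) ^ (-(1 / 2) : ℝ) := by
    rw [Real.sqrt_div (by (clear * - hh hc0; positivity)), Real.sqrt_mul hh'.le, Real.sqrt_sq hc'.le,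
      Real.rpow_neg hk'.le, ← Real.sqrt_eq_rpow, div_eq_mul_inv]
  rw [e1] at h1
  have e2 : (k : ℝ)⁻¹ * (k : ℝ) ^ (-(1 / 2) : ℝ) = (k : ℝ) ^ (-(3 / 2) : ℝ) := by
    rw [← Real.rpow_neg_one (k : ℝ), ← Real.rpow_add hk']
    norm_num
  rw [Complex.norm_natCast, Complex.norm_natCast]
  calc ((q / dl : ℕ) : ℝ) / k * ‖Kl (q / dl) h (s3 s * k)‖ *
        ‖F (e3 s) ((h : ℝ) * ((q / dl : ℕ) : ℝ) ^ 2 / k)‖
      ≤ ((q / dl : ℕ) : ℝ) / k * ((q / dl : ℕ) : ℝ) *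
        (C * (√h * ((q / dl : ℕ) : ℝ) * (k : ℝ) ^ (-(1 / 2) : ℝ))) := by (clear * - hk hc0 h1 h2; gcongr)
    _ = ((q / dl : ℕ) : ℝ) ^ 3 * (C * √h) * ((k : ℝ)⁻¹ * (k : ℝ) ^ (-(1 / 2) : ℝ)) := by ring
    _ ≤ (q : ℝ) ^ 3 * (C * √h) * ((k : ℝ)⁻¹ * (k : ℝ) ^ (-(1 / 2) : ℝ)) := by (clear * - hh hk hc0 hcq hC; gcongr)
    _ = _ := by rw [e2]

lemma G2_tm (q h : ℕ) (F : ℤ → ℝ → ℂ) (s : Bool × Bool × Bool) (dl k : ℕ) :
    (rr dl k : ℂ) * G2_A q h F s dl k =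
      ((q / dl : ℕ) : ℂ) * tm (F (e3 s)) dl h (s3 s) (q / dl) k := by
  unfold G2_A tm
  ring

open scoped Classical in
lemma G2_ite_summable {q h : ℕ} (F : ℤ → ℝ → ℂ) {C : ℝ}
    (hF : ∀ e x, 0 < x → ‖F e x‖ ≤ C * √x) (hh : 0 < h) (s : Bool × Bool × Bool) {dl d : ℕ}
    (hq : 0 < q) (hdl : dl ∣ q) (hd : d ∣ dl) :
    Summable fun t : ℕ × ℕ × ℕ =>
      if G2_P d (dl / d) t then G2_A q h F s dl (G2_k d (dl / d) t) else 0 := by
  have hdl0 : 0 < dl := Nat.pos_of_dvd_of_pos hdl hq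
  have hd0 : 0 < d := Nat.pos_of_dvd_of_pos hd hdl0
  have he0 : 0 < dl / d := Nat.div_pos (Nat.le_of_dvd hdl0 hd) hd0
  have hC : 0 ≤ C := by
    have := (norm_nonneg _).trans (hF 0 1 one_pos)
    simpa using this
  refine Summable.of_norm_bounded
    (g := fun t : ℕ × ℕ × ℕ => ((q : ℝ) ^ 3 * (C * √h)) * (((dl : ℝ) ^ 2) ^ (3 / 2 : ℝ) *
      (((t.1 + 1 : ℕ) : ℝ) ^ (-(3 / 2) : ℝ) *
      (((t.2.1 + 1 : ℕ) : ℝ) ^ (-(3 / 2) : ℝ) * ((t.2.2 + 1 : ℕ) : ℝ) ^ (-(3 / 2) : ℝ)))))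
    (((sum_aux (by norm_num)).mul_left _).mul_left _) fun t => ?_
  split_ifs with hP
  · have hk := G2_kpos hd0 he0 hP
    refine (G2_A_le F hF hh s hq hdl hk).trans ?_
    have h1 := G2_prod hd0 he0 hP
    rw [Nat.mul_div_cancel' hd] at h1
    have h2 : ((t.1 + 1 : ℕ) : ℝ) * ((t.2.1 + 1 : ℕ) : ℝ) * ((t.2.2 + 1 : ℕ) : ℝ) =
        (G2_k d (dl / d) t : ℝ) * (dl : ℝ) ^ 2 := by exact_mod_cast h1
    have hk' : (0 : ℝ) < (G2_k d (dl / d) t : ℝ) := by exact_mod_cast hk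
    have hdl' : (0 : ℝ) < (dl : ℝ) := by exact_mod_cast hdl0
    apply le_of_eq
    congr 1
    rw [← Real.mul_rpow (by (clear * -; positivity)) (by (clear * -; positivity)), ← Real.mul_rpow (by (clear * -; positivity)) (by (clear * -; positivity)),
      ← mul_assoc, h2, Real.mul_rpow hk'.le (by (clear * - hdl0; positivity))]
    rw [mul_left_comm, ← Real.rpow_add (by (clear * - hdl0; positivity))]
    norm_num
  · rw [norm_zero]
    (clear * - hh hq hdl0 hC; positivity)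

open scoped Classical in
lemma G2_SI {q h : ℕ} (hq : 0 < q) (hco : Nat.Coprime h q) (i : Ix) :
    SIz q h i = (q : ℂ) * ∑ d ∈ q.divisors, ∑ e ∈ (q / d).divisors, if G2_P d e i.2 then
      (d : ℂ) * ((e : ℂ) * Kl (q / (d * e)) h (s3 i.1 * (G2_k d e i.2 : ℕ))) else 0 := by
  rw [SI_eq hq hco i, Finset.sum_filter]
  congr 1
  refine Finset.sum_congr rfl fun d _ => ?_
  by_cases h1 : d ∣ i.2.2.1 + 1 ∧ d ∣ i.2.2.2 + 1
  · rw [if_pos h1, Finset.sum_filter, Finset.mul_sum]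
    refine Finset.sum_congr rfl fun e _ => ?_
    by_cases h2 : e ∣ i.2.1 + 1 ∧ e ∣ ((i.2.2.1 + 1) / d) * ((i.2.2.2 + 1) / d)
    · rw [if_pos h2, if_pos (show G2_P d e i.2 from ⟨h1, h2⟩)]
      rfl
    · rw [if_neg h2, if_neg (fun hP : G2_P d e i.2 => h2 hP.2), mul_zero]
  · rw [if_neg h1]
    symm
    apply Finset.sum_eq_zero
    intro e _
    rw [if_neg (fun hP : G2_P d e i.2 => h1 hP.1)]

open scoped Classical in
lemma G2_term {q h : ℕ} (hq : 0 < q) (hco : Nat.Coprime h q) (F : ℤ → ℝ → ℂ) (i : Ix) :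
    ((pr i : ℂ))⁻¹ * SIz q h i * F (es i) (h * q ^ 2 / pr i) =
      ∑ dl ∈ q.divisors, ∑ d ∈ dl.divisors,
        if G2_P d (dl / d) i.2 then G2_A q h F i.1 dl (G2_k d (dl / d) i.2) else 0 := by
  rw [G2_SI hq hco, G2_reidx hq, Finset.mul_sum, Finset.mul_sum, Finset.sum_mul]
  refine Finset.sum_congr rfl fun dl hdl => ?_
  rw [Finset.mul_sum, Finset.mul_sum, Finset.sum_mul]
  refine Finset.sum_congr rfl fun d hd => ?_
  by_cases hP : G2_P d (dl / d) i.2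
  · rw [if_pos hP, if_pos hP]
    have hdl1 : dl ∣ q := Nat.dvd_of_mem_divisors hdl
    have hdl0 : 0 < dl := Nat.pos_of_dvd_of_pos hdl1 hq
    have hd1 : d ∣ dl := Nat.dvd_of_mem_divisors hd
    have hd0 : 0 < d := Nat.pos_of_dvd_of_pos hd1 hdl0
    have he0 : 0 < dl / d := Nat.div_pos (Nat.le_of_dvd hdl0 hd1) hd0
    have hde : d * (dl / d) = dl := Nat.mul_div_cancel' hd1
    have hk := G2_kpos hd0 he0 hP
    have h1 := G2_prod hd0 he0 hP
    rw [hde] at h1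
    have hpr : pr i = (G2_k d (dl / d) i.2 : ℝ) * (dl : ℝ) ^ 2 := by
      unfold pr
      exact_mod_cast h1
    have hqd : (q : ℝ) = ((q / dl : ℕ) : ℝ) * (dl : ℝ) := by
      exact_mod_cast (Nat.div_mul_cancel hdl1).symm
    have hk' : (0 : ℝ) < (G2_k d (dl / d) i.2 : ℝ) := by exact_mod_cast hk
    have hdl' : (0 : ℝ) < (dl : ℝ) := by exact_mod_cast hdl0
    have harg : (h : ℝ) * (q : ℝ) ^ 2 / pr i =
        h * ((q / dl : ℕ) : ℝ) ^ 2 / (G2_k d (dl / d) i.2 : ℝ) := by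
      rw [hpr, hqd]
      field_simp
    have hes : es i = e3 i.1 := rfl
    rw [harg, hde, hes]
    unfold G2_A
    have hw : ((pr i : ℝ) : ℂ)⁻¹ * ((q : ℂ) * ((d : ℂ) * ((dl / d : ℕ) : ℂ))) =
        ((q / dl : ℕ) : ℂ) / (G2_k d (dl / d) i.2 : ℂ) := by
      have e1 : (q : ℂ) = ((q / dl : ℕ) : ℂ) * (dl : ℂ) := by exact_mod_cast congrArg (fun x : ℝ => (x : ℂ)) hqd
      have e2 : ((pr i : ℝ) : ℂ) = (G2_k d (dl / d) i.2 : ℂ) * (dl : ℂ) ^ 2 := by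
        rw [hpr]; push_cast; rfl
      have e3 : (d : ℂ) * ((dl / d : ℕ) : ℂ) = (dl : ℂ) := by exact_mod_cast hde
      have e4 : (G2_k d (dl / d) i.2 : ℂ) ≠ 0 := by exact_mod_cast hk.ne'
      have e5 : (dl : ℂ) ≠ 0 := by exact_mod_cast hdl0.ne'
      rw [e3, e2, e1]
      field_simp
    rw [← hw]
    ring
  · rw [if_neg hP, if_neg hP]
    ring

/-- **G2.** Insert G1, exchange the sums (absolute convergence: `∑ pr⁻¹ q³ C √(h q²/pr) < ∞`, `norm_SI_le`,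
`summable_pr` in S6AsmA), group by
`dl = d e ∣ q` and `k = u v w/dl²`; the weight is `q d e/(u v w) = (q/dl)/k`, the argument `h q²/(uvw) = h (q/dl)²/k`, and
the number of `(d,e,u,v,w)` is `rr dl k`. -/
theorem sum_rearr1 {q h : ℕ} (hq : 0 < q) (hh : 0 < h) (hco : Nat.Coprime h q) (F : ℤ → ℝ → ℂ) {C : ℝ}
    (hF : ∀ e x, 0 < x → ‖F e x‖ ≤ C * √x) :
    (∀ (s : Bool × Bool × Bool) (dl c : ℕ), 0 < dl → 0 < c →
      Summable fun k : ℕ => ‖tm (F (e3 s)) dl h (s3 s) c (k + 1)‖) ∧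
    ∑' i : Ix, ((pr i : ℂ))⁻¹ * SIz q h i * F (es i) (h * q ^ 2 / pr i) =
      ∑ s : Bool × Bool × Bool, ∑ dl ∈ q.divisors,
        ((q / dl : ℕ) : ℂ) * ∑' k : ℕ, tm (F (e3 s)) dl h (s3 s) (q / dl) (k + 1) := by
  classical
  have hC : 0 ≤ C := by
    have := (norm_nonneg _).trans (hF 0 1 one_pos)
    simpa using this
  constructor
  · intro s dl c hdl hc
    obtain ⟨D, hD, hrr⟩ := rr_bound (ε := 1 / 4) (by norm_num)
    have hbase : Summable fun k : ℕ => ((k + 1 : ℕ) : ℝ) ^ (-(5 / 4) : ℝ) :=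
      (summable_nat_add_iff (f := fun n : ℕ => (n : ℝ) ^ (-(5 / 4) : ℝ)) 1).2
        (Real.summable_nat_rpow.2 (by norm_num))
    refine Summable.of_nonneg_of_le (fun k => norm_nonneg _) (fun k => ?_)
      (hbase.mul_left (D * (dl : ℝ) ^ (1 / 4 : ℝ) * c * (C * (√h * c))))
    have hk' : (0 : ℝ) < ((k + 1 : ℕ) : ℝ) := by (clear * -; positivity)
    have hdl' : (0 : ℝ) < (dl : ℝ) := by exact_mod_cast hdl
    have hc' : (0 : ℝ) < (c : ℝ) := by exact_mod_cast hc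
    have hh' : (0 : ℝ) < (h : ℝ) := by exact_mod_cast hh
    have h1 := hrr dl (k + 1) hdl (Nat.succ_pos k)
    have h2 := Kl_le c h (s3 s * ((k + 1 : ℕ) : ℤ))
    have h3 := hF (e3 s) (h * (c : ℝ) ^ 2 / ((k + 1 : ℕ) : ℝ)) (by (clear * - hh hc; positivity))
    have e1 : √((h : ℝ) * (c : ℝ) ^ 2 / ((k + 1 : ℕ) : ℝ)) =
        √h * c * ((k + 1 : ℕ) : ℝ) ^ (-(1 / 2) : ℝ) := by
      rw [Real.sqrt_div (by (clear * - hh hc; positivity)), Real.sqrt_mul hh'.le, Real.sqrt_sq hc'.le,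
        Real.rpow_neg hk'.le, ← Real.sqrt_eq_rpow, div_eq_mul_inv]
    rw [e1] at h3
    have e2 : ((k + 1 : ℕ) : ℝ) ^ (1 / 4 : ℝ) * (((k + 1 : ℕ) : ℝ)⁻¹ *
        ((k + 1 : ℕ) : ℝ) ^ (-(1 / 2) : ℝ)) = ((k + 1 : ℕ) : ℝ) ^ (-(5 / 4) : ℝ) := by
      rw [← Real.rpow_neg_one (((k + 1 : ℕ) : ℝ)), ← Real.rpow_add hk', ← Real.rpow_add hk']
      norm_num
    unfold tm
    rw [norm_mul, norm_mul, norm_div, Complex.norm_natCast, Complex.norm_natCast]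
    rw [Real.mul_rpow hdl'.le hk'.le] at h1
    calc (rr dl (k + 1) : ℝ) / ((k + 1 : ℕ) : ℝ) * ‖Kl c h (s3 s * ((k + 1 : ℕ) : ℤ))‖ *
          ‖F (e3 s) (h * (c : ℝ) ^ 2 / ((k + 1 : ℕ) : ℝ))‖
        ≤ (D * ((dl : ℝ) ^ (1 / 4 : ℝ) * ((k + 1 : ℕ) : ℝ) ^ (1 / 4 : ℝ))) / ((k + 1 : ℕ) : ℝ) * c *
          (C * (√h * c * ((k + 1 : ℕ) : ℝ) ^ (-(1 / 2) : ℝ))) := by (clear * - hdl hc hD h1 h2 h3; gcongr)
      _ = D * (dl : ℝ) ^ (1 / 4 : ℝ) * c * (C * (√h * c)) * (((k + 1 : ℕ) : ℝ) ^ (1 / 4 : ℝ) *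
          (((k + 1 : ℕ) : ℝ)⁻¹ * ((k + 1 : ℕ) : ℝ) ^ (-(1 / 2) : ℝ))) := by ring
      _ = _ := by rw [e2]
  · have hterm : ∀ i : Ix, ((pr i : ℂ))⁻¹ * SIz q h i * F (es i) (h * q ^ 2 / pr i) =
        ∑ dl ∈ q.divisors, ∑ d ∈ dl.divisors,
          if G2_P d (dl / d) i.2 then G2_A q h F i.1 dl (G2_k d (dl / d) i.2) else 0 :=
      G2_term hq hco F
    rw [tsum_congr hterm]
    have hsum1 : ∀ s : Bool × Bool × Bool, ∀ dl ∈ q.divisors, ∀ d ∈ dl.divisors,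
        Summable fun t : ℕ × ℕ × ℕ =>
          if G2_P d (dl / d) t then G2_A q h F s dl (G2_k d (dl / d) t) else 0 :=
      fun s dl hdl d hd => G2_ite_summable F hF hh s hq (Nat.dvd_of_mem_divisors hdl)
        (Nat.dvd_of_mem_divisors hd)
    have hsum2 : ∀ s : Bool × Bool × Bool, Summable fun t : ℕ × ℕ × ℕ =>
        ∑ dl ∈ q.divisors, ∑ d ∈ dl.divisors,
          if G2_P d (dl / d) t then G2_A q h F s dl (G2_k d (dl / d) t) else 0 :=
      fun s => summable_sum fun dl hdl => summable_sum fun d hd => hsum1 s dl hdl d hd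
    have hsum3 : Summable fun i : Ix => ∑ dl ∈ q.divisors, ∑ d ∈ dl.divisors,
          if G2_P d (dl / d) i.2 then G2_A q h F i.1 dl (G2_k d (dl / d) i.2) else 0 :=
      Summable.of_norm ((summable_prod_of_nonneg (fun _ => norm_nonneg _)).2
        ⟨fun s => (hsum2 s).norm, Summable.of_finite⟩)
    rw [hsum3.tsum_prod' hsum2, tsum_fintype]
    refine Finset.sum_congr rfl fun s _ => ?_
    rw [Summable.tsum_finsetSum (fun dl hdl => summable_sum fun d hd => hsum1 s dl hdl d hd)]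
    refine Finset.sum_congr rfl fun dl hdl => ?_
    have hdl1 : dl ∣ q := Nat.dvd_of_mem_divisors hdl
    have hdl0 : 0 < dl := Nat.pos_of_dvd_of_pos hdl1 hq
    rw [Summable.tsum_finsetSum (fun d hd => hsum1 s dl hdl d hd)]
    have h5 : HasSum (fun k : ℕ => ∑ d ∈ dl.divisors,
        ((G2_D dl d (k + 1)).card : ℂ) * G2_A q h F s dl (k + 1))
        (∑ d ∈ dl.divisors, ∑' t : ℕ × ℕ × ℕ,
          if G2_P d (dl / d) t then G2_A q h F s dl (G2_k d (dl / d) t) else 0) :=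
      hasSum_sum fun d hd => G2_group hdl0 (Nat.dvd_of_mem_divisors hd) _ (hsum1 s dl hdl d hd)
    rw [← h5.tsum_eq, ← tsum_mul_left]
    refine tsum_congr fun k => ?_
    rw [← Finset.sum_mul, ← G2_tm, G2_rr]
    push_cast
    rfl

end SG

end

section

namespace SG
open Complex MeasureTheory Filter Topology Set S6
open scoped Real ComplexConjugate

/-- arithmetic of the substitution, forward direction -/
private theorem g3_fwd {m1 m n dl : ℕ} (h1 : 0 < m1) (hm : 0 < m) (_hn0 : 0 < n)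
    (hdl : dl ∣ m1 * m / Nat.gcd (m1 * m) n) :
    0 < Nat.gcd (m1 * m) n ∧ 0 < dl ∧ 0 < m1 * m / Nat.gcd (m1 * m) n / dl ∧
    Nat.gcd (m1 * m) n * dl * (m1 * m / Nat.gcd (m1 * m) n / dl) = m1 * m ∧
    Nat.Coprime dl (n / Nat.gcd (m1 * m) n) ∧
    Nat.Coprime (m1 * m / Nat.gcd (m1 * m) n / dl) (n / Nat.gcd (m1 * m) n) ∧
    m / Nat.gcd m (Nat.gcd (m1 * m) n * dl) ∣ m1 * m / Nat.gcd (m1 * m) n / dl := by
  set g := Nat.gcd (m1 * m) n with hg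
  have hmm : 0 < m1 * m := Nat.mul_pos h1 hm
  have hg0 : 0 < g := Nat.gcd_pos_of_pos_left _ hmm
  have hq : 0 < m1 * m / g := Nat.div_pos (Nat.le_of_dvd hmm (Nat.gcd_dvd_left _ _)) hg0
  have hdl0 : 0 < dl := Nat.pos_of_dvd_of_pos hdl hq
  have hc0 : 0 < m1 * m / g / dl := Nat.div_pos (Nat.le_of_dvd hq hdl) hdl0
  have e1 : dl * (m1 * m / g / dl) = m1 * m / g := Nat.mul_div_cancel' hdl
  have e2 : g * (m1 * m / g) = m1 * m := Nat.mul_div_cancel' (Nat.gcd_dvd_left _ _)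
  have e3 : g * dl * (m1 * m / g / dl) = m1 * m := by rw [mul_assoc, e1, e2]
  have hcop : Nat.Coprime (m1 * m / g) (n / g) := Nat.coprime_div_gcd_div_gcd hg0
  have hcop1 : Nat.Coprime dl (n / g) := Nat.Coprime.coprime_dvd_left hdl hcop
  have hcop2 : Nat.Coprime (m1 * m / g / dl) (n / g) :=
    Nat.Coprime.coprime_dvd_left (Dvd.intro_left dl e1) hcop
  refine ⟨hg0, hdl0, hc0, e3, hcop1, hcop2, ?_⟩
  have hgg : 0 < Nat.gcd m (g * dl) := Nat.gcd_pos_of_pos_left _ hm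
  have hmd : m ∣ (g * dl) * (m1 * m / g / dl) := by rw [e3]; exact Dvd.intro_left _ rfl
  have h5 : m / Nat.gcd m (g * dl) ∣ (g * dl) / Nat.gcd m (g * dl) * (m1 * m / g / dl) := by
    obtain ⟨k, hk⟩ := hmd
    refine ⟨k, ?_⟩
    apply Nat.eq_of_mul_eq_mul_left hgg
    rw [← mul_assoc, Nat.mul_div_cancel' (Nat.gcd_dvd_right _ _), hk, ← mul_assoc,
      Nat.mul_div_cancel' (Nat.gcd_dvd_left _ _)]
  exact (Nat.coprime_div_gcd_div_gcd hgg).dvd_of_dvd_mul_left h5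

/-- backward direction -/
private theorem g3_bwd {m n g dl c : ℕ} (hm : 0 < m) (hn0 : 0 < n) (hg : g ∣ n) (hdl : 0 < dl) (hc : 0 < c)
    (h1 : Nat.Coprime dl (n / g)) (h2 : m / Nat.gcd m (g * dl) ∣ c) (h3 : Nat.Coprime c (n / g)) :
    m ∣ g * dl * c ∧ 0 < g * dl * c / m ∧ g * dl * c / m * m = g * dl * c ∧
    Nat.gcd (g * dl * c / m * m) n = g ∧ g * dl * c / m * m / g = dl * c := by
  have hg0 : 0 < g := Nat.pos_of_dvd_of_pos hg hn0
  have hgdc : 0 < g * dl * c := Nat.mul_pos (Nat.mul_pos hg0 hdl) hc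
  have hd : m ∣ g * dl * c := by
    have h4 : Nat.gcd m (g * dl) * (m / Nat.gcd m (g * dl)) = m :=
      Nat.mul_div_cancel' (Nat.gcd_dvd_left _ _)
    calc m = Nat.gcd m (g * dl) * (m / Nat.gcd m (g * dl)) := h4.symm
      _ ∣ g * dl * c := mul_dvd_mul (Nat.gcd_dvd_right _ _) h2
  have e1 : g * dl * c / m * m = g * dl * c := Nat.div_mul_cancel hd
  have hgd : Nat.gcd (g * dl * c / m * m) n = g := by
    rw [e1, mul_assoc]
    conv_lhs => rw [← Nat.mul_div_cancel' hg]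
    rw [Nat.gcd_mul_left]
    have : Nat.gcd (dl * c) (n / g) = 1 := Nat.Coprime.mul_left h1 h3
    rw [this, mul_one]
  refine ⟨hd, Nat.div_pos (Nat.le_of_dvd hgdc hd) hm, e1, hgd, ?_⟩
  rw [e1, mul_assoc, Nat.mul_div_cancel_left _ hg0]

/-- the rearrangement for fixed `m, n` -/
private theorem g3_mn {G : ℝ × ℝ × ℝ → ℝ} (hG : ∀ p, G p ≠ 0 →
      0 < p.1 ∧ p.1 < 1 ∧ 0 < p.2.1 ∧ p.2.1 < 1 ∧ 0 < p.2.2 ∧ p.2.2 < 1) {T : ℝ} (hT : 1 < T)
    (W : ℕ → ℕ → ℕ → ℂ) {m n : ℕ} (hm : 0 < m) (hmT : m ≤ ⌊T⌋₊) (hn0 : 0 < n) :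
    ∑ m1 ∈ Finset.Icc 1 ⌊T⌋₊, ∑ dl ∈ (qq (m1, m, n)).divisors,
      cx G T (m1, m, n) * (((qq (m1, m, n) / dl : ℕ) : ℂ) *
        W dl (hn (m1, m, n)) (qq (m1, m, n) / dl)) =
    ∑ g ∈ n.divisors, ∑ dl ∈ Finset.Icc 1 ⌊T ^ 2⌋₊, if Nat.Coprime dl (n / g) then
        (((g * dl : ℕ) : ℂ))⁻¹ * ∑' c : ℕ, (if 0 < c ∧ m / Nat.gcd m (g * dl) ∣ c ∧
            Nat.Coprime c (n / g) then
          (G (Real.log (((g * dl : ℕ) : ℝ) / m * c) / Real.log T, Real.log m / Real.log T,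
            Real.log n / Real.log T) : ℂ) * W dl (n / g) c else 0) else 0 := by
  classical
  have hT0 : 0 < T := by linarith only [hT]
  have hlog : 0 < Real.log T := Real.log_pos hT
  have hmTr : (m : ℝ) ≤ T := (Nat.cast_le.2 hmT).trans (Nat.floor_le hT0.le)
  have hmr : (0 : ℝ) < m := by exact_mod_cast hm
  -- bound from `G ≠ 0`
  have hGlt : ∀ {x : ℝ}, 0 < x → ∀ {y z : ℝ}, G (Real.log x / Real.log T, y, z) ≠ 0 → x < T := by
    intro x hx y z h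
    have h1 := (hG _ h).2.1
    have h2 : Real.log x / Real.log T < 1 := h1
    rw [div_lt_one hlog] at h2
    exact (Real.log_lt_log_iff hx hT0).mp h2
  -- the inner sums are finite
  have hfin : ∀ g ∈ n.divisors, ∀ dl ∈ Finset.Icc 1 ⌊T ^ 2⌋₊,
      (∑' c : ℕ, (if 0 < c ∧ m / Nat.gcd m (g * dl) ∣ c ∧ Nat.Coprime c (n / g) then
          (G (Real.log (((g * dl : ℕ) : ℝ) / m * c) / Real.log T, Real.log m / Real.log T,
            Real.log n / Real.log T) : ℂ) * W dl (n / g) c else 0)) =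
      ∑ c ∈ Finset.Icc 1 ⌊T ^ 2⌋₊, (if 0 < c ∧ m / Nat.gcd m (g * dl) ∣ c ∧ Nat.Coprime c (n / g) then
          (G (Real.log (((g * dl : ℕ) : ℝ) / m * c) / Real.log T, Real.log m / Real.log T,
            Real.log n / Real.log T) : ℂ) * W dl (n / g) c else 0) := by
    intro g hg dl hdl
    apply tsum_eq_sum
    intro c hc
    rw [ite_eq_right_iff]
    rintro ⟨hc0, -, -⟩
    have hg0 : 0 < g := Nat.pos_of_mem_divisors hg
    have hdl0 : 0 < dl := (Finset.mem_Icc.mp hdl).1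
    have hgd : (1 : ℝ) ≤ ((g * dl : ℕ) : ℝ) := by exact_mod_cast Nat.mul_pos hg0 hdl0
    have hcr : (0 : ℝ) < c := by exact_mod_cast hc0
    have hz : G (Real.log (((g * dl : ℕ) : ℝ) / m * c) / Real.log T, Real.log m / Real.log T,
            Real.log n / Real.log T) = 0 := by
      by_contra hne
      have hx : (0 : ℝ) < ((g * dl : ℕ) : ℝ) / m * c := by (clear * - hm hc0 hg0 hdl0; positivity)
      have hlt := hGlt hx hne
      apply hc
      rw [Finset.mem_Icc]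
      refine ⟨hc0, Nat.le_floor ?_⟩
      have h1 : ((g * dl : ℕ) : ℝ) * c < T * m := by
        rw [div_mul_eq_mul_div, div_lt_iff₀ hmr] at hlt
        exact hlt
      nlinarith only [hT, hmTr, hgd, h1]
    rw [hz]
    simp
  have hR : ∑ g ∈ n.divisors, ∑ dl ∈ Finset.Icc 1 ⌊T ^ 2⌋₊, (if Nat.Coprime dl (n / g) then
        (((g * dl : ℕ) : ℂ))⁻¹ * ∑' c : ℕ, (if 0 < c ∧ m / Nat.gcd m (g * dl) ∣ c ∧
            Nat.Coprime c (n / g) then
          (G (Real.log (((g * dl : ℕ) : ℝ) / m * c) / Real.log T, Real.log m / Real.log T,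
            Real.log n / Real.log T) : ℂ) * W dl (n / g) c else 0) else 0) =
      ∑ z ∈ n.divisors ×ˢ Finset.Icc 1 ⌊T ^ 2⌋₊ ×ˢ Finset.Icc 1 ⌊T ^ 2⌋₊,
        (if Nat.Coprime z.2.1 (n / z.1) ∧ 0 < z.2.2 ∧ m / Nat.gcd m (z.1 * z.2.1) ∣ z.2.2 ∧
            Nat.Coprime z.2.2 (n / z.1) then
          (((z.1 * z.2.1 : ℕ) : ℂ))⁻¹ *
          ((G (Real.log (((z.1 * z.2.1 : ℕ) : ℝ) / m * z.2.2) / Real.log T, Real.log m / Real.log T,
            Real.log n / Real.log T) : ℂ) * W z.2.1 (n / z.1) z.2.2) else 0) := by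
    rw [Finset.sum_product]
    refine Finset.sum_congr rfl fun g hg => ?_
    rw [Finset.sum_product]
    refine Finset.sum_congr rfl fun dl hdl => ?_
    rw [hfin g hg dl hdl]
    by_cases hcp : Nat.Coprime dl (n / g)
    · rw [if_pos hcp, Finset.mul_sum]
      refine Finset.sum_congr rfl fun c _ => ?_
      dsimp only
      by_cases h : 0 < c ∧ m / Nat.gcd m (g * dl) ∣ c ∧ Nat.Coprime c (n / g)
      · rw [if_pos h, if_pos ⟨hcp, h⟩]
      · rw [if_neg h, if_neg (fun h' => h h'.2), mul_zero]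
    · rw [if_neg hcp]
      symm
      refine Finset.sum_eq_zero fun c _ => ?_
      dsimp only
      rw [if_neg (fun h' => hcp h'.1)]
  rw [hR, Finset.sum_sigma']
  refine Finset.sum_bij_ne_zero
    (fun a _ _ => (Nat.gcd (a.1 * m) n, a.2, qq (a.1, m, n) / a.2)) ?_ ?_ ?_ ?_
  · rintro ⟨m1, dl⟩ ha _
    rw [Finset.mem_sigma] at ha
    obtain ⟨ha1, ha2⟩ := ha
    dsimp only at ha1 ha2 ⊢
    rw [Finset.mem_Icc] at ha1
    have hdl : dl ∣ m1 * m / Nat.gcd (m1 * m) n := (Nat.mem_divisors.mp ha2).1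
    obtain ⟨k1, k2, k3, k4, k5, k6, k7⟩ := g3_fwd ha1.1 hm hn0 hdl
    have hq : qq (m1, m, n) = m1 * m / Nat.gcd (m1 * m) n := rfl
    have hm1T : (m1 : ℝ) ≤ T := (Nat.cast_le.2 ha1.2).trans (Nat.floor_le hT0.le)
    have hle : ((m1 * m : ℕ) : ℝ) ≤ T ^ 2 := by
      push_cast
      have : (0 : ℝ) ≤ m1 := Nat.cast_nonneg _
      nlinarith only [hT, hmTr, hm1T]
    have hle' : m1 * m ≤ ⌊T ^ 2⌋₊ := Nat.le_floor hle
    simp only [Finset.mem_product, Finset.mem_Icc, Nat.mem_divisors]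
    rw [hq]
    refine ⟨⟨Nat.gcd_dvd_right _ _, hn0.ne'⟩, ⟨k2, ?_⟩, ⟨k3, ?_⟩⟩
    · refine le_trans ?_ hle'
      rw [← k4]
      calc dl = 1 * dl * 1 := by ring
        _ ≤ Nat.gcd (m1 * m) n * dl * (m1 * m / Nat.gcd (m1 * m) n / dl) :=
          Nat.mul_le_mul (Nat.mul_le_mul k1 le_rfl) k3
    · refine le_trans ?_ hle'
      conv_rhs => rw [← k4]
      calc m1 * m / Nat.gcd (m1 * m) n / dl = 1 * 1 * (m1 * m / Nat.gcd (m1 * m) n / dl) := by ring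
        _ ≤ Nat.gcd (m1 * m) n * dl * (m1 * m / Nat.gcd (m1 * m) n / dl) :=
          Nat.mul_le_mul (Nat.mul_le_mul k1 k2) le_rfl
  · rintro ⟨m1, dl⟩ ha _ ⟨m1', dl'⟩ ha' _ h
    rw [Finset.mem_sigma] at ha ha'
    obtain ⟨ha1, ha2⟩ := ha
    obtain ⟨ha1', ha2'⟩ := ha'
    dsimp only at ha1 ha2 ha1' ha2' h
    rw [Finset.mem_Icc] at ha1 ha1'
    have hdl : dl ∣ m1 * m / Nat.gcd (m1 * m) n := (Nat.mem_divisors.mp ha2).1
    have hdl' : dl' ∣ m1' * m / Nat.gcd (m1' * m) n := (Nat.mem_divisors.mp ha2').1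
    obtain ⟨k1, k2, k3, k4, -⟩ := g3_fwd ha1.1 hm hn0 hdl
    obtain ⟨k1', k2', k3', k4', -⟩ := g3_fwd ha1'.1 hm hn0 hdl'
    simp only [Prod.mk.injEq] at h
    obtain ⟨e1, e2, e3⟩ := h
    have e3' : m1 * m / Nat.gcd (m1 * m) n / dl = m1' * m / Nat.gcd (m1' * m) n / dl' := e3
    have e4 : m1 * m = m1' * m := by
      rw [← k4, ← k4', e3', e1, e2]
    have e5 : m1 = m1' := Nat.eq_of_mul_eq_mul_right hm e4
    subst e5
    subst e2
    rfl
  · rintro ⟨g, dl, c⟩ hz hne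
    simp only [Finset.mem_product, Finset.mem_Icc, Nat.mem_divisors] at hz
    obtain ⟨⟨hg, -⟩, ⟨hdl, -⟩, ⟨hc, -⟩⟩ := hz
    dsimp only at hne
    split_ifs at hne with hcond
    · obtain ⟨c1, c2, c3, c4⟩ := hcond
      have hg0 : 0 < g := Nat.pos_of_dvd_of_pos hg hn0
      obtain ⟨b1, b2, b3, b4, b5⟩ := g3_bwd hm hn0 hg hdl hc c1 c3 c4
      have hGne : G (Real.log (((g * dl : ℕ) : ℝ) / m * c) / Real.log T, Real.log m / Real.log T,
            Real.log n / Real.log T) ≠ 0 := by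
        intro h0
        apply hne
        rw [h0]
        simp
      have hm1r : ((g * dl : ℕ) : ℝ) / m * c = ((g * dl * c / m : ℕ) : ℝ) := by
        have h6 : ((g * dl * c / m : ℕ) : ℝ) * m = ((g * dl * c : ℕ) : ℝ) := by exact_mod_cast b3
        rw [div_mul_eq_mul_div, div_eq_iff hmr.ne', h6]
        push_cast
        ring
      have hlt : ((g * dl * c / m : ℕ) : ℝ) < T := by
        rw [hm1r] at hGne
        exact hGlt (by exact_mod_cast b2) hGne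
      have hqq : qq (g * dl * c / m, m, n) = dl * c := by
        show g * dl * c / m * m / Nat.gcd (g * dl * c / m * m) n = dl * c
        rw [b4, b5]
      have hhn : hn (g * dl * c / m, m, n) = n / g := by
        show n / Nat.gcd (g * dl * c / m * m) n = n / g
        rw [b4]
      have hqc : dl * c / dl = c := Nat.mul_div_cancel_left _ hdl
      refine ⟨⟨g * dl * c / m, dl⟩, ?_, ?_, ?_⟩
      · rw [Finset.mem_sigma]
        refine ⟨?_, ?_⟩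
        · rw [Finset.mem_Icc]
          exact ⟨b2, Nat.le_floor hlt.le⟩
        · dsimp only
          rw [hqq, Nat.mem_divisors]
          exact ⟨Dvd.intro _ rfl, (Nat.mul_pos hdl hc).ne'⟩
      · dsimp only
        rw [hqq, hhn, hqc]
        refine mul_ne_zero ?_ (mul_ne_zero (by exact_mod_cast (show 0 < c from hc).ne') ?_)
        · unfold cx cf
          rw [Complex.ofReal_ne_zero]
          refine div_ne_zero ?_ ?_
          · rw [hm1r] at hGne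
            exact hGne
          · have : ((g * dl * c / m : ℕ) : ℝ) ≠ 0 := by exact_mod_cast b2.ne'
            exact mul_ne_zero this hmr.ne'
        · intro h0
          apply hne
          rw [h0]
          simp
      · simp only [Prod.mk.injEq]
        exact ⟨b4, trivial, by rw [hqq, hqc]⟩
    · exact absurd rfl hne
  · rintro ⟨m1, dl⟩ ha _
    rw [Finset.mem_sigma] at ha
    obtain ⟨ha1, ha2⟩ := ha
    dsimp only at ha1 ha2 ⊢
    rw [Finset.mem_Icc] at ha1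
    have hdl : dl ∣ m1 * m / Nat.gcd (m1 * m) n := (Nat.mem_divisors.mp ha2).1
    obtain ⟨k1, k2, k3, k4, k5, k6, k7⟩ := g3_fwd ha1.1 hm hn0 hdl
    have hq : qq (m1, m, n) = m1 * m / Nat.gcd (m1 * m) n := rfl
    have hh : hn (m1, m, n) = n / Nat.gcd (m1 * m) n := rfl
    rw [hq, hh, if_pos ⟨k5, k3, k7, k6⟩]
    set g := Nat.gcd (m1 * m) n with hg
    set c := m1 * m / g / dl with hc
    have hm1r : ((g * dl : ℕ) : ℝ) / m * c = (m1 : ℝ) := by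
      have h6 : ((g * dl : ℕ) : ℝ) * c = (m1 : ℝ) * m := by exact_mod_cast k4
      rw [div_mul_eq_mul_div, div_eq_iff hmr.ne', h6]
    rw [hm1r]
    have hm1c : (0 : ℝ) < m1 := by exact_mod_cast ha1.1
    have e1 : cx G T (m1, m, n) = (G (Real.log m1 / Real.log T, Real.log m / Real.log T,
            Real.log n / Real.log T) : ℂ) / ((m1 : ℂ) * m) := by
      unfold cx cf
      push_cast
      rfl
    rw [e1]
    have h7 : ((g * dl : ℕ) : ℂ) * (c : ℂ) = (m1 : ℂ) * m := by exact_mod_cast k4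
    have hgd0 : ((g * dl : ℕ) : ℂ) ≠ 0 := by exact_mod_cast (Nat.mul_pos k1 k2).ne'
    have hc0 : (c : ℂ) ≠ 0 := by exact_mod_cast k3.ne'
    rw [← h7]
    field_simp

/-- **G3. Rearrangement of the total error.** For `x = (m₁, m, n)` put `g = (m₁ m, n)`, `h = n/g`,
`q = m₁ m/g`, `c = q/dl`: then `m₁ m = g dl c`, `(q/dl)/(m₁ m) = 1/(g dl)`. Conversely, for given `m, n, g ∣ n, dl, c`,
`m₁ = g dl c/m` is an integer iff `m/(m, g dl) ∣ c`, and `(m₁ m, n) = g` iff `(dl c, n/g) = 1`. `G ≠ 0` forces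
`1 < m₁ < T`, and `dl ≤ m₁ m ≤ T²`. (`qq x`, `hn x` are the reduced denominator and numerator, `frac_facts`.) -/
theorem ErrTot_eq {G : ℝ × ℝ × ℝ → ℝ} (hG : ∀ p, G p ≠ 0 →
      0 < p.1 ∧ p.1 < 1 ∧ 0 < p.2.1 ∧ p.2.1 < 1 ∧ 0 < p.2.2 ∧ p.2.2 < 1) {T τ : ℝ} (hT : 1 < T)
    (F : ℤ → ℝ → ℂ) {C : ℝ} (hF : ∀ e x, 0 < x → ‖F e x‖ ≤ C * √x)
    (hE : ∀ q h : ℕ, 0 < q → 0 < h → Nat.Coprime h q → ErrX T τ q h =
      ∑' i : Ix, ((pr i : ℂ))⁻¹ * SIz q h i * F (es i) (h * q ^ 2 / pr i)) :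
    ErrTot G T τ = ∑ s : Bool × Bool × Bool, ∑ m ∈ Finset.Icc 1 ⌊T⌋₊, ∑ n ∈ Finset.Icc 1 ⌊T⌋₊,
      ∑ g ∈ n.divisors, ∑ dl ∈ Finset.Icc 1 ⌊T ^ 2⌋₊, if Nat.Coprime dl (n / g) then
        (((g * dl : ℕ) : ℂ))⁻¹ * ∑' c : ℕ, (if 0 < c ∧ m / Nat.gcd m (g * dl) ∣ c ∧
            Nat.Coprime c (n / g) then
          (G (Real.log (((g * dl : ℕ) : ℝ) / m * c) / Real.log T, Real.log m / Real.log T,
            Real.log n / Real.log T) : ℂ) *
          ∑' k : ℕ, tm (F (e3 s)) dl (n / g) (s3 s) c (k + 1) else 0) else 0 := by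
  have hT0 : (0 : ℝ) ≤ T := by linarith only [hT]
  have h1 : ∀ x ∈ tri T, cx G T x * ErrX T τ (qq x) (hn x) =
      ∑ s : Bool × Bool × Bool, ∑ dl ∈ (qq x).divisors, cx G T x * (((qq x / dl : ℕ) : ℂ) *
        ∑' k : ℕ, tm (F (e3 s)) dl (hn x) (s3 s) (qq x / dl) (k + 1)) := by
    intro x hx
    obtain ⟨hq, hh, hcop, -⟩ := frac_facts hT0 hx
    rw [hE (qq x) (hn x) hq hh hcop, (sum_rearr1 hq hh hcop F hF).2, Finset.mul_sum]
    refine Finset.sum_congr rfl fun s _ => ?_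
    rw [Finset.mul_sum]
  unfold ErrTot
  rw [Finset.sum_congr rfl h1, Finset.sum_comm]
  refine Finset.sum_congr rfl fun s _ => ?_
  unfold tri
  rw [Finset.sum_product, Finset.sum_comm, Finset.sum_product]
  refine Finset.sum_congr rfl fun m hm => ?_
  refine Finset.sum_congr rfl fun n hn' => ?_
  rw [Finset.mem_Icc] at hm hn'
  exact g3_mn hG hT (fun dl h c => ∑' k : ℕ, tm (F (e3 s)) dl h (s3 s) c (k + 1)) hm.1 hm.2 hn'.1

end SG

end

section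

namespace SG
open Complex MeasureTheory Filter Topology Set S6
open scoped Real ComplexConjugate

private theorem G4_KB : ∃ B : ℕ → ℝ, (∀ q, 0 ≤ B q) ∧ (∀ c : ℕ, 0 < c → ‖Kl c 1 1‖ ≤ B c) ∧
    ∀ ε : ℝ, 0 < ε → ∃ C : ℝ, ∀ Q : ℕ,
      ∑ q ∈ Finset.Icc 1 Q, B q * (q : ℝ) ^ (-(3 / 2 : ℝ)) ≤ C * (Q : ℝ) ^ ε := by
  obtain ⟨B, hB0, hB1, hB2⟩ := KloosBound_32
  refine ⟨B, hB0, fun c hc => ?_, hB2⟩
  have : NeZero c := ⟨hc.ne'⟩
  have hcr : (0 : ℝ) < c := by exact_mod_cast hc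
  have h1 := SS_red (q := c) (h := 1) (Nat.coprime_one_left c) 1 1 1
  have hf : c.divisors.filter (fun d : ℕ => (d : ℤ) ∣ 1 ∧ (d : ℤ) ∣ 1) = {1} := by
    ext d
    simp only [Finset.mem_filter, Nat.mem_divisors, Finset.mem_singleton]
    constructor
    · rintro ⟨_, _, h3⟩
      exact_mod_cast Int.eq_one_of_dvd_one (by (clear * -; positivity)) h3
    · rintro rfl
      exact ⟨⟨one_dvd _, hc.ne'⟩, by simp⟩
  rw [hf, Finset.sum_singleton] at h1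
  have h2 : KlG (c / 1) ((1 : ℕ) : ℤ) 1 (1 / ((1 : ℕ) : ℤ) * (1 / ((1 : ℕ) : ℤ))) = Kl c 1 1 := by
    unfold KlG Kl
    simp
  rw [h2] at h1
  have h3 := hB1 c (1 : ZMod c) 1 1 1 isUnit_one
  have h4 : SS c (1 : ZMod c) 1 1 1 = (c : ℂ) * Kl c 1 1 := by
    have := h1
    simpa using this
  rw [h4, norm_mul, Complex.norm_natCast] at h3
  have h5 : Nat.gcd (1 : ZMod c).val c = 1 := by
    rcases Nat.lt_or_ge 1 c with h | h
    · rw [ZMod.val_one'' (by omega)]; simp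
    · have : c = 1 := by omega
      subst this
      simp
  rw [h5] at h3
  simp only [Nat.cast_one, Real.sqrt_one, mul_one] at h3
  exact le_of_mul_le_mul_left h3 hcr

private theorem G4_div (c X : ℕ) (hc : 0 < c) :
    ∑ N ∈ (Finset.Icc 1 X).filter (fun N => N ∣ c), (N.divisors.card : ℝ) ≤ (c.divisors.card : ℝ) ^ 2 := by
  have h1 : (Finset.Icc 1 X).filter (fun N => N ∣ c) ⊆ c.divisors := by
    intro N hN
    rw [Finset.mem_filter] at hN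
    exact Nat.mem_divisors.2 ⟨hN.2, hc.ne'⟩
  calc ∑ N ∈ (Finset.Icc 1 X).filter (fun N => N ∣ c), (N.divisors.card : ℝ)
      ≤ ∑ N ∈ c.divisors, (N.divisors.card : ℝ) :=
        Finset.sum_le_sum_of_subset_of_nonneg h1 fun _ _ _ => Nat.cast_nonneg _
    _ ≤ ∑ N ∈ c.divisors, (c.divisors.card : ℝ) := by
        refine Finset.sum_le_sum fun N hN => ?_
        exact_mod_cast Finset.card_le_card (Nat.divisors_subset_of_dvd hc.ne' (Nat.mem_divisors.1 hN).1)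
    _ = _ := by rw [Finset.sum_const, nsmul_eq_mul]; ring

/-- **G4. Average of Kloosterman sums.** `S6.KloosBound_32` with `x = y = z = h = 1` and `SS_red`
(`SS c 1 1 1 1 = c Kl c 1 1`) give `‖Kl c 1 1‖ ≤ B c`, so `∑_{c ≤ R} ‖Kl c 1 1‖/c ≤ R^{1/2} ∑ B c c^{-3/2} ≤ C R^{1/2+ε}`;
`∑_{N ≤ X} τ(N) WW N R ≤ ∑_{c ≤ R} (∑_{N ∣ c} τ(N)) ‖Kl c 1 1‖/c` and `∑_{N ∣ c} τ(N) ≤ τ(c)² ≤ C c^ε`. Import
`Pool.Agent.Lib.MP_39df77_nt.S6_Kloos`. -/
theorem WW_avg {ε : ℝ} (hε : 0 < ε) : ∃ C : ℝ, 0 < C ∧ ∀ X : ℕ, ∀ R : ℝ, 1 ≤ R →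
    ∑ N ∈ Finset.Icc 1 X, (N.divisors.card : ℝ) * WW N R ≤ C * R ^ (1 / 2 + ε) := by
  obtain ⟨B, hB0, hB1, hB2⟩ := G4_KB
  obtain ⟨C1, hC1, ht⟩ := tau_bound (ε := ε / 3) (by (clear * - hε; positivity))
  obtain ⟨C2, hC2⟩ := hB2 (ε / 3) (by (clear * - hε; positivity))
  refine ⟨C1 ^ 2 * (|C2| + 1), by (clear * - hC1; positivity), fun X R hR => ?_⟩
  have hRp : 0 < R := by linarith only [hR]
  have hswap : ∑ N ∈ Finset.Icc 1 X, (N.divisors.card : ℝ) * WW N R =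
      ∑ c ∈ Finset.Icc 1 ⌊R⌋₊, (∑ N ∈ (Finset.Icc 1 X).filter (fun N => N ∣ c), (N.divisors.card : ℝ)) *
        (‖Kl c 1 1‖ / c) := by
    unfold WW
    simp only [Finset.mul_sum, Finset.sum_mul, Finset.sum_filter]
    rw [Finset.sum_comm]
    refine Finset.sum_congr rfl fun c _ => Finset.sum_congr rfl fun N _ => ?_
    split_ifs <;> simp
  rw [hswap]
  have hterm : ∀ c ∈ Finset.Icc 1 ⌊R⌋₊,
      (∑ N ∈ (Finset.Icc 1 X).filter (fun N => N ∣ c), (N.divisors.card : ℝ)) * (‖Kl c 1 1‖ / c) ≤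
      (C1 ^ 2 * R ^ (2 * (ε / 3)) * R ^ (1 / 2 : ℝ)) * (B c * (c : ℝ) ^ (-(3 / 2 : ℝ))) := by
    intro c hc
    rw [Finset.mem_Icc] at hc
    have hc0 : 0 < c := by omega
    have hcr : (0 : ℝ) < c := by exact_mod_cast hc0
    have hcR : (c : ℝ) ≤ R := (Nat.cast_le.2 hc.2).trans (Nat.floor_le hRp.le)
    have h1 := G4_div c X hc0
    have h2 := ht c hc0
    have h3 : (c.divisors.card : ℝ) ^ 2 ≤ C1 ^ 2 * R ^ (2 * (ε / 3)) := by
      calc (c.divisors.card : ℝ) ^ 2 ≤ (C1 * (c : ℝ) ^ (ε / 3)) ^ 2 :=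
            pow_le_pow_left₀ (Nat.cast_nonneg _) h2 2
        _ ≤ (C1 * R ^ (ε / 3)) ^ 2 := by
            have : (c : ℝ) ^ (ε / 3) ≤ R ^ (ε / 3) := Real.rpow_le_rpow hcr.le hcR (by (clear * - hε; positivity))
            (clear * - hC1 hc0 this; gcongr)
        _ = _ := by
            rw [mul_pow, ← Real.rpow_natCast (R ^ (ε / 3)) 2, ← Real.rpow_mul hRp.le]
            congr 2
            push_cast; ring
    have h4 : ‖Kl c 1 1‖ / c ≤ R ^ (1 / 2 : ℝ) * (B c * (c : ℝ) ^ (-(3 / 2 : ℝ))) := by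
      have e1 : (c : ℝ)⁻¹ = (c : ℝ) ^ (1 / 2 : ℝ) * (c : ℝ) ^ (-(3 / 2 : ℝ)) := by
        rw [← Real.rpow_add hcr, ← Real.rpow_neg_one]; norm_num
      have e2 : (c : ℝ) ^ (1 / 2 : ℝ) ≤ R ^ (1 / 2 : ℝ) := Real.rpow_le_rpow hcr.le hcR (by norm_num)
      have e3 : 0 ≤ (c : ℝ) ^ (-(3 / 2 : ℝ)) := Real.rpow_nonneg hcr.le _
      calc ‖Kl c 1 1‖ / c = ‖Kl c 1 1‖ * (c : ℝ)⁻¹ := div_eq_mul_inv _ _
        _ ≤ B c * ((c : ℝ) ^ (1 / 2 : ℝ) * (c : ℝ) ^ (-(3 / 2 : ℝ))) := by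
            rw [e1]
            exact mul_le_mul_of_nonneg_right (hB1 c hc0)
              (mul_nonneg (Real.rpow_nonneg hcr.le _) e3)
        _ ≤ B c * (R ^ (1 / 2 : ℝ) * (c : ℝ) ^ (-(3 / 2 : ℝ))) := by
            refine mul_le_mul_of_nonneg_left ?_ (hB0 c)
            exact mul_le_mul_of_nonneg_right e2 e3
        _ = _ := by ring
    have h5 : 0 ≤ ‖Kl c 1 1‖ / (c : ℝ) := by (clear * - hc0; positivity)
    calc _ ≤ (C1 ^ 2 * R ^ (2 * (ε / 3))) * (‖Kl c 1 1‖ / c) :=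
          mul_le_mul_of_nonneg_right (h1.trans h3) h5
      _ ≤ (C1 ^ 2 * R ^ (2 * (ε / 3))) * (R ^ (1 / 2 : ℝ) * (B c * (c : ℝ) ^ (-(3 / 2 : ℝ)))) := by
          refine mul_le_mul_of_nonneg_left h4 (by positivity)
      _ = _ := by ring
  refine (Finset.sum_le_sum hterm).trans ?_
  rw [← Finset.mul_sum]
  have hF : (⌊R⌋₊ : ℝ) ^ (ε / 3) ≤ R ^ (ε / 3) :=
    Real.rpow_le_rpow (Nat.cast_nonneg _) (Nat.floor_le hRp.le) (by positivity)
  have hF0 : 0 ≤ (⌊R⌋₊ : ℝ) ^ (ε / 3) := Real.rpow_nonneg (Nat.cast_nonneg _) _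
  have hR0 : 0 ≤ R ^ (ε / 3) := Real.rpow_nonneg hRp.le _
  have h6 : ∑ q ∈ Finset.Icc 1 ⌊R⌋₊, B q * (q : ℝ) ^ (-(3 / 2 : ℝ)) ≤ (|C2| + 1) * R ^ (ε / 3) := by
    refine (hC2 ⌊R⌋₊).trans ?_
    have := le_abs_self C2
    calc C2 * (⌊R⌋₊ : ℝ) ^ (ε / 3) ≤ (|C2| + 1) * (⌊R⌋₊ : ℝ) ^ (ε / 3) := by
          refine mul_le_mul_of_nonneg_right (by linarith only [this]) hF0
      _ ≤ _ := by
          refine mul_le_mul_of_nonneg_left hF (by (clear * -; positivity))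
  calc C1 ^ 2 * R ^ (2 * (ε / 3)) * R ^ (1 / 2 : ℝ) *
        ∑ q ∈ Finset.Icc 1 ⌊R⌋₊, B q * (q : ℝ) ^ (-(3 / 2 : ℝ))
      ≤ C1 ^ 2 * R ^ (2 * (ε / 3)) * R ^ (1 / 2 : ℝ) * ((|C2| + 1) * R ^ (ε / 3)) :=
        mul_le_mul_of_nonneg_left h6 (by (clear * - hC1 hR; positivity))
    _ = C1 ^ 2 * (|C2| + 1) * (R ^ (2 * (ε / 3)) * R ^ (1 / 2 : ℝ) * R ^ (ε / 3)) := by ring
    _ = _ := by
        rw [← Real.rpow_add hRp, ← Real.rpow_add hRp]
        congr 2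
        ring

end SG

end

section

namespace SG
open Complex MeasureTheory Filter Topology Set S6
open scoped Real ComplexConjugate

private theorem G5_aux1 (N : ℕ) (f : ℕ → ℕ → ℝ) (hf : ∀ g h, 0 ≤ f g h) :
    ∑ n ∈ Finset.Icc 1 N, ∑ g ∈ n.divisors, f g (n / g) ≤
      ∑ g ∈ Finset.Icc 1 N, ∑ h ∈ Finset.Icc 1 N, f g h := by
  classical
  rw [Finset.sum_sigma', ← Finset.sum_product' (f := f)]
  have hinj : Set.InjOn (fun x : (_ : ℕ) × ℕ => (x.2, x.1 / x.2))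
      (((Finset.Icc 1 N).sigma fun n => n.divisors : Finset ((_ : ℕ) × ℕ)) : Set ((_ : ℕ) × ℕ)) := by
    rintro ⟨n, g⟩ h1 ⟨n', g'⟩ h2 h
    simp only [Finset.mem_coe, Finset.mem_sigma, Finset.mem_Icc, Nat.mem_divisors] at h1 h2
    simp only [Prod.mk.injEq] at h
    obtain ⟨rfl, h⟩ := h
    have e1 := Nat.mul_div_cancel' h1.2.1
    have e2 := Nat.mul_div_cancel' h2.2.1
    have : n = n' := by rw [← e1, ← e2, h]
    subst this
    rfl
  calc ∑ x ∈ (Finset.Icc 1 N).sigma fun n => n.divisors, f x.2 (x.1 / x.2)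
      = ∑ y ∈ ((Finset.Icc 1 N).sigma fun n => n.divisors).image
          (fun x : (_ : ℕ) × ℕ => (x.2, x.1 / x.2)), f y.1 y.2 := by
        rw [Finset.sum_image hinj]
    _ ≤ ∑ y ∈ Finset.Icc 1 N ×ˢ Finset.Icc 1 N, f y.1 y.2 := by
        apply Finset.sum_le_sum_of_subset_of_nonneg
        · intro y hy
          obtain ⟨⟨n, g⟩, h1, rfl⟩ := Finset.mem_image.mp hy
          simp only [Finset.mem_sigma, Finset.mem_Icc, Nat.mem_divisors] at h1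
          obtain ⟨⟨hn1, hnN⟩, hgn, -⟩ := h1
          have hg : 0 < g := Nat.pos_of_dvd_of_pos hgn hn1
          have hgle : g ≤ n := Nat.le_of_dvd hn1 hgn
          simp only [Finset.mem_product, Finset.mem_Icc]
          refine ⟨⟨hg, hgle.trans hnN⟩, Nat.div_pos hgle hg, (Nat.div_le_self n g).trans hnN⟩
        · intro y _ _
          exact hf _ _

private theorem G5_aux2 (M G : ℕ) (hG : 0 < G) (f : ℕ → ℝ) (hf : ∀ s, 0 ≤ f s) :
    ∑ m ∈ Finset.Icc 1 M, f (m / Nat.gcd m G) ≤ (G.divisors.card : ℝ) * ∑ s ∈ Finset.Icc 1 M, f s := by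
  classical
  have hinj : Set.InjOn (fun m : ℕ => (Nat.gcd m G, m / Nat.gcd m G)) ((Finset.Icc 1 M : Finset ℕ) : Set ℕ) := by
    intro m _ m' _ h
    simp only [Prod.mk.injEq] at h
    have e1 := Nat.mul_div_cancel' (Nat.gcd_dvd_left m G)
    have e2 := Nat.mul_div_cancel' (Nat.gcd_dvd_left m' G)
    rw [← e1, ← e2, h.2, h.1]
  calc ∑ m ∈ Finset.Icc 1 M, f (m / Nat.gcd m G)
      = ∑ y ∈ (Finset.Icc 1 M).image (fun m : ℕ => (Nat.gcd m G, m / Nat.gcd m G)), f y.2 := by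
        rw [Finset.sum_image hinj]
    _ ≤ ∑ y ∈ G.divisors ×ˢ Finset.Icc 1 M, f y.2 := by
        apply Finset.sum_le_sum_of_subset_of_nonneg
        · intro y hy
          obtain ⟨m, h1, rfl⟩ := Finset.mem_image.mp hy
          rw [Finset.mem_Icc] at h1
          have hgp : 0 < Nat.gcd m G := Nat.gcd_pos_of_pos_right _ hG
          have hgle : Nat.gcd m G ≤ m := Nat.le_of_dvd h1.1 (Nat.gcd_dvd_left m G)
          simp only [Finset.mem_product, Finset.mem_Icc, Nat.mem_divisors]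
          exact ⟨⟨Nat.gcd_dvd_right m G, hG.ne'⟩, Nat.div_pos hgle hgp, (Nat.div_le_self _ _).trans h1.2⟩
        · intro y _ _
          exact hf _
    _ = (G.divisors.card : ℝ) * ∑ s ∈ Finset.Icc 1 M, f s := by
        rw [Finset.sum_product]
        simp only [Finset.sum_const, nsmul_eq_mul]

private theorem G5_aux3 (M N : ℕ) (f : ℕ → ℝ) (hf : ∀ s, 0 ≤ f s) :
    ∑ s ∈ Finset.Icc 1 M, ∑ h ∈ Finset.Icc 1 N, f (h * s) ≤
      ∑ K ∈ Finset.Icc 1 (M * N), (K.divisors.card : ℝ) * f K := by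
  classical
  rw [← Finset.sum_product' (f := fun s h => f (h * s))]
  have hinj : Set.InjOn (fun y : ℕ × ℕ => (⟨y.2 * y.1, y.2⟩ : (_ : ℕ) × ℕ))
      ((Finset.Icc 1 M ×ˢ Finset.Icc 1 N : Finset (ℕ × ℕ)) : Set (ℕ × ℕ)) := by
    rintro ⟨s, h⟩ h1 ⟨s', h'⟩ _ e
    simp only [Finset.mem_coe, Finset.mem_product, Finset.mem_Icc] at h1
    simp only [Sigma.mk.injEq, heq_eq_eq] at e
    obtain ⟨e1, rfl⟩ := e
    have := Nat.eq_of_mul_eq_mul_left h1.2.1 e1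
    rw [this]
  calc ∑ y ∈ Finset.Icc 1 M ×ˢ Finset.Icc 1 N, f (y.2 * y.1)
      = ∑ x ∈ (Finset.Icc 1 M ×ˢ Finset.Icc 1 N).image
          (fun y : ℕ × ℕ => (⟨y.2 * y.1, y.2⟩ : (_ : ℕ) × ℕ)), f x.1 := by
        rw [Finset.sum_image hinj]
    _ ≤ ∑ x ∈ (Finset.Icc 1 (M * N)).sigma (fun K => K.divisors), f x.1 := by
        apply Finset.sum_le_sum_of_subset_of_nonneg
        · intro x hx
          obtain ⟨⟨s, h⟩, h1, rfl⟩ := Finset.mem_image.mp hx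
          simp only [Finset.mem_product, Finset.mem_Icc] at h1
          simp only [Finset.mem_sigma, Finset.mem_Icc, Nat.mem_divisors]
          have hp : 0 < h * s := Nat.mul_pos h1.2.1 h1.1.1
          refine ⟨⟨hp, ?_⟩, Dvd.intro _ rfl, hp.ne'⟩
          calc h * s ≤ N * M := Nat.mul_le_mul h1.2.2 h1.1.2
            _ = M * N := Nat.mul_comm _ _
        · intro x _ _
          exact hf _
    _ = ∑ K ∈ Finset.Icc 1 (M * N), (K.divisors.card : ℝ) * f K := by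
        rw [Finset.sum_sigma]
        refine Finset.sum_congr rfl fun K _ => ?_
        simp only [Finset.sum_const, nsmul_eq_mul]

private theorem G5_harm {ε : ℝ} (hε : 0 < ε) : ∃ C : ℝ, 0 < C ∧ ∀ T ≥ (1 : ℝ), ∀ N : ℕ, (N : ℝ) ≤ T ^ 2 →
    ∑ d ∈ Finset.Icc 1 N, ((d : ℝ))⁻¹ ≤ C * T ^ ε := by
  refine ⟨1 + 2 / ε, by (clear * - hε; positivity), fun T hT N hN => ?_⟩
  have hT0 : 0 < T := by linarith only [hT]
  have h1 : ∑ d ∈ Finset.Icc 1 N, ((d : ℝ))⁻¹ ≤ ∑ d ∈ Finset.Icc 1 ⌊T ^ 2⌋₊, ((d : ℝ))⁻¹ := by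
    apply Finset.sum_le_sum_of_subset_of_nonneg
    · apply Finset.Icc_subset_Icc le_rfl
      exact Nat.le_floor hN
    · intro d _ _
      (clear * -; positivity)
  have h2 : ∑ d ∈ Finset.Icc 1 ⌊T ^ 2⌋₊, ((d : ℝ))⁻¹ ≤ 1 + Real.log (T ^ 2) := by
    have := harmonic_floor_le_one_add_log (T ^ 2) (by nlinarith only [hT])
    rw [harmonic_eq_sum_Icc] at this
    push_cast at this
    exact this
  have h3 : Real.log (T ^ 2) = 2 * Real.log T := by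
    rw [Real.log_pow]; norm_num
  have h4 : Real.log T ≤ T ^ ε / ε := Real.log_le_rpow_div hT0.le hε
  have h5 : (1 : ℝ) ≤ T ^ ε := Real.one_le_rpow hT hε.le
  calc _ ≤ 1 + Real.log (T ^ 2) := h1.trans h2
    _ ≤ T ^ ε + 2 * (T ^ ε / ε) := by rw [h3]; linarith only [h4, h5]
    _ = (1 + 2 / ε) * T ^ ε := by ring

/-- the total weight -/
private theorem G5_weight {ε : ℝ} (hε : 0 < ε) : ∃ C : ℝ, 0 < C ∧ ∀ T ≥ (1 : ℝ), ∀ M N : ℕ, (N : ℝ) ≤ T →
    ∑ _m ∈ Finset.Icc 1 M, ∑ n ∈ Finset.Icc 1 N, ∑ g ∈ n.divisors,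
      ∑ dl ∈ Finset.Icc 1 ⌊T ^ 2⌋₊, (((g * dl : ℕ) : ℝ))⁻¹ ≤ C * (M * N * T ^ (2 * ε)) := by
  obtain ⟨C1, hC1, h1⟩ := G5_harm hε
  obtain ⟨C2, hC2, h2⟩ := tau_bound hε
  refine ⟨C2 * C1, by (clear * - hC1 hC2; positivity), fun T hT M N hN => ?_⟩
  have hT0 : 0 < T := by linarith only [hT]
  have hfl : ((⌊T ^ 2⌋₊ : ℕ) : ℝ) ≤ T ^ 2 := Nat.floor_le (by (clear * - hT; positivity))
  have hin : ∀ n ∈ Finset.Icc 1 N, ∑ g ∈ n.divisors, ∑ dl ∈ Finset.Icc 1 ⌊T ^ 2⌋₊, (((g * dl : ℕ) : ℝ))⁻¹ ≤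
      C2 * C1 * T ^ (2 * ε) := by
    intro n hn
    rw [Finset.mem_Icc] at hn
    have hg : ∀ g ∈ n.divisors, ∑ dl ∈ Finset.Icc 1 ⌊T ^ 2⌋₊, (((g * dl : ℕ) : ℝ))⁻¹ ≤ C1 * T ^ ε := by
      intro g hg
      have hg1 : 1 ≤ g := Nat.pos_of_mem_divisors hg
      refine le_trans (Finset.sum_le_sum fun dl hdl => ?_) (h1 T hT _ hfl)
      rw [Finset.mem_Icc] at hdl
      have hdl0 : (0 : ℝ) < dl := by exact_mod_cast hdl.1
      have hg1' : (1 : ℝ) ≤ g := by exact_mod_cast hg1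
      push_cast
      apply inv_anti₀ hdl0
      nlinarith only [hg1']
    refine (Finset.sum_le_sum hg).trans ?_
    rw [Finset.sum_const, nsmul_eq_mul]
    have h3 := h2 n hn.1
    have h4 : (n : ℝ) ^ ε ≤ T ^ ε := by
      apply Real.rpow_le_rpow (by (clear * -; positivity)) _ hε.le
      exact le_trans (by exact_mod_cast hn.2) hN
    have h5 : T ^ (2 * ε) = T ^ ε * T ^ ε := by rw [← Real.rpow_add hT0]; ring_nf
    rw [h5]
    calc (n.divisors.card : ℝ) * (C1 * T ^ ε) ≤ (C2 * T ^ ε) * (C1 * T ^ ε) := by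
          apply mul_le_mul_of_nonneg_right _ (by (clear * - hC1 hT; positivity))
          exact h3.trans (by (clear * - hC2 h4; gcongr))
      _ = C2 * C1 * (T ^ ε * T ^ ε) := by ring
  calc _ ≤ ∑ _m ∈ Finset.Icc 1 M, ∑ _n ∈ Finset.Icc 1 N, C2 * C1 * T ^ (2 * ε) :=
        Finset.sum_le_sum fun m _ => Finset.sum_le_sum hin
    _ = C2 * C1 * (M * N * T ^ (2 * ε)) := by
        simp only [Finset.sum_const, nsmul_eq_mul, Nat.card_Icc, Nat.add_sub_cancel]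
        ring

/-- the Kloosterman part -/
private theorem G5_kl {ε : ℝ} (hε : 0 < ε) : ∃ C : ℝ, 0 < C ∧ ∀ T ≥ (1 : ℝ), ∀ M N : ℕ, (N : ℝ) ≤ T →
    ∑ m ∈ Finset.Icc 1 M, ∑ n ∈ Finset.Icc 1 N, ∑ g ∈ n.divisors,
      ∑ dl ∈ Finset.Icc 1 ⌊T ^ 2⌋₊, (((g * dl : ℕ) : ℝ))⁻¹ * WW (n / g * (m / Nat.gcd m (g * dl))) T ≤
      C * T ^ (1 / 2 + 6 * ε) := by
  obtain ⟨C1, hC1, h1⟩ := G5_harm hε
  obtain ⟨C2, hC2, h2⟩ := tau_bound hε
  obtain ⟨C3, hC3, h3⟩ := WW_avg hε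
  refine ⟨C2 * C3 * C1 * C1, by (clear * - hC1 hC2 hC3; positivity), fun T hT M N hN => ?_⟩
  have hT0 : 0 < T := by linarith only [hT]
  have hfl : ((⌊T ^ 2⌋₊ : ℕ) : ℝ) ≤ T ^ 2 := Nat.floor_le (by (clear * - hT; positivity))
  have hNT : (N : ℝ) ≤ T ^ 2 := by nlinarith only [hT, hN]
  -- replace `(n, g)` by `(g, h)`
  have s1 : ∀ m ∈ Finset.Icc 1 M, ∑ n ∈ Finset.Icc 1 N, ∑ g ∈ n.divisors,
      ∑ dl ∈ Finset.Icc 1 ⌊T ^ 2⌋₊, (((g * dl : ℕ) : ℝ))⁻¹ * WW (n / g * (m / Nat.gcd m (g * dl))) T ≤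
      ∑ g ∈ Finset.Icc 1 N, ∑ h ∈ Finset.Icc 1 N, ∑ dl ∈ Finset.Icc 1 ⌊T ^ 2⌋₊,
        (((g * dl : ℕ) : ℝ))⁻¹ * WW (h * (m / Nat.gcd m (g * dl))) T := by
    intro m _
    exact G5_aux1 N (fun g h => ∑ dl ∈ Finset.Icc 1 ⌊T ^ 2⌋₊,
        (((g * dl : ℕ) : ℝ))⁻¹ * WW (h * (m / Nat.gcd m (g * dl))) T)
      (fun g h => Finset.sum_nonneg fun dl _ => mul_nonneg (by (clear * -; positivity)) (WW_nonneg _ _))
  have s2 : ∑ m ∈ Finset.Icc 1 M, ∑ g ∈ Finset.Icc 1 N, ∑ h ∈ Finset.Icc 1 N, ∑ dl ∈ Finset.Icc 1 ⌊T ^ 2⌋₊,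
        (((g * dl : ℕ) : ℝ))⁻¹ * WW (h * (m / Nat.gcd m (g * dl))) T =
      ∑ g ∈ Finset.Icc 1 N, ∑ dl ∈ Finset.Icc 1 ⌊T ^ 2⌋₊, (((g * dl : ℕ) : ℝ))⁻¹ *
        ∑ m ∈ Finset.Icc 1 M, ∑ h ∈ Finset.Icc 1 N, WW (h * (m / Nat.gcd m (g * dl))) T := by
    rw [Finset.sum_comm]
    refine Finset.sum_congr rfl fun g _ => ?_
    have : ∀ m ∈ Finset.Icc 1 M, ∑ h ∈ Finset.Icc 1 N, ∑ dl ∈ Finset.Icc 1 ⌊T ^ 2⌋₊,
        (((g * dl : ℕ) : ℝ))⁻¹ * WW (h * (m / Nat.gcd m (g * dl))) T =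
        ∑ dl ∈ Finset.Icc 1 ⌊T ^ 2⌋₊, (((g * dl : ℕ) : ℝ))⁻¹ *
          ∑ h ∈ Finset.Icc 1 N, WW (h * (m / Nat.gcd m (g * dl))) T := by
      intro m _
      rw [Finset.sum_comm]
      refine Finset.sum_congr rfl fun dl _ => ?_
      rw [Finset.mul_sum]
    rw [Finset.sum_congr rfl this, Finset.sum_comm]
    refine Finset.sum_congr rfl fun dl _ => ?_
    rw [Finset.mul_sum]
  have s3 : ∀ g ∈ Finset.Icc 1 N, ∀ dl ∈ Finset.Icc 1 ⌊T ^ 2⌋₊,
      ∑ m ∈ Finset.Icc 1 M, ∑ h ∈ Finset.Icc 1 N, WW (h * (m / Nat.gcd m (g * dl))) T ≤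
        C2 * C3 * T ^ (1 / 2 + 4 * ε) := by
    intro g hg dl hdl
    rw [Finset.mem_Icc] at hg hdl
    have hG : 0 < g * dl := Nat.mul_pos hg.1 hdl.1
    have e1 := G5_aux2 M (g * dl) hG (fun s => ∑ h ∈ Finset.Icc 1 N, WW (h * s) T)
      (fun s => Finset.sum_nonneg fun h _ => WW_nonneg _ _)
    have e2 := G5_aux3 M N (fun K => WW K T) (fun K => WW_nonneg _ _)
    have e3 := h3 (M * N) T hT
    have e4 := h2 (g * dl) hG
    have e5 : (((g * dl : ℕ) : ℝ)) ^ ε ≤ T ^ (3 * ε) := by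
      have hgT : (g : ℝ) ≤ T := le_trans (by exact_mod_cast hg.2) hN
      have hdT : (dl : ℝ) ≤ T ^ 2 := le_trans (by exact_mod_cast hdl.2) hfl
      have : (((g * dl : ℕ) : ℝ)) ≤ T ^ (3 : ℝ) := by
        push_cast
        rw [show (3 : ℝ) = ((3 : ℕ) : ℝ) by norm_num, Real.rpow_natCast]
        calc (g : ℝ) * dl ≤ T * T ^ 2 := mul_le_mul hgT hdT (by (clear * -; positivity)) (by positivity)
          _ = T ^ 3 := by ring
      calc (((g * dl : ℕ) : ℝ)) ^ ε ≤ (T ^ (3 : ℝ)) ^ ε := Real.rpow_le_rpow (by (clear * - hG; positivity)) this hε.le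
        _ = T ^ (3 * ε) := by rw [← Real.rpow_mul hT0.le]
    calc _ ≤ (((g * dl).divisors.card : ℕ) : ℝ) * ∑ s ∈ Finset.Icc 1 M, ∑ h ∈ Finset.Icc 1 N, WW (h * s) T := e1
      _ ≤ (C2 * T ^ (3 * ε)) * (C3 * T ^ (1 / 2 + ε)) := by
          apply mul_le_mul
          · exact e4.trans (by (clear * - hC2 e5; gcongr))
          · exact e2.trans e3
          · exact Finset.sum_nonneg fun s _ => Finset.sum_nonneg fun h _ => WW_nonneg _ _
          · (clear * - hC2 hT; positivity)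
      _ = C2 * C3 * (T ^ (3 * ε) * T ^ (1 / 2 + ε)) := by ring
      _ = C2 * C3 * T ^ (1 / 2 + 4 * ε) := by rw [← Real.rpow_add hT0]; ring_nf
  have s4 : ∑ g ∈ Finset.Icc 1 N, ∑ dl ∈ Finset.Icc 1 ⌊T ^ 2⌋₊, (((g * dl : ℕ) : ℝ))⁻¹ ≤
      (C1 * T ^ ε) * (C1 * T ^ ε) := by
    have : ∑ g ∈ Finset.Icc 1 N, ∑ dl ∈ Finset.Icc 1 ⌊T ^ 2⌋₊, (((g * dl : ℕ) : ℝ))⁻¹ =
        (∑ g ∈ Finset.Icc 1 N, ((g : ℝ))⁻¹) * ∑ dl ∈ Finset.Icc 1 ⌊T ^ 2⌋₊, ((dl : ℝ))⁻¹ := by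
      rw [Finset.sum_mul_sum]
      refine Finset.sum_congr rfl fun g _ => Finset.sum_congr rfl fun dl _ => ?_
      push_cast
      rw [mul_inv]
    rw [this]
    exact mul_le_mul (h1 T hT N hNT) (h1 T hT _ hfl) (Finset.sum_nonneg fun d _ => by (clear * -; positivity)) (by (clear * - hC1 hT; positivity))
  calc _ ≤ ∑ m ∈ Finset.Icc 1 M, ∑ g ∈ Finset.Icc 1 N, ∑ h ∈ Finset.Icc 1 N, ∑ dl ∈ Finset.Icc 1 ⌊T ^ 2⌋₊,
        (((g * dl : ℕ) : ℝ))⁻¹ * WW (h * (m / Nat.gcd m (g * dl))) T := Finset.sum_le_sum s1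
    _ = _ := s2
    _ ≤ ∑ g ∈ Finset.Icc 1 N, ∑ dl ∈ Finset.Icc 1 ⌊T ^ 2⌋₊, (((g * dl : ℕ) : ℝ))⁻¹ *
        (C2 * C3 * T ^ (1 / 2 + 4 * ε)) := by
        refine Finset.sum_le_sum fun g hg => Finset.sum_le_sum fun dl hdl => ?_
        exact mul_le_mul_of_nonneg_left (s3 g hg dl hdl) (by (clear * -; positivity))
    _ = (∑ g ∈ Finset.Icc 1 N, ∑ dl ∈ Finset.Icc 1 ⌊T ^ 2⌋₊, (((g * dl : ℕ) : ℝ))⁻¹) *
        (C2 * C3 * T ^ (1 / 2 + 4 * ε)) := by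
        rw [Finset.sum_mul]
        refine Finset.sum_congr rfl fun g _ => ?_
        rw [Finset.sum_mul]
    _ ≤ ((C1 * T ^ ε) * (C1 * T ^ ε)) * (C2 * C3 * T ^ (1 / 2 + 4 * ε)) :=
        mul_le_mul_of_nonneg_right s4 (by (clear * - hC2 hC3 hT; positivity))
    _ = C2 * C3 * C1 * C1 * (T ^ ε * T ^ ε * T ^ (1 / 2 + 4 * ε)) := by ring
    _ = C2 * C3 * C1 * C1 * T ^ (1 / 2 + 6 * ε) := by
        rw [← Real.rpow_add hT0, ← Real.rpow_add hT0]; ring_nf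

/-- `Cp²/(T s) ≤ T^{2α-1+β}` -/
private theorem G5_pt {T α β : ℝ} (hT : 1 ≤ T) {m G : ℕ} (hm : 0 < m) (hmT : (m : ℝ) ≤ T ^ β) (hG : 0 < G) :
    (T ^ α / ((G : ℝ) / m)) ^ 2 / (T * (m / Nat.gcd m G : ℕ)) ≤ T ^ (2 * α - 1 + β) := by
  have hT0 : 0 < T := by linarith only [hT]
  have hm0 : (0 : ℝ) < m := by exact_mod_cast hm
  have hG0 : (0 : ℝ) < G := by exact_mod_cast hG
  have hgp : 0 < Nat.gcd m G := Nat.gcd_pos_of_pos_right _ hG
  have hgp0 : (0 : ℝ) < Nat.gcd m G := by exact_mod_cast hgp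
  have hgG : ((Nat.gcd m G : ℕ) : ℝ) ≤ G := by exact_mod_cast Nat.le_of_dvd hG (Nat.gcd_dvd_right m G)
  have hG1 : (1 : ℝ) ≤ G := by exact_mod_cast hG
  have hs : ((m / Nat.gcd m G : ℕ) : ℝ) = m / Nat.gcd m G := by
    rw [Nat.cast_div (Nat.gcd_dvd_left m G) (by exact_mod_cast hgp.ne')]
  rw [hs]
  have hpow : T ^ (2 * α - 1 + β) = (T ^ α) ^ 2 / T * T ^ β := by
    rw [Real.rpow_add hT0, Real.rpow_sub hT0, Real.rpow_one, two_mul, Real.rpow_add hT0]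
    ring
  rw [hpow]
  have e : (T ^ α / ((G : ℝ) / m)) ^ 2 / (T * (m / Nat.gcd m G)) =
      (T ^ α) ^ 2 / T * (m * (Nat.gcd m G / (G * G))) := by
    field_simp
  rw [e]
  apply mul_le_mul_of_nonneg_left _ (by (clear * - hT; positivity))
  calc (m : ℝ) * (Nat.gcd m G / (G * G)) ≤ m * 1 := by
        apply mul_le_mul_of_nonneg_left _ hm0.le
        rw [div_le_one (by (clear * - hG; positivity))]
        nlinarith only [hgG, hG1]
    _ = m := mul_one _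
    _ ≤ T ^ β := hmT

/-- **G5. Final summation.** Here `Cp = T^α2 m/(g dl)`, `s = m/(m, g dl)`, `h = n/g`. Weighted Cauchy–Schwarz
`∑ w √(ab) ≤ √(∑ w a) √(∑ w b)` with `w = 1/(g dl)`:
(i) `∑ w (1 + WW (h s) T)`: with `N = h s`, `m = s p`, `p = (m, g dl) ∣ g dl`, `n = g h` the `WW` part is
`≤ ∑_{g ≤ T, dl ≤ T²} τ(g dl)/(g dl) ∑_{N ≤ T²} τ(N) WW N T ≤ C T^{3ε} T^{1/2}` (G4, F0), the part `1` is
`≤ C T^{β2+γ2+ε}`; total `≤ C T^{1/2+3ε}`;
(ii) `∑ w (1 + Cp²/(T s))`, `Cp²/(T s) = T^{2α2-1} m (m, g dl)/(g dl)² ≤ T^{2α2-1} m/(g dl)`, so it is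
`≤ C T^ε (T^{β2+γ2} + T^{2α2+2β2+γ2-1}) ≤ C T^{1/2 - 99 ε}`.
Product: `T^{1/2} T^{20ε} T^{1/2 - 48ε}`. The term `T^{-1/2} Cp²/s = T^{1/2} · Cp²/(T s)` is treated as (ii), the term `1` as (i). -/
theorem final_sum {ε : ℝ} (hε : 0 < ε) (hε1 : ε ≤ 1 / 200) : ∃ C T₀ : ℝ, 0 < C ∧ ∀ T ≥ T₀,
    ∀ α2 β2 γ2 : ℝ, 0 ≤ α2 → 0 ≤ β2 → 0 ≤ γ2 → α2 ≤ 1 → β2 ≤ 1 → γ2 ≤ 1 →
    β2 + γ2 ≤ 1 / 2 - 100 * ε → γ2 + 2 * (α2 + β2) ≤ 3 / 2 - 100 * ε →
    ∑ m ∈ Finset.Icc 1 ⌊T ^ β2⌋₊, ∑ n ∈ Finset.Icc 1 ⌊T ^ γ2⌋₊, ∑ g ∈ n.divisors,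
      ∑ dl ∈ Finset.Icc 1 ⌊T ^ 2⌋₊, (((g * dl : ℕ) : ℝ))⁻¹ * (T ^ (20 * ε) * (T ^ (1 / 2 : ℝ) *
        √((1 + (T ^ α2 / (((g * dl : ℕ) : ℝ) / m)) ^ 2 / (T * (m / Nat.gcd m (g * dl) : ℕ))) *
          (1 + WW (n / g * (m / Nat.gcd m (g * dl))) T)) +
        T ^ (-1 / 2 : ℝ) * (T ^ α2 / (((g * dl : ℕ) : ℝ) / m)) ^ 2 / (m / Nat.gcd m (g * dl) : ℕ) + 1)) ≤
      C * T ^ (1 - ε) := by
  classical
  obtain ⟨C1, hC1, h1⟩ := G5_weight hε
  obtain ⟨C2, hC2, h2⟩ := G5_kl hε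
  refine ⟨√(2 * C1 * (C1 + C2)) + 4 * C1, 1, by (clear * - hC1 hC2; positivity), ?_⟩
  intro T hT α2 β2 γ2 hα hβ hγ hα1 hβ1 hγ1 hbg hab
  have hT0 : 0 < T := by linarith only [hε, hε1, hT]
  set M := ⌊T ^ β2⌋₊ with hM
  set N := ⌊T ^ γ2⌋₊ with hN
  have hMT : (M : ℝ) ≤ T ^ β2 := Nat.floor_le (by (clear * - hT; positivity))
  have hNT : (N : ℝ) ≤ T ^ γ2 := Nat.floor_le (by positivity)
  have hNT1 : (N : ℝ) ≤ T := by
    refine hNT.trans ?_
    calc T ^ γ2 ≤ T ^ (1 : ℝ) := Real.rpow_le_rpow_of_exponent_le hT hγ1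
      _ = T := Real.rpow_one T
  -- the index set
  set I : Finset (ℕ × ((_ : ℕ) × ℕ) × ℕ) :=
    Finset.Icc 1 M ×ˢ ((Finset.Icc 1 N).sigma fun n => n.divisors) ×ˢ Finset.Icc 1 ⌊T ^ 2⌋₊ with hI
  have hsum : ∀ F : ℕ → ℕ → ℕ → ℕ → ℝ, ∑ m ∈ Finset.Icc 1 M, ∑ n ∈ Finset.Icc 1 N, ∑ g ∈ n.divisors,
      ∑ dl ∈ Finset.Icc 1 ⌊T ^ 2⌋₊, F m n g dl = ∑ x ∈ I, F x.1 x.2.1.1 x.2.1.2 x.2.2 := by
    intro F
    rw [hI, Finset.sum_product]
    refine Finset.sum_congr rfl fun m _ => ?_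
    rw [Finset.sum_product, Finset.sum_sigma]
  have hw1 := h1 T hT M N hNT1
  have hw2 := h2 T hT M N hNT1
  rw [hsum (fun _ _ g dl => (((g * dl : ℕ) : ℝ))⁻¹)] at hw1
  rw [hsum (fun m n g dl => (((g * dl : ℕ) : ℝ))⁻¹ * WW (n / g * (m / Nat.gcd m (g * dl))) T)] at hw2
  rw [hsum (fun m n g dl => (((g * dl : ℕ) : ℝ))⁻¹ * (T ^ (20 * ε) * (T ^ (1 / 2 : ℝ) *
        √((1 + (T ^ α2 / (((g * dl : ℕ) : ℝ) / m)) ^ 2 / (T * (m / Nat.gcd m (g * dl) : ℕ))) *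
          (1 + WW (n / g * (m / Nat.gcd m (g * dl))) T)) +
        T ^ (-1 / 2 : ℝ) * (T ^ α2 / (((g * dl : ℕ) : ℝ) / m)) ^ 2 / (m / Nat.gcd m (g * dl) : ℕ) + 1)))]
  set w : ℕ × ((_ : ℕ) × ℕ) × ℕ → ℝ := fun x => (((x.2.1.2 * x.2.2 : ℕ) : ℝ))⁻¹ with hw
  set cc : ℕ × ((_ : ℕ) × ℕ) × ℕ → ℝ := fun x =>
    (T ^ α2 / (((x.2.1.2 * x.2.2 : ℕ) : ℝ) / x.1)) ^ 2 / (T * (x.1 / Nat.gcd x.1 (x.2.1.2 * x.2.2) : ℕ)) with hcc
  set ww : ℕ × ((_ : ℕ) × ℕ) × ℕ → ℝ := fun x =>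
    WW (x.2.1.1 / x.2.1.2 * (x.1 / Nat.gcd x.1 (x.2.1.2 * x.2.2))) T with hww
  have hw0 : ∀ x, 0 ≤ w x := fun x => by simp only [hw]; (clear * -; positivity)
  have hww0 : ∀ x, 0 ≤ ww x := fun x => WW_nonneg _ _
  have hcc0 : ∀ x, 0 ≤ cc x := fun x => by simp only [hcc]; (clear * - hT; positivity)
  have hccle : ∀ x ∈ I, cc x ≤ T ^ (2 * α2 - 1 + β2) := by
    intro x hx
    rw [hI, Finset.mem_product, Finset.mem_product, Finset.mem_sigma] at hx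
    obtain ⟨hm, ⟨hn, hg⟩, hdl⟩ := hx
    rw [Finset.mem_Icc] at hm hdl
    have hg1 : 0 < x.2.1.2 := Nat.pos_of_mem_divisors hg
    exact G5_pt hT hm.1 (le_trans (by exact_mod_cast hm.2) hMT) (Nat.mul_pos hg1 hdl.1)
  have hW : ∑ x ∈ I, w x ≤ C1 * (T ^ (β2 + γ2) * T ^ (2 * ε)) := by
    refine hw1.trans ?_
    rw [Real.rpow_add hT0]
    (clear * - hC1 hT hMT hNT; gcongr)
  have hW' : 0 ≤ ∑ x ∈ I, w x := Finset.sum_nonneg fun x _ => hw0 x
  have hSa : ∑ x ∈ I, w x * (1 + cc x) ≤ 2 * C1 * T ^ (1 / 2 - 98 * ε) := by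
    calc ∑ x ∈ I, w x * (1 + cc x) ≤ ∑ x ∈ I, w x * (1 + T ^ (2 * α2 - 1 + β2)) :=
          Finset.sum_le_sum fun x hx => mul_le_mul_of_nonneg_left (by linarith only [hccle x hx, hccle, hx]) (hw0 x)
      _ = (∑ x ∈ I, w x) * (1 + T ^ (2 * α2 - 1 + β2)) := by rw [Finset.sum_mul]
      _ ≤ (C1 * (T ^ (β2 + γ2) * T ^ (2 * ε))) * (1 + T ^ (2 * α2 - 1 + β2)) :=
          mul_le_mul_of_nonneg_right hW (by (clear * - hT; positivity))
      _ = C1 * (T ^ (β2 + γ2 + 2 * ε) + T ^ (β2 + γ2 + 2 * ε + (2 * α2 - 1 + β2))) := by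
          rw [Real.rpow_add hT0 (β2 + γ2 + 2 * ε), Real.rpow_add hT0 (β2 + γ2) (2 * ε)]
          ring
      _ ≤ C1 * (T ^ (1 / 2 - 98 * ε) + T ^ (1 / 2 - 98 * ε)) := by
          apply mul_le_mul_of_nonneg_left _ hC1.le
          apply add_le_add
          · apply Real.rpow_le_rpow_of_exponent_le hT; linarith only [hbg]
          · apply Real.rpow_le_rpow_of_exponent_le hT; linarith only [hab]
      _ = 2 * C1 * T ^ (1 / 2 - 98 * ε) := by ring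
  have hSw : ∑ x ∈ I, w x ≤ C1 * T ^ (1 / 2 - 98 * ε) := by
    refine hW.trans ?_
    rw [← Real.rpow_add hT0]
    apply mul_le_mul_of_nonneg_left _ hC1.le
    apply Real.rpow_le_rpow_of_exponent_le hT; linarith only [hbg]
  have hSb : ∑ x ∈ I, w x * (1 + ww x) ≤ (C1 + C2) * T ^ (1 / 2 + 6 * ε) := by
    have e1 : ∑ x ∈ I, w x * (1 + ww x) = ∑ x ∈ I, w x + ∑ x ∈ I, w x * ww x := by
      rw [← Finset.sum_add_distrib]
      refine Finset.sum_congr rfl fun x _ => by ring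
    rw [e1]
    have e2 : T ^ (1 / 2 - 98 * ε) ≤ T ^ (1 / 2 + 6 * ε) := by
      apply Real.rpow_le_rpow_of_exponent_le hT; linarith only [hε]
    calc _ ≤ C1 * T ^ (1 / 2 + 6 * ε) + C2 * T ^ (1 / 2 + 6 * ε) :=
          add_le_add (hSw.trans (mul_le_mul_of_nonneg_left e2 hC1.le)) hw2
      _ = _ := by ring
  -- Cauchy-Schwarz
  have hCS : ∑ x ∈ I, w x * √((1 + cc x) * (1 + ww x)) ≤ √(2 * C1 * (C1 + C2)) * T ^ (1 / 2 - 46 * ε) := by
    have e1 : ∑ x ∈ I, w x * √((1 + cc x) * (1 + ww x)) =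
        ∑ x ∈ I, √(w x * (1 + cc x)) * √(w x * (1 + ww x)) := by
      refine Finset.sum_congr rfl fun x _ => ?_
      rw [← Real.sqrt_mul (mul_nonneg (hw0 x) (by linarith only [hcc0 x, hε, hε1, hcc0])),
        show w x * (1 + cc x) * (w x * (1 + ww x)) = (w x) ^ 2 * ((1 + cc x) * (1 + ww x)) by ring,
        Real.sqrt_mul (sq_nonneg _), Real.sqrt_sq (hw0 x)]
    rw [e1]
    refine (Real.sum_mul_le_sqrt_mul_sqrt I _ _).trans ?_
    have e2 : ∑ x ∈ I, √(w x * (1 + cc x)) ^ 2 = ∑ x ∈ I, w x * (1 + cc x) :=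
      Finset.sum_congr rfl fun x _ => Real.sq_sqrt (mul_nonneg (hw0 x) (by linarith only [hcc0 x, hε, hε1, hcc0]))
    have e3 : ∑ x ∈ I, √(w x * (1 + ww x)) ^ 2 = ∑ x ∈ I, w x * (1 + ww x) :=
      Finset.sum_congr rfl fun x _ => Real.sq_sqrt (mul_nonneg (hw0 x) (by linarith only [hww0 x, hε, hε1, hww0]))
    rw [e2, e3, ← Real.sqrt_mul (Finset.sum_nonneg fun x _ => mul_nonneg (hw0 x) (by linarith only [hcc0 x, hε, hε1, hcc0]))]
    have e4 : (∑ x ∈ I, w x * (1 + cc x)) * ∑ x ∈ I, w x * (1 + ww x) ≤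
        (2 * C1 * (C1 + C2)) * (T ^ (1 / 2 - 46 * ε)) ^ 2 := by
      calc _ ≤ (2 * C1 * T ^ (1 / 2 - 98 * ε)) * ((C1 + C2) * T ^ (1 / 2 + 6 * ε)) :=
            mul_le_mul hSa hSb (Finset.sum_nonneg fun x _ => mul_nonneg (hw0 x) (by linarith only [hww0 x, hε, hε1, hww0]))
              (by (clear * - hC1 hT; positivity))
        _ = (2 * C1 * (C1 + C2)) * (T ^ (1 / 2 - 98 * ε) * T ^ (1 / 2 + 6 * ε)) := by ring
        _ = (2 * C1 * (C1 + C2)) * (T ^ (1 / 2 - 46 * ε)) ^ 2 := by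
            rw [← Real.rpow_add hT0, sq, ← Real.rpow_add hT0]; ring_nf
    refine (Real.sqrt_le_sqrt e4).trans ?_
    rw [Real.sqrt_mul (by (clear * - hC1 hC2; positivity)), Real.sqrt_sq (by positivity)]
  -- assembly
  have hpt : ∀ x ∈ I, (((x.2.1.2 * x.2.2 : ℕ) : ℝ))⁻¹ * (T ^ (20 * ε) * (T ^ (1 / 2 : ℝ) *
        √((1 + (T ^ α2 / (((x.2.1.2 * x.2.2 : ℕ) : ℝ) / x.1)) ^ 2 / (T * (x.1 / Nat.gcd x.1 (x.2.1.2 * x.2.2) : ℕ))) *
          (1 + WW (x.2.1.1 / x.2.1.2 * (x.1 / Nat.gcd x.1 (x.2.1.2 * x.2.2))) T)) +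
        T ^ (-1 / 2 : ℝ) * (T ^ α2 / (((x.2.1.2 * x.2.2 : ℕ) : ℝ) / x.1)) ^ 2 /
          (x.1 / Nat.gcd x.1 (x.2.1.2 * x.2.2) : ℕ) + 1)) ≤
      T ^ (20 * ε) * T ^ (1 / 2 : ℝ) * (w x * √((1 + cc x) * (1 + ww x)) + 2 * (w x * (1 + cc x))) := by
    intro x _
    have e1 : T ^ (-1 / 2 : ℝ) * (T ^ α2 / (((x.2.1.2 * x.2.2 : ℕ) : ℝ) / x.1)) ^ 2 /
          (x.1 / Nat.gcd x.1 (x.2.1.2 * x.2.2) : ℕ) = T ^ (1 / 2 : ℝ) * cc x := by
      have : T ^ (1 / 2 : ℝ) = T ^ (-1 / 2 : ℝ) * T := by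
        conv_rhs => rw [← Real.rpow_one T]
        rw [← Real.rpow_mul hT0.le, one_mul, ← Real.rpow_add hT0]
        norm_num
      rw [this, hcc]
      simp only
      rw [mul_div_assoc, mul_assoc, ← mul_div_assoc T, mul_div_mul_left _ _ hT0.ne']
    rw [e1]
    have h1T : (1 : ℝ) ≤ T ^ (1 / 2 : ℝ) := Real.one_le_rpow hT (by norm_num)
    have hc0 := hcc0 x
    have h20 : (0 : ℝ) < T ^ (20 * ε) := by positivity
    have hwx := hw0 x
    have hs0 := Real.sqrt_nonneg ((1 + cc x) * (1 + ww x))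
    have key : T ^ (1 / 2 : ℝ) * √((1 + cc x) * (1 + ww x)) + T ^ (1 / 2 : ℝ) * cc x + 1 ≤
        T ^ (1 / 2 : ℝ) * (√((1 + cc x) * (1 + ww x)) + 2 * (1 + cc x)) := by nlinarith only [hε, hε1, h1T, hc0]
    calc w x * (T ^ (20 * ε) * (T ^ (1 / 2 : ℝ) * √((1 + cc x) * (1 + ww x)) + T ^ (1 / 2 : ℝ) * cc x + 1))
        ≤ w x * (T ^ (20 * ε) * (T ^ (1 / 2 : ℝ) * (√((1 + cc x) * (1 + ww x)) + 2 * (1 + cc x)))) := by
          apply mul_le_mul_of_nonneg_left _ hwx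
          exact mul_le_mul_of_nonneg_left key h20.le
      _ = _ := by ring
  refine (Finset.sum_le_sum hpt).trans ?_
  rw [← Finset.mul_sum, Finset.sum_add_distrib, ← Finset.mul_sum]
  calc T ^ (20 * ε) * T ^ (1 / 2 : ℝ) * (∑ x ∈ I, w x * √((1 + cc x) * (1 + ww x)) +
        2 * ∑ x ∈ I, w x * (1 + cc x))
      ≤ T ^ (20 * ε) * T ^ (1 / 2 : ℝ) * (√(2 * C1 * (C1 + C2)) * T ^ (1 / 2 - 46 * ε) +
        2 * (2 * C1 * T ^ (1 / 2 - 98 * ε))) := by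
        apply mul_le_mul_of_nonneg_left _ (by positivity)
        linarith only [hSa, hCS]
    _ ≤ T ^ (20 * ε) * T ^ (1 / 2 : ℝ) * (√(2 * C1 * (C1 + C2)) * T ^ (1 / 2 - 46 * ε) +
        2 * (2 * C1 * T ^ (1 / 2 - 46 * ε))) := by
        apply mul_le_mul_of_nonneg_left _ (by (clear * - hT; positivity))
        have : T ^ (1 / 2 - 98 * ε) ≤ T ^ (1 / 2 - 46 * ε) := by
          apply Real.rpow_le_rpow_of_exponent_le hT; linarith only [hε]
        have h4 : 2 * (2 * C1 * T ^ (1 / 2 - 98 * ε)) ≤ 2 * (2 * C1 * T ^ (1 / 2 - 46 * ε)) := by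
          apply mul_le_mul_of_nonneg_left _ (by norm_num)
          exact mul_le_mul_of_nonneg_left this (by positivity)
        linarith only [h4]
    _ = (√(2 * C1 * (C1 + C2)) + 4 * C1) * (T ^ (20 * ε) * T ^ (1 / 2 : ℝ) * T ^ (1 / 2 - 46 * ε)) := by ring
    _ = (√(2 * C1 * (C1 + C2)) + 4 * C1) * T ^ (1 - 26 * ε) := by
        rw [← Real.rpow_add hT0, ← Real.rpow_add hT0]; ring_nf
    _ ≤ (√(2 * C1 * (C1 + C2)) + 4 * C1) * T ^ (1 - ε) := by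
        apply mul_le_mul_of_nonneg_left _ (by (clear * - hC1 hC2; positivity))
        apply Real.rpow_le_rpow_of_exponent_le hT; linarith only [hε]

end SG

end

section

namespace SG
open Complex MeasureTheory Filter Topology Set S6
open scoped Real ComplexConjugate

/-- **J2. Weil part.** `err_bound` (S6_err_bound) and `err_sum` (S6_ErrSum) with `B` of `KloosBound_32` (S6_Kloos), exactly
as in the proof of `S6.I2_formula` (S6AsmC.lean); `frac_facts`. -/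
theorem errOK_weil {H : ℝ × ℝ × ℝ → ℝ} (hH : TF (3 / 2) H) : ErrOK H := by
  intro δ hδ
  obtain ⟨B, hB0, hB1, hB2⟩ := KloosBound_32
  obtain ⟨η₀, hη₀, hsum₀⟩ := err_sum (by norm_num) hH hB0 hB2
  obtain ⟨C, T₁, herr⟩ := err_bound hδ (half_pos hη₀)
  have hfin : ∀ᶠ T : ℝ in atTop, ((|C| + 1) * T ^ (η₀ / 2)) * T ^ (1 - η₀) ≤
      T ^ (1 - η₀ / 4) := by
    have h1 : Tendsto (fun T : ℝ => T ^ (-(η₀ / 4))) atTop (𝓝 0) := tendsto_rpow_neg_atTop (by (clear * - hη₀; positivity))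
    have h2 := h1.const_mul (|C| + 1)
    rw [mul_zero] at h2
    filter_upwards [h2.eventually (gt_mem_nhds one_pos), eventually_ge_atTop (1 : ℝ)] with T hT hT1
    have hTp : (0 : ℝ) < T := by linarith only [hT1]
    have e1 : T ^ (η₀ / 2) * T ^ (1 - η₀) = T ^ (1 - η₀ / 2) := by
      rw [← Real.rpow_add hTp]; congr 1; ring
    have e2 : T ^ (1 - η₀ / 2) = T ^ (-(η₀ / 4)) * T ^ (1 - η₀ / 4) := by
      rw [← Real.rpow_add hTp]; congr 1; ring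
    have e4 : 0 < T ^ (1 - η₀ / 4) := Real.rpow_pos_of_pos hTp _
    calc ((|C| + 1) * T ^ (η₀ / 2)) * T ^ (1 - η₀)
        = (|C| + 1) * T ^ (1 - η₀ / 2) := by rw [mul_assoc (|C| + 1), e1]
      _ = ((|C| + 1) * T ^ (-(η₀ / 4))) * T ^ (1 - η₀ / 4) := by rw [e2]; ring
      _ ≤ 1 * T ^ (1 - η₀ / 4) := mul_le_mul_of_nonneg_right hT.le e4.le
      _ = _ := one_mul _
  obtain ⟨T₀, hT₀⟩ := eventually_atTop.1
    (hsum₀.and (hfin.and ((eventually_ge_atTop T₁).and (eventually_ge_atTop (1 : ℝ)))))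
  refine ⟨η₀ / 4, T₀, by (clear * - hη₀; positivity), fun T hT τ h1 h2 => ?_⟩
  obtain ⟨hs, hf, hTT, hT1⟩ := hT₀ T hT
  have hTp : 0 < T := by linarith only [hT1]
  have hRb : ∀ x ∈ tri T, ‖ErrX T τ (qq x) (hn x)‖ ≤
      ((|C| + 1) * T ^ (η₀ / 2)) * (1 + qq x * B (qq x)) := by
    intro x hx
    obtain ⟨hq, hh, hcop, -, hqT, hhT⟩ := frac_facts hTp.le hx
    have : NeZero (qq x) := ⟨hq.ne'⟩
    have hu : IsUnit ((hn x : ℕ) : ZMod (qq x)) := (ZMod.isUnit_iff_coprime _ _).2 hcop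
    have hSS : ∀ x' y z : ZMod (qq x), ‖SS (qq x) ((hn x : ℕ) : ZMod (qq x)) x' y z‖ ≤
        (qq x) * B (qq x) * (√(Nat.gcd x'.val (qq x)) * √(Nat.gcd z.val (qq x))) :=
      fun x' y z => hB1 (qq x) _ x' y z hu
    have hb := herr T hTT τ h1 h2 (qq x) (hn x) hh hqT hhT (B (qq x)) (hB0 _) hSS
    have he : ErrX T τ (qq x) (hn x) = ∫ ξ : ℝ, ker T τ ξ * ∑' i : Ix, ((pr i : ℂ))⁻¹ *
        SI (qq x) ((hn x : ℕ) : ZMod (qq x)) i *
        JJ (-1 / 2) (es i) (zz T ξ * ((((hn x : ℕ) : ℝ) * ((qq x : ℕ) : ℝ) ^ 2 / pr i : ℝ) : ℂ)) := by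
      unfold ErrX SIz
      simp only [hq.ne', dif_neg, not_false_eq_true]
    rw [he]
    refine hb.trans ?_
    have hqB : 0 ≤ (qq x : ℝ) * B (qq x) := mul_nonneg (Nat.cast_nonneg _) (hB0 _)
    have := le_abs_self C
    have h3 : C ≤ |C| + 1 := by linarith only [this]
    have h4 : 0 ≤ T ^ (η₀ / 2) := Real.rpow_nonneg hTp.le _
    (clear * - hT1 hqB h3; gcongr)
  unfold ErrTot
  refine (norm_sum_le _ _).trans (le_trans ?_ hf)
  calc ∑ x ∈ tri T, ‖cx H T x * ErrX T τ (qq x) (hn x)‖ ≤ ∑ x ∈ tri T, ((|C| + 1) * T ^ (η₀ / 2)) *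
        (|cf H T x| / ((x.1 : ℝ) * x.2.1) * (1 + qq x * B (qq x))) := by
        refine Finset.sum_le_sum fun x hx => ?_
        rw [norm_mul, norm_cx]
        calc |cf H T x| / ((x.1 : ℝ) * x.2.1) * ‖ErrX T τ (qq x) (hn x)‖ ≤
              |cf H T x| / ((x.1 : ℝ) * x.2.1) *
              (((|C| + 1) * T ^ (η₀ / 2)) * (1 + qq x * B (qq x))) :=
              mul_le_mul_of_nonneg_left (hRb x hx) (by (clear * -; positivity))
          _ = _ := by ring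
    _ = ((|C| + 1) * T ^ (η₀ / 2)) *
        ∑ x ∈ tri T, |cf H T x| / ((x.1 : ℝ) * x.2.1) * (1 + qq x * B (qq x)) := by
        rw [Finset.mul_sum]
    _ ≤ _ := mul_le_mul_of_nonneg_left hs (by (clear * - hT1; positivity))

end SG

end
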