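import Pool.Agent.Lib.MP_39df77_nt.Part03
import Pool.Agent.Lib.MP_39df77_nt.Part20
import Pool.Agent.Lib.MP_39df77_nt.Part22

section

namespace SG
open Complex MeasureTheory Filter Topology Set
open scoped Real ComplexConjugate

private lemma P24_aux1 {c3 c1 m X t : ℝ} (q1 : 0 ≤ c3 * t) (q2 : 0 ≤ c1 * X) (q3 : 0 ≤ m * X) :
    c3 * X + c1 * t + m * t + m * t ≤ (c3 + c1 + 2 * m) * (X + t) := by
  linarith only [q1, q2, q3]

private lemma P24_aux2 {c3 c4 u e : ℝ} (h1 : 0 ≤ c3 * e * u) (h2 : 0 ≤ c3 * e * c4) :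
    c3 * (c4 * u * e + e) ≤ c3 * (1 + c4) * e * (u + 1) := by
  linarith only [h1, h2]

private lemma F1_tsum {T A α1 α2 : ℝ} (hT : 1 < T) (hA : 0 < A) {g : ℝ → ℝ}
    (hg : ∀ x, g x ≠ 0 → α1 ≤ x ∧ x ≤ α2) (h s : ℕ) (u : ℕ → ℂ)
    (hu : ∀ c : ℕ, g (Real.log (A * c) / Real.log T) = 0 → u c = 0) :
    (∑' c : ℕ, if 0 < c ∧ s ∣ c ∧ Nat.Coprime c h then u c else 0) =
      ∑ c ∈ (Finset.Icc 1 ⌊T ^ α2 / A⌋₊).filter (fun c => s ∣ c ∧ Nat.Coprime c h), u c := by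
  have hL : 0 < Real.log T := Real.log_pos hT
  rw [tsum_eq_sum (s := (Finset.Icc 1 ⌊T ^ α2 / A⌋₊).filter (fun c => s ∣ c ∧ Nat.Coprime c h))]
  · refine Finset.sum_congr rfl fun c hc => ?_
    rw [Finset.mem_filter, Finset.mem_Icc] at hc
    rw [if_pos ⟨hc.1.1, hc.2.1, hc.2.2⟩]
  · intro c hc
    split_ifs with h1
    · apply hu
      by_contra h2
      have h3 := (hg _ h2).2
      apply hc
      rw [Finset.mem_filter, Finset.mem_Icc]
      refine ⟨⟨h1.1, ?_⟩, h1.2.1, h1.2.2⟩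
      apply Nat.le_floor
      have hc0 : (0 : ℝ) < c := by exact_mod_cast h1.1
      rw [div_le_iff₀ hL] at h3
      rw [le_div_iff₀ hA]
      calc (c : ℝ) * A = Real.exp (Real.log (A * c)) := by
            rw [Real.exp_log (by positivity)]; ring
        _ ≤ Real.exp (α2 * Real.log T) := Real.exp_le_exp.mpr h3
        _ = T ^ α2 := by rw [Real.rpow_def_of_pos (by linarith only [hT])]; ring_nf
    · rfl

private lemma F1_cpow {h c k : ℝ} (hh : 0 < h) (hc : 0 < c) (hk : 0 < k) (w : ℂ) :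
    ((h * c ^ 2 / k : ℝ) : ℂ) ^ (-w) = (h : ℂ) ^ (-w) * ((c : ℂ) ^ (-(2 * w)) * (k : ℂ) ^ w) := by
  have e : ∀ x : ℝ, 0 < x → ∀ v : ℂ, (x : ℂ) ^ v = cexp ((Real.log x : ℝ) * v) := by
    intro x hx v
    rw [Complex.cpow_def_of_ne_zero (by exact_mod_cast hx.ne'), Complex.ofReal_log hx.le]
  rw [e _ (by positivity), e _ hh, e _ hc, e _ hk, ← Complex.exp_add, ← Complex.exp_add]
  congr 1
  rw [Real.log_div (by positivity) hk.ne', Real.log_mul hh.ne' (by positivity), Real.log_pow]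
  push_cast
  ring

/-- interchange of the sum and of the Mellin integral, and the two bounds -/
private lemma F1_int {ι : Type*} (P : Finset ι) (w : ι → ℂ) (x : ι → ℝ) (hx : ∀ i ∈ P, 0 < x i)
    {F : ℝ → ℂ} {kr : ℝ → ℂ} {κ0 : ℂ} {σ : ℝ} (hk : Integrable kr)
    (hF : ∀ x : ℝ, 0 < x → F x = (∫ t : ℝ, kr t * (x : ℂ) ^ (-(σ + t * I : ℂ))) + κ0)
    {R B1 Z : ℝ} (hB1 : ∀ t : ℝ, |t| ≤ R → ‖∑ i ∈ P, w i * (x i : ℂ) ^ (-(σ + t * I : ℂ))‖ ≤ B1)
    (hB0 : 0 ≤ B1)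
    (hZ : ∀ i ∈ P, (x i) ^ (-σ) ≤ Z) :
    ‖∑ i ∈ P, w i * F (x i)‖ ≤ (∫ t : ℝ, ‖kr t‖) * B1 +
      (∫ t in {t : ℝ | R < |t|}, ‖kr t‖) * (Z * ∑ i ∈ P, ‖w i‖) + ‖κ0‖ * ∑ i ∈ P, ‖w i‖ := by
  have hn : ∀ i ∈ P, ∀ t : ℝ, ‖(x i : ℂ) ^ (-(σ + t * I : ℂ))‖ = (x i) ^ (-σ) := by
    intro i hi t
    rw [Complex.norm_cpow_eq_rpow_re_of_pos (hx i hi)]
    simp
  have hint : ∀ i ∈ P, Integrable (fun t : ℝ => kr t * (x i : ℂ) ^ (-(σ + t * I : ℂ))) := by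
    intro i hi
    refine hk.mul_bdd (c := (x i) ^ (-σ)) ?_ (Eventually.of_forall fun t => (hn i hi t).le)
    apply Continuous.aestronglyMeasurable
    have h0 : (x i : ℂ) ≠ 0 := by exact_mod_cast (hx i hi).ne'
    exact Continuous.const_cpow (by fun_prop) (Or.inl h0)
  have h1 : ∑ i ∈ P, w i * F (x i) = (∫ t : ℝ, kr t * ∑ i ∈ P, w i * (x i : ℂ) ^ (-(σ + t * I : ℂ))) +
      κ0 * ∑ i ∈ P, w i := by
    have h2 : ∀ t : ℝ, kr t * ∑ i ∈ P, w i * (x i : ℂ) ^ (-(σ + t * I : ℂ)) =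
        ∑ i ∈ P, w i * (kr t * (x i : ℂ) ^ (-(σ + t * I : ℂ))) := by
      intro t
      rw [Finset.mul_sum]
      exact Finset.sum_congr rfl fun i _ => by ring
    simp_rw [h2]
    rw [integral_finsetSum _ (fun i hi => (hint i hi).const_mul _), Finset.mul_sum,
      ← Finset.sum_add_distrib]
    refine Finset.sum_congr rfl fun i hi => ?_
    rw [hF _ (hx i hi), integral_const_mul]
    ring
  rw [h1]
  have hms : MeasurableSet {t : ℝ | R < |t|} := measurableSet_lt measurable_const continuous_abs.measurable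
  have hW0 : 0 ≤ ∑ i ∈ P, ‖w i‖ := Finset.sum_nonneg fun i _ => norm_nonneg _
  have h3 : ‖∫ t : ℝ, kr t * ∑ i ∈ P, w i * (x i : ℂ) ^ (-(σ + t * I : ℂ))‖ ≤
      ∫ t : ℝ, (‖kr t‖ * B1 + ({t : ℝ | R < |t|}.indicator (fun t => ‖kr t‖) t) * (Z * ∑ i ∈ P, ‖w i‖)) := by
    apply norm_integral_le_of_norm_le
    · exact (hk.norm.mul_const _).add ((hk.norm.indicator hms).mul_const _)
    · refine Eventually.of_forall fun t => ?_
      rw [norm_mul]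
      by_cases ht : R < |t|
      · have h4 : ‖∑ i ∈ P, w i * (x i : ℂ) ^ (-(σ + t * I : ℂ))‖ ≤ Z * ∑ i ∈ P, ‖w i‖ := by
          refine (norm_sum_le _ _).trans ?_
          rw [Finset.mul_sum]
          refine Finset.sum_le_sum fun i hi => ?_
          rw [norm_mul, hn i hi, mul_comm]
          exact mul_le_mul_of_nonneg_right (hZ i hi) (norm_nonneg _)
        rw [Set.indicator_of_mem (show t ∈ {t : ℝ | R < |t|} from ht)]
        have := mul_le_mul_of_nonneg_left h4 (norm_nonneg (kr t))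
        have h5 := mul_nonneg (norm_nonneg (kr t)) hB0
        linarith only [this, h5]
      · have h4 := hB1 t (not_lt.mp ht)
        rw [Set.indicator_of_notMem (show t ∉ {t : ℝ | R < |t|} from ht)]
        have := mul_le_mul_of_nonneg_left h4 (norm_nonneg (kr t))
        linarith only [this]
  rw [integral_add (hk.norm.mul_const _) ((hk.norm.indicator hms).mul_const _), integral_mul_const,
    integral_mul_const, integral_indicator hms] at h3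
  refine (norm_add_le _ _).trans ?_
  refine add_le_add h3 ?_
  rw [norm_mul]
  exact mul_le_mul_of_nonneg_left (norm_sum_le _ _) (norm_nonneg _)

private lemma F1_small {T : ℝ} (hT : 1 ≤ T) {σ : ℝ} (hσ : |σ| ≤ 1 / 2) {x : ℝ} (hx : 0 < x)
    (h1 : x ≤ T ^ 5) (h2 : (T ^ 5)⁻¹ ≤ x) : x ^ (-σ) ≤ T ^ 3 := by
  have hT0 : 0 < T := by linarith only [hT]
  have hl : |Real.log x| ≤ 5 * Real.log T := by
    rw [abs_le]
    constructor
    · have := Real.log_le_log (by positivity) h2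
      rw [Real.log_inv, Real.log_pow] at this
      push_cast at this
      linarith only [this]
    · have := Real.log_le_log hx h1
      rw [Real.log_pow] at this
      push_cast at this
      linarith only [this]
  have hL : 0 ≤ Real.log T := Real.log_nonneg hT
  rw [Real.rpow_def_of_pos hx]
  calc Real.exp (Real.log x * -σ) ≤ Real.exp (3 * Real.log T) := by
        apply Real.exp_le_exp.mpr
        have h3 : Real.log x * -σ ≤ |Real.log x| * |σ| := by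
          calc Real.log x * -σ ≤ |Real.log x * -σ| := le_abs_self _
            _ = |Real.log x| * |σ| := by rw [abs_mul, abs_neg]
        have h4 : |Real.log x| * |σ| ≤ (5 * Real.log T) * (1 / 2) :=
          mul_le_mul hl hσ (abs_nonneg _) (by positivity)
        linarith only [hL, h3, h4]
    _ = T ^ 3 := by
        rw [mul_comm, Real.exp_mul, Real.exp_log hT0]
        norm_cast

/-- the general block estimate -/
theorem F1_gen {ε : ℝ} (hε : 0 < ε) (hε1 : ε ≤ 1 / 100) (M : ℕ → ℝ) : ∃ C T₀ : ℝ, 0 < C ∧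
    ∀ T ≥ T₀, ∀ (F : ℝ → ℂ) (kr : ℝ → ℂ) (κ0 : ℂ) (σ : ℝ), |σ| ≤ 1 / 2 → Integrable kr →
    (∀ x : ℝ, 0 < x → F x = (∫ t : ℝ, kr t * (x : ℂ) ^ (-(σ + t * I : ℂ))) + κ0) →
    (∫ t in {t : ℝ | T ^ ε < |t|}, ‖kr t‖ ≤ T ^ (-40 : ℝ)) → ‖κ0‖ ≤ T ^ (-40 : ℝ) →
    ∀ B : ℝ, (∫ t : ℝ, ‖kr t‖ ≤ B) → B ≤ T →
    ∀ h s dl : ℕ, 0 < h → 0 < s → 0 < dl → Nat.Coprime h s → (h : ℝ) ≤ T → (s : ℝ) ≤ T →
    (dl : ℝ) ≤ T ^ 2 → ∀ α1 α2 A : ℝ, 0 ≤ α1 → α1 ≤ α2 → α2 ≤ 1 → T⁻¹ ≤ A → A ≤ T ^ 3 →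
    ∀ g : ℝ → ℝ, ContDiff ℝ (⊤ : ℕ∞) g → (∀ x, g x ≠ 0 → α1 ≤ x ∧ x ≤ α2) →
    (∀ n x, |iteratedDeriv n g x| ≤ M n) → ∀ sg : ℤ, (sg = 1 ∨ sg = -1) →
    ∀ (S : Finset ℕ) (Kb : ℝ), 1 ≤ Kb → Kb ≤ h * (T ^ α1 / A) ^ 2 / 25 →
    (∀ k ∈ S, 0 < k ∧ (k : ℝ) ≤ Kb) →
    ‖cs F g T A dl h s sg S‖ ≤
      C * (T ^ (2 * ε) * B * (h : ℝ) ^ (1 / 2 - σ) * (T ^ α2 / A) ^ (1 - 2 * σ) *
        √((1 + Kb / (h * s)) * (1 + WW (h * s) (200 * T ^ (-ε) * max (h * (T ^ α2 / A) ^ 2 / Kb) 1))) *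
        √(∑ k ∈ S, (rr dl k : ℝ) ^ 2 * (k : ℝ) ^ (2 * σ - 2)) + T ^ (-1 : ℝ)) := by
  obtain ⟨C3, T3, hC3, h3⟩ := smooth_sum hε hε1 M
  obtain ⟨C1, hC1, hr⟩ := rr_bound (show (0 : ℝ) < 1 / 7 by norm_num)
  have hM0 : 0 ≤ |M 0| := abs_nonneg _
  refine ⟨C3 + C1 + 2 * (|M 0| * C1) , max T3 2, by positivity, ?_⟩
  intro T hT F kr κ0 σ hσ hk hF htail hκ B hB hBT h s dl hh hs hdl hcop hhT hsT hdlT α1 α2 A hα1 hα12 hα2
    hA1 hA2 g hg hsupp hgM sg hsg S Kb hKb1 hKb2 hS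
  have hT3 : T3 ≤ T := (le_max_left _ _).trans hT
  have hT2 : 2 ≤ T := (le_max_right _ _).trans hT
  have hT1 : 1 ≤ T := by linarith only [hε, hε1, hT2]
  have hT0 : 0 < T := by linarith only [hε, hε1, hT2]
  have hA : 0 < A := lt_of_lt_of_le (inv_pos.mpr hT0) hA1
  have hh' : (0 : ℝ) < h := by exact_mod_cast hh
  have hs' : (0 : ℝ) < s := by exact_mod_cast hs
  have hh1 : (1 : ℝ) ≤ h := by exact_mod_cast hh
  have hσ' := abs_le.mp hσ
  set Cp : ℝ := T ^ α2 / A with hCp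
  have hCp0 : 0 < Cp := by positivity
  have hCpT : Cp ≤ T ^ 2 := by
    rw [hCp, div_eq_mul_inv]
    have h1 : T ^ α2 ≤ T := by
      calc T ^ α2 ≤ T ^ (1 : ℝ) := Real.rpow_le_rpow_of_exponent_le hT1 hα2
        _ = T := Real.rpow_one T
    have h2 : A⁻¹ ≤ T := by
      rw [inv_le_comm₀ hA hT0]; exact hA1
    calc T ^ α2 * A⁻¹ ≤ T * T := mul_le_mul h1 h2 (by positivity) (by positivity)
      _ = T ^ 2 := by ring
  have hCm : T ^ α1 / A ≤ Cp := by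
    rw [hCp]
    exact div_le_div_of_nonneg_right (Real.rpow_le_rpow_of_exponent_le hT1 hα12) hA.le
  have hCm0 : 0 < T ^ α1 / A := by positivity
  have hKbT : Kb ≤ T ^ 5 := by
    calc Kb ≤ h * (T ^ α1 / A) ^ 2 / 25 := hKb2
      _ ≤ h * (T ^ α1 / A) ^ 2 := by
          apply div_le_self (by positivity); norm_num
      _ ≤ T * (T ^ 2) ^ 2 := by
          have := hCm.trans hCpT
          gcongr
      _ = T ^ 5 := by ring
  set CF := (Finset.Icc 1 ⌊T ^ α2 / A⌋₊).filter (fun c => s ∣ c ∧ Nat.Coprime c h) with hCF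
  have hCFm : ∀ c ∈ CF, (0 : ℝ) < c ∧ 1 ≤ (c : ℝ) ∧ (c : ℝ) ≤ Cp := by
    intro c hc
    rw [hCF, Finset.mem_filter, Finset.mem_Icc] at hc
    have h1 : (1 : ℝ) ≤ c := by exact_mod_cast hc.1.1
    exact ⟨by linarith only [hε, hε1, h1], h1, (Nat.le_floor_iff hCp0.le).mp hc.1.2⟩
  have hCFc : (CF.card : ℝ) ≤ T ^ 2 := by
    calc (CF.card : ℝ) ≤ ((Finset.Icc 1 ⌊T ^ α2 / A⌋₊).card : ℝ) := by
          exact_mod_cast Finset.card_filter_le _ _
      _ = (⌊T ^ α2 / A⌋₊ : ℝ) := by rw [Nat.card_Icc]; simp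
      _ ≤ Cp := Nat.floor_le hCp0.le
      _ ≤ T ^ 2 := hCpT
  have hSc : (S.card : ℝ) ≤ T ^ 5 := by
    have h1 : S ⊆ Finset.Icc 1 ⌊Kb⌋₊ := by
      intro k hk
      rw [Finset.mem_Icc]
      exact ⟨(hS k hk).1, Nat.le_floor (hS k hk).2⟩
    calc (S.card : ℝ) ≤ ((Finset.Icc 1 ⌊Kb⌋₊).card : ℝ) := by exact_mod_cast Finset.card_le_card h1
      _ = (⌊Kb⌋₊ : ℝ) := by rw [Nat.card_Icc]; simp
      _ ≤ Kb := Nat.floor_le (by linarith only [hε, hε1, hKb1])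
      _ ≤ T ^ 5 := hKbT
  have hrrT : ∀ k ∈ S, (rr dl k : ℝ) ≤ C1 * T := by
    intro k hk
    have hk0 : (0 : ℝ) < k := by exact_mod_cast (hS k hk).1
    have hd0 : (0 : ℝ) < dl := by exact_mod_cast hdl
    refine (hr dl k hdl (hS k hk).1).trans ?_
    apply mul_le_mul_of_nonneg_left _ hC1.le
    calc ((dl : ℝ) * k) ^ (1 / 7 : ℝ) ≤ (T ^ 2 * T ^ 5) ^ (1 / 7 : ℝ) := by
          apply Real.rpow_le_rpow (by positivity) _ (by norm_num)
          exact mul_le_mul hdlT ((hS k hk).2.trans hKbT) (by positivity) (by positivity)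
      _ = T := by
          rw [← pow_add, ← Real.rpow_natCast, ← Real.rpow_mul hT0.le]
          norm_num
  have hg0 : ∀ x, |g x| ≤ |M 0| := by
    intro x
    have := hgM 0 x
    rw [iteratedDeriv_zero] at this
    exact this.trans (le_abs_self _)
  set G : ℕ → ℂ := fun c => (g (Real.log (A * c) / Real.log T) : ℂ) with hG
  have hGn : ∀ c, ‖G c‖ ≤ |M 0| := by
    intro c
    rw [hG]
    simp only [Complex.norm_real, Real.norm_eq_abs]
    exact hg0 _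
  -- the index set
  set P := CF ×ˢ S with hP
  set w : ℕ × ℕ → ℂ := fun i => G i.1 * ((rr dl i.2 : ℂ) / i.2 * Kl i.1 h (sg * i.2)) with hw
  set x : ℕ × ℕ → ℝ := fun i => h * (i.1 : ℝ) ^ 2 / i.2 with hxd
  have hPm : ∀ i ∈ P, i.1 ∈ CF ∧ i.2 ∈ S := fun i hi => Finset.mem_product.mp hi
  have hx : ∀ i ∈ P, 0 < x i := by
    intro i hi
    have h1 := (hCFm _ (hPm i hi).1).1
    have h2 : (0 : ℝ) < i.2 := by exact_mod_cast (hS _ (hPm i hi).2).1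
    simp only [hxd]
    positivity
  have hcs : cs F g T A dl h s sg S = ∑ i ∈ P, w i * F (x i) := by
    unfold cs
    rw [F1_tsum (T := T) (by linarith only [hε, hε1, hT2]) hA hsupp h s
      (fun c => (g (Real.log (A * c) / Real.log T) : ℂ) * ∑ k ∈ S, tm F dl h sg c k)
      (fun c hc => by simp [hc]), ← hCF, hP, Finset.sum_product]
    refine Finset.sum_congr rfl fun c hc => ?_
    rw [Finset.mul_sum]
    refine Finset.sum_congr rfl fun k hk => ?_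
    simp only [tm, hw, hG, hxd]
    ring
  rw [hcs]
  -- trivial bounds
  have hZ : ∀ i ∈ P, (x i) ^ (-σ) ≤ T ^ 3 := by
    intro i hi
    have h1 := hCFm _ (hPm i hi).1
    have h2 : (1 : ℝ) ≤ i.2 := by exact_mod_cast (hS _ (hPm i hi).2).1
    have h20 : (0 : ℝ) < i.2 := by linarith only [hε, hε1, h2]
    have h3 := ((hS _ (hPm i hi).2).2).trans hKbT
    apply F1_small hT1 hσ (hx i hi)
    · simp only [hxd]
      rw [div_le_iff₀ h20]
      calc (h : ℝ) * (i.1 : ℝ) ^ 2 ≤ T * (T ^ 2) ^ 2 := by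
            have := h1.2.2.trans hCpT
            gcongr
        _ = T ^ 5 * 1 := by ring
        _ ≤ T ^ 5 * i.2 := by gcongr
    · simp only [hxd]
      rw [le_div_iff₀ h20, inv_mul_le_iff₀ (by positivity)]
      calc (i.2 : ℝ) ≤ T ^ 5 := h3
        _ = T ^ 5 * (1 * 1 ^ 2) := by ring
        _ ≤ T ^ 5 * (h * (i.1 : ℝ) ^ 2) := by
            have := h1.2.1
            gcongr
  have hwS : ∑ i ∈ P, ‖w i‖ ≤ |M 0| * C1 * T ^ 10 := by
    calc ∑ i ∈ P, ‖w i‖ ≤ ∑ i ∈ P, |M 0| * C1 * T ^ 3 := by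
          refine Finset.sum_le_sum fun i hi => ?_
          have h1 := hCFm _ (hPm i hi).1
          have h2 : (1 : ℝ) ≤ i.2 := by exact_mod_cast (hS _ (hPm i hi).2).1
          simp only [hw]
          rw [norm_mul, norm_mul, norm_div, Complex.norm_natCast, Complex.norm_natCast]
          calc ‖G i.1‖ * ((rr dl i.2 : ℝ) / i.2 * ‖Kl i.1 h (sg * i.2)‖) ≤
              |M 0| * ((C1 * T) * T ^ 2) := by
                apply mul_le_mul (hGn _) _ (by positivity) (by positivity)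
                apply mul_le_mul _ _ (norm_nonneg _) (by positivity)
                · exact (div_le_self (by positivity) h2).trans (hrrT _ (hPm i hi).2)
                · exact (Kl_le _ _ _).trans (h1.2.2.trans hCpT)
            _ = |M 0| * C1 * T ^ 3 := by ring
      _ = (CF.card : ℝ) * S.card * (|M 0| * C1 * T ^ 3) := by
          rw [Finset.sum_const, hP, Finset.card_product, nsmul_eq_mul]
          push_cast
          ring
      _ ≤ T ^ 2 * T ^ 5 * (|M 0| * C1 * T ^ 3) := by gcongr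
      _ = |M 0| * C1 * T ^ 10 := by ring
  -- the main bound
  set Om : ℝ := √((1 + Kb / (h * s)) * (1 + WW (h * s) (200 * T ^ (-ε) * max (h * Cp ^ 2 / Kb) 1))) with hOm
  set SS : ℝ := ∑ k ∈ S, (rr dl k : ℝ) ^ 2 * (k : ℝ) ^ (2 * σ - 2) with hSS
  set B1 : ℝ := (h : ℝ) ^ (-σ) * (C3 * T ^ (2 * ε) * √h * Cp ^ (1 - 2 * σ) * Om * √SS +
    T ^ (-10 : ℝ) * (C1 * T ^ 6)) with hB1d
  have hB10 : 0 ≤ B1 := by
    rw [hB1d]
    have u1 : 0 ≤ (h : ℝ) ^ (-σ) := Real.rpow_nonneg (Nat.cast_nonneg h) _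
    have u2 : 0 ≤ C3 * T ^ (2 * ε) * √h * Cp ^ (1 - 2 * σ) :=
      mul_nonneg (mul_nonneg (mul_nonneg hC3.le (Real.rpow_nonneg hT0.le _)) (Real.sqrt_nonneg _))
        (Real.rpow_nonneg hCp0.le _)
    have u3 : 0 ≤ T ^ (-10 : ℝ) * (C1 * T ^ 6) :=
      mul_nonneg (Real.rpow_nonneg hT0.le _) (mul_nonneg hC1.le (pow_nonneg hT0.le _))
    exact mul_nonneg u1 (add_nonneg (mul_nonneg (mul_nonneg u2 (Real.sqrt_nonneg _)) (Real.sqrt_nonneg _)) u3)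
  have hB1 : ∀ t : ℝ, |t| ≤ T ^ ε → ‖∑ i ∈ P, w i * (x i : ℂ) ^ (-(σ + t * I : ℂ))‖ ≤ B1 := by
    intro t ht
    set z : ℂ := 2 * (σ + t * I) with hz
    have hzre : z.re = 2 * σ := by simp [hz]
    have hzn : ‖z‖ ≤ 5 * T ^ ε := by
      have h1 : (1 : ℝ) ≤ T ^ ε := Real.one_le_rpow hT1 hε.le
      have h2 : ‖(σ + t * I : ℂ)‖ ≤ |σ| + |t| := by
        refine (norm_add_le _ _).trans ?_
        rw [norm_mul, Complex.norm_I, mul_one, Complex.norm_real, Complex.norm_real,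
          Real.norm_eq_abs, Real.norm_eq_abs]
      rw [hz, norm_mul, Complex.norm_ofNat]
      linarith only [hε, hε1, hσ, ht, h1, h2]
    set a : ℤ → ℂ := fun n => (rr dl n.natAbs : ℂ) / n.natAbs * (n.natAbs : ℂ) ^ (σ + t * I : ℂ) with ha
    have hnat : ∀ k : ℕ, (sg * (k : ℤ)).natAbs = k := by
      intro k
      rcases hsg with rfl | rfl <;> simp
    have hinj : Set.InjOn (fun k : ℕ => sg * (k : ℤ)) S := by
      intro k _ k' _ hkk
      have := congrArg Int.natAbs hkk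
      simpa only [hnat] using this
    have han : ∀ k ∈ S, ‖a (sg * (k : ℤ))‖ = (rr dl k : ℝ) * (k : ℝ) ^ (σ - 1) := by
      intro k hk
      have hk0 : (0 : ℝ) < k := by exact_mod_cast (hS k hk).1
      simp only [ha, hnat]
      rw [norm_mul, norm_div, Complex.norm_natCast, Complex.norm_natCast,
        show (k : ℂ) = ((k : ℝ) : ℂ) by norm_cast, Complex.norm_cpow_eq_rpow_re_of_pos hk0,
        Real.rpow_sub_one hk0.ne']
      have h5 : (σ + t * I : ℂ).re = σ := by simp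
      rw [h5]
      ring
    have h4 := h3 T hT3 h s hh hs hcop hhT hsT α1 α2 A hα1 hα12 hα2 hA1 hA2 g hg hsupp hgM Kb hKb1 hKb2
      (S.image (fun k : ℕ => sg * (k : ℤ))) (by
        intro n hn
        rw [Finset.mem_image] at hn
        obtain ⟨k, hk, rfl⟩ := hn
        have h6 := (hS k hk).2
        have h7 : |((sg * (k : ℤ) : ℤ) : ℝ)| = k := by
          rcases hsg with rfl | rfl <;> simp
        rw [h7]; exact h6) a z (by rw [hzre, abs_mul, abs_two]; linarith only [hσ]) hzn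
    rw [Finset.sum_image hinj, Finset.sum_image hinj, Finset.sum_image hinj, hzre] at h4
    have hsum : ∑ i ∈ P, w i * (x i : ℂ) ^ (-(σ + t * I : ℂ)) = (h : ℂ) ^ (-(σ + t * I : ℂ)) *
        ∑ k ∈ S, a (sg * (k : ℤ)) * ∑' c : ℕ, (if 0 < c ∧ s ∣ c ∧ Nat.Coprime c h then
          Kl c h (sg * (k : ℤ)) * (g (Real.log (A * c) / Real.log T) : ℂ) * (c : ℂ) ^ (-z) else 0) := by
      rw [hP, Finset.sum_product_right, Finset.mul_sum]
      refine Finset.sum_congr rfl fun k hk => ?_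
      have hk0 : (0 : ℝ) < k := by exact_mod_cast (hS k hk).1
      rw [F1_tsum (T := T) (by linarith only [hε, hε1, hT2]) hA hsupp h s
        (fun c => Kl c h (sg * (k : ℤ)) * (g (Real.log (A * c) / Real.log T) : ℂ) * (c : ℂ) ^ (-z))
        (fun c hc => by simp [hc]), ← hCF, Finset.mul_sum, Finset.mul_sum]
      refine Finset.sum_congr rfl fun c hc => ?_
      have hc0 := (hCFm c hc).1
      simp only [hw, hG, hxd, ha, hnat]
      rw [F1_cpow hh' hc0 hk0, hz]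
      push_cast
      ring
    have hhn : ‖(h : ℂ) ^ (-(σ + t * I : ℂ))‖ = (h : ℝ) ^ (-σ) := by
      rw [show (h : ℂ) = ((h : ℝ) : ℂ) by norm_cast, Complex.norm_cpow_eq_rpow_re_of_pos hh']
      simp
    rw [hsum, norm_mul, hhn, hB1d]
    apply mul_le_mul_of_nonneg_left _ (by positivity)
    refine h4.trans ?_
    have hSS' : ∑ k ∈ S, ‖a (sg * (k : ℤ))‖ ^ 2 = SS := by
      rw [hSS]
      refine Finset.sum_congr rfl fun k hk => ?_
      have hk0 : (0 : ℝ) < k := by exact_mod_cast (hS k hk).1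
      rw [han k hk, mul_pow, ← Real.rpow_natCast ((k : ℝ) ^ (σ - 1)) 2, ← Real.rpow_mul hk0.le]
      congr 2
      push_cast
      ring
    have hA1' : ∑ k ∈ S, ‖a (sg * (k : ℤ))‖ ≤ C1 * T ^ 6 := by
      calc ∑ k ∈ S, ‖a (sg * (k : ℤ))‖ ≤ ∑ k ∈ S, C1 * T := by
            refine Finset.sum_le_sum fun k hk => ?_
            rw [han k hk]
            have hk1 : (1 : ℝ) ≤ k := by exact_mod_cast (hS k hk).1
            calc (rr dl k : ℝ) * (k : ℝ) ^ (σ - 1) ≤ (C1 * T) * 1 := by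
                  apply mul_le_mul (hrrT k hk) _ (by positivity) (by positivity)
                  exact Real.rpow_le_one_of_one_le_of_nonpos hk1 (by linarith only [hε, hε1, hσ'])
              _ = C1 * T := by ring
        _ = S.card * (C1 * T) := by rw [Finset.sum_const, nsmul_eq_mul]
        _ ≤ T ^ 5 * (C1 * T) := by gcongr
        _ = C1 * T ^ 6 := by ring
    rw [hSS', hOm, hCp]
    gcongr
  have key := F1_int P w x hx hk hF hB1 hB10 hZ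
  refine key.trans ?_
  have hI0 : 0 ≤ ∫ t : ℝ, ‖kr t‖ := integral_nonneg fun t => norm_nonneg _
  have hB0 : 0 ≤ B := hI0.trans hB
  have hpw : ∀ (a : ℝ) (n : ℕ), T ^ a * T ^ n = T ^ (a + n) := by
    intro a n
    rw [← Real.rpow_natCast T n, ← Real.rpow_add hT0]
  have e1 : (∫ t : ℝ, ‖kr t‖) * B1 ≤ B * B1 := mul_le_mul_of_nonneg_right hB hB10
  have e2 : (∫ t in {t : ℝ | T ^ ε < |t|}, ‖kr t‖) * (T ^ 3 * ∑ i ∈ P, ‖w i‖) ≤
      |M 0| * C1 * T ^ (-1 : ℝ) := by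
    calc (∫ t in {t : ℝ | T ^ ε < |t|}, ‖kr t‖) * (T ^ 3 * ∑ i ∈ P, ‖w i‖) ≤
        T ^ (-40 : ℝ) * (T ^ 3 * (|M 0| * C1 * T ^ 10)) := by
          apply mul_le_mul htail _ (by positivity) (by positivity)
          gcongr
      _ = |M 0| * C1 * (T ^ (-40 : ℝ) * T ^ 13) := by ring
      _ ≤ |M 0| * C1 * T ^ (-1 : ℝ) := by
          apply mul_le_mul_of_nonneg_left _ (by positivity)
          rw [hpw]
          exact Real.rpow_le_rpow_of_exponent_le hT1 (by norm_num)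
  have e3 : ‖κ0‖ * ∑ i ∈ P, ‖w i‖ ≤ |M 0| * C1 * T ^ (-1 : ℝ) := by
    calc ‖κ0‖ * ∑ i ∈ P, ‖w i‖ ≤ T ^ (-40 : ℝ) * (|M 0| * C1 * T ^ 10) := by
          apply mul_le_mul hκ hwS (by positivity) (by positivity)
      _ = |M 0| * C1 * (T ^ (-40 : ℝ) * T ^ 10) := by ring
      _ ≤ |M 0| * C1 * T ^ (-1 : ℝ) := by
          apply mul_le_mul_of_nonneg_left _ (by positivity)
          rw [hpw]
          exact Real.rpow_le_rpow_of_exponent_le hT1 (by norm_num)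
  have e4 : B * ((h : ℝ) ^ (-σ) * (T ^ (-10 : ℝ) * (C1 * T ^ 6))) ≤ C1 * T ^ (-1 : ℝ) := by
    have h5 : (h : ℝ) ^ (-σ) ≤ T := by
      calc (h : ℝ) ^ (-σ) ≤ (h : ℝ) ^ (1 : ℝ) := Real.rpow_le_rpow_of_exponent_le hh1 (by linarith only [hε, hε1, hσ'])
        _ ≤ T := by rw [Real.rpow_one]; exact hhT
    calc B * ((h : ℝ) ^ (-σ) * (T ^ (-10 : ℝ) * (C1 * T ^ 6))) ≤
        T * (T * (T ^ (-10 : ℝ) * (C1 * T ^ 6))) := by gcongr
      _ = C1 * (T ^ (-10 : ℝ) * T ^ 8) := by ring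
      _ ≤ C1 * T ^ (-1 : ℝ) := by
          apply mul_le_mul_of_nonneg_left _ hC1.le
          rw [hpw]
          exact Real.rpow_le_rpow_of_exponent_le hT1 (by norm_num)
  have e5 : (h : ℝ) ^ (-σ) * √h = (h : ℝ) ^ (1 / 2 - σ) := by
    rw [Real.sqrt_eq_rpow, ← Real.rpow_add hh']
    ring_nf
  set X : ℝ := T ^ (2 * ε) * B * (h : ℝ) ^ (1 / 2 - σ) * Cp ^ (1 - 2 * σ) * Om * √SS with hX
  have hX0 : 0 ≤ X := by
    rw [hX]
    have u2 : 0 ≤ T ^ (2 * ε) * B * (h : ℝ) ^ (1 / 2 - σ) * Cp ^ (1 - 2 * σ) :=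
      mul_nonneg (mul_nonneg (mul_nonneg (Real.rpow_nonneg hT0.le _)
        ((integral_nonneg fun t => norm_nonneg _).trans hB)) (Real.rpow_nonneg (Nat.cast_nonneg h) _))
        (Real.rpow_nonneg hCp0.le _)
    exact mul_nonneg (mul_nonneg u2 (Real.sqrt_nonneg _)) (Real.sqrt_nonneg _)
  have hT1' : 0 ≤ T ^ (-1 : ℝ) := by positivity
  have e6 : B * B1 = C3 * X + B * ((h : ℝ) ^ (-σ) * (T ^ (-10 : ℝ) * (C1 * T ^ 6))) := by
    rw [hB1d, hX, ← e5]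
    ring
  have hMC : 0 ≤ |M 0| * C1 := by positivity
  calc (∫ t : ℝ, ‖kr t‖) * B1 + (∫ t in {t : ℝ | T ^ ε < |t|}, ‖kr t‖) * (T ^ 3 * ∑ i ∈ P, ‖w i‖) +
        ‖κ0‖ * ∑ i ∈ P, ‖w i‖ ≤
      C3 * X + C1 * T ^ (-1 : ℝ) + |M 0| * C1 * T ^ (-1 : ℝ) + |M 0| * C1 * T ^ (-1 : ℝ) := by
        rw [e6] at e1
        linarith only [e2, e3, e4, e1]
    _ ≤ (C3 + C1 + 2 * (|M 0| * C1)) * (X + T ^ (-1 : ℝ)) := by
        exact P24_aux1 (mul_nonneg hC3.le hT1') (mul_nonneg hC1.le hX0) (mul_nonneg hMC hX0)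

/-- **F1.** the block `k ≤ Y₀` -/
theorem blk_half {ε : ℝ} (hε : 0 < ε) (hε1 : ε ≤ 1 / 100) (M : ℕ → ℝ) : ∃ C T₀ : ℝ, 0 < C ∧
    ∀ T ≥ T₀, ∀ (F : ℝ → ℂ) (kp km : ℝ → ℂ) (κ0 : ℂ), KD T ε F kp km κ0 →
    ∀ h s dl : ℕ, 0 < h → 0 < s → 0 < dl → Nat.Coprime h s → (h : ℝ) ≤ T → (s : ℝ) ≤ T →
    (dl : ℝ) ≤ T ^ 2 → ∀ α1 α2 A : ℝ, 0 ≤ α1 → α1 ≤ α2 → α2 ≤ 1 → α2 - α1 ≤ ε → T⁻¹ ≤ A → A ≤ T ^ 3 →
    ∀ g : ℝ → ℝ, ContDiff ℝ (⊤ : ℕ∞) g → (∀ x, g x ≠ 0 → α1 ≤ x ∧ x ≤ α2) →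
    (∀ n x, |iteratedDeriv n g x| ≤ M n) → ∀ sg : ℤ, (sg = 1 ∨ sg = -1) →
    ‖cs F g T A dl h s sg (Finset.Icc 1 ⌊h * (T ^ α2 / A) ^ 2 / T⌋₊)‖ ≤
      C * T ^ (10 * ε) * (T ^ (1 / 2 : ℝ) *
        √((1 + (T ^ α2 / A) ^ 2 / (T * s)) * (1 + WW (h * s) T)) + 1) := by
  obtain ⟨C3, T3, hC3, h3⟩ := F1_gen hε hε1 M
  obtain ⟨C2, hC2, hr⟩ := rr_bound (show (0 : ℝ) < ε / 7 by positivity)
  set C4 : ℝ := C2 * (1 + 5 / ε) with hC4
  have hC40 : 0 < C4 := by positivity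
  refine ⟨C3 * (1 + C4), max (max T3 625) ((200 : ℝ) ^ (1 / ε)), by positivity, ?_⟩
  intro T hT F kp km κ0 hKD h s dl hh hs hdl hcop hhT hsT hdlT α1 α2 A hα1 hα12 hα2 hα21
    hA1 hA2 g hg hsupp hgM sg hsg
  have hT3 : T3 ≤ T := (le_max_left _ _).trans ((le_max_left _ _).trans hT)
  have hT625 : 625 ≤ T := (le_max_right _ _).trans ((le_max_left _ _).trans hT)
  have hT200 : (200 : ℝ) ^ (1 / ε) ≤ T := (le_max_right _ _).trans hT
  have hT1 : 1 ≤ T := by linarith only [hε, hε1, hT625]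
  have hT0 : 0 < T := by linarith only [hε, hε1, hT625]
  have hA : 0 < A := lt_of_lt_of_le (inv_pos.mpr hT0) hA1
  have hh' : (0 : ℝ) < h := by exact_mod_cast hh
  have hs' : (0 : ℝ) < s := by exact_mod_cast hs
  set Cp : ℝ := T ^ α2 / A with hCp
  have hCp0 : 0 < Cp := by positivity
  by_cases hY : 1 ≤ h * Cp ^ 2 / T
  swap
  · have h1 : ⌊h * Cp ^ 2 / T⌋₊ = 0 := Nat.floor_eq_zero.mpr (not_le.mp hY)
    rw [h1]
    have h2 : cs F g T A dl h s sg (Finset.Icc 1 0) = 0 := by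
      simp [cs]
    rw [h2, norm_zero]
    positivity
  have hCpT : Cp ≤ T ^ 2 := by
    rw [hCp, div_eq_mul_inv]
    have h1 : T ^ α2 ≤ T := by
      calc T ^ α2 ≤ T ^ (1 : ℝ) := Real.rpow_le_rpow_of_exponent_le hT1 hα2
        _ = T := Real.rpow_one T
    have h2 : A⁻¹ ≤ T := by
      rw [inv_le_comm₀ hA hT0]; exact hA1
    calc T ^ α2 * A⁻¹ ≤ T * T := mul_le_mul h1 h2 (by positivity) (by positivity)
      _ = T ^ 2 := by ring
  have hsq25 : 25 * T ^ (1 / 2 : ℝ) ≤ T := by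
    rw [← Real.sqrt_eq_rpow]
    have h1 : 25 ≤ √T := by
      rw [show (25 : ℝ) = √(25 ^ 2) by rw [Real.sqrt_sq (by norm_num)]]
      exact Real.sqrt_le_sqrt (by linarith only [hT625])
    calc 25 * √T ≤ √T * √T := by gcongr
      _ = T := Real.mul_self_sqrt hT0.le
  have hKb2 : h * Cp ^ 2 / T ≤ h * (T ^ α1 / A) ^ 2 / 25 := by
    have h1 : Cp ≤ T ^ ε * (T ^ α1 / A) := by
      rw [hCp, ← mul_div_assoc, ← Real.rpow_add hT0]
      exact div_le_div_of_nonneg_right (Real.rpow_le_rpow_of_exponent_le hT1 (by linarith only [hα21])) hA.le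
    have h2 : Cp ^ 2 ≤ T ^ (1 / 2 : ℝ) * (T ^ α1 / A) ^ 2 := by
      calc Cp ^ 2 ≤ (T ^ ε * (T ^ α1 / A)) ^ 2 := by gcongr
        _ = T ^ (2 * ε) * (T ^ α1 / A) ^ 2 := by
            rw [mul_pow, two_mul, Real.rpow_add hT0]; ring
        _ ≤ T ^ (1 / 2 : ℝ) * (T ^ α1 / A) ^ 2 := by
            apply mul_le_mul_of_nonneg_right _ (by positivity)
            exact Real.rpow_le_rpow_of_exponent_le hT1 (by linarith only [hε, hε1])
    rw [div_le_div_iff₀ hT0 (by norm_num)]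
    calc h * Cp ^ 2 * 25 ≤ h * (T ^ (1 / 2 : ℝ) * (T ^ α1 / A) ^ 2) * 25 := by gcongr
      _ = h * (T ^ α1 / A) ^ 2 * (25 * T ^ (1 / 2 : ℝ)) := by ring
      _ ≤ h * (T ^ α1 / A) ^ 2 * T := by gcongr
  have hYT : h * Cp ^ 2 / T ≤ T ^ 5 := by
    rw [div_le_iff₀ hT0]
    calc h * Cp ^ 2 ≤ T * (T ^ 2) ^ 2 := by gcongr
      _ = T ^ 5 * 1 := by ring
      _ ≤ T ^ 5 * T := by gcongr
  have hgen := h3 T hT3 F kp κ0 (1 / 2) (by rw [abs_of_nonneg] <;> norm_num) hKD.ip (by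
      intro x hx
      rw [hKD.rp x hx]
      push_cast
      rfl) hKD.tp hKD.k0 (T ^ (1 / 2 + ε)) hKD.bp (by
      calc T ^ (1 / 2 + ε) ≤ T ^ (1 : ℝ) := Real.rpow_le_rpow_of_exponent_le hT1 (by linarith only [hε, hε1])
        _ = T := Real.rpow_one T) h s dl hh hs hdl hcop hhT hsT hdlT α1 α2 A hα1 hα12 hα2 hA1 hA2 g
      hg hsupp hgM sg hsg (Finset.Icc 1 ⌊h * Cp ^ 2 / T⌋₊) (h * Cp ^ 2 / T) hY hKb2 (by
      intro k hk
      rw [Finset.mem_Icc] at hk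
      exact ⟨hk.1, (Nat.le_floor_iff (by positivity)).mp hk.2⟩)
  rw [← hCp] at hgen
  refine hgen.trans ?_
  have e1 : h * Cp ^ 2 / (h * Cp ^ 2 / T) = T := by field_simp
  have e2 : h * Cp ^ 2 / T / (h * s) = Cp ^ 2 / (T * s) := by field_simp
  have e3 : WW (h * s) (200 * T ^ (-ε) * T) ≤ WW (h * s) T := by
    apply WW_mono
    have h200 : 200 ≤ T ^ ε := by
      calc (200 : ℝ) = ((200 : ℝ) ^ (1 / ε)) ^ ε := by
            rw [← Real.rpow_mul (by norm_num), one_div, inv_mul_cancel₀ hε.ne', Real.rpow_one]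
        _ ≤ T ^ ε := Real.rpow_le_rpow (by positivity) hT200 hε.le
    rw [Real.rpow_neg hT0.le]
    have : 200 * (T ^ ε)⁻¹ ≤ 1 := by
      rw [mul_inv_le_iff₀ (by positivity)]; linarith only [h200]
    calc 200 * (T ^ ε)⁻¹ * T ≤ 1 * T := by gcongr
      _ = T := one_mul T
  have hlog : 1 + Real.log (h * Cp ^ 2 / T) ≤ (1 + 5 / ε) * T ^ ε := by
    have h1 : Real.log (h * Cp ^ 2 / T) ≤ 5 * Real.log T := by
      have := Real.log_le_log (by positivity) hYT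
      rw [Real.log_pow] at this
      exact_mod_cast this
    have h2 := Real.log_le_rpow_div hT0.le hε
    have h3 : (1 : ℝ) ≤ T ^ ε := Real.one_le_rpow hT1 hε.le
    calc 1 + Real.log (h * Cp ^ 2 / T) ≤ T ^ ε + 5 * (T ^ ε / ε) := by linarith only [h1, h2, h3]
      _ = (1 + 5 / ε) * T ^ ε := by ring
  have e4 : ∑ k ∈ Finset.Icc 1 ⌊h * Cp ^ 2 / T⌋₊, (rr dl k : ℝ) ^ 2 * (k : ℝ) ^ (2 * (1 / 2 : ℝ) - 2) ≤
      (C4 * T ^ (2 * ε)) ^ 2 := by
    have hrr : ∀ k ∈ Finset.Icc 1 ⌊h * Cp ^ 2 / T⌋₊, (rr dl k : ℝ) ≤ C2 * T ^ ε := by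
      intro k hk
      rw [Finset.mem_Icc] at hk
      have hk0 : (0 : ℝ) < k := by exact_mod_cast hk.1
      have hk1 := (Nat.le_floor_iff (by positivity)).mp hk.2
      have hd0 : (0 : ℝ) < dl := by exact_mod_cast hdl
      refine (hr dl k hdl hk.1).trans ?_
      apply mul_le_mul_of_nonneg_left _ hC2.le
      calc ((dl : ℝ) * k) ^ (ε / 7) ≤ (T ^ 2 * T ^ 5) ^ (ε / 7) := by
            apply Real.rpow_le_rpow (by positivity) _ (by positivity)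
            exact mul_le_mul hdlT (hk1.trans hYT) (by positivity) (by positivity)
        _ = T ^ ε := by
            rw [← pow_add, ← Real.rpow_natCast, ← Real.rpow_mul hT0.le]
            congr 1
            push_cast
            ring
    have hharm : ∑ k ∈ Finset.Icc 1 ⌊h * Cp ^ 2 / T⌋₊, ((k : ℝ))⁻¹ ≤ (1 + 5 / ε) * T ^ ε := by
      have h1 := harmonic_floor_le_one_add_log (h * Cp ^ 2 / T) hY
      rw [harmonic_eq_sum_Icc] at h1
      push_cast at h1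
      exact h1.trans hlog
    calc ∑ k ∈ Finset.Icc 1 ⌊h * Cp ^ 2 / T⌋₊, (rr dl k : ℝ) ^ 2 * (k : ℝ) ^ (2 * (1 / 2 : ℝ) - 2) ≤
        ∑ k ∈ Finset.Icc 1 ⌊h * Cp ^ 2 / T⌋₊, (C2 * T ^ ε) ^ 2 * ((k : ℝ))⁻¹ := by
          refine Finset.sum_le_sum fun k hk => ?_
          have h1 := hrr k hk
          have h2 : (k : ℝ) ^ (2 * (1 / 2 : ℝ) - 2) = ((k : ℝ))⁻¹ := by
            rw [show (2 * (1 / 2 : ℝ) - 2) = -1 by norm_num, Real.rpow_neg_one]
          rw [h2]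
          gcongr
      _ = (C2 * T ^ ε) ^ 2 * ∑ k ∈ Finset.Icc 1 ⌊h * Cp ^ 2 / T⌋₊, ((k : ℝ))⁻¹ := by
          rw [Finset.mul_sum]
      _ ≤ (C2 * T ^ ε) ^ 2 * ((1 + 5 / ε) * T ^ ε) := by gcongr
      _ ≤ (C2 * T ^ ε) ^ 2 * (((1 + 5 / ε) * T ^ ε) ^ 2) := by
          apply mul_le_mul_of_nonneg_left _ (by positivity)
          have h3 : (1 : ℝ) ≤ T ^ ε := Real.one_le_rpow hT1 hε.le
          have h4 : (1 : ℝ) ≤ 1 + 5 / ε := by
            have : 0 < 5 / ε := by positivity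
            linarith only [this]
          have h5 : 1 ≤ (1 + 5 / ε) * T ^ ε := one_le_mul_of_one_le_of_one_le h4 h3
          exact le_self_pow₀ h5 two_ne_zero
      _ = (C4 * T ^ (2 * ε)) ^ 2 := by
          rw [hC4, show 2 * ε = ε + ε by ring, Real.rpow_add hT0]
          ring
  have e5 : √(∑ k ∈ Finset.Icc 1 ⌊h * Cp ^ 2 / T⌋₊, (rr dl k : ℝ) ^ 2 * (k : ℝ) ^ (2 * (1 / 2 : ℝ) - 2)) ≤
      C4 * T ^ (2 * ε) := by
    refine (Real.sqrt_le_sqrt e4).trans ?_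
    rw [Real.sqrt_sq (by positivity)]
  rw [e1, e2, max_eq_left hT1]
  have e6 : √((1 + Cp ^ 2 / (T * s)) * (1 + WW (h * s) (200 * T ^ (-ε) * T))) ≤
      √((1 + Cp ^ 2 / (T * s)) * (1 + WW (h * s) T)) := by
    apply Real.sqrt_le_sqrt
    gcongr
  set Q : ℝ := √((1 + Cp ^ 2 / (T * s)) * (1 + WW (h * s) T)) with hQ
  have hQ0 : 0 ≤ Q := Real.sqrt_nonneg _
  have hp0 : (h : ℝ) ^ ((1 : ℝ) / 2 - 1 / 2) = 1 := by rw [sub_self, Real.rpow_zero]
  have hp1 : Cp ^ ((1 : ℝ) - 2 * (1 / 2)) = 1 := by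
    rw [show (1 : ℝ) - 2 * (1 / 2) = 0 by norm_num, Real.rpow_zero]
  rw [hp0, hp1]
  have hTe : T ^ (5 * ε) ≤ T ^ (10 * ε) := Real.rpow_le_rpow_of_exponent_le hT1 (by linarith only [hε])
  have hTe1 : 1 ≤ T ^ (10 * ε) := Real.one_le_rpow hT1 (by positivity)
  have hTm : T ^ (-1 : ℝ) ≤ 1 := Real.rpow_le_one_of_one_le_of_nonpos hT1 (by norm_num)
  calc C3 * (T ^ (2 * ε) * T ^ (1 / 2 + ε) * 1 * 1 *
        √((1 + Cp ^ 2 / (T * s)) * (1 + WW (h * s) (200 * T ^ (-ε) * T))) *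
        √(∑ k ∈ Finset.Icc 1 ⌊h * Cp ^ 2 / T⌋₊, (rr dl k : ℝ) ^ 2 * (k : ℝ) ^ (2 * (1 / 2 : ℝ) - 2)) +
        T ^ (-1 : ℝ)) ≤
      C3 * (T ^ (2 * ε) * T ^ (1 / 2 + ε) * 1 * 1 * Q * (C4 * T ^ (2 * ε)) + 1) := by gcongr
    _ = C3 * (C4 * (T ^ (1 / 2 : ℝ) * Q) * T ^ (5 * ε) + 1) := by
        have h1 : T ^ (5 * ε) = T ^ (2 * ε) * T ^ ε * T ^ (2 * ε) := by
          rw [← Real.rpow_add hT0, ← Real.rpow_add hT0]; ring_nf
        rw [h1, Real.rpow_add hT0 (1 / 2) ε]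
        ring
    _ ≤ C3 * (C4 * (T ^ (1 / 2 : ℝ) * Q) * T ^ (10 * ε) + T ^ (10 * ε)) := by gcongr
    _ ≤ C3 * (1 + C4) * T ^ (10 * ε) * (T ^ (1 / 2 : ℝ) * Q + 1) := by
        have h0 : 0 ≤ C3 * T ^ (10 * ε) := mul_nonneg hC3.le (Real.rpow_nonneg hT0.le _)
        exact P24_aux2 (mul_nonneg h0 (mul_nonneg (Real.rpow_nonneg hT0.le _) hQ0)) (mul_nonneg h0 hC40.le)

end SG

end

section

namespace SG
open Complex MeasureTheory Filter Topology Set S6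
open scoped Real ComplexConjugate Manifold

theorem J3_add (G G' : ℝ × ℝ × ℝ → ℝ) (T τ : ℝ) :
    ErrTot (fun p => G p + G' p) T τ = ErrTot G T τ + ErrTot G' T τ := by
  unfold ErrTot
  rw [← Finset.sum_add_distrib]
  refine Finset.sum_congr rfl (fun x _ => ?_)
  rw [← add_mul]
  congr 1
  unfold cx cf
  push_cast
  ring

theorem J3_zero (T τ : ℝ) : ErrTot (fun _ => 0) T τ = 0 := by
  unfold ErrTot
  apply Finset.sum_eq_zero
  intro x _
  unfold cx cf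
  simp

theorem J3_ok_zero : ErrOK (fun _ => 0) := by
  intro δ hδ
  refine ⟨1, 0, one_pos, ?_⟩
  intro T hT τ _ _
  rw [J3_zero, norm_zero]
  exact Real.rpow_nonneg hT _

theorem J3_ok_add {G G' : ℝ × ℝ × ℝ → ℝ} (h : ErrOK G) (h' : ErrOK G') : ErrOK (fun p => G p + G' p) := by
  intro δ hδ
  obtain ⟨η₁, T₁, hη₁, h₁⟩ := h δ hδ
  obtain ⟨η₂, T₂, hη₂, h₂⟩ := h' δ hδ
  obtain ⟨η, hη, hη1, hη2⟩ : ∃ η : ℝ, 0 < η ∧ 2 * η ≤ η₁ ∧ 2 * η ≤ η₂ := by
    refine ⟨min η₁ η₂ / 2, by positivity, ?_, ?_⟩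
    · have := min_le_left η₁ η₂
      linarith only [this]
    · have := min_le_right η₁ η₂
      linarith only [this]
  refine ⟨η, max (max T₁ T₂) (max 1 (2 ^ (1 / η))), hη, ?_⟩
  intro T hT τ hτ hτT
  have hT₁ : T₁ ≤ T := (le_max_left _ _).trans ((le_max_left _ _).trans hT)
  have hT₂ : T₂ ≤ T := (le_max_right _ _).trans ((le_max_left _ _).trans hT)
  have hT1 : 1 ≤ T := (le_max_left _ _).trans ((le_max_right _ _).trans hT)
  have hT3 : (2 : ℝ) ^ (1 / η) ≤ T := (le_max_right _ _).trans ((le_max_right _ _).trans hT)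
  have hT0 : 0 < T := by linarith only [hT1]
  have h2 : (2 : ℝ) ≤ T ^ η := by
    calc (2 : ℝ) = ((2 : ℝ) ^ (1 / η)) ^ η := by
          rw [← Real.rpow_mul (by norm_num), one_div, inv_mul_cancel₀ hη.ne', Real.rpow_one]
      _ ≤ T ^ η := Real.rpow_le_rpow (by positivity) hT3 hη.le
  rw [J3_add]
  have e1 : T ^ (1 - η₁) ≤ T ^ (1 - 2 * η) := Real.rpow_le_rpow_of_exponent_le hT1 (by linarith only [hη1])
  have e2 : T ^ (1 - η₂) ≤ T ^ (1 - 2 * η) := Real.rpow_le_rpow_of_exponent_le hT1 (by linarith only [hη2])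
  have e3 : T ^ (1 - η) = T ^ (1 - 2 * η) * T ^ η := by
    rw [← Real.rpow_add hT0]
    congr 1
    ring
  have e4 : 0 ≤ T ^ (1 - 2 * η) := Real.rpow_nonneg hT0.le _
  calc ‖ErrTot G T τ + ErrTot G' T τ‖ ≤ ‖ErrTot G T τ‖ + ‖ErrTot G' T τ‖ := norm_add_le _ _
    _ ≤ T ^ (1 - η₁) + T ^ (1 - η₂) := add_le_add (h₁ T hT₁ τ hτ hτT) (h₂ T hT₂ τ hτ hτT)
    _ ≤ T ^ (1 - 2 * η) * 2 := by linarith only [e1, e2]
    _ ≤ T ^ (1 - 2 * η) * T ^ η := mul_le_mul_of_nonneg_left h2 e4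
    _ = T ^ (1 - η) := e3.symm

theorem J3_ok_sum {ι : Type*} (s : Finset ι) (F : ι → ℝ × ℝ × ℝ → ℝ) (h : ∀ i ∈ s, ErrOK (F i)) :
    ErrOK (fun p => ∑ i ∈ s, F i p) := by
  classical
  induction s using Finset.induction_on with
  | empty => simpa using J3_ok_zero
  | insert a s ha ih =>
    simp only [Finset.sum_insert ha]
    exact J3_ok_add (h a (Finset.mem_insert_self _ _)) (ih fun i hi => h i (Finset.mem_insert_of_mem hi))

/-- **J3. Partition of unity.** `ErrTot` is linear in `G` (finite sum); finite sums of `T^{1-η}` are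
`≤ T^{1-η/2}`. `SmoothPartitionOfUnity.exists_isSubordinate` for the compact set `tsupport G`; only
finitely many functions `f_i` meet it, `G = ∑ f_i G`, `tsupport (f_i G) ⊆ tsupport f_i ∩ tsupport G`. (As in S6_cutoff.lean:
`𝓘(ℝ, ℝ × ℝ × ℝ)`, `contMDiff.contDiff`.) -/
theorem errOK_local {G : ℝ × ℝ × ℝ → ℝ} (hG : ContDiff ℝ (⊤ : ℕ∞) G) (hc : HasCompactSupport G)
    (hloc : ∀ p ∈ tsupport G, ∃ U : Set (ℝ × ℝ × ℝ), IsOpen U ∧ p ∈ U ∧ ∀ H : ℝ × ℝ × ℝ → ℝ,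
      ContDiff ℝ (⊤ : ℕ∞) H → HasCompactSupport H → tsupport H ⊆ U → ErrOK H) : ErrOK G := by
  classical
  choose! U hUo hUm hU using hloc
  have hK : IsCompact (tsupport G) := hc
  obtain ⟨t, ht, hcov⟩ := hK.elim_nhds_subcover U (fun p hp => (hUo p hp).mem_nhds (hUm p hp))
  have hopen : ∀ i : {x // x ∈ t}, IsOpen (U i.1) := fun i => hUo _ (ht i.1 i.2)
  have hcov' : tsupport G ⊆ ⋃ i : {x // x ∈ t}, U i.1 := by
    intro p hp
    obtain ⟨i, hi, hpi⟩ := Set.mem_iUnion₂.mp (hcov hp)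
    exact Set.mem_iUnion.mpr ⟨⟨i, hi⟩, hpi⟩
  obtain ⟨f, hf⟩ := SmoothPartitionOfUnity.exists_isSubordinate 𝓘(ℝ, ℝ × ℝ × ℝ) (isClosed_tsupport G)
    (fun i : {x // x ∈ t} => U i.1) hopen hcov'
  have hsum : G = fun p => ∑ i : {x // x ∈ t}, f i p * G p := by
    funext p
    by_cases hp : p ∈ tsupport G
    · have h1 := f.sum_eq_one hp
      rw [finsum_eq_sum_of_fintype] at h1
      rw [← Finset.sum_mul, h1, one_mul]
    · have h1 : G p = 0 := image_eq_zero_of_notMem_tsupport hp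
      simp [h1]
  rw [hsum]
  apply J3_ok_sum
  intro i _
  have hfs : ContDiff ℝ (⊤ : ℕ∞) (f i : ℝ × ℝ × ℝ → ℝ) := (f i).contMDiff.contDiff
  have hsupp : tsupport (fun p => f i p * G p) ⊆ tsupport (f i) := tsupport_mul_subset_left
  exact hU i.1 (ht i.1 i.2) (fun p => f i p * G p) (hfs.mul hG) hc.mul_left (hsupp.trans (hf i))

end SG

end

section

namespace SG
open Complex MeasureTheory Filter Topology Set S6
open scoped Real ComplexConjugate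

/-- standard region: `y0 < y < y1`, `s y < x₂ < t y`, `x₂ < x₁ < c y - x₂` -/
def J6_R (y0 y1 : ℝ) (s t c : ℝ → ℝ) : Set (ℝ × ℝ × ℝ) :=
  {p | (y0 < p.2.2 ∧ p.2.2 < y1) ∧ (s p.2.2 < p.2.1 ∧ p.2.1 < t p.2.2) ∧
    (p.2.1 < p.1 ∧ p.1 < c p.2.2 - p.2.1)}

lemma J6_open (y0 y1 : ℝ) {s t c : ℝ → ℝ} (hs : Continuous s) (ht : Continuous t)
    (hc : Continuous c) : IsOpen (J6_R y0 y1 s t c) := by
  unfold J6_R
  refine IsOpen.and (IsOpen.and (isOpen_lt continuous_const (by fun_prop))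
    (isOpen_lt (by fun_prop) continuous_const)) ?_
  refine IsOpen.and (IsOpen.and (isOpen_lt (by fun_prop) (by fun_prop))
    (isOpen_lt (by fun_prop) (by fun_prop))) ?_
  exact IsOpen.and (isOpen_lt (by fun_prop) (by fun_prop)) (isOpen_lt (by fun_prop) (by fun_prop))

lemma J6_intOn {S : Set (ℝ × ℝ × ℝ)} (hS : S ⊆ Icc ((0, 0, 0) : ℝ × ℝ × ℝ) (1, 1, 1)) :
    IntegrableOn (fun p : ℝ × ℝ × ℝ => PP p ^ 2) S :=
  (v32_cont.continuousOn.integrableOn_compact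
    (isCompact_Icc (a := ((0, 0, 0) : ℝ × ℝ × ℝ)) (b := (1, 1, 1)))).mono_set hS

/-- value of the integral over a standard region -/
lemma J6_val (y0 y1 : ℝ) {s t c : ℝ → ℝ} (hs : Continuous s) (ht : Continuous t)
    (hc : Continuous c) (h01 : y0 ≤ y1) (hst : ∀ y, y0 < y → y < y1 → s y ≤ t y)
    (htc : ∀ y, y0 < y → y < y1 → t y ≤ c y / 2)
    (hI : J6_R y0 y1 s t c ⊆ Icc ((0, 0, 0) : ℝ × ℝ × ℝ) (1, 1, 1)) :
    ∫ p in J6_R y0 y1 s t c, PP p ^ 2 = ∫ y in y0..y1,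
      (v32A (2 * (1 - y) - c y) (1 - y - s y) - v32A (2 * (1 - y) - c y) (1 - y - t y)) := by
  have hopen := J6_open y0 y1 hs ht hc
  set f : ℝ × ℝ × ℝ → ℝ := (J6_R y0 y1 s t c).indicator fun p => PP p ^ 2 with hf
  have hint : Integrable f := by
    rw [hf, integrable_indicator_iff hopen.measurableSet]
    exact J6_intOn hI
  have h1 : ∫ p in J6_R y0 y1 s t c, PP p ^ 2 = ∫ p, f p := by
    rw [hf, integral_indicator hopen.measurableSet]
  rw [h1]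
  have h2 : ∫ p, f p = ∫ z : ℝ × ℝ, ∫ x1 : ℝ, f (x1, z) :=
    integral_prod_symm (μ := (volume : Measure ℝ)) (ν := (volume : Measure (ℝ × ℝ))) f hint
  rw [h2]
  have h4 : Integrable (fun z : ℝ × ℝ => ∫ x1 : ℝ, f (x1, z)) :=
    Integrable.integral_prod_right (μ := (volume : Measure ℝ))
      (ν := (volume : Measure (ℝ × ℝ))) (f := f) hint
  have h6 : ∫ z : ℝ × ℝ, ∫ x1 : ℝ, f (x1, z) = ∫ y : ℝ, ∫ x2 : ℝ, ∫ x1 : ℝ, f (x1, x2, y) :=
    integral_prod_symm (μ := (volume : Measure ℝ)) (ν := (volume : Measure ℝ)) _ h4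
  rw [h6]
  -- inner integral
  have hinner : ∀ x2 y : ℝ, ∫ x1, f (x1, x2, y) = (Ioo y0 y1).indicator (fun _ =>
      (Ioo (s y) (t y)).indicator
        (fun x2 => v32F (1 - y) x2 (c y - x2) - v32F (1 - y) x2 x2) x2) y := by
    intro x2 y
    have e1 : ∀ x1, f (x1, x2, y) = (Ioo y0 y1).indicator (fun _ => (Ioo (s y) (t y)).indicator
        (fun x2 => (Ioo x2 (c y - x2)).indicator
          (fun x1 => ((x1 - x2) * (1 - y - x1) * (1 - y - x2) / 2) ^ 2) x1) x2) y := by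
      intro x1
      simp only [hf, indicator, J6_R, mem_ofPred_eq, mem_Ioo]
      split_ifs <;> first | rfl | tauto
    simp_rw [e1]
    by_cases hy : y ∈ Ioo y0 y1
    · simp only [indicator_of_mem hy]
      by_cases hx : x2 ∈ Ioo (s y) (t y)
      · simp only [indicator_of_mem hx]
        rw [integral_indicator measurableSet_Ioo]
        have hc' : x2 ≤ c y - x2 := by
          have := htc y hy.1 hy.2
          linarith only [hx.2, this, hx]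
        rw [← integral_Ioc_eq_integral_Ioo, ← intervalIntegral.integral_of_le hc']
        exact intervalIntegral.integral_eq_sub_of_hasDerivAt (fun x _ => v32F_deriv (1 - y) x2 x)
          (Continuous.intervalIntegrable (by fun_prop) _ _)
      · simp only [indicator_of_notMem hx, integral_zero]
    · simp only [indicator_of_notMem hy, integral_zero]
  simp_rw [hinner]
  -- middle integral
  have hmid : ∀ y : ℝ, ∫ x2, (Ioo y0 y1).indicator (fun _ => (Ioo (s y) (t y)).indicator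
        (fun x2 => v32F (1 - y) x2 (c y - x2) - v32F (1 - y) x2 x2) x2) y =
      (Ioo y0 y1).indicator (fun y =>
        (v32A (2 * (1 - y) - c y) (1 - y - s y) - v32A (2 * (1 - y) - c y) (1 - y - t y))) y := by
    intro y
    by_cases hy : y ∈ Ioo y0 y1
    · simp only [indicator_of_mem hy]
      rw [integral_indicator measurableSet_Ioo, ← integral_Ioc_eq_integral_Ioo,
        ← intervalIntegral.integral_of_le (hst y hy.1 hy.2)]
      set b : ℝ := 2 * (1 - y) - c y with hb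
      have h2 : ∀ x2, HasDerivAt (fun x => -v32A b (1 - y - x))
          (v32F (1 - y) x2 (c y - x2) - v32F (1 - y) x2 x2) x2 := by
        intro x2
        have h3 := ((v32A_deriv b (1 - y - x2)).comp_const_sub (1 - y) x2).neg
        refine h3.congr_deriv ?_
        unfold v32F
        rw [show c y = 2 * (1 - y) - b by rw [hb]; ring]
        ring
      rw [intervalIntegral.integral_eq_sub_of_hasDerivAt (fun x _ => h2 x)
        (Continuous.intervalIntegrable (by unfold v32F; fun_prop) _ _)]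
      ring
    · simp only [indicator_of_notMem hy, integral_zero]
  simp_rw [hmid]
  rw [integral_indicator measurableSet_Ioo, ← integral_Ioc_eq_integral_Ioo,
    ← intervalIntegral.integral_of_le h01]

/-- integral of a polynomial of degree 8 -/
lemma J6_poly (a0 a1 a2 a3 a4 a5 a6 a7 a8 u v : ℝ) :
    ∫ y in u..v, (a0 + a1 * y + a2 * y ^ 2 + a3 * y ^ 3 + a4 * y ^ 4 + a5 * y ^ 5 + a6 * y ^ 6 +
      a7 * y ^ 7 + a8 * y ^ 8) =
    (a0 * v + a1 * v ^ 2 / 2 + a2 * v ^ 3 / 3 + a3 * v ^ 4 / 4 + a4 * v ^ 5 / 5 + a5 * v ^ 6 / 6 +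
      a6 * v ^ 7 / 7 + a7 * v ^ 8 / 8 + a8 * v ^ 9 / 9) -
    (a0 * u + a1 * u ^ 2 / 2 + a2 * u ^ 3 / 3 + a3 * u ^ 4 / 4 + a4 * u ^ 5 / 5 + a5 * u ^ 6 / 6 +
      a6 * u ^ 7 / 7 + a7 * u ^ 8 / 8 + a8 * u ^ 9 / 9) := by
  have h3 : ∀ y : ℝ, HasDerivAt (fun v : ℝ => a0 * v ^ 1 + a1 * v ^ 2 / 2 + a2 * v ^ 3 / 3 +
      a3 * v ^ 4 / 4 + a4 * v ^ 5 / 5 + a5 * v ^ 6 / 6 + a6 * v ^ 7 / 7 + a7 * v ^ 8 / 8 +
      a8 * v ^ 9 / 9)
      (a0 + a1 * y + a2 * y ^ 2 + a3 * y ^ 3 + a4 * y ^ 4 + a5 * y ^ 5 + a6 * y ^ 6 +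
      a7 * y ^ 7 + a8 * y ^ 8) y := by
    intro y
    have h0 : ∀ n : ℕ, HasDerivAt (fun x : ℝ => x ^ n) ((n : ℝ) * y ^ (n - 1)) y :=
      fun n => hasDerivAt_pow n y
    have h4 := (((((((((h0 1).const_mul a0).add (((h0 2).const_mul a1).div_const 2)).add
      (((h0 3).const_mul a2).div_const 3)).add (((h0 4).const_mul a3).div_const 4)).add
      (((h0 5).const_mul a4).div_const 5)).add (((h0 6).const_mul a5).div_const 6)).add
      (((h0 7).const_mul a6).div_const 7)).add (((h0 8).const_mul a7).div_const 8)).add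
      (((h0 9).const_mul a8).div_const 9)
    refine h4.congr_deriv ?_
    norm_num
    ring
  rw [intervalIntegral.integral_eq_sub_of_hasDerivAt (fun x _ => h3 x)
    (Continuous.intervalIntegrable (by fun_prop) _ _)]
  ring

/-- `y < 1/6` -/
def J6_Ra : Set (ℝ × ℝ × ℝ) :=
  J6_R 0 (1 / 6) (fun _ => 0) (fun y => (1 / 2 + y) / 2) (fun y => 1 / 2 + y)
/-- `1/6 < y < 1/2`, `x₂ < 1/2 - y` -/
def J6_Rb : Set (ℝ × ℝ × ℝ) :=
  J6_R (1 / 6) (1 / 2) (fun _ => 0) (fun y => 1 / 2 - y) (fun y => 3 / 4 - y / 2)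
/-- `1/4 < y < 1/2`, `x₂ > 1/2 - y` -/
def J6_Rc : Set (ℝ × ℝ × ℝ) :=
  J6_R (1 / 4) (1 / 2) (fun y => 1 / 2 - y) (fun y => (1 - y) / 3) (fun y => 2 * (1 - y) / 3)
/-- `1/2 < y < 1` -/
def J6_Rd : Set (ℝ × ℝ × ℝ) :=
  J6_R (1 / 2) 1 (fun _ => 0) (fun y => (1 - y) / 3) (fun y => 2 * (1 - y) / 3)

lemma J6_Ia : J6_Ra ⊆ Icc ((0, 0, 0) : ℝ × ℝ × ℝ) (1, 1, 1) := by
  rintro ⟨x1, x2, y⟩ ⟨⟨h1, h2⟩, ⟨h3, h4⟩, h5, h6⟩
  simp only at h1 h2 h3 h4 h5 h6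
  refine ⟨⟨?_, ?_, ?_⟩, ⟨?_, ?_, ?_⟩⟩ <;> simp only <;> linarith only [h3, h5, h1, h2, h6, h4]

lemma J6_Ib : J6_Rb ⊆ Icc ((0, 0, 0) : ℝ × ℝ × ℝ) (1, 1, 1) := by
  rintro ⟨x1, x2, y⟩ ⟨⟨h1, h2⟩, ⟨h3, h4⟩, h5, h6⟩
  simp only at h1 h2 h3 h4 h5 h6
  refine ⟨⟨?_, ?_, ?_⟩, ⟨?_, ?_, ?_⟩⟩ <;> simp only <;> linarith only [h3, h5, h1, h4, h6]

lemma J6_Ic : J6_Rc ⊆ Icc ((0, 0, 0) : ℝ × ℝ × ℝ) (1, 1, 1) := by
  rintro ⟨x1, x2, y⟩ ⟨⟨h1, h2⟩, ⟨h3, h4⟩, h5, h6⟩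
  simp only at h1 h2 h3 h4 h5 h6
  refine ⟨⟨?_, ?_, ?_⟩, ⟨?_, ?_, ?_⟩⟩ <;> simp only <;> linarith only [h2, h3, h5, h6]

lemma J6_Id : J6_Rd ⊆ Icc ((0, 0, 0) : ℝ × ℝ × ℝ) (1, 1, 1) := by
  rintro ⟨x1, x2, y⟩ ⟨⟨h1, h2⟩, ⟨h3, h4⟩, h5, h6⟩
  simp only at h1 h2 h3 h4 h5 h6
  refine ⟨⟨?_, ?_, ?_⟩, ⟨?_, ?_, ?_⟩⟩ <;> simp only <;> linarith only [h3, h5, h1, h6]

lemma J6_va : ∫ p in J6_Ra, PP p ^ 2 = 6631579 / 174142586880 := by
  unfold J6_Ra
  rw [J6_val 0 (1 / 6) (by fun_prop) (by fun_prop) (by fun_prop) (by norm_num)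
    (fun y h1 h2 => by linarith only [h1, h2]) (fun y h1 h2 => by linarith only []) J6_Ia]
  have : ∀ y : ℝ, (v32A (2 * (1 - y) - (1 / 2 + y)) (1 - y - 0) -
      v32A (2 * (1 - y) - (1 / 2 + y)) (1 - y - (1 / 2 + y) / 2)) =
      (173/688128 + 31/215040 * y + (-119/30720) * y ^ 2 + (-17/7680) * y ^ 3 + 67/3072 * y ^ 4 +
        5/384 * y ^ 5 + (-89/1920) * y ^ 6 + (-59/3360) * y ^ 7 + 493/13440 * y ^ 8) := by
    intro y
    unfold v32A
    ring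
  simp_rw [this]
  rw [J6_poly]
  norm_num

lemma J6_vb : ∫ p in J6_Rb, PP p ^ 2 = 158239 / 9523422720 := by
  unfold J6_Rb
  rw [J6_val (1 / 6) (1 / 2) (by fun_prop) (by fun_prop) (by fun_prop) (by norm_num)
    (fun y h1 h2 => by linarith only [h2]) (fun y h1 h2 => by linarith only [h1]) J6_Ib]
  have : ∀ y : ℝ, (v32A (2 * (1 - y) - (3 / 4 - y / 2)) (1 - y - 0) -
      v32A (2 * (1 - y) - (3 / 4 - y / 2)) (1 - y - (1 / 2 - y))) =
      (1837/2752512 + (-691/143360) * y + 1167/81920 * y ^ 2 + (-199/10240) * y ^ 3 +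
        11/3072 * y ^ 4 + 91/3840 * y ^ 5 + (-421/15360) * y ^ 6 + 139/13440 * y ^ 7 +
        (-89/53760) * y ^ 8) := by
    intro y
    unfold v32A
    ring
  simp_rw [this]
  rw [J6_poly]
  norm_num

lemma J6_vc : ∫ p in J6_Rc, PP p ^ 2 = 1759 / 12697896960 := by
  unfold J6_Rc
  rw [J6_val (1 / 4) (1 / 2) (by fun_prop) (by fun_prop) (by fun_prop) (by norm_num)
    (fun y h1 h2 => by linarith only [h1]) (fun y h1 h2 => by linarith only []) J6_Ic]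
  have : ∀ y : ℝ, (v32A (2 * (1 - y) - 2 * (1 - y) / 3) (1 - y - (1 / 2 - y)) -
      v32A (2 * (1 - y) - 2 * (1 - y) / 3) (1 - y - (1 - y) / 3)) =
      (6967/352719360 + (-8303/22044960) * y + 4607/1574640 * y ^ 2 + (-2333/196830) * y ^ 3 +
        1049/39366 * y ^ 4 + (-3232/98415) * y ^ 5 + 2048/98415 * y ^ 6 + (-4096/688905) * y ^ 7 +
        512/688905 * y ^ 8) := by
    intro y
    unfold v32A
    ring
  simp_rw [this]
  rw [J6_poly]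
  norm_num

lemma J6_vd : ∫ p in J6_Rd, PP p ^ 2 = 727 / 6348948480 := by
  unfold J6_Rd
  rw [J6_val (1 / 2) 1 (by fun_prop) (by fun_prop) (by fun_prop) (by norm_num)
    (fun y h1 h2 => by linarith only [h2]) (fun y h1 h2 => by linarith only []) J6_Id]
  have : ∀ y : ℝ, (v32A (2 * (1 - y) - 2 * (1 - y) / 3) (1 - y - 0) -
      v32A (2 * (1 - y) - 2 * (1 - y) / 3) (1 - y - (1 - y) / 3)) =
      (727/1377810 + (-2908/688905) * y + 1454/98415 * y ^ 2 + (-2908/98415) * y ^ 3 +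
        727/19683 * y ^ 4 + (-2908/98415) * y ^ 5 + 1454/98415 * y ^ 6 + (-2908/688905) * y ^ 7 +
        727/1377810 * y ^ 8) := by
    intro y
    unfold v32A
    ring
  simp_rw [this]
  rw [J6_poly]
  norm_num

lemma J6_mc : MeasurableSet J6_Rc := (J6_open _ _ (by fun_prop) (by fun_prop) (by fun_prop)).measurableSet
lemma J6_mb : MeasurableSet J6_Rb := (J6_open _ _ (by fun_prop) (by fun_prop) (by fun_prop)).measurableSet
lemma J6_md : MeasurableSet J6_Rd := (J6_open _ _ (by fun_prop) (by fun_prop) (by fun_prop)).measurableSet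

lemma J6_sub : ((J6_Ra ∪ J6_Rb) ∪ J6_Rc) ∪ J6_Rd ⊆ RegG := by
  unfold RegG RegS Reg
  rintro ⟨x1, x2, y⟩ (((⟨⟨h1, h2⟩, ⟨h3, h4⟩, h5, h6⟩ | ⟨⟨h1, h2⟩, ⟨h3, h4⟩, h5, h6⟩) |
    ⟨⟨h1, h2⟩, ⟨h3, h4⟩, h5, h6⟩) | ⟨⟨h1, h2⟩, ⟨h3, h4⟩, h5, h6⟩)
  all_goals simp only at h1 h2 h3 h4 h5 h6
  · refine Or.inr ⟨?_, ?_, ?_, ?_, ?_, ?_⟩ <;> simp only <;> linarith only [h3, h5, h1, h2, h4, h6]
  · refine Or.inr ⟨?_, ?_, ?_, ?_, ?_, ?_⟩ <;> simp only <;> linarith only [h3, h5, h1, h4, h6]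
  · refine Or.inl ⟨?_, ?_, ?_, ?_, ?_⟩ <;> simp only <;> linarith only [h2, h3, h5, h6]
  · refine Or.inl ⟨?_, ?_, ?_, ?_, ?_⟩ <;> simp only <;> linarith only [h3, h5, h1, h6]

lemma J6_IG : RegG ⊆ Icc ((0, 0, 0) : ℝ × ℝ × ℝ) (1, 1, 1) := by
  unfold RegG RegS Reg
  rintro ⟨x1, x2, y⟩ (⟨h1, h2, h3, h4, h5⟩ | ⟨h1, h2, h3, h4, h5, h6⟩)
  · simp only at h1 h2 h3 h4 h5
    refine ⟨⟨?_, ?_, ?_⟩, ⟨?_, ?_, ?_⟩⟩ <;> simp only <;> linarith only [h1, h2, h3, h4]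
  · simp only at h1 h2 h3 h4 h5 h6
    refine ⟨⟨?_, ?_, ?_⟩, ⟨?_, ?_, ?_⟩⟩ <;> simp only <;> linarith only [h1, h2, h3, h4, h5]

/-- **J6. Value.** (equality holds, only `≤` is needed). For fixed `y`, with `b = 1/2 - y`,
`F(y,A) = ∫_{0<x₂<x₁, x₁+x₂<A} PP²`, `K(y,A,b) = ∫_{b<x₂<x₁, x₁+x₂<A} PP²` (polynomials; `K` for `A ≥ 2b`):
`y < 1/6`: `F(y,1/2+y)`; `1/6 < y < 1/4`: `F(y,3/4-y/2) - K(y,3/4-y/2,b)`;
`1/4 < y < 1/2`: the same `+ K(y,2(1-y)/3,b)`; `1/2 < y < 1`: `F(y,2(1-y)/3)`. See S6_value32.lean for the method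
(`2·9!·∫` of the `RegS` part alone is 7408405/186624, the rest 119/648). -/
theorem valueG : (7442677 / 186624 : ℝ) ≤ 2 * (Nat.factorial 9 : ℝ) * ∫ p in RegG, PP p ^ 2 := by
  have hmono : ∫ p in ((J6_Ra ∪ J6_Rb) ∪ J6_Rc) ∪ J6_Rd, PP p ^ 2 ≤ ∫ p in RegG, PP p ^ 2 :=
    setIntegral_mono_set (J6_intOn J6_IG) (Eventually.of_forall fun p => by positivity)
      (LE.le.eventuallyLE J6_sub)
  have d1 : Disjoint ((J6_Ra ∪ J6_Rb) ∪ J6_Rc) J6_Rd := by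
    rw [Set.disjoint_left]
    rintro ⟨x1, x2, y⟩ ((h | h) | h) h' <;>
    · have a1 := h.1.2
      have a2 := h'.1.1
      simp only at a1 a2
      linarith only [a1, a2]
  have d2 : Disjoint (J6_Ra ∪ J6_Rb) J6_Rc := by
    rw [Set.disjoint_left]
    rintro ⟨x1, x2, y⟩ (h | h) h'
    · have a1 := h.1.2
      have a2 := h'.1.1
      simp only at a1 a2
      linarith only [a1, a2]
    · have a1 := h.2.1.2
      have a2 := h'.2.1.1
      simp only at a1 a2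
      linarith only [a1, a2]
  have d3 : Disjoint J6_Ra J6_Rb := by
    rw [Set.disjoint_left]
    rintro ⟨x1, x2, y⟩ h h'
    have a1 := h.1.2
    have a2 := h'.1.1
    simp only at a1 a2
    linarith only [a1, a2]
  have i1 := J6_intOn J6_Ia
  have i2 := J6_intOn J6_Ib
  have i3 := J6_intOn J6_Ic
  have i4 := J6_intOn J6_Id
  rw [setIntegral_union d1 J6_md ((i1.union i2).union i3) i4,
    setIntegral_union d2 J6_mc (i1.union i2) i3, setIntegral_union d3 J6_mb i1 i2,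
    J6_va, J6_vb, J6_vc, J6_vd] at hmono
  have hfac : (Nat.factorial 9 : ℝ) = 362880 := by norm_num [Nat.factorial]
  rw [hfac]
  linarith only [hmono]

end SG

end
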