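import Pool.Agent.Lib.MP_39df77_nt.Part07
import Pool.Agent.Lib.MP_39df77_nt.Part14
import Pool.Agent.Lib.MP_39df77_nt.Part20
import Pool.Agent.Lib.MP_069854_nt.Part04
import Pool.Agent.Lib.MP_39df77_nt.Part23
import Pool.Agent.Lib.MP_39df77_nt.Part24

section

namespace SG
open Complex MeasureTheory Filter Topology Set
open scoped Real ComplexConjugate

private lemma F4_g_zero {T α1 α2 A : ℝ} (hT : 1 < T) (hA : 0 < A) {g : ℝ → ℝ}
    (hg : ∀ x, g x ≠ 0 → α1 ≤ x ∧ x ≤ α2) {c : ℕ} (hc2 : ⌊T ^ α2 / A⌋₊ < c) :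
    g (Real.log (A * c) / Real.log T) = 0 := by
  by_contra hne
  have h2 := (hg _ hne).2
  have hlT : 0 < Real.log T := Real.log_pos hT
  have h3 : Real.log (A * c) ≤ α2 * Real.log T := by
    rwa [div_le_iff₀ hlT] at h2
  have hc : 0 < c := by omega
  have hcpos : (0:ℝ) < c := by exact_mod_cast hc
  have h4 : A * c ≤ T ^ α2 := by
    have := Real.exp_le_exp.2 h3
    rw [Real.exp_log (by positivity)] at this
    rw [Real.rpow_def_of_pos (by linarith)]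
    rwa [mul_comm α2] at this
  have h5 : T ^ α2 / A < c := (Nat.floor_lt' (by omega)).1 hc2
  rw [div_lt_iff₀ hA] at h5
  linarith [mul_comm A (c:ℝ)]

private lemma F4_cs_eq {T α1 α2 A : ℝ} (hT : 1 < T) (hA : 0 < A) {g : ℝ → ℝ}
    (hg : ∀ x, g x ≠ 0 → α1 ≤ x ∧ x ≤ α2) (F : ℝ → ℂ) (dl h s : ℕ) (sg : ℤ) (S : Finset ℕ) :
    cs F g T A dl h s sg S = ∑ c ∈ Finset.range (⌊T ^ α2 / A⌋₊ + 1),
      if 0 < c ∧ s ∣ c ∧ Nat.Coprime c h then
        (g (Real.log (A * c) / Real.log T) : ℂ) * ∑ k ∈ S, tm F dl h sg c k else 0 := by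
  unfold cs
  apply tsum_eq_sum
  intro c hc
  rw [Finset.mem_range, not_lt] at hc
  split_ifs with hh
  · rw [F4_g_zero hT hA hg (by omega)]; simp
  · rfl

private lemma F4_Icc (n : ℕ) : Finset.Icc 1 n = Finset.Ioc 0 n := by
  ext k; simp only [Finset.mem_Icc, Finset.mem_Ioc]; omega

private lemma F4_cs_add {T α1 α2 A : ℝ} (hT : 1 < T) (hA : 0 < A) {g : ℝ → ℝ}
    (hg : ∀ x, g x ≠ 0 → α1 ≤ x ∧ x ≤ α2) (F : ℝ → ℂ) (dl h s : ℕ) (sg : ℤ) {a b : ℕ}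
    (hab : a ≤ b) :
    cs F g T A dl h s sg (Finset.Icc 1 b) = cs F g T A dl h s sg (Finset.Icc 1 a) +
      cs F g T A dl h s sg (Finset.Ioc a b) := by
  rw [F4_cs_eq hT hA hg, F4_cs_eq hT hA hg, F4_cs_eq hT hA hg, ← Finset.sum_add_distrib]
  apply Finset.sum_congr rfl
  intro c _
  split_ifs with hh
  · rw [F4_Icc, F4_Icc, ← Finset.sum_Ioc_consecutive _ (Nat.zero_le a) hab, mul_add]
  · simp

private lemma F4_blocks {T α1 α2 A : ℝ} (hT : 1 < T) (hA : 0 < A) {g : ℝ → ℝ}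
    (hg : ∀ x, g x ≠ 0 → α1 ≤ x ∧ x ≤ α2) (F : ℝ → ℂ) (dl h s : ℕ) (sg : ℤ) {K0 B1 B2 : ℝ}
    (hK0 : 0 < K0) (h1 : ‖cs F g T A dl h s sg (Finset.Icc 1 ⌊K0⌋₊)‖ ≤ B1) :
    ∀ J : ℕ, (∀ j < J, ‖cs F g T A dl h s sg (Finset.Ioc ⌊2 ^ j * K0⌋₊ ⌊2 * (2 ^ j * K0)⌋₊)‖ ≤ B2) →
      ‖cs F g T A dl h s sg (Finset.Icc 1 ⌊2 ^ J * K0⌋₊)‖ ≤ B1 + J * B2 := by
  intro J
  induction J with
  | zero => intro _; simpa using h1
  | succ J ih =>
    intro hJ
    have e1 := ih (fun j hj => hJ j (by omega))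
    have e2 := hJ J (by omega)
    have e3 : (2:ℝ) ^ (J + 1) * K0 = 2 * (2 ^ J * K0) := by ring
    rw [e3, F4_cs_add hT hA hg F dl h s sg (a := ⌊2 ^ J * K0⌋₊)
      (Nat.floor_mono (by have : (0:ℝ) < 2 ^ J * K0 := by positivity
                          linarith))]
    refine (norm_add_le _ _).trans ((add_le_add e1 e2).trans (le_of_eq ?_))
    push_cast
    ring

private lemma F4_tsum (f : ℕ → ℂ) (hf : Summable fun k : ℕ => ‖f (k + 1)‖) (K : ℕ) :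
    ∑' k : ℕ, f (k + 1) = ∑ k ∈ Finset.Icc 1 K, f k + ∑' k : ℕ, f (K + k + 1) := by
  have hsum : Summable fun k : ℕ => f (k + 1) := hf.of_norm
  have e1 := hsum.sum_add_tsum_nat_add K
  have e2 : ∑ k ∈ Finset.Icc 1 K, f k = ∑ i ∈ Finset.range K, f (i + 1) := by
    rw [Finset.range_eq_Ico, Finset.sum_Ico_add' f 0 K 1]
    apply Finset.sum_congr _ (fun _ _ => rfl)
    ext k; simp only [Finset.mem_Ico, Finset.mem_Icc]; omega
  rw [e2, ← e1]
  congr 1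
  apply tsum_congr
  intro k
  rw [add_comm k K]

private lemma F4_split {T α1 α2 A : ℝ} (hT : 1 < T) (hA : 0 < A) {g : ℝ → ℝ}
    (hg : ∀ x, g x ≠ 0 → α1 ≤ x ∧ x ≤ α2) (F : ℝ → ℂ) (dl h s : ℕ) (sg : ℤ)
    (hs : ∀ c : ℕ, 0 < c → Summable fun k : ℕ => ‖tm F dl h sg c (k + 1)‖) (K : ℕ) :
    ‖∑' c : ℕ, (if 0 < c ∧ s ∣ c ∧ Nat.Coprime c h then
      (g (Real.log (A * c) / Real.log T) : ℂ) * ∑' k : ℕ, tm F dl h sg c (k + 1) else 0)‖ ≤
    ‖cs F g T A dl h s sg (Finset.Icc 1 K)‖ +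
    ∑' c : ℕ, (if 0 < c ∧ s ∣ c ∧ Nat.Coprime c h then
      |g (Real.log (A * c) / Real.log T)| * ∑' k : ℕ, ‖tm F dl h sg c (K + k + 1)‖ else 0) := by
  rw [F4_cs_eq hT hA hg,
    tsum_eq_sum (s := Finset.range (⌊T ^ α2 / A⌋₊ + 1)) (f := fun c : ℕ =>
      (if 0 < c ∧ s ∣ c ∧ Nat.Coprime c h then
      (g (Real.log (A * c) / Real.log T) : ℂ) * ∑' k : ℕ, tm F dl h sg c (k + 1) else 0)),
    tsum_eq_sum (s := Finset.range (⌊T ^ α2 / A⌋₊ + 1)) (f := fun c : ℕ =>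
      (if 0 < c ∧ s ∣ c ∧ Nat.Coprime c h then
      |g (Real.log (A * c) / Real.log T)| * ∑' k : ℕ, ‖tm F dl h sg c (K + k + 1)‖ else 0))]
  · refine le_trans (le_of_eq ?_) ((norm_add_le _ (∑ c ∈ Finset.range (⌊T ^ α2 / A⌋₊ + 1),
      (if 0 < c ∧ s ∣ c ∧ Nat.Coprime c h then
      (g (Real.log (A * c) / Real.log T) : ℂ) * ∑' k : ℕ, tm F dl h sg c (K + k + 1) else 0))).trans
      (add_le_add le_rfl ?_))
    · congr 1
      rw [← Finset.sum_add_distrib]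
      apply Finset.sum_congr rfl
      intro c _
      split_ifs with hh
      · rw [← mul_add]
        congr 1
        exact F4_tsum _ (hs c hh.1) K
      · simp
    · refine (norm_sum_le _ _).trans (Finset.sum_le_sum ?_)
      intro c _
      split_ifs with hh
      · rw [norm_mul, Complex.norm_real, Real.norm_eq_abs]
        apply mul_le_mul_of_nonneg_left _ (abs_nonneg _)
        apply norm_tsum_le_tsum_norm
        have := (summable_nat_add_iff K).2 (hs c hh.1)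
        refine this.congr ?_
        intro k
        rw [add_comm K k]
      · simp
  · intro c hc
    rw [Finset.mem_range, not_lt] at hc
    split_ifs with hh
    · rw [F4_g_zero hT hA hg (by omega)]; simp
    · rfl
  · intro c hc
    rw [Finset.mem_range, not_lt] at hc
    split_ifs with hh
    · rw [F4_g_zero hT hA hg (by omega)]; simp
    · rfl

private lemma F4_WW_nonneg (N : ℕ) (R : ℝ) : 0 ≤ WW N R := by
  unfold WW
  apply Finset.sum_nonneg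
  intro c _
  positivity

/-- **F4. Core estimate** (assembly of F1, F2, F3), `Cp = T^α2/A`, `Y₀ = h Cp²/T`, `K_j = 2^j max(Y₀,1/2)`,
`K_max = h Cp² T^{-5ε}`. The sum over `k` is: `k ≤ Y₀` (F1; empty if `Y₀ < 1`), the blocks `K_j < k ≤ K_{j+1}` with
`K_j ≤ K_max` (F2; if `Y₀ < 1/2` the first block starts at `⌊1/2⌋ = 0`, if `1/2 ≤ Y₀ < 1` at `⌊Y₀⌋ = 0`), and the tail after the
last block, `K ≥ K_max` (F3: `√h Cp³ K_max^{-1/2} T^{-1/2}/s = Cp² T^{-1/2+5ε/2}/s`); if `K_max < max(Y₀,1/2)` there are no blocks: then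
`h Cp² < T^{5ε}` (as `Y₀ > K_max` is impossible), `Y₀ < 1`, the tail starts at `k = 1` and
`√h Cp³ ≤ T^{5ε/2} Cp²`. `∑_j (Y₀/K_j) √(1+K_j/N) ≤ C √(1+Y₀/N) log T`, `N = h s`, `Y₀/N = Cp²/(T s)`: indeed
`(Y₀/K) √(1+K/N) ≤ √(1+Y₀/N)` for `K ≥ Y₀`. -/
theorem core {ε : ℝ} (hε : 0 < ε) (hε1 : ε ≤ 1 / 100) (M : ℕ → ℝ) : ∃ C T₀ : ℝ, 0 < C ∧
    ∀ T ≥ T₀, ∀ (F : ℝ → ℂ) (kp km : ℝ → ℂ) (κ0 : ℂ), KD T ε F kp km κ0 →
    ∀ h s dl : ℕ, 0 < h → 0 < s → 0 < dl → Nat.Coprime h s → (h : ℝ) ≤ T → (s : ℝ) ≤ T →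
    (dl : ℝ) ≤ T ^ 2 → ∀ α1 α2 A : ℝ, 0 ≤ α1 → α1 ≤ α2 → α2 ≤ 1 → α2 - α1 ≤ ε → T⁻¹ ≤ A → A ≤ T ^ 3 →
    ∀ g : ℝ → ℝ, ContDiff ℝ (⊤ : ℕ∞) g → (∀ x, g x ≠ 0 → α1 ≤ x ∧ x ≤ α2) →
    (∀ n x, |iteratedDeriv n g x| ≤ M n) → ∀ sg : ℤ, (sg = 1 ∨ sg = -1) →
    ‖∑' c : ℕ, (if 0 < c ∧ s ∣ c ∧ Nat.Coprime c h then
      (g (Real.log (A * c) / Real.log T) : ℂ) * ∑' k : ℕ, tm F dl h sg c (k + 1) else 0)‖ ≤
      C * T ^ (20 * ε) * (T ^ (1 / 2 : ℝ) *
        √((1 + (T ^ α2 / A) ^ 2 / (T * s)) * (1 + WW (h * s) T)) +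
        T ^ (-1 / 2 : ℝ) * (T ^ α2 / A) ^ 2 / s + 1) := by
  obtain ⟨C1, T1, hC1, H1⟩ := blk_half hε hε1 M
  obtain ⟨C2, T2, hC2, H2⟩ := blk_dyad hε hε1 M
  obtain ⟨C3, T3, hC3, H3⟩ := blk_tail hε hε1 (M0 := M 0)
  refine ⟨C1 + C2 * (2 + 8 / ε) + C3, max (max T1 T2) (max T3 2), by positivity, ?_⟩
  intro T hT F kp km κ0 hF h s dl hh hs hdl hcop hhT hsT hdlT α1 α2 A hα1 hα12 hα2 hαε hA1 hA2 g hgs
    hg hgM sg hsg
  have hT1 : T1 ≤ T := ((le_max_left _ _).trans (le_max_left _ _)).trans hT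
  have hT2 : T2 ≤ T := ((le_max_right _ _).trans (le_max_left _ _)).trans hT
  have hT3 : T3 ≤ T := ((le_max_left _ _).trans (le_max_right _ _)).trans hT
  have hT4 : 2 ≤ T := ((le_max_right _ _).trans (le_max_right _ _)).trans hT
  have hT0 : 0 < T := by linarith
  have hT5 : 1 < T := by linarith
  have hA : 0 < A := lt_of_lt_of_le (inv_pos.2 hT0) hA1
  have hR1 := H1 T hT1 F kp km κ0 hF h s dl hh hs hdl hcop hhT hsT hdlT α1 α2 A hα1 hα12 hα2 hαε hA1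
    hA2 g hgs hg hgM sg hsg
  have hR2 := H2 T hT2 F kp km κ0 hF h s dl hh hs hdl hcop hhT hsT hdlT α1 α2 A hα1 hα12 hα2 hαε hA1
    hA2 g hgs hg hgM sg hsg
  have hR3 := H3 T hT3 F kp km κ0 hF h s dl hh hs hdl hhT hsT hdlT α1 α2 A hα1 hα12 hα2 hA1 hA2 g hg
    (fun x => by simpa using hgM 0 x) sg
  have htms := fun (c : ℕ) (hc : 0 < c) => tm_summable hF (c := c) sg hdl hh hc
  clear H1 H2 H3 hF
  set X : ℝ := T ^ α2 / A with hXdef
  have hX0 : 0 < X := by positivity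
  have hX1 : X ≤ T ^ 2 := by
    rw [hXdef, div_le_iff₀ hA]
    have e1 : T ^ α2 ≤ T := by
      calc T ^ α2 ≤ T ^ (1:ℝ) := Real.rpow_le_rpow_of_exponent_le hT5.le hα2
        _ = T := Real.rpow_one T
    have e2 : T = T ^ 2 * T⁻¹ := by field_simp
    calc T ^ α2 ≤ T := e1
      _ = T ^ 2 * T⁻¹ := e2
      _ ≤ T ^ 2 * A := by gcongr
  have hh0 : (0:ℝ) < h := by exact_mod_cast hh
  have hs0 : (0:ℝ) < s := by exact_mod_cast hs
  set Y : ℝ := h * X ^ 2 / T with hYdef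
  have hY0 : 0 < Y := by positivity
  set K0 : ℝ := max Y (1 / 2) with hK0def
  have hK0a : Y ≤ K0 := le_max_left _ _
  have hK0b : 1 / 2 ≤ K0 := le_max_right _ _
  have hK00 : 0 < K0 := by linarith
  have hfloor : ⌊K0⌋₊ = ⌊Y⌋₊ := by
    rcases le_total (1 / 2) Y with h1 | h1
    · rw [hK0def, max_eq_left h1]
    · rw [hK0def, max_eq_right h1]
      have e1 : ⌊(1 / 2 : ℝ)⌋₊ = 0 := by
        rw [Nat.floor_eq_zero]; norm_num
      have e2 : ⌊Y⌋₊ = 0 := by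
        rw [Nat.floor_eq_zero]; linarith
      rw [e1, e2]
  set Km : ℝ := h * X ^ 2 * T ^ (-5 * ε) with hKmdef
  have hKm0 : 0 < Km := by positivity
  have hhX : h * X ^ 2 ≤ T ^ 5 := by
    calc h * X ^ 2 ≤ T * (T ^ 2) ^ 2 := by gcongr
      _ = T ^ 5 := by ring
  have hKm1 : Km ≤ T ^ 5 := by
    have e1 : T ^ (-5 * ε) ≤ 1 := Real.rpow_le_one_of_one_le_of_nonpos hT5.le (by linarith)
    calc Km ≤ h * X ^ 2 * 1 := by rw [hKmdef]; gcongr
      _ ≤ T ^ 5 := by linarith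
  have hex : ∃ J : ℕ, Km < 2 ^ J * K0 := by
    obtain ⟨J, hJ⟩ := pow_unbounded_of_one_lt (Km / K0) (one_lt_two (α := ℝ))
    exact ⟨J, by rwa [div_lt_iff₀ hK00] at hJ⟩
  classical
  set J := Nat.find hex with hJdef
  have hJ1 : Km < 2 ^ J * K0 := Nat.find_spec hex
  have hJ2 : ∀ j < J, 2 ^ j * K0 ≤ Km := by
    intro j hj
    have := Nat.find_min hex hj
    linarith [not_lt.1 this]
  have hTε : 1 ≤ T ^ ε := Real.one_le_rpow hT5.le hε.le
  have hJ3 : (J : ℝ) ≤ (2 + 8 / ε) * T ^ ε := by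
    rcases Nat.eq_zero_or_pos J with h0 | h0
    · rw [h0]; simp; positivity
    · have e1 := hJ2 (J - 1) (by omega)
      have e2 : (2:ℝ) ^ (J - 1) * (1 / 2) ≤ T ^ 5 := by
        calc (2:ℝ) ^ (J - 1) * (1 / 2) ≤ 2 ^ (J - 1) * K0 := by gcongr
          _ ≤ T ^ 5 := e1.trans hKm1
      have e3 : (2:ℝ) ^ (J - 1) ≤ 2 * T ^ 5 := by linarith
      have e4 : Real.log ((2:ℝ) ^ (J - 1)) ≤ Real.log (2 * T ^ 5) := Real.log_le_log (by positivity) e3
      rw [Real.log_pow, Real.log_mul (by norm_num) (by positivity), Real.log_pow,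
        Nat.cast_sub (by omega)] at e4
      push_cast at e4
      have l2 := Real.log_two_gt_d9
      have lT : Real.log T ≤ T ^ ε / ε := Real.log_le_rpow_div hT0.le hε
      have lT0 : 0 < Real.log T := Real.log_pos hT5
      have e5 : ((J:ℝ) - 2) * Real.log 2 ≤ 5 * Real.log T := by linarith
      have e6 : (J:ℝ) - 2 ≤ 8 * Real.log T := by
        by_contra hcon
        rw [not_le] at hcon
        have h1 : 8 * Real.log T * Real.log 2 < ((J:ℝ) - 2) * Real.log 2 :=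
          mul_lt_mul_of_pos_right hcon (by linarith only [l2])
        have h2 : 8 * Real.log T * (5 / 8) ≤ 8 * Real.log T * Real.log 2 :=
          mul_le_mul_of_nonneg_left (by linarith only [l2]) (by linarith only [lT0])
        linarith only [h1, h2, e5]
      calc (J:ℝ) ≤ 2 + 8 * Real.log T := by linarith
        _ ≤ 2 * T ^ ε + 8 * (T ^ ε / ε) := by linarith
        _ = (2 + 8 / ε) * T ^ ε := by ring
  have hW := F4_WW_nonneg (h * s) T
  set W : ℝ := WW (h * s) T with hWdef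
  set R : ℝ := T ^ (1 / 2 : ℝ) * √((1 + X ^ 2 / (T * s)) * (1 + W)) with hRdef
  have hR0 : 0 ≤ R := by positivity
  -- blocks
  have hT10 : 0 < T ^ (10 * ε) := by positivity
  have hblk : ∀ j < J, ‖cs F g T A dl h s sg (Finset.Ioc ⌊2 ^ j * K0⌋₊ ⌊2 * (2 ^ j * K0)⌋₊)‖ ≤
      C2 * T ^ (10 * ε) * (R + 1) := by
    intro j hj
    set K : ℝ := 2 ^ j * K0 with hKdef
    have hpow : (1:ℝ) ≤ 2 ^ j := one_le_pow₀ (by norm_num)
    have hK0K : K0 ≤ K := le_mul_of_one_le_left hK00.le hpow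
    have hK1 : 1 / 2 ≤ K := by linarith
    have hK2 : Y ≤ K := by linarith
    have hKpos : 0 < K := by linarith
    refine (hR2 K hK1 hK2 (hJ2 j hj)).trans ?_
    apply mul_le_mul_of_nonneg_left _ (by positivity)
    apply add_le_add
    · rw [hRdef, mul_assoc]
      apply mul_le_mul_of_nonneg_left _ (by positivity)
      have e0 : h * X ^ 2 / T / K = Y / K := rfl
      rw [e0]
      have e1 : Y / K * √((1 + K / (h * s)) * (1 + W)) =
          √((Y / K) ^ 2 * ((1 + K / (h * s)) * (1 + W))) := by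
        rw [Real.sqrt_mul (sq_nonneg (Y / K)), Real.sqrt_sq (by positivity)]
      rw [e1]
      apply Real.sqrt_le_sqrt
      rw [← mul_assoc]
      apply mul_le_mul_of_nonneg_right _ (by positivity)
      have e2 : X ^ 2 / (T * s) = Y / (h * s) := by
        rw [hYdef]; field_simp
      rw [e2]
      have e3 : (Y / K) ^ 2 * (1 + K / (h * s)) = (Y / K) ^ 2 + (Y / K) * (Y / (h * s)) := by
        field_simp
      rw [e3]
      have e4 : Y / K ≤ 1 := by rw [div_le_one hKpos]; exact hK2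
      have e5 : 0 ≤ Y / K := by positivity
      have e6 : 0 ≤ Y / (h * s) := by positivity
      exact add_le_add (pow_le_one₀ e5 e4) (mul_le_of_le_one_left e6 e4)
    · rw [Real.rpow_neg_one]
      exact inv_le_one_of_one_le₀ hT5.le
  have hB1 : ‖cs F g T A dl h s sg (Finset.Icc 1 ⌊K0⌋₊)‖ ≤ C1 * T ^ (10 * ε) * (R + 1) := by
    rw [hfloor]; exact hR1
  have hcs := F4_blocks hT5 hA hg F dl h s sg hK00 hB1 J hblk
  -- the tail
  set K : ℕ := ⌊2 ^ J * K0⌋₊ with hKdef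
  have hK1 : Km < K + 1 := hJ1.trans (Nat.lt_floor_add_one _)
  have hY1 : Y ≤ T ^ 5 := by
    rw [hYdef, div_le_iff₀ hT0]
    exact hhX.trans (le_mul_of_one_le_right (by positivity) hT5.le)
  have hT5a : (2:ℝ) ≤ T ^ 5 := by
    calc (2:ℝ) ≤ T := hT4
      _ = T ^ 1 := (pow_one T).symm
      _ ≤ T ^ 5 := pow_le_pow_right₀ hT5.le (by norm_num)
  have hK2 : (K : ℝ) ≤ T ^ 10 := by
    have e1 : (K:ℝ) ≤ 2 ^ J * K0 := Nat.floor_le (by positivity)
    have e2 : 2 ^ J * K0 ≤ 2 * T ^ 5 := by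
      rcases Nat.eq_zero_or_pos J with h0 | h0
      · rw [h0, pow_zero, one_mul, hK0def]
        apply max_le <;> linarith
      · have e1 := hJ2 (J - 1) (by omega)
        have e3 : (2:ℝ) ^ J = 2 * 2 ^ (J - 1) := by
          rw [← pow_succ']; congr 1; omega
        rw [e3]
        linarith
    have e3 : 2 * T ^ 5 ≤ T ^ 5 * T ^ 5 := mul_le_mul_of_nonneg_right hT5a (by positivity)
    calc (K:ℝ) ≤ 2 * T ^ 5 := e1.trans e2
      _ ≤ T ^ 5 * T ^ 5 := e3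
      _ = T ^ 10 := by ring
  have htail := hR3 K hK2
  have hsplit := F4_split hT5 hA hg F dl h s sg htms K
  have htail2 : C3 * T ^ (5 * ε) * (T ^ (-1 / 2 : ℝ) * √h * X ^ 3 / s / √(K + 1)) ≤
      C3 * T ^ (20 * ε) * (T ^ (-1 / 2 : ℝ) * X ^ 2 / s) := by
    have e1 : √h * X ≤ T ^ (5 / 2 * ε) * √(K + 1) := by
      have e2 : √h * X = √(h * X ^ 2) := by
        rw [Real.sqrt_mul hh0.le, Real.sqrt_sq hX0.le]
      have e3 : T ^ (5 / 2 * ε) * √(K + 1) = √(T ^ (5 * ε) * (K + 1)) := by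
        rw [Real.sqrt_mul (by positivity)]
        congr 1
        rw [Real.sqrt_eq_rpow, ← Real.rpow_mul hT0.le]
        congr 1; ring
      rw [e2, e3]
      apply Real.sqrt_le_sqrt
      have e4 : h * X ^ 2 = T ^ (5 * ε) * Km := by
        rw [hKmdef]
        have : T ^ (5 * ε) * T ^ (-5 * ε) = 1 := by
          rw [← Real.rpow_add hT0]; simp
        calc h * X ^ 2 = h * X ^ 2 * (T ^ (5 * ε) * T ^ (-5 * ε)) := by rw [this, mul_one]
          _ = _ := by ring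
      rw [e4]
      gcongr
    have hsq : 0 < √((K:ℝ) + 1) := by positivity
    have e5 : √h * X ^ 3 / √(K + 1) ≤ T ^ (5 / 2 * ε) * X ^ 2 := by
      rw [div_le_iff₀ hsq]
      calc √h * X ^ 3 = (√h * X) * X ^ 2 := by ring
        _ ≤ (T ^ (5 / 2 * ε) * √(K + 1)) * X ^ 2 := by gcongr
        _ = _ := by ring
    calc C3 * T ^ (5 * ε) * (T ^ (-1 / 2 : ℝ) * √h * X ^ 3 / s / √(K + 1))
        = C3 * T ^ (5 * ε) * (T ^ (-1 / 2 : ℝ) * (√h * X ^ 3 / √(K + 1)) / s) := by ring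
      _ ≤ C3 * T ^ (5 * ε) * (T ^ (-1 / 2 : ℝ) * (T ^ (5 / 2 * ε) * X ^ 2) / s) := by gcongr
      _ = C3 * (T ^ (5 * ε) * T ^ (5 / 2 * ε)) * (T ^ (-1 / 2 : ℝ) * X ^ 2 / s) := by ring
      _ ≤ C3 * T ^ (20 * ε) * (T ^ (-1 / 2 : ℝ) * X ^ 2 / s) := by
        rw [← Real.rpow_add hT0]
        gcongr
        · exact hT5.le
        · linarith
  have hTa : T ^ (10 * ε) ≤ T ^ (20 * ε) :=
    Real.rpow_le_rpow_of_exponent_le hT5.le (by linarith)
  have hTb : T ^ ε * T ^ (10 * ε) ≤ T ^ (20 * ε) := by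
    rw [← Real.rpow_add hT0]
    exact Real.rpow_le_rpow_of_exponent_le hT5.le (by linarith)
  have hT20 : 0 < T ^ (20 * ε) := by positivity
  set E : ℝ := T ^ (-1 / 2 : ℝ) * X ^ 2 / s with hEdef
  have hE0 : 0 ≤ E := by positivity
  have hJB : J * (C2 * T ^ (10 * ε) * (R + 1)) ≤ C2 * (2 + 8 / ε) * T ^ (20 * ε) * (R + 1) := by
    calc J * (C2 * T ^ (10 * ε) * (R + 1)) ≤
        ((2 + 8 / ε) * T ^ ε) * (C2 * T ^ (10 * ε) * (R + 1)) := by gcongr
      _ = C2 * (2 + 8 / ε) * (T ^ ε * T ^ (10 * ε)) * (R + 1) := by ring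
      _ ≤ C2 * (2 + 8 / ε) * T ^ (20 * ε) * (R + 1) := by gcongr
  calc _ ≤ _ := hsplit
    _ ≤ (C1 * T ^ (10 * ε) * (R + 1) + J * (C2 * T ^ (10 * ε) * (R + 1))) +
        C3 * T ^ (20 * ε) * E := add_le_add hcs (htail.trans htail2)
    _ ≤ (C1 * T ^ (20 * ε) * (R + 1) + C2 * (2 + 8 / ε) * T ^ (20 * ε) * (R + 1)) +
        C3 * T ^ (20 * ε) * E := by
          refine add_le_add (add_le_add ?_ hJB) le_rfl
          gcongr
    _ ≤ (C1 + C2 * (2 + 8 / ε) + C3) * T ^ (20 * ε) * (R + E + 1) := by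
          have e1 : (C1 + C2 * (2 + 8 / ε) + C3) * T ^ (20 * ε) * (R + E + 1) -
            ((C1 * T ^ (20 * ε) * (R + 1) + C2 * (2 + 8 / ε) * T ^ (20 * ε) * (R + 1)) +
            C3 * T ^ (20 * ε) * E) = T ^ (20 * ε) * ((C1 + C2 * (2 + 8 / ε)) * E + C3 * (R + 1)) := by
              ring
          have e2 : 0 ≤ T ^ (20 * ε) * ((C1 + C2 * (2 + 8 / ε)) * E + C3 * (R + 1)) := by positivity
          linarith

end SG

end

section

namespace SG
open Complex MeasureTheory Filter Topology Set S6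
open scoped Real ComplexConjugate

/-- one summand of `final_sum` -/
noncomputable def J1_t (ε α2 T : ℝ) (m n g dl : ℕ) : ℝ :=
  T ^ (20 * ε) * (T ^ (1 / 2 : ℝ) *
        √((1 + (T ^ α2 / (((g * dl : ℕ) : ℝ) / m)) ^ 2 / (T * (m / Nat.gcd m (g * dl) : ℕ))) *
          (1 + WW (n / g * (m / Nat.gcd m (g * dl))) T)) +
        T ^ (-1 / 2 : ℝ) * (T ^ α2 / (((g * dl : ℕ) : ℝ) / m)) ^ 2 / (m / Nat.gcd m (g * dl) : ℕ) + 1)

/-- the sum over `g` and `dl` in `final_sum` -/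
noncomputable def J1_S (ε α2 T : ℝ) (m n : ℕ) : ℝ :=
  ∑ g ∈ n.divisors, ∑ dl ∈ Finset.Icc 1 ⌊T ^ 2⌋₊, (((g * dl : ℕ) : ℝ))⁻¹ * J1_t ε α2 T m n g dl

theorem J1_t_nonneg {ε α2 T : ℝ} (hT : 0 ≤ T) (m n g dl : ℕ) : 0 ≤ J1_t ε α2 T m n g dl := by
  unfold J1_t
  positivity

theorem J1_S_nonneg {ε α2 T : ℝ} (hT : 0 ≤ T) (m n : ℕ) : 0 ≤ J1_S ε α2 T m n := by
  unfold J1_S
  refine Finset.sum_nonneg fun g _ => Finset.sum_nonneg fun dl _ => ?_
  have := J1_t_nonneg (ε := ε) (α2 := α2) hT m n g dl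
  positivity

theorem J1_restrict {f : ℕ → ℕ → ℝ} (hf : ∀ m n, 0 ≤ f m n) (N : ℕ) (X Y : ℝ) :
    ∑ m ∈ Finset.Icc 1 N, ∑ n ∈ Finset.Icc 1 N, (if (m : ℝ) ≤ X ∧ (n : ℝ) ≤ Y then f m n else 0) ≤
      ∑ m ∈ Finset.Icc 1 ⌊X⌋₊, ∑ n ∈ Finset.Icc 1 ⌊Y⌋₊, f m n := by
  rw [← Finset.sum_product', ← Finset.sum_product', ← Finset.sum_filter]
  refine Finset.sum_le_sum_of_subset_of_nonneg ?_ ?_
  · intro p hp
    simp only [Finset.mem_filter, Finset.mem_product, Finset.mem_Icc] at hp ⊢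
    obtain ⟨⟨⟨h1, _⟩, h2, _⟩, h3, h4⟩ := hp
    exact ⟨⟨h1, Nat.le_floor h3⟩, h2, Nat.le_floor h4⟩
  · intro p _ _
    exact hf _ _

theorem J1_e3 (s : Bool × Bool × Bool) : |e3 s| ≤ 3 := by
  obtain ⟨a, b, c⟩ := s
  unfold e3 sg
  cases a <;> cases b <;> cases c <;> simp

theorem J1_s3 (s : Bool × Bool × Bool) : s3 s = 1 ∨ s3 s = -1 := by
  obtain ⟨a, b, c⟩ := s
  unfold s3 sg
  cases a <;> cases b <;> cases c <;> simp

theorem J1_es (i : Ix) : |es i| ≤ 3 := J1_e3 i.1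

/-- **J1. Box.** `ErrTot_eq` (with `F e = FF (-1/2) e T τ` for `|e| ≤ 3` and `F e = 0` otherwise, `C = T^{-1/2+ε}`
from `FF_bound`, `ErrX_eq`), `core` for every
`(s, m, n, g, dl)` with `h = n/g`, `s = m/(m, g dl)` (if `(h,s) ≠ 1` the sum over `c` is empty),
`A = g dl/m`, `g = fun x => H (x, log m/log T, log n/log T)` (J0); the slice is nonzero only if `m ≤ T^β2`, `n ≤ T^γ2`; then
`final_sum`. -/
theorem errOK_box {H : ℝ × ℝ × ℝ → ℝ} (hH : ContDiff ℝ (⊤ : ℕ∞) H) (hc : HasCompactSupport H)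
    {ε : ℝ} (hε : 0 < ε) (hε1 : ε ≤ 1 / 200) {α1 α2 β2 γ2 : ℝ} (h1 : 0 ≤ α1) (h2 : α1 ≤ α2)
    (h3 : α2 ≤ 1) (h4 : α2 - α1 ≤ ε) (h5 : 0 ≤ β2) (h6 : β2 ≤ 1) (h7 : 0 ≤ γ2) (h8 : γ2 ≤ 1)
    (h9 : β2 + γ2 ≤ 1 / 2 - 100 * ε) (h10 : γ2 + 2 * (α2 + β2) ≤ 3 / 2 - 100 * ε)
    (hs : ∀ p, H p ≠ 0 → α1 ≤ p.1 ∧ p.1 ≤ α2 ∧ p.2.1 ≤ β2 ∧ p.2.2 ≤ γ2)
    (hpos : ∀ p, H p ≠ 0 → 0 < p.1 ∧ p.1 < 1 ∧ 0 < p.2.1 ∧ p.2.1 < 1 ∧ 0 < p.2.2 ∧ p.2.2 < 1) :
    ErrOK H := by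
  obtain ⟨M, hM⟩ := slice_bound hH hc
  obtain ⟨C1, T1, hC1, hcore⟩ := core hε (by linarith : ε ≤ 1 / 100) M
  obtain ⟨C2, T2, hC2, hfin⟩ := final_sum hε hε1
  intro δ hδ
  obtain ⟨T3, hKD⟩ := KD_FF hδ hε (by linarith : ε ≤ 1 / 100)
  obtain ⟨T4, hEX⟩ := ErrX_eq
  refine ⟨ε / 2, max (max (max T1 T2) (max T3 T4)) (max 2 ((8 * C1 * C2) ^ (2 / ε))), by linarith, ?_⟩
  intro T hT τ hτ1 hτ2
  have hTT1 : T1 ≤ T := le_trans (le_trans (le_max_left _ _) (le_trans (le_max_left _ _) (le_max_left _ _))) hT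
  have hTT2 : T2 ≤ T := le_trans (le_trans (le_max_right _ _) (le_trans (le_max_left _ _) (le_max_left _ _))) hT
  have hTT3 : T3 ≤ T := le_trans (le_trans (le_max_left _ _) (le_trans (le_max_right _ _) (le_max_left _ _))) hT
  have hTT4 : T4 ≤ T := le_trans (le_trans (le_max_right _ _) (le_trans (le_max_right _ _) (le_max_left _ _))) hT
  have hT2 : 2 ≤ T := le_trans (le_trans (le_max_left _ _) (le_max_right _ _)) hT
  have hT5 : (8 * C1 * C2) ^ (2 / ε) ≤ T := le_trans (le_trans (le_max_right _ _) (le_max_right _ _)) hT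
  have hT1 : 1 < T := by linarith
  have hT0 : 0 < T := by linarith
  have hlogT : 0 < Real.log T := Real.log_pos hT1
  have hτ0 : 0 ≤ τ := le_trans (by positivity) hτ1
  classical
  set F : ℤ → ℝ → ℂ := fun e => if |e| ≤ 3 then FF (-1 / 2) e T τ else fun _ => 0 with hFdef
  have hF3 : ∀ e : ℤ, |e| ≤ 3 → F e = FF (-1 / 2) e T τ := fun e he => by
    simp only [hFdef, if_pos he]
  have hF : ∀ e x, 0 < x → ‖F e x‖ ≤ T ^ (-1 / 2 + ε) * √x := by
    intro e x hx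
    by_cases he : |e| ≤ 3
    · obtain ⟨kp, km, κ0, hK⟩ := hKD T hTT3 τ hτ1 hτ2 e he
      rw [hF3 e he]
      exact FF_bound hK x hx
    · have : F e x = 0 := by simp only [hFdef, if_neg he]
      rw [this, norm_zero]
      positivity
  have hE : ∀ q h : ℕ, 0 < q → 0 < h → Nat.Coprime h q → ErrX T τ q h =
      ∑' i : Ix, ((pr i : ℂ))⁻¹ * SIz q h i * F (es i) (h * q ^ 2 / pr i) := by
    intro q h hq hh _
    rw [(hEX T hTT4 τ hτ0 hτ2 q h hq hh).2]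
    refine tsum_congr fun i => ?_
    rw [hF3 (es i) (J1_es i)]
  have hmain := ErrTot_eq hpos hT1 F hF hE
  -- one pair `(m, n)`
  have hterm : ∀ (s : Bool × Bool × Bool) (m n : ℕ), m ∈ Finset.Icc 1 ⌊T⌋₊ → n ∈ Finset.Icc 1 ⌊T⌋₊ →
      ‖∑ g ∈ n.divisors, ∑ dl ∈ Finset.Icc 1 ⌊T ^ 2⌋₊, (if Nat.Coprime dl (n / g) then
        (((g * dl : ℕ) : ℂ))⁻¹ * ∑' c : ℕ, (if 0 < c ∧ m / Nat.gcd m (g * dl) ∣ c ∧
            Nat.Coprime c (n / g) then
          (H (Real.log (((g * dl : ℕ) : ℝ) / m * c) / Real.log T, Real.log m / Real.log T,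
            Real.log n / Real.log T) : ℂ) *
          ∑' k : ℕ, tm (F (e3 s)) dl (n / g) (s3 s) c (k + 1) else 0) else 0)‖ ≤
      if (m : ℝ) ≤ T ^ β2 ∧ (n : ℝ) ≤ T ^ γ2 then C1 * J1_S ε α2 T m n else 0 := by
    intro s m n hm hn
    rw [Finset.mem_Icc] at hm hn
    have hm0 : (0 : ℝ) < m := by exact_mod_cast hm.1
    have hn0 : (0 : ℝ) < n := by exact_mod_cast hn.1
    have hmT : (m : ℝ) ≤ T := (Nat.le_floor_iff hT0.le).mp hm.2
    have hnT : (n : ℝ) ≤ T := (Nat.le_floor_iff hT0.le).mp hn.2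
    split_ifs with hmn
    · unfold J1_S
      rw [Finset.mul_sum]
      refine (norm_sum_le _ _).trans (Finset.sum_le_sum fun g hg => ?_)
      rw [Finset.mul_sum]
      refine (norm_sum_le _ _).trans (Finset.sum_le_sum fun dl hdl => ?_)
      have hgn : g ∣ n := Nat.dvd_of_mem_divisors hg
      have hg0 : 0 < g := Nat.pos_of_dvd_of_pos hgn hn.1
      rw [Finset.mem_Icc] at hdl
      have hdl0 : 0 < dl := hdl.1
      have hdlT : (dl : ℝ) ≤ T ^ 2 := (Nat.le_floor_iff (by positivity)).mp hdl.2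
      have hgdl : (0 : ℝ) < ((g * dl : ℕ) : ℝ) := by exact_mod_cast Nat.mul_pos hg0 hdl0
      have htn := J1_t_nonneg (ε := ε) (α2 := α2) hT0.le m n g dl
      have hrhs : 0 ≤ C1 * ((((g * dl : ℕ) : ℝ))⁻¹ * J1_t ε α2 T m n g dl) := by positivity
      split_ifs with hcop
      swap
      · rw [norm_zero]; exact hrhs
      rw [norm_mul, norm_inv, Complex.norm_natCast, ← mul_assoc, mul_comm C1, mul_assoc]
      refine mul_le_mul_of_nonneg_left ?_ (inv_nonneg.mpr hgdl.le)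
      have hh0 : 0 < n / g := Nat.div_pos (Nat.le_of_dvd hn.1 hgn) hg0
      have hs0 : 0 < m / Nat.gcd m (g * dl) :=
        Nat.div_pos (Nat.le_of_dvd hm.1 (Nat.gcd_dvd_left _ _)) (Nat.gcd_pos_of_pos_left _ hm.1)
      by_cases hhs : Nat.Coprime (n / g) (m / Nat.gcd m (g * dl))
      swap
      · -- the sum is empty
        have hz : ∀ c : ℕ, (if 0 < c ∧ m / Nat.gcd m (g * dl) ∣ c ∧ Nat.Coprime c (n / g) then
          (H (Real.log (((g * dl : ℕ) : ℝ) / m * c) / Real.log T, Real.log m / Real.log T,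
            Real.log n / Real.log T) : ℂ) *
          ∑' k : ℕ, tm (F (e3 s)) dl (n / g) (s3 s) c (k + 1) else 0) = 0 := by
          intro c
          rw [if_neg]
          rintro ⟨_, hd, hco⟩
          exact hhs (Nat.Coprime.coprime_dvd_left hd hco).symm
        rw [tsum_congr hz, tsum_zero, norm_zero]
        positivity
      obtain ⟨kp, km, κ0, hK⟩ := hKD T hTT3 τ hτ1 hτ2 (e3 s) (J1_e3 s)
      obtain ⟨hgs, hgM⟩ := hM (Real.log m / Real.log T) (Real.log n / Real.log T)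
      have hhT : ((n / g : ℕ) : ℝ) ≤ T := le_trans (by exact_mod_cast Nat.div_le_self n g) hnT
      have hsT : ((m / Nat.gcd m (g * dl) : ℕ) : ℝ) ≤ T :=
        le_trans (by exact_mod_cast Nat.div_le_self m _) hmT
      have hA1 : T⁻¹ ≤ ((g * dl : ℕ) : ℝ) / m := by
        have h1le : (1 : ℝ) ≤ ((g * dl : ℕ) : ℝ) := by exact_mod_cast Nat.mul_pos hg0 hdl0
        calc T⁻¹ ≤ (m : ℝ)⁻¹ := inv_anti₀ hm0 hmT
          _ = 1 / m := (one_div _).symm
          _ ≤ ((g * dl : ℕ) : ℝ) / m := div_le_div_of_nonneg_right h1le hm0.le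
      have hA2 : ((g * dl : ℕ) : ℝ) / m ≤ T ^ 3 := by
        have hm1 : (1 : ℝ) ≤ m := by exact_mod_cast hm.1
        have hgT : (g : ℝ) ≤ T := le_trans (by exact_mod_cast Nat.le_of_dvd hn.1 hgn) hnT
        calc ((g * dl : ℕ) : ℝ) / m ≤ ((g * dl : ℕ) : ℝ) := div_le_self hgdl.le hm1
          _ = (g : ℝ) * dl := by push_cast; ring
          _ ≤ T * T ^ 2 := mul_le_mul hgT hdlT (by positivity) hT0.le
          _ = T ^ 3 := by ring
      have hc := hcore T hTT1 (F (e3 s)) kp km κ0 (by rw [hF3 _ (J1_e3 s)]; exact hK) (n / g)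
        (m / Nat.gcd m (g * dl)) dl hh0 hs0 hdl0 hhs hhT hsT hdlT α1 α2 (((g * dl : ℕ) : ℝ) / m) h1 h2 h3 h4
        hA1 hA2 (fun x => H (x, Real.log m / Real.log T, Real.log n / Real.log T)) hgs
        (fun x hx => ⟨(hs _ hx).1, (hs _ hx).2.1⟩) hgM (s3 s) (J1_s3 s)
      refine hc.trans (le_of_eq ?_)
      unfold J1_t
      ring
    · -- the slice vanishes
      have hzero : ∀ x : ℝ, H (x, Real.log m / Real.log T, Real.log n / Real.log T) = 0 := by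
        intro x
        by_contra hne
        obtain ⟨_, _, hb, hg⟩ := hs _ hne
        apply hmn
        constructor
        · have hb' : Real.log m ≤ β2 * Real.log T := (div_le_iff₀ hlogT).mp hb
          rw [← Real.log_rpow hT0] at hb'
          exact (Real.log_le_log_iff hm0 (by positivity)).mp hb'
        · have hg' : Real.log n ≤ γ2 * Real.log T := (div_le_iff₀ hlogT).mp hg
          rw [← Real.log_rpow hT0] at hg'
          exact (Real.log_le_log_iff hn0 (by positivity)).mp hg'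
      rw [Finset.sum_eq_zero, norm_zero]
      intro g _
      rw [Finset.sum_eq_zero]
      intro dl _
      split_ifs with hcop
      · have hz : ∀ c : ℕ, (if 0 < c ∧ m / Nat.gcd m (g * dl) ∣ c ∧ Nat.Coprime c (n / g) then
          (H (Real.log (((g * dl : ℕ) : ℝ) / m * c) / Real.log T, Real.log m / Real.log T,
            Real.log n / Real.log T) : ℂ) *
          ∑' k : ℕ, tm (F (e3 s)) dl (n / g) (s3 s) c (k + 1) else 0) = 0 := by
          intro c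
          rw [hzero]
          simp
        rw [tsum_congr hz, tsum_zero, mul_zero]
      · rfl
  -- the sum over `m, n`
  have hone : ∀ s : Bool × Bool × Bool,
      ‖∑ m ∈ Finset.Icc 1 ⌊T⌋₊, ∑ n ∈ Finset.Icc 1 ⌊T⌋₊,
      ∑ g ∈ n.divisors, ∑ dl ∈ Finset.Icc 1 ⌊T ^ 2⌋₊, (if Nat.Coprime dl (n / g) then
        (((g * dl : ℕ) : ℂ))⁻¹ * ∑' c : ℕ, (if 0 < c ∧ m / Nat.gcd m (g * dl) ∣ c ∧
            Nat.Coprime c (n / g) then
          (H (Real.log (((g * dl : ℕ) : ℝ) / m * c) / Real.log T, Real.log m / Real.log T,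
            Real.log n / Real.log T) : ℂ) *
          ∑' k : ℕ, tm (F (e3 s)) dl (n / g) (s3 s) c (k + 1) else 0) else 0)‖ ≤
      C1 * (C2 * T ^ (1 - ε)) := by
    intro s
    calc _ ≤ ∑ m ∈ Finset.Icc 1 ⌊T⌋₊, ∑ n ∈ Finset.Icc 1 ⌊T⌋₊,
          (if (m : ℝ) ≤ T ^ β2 ∧ (n : ℝ) ≤ T ^ γ2 then C1 * J1_S ε α2 T m n else 0) := by
          refine (norm_sum_le _ _).trans (Finset.sum_le_sum fun m hm => ?_)
          refine (norm_sum_le _ _).trans (Finset.sum_le_sum fun n hn => ?_)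
          exact hterm s m n hm hn
      _ ≤ ∑ m ∈ Finset.Icc 1 ⌊T ^ β2⌋₊, ∑ n ∈ Finset.Icc 1 ⌊T ^ γ2⌋₊, C1 * J1_S ε α2 T m n :=
          J1_restrict (fun m n => mul_nonneg hC1.le (J1_S_nonneg hT0.le m n)) _ _ _
      _ = C1 * ∑ m ∈ Finset.Icc 1 ⌊T ^ β2⌋₊, ∑ n ∈ Finset.Icc 1 ⌊T ^ γ2⌋₊, J1_S ε α2 T m n := by
          rw [Finset.mul_sum]
          refine Finset.sum_congr rfl fun m _ => ?_
          rw [Finset.mul_sum]
      _ ≤ C1 * (C2 * T ^ (1 - ε)) := by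
          refine mul_le_mul_of_nonneg_left ?_ hC1.le
          exact hfin T hTT2 α2 β2 γ2 (h1.trans h2) h5 h7 h3 h6 h8 h9 h10
  rw [hmain]
  have hcard : (Finset.univ : Finset (Bool × Bool × Bool)).card = 8 := by decide
  have h8C : 8 * C1 * C2 ≤ T ^ (ε / 2) := by
    have hpos8 : 0 < 8 * C1 * C2 := by positivity
    calc 8 * C1 * C2 = ((8 * C1 * C2) ^ (2 / ε)) ^ (ε / 2) := by
          rw [← Real.rpow_mul hpos8.le]
          have : 2 / ε * (ε / 2) = 1 := by field_simp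
          rw [this, Real.rpow_one]
      _ ≤ T ^ (ε / 2) := Real.rpow_le_rpow (by positivity) hT5 (by linarith)
  calc _ ≤ ∑ s : Bool × Bool × Bool, C1 * (C2 * T ^ (1 - ε)) :=
        (norm_sum_le _ _).trans (Finset.sum_le_sum fun s _ => hone s)
    _ = 8 * C1 * C2 * T ^ (1 - ε) := by
        rw [Finset.sum_const, hcard, nsmul_eq_mul]
        push_cast
        ring
    _ ≤ T ^ (ε / 2) * T ^ (1 - ε) := mul_le_mul_of_nonneg_right h8C (by positivity)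
    _ = T ^ (1 - ε / 2) := by
        rw [← Real.rpow_add hT0]
        congr 1
        ring

end SG

end

section

namespace SG
open Complex MeasureTheory Filter Topology Set S6
open scoped Real ComplexConjugate

/-! **J5. Region.** `RegG` is open, contained in `Reg 1` (in `RegS`,
`x₁+x₂+y = (2(x₁+x₂)+y)/2 + y/2 < 3/4 + 1/4`). `GG Ψ`: as `S6.TF_GG` (S6_TF_GG.lean), also smoothness. -/

theorem Reg_open' (κ : ℝ) : IsOpen (Reg κ) := by
  simp only [Reg, ofPred_and]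
  refine IsOpen.inter ?_ (IsOpen.inter ?_ (IsOpen.inter ?_ (IsOpen.inter ?_ ?_))) <;>
    exact isOpen_lt (by fun_prop) (by fun_prop)

theorem J5_RegS_open : IsOpen RegS := by
  simp only [RegS, ofPred_and]
  refine IsOpen.inter ?_ (IsOpen.inter ?_ (IsOpen.inter ?_ (IsOpen.inter ?_ (IsOpen.inter ?_ ?_))))
    <;> exact isOpen_lt (by fun_prop) (by fun_prop)

theorem RegG_open : IsOpen RegG := (Reg_open' (3 / 2)).union J5_RegS_open

theorem RegG_sub : RegG ⊆ Reg 1 := by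
  rintro p (⟨h1, h2, h3, h4, h5⟩ | ⟨h1, h2, h3, h4, h5, h6⟩)
  · exact ⟨h1, h2, h3, by linarith, h5⟩
  · exact ⟨h1, h2, h3, by linarith, h6⟩

theorem J5_smooth {f : ℝ × ℝ × ℝ → ℝ} (hf : ContDiff ℝ (⊤ : ℕ∞) f) (v : ℝ × ℝ × ℝ) :
    ContDiff ℝ (⊤ : ℕ∞) (Dv v f) := by
  unfold Dv
  exact (hf.fderiv_right (m := ((⊤ : ℕ∞) : WithTop ℕ∞)) (by exact le_rfl)).clm_apply contDiff_const

theorem J5_cs {f : ℝ × ℝ × ℝ → ℝ} (hf : HasCompactSupport f) (v : ℝ × ℝ × ℝ) :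
    HasCompactSupport (Dv v f) := hf.fderiv_apply ℝ v

theorem J5_ts {f : ℝ × ℝ × ℝ → ℝ} (v : ℝ × ℝ × ℝ) :
    tsupport (Dv v f) ⊆ tsupport f := tsupport_fderiv_apply_subset ℝ v

theorem GG_RegG {Ψ : ℝ × ℝ × ℝ → ℝ} (h1 : ContDiff ℝ (⊤ : ℕ∞) Ψ) (h2 : HasCompactSupport Ψ)
    (h3 : tsupport Ψ ⊆ RegG) : ContDiff ℝ (⊤ : ℕ∞) (GG Ψ) ∧ HasCompactSupport (GG Ψ) ∧
      tsupport (GG Ψ) ⊆ RegG ∧ TF 1 (GG Ψ) := by
  have a : ContDiff ℝ (⊤ : ℕ∞) (GG Ψ) := by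
    unfold GG
    exact J5_smooth (J5_smooth (J5_smooth h1 _) _) _
  have b : HasCompactSupport (GG Ψ) := by
    unfold GG
    exact J5_cs (J5_cs (J5_cs h2 _) _) _
  have c : tsupport (GG Ψ) ⊆ RegG := by
    unfold GG
    exact (((J5_ts _).trans (J5_ts _)).trans (J5_ts _)).trans h3
  exact ⟨a, b, c, a.continuous, b, c.trans RegG_sub⟩

end SG

end

section

namespace SG
open Complex MeasureTheory Filter Topology Set S6
open scoped Real ComplexConjugate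

/-- **J4.** J3; for `p ∈ Reg (3/2)`: `U = Reg (3/2)` (open) and J2 (`TF (3/2) H`). For `p ∈ RegS`: choose `ε ≤ 1/200` small with slack,
`α1 = p.1 - ε/2`, `α2 = p.1 + ε/2`, `β2 = p.2.1 + ε`, `γ2 = p.2.2 + ε`, `U` the open box
`(α1,α2) × (0,β2) × (0,γ2)`, and J1. -/
theorem errOK_RegG {G : ℝ × ℝ × ℝ → ℝ} (hG : ContDiff ℝ (⊤ : ℕ∞) G) (hc : HasCompactSupport G)
    (hs : tsupport G ⊆ RegG) : ErrOK G := by
  refine errOK_local hG hc fun p hp => ?_
  rcases hs hp with h | h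
  · exact ⟨Reg (3 / 2), Reg_open' _, h, fun H hH hcH hsH => errOK_weil ⟨hH.continuous, hcH, hsH⟩⟩
  · obtain ⟨a, b, y⟩ := p
    simp only [RegS, Set.mem_ofPred_eq] at h
    obtain ⟨hb, hab, hy, h1, h2, -⟩ := h
    set u : ℝ := 1 / 2 - b - y with hu
    set v : ℝ := 3 / 2 - (2 * (a + b) + y) with hv
    have hupos : 0 < u := by rw [hu]; linarith
    have hvpos : 0 < v := by rw [hv]; linarith
    obtain ⟨ε, hε0, hε1, hε2, hε3, hε4⟩ : ∃ ε : ℝ, 0 < ε ∧ ε ≤ 1 / 200 ∧ ε ≤ u / 104 ∧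
        ε ≤ v / 104 ∧ ε ≤ a := by
      refine ⟨min (min (1 / 200) (u / 104)) (min (v / 104) a), ?_, ?_, ?_, ?_, ?_⟩
      · exact lt_min (lt_min (by norm_num) (by positivity)) (lt_min (by positivity) (by linarith))
      · exact (min_le_left _ _).trans (min_le_left _ _)
      · exact (min_le_left _ _).trans (min_le_right _ _)
      · exact (min_le_right _ _).trans (min_le_left _ _)
      · exact (min_le_right _ _).trans (min_le_right _ _)
    refine ⟨Ioo (a - ε / 2) (a + ε / 2) ×ˢ (Ioo 0 (b + ε) ×ˢ Ioo 0 (y + ε)),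
      isOpen_Ioo.prod (isOpen_Ioo.prod isOpen_Ioo), ?_, fun H hH hcH hsH => ?_⟩
    · simp only [mem_prod, mem_Ioo]
      refine ⟨⟨by linarith, by linarith⟩, ⟨by linarith, by linarith⟩, by linarith, by linarith⟩
    · have key : ∀ p, H p ≠ 0 → (a - ε / 2 < p.1 ∧ p.1 < a + ε / 2) ∧
          (0 < p.2.1 ∧ p.2.1 < b + ε) ∧ (0 < p.2.2 ∧ p.2.2 < y + ε) := fun p hp => by
        have := hsH (subset_tsupport H hp)
        simpa only [mem_prod, mem_Ioo] using this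
      refine errOK_box hH hcH hε0 hε1 (α1 := a - ε / 2) (α2 := a + ε / 2) (β2 := b + ε)
        (γ2 := y + ε) (by linarith) (by linarith) (by linarith) (by linarith) (by linarith)
        (by linarith) (by linarith) (by linarith) (by linarith) (by linarith) ?_ ?_
      · intro p hp
        obtain ⟨⟨k1, k2⟩, ⟨k3, k4⟩, k5, k6⟩ := key p hp
        exact ⟨k1.le, k2.le, k4.le, k6.le⟩
      · intro p hp
        obtain ⟨⟨k1, k2⟩, ⟨k3, k4⟩, k5, k6⟩ := key p hp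
        refine ⟨by linarith, by linarith, k3, by linarith, k5, by linarith⟩

end SG

end

section

namespace SG
open Complex MeasureTheory Filter Topology Set S6
open scoped Real ComplexConjugate Manifold

private theorem J7_ct_sub {κ : ℝ} (hκ : 1 ≤ κ) :
    Reg κ ⊆ Icc (0 : ℝ) 1 ×ˢ (Icc (0 : ℝ) 1 ×ˢ Icc (0 : ℝ) 1) := by
  rintro p ⟨h1, h2, h3, h4, -⟩
  have h5 : p.1 + p.2.1 ≤ κ * (p.1 + p.2.1) := by nlinarith
  refine ⟨⟨by linarith, by linarith⟩, ⟨by linarith, by linarith⟩, ⟨by linarith, by linarith⟩⟩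

private theorem J7_ct_PP {κ : ℝ} (hκ : 1 ≤ κ) {p : ℝ × ℝ × ℝ} (hp : p ∈ Reg κ) : PP p ^ 2 ≤ 1 := by
  obtain ⟨h1, h2, h3, h4, -⟩ := hp
  have h5 : p.1 + p.2.1 ≤ κ * (p.1 + p.2.1) := by nlinarith
  have a1 : 0 ≤ p.1 - p.2.1 := by linarith
  have a2 : p.1 - p.2.1 ≤ 1 := by linarith
  have b1 : 0 ≤ 1 - p.2.2 - p.1 := by linarith
  have b2 : 1 - p.2.2 - p.1 ≤ 1 := by linarith
  have c1 : 0 ≤ 1 - p.2.2 - p.2.1 := by linarith
  have c2 : 1 - p.2.2 - p.2.1 ≤ 1 := by linarith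
  have d1 : 0 ≤ PP p := by
    rw [PP]
    positivity
  have d2 : PP p ≤ 1 := by
    rw [PP]
    have e1 : (p.1 - p.2.1) * (1 - p.2.2 - p.1) ≤ 1 := mul_le_one₀ a2 b1 b2
    have e2 : (p.1 - p.2.1) * (1 - p.2.2 - p.1) * (1 - p.2.2 - p.2.1) ≤ 1 :=
      mul_le_one₀ e1 c1 c2
    linarith
  exact pow_le_one₀ d1 d2

private theorem J7_sub :
    RegG ⊆ Icc (0 : ℝ) 1 ×ˢ (Icc (0 : ℝ) 1 ×ˢ Icc (0 : ℝ) 1) :=
  RegG_sub.trans (J7_ct_sub le_rfl)

/-- **J7. Cutoff**, as `S6.cutoff` with `RegG` in place of `RegG` (copy of S6_cutoff.lean). -/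
theorem cutoffG {η : ℝ} (hη : 0 < η) : ∃ Ψ : ℝ × ℝ × ℝ → ℝ,
    ContDiff ℝ (⊤ : ℕ∞) Ψ ∧ HasCompactSupport Ψ ∧ tsupport Ψ ⊆ RegG ∧
    2 * (∫ p in RegG, PP p ^ 2) - η ≤ 4 * (∫ p, Ψ p * PP p) - 2 * ∫ p, Ψ p ^ 2 := by
  have hop := RegG_open
  have hbox : IsCompact (Icc (0 : ℝ) 1 ×ˢ (Icc (0 : ℝ) 1 ×ˢ Icc (0 : ℝ) 1)) :=
    isCompact_Icc.prod (isCompact_Icc.prod isCompact_Icc)
  have hfin : volume (RegG) ≠ ⊤ :=
    ((measure_mono (J7_sub)).trans_lt hbox.measure_lt_top).ne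
  obtain ⟨K, hKR, hK, hKm⟩ := hop.measurableSet.exists_isCompact_sdiff_lt hfin
    (ε := ENNReal.ofReal (η / 2)) (by simpa using hη)
  obtain ⟨L, hL, hKL, hLR⟩ := exists_compact_between hK hop hKR
  obtain ⟨χ, hχ1, hχ0, hχ⟩ := exists_contMDiffMap_one_nhds_of_subset_interior
    (n := (⊤ : ℕ∞)) 𝓘(ℝ, ℝ × ℝ × ℝ) hK.isClosed hKL
  have hχs : ContDiff ℝ (⊤ : ℕ∞) (χ : ℝ × ℝ × ℝ → ℝ) := χ.contMDiff.contDiff
  have hPPc : ContDiff ℝ (⊤ : ℕ∞) PP := by
    unfold PP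
    fun_prop
  have hsub : tsupport (fun p => χ p * PP p) ⊆ L := by
    refine closure_minimal ?_ hL.isClosed
    intro p hp
    by_contra hcon
    exact hp (by simp [hχ0 p hcon])
  have hcs : HasCompactSupport (fun p => χ p * PP p) :=
    hL.of_isClosed_subset isClosed_closure hsub
  have hsm : ContDiff ℝ (⊤ : ℕ∞) (fun p => χ p * PP p) := hχs.mul hPPc
  refine ⟨fun p => χ p * PP p, hsm, hcs, hsub.trans hLR, ?_⟩
  have i1 : Integrable (fun p => χ p * PP p * PP p) := by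
    refine (hsm.continuous.mul hPPc.continuous).integrable_of_hasCompactSupport ?_
    exact hcs.mul_right
  have i2 : Integrable (fun p => (χ p * PP p) ^ 2) := by
    have : (fun p => (χ p * PP p) ^ 2) = fun p => (χ p * PP p) * (χ p * PP p) := by
      funext p
      ring
    rw [this]
    exact (hsm.continuous.mul hsm.continuous).integrable_of_hasCompactSupport hcs.mul_right
  have iR : IntegrableOn (fun p => PP p ^ 2) (RegG) := by
    have : IntegrableOn (fun p => PP p ^ 2)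
        (Icc (0 : ℝ) 1 ×ˢ (Icc (0 : ℝ) 1 ×ˢ Icc (0 : ℝ) 1)) :=
      (hPPc.continuous.pow 2).continuousOn.integrableOn_compact hbox
    exact this.mono_set (J7_sub)
  have iK : IntegrableOn (fun p => PP p ^ 2) K := iR.mono_set hKR
  -- split off the compact set
  have hsplit : ∫ p in RegG, PP p ^ 2 =
      (∫ p in K, PP p ^ 2) + ∫ p in RegG \ K, PP p ^ 2 := by
    rw [← setIntegral_union disjoint_sdiff_right (hop.measurableSet.diff hK.measurableSet) iK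
      (iR.mono_set sdiff_subset), union_sdiff_cancel hKR]
  have hsmall : ∫ p in RegG \ K, PP p ^ 2 ≤ η / 2 := by
    have h1 : ‖∫ p in RegG \ K, PP p ^ 2‖ ≤ 1 * volume.real (RegG \ K) := by
      refine norm_setIntegral_le_of_norm_le_const (hKm.trans_le le_top) ?_
      intro p hp
      rw [Real.norm_of_nonneg (by positivity)]
      exact J7_ct_PP le_rfl (RegG_sub hp.1)
    have h2 : volume.real (RegG \ K) ≤ η / 2 := by
      rw [Measure.real]
      exact ENNReal.toReal_le_of_le_ofReal (by linarith) hKm.le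
    have h3 := (le_abs_self _).trans h1
    linarith
  have hmain : 2 * ∫ p in K, PP p ^ 2 ≤ 4 * (∫ p, χ p * PP p * PP p) -
      2 * ∫ p, (χ p * PP p) ^ 2 := by
    rw [← integral_const_mul, ← integral_const_mul, ← integral_const_mul, ← integral_sub
      (i1.const_mul 4) (i2.const_mul 2), ← integral_indicator hK.measurableSet]
    refine integral_mono ((integrable_indicator_iff hK.measurableSet).2 (iK.const_mul 2))
      ((i1.const_mul 4).sub (i2.const_mul 2)) ?_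
    intro p
    have hχp := hχ p
    have h0 : 0 ≤ χ p := hχp.1
    have h1 : χ p ≤ 1 := hχp.2
    have hsq : 0 ≤ PP p ^ 2 := sq_nonneg _
    by_cases hp : p ∈ K
    · rw [indicator_of_mem hp]
      have : χ p = 1 := hχ1.self_of_nhdsSet p hp
      simp only [this]
      nlinarith
    · rw [indicator_of_notMem hp]
      have : 4 * (χ p * PP p * PP p) - 2 * (χ p * PP p) ^ 2 =
        (2 * χ p + 2 * χ p * (1 - χ p)) * PP p ^ 2 := by ring
      show 0 ≤ 4 * (χ p * PP p * PP p) - 2 * (χ p * PP p) ^ 2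
      rw [this]
      have : 0 ≤ 1 - χ p := by linarith
      positivity
  linarith

end SG

end

section

/-!
# Row SG-Z4: `RegG` is a good region in the sense of `K3.GoodReg`
-/

namespace SG
open Complex MeasureTheory Filter Topology Set S6
open scoped Real ComplexConjugate

/-- Complex version of `I2_limG`. -/
theorem Z4_limC {G : ℝ × ℝ × ℝ → ℝ} (hG : TF 1 G) (hE : ErrOK G)
    {ν : Measure E6} (hν : Lap ν) [SFinite ν] {c₀ c₁ c₂ l₀ : ℝ}
    (hq : ∀ l ≥ l₀, QB ν G l = c₀ + c₁ * l + c₂ * l ^ 2)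
    {δ : ℝ} (hδ : 0 < δ) {τ : ℝ → ℝ} (hτ : ∀ T : ℝ, 1 ≤ T → δ * T ≤ τ T ∧ τ T ≤ T) :
    Tendsto (fun T : ℝ => I2 G T (τ T) / ((HH T * √π * Real.log T ^ 9 : ℝ) : ℂ)) atTop
      (𝓝 ((MP069854.arith 3 * (c₀ + c₁ + c₂) : ℝ) : ℂ)) := by
  obtain ⟨P, hP⟩ := dual_data
  have hP' : DualData P := hP
  obtain ⟨l₁, l₂, l₃, hl1, hl12, hl23, n1, n2, n3⟩ := three_points ν (max 60 l₀)
  have g60 : (60 : ℝ) ≤ max 60 l₀ := le_max_left _ _
  have gl0 : l₀ ≤ max 60 l₀ := le_max_right _ _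
  set A3 : ℝ := MP069854.arith 3 with hA3
  set a : ℝ → ℂ := fun T => ((Real.log T : ℝ) : ℂ)⁻¹ ^ 9 * Ac P G T with ha
  set b : ℝ → ℂ := fun T => -(((Real.log T : ℝ) : ℂ)⁻¹ ^ 8 * Bc P G T) with hb
  set c : ℝ → ℂ := fun T => ((Real.log T : ℝ) : ℂ)⁻¹ ^ 7 * Cc P G T with hc
  have key : ∀ l : ℝ, max 60 l₀ < l → ν {p | ell p = l} = 0 →
      Tendsto (fun T => a T + b T * l + c T * l ^ 2) atTop
        (𝓝 ((A3 * c₀ : ℝ) + (A3 * c₁ : ℝ) * (l : ℂ) + (A3 * c₂ : ℝ) * (l : ℂ) ^ 2)) := by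
    intro l hl hn
    have := E_side (le_refl (1 : ℝ)) hG hν hP' (by linarith : (60 : ℝ) ≤ l) hn
    rw [hq l (by linarith)] at this
    convert this using 2
    push_cast; ring
  obtain ⟨ta, tb, tc⟩ := interp hl12.ne (hl12.trans hl23).ne hl23.ne (key l₁ hl1 n1)
    (key l₂ (by linarith) n2) (key l₃ (by linarith) n3)
  -- kernel constants
  obtain ⟨η, T₀, hη, hform⟩ := I2_formulaG hG hE hP' hδ
  obtain ⟨C0, T₁, h0⟩ := K0_bound hδ
  obtain ⟨C1, T₂, h1⟩ := Ej_bound 1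
  obtain ⟨C2, T₃, h2⟩ := Ej_bound 2
  have hN : Tendsto (fun T : ℝ => HH T * √π) atTop atTop :=
    HH_tendsto.atTop_mul_const sqrt_pi_pos
  have hlog := Real.tendsto_log_atTop
  have hev : ∀ᶠ T : ℝ in atTop, Real.exp 1 ≤ T ∧ T₀ ≤ T ∧ T₁ ≤ T ∧ T₂ ≤ T ∧ T₃ ≤ T := by
    filter_upwards [eventually_ge_atTop (Real.exp 1), eventually_ge_atTop T₀, eventually_ge_atTop T₁,
      eventually_ge_atTop T₂, eventually_ge_atTop T₃] with T a b c d e
    exact ⟨a, b, c, d, e⟩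
  have facts : ∀ T : ℝ, Real.exp 1 ≤ T → 1 < T ∧ 1 ≤ Real.log T ∧ 0 < HH T ∧ 0 < HH T * √π := by
    intro T hT
    have hT1 := one_lt_of_exp hT
    have hl : 1 ≤ Real.log T := by
      rw [Real.le_log_iff_exp_le (by linarith)]; exact hT
    have hH : 0 < HH T := div_pos (by linarith) (by linarith)
    exact ⟨hT1, hl, hH, mul_pos hH sqrt_pi_pos⟩
  set e0 : ℝ → ℂ := fun T => 2 * π * Ej 0 T (τ T) / ((HH T * √π : ℝ) : ℂ) with he0
  set e1 : ℝ → ℂ := fun T => 2 * π * Ej 1 T (τ T) / ((HH T * √π * Real.log T : ℝ) : ℂ) with he1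
  set e2 : ℝ → ℂ := fun T => 2 * π * Ej 2 T (τ T) / ((HH T * √π * Real.log T ^ 2 : ℝ) : ℂ) with he2
  have t0 : Tendsto e0 atTop (𝓝 1) := by
    rw [← tendsto_sub_nhds_zero_iff, tendsto_zero_iff_norm_tendsto_zero]
    have hz : Tendsto (fun T : ℝ => C0 / (HH T * √π)) atTop (𝓝 0) := hN.const_div_atTop C0
    refine squeeze_zero' (Eventually.of_forall fun _ => norm_nonneg _) ?_ hz
    filter_upwards [hev] with T hT
    obtain ⟨hT1, hl, hH, hHp⟩ := facts T hT.1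
    obtain ⟨d1, d2⟩ := hτ T hT1.le
    obtain ⟨-, hb0⟩ := h0 T hT.2.2.1 (τ T) d1 d2
    have hHc : ((HH T * √π : ℝ) : ℂ) ≠ 0 := by exact_mod_cast hHp.ne'
    have e : e0 T - 1 = (2 * π * Ej 0 T (τ T) - ((HH T * √π : ℝ) : ℂ)) / ((HH T * √π : ℝ) : ℂ) := by
      simp only [he0]
      rw [sub_div, div_self hHc]
    rw [e, norm_div, Complex.norm_real, Real.norm_of_nonneg hHp.le]
    refine div_le_div_of_nonneg_right ?_ hHp.le
    have : Ej 0 T (τ T) = ∫ ξ : ℝ, ker T (τ T) ξ * (zz T ξ)⁻¹ := by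
      unfold Ej; simp
    rw [this]; exact hb0
  have tj : ∀ (j : ℕ), 1 ≤ j → ∀ C T' : ℝ, (∀ T ≥ T', ∀ τ, 0 ≤ τ → τ ≤ T → ‖Ej j T τ‖ ≤
      C * (HH T * √(Real.log T))) → Tendsto (fun T => 2 * π * Ej j T (τ T) /
        ((HH T * √π * Real.log T ^ j : ℝ) : ℂ)) atTop (𝓝 0) := by
    intro j hj C T' hC
    rw [tendsto_zero_iff_norm_tendsto_zero]
    have hz : Tendsto (fun T : ℝ => (2 * π * |C| / √π) * (√(Real.log T))⁻¹) atTop (𝓝 0) := by
      have := (tendsto_inv_atTop_zero.comp (Real.tendsto_sqrt_atTop.comp hlog)).const_mul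
        (2 * π * |C| / √π)
      rw [mul_zero] at this
      exact this
    refine squeeze_zero' (Eventually.of_forall fun _ => norm_nonneg _) ?_ hz
    filter_upwards [hev, eventually_ge_atTop T'] with T hT hT'
    obtain ⟨hT1, hl, hH, hHp⟩ := facts T hT.1
    obtain ⟨d1, d2⟩ := hτ T hT1.le
    have hτ0 : 0 ≤ τ T := le_trans (by positivity) d1
    have hb := hC T hT' (τ T) hτ0 d2
    have hlp : 0 < Real.log T := by linarith
    have hsp : 0 < √(Real.log T) := Real.sqrt_pos.2 hlp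
    rw [norm_div, norm_mul, norm_mul, Complex.norm_ofNat, Complex.norm_real, Complex.norm_real,
      Real.norm_of_nonneg Real.pi_pos.le, Real.norm_of_nonneg (by positivity)]
    have hjl : Real.log T ≤ Real.log T ^ j := le_self_pow₀ hl (by omega)
    calc 2 * π * ‖Ej j T (τ T)‖ / (HH T * √π * Real.log T ^ j)
        ≤ 2 * π * (|C| * (HH T * √(Real.log T))) / (HH T * √π * Real.log T) := by
          have := sqrt_pi_pos
          have hb' : ‖Ej j T (τ T)‖ ≤ |C| * (HH T * √(Real.log T)) :=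
            hb.trans (mul_le_mul_of_nonneg_right (le_abs_self C) (by positivity))
          gcongr
      _ = (2 * π * |C| / √π) * (√(Real.log T))⁻¹ := by
          have h3 : √(Real.log T) * √(Real.log T) = Real.log T := Real.mul_self_sqrt hlp.le
          have := sqrt_pi_pos
          field_simp
          rw [sq, h3]
  have t1 : Tendsto e1 atTop (𝓝 0) := by
    have := tj 1 le_rfl C1 T₂ (fun T hT τ h3 h4 => (h1 T hT τ h3 h4).2)
    simpa only [he1, pow_one] using this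
  have t2 : Tendsto e2 atTop (𝓝 0) :=
    tj 2 (by norm_num) C2 T₃ (fun T hT τ h3 h4 => (h2 T hT τ h3 h4).2)
  -- the error
  set er : ℝ → ℂ := fun T => (I2 G T (τ T) - 2 * π * ((Ac P G T - Bc P G T * Real.log T +
      Cc P G T * Real.log T ^ 2) * Ej 0 T (τ T) +
      (Bc P G T - 2 * Cc P G T * Real.log T) * Ej 1 T (τ T) + Cc P G T * Ej 2 T (τ T))) /
      ((HH T * √π * Real.log T ^ 9 : ℝ) : ℂ) with her
  have te : Tendsto er atTop (𝓝 0) := by
    rw [tendsto_zero_iff_norm_tendsto_zero]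
    have hz : Tendsto (fun T : ℝ => (√π)⁻¹ * T ^ (-η)) atTop (𝓝 0) := by
      have := (tendsto_rpow_neg_atTop hη).const_mul (√π)⁻¹
      rwa [mul_zero] at this
    refine squeeze_zero' (Eventually.of_forall fun _ => norm_nonneg _) ?_ hz
    filter_upwards [hev] with T hT
    obtain ⟨hT1, hl, hH, hHp⟩ := facts T hT.1
    obtain ⟨d1, d2⟩ := hτ T hT1.le
    have hb := hform T hT.2.1 (τ T) d1 d2
    have hTp : 0 < T := by linarith
    have hlp : 0 < Real.log T := by linarith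
    have hs := sqrt_pi_pos
    simp only [her]
    rw [norm_div, Complex.norm_real, Real.norm_of_nonneg (by positivity)]
    have h8 : 1 ≤ Real.log T ^ 8 := one_le_pow₀ hl
    calc _ ≤ T ^ (1 - η) / (HH T * √π * Real.log T ^ 9) :=
          div_le_div_of_nonneg_right hb (by positivity)
      _ = (√π)⁻¹ * T ^ (-η) / Real.log T ^ 8 := by
          have e : T ^ (1 - η) = T * T ^ (-η) := by
            rw [sub_eq_add_neg, Real.rpow_add hTp, Real.rpow_one]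
          rw [e]
          unfold HH
          field_simp
      _ ≤ (√π)⁻¹ * T ^ (-η) := div_le_self (by positivity) h8
  have hlim : Tendsto (fun T => (a T + b T + c T) * e0 T + (-b T - 2 * c T) * e1 T + c T * e2 T + er T)
      atTop (𝓝 (((A3 * c₀ : ℝ) + (A3 * c₁ : ℝ) + (A3 * c₂ : ℝ)) * 1 +
        (-((A3 * c₁ : ℝ) : ℂ) - 2 * ((A3 * c₂ : ℝ) : ℂ)) * 0 + ((A3 * c₂ : ℝ) : ℂ) * 0 + 0)) :=
    (((((ta.add tb).add tc).mul t0).add ((tb.neg.sub (tc.const_mul 2)).mul t1)).add (tc.mul t2)).add te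
  have hval : ((A3 * c₀ : ℝ) + (A3 * c₁ : ℝ) + (A3 * c₂ : ℝ)) * 1 +
        (-((A3 * c₁ : ℝ) : ℂ) - 2 * ((A3 * c₂ : ℝ) : ℂ)) * 0 + ((A3 * c₂ : ℝ) : ℂ) * 0 + 0 =
      ((A3 * (c₀ + c₁ + c₂) : ℝ) : ℂ) := by push_cast; ring
  rw [hval] at hlim
  refine hlim.congr' ?_
  filter_upwards [hev] with T hT
  obtain ⟨hT1, hl, hH, hHp⟩ := facts T hT.1
  have hlp : 0 < Real.log T := by linarith
  have hlc : ((Real.log T : ℝ) : ℂ) ≠ 0 := by exact_mod_cast hlp.ne'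
  have hHc : ((HH T : ℝ) : ℂ) ≠ 0 := by exact_mod_cast hH.ne'
  have hpc : ((√π : ℝ) : ℂ) ≠ 0 := by exact_mod_cast sqrt_pi_pos.ne'
  have hEq : (a T + b T + c T) * e0 T + (-b T - 2 * c T) * e1 T + c T * e2 T + er T =
      I2 G T (τ T) / ((HH T * √π * Real.log T ^ 9 : ℝ) : ℂ) := by
    simp only [ha, hb, hc, he0, he1, he2, her]
    push_cast
    generalize ((Real.log T : ℝ) : ℂ) = L at hlc ⊢
    generalize ((HH T : ℝ) : ℂ) = H at hHc ⊢
    generalize ((√π : ℝ) : ℂ) = p at hpc ⊢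
    field_simp
    ring
  exact hEq


end SG

namespace K3
open Complex MeasureTheory Filter Topology Set S6
open scoped Real ComplexConjugate

/-- The region `RegG` is good. -/
theorem goodReg_RegG : K3.GoodReg SG.RegG := by
  refine ⟨SG.RegG_open, SG.RegG_sub, ?_⟩
  intro Ψ hΨ δ hδ τ hτ
  obtain ⟨g1, g2, g3, g4⟩ := SG.GG_RegG hΨ.smooth hΨ.hcs hΨ.supp
  have hE : SG.ErrOK (GG Ψ) := SG.errOK_RegG g1 g2 g3
  have s1 := hΨ.smooth
  have s2 := hΨ.hcs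
  have s3 := hΨ.supp
  have hsR : ∀ p, Ψ p ≠ 0 → p ∈ Reg 1 := fun p hp =>
    SG.RegG_sub (s3 (subset_tsupport _ (Function.mem_support.2 hp)))
  have hs2 : ∀ p, Ψ p ≠ 0 → 0 < p.2.1 ∧ p.2.1 < p.1 ∧ 0 < p.2.2 ∧ p.1 + p.2.1 + p.2.2 < 1 := by
    intro p hp
    obtain ⟨a, b, c, d, -⟩ := hsR p hp
    exact ⟨a, b, c, by linarith⟩
  have hcont : Continuous Ψ := s1.continuous
  have hint : ∀ f : ℝ × ℝ × ℝ → ℝ, Continuous f → Integrable fun p => Ψ p * f p := fun f hf =>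
    (hcont.mul hf).integrable_of_hasCompactSupport (s2.mul_right)
  set c₀ : ℝ := ∫ p : ℝ × ℝ × ℝ, Ψ p * ((p.1 - p.2.1) * (p.2.2 + p.1) * (p.2.2 + p.2.1) / 2) with hc0
  set c₁ : ℝ := ∫ p : ℝ × ℝ × ℝ, Ψ p * (-((p.1 - p.2.1) * (2 * p.2.2 + p.1 + p.2.1)) / 2) with hc1
  set c₂ : ℝ := ∫ p : ℝ × ℝ × ℝ, Ψ p * ((p.1 - p.2.1) / 2) with hc2
  have i0 := hint (fun p => (p.1 - p.2.1) * (p.2.2 + p.1) * (p.2.2 + p.2.1) / 2) (by fun_prop)
  have i1 := hint (fun p => -((p.1 - p.2.1) * (2 * p.2.2 + p.1 + p.2.1)) / 2) (by fun_prop)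
  have i2 := hint (fun p => (p.1 - p.2.1) / 2) (by fun_prop)
  have hpoly : ∀ l : ℝ, ∫ p : ℝ × ℝ × ℝ,
      Ψ p * ((p.1 - p.2.1) * (l - p.2.2 - p.1) * (l - p.2.2 - p.2.1) / 2) =
      c₀ + c₁ * l + c₂ * l ^ 2 := by
    intro l
    have i01 : Integrable fun p : ℝ × ℝ × ℝ =>
        Ψ p * ((p.1 - p.2.1) * (p.2.2 + p.1) * (p.2.2 + p.2.1) / 2) +
        Ψ p * (-((p.1 - p.2.1) * (2 * p.2.2 + p.1 + p.2.1)) / 2) * l := i0.add (i1.mul_const l)
    rw [hc0, hc1, hc2, ← integral_mul_const, ← integral_mul_const, ← integral_add i0 (i1.mul_const l),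
      ← integral_add i01 (i2.mul_const (l ^ 2))]
    refine integral_congr_ae (Eventually.of_forall fun p => ?_)
    ring
  have hq : ∀ l ≥ (3 : ℝ), QB nuB (GG Ψ) l = c₀ + c₁ * l + c₂ * l ^ 2 := fun l hl => by
    rw [QB_GG s1 s2 hs2 hl, hpoly]
  have h1 := hpoly 1
  have hPP : ∫ p, Ψ p * PP p = c₀ + c₁ + c₂ := by
    rw [mul_one, one_pow, mul_one] at h1
    rw [← h1]
    rfl
  -- `Cen` is an eventual statement
  obtain ⟨T₁, hT₁⟩ := eventually_atTop.1 hτ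
  have hδ1 : δ ≤ 1 := by
    have h := hT₁ (max T₁ 1) (le_max_left _ _)
    have hp : (0 : ℝ) < max T₁ 1 := lt_of_lt_of_le one_pos (le_max_right _ _)
    by_contra hc
    push Not at hc
    have : 1 * max T₁ 1 < δ * max T₁ 1 := mul_lt_mul_of_pos_right hc hp
    linarith [h.1, h.2]
  set τ' : ℝ → ℝ := fun T => if δ * T ≤ τ T ∧ τ T ≤ T then τ T else T with hτ'
  have hτ'1 : ∀ T : ℝ, 1 ≤ T → δ * T ≤ τ' T ∧ τ' T ≤ T := by
    intro T hT
    simp only [hτ']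
    split_ifs with h
    · exact h
    · exact ⟨by nlinarith, le_refl T⟩
  have t2 := SG.Z4_limC g4 hE lapB hq hδ hτ'1
  rw [← hPP] at t2
  refine t2.congr' ?_
  filter_upwards [hτ] with T hT
  have : τ' T = τ T := by simp only [hτ']; rw [if_pos hT]
  rw [this]
  rfl

end K3

end
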