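import Pool.Agent.Lib.MP_39df77_nt.Part20
import Pool.Agent.Lib.MP_39df77_nt.Part23
import Pool.Agent.Lib.MP_39df77_nt.Part25
import Pool.Agent.Lib.MP_069854_nt.Part11

section

namespace SG
open Complex MeasureTheory Filter Topology Set S6
open scoped Real ComplexConjugate

/-- **Z2.** copy of `S6.I2_lim` (S6AsmD.lean) with Z1. -/
theorem I2_limG {G : ℝ × ℝ × ℝ → ℝ} (hG : TF 1 G) (hE : ErrOK G)
    {ν : Measure E6} (hν : Lap ν) [SFinite ν] {c₀ c₁ c₂ l₀ : ℝ}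
    (hq : ∀ l ≥ l₀, QB ν G l = c₀ + c₁ * l + c₂ * l ^ 2)
    {δ : ℝ} (hδ : 0 < δ) {τ : ℝ → ℝ} (hτ : ∀ T : ℝ, 1 ≤ T → δ * T ≤ τ T ∧ τ T ≤ T) :
    Tendsto (fun T : ℝ => (I2 G T (τ T)).re / (HH T * √π * Real.log T ^ 9)) atTop
      (𝓝 (MP069854.arith 3 * (c₀ + c₁ + c₂))) := by
  obtain ⟨P, hP⟩ := dual_data
  have hP' : DualData P := hP
  obtain ⟨l₁, l₂, l₃, hl1, hl12, hl23, n1, n2, n3⟩ := three_points ν (max 60 l₀)
  have g60 : (60 : ℝ) ≤ max 60 l₀ := le_max_left _ _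
  have gl0 : l₀ ≤ max 60 l₀ := le_max_right _ _
  set A3 : ℝ := MP069854.arith 3 with hA3
  set a : ℝ → ℂ := fun T => ((Real.log T : ℝ) : ℂ)⁻¹ ^ 9 * Ac P G T with ha
  set b : ℝ → ℂ := fun T => -(((Real.log T : ℝ) : ℂ)⁻¹ ^ 8 * Bc P G T) with hb
  set c : ℝ → ℂ := fun T => ((Real.log T : ℝ) : ℂ)⁻¹ ^ 7 * Cc P G T with hc
  have key : ∀ l : ℝ, max 60 l₀ < l → ν {p | ell p = l} = 0 →
      Tendsto (fun T => a T + b T * l + c T * l ^ 2) atTop
        (𝓝 ((A3 * c₀ : ℝ) + (A3 * c₁ : ℝ) * (l : ℂ) + (A3 * c₂ : ℝ) * (l : ℂ) ^ 2)) := by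
    intro l hl hn
    have := E_side (le_refl (1 : ℝ)) hG hν hP' (by linarith : (60 : ℝ) ≤ l) hn
    rw [hq l (by linarith)] at this
    convert this using 2
    push_cast; ring
  obtain ⟨ta, tb, tc⟩ := interp hl12.ne (hl12.trans hl23).ne hl23.ne (key l₁ hl1 n1)
    (key l₂ (by linarith) n2) (key l₃ (by linarith) n3)
  -- kernel constants
  obtain ⟨η, T₀, hη, hform⟩ := I2_formulaG hG hE hP' hδ
  obtain ⟨C0, T₁, h0⟩ := K0_bound hδ
  obtain ⟨C1, T₂, h1⟩ := Ej_bound 1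
  obtain ⟨C2, T₃, h2⟩ := Ej_bound 2
  have hN : Tendsto (fun T : ℝ => HH T * √π) atTop atTop :=
    HH_tendsto.atTop_mul_const sqrt_pi_pos
  have hlog := Real.tendsto_log_atTop
  have hev : ∀ᶠ T : ℝ in atTop, Real.exp 1 ≤ T ∧ T₀ ≤ T ∧ T₁ ≤ T ∧ T₂ ≤ T ∧ T₃ ≤ T := by
    filter_upwards [eventually_ge_atTop (Real.exp 1), eventually_ge_atTop T₀, eventually_ge_atTop T₁,
      eventually_ge_atTop T₂, eventually_ge_atTop T₃] with T a b c d e
    exact ⟨a, b, c, d, e⟩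
  have facts : ∀ T : ℝ, Real.exp 1 ≤ T → 1 < T ∧ 1 ≤ Real.log T ∧ 0 < HH T ∧ 0 < HH T * √π := by
    intro T hT
    have hT1 := one_lt_of_exp hT
    have hl : 1 ≤ Real.log T := by
      rw [Real.le_log_iff_exp_le (by linarith)]; exact hT
    have hH : 0 < HH T := div_pos (by linarith) (by linarith)
    exact ⟨hT1, hl, hH, mul_pos hH sqrt_pi_pos⟩
  set e0 : ℝ → ℂ := fun T => 2 * π * Ej 0 T (τ T) / ((HH T * √π : ℝ) : ℂ) with he0
  set e1 : ℝ → ℂ := fun T => 2 * π * Ej 1 T (τ T) / ((HH T * √π * Real.log T : ℝ) : ℂ) with he1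
  set e2 : ℝ → ℂ := fun T => 2 * π * Ej 2 T (τ T) / ((HH T * √π * Real.log T ^ 2 : ℝ) : ℂ) with he2
  have t0 : Tendsto e0 atTop (𝓝 1) := by
    rw [← tendsto_sub_nhds_zero_iff, tendsto_zero_iff_norm_tendsto_zero]
    have hz : Tendsto (fun T : ℝ => C0 / (HH T * √π)) atTop (𝓝 0) := hN.const_div_atTop C0
    refine squeeze_zero' (Eventually.of_forall fun _ => norm_nonneg _) ?_ hz
    filter_upwards [hev] with T hT
    obtain ⟨hT1, hl, hH, hHp⟩ := facts T hT.1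
    obtain ⟨d1, d2⟩ := hτ T hT1.le
    obtain ⟨-, hb0⟩ := h0 T hT.2.2.1 (τ T) d1 d2
    have hHc : ((HH T * √π : ℝ) : ℂ) ≠ 0 := by exact_mod_cast hHp.ne'
    have e : e0 T - 1 = (2 * π * Ej 0 T (τ T) - ((HH T * √π : ℝ) : ℂ)) / ((HH T * √π : ℝ) : ℂ) := by
      simp only [he0]
      rw [sub_div, div_self hHc]
    rw [e, norm_div, Complex.norm_real, Real.norm_of_nonneg hHp.le]
    refine div_le_div_of_nonneg_right ?_ hHp.le
    have : Ej 0 T (τ T) = ∫ ξ : ℝ, ker T (τ T) ξ * (zz T ξ)⁻¹ := by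
      unfold Ej; simp
    rw [this]; exact hb0
  have tj : ∀ (j : ℕ), 1 ≤ j → ∀ C T' : ℝ, (∀ T ≥ T', ∀ τ, 0 ≤ τ → τ ≤ T → ‖Ej j T τ‖ ≤
      C * (HH T * √(Real.log T))) → Tendsto (fun T => 2 * π * Ej j T (τ T) /
        ((HH T * √π * Real.log T ^ j : ℝ) : ℂ)) atTop (𝓝 0) := by
    intro j hj C T' hC
    rw [tendsto_zero_iff_norm_tendsto_zero]
    have hz : Tendsto (fun T : ℝ => (2 * π * |C| / √π) * (√(Real.log T))⁻¹) atTop (𝓝 0) := by
      have := (tendsto_inv_atTop_zero.comp (Real.tendsto_sqrt_atTop.comp hlog)).const_mul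
        (2 * π * |C| / √π)
      rw [mul_zero] at this
      exact this
    refine squeeze_zero' (Eventually.of_forall fun _ => norm_nonneg _) ?_ hz
    filter_upwards [hev, eventually_ge_atTop T'] with T hT hT'
    obtain ⟨hT1, hl, hH, hHp⟩ := facts T hT.1
    obtain ⟨d1, d2⟩ := hτ T hT1.le
    have hτ0 : 0 ≤ τ T := le_trans (by positivity) d1
    have hb := hC T hT' (τ T) hτ0 d2
    have hlp : 0 < Real.log T := by linarith
    have hsp : 0 < √(Real.log T) := Real.sqrt_pos.2 hlp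
    rw [norm_div, norm_mul, norm_mul, Complex.norm_ofNat, Complex.norm_real, Complex.norm_real,
      Real.norm_of_nonneg Real.pi_pos.le, Real.norm_of_nonneg (by positivity)]
    have hjl : Real.log T ≤ Real.log T ^ j := le_self_pow₀ hl (by omega)
    calc 2 * π * ‖Ej j T (τ T)‖ / (HH T * √π * Real.log T ^ j)
        ≤ 2 * π * (|C| * (HH T * √(Real.log T))) / (HH T * √π * Real.log T) := by
          have := sqrt_pi_pos
          have hb' : ‖Ej j T (τ T)‖ ≤ |C| * (HH T * √(Real.log T)) :=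
            hb.trans (mul_le_mul_of_nonneg_right (le_abs_self C) (by positivity))
          gcongr
      _ = (2 * π * |C| / √π) * (√(Real.log T))⁻¹ := by
          have h3 : √(Real.log T) * √(Real.log T) = Real.log T := Real.mul_self_sqrt hlp.le
          have := sqrt_pi_pos
          field_simp
          rw [sq, h3]
  have t1 : Tendsto e1 atTop (𝓝 0) := by
    have := tj 1 le_rfl C1 T₂ (fun T hT τ h3 h4 => (h1 T hT τ h3 h4).2)
    simpa only [he1, pow_one] using this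
  have t2 : Tendsto e2 atTop (𝓝 0) :=
    tj 2 (by norm_num) C2 T₃ (fun T hT τ h3 h4 => (h2 T hT τ h3 h4).2)
  -- the error
  set er : ℝ → ℂ := fun T => (I2 G T (τ T) - 2 * π * ((Ac P G T - Bc P G T * Real.log T +
      Cc P G T * Real.log T ^ 2) * Ej 0 T (τ T) +
      (Bc P G T - 2 * Cc P G T * Real.log T) * Ej 1 T (τ T) + Cc P G T * Ej 2 T (τ T))) /
      ((HH T * √π * Real.log T ^ 9 : ℝ) : ℂ) with her
  have te : Tendsto er atTop (𝓝 0) := by
    rw [tendsto_zero_iff_norm_tendsto_zero]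
    have hz : Tendsto (fun T : ℝ => (√π)⁻¹ * T ^ (-η)) atTop (𝓝 0) := by
      have := (tendsto_rpow_neg_atTop hη).const_mul (√π)⁻¹
      rwa [mul_zero] at this
    refine squeeze_zero' (Eventually.of_forall fun _ => norm_nonneg _) ?_ hz
    filter_upwards [hev] with T hT
    obtain ⟨hT1, hl, hH, hHp⟩ := facts T hT.1
    obtain ⟨d1, d2⟩ := hτ T hT1.le
    have hb := hform T hT.2.1 (τ T) d1 d2
    have hTp : 0 < T := by linarith
    have hlp : 0 < Real.log T := by linarith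
    have hs := sqrt_pi_pos
    simp only [her]
    rw [norm_div, Complex.norm_real, Real.norm_of_nonneg (by positivity)]
    have h8 : 1 ≤ Real.log T ^ 8 := one_le_pow₀ hl
    calc _ ≤ T ^ (1 - η) / (HH T * √π * Real.log T ^ 9) :=
          div_le_div_of_nonneg_right hb (by positivity)
      _ = (√π)⁻¹ * T ^ (-η) / Real.log T ^ 8 := by
          have e : T ^ (1 - η) = T * T ^ (-η) := by
            rw [sub_eq_add_neg, Real.rpow_add hTp, Real.rpow_one]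
          rw [e]
          unfold HH
          field_simp
      _ ≤ (√π)⁻¹ * T ^ (-η) := div_le_self (by positivity) h8
  have hlim : Tendsto (fun T => (a T + b T + c T) * e0 T + (-b T - 2 * c T) * e1 T + c T * e2 T + er T)
      atTop (𝓝 (((A3 * c₀ : ℝ) + (A3 * c₁ : ℝ) + (A3 * c₂ : ℝ)) * 1 +
        (-((A3 * c₁ : ℝ) : ℂ) - 2 * ((A3 * c₂ : ℝ) : ℂ)) * 0 + ((A3 * c₂ : ℝ) : ℂ) * 0 + 0)) :=
    (((((ta.add tb).add tc).mul t0).add ((tb.neg.sub (tc.const_mul 2)).mul t1)).add (tc.mul t2)).add te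
  have hval : ((A3 * c₀ : ℝ) + (A3 * c₁ : ℝ) + (A3 * c₂ : ℝ)) * 1 +
        (-((A3 * c₁ : ℝ) : ℂ) - 2 * ((A3 * c₂ : ℝ) : ℂ)) * 0 + ((A3 * c₂ : ℝ) : ℂ) * 0 + 0 =
      ((A3 * (c₀ + c₁ + c₂) : ℝ) : ℂ) := by push_cast; ring
  rw [hval] at hlim
  have hre := (Complex.continuous_re.tendsto _).comp hlim
  rw [ofReal_re] at hre
  refine hre.congr' ?_
  filter_upwards [hev] with T hT
  obtain ⟨hT1, hl, hH, hHp⟩ := facts T hT.1
  have hlp : 0 < Real.log T := by linarith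
  have hlc : ((Real.log T : ℝ) : ℂ) ≠ 0 := by exact_mod_cast hlp.ne'
  have hHc : ((HH T : ℝ) : ℂ) ≠ 0 := by exact_mod_cast hH.ne'
  have hpc : ((√π : ℝ) : ℂ) ≠ 0 := by exact_mod_cast sqrt_pi_pos.ne'
  have hEq : (a T + b T + c T) * e0 T + (-b T - 2 * c T) * e1 T + c T * e2 T + er T =
      I2 G T (τ T) / ((HH T * √π * Real.log T ^ 9 : ℝ) : ℂ) := by
    simp only [ha, hb, hc, he0, he1, he2, her]
    push_cast
    generalize ((Real.log T : ℝ) : ℂ) = L at hlc ⊢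
    generalize ((HH T : ℝ) : ℂ) = H at hHc ⊢
    generalize ((√π : ℝ) : ℂ) = p at hpc ⊢
    field_simp
    ring
  show ((a T + b T + c T) * e0 T + (-b T - 2 * c T) * e1 T + c T * e2 T + er T).re = _
  rw [hEq, Complex.div_ofReal_re]

end SG

end

section

namespace SG
open Complex MeasureTheory Filter Topology Set S6
open scoped Real ComplexConjugate

/-- Lower bound in windows, from one profile (region `RegG`). -/
theorem Z3_window {δ : ℝ} (hδ : 0 < δ) {τ : ℝ → ℝ}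
    (hτ : ∀ T : ℝ, 1 ≤ T → δ * T ≤ τ T ∧ τ T ≤ T) {c' : ℝ} (hA : 0 < MP069854.arith 3)
    (hc' : c' < MP069854.arith 3 * (2 * ∫ p in RegG, PP p ^ 2)) :
    ∀ᶠ T in atTop, c' * (HH T * √π * Real.log T ^ 9) ≤ J6 T (τ T) := by
  set A3 : ℝ := MP069854.arith 3 with hA3
  set V : ℝ := 2 * ∫ p in RegG, PP p ^ 2 with hV
  obtain ⟨Ψ, s1, s2, s3, s4⟩ := cutoffG (η := (A3 * V - c') / (2 * A3))
    (div_pos (by linarith) (by linarith))
  obtain ⟨g1, g2, g3, hTF⟩ := GG_RegG s1 s2 s3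
  have hsR : ∀ p, Ψ p ≠ 0 → p ∈ Reg 1 := fun p hp =>
    RegG_sub (s3 (subset_tsupport _ (Function.mem_support.2 hp)))
  have hs1 : ∀ p, Ψ p ≠ 0 → 0 < p.2.1 ∧ p.2.1 < p.1 ∧ 0 < p.2.2 := fun p hp =>
    ⟨(hsR p hp).1, (hsR p hp).2.1, (hsR p hp).2.2.1⟩
  have hs2 : ∀ p, Ψ p ≠ 0 → 0 < p.2.1 ∧ p.2.1 < p.1 ∧ 0 < p.2.2 ∧ p.1 + p.2.1 + p.2.2 < 1 := by
    intro p hp
    obtain ⟨a, b, c, d, -⟩ := hsR p hp
    exact ⟨a, b, c, by linarith⟩
  have hcont : Continuous Ψ := s1.continuous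
  have hint : ∀ f : ℝ × ℝ × ℝ → ℝ, Continuous f → Integrable fun p => Ψ p * f p := fun f hf =>
    (hcont.mul hf).integrable_of_hasCompactSupport (s2.mul_right)
  set c₀ : ℝ := ∫ p : ℝ × ℝ × ℝ, Ψ p * ((p.1 - p.2.1) * (p.2.2 + p.1) * (p.2.2 + p.2.1) / 2) with hc0
  set c₁ : ℝ := ∫ p : ℝ × ℝ × ℝ, Ψ p * (-((p.1 - p.2.1) * (2 * p.2.2 + p.1 + p.2.1)) / 2) with hc1
  set c₂ : ℝ := ∫ p : ℝ × ℝ × ℝ, Ψ p * ((p.1 - p.2.1) / 2) with hc2
  have i0 := hint (fun p => (p.1 - p.2.1) * (p.2.2 + p.1) * (p.2.2 + p.2.1) / 2) (by fun_prop)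
  have i1 := hint (fun p => -((p.1 - p.2.1) * (2 * p.2.2 + p.1 + p.2.1)) / 2) (by fun_prop)
  have i2 := hint (fun p => (p.1 - p.2.1) / 2) (by fun_prop)
  have hpoly : ∀ l : ℝ, ∫ p : ℝ × ℝ × ℝ,
      Ψ p * ((p.1 - p.2.1) * (l - p.2.2 - p.1) * (l - p.2.2 - p.2.1) / 2) =
      c₀ + c₁ * l + c₂ * l ^ 2 := by
    intro l
    have i01 : Integrable fun p : ℝ × ℝ × ℝ =>
        Ψ p * ((p.1 - p.2.1) * (p.2.2 + p.1) * (p.2.2 + p.2.1) / 2) +
        Ψ p * (-((p.1 - p.2.1) * (2 * p.2.2 + p.1 + p.2.1)) / 2) * l := i0.add (i1.mul_const l)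
    rw [hc0, hc1, hc2, ← integral_mul_const, ← integral_mul_const, ← integral_add i0 (i1.mul_const l),
      ← integral_add i01 (i2.mul_const (l ^ 2))]
    refine integral_congr_ae (Eventually.of_forall fun p => ?_)
    ring
  have hq : ∀ l ≥ (3 : ℝ), QB nuB (GG Ψ) l = c₀ + c₁ * l + c₂ * l ^ 2 := fun l hl => by
    rw [QB_GG s1 s2 hs2 hl, hpoly]
  have h1 := hpoly 1
  have hPP : ∫ p, Ψ p * PP p = c₀ + c₁ + c₂ := by
    rw [mul_one, one_pow, mul_one] at h1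
    rw [← h1]
    rfl
  have t1 := I1_lim le_rfl hTF lapA hδ hτ
  have t2 := I2_limG hTF (errOK_RegG g1 g2 g3) lapB hq hδ hτ
  have t3 := I3_lim le_rfl hTF hδ hτ
  rw [QA_GG s1 s2 hs1] at t1
  rw [← hPP] at t2
  have tl := ((t2.const_mul 4).sub (t1.const_mul 2)).sub (t3.const_mul 2)
  have hlt : c' < 4 * (A3 * ∫ p, Ψ p * PP p) - 2 * (A3 * ∫ p, Ψ p ^ 2) - 2 * 0 := by
    have h2 : A3 * (V - (A3 * V - c') / (2 * A3)) ≤
        A3 * (4 * (∫ p, Ψ p * PP p) - 2 * ∫ p, Ψ p ^ 2) := mul_le_mul_of_nonneg_left s4 hA.le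
    have h3 : A3 * (V - (A3 * V - c') / (2 * A3)) = (A3 * V + c') / 2 := by
      field_simp; ring
    linarith
  have hev := tl.eventually (lt_mem_nhds hlt)
  filter_upwards [hev, eventually_ge_atTop (Real.exp 1)] with T hT hT'
  have hT1 := one_lt_of_exp hT'
  have hl : 0 < Real.log T := Real.log_pos hT1
  have hH : 0 < HH T := div_pos (by linarith) hl
  have hp := sqrt_pi_pos
  have hD : 0 < HH T * √π * Real.log T ^ 9 := by positivity
  have hpt := A_point (GG Ψ) hT1 (τ T)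
  have h4 : c' < (4 * (I2 (GG Ψ) T (τ T)).re - 2 * I1 (GG Ψ) T (τ T) - 2 * (I3 (GG Ψ) T (τ T)).re) /
      (HH T * √π * Real.log T ^ 9) := by
    refine hT.trans_eq ?_
    ring
  rw [lt_div_iff₀ hD] at h4
  linarith

/-- **Z3.** copy of `S6.window_bound`, `S6.sixth_of_kloos` (S6AsmE.lean) with `RegG`: cutoffG, GG_RegG,
errOK_RegG, I1_lim and I3_lim with `κ = 1`, Z2. -/
theorem sixthG (hV : 0 < ∫ p in RegG, PP p ^ 2) :
    ∀ c' < MP069854.arith 3 * (2 * ∫ p in RegG, PP p ^ 2), ∀ᶠ T : ℝ in atTop,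
      c' * Real.log T ^ 9 ≤ T⁻¹ * ∫ t in (0 : ℝ)..T, ‖riemannZeta (1 / 2 + I * t)‖ ^ 6 := by
  have hA : 0 < MP069854.arith 3 := MP069854.arith_pos 3
  exact A_avg (by positivity) fun _ hδ _ hτ _ hc' => Z3_window hδ hτ hA hc'

end SG

end

section

/-! Mixed moment and distance of `ζ³` to the test sums, in windows (helper11). -/

namespace TM
open Complex MeasureTheory Filter Topology Set S6 S6.A68
open scoped Real ComplexConjugate

/-- the approximant -/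
noncomputable def Ap (G : ℝ × ℝ × ℝ → ℝ) (T t : ℝ) : ℂ :=
  conj (MP069854.chi (1 / 2 + t * I)) * BB G T t +
    conj (MP069854.chi (1 / 2 + t * I)) ^ 2 * conj (BB G T t)

lemma point_eq (z X B : ℂ) (h1 : conj z = X * z) (h2 : X * conj X = 1) :
    ‖z‖ ^ 6 - ‖z ^ 3 - (conj X * B + conj X ^ 2 * conj B)‖ ^ 2 =
      4 * (((‖z‖ ^ 2 : ℝ) : ℂ) * z * conj B).re - 2 * ‖B‖ ^ 2 - 2 * (X * B ^ 2).re := by
  have hz : ((‖z‖ ^ 2 : ℝ) : ℂ) = z * conj z := by rw [mul_conj, normSq_eq_norm_sq]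
  have hB : ((‖B‖ ^ 2 : ℝ) : ℂ) = B * conj B := by rw [mul_conj, normSq_eq_norm_sq]
  have e1 : ((normSq (z ^ 3 - (conj X * B + conj X ^ 2 * conj B)) : ℝ) : ℂ) =
      (z * conj z) ^ 3 - 2 * ((z * conj z) * z * conj B) - 2 * conj ((z * conj z) * z * conj B)
        + 2 * (B * conj B) + (X * B ^ 2 + conj (X * B ^ 2)) := by
    rw [← mul_conj]
    simp only [map_sub, map_add, map_mul, map_pow, Complex.conj_conj]
    set Y := conj X
    set w := conj z
    set D := conj B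
    rw [h1]
    linear_combination (-z ^ 3 * B * X ^ 2 - z ^ 3 * D * X * (X * Y + 1) + B * D + B ^ 2 * X +
      Y * D ^ 2 + B * D * (X * Y + 1)) * h2
  have e2 : normSq (z ^ 3 - (conj X * B + conj X ^ 2 * conj B)) =
      ‖z‖ ^ 6 - 4 * (((‖z‖ ^ 2 : ℝ) : ℂ) * z * conj B).re + 2 * ‖B‖ ^ 2 + 2 * (X * B ^ 2).re := by
    rw [← hz, ← hB] at e1
    have e3 := congrArg Complex.re e1
    rw [ofReal_re] at e3
    rw [e3]
    have q1 : ∀ u : ℂ, (conj u).re = u.re := fun u => conj_re u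
    have q2 : ((((‖z‖ ^ 2 : ℝ) : ℂ) ^ 3).re) = ‖z‖ ^ 6 := by
      rw [← ofReal_pow, ofReal_re]; ring
    have q3 : (((‖B‖ ^ 2 : ℝ) : ℂ)).re = ‖B‖ ^ 2 := ofReal_re _
    have q4 : ∀ u : ℂ, (2 * u).re = 2 * u.re := fun u => by
      rw [mul_re]; norm_num
    rw [add_re, add_re, sub_re, sub_re, add_re, q4, q4, q4, q1, q1, q2, q3]
    ring
  rw [← normSq_eq_norm_sq (z ^ 3 - _), e2]
  ring

lemma comb_eq {f1 f2 f3 f4 f5 : ℝ → ℝ} (i1 : Integrable (fun t => f1 t))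
    (i2 : Integrable (fun t => f2 t)) (i3 : Integrable (fun t => f3 t))
    (i4 : Integrable (fun t => f4 t)) (i5 : Integrable (fun t => f5 t))
    (h : ∀ t, f4 t - f5 t = 4 * f2 t - 2 * f1 t - 2 * f3 t) :
    (∫ t, f4 t) - (∫ t, f5 t) = 4 * (∫ t, f2 t) - 2 * (∫ t, f1 t) - 2 * (∫ t, f3 t) := by
  have a1 : Integrable (fun t => 2 * f1 t) := i1.const_mul 2
  have a2 : Integrable (fun t => 4 * f2 t) := i2.const_mul 4
  have a3 : Integrable (fun t => 2 * f3 t) := i3.const_mul 2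
  have a4 : Integrable (fun t => 4 * f2 t - 2 * f1 t) := a2.sub a1
  rw [← integral_sub i4 i5, ← integral_const_mul, ← integral_const_mul, ← integral_const_mul,
    ← integral_sub a2 a1, ← integral_sub a4 a3]
  exact integral_congr_ae (Eventually.of_forall fun t => h t)

/-- the exact identity in a window -/
theorem window_eq (G : ℝ × ℝ × ℝ → ℝ) {T : ℝ} (hT : 1 < T) (τ : ℝ) :
    J6 T τ - ∫ t : ℝ, ‖riemannZeta (1 / 2 + t * I) ^ 3 - Ap G T t‖ ^ 2 * win T τ t =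
    4 * (I2 G T τ).re - 2 * I1 G T τ - 2 * (I3 G T τ).re := by
  obtain ⟨C, hC1, hC⟩ := zeta_half_growth
  obtain ⟨D, hD0, hD⟩ := BB_bound G T
  have cz := zeta_half_cont
  have cB : Continuous (fun t => BB G T t) := A68.BB_cont G T
  have cX := chi_half_cont
  have cB' : Continuous (fun t => conj (BB G T t)) := continuous_conj.comp cB
  have cX' : Continuous (fun t : ℝ => conj (MP069854.chi (1 / 2 + t * I))) := continuous_conj.comp cX
  have hge1 : ∀ t : ℝ, 1 ≤ 1 + |t| := fun t => by linarith [abs_nonneg t]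
  -- integrability of the four pieces
  have i1 : Integrable (fun t : ℝ => win T τ t • ‖BB G T t‖ ^ 2) :=
    int_win hT (f := fun t => ‖BB G T t‖ ^ 2) (by fun_prop) (C := D ^ 2) (n := 0) (fun t => by
      rw [pow_zero, mul_one, Real.norm_of_nonneg (by positivity)]
      exact pow_le_pow_left₀ (norm_nonneg _) (hD t) 2) τ
  have i2 : Integrable (fun t : ℝ => win T τ t • (((‖riemannZeta (1 / 2 + t * I)‖ ^ 2 : ℝ) : ℂ) *
      riemannZeta (1 / 2 + t * I) * conj (BB G T t))) :=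
    int_win hT (f := fun t => ((‖riemannZeta (1 / 2 + t * I)‖ ^ 2 : ℝ) : ℂ) *
      riemannZeta (1 / 2 + t * I) * conj (BB G T t)) (by fun_prop) (C := C ^ 3 * D) (n := 3)
      (fun t => by
        rw [norm_mul, norm_mul, RCLike.norm_conj, Complex.norm_real, Real.norm_of_nonneg (by positivity)]
        calc _ ≤ (C * (1 + |t|)) ^ 2 * (C * (1 + |t|)) * D := by
              gcongr
              · exact hC t
              · exact hC t
              · exact hD t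
          _ = _ := by ring) τ
  have i3 : Integrable (fun t : ℝ => win T τ t • (MP069854.chi (1 / 2 + t * I) * BB G T t ^ 2)) :=
    int_win hT (f := fun t => MP069854.chi (1 / 2 + t * I) * BB G T t ^ 2) (by fun_prop) (C := D ^ 2)
      (n := 0) (fun t => by
        rw [norm_mul, chi_half_norm, one_mul, norm_pow, pow_zero, mul_one]
        exact pow_le_pow_left₀ (norm_nonneg _) (hD t) 2) τ
  have i4 : Integrable (fun t : ℝ => win T τ t • ‖riemannZeta (1 / 2 + t * I)‖ ^ 6) :=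
    int_win hT (f := fun t : ℝ => ‖riemannZeta (1 / 2 + t * I)‖ ^ 6) (by fun_prop) (C := C ^ 6)
      (n := 6) (fun t => by
        rw [Real.norm_of_nonneg (by positivity), ← mul_pow]
        exact pow_le_pow_left₀ (norm_nonneg _) (hC t) 6) τ
  have hApn : ∀ t, ‖Ap G T t‖ ≤ 2 * D := by
    intro t
    unfold Ap
    refine (norm_add_le _ _).trans ?_
    rw [norm_mul, norm_mul, norm_pow, RCLike.norm_conj, RCLike.norm_conj, chi_half_norm]
    linarith [hD t]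
  have cA : Continuous (fun t => Ap G T t) := by
    unfold Ap
    exact (cX'.mul cB).add ((cX'.pow 2).mul cB')
  have i5 : Integrable (fun t : ℝ => win T τ t • ‖riemannZeta (1 / 2 + t * I) ^ 3 - Ap G T t‖ ^ 2) :=
    int_win hT (f := fun t : ℝ => ‖riemannZeta (1 / 2 + t * I) ^ 3 - Ap G T t‖ ^ 2)
      (by fun_prop) (C := (C ^ 3 + 2 * D) ^ 2) (n := 6) (fun t => by
        rw [Real.norm_of_nonneg (by positivity)]
        have h1 : ‖riemannZeta (1 / 2 + t * I) ^ 3 - Ap G T t‖ ≤ (C ^ 3 + 2 * D) * (1 + |t|) ^ 3 := by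
          refine (norm_sub_le _ _).trans ?_
          rw [norm_pow, add_mul]
          refine add_le_add ?_ ?_
          · rw [← mul_pow]
            exact pow_le_pow_left₀ (norm_nonneg _) (hC t) 3
          · exact (hApn t).trans (le_mul_of_one_le_right (by positivity) (one_le_pow₀ (hge1 t)))
        calc _ ≤ ((C ^ 3 + 2 * D) * (1 + |t|) ^ 3) ^ 2 := pow_le_pow_left₀ (norm_nonneg _) h1 2
          _ = _ := by ring) τ
  have e1 : I1 G T τ = ∫ t : ℝ, win T τ t • ‖BB G T t‖ ^ 2 := by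
    unfold I1
    exact integral_congr_ae (Eventually.of_forall fun t => by simp [mul_comm])
  have e2 : (I2 G T τ).re = ∫ t : ℝ, (win T τ t • (((‖riemannZeta (1 / 2 + t * I)‖ ^ 2 : ℝ) : ℂ) *
      riemannZeta (1 / 2 + t * I) * conj (BB G T t))).re := by
    have e : I2 G T τ = ∫ t : ℝ, win T τ t • (((‖riemannZeta (1 / 2 + t * I)‖ ^ 2 : ℝ) : ℂ) *
      riemannZeta (1 / 2 + t * I) * conj (BB G T t)) := by
      unfold I2
      exact integral_congr_ae (Eventually.of_forall fun t => by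
        simp only [Complex.real_smul]; ring)
    rw [e]
    exact (integral_re i2).symm
  have e3 : (I3 G T τ).re = ∫ t : ℝ, (win T τ t • (MP069854.chi (1 / 2 + t * I) * BB G T t ^ 2)).re := by
    have e : I3 G T τ = ∫ t : ℝ, win T τ t • (MP069854.chi (1 / 2 + t * I) * BB G T t ^ 2) := by
      unfold I3
      exact integral_congr_ae (Eventually.of_forall fun t => by
        simp only [Complex.real_smul]; ring)
    rw [e]
    exact (integral_re i3).symm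
  have e4 : J6 T τ = ∫ t : ℝ, win T τ t • ‖riemannZeta (1 / 2 + t * I)‖ ^ 6 := by
    unfold J6
    exact integral_congr_ae (Eventually.of_forall fun t => by simp [mul_comm])
  have e5 : ∫ t : ℝ, ‖riemannZeta (1 / 2 + t * I) ^ 3 - Ap G T t‖ ^ 2 * win T τ t =
      ∫ t : ℝ, win T τ t • ‖riemannZeta (1 / 2 + t * I) ^ 3 - Ap G T t‖ ^ 2 :=
    integral_congr_ae (Eventually.of_forall fun t => by simp [mul_comm])
  have i2' : Integrable (fun t : ℝ => (win T τ t • (((‖riemannZeta (1 / 2 + t * I)‖ ^ 2 : ℝ) : ℂ) *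
      riemannZeta (1 / 2 + t * I) * conj (BB G T t))).re) := i2.re
  have i3' : Integrable (fun t : ℝ => (win T τ t •
      (MP069854.chi (1 / 2 + t * I) * BB G T t ^ 2)).re) := i3.re
  rw [e1, e2, e3, e4, e5]
  refine comb_eq i1 i2' i3' i4 i5 fun t => ?_
  have hp := point_eq (riemannZeta (1 / 2 + t * I)) (MP069854.chi (1 / 2 + t * I)) (BB G T t)
    (zeta_conj_half t) (chi_mul_conj_half t)
  have := congrArg (HMul.hMul (win T τ t)) hp
  rw [Complex.smul_re, Complex.smul_re, smul_eq_mul, smul_eq_mul, smul_eq_mul, smul_eq_mul,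
    smul_eq_mul]
  unfold Ap
  linear_combination this

/-- the three limits for a profile supported in `RegG` -/
theorem limits {Ψ : ℝ × ℝ × ℝ → ℝ} (s1 : ContDiff ℝ (⊤ : ℕ∞) Ψ) (s2 : HasCompactSupport Ψ)
    (s3 : tsupport Ψ ⊆ SG.RegG) {δ : ℝ} (hδ : 0 < δ) {τ : ℝ → ℝ}
    (hτ : ∀ T : ℝ, 1 ≤ T → δ * T ≤ τ T ∧ τ T ≤ T) :
    Tendsto (fun T : ℝ => I2 (GG Ψ) T (τ T) / ((K3.NN T : ℝ) : ℂ)) atTop
      (𝓝 ((MP069854.arith 3 * ∫ p, Ψ p * PP p : ℝ) : ℂ)) ∧
    Tendsto (fun T : ℝ => I1 (GG Ψ) T (τ T) / K3.NN T) atTop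
      (𝓝 (MP069854.arith 3 * ∫ p, Ψ p ^ 2)) ∧
    Tendsto (fun T : ℝ => (J6 T (τ T) - ∫ t : ℝ, ‖riemannZeta (1 / 2 + t * I) ^ 3 -
        Ap (GG Ψ) T t‖ ^ 2 * win T (τ T) t) / K3.NN T) atTop
      (𝓝 (MP069854.arith 3 * (4 * (∫ p, Ψ p * PP p) - 2 * ∫ p, Ψ p ^ 2))) := by
  obtain ⟨g1, g2, g3, hTF⟩ := SG.GG_RegG s1 s2 s3
  have hs1 : ∀ p, Ψ p ≠ 0 → 0 < p.2.1 ∧ p.2.1 < p.1 ∧ 0 < p.2.2 := fun p hp => by
    have h := SG.RegG_sub (s3 (subset_tsupport _ (Function.mem_support.2 hp)))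
    exact ⟨h.1, h.2.1, h.2.2.1⟩
  have t2 := K3.goodRG.lim Ψ ⟨s1, s2, s3⟩ δ hδ τ
    (by filter_upwards [eventually_ge_atTop (1 : ℝ)] with T hT using hτ T hT)
  have t1 := I1_lim le_rfl hTF lapA hδ hτ
  have t3 := I3_lim le_rfl hTF hδ hτ
  rw [QA_GG s1 s2 hs1] at t1
  refine ⟨t2, t1, ?_⟩
  have t2' := (Complex.continuous_re.tendsto _).comp t2
  rw [ofReal_re] at t2'
  have tl := ((t2'.const_mul 4).sub (t1.const_mul 2)).sub (t3.const_mul 2)
  have hval : 4 * (K3.A3 * ∫ p, Ψ p * PP p) - 2 * (MP069854.arith 3 * ∫ p, Ψ p ^ 2) - 2 * 0 =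
      MP069854.arith 3 * (4 * (∫ p, Ψ p * PP p) - 2 * ∫ p, Ψ p ^ 2) := by
    unfold K3.A3; ring
  rw [hval] at tl
  refine tl.congr' ?_
  filter_upwards [eventually_gt_atTop (1 : ℝ)] with T hT
  rw [window_eq (GG Ψ) hT (τ T)]
  simp only [Function.comp, Complex.div_ofReal_re, K3.NN]
  ring

end TM

end
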